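import Pool.Agent.Lib_MP_0e5907.Sides

/-!
# Piece AREA: face boundary of a difference, the AREA identity, Sperner's lemma

Paper proof.
* `bd_dif`: for a face `g`, `∑_k (x (vert g (k+1)) - x (vert g (k+2))) = 0` (telescoping in `Fin 3`). Each side `(g,k)` is
  either `(lf e, e.2+1)`: then `vert g (k+1) = vert (lf e) (e.2+2) = inl e.1` and `vert g (k+2) = vert (lf e) e.2 = par e`,
  so the term is `dif x e`; or `(rf e, e.2+2)`: `vert g (k+1) = vert (rf e) e.2 = par e`, `vert g (k+2) = vert (rf e) (e.2+1)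
  = inl e.1`, term `- dif x e`; or `(of j, j)`: term `x (inr (j+1)) - x (inr (j+2))`. Apply `sum_sides` to
  `Φ g' k = if g' = g then x (vert g' (k+1)) - x (vert g' (k+2)) else 0`.
* `sum_bd`: `∑_g bd φ g = ∑_e φ e - ∑_e φ e = 0` (swap the sums).
* `area_identity`: for rows `q0,q1,q2` in `ℝ³` with coordinate sum `1` one has
  `det(q0,q1,q2) = [q0,q1] + [q1,q2] + [q2,q0]`, `[a,b] = a 0 * b 1 - a 1 * b 0` (expand, `a 2 = 1 - a 0 - a 1`; `Matrix.det_fin_three`,
  `ring` after substitution, or `linear_combination`). Sum over the faces: `∑_g ∑_k [q(vert g (k+1)), q(vert g (k+2))]`, use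
  `sum_sides`: the `lf e` term is `[q tail, q head]`, the `rf e` term is `[q head, q tail]`, they cancel; the outer terms give
  `∑_j [q(inr(j+1)), q(inr(j+2))] = det (q ∘ inr)`.
* `sperner`: apply `area_identity` to `q v = Pi.single (lam v) 1`; the right side is `det 1 = 1`, so some face has a nonzero
  determinant; a matrix of rows `Pi.single (a i) 1` with non injective `a` has two equal rows, so its determinant is `0`.
-/

namespace MP0e5907

open Finset

variable {N F : Type}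

theorem area_fin (c : Fin 3) : c + 1 + 1 = c + 2 ∧ c + 1 + 2 = c ∧ c + 2 + 1 = c ∧ c + 2 + 2 = c + 1 := by
  revert c
  decide

theorem area_lf1 (T : STri N F) (e : N × Fin 3) : T.vert (T.lf e) (e.2 + 1 + 1) = Sum.inl e.1 := by
  rw [(area_fin e.2).1]
  exact T.lf_tail e

theorem area_lf2 (T : STri N F) (e : N × Fin 3) : T.vert (T.lf e) (e.2 + 1 + 2) = T.par e.1 e.2 := by
  rw [(area_fin e.2).2.1]
  exact T.lf_head e

theorem area_rf1 (T : STri N F) (e : N × Fin 3) : T.vert (T.rf e) (e.2 + 2 + 1) = T.par e.1 e.2 := by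
  rw [(area_fin e.2).2.2.1]
  exact T.rf_head e

theorem area_rf2 (T : STri N F) (e : N × Fin 3) : T.vert (T.rf e) (e.2 + 2 + 2) = Sum.inl e.1 := by
  rw [(area_fin e.2).2.2.2]
  exact T.rf_tail e

theorem bd_dif [Fintype N] [Fintype F] [DecidableEq F] (T : STri N F) (x : N ⊕ Fin 3 → ℝ) (g : F) :
    bd T (dif T x) g =
      - ∑ j : Fin 3, if T.of j = g then x (Sum.inr (j + 1)) - x (Sum.inr (j + 2)) else 0 := by
  have h := sum_sides T (fun g' k => if g' = g then x (T.vert g' (k + 1)) - x (T.vert g' (k + 2)) else 0)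
  have hL : (∑ g', ∑ k : Fin 3, if g' = g then x (T.vert g' (k + 1)) - x (T.vert g' (k + 2)) else 0) = 0 := by
    refine Finset.sum_eq_zero fun g' _ => ?_
    by_cases hg : g' = g
    · subst hg
      simp only [if_true, Fin.sum_univ_three]
      have e1 : (0 : Fin 3) + 1 = 1 := rfl
      have e2 : (0 : Fin 3) + 2 = 2 := rfl
      have e3 : (1 : Fin 3) + 1 = 2 := rfl
      have e4 : (1 : Fin 3) + 2 = 0 := rfl
      have e5 : (2 : Fin 3) + 1 = 0 := rfl
      have e6 : (2 : Fin 3) + 2 = 1 := rfl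
      rw [e1, e2, e3, e4, e5, e6]
      ring
    · simp only [if_neg hg, Finset.sum_const_zero]
  rw [hL] at h
  have hR : (∑ e : N × Fin 3, ((if T.lf e = g then x (T.vert (T.lf e) (e.2 + 1 + 1)) -
      x (T.vert (T.lf e) (e.2 + 1 + 2)) else 0) + (if T.rf e = g then x (T.vert (T.rf e) (e.2 + 2 + 1)) -
      x (T.vert (T.rf e) (e.2 + 2 + 2)) else 0))) = bd T (dif T x) g := by
    unfold bd
    rw [← Finset.sum_sub_distrib]
    refine Finset.sum_congr rfl fun e _ => ?_
    rw [area_lf1, area_lf2, area_rf1, area_rf2]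
    unfold dif
    split_ifs <;> ring
  have hO : (∑ j : Fin 3, if T.of j = g then x (T.vert (T.of j) (j + 1)) - x (T.vert (T.of j) (j + 2)) else 0) =
      ∑ j : Fin 3, if T.of j = g then x (Sum.inr (j + 1)) - x (Sum.inr (j + 2)) else 0 := by
    refine Finset.sum_congr rfl fun j _ => ?_
    rw [T.of_one, T.of_two]
  rw [hR, hO] at h
  linarith

theorem sum_bd [Fintype N] [Fintype F] [DecidableEq F] (T : STri N F) (φ : N × Fin 3 → ℝ) :
    ∑ g, bd T φ g = 0 := by
  unfold bd
  rw [Finset.sum_sub_distrib, Finset.sum_comm, Finset.sum_comm (f := fun g e => if T.rf e = g then φ e else 0)]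
  simp

/-- determinant of three rows with coordinate sum one -/
theorem area_det (p : Fin 3 → Fin 3 → ℝ) (hp : ∀ i, ∑ j, p i j = 1) :
    (Matrix.of fun i j => p i j : Matrix (Fin 3) (Fin 3) ℝ).det =
      ∑ k : Fin 3, (p (k + 1) 0 * p (k + 2) 1 - p (k + 1) 1 * p (k + 2) 0) := by
  have h : ∀ i, p i 2 = 1 - p i 0 - p i 1 := by
    intro i
    have := hp i
    rw [Fin.sum_univ_three] at this
    linarith
  rw [Matrix.det_fin_three, Fin.sum_univ_three]
  have e1 : (0 : Fin 3) + 1 = 1 := rfl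
  have e2 : (0 : Fin 3) + 2 = 2 := rfl
  have e3 : (1 : Fin 3) + 1 = 2 := rfl
  have e4 : (1 : Fin 3) + 2 = 0 := rfl
  have e5 : (2 : Fin 3) + 1 = 0 := rfl
  have e6 : (2 : Fin 3) + 2 = 1 := rfl
  rw [e1, e2, e3, e4, e5, e6]
  simp only [Matrix.of_apply, h]
  ring

theorem area_identity [Fintype N] [Fintype F] (T : STri N F) (q : N ⊕ Fin 3 → Fin 3 → ℝ)
    (hq : ∀ v, ∑ j, q v j = 1) :
    ∑ g, fdet T q g = (Matrix.of fun i j => q (Sum.inr i) j : Matrix (Fin 3) (Fin 3) ℝ).det := by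
  have h1 : ∀ g, fdet T q g = ∑ k : Fin 3, (q (T.vert g (k + 1)) 0 * q (T.vert g (k + 2)) 1 -
      q (T.vert g (k + 1)) 1 * q (T.vert g (k + 2)) 0) := fun g =>
    area_det (fun i => q (T.vert g i)) fun i => hq _
  rw [Finset.sum_congr rfl fun g _ => h1 g, area_det (fun i => q (Sum.inr i)) fun i => hq _,
    sum_sides T (fun g k => q (T.vert g (k + 1)) 0 * q (T.vert g (k + 2)) 1 -
      q (T.vert g (k + 1)) 1 * q (T.vert g (k + 2)) 0)]
  have h2 : (∑ e : N × Fin 3, ((q (T.vert (T.lf e) (e.2 + 1 + 1)) 0 * q (T.vert (T.lf e) (e.2 + 1 + 2)) 1 -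
      q (T.vert (T.lf e) (e.2 + 1 + 1)) 1 * q (T.vert (T.lf e) (e.2 + 1 + 2)) 0) +
      (q (T.vert (T.rf e) (e.2 + 2 + 1)) 0 * q (T.vert (T.rf e) (e.2 + 2 + 2)) 1 -
      q (T.vert (T.rf e) (e.2 + 2 + 1)) 1 * q (T.vert (T.rf e) (e.2 + 2 + 2)) 0))) = 0 := by
    refine Finset.sum_eq_zero fun e _ => ?_
    rw [area_lf1, area_lf2, area_rf1, area_rf2]
    ring
  rw [h2, zero_add]
  refine Finset.sum_congr rfl fun j _ => ?_
  rw [T.of_one, T.of_two]

theorem sperner [Fintype N] [Fintype F] (T : STri N F) (lam : N ⊕ Fin 3 → Fin 3)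
    (h : ∀ i, lam (Sum.inr i) = i) : ∃ g, Function.Injective fun i => lam (T.vert g i) := by
  by_contra hcon
  push Not at hcon
  have hA := area_identity T (fun v => Pi.single (lam v) 1) (fun v => by simp)
  have h1 : (Matrix.of fun i j => (Pi.single (lam (Sum.inr i)) (1 : ℝ) : Fin 3 → ℝ) j :
      Matrix (Fin 3) (Fin 3) ℝ) = 1 := by
    ext i j
    rw [Matrix.of_apply, h, Matrix.one_apply, Pi.single_apply]
    simp only [eq_comm]
  rw [h1, Matrix.det_one] at hA
  have h2 : ∀ g, fdet T (fun v => (Pi.single (lam v) (1 : ℝ) : Fin 3 → ℝ)) g = 0 := by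
    intro g
    have hg := hcon g
    rw [Function.Injective] at hg
    push Not at hg
    obtain ⟨a, b, hab, hne⟩ := hg
    unfold fdet
    refine Matrix.det_zero_of_row_eq hne ?_
    funext j
    simp only [Matrix.of_apply]
    rw [hab]
  rw [Finset.sum_eq_zero fun g _ => h2 g] at hA
  exact zero_ne_one hA

end MP0e5907
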