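import Pool.Agent.Lib_MP_0e5907.Exact

/-!
# Piece BASISA: potentials of a basis, total unimodularity, Lemma A, exchange

`IsB T S` : `|S| = |N|` and the only `y : N → ℝ` with `dif (ext0 y) e = 0` for all `e ∈ S` is `0`.

Paper proof.
* `IsB_solve`: the linear map `ℝ^N → ℝ^S`, `y ↦ (dif (ext0 y) e)_{e ∈ S}` is injective between spaces of the same
  dimension, hence surjective (`LinearMap.injective_iff_surjective_of_finrank_eq_finrank` or similar). The map
  `y ↦ dif (ext0 y) e` is linear.
* `IsB_solve_root`: given `r : Fin 3 → ℝ` there is `x : V → ℝ` with `x (inr i) = r i` and `dif x e = 0` on `S`: take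
  `x0 = Sum.elim 0 r` and `x = x0 + ext0 y` with `dif (ext0 y) e = - dif x0 e` on `S`.
* `IsB_unit` (total unimodularity): let `u` be the dual potential of `z ∈ S` (`dif (ext0 u) = 0` on `S \ z`,
  `dif (ext0 u) z = 1`). Let `a, b` be the values of `ext0 u` at tail and head of `z`, `a - b = 1`, `s = a + b`. The function
  `w = u^2 - s u` satisfies `dif (ext0 w) e = 0` for all `e ∈ S`: for `e ≠ z` the values of `ext0 u` at tail and head agree,
  for `e = z`: `a^2 - b^2 - s (a - b) = 0`. (`ext0 (u^2 - s u) = (ext0 u)^2 - s ext0 u`.) So `u^2 = s u`, i.e. all values of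
  `ext0 u` are in `{0, s}`; from `a - b = 1` we get `s = 1` or `s = -1`. Hence for every edge `r`,
  `dif (ext0 u) r ∈ {0, 1, -1}`.
* `IsB_colour`: let `x i` be the potential of `IsB_solve_root` for `r = Pi.single i 1`. As before `x i ^2 - x i` vanishes at the
  roots and is constant along `S`, so it is `0`: values in `{0,1}`. `∑_i x i - 1` vanishes at the roots and is
  constant along `S`, so it is `0`. So for every vertex `v` exactly one `i =: col v` has `x i v = 1`. Its properties:
  `col (inr i) = i` and `col` is constant along the edges of `S`.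
* `IsB_swap`: let `u` be the dual potential of `z ∈ S`, `r` an edge with `dif (ext0 u) r ≠ 0`, `S' = insert r (S.erase z)`. `r ∉ S.erase z`
  (there the difference is `0`), so `|S'| = |S|`. If `dif (ext0 y) e = 0` on `S'` put `y' = y - (dif (ext0 y) z) u`: it has zero
  differences on `S`, so `y' = 0`, `y = c u` with `c = dif (ext0 y) z`, and `0 = dif (ext0 y) r = c * dif (ext0 u) r`, so `c = 0`, `y = 0`.
* `lemmaA`: `φ = 0` on `S` and `bd φ = 0`: by `exact_bd`, `φ = dif (ext0 y)`, zero on `S`, so `y = 0`, `φ = 0`.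
-/

namespace MP0e5907

open Finset

variable {N F : Type} [Fintype N] [Fintype F]

omit [Fintype N] [Fintype F] in
private theorem basisA_dif (T : STri N F) (x : N ⊕ Fin 3 → ℝ) (e : N × Fin 3) :
    dif T x e = x (Sum.inl e.1) - x (T.par e.1 e.2) := rfl

omit [Fintype N] [Fintype F] in
private theorem basisA_add (T : STri N F) (y y' : N → ℝ) (e : N × Fin 3) :
    dif T (ext0 (y + y')) e = dif T (ext0 y) e + dif T (ext0 y') e := by
  have h : ∀ v, ext0 (y + y') v = ext0 y v + ext0 y' v := by
    rintro (v | v)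
    · rfl
    · exact (add_zero (0 : ℝ)).symm
  rw [basisA_dif, basisA_dif, basisA_dif, h, h]
  ring

omit [Fintype N] [Fintype F] in
private theorem basisA_smul (T : STri N F) (c : ℝ) (y : N → ℝ) (e : N × Fin 3) :
    dif T (ext0 (c • y)) e = c * dif T (ext0 y) e := by
  have h : ∀ v, ext0 (c • y) v = c * ext0 y v := by
    rintro (v | v)
    · rfl
    · exact (mul_zero c).symm
  rw [basisA_dif, basisA_dif, h, h]
  ring

omit [Fintype F] in
private theorem basisA_zero (T : STri N F) (S : Finset (N × Fin 3)) (hS : IsB T S)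
    (x : N ⊕ Fin 3 → ℝ) (hr : ∀ i, x (Sum.inr i) = 0) (h : ∀ e ∈ S, dif T x e = 0) :
    ∀ v, x v = 0 := by
  have hx : x = ext0 (fun v => x (Sum.inl v)) := by
    funext v
    rcases v with v | v
    · rfl
    · exact hr v
  have h1 : (fun v => x (Sum.inl v)) = 0 := by
    refine hS.2 _ fun e he => ?_
    rw [← hx]
    exact h e he
  rintro (v | v)
  · exact congrFun h1 v
  · exact hr v

theorem IsB_solve (T : STri N F) (S : Finset (N × Fin 3)) (hS : IsB T S) (τ : N × Fin 3 → ℝ) :
    ∃ y : N → ℝ, ∀ e ∈ S, dif T (ext0 y) e = τ e := by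
  let L : (N → ℝ) →ₗ[ℝ] ({e // e ∈ S} → ℝ) :=
    { toFun := fun y e => dif T (ext0 y) e
      map_add' := fun y y' => funext fun e => basisA_add T y y' e
      map_smul' := fun c y => funext fun e => basisA_smul T c y e }
  have hinj : Function.Injective L := by
    rw [injective_iff_map_eq_zero]
    intro y hy
    exact hS.2 y fun e he => congrFun hy ⟨e, he⟩
  have hfin : Module.finrank ℝ (N → ℝ) = Module.finrank ℝ ({e // e ∈ S} → ℝ) := by
    rw [Module.finrank_fintype_fun_eq_card, Module.finrank_fintype_fun_eq_card,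
      Fintype.card_coe, hS.1]
  have hsurj : Function.Surjective L :=
    (LinearMap.injective_iff_surjective_of_finrank_eq_finrank hfin).1 hinj
  obtain ⟨y, hy⟩ := hsurj (fun e => τ e)
  exact ⟨y, fun e he => congrFun hy ⟨e, he⟩⟩

theorem IsB_solve_root (T : STri N F) (S : Finset (N × Fin 3)) (hS : IsB T S) (r : Fin 3 → ℝ) :
    ∃ x : N ⊕ Fin 3 → ℝ, (∀ i, x (Sum.inr i) = r i) ∧ ∀ e ∈ S, dif T x e = 0 := by
  obtain ⟨y, hy⟩ := IsB_solve T S hS (fun e => - dif T (Sum.elim (fun _ => 0) r) e)
  refine ⟨fun v => Sum.elim (fun _ => 0) r v + ext0 y v, fun i => ?_, fun e he => ?_⟩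
  · exact add_zero (r i)
  · have h1 := hy e he
    rw [basisA_dif, basisA_dif] at h1
    rw [basisA_dif]
    linear_combination h1

theorem IsB_unit (T : STri N F) (S : Finset (N × Fin 3)) (hS : IsB T S) (z : N × Fin 3) (hz : z ∈ S)
    (u : N → ℝ) (h0 : ∀ e ∈ S, e ≠ z → dif T (ext0 u) e = 0) (h1 : dif T (ext0 u) z = 1) (r : N × Fin 3) :
    dif T (ext0 u) r = 0 ∨ dif T (ext0 u) r = 1 ∨ dif T (ext0 u) r = -1 := by
  have h1' := h1
  rw [basisA_dif] at h1'
  have hw := basisA_zero T S hS (fun v => ext0 u v ^ 2 -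
    (ext0 u (Sum.inl z.1) + ext0 u (T.par z.1 z.2)) * ext0 u v) (fun i => by
      show (0 : ℝ) ^ 2 - _ * 0 = 0
      ring) (fun e he => by
      rw [basisA_dif]
      by_cases hez : e = z
      · rw [hez]
        ring
      · have h2 := h0 e he hez
        rw [basisA_dif] at h2
        linear_combination (ext0 u (Sum.inl e.1) + ext0 u (T.par e.1 e.2) -
          (ext0 u (Sum.inl z.1) + ext0 u (T.par z.1 z.2))) * h2)
  have hab : ext0 u (Sum.inl z.1) * ext0 u (T.par z.1 z.2) = 0 := by
    linear_combination -(hw (Sum.inl z.1))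
  have hs : ext0 u (Sum.inl z.1) + ext0 u (T.par z.1 z.2) = 1 ∨
      ext0 u (Sum.inl z.1) + ext0 u (T.par z.1 z.2) = -1 := by
    rcases mul_eq_zero.1 hab with h | h
    · right
      linear_combination 2 * h - h1'
    · left
      linear_combination 2 * h + h1'
  have hv : ∀ v, ext0 u v = 0 ∨ ext0 u v = ext0 u (Sum.inl z.1) + ext0 u (T.par z.1 z.2) := by
    intro v
    have h2 : ext0 u v * (ext0 u v - (ext0 u (Sum.inl z.1) + ext0 u (T.par z.1 z.2))) = 0 := by
      linear_combination hw v
    rcases mul_eq_zero.1 h2 with h | h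
    · exact Or.inl h
    · exact Or.inr (sub_eq_zero.1 h)
  rw [basisA_dif]
  rcases hs with hs | hs <;> rw [hs] at hv <;> rcases hv (Sum.inl r.1) with h | h <;>
    rcases hv (T.par r.1 r.2) with h' | h' <;> rw [h, h'] <;> norm_num

theorem IsB_colour (T : STri N F) (S : Finset (N × Fin 3)) (hS : IsB T S) :
    ∃ col : N ⊕ Fin 3 → Fin 3, (∀ i, col (Sum.inr i) = i) ∧
      ∀ e ∈ S, col (Sum.inl e.1) = col (T.par e.1 e.2) := by
  have hex : ∀ i : Fin 3, ∃ x : N ⊕ Fin 3 → ℝ, (∀ j, x (Sum.inr j) = if j = i then 1 else 0) ∧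
      ∀ e ∈ S, dif T x e = 0 := fun i => IsB_solve_root T S hS (fun j => if j = i then 1 else 0)
  choose x hx1 hx2 using hex
  have h01 : ∀ i v, x i v = 0 ∨ x i v = 1 := by
    intro i v
    have h := basisA_zero T S hS (fun v => x i v ^ 2 - x i v) (fun j => by
      show x i (Sum.inr j) ^ 2 - x i (Sum.inr j) = 0
      rw [hx1]
      split_ifs <;> norm_num) (fun e he => by
      have h2 := hx2 i e he
      rw [basisA_dif] at h2 ⊢
      linear_combination (x i (Sum.inl e.1) + x i (T.par e.1 e.2) - 1) * h2) v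
    have h3 : x i v * (x i v - 1) = 0 := by linear_combination h
    rcases mul_eq_zero.1 h3 with h | h
    · exact Or.inl h
    · exact Or.inr (sub_eq_zero.1 h)
  have hsum : ∀ v, x 0 v + x 1 v + x 2 v = 1 := by
    intro v
    have h := basisA_zero T S hS (fun v => x 0 v + x 1 v + x 2 v - 1) (fun j => by
      show x 0 (Sum.inr j) + x 1 (Sum.inr j) + x 2 (Sum.inr j) - 1 = 0
      rw [hx1, hx1, hx1]
      fin_cases j
      · rw [if_pos (by decide), if_neg (by decide), if_neg (by decide)]
        norm_num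
      · rw [if_neg (by decide), if_pos (by decide), if_neg (by decide)]
        norm_num
      · rw [if_neg (by decide), if_neg (by decide), if_pos (by decide)]
        norm_num) (fun e he => by
      have g0 := hx2 0 e he
      have g1 := hx2 1 e he
      have g2 := hx2 2 e he
      rw [basisA_dif] at g0 g1 g2 ⊢
      linear_combination g0 + g1 + g2) v
    linear_combination h
  have hcol : ∀ v, ∃ c : Fin 3, ∀ j, x j v = if j = c then 1 else 0 := by
    intro v
    have h3 := hsum v
    rcases h01 0 v with g0 | g0 <;> rcases h01 1 v with g1 | g1 <;>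
      rcases h01 2 v with g2 | g2 <;> rw [g0, g1, g2] at h3 <;> norm_num at h3
    · exact ⟨2, fun j => by fin_cases j <;> simp [g0, g1, g2]⟩
    · exact ⟨1, fun j => by fin_cases j <;> simp [g0, g1, g2]⟩
    · exact ⟨0, fun j => by fin_cases j <;> simp [g0, g1, g2]⟩
  choose col hc using hcol
  have huniq : ∀ v (c : Fin 3), x c v = 1 → c = col v := by
    intro v c h
    rw [hc] at h
    by_contra hne
    rw [if_neg hne] at h
    exact zero_ne_one h
  refine ⟨col, fun i => ?_, fun e he => ?_⟩
  · refine (huniq _ _ ?_).symm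
    rw [hx1, if_pos rfl]
  · refine huniq _ _ ?_
    have h2 := hx2 (col (Sum.inl e.1)) e he
    rw [basisA_dif, hc, if_pos rfl] at h2
    linear_combination -h2

theorem IsB_swap [DecidableEq N] (T : STri N F) (S : Finset (N × Fin 3)) (hS : IsB T S) (z : N × Fin 3) (hz : z ∈ S)
    (u : N → ℝ) (h0 : ∀ e ∈ S, e ≠ z → dif T (ext0 u) e = 0) (h1 : dif T (ext0 u) z = 1) (r : N × Fin 3)
    (hr : dif T (ext0 u) r ≠ 0) : IsB T (insert r (S.erase z)) := by
  classical
  have hrz : r ∉ S.erase z := by
    intro hmem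
    exact hr (h0 r (Finset.mem_of_mem_erase hmem) (Finset.ne_of_mem_erase hmem))
  refine ⟨?_, ?_⟩
  · rw [Finset.card_insert_of_notMem hrz, Finset.card_erase_of_mem hz, hS.1]
    have h2 : 0 < S.card := Finset.card_pos.2 ⟨z, hz⟩
    rw [hS.1] at h2
    omega
  · intro y hy
    have h2 : y + (-(dif T (ext0 y) z)) • u = 0 := by
      refine hS.2 _ fun e he => ?_
      rw [basisA_add, basisA_smul]
      by_cases hez : e = z
      · rw [hez, h1]
        ring
      · rw [h0 e he hez, hy e (Finset.mem_insert_of_mem (Finset.mem_erase.2 ⟨hez, he⟩))]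
        ring
    have h3 : dif T (ext0 y) z = 0 := by
      have h4 : dif T (ext0 (y + (-(dif T (ext0 y) z)) • u)) r = 0 := by
        rw [h2, basisA_dif]
        have h5 : ∀ v : N ⊕ Fin 3, ext0 (0 : N → ℝ) v = 0 := by
          rintro (v | v) <;> rfl
        rw [h5, h5, sub_zero]
      rw [basisA_add, basisA_smul, hy r (Finset.mem_insert_self _ _)] at h4
      have h6 : dif T (ext0 y) z * dif T (ext0 u) r = 0 := by linear_combination -h4
      exact (mul_eq_zero.1 h6).resolve_right hr
    rw [h3, neg_zero, zero_smul, add_zero] at h2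
    exact h2

theorem lemmaA [DecidableEq F] (T : STri N F) (S : Finset (N × Fin 3)) (hS : IsB T S) (φ : N × Fin 3 → ℝ)
    (h0 : ∀ e ∈ S, φ e = 0) (hb : ∀ g, bd T φ g = 0) : ∀ e, φ e = 0 := by
  obtain ⟨y, hy⟩ := exact_bd T φ hb
  have h1 : y = 0 := hS.2 y fun e he => by rw [← hy, h0 e he]
  intro e
  rw [hy, h1, basisA_dif]
  have h5 : ∀ v : N ⊕ Fin 3, ext0 (0 : N → ℝ) v = 0 := by
    rintro (v | v) <;> rfl
  rw [h5, h5, sub_zero]

end MP0e5907
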