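import Pool.Agent.Lib_MP_0e5907.Paths
import Pool.Agent.Lib_MP_0e5907.BasisA

/-!
# Piece BETA: a good forest avoiding the exit edges of `f` is tricoloured at `f`

Paper proof. Fix `f`, a good basis `S` with `S ∩ YY T t f = ∅`, and `i`.
* `beta_step` (detour): let `g`, `e`, `g'` with `Reach T i f g`, `Cross T i g e g'`, `g ≠ f`, `g' ≠ f`. There is `γ : E → ℝ` with
  `γ = 0` on `S`, `bd γ = bd δ_e` (`δ_e = Pi.single e 1`) and `γ r = 0` for every edge `r` with `lf r = f` or `rf r = f`.
  If `e ∉ S`: `γ = δ_e` (its faces are `g, g' ≠ f`). If `e ∈ S`: let `k = lev e`, `K = cl k g`; `f ∉ K`, since otherwise `f ∈ cl k g` and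
  `e ∈ Yset T t f i`, but `S` avoids `YY`. Let `u` be the dual potential of `e` (`IsB_solve`), `φ' r = dif (ext0 u) r` if `lf r ∈ K`, else `0`. Every `r` with
  `dif (ext0 u) r ≠ 0` has `k ≤ lev r` (good), so `cl k (lf r) = cl k (rf r)` and `lf r ∈ K ↔ rf r ∈ K`. So for `g0 ∈ K`: `bd φ' g0 =
  bd (dif (ext0 u)) g0 = 0` (`bd_dif`), for `g0 ∉ K`: `bd φ' g0 = 0` (all terms vanish). `γ = δ_e - φ'`: zero on `S` (for `r ∈ S`, `r ≠ e`,
  `dif (ext0 u) r = 0`; at `e`: `1 - 1 = 0`, `lf e ∈ K` because `g ∈ K`, `{lf e, rf e} = {g, g'}` and `cl k (lf e) = cl k (rf e)` at `k = lev e`), `bd γ = bd δ_e`,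
  and it vanishes on the edges `r` at `f` (`r ≠ e`; `φ' r ≠ 0` would imply `lf r, rf r ∈ K ∌ f`).
* `beta_tail`: for every `g ≠ f` with `Reach T i f g` there is `β` with `β = 0` on `S`, `bd β g0 = [g0 = g] - [g0 = of i]` for all `g0`, and `β r = 0` for
  the edges `r` at `f`. Induction on `|V| - #{v : reg v g = i}` (strictly decreasing along crossings): by `side_cases` either `g = of i`, `β = 0`; or
  `Cross T i g e g'`, `g' ≠ f` (`reach_ne`-type argument: the tail of the first crossing edge has region `i` from then on; e.g. `f = g'` would give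
  `#{reg = i}` larger at `g'` than at `f`; note that `#{v : reg v f = i} ≤ #{v : reg v g = i} < #{v : reg v g' = i}`), and `β = σ γ + β'` with
  `σ = 1` if `g = lf e` and `σ = -1` if `g = rf e` (`bd δ_e = [· = lf e] - [· = rf e]`, so `bd (σ δ_e) = [· = g] - [· = g']`).
* `beta_exists`: for `f` itself: if `f = of i` take `β = 0`; otherwise `Cross T i f e g'`; `e ∈ Yset T t f i` (`Reach.refl`, `f ∈ cl _ f`) so `e ∉ S`;
  `β = σ δ_e + β'` with `β'` from `beta_tail` for `g'` (`g' ≠ f` by `reach_ne`/`lf_ne_rf`). Its values at the edges `r` at `f`: `β r = σ` if `r = e`, `0`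
  otherwise. `lf r = f`: `r = e` iff `r.2 + 1 = i` (side `r.2+1` of `f` is `r`, use `cross_unique`: `Cross T (r.2+1) f r (rf r)`); if `r = e` and
  `lf r = f = lf e` then `σ = 1`. `rf r = f`: `β r = -1` if `r.2 + 2 = i`, else `0`. In the case `f = of i`: no edge `r` with `lf r = f` has
  `r.2 + 1 = i` (`cross_not_outer`), similarly for `rf`.
* `tri_at`: let `col` be a colouring as in `IsB_colour` and `x k v = if col v = k then 1 else 0`. `dif (x k) = 0` on `S`, and by `bd_dif`
  `bd (dif (x k)) g = -∑_j [of j = g] (x k (inr (j+1)) - x k (inr (j+2))) = [g = of (k+1)] - [g = of (k+2)]` (`x k (inr i) = [i = k]`; `j + 1 = k` iff `j = k + 2`,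
  `j + 2 = k` iff `j = k + 1`). By `lemmaA`, `dif (x k) = β_{k+2} - β_{k+1}` (`bd β_{k+2} - bd β_{k+1} = [g = of (k+1)] - [g = of (k+2)]`). Now look at the
  side `m = k + 2` of `f` (joining `vert f k` and `vert f (k+1)`): it is `lf r = f`, `r.2 + 1 = m`: `dif (x k) r = x k (vert f (m+1)) - x k (vert f (m+2)) =
  x k (vert f k) - x k (vert f (k+1))` and `= β_{k+2} r - β_{k+1} r = 1 - 0`; or `rf r = f`, `r.2 + 2 = m`: `- dif (x k) r =` the same difference,
  `= -(-1) + 0 = 1`; or the outer side, `f = of m`: `vert f k = inr k`, `vert f (k+1) = inr (k+1)` (`of_one`, `of_two`): difference `1 - 0`. So in all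
  cases `x k (vert f k) - x k (vert f (k+1)) = 1`, i.e. `col (vert f k) = k`. This holds for every `k`. So
  `fdet T (fun v => Pi.single (col v) 1) f = det 1 = 1`.
-/

namespace MP0e5907

open Finset

variable {N F : Type} [Fintype N] [Fintype F]

omit [Fintype F] in
theorem beta_bd_lin [DecidableEq F] (T : STri N F) (a b : N × Fin 3 → ℝ) (c : ℝ) (g : F) :
    bd T (fun r => a r + c * b r) g = bd T a g + c * bd T b g := by
  unfold bd
  have h1 : ∀ P : N × Fin 3 → Prop, ∀ [DecidablePred P], (∑ e, if P e then a e + c * b e else 0) =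
      (∑ e, if P e then a e else 0) + c * ∑ e, if P e then b e else 0 := by
    intro P _
    rw [Finset.mul_sum, ← Finset.sum_add_distrib]
    refine Finset.sum_congr rfl fun e _ => ?_
    by_cases h : P e
    · simp only [if_pos h]
    · simp only [if_neg h]; ring
  rw [h1, h1]
  ring

omit [Fintype F] in
theorem beta_bd_single [DecidableEq F] [DecidableEq N] (T : STri N F) (e : N × Fin 3) (g : F) :
    bd T (fun r => if r = e then 1 else 0) g =
      (if g = T.lf e then 1 else 0) - (if g = T.rf e then 1 else 0) := by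
  unfold bd
  have h1 : ∀ w : N × Fin 3 → F, (∑ r, if w r = g then (if r = e then (1 : ℝ) else 0) else 0) =
      if g = w e then 1 else 0 := by
    intro w
    rw [Finset.sum_eq_single e]
    · by_cases h : w e = g
      · simp [h]
      · simp [h, Ne.symm h]
    · intro r _ hr
      simp [hr]
    · intro h
      exact absurd (Finset.mem_univ e) h
  rw [h1, h1]

theorem beta_mem_YY (T : STri N F) (t : ℕ) {f g g' : F} {i : Fin 3} {e : N × Fin 3}
    (hr : Reach T i f g) (hc : Cross T i g e g') (hf : f ∈ cl T (lev T t e) g) : e ∈ YY T t f := by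
  unfold YY Yset
  simp only [Finset.mem_filter, Finset.mem_univ, true_and]
  exact ⟨i, g, g', hr, hc, hf⟩

theorem beta_step [DecidableEq F] (T : STri N F) (t : ℕ) (f : F)
    (S : Finset (N × Fin 3)) (hS : IsB T S) (hG : Good T t S) (hY : Disjoint S (YY T t f)) (i : Fin 3)
    {g g' : F} {e : N × Fin 3} (hr : Reach T i f g) (hc : Cross T i g e g') (hgf : g ≠ f) (hgf' : g' ≠ f) :
    ∃ γ : N × Fin 3 → ℝ, (∀ r ∈ S, γ r = 0) ∧
      (∀ g0, bd T γ g0 = (if g0 = T.lf e then 1 else 0) - (if g0 = T.rf e then 1 else 0)) ∧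
      ∀ r, (T.lf r = f ∨ T.rf r = f) → γ r = 0 := by
  classical
  have hef : T.lf e ≠ f ∧ T.rf e ≠ f := by
    rcases hc with ⟨h1, h2, _⟩ | ⟨h1, h2, _⟩
    · exact ⟨h1 ▸ hgf, h2 ▸ hgf'⟩
    · exact ⟨h2 ▸ hgf', h1 ▸ hgf⟩
  have hne : ∀ r, (T.lf r = f ∨ T.rf r = f) → r ≠ e := by
    rintro r hr' rfl
    rcases hr' with h | h
    · exact hef.1 h
    · exact hef.2 h
  by_cases heS : e ∈ S
  · have hfK : f ∉ cl T (lev T t e) g := fun h =>
      (Finset.disjoint_left.mp hY heS) (beta_mem_YY T t hr hc h)
    obtain ⟨u, hu⟩ := IsB_solve T S hS (fun r => if r = e then 1 else 0)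
    have hu0 : ∀ r ∈ S, r ≠ e → dif T (ext0 u) r = 0 := by
      intro r hr' hre
      rw [hu r hr', if_neg hre]
    have hu1 : dif T (ext0 u) e = 1 := by
      rw [hu e heS, if_pos rfl]
    have hgood := hG e heS u hu0 hu1
    have hcl : ∀ r, dif T (ext0 u) r ≠ 0 → cl T (lev T t e) (T.lf r) = cl T (lev T t e) (T.rf r) := by
      intro r hr'
      exact (lev_iff T t (lev T t e) (lev_le T t e) r).mp (hgood r hr')
    have hiff : ∀ r, dif T (ext0 u) r ≠ 0 →
        (T.lf r ∈ cl T (lev T t e) g ↔ T.rf r ∈ cl T (lev T t e) g) := by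
      intro r hr'
      have h := hcl r hr'
      constructor
      · intro h1
        have h2 := cl_eq_of_mem T _ _ _ h1
        rw [← h2, h]
        exact mem_cl_self T _ _
      · intro h1
        have h2 := cl_eq_of_mem T _ _ _ h1
        rw [← h2, ← h]
        exact mem_cl_self T _ _
    have hbd0 : ∀ g0, bd T (dif T (ext0 u)) g0 = 0 := by
      intro g0
      rw [bd_dif]
      simp [ext0]
    -- the function phi
    obtain ⟨φ, hφ⟩ : ∃ φ : N × Fin 3 → ℝ,
        ∀ r, φ r = if T.lf r ∈ cl T (lev T t e) g then dif T (ext0 u) r else 0 := ⟨_, fun _ => rfl⟩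
    have hφl : ∀ r, T.lf r ∈ cl T (lev T t e) g → φ r = dif T (ext0 u) r := fun r h => by
      rw [hφ, if_pos h]
    have hφl' : ∀ r, T.lf r ∉ cl T (lev T t e) g → φ r = 0 := fun r h => by
      rw [hφ, if_neg h]
    have hφr : ∀ r, T.rf r ∈ cl T (lev T t e) g → φ r = dif T (ext0 u) r := fun r h => by
      by_cases h2 : dif T (ext0 u) r = 0
      · rw [hφ, h2, ite_self]
      · exact hφl r ((hiff r h2).mpr h)
    have hφr' : ∀ r, T.rf r ∉ cl T (lev T t e) g → φ r = 0 := fun r h => by
      by_cases h2 : dif T (ext0 u) r = 0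
      · rw [hφ, h2, ite_self]
      · exact hφl' r (fun h3 => h ((hiff r h2).mp h3))
    have hbd : ∀ g0, bd T φ g0 = 0 := by
      intro g0
      by_cases hg0 : g0 ∈ cl T (lev T t e) g
      · rw [← hbd0 g0]
        unfold bd
        congr 1
        · refine Finset.sum_congr rfl fun r _ => ?_
          by_cases h : T.lf r = g0
          · rw [if_pos h, if_pos h, hφl r (by rw [h]; exact hg0)]
          · rw [if_neg h, if_neg h]
        · refine Finset.sum_congr rfl fun r _ => ?_
          by_cases h : T.rf r = g0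
          · rw [if_pos h, if_pos h, hφr r (by rw [h]; exact hg0)]
          · rw [if_neg h, if_neg h]
      · unfold bd
        rw [Finset.sum_eq_zero, Finset.sum_eq_zero, sub_zero]
        · intro r _
          by_cases h : T.rf r = g0
          · rw [if_pos h, hφr' r (by rw [h]; exact hg0)]
          · rw [if_neg h]
        · intro r _
          by_cases h : T.lf r = g0
          · rw [if_pos h, hφl' r (by rw [h]; exact hg0)]
          · rw [if_neg h]
    refine ⟨fun r => (if r = e then 1 else 0) + (-1) * φ r, ?_, ?_, ?_⟩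
    · intro r hr'
      by_cases hre : r = e
      · have h1 : φ r = 1 := by
          rw [hre, ← hu1]
          rcases hc with ⟨h1, _, _⟩ | ⟨h1, _, _⟩
          · exact hφl e (by rw [← h1]; exact mem_cl_self T _ _)
          · exact hφr e (by rw [← h1]; exact mem_cl_self T _ _)
        simp only [if_pos hre, h1]
        norm_num
      · have h1 : φ r = 0 := by
          rw [hφ, hu0 r hr' hre, ite_self]
        simp only [if_neg hre, h1]
        norm_num
    · intro g0
      rw [beta_bd_lin T (fun r => if r = e then 1 else 0) φ (-1) g0, hbd, mul_zero, add_zero,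
        beta_bd_single]
    · intro r hr'
      have h1 : φ r = 0 := by
        rcases hr' with h | h
        · exact hφl' r (by rw [h]; exact hfK)
        · exact hφr' r (by rw [h]; exact hfK)
      simp only [if_neg (hne r hr'), h1]
      norm_num
  · refine ⟨fun r => if r = e then 1 else 0, ?_, ?_, ?_⟩
    · intro r hr'
      have hre : r ≠ e := fun h => heS (by rw [← h]; exact hr')
      exact if_neg hre
    · intro g0
      exact beta_bd_single T e g0
    · intro r hr'
      exact if_neg (hne r hr')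

theorem beta_tail [DecidableEq F] (T : STri N F) (t : ℕ) (f : F)
    (S : Finset (N × Fin 3)) (hS : IsB T S) (hG : Good T t S) (hY : Disjoint S (YY T t f)) (i : Fin 3)
    (g : F) : Reach T i f g → g ≠ f →
    ∃ β : N × Fin 3 → ℝ, (∀ r ∈ S, β r = 0) ∧
      (∀ g0, bd T β g0 = (if g0 = g then 1 else 0) - (if g0 = T.of i then 1 else 0)) ∧
      ∀ r, (T.lf r = f ∨ T.rf r = f) → β r = 0 := by
  have hout : Reach T i g (T.of i) := reach_outer T i g
  unfold Reach at hout
  induction hout using Relation.ReflTransGen.head_induction_on with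
  | refl =>
    intro _ _
    refine ⟨fun _ => 0, fun _ _ => rfl, ?_, fun _ _ => rfl⟩
    intro g0
    rw [sub_self]
    unfold bd
    simp
  | head hstep htail ih =>
    rename_i g g'
    intro hr hgf
    obtain ⟨e, hc⟩ := hstep
    have hr' : Reach T i f g' := Relation.ReflTransGen.tail hr ⟨e, hc⟩
    have hgf' : g' ≠ f := by
      rcases Relation.ReflTransGen.cases_head hr with h | ⟨c, ⟨e', hc'⟩, h⟩
      · exact absurd h.symm hgf
      · exact reach_ne T hc' (Relation.ReflTransGen.tail h ⟨e, hc⟩)
    obtain ⟨β, hβ1, hβ2, hβ3⟩ := ih hr' hgf'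
    obtain ⟨γ, hγ1, hγ2, hγ3⟩ := beta_step T t f S hS hG hY i hr hc hgf hgf'
    rcases hc with ⟨h1, h2, _⟩ | ⟨h1, h2, _⟩
    · refine ⟨fun r => β r + 1 * γ r, ?_, ?_, ?_⟩
      · intro r h
        simp only [hβ1 r h, hγ1 r h]; ring
      · intro g0
        rw [beta_bd_lin, hβ2, hγ2, h1, h2]; ring
      · intro r h
        simp only [hβ3 r h, hγ3 r h]; ring
    · refine ⟨fun r => β r + (-1) * γ r, ?_, ?_, ?_⟩
      · intro r h
        simp only [hβ1 r h, hγ1 r h]; ring
      · intro g0
        rw [beta_bd_lin, hβ2, hγ2, h1, h2]; ring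
      · intro r h
        simp only [hβ3 r h, hγ3 r h]; ring

theorem beta_exists [DecidableEq F] (T : STri N F) (t : ℕ) (ht : 5 ^ t * Fintype.card F < 2 * 6 ^ t) (f : F)
    (S : Finset (N × Fin 3)) (hS : IsB T S) (hG : Good T t S) (hY : Disjoint S (YY T t f)) (i : Fin 3) :
    ∃ β : N × Fin 3 → ℝ, (∀ e ∈ S, β e = 0) ∧
      (∀ g : F, bd T β g = (if g = f then 1 else 0) - (if g = T.of i then 1 else 0)) ∧
      (∀ r, T.lf r = f → β r = if r.2 + 1 = i then 1 else 0) ∧
      (∀ r, T.rf r = f → β r = if r.2 + 2 = i then -1 else 0) := by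
  classical
  rcases side_cases T i f with hout | ⟨e, g', hc⟩
  · refine ⟨fun _ => 0, fun _ _ => rfl, ?_, ?_, ?_⟩
    · intro g
      rw [← hout, sub_self]
      unfold bd
      simp
    · intro r hr
      rw [if_neg]
      intro h
      exact cross_not_outer T (Or.inl ⟨hr.symm, rfl, h.symm⟩ : Cross T i f r (T.rf r)) hout
    · intro r hr
      rw [if_neg]
      intro h
      exact cross_not_outer T (Or.inr ⟨hr.symm, rfl, h.symm⟩ : Cross T i f r (T.lf r)) hout
  · have heS : e ∉ S := fun h => (Finset.disjoint_left.mp hY h)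
      (beta_mem_YY T t Relation.ReflTransGen.refl hc (mem_cl_self T _ _))
    have hgf' : g' ≠ f := reach_ne T hc Relation.ReflTransGen.refl
    obtain ⟨β, hβ1, hβ2, hβ3⟩ := beta_tail T t f S hS hG hY i g'
      (Relation.ReflTransGen.single ⟨e, hc⟩) hgf'
    have huq : ∀ r g0, Cross T i f r g0 → r = e := fun r g0 h => (cross_unique T h hc).1
    have hlr := lf_ne_rf T e
    rcases hc with ⟨h1, h2, h3⟩ | ⟨h1, h2, h3⟩
    · refine ⟨fun r => β r + 1 * (if r = e then 1 else 0), ?_, ?_, ?_, ?_⟩
      · intro r hr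
        have hre : r ≠ e := fun h => heS (h ▸ hr)
        simp only [hβ1 r hr, if_neg hre]; ring
      · intro g0
        rw [beta_bd_lin, hβ2, beta_bd_single, h1, h2]; ring
      · intro r hr
        simp only [hβ3 r (Or.inl hr)]
        by_cases hre : r = e
        · rw [if_pos hre, if_pos (by rw [hre]; exact h3.symm)]; ring
        · rw [if_neg hre, if_neg (fun h => hre (huq r (T.rf r) (Or.inl ⟨hr.symm, rfl, h.symm⟩)))]; ring
      · intro r hr
        simp only [hβ3 r (Or.inr hr)]
        have hre : r ≠ e := by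
          rintro rfl
          exact hlr (h1.symm.trans hr.symm)
        rw [if_neg hre, if_neg (fun h => hre (huq r (T.lf r) (Or.inr ⟨hr.symm, rfl, h.symm⟩)))]; ring
    · refine ⟨fun r => β r + (-1) * (if r = e then 1 else 0), ?_, ?_, ?_, ?_⟩
      · intro r hr
        have hre : r ≠ e := fun h => heS (h ▸ hr)
        simp only [hβ1 r hr, if_neg hre]; ring
      · intro g0
        rw [beta_bd_lin, hβ2, beta_bd_single, h1, h2]; ring
      · intro r hr
        simp only [hβ3 r (Or.inl hr)]
        have hre : r ≠ e := by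
          rintro rfl
          exact hlr (hr.trans h1)
        rw [if_neg hre, if_neg (fun h => hre (huq r (T.rf r) (Or.inl ⟨hr.symm, rfl, h.symm⟩)))]; ring
      · intro r hr
        simp only [hβ3 r (Or.inr hr)]
        by_cases hre : r = e
        · rw [if_pos hre, if_pos (by rw [hre]; exact h3.symm)]; ring
        · rw [if_neg hre, if_neg (fun h => hre (huq r (T.lf r) (Or.inr ⟨hr.symm, rfl, h.symm⟩)))]; ring

theorem tri_at (T : STri N F) (t : ℕ) (ht : 5 ^ t * Fintype.card F < 2 * 6 ^ t) (f : F)
    (S : Finset (N × Fin 3)) (hS : IsB T S) (hG : Good T t S) (hY : Disjoint S (YY T t f))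
    (col : N ⊕ Fin 3 → Fin 3) (hr : ∀ i, col (Sum.inr i) = i)
    (hc : ∀ e ∈ S, col (Sum.inl e.1) = col (T.par e.1 e.2)) (k : Fin 3) : col (T.vert f k) = k := by
  classical
  obtain ⟨β1, h11, h12, h13, h14⟩ := beta_exists T t ht f S hS hG hY (k + 1)
  obtain ⟨β2, h21, h22, h23, h24⟩ := beta_exists T t ht f S hS hG hY (k + 2)
  set x : N ⊕ Fin 3 → ℝ := fun v => if col v = k then 1 else 0 with hx
  have hx0 : ∀ e ∈ S, dif T x e = 0 := by
    intro e he
    simp only [dif, hx, hc e he, sub_self]
  have hxb : ∀ g, bd T (dif T x) g = (if g = T.of (k + 1) then 1 else 0) - (if g = T.of (k + 2) then 1 else 0) := by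
    intro g
    rw [bd_dif]
    simp only [hx, hr]
    have hsymm : ∀ j, (T.of j = g) ↔ (g = T.of j) := fun j => eq_comm
    simp only [hsymm]
    fin_cases k <;> simp [Fin.sum_univ_three] <;> split_ifs <;> norm_num
  have key : ∀ r, dif T x r = β2 r - β1 r := by
    have h := lemmaA T S hS (fun r => (β2 r + (-1) * β1 r) + (-1) * dif T x r) ?_ ?_
    · intro r
      have := h r
      linarith
    · intro e he
      simp only [h21 e he, h11 e he, hx0 e he]; ring
    · intro g
      rw [beta_bd_lin T (fun r => β2 r + (-1) * β1 r) (dif T x) (-1) g, beta_bd_lin, h22, h12, hxb]; ring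
  have hk3 : k + 2 + 1 = k := by fin_cases k <;> rfl
  have hk12 : k + 1 ≠ k + 2 := by fin_cases k <;> decide
  have hfin : x (T.vert f k) ≠ 0 → col (T.vert f k) = k := by
    intro h
    by_contra h2
    exact h (if_neg h2)
  have hnn : 0 ≤ x (T.vert f (k + 1)) := by
    simp only [hx]
    split_ifs <;> norm_num
  rcases side_cases T (k + 2) f with hout | ⟨e, g', hcr⟩
  · have h := T.of_one (k + 2)
    rw [← hout, hk3] at h
    rw [h, hr]
  · rcases hcr with ⟨h1, _, h3⟩ | ⟨h1, _, h3⟩
    · have he2 : e.2 = k + 1 := by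
        have : e.2 + 1 = k + 1 + 1 := by rw [← h3]; fin_cases k <;> rfl
        exact add_right_cancel this
      have hd := key e
      rw [h23 e h1.symm, h13 e h1.symm, he2, if_pos (by fin_cases k <;> rfl), if_neg (by fin_cases k <;> decide)] at hd
      have ht1 := T.lf_tail e
      have ht2 := T.lf_head e
      rw [← h1, he2] at ht1 ht2
      have hk : k + 1 + 2 = k := by fin_cases k <;> rfl
      rw [hk] at ht1
      apply hfin
      simp only [dif] at hd
      rw [← ht1] at hd
      rw [show T.par e.1 e.2 = T.vert f (k + 1) by rw [he2]; exact ht2.symm] at hd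
      intro h0
      rw [h0] at hd
      linarith
    · have he2 : e.2 = k := (add_right_cancel h3).symm
      have hd := key e
      rw [h24 e h1.symm, h14 e h1.symm, he2, if_pos rfl, if_neg (by fin_cases k <;> decide)] at hd
      have ht1 := T.rf_tail e
      have ht2 := T.rf_head e
      rw [← h1, he2] at ht1 ht2
      apply hfin
      simp only [dif] at hd
      rw [← ht1] at hd
      rw [show T.par e.1 e.2 = T.vert f k by rw [he2]; exact ht2.symm] at hd
      intro h0
      rw [h0] at hd
      linarith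

end MP0e5907
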