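import Pool.Agent.Lib_MP_0e5907.BasisD

/-!
# Piece POT: the weighted Tutte potentials

Paper proof. Throughout `ω e > 0` for all `e`.
* `Gm_det_pos`: `det (Gm ω) ≥ 0` by `Gm_det_nonneg`; if it were `0`, `Gm_ker` would give `y ≠ 0` with all differences `0`,
  contradicting `dif_inj`.
* `pot_exists`: for each `j` let `x0 = Sum.elim 0 (Pi.single j 1)`, `c v = ∑_e ω_e bvec e v * dif x0 e`; solve
  `Gm ω *ᵥ y = -c` (`y = (Gm ω)⁻¹ *ᵥ (-c)`, det is a unit). `x = x0 + ext0 y`. Then `Equil` for `x`: `dif x = dif x0 + dif (ext0 y)`, and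
  `∑_e ω_e b_e(v) dif (ext0 y) e = (Gm ω *ᵥ y) v` (use `bvec_dot`).
* `equil_zero`: if `x` vanishes at the roots and is in equilibrium, then `x = 0`: `x = ext0 y` with `y = x ∘ inl`, `Gm ω *ᵥ y = 0`
  (as above), and `det ≠ 0`.
* `pot_sum`: `x v = ∑_j p v j - 1` vanishes at the roots and is in equilibrium (constants have difference zero). So it is zero.
* `pot_nonneg`: fix `j`, `x v = p v j`, `m v = min (x v) 0`; `m` vanishes at the roots. `∑_v m (inl v) * (∑_e ω_e b_e(v) dif x e) = 0`, i.e.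
  `∑_e ω_e dif m e * dif x e = 0` (`bvec_dot` with `y = m ∘ inl`, `ext0 y = m`). For reals `a, b` (values of `x` at tail, head):
  `(min a 0 - min b 0)(a - b) ≥ (min a 0 - min b 0)^2` (four cases). So `∑ ω_e (dif m e)^2 ≤ 0`, `dif m = 0`, `m = 0` by `dif_inj`.
* `pot_le_one`: from `pot_sum` and `pot_nonneg`.
-/

namespace MP0e5907

open Finset

variable {N F : Type} [Fintype N] [Fintype F] [DecidableEq N]

theorem Gm_det_pos (T : STri N F) (ω : N × Fin 3 → ℝ) (hω : ∀ e, 0 < ω e) : 0 < (Gm T ω).det := by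
  rcases (Gm_det_nonneg T ω fun e => (hω e).le).lt_or_eq with h | h
  · exact h
  · exfalso
    obtain ⟨y, hy, hy0⟩ := Gm_ker T ω (fun e => (hω e).le) h.symm
    exact hy (dif_inj T y fun e => hy0 e (hω e).ne')

omit [Fintype F] in
private theorem Pot_mulVec (T : STri N F) (ω : N × Fin 3 → ℝ) (y : N → ℝ) (v : N) :
    ∑ e, ω e * (bvec T e v * dif T (ext0 y) e) = ((Gm T ω).mulVec y) v := by
  have h1 : ((Gm T ω).mulVec y) v = ∑ w, (∑ e, ω e * (bvec T e v * bvec T e w)) * y w := rfl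
  rw [h1]
  simp only [Finset.sum_mul]
  rw [Finset.sum_comm]
  refine Finset.sum_congr rfl fun e _ => ?_
  rw [← bvec_dot, Finset.mul_sum, Finset.mul_sum]
  refine Finset.sum_congr rfl fun w _ => ?_
  ring

theorem pot_exists (T : STri N F) (ω : N × Fin 3 → ℝ) (hω : ∀ e, 0 < ω e) :
    ∃ p : N ⊕ Fin 3 → Fin 3 → ℝ, (∀ i, p (Sum.inr i) = Pi.single i 1) ∧
      ∀ j, Equil T ω (fun v => p v j) := by
  have hdet : IsUnit (Gm T ω).det := isUnit_iff_ne_zero.2 (Gm_det_pos T ω hω).ne'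
  let x0 : Fin 3 → N ⊕ Fin 3 → ℝ := fun j => Sum.elim (fun _ => 0) (fun i => if i = j then 1 else 0)
  let c : Fin 3 → N → ℝ := fun j v => ∑ e, ω e * (bvec T e v * dif T (x0 j) e)
  let y : Fin 3 → N → ℝ := fun j => ((Gm T ω)⁻¹).mulVec (-(c j))
  have hy : ∀ j v, ((Gm T ω).mulVec (y j)) v = -(c j v) := by
    intro j v
    have h1 : (Gm T ω).mulVec (y j) = -(c j) := by
      show (Gm T ω).mulVec (((Gm T ω)⁻¹).mulVec (-(c j))) = -(c j)
      rw [Matrix.mulVec_mulVec, Matrix.mul_nonsing_inv _ hdet, Matrix.one_mulVec]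
    rw [h1]
    rfl
  refine ⟨fun v j => x0 j v + ext0 (y j) v, fun i => ?_, fun j v => ?_⟩
  · funext j
    show (if i = j then (1 : ℝ) else 0) + 0 = (Pi.single i 1 : Fin 3 → ℝ) j
    rw [add_zero, Pi.single_apply]
    by_cases h : i = j
    · rw [if_pos h, if_pos h.symm]
    · rw [if_neg h, if_neg (fun h' => h h'.symm)]
  · have h1 : ∀ e, dif T (fun v => x0 j v + ext0 (y j) v) e =
        dif T (x0 j) e + dif T (ext0 (y j)) e := by
      intro e
      unfold dif
      ring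
    have h2 : ∑ e, ω e * (bvec T e v * dif T (fun v => x0 j v + ext0 (y j) v) e) =
        c j v + ∑ e, ω e * (bvec T e v * dif T (ext0 (y j)) e) := by
      show _ = ∑ e, ω e * (bvec T e v * dif T (x0 j) e) + _
      rw [← Finset.sum_add_distrib]
      refine Finset.sum_congr rfl fun e _ => ?_
      rw [h1]
      ring
    rw [h2, Pot_mulVec, hy]
    ring

omit [Fintype F] in
private theorem Pot_ext0 (x : N ⊕ Fin 3 → ℝ) (hr : ∀ i, x (Sum.inr i) = 0) :
    ext0 (fun v => x (Sum.inl v)) = x := by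
  funext v
  rcases v with v | i
  · rfl
  · exact (hr i).symm

theorem equil_zero (T : STri N F) (ω : N × Fin 3 → ℝ) (hω : ∀ e, 0 < ω e) (x : N ⊕ Fin 3 → ℝ)
    (hx : Equil T ω x) (hr : ∀ i, x (Sum.inr i) = 0) (v : N ⊕ Fin 3) : x v = 0 := by
  have h1 := Pot_ext0 x hr
  have h2 : (Gm T ω).mulVec (fun v => x (Sum.inl v)) = 0 := by
    funext w
    rw [← Pot_mulVec, h1]
    exact hx w
  have h3 := Matrix.eq_zero_of_mulVec_eq_zero (Gm_det_pos T ω hω).ne' h2
  rcases v with v | i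
  · exact congrFun h3 v
  · exact hr i

theorem pot_sum (T : STri N F) (ω : N × Fin 3 → ℝ) (hω : ∀ e, 0 < ω e) (p : N ⊕ Fin 3 → Fin 3 → ℝ)
    (hr : ∀ i, p (Sum.inr i) = Pi.single i 1) (hp : ∀ j, Equil T ω (fun v => p v j)) (v : N ⊕ Fin 3) :
    ∑ j, p v j = 1 := by
  have h1 := equil_zero T ω hω (fun v => ∑ j, p v j - 1) (fun w => ?_) (fun i => ?_) v
  · linarith
  · have h2 : ∀ e, dif T (fun v => ∑ j, p v j - 1) e = ∑ j, dif T (fun v => p v j) e := by
      intro e
      unfold dif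
      rw [Finset.sum_sub_distrib]
      ring
    have h3 : ∑ e, ω e * (bvec T e w * dif T (fun v => ∑ j, p v j - 1) e) =
        ∑ j, ∑ e, ω e * (bvec T e w * dif T (fun v => p v j) e) := by
      rw [Finset.sum_comm]
      refine Finset.sum_congr rfl fun e _ => ?_
      rw [h2, Finset.mul_sum, Finset.mul_sum]
    rw [h3]
    exact Finset.sum_eq_zero fun j _ => hp j w
  · show ∑ j, p (Sum.inr i) j - 1 = 0
    rw [hr i, Finset.sum_pi_single']
    simp

theorem pot_nonneg (T : STri N F) (ω : N × Fin 3 → ℝ) (hω : ∀ e, 0 < ω e) (p : N ⊕ Fin 3 → Fin 3 → ℝ)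
    (hr : ∀ i, p (Sum.inr i) = Pi.single i 1) (hp : ∀ j, Equil T ω (fun v => p v j)) (v : N ⊕ Fin 3) (j : Fin 3) :
    0 ≤ p v j := by
  have hroot : ∀ i, 0 ≤ p (Sum.inr i) j := by
    intro i
    rw [hr i, Pi.single_apply]
    split_ifs <;> norm_num
  set x : N ⊕ Fin 3 → ℝ := fun v => p v j with hx
  set m : N ⊕ Fin 3 → ℝ := fun v => min (x v) 0 with hm
  have hm0 : ∀ i, m (Sum.inr i) = 0 := fun i => min_eq_right (hroot i)
  have hext := Pot_ext0 m hm0
  have h1 : ∑ e, ω e * (dif T m e * dif T x e) = 0 := by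
    have h2 : ∑ w, m (Sum.inl w) * (∑ e, ω e * (bvec T e w * dif T x e)) = 0 :=
      Finset.sum_eq_zero fun w _ => by rw [hp j w, mul_zero]
    rw [← h2]
    simp only [Finset.mul_sum]
    rw [Finset.sum_comm]
    refine Finset.sum_congr rfl fun e _ => ?_
    have h3 := bvec_dot T e (fun v => m (Sum.inl v))
    rw [hext] at h3
    rw [← h3, Finset.sum_mul, Finset.mul_sum]
    refine Finset.sum_congr rfl fun w _ => ?_
    ring
  have h4 : ∀ a b : ℝ, (min a 0 - min b 0) ^ 2 ≤ (min a 0 - min b 0) * (a - b) := by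
    intro a b
    rcases le_total a 0 with ha | ha <;> rcases le_total b 0 with hb | hb
    · rw [min_eq_left ha, min_eq_left hb]
      nlinarith
    · rw [min_eq_left ha, min_eq_right hb]
      nlinarith [mul_nonneg (neg_nonneg.2 ha) hb]
    · rw [min_eq_right ha, min_eq_left hb]
      nlinarith [mul_nonneg ha (neg_nonneg.2 hb)]
    · rw [min_eq_right ha, min_eq_right hb]
      nlinarith
  have h5 : ∀ e ∈ (Finset.univ : Finset (N × Fin 3)), 0 ≤ ω e * (dif T m e) ^ 2 := fun e _ =>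
    mul_nonneg (hω e).le (sq_nonneg _)
  have h6 : ∑ e, ω e * (dif T m e) ^ 2 ≤ 0 := by
    rw [← h1]
    refine Finset.sum_le_sum fun e _ => ?_
    refine mul_le_mul_of_nonneg_left ?_ (hω e).le
    exact h4 (x (Sum.inl e.1)) (x (T.par e.1 e.2))
  have h7 : ∑ e, ω e * (dif T m e) ^ 2 = 0 := le_antisymm h6 (Finset.sum_nonneg h5)
  have h8 : ∀ e, dif T m e = 0 := by
    intro e
    have h9 := (Finset.sum_eq_zero_iff_of_nonneg h5).1 h7 e (Finset.mem_univ e)
    rcases mul_eq_zero.1 h9 with h10 | h10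
    · exact absurd h10 (hω e).ne'
    · exact pow_eq_zero_iff (two_ne_zero) |>.1 h10
  have h9 : (fun v => m (Sum.inl v)) = 0 := by
    apply dif_inj T
    intro e
    rw [hext]
    exact h8 e
  rcases v with v | i
  · have h10 : min (x (Sum.inl v)) 0 = 0 := congrFun h9 v
    exact min_eq_right_iff.1 h10
  · exact hroot i

theorem pot_le_one (T : STri N F) (ω : N × Fin 3 → ℝ) (hω : ∀ e, 0 < ω e) (p : N ⊕ Fin 3 → Fin 3 → ℝ)
    (hr : ∀ i, p (Sum.inr i) = Pi.single i 1) (hp : ∀ j, Equil T ω (fun v => p v j)) (v : N ⊕ Fin 3) (j : Fin 3) :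
    p v j ≤ 1 := by
  rw [← pot_sum T ω hω p hr hp v]
  exact Finset.single_le_sum (f := fun j => p v j)
    (fun i _ => pot_nonneg T ω hω p hr hp v i) (Finset.mem_univ j)

end MP0e5907
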