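import Pool.Agent.Lib_MP_0e5907.BasisA

/-!
# Piece TRIONE: a spanning forest has at most one tricoloured face

Statement `tri_le_one`: `S` a basis, `col : V → Fin 3` with `col (inr i) = i`, constant along the edges of `S`. Then at most one
face has three different colours.

Paper proof. Let `n = |N|`. Call an edge mono if tail and head have the same colour, otherwise bi. `S` consists of mono edges.
A face is mono / bi / tri if its vertices have 1 / 2 / 3 colours. The number of sides `k` of the face `g` with
`col (vert g (k+1)) ≠ col (vert g (k+2))` is `0 / 2 / 3`. Counting sides with `sum_sides`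
(`Φ g k = if col (vert g (k+1)) ≠ col (vert g (k+2)) then 1 else 0`):
`2 #Fbi + 3 #Ftri = 2 #Ebi + 3` (all three outer sides are bi).            (1)
Claim (2): `#(Emono \ S) ≥ #Fmono`. Let `W = ℝ^{E \ S}` (functions on `E` vanishing on `S`), of dimension `3n - n = 2n`. By
`lemmaA`, `∂ : W → ℝ^F` is injective, its image is contained in the hyperplane of functions with sum `0` (`sum_bd`), which
has dimension `|F| - 1 = 2n`. So the image is the whole hyperplane. By `sperner` there is a tri face `g0`, in particular a
non mono face. Let `π : ℝ^F → ℝ^{Fmono}` be the restriction. `π` maps the sum zero hyperplane onto `ℝ^{Fmono}` (correct the sum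
by the value at `g0 ∉ Fmono`). For a bi edge `e` both faces `lf e`, `rf e` are not mono, so `π ∂ δ_e = 0`; hence
already the functions supported on `Emono \ S` are mapped onto `ℝ^{Fmono}` by `π ∂`, so `#(Emono \ S) ≥ #Fmono`
(`LinearMap.finrank_le_finrank_of_surjective`-type fact; a linear surjection `ℝ^A → ℝ^B` implies `|B| ≤ |A|`).
Finally `2n = #(E \ S) = #(Emono \ S) + #Ebi ≥ #Fmono + #Fbi + (3/2)(#Ftri - 1)` by (1), (2), and
`#Fmono + #Fbi = 2n + 1 - #Ftri`. So `2n ≥ 2n + 1 - #Ftri + (3/2)(#Ftri - 1)`, i.e. `#Ftri ≤ 1`.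
* `sgn_nonneg`: for the potentials `q v = Pi.single (col v) 1` the determinants `fdet T q g` are `0` for non tri faces and `±1`
  for tri faces, and their sum is `1` (`area_identity`). If some `fdet T q f = -1`, then `f` is tri, all other
  determinants are `0` by `tri_le_one` and the sum would be `-1`. So all are `≥ 0`.
-/

namespace MP0e5907

open Finset

variable {N F : Type} [Fintype N] [Fintype F]

private theorem triOne_a : ∀ a b c : Fin 3, (if a = b ∧ b = c then 0 else 2) ≤
    (if b ≠ c then 1 else 0) + (if c ≠ a then 1 else 0) + (if a ≠ b then 1 else 0) := by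
  decide

private theorem triOne_sum (a : Fin 3 → Fin 3) :
    (∑ k : Fin 3, if a (k + 1) ≠ a (k + 2) then (1 : ℝ) else 0) =
      (((if a 1 ≠ a 2 then 1 else 0) + (if a 2 ≠ a 0 then 1 else 0) +
        (if a 0 ≠ a 1 then 1 else 0) : ℕ) : ℝ) := by
  rw [Fin.sum_univ_three]
  have e1 : (0 : Fin 3) + 1 = 1 := rfl
  have e2 : (0 : Fin 3) + 2 = 2 := rfl
  have e3 : (1 : Fin 3) + 1 = 2 := rfl
  have e4 : (1 : Fin 3) + 2 = 0 := rfl
  have e5 : (2 : Fin 3) + 1 = 0 := rfl
  have e6 : (2 : Fin 3) + 2 = 1 := rfl
  rw [e1, e2, e3, e4, e5, e6]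
  push_cast
  rfl

omit [Fintype N] [Fintype F] in
private theorem triOne_bi (T : STri N F) (col : N ⊕ Fin 3 → Fin 3) (e : N × Fin 3)
    (he : col (Sum.inl e.1) ≠ col (T.par e.1 e.2)) (f : F) (hf : f = T.lf e ∨ f = T.rf e) :
    ¬ (col (T.vert f 0) = col (T.vert f 1) ∧ col (T.vert f 1) = col (T.vert f 2)) := by
  rintro ⟨h1, h2⟩
  have hall : ∀ i j, col (T.vert f i) = col (T.vert f j) := by
    have h0 : ∀ i, col (T.vert f i) = col (T.vert f 0) := by
      intro i
      fin_cases i
      · rfl
      · exact h1.symm
      · exact (h1.trans h2).symm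
    intro i j
    rw [h0 i, h0 j]
  apply he
  rcases hf with rfl | rfl
  · rw [← T.lf_tail e, ← T.lf_head e]
    exact hall _ _
  · rw [← T.rf_tail e, ← T.rf_head e]
    exact hall _ _

private theorem triOne_dual [DecidableEq F] (T : STri N F) (h : F → ℝ) (φ : N × Fin 3 → ℝ) :
    ∑ e, (h (T.lf e) - h (T.rf e)) * φ e = ∑ g, h g * bd T φ g := by
  unfold bd
  simp only [mul_sub, Finset.mul_sum, Finset.sum_sub_distrib, mul_ite, mul_zero]
  rw [Finset.sum_comm (s := (Finset.univ : Finset F)), Finset.sum_comm (s := (Finset.univ : Finset F))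
    (f := fun g e => if T.rf e = g then h g * φ e else 0)]
  rw [← Finset.sum_sub_distrib]
  refine Finset.sum_congr rfl fun e _ => ?_
  simp
  ring

private theorem triOne_count (T : STri N F) (S : Finset (N × Fin 3)) (hS : IsB T S)
    (col : N ⊕ Fin 3 → Fin 3) (hc : ∀ e ∈ S, col (Sum.inl e.1) = col (T.par e.1 e.2)) (g : F)
    (hg : Function.Injective fun i => col (T.vert g i)) [DecidableEq F] [DecidableEq N] :
    (Finset.univ.filter fun f : F =>
      col (T.vert f 0) = col (T.vert f 1) ∧ col (T.vert f 1) = col (T.vert f 2)).card ≤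
    (Finset.univ.filter fun e : N × Fin 3 =>
      col (Sum.inl e.1) = col (T.par e.1 e.2) ∧ e ∉ S).card := by
  classical
  set A := (Finset.univ.filter fun f : F =>
      col (T.vert f 0) = col (T.vert f 1) ∧ col (T.vert f 1) = col (T.vert f 2)) with hA
  set B := (Finset.univ.filter fun e : N × Fin 3 =>
      col (Sum.inl e.1) = col (T.par e.1 e.2) ∧ e ∉ S) with hB
  let ex : ({f // f ∈ A} → ℝ) → F → ℝ := fun h f => if hf : f ∈ A then h ⟨f, hf⟩ else 0
  let L : ({f // f ∈ A} → ℝ) →ₗ[ℝ] ({e // e ∈ B} → ℝ) :=
    { toFun := fun h e => ex h (T.lf e) - ex h (T.rf e)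
      map_add' := by
        intro h h'
        funext e
        simp only [ex, Pi.add_apply]
        split_ifs <;> ring
      map_smul' := by
        intro c h
        funext e
        simp only [ex, Pi.smul_apply, smul_eq_mul, RingHom.id_apply]
        split_ifs <;> ring }
  have hgA : g ∉ A := by
    rw [hA, Finset.mem_filter]
    rintro ⟨-, h1, -⟩
    exact absurd (hg h1) (by decide)
  have hinj : Function.Injective L := by
    rw [injective_iff_map_eq_zero]
    intro h hh
    have h1 : ∀ e, e ∉ S → ex h (T.lf e) - ex h (T.rf e) = 0 := by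
      intro e he
      by_cases hm : col (Sum.inl e.1) = col (T.par e.1 e.2)
      · have heB : e ∈ B := by
          rw [hB, Finset.mem_filter]
          exact ⟨Finset.mem_univ _, hm, he⟩
        exact congrFun hh ⟨e, heB⟩
      · have h2 : T.lf e ∉ A := by
          rw [hA, Finset.mem_filter]
          exact fun hh => triOne_bi T col e hm _ (Or.inl rfl) hh.2
        have h3 : T.rf e ∉ A := by
          rw [hA, Finset.mem_filter]
          exact fun hh => triOne_bi T col e hm _ (Or.inr rfl) hh.2
        simp only [ex, dif_neg h2, dif_neg h3, sub_zero]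
    obtain ⟨y, hy⟩ := IsB_solve T S hS (fun e => ex h (T.lf e) - ex h (T.rf e))
    have h4 := triOne_dual T (ex h) (dif T (ext0 y))
    have h5 : ∀ f, bd T (dif T (ext0 y)) f = 0 := by
      intro f
      rw [bd_dif]
      simp [ext0]
    simp only [h5, mul_zero, Finset.sum_const_zero] at h4
    have h6 : ∀ e, (ex h (T.lf e) - ex h (T.rf e)) * dif T (ext0 y) e =
        (ex h (T.lf e) - ex h (T.rf e)) ^ 2 := by
      intro e
      by_cases he : e ∈ S
      · rw [hy e he]
        ring
      · rw [h1 e he]
        ring
    rw [Finset.sum_congr rfl fun e _ => h6 e,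
      Finset.sum_eq_zero_iff_of_nonneg fun e _ => sq_nonneg _] at h4
    have h7 : ∀ e, ex h (T.lf e) = ex h (T.rf e) := by
      intro e
      have := h4 e (Finset.mem_univ e)
      exact sub_eq_zero.1 (pow_eq_zero_iff two_ne_zero |>.1 this)
    funext f
    have h8 := dual_conn T (ex h) h7 f.1 g
    have h9 : ex h g = 0 := by simp only [ex, dif_neg hgA]
    have h10 : ex h f.1 = h f := by simp only [ex, dif_pos f.2]
    rw [← h10, h8, h9]
    rfl
  have hfin := LinearMap.finrank_le_finrank_of_injective hinj
  rw [Module.finrank_fintype_fun_eq_card, Module.finrank_fintype_fun_eq_card,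
    Fintype.card_coe, Fintype.card_coe] at hfin
  exact hfin

theorem tri_le_one (T : STri N F) (S : Finset (N × Fin 3)) (hS : IsB T S) (col : N ⊕ Fin 3 → Fin 3)
    (hr : ∀ i, col (Sum.inr i) = i) (hc : ∀ e ∈ S, col (Sum.inl e.1) = col (T.par e.1 e.2)) (g g' : F)
    (hg : Function.Injective fun i => col (T.vert g i)) (hg' : Function.Injective fun i => col (T.vert g' i)) :
    g = g' := by
  classical
  by_contra hne
  -- counting the sides with two colours
  have hsum := sum_sides T (fun f k => if col (T.vert f (k + 1)) ≠ col (T.vert f (k + 2)) then (1 : ℝ) else 0)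
  have hR : ∑ e : N × Fin 3, ((if col (T.vert (T.lf e) (e.2 + 1 + 1)) ≠ col (T.vert (T.lf e) (e.2 + 1 + 2))
      then (1 : ℝ) else 0) + (if col (T.vert (T.rf e) (e.2 + 2 + 1)) ≠ col (T.vert (T.rf e) (e.2 + 2 + 2))
      then (1 : ℝ) else 0)) = 2 * ((Finset.univ.filter fun e : N × Fin 3 =>
        col (Sum.inl e.1) ≠ col (T.par e.1 e.2)).card : ℝ) := by
    rw [Finset.card_filter, Nat.cast_sum, Finset.mul_sum]
    refine Finset.sum_congr rfl fun e _ => ?_
    rw [area_lf1, area_lf2, area_rf1, area_rf2]
    by_cases h : col (Sum.inl e.1) = col (T.par e.1 e.2)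
    · rw [if_neg (not_not.2 h), if_neg (not_not.2 h.symm), if_neg (not_not.2 h)]
      norm_num
    · rw [if_pos h, if_pos (Ne.symm h), if_pos h]
      norm_num
  have hO : ∑ j : Fin 3, (if col (T.vert (T.of j) (j + 1)) ≠ col (T.vert (T.of j) (j + 2))
      then (1 : ℝ) else 0) = 3 := by
    have h1 : ∀ j : Fin 3, (if col (T.vert (T.of j) (j + 1)) ≠ col (T.vert (T.of j) (j + 2))
      then (1 : ℝ) else 0) = 1 := by
      intro j
      rw [T.of_one, T.of_two, hr, hr, if_pos]
      revert j
      decide
    simp only [h1]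
    norm_num
  have hL : 2 * ((Finset.univ.filter fun f : F =>
      ¬ (col (T.vert f 0) = col (T.vert f 1) ∧ col (T.vert f 1) = col (T.vert f 2))).card : ℝ) + 2 ≤
      ∑ f, ∑ k : Fin 3, if col (T.vert f (k + 1)) ≠ col (T.vert f (k + 2)) then (1 : ℝ) else 0 := by
    have h1 : ∀ f : F, 2 * (if ¬ (col (T.vert f 0) = col (T.vert f 1) ∧ col (T.vert f 1) = col (T.vert f 2))
        then (1 : ℝ) else 0) + ((if f = g then 1 else 0) + (if f = g' then 1 else 0)) ≤
        ∑ k : Fin 3, if col (T.vert f (k + 1)) ≠ col (T.vert f (k + 2)) then (1 : ℝ) else 0 := by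
      intro f
      rw [triOne_sum (fun i => col (T.vert f i))]
      have h3 := triOne_a (col (T.vert f 0)) (col (T.vert f 1)) (col (T.vert f 2))
      have htri : Function.Injective (fun i => col (T.vert f i)) →
          ((if col (T.vert f 1) ≠ col (T.vert f 2) then 1 else 0) +
          (if col (T.vert f 2) ≠ col (T.vert f 0) then 1 else 0) +
          (if col (T.vert f 0) ≠ col (T.vert f 1) then 1 else 0) : ℕ) = 3 := by
        intro hinj
        rw [if_pos (fun h => absurd (hinj h) (by decide)),
          if_pos (fun h => absurd (hinj h) (by decide)),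
          if_pos (fun h => absurd (hinj h) (by decide))]
      have hbound : (if ¬ (col (T.vert f 0) = col (T.vert f 1) ∧ col (T.vert f 1) = col (T.vert f 2))
        then (1 : ℝ) else 0) ≤ 1 := by
        split_ifs <;> norm_num
      by_cases hfg : f = g
      · have hfg' : f ≠ g' := fun h => hne (hfg.symm.trans h)
        rw [if_pos hfg, if_neg hfg']
        have h4 := htri (by rw [hfg]; exact hg)
        rw [h4]
        push_cast
        linarith
      · rw [if_neg hfg]
        by_cases hfg' : f = g'
        · rw [if_pos hfg']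
          have h4 := htri (by rw [hfg']; exact hg')
          rw [h4]
          push_cast
          linarith
        · rw [if_neg hfg', add_zero, add_zero]
          have h5 : (((if (col (T.vert f 0) = col (T.vert f 1) ∧ col (T.vert f 1) = col (T.vert f 2))
            then 0 else 2 : ℕ)) : ℝ) ≤ (((if col (T.vert f 1) ≠ col (T.vert f 2) then 1 else 0) +
              (if col (T.vert f 2) ≠ col (T.vert f 0) then 1 else 0) +
              (if col (T.vert f 0) ≠ col (T.vert f 1) then 1 else 0) : ℕ) : ℝ) := by
            exact_mod_cast h3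
          refine le_trans (le_of_eq ?_) h5
          by_cases hm : col (T.vert f 0) = col (T.vert f 1) ∧ col (T.vert f 1) = col (T.vert f 2)
          · rw [if_neg (not_not.2 hm), if_pos hm]
            norm_num
          · rw [if_pos hm, if_neg hm]
            norm_num
    refine le_trans (le_of_eq ?_) (Finset.sum_le_sum fun f _ => h1 f)
    rw [Finset.sum_add_distrib, Finset.sum_add_distrib, Finset.sum_ite_eq' Finset.univ g,
      Finset.sum_ite_eq' Finset.univ g', if_pos (Finset.mem_univ _), if_pos (Finset.mem_univ _),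
      ← Finset.mul_sum, Finset.card_filter, Nat.cast_sum]
    norm_num
  rw [hR, hO] at hsum
  rw [hsum] at hL
  have hcnt := triOne_count T S hS col hc g hg
  -- cardinalities
  have c1 := Finset.card_filter_add_card_filter_not (s := (Finset.univ : Finset F))
    (fun f : F => col (T.vert f 0) = col (T.vert f 1) ∧ col (T.vert f 1) = col (T.vert f 2))
  rw [Finset.card_univ, card_F T] at c1
  have c2 : (Finset.univ.filter fun e : N × Fin 3 =>
      col (Sum.inl e.1) = col (T.par e.1 e.2) ∧ e ∉ S).card + S.card +
      (Finset.univ.filter fun e : N × Fin 3 =>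
        col (Sum.inl e.1) ≠ col (T.par e.1 e.2)).card = 3 * Fintype.card N := by
    have d1 := Finset.card_filter_add_card_filter_not (s := (Finset.univ : Finset (N × Fin 3)))
      (fun e => col (Sum.inl e.1) = col (T.par e.1 e.2))
    have d2 : (Finset.univ.filter fun e : N × Fin 3 => col (Sum.inl e.1) = col (T.par e.1 e.2)) =
        (Finset.univ.filter fun e : N × Fin 3 =>
          col (Sum.inl e.1) = col (T.par e.1 e.2) ∧ e ∉ S) ∪ S := by
      ext e
      simp only [Finset.mem_filter, Finset.mem_univ, true_and, Finset.mem_union]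
      constructor
      · intro h
        by_cases he : e ∈ S
        · exact Or.inr he
        · exact Or.inl ⟨h, he⟩
      · rintro (h | h)
        · exact h.1
        · exact hc e h
    have d3 : Disjoint (Finset.univ.filter fun e : N × Fin 3 =>
          col (Sum.inl e.1) = col (T.par e.1 e.2) ∧ e ∉ S) S := by
      rw [Finset.disjoint_left]
      intro e he
      exact (Finset.mem_filter.1 he).2.2
    rw [d2, Finset.card_union_of_disjoint d3, Finset.card_univ, Fintype.card_prod,
      Fintype.card_fin] at d1
    rw [d1]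
    ring
  have hSc := hS.1
  have hL' : 2 * (Finset.univ.filter fun f : F =>
      ¬ (col (T.vert f 0) = col (T.vert f 1) ∧ col (T.vert f 1) = col (T.vert f 2))).card + 2 ≤
      2 * (Finset.univ.filter fun e : N × Fin 3 =>
        col (Sum.inl e.1) ≠ col (T.par e.1 e.2)).card + 3 := by
    exact_mod_cast hL
  omega

theorem sgn_nonneg (T : STri N F) (S : Finset (N × Fin 3)) (hS : IsB T S) (col : N ⊕ Fin 3 → Fin 3)
    (hr : ∀ i, col (Sum.inr i) = i) (hc : ∀ e ∈ S, col (Sum.inl e.1) = col (T.par e.1 e.2)) (f : F) :
    0 ≤ fdet T (fun v => Pi.single (col v) 1) f := by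
  by_contra hcon
  push Not at hcon
  have hA := area_identity T (fun v => Pi.single (col v) 1) (fun v => by simp)
  have h1 : (Matrix.of fun i j => (Pi.single (col (Sum.inr i)) (1 : ℝ) : Fin 3 → ℝ) j :
      Matrix (Fin 3) (Fin 3) ℝ) = 1 := by
    ext i j
    rw [Matrix.of_apply, hr, Matrix.one_apply, Pi.single_apply]
    simp only [eq_comm]
  rw [h1, Matrix.det_one] at hA
  have h2 : ∀ g, ¬ Function.Injective (fun i => col (T.vert g i)) →
      fdet T (fun v => (Pi.single (col v) (1 : ℝ) : Fin 3 → ℝ)) g = 0 := by
    intro g hg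
    rw [Function.Injective] at hg
    push Not at hg
    obtain ⟨a, b, hab, hne⟩ := hg
    unfold fdet
    refine Matrix.det_zero_of_row_eq hne ?_
    funext j
    simp only [Matrix.of_apply]
    rw [hab]
  have hf : Function.Injective fun i => col (T.vert f i) := by
    by_contra h
    rw [h2 f h] at hcon
    exact lt_irrefl _ hcon
  rw [Finset.sum_eq_single f] at hA
  · linarith
  · intro g _ hgf
    refine h2 g fun hg => hgf ?_
    exact tri_le_one T S hS col hr hc g f hg hf
  · intro h
    exact absurd (Finset.mem_univ f) h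

end MP0e5907
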