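import Pool.Agent.Lib_MP_0e5907.Expand
import Pool.Agent.Lib_MP_0e5907.Pot
import Pool.Agent.Lib_MP_0e5907.TriOne

/-!
# Piece FORMULA: face areas as weighted sums over spanning forests

`sg T S f` is the determinant of the colour vectors of the three vertices of `f` for the colouring by the components of
the forest `S` (`0` if `S` is not a basis).

Paper proof.
* `sg_nonneg`: `sgn_nonneg` for the colouring chosen by `IsB_colour`.
* `Z_formula`: `det_expand` with `ι = N`, `A = univ`, `a e = c e = bvec T e` (`Gm T (ind S)` is the matrix with weights `1_S`,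
  `wprod ω S = ∏_{e∈S} ω e`).
* `bigM_expand`: `det_expand` with `ι = N ⊕ Fin 3`, `A = univ.image Sum.inl` (card `|N|`), `a e (inl v) = bvec T e v`
  (`a e (inr _) = 0`), `c e = bhat T e`, `R s w = if w = vert f j then 1 else 0` for `s = inr j`.
* `bigM_det`: let `p (inr i) = Pi.single i 1` and all `p · j` in equilibrium for `ω` (any real weights). Let
  `Q = fromBlocks 1 (of fun v j => p (inl v) j) 0 1`, `det Q = 1`. Then `bigM T ω f * Q = fromBlocks (Gm T ω) 0 X (of fun i j => p (vert f i) j)`:
  column `inl w`: `bhat T e (inl w) = bvec T e w`; column `inr j`: `∑_u bhat T e u * p u j = dif T (p · j) e`, so the row `inl v` gives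
  `∑_e ω_e b_e(v) dif (p · j) e = 0` and the row `inr i` gives `p (vert f i) j`. Take determinants
  (`Matrix.det_fromBlocks_zero₁₂`, `Matrix.det_fromBlocks_zero₂₁`).
* `bigM_zero`: `ω ≥ 0` and `det (Gm ω) = 0`: `Gm_ker` gives `y ≠ 0` with `dif (ext0 y) e = 0` whenever `ω e ≠ 0`; the combination
  `∑_v y v * (row inl v)` is `∑_e ω_e dif (ext0 y) e * bhat e = 0` (`bvec_dot`), so `det = 0` (`Matrix.exists_vecMul_eq_zero_iff`).
* `area_formula`: by `bigM_det` the left side is `det (bigM T ω f)`; expand with `bigM_expand`. For a basis `S`, with colouring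
  `col`, the vectors `Pi.single (col v) 1` are in equilibrium for the weights `ind S` (differences vanish on `S`), so
  `det (bigM T (ind S) f) = det (Gm T (ind S)) * sg T S f` by `bigM_det`. If `S` is not a basis then
  `det (Gm T (ind S)) = 0` (`D_eq_zero`) and `det (bigM ..) = 0` (`bigM_zero`), and `sg = 0`.
-/

namespace MP0e5907

open Finset

variable {N F : Type} [Fintype N] [Fintype F]

open Classical in
/-- orientation sign of the colours of the face `f` with respect to the forest `S` -/
noncomputable def sg (T : STri N F) (S : Finset (N × Fin 3)) (f : F) : ℝ :=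
  if h : IsB T S then fdet T (fun v => Pi.single ((IsB_colour T S h).choose v) 1) f else 0

theorem sg_nonneg (T : STri N F) (S : Finset (N × Fin 3)) (f : F) : 0 ≤ sg T S f := by
  unfold sg
  split_ifs with h
  · obtain ⟨h1, h2⟩ := (IsB_colour T S h).choose_spec
    exact sgn_nonneg T S h _ h1 h2 f
  · exact le_rfl

variable [DecidableEq N]

omit [Fintype F] in
theorem Z_formula (T : STri N F) (ω : N × Fin 3 → ℝ) :
    (Gm T ω).det = ∑ S ∈ powersetCard (Fintype.card N) (univ : Finset (N × Fin 3)),
      wprod ω S * (Gm T (ind S)).det := by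
  have h := det_expand (univ : Finset N) (fun e v => bvec T e v) (fun e v => bvec T e v)
    (fun _ _ => (0 : ℝ)) ω
  simp only [Finset.mem_univ, if_true, Finset.card_univ] at h
  exact h

omit [Fintype F] in
theorem bigM_expand (T : STri N F) (ω : N × Fin 3 → ℝ) (f : F) :
    (bigM T ω f).det = ∑ S ∈ powersetCard (Fintype.card N) (univ : Finset (N × Fin 3)),
      wprod ω S * (bigM T (ind S) f).det := by
  have h := det_expand ((univ : Finset N).map (Function.Embedding.inl : N ↪ N ⊕ Fin 3))
    (fun (e : N × Fin 3) (s : N ⊕ Fin 3) => Sum.elim (bvec T e) (fun _ => 0) s)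
    (fun e w => bhat T e w)
    (fun s w => Sum.elim (fun _ => (0 : ℝ)) (fun j => if w = T.vert f j then 1 else 0) s) ω
  have key : ∀ ω' : N × Fin 3 → ℝ, (Matrix.of fun (s w : N ⊕ Fin 3) =>
      if s ∈ (univ : Finset N).map (Function.Embedding.inl : N ↪ N ⊕ Fin 3) then
        ∑ e, ω' e * ((Sum.elim (bvec T e) (fun _ => (0 : ℝ)) s) * bhat T e w) else
        Sum.elim (fun _ => (0 : ℝ)) (fun j => if w = T.vert f j then 1 else 0) s :
        Matrix (N ⊕ Fin 3) (N ⊕ Fin 3) ℝ) = bigM T ω' f := by
    intro ω'
    ext s w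
    rcases s with v | j
    · rw [Matrix.of_apply, if_pos (by simp)]
      simp [bigM]
    · rw [Matrix.of_apply, if_neg (by simp)]
      simp [bigM]
  rw [key, Finset.card_map, Finset.card_univ] at h
  rw [h]
  refine Finset.sum_congr rfl fun S _ => ?_
  have k2 := key (ind S)
  unfold ind at k2
  rw [k2]
  rfl

omit [Fintype F] in
theorem formula_bhat_dot (T : STri N F) (x : N ⊕ Fin 3 → ℝ) (e : N × Fin 3) :
    ∑ w, bhat T e w * x w = dif T x e := by
  simp only [bhat, sub_mul, Finset.sum_sub_distrib, ite_mul, one_mul, zero_mul,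
    Finset.sum_ite_eq', Finset.sum_ite_eq, Finset.mem_univ, if_true, dif]

omit [Fintype F] [Fintype N] in
theorem formula_bhat_inl (T : STri N F) (e : N × Fin 3) (w : N) :
    bhat T e (Sum.inl w) = bvec T e w := by
  unfold bhat bvec
  congr 1
  · simp only [Sum.inl.injEq]
  · simp only [eq_comm]

omit [Fintype F] in
theorem bigM_det (T : STri N F) (ω : N × Fin 3 → ℝ) (p : N ⊕ Fin 3 → Fin 3 → ℝ)
    (hr : ∀ i, p (Sum.inr i) = Pi.single i 1) (hp : ∀ j, Equil T ω (fun v => p v j)) (f : F) :
    (bigM T ω f).det = (Gm T ω).det * fdet T p f := by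
  set Q : Matrix (N ⊕ Fin 3) (N ⊕ Fin 3) ℝ :=
    Matrix.fromBlocks 1 (Matrix.of fun v j => p (Sum.inl v) j) 0 1 with hQ
  have hQdet : Q.det = 1 := by
    rw [hQ, Matrix.det_fromBlocks_zero₂₁, Matrix.det_one, Matrix.det_one, mul_one]
  have hQr : ∀ (u : N ⊕ Fin 3) (j : Fin 3), Q u (Sum.inr j) = p u j := by
    intro u j
    rcases u with v | i
    · simp [hQ]
    · rw [hr, hQ, Matrix.fromBlocks_apply₂₂, Matrix.one_apply, Pi.single_apply]
      simp only [eq_comm]
  have hQl : ∀ (u : N ⊕ Fin 3) (w : N), Q u (Sum.inl w) = if u = Sum.inl w then 1 else 0 := by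
    intro u w
    rcases u with v | i
    · simp [hQ, Matrix.one_apply]
    · simp [hQ]
  have hprod : bigM T ω f * Q = Matrix.fromBlocks (Gm T ω) 0
      (Matrix.of fun i w => (bigM T ω f * Q) (Sum.inr i) (Sum.inl w))
      (Matrix.of fun i j => p (T.vert f i) j) := by
    ext a w
    rcases a with v | i
    · rcases w with w | j
      · rw [Matrix.fromBlocks_apply₁₁, Matrix.mul_apply]
        simp only [hQl, mul_ite, mul_one, mul_zero, Finset.sum_ite_eq', Finset.mem_univ, if_true]
        simp only [bigM, Gm, Matrix.of_apply, Sum.elim_inl, formula_bhat_inl]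
      · rw [Matrix.fromBlocks_apply₁₂, Matrix.mul_apply, Matrix.zero_apply]
        simp only [hQr]
        have h1 := hp j v
        rw [← h1]
        simp only [bigM, Matrix.of_apply, Sum.elim_inl, Finset.sum_mul]
        rw [Finset.sum_comm]
        refine Finset.sum_congr rfl fun e _ => ?_
        rw [← formula_bhat_dot, Finset.mul_sum, Finset.mul_sum]
        refine Finset.sum_congr rfl fun u _ => ?_
        ring
    · rcases w with w | j
      · rw [Matrix.fromBlocks_apply₂₁, Matrix.of_apply]
      · rw [Matrix.fromBlocks_apply₂₂, Matrix.mul_apply]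
        simp only [hQr, bigM, Matrix.of_apply, Sum.elim_inr, ite_mul, one_mul, zero_mul,
          Finset.sum_ite_eq', Finset.sum_ite_eq, Finset.mem_univ, if_true]
  have h1 : (bigM T ω f * Q).det = (Gm T ω).det * fdet T p f := by
    rw [hprod, Matrix.det_fromBlocks_zero₁₂]
    rfl
  rw [Matrix.det_mul, hQdet, mul_one] at h1
  exact h1

omit [Fintype F] in
theorem bigM_zero (T : STri N F) (ω : N × Fin 3 → ℝ) (hω : ∀ e, 0 ≤ ω e) (h : (Gm T ω).det = 0) (f : F) :
    (bigM T ω f).det = 0 := by
  obtain ⟨y, hy0, hy⟩ := Gm_ker T ω hω h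
  rw [← Matrix.exists_vecMul_eq_zero_iff]
  refine ⟨Sum.elim y (fun _ => 0), ?_, ?_⟩
  · intro h0
    apply hy0
    funext v
    have := congrFun h0 (Sum.inl v)
    simpa using this
  · funext w
    rw [Matrix.vecMul, dotProduct, Fintype.sum_sum_type]
    simp only [Sum.elim_inl, Sum.elim_inr, zero_mul, Finset.sum_const_zero, add_zero,
      Pi.zero_apply, bigM, Matrix.of_apply, Finset.mul_sum]
    rw [Finset.sum_comm]
    apply Finset.sum_eq_zero
    intro e _
    have h1 : ∑ v, y v * (ω e * (bvec T e v * bhat T e w)) =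
        ω e * dif T (ext0 y) e * bhat T e w := by
      rw [← bvec_dot, Finset.mul_sum, Finset.sum_mul]
      refine Finset.sum_congr rfl fun v _ => ?_
      ring
    rw [h1]
    by_cases h2 : ω e = 0
    · rw [h2]; ring
    · rw [hy e h2]; ring

theorem area_formula (T : STri N F) (ω : N × Fin 3 → ℝ) (p : N ⊕ Fin 3 → Fin 3 → ℝ)
    (hr : ∀ i, p (Sum.inr i) = Pi.single i 1) (hp : ∀ j, Equil T ω (fun v => p v j)) (f : F) :
    (Gm T ω).det * fdet T p f = ∑ S ∈ powersetCard (Fintype.card N) (univ : Finset (N × Fin 3)),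
      wprod ω S * ((Gm T (ind S)).det * sg T S f) := by
  rw [← bigM_det T ω p hr hp f, bigM_expand]
  refine Finset.sum_congr rfl fun S hS => ?_
  congr 1
  have hcard : S.card = Fintype.card N := (Finset.mem_powersetCard.1 hS).2
  by_cases hB : IsB T S
  · obtain ⟨h1, h2⟩ := (IsB_colour T S hB).choose_spec
    have e1 : sg T S f = fdet T (fun v => Pi.single ((IsB_colour T S hB).choose v) 1) f := by
      unfold sg
      exact dif_pos hB
    rw [e1]
    apply bigM_det
    · intro i
      rw [h1]
    · intro j v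
      apply Finset.sum_eq_zero
      intro e _
      by_cases he : e ∈ S
      · have h3 := h2 e he
        have h4 : dif T (fun v => (Pi.single ((IsB_colour T S hB).choose v) 1 : Fin 3 → ℝ) j) e =
            0 := by
          unfold dif
          simp only
          rw [h3, sub_self]
        rw [h4]
        ring
      · unfold ind
        rw [if_neg he, zero_mul]
  · have h0 := D_eq_zero T S hcard hB
    rw [h0, zero_mul]
    refine bigM_zero T (ind S) (fun e => ?_) h0 f
    unfold ind
    split_ifs
    · exact zero_le_one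
    · exact le_rfl

end MP0e5907
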