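import Pool.Agent.Lib_MP_0e5907.Weights
import Pool.Agent.Lib_MP_0e5907.Formula
import Pool.Agent.Lib_MP_0e5907.Beta

/-!
# Piece AREALOWER: every face of the weighted Tutte embedding has area at least `1/(2 (1+3n)^(3t))`

Paper proof. Let `ω = wt T t M`, `Z = det (Gm ω)`, which is `> 0` by `Gm_det_pos` (`M ≥ 1` so `ω > 0`). By `Z_formula` and `D_eq_zero`,
`Z = ∑_{S ∈ bases} wD S` (sets `S` of size `|N|` that are not bases have `D = 0`; bases have size `|N|`). By `area_formula`,
`Z * fdet T p f = ∑_{|S| = |N|} wD S * sg S f ≥ ∑_{S ∈ goodB T t (YY T t f)} wD S * sg S f` (all terms are nonnegative: `wD_nonneg`, `sg_nonneg`), and for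
`S ∈ goodB T t (YY T t f)`: `sg S f = 1`, since by `tri_at` the chosen colouring has `col (vert f k) = k`, so
`fdet T (fun v => Pi.single (col v) 1) f = det 1 = 1`. So, with `c = (1+3n)^(3t)`,
`c * Z * fdet ≥ c * ∑_{goodB (YY)} wD ≥ ∑_{goodB ∅} wD ≥ (1/2) ∑_{bases} wD = Z/2` (`avoid_le`, `bad_le`). Divide by `Z`.
-/

namespace MP0e5907

open Finset

variable {N F : Type} [Fintype N] [Fintype F] [DecidableEq N]

omit [Fintype F] [DecidableEq N] in
private theorem al_bases (T : STri N F) (S : Finset (N × Fin 3)) : S ∈ bases T ↔ IsB T S := by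
  classical
  unfold bases
  simp

private theorem al_goodB (T : STri N F) (t : ℕ) (Y S : Finset (N × Fin 3)) :
    S ∈ goodB T t Y ↔ IsB T S ∧ Good T t S ∧ Disjoint S Y := by
  classical
  unfold goodB
  simp

omit [DecidableEq N] in
private theorem al_sg (T : STri N F) (t : ℕ) (ht : 5 ^ t * Fintype.card F < 2 * 6 ^ t) (f : F)
    (S : Finset (N × Fin 3)) (hS : IsB T S) (hG : Good T t S) (hY : Disjoint S (YY T t f)) :
    sg T S f = 1 := by
  unfold sg
  rw [dif_pos hS]
  have h := (IsB_colour T S hS).choose_spec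
  have hk := tri_at T t ht f S hS hG hY _ h.1 h.2
  unfold fdet
  have e : (Matrix.of fun i j => (Pi.single ((IsB_colour T S hS).choose (T.vert f i)) 1 : Fin 3 → ℝ) j :
      Matrix (Fin 3) (Fin 3) ℝ) = 1 := by
    ext i j
    rw [Matrix.of_apply, hk i, Matrix.one_apply, Pi.single_apply]
    by_cases hij : i = j
    · subst hij
      simp
    · rw [if_neg hij, if_neg (fun h' => hij h'.symm)]
  rw [e, Matrix.det_one]

theorem area_lower (T : STri N F) (t : ℕ) (ht : 5 ^ t * Fintype.card F < 2 * 6 ^ t) (M : ℝ) (hM : 1 ≤ M)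
    (hM2 : 18 * (Fintype.card N : ℝ) ^ 2 ≤ M) (p : N ⊕ Fin 3 → Fin 3 → ℝ)
    (hr : ∀ i, p (Sum.inr i) = Pi.single i 1) (hp : ∀ j, Equil T (wt T t M) (fun v => p v j)) (f : F) :
    1 ≤ 2 * (1 + 3 * (Fintype.card N : ℝ)) ^ (3 * t) * fdet T p f := by
  have hω : ∀ e, 0 < wt T t M e := fun e => pow_pos (by linarith) _
  have hZ : 0 < (Gm T (wt T t M)).det := Gm_det_pos T _ hω
  have hsub : ∀ S, IsB T S → S ∈ powersetCard (Fintype.card N) (univ : Finset (N × Fin 3)) := by
    intro S hS
    rw [mem_powersetCard]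
    exact ⟨subset_univ _, hS.1⟩
  have hZ1 : (Gm T (wt T t M)).det = ∑ S ∈ bases T, wD T t M S := by
    rw [Z_formula T (wt T t M)]
    symm
    apply Finset.sum_subset
    · intro S hS
      exact hsub S ((al_bases T S).1 hS)
    · intro S hS hS'
      have h0 := D_eq_zero T S (mem_powersetCard.1 hS).2 (fun h => hS' ((al_bases T S).2 h))
      unfold wD
      rw [h0, mul_zero]
  have hF := area_formula T (wt T t M) p hr hp f
  have hge : ∑ S ∈ goodB T t (YY T t f), wD T t M S ≤ (Gm T (wt T t M)).det * fdet T p f := by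
    rw [hF]
    calc ∑ S ∈ goodB T t (YY T t f), wD T t M S
        = ∑ S ∈ goodB T t (YY T t f), wprod (wt T t M) S * ((Gm T (ind S)).det * sg T S f) := by
          apply Finset.sum_congr rfl
          intro S hS
          obtain ⟨h1, h2, h3⟩ := (al_goodB T t _ S).1 hS
          rw [al_sg T t ht f S h1 h2 h3, mul_one]
          rfl
      _ ≤ ∑ S ∈ powersetCard (Fintype.card N) (univ : Finset (N × Fin 3)),
            wprod (wt T t M) S * ((Gm T (ind S)).det * sg T S f) := by
          apply Finset.sum_le_sum_of_subset_of_nonneg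
          · intro S hS
            exact hsub S ((al_goodB T t _ S).1 hS).1
          · intro S _ _
            have h1 := wD_nonneg T t M hM S
            have h2 := sg_nonneg T S f
            unfold wD at h1
            rw [← mul_assoc]
            exact mul_nonneg h1 h2
  have h1 := bad_le T t M hM hM2
  have h2 := avoid_le T t ht M hM f
  rw [← hZ1] at h1
  have hc : (0 : ℝ) ≤ (1 + 3 * (Fintype.card N : ℝ)) ^ (3 * t) := by positivity
  have h3 : (Gm T (wt T t M)).det ≤
      (2 * (1 + 3 * (Fintype.card N : ℝ)) ^ (3 * t) * fdet T p f) * (Gm T (wt T t M)).det := by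
    calc (Gm T (wt T t M)).det ≤ 2 * ∑ S ∈ goodB T t ∅, wD T t M S := h1
      _ ≤ 2 * ((1 + 3 * (Fintype.card N : ℝ)) ^ (3 * t) * ∑ S ∈ goodB T t (YY T t f), wD T t M S) := by
          linarith
      _ ≤ 2 * ((1 + 3 * (Fintype.card N : ℝ)) ^ (3 * t) * ((Gm T (wt T t M)).det * fdet T p f)) := by
          have := mul_le_mul_of_nonneg_left hge hc
          linarith
      _ = (2 * (1 + 3 * (Fintype.card N : ℝ)) ^ (3 * t) * fdet T p f) * (Gm T (wt T t M)).det := by ring
  by_contra hcon
  push Not at hcon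
  have := mul_lt_mul_of_pos_right hcon hZ
  linarith

end MP0e5907
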