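import Mathlib

/-!
# MP_0e5907 - definitions for the core: Schnyder labelled triangulations

`N` = inner vertices, `F` = faces, `N ⊕ Fin 3` = all vertices (`Sum.inr i` = root `i`), edges `N × Fin 3`
(edge `(v,c)` joins the tail `v` with the head `par v c`). A face `g` has the vertices `vert g 0, vert g 1, vert g 2` in
counterclockwise order. Side `k` of a face is the side opposite to the vertex with label `k`, i.e. it joins
`vert g (k+1)` and `vert g (k+2)`. `lf e`, `rf e` are the faces to the left and to the right of the edge `e` (directed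
from the tail to the head), `of j` is the face at the outer side `j` (joining root `j+1` and root `j+2`).
`reg u g = i` says that the face `g` lies in the region of `u` opposite to root `i`.
-/

namespace MP0e5907

open Finset

/-- every side of a face is the left side of an edge, the right side of an edge, or an outer side -/
def sideMap {N F : Type} (lf rf : N × Fin 3 → F) (of : Fin 3 → F) :
    ((N × Fin 3) ⊕ (N × Fin 3)) ⊕ Fin 3 → F × Fin 3
  | Sum.inl (Sum.inl e) => (lf e, e.2 + 1)
  | Sum.inl (Sum.inr e) => (rf e, e.2 + 2)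
  | Sum.inr j => (of j, j)

/-- a Schnyder labelled triangulation of a triangle -/
structure STri (N F : Type) where
  vert : F → Fin 3 → N ⊕ Fin 3
  par : N → Fin 3 → N ⊕ Fin 3
  lf : N × Fin 3 → F
  rf : N × Fin 3 → F
  of : Fin 3 → F
  reg : N ⊕ Fin 3 → F → Fin 3
  sides : Function.Bijective (sideMap lf rf of)
  lf_tail : ∀ e, vert (lf e) (e.2 + 2) = Sum.inl e.1
  lf_head : ∀ e, vert (lf e) e.2 = par e.1 e.2
  rf_tail : ∀ e, vert (rf e) (e.2 + 1) = Sum.inl e.1
  rf_head : ∀ e, vert (rf e) e.2 = par e.1 e.2
  of_one : ∀ j, vert (of j) (j + 1) = Sum.inr (j + 1)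
  of_two : ∀ j, vert (of j) (j + 2) = Sum.inr (j + 2)
  reg_root : ∀ i g, reg (Sum.inr i) g = i
  reg_vert : ∀ g i, reg (vert g i) g = i
  reg_cross : ∀ e u, reg u (lf e) = reg u (rf e) ∨
    (reg u (lf e) = e.2 + 2 ∧ reg u (rf e) = e.2 + 1)
  reg_uniq : ∀ g g', (Function.Injective fun i => reg (vert g' i) g) → g' = g
  reg_par : ∀ v c g, reg (Sum.inl v) g = c → reg (par v c) g = c

variable {N F : Type}

/-- difference of a potential along an edge -/
def dif (T : STri N F) (x : N ⊕ Fin 3 → ℝ) (e : N × Fin 3) : ℝ :=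
  x (Sum.inl e.1) - x (T.par e.1 e.2)

/-- extension by `0` to the roots -/
def ext0 (y : N → ℝ) : N ⊕ Fin 3 → ℝ := Sum.elim y (fun _ => 0)

/-- face boundary of a function on the edges -/
def bd [Fintype N] [DecidableEq F] (T : STri N F) (φ : N × Fin 3 → ℝ) (g : F) : ℝ :=
  (∑ e, if T.lf e = g then φ e else 0) - ∑ e, if T.rf e = g then φ e else 0

/-- `Cross T i g e g'`: crossing the side `i` of the face `g` one crosses the (inner) edge `e` and enters `g'` -/
def Cross (T : STri N F) (i : Fin 3) (g : F) (e : N × Fin 3) (g' : F) : Prop :=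
  (g = T.lf e ∧ g' = T.rf e ∧ i = e.2 + 1) ∨ (g = T.rf e ∧ g' = T.lf e ∧ i = e.2 + 2)

/-- the dual path `D_i(f)` passes through `g` -/
def Reach (T : STri N F) (i : Fin 3) : F → F → Prop :=
  Relation.ReflTransGen (fun g g' => ∃ e, Cross T i g e g')

/-- the restriction of `delta_tail - delta_head` to the inner vertices -/
def bvec [DecidableEq N] (T : STri N F) (e : N × Fin 3) (v : N) : ℝ :=
  (if v = e.1 then 1 else 0) - (if T.par e.1 e.2 = Sum.inl v then 1 else 0)

/-- `delta_tail - delta_head` on all vertices -/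
def bhat [DecidableEq N] (T : STri N F) (e : N × Fin 3) (w : N ⊕ Fin 3) : ℝ :=
  (if w = Sum.inl e.1 then 1 else 0) - (if w = T.par e.1 e.2 then 1 else 0)

/-- the weighted grounded Laplacian -/
def Gm [Fintype N] [DecidableEq N] (T : STri N F) (ω : N × Fin 3 → ℝ) : Matrix N N ℝ :=
  Matrix.of fun v w => ∑ e, ω e * (bvec T e v * bvec T e w)

/-- the indicator weights of an edge set -/
def ind [DecidableEq N] (S : Finset (N × Fin 3)) (e : N × Fin 3) : ℝ := if e ∈ S then 1 else 0

/-- the bordered matrix: rows of inner vertices `∑ ω_e b_e(v) bhat_e`, three rows `delta_{vert f j}` -/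
def bigM [Fintype N] [DecidableEq N] (T : STri N F) (ω : N × Fin 3 → ℝ) (f : F) :
    Matrix (N ⊕ Fin 3) (N ⊕ Fin 3) ℝ :=
  Matrix.of fun a w => Sum.elim (fun v => ∑ e, ω e * (bvec T e v * bhat T e w))
    (fun j => if w = T.vert f j then 1 else 0) a

/-- spanning forest with three components rooted at the roots, in linear algebra terms -/
def IsB [Fintype N] (T : STri N F) (S : Finset (N × Fin 3)) : Prop :=
  S.card = Fintype.card N ∧ ∀ y : N → ℝ, (∀ e ∈ S, dif T (ext0 y) e = 0) → y = 0

/-- `p` is in equilibrium for the weights `ω` at every inner vertex -/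
def Equil [Fintype N] [DecidableEq N] (T : STri N F) (ω : N × Fin 3 → ℝ) (x : N ⊕ Fin 3 → ℝ) : Prop :=
  ∀ v, ∑ e, ω e * (bvec T e v * dif T x e) = 0

/-- the 3x3 determinant of the (barycentric) positions of the three vertices of a face -/
def fdet (T : STri N F) (p : N ⊕ Fin 3 → Fin 3 → ℝ) (f : F) : ℝ :=
  (Matrix.of fun i j => p (T.vert f i) j : Matrix (Fin 3) (Fin 3) ℝ).det

section clusters

variable [Fintype F]

open Classical in
/-- a balanced vertex for the set of faces `S` (exists if `S` has at least two elements) -/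
noncomputable def hub (T : STri N F) (S : Finset F) : N ⊕ Fin 3 :=
  if h : ∃ v, ∀ i : Fin 3, 6 * (S.filter (fun g => T.reg v g = i)).card ≤ 5 * S.card then h.choose
  else Sum.inr 0

open Classical in
/-- the cluster of depth `d` containing `g` -/
noncomputable def cl (T : STri N F) : ℕ → F → Finset F
  | 0, _ => Finset.univ
  | d + 1, g => (cl T d g).filter fun g' => T.reg (hub T (cl T d g)) g' = T.reg (hub T (cl T d g)) g

open Classical in
/-- the level of an edge: the largest depth `≤ t` at which its two faces are in the same cluster -/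
noncomputable def lev (T : STri N F) (t : ℕ) (e : N × Fin 3) : ℕ :=
  Nat.findGreatest (fun d => cl T d (T.lf e) = cl T d (T.rf e)) t

open Classical in
/-- the edges at which the dual path `D_i(f)` leaves clusters containing `f` -/
noncomputable def Yset [Fintype N] (T : STri N F) (t : ℕ) (f : F) (i : Fin 3) : Finset (N × Fin 3) :=
  Finset.univ.filter fun e => ∃ g g', Reach T i f g ∧ Cross T i g e g' ∧ f ∈ cl T (lev T t e) g

open Classical in
noncomputable def YY [Fintype N] (T : STri N F) (t : ℕ) (f : F) : Finset (N × Fin 3) :=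
  Finset.univ.filter fun e => ∃ i, e ∈ Yset T t f i

/-- `S` is good (a maximum weight basis): every edge of the fundamental cut of `z ∈ S` has level at least `lev z` -/
def Good [Fintype N] (T : STri N F) (t : ℕ) (S : Finset (N × Fin 3)) : Prop :=
  ∀ z ∈ S, ∀ u : N → ℝ, (∀ e ∈ S, e ≠ z → dif T (ext0 u) e = 0) → dif T (ext0 u) z = 1 →
    ∀ r, dif T (ext0 u) r ≠ 0 → lev T t z ≤ lev T t r

end clusters

/-- the hierarchical weights -/
noncomputable def wt [Fintype F] (T : STri N F) (t : ℕ) (M : ℝ) (e : N × Fin 3) : ℝ := M ^ (t - lev T t e)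

/-- product of the weights of an edge set -/
def wprod (ω : N × Fin 3 → ℝ) (S : Finset (N × Fin 3)) : ℝ := ∏ e ∈ S, ω e

end MP0e5907
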