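import Pool.Agent.Lib_MP_0e5907.Base

/-!
# MP_0e5907 - definitions for the lifting and for the local-to-global part
-/

namespace MP0e5907

open Finset

/-- determinant of three vectors -/
def det3 (a b c : Fin 3 → ℝ) : ℝ :=
  a 0 * (b 1 * c 2 - b 2 * c 1) - a 1 * (b 0 * c 2 - b 2 * c 0) + a 2 * (b 0 * c 1 - b 1 * c 0)

/-- twice the signed area of the triangle `P Q R` -/
def ar (P Q R : ℝ × ℝ) : ℝ := (Q.1 - P.1) * (R.2 - P.2) - (R.1 - P.1) * (Q.2 - P.2)

variable {N F : Type}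

/-- closed triangle, for a positively oriented triple -/
def tri (A B C : ℝ × ℝ) : Set (ℝ × ℝ) := {P | 0 ≤ ar A B P ∧ 0 ≤ ar B C P ∧ 0 ≤ ar C A P}

/-- area of a face -/
def farea (T : STri N F) (X : N ⊕ Fin 3 → ℝ × ℝ) (g : F) : ℝ :=
  ar (X (T.vert g 0)) (X (T.vert g 1)) (X (T.vert g 2))

/-- (height of the point `w` over the plane of the face `g`) times (area of `g`) -/
def ht (T : STri N F) (X : N ⊕ Fin 3 → ℝ × ℝ) (z : N ⊕ Fin 3 → ℝ) (g : F) (w : N ⊕ Fin 3) : ℝ :=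
  z w * farea T X g - z (T.vert g 0) * ar (X w) (X (T.vert g 1)) (X (T.vert g 2))
    - z (T.vert g 1) * ar (X (T.vert g 0)) (X w) (X (T.vert g 2))
    - z (T.vert g 2) * ar (X (T.vert g 0)) (X (T.vert g 1)) (X w)

/-- the affine function given by the face `g` -/
noncomputable def lh (T : STri N F) (X : N ⊕ Fin 3 → ℝ × ℝ) (z : N ⊕ Fin 3 → ℝ) (g : F) (P : ℝ × ℝ) : ℝ :=
  (z (T.vert g 0) * ar P (X (T.vert g 1)) (X (T.vert g 2))
    + z (T.vert g 1) * ar (X (T.vert g 0)) P (X (T.vert g 2))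
    + z (T.vert g 2) * ar (X (T.vert g 0)) (X (T.vert g 1)) P) / farea T X g

/-- local data: all faces are positively oriented, all inner edges are strictly convex, the roots are positively oriented
and have height `0` -/
structure LocConv (T : STri N F) (X : N ⊕ Fin 3 → ℝ × ℝ) (z : N ⊕ Fin 3 → ℝ) : Prop where
  area : ∀ g, 0 < farea T X g
  foldL : ∀ e, 0 < ht T X z (T.lf e) (T.vert (T.rf e) (e.2 + 2))
  foldR : ∀ e, 0 < ht T X z (T.rf e) (T.vert (T.lf e) (e.2 + 1))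
  outer : 0 < ar (X (Sum.inr 0)) (X (Sum.inr 1)) (X (Sum.inr 2))
  root : ∀ j, z (Sum.inr j) = 0

/-- the vertex set `S` is exposed (is the contact set of a supporting plane) in the family `y` -/
def Expo {V : Type} (y : V → Fin 3 → ℝ) (S : Set V) : Prop :=
  ∃ (a : Fin 3 → ℝ) (c : ℝ), ∀ v, ∑ j, a j * y v j ≤ c ∧ (∑ j, a j * y v j = c ↔ v ∈ S)

end MP0e5907
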