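import Pool.Agent.Lib_MP_0e5907.Sides

/-!
# Piece CONN: connectivity of the dual graph and of the primal graph

Paper proof.
* `reach_outer`: for fixed `i` let `μ(g) = #{v : reg v g = i}`. By `cross_reg` and `cross_strict`, `Cross T i g e g'` implies
  `μ(g) < μ(g')` (the set `{v : reg v g = i}` is contained in `{v : reg v g' = i}` and the tail of `e` is new). Induction on
  `|V| - μ(g)`: by `side_cases`, `g = of i` (done, `Relation.ReflTransGen.refl`) or there is `Cross T i g e g'`, and
  `Reach T i g' (of i)` by induction, so `Reach T i g (of i)` (`Relation.ReflTransGen.head`).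
* `dual_conn`: `h` is constant along `Cross` steps (both cases are `h (lf e) = h (rf e)`), hence along `Reach T 0`; so
  `h g = h (of 0)` for all `g`.
* `dual_dist`: more precisely, if `h` changes by at most `B` along each edge then `|h g - h g'| ≤ 2 |V| B`: by induction on
  `|V| - μ(g)` one gets `|h g - h (of 0)| ≤ (|V| - μ(g)) B` (`i = 0`).
* `dif_inj`: let `ρ(v) = #{g : reg v g = 0}` (`c = 0`). By `reg_par`, `{g : reg (inl v) g = 0} ⊆ {g : reg (par v 0) g = 0}`,
  and the face `lf (v,0)` has `reg (inl v) (lf (v,0)) = 2` (label `0+2` of the tail, `reg_vert`) and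
  `reg (par v 0) (lf (v,0)) = 0`. So `ρ(inl v) < ρ(par v 0)`. Induction on `|F| - ρ`: `ext0 y (inl v) = ext0 y (par v 0)`
  (from `dif = 0`) and this is `0` by induction if `par v 0` is an inner vertex, and by definition of `ext0` if it is a root.
-/

namespace MP0e5907

open Finset

variable {N F : Type}

/-- number of the vertices which see the face `g` in the direction `i` -/
private def mu [Fintype N] (T : STri N F) (i : Fin 3) (g : F) : ℕ :=
  (Finset.univ.filter fun v => T.reg v g = i).card

private lemma mu_le [Fintype N] (T : STri N F) (i : Fin 3) (g : F) : mu T i g ≤ Fintype.card N + 3 := by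
  refine (Finset.card_le_univ _).trans ?_
  simp

private lemma mu_lt [Fintype N] (T : STri N F) {i : Fin 3} {g g' : F} {e : N × Fin 3}
    (h : Cross T i g e g') : mu T i g < mu T i g' := by
  refine Finset.card_lt_card ?_
  rw [Finset.ssubset_iff_of_subset]
  · obtain ⟨h1, h2⟩ := cross_strict T h
    exact ⟨Sum.inl e.1, by simpa using h2, by simpa using h1⟩
  · intro v hv
    simp only [Finset.mem_filter, Finset.mem_univ, true_and] at hv ⊢
    rcases cross_reg T h v with h1 | h1
    · rw [h1, hv]
    · exact h1

theorem reach_outer [Fintype N] (T : STri N F) (i : Fin 3) (g : F) : Reach T i g (T.of i) := by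
  suffices H : ∀ n : ℕ, ∀ g, Fintype.card N + 3 - mu T i g ≤ n → Reach T i g (T.of i) from
    H _ g le_rfl
  intro n
  induction n with
  | zero =>
    intro g hg
    rcases side_cases T i g with h | ⟨e, g', h⟩
    · rw [h]; exact Relation.ReflTransGen.refl
    · have h1 := mu_lt T h
      have h2 := mu_le T i g'
      omega
  | succ n ih =>
    intro g hg
    rcases side_cases T i g with h | ⟨e, g', h⟩
    · rw [h]; exact Relation.ReflTransGen.refl
    · have h1 := mu_lt T h
      have h2 := mu_le T i g'
      exact Relation.ReflTransGen.head ⟨e, h⟩ (ih g' (by omega))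

private lemma cross_abs (T : STri N F) (h : F → ℝ) (B : ℝ)
    (hh : ∀ e, |h (T.lf e) - h (T.rf e)| ≤ B) {i : Fin 3} {g g' : F} {e : N × Fin 3}
    (hc : Cross T i g e g') : |h g - h g'| ≤ B := by
  rcases hc with ⟨h1, h2, -⟩ | ⟨h1, h2, -⟩
  · rw [h1, h2]; exact hh e
  · rw [h1, h2, abs_sub_comm]; exact hh e

private lemma dist_outer [Fintype N] (T : STri N F) (h : F → ℝ) (B : ℝ) (hB : 0 ≤ B)
    (hh : ∀ e, |h (T.lf e) - h (T.rf e)| ≤ B) :
    ∀ n : ℕ, ∀ g, Fintype.card N + 3 - mu T 0 g ≤ n → |h g - h (T.of 0)| ≤ n * B := by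
  intro n
  induction n with
  | zero =>
    intro g hg
    rcases side_cases T 0 g with h1 | ⟨e, g', h1⟩
    · rw [h1]; simp
    · have h2 := mu_lt T h1
      have h3 := mu_le T 0 g'
      omega
  | succ n ih =>
    intro g hg
    rcases side_cases T 0 g with h1 | ⟨e, g', h1⟩
    · rw [h1]; simp only [sub_self, abs_zero]; positivity
    · have h2 := mu_lt T h1
      have h3 := mu_le T 0 g'
      have h4 := ih g' (by omega)
      have h5 := cross_abs T h B hh h1
      have h6 : |h g - h (T.of 0)| ≤ |h g - h g'| + |h g' - h (T.of 0)| := abs_sub_le _ _ _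
      push_cast
      linarith

theorem dual_dist [Fintype N] (T : STri N F) (h : F → ℝ) (B : ℝ) (hB : 0 ≤ B)
    (hh : ∀ e, |h (T.lf e) - h (T.rf e)| ≤ B)
    (g g' : F) : |h g - h g'| ≤ 2 * (Fintype.card N + 3) * B := by
  have key : ∀ g, |h g - h (T.of 0)| ≤ (Fintype.card N + 3 : ℝ) * B := by
    intro g
    have h1 := dist_outer T h B hB hh (Fintype.card N + 3) g (Nat.sub_le _ _)
    push_cast at h1
    exact h1
  have h1 := key g
  have h2 := key g'
  have h3 : |h g - h g'| ≤ |h g - h (T.of 0)| + |h (T.of 0) - h g'| := abs_sub_le _ _ _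
  rw [abs_sub_comm (h (T.of 0)) (h g')] at h3
  linarith

theorem dual_conn [Fintype N] (T : STri N F) (h : F → ℝ) (hh : ∀ e, h (T.lf e) = h (T.rf e)) (g g' : F) :
    h g = h g' := by
  have h1 := dual_dist T h 0 le_rfl (fun e => by rw [hh e]; simp) g g'
  rw [mul_zero] at h1
  exact sub_eq_zero.mp (abs_nonpos_iff.mp h1)

theorem dif_inj [Fintype N] [Fintype F] (T : STri N F) (y : N → ℝ) (hy : ∀ e, dif T (ext0 y) e = 0) : y = 0 := by
  classical
  -- the number of faces in the region `0` of a vertex
  set rho : N ⊕ Fin 3 → ℕ := fun v => (Finset.univ.filter fun g => T.reg v g = 0).card with hrho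
  have hle : ∀ v, rho v ≤ Fintype.card F := fun v => Finset.card_le_univ _
  have hlt : ∀ v : N, rho (Sum.inl v) < rho (T.par v 0) := by
    intro v
    refine Finset.card_lt_card ?_
    rw [Finset.ssubset_iff_of_subset]
    · refine ⟨T.lf (v, 0), ?_, ?_⟩
      · have h1 := T.lf_head (v, 0)
        have h2 := T.reg_vert (T.lf (v, 0)) 0
        simp only at h1
        rw [h1] at h2
        simpa using h2
      · have h1 := T.lf_tail (v, 0)
        have h2 := T.reg_vert (T.lf (v, 0)) (0 + 2)
        simp only at h1
        rw [h1] at h2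
        simp [h2]
    · intro g hg
      simp only [Finset.mem_filter, Finset.mem_univ, true_and] at hg ⊢
      exact T.reg_par v 0 g hg
  have main : ∀ n : ℕ, ∀ v : N ⊕ Fin 3, Fintype.card F - rho v ≤ n → ext0 y v = 0 := by
    intro n
    induction n with
    | zero =>
      rintro (v | j) hv
      · have h1 := hlt v
        have h2 := hle (T.par v 0)
        omega
      · rfl
    | succ n ih =>
      rintro (v | j) hv
      · have h1 := hlt v
        have h2 := hle (T.par v 0)
        have h3 := ih (T.par v 0) (by omega)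
        have h4 := hy (v, 0)
        simp only [dif] at h4
        rw [h3, sub_zero] at h4
        exact h4
      · rfl
  funext v
  exact main _ (Sum.inl v) le_rfl

end MP0e5907
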