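import Pool.Agent.Lib_MP_0e5907.Area
import Pool.Agent.Lib_MP_0e5907.Conn

/-!
# Piece CLUSTER: balanced hubs, clusters, levels

Paper proof.
* `balanced`: let `S` be a set of at least two faces and suppose that for every vertex `v` there is `i = lam v` with
  `6 * #{g ∈ S : reg v g = i} > 5 * #S`. For a root `v = inr i` all faces have region `i` (`reg_root`), so `lam (inr i) = i` (another `i'`
  would give `0 > 5 #S`). By `sperner` there is a face `g'` with `lam ∘ vert g'` injective. The three sets
  `S_j = {g ∈ S : reg (vert g' j) g = lam (vert g' j)}` have more than `5/6 #S` elements each, so their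
  intersection has more than `1/2 #S ≥ 1` elements, i.e. at least two elements `g`. For each of them the three
  regions `reg (vert g' j) g = lam (vert g' j)` are different, so `g' = g` by `reg_uniq`. Contradiction.
* `hub_spec`: unfold `hub`, `dif_pos` with `balanced`, `Exists.choose_spec`.
* `mem_cl_self`, `cl_eq_of_mem` (`g' ∈ cl d g → cl d g' = cl d g`): induction on `d`. For `d+1`: `g' ∈ cl d g` so `cl d g' = cl d g =: K` and
  `reg (hub K) g' = reg (hub K) g`.
* `cl_succ_subset`, `mem_cl_succ`: by definition.
* `cl_small`: if `5^t * |F| < 2 * 6^t` then `cl t g = {g}`. Induction on `d`: `cl d g` has one element or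
  `6^d * #(cl d g) ≤ 5^d * |F|`: if `#(cl d g) ≥ 2` then `6 #(cl (d+1) g) ≤ 5 #(cl d g)` by `hub_spec`; if `cl d g` has one element then
  also `cl (d+1) g` (it contains `g`). At `d = t` the second alternative gives `6^t # < 2 * 6^t`, `# ≤ 1`.
* `lev_iff`: for `d ≤ t`: `d ≤ lev T t e ↔ cl d (lf e) = cl d (rf e)`. The property is decreasing in `d` (`cl (d+1) g = cl (d+1) g'` implies
  `g' ∈ cl (d+1) g ⊆ cl d g`, so `cl d g' = cl d g`) and true for `d = 0` (`Nat.findGreatest` API: `Nat.findGreatest_spec`,
  `Nat.findGreatest_is_greatest`, `Nat.le_findGreatest`).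
* `lev_lt`: if `5^t |F| < 2 * 6^t` then `lev T t e < t`: otherwise `{lf e} = {rf e}`, contradicting `lf_ne_rf`.
-/

namespace MP0e5907

open Finset

variable {N F : Type}

open Classical in
theorem balanced [Fintype N] [Fintype F] (T : STri N F) (S : Finset F) (hS : 2 ≤ S.card) :
    ∃ v, ∀ i : Fin 3, 6 * (S.filter (fun g => T.reg v g = i)).card ≤ 5 * S.card := by
  by_contra hcon
  push Not at hcon
  choose lam hlam using hcon
  have hroot : ∀ i, lam (Sum.inr i) = i := by
    intro i
    by_contra hne
    have h1 := hlam (Sum.inr i)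
    have h2 : S.filter (fun g => T.reg (Sum.inr i) g = lam (Sum.inr i)) = ∅ := by
      apply Finset.filter_false_of_mem
      intro g _ hg
      rw [T.reg_root] at hg
      exact hne hg.symm
    rw [h2, Finset.card_empty, mul_zero] at h1
    exact absurd h1 (Nat.not_lt_zero _)
  obtain ⟨g', hg'⟩ := sperner T lam hroot
  set I : Finset F := S.filter (fun g => ∀ j, T.reg (T.vert g' j) g = lam (T.vert g' j)) with hI
  have hI1 : I.card ≤ 1 := by
    rw [Finset.card_le_one]
    have key : ∀ a ∈ I, g' = a := by
      intro a ha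
      apply T.reg_uniq a g'
      have h1 := (Finset.mem_filter.1 ha).2
      intro x y hxy
      simp only at hxy
      rw [h1 x, h1 y] at hxy
      exact hg' hxy
    intro a ha b hb
    rw [← key a ha, ← key b hb]
  have hcov : S ⊆ I ∪ (univ : Finset (Fin 3)).biUnion fun j =>
      S.filter (fun g => ¬ T.reg (T.vert g' j) g = lam (T.vert g' j)) := by
    intro g hg
    rw [Finset.mem_union, Finset.mem_biUnion]
    by_cases h : ∀ j, T.reg (T.vert g' j) g = lam (T.vert g' j)
    · exact Or.inl (Finset.mem_filter.2 ⟨hg, h⟩)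
    · push Not at h
      obtain ⟨j, hj⟩ := h
      exact Or.inr ⟨j, Finset.mem_univ _, Finset.mem_filter.2 ⟨hg, hj⟩⟩
  have hc1 : S.card ≤ I.card + ∑ j : Fin 3,
      (S.filter (fun g => ¬ T.reg (T.vert g' j) g = lam (T.vert g' j))).card :=
    (Finset.card_le_card hcov).trans ((Finset.card_union_le _ _).trans
      (Nat.add_le_add_left Finset.card_biUnion_le _))
  have hc2 : ∀ j : Fin 3,
      (S.filter (fun g => T.reg (T.vert g' j) g = lam (T.vert g' j))).card +
      (S.filter (fun g => ¬ T.reg (T.vert g' j) g = lam (T.vert g' j))).card = S.card := fun j =>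
    Finset.card_filter_add_card_filter_not _
  rw [Fin.sum_univ_three] at hc1
  have h0 := hc2 0
  have h1 := hc2 1
  have h2 := hc2 2
  have k0 := hlam (T.vert g' 0)
  have k1 := hlam (T.vert g' 1)
  have k2 := hlam (T.vert g' 2)
  omega

open Classical in
theorem hub_spec [Fintype N] [Fintype F] (T : STri N F) (S : Finset F) (hS : 2 ≤ S.card) (i : Fin 3) :
    6 * (S.filter (fun g => T.reg (hub T S) g = i)).card ≤ 5 * S.card := by
  have h := balanced T S hS
  have e : hub T S = h.choose := by
    unfold hub
    exact dif_pos h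
  rw [e]
  exact h.choose_spec i

variable [Fintype F]

theorem mem_cl_succ (T : STri N F) (d : ℕ) (g g' : F) :
    g' ∈ cl T (d + 1) g ↔ g' ∈ cl T d g ∧ T.reg (hub T (cl T d g)) g' = T.reg (hub T (cl T d g)) g := by
  rw [cl]
  exact Finset.mem_filter

theorem mem_cl_self (T : STri N F) (d : ℕ) (g : F) : g ∈ cl T d g := by
  induction d with
  | zero => exact Finset.mem_univ g
  | succ d ih => exact (mem_cl_succ T d g g).2 ⟨ih, rfl⟩

theorem cl_eq_of_mem (T : STri N F) (d : ℕ) (g g' : F) (h : g' ∈ cl T d g) : cl T d g' = cl T d g := by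
  induction d with
  | zero => rfl
  | succ d ih =>
    obtain ⟨h1, h2⟩ := (mem_cl_succ T d g g').1 h
    have h3 := ih h1
    ext x
    rw [mem_cl_succ, mem_cl_succ, h3, h2]

theorem cl_succ_subset (T : STri N F) (d : ℕ) (g : F) : cl T (d + 1) g ⊆ cl T d g := fun _ hx =>
  ((mem_cl_succ T d g _).1 hx).1

theorem cl_anti (T : STri N F) {d d' : ℕ} (h : d ≤ d') (g : F) : cl T d' g ⊆ cl T d g := by
  induction d', h using Nat.le_induction with
  | base => exact Finset.Subset.refl _
  | succ n _ ih => exact (cl_succ_subset T n g).trans ih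

theorem cl_small [Fintype N] (T : STri N F) (t : ℕ) (ht : 5 ^ t * Fintype.card F < 2 * 6 ^ t) (g : F) :
    cl T t g = {g} := by
  classical
  have hpos : ∀ d, 1 ≤ (cl T d g).card := fun d =>
    Finset.card_pos.2 ⟨g, mem_cl_self T d g⟩
  have key : ∀ d, (cl T d g).card = 1 ∨ 6 ^ d * (cl T d g).card ≤ 5 ^ d * Fintype.card F := by
    intro d
    induction d with
    | zero =>
      right
      simp [cl, Finset.card_univ]
    | succ d ih =>
      have hle : (cl T (d + 1) g).card ≤ (cl T d g).card :=
        Finset.card_le_card (cl_succ_subset T d g)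
      have hp := hpos (d + 1)
      by_cases h1 : (cl T d g).card = 1
      · left; omega
      · right
        have h2 : 2 ≤ (cl T d g).card := by have := hpos d; omega
        have h3 := ih.resolve_left h1
        have h4 := hub_spec T (cl T d g) h2 (T.reg (hub T (cl T d g)) g)
        have h5 : (cl T (d + 1) g).card ≤ ((cl T d g).filter
            (fun g' => T.reg (hub T (cl T d g)) g' = T.reg (hub T (cl T d g)) g)).card := by
          apply Finset.card_le_card
          intro x hx
          exact Finset.mem_filter.2 ((mem_cl_succ T d g x).1 hx)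
        calc 6 ^ (d + 1) * (cl T (d + 1) g).card = 6 ^ d * (6 * (cl T (d + 1) g).card) := by ring
          _ ≤ 6 ^ d * (5 * (cl T d g).card) := by
              apply Nat.mul_le_mul_left
              omega
          _ = 5 * (6 ^ d * (cl T d g).card) := by ring
          _ ≤ 5 * (5 ^ d * Fintype.card F) := Nat.mul_le_mul_left _ h3
          _ = 5 ^ (d + 1) * Fintype.card F := by ring
  have h1 : (cl T t g).card = 1 := by
    rcases key t with h | h
    · exact h
    · have h2 : 6 ^ t * (cl T t g).card < 6 ^ t * 2 := by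
        calc 6 ^ t * (cl T t g).card ≤ 5 ^ t * Fintype.card F := h
          _ < 2 * 6 ^ t := ht
          _ = 6 ^ t * 2 := by ring
      have h3 := Nat.lt_of_mul_lt_mul_left h2
      have := hpos t
      omega
  obtain ⟨a, ha⟩ := Finset.card_eq_one.1 h1
  have h2 := mem_cl_self T t g
  rw [ha, Finset.mem_singleton] at h2
  rw [ha, h2]

theorem cluster_fg_le {P : ℕ → Prop} (inst : DecidablePred P) (t : ℕ) :
    @Nat.findGreatest P inst t ≤ t := Nat.findGreatest_le t

theorem cluster_fg_spec {P : ℕ → Prop} (inst : DecidablePred P) (t : ℕ) (h : P 0) :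
    P (@Nat.findGreatest P inst t) := Nat.findGreatest_spec (Nat.zero_le t) h

theorem cluster_le_fg {P : ℕ → Prop} (inst : DecidablePred P) {t d : ℕ} (hd : d ≤ t) (h : P d) :
    d ≤ @Nat.findGreatest P inst t := Nat.le_findGreatest hd h

theorem lev_le (T : STri N F) (t : ℕ) (e : N × Fin 3) : lev T t e ≤ t := by
  unfold lev
  exact cluster_fg_le _ t

theorem cl_eq_anti (T : STri N F) {d d' : ℕ} (h : d ≤ d') {g g' : F} (he : cl T d' g = cl T d' g') :
    cl T d g = cl T d g' := by
  apply cl_eq_of_mem
  apply cl_anti T h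
  rw [← he]
  exact mem_cl_self T d' g

theorem lev_iff (T : STri N F) (t d : ℕ) (hd : d ≤ t) (e : N × Fin 3) :
    d ≤ lev T t e ↔ cl T d (T.lf e) = cl T d (T.rf e) := by
  constructor
  · intro h
    have h1 : cl T (lev T t e) (T.lf e) = cl T (lev T t e) (T.rf e) := by
      unfold lev
      exact cluster_fg_spec (P := fun d => cl T d (T.lf e) = cl T d (T.rf e)) _ t rfl
    exact cl_eq_anti T h h1
  · intro h
    unfold lev
    exact cluster_le_fg (P := fun d => cl T d (T.lf e) = cl T d (T.rf e)) _ hd h

theorem lev_lt [Fintype N] (T : STri N F) (t : ℕ) (ht : 5 ^ t * Fintype.card F < 2 * 6 ^ t) (e : N × Fin 3) :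
    lev T t e < t := by
  rcases lt_or_eq_of_le (lev_le T t e) with h | h
  · exact h
  · exfalso
    have h1 := (lev_iff T t t le_rfl e).1 h.ge
    rw [cl_small T t ht, cl_small T t ht] at h1
    exact lf_ne_rf T e (Finset.singleton_injective h1)

end MP0e5907
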