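import Pool.Agent.Lib_MP_0e5907.Base
import Pool.Agent.Lib_MP_0e5907.Cluster

/-!
# MP_0e5907, Stage 2 (POLYNOMIAL grid) - definitions

Dual random spanning trees. `r` = dual conductances (the primal weights will be `1/r`). `Zd T r` = generating function of the complements
of the bases = weighted number of dual spanning trees. `leg T k f m` = edges of colour `m` between two different children of the
cluster `cl T k f` (left face in the child `m+2`, right face in the child `m+1`).
-/

namespace MP0e5907

open Finset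

variable {N F : Type}

/-- extra monotonicity properties of the regions (true for the regions coming from canonical orderings) -/
structure STriP (T : STri N F) : Prop where
  mono : ∀ v c m g, m ≠ c → T.reg (T.par v c) g = m → T.reg (Sum.inl v) g = m
  dom : ∀ e u m g, T.reg u (T.lf e) ≠ T.reg u (T.rf e) → m ≠ e.2 → T.reg (Sum.inl e.1) g = m → T.reg u g = m

section

variable [Fintype N] [Fintype F]

open Classical in
/-- the leg of colour `m` of the cluster `cl T k f` -/
noncomputable def leg (T : STri N F) (k : ℕ) (f : F) (m : Fin 3) : Finset (N × Fin 3) :=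
  Finset.univ.filter fun e => e.2 = m ∧ T.lf e ∈ cl T k f ∧ T.rf e ∈ cl T k f ∧
    T.reg (hub T (cl T k f)) (T.lf e) ≠ T.reg (hub T (cl T k f)) (T.rf e)

open Classical in
/-- the child `i` of the cluster `cl T k f` (it may be empty) -/
noncomputable def child (T : STri N F) (k : ℕ) (f : F) (i : Fin 3) : Finset F :=
  (cl T k f).filter fun g => T.reg (hub T (cl T k f)) g = i

/-- the child of `cl T k f` containing `f` -/
noncomputable def cc (T : STri N F) (k : ℕ) (f : F) : Fin 3 := T.reg (hub T (cl T k f)) f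

/-- the edge joins two different parts (siblings of the clusters of `f`, or `{f}`) and has level `< k` -/
def InT (T : STri N F) (t : ℕ) (f : F) (k : ℕ) (e : N × Fin 3) : Prop :=
  T.lf e ∈ cl T (lev T t e) f ∧ lev T t e < k

open Classical in
/-- generating function of the complements of bases -/
noncomputable def Zd (T : STri N F) (r : N × Fin 3 → ℝ) : ℝ :=
  ∑ S ∈ powersetCard (Fintype.card N) (Finset.univ : Finset (N × Fin 3)),
    (∏ e ∈ Finset.univ \ S, r e) * (Gm T (ind S)).det

/-- dual energy -/
def En (T : STri N F) (r : N × Fin 3 → ℝ) (x : F → ℝ) : ℝ :=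
  ∑ e, r e * (x (T.lf e) - x (T.rf e)) ^ 2

open Classical in
/-- dual energy inside a set of faces -/
noncomputable def EnS (T : STri N F) (r : N × Fin 3 → ℝ) (K : Finset F) (x : F → ℝ) : ℝ :=
  ∑ e ∈ Finset.univ.filter (fun e => T.lf e ∈ K ∧ T.rf e ∈ K), r e * (x (T.lf e) - x (T.rf e)) ^ 2

/-- energy on a set of edges -/
def EnE (T : STri N F) (r : N × Fin 3 → ℝ) (W : Finset (N × Fin 3)) (x : F → ℝ) : ℝ :=
  ∑ e ∈ W, r e * (x (T.lf e) - x (T.rf e)) ^ 2

open Classical in
/-- the good dual conductances -/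
structure GoodW (T : STri N F) (t : ℕ) (r : N × Fin 3 → ℝ) : Prop where
  pos : ∀ e, 0 < r e
  low : ∀ e, 1 ≤ 3 ^ t * r e
  up : ∀ e, r e ≤ 2 * 6 ^ t
  tot : ∀ k, k < t → ∀ f m, (leg T k f m).Nonempty → ∑ e ∈ leg T k f m, r e = 2 * 6 ^ k
  partL : ∀ k, k < t → ∀ f m, ∀ e0 ∈ leg T k f m, ∀ D, k + 1 ≤ D → D ≤ t →
    6 ^ k ≤ 3 ^ (D - (k + 1)) * ∑ e ∈ (leg T k f m).filter (fun e => T.lf e ∈ cl T D (T.lf e0)), r e
  partR : ∀ k, k < t → ∀ f m, ∀ e0 ∈ leg T k f m, ∀ D, k + 1 ≤ D → D ≤ t →
    6 ^ k ≤ 3 ^ (D - (k + 1)) * ∑ e ∈ (leg T k f m).filter (fun e => T.rf e ∈ cl T D (T.rf e0)), r e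

open Classical in
/-- the conductances `r` outside the edges of the tripods of `f` of level `< k` which are not in `Y` -/
noncomputable def rY (T : STri N F) (t : ℕ) (f : F) (r : N × Fin 3 → ℝ) (Y : Finset (N × Fin 3)) (k : ℕ)
    (e : N × Fin 3) : ℝ := if InT T t f k e ∧ e ∉ Y then 0 else r e

open Classical in
/-- change `r'` to `r` on the edge set `W` -/
noncomputable def setOn (W : Finset (N × Fin 3)) (r r' : N × Fin 3 → ℝ) (e : N × Fin 3) : ℝ :=
  if e ∈ W then r e else r' e

open Classical in
/-- the depth of the smallest cluster of `f` containing `g` -/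
noncomputable def slev (T : STri N F) (t : ℕ) (f g : F) : ℕ := Nat.findGreatest (fun d => g ∈ cl T d f) t

/-- the part containing `g` (parts: siblings of the clusters of `f`, and `{f}`) -/
noncomputable def part (T : STri N F) (t : ℕ) (f g : F) : ℕ × Fin 3 :=
  (slev T t f g, T.reg (hub T (cl T (slev T t f g) f)) g)

/-- `j` is a nonempty sibling at depth `k` -/
def Sib (T : STri N F) (f : F) (k : ℕ) (j : Fin 3) : Prop :=
  j ≠ cc T k f ∧ ∃ g ∈ cl T k f, T.reg (hub T (cl T k f)) g = j

/-- the indices of the siblings -/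
abbrev Idx (T : STri N F) (t : ℕ) (f : F) : Type := {p : Fin t × Fin 3 // Sib T f p.1.1 p.2}

/-- the exit structure of the dual path `D_j(f)`: `G k` is the last face of the path in `cl T k f` -/
structure ExitD (T : STri N F) (t : ℕ) (f : F) (j : Fin 3) (G : ℕ → F) : Prop where
  mem : ∀ k, k ≤ t → G k ∈ cl T k f
  zero : G 0 = T.of j
  step : ∀ k, k < t → G k = G (k + 1) ∨
    (G k ∉ cl T (k + 1) f ∧ cc T k f ≠ j ∧ T.reg (hub T (cl T k f)) (G k) = j ∧ ∃ e g', Cross T j (G (k + 1)) e g' ∧
      g' ∈ cl T k f ∧ T.reg (hub T (cl T k f)) g' = j ∧ T.reg (hub T (cl T k f)) (G (k + 1)) = cc T k f)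

open Classical in
/-- the colour of the leg through which the sibling `j` is connected to the rest -/
noncomputable def muc (T : STri N F) (f : F) (k : ℕ) (j : Fin 3) : Fin 3 :=
  if (leg T k f (-(cc T k f + j))).Nonempty then -(cc T k f + j) else cc T k f

open Classical in
/-- the face of `e` in the child of `f` -/
noncomputable def inn (T : STri N F) (f : F) (k : ℕ) (e : N × Fin 3) : F :=
  if T.reg (hub T (cl T k f)) (T.lf e) = cc T k f then T.lf e else T.rf e

open Classical in
/-- the allowed edges for the sibling `j` at depth `k` -/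
noncomputable def JJ (T : STri N F) (t : ℕ) (f : F) (G : Fin 3 → ℕ → F) (k : ℕ) (j : Fin 3) : Finset (N × Fin 3) :=
  if G j k = G j (k + 1) then leg T k f (muc T f k j)
  else (leg T k f (-(cc T k f + j))).filter fun e =>
    inn T f k e ∈ cl T (min (slev T t f (G j (k + 1)) + 1) t) (G j (k + 1))

open Classical in
/-- the edge set of a choice function -/
noncomputable def Yof (T : STri N F) (t : ℕ) (f : F) (y : Idx T t f → N × Fin 3) : Finset (N × Fin 3) :=
  Finset.univ.image y

end

end MP0e5907
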