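import Pool.Agent.Lib_MP_0e5907.BasisA

/-!
# Piece BASISD: the determinants `D(S) = det (Gm 1_S)`

`Gm T ω = ∑_e ω_e b_e b_eᵀ` where `b_e = bvec T e : N → ℝ`; note `∑_v bvec T e v * y v = dif T (ext0 y) e`
(lemma `bvec_dot`).

Paper proof.
* `bvec_dot`: `∑_v ((if v = e.1 then 1 else 0) - (if par e = inl v then 1 else 0)) y v = y e.1 - (ext0 y)(par e)`; case on
  `par e`: if it is `inl w` the second sum is `y w`, if it is `inr i` it is `0`.
* `Gm_quad`: `∑_v y v * (Gm ω *ᵥ y) v = ∑_e ω_e (dif (ext0 y) e)^2`.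
* `Gm_det_nonneg`: for `ω ≥ 0` the matrix `Gm ω` is symmetric positive semidefinite, so its determinant is `≥ 0`
  (`Matrix.PosSemidef`, `Matrix.PosSemidef.det_nonneg`; over ℝ).
* `Gm_ker`: if `det (Gm ω) = 0`, `ω ≥ 0`, there is `y ≠ 0` with `Gm ω *ᵥ y = 0` (`Matrix.exists_mulVec_eq_zero_iff`), so
  `∑_e ω_e (dif (ext0 y) e)^2 = 0` and `dif (ext0 y) e = 0` for every `e` with `ω_e ≠ 0`.
* `D_ne_zero`: if `IsB T S` then `det (Gm 1_S) ≠ 0`: otherwise `Gm_ker` gives `y ≠ 0` with zero differences on `S`.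
* `D_eq_zero`: if `|S| = |N|` and not `IsB T S` then there is `y ≠ 0` with zero differences on `S`, so `Gm 1_S *ᵥ y = 0` and
  `det (Gm 1_S) = 0`.
* `D_swap`: `S' = insert r (S.erase z)`, `u` the dual potential of `z ∈ S`, `c = dif (ext0 u) r ≠ 0`. Then
  `det (Gm 1_{S'}) = c^2 det (Gm 1_S)`. Proof: let `A = 1 + (b_r - b_z) uᵀ` (N×N matrix,
  `Matrix.vecMulVec (bvec T r - bvec T z) u`). `A b_e = b_e + (b_r - b_z) (u · b_e)`, and `u · b_e = dif (ext0 u) e`, so
  `A b_e = b_e` for `e ∈ S.erase z` and `A b_z = b_r`. Hence `A * Gm 1_S * Aᵀ = ∑_{e∈S} (A b_e)(A b_e)ᵀ = Gm 1_{S'}` (note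
  `r ∉ S.erase z` since the difference of `u` is zero there; if `r = z` then `S' = S`, `c = 1`). `det A = 1 + u · (b_r - b_z)
  = 1 + c - 1 = c` (matrix determinant lemma: `Matrix.det_one_add_replicateCol_mul_replicateRow` or
  `Matrix.det_one_add_mul_comm`).
-/

namespace MP0e5907

open Finset

variable {N F : Type} [Fintype N] [Fintype F] [DecidableEq N]

omit [Fintype F] in
theorem bvec_dot (T : STri N F) (e : N × Fin 3) (y : N → ℝ) :
    ∑ v, bvec T e v * y v = dif T (ext0 y) e := by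
  have h1 : ∀ v, bvec T e v * y v =
      (if v = e.1 then y v else 0) - (if T.par e.1 e.2 = Sum.inl v then y v else 0) := by
    intro v
    unfold bvec
    split_ifs <;> ring
  rw [Finset.sum_congr rfl fun v _ => h1 v, Finset.sum_sub_distrib, Finset.sum_ite_eq' Finset.univ,
    if_pos (Finset.mem_univ _)]
  unfold dif ext0
  congr 1
  rcases T.par e.1 e.2 with w | w
  · simp
  · simp

omit [Fintype F] in
private theorem basisD_mulVec (T : STri N F) (ω : N × Fin 3 → ℝ) (y : N → ℝ) (v : N) :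
    ((Gm T ω).mulVec y) v = ∑ e, ω e * (bvec T e v * dif T (ext0 y) e) := by
  show ∑ w, (∑ e, ω e * (bvec T e v * bvec T e w)) * y w = _
  have h1 : ∀ w, (∑ e, ω e * (bvec T e v * bvec T e w)) * y w =
      ∑ e, ω e * (bvec T e v * (bvec T e w * y w)) := by
    intro w
    rw [Finset.sum_mul]
    refine Finset.sum_congr rfl fun e _ => ?_
    ring
  rw [Finset.sum_congr rfl fun w _ => h1 w, Finset.sum_comm]
  refine Finset.sum_congr rfl fun e _ => ?_
  rw [← Finset.mul_sum, ← Finset.mul_sum, bvec_dot]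

omit [Fintype F] in
theorem Gm_quad (T : STri N F) (ω : N × Fin 3 → ℝ) (y : N → ℝ) :
    ∑ v, y v * ((Gm T ω).mulVec y) v = ∑ e, ω e * (dif T (ext0 y) e) ^ 2 := by
  have h1 : ∀ v, y v * ((Gm T ω).mulVec y) v =
      ∑ e, ω e * dif T (ext0 y) e * (bvec T e v * y v) := by
    intro v
    rw [basisD_mulVec, Finset.mul_sum]
    refine Finset.sum_congr rfl fun e _ => ?_
    ring
  rw [Finset.sum_congr rfl fun v _ => h1 v, Finset.sum_comm]
  refine Finset.sum_congr rfl fun e _ => ?_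
  rw [← Finset.mul_sum, bvec_dot]
  ring

omit [Fintype F] in
theorem Gm_det_nonneg (T : STri N F) (ω : N × Fin 3 → ℝ) (hω : ∀ e, 0 ≤ ω e) : 0 ≤ (Gm T ω).det := by
  have h1 : Gm T ω = (Matrix.of fun e v => Real.sqrt (ω e) * bvec T e v :
      Matrix (N × Fin 3) N ℝ).conjTranspose *
      (Matrix.of fun e v => Real.sqrt (ω e) * bvec T e v : Matrix (N × Fin 3) N ℝ) := by
    ext v w
    rw [Matrix.mul_apply]
    show ∑ e, ω e * (bvec T e v * bvec T e w) =
      ∑ e, (Real.sqrt (ω e) * bvec T e v) * (Real.sqrt (ω e) * bvec T e w)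
    refine Finset.sum_congr rfl fun e _ => ?_
    have h2 := Real.mul_self_sqrt (hω e)
    linear_combination -(bvec T e v * bvec T e w) * h2
  rw [h1]
  exact (Matrix.posSemidef_conjTranspose_mul_self _).det_nonneg

omit [Fintype F] in
theorem Gm_ker (T : STri N F) (ω : N × Fin 3 → ℝ) (hω : ∀ e, 0 ≤ ω e) (h : (Gm T ω).det = 0) :
    ∃ y : N → ℝ, y ≠ 0 ∧ ∀ e, ω e ≠ 0 → dif T (ext0 y) e = 0 := by
  obtain ⟨y, hy, hy2⟩ := Matrix.exists_mulVec_eq_zero_iff.2 h
  refine ⟨y, hy, fun e he => ?_⟩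
  have h1 := Gm_quad T ω y
  rw [hy2] at h1
  have h2 : ∑ e, ω e * (dif T (ext0 y) e) ^ 2 = 0 := by
    rw [← h1]
    exact Finset.sum_eq_zero fun v _ => mul_zero _
  have h3 := (Finset.sum_eq_zero_iff_of_nonneg
    (fun e _ => mul_nonneg (hω e) (sq_nonneg _))).1 h2 e (Finset.mem_univ e)
  exact pow_eq_zero_iff (two_ne_zero) |>.1 ((mul_eq_zero.1 h3).resolve_left he)

omit [Fintype F] in
theorem D_ne_zero (T : STri N F) (S : Finset (N × Fin 3)) (hS : IsB T S) : (Gm T (ind S)).det ≠ 0 := by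
  intro h
  obtain ⟨y, hy, hy2⟩ := Gm_ker T (ind S) (fun e => by unfold ind; split_ifs <;> norm_num) h
  refine hy (hS.2 y fun e he => hy2 e ?_)
  unfold ind
  rw [if_pos he]
  exact one_ne_zero

omit [Fintype F] in
theorem D_eq_zero (T : STri N F) (S : Finset (N × Fin 3)) (hc : S.card = Fintype.card N) (hS : ¬ IsB T S) :
    (Gm T (ind S)).det = 0 := by
  have h1 : ∃ y : N → ℝ, (∀ e ∈ S, dif T (ext0 y) e = 0) ∧ y ≠ 0 := by
    by_contra hcon
    push Not at hcon
    exact hS ⟨hc, hcon⟩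
  obtain ⟨y, hy, hy0⟩ := h1
  refine Matrix.exists_mulVec_eq_zero_iff.1 ⟨y, hy0, ?_⟩
  funext v
  rw [basisD_mulVec]
  refine Finset.sum_eq_zero fun e _ => ?_
  by_cases he : e ∈ S
  · rw [hy e he, mul_zero, mul_zero]
  · unfold ind
    rw [if_neg he, zero_mul]

omit [Fintype F] in
private theorem basisD_sum (T : STri N F) (S : Finset (N × Fin 3)) :
    Gm T (ind S) = ∑ e ∈ S, Matrix.vecMulVec (bvec T e) (bvec T e) := by
  ext v w
  rw [Matrix.sum_apply]
  show ∑ e, ind S e * (bvec T e v * bvec T e w) = ∑ e ∈ S, bvec T e v * bvec T e w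
  have h1 : ∀ e, ind S e * (bvec T e v * bvec T e w) =
      if e ∈ S then bvec T e v * bvec T e w else 0 := by
    intro e
    unfold ind
    split_ifs <;> ring
  rw [Finset.sum_congr rfl fun e _ => h1 e, Finset.sum_ite_mem, Finset.univ_inter]

omit [Fintype F] in
theorem D_swap (T : STri N F) (S : Finset (N × Fin 3)) (z : N × Fin 3) (hz : z ∈ S)
    (u : N → ℝ) (h0 : ∀ e ∈ S, e ≠ z → dif T (ext0 u) e = 0) (h1 : dif T (ext0 u) z = 1) (r : N × Fin 3)
    (hr : dif T (ext0 u) r ≠ 0) :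
    (Gm T (ind (insert r (S.erase z)))).det = (dif T (ext0 u) r) ^ 2 * (Gm T (ind S)).det := by
  have hrz : r ∉ S.erase z := by
    intro hmem
    exact hr (h0 r (Finset.mem_of_mem_erase hmem) (Finset.ne_of_mem_erase hmem))
  have hdot : ∀ e, u ⬝ᵥ bvec T e = dif T (ext0 u) e := by
    intro e
    rw [← bvec_dot]
    exact Finset.sum_congr rfl fun v _ => mul_comm _ _
  have hA : ∀ e, (1 + Matrix.vecMulVec (bvec T r - bvec T z) u).mulVec (bvec T e) =
      bvec T e + dif T (ext0 u) e • (bvec T r - bvec T z) := by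
    intro e
    rw [Matrix.add_mulVec, Matrix.one_mulVec, Matrix.vecMulVec_mulVec, hdot, op_smul_eq_smul]
  have hdet : (1 + Matrix.vecMulVec (bvec T r - bvec T z) u).det = dif T (ext0 u) r := by
    rw [Matrix.vecMulVec_eq Unit, Matrix.det_one_add_replicateCol_mul_replicateRow,
      dotProduct_sub, hdot, hdot, h1]
    ring
  have hmul : (1 + Matrix.vecMulVec (bvec T r - bvec T z) u) * Gm T (ind S) *
      (1 + Matrix.vecMulVec (bvec T r - bvec T z) u).transpose =
      Gm T (ind (insert r (S.erase z))) := by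
    rw [basisD_sum, basisD_sum, Finset.sum_insert hrz, Finset.mul_sum, Finset.sum_mul,
      ← Finset.add_sum_erase _ _ hz]
    have h3 : ∀ e, (1 + Matrix.vecMulVec (bvec T r - bvec T z) u) *
        Matrix.vecMulVec (bvec T e) (bvec T e) *
        (1 + Matrix.vecMulVec (bvec T r - bvec T z) u).transpose =
        Matrix.vecMulVec (bvec T e + dif T (ext0 u) e • (bvec T r - bvec T z))
          (bvec T e + dif T (ext0 u) e • (bvec T r - bvec T z)) := by
      intro e
      rw [Matrix.mul_vecMulVec, Matrix.vecMulVec_mul, Matrix.vecMul_transpose, hA]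
    rw [h3, h1, one_smul, add_sub_cancel]
    congr 1
    refine Finset.sum_congr rfl fun e he => ?_
    rw [h3, h0 e (Finset.mem_of_mem_erase he) (Finset.ne_of_mem_erase he), zero_smul, add_zero]
  rw [← hmul, Matrix.det_mul, Matrix.det_mul, Matrix.det_transpose, hdet]
  ring

end MP0e5907
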