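import Pool.Agent.Lib_MP_0e5907.Base

/-!
# MP_0e5907, Stage B, part 1 - canonical orderings and the invariants of the recursion for the Schnyder regions

A state of a canonical ordering is `(m, w, D, K)`: the upper path `w 0, ..., w m`, the set `D` of labelled faces (triples
`(apex, left, right)`, labels `0,1,2` in counterclockwise order) below the path and the set `K` of known vertices. A step inserts a new
vertex `x` above the interval `w p, ..., w q` of the path.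
-/

namespace MP0e5907

open Finset

/-- labels of a labelled face -/
def lab {V : Type} (f : V × V × V) : Fin 3 → V := ![f.1, f.2.1, f.2.2]

/-- the new faces when `x` is inserted above `w p, ..., w q` -/
def newf {V : Type} [DecidableEq V] (w : ℕ → V) (p q : ℕ) (x : V) : Finset (V × V × V) :=
  (Finset.Ico p q).image fun j => (x, w j, w (j + 1))

/-- insertion of `x` above the interval `[p,q]` of the path -/
structure Step {V : Type} (m : ℕ) (w : ℕ → V) (K : Finset V) (p q : ℕ) (x : V) (m' : ℕ) (w' : ℕ → V) : Prop where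
  pq : p < q
  qm : q ≤ m
  xK : x ∉ K
  hm' : m' + q = m + p + 2
  w1 : ∀ i, i ≤ p → w' i = w i
  w2 : w' (p + 1) = x
  w3 : ∀ i, q ≤ i → i ≤ m → w' (i + p + 2 - q) = w i

/-- canonical orderings -/
inductive CO {V : Type} [DecidableEq V] (r1 r2 : V) :
    ℕ → (ℕ → V) → Finset (V × V × V) → Finset V → Prop
  | base (w : ℕ → V) (h0 : w 0 = r1) (h1 : w 1 = r2) (hne : r1 ≠ r2) : CO r1 r2 1 w ∅ {r1, r2}
  | step (m : ℕ) (w : ℕ → V) (D : Finset (V × V × V)) (K : Finset V) (h : CO r1 r2 m w D K)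
      (p q : ℕ) (x : V) (m' : ℕ) (w' : ℕ → V) (hs : Step m w K p q x m' w') :
      CO r1 r2 m' w' (D ∪ newf w p q x) (insert x K)

/-- the data constructed along a canonical ordering: parents, index on the path of the top of the chain of `0`-parents, regions -/
structure CDat (V : Type) where
  par : V → Fin 3 → V
  top : V → ℕ
  reg : V → V × V × V → Fin 3

open Classical in
/-- update of the data -/
noncomputable def CDat.upd {V : Type} (d : CDat V) (w : ℕ → V) (p q : ℕ) (x : V) : CDat V where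
  par := fun v c => if v = x then (if c = 1 then w p else if c = 2 then w q else x)
    else if c = 0 ∧ ∃ s, p < s ∧ s < q ∧ w s = v then x else d.par v c
  top := fun v => if v = x then p + 1 else if d.top v ≤ p then d.top v
    else if d.top v < q then p + 1 else d.top v + p + 2 - q
  reg := fun v f => if f.1 = x then (if v = x then 0 else if d.top f.2.1 < d.top v then 2 else 1)
    else if v = x then (if d.reg (w p) f = 2 then 2 else if d.reg (w q) f = 1 then 1 else 0)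
    else d.reg v f

section props

variable {V : Type} (r1 r2 : V) (m : ℕ) (w : ℕ → V) (D : Finset (V × V × V)) (K : Finset V) (d : CDat V)

/-- `v` is not on the path -/
def Off (v : V) : Prop := ∀ i, i ≤ m → w i ≠ v

/-- path and faces -/
structure PA : Prop where
  hm : 1 ≤ m
  w0 : w 0 = r1
  wm : w m = r2
  winj : ∀ i j, i ≤ m → j ≤ m → w i = w j → i = j
  wK : ∀ i, i ≤ m → w i ∈ K
  DK : ∀ f ∈ D, ∀ k, lab f k ∈ K
  count : D.card + m + 3 = 2 * K.card
  S1 : ∀ f ∈ D, ∀ f' ∈ D, ∀ i j : Fin 3, i ≠ j → lab f i = lab f' i → lab f j = lab f' j → f = f'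
  S2 : ∀ i, i < m → ∀ f ∈ D, ¬ (lab f 1 = w i ∧ lab f 2 = w (i + 1))
  S2' : ∀ i, i < m → ∀ f ∈ D, ∀ f' ∈ D, (∃ k, lab f k = w i) → (∃ k, lab f k = w (i + 1)) →
    (∃ k, lab f' k = w i) → (∃ k, lab f' k = w (i + 1)) → f = f'

/-- parents are known -/
def PB : Prop := ∀ v ∈ K, v ≠ r1 → v ≠ r2 → d.par v 1 ∈ K ∧ d.par v 2 ∈ K ∧ (Off m w v → d.par v 0 ∈ K)

/-- every side of a face of `D` is the base or belongs to an edge `(v,c)` -/
def PS3 : Prop := ∀ f ∈ D, ∀ k : Fin 3, (k = 0 ∧ lab f 1 = r1 ∧ lab f 2 = r2) ∨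
  ∃ v c, v ∈ K ∧ v ≠ r1 ∧ v ≠ r2 ∧ (c ≠ 0 ∨ Off m w v) ∧
    ((k = c + 1 ∧ lab f (c + 2) = v ∧ lab f c = d.par v c) ∨
     (k = c + 2 ∧ lab f (c + 1) = v ∧ lab f c = d.par v c))

/-- the path edge `i` has type 1: it is the edge `(w (i+1), 1)`, with the face `f` below it -/
def Ty1 (i : ℕ) : Prop := w (i + 1) ≠ r1 ∧ w (i + 1) ≠ r2 ∧ d.par (w (i + 1)) 1 = w i ∧
  ∃ f ∈ D, lab f 0 = w (i + 1) ∧ lab f 1 = w i ∧
    ∀ v ∈ K, (i < d.top v → d.reg v f = 0 ∨ d.reg v f = 2) ∧ (d.top v ≤ i → d.reg v f = 1)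

/-- the path edge `i` has type 2: it is the edge `(w i, 2)`, with the face `f` below it -/
def Ty2 (i : ℕ) : Prop := w i ≠ r1 ∧ w i ≠ r2 ∧ d.par (w i) 2 = w (i + 1) ∧
  ∃ f ∈ D, lab f 0 = w i ∧ lab f 2 = w (i + 1) ∧
    ∀ v ∈ K, (i < d.top v → d.reg v f = 2) ∧ (d.top v ≤ i → d.reg v f = 0 ∨ d.reg v f = 1)

/-- every path edge has type 1 or 2 (unless we are at the base) -/
def PS4 : Prop := (D = ∅ ∧ m = 1) ∨ ∀ i, i < m → Ty1 r1 r2 w D K d i ∨ Ty2 r1 r2 w D K d i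

/-- tops -/
structure PT : Prop where
  T0 : ∀ i, i ≤ m → d.top (w i) = i
  Tle : ∀ v ∈ K, d.top v ≤ m
  T23 : ∀ v ∈ K, v ≠ r1 → v ≠ r2 → d.top (d.par v 1) ≤ d.top v ∧ d.top v ≤ d.top (d.par v 2)

/-- regions -/
structure PR : Prop where
  R1 : ∀ f ∈ D, ∀ k, d.reg (lab f k) f = k
  R2 : ∀ f ∈ D, d.reg r1 f = 1 ∧ d.reg r2 f = 2
  R3 : ∀ f ∈ D, ∃ a b : ℕ, 1 ≤ a ∧ a < b ∧ b ≤ m ∧ ∀ i, i ≤ m →
    (i < a → d.reg (w i) f = 1) ∧ (a ≤ i → i < b → d.reg (w i) f = 0) ∧ (b ≤ i → d.reg (w i) f = 2)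

/-- crossing an edge -/
def PX : Prop := ∀ v ∈ K, v ≠ r1 → v ≠ r2 → ∀ c : Fin 3, (c ≠ 0 ∨ Off m w v) → ∀ f ∈ D, ∀ f' ∈ D,
  lab f (c + 2) = v → lab f c = d.par v c → lab f' (c + 1) = v → lab f' c = d.par v c → ∀ u ∈ K,
    (d.reg u f = d.reg u f' ∨ (d.reg u f = c + 2 ∧ d.reg u f' = c + 1)) ∧
    (c = 0 → (∃ i, i ≤ m ∧ w i = u) → d.reg u f = d.reg u f')

/-- uniqueness -/
def PU : Prop := ∀ f ∈ D, ∀ f' ∈ D, (Function.Injective fun k => d.reg (lab f' k) f) → f' = f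

/-- monotonicity along parents -/
def PP : Prop := ∀ v ∈ K, v ≠ r1 → v ≠ r2 → ∀ f ∈ D,
  (d.reg v f = 1 → d.reg (d.par v 1) f = 1) ∧ (d.reg v f = 2 → d.reg (d.par v 2) f = 2) ∧
    (Off m w v → d.reg v f = 0 → d.reg (d.par v 0) f = 0)

/-- all invariants -/
structure CInv : Prop where
  a : PA r1 r2 m w D K
  b : PB r1 r2 m w K d
  s3 : PS3 r1 r2 m w D K d
  s4 : PS4 r1 r2 m w D K d
  t : PT r1 r2 m w K d
  r : PR r1 r2 m w D d
  x : PX r1 r2 m w D K d
  u : PU D d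
  p : PP r1 r2 m w D K d

end props

end MP0e5907
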