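import Pool.Agent.Lib_MP_0e5907.CBase

/-!
# Piece CSTEPB: tops, types of path edges and regions after a step

Notation as in `CStepA`: `reg' = (d.upd w p q x).reg`, `top' = ...`. For a new face `g_j = (x, w j, w (j+1))`, `p ≤ j < q`, one has `d.top (w j) = j` (`T0`), so
`reg' v g_j = 2` if `j < top v`, `1` if `top v ≤ j` for old `v`, and `reg' x g_j = 0`. For an old face `f` (`f.1 = lab f 0 ∈ K`, so `f.1 ≠ x`):
`reg' v f = reg v f` for old `v`, and `reg' x f = 2` if `reg (w p) f = 2`, else `1` if `reg (w q) f = 1`, else `0`.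

Paper proof.
* `step_PT`: `T0`: `top' (w i) = i` for `i ≤ p` ; `top' x = p+1`; `top' (w i) = i + p + 2 - q` for `i ≥ q` (for `q ≤ i`: `top (w i) = i`, not `≤ p`, not `< q`). `Tle`: by cases. `T23`: the map
  `s ↦ (s if s ≤ p, p+1 if p < s < q, s+p+2-q if q ≤ s)` is monotone, so the old inequalities persist (old `v` has `par' v 1 = par v 1 ∈ K` and the same for `2`); `x`: `top' (w p) = p ≤ p + 1`,
  `top' (w q) = p + 2 ≥ p + 1`.
* `step_PS4` (second alternative): path edges of the new path: `i < p`: old edge `i`, same face and type. For old `v`: `i < top' v ↔ i < top v` (if `top v ≤ p` equal; otherwise both true). For `x`: `i < p + 1 = top' x`; type 1: need `reg' x f ∈ {0,2}`: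
  `reg (w p) f ∈ {0,2}` because `top (w p) = p > i`; if it is `2` then `reg' x f = 2`; if it is `0`, then by `R3` `reg (w q) f ∈ {0,2}` (`p < q`), so `reg' x f = 0`. Type 2: `reg (w p) f = 2`, `reg' x f = 2`.
  `i ≥ p + 2`: old edge `i0 = i + q - p - 2 ≥ q`; for old `v`: `i < top' v ↔ i0 < top v` (if `top v ≥ q` shift; otherwise `top' v ≤ p + 1 < i` and `top v < q ≤ i0`). For `x`: `top' x = p+1 ≤ i`; type 1: need `reg' x f = 1`:
  `reg (w q) f = 1` (`top (w q) = q ≤ i0`), `reg (w p) f = 1` by `R3`, so `reg' x f = 1`. Type 2: `reg (w q) f ∈ {0,1}`; then `reg (w p) f ≠ 2` by `R3`, so `reg' x f ∈ {0,1}`.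
  (If the old state is the base `D = ∅`, `m = 1`, then `p = 0`, `q = 1` and there are no such edges.)
  `i = p`: edge from `w' (p+1) = x` to `w p`: type 1 with the face `g_p` (`par' x 1 = w p`): for old `v`: `p < top' v ↔ p < top v`; `reg' v g_p = 2` if `p < top v`, else `1`. For `x`: `p < p+1`, `reg' x g_p = 0`.
  `i = p+1`: type 2 with the face `g_{q-1}` (`par' x 2 = w q = w' (p+2)`): for old `v`: `p + 1 < top' v ↔ q ≤ top v ↔ q - 1 < top v`, then `reg' v g_{q-1} = 2`, else `1`. For `x`: `top' x = p + 1 ≤ p + 1`, `reg' = 0`.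
* `step_PR`: `R1` for new faces: `reg' x g_j = 0`, `reg' (w j) g_j = 1` (`top = j ≤ j`), `reg' (w (j+1)) g_j = 2` (`j < j + 1`). `R2`: `reg' (w 0) g_j = 1`, `reg' (w m) g_j = 2` as `j < q ≤ m`.
  `R3` for `g_j`: `a = p+1`, `b = p+2`: `w i`, `i ≤ p ≤ j`: `1`; `x`: `0`; `w i`, `i ≥ q > j`: `2`. `R3` for an old face with old `(a,b)`: if `b ≤ p` (`x` has region `2`): `(a, b)`. If `q < a` (`x` has region `1`): `(a+p+2-q, b+p+2-q)`.
  Otherwise (`p < b`, `a ≤ q`: `reg (w p) f ≠ 2`, `reg (w q) f ≠ 1`, `x` has region `0`): `a' = min a (p+1)`, `b' = if b ≤ q then p + 2 else b + p + 2 - q`.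
-/

namespace MP0e5907

open Finset

set_option linter.unusedSectionVars false

variable {V : Type} [DecidableEq V]

private lemma sb_top_x (d : CDat V) (w : ℕ → V) (p q : ℕ) (x : V) :
    (d.upd w p q x).top x = p + 1 := by
  simp [CDat.upd]

private lemma sb_top_old (d : CDat V) (w : ℕ → V) (p q : ℕ) (x v : V) (hv : v ≠ x) :
    (d.upd w p q x).top v = if d.top v ≤ p then d.top v
      else if d.top v < q then p + 1 else d.top v + p + 2 - q := by
  simp [CDat.upd, hv]

private lemma sb_par_x1 (d : CDat V) (w : ℕ → V) (p q : ℕ) (x : V) :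
    (d.upd w p q x).par x 1 = w p := by
  simp [CDat.upd]

private lemma sb_par_x2 (d : CDat V) (w : ℕ → V) (p q : ℕ) (x : V) :
    (d.upd w p q x).par x 2 = w q := by
  simp [CDat.upd]

private lemma sb_par_old1 (d : CDat V) (w : ℕ → V) (p q : ℕ) (x v : V) (hv : v ≠ x) :
    (d.upd w p q x).par v 1 = d.par v 1 := by
  simp [CDat.upd, hv]

private lemma sb_par_old2 (d : CDat V) (w : ℕ → V) (p q : ℕ) (x v : V) (hv : v ≠ x) :
    (d.upd w p q x).par v 2 = d.par v 2 := by
  simp [CDat.upd, hv]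

private lemma sb_reg_new_x (d : CDat V) (w : ℕ → V) (p q : ℕ) (x a b : V) :
    (d.upd w p q x).reg x (x, a, b) = 0 := by
  simp [CDat.upd]

private lemma sb_reg_new_old (d : CDat V) (w : ℕ → V) (p q : ℕ) (x v a b : V) (hv : v ≠ x) :
    (d.upd w p q x).reg v (x, a, b) = if d.top a < d.top v then 2 else 1 := by
  simp [CDat.upd, hv]

private lemma sb_reg_old_old (d : CDat V) (w : ℕ → V) (p q : ℕ) (x v : V) (hv : v ≠ x)
    (f : V × V × V) (hf : f.1 ≠ x) : (d.upd w p q x).reg v f = d.reg v f := by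
  simp [CDat.upd, hv, hf]

private lemma sb_reg_old_x (d : CDat V) (w : ℕ → V) (p q : ℕ) (x : V)
    (f : V × V × V) (hf : f.1 ≠ x) : (d.upd w p q x).reg x f =
      if d.reg (w p) f = 2 then 2 else if d.reg (w q) f = 1 then 1 else 0 := by
  simp [CDat.upd, hf]

private lemma sb_idx {m : ℕ} {w : ℕ → V} {K : Finset V} {p q : ℕ} {x : V} {m' : ℕ} {w' : ℕ → V}
    (hs : Step m w K p q x m' w') (i : ℕ) (hi : i ≤ m') :
    (i ≤ p ∧ i ≤ m ∧ w' i = w i) ∨ (i = p + 1 ∧ w' i = x) ∨
      ∃ i0, q ≤ i0 ∧ i0 ≤ m ∧ i = i0 + p + 2 - q ∧ w' i = w i0 := by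
  have hpq := hs.pq
  have hqm := hs.qm
  have hm' := hs.hm'
  rcases Nat.lt_or_ge p i with h1 | h1
  · rcases Nat.lt_or_ge (p + 1) i with h2 | h2
    · refine Or.inr (Or.inr ⟨i + q - p - 2, by omega, by omega, by omega, ?_⟩)
      have h3 := hs.w3 (i + q - p - 2) (by omega) (by omega)
      have h4 : i + q - p - 2 + p + 2 - q = i := by omega
      rw [h4] at h3
      exact h3
    · have h3 : i = p + 1 := by omega
      subst h3
      exact Or.inr (Or.inl ⟨rfl, hs.w2⟩)
  · exact Or.inl ⟨h1, by omega, hs.w1 i h1⟩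

private lemma sb_mem {w : ℕ → V} {D : Finset (V × V × V)} {p q : ℕ} {x : V} (f : V × V × V) :
    f ∈ D ∪ newf w p q x ↔ f ∈ D ∨ ∃ j, p ≤ j ∧ j < q ∧ f = (x, w j, w (j + 1)) := by
  simp only [Finset.mem_union, newf, Finset.mem_image, Finset.mem_Ico]
  constructor
  · rintro (h | ⟨j, ⟨h1, h2⟩, h3⟩)
    · exact Or.inl h
    · exact Or.inr ⟨j, h1, h2, h3.symm⟩
  · rintro (h | ⟨j, h1, h2, h3⟩)
    · exact Or.inl h
    · exact Or.inr ⟨j, ⟨h1, h2⟩, h3.symm⟩

section aux

variable {r1 r2 : V} {m : ℕ} {w : ℕ → V} {D : Finset (V × V × V)} {K : Finset V} {d : CDat V}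

private lemma sb_mono2 (h : CInv r1 r2 m w D K d) {f : V × V × V} (hf : f ∈ D) {i j : ℕ}
    (hij : i ≤ j) (hj : j ≤ m) (h2 : d.reg (w i) f = 2) : d.reg (w j) f = 2 := by
  obtain ⟨a, b, ha, hab, hb, hr⟩ := h.r.R3 f hf
  obtain ⟨i1, i2, i3⟩ := hr i (by omega)
  obtain ⟨j1, j2, j3⟩ := hr j hj
  rcases Nat.lt_or_ge i a with c1 | c1
  · rw [i1 c1] at h2; exact absurd h2 (by decide)
  · rcases Nat.lt_or_ge i b with c2 | c2
    · rw [i2 c1 c2] at h2; exact absurd h2 (by decide)
    · exact j3 (by omega)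

private lemma sb_mono1 (h : CInv r1 r2 m w D K d) {f : V × V × V} (hf : f ∈ D) {i j : ℕ}
    (hij : i ≤ j) (hj : j ≤ m) (h2 : d.reg (w j) f = 1) : d.reg (w i) f = 1 := by
  obtain ⟨a, b, ha, hab, hb, hr⟩ := h.r.R3 f hf
  obtain ⟨i1, i2, i3⟩ := hr i (by omega)
  obtain ⟨j1, j2, j3⟩ := hr j hj
  rcases Nat.lt_or_ge j a with c1 | c1
  · exact i1 (by omega)
  · rcases Nat.lt_or_ge j b with c2 | c2
    · rw [j2 c1 c2] at h2; exact absurd h2 (by decide)
    · rw [j3 c2] at h2; exact absurd h2 (by decide)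

private lemma sb_fx (h : CInv r1 r2 m w D K d) {x : V} (hx : x ∉ K) {f : V × V × V} (hf : f ∈ D) :
    f.1 ≠ x := by
  have h1 := h.a.DK f hf 0
  intro h2
  apply hx
  rw [← h2]
  exact h1

private lemma sb_kx {x : V} (hx : x ∉ K) {v : V} (hv : v ∈ K) : v ≠ x := by
  rintro rfl
  exact hx hv

private lemma sb_edge (h : CInv r1 r2 m w D K d) {p q : ℕ} {x : V} {m' : ℕ} {w' : ℕ → V}
    (hs : Step m w K p q x m' w') (i0 i' : ℕ) (hi0 : i0 < m) (hw0 : w' i' = w i0)
    (hw1 : w' (i' + 1) = w (i0 + 1))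
    (hcase : (i0 < p ∧ i' = i0) ∨ (q ≤ i0 ∧ i' = i0 + p + 2 - q)) :
    (Ty1 r1 r2 w D K d i0 → Ty1 r1 r2 w' (D ∪ newf w p q x) (insert x K) (d.upd w p q x) i') ∧
    (Ty2 r1 r2 w D K d i0 → Ty2 r1 r2 w' (D ∪ newf w p q x) (insert x K) (d.upd w p q x) i') := by
  have hpq := hs.pq
  have hqm := hs.qm
  have k0 : w i0 ≠ x := sb_kx hs.xK (h.a.wK i0 (by omega))
  have k1 : w (i0 + 1) ≠ x := sb_kx hs.xK (h.a.wK (i0 + 1) (by omega))
  have kp := h.a.wK p (by omega)
  have kq := h.a.wK q (by omega)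
  have tp := h.t.T0 p (by omega)
  have tq := h.t.T0 q (by omega)
  constructor
  · rintro ⟨e1, e2, e3, f, hf, e4, e5, e6⟩
    refine ⟨by rw [hw1]; exact e1, by rw [hw1]; exact e2, ?_, f, Finset.mem_union_left _ hf,
      by rw [hw1]; exact e4, by rw [hw0]; exact e5, ?_⟩
    · rw [hw1, hw0, sb_par_old1 _ _ _ _ _ _ k1]; exact e3
    intro v hv
    rcases Finset.mem_insert.1 hv with rfl | hvK
    · rw [sb_top_x, sb_reg_old_x _ _ _ _ _ _ (sb_fx h hs.xK hf)]
      rcases hcase with ⟨c1, c2⟩ | ⟨c1, c2⟩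
      · refine ⟨fun _ => ?_, fun hh => by omega⟩
        have g1 := (e6 (w p) kp).1 (by omega)
        rcases g1 with g1 | g1
        · left
          have g2 : d.reg (w q) f ≠ 1 := by
            intro g3
            have g4 := sb_mono1 h hf hpq.le hqm g3
            rw [g4] at g1
            exact absurd g1 (by decide)
          rw [g1, if_neg (by decide), if_neg g2]
        · right
          rw [if_pos g1]
      · refine ⟨fun hh => by omega, fun _ => ?_⟩
        have g1 := (e6 (w q) kq).2 (by omega)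
        have g2 := sb_mono1 h hf hpq.le hqm g1
        rw [g2, g1, if_neg (by decide), if_pos rfl]
    · have hvx := sb_kx hs.xK hvK
      rw [sb_top_old _ _ _ _ _ _ hvx, sb_reg_old_old _ _ _ _ _ _ hvx _ (sb_fx h hs.xK hf)]
      have hle := h.t.Tle v hvK
      obtain ⟨g1, g2⟩ := e6 v hvK
      constructor
      · intro hh
        apply g1
        rcases hcase with ⟨c1, c2⟩ | ⟨c1, c2⟩ <;> split_ifs at hh <;> omega
      · intro hh
        apply g2
        rcases hcase with ⟨c1, c2⟩ | ⟨c1, c2⟩ <;> split_ifs at hh <;> omega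
  · rintro ⟨e1, e2, e3, f, hf, e4, e5, e6⟩
    refine ⟨by rw [hw0]; exact e1, by rw [hw0]; exact e2, ?_, f, Finset.mem_union_left _ hf,
      by rw [hw0]; exact e4, by rw [hw1]; exact e5, ?_⟩
    · rw [hw1, hw0, sb_par_old2 _ _ _ _ _ _ k0]; exact e3
    intro v hv
    rcases Finset.mem_insert.1 hv with rfl | hvK
    · rw [sb_top_x, sb_reg_old_x _ _ _ _ _ _ (sb_fx h hs.xK hf)]
      rcases hcase with ⟨c1, c2⟩ | ⟨c1, c2⟩
      · refine ⟨fun _ => ?_, fun hh => by omega⟩
        have g1 := (e6 (w p) kp).1 (by omega)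
        rw [if_pos g1]
      · refine ⟨fun hh => by omega, fun _ => ?_⟩
        have g1 := (e6 (w q) kq).2 (by omega)
        have g2 : d.reg (w p) f ≠ 2 := by
          intro g3
          have g4 := sb_mono2 h hf hpq.le hqm g3
          rw [g4] at g1
          rcases g1 with g1 | g1 <;> exact absurd g1 (by decide)
        rw [if_neg g2]
        split_ifs
        · exact Or.inr rfl
        · exact Or.inl rfl
    · have hvx := sb_kx hs.xK hvK
      rw [sb_top_old _ _ _ _ _ _ hvx, sb_reg_old_old _ _ _ _ _ _ hvx _ (sb_fx h hs.xK hf)]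
      have hle := h.t.Tle v hvK
      obtain ⟨g1, g2⟩ := e6 v hvK
      constructor
      · intro hh
        apply g1
        rcases hcase with ⟨c1, c2⟩ | ⟨c1, c2⟩ <;> split_ifs at hh <;> omega
      · intro hh
        apply g2
        rcases hcase with ⟨c1, c2⟩ | ⟨c1, c2⟩ <;> split_ifs at hh <;> omega

end aux

theorem step_PT {r1 r2 : V} {m : ℕ} {w : ℕ → V} {D : Finset (V × V × V)} {K : Finset V} {d : CDat V}
    (h : CInv r1 r2 m w D K d) {p q : ℕ} {x : V} {m' : ℕ} {w' : ℕ → V} (hs : Step m w K p q x m' w') :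
    PT r1 r2 m' w' (insert x K) (d.upd w p q x) := by
  have hpq := hs.pq
  have hqm := hs.qm
  have hm' := hs.hm'
  refine ⟨?_, ?_, ?_⟩
  · intro i hi
    rcases sb_idx hs i hi with ⟨h1, h2, h3⟩ | ⟨h1, h2⟩ | ⟨i0, h1, h2, h3, h4⟩
    · rw [h3, sb_top_old _ _ _ _ _ _ (sb_kx hs.xK (h.a.wK i h2)), h.t.T0 i h2, if_pos h1]
    · rw [h2, sb_top_x, h1]
    · rw [h4, sb_top_old _ _ _ _ _ _ (sb_kx hs.xK (h.a.wK i0 h2)), h.t.T0 i0 h2,
        if_neg (by omega), if_neg (by omega), h3]
  · intro v hv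
    rcases Finset.mem_insert.1 hv with rfl | hvK
    · rw [sb_top_x]; omega
    · rw [sb_top_old _ _ _ _ _ _ (sb_kx hs.xK hvK)]
      have := h.t.Tle v hvK
      split_ifs <;> omega
  · intro v hv hv1 hv2
    rcases Finset.mem_insert.1 hv with rfl | hvK
    · rw [sb_top_x, sb_par_x1, sb_par_x2,
        sb_top_old _ _ _ _ _ _ (sb_kx hs.xK (h.a.wK p (by omega))),
        sb_top_old _ _ _ _ _ _ (sb_kx hs.xK (h.a.wK q (by omega))),
        h.t.T0 p (by omega), h.t.T0 q (by omega), if_pos le_rfl, if_neg (by omega),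
        if_neg (by omega)]
      omega
    · have hvx := sb_kx hs.xK hvK
      obtain ⟨b1, b2, _⟩ := h.b v hvK hv1 hv2
      obtain ⟨t1, t2⟩ := h.t.T23 v hvK hv1 hv2
      rw [sb_par_old1 _ _ _ _ _ _ hvx, sb_par_old2 _ _ _ _ _ _ hvx,
        sb_top_old _ _ _ _ _ _ hvx, sb_top_old _ _ _ _ _ _ (sb_kx hs.xK b1),
        sb_top_old _ _ _ _ _ _ (sb_kx hs.xK b2)]
      constructor
      · split_ifs <;> omega
      · split_ifs <;> omega

theorem step_PS4 {r1 r2 : V} {m : ℕ} {w : ℕ → V} {D : Finset (V × V × V)} {K : Finset V} {d : CDat V}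
    (h : CInv r1 r2 m w D K d) {p q : ℕ} {x : V} {m' : ℕ} {w' : ℕ → V} (hs : Step m w K p q x m' w') :
    PS4 r1 r2 m' w' (D ∪ newf w p q x) (insert x K) (d.upd w p q x) := by
  have hpq := hs.pq
  have hqm := hs.qm
  have hm' := hs.hm'
  have hr1 : x ≠ r1 := by
    have := h.a.wK 0 (by omega)
    rw [h.a.w0] at this
    exact (sb_kx hs.xK this).symm
  have hr2 : x ≠ r2 := by
    have := h.a.wK m (by omega)
    rw [h.a.wm] at this
    exact (sb_kx hs.xK this).symm
  right
  intro i hi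
  rcases Nat.lt_or_ge i p with h1 | h1
  · -- old edge on the left
    have hm1 : ¬ (D = ∅ ∧ m = 1) := by rintro ⟨_, hm1⟩; omega
    have hw0 := hs.w1 i (by omega)
    have hw1 := hs.w1 (i + 1) (by omega)
    have key := sb_edge h hs i i (by omega) hw0 hw1 (Or.inl ⟨h1, rfl⟩)
    rcases h.s4.resolve_left hm1 i (by omega) with h2 | h2
    · exact Or.inl (key.1 h2)
    · exact Or.inr (key.2 h2)
  rcases Nat.lt_or_ge (p + 1) i with h2 | h2
  · -- old edge on the right
    have hm1 : ¬ (D = ∅ ∧ m = 1) := by rintro ⟨_, hm1⟩; omega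
    have hw0 := hs.w3 (i + q - p - 2) (by omega) (by omega)
    have hw1 := hs.w3 (i + q - p - 2 + 1) (by omega) (by omega)
    have e0 : i + q - p - 2 + p + 2 - q = i := by omega
    have e1 : i + q - p - 2 + 1 + p + 2 - q = i + 1 := by omega
    rw [e0] at hw0
    rw [e1] at hw1
    have key := sb_edge h hs (i + q - p - 2) i (by omega) hw0 hw1 (Or.inr ⟨by omega, by omega⟩)
    rcases h.s4.resolve_left hm1 (i + q - p - 2) (by omega) with h2 | h2
    · exact Or.inl (key.1 h2)
    · exact Or.inr (key.2 h2)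
  rcases Nat.lt_or_ge p i with h3 | h3
  · -- the edge (x,2)
    have hi1 : i = p + 1 := by omega
    subst hi1
    right
    have hwq := hs.w3 q le_rfl hqm
    have e0 : q + p + 2 - q = p + 1 + 1 := by omega
    rw [e0] at hwq
    refine ⟨by rw [hs.w2]; exact hr1, by rw [hs.w2]; exact hr2,
      by rw [hs.w2, sb_par_x2, hwq], (x, w (q - 1), w (q - 1 + 1)),
      (sb_mem _).2 (Or.inr ⟨q - 1, by omega, by omega, rfl⟩), by rw [hs.w2]; rfl, ?_, ?_⟩
    · rw [hwq]
      have e1 : q - 1 + 1 = q := by omega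
      show w (q - 1 + 1) = w q
      rw [e1]
    · intro v hv
      rcases Finset.mem_insert.1 hv with rfl | hvK
      · rw [sb_top_x, sb_reg_new_x]
        exact ⟨fun hh => by omega, fun _ => Or.inl rfl⟩
      · have hvx := sb_kx hs.xK hvK
        rw [sb_top_old _ _ _ _ _ _ hvx, sb_reg_new_old _ _ _ _ _ _ _ _ hvx,
          h.t.T0 (q - 1) (by omega)]
        constructor
        · intro hh
          rw [if_pos]
          split_ifs at hh <;> omega
        · intro hh
          right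
          rw [if_neg]
          split_ifs at hh <;> omega
  · have hi1 : i = p := by omega
    subst hi1
    left
    refine ⟨by rw [hs.w2]; exact hr1, by rw [hs.w2]; exact hr2,
      by rw [hs.w2, sb_par_x1, hs.w1 i le_rfl], (x, w i, w (i + 1)),
      (sb_mem _).2 (Or.inr ⟨i, by omega, by omega, rfl⟩), by rw [hs.w2]; rfl,
      by rw [hs.w1 i le_rfl]; rfl, ?_⟩
    intro v hv
    rcases Finset.mem_insert.1 hv with rfl | hvK
    · rw [sb_top_x, sb_reg_new_x]
      exact ⟨fun _ => Or.inl rfl, fun hh => by omega⟩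
    · have hvx := sb_kx hs.xK hvK
      rw [sb_top_old _ _ _ _ _ _ hvx, sb_reg_new_old _ _ _ _ _ _ _ _ hvx,
        h.t.T0 i (by omega)]
      constructor
      · intro hh
        right
        rw [if_pos]
        split_ifs at hh <;> omega
      · intro hh
        rw [if_neg]
        split_ifs at hh <;> omega

theorem step_PR {r1 r2 : V} {m : ℕ} {w : ℕ → V} {D : Finset (V × V × V)} {K : Finset V} {d : CDat V}
    (h : CInv r1 r2 m w D K d) {p q : ℕ} {x : V} {m' : ℕ} {w' : ℕ → V} (hs : Step m w K p q x m' w') :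
    PR r1 r2 m' w' (D ∪ newf w p q x) (d.upd w p q x) := by
  have hpq := hs.pq
  have hqm := hs.qm
  have hm' := hs.hm'
  have kw : ∀ i, i ≤ m → w i ≠ x := fun i hi => sb_kx hs.xK (h.a.wK i hi)
  have hr1 : r1 ≠ x := by rw [← h.a.w0]; exact kw 0 (by omega)
  have hr2 : r2 ≠ x := by rw [← h.a.wm]; exact kw m le_rfl
  refine ⟨?_, ?_, ?_⟩
  · intro f hf k
    rcases (sb_mem f).1 hf with hfD | ⟨j, hj1, hj2, rfl⟩
    · rw [sb_reg_old_old _ _ _ _ _ _ (sb_kx hs.xK (h.a.DK f hfD k)) _ (sb_fx h hs.xK hfD)]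
      exact h.r.R1 f hfD k
    · have hk : k = 0 ∨ k = 1 ∨ k = 2 := by fin_cases k <;> simp
      rcases hk with rfl | rfl | rfl
      · exact sb_reg_new_x _ _ _ _ _ _ _
      · show (d.upd w p q x).reg (w j) (x, w j, w (j + 1)) = 1
        rw [sb_reg_new_old _ _ _ _ _ _ _ _ (kw j (by omega)), if_neg (lt_irrefl _)]
      · show (d.upd w p q x).reg (w (j + 1)) (x, w j, w (j + 1)) = 2
        rw [sb_reg_new_old _ _ _ _ _ _ _ _ (kw (j + 1) (by omega)), h.t.T0 j (by omega),
          h.t.T0 (j + 1) (by omega), if_pos (by omega)]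
  · intro f hf
    rcases (sb_mem f).1 hf with hfD | ⟨j, hj1, hj2, rfl⟩
    · rw [sb_reg_old_old _ _ _ _ _ _ hr1 _ (sb_fx h hs.xK hfD),
        sb_reg_old_old _ _ _ _ _ _ hr2 _ (sb_fx h hs.xK hfD)]
      exact h.r.R2 f hfD
    · rw [sb_reg_new_old _ _ _ _ _ _ _ _ hr1, sb_reg_new_old _ _ _ _ _ _ _ _ hr2,
        h.t.T0 j (by omega)]
      have t0 := h.t.T0 0 (by omega)
      have tm := h.t.T0 m (by omega)
      rw [h.a.w0] at t0
      rw [h.a.wm] at tm
      rw [t0, tm, if_neg (by omega), if_pos (by omega)]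
      exact ⟨rfl, rfl⟩
  · intro f hf
    rcases (sb_mem f).1 hf with hfD | ⟨j, hj1, hj2, rfl⟩
    · obtain ⟨a, b, ha, hab, hb, hr⟩ := h.r.R3 f hfD
      have hfx := sb_fx h hs.xK hfD
      obtain ⟨p1, p2, p3⟩ := hr p (by omega)
      obtain ⟨q1, q2, q3⟩ := hr q (by omega)
      rcases Nat.lt_or_ge p b with c1 | c1
      · rcases Nat.lt_or_ge q a with c2 | c2
        · -- x has region 1
          refine ⟨a + p + 2 - q, b + p + 2 - q, by omega, by omega, by omega, ?_⟩
          intro i hi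
          rcases sb_idx hs i hi with ⟨h1, h2, h3⟩ | ⟨h1, h2⟩ | ⟨i0, h1, h2, h3, h4⟩
          · rw [h3, sb_reg_old_old _ _ _ _ _ _ (kw i h2) _ hfx]
            obtain ⟨i1, i2, i3⟩ := hr i h2
            exact ⟨fun _ => i1 (by omega), fun _ => by omega, fun _ => by omega⟩
          · rw [h2, sb_reg_old_x _ _ _ _ _ _ hfx]
            refine ⟨fun _ => ?_, fun _ => by omega, fun _ => by omega⟩
            rw [p1 (by omega), q1 (by omega), if_neg (by decide), if_pos rfl]
          · rw [h4, sb_reg_old_old _ _ _ _ _ _ (kw i0 h2) _ hfx]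
            obtain ⟨i1, i2, i3⟩ := hr i0 h2
            exact ⟨fun _ => i1 (by omega), fun _ _ => i2 (by omega) (by omega),
              fun _ => i3 (by omega)⟩
        · -- x has region 0
          refine ⟨min a (p + 1), if b ≤ q then p + 2 else b + p + 2 - q, ?_, ?_, ?_, ?_⟩
          · exact le_min ha (by omega)
          · have : min a (p + 1) ≤ p + 1 := min_le_right _ _
            split_ifs <;> omega
          · split_ifs <;> omega
          intro i hi
          rcases sb_idx hs i hi with ⟨h1, h2, h3⟩ | ⟨h1, h2⟩ | ⟨i0, h1, h2, h3, h4⟩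
          · rw [h3, sb_reg_old_old _ _ _ _ _ _ (kw i h2) _ hfx]
            obtain ⟨i1, i2, i3⟩ := hr i h2
            refine ⟨fun h5 => i1 ?_, fun h5 h6 => i2 ?_ (by omega), fun h5 => ?_⟩
            · exact lt_of_lt_of_le h5 (min_le_left _ _)
            · rcases min_le_iff.1 h5 with h7 | h7
              · exact h7
              · omega
            · exfalso
              split_ifs at h5 <;> omega
          · rw [h2, sb_reg_old_x _ _ _ _ _ _ hfx]
            have z : (if d.reg (w p) f = 2 then (2 : Fin 3) else if d.reg (w q) f = 1 then 1 else 0) = 0 := by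
              have z1 : d.reg (w p) f ≠ 2 := by
                rcases Nat.lt_or_ge p a with c3 | c3
                · rw [p1 c3]; decide
                · rw [p2 c3 c1]; decide
              have z2 : d.reg (w q) f ≠ 1 := by
                rcases Nat.lt_or_ge q b with c3 | c3
                · rw [q2 c2 c3]; decide
                · rw [q3 c3]; decide
              rw [if_neg z1, if_neg z2]
            rw [z]
            refine ⟨fun h5 => ?_, fun _ _ => rfl, fun h5 => ?_⟩
            · have := lt_of_lt_of_le h5 (min_le_right _ _)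
              omega
            · exfalso
              split_ifs at h5 <;> omega
          · rw [h4, sb_reg_old_old _ _ _ _ _ _ (kw i0 h2) _ hfx]
            obtain ⟨i1, i2, i3⟩ := hr i0 h2
            refine ⟨fun h5 => ?_, fun h5 h6 => i2 (by omega) ?_, fun h5 => i3 ?_⟩
            · have := lt_of_lt_of_le h5 (min_le_right _ _)
              omega
            · split_ifs at h6 <;> omega
            · split_ifs at h5 <;> omega
      · -- x has region 2
        refine ⟨a, b, ha, hab, by omega, ?_⟩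
        intro i hi
        rcases sb_idx hs i hi with ⟨h1, h2, h3⟩ | ⟨h1, h2⟩ | ⟨i0, h1, h2, h3, h4⟩
        · rw [h3, sb_reg_old_old _ _ _ _ _ _ (kw i h2) _ hfx]
          exact hr i h2
        · rw [h2, sb_reg_old_x _ _ _ _ _ _ hfx, p3 c1, if_pos rfl]
          exact ⟨fun _ => by omega, fun _ _ => by omega, fun _ => rfl⟩
        · rw [h4, sb_reg_old_old _ _ _ _ _ _ (kw i0 h2) _ hfx]
          obtain ⟨i1, i2, i3⟩ := hr i0 h2
          exact ⟨fun _ => by omega, fun _ _ => by omega, fun _ => i3 (by omega)⟩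
    · refine ⟨p + 1, p + 2, by omega, by omega, by omega, ?_⟩
      intro i hi
      rcases sb_idx hs i hi with ⟨h1, h2, h3⟩ | ⟨h1, h2⟩ | ⟨i0, h1, h2, h3, h4⟩
      · rw [h3, sb_reg_new_old _ _ _ _ _ _ _ _ (kw i h2), h.t.T0 j (by omega), h.t.T0 i h2,
          if_neg (by omega)]
        exact ⟨fun _ => rfl, fun _ => by omega, fun _ => by omega⟩
      · rw [h2, sb_reg_new_x]
        exact ⟨fun _ => by omega, fun _ _ => rfl, fun _ => by omega⟩
      · rw [h4, sb_reg_new_old _ _ _ _ _ _ _ _ (kw i0 h2), h.t.T0 j (by omega), h.t.T0 i0 h2,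
          if_pos (by omega)]
        exact ⟨fun _ => by omega, fun _ _ => by omega, fun _ => rfl⟩

end MP0e5907
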