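import Pool.Agent.Lib_MP_0e5907.CBase

/-!
# Piece CSTEPC: crossing, uniqueness and monotonicity after a step
-/

namespace MP0e5907

open Finset

variable {V : Type}

/-! ### the updated data -/

section upd

variable {d : CDat V} {w : ℕ → V} {p q : ℕ} {x : V}

private theorem reg_old {v : V} {f : V × V × V} (hf : f.1 ≠ x) (hv : v ≠ x) :
    (d.upd w p q x).reg v f = d.reg v f := by
  simp only [CDat.upd]
  rw [if_neg hf, if_neg hv]

/-- the region of the new vertex, as a function of the regions of `w p` and `w q` -/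
private def rho (a b : Fin 3) : Fin 3 := if a = 2 then 2 else if b = 1 then 1 else 0

private theorem reg_x_old {f : V × V × V} (hf : f.1 ≠ x) :
    (d.upd w p q x).reg x f = rho (d.reg (w p) f) (d.reg (w q) f) := by
  simp only [CDat.upd, if_neg hf, if_true]
  rfl

private theorem reg_new {v : V} {j : ℕ} (hv : v ≠ x) (ht : d.top (w j) = j) :
    (d.upd w p q x).reg v (x, w j, w (j + 1)) = if j < d.top v then 2 else 1 := by
  simp only [CDat.upd, if_true, if_neg hv, ht]

private theorem reg_x_new {j : ℕ} :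
    (d.upd w p q x).reg x (x, w j, w (j + 1)) = 0 := by
  simp only [CDat.upd, if_true]

private theorem par_ne_zero {v : V} {c : Fin 3} (hv : v ≠ x) (hc : c ≠ 0) :
    (d.upd w p q x).par v c = d.par v c := by
  simp only [CDat.upd]
  rw [if_neg hv, if_neg (fun h => hc h.1)]

private theorem par_zero_in {v : V} (hv : v ≠ x) (h : ∃ s, p < s ∧ s < q ∧ w s = v) :
    (d.upd w p q x).par v 0 = x := by
  simp only [CDat.upd]
  rw [if_neg hv, if_pos ⟨rfl, h⟩]

private theorem par_zero_out {v : V} (hv : v ≠ x) (h : ¬ ∃ s, p < s ∧ s < q ∧ w s = v) :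
    (d.upd w p q x).par v 0 = d.par v 0 := by
  simp only [CDat.upd]
  rw [if_neg hv, if_neg (fun h' => h h'.2)]

private theorem par_x_one : (d.upd w p q x).par x 1 = w p := by
  simp only [CDat.upd]
  simp

private theorem par_x_two : (d.upd w p q x).par x 2 = w q := by
  simp only [CDat.upd]
  simp

end upd

/-! ### order of the regions along the path -/

/-- the regions along the path go `1, 0, 2` -/
private def good (a b : Fin 3) : Prop := a = 1 ∨ (a = 0 ∧ b ≠ 1) ∨ (a = 2 ∧ b = 2)

private instance (a b : Fin 3) : Decidable (good a b) := by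
  unfold good
  infer_instance

private theorem good_of {r1 r2 : V} {m : ℕ} {w : ℕ → V} {D : Finset (V × V × V)} {d : CDat V}
    (h : PR r1 r2 m w D d) {f : V × V × V} (hf : f ∈ D) {i j : ℕ} (hij : i ≤ j) (hj : j ≤ m) :
    good (d.reg (w i) f) (d.reg (w j) f) := by
  obtain ⟨a, b, h1, h2, h3, h4⟩ := h.R3 f hf
  obtain ⟨i1, i2, i3⟩ := h4 i (hij.trans hj)
  obtain ⟨j1, j2, j3⟩ := h4 j hj
  unfold good
  rcases lt_or_ge i a with hi | hi
  · exact Or.inl (i1 hi)
  · rcases lt_or_ge i b with hi' | hi'
    · refine Or.inr (Or.inl ⟨i2 hi hi', ?_⟩)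
      rcases lt_or_ge j b with hj' | hj'
      · rw [j2 (hi.trans hij) hj']
        decide
      · rw [j3 hj']
        decide
    · exact Or.inr (Or.inr ⟨i3 hi', j3 (hi'.trans hij)⟩)

private theorem good_succ {r1 r2 : V} {m : ℕ} {w : ℕ → V} {D : Finset (V × V × V)} {d : CDat V}
    (h : PR r1 r2 m w D d) {f : V × V × V} (hf : f ∈ D) {j : ℕ} (hj : j + 1 ≤ m) :
    ¬ (d.reg (w j) f = 1 ∧ d.reg (w (j + 1)) f = 2) := by
  obtain ⟨a, b, h1, h2, h3, h4⟩ := h.R3 f hf
  obtain ⟨i1, i2, i3⟩ := h4 j (by omega)
  obtain ⟨j1, j2, j3⟩ := h4 (j + 1) hj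
  rintro ⟨e1, e2⟩
  rcases lt_or_ge j a with hi | hi
  · rcases lt_or_ge (j + 1) a with hi' | hi'
    · rw [j1 hi'] at e2
      exact absurd e2 (by decide)
    · rw [j2 hi' (by omega)] at e2
      exact absurd e2 (by decide)
  · rcases lt_or_ge j b with hi' | hi'
    · rw [i2 hi hi'] at e1
      exact absurd e1 (by decide)
    · rw [i3 hi'] at e1
      exact absurd e1 (by decide)

private theorem px_dec : ∀ c a b a' b' : Fin 3, good a b → good a' b' →
    (a = a' ∨ (a = c + 2 ∧ a' = c + 1)) → (b = b' ∨ (b = c + 2 ∧ b' = c + 1)) →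
    (c = 0 → a = a' ∧ b = b') →
    (rho a b = rho a' b' ∨ (rho a b = c + 2 ∧ rho a' b' = c + 1)) ∧
      (c = 0 → rho a b = rho a' b') := by
  decide

private theorem pu_dec : ∀ a b c e : Fin 3, good a b → good a c → good b c → good b e → good c e →
    ¬ (b = 1 ∧ c = 2) → rho a e ≠ b → rho a e ≠ c → b ≠ c → False := by
  decide

/-! ### the new path and the new faces -/

variable [DecidableEq V]

section step

variable {r1 r2 : V} {m : ℕ} {w : ℕ → V} {D : Finset (V × V × V)} {K : Finset V} {d : CDat V}
  {p q : ℕ} {x : V} {m' : ℕ} {w' : ℕ → V}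

omit [DecidableEq V] in
private theorem path_iff (hs : Step m w K p q x m' w') (u : V) :
    (∃ i, i ≤ m' ∧ w' i = u) ↔ u = x ∨ ∃ i, i ≤ m ∧ (i ≤ p ∨ q ≤ i) ∧ w i = u := by
  obtain ⟨pq, qm, xK, hm', w1, w2, w3⟩ := hs
  constructor
  · rintro ⟨i, hi, rfl⟩
    rcases lt_trichotomy i (p + 1) with h | h | h
    · exact Or.inr ⟨i, by omega, Or.inl (by omega), (w1 i (by omega)).symm⟩
    · subst h
      exact Or.inl w2
    · refine Or.inr ⟨i + q - p - 2, by omega, Or.inr (by omega), ?_⟩
      have h1 := w3 (i + q - p - 2) (by omega) (by omega)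
      rw [← h1]
      congr 1
      omega
  · rintro (rfl | ⟨i, hi, h, rfl⟩)
    · exact ⟨p + 1, by omega, w2⟩
    · rcases h with h | h
      · exact ⟨i, by omega, w1 i h⟩
      · exact ⟨i + p + 2 - q, by omega, w3 i h hi⟩

omit [DecidableEq V] in
private theorem off_iff (hs : Step m w K p q x m' w') (u : V) :
    Off m' w' u ↔ u ≠ x ∧ ∀ i, i ≤ m → (i ≤ p ∨ q ≤ i) → w i ≠ u := by
  have h := path_iff hs u
  unfold Off
  constructor
  · intro h1
    refine ⟨fun hu => ?_, fun i hi hi' hu => ?_⟩
    · obtain ⟨i, hi, e⟩ := h.2 (Or.inl hu)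
      exact h1 i hi e
    · obtain ⟨i, hi, e⟩ := h.2 (Or.inr ⟨i, hi, hi', hu⟩)
      exact h1 i hi e
  · rintro ⟨h1, h2⟩ i hi e
    rcases h.1 ⟨i, hi, e⟩ with h3 | ⟨j, hj, hj', h3⟩
    · exact h1 h3
    · exact h2 j hj hj' h3

omit [DecidableEq V] in
private theorem ne_x (hs : Step m w K p q x m' w') {v : V} (hv : v ∈ K) : v ≠ x := by
  rintro rfl
  exact hs.xK hv

omit [DecidableEq V] in
private theorem w_ne_x (h : CInv r1 r2 m w D K d) (hs : Step m w K p q x m' w') {i : ℕ}
    (hi : i ≤ m) : w i ≠ x := ne_x hs (h.a.wK i hi)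

omit [DecidableEq V] in
private theorem fst_ne_x (h : CInv r1 r2 m w D K d) (hs : Step m w K p q x m' w')
    {f : V × V × V} (hf : f ∈ D) : f.1 ≠ x := ne_x hs (h.a.DK f hf 0)

private theorem mem_new {f : V × V × V} (hf : f ∈ D ∪ newf w p q x) :
    f ∈ D ∨ ∃ j, p ≤ j ∧ j < q ∧ f = (x, w j, w (j + 1)) := by
  rcases Finset.mem_union.1 hf with h | h
  · exact Or.inl h
  · obtain ⟨j, hj, rfl⟩ := Finset.mem_image.1 h
    rw [Finset.mem_Ico] at hj
    exact Or.inr ⟨j, hj.1, hj.2, rfl⟩

private theorem mem_ins {v : V} (hv : v ∈ insert x K) (hne : v ≠ x) : v ∈ K :=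
  (Finset.mem_insert.1 hv).resolve_left hne

private theorem fin3 (c : Fin 3) : c = 0 ∨ c = 1 ∨ c = 2 := by
  fin_cases c
  · exact Or.inl rfl
  · exact Or.inr (Or.inl rfl)
  · exact Or.inr (Or.inr rfl)

omit [DecidableEq V] in
/-- the face below the path edge `j` for an edge `(w (j+1), 1)` -/
private theorem type_one (h : CInv r1 r2 m w D K d) {f : V × V × V} (hf : f ∈ D) {j : ℕ}
    (hj : j < m) (h0 : lab f 0 = w (j + 1)) (h1 : lab f 1 = w j) :
    ∀ v ∈ K, (j < d.top v → d.reg v f = 0 ∨ d.reg v f = 2) ∧ (d.top v ≤ j → d.reg v f = 1) := by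
  rcases h.s4 with ⟨hD, _⟩ | h4
  · rw [hD] at hf
    exact absurd hf (Finset.notMem_empty f)
  · rcases h4 j hj with ⟨_, _, _, f1, hf1, e0, e1, e2⟩ | ⟨_, _, _, f1, hf1, e0, e1, e2⟩
    · have : f = f1 := h.a.S1 f hf f1 hf1 0 1 (by decide) (h0.trans e0.symm) (h1.trans e1.symm)
      rw [this]
      exact e2
    · have h5 : f = f1 := h.a.S2' j hj f hf f1 hf1 ⟨1, h1⟩ ⟨0, h0⟩ ⟨0, e0⟩ ⟨2, e1⟩
      rw [h5, e0] at h0
      have := h.a.winj j (j + 1) (by omega) (by omega) h0
      omega

omit [DecidableEq V] in
private theorem type_two (h : CInv r1 r2 m w D K d) {f : V × V × V} (hf : f ∈ D) {j : ℕ}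
    (hj : j < m) (h0 : lab f 0 = w j) (h1 : lab f 2 = w (j + 1)) :
    ∀ v ∈ K, (j < d.top v → d.reg v f = 2) ∧ (d.top v ≤ j → d.reg v f = 0 ∨ d.reg v f = 1) := by
  rcases h.s4 with ⟨hD, _⟩ | h4
  · rw [hD] at hf
    exact absurd hf (Finset.notMem_empty f)
  · rcases h4 j hj with ⟨_, _, _, f1, hf1, e0, e1, e2⟩ | ⟨_, _, _, f1, hf1, e0, e1, e2⟩
    · have h5 : f = f1 := h.a.S2' j hj f hf f1 hf1 ⟨0, h0⟩ ⟨2, h1⟩ ⟨1, e1⟩ ⟨0, e0⟩
      rw [h5, e0] at h0
      have := h.a.winj (j + 1) j (by omega) (by omega) h0
      omega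
    · have : f = f1 := h.a.S1 f hf f1 hf1 0 2 (by decide) (h0.trans e0.symm) (h1.trans e1.symm)
      rw [this]
      exact e2

end step

theorem step_PX {r1 r2 : V} {m : ℕ} {w : ℕ → V} {D : Finset (V × V × V)} {K : Finset V} {d : CDat V}
    (h : CInv r1 r2 m w D K d) {p q : ℕ} {x : V} {m' : ℕ} {w' : ℕ → V} (hs : Step m w K p q x m' w') :
    PX r1 r2 m' w' (D ∪ newf w p q x) (insert x K) (d.upd w p q x) := by
  have hpq := hs.pq
  have hqm := hs.qm
  intro v hv hv1 hv2 c hc f hf₀ f' hf₀' l1 l2 l3 l4 u hu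
  rcases mem_new hf₀ with hf | ⟨j, hj1, hj2, rfl⟩
  · -- `f` is old
    have hvK : v ∈ K := by rw [← l1]; exact h.a.DK f hf _
    have hvx := ne_x hs hvK
    have hpx : (d.upd w p q x).par v c ≠ x := by
      rw [← l2]
      exact ne_x hs (h.a.DK f hf _)
    rcases mem_new hf₀' with hf' | ⟨j, hj1, hj2, rfl⟩
    · -- both old
      have hpar : (d.upd w p q x).par v c = d.par v c ∧ (c ≠ 0 ∨ Off m w v) := by
        by_cases hc0 : c = 0
        · subst hc0
          have h1 : ¬ ∃ s, p < s ∧ s < q ∧ w s = v := fun h2 => hpx (par_zero_in hvx h2)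
          refine ⟨par_zero_out hvx h1, Or.inr ?_⟩
          have h2 := ((off_iff hs v).1 (hc.resolve_left (fun h => h rfl))).2
          intro i hi e
          by_cases h3 : i ≤ p ∨ q ≤ i
          · exact h2 i hi h3 e
          · push Not at h3
            exact h1 ⟨i, h3.1, h3.2, e⟩
        · exact ⟨par_ne_zero hvx hc0, Or.inl hc0⟩
      rw [hpar.1] at l2 l4
      have hold := h.x v hvK hv1 hv2 c hpar.2 f hf f' hf' l1 l2 l3 l4
      by_cases hux : u = x
      · subst hux
        rw [reg_x_old (fst_ne_x h hs hf), reg_x_old (fst_ne_x h hs hf')]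
        have hp := hold (w p) (h.a.wK p (by omega))
        have hq := hold (w q) (h.a.wK q hqm)
        have key := px_dec c _ _ _ _ (good_of h.r hf hpq.le hqm) (good_of h.r hf' hpq.le hqm)
          hp.1 hq.1 (fun hc0 => ⟨hp.2 hc0 ⟨p, by omega, rfl⟩, hq.2 hc0 ⟨q, hqm, rfl⟩⟩)
        exact ⟨key.1, fun hc0 _ => key.2 hc0⟩
      · rw [reg_old (fst_ne_x h hs hf) hux, reg_old (fst_ne_x h hs hf') hux]
        have hk := hold u (mem_ins hu hux)
        refine ⟨hk.1, fun hc0 hpath => hk.2 hc0 ?_⟩
        rcases (path_iff hs u).1 hpath with h1 | ⟨i, hi, _, e⟩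
        · exact absurd h1 hux
        · exact ⟨i, hi, e⟩
    · -- `f'` is new
      have hc0 : c ≠ 0 := by
        rintro rfl
        exact hpx l4.symm
      have hc2 : c ≠ 2 := by
        rintro rfl
        exact hvx l3.symm
      have hc1 : c = 1 := by
        rcases fin3 c with h1 | h1 | h1
        · exact absurd h1 hc0
        · exact h1
        · exact absurd h1 hc2
      subst hc1
      have e3 : w (j + 1) = v := l3
      have e4 : w j = (d.upd w p q x).par v 1 := l4
      have key := type_one h hf (show j < m by omega) (l1.trans e3.symm) (l2.trans e4.symm)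
      refine ⟨?_, fun h0 => absurd h0 (by decide)⟩
      by_cases hux : u = x
      · subst hux
        rw [reg_x_old (fst_ne_x h hs hf), reg_x_new]
        have hp := (key (w p) (h.a.wK p (by omega))).2 (by rw [h.t.T0 p (by omega)]; exact hj1)
        have hq := (key (w q) (h.a.wK q hqm)).1 (by rw [h.t.T0 q hqm]; exact hj2)
        left
        rw [hp]
        rcases hq with hq | hq
        · rw [hq]
          decide
        · rw [hq]
          decide
      · rw [reg_old (fst_ne_x h hs hf) hux, reg_new hux (h.t.T0 j (by omega))]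
        have hk := key u (mem_ins hu hux)
        by_cases ht : j < d.top u
        · rw [if_pos ht]
          rcases hk.1 ht with h1 | h1
          · right
            rw [h1]
            decide
          · left
            exact h1
        · rw [if_neg ht]
          left
          exact hk.2 (not_lt.1 ht)
  · -- `f` is new
    rcases mem_new hf₀' with hf' | ⟨l, hl1, hl2, rfl⟩
    · -- `f'` is old
      have hvK : v ∈ K := by rw [← l3]; exact h.a.DK f' hf' _
      have hvx := ne_x hs hvK
      have hpx : (d.upd w p q x).par v c ≠ x := by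
        rw [← l4]
        exact ne_x hs (h.a.DK f' hf' _)
      have hc0 : c ≠ 0 := by
        rintro rfl
        exact hpx l2.symm
      have hc2 : c ≠ 1 := by
        rintro rfl
        exact hvx l1.symm
      have hc1 : c = 2 := by
        rcases fin3 c with h1 | h1 | h1
        · exact absurd h1 hc0
        · exact absurd h1 hc2
        · exact h1
      subst hc1
      have e3 : w j = v := l1
      have e4 : w (j + 1) = (d.upd w p q x).par v 2 := l2
      have key := type_two h hf' (show j < m by omega) (l3.trans e3.symm) (l4.trans e4.symm)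
      refine ⟨?_, fun h0 => absurd h0 (by decide)⟩
      by_cases hux : u = x
      · subst hux
        rw [reg_x_old (fst_ne_x h hs hf'), reg_x_new]
        have hp := (key (w p) (h.a.wK p (by omega))).2 (by rw [h.t.T0 p (by omega)]; exact hj1)
        have hq := (key (w q) (h.a.wK q hqm)).1 (by rw [h.t.T0 q hqm]; exact hj2)
        left
        rw [hq]
        rcases hp with hp | hp
        · rw [hp]
          decide
        · rw [hp]
          decide
      · rw [reg_old (fst_ne_x h hs hf') hux, reg_new hux (h.t.T0 j (by omega))]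
        have hk := key u (mem_ins hu hux)
        by_cases ht : j < d.top u
        · rw [if_pos ht]
          left
          exact (hk.1 ht).symm
        · rw [if_neg ht]
          rcases hk.2 (not_lt.1 ht) with h1 | h1
          · right
            rw [h1]
            decide
          · left
            exact h1.symm
    · -- both new
      rcases fin3 c with rfl | rfl | rfl
      · have e1 : w (j + 1) = v := l1
        have e2 : w l = v := l3
        have hjl : j + 1 = l := h.a.winj _ _ (by omega) (by omega) (e1.trans e2.symm)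
        subst hjl
        by_cases hux : u = x
        · subst hux
          rw [reg_x_new, reg_x_new]
          exact ⟨Or.inl rfl, fun _ _ => rfl⟩
        · rw [reg_new hux (h.t.T0 j (by omega)), reg_new hux (h.t.T0 (j + 1) (by omega))]
          by_cases ht : d.top u = j + 1
          · rw [if_pos (by omega), if_neg (by omega)]
            refine ⟨Or.inr ⟨by decide, by decide⟩, fun _ hpath => ?_⟩
            rcases (path_iff hs u).1 hpath with h1 | ⟨i, hi, hi', rfl⟩
            · exact absurd h1 hux
            · rw [h.t.T0 i hi] at ht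
              omega
          · have heq : (if j < d.top u then (2 : Fin 3) else 1) = if j + 1 < d.top u then 2 else 1 := by
              by_cases h1 : j < d.top u
              · rw [if_pos h1, if_pos (by omega)]
              · rw [if_neg h1, if_neg (by omega)]
            exact ⟨Or.inl heq, fun _ _ => heq⟩
      · exfalso
        have e1 : x = v := l1
        have e2 : w (l + 1) = v := l3
        exact w_ne_x h hs (show l + 1 ≤ m by omega) (e2.trans e1.symm)
      · exfalso
        have e1 : w j = v := l1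
        have e2 : x = v := l3
        exact w_ne_x h hs (show j ≤ m by omega) (e1.trans e2.symm)

theorem step_PU {r1 r2 : V} {m : ℕ} {w : ℕ → V} {D : Finset (V × V × V)} {K : Finset V} {d : CDat V}
    (h : CInv r1 r2 m w D K d) {p q : ℕ} {x : V} {m' : ℕ} {w' : ℕ → V} (hs : Step m w K p q x m' w') :
    PU (D ∪ newf w p q x) (d.upd w p q x) := by
  have hpq := hs.pq
  have hqm := hs.qm
  intro f hf₀ f' hf₀' hinj
  rcases mem_new hf₀ with hf | ⟨j, hj1, hj2, rfl⟩
  · rcases mem_new hf₀' with hf' | ⟨j, hj1, hj2, rfl⟩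
    · refine h.u f hf f' hf' ?_
      intro a b hab
      refine hinj ?_
      show (d.upd w p q x).reg (lab f' a) f = (d.upd w p q x).reg (lab f' b) f
      rw [reg_old (fst_ne_x h hs hf) (ne_x hs (h.a.DK f' hf' a)),
        reg_old (fst_ne_x h hs hf) (ne_x hs (h.a.DK f' hf' b))]
      exact hab
    · exfalso
      have hx := fst_ne_x h hs hf
      have h0 : (d.upd w p q x).reg (lab (x, w j, w (j + 1)) 0) f =
          rho (d.reg (w p) f) (d.reg (w q) f) := reg_x_old hx
      have h1 : (d.upd w p q x).reg (lab (x, w j, w (j + 1)) 1) f = d.reg (w j) f :=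
        reg_old hx (w_ne_x h hs (by omega))
      have h2 : (d.upd w p q x).reg (lab (x, w j, w (j + 1)) 2) f = d.reg (w (j + 1)) f :=
        reg_old hx (w_ne_x h hs (by omega))
      refine pu_dec (d.reg (w p) f) (d.reg (w j) f) (d.reg (w (j + 1)) f) (d.reg (w q) f)
        (good_of h.r hf hj1 (by omega)) (good_of h.r hf (by omega) (by omega))
        (good_of h.r hf (by omega) (by omega)) (good_of h.r hf (by omega) hqm)
        (good_of h.r hf (by omega) hqm) (good_succ h.r hf (by omega)) ?_ ?_ ?_
      · rw [← h0, ← h1]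
        exact fun e => absurd (hinj e) (by decide)
      · rw [← h0, ← h2]
        exact fun e => absurd (hinj e) (by decide)
      · rw [← h1, ← h2]
        exact fun e => absurd (hinj e) (by decide)
  · rcases mem_new hf₀' with hf' | ⟨l, hl1, hl2, rfl⟩
    · exfalso
      have hk : ∀ k, (d.upd w p q x).reg (lab f' k) (x, w j, w (j + 1)) = 1 ∨
          (d.upd w p q x).reg (lab f' k) (x, w j, w (j + 1)) = 2 := by
        intro k
        rw [reg_new (ne_x hs (h.a.DK f' hf' k)) (h.t.T0 j (by omega))]
        split_ifs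
        · exact Or.inr rfl
        · exact Or.inl rfl
      have n01 : (0 : Fin 3) ≠ 1 := by decide
      have n02 : (0 : Fin 3) ≠ 2 := by decide
      have n12 : (1 : Fin 3) ≠ 2 := by decide
      rcases hk 0 with h0 | h0 <;> rcases hk 1 with h1 | h1 <;> rcases hk 2 with h2 | h2
      · exact n01 (hinj (h0.trans h1.symm))
      · exact n01 (hinj (h0.trans h1.symm))
      · exact n02 (hinj (h0.trans h2.symm))
      · exact n12 (hinj (h1.trans h2.symm))
      · exact n12 (hinj (h1.trans h2.symm))
      · exact n02 (hinj (h0.trans h2.symm))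
      · exact n01 (hinj (h0.trans h1.symm))
      · exact n01 (hinj (h0.trans h1.symm))
    · have h1 : (d.upd w p q x).reg (lab (x, w l, w (l + 1)) 1) (x, w j, w (j + 1)) =
          if j < l then 2 else 1 := by
        have h2 := reg_new (d := d) (p := p) (q := q) (v := w l)
          (w_ne_x h hs (show l ≤ m by omega)) (h.t.T0 j (by omega))
        rw [h.t.T0 l (by omega)] at h2
        exact h2
      have h3 : (d.upd w p q x).reg (lab (x, w l, w (l + 1)) 2) (x, w j, w (j + 1)) =
          if j < l + 1 then 2 else 1 := by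
        have h2 := reg_new (d := d) (p := p) (q := q) (v := w (l + 1))
          (w_ne_x h hs (show l + 1 ≤ m by omega)) (h.t.T0 j (by omega))
        rw [h.t.T0 (l + 1) (by omega)] at h2
        exact h2
      have hne : (if j < l then (2 : Fin 3) else 1) ≠ if j < l + 1 then 2 else 1 := by
        rw [← h1, ← h3]
        exact fun e => absurd (hinj e) (by decide)
      have hjl : j = l := by
        by_contra hne'
        apply hne
        by_cases h4 : j < l
        · rw [if_pos h4, if_pos (by omega)]
        · rw [if_neg h4, if_neg (by omega)]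
      rw [hjl]

theorem step_PP {r1 r2 : V} {m : ℕ} {w : ℕ → V} {D : Finset (V × V × V)} {K : Finset V} {d : CDat V}
    (h : CInv r1 r2 m w D K d) {p q : ℕ} {x : V} {m' : ℕ} {w' : ℕ → V} (hs : Step m w K p q x m' w') :
    PP r1 r2 m' w' (D ∪ newf w p q x) (insert x K) (d.upd w p q x) := by
  have hpq := hs.pq
  have hqm := hs.qm
  intro v hv hv1 hv2 f hf₀
  by_cases hvx : v = x
  · subst hvx
    rw [par_x_one, par_x_two]
    have hoff : ¬ Off m' w' v := fun h1 => ((off_iff hs v).1 h1).1 rfl
    rcases mem_new hf₀ with hf | ⟨j, hj1, hj2, rfl⟩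
    · have hx := fst_ne_x h hs hf
      rw [reg_x_old hx, reg_old hx (w_ne_x h hs (show p ≤ m by omega)),
        reg_old hx (w_ne_x h hs hqm)]
      have hg := good_of h.r hf hpq.le hqm
      have key : ∀ a b : Fin 3, good a b → (rho a b = 1 → a = 1) ∧ (rho a b = 2 → b = 2) := by
        decide
      exact ⟨(key _ _ hg).1, (key _ _ hg).2, fun h1 => absurd h1 hoff⟩
    · rw [reg_x_new]
      exact ⟨fun h1 => absurd h1 (by decide), fun h1 => absurd h1 (by decide),
        fun h1 => absurd h1 hoff⟩
  · have hvK := mem_ins hv hvx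
    obtain ⟨b1, b2, b3⟩ := h.b v hvK hv1 hv2
    rw [par_ne_zero hvx (by decide), par_ne_zero hvx (by decide)]
    rcases mem_new hf₀ with hf | ⟨j, hj1, hj2, rfl⟩
    · have hx := fst_ne_x h hs hf
      obtain ⟨p1, p2, p3⟩ := h.p v hvK hv1 hv2 f hf
      rw [reg_old hx hvx, reg_old hx (ne_x hs b1), reg_old hx (ne_x hs b2)]
      refine ⟨p1, p2, fun hoff hr => ?_⟩
      by_cases hsx : ∃ s, p < s ∧ s < q ∧ w s = v
      · rw [par_zero_in hvx hsx, reg_x_old hx]
        obtain ⟨s, hs1, hs2, rfl⟩ := hsx
        have g1 := good_of h.r hf hs1.le (show s ≤ m by omega)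
        have g2 := good_of h.r hf hs2.le hqm
        rw [hr] at g1 g2
        have key : ∀ a b : Fin 3, good a 0 → good 0 b → rho a b = 0 := by decide
        exact key _ _ g1 g2
      · have hoff' : Off m w v := by
          intro i hi e
          by_cases h3 : i ≤ p ∨ q ≤ i
          · exact ((off_iff hs v).1 hoff).2 i hi h3 e
          · push Not at h3
            exact hsx ⟨i, h3.1, h3.2, e⟩
        rw [par_zero_out hvx hsx, reg_old hx (ne_x hs (b3 hoff'))]
        exact p3 hoff' hr
    · obtain ⟨t1, t2⟩ := h.t.T23 v hvK hv1 hv2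
      rw [reg_new hvx (h.t.T0 j (by omega)), reg_new (ne_x hs b1) (h.t.T0 j (by omega)),
        reg_new (ne_x hs b2) (h.t.T0 j (by omega))]
      refine ⟨fun h1 => ?_, fun h1 => ?_, fun _ h1 => ?_⟩
      · by_cases h2 : j < d.top v
        · rw [if_pos h2] at h1
          exact absurd h1 (by decide)
        · rw [if_neg (by omega)]
      · by_cases h2 : j < d.top v
        · rw [if_pos (by omega)]
        · rw [if_neg h2] at h1
          exact absurd h1 (by decide)
      · exfalso
        split_ifs at h1
        · exact absurd h1 (by decide)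
        · exact absurd h1 (by decide)

end MP0e5907
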