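import Pool.Agent.Lib_MP_0e5907.CStepA
import Pool.Agent.Lib_MP_0e5907.CStepB
import Pool.Agent.Lib_MP_0e5907.CStepC

/-!
# Piece CFINAL: a canonical ordering gives a Schnyder labelled triangulation

Paper proof.
* `co_inv`: induction on `CO`: `cinv_base`, and the step with `d.upd w p q x` and the nine step lemmas.
* `co_stri`: let `V` be finite, `r : Fin 3 → V` injective, `CO (r 1) (r 2) 2 w D univ` and `w 1 = r 0`. Let `d` be the data, `N = {v // ∀ i, v ≠ r i}`, `F = {f // f ∈ D}`, `emb : N ⊕ Fin 3 → V`, `emb = Sum.elim val r`, a bijection.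
  The path is `r 1, r 0, r 2`; `D ≠ ∅` (`m = 2`, so the first alternative of `PS4` fails). Every `v ∈ N` is off the path.
  `vert f k = emb⁻¹ (lab f k)`, `par v c = emb⁻¹ (d.par v c)`, `reg u f = d.reg (emb u) f`.
  By `PS4`: path edge `0` (from `r 1` to `r 0`): type 2 needs `w 0 ≠ r1`; so type 1: `d.par (r 0) 1 = r 1`. Path edge `1`: type 1 needs `w 2 ≠ r2`, so type 2: `d.par (r 0) 2 = r 2`.
  Slots: `(N × Fin 3) ⊕ (N × Fin 3)) ⊕ Fin 3`. A side `(f,k)` is related to the slot `inl (inl (v,c))` if `k = c+1`, `lab f (c+2) = v`, `lab f c = par v c`; to `inl (inr (v,c))` if `k = c+2`, `lab f (c+1) = v`, `lab f c = par v c`; to `inr j`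
  if `k = j`, `lab f (j+1) = r (j+1)`, `lab f (j+2) = r (j+2)`. Each slot is related to at most one side (`S1`). Each side is related to at least one slot: by `PS3`; if the vertex `v` there is `r 0` then `c ≠ 0` (`r 0` is on the path); `c = 1`: `k = 2`, `lab f 0 = r 0`, `lab f 1 = r 1`: slot `inr 2`; or `k = 0`,
  `lab f 2 = r 0`, `lab f 1 = r 1`: excluded by `S2` with `i = 0`. `c = 2`: `k = 0`, `lab f 1 = r 0`, `lab f 2 = r 2`: excluded by `S2`, `i = 1`; or `k = 1`, `lab f 0 = r 0`, `lab f 2 = r 2`: slot `inr 1`. The base alternative is slot `inr 0`.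
  Numbers: `#sides = 3 |D|`, `#slots = 6 |N| + 3`, `|V| = |N| + 3` and `count`: `|D| + 5 = 2 |V|`, so `|D| = 2|N| + 1` and the numbers agree. The relation gives an injection from sides to slots (choose a slot; a slot determines the side), hence a
  bijection, whose inverse is a map slots → sides `σ` with `σ s` related to `s`. Put `lf (v,c) = (σ (inl (inl (v,c)))).1` etc. Then `sideMap lf rf of = σ` is bijective, and `lf_tail` etc. hold by the relation.
  `reg_root`: `R2` for `i = 1, 2`, for `i = 0`: `R3` with `m = 2`: `a = 1`, `b = 2`, so `reg (w 1) f = 0`. `reg_vert`: `R1`. `reg_cross`: `PX` (all `v ∈ N` are off the path; `f = lf e`, `f' = rf e`). `reg_uniq`: `PU`. `reg_par`: `PP`.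
-/

namespace MP0e5907

open Finset

variable {V : Type} [DecidableEq V]

theorem co_inv {r1 r2 : V} {m : ℕ} {w : ℕ → V} {D : Finset (V × V × V)} {K : Finset V}
    (h : CO r1 r2 m w D K) : ∃ d : CDat V, CInv r1 r2 m w D K d := by
  induction h with
  | base w h0 h1 hne => exact cinv_base r1 r2 w h0 h1 hne
  | step m w D K _ p q x m' w' hs ih =>
    obtain ⟨d, hd⟩ := ih
    exact ⟨d.upd w p q x, step_PA hd hs, step_PB hd hs, step_PS3 hd hs, step_PS4 hd hs,
      step_PT hd hs, step_PR hd hs, step_PX hd hs, step_PU hd hs, step_PP hd hs⟩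

/-- the relation between sides and slots -/
def cfinRel (r : Fin 3 → V) (d : CDat V) (f : V × V × V) (k : Fin 3) :
    (({v : V // ∀ i, v ≠ r i} × Fin 3) ⊕ ({v : V // ∀ i, v ≠ r i} × Fin 3)) ⊕ Fin 3 → Prop
  | Sum.inl (Sum.inl e) => k = e.2 + 1 ∧ lab f (e.2 + 2) = e.1.1 ∧ lab f e.2 = d.par e.1.1 e.2
  | Sum.inl (Sum.inr e) => k = e.2 + 2 ∧ lab f (e.2 + 1) = e.1.1 ∧ lab f e.2 = d.par e.1.1 e.2
  | Sum.inr j => k = j ∧ lab f (j + 1) = r (j + 1) ∧ lab f (j + 2) = r (j + 2)

theorem cfinRel_uniq {r1 r2 : V} {m : ℕ} {w : ℕ → V} {D : Finset (V × V × V)} {K : Finset V}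
    (hA : PA r1 r2 m w D K) (r : Fin 3 → V) (d : CDat V)
    (s : (({v : V // ∀ i, v ≠ r i} × Fin 3) ⊕ ({v : V // ∀ i, v ≠ r i} × Fin 3)) ⊕ Fin 3)
    {f f' : V × V × V} (hf : f ∈ D) (hf' : f' ∈ D) {k k' : Fin 3} (h : cfinRel r d f k s)
    (h' : cfinRel r d f' k' s) : f = f' ∧ k = k' := by
  have n1 : ∀ c : Fin 3, c + 2 ≠ c := by decide
  have n2 : ∀ c : Fin 3, c + 1 ≠ c := by decide
  have n3 : ∀ c : Fin 3, c + 1 ≠ c + 2 := by decide
  rcases s with (e | e) | j
  · obtain ⟨h1, h2, h3⟩ := h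
    obtain ⟨h1', h2', h3'⟩ := h'
    exact ⟨hA.S1 f hf f' hf' (e.2 + 2) e.2 (n1 _) (h2.trans h2'.symm) (h3.trans h3'.symm),
      h1.trans h1'.symm⟩
  · obtain ⟨h1, h2, h3⟩ := h
    obtain ⟨h1', h2', h3'⟩ := h'
    exact ⟨hA.S1 f hf f' hf' (e.2 + 1) e.2 (n2 _) (h2.trans h2'.symm) (h3.trans h3'.symm),
      h1.trans h1'.symm⟩
  · obtain ⟨h1, h2, h3⟩ := h
    obtain ⟨h1', h2', h3'⟩ := h'
    exact ⟨hA.S1 f hf f' hf' (j + 1) (j + 2) (n3 _) (h2.trans h2'.symm) (h3.trans h3'.symm),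
      h1.trans h1'.symm⟩

theorem cfinRel_ex {r : Fin 3 → V} {w : ℕ → V} {D : Finset (V × V × V)} {K : Finset V}
    {d : CDat V} (hA : PA (r 1) (r 2) 2 w D K) (h3 : PS3 (r 1) (r 2) 2 w D K d) (h1 : w 1 = r 0)
    (p1 : d.par (r 0) 1 = r 1) (p2 : d.par (r 0) 2 = r 2)
    (f : V × V × V) (hf : f ∈ D) (k : Fin 3) :
    ∃ s : (({v : V // ∀ i, v ≠ r i} × Fin 3) ⊕ ({v : V // ∀ i, v ≠ r i} × Fin 3)) ⊕ Fin 3,
      cfinRel r d f k s := by
  rcases h3 f hf k with ⟨hk, ha, hb⟩ | ⟨v, c, hvK, hv1, hv2, hoff, hform⟩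
  · exact ⟨Sum.inr 0, hk, ha, hb⟩
  · by_cases hv0 : v = r 0
    · subst hv0
      have hc0 : c ≠ 0 := by
        rcases hoff with hc | ho
        · exact hc
        · exact absurd h1 (ho 1 (by norm_num))
      have hc : c = 1 ∨ c = 2 := (by decide : ∀ c : Fin 3, c ≠ 0 → c = 1 ∨ c = 2) c hc0
      rcases hc with rfl | rfl
      · rcases hform with ⟨hk, ha, hb⟩ | ⟨hk, ha, hb⟩
        · refine ⟨Sum.inr 2, hk, ha, ?_⟩
          rw [p1] at hb
          exact hb
        · exfalso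
          rw [p1] at hb
          refine hA.S2 0 (by norm_num) f hf ⟨?_, ?_⟩
          · rw [hA.w0]
            exact hb
          · rw [zero_add, h1]
            exact ha
      · rcases hform with ⟨hk, ha, hb⟩ | ⟨hk, ha, hb⟩
        · exfalso
          rw [p2] at hb
          refine hA.S2 1 (by norm_num) f hf ⟨?_, ?_⟩
          · rw [h1]
            exact ha
          · have hw2 : w (1 + 1) = r 2 := hA.wm
            rw [hw2]
            exact hb
        · refine ⟨Sum.inr 1, hk, ?_, ha⟩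
          rw [p2] at hb
          exact hb
    · have hvN : ∀ i, v ≠ r i := by
        intro i
        fin_cases i
        · exact hv0
        · exact hv1
        · exact hv2
      rcases hform with hform | hform
      · exact ⟨Sum.inl (Sum.inl (⟨v, hvN⟩, c)), hform⟩
      · exact ⟨Sum.inl (Sum.inr (⟨v, hvN⟩, c)), hform⟩

/-- the inner vertices and the roots are all vertices -/
noncomputable def cfinE (r : Fin 3 → V) (hr : Function.Injective r) :
    {v : V // ∀ i, v ≠ r i} ⊕ Fin 3 ≃ V :=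
  Equiv.ofBijective (Sum.elim Subtype.val r) (by
    constructor
    · rintro (a | i) (b | j) h
      · exact congrArg Sum.inl (Subtype.ext h)
      · exact absurd h (a.2 j)
      · exact absurd h.symm (b.2 i)
      · exact congrArg Sum.inr (hr h)
    · intro x
      by_cases hx : ∃ i, x = r i
      · obtain ⟨i, rfl⟩ := hx
        exact ⟨Sum.inr i, rfl⟩
      · push Not at hx
        exact ⟨Sum.inl ⟨x, hx⟩, rfl⟩)

theorem cfinE_inl (r : Fin 3 → V) (hr : Function.Injective r) (v : {v : V // ∀ i, v ≠ r i}) :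
    cfinE r hr (Sum.inl v) = v.1 := rfl

theorem cfinE_inr (r : Fin 3 → V) (hr : Function.Injective r) (i : Fin 3) :
    cfinE r hr (Sum.inr i) = r i := rfl

theorem co_stri [Fintype V] (r : Fin 3 → V) (hr : Function.Injective r) (w : ℕ → V) (D : Finset (V × V × V))
    (h : CO (r 1) (r 2) 2 w D univ) (h1 : w 1 = r 0) :
    ∃ T : STri {v : V // ∀ i, v ≠ r i} {f : V × V × V // f ∈ D},
      ∀ f k, Sum.elim Subtype.val r (T.vert f k) = lab f.1 k := by
  obtain ⟨d, hd⟩ := co_inv h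
  have hw0 : w 0 = r 1 := hd.a.w0
  have hw2 : w 2 = r 2 := hd.a.wm
  -- the types of the two path edges
  have hty : ∀ i, i < 2 → Ty1 (r 1) (r 2) w D univ d i ∨ Ty2 (r 1) (r 2) w D univ d i := by
    rcases hd.s4 with ⟨-, h2⟩ | h2
    · exact absurd h2 (by norm_num)
    · exact h2
  have p1 : d.par (r 0) 1 = r 1 := by
    rcases hty 0 (by norm_num) with h2 | h2
    · have h3 := h2.2.2.1
      rw [zero_add, h1, hw0] at h3
      exact h3
    · exact absurd hw0 h2.1
  have p2 : d.par (r 0) 2 = r 2 := by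
    rcases hty 1 (by norm_num) with h2 | h2
    · exact absurd hw2 h2.2.1
    · have h3 := h2.2.2.1
      have hw2' : w (1 + 1) = r 2 := hw2
      rw [h1, hw2'] at h3
      exact h3
  have hoff : ∀ v : {v : V // ∀ i, v ≠ r i}, Off 2 w v.1 := by
    intro v i hi h2
    have hi' : i = 0 ∨ i = 1 ∨ i = 2 := by omega
    rcases hi' with rfl | rfl | rfl
    · exact v.2 1 (h2.symm.trans hw0)
    · exact v.2 0 (h2.symm.trans h1)
    · exact v.2 2 (h2.symm.trans hw2)
  -- the bijection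
  have hex : ∀ x : {f : V × V × V // f ∈ D} × Fin 3,
      ∃ s : (({v : V // ∀ i, v ≠ r i} × Fin 3) ⊕ ({v : V // ∀ i, v ≠ r i} × Fin 3)) ⊕ Fin 3,
      cfinRel r d x.1.1 x.2 s := fun x => cfinRel_ex hd.a hd.s3 h1 p1 p2 x.1.1 x.1.2 x.2
  choose g hg using hex
  have ginj : Function.Injective g := by
    intro x y hxy
    have hx := hg x
    rw [hxy] at hx
    obtain ⟨h2, h3⟩ := cfinRel_uniq hd.a r d (g y) x.1.2 y.1.2 hx (hg y)
    exact Prod.ext (Subtype.ext h2) h3
  have hcardV : Fintype.card {v : V // ∀ i, v ≠ r i} + 3 = Fintype.card V := by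
    have h2 := Fintype.card_congr (cfinE r hr)
    rw [Fintype.card_sum, Fintype.card_fin] at h2
    exact h2
  have hcount : D.card + 2 + 3 = 2 * Fintype.card V := hd.a.count
  have hcard : Fintype.card ({f : V × V × V // f ∈ D} × Fin 3) =
      Fintype.card ((({v : V // ∀ i, v ≠ r i} × Fin 3) ⊕ ({v : V // ∀ i, v ≠ r i} × Fin 3)) ⊕
        Fin 3) := by
    rw [Fintype.card_prod, Fintype.card_sum, Fintype.card_sum, Fintype.card_prod,
      Fintype.card_fin, Fintype.card_coe]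
    omega
  have gbij : Function.Bijective g :=
    (Fintype.bijective_iff_injective_and_card g).2 ⟨ginj, hcard⟩
  let G := Equiv.ofBijective g gbij
  have hσ : ∀ s, cfinRel r d (G.symm s).1.1 (G.symm s).2 s := by
    intro s
    have h2 := hg (G.symm s)
    have h3 : g (G.symm s) = s := G.apply_symm_apply s
    rw [h3] at h2
    exact h2
  have hl : ∀ e : {v : V // ∀ i, v ≠ r i} × Fin 3,
      (G.symm (Sum.inl (Sum.inl e))).2 = e.2 + 1 ∧
      lab (G.symm (Sum.inl (Sum.inl e))).1.1 (e.2 + 2) = e.1.1 ∧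
      lab (G.symm (Sum.inl (Sum.inl e))).1.1 e.2 = d.par e.1.1 e.2 :=
    fun e => hσ (Sum.inl (Sum.inl e))
  have hrr : ∀ e : {v : V // ∀ i, v ≠ r i} × Fin 3,
      (G.symm (Sum.inl (Sum.inr e))).2 = e.2 + 2 ∧
      lab (G.symm (Sum.inl (Sum.inr e))).1.1 (e.2 + 1) = e.1.1 ∧
      lab (G.symm (Sum.inl (Sum.inr e))).1.1 e.2 = d.par e.1.1 e.2 :=
    fun e => hσ (Sum.inl (Sum.inr e))
  have ho : ∀ j : Fin 3, (G.symm (Sum.inr j)).2 = j ∧
      lab (G.symm (Sum.inr j)).1.1 (j + 1) = r (j + 1) ∧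
      lab (G.symm (Sum.inr j)).1.1 (j + 2) = r (j + 2) := fun j => hσ (Sum.inr j)
  have hEs : ∀ x : V, (cfinE r hr) ((cfinE r hr).symm x) = x := (cfinE r hr).apply_symm_apply
  refine ⟨{
    vert := fun f k => (cfinE r hr).symm (lab f.1 k)
    par := fun v c => (cfinE r hr).symm (d.par v.1 c)
    lf := fun e => (G.symm (Sum.inl (Sum.inl e))).1
    rf := fun e => (G.symm (Sum.inl (Sum.inr e))).1
    of := fun j => (G.symm (Sum.inr j)).1
    reg := fun u f => d.reg (cfinE r hr u) f.1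
    sides := ?_
    lf_tail := ?_
    lf_head := ?_
    rf_tail := ?_
    rf_head := ?_
    of_one := ?_
    of_two := ?_
    reg_root := ?_
    reg_vert := ?_
    reg_cross := ?_
    reg_uniq := ?_
    reg_par := ?_ }, ?_⟩
  · have hs : sideMap (fun e => (G.symm (Sum.inl (Sum.inl e))).1)
        (fun e => (G.symm (Sum.inl (Sum.inr e))).1) (fun j => (G.symm (Sum.inr j)).1) = G.symm := by
      funext s
      rcases s with (e | e) | j
      · exact Prod.ext rfl (hl e).1.symm
      · exact Prod.ext rfl (hrr e).1.symm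
      · exact Prod.ext rfl (ho j).1.symm
    rw [hs]
    exact G.symm.bijective
  · intro e
    change (cfinE r hr).symm _ = _
    rw [(hl e).2.1, Equiv.symm_apply_eq, cfinE_inl]
  · intro e
    change (cfinE r hr).symm _ = (cfinE r hr).symm _
    rw [(hl e).2.2]
  · intro e
    change (cfinE r hr).symm _ = _
    rw [(hrr e).2.1, Equiv.symm_apply_eq, cfinE_inl]
  · intro e
    change (cfinE r hr).symm _ = (cfinE r hr).symm _
    rw [(hrr e).2.2]
  · intro j
    change (cfinE r hr).symm _ = _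
    rw [(ho j).2.1, Equiv.symm_apply_eq, cfinE_inr]
  · intro j
    change (cfinE r hr).symm _ = _
    rw [(ho j).2.2, Equiv.symm_apply_eq, cfinE_inr]
  · intro i f
    change d.reg (r i) f.1 = i
    fin_cases i
    · obtain ⟨a, b, ha, hab, hb, h2⟩ := hd.r.R3 f.1 f.2
      have h3 := (h2 1 (by norm_num)).2.1 (by omega) (by omega)
      rw [h1] at h3
      exact h3
    · exact (hd.r.R2 f.1 f.2).1
    · exact (hd.r.R2 f.1 f.2).2
  · intro f i
    change d.reg (cfinE r hr ((cfinE r hr).symm _)) f.1 = i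
    rw [hEs]
    exact hd.r.R1 f.1 f.2 i
  · intro e u
    exact (hd.x e.1.1 (mem_univ _) (e.1.2 1) (e.1.2 2) e.2 (Or.inr (hoff e.1))
      _ (G.symm (Sum.inl (Sum.inl e))).1.2 _ (G.symm (Sum.inl (Sum.inr e))).1.2
      (hl e).2.1 (hl e).2.2 (hrr e).2.1 (hrr e).2.2 (cfinE r hr u) (mem_univ _)).1
  · intro f f' h2
    refine Subtype.ext (hd.u f.1 f.2 f'.1 f'.2 ?_)
    intro a b hab
    apply h2
    change d.reg (cfinE r hr ((cfinE r hr).symm _)) f.1 =
      d.reg (cfinE r hr ((cfinE r hr).symm _)) f.1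
    rw [hEs, hEs]
    exact hab
  · intro v c f h2
    change d.reg (cfinE r hr ((cfinE r hr).symm _)) f.1 = c
    change d.reg v.1 f.1 = c at h2
    rw [hEs]
    obtain ⟨q1, q2, q0⟩ := hd.p v.1 (mem_univ _) (v.2 1) (v.2 2) f.1 f.2
    revert h2
    fin_cases c
    · exact q0 (hoff v)
    · exact q1
    · exact q2
  · intro f k
    exact hEs _

end MP0e5907
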