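import Pool.Agent.Lib_MP_0e5907.CBase

/-!
# Piece CSTEPA: base case; path/face invariants `PA`, `PB`, `PS3` after a step

Notation for a step: old state `(m,w,D,K)`, new state `(m',w',D',K')` with `D' = D ∪ newf w p q x`, `K' = insert x K`; new faces
`g_j = (x, w j, w (j+1))`, `p ≤ j < q`. New path: `w' i = w i` (`i ≤ p`), `w' (p+1) = x`, `w' (i+p+2-q) = w i` (`q ≤ i ≤ m`); so for `p+2 ≤ i ≤ m'`:
`w' i = w (i+q-p-2)`. Labels: `lab g_j 0 = x`, `lab g_j 1 = w j`, `lab g_j 2 = w (j+1)`.

Paper proof.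
* `cinv_base`: `D = ∅`, `m = 1`, `K = {r1,r2}`: `d = ⟨fun v _ => v, fun v => if v = r1 then 0 else 1, fun _ _ => 0⟩`. Everything is immediate (no faces, no
  `v ∈ K` different from `r1, r2`), `PS4` by the first alternative, count `0 + 1 + 3 = 2 * 2`.
* `step_PA`: `hm`: `m' = m + p + 2 - q ≥ 2`. `w0`: `w' 0 = w 0`. `wm`: `m' = m + p + 2 - q`, `w' m' = w m`. Injectivity: three ranges, old injectivity and `x ∉ K`. `count`: the new faces
  are `q - p` distinct ones (`w` injective) with first component `x ∉ K`, so not in `D`: `|D'| = |D| + (q-p)`, `|K'| = |K| + 1`.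
  `S1`: both old: old. Both new: one of the two positions `i ≠ j` is `1` or `2`, so the indices agree. One new (`g_l`), one old (`f'`): label `0` of the new one is
  `x ∉ K`, so both positions are in `{1,2}`: `lab f' 1 = w l`, `lab f' 2 = w (l+1)`, `l < m`: contradiction to old `S2`.
  `S2` for `i < m'`: `i < p`: old faces: old `S2`; new faces: `w l = w i` with `l ≥ p > i`, no. `i = p`: right vertex is `x`, but `lab f 2 ∈ K` for all `f ∈ D'`. `i = p+1`: left vertex is
  `x`, but `lab f 1 ∈ K`. `i ≥ p+2`: index `i + q - p - 2 ≥ q` in the old path; as for `i < p`.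
  `S2'` : for `i < p` or `i ≥ p+2` a new face `g_l` contains `w l, w (l+1)` with `p ≤ l < q`, so not both ends of the path edge; only old faces: old `S2'`.
  For `i = p` (ends `w p, x`): faces containing `x` are new, `g_l ∋ w p` forces `l = p`. For `i = p+1` (ends `x, w q`): `l + 1 = q`.
* `step_PB`: `x`: `par x 1 = w p`, `par x 2 = w q`, `x` is on the new path. Old `v`: unchanged, or `par v 0 = x` for `v = w s`, `p < s < q`; if `v` is off the new path and
  not such a `w s` then it is off the old path.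
* `step_PS3`: old face: old representation `(v,c)`; `v ≠ x`; if `c = 0`, `v` is off the old path, so not of the form `w s`, `s ≤ m`, and `par' v 0 = par v 0`; `v` is off the new
  path. New face `g_j`: `k = 0`: by old `PS4` for the path edge `j`: base (`D = ∅`, `m = 1`: then `p = 0, q = 1, j = 0`, `w 0 = r1`, `w 1 = r2`); type 1: `v = w (j+1)`, `c = 1`
  (second form, `k = c + 2 = 0`); type 2: `v = w j`, `c = 2` (first form, `k = c + 1 = 0`). `k = 1`: if `j + 1 < q`: `v = w (j+1)`, `c = 0`, first form (`par' v 0 = x`; `v` is off the new path; `v ≠ r1, r2` because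
  `0 < j+1 < m`); if `j + 1 = q`: `v = x`, `c = 2`, second form. `k = 2`: if `p < j`: `v = w j`, `c = 0`, second form; if `j = p`: `v = x`, `c = 1`, first form.
-/

namespace MP0e5907

open Finset

variable {V : Type} [DecidableEq V]

omit [DecidableEq V] in
theorem csa_l0 (a b c : V) : lab (a, b, c) 0 = a := rfl

omit [DecidableEq V] in
theorem csa_l1 (a b c : V) : lab (a, b, c) 1 = b := rfl

omit [DecidableEq V] in
theorem csa_l2 (a b c : V) : lab (a, b, c) 2 = c := rfl

theorem csa_mem {w : ℕ → V} {D : Finset (V × V × V)} {p q : ℕ} {x : V} {f : V × V × V} :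
    f ∈ D ∪ newf w p q x ↔ f ∈ D ∨ ∃ l, p ≤ l ∧ l < q ∧ f = (x, w l, w (l + 1)) := by
  unfold newf
  rw [Finset.mem_union, Finset.mem_image]
  constructor
  · rintro (h | ⟨l, hl, rfl⟩)
    · exact Or.inl h
    · rw [Finset.mem_Ico] at hl
      exact Or.inr ⟨l, hl.1, hl.2, rfl⟩
  · rintro (h | ⟨l, h1, h2, rfl⟩)
    · exact Or.inl h
    · exact Or.inr ⟨l, Finset.mem_Ico.mpr ⟨h1, h2⟩, rfl⟩

omit [DecidableEq V] in
/-- positions on the new path -/
theorem csa_w {m : ℕ} {w : ℕ → V} {K : Finset V} {p q : ℕ} {x : V} {m' : ℕ} {w' : ℕ → V}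
    (hs : Step m w K p q x m' w') (i : ℕ) (hi : i ≤ m') :
    (i ≤ p ∧ w' i = w i) ∨ (i = p + 1 ∧ w' i = x) ∨
      ∃ j, q ≤ j ∧ j ≤ m ∧ i + q = j + p + 2 ∧ w' i = w j := by
  have h1 := hs.hm'
  have h2 := hs.pq
  have h3 := hs.qm
  rcases le_or_gt i p with h | h
  · exact Or.inl ⟨h, hs.w1 i h⟩
  · rcases Nat.eq_or_lt_of_le (Nat.succ_le_of_lt h) with h4 | h4
    · refine Or.inr (Or.inl ⟨h4.symm, ?_⟩)
      rw [← h4]
      exact hs.w2
    · refine Or.inr (Or.inr ⟨i + q - (p + 2), by omega, by omega, by omega, ?_⟩)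
      have h5 := hs.w3 (i + q - (p + 2)) (by omega) (by omega)
      rw [← h5]
      congr 1
      omega

omit [DecidableEq V] in
/-- edges of the new path -/
theorem csa_e {m : ℕ} {w : ℕ → V} {K : Finset V} {p q : ℕ} {x : V} {m' : ℕ} {w' : ℕ → V}
    (hs : Step m w K p q x m' w') (i : ℕ) (hi : i < m') :
    (∃ a, a < m ∧ (a < p ∨ q ≤ a) ∧ w' i = w a ∧ w' (i + 1) = w (a + 1)) ∨
      (w' i = w p ∧ w' (i + 1) = x) ∨ (w' i = x ∧ w' (i + 1) = w q) := by
  have h1 := hs.hm'
  have h2 := hs.pq
  have h3 := hs.qm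
  rcases lt_trichotomy i p with h | h | h
  · exact Or.inl ⟨i, by omega, Or.inl h, hs.w1 i h.le, hs.w1 (i + 1) (by omega)⟩
  · refine Or.inr (Or.inl ?_)
    subst h
    exact ⟨hs.w1 i le_rfl, hs.w2⟩
  · rcases Nat.eq_or_lt_of_le (Nat.succ_le_of_lt h) with h4 | h4
    · refine Or.inr (Or.inr ?_)
      have h5 := hs.w3 q le_rfl h3
      have h6 : q + p + 2 - q = i + 1 := by omega
      rw [h6] at h5
      refine ⟨?_, h5⟩
      rw [← h4]
      exact hs.w2
    · refine Or.inl ⟨i + q - (p + 2), by omega, Or.inr (by omega), ?_, ?_⟩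
      · rw [← hs.w3 (i + q - (p + 2)) (by omega) (by omega)]
        congr 1
        omega
      · rw [← hs.w3 (i + q - (p + 2) + 1) (by omega) (by omega)]
        congr 1
        omega

theorem cinv_base (r1 r2 : V) (w : ℕ → V) (h0 : w 0 = r1) (h1 : w 1 = r2) (hne : r1 ≠ r2) :
    ∃ d : CDat V, CInv r1 r2 1 w ∅ {r1, r2} d := by
  have hmem : ∀ v ∈ ({r1, r2} : Finset V), v ≠ r1 → v ≠ r2 → False := by
    intro v hv hv1 hv2
    rw [Finset.mem_insert, Finset.mem_singleton] at hv
    rcases hv with h | h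
    · exact hv1 h
    · exact hv2 h
  have hi01 : ∀ i : ℕ, i ≤ 1 → i = 0 ∨ i = 1 := fun i hi => by omega
  refine ⟨⟨fun v _ => v, fun v => if v = r1 then 0 else 1, fun _ _ => 0⟩, ?_, ?_, ?_, ?_, ?_, ?_, ?_, ?_, ?_⟩
  · refine ⟨le_rfl, h0, h1, ?_, ?_, ?_, ?_, ?_, ?_, ?_⟩
    · intro i j hi hj hij
      rcases hi01 i hi with rfl | rfl <;> rcases hi01 j hj with rfl | rfl
      · rfl
      · rw [h0, h1] at hij; exact absurd hij hne
      · rw [h0, h1] at hij; exact absurd hij.symm hne
      · rfl
    · intro i hi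
      rcases hi01 i hi with rfl | rfl
      · rw [h0]; simp
      · rw [h1]; simp
    · intro f hf; exact absurd hf (Finset.notMem_empty f)
    · rw [Finset.card_pair hne]; simp
    · intro f hf; exact absurd hf (Finset.notMem_empty f)
    · intro i _ f hf; exact absurd hf (Finset.notMem_empty f)
    · intro i _ f hf; exact absurd hf (Finset.notMem_empty f)
  · intro v hv hv1 hv2
    exact (hmem v hv hv1 hv2).elim
  · intro f hf; exact absurd hf (Finset.notMem_empty f)
  · exact Or.inl ⟨rfl, rfl⟩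
  · refine ⟨?_, ?_, ?_⟩
    · intro i hi
      rcases hi01 i hi with rfl | rfl
      · rw [h0]; simp
      · rw [h1]; simp [hne.symm]
    · intro v _
      dsimp only
      split_ifs <;> omega
    · intro v hv hv1 hv2
      exact (hmem v hv hv1 hv2).elim
  · refine ⟨?_, ?_, ?_⟩ <;> (intro f hf; exact absurd hf (Finset.notMem_empty f))
  · intro v hv hv1 hv2
    exact (hmem v hv hv1 hv2).elim
  · intro f hf; exact absurd hf (Finset.notMem_empty f)
  · intro v hv hv1 hv2
    exact (hmem v hv hv1 hv2).elim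

theorem step_PA {r1 r2 : V} {m : ℕ} {w : ℕ → V} {D : Finset (V × V × V)} {K : Finset V} {d : CDat V}
    (h : CInv r1 r2 m w D K d) {p q : ℕ} {x : V} {m' : ℕ} {w' : ℕ → V} (hs : Step m w K p q x m' w') :
    PA r1 r2 m' w' (D ∪ newf w p q x) (insert x K) := by
  have e1 := hs.hm'
  have e2 := hs.pq
  have e3 := hs.qm
  have hxw : ∀ i, i ≤ m → w i ≠ x := fun i hi he => hs.xK (by rw [← he]; exact h.a.wK i hi)
  have hxD : ∀ f ∈ D, ∀ k, lab f k ≠ x := fun f hf k he => hs.xK (by rw [← he]; exact h.a.DK f hf k)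
  have hinj := h.a.winj
  refine ⟨by omega, ?_, ?_, ?_, ?_, ?_, ?_, ?_, ?_, ?_⟩
  · rw [hs.w1 0 (Nat.zero_le p)]; exact h.a.w0
  · have h5 := hs.w3 m e3 le_rfl
    have h6 : m + p + 2 - q = m' := by omega
    rw [h6] at h5
    rw [h5]; exact h.a.wm
  · intro i j hi hj hij
    rcases csa_w hs i hi with ⟨a1, a2⟩ | ⟨a1, a2⟩ | ⟨a, a1, a2, a3, a4⟩ <;>
    rcases csa_w hs j hj with ⟨b1, b2⟩ | ⟨b1, b2⟩ | ⟨b, b1, b2, b3, b4⟩
    · rw [a2, b2] at hij
      exact hinj i j (by omega) (by omega) hij
    · rw [a2, b2] at hij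
      exact absurd hij (hxw i (by omega))
    · rw [a2, b4] at hij
      have := hinj i b (by omega) (by omega) hij
      omega
    · rw [a2, b2] at hij
      exact absurd hij.symm (hxw j (by omega))
    · omega
    · rw [a2, b4] at hij
      exact absurd hij.symm (hxw b (by omega))
    · rw [a4, b2] at hij
      have := hinj a j (by omega) (by omega) hij
      omega
    · rw [a4, b2] at hij
      exact absurd hij (hxw a (by omega))
    · rw [a4, b4] at hij
      have := hinj a b (by omega) (by omega) hij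
      omega
  · intro i hi
    rw [Finset.mem_insert]
    rcases csa_w hs i hi with ⟨a1, a2⟩ | ⟨a1, a2⟩ | ⟨a, a1, a2, a3, a4⟩
    · rw [a2]; exact Or.inr (h.a.wK i (by omega))
    · exact Or.inl a2
    · rw [a4]; exact Or.inr (h.a.wK a a2)
  · intro f hf k
    rw [Finset.mem_insert]
    rcases csa_mem.mp hf with hf | ⟨l, l1, l2, rfl⟩
    · exact Or.inr (h.a.DK f hf k)
    · fin_cases k
      · exact Or.inl rfl
      · exact Or.inr (h.a.wK l (by omega))
      · exact Or.inr (h.a.wK (l + 1) (by omega))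
  · have hdisj : Disjoint D (newf w p q x) := by
      rw [Finset.disjoint_left]
      intro f hf hf2
      unfold newf at hf2
      rw [Finset.mem_image] at hf2
      obtain ⟨l, _, rfl⟩ := hf2
      exact hxD _ hf 0 rfl
    have hcard : (newf w p q x).card = q - p := by
      unfold newf
      rw [Finset.card_image_of_injOn, Nat.card_Ico]
      intro a ha b hb hab
      rw [Finset.coe_Ico, Set.mem_Ico] at ha hb
      have h7 : w a = w b := congrArg (fun t : V × V × V => t.2.1) hab
      exact hinj a b (by omega) (by omega) h7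
    rw [Finset.card_union_of_disjoint hdisj, Finset.card_insert_of_notMem hs.xK, hcard]
    have := h.a.count
    omega
  · intro f hf f' hf' i j hij hi hj
    have key : ∀ g ∈ D, ∀ l, p ≤ l → l < q → (lab g 1 = w l → lab g 2 = w (l + 1) → False) := by
      intro g hg l l1 l2 h1 h2
      exact h.a.S2 l (by omega) g hg ⟨h1, h2⟩
    have key2 : ∀ g ∈ D, ∀ l, p ≤ l → l < q → lab g i = lab (x, w l, w (l + 1)) i →
        lab g j = lab (x, w l, w (l + 1)) j → False := by
      intro g hg l l1 l2 h1 h2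
      have n0 : i ≠ 0 := by
        rintro rfl
        exact hxD g hg 0 h1
      have n1 : j ≠ 0 := by
        rintro rfl
        exact hxD g hg 0 h2
      have h12 : (i = 1 ∧ j = 2) ∨ (i = 2 ∧ j = 1) := by
        revert n0 n1 hij
        clear h1 h2 hi hj
        revert i j
        decide
      rcases h12 with ⟨rfl, rfl⟩ | ⟨rfl, rfl⟩
      · exact key g hg l l1 l2 h1 h2
      · exact key g hg l l1 l2 h2 h1
    rcases csa_mem.mp hf with hf | ⟨a, a1, a2, rfl⟩ <;> rcases csa_mem.mp hf' with hf' | ⟨b, b1, b2, rfl⟩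
    · exact h.a.S1 f hf f' hf' i j hij hi hj
    · exact (key2 f hf b b1 b2 hi hj).elim
    · exact (key2 f' hf' a a1 a2 hi.symm hj.symm).elim
    · have hab : a = b := by
        have one : ∀ k : Fin 3, k ≠ 0 → lab (x, w a, w (a + 1)) k = lab (x, w b, w (b + 1)) k → a = b := by
          intro k hk hk2
          have hk3 : k = 1 ∨ k = 2 := by
            clear hk2
            revert k
            decide
          rcases hk3 with rfl | rfl
          · exact hinj a b (by omega) (by omega) hk2
          · have := hinj (a + 1) (b + 1) (by omega) (by omega) hk2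
            omega
        by_cases hi0 : i = 0
        · exact one j (fun hj0 => hij (hi0.trans hj0.symm)) hj
        · exact one i hi0 hi
      rw [hab]
  · intro i hi f hf
    rintro ⟨h1, h2⟩
    rcases csa_e hs i hi with ⟨a, a1, a2, a3, a4⟩ | ⟨a3, a4⟩ | ⟨a3, a4⟩
    · rw [a3] at h1
      rw [a4] at h2
      rcases csa_mem.mp hf with hf | ⟨l, l1, l2, rfl⟩
      · exact h.a.S2 a a1 f hf ⟨h1, h2⟩
      · have := hinj l a (by omega) (by omega) h1
        omega
    · rw [a4] at h2
      rcases csa_mem.mp hf with hf | ⟨l, l1, l2, rfl⟩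
      · exact hxD f hf 2 h2
      · exact hxw (l + 1) (by omega) h2
    · rw [a3] at h1
      rcases csa_mem.mp hf with hf | ⟨l, l1, l2, rfl⟩
      · exact hxD f hf 1 h1
      · exact hxw l (by omega) h1
  · intro i hi f hf f' hf' hk1 hk2 hk3 hk4
    -- positions of path vertices in new faces
    have pos : ∀ l, p ≤ l → l < q → ∀ a, a ≤ m → (∃ k, lab (x, w l, w (l + 1)) k = w a) → a = l ∨ a = l + 1 := by
      intro l l1 l2 a ha hk
      obtain ⟨k, hk⟩ := hk
      have hk3 : k = 0 ∨ k = 1 ∨ k = 2 := by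
        clear hk
        revert k
        decide
      rcases hk3 with rfl | rfl | rfl
      · exact absurd hk.symm (hxw a ha)
      · exact Or.inl (hinj a l ha (by omega) hk.symm)
      · exact Or.inr (hinj a (l + 1) ha (by omega) hk.symm)
    rcases csa_e hs i hi with ⟨a, a1, a2, a3, a4⟩ | ⟨a3, a4⟩ | ⟨a3, a4⟩
    · rw [a3] at hk1 hk3
      rw [a4] at hk2 hk4
      have old : ∀ g ∈ D ∪ newf w p q x, (∃ k, lab g k = w a) → (∃ k, lab g k = w (a + 1)) → g ∈ D := by
        intro g hg g1 g2
        rcases csa_mem.mp hg with hg | ⟨l, l1, l2, rfl⟩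
        · exact hg
        · have p1 := pos l l1 l2 a (by omega) g1
          have p2 := pos l l1 l2 (a + 1) (by omega) g2
          omega
      exact h.a.S2' a a1 f (old f hf hk1 hk2) f' (old f' hf' hk3 hk4) hk1 hk2 hk3 hk4
    · rw [a3] at hk1 hk3
      rw [a4] at hk2 hk4
      have new : ∀ g ∈ D ∪ newf w p q x, (∃ k, lab g k = w p) → (∃ k, lab g k = x) →
          g = (x, w p, w (p + 1)) := by
        intro g hg g1 g2
        rcases csa_mem.mp hg with hg | ⟨l, l1, l2, rfl⟩
        · obtain ⟨k, hk⟩ := g2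
          exact absurd hk (hxD g hg k)
        · have p1 := pos l l1 l2 p (by omega) g1
          have : l = p := by omega
          rw [this]
      rw [new f hf hk1 hk2, new f' hf' hk3 hk4]
    · rw [a3] at hk1 hk3
      rw [a4] at hk2 hk4
      have new : ∀ g ∈ D ∪ newf w p q x, (∃ k, lab g k = x) → (∃ k, lab g k = w q) →
          g = (x, w (q - 1), w (q - 1 + 1)) := by
        intro g hg g1 g2
        rcases csa_mem.mp hg with hg | ⟨l, l1, l2, rfl⟩
        · obtain ⟨k, hk⟩ := g1
          exact absurd hk (hxD g hg k)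
        · have p1 := pos l l1 l2 q (by omega) g2
          have : l = q - 1 := by omega
          rw [this]
      rw [new f hf hk1 hk2, new f' hf' hk3 hk4]

omit [DecidableEq V] in
theorem csa_par_x1 {d : CDat V} {w : ℕ → V} {p q : ℕ} {x : V} : (d.upd w p q x).par x 1 = w p := by
  simp [CDat.upd]

omit [DecidableEq V] in
theorem csa_par_x2 {d : CDat V} {w : ℕ → V} {p q : ℕ} {x : V} : (d.upd w p q x).par x 2 = w q := by
  simp [CDat.upd]

omit [DecidableEq V] in
theorem csa_par_c {d : CDat V} {w : ℕ → V} {p q : ℕ} {x v : V} (hv : v ≠ x) {c : Fin 3} (hc : c ≠ 0) :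
    (d.upd w p q x).par v c = d.par v c := by
  simp [CDat.upd, hv, hc]

omit [DecidableEq V] in
theorem csa_par_0 {d : CDat V} {w : ℕ → V} {p q : ℕ} {x v : V} (hv : v ≠ x)
    (hc : ∃ s, p < s ∧ s < q ∧ w s = v) : (d.upd w p q x).par v 0 = x := by
  unfold CDat.upd
  dsimp only
  rw [if_neg hv, if_pos ⟨rfl, hc⟩]

omit [DecidableEq V] in
theorem csa_par_0' {d : CDat V} {w : ℕ → V} {p q : ℕ} {x v : V} (hv : v ≠ x)
    (hc : ¬ ∃ s, p < s ∧ s < q ∧ w s = v) : (d.upd w p q x).par v 0 = d.par v 0 := by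
  unfold CDat.upd
  dsimp only
  rw [if_neg hv, if_neg (fun h => hc h.2)]

theorem step_PB {r1 r2 : V} {m : ℕ} {w : ℕ → V} {D : Finset (V × V × V)} {K : Finset V} {d : CDat V}
    (h : CInv r1 r2 m w D K d) {p q : ℕ} {x : V} {m' : ℕ} {w' : ℕ → V} (hs : Step m w K p q x m' w') :
    PB r1 r2 m' w' (insert x K) (d.upd w p q x) := by
  have e1 := hs.hm'
  have e2 := hs.pq
  have e3 := hs.qm
  intro v hv hv1 hv2
  rw [Finset.mem_insert] at hv
  rcases hv with rfl | hv
  · refine ⟨?_, ?_, ?_⟩
    · rw [csa_par_x1]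
      exact Finset.mem_insert_of_mem (h.a.wK p (by omega))
    · rw [csa_par_x2]
      exact Finset.mem_insert_of_mem (h.a.wK q (by omega))
    · intro hoff
      exact absurd hs.w2 (hoff (p + 1) (by omega))
  · have hvx : v ≠ x := by
      rintro rfl
      exact hs.xK hv
    obtain ⟨b1, b2, b3⟩ := h.b v hv hv1 hv2
    refine ⟨?_, ?_, ?_⟩
    · rw [csa_par_c hvx (by decide)]
      exact Finset.mem_insert_of_mem b1
    · rw [csa_par_c hvx (by decide)]
      exact Finset.mem_insert_of_mem b2
    · intro hoff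
      by_cases hc : ∃ s, p < s ∧ s < q ∧ w s = v
      · rw [csa_par_0 hvx hc]
        exact Finset.mem_insert_self x K
      · rw [csa_par_0' hvx hc]
        apply Finset.mem_insert_of_mem
        apply b3
        intro i hi he
        rcases le_or_gt i p with h4 | h4
        · exact hoff i (by omega) ((hs.w1 i h4).trans he)
        · rcases lt_or_ge i q with h5 | h5
          · exact hc ⟨i, h4, h5, he⟩
          · exact hoff (i + p + 2 - q) (by omega) ((hs.w3 i h5 hi).trans he)

theorem step_PS3 {r1 r2 : V} {m : ℕ} {w : ℕ → V} {D : Finset (V × V × V)} {K : Finset V} {d : CDat V}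
    (h : CInv r1 r2 m w D K d) {p q : ℕ} {x : V} {m' : ℕ} {w' : ℕ → V} (hs : Step m w K p q x m' w') :
    PS3 r1 r2 m' w' (D ∪ newf w p q x) (insert x K) (d.upd w p q x) := by
  have e1 := hs.hm'
  have e2 := hs.pq
  have e3 := hs.qm
  have hxw : ∀ i, i ≤ m → w i ≠ x := fun i hi he => hs.xK (by rw [← he]; exact h.a.wK i hi)
  have hinj := h.a.winj
  have hx1 : x ≠ r1 := fun he => hxw 0 (by omega) (h.a.w0.trans he.symm)
  have hx2 : x ≠ r2 := fun he => hxw m le_rfl (h.a.wm.trans he.symm)
  have hxin : x ∈ insert x K := Finset.mem_insert_self x K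
  -- removed path vertices are off the new path
  have hoff : ∀ s, p < s → s < q → Off m' w' (w s) := by
    intro s s1 s2 i hi he
    rcases csa_w hs i hi with ⟨a1, a2⟩ | ⟨a1, a2⟩ | ⟨a, a1, a2, a3, a4⟩
    · have := hinj i s (by omega) (by omega) (a2.symm.trans he)
      omega
    · exact hxw s (by omega) (he.symm.trans a2)
    · have := hinj a s (by omega) (by omega) (a4.symm.trans he)
      omega
  have hint : ∀ s, p < s → s < q → w s ≠ r1 ∧ w s ≠ r2 := by
    intro s s1 s2
    constructor
    · intro he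
      have := hinj s 0 (by omega) (by omega) (he.trans h.a.w0.symm)
      omega
    · intro he
      have := hinj s m (by omega) (by omega) (he.trans h.a.wm.symm)
      omega
  intro f hf k
  rcases csa_mem.mp hf with hf | ⟨j, j1, j2, rfl⟩
  · rcases h.s3 f hf k with h0 | ⟨v, c, hv, hv1, hv2, hc, hlab⟩
    · exact Or.inl h0
    · have hvx : v ≠ x := by
        rintro rfl
        exact hs.xK hv
      refine Or.inr ⟨v, c, Finset.mem_insert_of_mem hv, hv1, hv2, ?_, ?_⟩
      · rcases hc with hc | hc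
        · exact Or.inl hc
        · refine Or.inr ?_
          intro i hi he
          rcases csa_w hs i hi with ⟨a1, a2⟩ | ⟨a1, a2⟩ | ⟨a, a1, a2, a3, a4⟩
          · exact hc i (by omega) (a2.symm.trans he)
          · exact hvx (he.symm.trans a2)
          · exact hc a (by omega) (a4.symm.trans he)
      · have hpar : (d.upd w p q x).par v c = d.par v c := by
          by_cases hc0 : c = 0
          · subst hc0
            apply csa_par_0' hvx
            rintro ⟨s, s1, s2, s3⟩
            rcases hc with hc | hc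
            · exact hc rfl
            · exact hc s (by omega) s3
          · exact csa_par_c hvx hc0
        rw [hpar]
        exact hlab
  · have hk3 : k = 0 ∨ k = 1 ∨ k = 2 := by
      clear hf
      revert k
      decide
    rcases hk3 with rfl | rfl | rfl
    · rcases h.s4 with ⟨_, hm1⟩ | hty
      · left
        have hj0 : j = 0 := by omega
        subst hj0
        refine ⟨rfl, h.a.w0, ?_⟩
        have := h.a.wm
        rw [hm1] at this
        exact this
      · rcases hty j (by omega) with ⟨t1, t2, t3, _⟩ | ⟨t1, t2, t3, _⟩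
        · refine Or.inr ⟨w (j + 1), 1, Finset.mem_insert_of_mem (h.a.wK (j + 1) (by omega)), t1, t2,
            Or.inl (by decide), Or.inr ⟨rfl, rfl, ?_⟩⟩
          rw [csa_par_c (hxw (j + 1) (by omega)) (by decide), t3]
          rfl
        · refine Or.inr ⟨w j, 2, Finset.mem_insert_of_mem (h.a.wK j (by omega)), t1, t2,
            Or.inl (by decide), Or.inl ⟨rfl, rfl, ?_⟩⟩
          rw [csa_par_c (hxw j (by omega)) (by decide), t3]
          rfl
    · right
      by_cases hjq : j + 1 < q
      · refine ⟨w (j + 1), 0, Finset.mem_insert_of_mem (h.a.wK (j + 1) (by omega)),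
          (hint (j + 1) (by omega) hjq).1, (hint (j + 1) (by omega) hjq).2,
          Or.inr (hoff (j + 1) (by omega) hjq), Or.inl ⟨rfl, rfl, ?_⟩⟩
        rw [csa_par_0 (hxw (j + 1) (by omega)) ⟨j + 1, by omega, hjq, rfl⟩]
        rfl
      · have hjq2 : j + 1 = q := by omega
        refine ⟨x, 2, hxin, hx1, hx2, Or.inl (by decide), Or.inr ⟨rfl, rfl, ?_⟩⟩
        rw [csa_par_x2, ← hjq2]
        rfl
    · right
      by_cases hjp : p < j
      · refine ⟨w j, 0, Finset.mem_insert_of_mem (h.a.wK j (by omega)),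
          (hint j hjp j2).1, (hint j hjp j2).2,
          Or.inr (hoff j hjp j2), Or.inr ⟨rfl, rfl, ?_⟩⟩
        rw [csa_par_0 (hxw j (by omega)) ⟨j, hjp, j2, rfl⟩]
        rfl
      · have hjp2 : j = p := by omega
        refine ⟨x, 1, hxin, hx1, hx2, Or.inl (by decide), Or.inl ⟨rfl, rfl, ?_⟩⟩
        rw [csa_par_x1, ← hjp2]
        rfl

end MP0e5907
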