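import Mathlib

/-!
# Piece CONE: positively turning closed polygons cover all directions

`cr u v = u.1 * v.2 - u.2 * v.1`. Statement `cone_cover`: `I` finite nonempty, `τ : I → I` injective, `u : I → ℝ × ℝ` with `cr (u i) (u (τ i)) > 0` for all
`i`. Then every vector `d` is of the form `α u i + β u (τ i)` with `α, β ≥ 0`.

Paper proof. `d = 0`: take `α = β = 0`. Let `d ≠ 0`, `s i = cr d (u i)`, `q i = d.1 * (u i).1 + d.2 * (u i).2`, `D = |d|^2 > 0`.
Identities: `D * cr (u i) (u j) = q i * s j - s i * q j`, and `cr u v • d = cr d v • u - cr d u • v` (componentwise, `ring`).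
(1) If some `i` has `s i < 0 ≤ s (τ i)`: `d = (s (τ i) / c) u i + (- s i / c) u (τ i)` with `c = cr (u i) (u (τ i)) > 0`. Done.
(2) If some `i` has `s i = 0` and `q i > 0`: `u i = (q i / D) d`, so `d = (D / q i) u i + 0`. Done.
(3) Otherwise `s i < 0` implies `s (τ i) < 0`. Let `I⁻ = {i : s i < 0}`; `τ` maps `I⁻` injectively into itself.
 If `I⁻` is nonempty: on `I⁻` put `ρ i = q i / s i`. `D cr (u i) (u (τ i)) = q i s(τ i) - s i q(τ i) > 0`, divide by `s i * s (τ i) > 0`: `ρ i > ρ (τ i)`. But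
 `τ` is a permutation of the finite set `I⁻`, so `∑_{I⁻} ρ i = ∑_{I⁻} ρ (τ i) < ∑_{I⁻} ρ i`. Contradiction (or take `i ∈ I⁻` minimising `ρ`: `ρ (τ i) < ρ i`,
 contradiction to minimality at once - no permutation needed).
 If `I⁻` is empty: all `s i ≥ 0`. If some `s i = 0`, then `q i ≤ 0` (not (2)), `q i ≠ 0` (since `u i ≠ 0`: `cr (u i) _ ≠ 0`), so `q i < 0` and
 `0 < D cr (u i) (u (τ i)) = q i s (τ i)` gives `s (τ i) < 0`, contradiction. So all `s i > 0` and `ρ i = q i / s i` strictly decreases along `τ` on the finite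
 nonempty set `I`: contradiction at a minimiser.
(So injectivity of `τ` is not needed.)
-/

namespace MP0e5907

/-- cross product in the plane -/
def cr (u v : ℝ × ℝ) : ℝ := u.1 * v.2 - u.2 * v.1

private lemma cone_id (d u v : ℝ × ℝ) :
    cr u v • d = cr d v • u - cr d u • v := by
  ext
  · simp only [cr, Prod.smul_fst, Prod.fst_sub, smul_eq_mul]; ring
  · simp only [cr, Prod.smul_snd, Prod.snd_sub, smul_eq_mul]; ring

private lemma cone_id2 (d u v : ℝ × ℝ) :
    (d.1 * d.1 + d.2 * d.2) * cr u v =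
      (d.1 * u.1 + d.2 * u.2) * cr d v - cr d u * (d.1 * v.1 + d.2 * v.2) := by
  simp only [cr]; ring

theorem cone_cover {I : Type} [Finite I] [Nonempty I] (τ : I → I) (u : I → ℝ × ℝ)
    (h : ∀ i, 0 < cr (u i) (u (τ i))) (d : ℝ × ℝ) :
    ∃ (i : I) (α β : ℝ), 0 ≤ α ∧ 0 ≤ β ∧ d = α • u i + β • u (τ i) := by
  by_cases hd : d = 0
  · obtain ⟨i⟩ := ‹Nonempty I›
    exact ⟨i, 0, 0, le_rfl, le_rfl, by simp [hd]⟩
  have hD : 0 < d.1 * d.1 + d.2 * d.2 := by
    by_contra hcon
    have h1 : d.1 = 0 := by nlinarith [mul_self_nonneg d.1, mul_self_nonneg d.2]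
    have h2 : d.2 = 0 := by nlinarith [mul_self_nonneg d.1, mul_self_nonneg d.2]
    exact hd (Prod.ext h1 h2)
  by_cases h1 : ∃ i, cr d (u i) < 0 ∧ 0 ≤ cr d (u (τ i))
  · obtain ⟨i, hi, hi'⟩ := h1
    have hc := h i
    refine ⟨i, cr d (u (τ i)) / cr (u i) (u (τ i)), (-cr d (u i)) / cr (u i) (u (τ i)),
      div_nonneg hi' hc.le, div_nonneg (by linarith) hc.le, ?_⟩
    have hid := cone_id d (u i) (u (τ i))
    have e1 := congrArg Prod.fst hid
    have e2 := congrArg Prod.snd hid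
    simp only [Prod.fst_sub, Prod.smul_fst, Prod.snd_sub, Prod.smul_snd, smul_eq_mul] at e1 e2
    ext
    · simp only [Prod.fst_add, Prod.smul_fst, smul_eq_mul]
      rw [div_mul_eq_mul_div, div_mul_eq_mul_div, ← add_div, eq_div_iff hc.ne']
      linear_combination e1
    · simp only [Prod.snd_add, Prod.smul_snd, smul_eq_mul]
      rw [div_mul_eq_mul_div, div_mul_eq_mul_div, ← add_div, eq_div_iff hc.ne']
      linear_combination e2
  by_cases h2 : ∃ i, cr d (u i) = 0 ∧ 0 < d.1 * (u i).1 + d.2 * (u i).2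
  · obtain ⟨i, hi, hi'⟩ := h2
    refine ⟨i, (d.1 * d.1 + d.2 * d.2) / (d.1 * (u i).1 + d.2 * (u i).2), 0,
      div_nonneg hD.le hi'.le, le_rfl, ?_⟩
    rw [zero_smul, add_zero]
    have hcr : d.1 * (u i).2 - d.2 * (u i).1 = 0 := hi
    ext
    · simp only [Prod.smul_fst, smul_eq_mul]
      rw [div_mul_eq_mul_div, eq_div_iff hi'.ne']
      linear_combination d.2 * hcr
    · simp only [Prod.smul_snd, smul_eq_mul]
      rw [div_mul_eq_mul_div, eq_div_iff hi'.ne']
      linear_combination -d.1 * hcr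
  exfalso
  push Not at h1 h2
  by_cases h3 : ∃ i, cr d (u i) < 0
  · obtain ⟨i, hi, hmin⟩ := Set.exists_min_image {i | cr d (u i) < 0}
      (fun i => (d.1 * (u i).1 + d.2 * (u i).2) / cr d (u i)) (Set.toFinite _) h3
    have hi1 : cr d (u i) < 0 := hi
    have hi2 := h1 i hi1
    have hm := hmin (τ i) hi2
    have hid := cone_id2 d (u i) (u (τ i))
    have hpos := mul_pos hD (h i)
    have hss : 0 < cr d (u i) * cr d (u (τ i)) := mul_pos_of_neg_of_neg hi1 hi2
    have e1 : (d.1 * (u (τ i)).1 + d.2 * (u (τ i)).2) / cr d (u (τ i)) -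
        (d.1 * (u i).1 + d.2 * (u i).2) / cr d (u i) =
        -((d.1 * d.1 + d.2 * d.2) * cr (u i) (u (τ i))) / (cr d (u i) * cr d (u (τ i))) := by
      rw [hid]
      field_simp [hi1.ne, hi2.ne]
      ring
    have e2 : -((d.1 * d.1 + d.2 * d.2) * cr (u i) (u (τ i))) / (cr d (u i) * cr d (u (τ i))) < 0 :=
      div_neg_of_neg_of_pos (by linarith) hss
    linarith
  · push Not at h3
    have h4 : ∀ i, 0 < cr d (u i) := by
      intro i
      rcases (h3 i).lt_or_eq with h5 | h5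
      · exact h5
      exfalso
      have h6 := h2 i h5.symm
      have hid := cone_id2 d (u i) (u (τ i))
      rw [← h5, zero_mul, sub_zero] at hid
      have hpos := mul_pos hD (h i)
      have h7 := h3 (τ i)
      rw [hid] at hpos
      nlinarith [mul_nonneg (sub_nonneg.2 h6) h7]
    obtain ⟨i, hmin⟩ := Finite.exists_min (fun i => (d.1 * (u i).1 + d.2 * (u i).2) / cr d (u i))
    have hi1 := h4 i
    have hi2 := h4 (τ i)
    have hm := hmin (τ i)
    have hid := cone_id2 d (u i) (u (τ i))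
    have hpos := mul_pos hD (h i)
    have hss : 0 < cr d (u i) * cr d (u (τ i)) := mul_pos hi1 hi2
    have e1 : (d.1 * (u (τ i)).1 + d.2 * (u (τ i)).2) / cr d (u (τ i)) -
        (d.1 * (u i).1 + d.2 * (u i).2) / cr d (u i) =
        -((d.1 * d.1 + d.2 * d.2) * cr (u i) (u (τ i))) / (cr d (u i) * cr d (u (τ i))) := by
      rw [hid]
      field_simp [hi1.ne', hi2.ne']
      ring
    have e2 : -((d.1 * d.1 + d.2 * d.2) * cr (u i) (u (τ i))) / (cr d (u i) * cr d (u (τ i))) < 0 :=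
      div_neg_of_neg_of_pos (by linarith) hss
    linarith

end MP0e5907
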