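import Pool.Agent.Lib_MP_0e5907.CBase

/-!
# MP_0e5907, Stage B, part 2 - abstract triangulated triangles and the states of the reverse canonical ordering
-/

namespace MP0e5907

open Finset

/-- the underlying vertex set of a labelled face -/
def fset {V : Type} [DecidableEq V] (f : V × V × V) : Finset V := {f.1, f.2.1, f.2.2}

section

variable {V : Type} [Fintype V] [DecidableEq V]

/-- combinatorial triangulation of a triangle: `FF` = set of faces (3-element sets), `r 0, r 1, r 2` = corners -/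
structure ATC (r : Fin 3 → V) (FF : Finset (Finset V)) : Prop where
  rinj : Function.Injective r
  card3 : ∀ g ∈ FF, g.card = 3
  covered : ∀ v, ∃ g ∈ FF, v ∈ g
  inner : ∀ a b, a ≠ b → (∃ g ∈ FF, a ∈ g ∧ b ∈ g) → ¬ ((∃ i, a = r i) ∧ ∃ j, b = r j) →
    (FF.filter fun g => a ∈ g ∧ b ∈ g).card = 2
  outer : ∀ i j, i ≠ j → (FF.filter fun g => r i ∈ g ∧ r j ∈ g).card = 1
  link : ∀ u, ∀ B, B ⊆ FF → B.Nonempty → (∀ g ∈ B, u ∈ g) →
    (∀ g ∈ B, ∀ g' ∈ FF, u ∈ g' → (∃ a, a ≠ u ∧ a ∈ g ∧ a ∈ g') → g' ∈ B) → ∀ g ∈ FF, u ∈ g → g ∈ B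
  inj : ∀ A, A ⊆ FF → (∀ a b, a ≠ b → Even (A.filter fun g => a ∈ g ∧ b ∈ g).card) → A = ∅
  Z : ∀ E : V → V → Prop, (∀ a b, E a b → E b a) → (∀ a b, E a b → a ≠ b ∧ ∃ g ∈ FF, a ∈ g ∧ b ∈ g) →
    (∀ a, Even (Nat.card {b // E a b})) →
    ∃ A, A ⊆ FF ∧ ∀ a b, a ≠ b → (E a b ↔ Odd (A.filter fun g => a ∈ g ∧ b ∈ g).card)

/-- `{a,b}` is an edge of the path `w 0, ..., w m` -/
def PEdge (m : ℕ) (w : ℕ → V) (a b : V) : Prop :=
  ∃ i, i < m ∧ ((a = w i ∧ b = w (i + 1)) ∨ (b = w i ∧ a = w (i + 1)))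

/-- `{a,b}` is the base edge `{r 1, r 2}` -/
def BEdge (r : Fin 3 → V) (a b : V) : Prop := (a = r 1 ∧ b = r 2) ∨ (b = r 1 ∧ a = r 2)

/-- the set of faces `D` is the part of the triangulation below the path `w 0, ..., w m` -/
structure DState (r : Fin 3 → V) (FF : Finset (Finset V)) (m : ℕ) (w : ℕ → V) (D : Finset (Finset V)) : Prop where
  hm : 1 ≤ m
  w0 : w 0 = r 1
  wm : w m = r 2
  winj : ∀ i j, i ≤ m → j ≤ m → w i = w j → i = j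
  sub : D ⊆ FF
  bdry : ∀ a b, a ≠ b → (Odd (D.filter fun g => a ∈ g ∧ b ∈ g).card ↔
    ((PEdge m w a b ∧ ¬ BEdge r a b) ∨ (¬ PEdge m w a b ∧ BEdge r a b)))
  Z : ∀ E : V → V → Prop, (∀ a b, E a b → E b a) → (∀ a b, E a b → a ≠ b ∧ ∃ g ∈ D, a ∈ g ∧ b ∈ g) →
    (∀ a, Even (Nat.card {b // E a b})) →
    ∃ A, A ⊆ D ∧ ∀ a b, a ≠ b → (E a b ↔ Odd (A.filter fun g => a ∈ g ∧ b ∈ g).card)

/-- a fan at `u`: all faces of `D` containing `u` are `{u, n i, n (i+1)}`, `i < k` -/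
structure Fan (D : Finset (Finset V)) (u : V) (k : ℕ) (n : ℕ → V) : Prop where
  hk : 1 ≤ k
  ninj : ∀ i j, i ≤ k → j ≤ k → n i = n j → i = j
  nu : ∀ i, i ≤ k → n i ≠ u
  mem : ∀ i, i < k → ({u, n i, n (i + 1)} : Finset V) ∈ D
  all : ∀ g ∈ D, u ∈ g → ∃ i, i < k ∧ g = {u, n i, n (i + 1)}

end

end MP0e5907
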