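import Pool.Agent.Lib_MP_0e5907.DFan

/-!
# Piece DCHORD: existence of a chordless interior vertex of the path

Paper proof.
* `path_fan`: let `2 ≤ m`. For `0 < l < m` the boundary edges of `D` at `u = w l` are `{u, w (l-1)}`, `{u, w (l+1)}` (`bdry`; `u` is not `r 1, r 2`), so `fan_exists` gives a fan from `w (l-1)` to `w (l+1)`. For `l = 0`: the boundary edges at `w 0 = r 1` are `{w 0, w 1}` and the base edge `{w 0, w m}` (`m ≥ 2`, so the base edge is not a path edge), fan
  from `w 1` to `w m`. For `l = m`: fan from `w (m-1)` to `w 0`. So for every `l ≤ m` there is a fan at `w l` whose end points `a, b` are `≠` and are exactly the `c` with `{w l, c}` a boundary edge.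
* `fan_side`: let `A ⊆ D`, `n` a fan at `u` in `D`, and suppose that the number of faces of `A` containing `u, n i` is even for all `0 < i < k`. Then either all faces of `D` at `u` are in `A` or none: for `0 < i < k` exactly two faces of `D` contain `u, n i` (`{u, n (i-1), n i}`, `{u, n i, n (i+1)}`), so both or none are in `A`. Moreover all are in `A` iff the number
  of faces of `A` containing `u, n 0` is odd (the only face of `D` containing `u, n 0` is `{u, n 0, n 1}`).
* `chordless_exists`: call `(i,j)` a chord if `i + 2 ≤ j ≤ m`, `(i,j) ≠ (0,m)` and some `g ∈ D` contains `w i` and `w j`. If there is no chord take `s = 1`. Otherwise choose a chord with `j - i` minimal and `s = i + 1`. Let `E` be the relation: `{a,b}` is `{w l, w (l+1)}`, `i ≤ l < j`, or `{w i, w j}`. It is symmetric, contained in edges of `D` (path edges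
  `{w l, w (l+1)}` are in a face of `D` by `bdry`, since they are not the base edge as `m ≥ 2`), every vertex `w l`, `i ≤ l ≤ j`, has exactly two `E`-neighbours (distinct: `j ≥ i+2`), other vertices none. `DState.Z` gives `A ⊆ D`.
  Suppose `s` is not chordless: some `g ∈ D` contains `w s` and `w l`, `l ∉ {s-1, s, s+1}`. If `i ≤ l ≤ j`, then `{s,l}` is a chord with smaller difference (it is not `(0,m)` since `0 < s < m`), contradiction to minimality. So `l < i` or `l > j`. At `u = w s`, `i < s < j`: all interior fan edges are not in `E` (the `E`-neighbours of `w s` are `w (s-1)`, `w (s+1)`, the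
  ends of the fan) so by `fan_side` all faces of `D` at `w s` are in `A` (`{w s, w (s-1)}` is in `E`: odd). So `g ∈ A`. At `u = w l`: no `E`-edge at `w l`, so no face of `D` at `w l` is in `A` (number of faces of `A` containing `w l, n 0` is even). But `g ∈ A`. Contradiction.
-/

namespace MP0e5907

open Finset

variable {V : Type} [Fintype V] [DecidableEq V]

theorem pedge_iff (m : ℕ) (w : ℕ → V) (winj : ∀ i j, i ≤ m → j ≤ m → w i = w j → i = j) (l : ℕ) (hl : l ≤ m) (c : V) :
    PEdge m w (w l) c ↔ ((l < m ∧ c = w (l + 1)) ∨ (0 < l ∧ c = w (l - 1))) := by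
  constructor
  · rintro ⟨i, hi, ⟨h1, h2⟩ | ⟨h1, h2⟩⟩
    · have := winj l i hl hi.le h1
      subst this
      exact Or.inl ⟨hi, h2⟩
    · have := winj l (i + 1) hl (by omega) h2
      subst this
      exact Or.inr ⟨by omega, by simpa using h1⟩
  · rintro (⟨h1, h2⟩ | ⟨h1, h2⟩)
    · exact ⟨l, h1, Or.inl ⟨rfl, h2⟩⟩
    · exact ⟨l - 1, by omega, Or.inr ⟨h2, by rw [Nat.sub_add_cancel h1]⟩⟩

theorem bedge_iff (r : Fin 3 → V) (m : ℕ) (w : ℕ → V) (w0 : w 0 = r 1) (wm : w m = r 2)
    (winj : ∀ i j, i ≤ m → j ≤ m → w i = w j → i = j) (l : ℕ) (hl : l ≤ m) (c : V) :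
    BEdge r (w l) c ↔ ((l = 0 ∧ c = w m) ∨ (l = m ∧ c = w 0)) := by
  unfold BEdge
  rw [← w0, ← wm]
  constructor
  · rintro (⟨h1, h2⟩ | ⟨h1, h2⟩)
    · exact Or.inl ⟨winj l 0 hl (Nat.zero_le _) h1, h2⟩
    · exact Or.inr ⟨winj l m hl le_rfl h2, h1⟩
  · rintro (⟨h1, h2⟩ | ⟨h1, h2⟩)
    · subst h1; exact Or.inl ⟨rfl, h2⟩
    · subst h1; exact Or.inr ⟨h2, rfl⟩

theorem path_fan (r : Fin 3 → V) (FF : Finset (Finset V)) (h : ATC r FF) (m : ℕ) (w : ℕ → V)
    (D : Finset (Finset V)) (hs : DState r FF m w D) (hm : 2 ≤ m) (l : ℕ) (hl : l ≤ m) :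
    ∃ (k : ℕ) (n : ℕ → V), Fan D (w l) k n ∧
      n 0 = (if l = 0 then w 1 else w (l - 1)) ∧ n k = (if l = 0 then w m else if l = m then w 0 else w (l + 1)) := by
  have winj := hs.winj
  have hodd : ∀ c, c ≠ w l → (Odd (D.filter fun g => w l ∈ g ∧ c ∈ g).card ↔
      (c = (if l = 0 then w 1 else w (l - 1)) ∨ c = (if l = 0 then w m else if l = m then w 0 else w (l + 1)))) := by
    intro c hc
    rw [hs.bdry (w l) c (Ne.symm hc), pedge_iff m w winj l hl c, bedge_iff r m w hs.w0 hs.wm winj l hl c]
    by_cases h0 : l = 0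
    · subst h0
      have hne : w 1 ≠ w m := fun e => by have := winj 1 m (by omega) le_rfl e; omega
      have hm0 : ¬ (0 = m) := by omega
      have hm1 : 0 < m := by omega
      simp only [hm0, hm1, true_and, false_and, or_false, lt_irrefl, if_true, zero_add]
      constructor
      · rintro (⟨h1, h2⟩ | ⟨h1, h2⟩)
        · exact Or.inl h1
        · exact Or.inr h2
      · rintro (h1 | h1)
        · refine Or.inl ⟨h1, ?_⟩
          rw [h1]; exact hne
        · refine Or.inr ⟨?_, h1⟩
          rw [h1]; exact hne.symm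
    · by_cases h1 : l = m
      · subst h1
        have hne : w (l - 1) ≠ w 0 := fun e => by have := winj (l - 1) 0 (by omega) (by omega) e; omega
        have hp : 0 < l := by omega
        simp only [h0, hp, true_and, false_and, false_or, lt_irrefl, if_true, if_false]
        constructor
        · rintro (⟨h1, h2⟩ | ⟨h1, h2⟩)
          · exact Or.inl h1
          · exact Or.inr h2
        · rintro (h1 | h1)
          · refine Or.inl ⟨h1, ?_⟩
            rw [h1]; exact hne
          · refine Or.inr ⟨?_, h1⟩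
            rw [h1]; exact hne.symm
      · have hp : 0 < l := by omega
        have hp' : l < m := by omega
        simp only [h0, h1, hp, hp', true_and, false_and, or_false, if_false, not_false_eq_true, and_true, and_false]
        exact or_comm
  refine fan_exists r FF h D hs.sub (w l) _ _ ?_ ?_ ?_ hodd
  · split_ifs with h1 h2
    · exact fun e => by have := winj 1 m (by omega) le_rfl e; omega
    · exact fun e => by have := winj (l - 1) 0 (by omega) (by omega) e; omega
    · exact fun e => by have := winj (l - 1) (l + 1) (by omega) (by omega) e; omega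
  · split_ifs with h1
    · exact fun e => by have := winj 1 l (by omega) hl e; omega
    · exact fun e => by have := winj (l - 1) l (by omega) hl e; omega
  · split_ifs with h1 h2
    · exact fun e => by have := winj m l le_rfl hl e; omega
    · exact fun e => by have := winj 0 l (by omega) hl e; omega
    · exact fun e => by have := winj (l + 1) l (by omega) hl e; omega

theorem fan_side (D A : Finset (Finset V)) (hA : A ⊆ D) (u : V) (k : ℕ) (n : ℕ → V) (hf : Fan D u k n)
    (hev : ∀ i, 0 < i → i < k → Even (A.filter fun g => u ∈ g ∧ n i ∈ g).card) :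
    (Odd (A.filter fun g => u ∈ g ∧ n 0 ∈ g).card → ∀ g ∈ D, u ∈ g → g ∈ A) ∧
    (Even (A.filter fun g => u ∈ g ∧ n 0 ∈ g).card → ∀ g ∈ D, u ∈ g → g ∉ A) := by
  have hmemF : ∀ i j, i ≤ k → j < k → (n i ∈ ({u, n j, n (j + 1)} : Finset V) ↔ (i = j ∨ i = j + 1)) := by
    intro i j hi hj
    simp only [Finset.mem_insert, Finset.mem_singleton]
    constructor
    · rintro (h1 | h1 | h1)
      · exact absurd h1 (hf.nu i hi)
      · exact Or.inl (hf.ninj i j hi hj.le h1)
      · exact Or.inr (hf.ninj i (j + 1) hi (by omega) h1)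
    · rintro (rfl | rfl)
      · exact Or.inr (Or.inl rfl)
      · exact Or.inr (Or.inr rfl)
  have huF : ∀ j, u ∈ ({u, n j, n (j + 1)} : Finset V) := fun j => by simp
  -- neighbouring faces
  have hstep : ∀ i, i + 1 < k → ((({u, n i, n (i + 1)} : Finset V) ∈ A) ↔ (({u, n (i + 1), n (i + 1 + 1)} : Finset V) ∈ A)) := by
    intro i hi
    have hev1 := hev (i + 1) (by omega) hi
    have hne : ({u, n i, n (i + 1)} : Finset V) ≠ {u, n (i + 1), n (i + 1 + 1)} := by
      intro e
      have h1 := (hmemF (i + 1 + 1) (i + 1) (by omega) (by omega)).2 (Or.inr rfl)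
      rw [← e, hmemF (i + 1 + 1) i (by omega) (by omega)] at h1
      omega
    have hset : ∀ g ∈ A, (u ∈ g ∧ n (i + 1) ∈ g) → g = {u, n i, n (i + 1)} ∨ g = {u, n (i + 1), n (i + 1 + 1)} := by
      rintro g hg ⟨h1, h2⟩
      obtain ⟨j, hj, rfl⟩ := hf.all g (hA hg) h1
      rw [hmemF (i + 1) j (by omega) hj] at h2
      rcases h2 with h2 | h2
      · subst h2; exact Or.inr rfl
      · have : j = i := by omega
        subst this; exact Or.inl rfl
    have hin1 : n (i + 1) ∈ ({u, n i, n (i + 1)} : Finset V) := by simp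
    have hin2 : n (i + 1) ∈ ({u, n (i + 1), n (i + 1 + 1)} : Finset V) := by simp
    constructor
    · intro h1
      by_contra h2
      have : (A.filter fun g => u ∈ g ∧ n (i + 1) ∈ g) = {({u, n i, n (i + 1)} : Finset V)} := by
        ext g
        simp only [Finset.mem_filter]
        rw [Finset.mem_singleton]
        constructor
        · rintro ⟨hg, hh⟩
          rcases hset g hg hh with e | e
          · exact e
          · rw [e] at hg; exact absurd hg h2
        · rintro rfl
          exact ⟨h1, huF i, hin1⟩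
      rw [this, Finset.card_singleton] at hev1
      exact absurd hev1 (by decide)
    · intro h1
      by_contra h2
      have : (A.filter fun g => u ∈ g ∧ n (i + 1) ∈ g) = {({u, n (i + 1), n (i + 1 + 1)} : Finset V)} := by
        ext g
        simp only [Finset.mem_filter]
        rw [Finset.mem_singleton]
        constructor
        · rintro ⟨hg, hh⟩
          rcases hset g hg hh with e | e
          · rw [e] at hg; exact absurd hg h2
          · exact e
        · rintro rfl
          exact ⟨h1, huF (i + 1), hin2⟩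
      rw [this, Finset.card_singleton] at hev1
      exact absurd hev1 (by decide)
  have hall : ∀ j, j < k → ((({u, n 0, n (0 + 1)} : Finset V) ∈ A) ↔ (({u, n j, n (j + 1)} : Finset V) ∈ A)) := by
    intro j
    induction j with
    | zero => intro _; exact Iff.rfl
    | succ j ih => intro hj; exact (ih (by omega)).trans (hstep j hj)
  have h0set : ∀ g ∈ A, (u ∈ g ∧ n 0 ∈ g) → g = {u, n 0, n (0 + 1)} := by
    rintro g hg ⟨h1, h2⟩
    obtain ⟨j, hj, rfl⟩ := hf.all g (hA hg) h1
    rw [hmemF 0 j (by omega) hj] at h2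
    have : j = 0 := by omega
    subst this; rfl
  have hk0 : n 0 ∈ ({u, n 0, n (0 + 1)} : Finset V) := by simp
  constructor
  · intro ho g hg hug
    have h0 : ({u, n 0, n (0 + 1)} : Finset V) ∈ A := by
      have hpos : 0 < (A.filter fun g => u ∈ g ∧ n 0 ∈ g).card := ho.pos
      obtain ⟨g', hg'⟩ := Finset.card_pos.1 hpos
      rw [Finset.mem_filter] at hg'
      have := h0set g' hg'.1 hg'.2
      rw [← this]; exact hg'.1
    obtain ⟨j, hj, rfl⟩ := hf.all g hg hug
    exact (hall j hj).1 h0
  · intro he g hg hug hgA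
    obtain ⟨j, hj, rfl⟩ := hf.all g hg hug
    have h0 : ({u, n 0, n (0 + 1)} : Finset V) ∈ A := (hall j hj).2 hgA
    have : (A.filter fun g => u ∈ g ∧ n 0 ∈ g) = {({u, n 0, n (0 + 1)} : Finset V)} := by
      ext g
      simp only [Finset.mem_filter]
      rw [Finset.mem_singleton]
      constructor
      · rintro ⟨hg, hh⟩
        exact h0set g hg hh
      · rintro rfl
        exact ⟨h0, huF 0, hk0⟩
    rw [this, Finset.card_singleton] at he
    exact absurd he (by decide)

theorem chordless_exists (r : Fin 3 → V) (FF : Finset (Finset V)) (h : ATC r FF) (m : ℕ) (w : ℕ → V)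
    (D : Finset (Finset V)) (hs : DState r FF m w D) (hm : 2 ≤ m) :
    ∃ s, 0 < s ∧ s < m ∧ ∀ l, l ≤ m → l ≠ s → l + 1 ≠ s → l ≠ s + 1 → ∀ g ∈ D, w s ∈ g → w l ∉ g := by
  classical
  have winj := hs.winj
  by_cases hc : ∃ d, ∃ i, 2 ≤ d ∧ i + d ≤ m ∧ ¬ (i = 0 ∧ i + d = m) ∧ ∃ g ∈ D, w i ∈ g ∧ w (i + d) ∈ g
  · have hspec := Nat.find_spec hc
    have hmin := fun {d} => @Nat.find_min _ _ hc d
    generalize Nat.find hc = d at hspec hmin
    obtain ⟨i, hd2, hid, hne0, g0, hg0, hg0i, hg0j⟩ := hspec
    have hmin' : ∀ d', d' < d → ∀ i', 2 ≤ d' → i' + d' ≤ m → ¬ (i' = 0 ∧ i' + d' = m) → ∀ g ∈ D, w i' ∈ g → w (i' + d') ∈ g → False := by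
      intro d' hd' i' h2 hle hn g hg h3 h4
      exact hmin hd' ⟨i', h2, hle, hn, g, hg, h3, h4⟩
    obtain ⟨j, hj⟩ : ∃ j, j = i + d := ⟨_, rfl⟩
    rw [← hj] at hid hne0 hg0j
    let E : V → V → Prop := fun a b => (∃ l, i ≤ l ∧ l < j ∧ ((a = w l ∧ b = w (l + 1)) ∨ (b = w l ∧ a = w (l + 1)))) ∨
      (a = w i ∧ b = w j) ∨ (b = w i ∧ a = w j)
    have hEsymm : ∀ a b, E a b → E b a := by
      rintro a b (⟨l, h1, h2, h3 | h3⟩ | h3 | h3)
      · exact Or.inl ⟨l, h1, h2, Or.inr h3⟩
      · exact Or.inl ⟨l, h1, h2, Or.inl h3⟩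
      · exact Or.inr (Or.inr h3)
      · exact Or.inr (Or.inl h3)
    have hpath : ∀ l, l < m → ∃ g ∈ D, w l ∈ g ∧ w (l + 1) ∈ g := by
      intro l hl
      have hne : w l ≠ w (l + 1) := fun e => by have := winj l (l + 1) hl.le hl e; omega
      have h1 : Odd (D.filter fun g => w l ∈ g ∧ w (l + 1) ∈ g).card := by
        rw [hs.bdry _ _ hne]
        refine Or.inl ⟨⟨l, hl, Or.inl ⟨rfl, rfl⟩⟩, ?_⟩
        rw [bedge_iff r m w hs.w0 hs.wm winj l hl.le]
        rintro (⟨h1, h2⟩ | ⟨h1, h2⟩)
        · have := winj (l + 1) m hl le_rfl h2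
          omega
        · omega
      obtain ⟨g, hg⟩ := Finset.card_pos.1 h1.pos
      rw [Finset.mem_filter] at hg
      exact ⟨g, hg.1, hg.2⟩
    have hEedge : ∀ a b, E a b → a ≠ b ∧ ∃ g ∈ D, a ∈ g ∧ b ∈ g := by
      rintro a b (⟨l, h1, h2, ⟨h3, h4⟩ | ⟨h3, h4⟩⟩ | ⟨h3, h4⟩ | ⟨h3, h4⟩)
      · rw [h3, h4]
        exact ⟨fun e => by have := winj l (l + 1) (by omega) (by omega) e; omega, hpath l (by omega)⟩
      · rw [h3, h4]
        obtain ⟨g, hg, hg1, hg2⟩ := hpath l (by omega)
        exact ⟨fun e => by have := winj (l + 1) l (by omega) (by omega) e; omega, g, hg, hg2, hg1⟩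
      · rw [h3, h4]
        exact ⟨fun e => by have := winj i j (by omega) (by omega) e; omega, g0, hg0, hg0i, hg0j⟩
      · rw [h3, h4]
        exact ⟨fun e => by have := winj j i (by omega) (by omega) e; omega, g0, hg0, hg0j, hg0i⟩
    -- neighbours
    have hE1 : ∀ l, i ≤ l → l ≤ j → ∀ b, b ∈ ({(if l = i then w j else w (l - 1)), (if l = j then w i else w (l + 1))} : Finset V) ↔ E (w l) b := by
      intro l hl1 hl2 b
      rw [Finset.mem_insert, Finset.mem_singleton]
      constructor
      · rintro (h1 | h1)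
        · by_cases hli : l = i
          · rw [if_pos hli] at h1
            exact Or.inr (Or.inl ⟨by rw [hli], h1⟩)
          · rw [if_neg hli] at h1
            exact Or.inl ⟨l - 1, by omega, by omega, Or.inr ⟨h1, by rw [Nat.sub_add_cancel (by omega)]⟩⟩
        · by_cases hlj : l = j
          · rw [if_pos hlj] at h1
            exact Or.inr (Or.inr ⟨h1, by rw [hlj]⟩)
          · rw [if_neg hlj] at h1
            exact Or.inl ⟨l, by omega, by omega, Or.inl ⟨rfl, h1⟩⟩
      · rintro (⟨l', h1, h2, ⟨h3, h4⟩ | ⟨h3, h4⟩⟩ | ⟨h3, h4⟩ | ⟨h3, h4⟩)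
        · have := winj l l' (by omega) (by omega) h3
          subst this
          right
          rw [if_neg (by omega), h4]
        · have := winj l (l' + 1) (by omega) (by omega) h4
          subst this
          left
          rw [if_neg (by omega), h3]
          simp
        · have := winj l i (by omega) (by omega) h3
          left
          rw [if_pos this, h4]
        · have := winj l j (by omega) (by omega) h4
          right
          rw [if_pos this, h3]
    have hE2 : ∀ a b, E a b → ∃ l, i ≤ l ∧ l ≤ j ∧ a = w l := by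
      rintro a b (⟨l, h1, h2, ⟨h3, h4⟩ | ⟨h3, h4⟩⟩ | ⟨h3, h4⟩ | ⟨h3, h4⟩)
      · exact ⟨l, by omega, by omega, h3⟩
      · exact ⟨l + 1, by omega, by omega, h4⟩
      · exact ⟨i, by omega, by omega, h3⟩
      · exact ⟨j, by omega, by omega, h4⟩
    have hEeven : ∀ a, Even (Nat.card {b // E a b}) := by
      intro a
      by_cases ha : ∃ l, i ≤ l ∧ l ≤ j ∧ a = w l
      · obtain ⟨l, h1, h2, rfl⟩ := ha
        rw [Nat.subtype_card _ (hE1 l h1 h2), Finset.card_pair]
        · exact even_two
        · split_ifs with h3 h4 h5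
          · omega
          · exact fun e => by have := winj j (l + 1) (by omega) (by omega) e; omega
          · exact fun e => by have := winj (l - 1) i (by omega) (by omega) e; omega
          · exact fun e => by have := winj (l - 1) (l + 1) (by omega) (by omega) e; omega
      · have : IsEmpty {b // E a b} := ⟨fun b => ha (hE2 a b.1 b.2)⟩
        rw [Nat.card_of_isEmpty]
        exact Even.zero
    obtain ⟨A, hAD, hA⟩ := hs.Z E hEsymm hEedge hEeven
    refine ⟨i + 1, by omega, by omega, ?_⟩
    intro l hlm hl1 hl2 hl3 g hg hgs hgl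
    by_cases hcase : i ≤ l ∧ l ≤ j
    · refine hmin' (l - (i + 1)) (by omega) (i + 1) (by omega) (by omega) (by omega) g hg hgs ?_
      have : i + 1 + (l - (i + 1)) = l := by omega
      rw [this]; exact hgl
    · -- the faces at `w s` are in `A`
      have hgA : g ∈ A := by
        obtain ⟨k, n, hf, hn0, hnk⟩ := path_fan r FF h m w D hs hm (i + 1) (by omega)
        rw [if_neg (by omega)] at hn0
        rw [if_neg (by omega), if_neg (by omega)] at hnk
        have hEs : ∀ b, E (w (i + 1)) b ↔ (b = n 0 ∨ b = n k) := by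
          intro b
          rw [← hE1 (i + 1) (by omega) (by omega) b, Finset.mem_insert, Finset.mem_singleton, if_neg (by omega),
            if_neg (by omega), hn0, hnk]
        refine (fan_side D A hAD (w (i + 1)) k n hf ?_).1 ?_ g hg hgs
        · intro i' h1 h2
          rw [← Nat.not_odd_iff_even, ← hA _ _ (hf.nu i' (by omega)).symm, hEs]
          rintro (e | e)
          · have := hf.ninj i' 0 (by omega) (by omega) e; omega
          · have := hf.ninj i' k (by omega) (by omega) e; omega
        · rw [← hA _ _ (hf.nu 0 (by omega)).symm, hEs]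
          exact Or.inl rfl
      obtain ⟨k, n, hf, hn0, hnk⟩ := path_fan r FF h m w D hs hm l hlm
      have hEl : ∀ b, ¬ E (w l) b := by
        intro b hb
        obtain ⟨l', h1, h2, h3⟩ := hE2 _ _ hb
        have := winj l l' (by omega) (by omega) h3
        omega
      refine (fan_side D A hAD (w l) k n hf ?_).2 ?_ g hg hgl hgA
      · intro i' h1 h2
        rw [← Nat.not_odd_iff_even, ← hA _ _ (hf.nu i' (by omega)).symm]
        exact hEl _
      · rw [← Nat.not_odd_iff_even, ← hA _ _ (hf.nu 0 (by omega)).symm]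
        exact hEl _
  · refine ⟨1, by omega, by omega, ?_⟩
    intro l hlm hl1 hl2 hl3 g hg hgs hgl
    refine hc ⟨l - 1, 1, by omega, by omega, by omega, g, hg, hgs, ?_⟩
    have : 1 + (l - 1) = l := by omega
    rw [this]; exact hgl

end MP0e5907
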