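import Pool.Agent.Lib_MP_0e5907.DBase

/-!
# Piece DFAN: the faces of `D` at a vertex with exactly two boundary edges form a fan

Statement: `D ⊆ FF`, `u`, `a ≠ b` vertices (different from `u`) such that for every `c ≠ u` the number of faces of `D` containing `u, c` is odd iff `c = a` or `c = b`. Then there is
a fan `n` at `u` with `n 0 = a`, `n k = b`.

Paper proof. For `c ≠ u` let `deg c` be the number of faces of `D` containing `u` and `c`; `deg c ≤ 2` by `inner`/`outer` (at most 2 faces of `FF` contain a given pair). So `deg c = 1` iff `c ∈ {a,b}` and otherwise `deg c ∈ {0,2}`.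
Walk: construct `n 0 = a`, `n 1, ...`: a partial fan of length `k ≥ 1`: `n` injective on `0..k`, avoids `u`, all `{u, n i, n (i+1)} ∈ D`, `n 0 = a`. It exists for `k = 1` (the unique face of `D` containing `u, a` is `{u, a, n 1}`). If a partial fan has `n k ≠ b`: `deg (n k) ≥ 1`, `n k ≠ a` (injective), so
`deg (n k) = 2`: besides `{u, n (k-1), n k}` there is exactly one other face `{u, n k, c}` of `D`. `c ≠ n i` for `0 < i < k`: otherwise `n i` would be in the three faces with `n (i-1)`, `n (i+1)`, `n k` (different unless `k = i+1`, in which case `{u, n k, c} = {u, n (k-1), n k}`, excluded); `c ≠ n 0 = a`: `deg a = 1`, its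
face is `{u, a, n 1}`, so `n k = n 1`, `k = 1` and the face would be the old one, excluded (`k = 1`: `{u, n 1, c}` with `c = n 0` is the face `{u, n 0, n 1}`). So the partial fan extends by `n (k+1) = c`. The length is bounded by `|V|`, so at some point `n k = b`. (Take a partial fan of maximal length.)
All faces of `D` at `u` are in the fan: let `B` be the set of faces of `D` containing `u` that are in the fan: nonempty. Let `B' = ` the set of fan faces. Closure: if `g ∈ B'`, `g' ∈ D`, `u ∈ g'`, and `c ≠ u`, `c ∈ g ∩ g'`: `c = n i` for some `0 ≤ i ≤ k`; the faces of `D` containing `u, n i` are fan faces (one for `i = 0, k`, two for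
`0 < i < k`, both in the fan), so `g' ∈ B'`. Let `B'' = {g ∈ D : u ∈ g, g ∉ fan}` and suppose it is nonempty. Then `B''` is closed in the sense of `ATC.link` : if `g ∈ B''`, `g' ∈ FF`, `u ∈ g'`, `c ∈ g ∩ g'`, `c ≠ u`: `deg c ≥ 1`. If `deg c = 1`, then `c ∈ {a, b}` and the only face of `D` at `u,c` is a fan face, but `g ∈ D` contains `u, c`: contradiction. So `deg c = 2`,
and as at most two faces of `FF` contain `u, c`, `g' ∈ D`; `g'` is not a fan face by the closure property above (else `g` would be one). So `g' ∈ B''`. By `link` all faces of `FF` at `u` are in `B''`, but the fan faces are not. Contradiction.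
-/

namespace MP0e5907

open Finset

variable {V : Type} [Fintype V] [DecidableEq V]

omit [Fintype V] in
private theorem dfan_third {g : Finset V} (hg : g.card = 3) {u c : V} (hu : u ∈ g) (hc : c ∈ g)
    (huc : c ≠ u) : ∃ e, e ≠ u ∧ e ≠ c ∧ g = {u, c, e} := by
  have hc' : c ∈ g.erase u := mem_erase.2 ⟨huc, hc⟩
  have h1 : ((g.erase u).erase c).card = 1 := by
    rw [card_erase_of_mem hc', card_erase_of_mem hu, hg]
  obtain ⟨e, he⟩ := card_eq_one.1 h1
  have he' : e ∈ (g.erase u).erase c := by rw [he]; exact mem_singleton_self e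
  refine ⟨e, (mem_erase.1 (mem_erase.1 he').2).1, (mem_erase.1 he').1, ?_⟩
  rw [← he, insert_erase hc', insert_erase hu]

private theorem dfan_deg {r : Fin 3 → V} {FF : Finset (Finset V)} (h : ATC r FF) {u c : V} (hc : c ≠ u) :
    (FF.filter fun g => u ∈ g ∧ c ∈ g).card ≤ 2 := by
  by_cases hex : ∃ g ∈ FF, u ∈ g ∧ c ∈ g
  · by_cases hr : (∃ i, u = r i) ∧ ∃ j, c = r j
    · obtain ⟨⟨i, rfl⟩, j, rfl⟩ := hr
      have hij : i ≠ j := fun h' => hc (congrArg r h'.symm)
      rw [h.outer i j hij]
      norm_num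
    · rw [h.inner u c (Ne.symm hc) hex hr]
  · have h0 : (FF.filter fun g => u ∈ g ∧ c ∈ g) = ∅ := by
      rw [filter_eq_empty_iff]
      intro g hg hg'
      exact hex ⟨g, hg, hg'⟩
    rw [h0]
    exact Nat.zero_le _

omit [Fintype V] in
private theorem dfan_mem {u x y v : V} : v ∈ ({u, x, y} : Finset V) ↔ v = u ∨ v = x ∨ v = y := by
  rw [mem_insert, mem_insert, mem_singleton]

/-- partial fans -/
private structure PFan (D : Finset (Finset V)) (u a : V) (k : ℕ) (n : ℕ → V) : Prop where
  hk : 1 ≤ k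
  ninj : ∀ i j, i ≤ k → j ≤ k → n i = n j → i = j
  nu : ∀ i, i ≤ k → n i ≠ u
  mem : ∀ i, i < k → ({u, n i, n (i + 1)} : Finset V) ∈ D
  n0 : n 0 = a

theorem fan_exists (r : Fin 3 → V) (FF : Finset (Finset V)) (h : ATC r FF) (D : Finset (Finset V)) (hD : D ⊆ FF)
    (u a b : V) (hab : a ≠ b) (hau : a ≠ u) (hbu : b ≠ u)
    (hodd : ∀ c, c ≠ u → (Odd (D.filter fun g => u ∈ g ∧ c ∈ g).card ↔ (c = a ∨ c = b))) :
    ∃ (k : ℕ) (n : ℕ → V), Fan D u k n ∧ n 0 = a ∧ n k = b := by
  -- degrees
  have hsub : ∀ c, (D.filter fun g => u ∈ g ∧ c ∈ g) ⊆ (FF.filter fun g => u ∈ g ∧ c ∈ g) := fun c =>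
    filter_subset_filter _ hD
  have hdeg : ∀ c, c ≠ u → (D.filter fun g => u ∈ g ∧ c ∈ g).card ≤ 2 := fun c hc =>
    (card_le_card (hsub c)).trans (dfan_deg h hc)
  have hone : ∀ c, c ≠ u → (c = a ∨ c = b) → (D.filter fun g => u ∈ g ∧ c ∈ g).card = 1 := by
    intro c hc hcab
    have h1 := (hodd c hc).2 hcab
    have h2 := hdeg c hc
    obtain ⟨t, ht⟩ := h1
    omega
  have htwo : ∀ c, c ≠ u → ¬ (c = a ∨ c = b) → ∀ g ∈ D, u ∈ g → c ∈ g →
      (D.filter fun g => u ∈ g ∧ c ∈ g).card = 2 := by
    intro c hc hcab g hg hug hcg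
    have h1 : ¬ Odd (D.filter fun g => u ∈ g ∧ c ∈ g).card := fun h' => hcab ((hodd c hc).1 h')
    have h2 := hdeg c hc
    have h3 : 0 < (D.filter fun g => u ∈ g ∧ c ∈ g).card :=
      card_pos.2 ⟨g, mem_filter.2 ⟨hg, hug, hcg⟩⟩
    rw [Nat.not_odd_iff_even] at h1
    obtain ⟨t, ht⟩ := h1
    omega
  have huniq : ∀ c, c ≠ u → (c = a ∨ c = b) → ∀ g ∈ D, ∀ g' ∈ D, u ∈ g → c ∈ g → u ∈ g' → c ∈ g' → g = g' := by
    intro c hc hcab g hg g' hg' h1 h2 h3 h4
    exact card_le_one.1 (hone c hc hcab).le g (mem_filter.2 ⟨hg, h1, h2⟩) g' (mem_filter.2 ⟨hg', h3, h4⟩)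
  have hthree : ∀ c, c ≠ u → ∀ g1 ∈ D, ∀ g2 ∈ D, ∀ g3 ∈ D, u ∈ g1 → c ∈ g1 → u ∈ g2 → c ∈ g2 → u ∈ g3 →
      c ∈ g3 → g1 ≠ g2 → g1 = g3 ∨ g2 = g3 := by
    intro c hc g1 hg1 g2 hg2 g3 hg3 h1 h1' h2 h2' h3 h3' h12
    by_contra hcon
    push Not at hcon
    have h4 := (two_lt_card (s := D.filter fun g => u ∈ g ∧ c ∈ g)).2
      ⟨g1, mem_filter.2 ⟨hg1, h1, h1'⟩, g2, mem_filter.2 ⟨hg2, h2, h2'⟩, g3, mem_filter.2 ⟨hg3, h3, h3'⟩,
        h12, hcon.1, hcon.2⟩
    exact absurd (hdeg c hc) (not_le.2 h4)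
  -- base
  have hbase : ∃ n, PFan D u a 1 n := by
    have h1 : 0 < (D.filter fun g => u ∈ g ∧ a ∈ g).card := by
      rw [hone a hau (Or.inl rfl)]
      exact Nat.one_pos
    obtain ⟨g, hg⟩ := card_pos.1 h1
    rw [mem_filter] at hg
    obtain ⟨e, heu, hea, rfl⟩ := dfan_third (h.card3 g (hD hg.1)) hg.2.1 hg.2.2 hau
    refine ⟨fun i => if i = 0 then a else e, le_refl 1, ?_, ?_, ?_, ?_⟩
    · intro i j hi hj hij
      have hi' : i = 0 ∨ i = 1 := by omega
      have hj' : j = 0 ∨ j = 1 := by omega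
      rcases hi' with rfl | rfl <;> rcases hj' with rfl | rfl
      · rfl
      · simp only [if_neg one_ne_zero] at hij
        exact absurd hij.symm hea
      · simp only [if_neg one_ne_zero] at hij
        exact absurd hij hea
      · rfl
    · intro i hi
      by_cases h0 : i = 0
      · simp only [if_pos h0]
        exact hau
      · simp only [if_neg h0]
        exact heu
    · intro i hi
      have h0 : i = 0 := by omega
      subst h0
      simp only [zero_add, if_neg one_ne_zero]
      exact hg.1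
    · exact if_pos rfl
  -- extension
  have hext : ∀ k n, PFan D u a k n → n k ≠ b → ∃ n', PFan D u a (k + 1) n' := by
    intro k n hp hkb
    obtain ⟨l, rfl⟩ : ∃ l, k = l + 1 := ⟨k - 1, by have := hp.hk; omega⟩
    have hka : n (l + 1) ≠ a := by
      intro h'
      have := hp.ninj (l + 1) 0 le_rfl (Nat.zero_le _) (h'.trans hp.n0.symm)
      omega
    have hF := hp.mem l (Nat.lt_succ_self l)
    have h2 := htwo (n (l + 1)) (hp.nu _ le_rfl) (fun h' => h'.elim hka hkb) _ hF
      (dfan_mem.2 (Or.inl rfl)) (dfan_mem.2 (Or.inr (Or.inr rfl)))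
    obtain ⟨g, hg, hgF⟩ := exists_mem_ne (s := D.filter fun g => u ∈ g ∧ n (l + 1) ∈ g)
      (by rw [h2]; norm_num) {u, n l, n (l + 1)}
    rw [mem_filter] at hg
    obtain ⟨c, hcu, hck, rfl⟩ := dfan_third (h.card3 g (hD hg.1)) hg.2.1 hg.2.2 (hp.nu _ le_rfl)
    have hnew : ∀ i, i ≤ l → c ≠ n i := by
      rintro i hi rfl
      rcases Nat.lt_or_ge i l with hil | hil
      · have hni : n i ≠ u := hp.nu i (by omega)
        have hF2 := hp.mem i (by omega)
        rcases Nat.eq_zero_or_pos i with h0 | h0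
        · subst h0
          have h3 := huniq (n 0) hni (Or.inl hp.n0) _ hg.1 _ hF2 (dfan_mem.2 (Or.inl rfl))
            (dfan_mem.2 (Or.inr (Or.inr rfl))) (dfan_mem.2 (Or.inl rfl))
            (dfan_mem.2 (Or.inr (Or.inl rfl)))
          have h4 : n (l + 1) ∈ ({u, n 0, n (0 + 1)} : Finset V) := by
            rw [← h3]
            exact dfan_mem.2 (Or.inr (Or.inl rfl))
          rcases dfan_mem.1 h4 with h5 | h5 | h5
          · exact hp.nu _ le_rfl h5
          · have := hp.ninj _ _ le_rfl (by omega) h5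
            omega
          · have := hp.ninj _ _ le_rfl (by omega) h5
            omega
        · obtain ⟨j, rfl⟩ : ∃ j, i = j + 1 := ⟨i - 1, by omega⟩
          have hF1 := hp.mem j (by omega)
          have h12 : ({u, n j, n (j + 1)} : Finset V) ≠ {u, n (j + 1), n (j + 1 + 1)} := by
            intro h'
            have h4 : n j ∈ ({u, n (j + 1), n (j + 1 + 1)} : Finset V) := by
              rw [← h']
              exact dfan_mem.2 (Or.inr (Or.inl rfl))
            rcases dfan_mem.1 h4 with h5 | h5 | h5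
            · exact hp.nu _ (by omega) h5
            · have := hp.ninj _ _ (by omega) (by omega) h5
              omega
            · have := hp.ninj _ _ (by omega) (by omega) h5
              omega
          rcases hthree (n (j + 1)) hni _ hF1 _ hF2 _ hg.1 (dfan_mem.2 (Or.inl rfl))
            (dfan_mem.2 (Or.inr (Or.inr rfl))) (dfan_mem.2 (Or.inl rfl))
            (dfan_mem.2 (Or.inr (Or.inl rfl))) (dfan_mem.2 (Or.inl rfl))
            (dfan_mem.2 (Or.inr (Or.inr rfl))) h12 with h3 | h3
          · have h4 : n (l + 1) ∈ ({u, n j, n (j + 1)} : Finset V) := by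
              rw [h3]
              exact dfan_mem.2 (Or.inr (Or.inl rfl))
            rcases dfan_mem.1 h4 with h5 | h5 | h5
            · exact hp.nu _ le_rfl h5
            · have := hp.ninj _ _ le_rfl (by omega) h5
              omega
            · have := hp.ninj _ _ le_rfl (by omega) h5
              omega
          · have h4 : n (l + 1) ∈ ({u, n (j + 1), n (j + 1 + 1)} : Finset V) := by
              rw [h3]
              exact dfan_mem.2 (Or.inr (Or.inl rfl))
            rcases dfan_mem.1 h4 with h5 | h5 | h5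
            · exact hp.nu _ le_rfl h5
            · have := hp.ninj _ _ le_rfl (by omega) h5
              omega
            · have := hp.ninj _ _ le_rfl (by omega) h5
              omega
      · have : i = l := by omega
        subst this
        apply hgF
        rw [pair_comm (n (i + 1)) (n i)]
    refine ⟨fun i => if i ≤ l + 1 then n i else c, by omega, ?_, ?_, ?_, ?_⟩
    · intro i j hi hj hij
      by_cases h1 : i ≤ l + 1 <;> by_cases h2 : j ≤ l + 1
      · simp only [if_pos h1, if_pos h2] at hij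
        exact hp.ninj i j h1 h2 hij
      · simp only [if_pos h1, if_neg h2] at hij
        exfalso
        rcases Nat.lt_or_ge i (l + 1) with h3 | h3
        · exact hnew i (by omega) hij.symm
        · have : i = l + 1 := by omega
          subst this
          exact hck hij.symm
      · simp only [if_neg h1, if_pos h2] at hij
        exfalso
        rcases Nat.lt_or_ge j (l + 1) with h3 | h3
        · exact hnew j (by omega) hij
        · have : j = l + 1 := by omega
          subst this
          exact hck hij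
      · omega
    · intro i hi
      by_cases h1 : i ≤ l + 1
      · simp only [if_pos h1]
        exact hp.nu i h1
      · simp only [if_neg h1]
        exact hcu
    · intro i hi
      by_cases h1 : i + 1 ≤ l + 1
      · simp only [if_pos h1, if_pos (Nat.le_of_succ_le h1)]
        exact hp.mem i (by omega)
      · have h2 : i = l + 1 := by omega
        subst h2
        simp only [if_pos (le_refl (l + 1)), if_neg h1]
        exact hg.1
    · simp only [if_pos (Nat.zero_le _)]
      exact hp.n0
  -- length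
  have hlen : ∀ k n, PFan D u a k n → k < Fintype.card V := by
    intro k n hp
    have h1 : ((range (k + 1)).image n).card = k + 1 := by
      rw [card_image_of_injOn, card_range]
      intro i hi j hj hij
      exact hp.ninj i j (Nat.lt_succ_iff.1 (mem_range.1 (mem_coe.1 hi)))
        (Nat.lt_succ_iff.1 (mem_range.1 (mem_coe.1 hj))) hij
    have h2 := card_le_univ ((range (k + 1)).image n)
    omega
  have hreach : ∃ k n, PFan D u a k n ∧ n k = b := by
    by_contra hcon
    push Not at hcon
    have hall : ∀ k, 1 ≤ k → ∃ n, PFan D u a k n := by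
      intro k hk
      induction k, hk using Nat.le_induction with
      | base => exact hbase
      | succ k _ ih =>
        obtain ⟨n, hn⟩ := ih
        exact hext k n hn (hcon k n hn)
    obtain ⟨n, hn⟩ := hall (Fintype.card V + 1) (Nat.le_add_left _ _)
    have := hlen _ n hn
    omega
  obtain ⟨k, n, hp, hkb⟩ := hreach
  refine ⟨k, n, ⟨hp.hk, hp.ninj, hp.nu, hp.mem, ?_⟩, hp.n0, hkb⟩
  have hkpos := hp.hk
  -- closure property
  have hcp : ∀ g g' : Finset V, (∃ i, i < k ∧ g = {u, n i, n (i + 1)}) → g' ∈ D → u ∈ g' →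
      ∀ c, c ≠ u → c ∈ g → c ∈ g' → ∃ i, i < k ∧ g' = {u, n i, n (i + 1)} := by
    rintro g g' ⟨i, hi, rfl⟩ hg' hug' c hc hcg hcg'
    obtain ⟨j, hj, rfl⟩ : ∃ j, j ≤ k ∧ c = n j := by
      rcases dfan_mem.1 hcg with h1 | h1 | h1
      · exact absurd h1 hc
      · exact ⟨i, hi.le, h1⟩
      · exact ⟨i + 1, hi, h1⟩
    rcases Nat.eq_zero_or_pos j with h0 | h0
    · subst h0
      have hF := hp.mem 0 (by omega)
      exact ⟨0, by omega, huniq (n 0) hc (Or.inl hp.n0) _ hg' _ hF hug' hcg' (dfan_mem.2 (Or.inl rfl))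
        (dfan_mem.2 (Or.inr (Or.inl rfl)))⟩
    · obtain ⟨l, rfl⟩ : ∃ l, j = l + 1 := ⟨j - 1, by omega⟩
      have hF1 := hp.mem l (by omega)
      rcases Nat.lt_or_ge (l + 1) k with h1 | h1
      · have hF2 := hp.mem (l + 1) h1
        have h12 : ({u, n l, n (l + 1)} : Finset V) ≠ {u, n (l + 1), n (l + 1 + 1)} := by
          intro h'
          have h4 : n l ∈ ({u, n (l + 1), n (l + 1 + 1)} : Finset V) := by
            rw [← h']
            exact dfan_mem.2 (Or.inr (Or.inl rfl))
          rcases dfan_mem.1 h4 with h5 | h5 | h5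
          · exact hp.nu _ (by omega) h5
          · have := hp.ninj _ _ (by omega) (by omega) h5
            omega
          · have := hp.ninj _ _ (by omega) (by omega) h5
            omega
        rcases hthree (n (l + 1)) hc _ hF1 _ hF2 _ hg' (dfan_mem.2 (Or.inl rfl))
          (dfan_mem.2 (Or.inr (Or.inr rfl))) (dfan_mem.2 (Or.inl rfl))
          (dfan_mem.2 (Or.inr (Or.inl rfl))) hug' hcg' h12 with h3 | h3
        · exact ⟨l, by omega, h3.symm⟩
        · exact ⟨l + 1, h1, h3.symm⟩
      · have hlk : l + 1 = k := by omega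
        have h5 : n (l + 1) = b := by rw [hlk]; exact hkb
        exact ⟨l, by omega, huniq (n (l + 1)) hc (Or.inr h5) _ hg' _ hF1 hug' hcg'
          (dfan_mem.2 (Or.inl rfl)) (dfan_mem.2 (Or.inr (Or.inr rfl)))⟩
  classical
  by_contra hcon
  push Not at hcon
  obtain ⟨g0, hg0, hug0, hnf0⟩ := hcon
  have hlink := h.link u (D.filter fun g => u ∈ g ∧ ¬ ∃ i, i < k ∧ g = {u, n i, n (i + 1)})
    ((filter_subset _ _).trans hD)
    ⟨g0, mem_filter.2 ⟨hg0, hug0, fun ⟨i, hi, hgi⟩ => hnf0 i hi hgi⟩⟩
    (fun g hg => (mem_filter.1 hg).2.1) ?_ {u, n 0, n (0 + 1)} (hD (hp.mem 0 (by omega)))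
    (dfan_mem.2 (Or.inl rfl))
  · exact (mem_filter.1 hlink).2.2 ⟨0, by omega, rfl⟩
  · rintro g hg g' hg' hug' ⟨c, hcu, hcg, hcg'⟩
    rw [mem_filter] at hg
    by_cases hcab : c = a ∨ c = b
    · exfalso
      apply hg.2.2
      rcases hcab with rfl | rfl
      · exact ⟨0, by omega, huniq c hcu (Or.inl rfl) _ hg.1 _ (hp.mem 0 (by omega)) hg.2.1 hcg
          (dfan_mem.2 (Or.inl rfl)) (dfan_mem.2 (Or.inr (Or.inl hp.n0.symm)))⟩
      · obtain ⟨l, hl⟩ : ∃ l, k = l + 1 := ⟨k - 1, by omega⟩
        exact ⟨l, by omega, huniq c hcu (Or.inr rfl) _ hg.1 _ (hp.mem l (by omega)) hg.2.1 hcg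
          (dfan_mem.2 (Or.inl rfl)) (dfan_mem.2 (Or.inr (Or.inr (by rw [← hl]; exact hkb.symm))))⟩
    · have h2 := htwo c hcu hcab g hg.1 hg.2.1 hcg
      have heq : (D.filter fun g => u ∈ g ∧ c ∈ g) = (FF.filter fun g => u ∈ g ∧ c ∈ g) :=
        eq_of_subset_of_card_le (hsub c) (by rw [h2]; exact dfan_deg h hcu)
      have hg'D : g' ∈ D := by
        have h3 : g' ∈ (FF.filter fun g => u ∈ g ∧ c ∈ g) := mem_filter.2 ⟨hg', hug', hcg'⟩
        rw [← heq] at h3
        exact (mem_filter.1 h3).1
      refine mem_filter.2 ⟨hg'D, hug', fun hfan => ?_⟩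
      exact hg.2.2 (hcp g' g hfan hg.1 hg.2.1 c hcu hcg' hcg)

end MP0e5907
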