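import Pool.Agent.Lib_MP_0e5907.DRemove

/-!
# Piece DFINAL: every abstract triangulated triangle has a canonical ordering

Paper proof.
* `dstate_empty`: if `m = 1` then `D = ∅`: the path edge is the base edge, so by `bdry` every pair is in an even number of faces of `D`; `ATC.inj`. Conversely if `D = ∅` then `m = 1`: by `bdry` with `D = ∅` the pair `{w 0, w 1}` is a path edge, so it must be the base edge `{r 1, r 2}`, `w 1 = r 2 = w m`, `m = 1`.
* `dstate_co`: for every state there is a set `L` of labelled faces with `CO (r 1) (r 2) m w L K`, `L.image fset = D` and `K = ` (union of the faces of `D`) ∪ (vertices of the path). Strong induction on `|D|`. `D = ∅`: `m = 1`, `CO.base`, `K = {r 1, r 2}`. `D ≠ ∅`: `m ≥ 2`; take `s` from `chordless_exists`, the fan from `path_fan` at `l = s` (`0 < s < m`), the new state `(m', w', D')`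
  from `dstate_remove` (`w' i = if i + 1 ≤ s then w i else if i ≤ s - 1 + k then n (i - (s-1)) else w (i + 2 - k)`, `m' = m + k - 2`); `|D'| < |D|` (`k ≥ 1`). Induction gives `L', K'`. Apply `CO.step` with `p = s - 1`, `q = s - 1 + k`, `x = w s`: `Step m' w' K' p q (w s) m w`: `p < q`, `q ≤ m'` (`s + 1 ≤ m`), `w s ∉ K'` (not in a face of `D'`, not on the new path), `m + q = m' + p + 2`, `w i = w' i` for `i ≤ p`,
  `w (p+1) = w s`, `w (i + p + 2 - q) = w' i` for `q ≤ i ≤ m'`. The new labelled faces are `(w s, w' j, w' (j+1)) = (w s, n (j-p), n (j-p+1))`, with underlying sets the fan faces, so `L = L' ∪ newf w' p q (w s)` has image `D' ∪ fan = D`. `K = insert (w s) K'` is the union of the faces of `D` and the path (each `n i` is on the new path; each `n i` is in a face of `D`).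
* `dstate_init`: the state `D = FF`, `m = 2`, `w = r 1, r 0, r 2`: `bdry`: pairs of two corners: exactly one face (`outer`), odd; the three pairs are path edges (`{r1,r0}`, `{r0,r2}`) or the base edge. Other pairs: `0` or `2` faces (`inner`). `Z` = `ATC.Z`.
* `atc_co`: apply `dstate_co` to it; `K = univ` by `covered`.
-/

namespace MP0e5907

open Finset

variable {V : Type} [Fintype V] [DecidableEq V]

theorem dstate_empty (r : Fin 3 → V) (FF : Finset (Finset V)) (h : ATC r FF) (m : ℕ) (w : ℕ → V)
    (D : Finset (Finset V)) (hs : DState r FF m w D) : m = 1 ↔ D = ∅ := by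
  constructor
  · intro hm
    subst hm
    refine h.inj D hs.sub fun a b hab => ?_
    rw [← Nat.not_odd_iff_even, hs.bdry a b hab]
    have h0 := hs.w0
    have h1 := hs.wm
    rintro (⟨⟨i, hi, h2⟩, h3⟩ | ⟨h2, h3⟩)
    · have hi0 : i = 0 := by omega
      subst hi0
      rw [zero_add, h0, h1] at h2
      exact h3 h2
    · refine h2 ⟨0, by omega, ?_⟩
      rw [zero_add, h0, h1]
      exact h3
  · intro hD
    have hm := hs.hm
    have hne : w 0 ≠ w 1 := fun e => by
      have := hs.winj 0 1 (by omega) hm e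
      omega
    have h1 := hs.bdry (w 0) (w 1) hne
    rw [hD, Finset.filter_empty, Finset.card_empty] at h1
    have h2 : ¬ Odd 0 := by decide
    have hP : PEdge m w (w 0) (w 1) := ⟨0, by omega, Or.inl ⟨rfl, rfl⟩⟩
    have hB : BEdge r (w 0) (w 1) := by
      by_contra hB
      exact h2 (h1.2 (Or.inl ⟨hP, hB⟩))
    rcases hB with ⟨_, hB⟩ | ⟨hB, _⟩
    · rw [← hs.wm] at hB
      exact (hs.winj 1 m hm le_rfl hB).symm
    · rw [← hs.w0] at hB
      exact absurd hB.symm hne

theorem dstate_co (r : Fin 3 → V) (FF : Finset (Finset V)) (h : ATC r FF) (m : ℕ) (w : ℕ → V)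
    (D : Finset (Finset V)) (hs : DState r FF m w D) :
    ∃ (L : Finset (V × V × V)) (K : Finset V), CO (r 1) (r 2) m w L K ∧ L.image fset = D ∧
      ∀ v, v ∈ K ↔ (∃ g ∈ D, v ∈ g) ∨ ∃ i, i ≤ m ∧ w i = v := by
  obtain ⟨c, hc⟩ : ∃ c, c = D.card := ⟨_, rfl⟩
  induction c using Nat.strong_induction_on generalizing m w D with
  | _ c ih =>
    by_cases hD : D = ∅
    · have hm1 := (dstate_empty r FF h m w D hs).2 hD
      subst hm1
      subst hD
      refine ⟨∅, {r 1, r 2}, CO.base w hs.w0 hs.wm (fun e => ?_), Finset.image_empty _, ?_⟩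
      · have := h.rinj e
        exact absurd this (by decide)
      · intro v
        rw [Finset.mem_insert, Finset.mem_singleton]
        constructor
        · rintro (rfl | rfl)
          · exact Or.inr ⟨0, by omega, hs.w0⟩
          · exact Or.inr ⟨1, le_rfl, hs.wm⟩
        · rintro (⟨g, hg, _⟩ | ⟨i, hi, rfl⟩)
          · exact absurd hg (Finset.notMem_empty g)
          · have h2 : i = 0 ∨ i = 1 := by omega
            rcases h2 with rfl | rfl
            · exact Or.inl hs.w0
            · exact Or.inr hs.wm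
    · have hm2 : 2 ≤ m := by
        have h1 := hs.hm
        have h2 : m ≠ 1 := fun e => hD ((dstate_empty r FF h m w D hs).1 e)
        omega
      obtain ⟨s, hs0, hsm, hch⟩ := chordless_exists r FF h m w D hs hm2
      obtain ⟨k, n, hf, hn0, hnk⟩ := path_fan r FF h m w D hs hm2 s hsm.le
      rw [if_neg (by omega)] at hn0
      rw [if_neg (by omega), if_neg (by omega)] at hnk
      have hk := hf.hk
      obtain ⟨w', hw'⟩ : ∃ w' : ℕ → V, w' = fun i => if i + 1 ≤ s then w i else
        if i ≤ s - 1 + k then n (i - (s - 1)) else w (i + 2 - k) := ⟨_, rfl⟩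
      obtain ⟨m', hm'⟩ : ∃ m', m' + 2 = m + k := ⟨m + k - 2, by omega⟩
      have h1 : ∀ i, i + 1 ≤ s → w' i = w i := by
        intro i hi
        rw [hw']
        exact if_pos hi
      have h2 : ∀ i, i ≤ k → w' (s - 1 + i) = n i := by
        intro i hi
        by_cases hi0 : i = 0
        · subst hi0
          rw [h1 _ (by omega), add_zero, hn0]
        · rw [hw']
          show (if s - 1 + i + 1 ≤ s then w (s - 1 + i) else
            if s - 1 + i ≤ s - 1 + k then n (s - 1 + i - (s - 1)) else w (s - 1 + i + 2 - k)) = n i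
          rw [if_neg (by omega), if_pos (by omega)]
          congr 1
          omega
      have h2' : ∀ i, s ≤ i → i ≤ s - 1 + k → w' i = n (i - (s - 1)) := by
        intro i hi hi2
        have h3 := h2 (i - (s - 1)) (by omega)
        rw [← h3]
        congr 1
        omega
      have h4 : ∀ i, s - 1 + k ≤ i → w' i = w (i + 2 - k) := by
        intro i hi
        rcases Nat.eq_or_lt_of_le hi with h5 | h5
        · rw [← h5, h2 k le_rfl, hnk]
          congr 1
          omega
        · rw [hw']
          show (if i + 1 ≤ s then w i else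
            if i ≤ s - 1 + k then n (i - (s - 1)) else w (i + 2 - k)) = w (i + 2 - k)
          rw [if_neg (by omega), if_neg (by omega)]
      have h3 : ∀ i, s + 1 ≤ i → i ≤ m → w' (i + k - 2) = w i := by
        intro i hi _
        rw [h4 _ (by omega)]
        congr 1
        omega
      have hs' := dstate_remove r FF h m w D hs s hs0 hsm hch k n hf hn0 hnk m' hm' w' h1 h2 h3
      have hcase : ∀ i, i ≤ m' → (∃ j, j ≤ m ∧ j ≠ s ∧ w' i = w j) ∨ ∃ j, j ≤ k ∧ w' i = n j := by
        intro i hi
        by_cases hi1 : i + 1 ≤ s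
        · exact Or.inl ⟨i, by omega, by omega, h1 i hi1⟩
        · by_cases hi2 : i ≤ s - 1 + k
          · exact Or.inr ⟨i - (s - 1), by omega, h2' i (by omega) hi2⟩
          · exact Or.inl ⟨i + 2 - k, by omega, by omega, h4 i (by omega)⟩
      have hface : ∀ j, j ≤ k → ∃ g ∈ D, w s ∈ g ∧ n j ∈ g := by
        intro j hj
        by_cases hjk : j < k
        · exact ⟨_, hf.mem j hjk, by simp, by simp⟩
        · have hjk' : j = k := by omega
          have h5 := hf.mem (k - 1) (by omega)
          rw [Nat.sub_add_cancel hk] at h5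
          exact ⟨_, h5, by simp, by rw [hjk']; simp⟩
      have hlt : (D.filter fun g => w s ∉ g).card < c := by
        rw [hc]
        refine Finset.card_lt_card ?_
        rw [Finset.ssubset_iff_of_subset (Finset.filter_subset _ _)]
        obtain ⟨g, hg, hg1, _⟩ := hface 0 (by omega)
        exact ⟨g, hg, fun h5 => (Finset.mem_filter.1 h5).2 hg1⟩
      obtain ⟨L', K', hCO, hL', hK'⟩ := ih _ hlt m' w' _ hs' rfl
      have hxK : w s ∉ K' := by
        rw [hK']
        rintro (⟨g, hg, hg1⟩ | ⟨i, hi, hi1⟩)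
        · exact (Finset.mem_filter.1 hg).2 hg1
        · rcases hcase i hi with ⟨j, hj, hjs, hj2⟩ | ⟨j, hj, hj2⟩
          · rw [hj2] at hi1
            exact hjs (hs.winj j s hj hsm.le hi1)
          · rw [hj2] at hi1
            exact hf.nu j hj hi1
      have hstep : Step m' w' K' (s - 1) (s - 1 + k) (w s) m w := by
        refine ⟨by omega, by omega, hxK, by omega, ?_, ?_, ?_⟩
        · intro i hi
          exact (h1 i (by omega)).symm
        · congr 1
          omega
        · intro i hi1 hi2
          rw [h4 i hi1]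
          congr 1
          omega
      refine ⟨L' ∪ newf w' (s - 1) (s - 1 + k) (w s), insert (w s) K',
        CO.step m' w' L' K' hCO _ _ _ m w hstep, ?_, ?_⟩
      · rw [Finset.image_union, hL']
        ext g
        rw [Finset.mem_union, Finset.mem_filter, Finset.mem_image]
        constructor
        · rintro (⟨hg, _⟩ | ⟨f, hf1, rfl⟩)
          · exact hg
          · unfold newf at hf1
            rw [Finset.mem_image] at hf1
            obtain ⟨j, hj, rfl⟩ := hf1
            rw [Finset.mem_Ico] at hj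
            have e1 : w' j = n (j - (s - 1)) := by
              rw [← h2 (j - (s - 1)) (by omega)]
              congr 1
              omega
            have e2 : w' (j + 1) = n (j - (s - 1) + 1) := by
              rw [← h2 (j - (s - 1) + 1) (by omega)]
              congr 1
              omega
            show ({w s, w' j, w' (j + 1)} : Finset V) ∈ D
            rw [e1, e2]
            exact hf.mem _ (by omega)
        · intro hg
          by_cases hg1 : w s ∈ g
          · right
            obtain ⟨i, hi, rfl⟩ := hf.all g hg hg1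
            refine ⟨(w s, w' (s - 1 + i), w' (s - 1 + i + 1)), ?_, ?_⟩
            · unfold newf
              rw [Finset.mem_image]
              exact ⟨s - 1 + i, Finset.mem_Ico.2 ⟨by omega, by omega⟩, rfl⟩
            · show ({w s, w' (s - 1 + i), w' (s - 1 + i + 1)} : Finset V) = _
              rw [h2 i (by omega), add_assoc, h2 (i + 1) (by omega)]
          · exact Or.inl ⟨hg, hg1⟩
      · intro v
        rw [Finset.mem_insert, hK']
        constructor
        · rintro (rfl | ⟨g, hg, hv⟩ | ⟨i, hi, rfl⟩)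
          · exact Or.inr ⟨s, hsm.le, rfl⟩
          · exact Or.inl ⟨g, (Finset.mem_filter.1 hg).1, hv⟩
          · rcases hcase i hi with ⟨j, hj, _, hj2⟩ | ⟨j, hj, hj2⟩
            · exact Or.inr ⟨j, hj, hj2.symm⟩
            · obtain ⟨g, hg, _, hg2⟩ := hface j hj
              exact Or.inl ⟨g, hg, by rw [hj2]; exact hg2⟩
        · rintro (⟨g, hg, hv⟩ | ⟨i, hi, rfl⟩)
          · by_cases hg1 : w s ∈ g
            · obtain ⟨i, hi, rfl⟩ := hf.all g hg hg1
              rw [Finset.mem_insert, Finset.mem_insert, Finset.mem_singleton] at hv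
              rcases hv with hv | hv | hv
              · exact Or.inl hv
              · exact Or.inr (Or.inr ⟨s - 1 + i, by omega, by rw [h2 i (by omega), hv]⟩)
              · exact Or.inr (Or.inr ⟨s - 1 + (i + 1), by omega,
                  by rw [h2 (i + 1) (by omega), hv]⟩)
            · exact Or.inr (Or.inl ⟨g, Finset.mem_filter.2 ⟨hg, hg1⟩, hv⟩)
          · rcases lt_trichotomy i s with h5 | h5 | h5
            · exact Or.inr (Or.inr ⟨i, by omega, h1 i (by omega)⟩)
            · exact Or.inl (by rw [h5])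
            · exact Or.inr (Or.inr ⟨i + k - 2, by omega, h3 i (by omega) hi⟩)

theorem dstate_init (r : Fin 3 → V) (FF : Finset (Finset V)) (h : ATC r FF) :
    DState r FF 2 (fun i => if i = 0 then r 1 else if i = 1 then r 0 else r 2) FF := by
  have h01 : r 0 ≠ r 1 := fun e => absurd (h.rinj e) (by decide)
  have h02 : r 0 ≠ r 2 := fun e => absurd (h.rinj e) (by decide)
  have h12 : r 1 ≠ r 2 := fun e => absurd (h.rinj e) (by decide)
  have hP : ∀ a b, PEdge 2 (fun i => if i = 0 then r 1 else if i = 1 then r 0 else r 2) a b ↔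
      ((a = r 1 ∧ b = r 0) ∨ (b = r 1 ∧ a = r 0)) ∨ ((a = r 0 ∧ b = r 2) ∨ (b = r 0 ∧ a = r 2)) := by
    intro a b
    constructor
    · rintro ⟨i, hi, h1⟩
      have h2 : i = 0 ∨ i = 1 := by omega
      rcases h2 with rfl | rfl
      · exact Or.inl h1
      · exact Or.inr h1
    · rintro (h1 | h1)
      · exact ⟨0, by omega, h1⟩
      · exact ⟨1, by omega, h1⟩
  refine ⟨by omega, rfl, rfl, ?_, Finset.Subset.refl _, ?_, h.Z⟩
  · intro i j hi hj e
    have hi' : i = 0 ∨ i = 1 ∨ i = 2 := by omega
    have hj' : j = 0 ∨ j = 1 ∨ j = 2 := by omega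
    rcases hi' with rfl | rfl | rfl <;> rcases hj' with rfl | rfl | rfl
    · rfl
    · exact absurd e.symm h01
    · exact absurd e h12
    · exact absurd e h01
    · rfl
    · exact absurd e h02
    · exact absurd e.symm h12
    · exact absurd e.symm h02
    · rfl
  · intro a b hab
    rw [hP]
    by_cases hc : (∃ i, a = r i) ∧ ∃ j, b = r j
    · obtain ⟨⟨i, rfl⟩, ⟨j, rfl⟩⟩ := hc
      have hij : i ≠ j := fun e => hab (by rw [e])
      rw [h.outer i j hij]
      refine ⟨fun _ => ?_, fun _ => by decide⟩
      unfold BEdge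
      fin_cases i <;> fin_cases j
      · exact absurd rfl hij
      · exact Or.inl ⟨Or.inl (Or.inr ⟨rfl, rfl⟩), by
          rintro (⟨e, _⟩ | ⟨_, e⟩)
          · exact h01 e
          · exact h02 e⟩
      · exact Or.inl ⟨Or.inr (Or.inl ⟨rfl, rfl⟩), by
          rintro (⟨e, _⟩ | ⟨_, e⟩)
          · exact h01 e
          · exact h02 e⟩
      · exact Or.inl ⟨Or.inl (Or.inl ⟨rfl, rfl⟩), by
          rintro (⟨_, e⟩ | ⟨e, _⟩)
          · exact h02 e
          · exact h01 e⟩
      · exact absurd rfl hij
      · exact Or.inr ⟨by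
          rintro ((⟨_, e⟩ | ⟨e, _⟩) | (⟨e, _⟩ | ⟨e, _⟩))
          · exact h02 e.symm
          · exact h12 e.symm
          · exact h01 e.symm
          · exact h02 e.symm, Or.inl ⟨rfl, rfl⟩⟩
      · exact Or.inl ⟨Or.inr (Or.inr ⟨rfl, rfl⟩), by
          rintro (⟨_, e⟩ | ⟨e, _⟩)
          · exact h02 e
          · exact h01 e⟩
      · exact Or.inr ⟨by
          rintro ((⟨e, _⟩ | ⟨_, e⟩) | (⟨e, _⟩ | ⟨e, _⟩))
          · exact h12 e.symm
          · exact h02 e.symm
          · exact h02 e.symm
          · exact h01 e.symm, Or.inr ⟨rfl, rfl⟩⟩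
      · exact absurd rfl hij
    · have hno : ¬ Odd (FF.filter fun g => a ∈ g ∧ b ∈ g).card := by
        by_cases hex : ∃ g ∈ FF, a ∈ g ∧ b ∈ g
        · rw [h.inner a b hab hex hc]
          decide
        · have h1 : (FF.filter fun g => a ∈ g ∧ b ∈ g) = ∅ := by
            rw [Finset.filter_eq_empty_iff]
            intro g hg h2
            exact hex ⟨g, hg, h2⟩
          rw [h1, Finset.card_empty]
          decide
      refine ⟨fun h1 => absurd h1 hno, ?_⟩
      unfold BEdge
      rintro (⟨h1, _⟩ | ⟨_, h1⟩)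
      · rcases h1 with (⟨e1, e2⟩ | ⟨e1, e2⟩) | (⟨e1, e2⟩ | ⟨e1, e2⟩)
        · exact absurd ⟨⟨1, e1⟩, ⟨0, e2⟩⟩ hc
        · exact absurd ⟨⟨0, e2⟩, ⟨1, e1⟩⟩ hc
        · exact absurd ⟨⟨0, e1⟩, ⟨2, e2⟩⟩ hc
        · exact absurd ⟨⟨2, e2⟩, ⟨0, e1⟩⟩ hc
      · rcases h1 with ⟨e1, e2⟩ | ⟨e1, e2⟩
        · exact absurd ⟨⟨1, e1⟩, ⟨2, e2⟩⟩ hc
        · exact absurd ⟨⟨2, e2⟩, ⟨1, e1⟩⟩ hc

theorem atc_co (r : Fin 3 → V) (FF : Finset (Finset V)) (h : ATC r FF) :
    ∃ (w : ℕ → V) (L : Finset (V × V × V)), CO (r 1) (r 2) 2 w L univ ∧ w 1 = r 0 ∧ L.image fset = FF := by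
  obtain ⟨L, K, hCO, hL, hK⟩ := dstate_co r FF h 2 _ FF (dstate_init r FF h)
  have hKu : K = univ := by
    ext v
    rw [hK]
    exact ⟨fun _ => Finset.mem_univ v, fun _ => Or.inl (h.covered v)⟩
  rw [hKu] at hCO
  exact ⟨_, L, hCO, rfl, hL⟩

end MP0e5907
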