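import Pool.Agent.Lib_MP_0e5907.DChord

/-!
# Piece DREMOVE: removing a chordless vertex of the path

Let `u = w s`, `0 < s < m`, chordless, `n` a fan at `u` from `n 0 = w (s-1)` to `n k = w (s+1)`. New state: `D' = {g ∈ D : u ∉ g}`, `m' = m + k - 2`,
`w' i = w i` for `i ≤ s-1`, `w' i = n (i - (s-1))` for `s-1 ≤ i ≤ s-1+k`, `w' i = w (i + 2 - k)` for `s - 1 + k ≤ i`.

Paper proof.
* Injectivity: `n i` (`0 < i < k`) is not on the old path: `{u, n i} ⊆` a face of `D`; `n i = w l` is impossible for `l ∉ {s-1,s,s+1}` (chordless), `n i ≠ w (s-1) = n 0`, `n i ≠ w (s+1) = n k`, `n i ≠ u`.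
* `bdry`: let `a ≠ b`. If `u ∈ {a,b}`: no face of `D'` contains `a, b`, so not odd; `u` is not on the new path and not `r 1`, `r 2`. Otherwise the faces of `D` containing `a, b` are those of `D'` plus the fan faces `{u, n i, n (i+1)}` with `{a,b} = {n i, n (i+1)}` (at most one `i` by injectivity). Call this last condition `fan a b`. So parity(D') = parity(D) + [fan a b].
  `PEdge m' w' a b ↔ PEdge m w a b ∨ fan a b` (for `u ∉ {a,b}`), and `PEdge m w a b`, `fan a b` exclude each other: if `k ≥ 2` a fan edge has an end `n i`, `0 < i < k`, not on the old path; if `k = 1` the fan edge is `{w (s-1), w (s+1)}`, which is not a path edge by injectivity of `w`. A case distinction on the truth values finishes.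
* `Z`: an even symmetric relation `E'` on edges of `D'` is one on edges of `D`; let `A ⊆ D` be the set given by the old `Z`. No `E'`-edge contains `u` (no face of `D'` does), so by `fan_side` (even at `n 0` and all interior `n i`) no face of `D` at `u` is in `A`. So `A ⊆ D'`.
-/

namespace MP0e5907

open Finset

variable {V : Type} [Fintype V] [DecidableEq V]

/-- `{a, b}` is an outer edge of the fan -/
private def dremFan (k : ℕ) (n : ℕ → V) (a b : V) : Prop :=
  ∃ t, t < k ∧ ((a = n t ∧ b = n (t + 1)) ∨ (b = n t ∧ a = n (t + 1)))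

omit [Fintype V] in
/-- the fan faces containing `a, b` -/
private theorem drem_card (D : Finset (Finset V)) (u : V) (k : ℕ) (n : ℕ → V) (hf : Fan D u k n)
    (a b : V) (hab : a ≠ b) (hau : a ≠ u) (hbu : b ≠ u) :
    (dremFan k n a b → (D.filter fun g => u ∈ g ∧ a ∈ g ∧ b ∈ g).card = 1) ∧
    (¬ dremFan k n a b → (D.filter fun g => u ∈ g ∧ a ∈ g ∧ b ∈ g).card = 0) := by
  -- a face at `u` containing `a` and `b`
  have key : ∀ g ∈ D, u ∈ g → a ∈ g → b ∈ g → ∃ t, t < k ∧ g = {u, n t, n (t + 1)} ∧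
      ((a = n t ∧ b = n (t + 1)) ∨ (b = n t ∧ a = n (t + 1))) := by
    intro g hg hug hag hbg
    obtain ⟨t, ht, rfl⟩ := hf.all g hg hug
    simp only [Finset.mem_insert, Finset.mem_singleton] at hag hbg
    refine ⟨t, ht, rfl, ?_⟩
    rcases hag with h | h | h
    · exact absurd h hau
    · rcases hbg with h' | h' | h'
      · exact absurd h' hbu
      · exact absurd (h.trans h'.symm) hab
      · exact Or.inl ⟨h, h'⟩
    · rcases hbg with h' | h' | h'
      · exact absurd h' hbu
      · exact Or.inr ⟨h', h⟩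
      · exact absurd (h.trans h'.symm) hab
  constructor
  · rintro ⟨t, ht, htab⟩
    rw [Finset.card_eq_one]
    refine ⟨{u, n t, n (t + 1)}, ?_⟩
    ext g
    simp only [Finset.mem_filter, Finset.mem_singleton]
    constructor
    · rintro ⟨hg, hug, hag, hbg⟩
      obtain ⟨t', ht', hgt, htab'⟩ := key g hg hug hag hbg
      have htt : t' = t := by
        rcases htab with ⟨e1, e2⟩ | ⟨e1, e2⟩ <;> rcases htab' with ⟨e3, e4⟩ | ⟨e3, e4⟩
        · exact hf.ninj t' t (by omega) (by omega) (e3.symm.trans e1)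
        · have h1 := hf.ninj t' (t + 1) (by omega) (by omega) (e3.symm.trans e2)
          have h2 := hf.ninj (t' + 1) t (by omega) (by omega) (e4.symm.trans e1)
          omega
        · have h1 := hf.ninj t' (t + 1) (by omega) (by omega) (e3.symm.trans e2)
          have h2 := hf.ninj (t' + 1) t (by omega) (by omega) (e4.symm.trans e1)
          omega
        · exact hf.ninj t' t (by omega) (by omega) (e3.symm.trans e1)
      rw [hgt, htt]
    · rintro rfl
      refine ⟨hf.mem t ht, by simp, ?_, ?_⟩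
      · rcases htab with ⟨e1, e2⟩ | ⟨e1, e2⟩
        · rw [e1]; simp
        · rw [e2]; simp
      · rcases htab with ⟨e1, e2⟩ | ⟨e1, e2⟩
        · rw [e2]; simp
        · rw [e1]; simp
  · intro hno
    rw [Finset.card_eq_zero, Finset.filter_eq_empty_iff]
    rintro g hg ⟨hug, hag, hbg⟩
    obtain ⟨t, ht, _, htab⟩ := key g hg hug hag hbg
    exact hno ⟨t, ht, htab⟩

theorem dstate_remove (r : Fin 3 → V) (FF : Finset (Finset V)) (h : ATC r FF) (m : ℕ) (w : ℕ → V)
    (D : Finset (Finset V)) (hs : DState r FF m w D) (s : ℕ) (h0 : 0 < s) (hsm : s < m)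
    (hch : ∀ l, l ≤ m → l ≠ s → l + 1 ≠ s → l ≠ s + 1 → ∀ g ∈ D, w s ∈ g → w l ∉ g)
    (k : ℕ) (n : ℕ → V) (hf : Fan D (w s) k n) (hn0 : n 0 = w (s - 1)) (hnk : n k = w (s + 1))
    (m' : ℕ) (hm' : m' + 2 = m + k) (w' : ℕ → V) (h1 : ∀ i, i + 1 ≤ s → w' i = w i)
    (h2 : ∀ i, i ≤ k → w' (s - 1 + i) = n i) (h3 : ∀ i, s + 1 ≤ i → i ≤ m → w' (i + k - 2) = w i) :
    DState r FF m' w' (D.filter fun g => w s ∉ g) := by
  have hk := hf.hk
  have hm2 : 2 ≤ m := by omega
  -- interior vertices of the fan are not on the path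
  have hoff : ∀ t, 0 < t → t < k → ∀ l, l ≤ m → n t ≠ w l := by
    intro t ht0 htk l hl he
    by_cases e1 : l = s
    · exact hf.nu t htk.le (by rw [he, e1])
    by_cases e2 : l + 1 = s
    · have h4 : w l = n 0 := by rw [hn0]; congr 1; omega
      have h5 := hf.ninj t 0 htk.le (Nat.zero_le _) (he.trans h4)
      omega
    by_cases e3 : l = s + 1
    · have h4 : w l = n k := by rw [hnk, e3]
      have h5 := hf.ninj t k htk.le le_rfl (he.trans h4)
      omega
    refine hch l hl e1 e2 e3 _ (hf.mem t htk) (by simp) ?_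
    rw [← he]
    simp
  -- the three parts of the new path
  have hpos : ∀ i, i ≤ m' → (i + 1 ≤ s ∧ w' i = w i) ∨
      (∃ t, 0 < t ∧ t < k ∧ i = s - 1 + t ∧ w' i = n t) ∨
      (∃ j, s + 1 ≤ j ∧ j ≤ m ∧ i = j + k - 2 ∧ w' i = w j) := by
    intro i hi
    by_cases e1 : i + 1 ≤ s
    · exact Or.inl ⟨e1, h1 i e1⟩
    by_cases e2 : i < s - 1 + k
    · refine Or.inr (Or.inl ⟨i + 1 - s, by omega, by omega, by omega, ?_⟩)
      have h4 := h2 (i + 1 - s) (by omega)
      rwa [show s - 1 + (i + 1 - s) = i by omega] at h4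
    · refine Or.inr (Or.inr ⟨i + 2 - k, by omega, by omega, by omega, ?_⟩)
      have h4 := h3 (i + 2 - k) (by omega) (by omega)
      rwa [show i + 2 - k + k - 2 = i by omega] at h4
  -- `w s` is not on the new path
  have hu : ∀ i, i ≤ m' → w' i ≠ w s := by
    intro i hi he
    rcases hpos i hi with ⟨e1, e2⟩ | ⟨t, _, htk, _, e2⟩ | ⟨j, hj1, hj2, _, e2⟩
    · have := hs.winj i s (by omega) (by omega) (e2.symm.trans he)
      omega
    · exact hf.nu t htk.le (e2.symm.trans he)
    · have := hs.winj j s (by omega) (by omega) (e2.symm.trans he)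
      omega
  have hr1 : w s ≠ r 1 := by
    intro he
    have := hs.winj s 0 (by omega) (by omega) (he.trans hs.w0.symm)
    omega
  have hr2 : w s ≠ r 2 := by
    intro he
    have := hs.winj s m (by omega) (by omega) (he.trans hs.wm.symm)
    omega
  -- the new path edges
  have hPE : ∀ a b, a ≠ w s → b ≠ w s → (PEdge m' w' a b ↔ (PEdge m w a b ∨ dremFan k n a b)) := by
    intro a b ha hb
    constructor
    · rintro ⟨i, hi, hab⟩
      by_cases e1 : i + 2 ≤ s
      · rw [h1 i (by omega), h1 (i + 1) (by omega)] at hab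
        exact Or.inl ⟨i, by omega, hab⟩
      by_cases e2 : i < s - 1 + k
      · have h4 := h2 (i + 1 - s) (by omega)
        have h5 := h2 (i + 1 - s + 1) (by omega)
        rw [show s - 1 + (i + 1 - s) = i by omega] at h4
        rw [show s - 1 + (i + 1 - s + 1) = i + 1 by omega] at h5
        rw [h4, h5] at hab
        exact Or.inr ⟨i + 1 - s, by omega, hab⟩
      · have h4 := h3 (i + 2 - k) (by omega) (by omega)
        have h5 := h3 (i + 2 - k + 1) (by omega) (by omega)
        rw [show i + 2 - k + k - 2 = i by omega] at h4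
        rw [show i + 2 - k + 1 + k - 2 = i + 1 by omega] at h5
        rw [h4, h5] at hab
        exact Or.inl ⟨i + 2 - k, by omega, hab⟩
    · rintro (⟨i, hi, hab⟩ | ⟨t, ht, hab⟩)
      · have e1 : i ≠ s := by
          rintro rfl
          rcases hab with ⟨e, _⟩ | ⟨e, _⟩
          · exact ha e
          · exact hb e
        have e2 : i + 1 ≠ s := by
          rintro rfl
          rcases hab with ⟨_, e⟩ | ⟨_, e⟩
          · exact hb e
          · exact ha e
        by_cases e3 : i + 2 ≤ s
        · refine ⟨i, by omega, ?_⟩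
          rw [h1 i (by omega), h1 (i + 1) (by omega)]
          exact hab
        · refine ⟨i + k - 2, by omega, ?_⟩
          have h4 := h3 i (by omega) (by omega)
          have h5 := h3 (i + 1) (by omega) (by omega)
          rw [show i + 1 + k - 2 = i + k - 2 + 1 by omega] at h5
          rw [h4, h5]
          exact hab
      · refine ⟨s - 1 + t, by omega, ?_⟩
        have h4 := h2 t (by omega)
        have h5 := h2 (t + 1) (by omega)
        rw [show s - 1 + (t + 1) = s - 1 + t + 1 by omega] at h5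
        rw [h4, h5]
        exact hab
  -- exclusivity
  have hex : ∀ a b, a ≠ w s → b ≠ w s → PEdge m w a b → ¬ dremFan k n a b := by
    rintro a b ha hb ⟨i, hi, hab⟩ ⟨t, ht, hab'⟩
    have e1 : i ≠ s := by
      rintro rfl
      rcases hab with ⟨e, _⟩ | ⟨e, _⟩
      · exact ha e
      · exact hb e
    have e2 : i + 1 ≠ s := by
      rintro rfl
      rcases hab with ⟨_, e⟩ | ⟨_, e⟩
      · exact hb e
      · exact ha e
    -- both `n t` and `n (t+1)` are on the old path
    have hon : (∃ l, (l = i ∨ l = i + 1) ∧ n t = w l) ∧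
        (∃ l, (l = i ∨ l = i + 1) ∧ n (t + 1) = w l) := by
      rcases hab with ⟨e3, e4⟩ | ⟨e3, e4⟩ <;> rcases hab' with ⟨e5, e6⟩ | ⟨e5, e6⟩
      · exact ⟨⟨i, Or.inl rfl, e5.symm.trans e3⟩, ⟨i + 1, Or.inr rfl, e6.symm.trans e4⟩⟩
      · exact ⟨⟨i + 1, Or.inr rfl, e5.symm.trans e4⟩, ⟨i, Or.inl rfl, e6.symm.trans e3⟩⟩
      · exact ⟨⟨i + 1, Or.inr rfl, e5.symm.trans e4⟩, ⟨i, Or.inl rfl, e6.symm.trans e3⟩⟩
      · exact ⟨⟨i, Or.inl rfl, e5.symm.trans e3⟩, ⟨i + 1, Or.inr rfl, e6.symm.trans e4⟩⟩
    obtain ⟨⟨l, hl, hl'⟩, ⟨l2, hl2, hl2'⟩⟩ := hon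
    by_cases ht0 : 0 < t
    · exact hoff t ht0 ht l (by omega) hl'
    have ht0' : t = 0 := by omega
    subst ht0'
    by_cases hk2 : 1 < k
    · exact hoff 1 (by omega) hk2 l2 (by omega) hl2'
    have hk1 : k = 1 := by omega
    subst hk1
    have e5 := hs.winj l (s - 1) (by omega) (by omega) (hl'.symm.trans hn0)
    have e6 := hs.winj l2 (s + 1) (by omega) (by omega) (hl2'.symm.trans hnk)
    omega
  have hcard : ∀ a b, (D.filter fun g => a ∈ g ∧ b ∈ g).card =
      ((D.filter fun g => w s ∉ g).filter fun g => a ∈ g ∧ b ∈ g).card +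
        (D.filter fun g => w s ∈ g ∧ a ∈ g ∧ b ∈ g).card := by
    intro a b
    have h4 := Finset.card_filter_add_card_filter_not
      (s := D.filter fun g => a ∈ g ∧ b ∈ g) (fun g => w s ∈ g)
    rw [Finset.filter_filter, Finset.filter_filter] at h4
    rw [← h4, add_comm, Finset.filter_filter]
    congr 2
    · ext g
      simp only [Finset.mem_filter]
      tauto
    · ext g
      simp only [Finset.mem_filter]
      tauto
  refine ⟨by omega, ?_, ?_, ?_, ?_, ?_, ?_⟩
  · rw [h1 0 (by omega), hs.w0]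
  · have h4 := h3 m (by omega) le_rfl
    rw [show m + k - 2 = m' by omega] at h4
    rw [h4, hs.wm]
  · intro i j hi hj he
    rcases hpos i hi with ⟨a1, a2⟩ | ⟨t, a0, a1, a3, a2⟩ | ⟨l, a0, a1, a3, a2⟩ <;>
      rcases hpos j hj with ⟨b1, b2⟩ | ⟨t2, b0, b1, b3, b2⟩ | ⟨l2, b0, b1, b3, b2⟩
    · exact hs.winj i j (by omega) (by omega) (a2.symm.trans (he.trans b2))
    · exact absurd (b2.symm.trans (he.symm.trans a2)) (hoff t2 b0 b1 i (by omega))
    · have := hs.winj i l2 (by omega) (by omega) (a2.symm.trans (he.trans b2))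
      omega
    · exact absurd (a2.symm.trans (he.trans b2)) (hoff t a0 a1 j (by omega))
    · have := hf.ninj t t2 (by omega) (by omega) (a2.symm.trans (he.trans b2))
      omega
    · exact absurd (a2.symm.trans (he.trans b2)) (hoff t a0 a1 l2 (by omega))
    · have := hs.winj l j (by omega) (by omega) (a2.symm.trans (he.trans b2))
      omega
    · exact absurd (b2.symm.trans (he.symm.trans a2)) (hoff t2 b0 b1 l (by omega))
    · have := hs.winj l l2 (by omega) (by omega) (a2.symm.trans (he.trans b2))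
      omega
  · exact (Finset.filter_subset _ _).trans hs.sub
  · intro a b hab
    by_cases ha : a = w s
    · have h4 : ((D.filter fun g => w s ∉ g).filter fun g => a ∈ g ∧ b ∈ g).card = 0 := by
        rw [Finset.card_eq_zero, Finset.filter_eq_empty_iff]
        rintro g hg ⟨h5, _⟩
        rw [Finset.mem_filter] at hg
        exact hg.2 (ha ▸ h5)
      have h5 : ¬ PEdge m' w' a b := by
        rintro ⟨i, hi, ⟨e, _⟩ | ⟨_, e⟩⟩
        · exact hu i (by omega) (e.symm.trans ha)
        · exact hu (i + 1) (by omega) (e.symm.trans ha)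
      have h6 : ¬ BEdge r a b := by
        rintro (⟨e, _⟩ | ⟨_, e⟩)
        · exact hr1 (ha.symm.trans e)
        · exact hr2 (ha.symm.trans e)
      rw [h4]
      simp [h5, h6]
    by_cases hb : b = w s
    · have h4 : ((D.filter fun g => w s ∉ g).filter fun g => a ∈ g ∧ b ∈ g).card = 0 := by
        rw [Finset.card_eq_zero, Finset.filter_eq_empty_iff]
        rintro g hg ⟨_, h5⟩
        rw [Finset.mem_filter] at hg
        exact hg.2 (hb ▸ h5)
      have h5 : ¬ PEdge m' w' a b := by
        rintro ⟨i, hi, ⟨_, e⟩ | ⟨e, _⟩⟩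
        · exact hu (i + 1) (by omega) (e.symm.trans hb)
        · exact hu i (by omega) (e.symm.trans hb)
      have h6 : ¬ BEdge r a b := by
        rintro (⟨_, e⟩ | ⟨e, _⟩)
        · exact hr2 (hb.symm.trans e)
        · exact hr1 (hb.symm.trans e)
      rw [h4]
      simp [h5, h6]
    have h4 := hs.bdry a b hab
    have h5 := hcard a b
    have h6 := drem_card D (w s) k n hf a b hab ha hb
    have h7 := hPE a b ha hb
    have h8 := hex a b ha hb
    rw [h7]
    by_cases hF : dremFan k n a b
    · have h9 := h6.1 hF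
      have h10 : ¬ PEdge m w a b := fun hP => h8 hP hF
      rw [h9] at h5
      rw [h5, Nat.odd_add_one] at h4
      by_cases hB : BEdge r a b <;> simp only [hF, h10, hB] at h4 ⊢ <;> tauto
    · have h9 := h6.2 hF
      rw [h9, add_zero] at h5
      rw [← h5, h4]
      simp only [hF, or_false]
  · intro E hsym hE hev
    have hE' : ∀ a b, E a b → a ≠ b ∧ ∃ g ∈ D, a ∈ g ∧ b ∈ g := by
      intro a b hab
      obtain ⟨h4, g, hg, h5⟩ := hE a b hab
      exact ⟨h4, g, (Finset.mem_filter.mp hg).1, h5⟩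
    obtain ⟨A, hAD, hA⟩ := hs.Z E hsym hE' hev
    have hnoE : ∀ c, ¬ E (w s) c := by
      intro c hc
      obtain ⟨_, g, hg, h5, _⟩ := hE _ _ hc
      exact (Finset.mem_filter.mp hg).2 h5
    have hevA : ∀ c, c ≠ w s → Even (A.filter fun g => w s ∈ g ∧ c ∈ g).card := by
      intro c hc
      rw [← Nat.not_odd_iff_even, ← hA (w s) c (Ne.symm hc)]
      exact hnoE c
    have hside := (fan_side D A hAD (w s) k n hf
      (fun i _ hik => hevA _ (hf.nu i hik.le))).2 (hevA _ (hf.nu 0 (Nat.zero_le _)))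
    refine ⟨A, ?_, hA⟩
    intro g hg
    rw [Finset.mem_filter]
    exact ⟨hAD hg, fun hwg => hside g (hAD hg) hwg hg⟩

end MP0e5907
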