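import Pool.Agent.Lib_MP_0e5907.Base2

/-!
# Piece VOL: the area of a triangle

Paper proof. Let `T0 = tri (0,0) (1,0) (0,1) = {P : 0 ≤ P.1, 0 ≤ P.2, P.1 + P.2 ≤ 1}` and `c = volume T0`. `T0` is bounded (`⊆ Icc 0 1`-square), so `c ≠ ⊤`, and has
nonempty interior (it contains the open square `(0,1/2)^2`), so `c ≠ 0`. For `A B C` with `D = ar A B C > 0` let `L : ℝ × ℝ → ℝ × ℝ` be the linear map
`L (s,t) = s • (B - A) + t • (C - A)`, `det L = D`. Then `tri A B C = (fun P => A + L P) '' T0`: for `P = A + L (s,t)`: `ar A B P = t D`, `ar C A P = s D`,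
`ar B C P = (1 - s - t) D`; and `L` is bijective. By `MeasureTheory.Measure.addHaar_image_linearMap` and translation invariance,
`volume (tri A B C) = ENNReal.ofReal |D| * c`.
* `tri_interior`: the strict triangle is open (continuity of `ar A B ·`) and contained in `tri`; so if it is contained in a null set it is empty: a nonempty
  open set has positive volume. (`strict_pos`: a set containing a nonempty open set has nonzero volume.)
-/

namespace MP0e5907

open MeasureTheory

private theorem vol_cont (P Q : ℝ × ℝ) : Continuous fun R : ℝ × ℝ => ar P Q R := by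
  unfold ar
  fun_prop

private theorem vol_image (A B C : ℝ × ℝ) (hD : 0 < ar A B C) :
    tri A B C = (fun P => A + P) '' ((Matrix.toLin (Module.Basis.finTwoProd ℝ) (Module.Basis.finTwoProd ℝ)
      !![B.1 - A.1, C.1 - A.1; B.2 - A.2, C.2 - A.2]) '' tri (0, 0) (1, 0) (0, 1)) := by
  ext P
  constructor
  · rintro ⟨h1, h2, h3⟩
    refine ⟨(P.1 - A.1, P.2 - A.2), ⟨(ar C A P / ar A B C, ar A B P / ar A B C), ⟨?_, ?_, ?_⟩, ?_⟩, ?_⟩
    · have : ar (0, 0) (1, 0) (ar C A P / ar A B C, ar A B P / ar A B C) = ar A B P / ar A B C := by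
        simp [ar]
      rw [this]
      positivity
    · have : ar (1, 0) (0, 1) (ar C A P / ar A B C, ar A B P / ar A B C) = ar B C P / ar A B C := by
        have e : ar B C P = ar A B C - ar C A P - ar A B P := by
          unfold ar
          ring
        rw [e, sub_div, sub_div, div_self hD.ne']
        generalize ar C A P / ar A B C = s
        generalize ar A B P / ar A B C = t
        simp only [ar]
        ring
      rw [this]
      positivity
    · have : ar (0, 1) (0, 0) (ar C A P / ar A B C, ar A B P / ar A B C) = ar C A P / ar A B C := by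
        simp [ar]
      rw [this]
      positivity
    · rw [Matrix.toLin_finTwoProd_apply]
      have hD' := hD.ne'
      ext
      · simp only
        rw [← mul_div_assoc, ← mul_div_assoc, ← add_div, div_eq_iff hD']
        unfold ar
        ring
      · simp only
        rw [← mul_div_assoc, ← mul_div_assoc, ← add_div, div_eq_iff hD']
        unfold ar
        ring
    · ext <;> simp
  · rintro ⟨_, ⟨⟨s, t⟩, ⟨h1, h2, h3⟩, rfl⟩, rfl⟩
    have e1 : ar (0, 0) (1, 0) (s, t) = t := by simp [ar]
    have e2 : ar (1, 0) (0, 1) (s, t) = 1 - s - t := by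
      simp only [ar]
      ring
    have e3 : ar (0, 1) (0, 0) (s, t) = s := by simp [ar]
    rw [e1] at h1
    rw [e2] at h2
    rw [e3] at h3
    simp only [Matrix.toLin_finTwoProd_apply]
    refine ⟨?_, ?_, ?_⟩
    · have e : ar A B (A + ((B.1 - A.1) * s + (C.1 - A.1) * t, (B.2 - A.2) * s + (C.2 - A.2) * t)) =
          t * ar A B C := by
        simp only [ar, Prod.fst_add, Prod.snd_add]
        ring
      rw [e]
      positivity
    · have e : ar B C (A + ((B.1 - A.1) * s + (C.1 - A.1) * t, (B.2 - A.2) * s + (C.2 - A.2) * t)) =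
          (1 - s - t) * ar A B C := by
        simp only [ar, Prod.fst_add, Prod.snd_add]
        ring
      rw [e]
      positivity
    · have e : ar C A (A + ((B.1 - A.1) * s + (C.1 - A.1) * t, (B.2 - A.2) * s + (C.2 - A.2) * t)) =
          s * ar A B C := by
        simp only [ar, Prod.fst_add, Prod.snd_add]
        ring
      rw [e]
      positivity

theorem tri_volume : ∃ c : ENNReal, c ≠ 0 ∧ c ≠ ⊤ ∧ ∀ A B C : ℝ × ℝ, 0 < ar A B C →
    volume (tri A B C) = ENNReal.ofReal (ar A B C) * c := by
  refine ⟨volume (tri (0, 0) (1, 0) (0, 1)), ?_, ?_, ?_⟩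
  · have hU : IsOpen (Set.Ioo (0 : ℝ) (1 / 2) ×ˢ Set.Ioo (0 : ℝ) (1 / 2)) := isOpen_Ioo.prod isOpen_Ioo
    have hne : (Set.Ioo (0 : ℝ) (1 / 2) ×ˢ Set.Ioo (0 : ℝ) (1 / 2)).Nonempty :=
      ⟨(1 / 4, 1 / 4), by constructor <;> constructor <;> norm_num⟩
    have hpos := hU.measure_pos volume hne
    have hsub : Set.Ioo (0 : ℝ) (1 / 2) ×ˢ Set.Ioo (0 : ℝ) (1 / 2) ⊆ tri (0, 0) (1, 0) (0, 1) := by
      rintro ⟨x, y⟩ ⟨⟨h1, h2⟩, h3, h4⟩
      simp only at h1 h2 h3 h4
      refine ⟨?_, ?_, ?_⟩ <;> simp only [ar] <;> linarith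
    exact (lt_of_lt_of_le hpos (measure_mono hsub)).ne'
  · have hsub : tri (0, 0) (1, 0) (0, 1) ⊆ Set.Icc ((0, 0) : ℝ × ℝ) (1, 1) := by
      rintro ⟨x, y⟩ ⟨h1, h2, h3⟩
      simp only [ar] at h1 h2 h3
      refine ⟨⟨?_, ?_⟩, ⟨?_, ?_⟩⟩ <;> simp only <;> linarith
    exact ne_top_of_le_ne_top (isCompact_Icc.measure_lt_top).ne (measure_mono hsub)
  · intro A B C hD
    rw [vol_image A B C hD, Set.image_add_left, measure_preimage_add,
      Measure.addHaar_image_linearMap, LinearMap.det_toLin, Matrix.det_fin_two_of]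
    have e : (B.1 - A.1) * (C.2 - A.2) - (C.1 - A.1) * (B.2 - A.2) = ar A B C := by
      unfold ar
      ring
    rw [e, abs_of_pos hD]

theorem tri_closed (A B C : ℝ × ℝ) : IsClosed (tri A B C) :=
  (isClosed_le continuous_const (vol_cont A B)).inter
    ((isClosed_le continuous_const (vol_cont B C)).inter (isClosed_le continuous_const (vol_cont C A)))

end MP0e5907
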