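import Pool.Agent.Lib_MP_0e5907.LocA
import Pool.Agent.Lib_MP_0e5907.Vol

/-!
# Piece DISJ: the faces of a locally convex lifting are almost disjoint

`ftri T X g = tri (X (vert g 0)) (X (vert g 1)) (X (vert g 2))`.

Paper proof.
* `mem_ftri`: `P ∈ ftri g ↔ ∀ k, 0 ≤ ar (X (vert g (k+1))) (X (vert g (k+2))) P` (`k = 0,1,2`; `Fin 3` arithmetic).
* `farea_sum`: `∑_g farea g = ar (X (inr 0)) (X (inr 1)) (X (inr 2))`: `ar P Q R = [P,Q] + [Q,R] + [R,P]` with `[P,Q] = P.1 Q.2 - P.2 Q.1`; `sum_sides` as in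
  `area_identity` (or apply `area_identity` to `q v = ![1 - (X v).1 - (X v).2, (X v).1, (X v).2]`, whose `fdet` is `farea`).
* `cover`: every `P` in the closed outer triangle is in some `ftri g`: choose `g` maximising `lh g P` (finite, `F` nonempty) and use `max_lemma`.
* `overlap_null`: let `g ≠ g'`. Let `c` be the constant of `tri_volume`, `Δ` the closed outer triangle. `Δ ⊆ ⋃ ftri g`, so
  `vol Δ ≤ vol (⋃_g ftri g)`. Also `vol (⋃_{g0} ftri g0) ≤ ∑_{g0 ≠ g'} vol (ftri g0) + vol (ftri g' \ ftri g)` and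
  `vol (ftri g' \ ftri g) = vol (ftri g') - vol (ftri g' ∩ ftri g)` (finite). The sum of all volumes is `c * ∑ farea = c * ar Δ = vol Δ < ∞`. So
  `vol (ftri g ∩ ftri g') = 0`.
* `no_open_overlap`: so a nonempty open set is not contained in `ftri g ∩ ftri g'`.
-/

namespace MP0e5907

open Finset MeasureTheory

variable {N F : Type}

/-- the closed triangle of a face -/
def ftri (T : STri N F) (X : N ⊕ Fin 3 → ℝ × ℝ) (g : F) : Set (ℝ × ℝ) :=
  tri (X (T.vert g 0)) (X (T.vert g 1)) (X (T.vert g 2))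

/-- membership in a triangle with vertices indexed by `Fin 3` -/
theorem disj_mem_tri (A : Fin 3 → ℝ × ℝ) (P : ℝ × ℝ) :
    P ∈ tri (A 0) (A 1) (A 2) ↔ ∀ k : Fin 3, 0 ≤ ar (A (k + 1)) (A (k + 2)) P := by
  constructor
  · rintro ⟨h1, h2, h3⟩ k
    fin_cases k
    · exact h2
    · exact h3
    · exact h1
  · intro h
    exact ⟨h 2, h 0, h 1⟩

theorem mem_ftri (T : STri N F) (X : N ⊕ Fin 3 → ℝ × ℝ) (g : F) (P : ℝ × ℝ) :
    P ∈ ftri T X g ↔ ∀ k : Fin 3, 0 ≤ ar (X (T.vert g (k + 1))) (X (T.vert g (k + 2))) P := by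
  exact disj_mem_tri (fun i => X (T.vert g i)) P

theorem farea_sum [Fintype N] [Fintype F] (T : STri N F) (X : N ⊕ Fin 3 → ℝ × ℝ) :
    ∑ g, farea T X g = ar (X (Sum.inr 0)) (X (Sum.inr 1)) (X (Sum.inr 2)) := by
  have h := area_identity T (fun v => ![1 - (X v).1 - (X v).2, (X v).1, (X v).2]) (fun v => by
    rw [Fin.sum_univ_three]
    simp
    ring)
  have h1 : ∀ g, fdet T (fun v => ![1 - (X v).1 - (X v).2, (X v).1, (X v).2]) g = farea T X g := by
    intro g
    unfold fdet farea ar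
    rw [Matrix.det_fin_three]
    simp
    ring
  simp_rw [h1] at h
  rw [h]
  unfold ar
  rw [Matrix.det_fin_three]
  simp
  ring

theorem cover [Fintype N] [Fintype F] (T : STri N F) (X : N ⊕ Fin 3 → ℝ × ℝ) (z : N ⊕ Fin 3 → ℝ)
    (h : LocConv T X z) (P : ℝ × ℝ)
    (hP : ∀ j : Fin 3, 0 ≤ ar (X (Sum.inr (j + 1))) (X (Sum.inr (j + 2))) P) :
    ∃ g, P ∈ ftri T X g ∧ ∀ g', lh T X z g' P ≤ lh T X z g P := by
  have : Nonempty F := ⟨T.of 0⟩
  obtain ⟨g, hg⟩ := Finite.exists_max (fun g => lh T X z g P)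
  exact ⟨g, (mem_ftri T X g P).2 fun k => max_lemma T X z h P hP g hg k, hg⟩

theorem overlap_null [Fintype N] [Fintype F] (T : STri N F) (X : N ⊕ Fin 3 → ℝ × ℝ) (z : N ⊕ Fin 3 → ℝ)
    (h : LocConv T X z) (g g' : F) (hne : g ≠ g') : volume (ftri T X g ∩ ftri T X g') = 0 := by
  classical
  obtain ⟨c, -, hc, hvol⟩ := tri_volume
  have hmeas : ∀ g, MeasurableSet (ftri T X g) := fun g => (tri_closed _ _ _).measurableSet
  have hΔv : volume (tri (X (Sum.inr 0)) (X (Sum.inr 1)) (X (Sum.inr 2))) =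
      ENNReal.ofReal (ar (X (Sum.inr 0)) (X (Sum.inr 1)) (X (Sum.inr 2))) * c := hvol _ _ _ h.outer
  have hg : ∀ g0, volume (ftri T X g0) = ENNReal.ofReal (farea T X g0) * c := fun g0 =>
    hvol _ _ _ (h.area g0)
  have hsum : ∑ g0, volume (ftri T X g0) =
      volume (tri (X (Sum.inr 0)) (X (Sum.inr 1)) (X (Sum.inr 2))) := by
    simp_rw [hg]
    rw [← Finset.sum_mul, ← ENNReal.ofReal_sum_of_nonneg (fun g _ => (h.area g).le), farea_sum, hΔv]
  have hfin : volume (tri (X (Sum.inr 0)) (X (Sum.inr 1)) (X (Sum.inr 2))) ≠ ⊤ := by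
    rw [hΔv]
    exact ENNReal.mul_ne_top ENNReal.ofReal_ne_top hc
  have hcov : tri (X (Sum.inr 0)) (X (Sum.inr 1)) (X (Sum.inr 2)) ⊆
      (⋃ g0 ∈ univ.erase g', ftri T X g0) ∪ (ftri T X g' \ ftri T X g) := by
    intro P hP
    obtain ⟨g0, hg0, -⟩ := cover T X z h P
      ((disj_mem_tri (fun i => X (Sum.inr i)) P).1 hP)
    by_cases h0 : g0 = g'
    · subst h0
      by_cases h1 : P ∈ ftri T X g
      · left
        exact Set.mem_biUnion (Finset.mem_erase.2 ⟨hne, Finset.mem_univ g⟩) h1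
      · right
        exact ⟨hg0, h1⟩
    · left
      exact Set.mem_biUnion (Finset.mem_erase.2 ⟨h0, Finset.mem_univ g0⟩) hg0
  have h1 : volume (tri (X (Sum.inr 0)) (X (Sum.inr 1)) (X (Sum.inr 2))) ≤
      ∑ g0 ∈ univ.erase g', volume (ftri T X g0) + volume (ftri T X g' \ ftri T X g) :=
    (measure_mono hcov).trans ((measure_union_le _ _).trans
      (add_le_add (measure_biUnion_finset_le _ _) le_rfl))
  have h2 : volume (ftri T X g' ∩ ftri T X g) + volume (ftri T X g' \ ftri T X g) =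
      volume (ftri T X g') := measure_inter_add_sdiff _ (hmeas g)
  have h3 : volume (tri (X (Sum.inr 0)) (X (Sum.inr 1)) (X (Sum.inr 2))) +
      volume (ftri T X g ∩ ftri T X g') ≤
      volume (tri (X (Sum.inr 0)) (X (Sum.inr 1)) (X (Sum.inr 2))) + 0 := by
    calc volume (tri (X (Sum.inr 0)) (X (Sum.inr 1)) (X (Sum.inr 2))) +
          volume (ftri T X g ∩ ftri T X g')
        ≤ (∑ g0 ∈ univ.erase g', volume (ftri T X g0) + volume (ftri T X g' \ ftri T X g)) +
          volume (ftri T X g ∩ ftri T X g') := add_le_add h1 le_rfl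
      _ = ∑ g0 ∈ univ.erase g', volume (ftri T X g0) +
          (volume (ftri T X g' ∩ ftri T X g) + volume (ftri T X g' \ ftri T X g)) := by
          rw [Set.inter_comm (ftri T X g), add_assoc, add_comm (volume (ftri T X g' \ ftri T X g))]
      _ = ∑ g0 ∈ univ.erase g', volume (ftri T X g0) + volume (ftri T X g') := by rw [h2]
      _ = ∑ g0, volume (ftri T X g0) := Finset.sum_erase_add _ _ (Finset.mem_univ g')
      _ = volume (tri (X (Sum.inr 0)) (X (Sum.inr 1)) (X (Sum.inr 2))) + 0 := by rw [hsum, add_zero]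
  exact le_antisymm ((ENNReal.add_le_add_iff_left hfin).1 h3) zero_le

end MP0e5907
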