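import Pool.Agent.Lib_MP_0e5907.Base

/-!
# Piece SIDES: elementary consequences of the bijection `sideMap`

Paper proof. `T.sides` says that `(N × Fin 3 ⊕ N × Fin 3) ⊕ Fin 3 → F × Fin 3` is a bijection.
* `card_F`: `3 |F| = 3|N| + 3|N| + 3`.
* `sum_sides`: sum `Φ` over `F × Fin 3` and reindex by the bijection (`Function.Bijective.sum_comp`/`Equiv.ofBijective`).
* `side_cases`: `(g,i)` is in the image of `sideMap`; the three kinds of elements give the three cases
  (`Cross` is by definition one of the first two).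
* `cross_not_outer`, `cross_unique`: injectivity of `sideMap`: a side `(g,i)` is the image of exactly one element.
  In `cross_unique` the mixed cases (`g = lf e`, `i = e.2+1` and `g = rf e2`, `i = e2.2+2`) are excluded by injectivity
  (`Sum.inl (Sum.inl e) ≠ Sum.inl (Sum.inr e2)`).
* `lf_ne_rf`: the tail `u = inl e.1` has label `e.2+2` in `lf e` and `e.2+1` in `rf e`; by `reg_vert`
  `reg u (lf e) = e.2+2` and `reg u (rf e) = e.2+1`, and `e.2 + 2 ≠ e.2 + 1` in `Fin 3`.
* `cross_reg`: from `reg_cross e v`: if the regions of `v` at `lf e`, `rf e` differ they are `e.2+2` and `e.2+1`.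
  Crossing from `lf e` (side `i = e.2+1`) we arrive at region `e.2+1 = i`; crossing from `rf e` (side `i = e.2+2`) we
  arrive at region `e.2+2 = i`.
* `cross_strict`: for `v =` tail of `e`: `reg v (lf e) = e.2+2`, `reg v (rf e) = e.2+1` as above. Case `g = lf e`,
  `i = e.2+1`: `reg v g = e.2+2 ≠ i`, `reg v g' = e.2+1 = i`. Case `g = rf e`, `i = e.2+2`: `reg v g = e.2+1 ≠ i`,
  `reg v g' = e.2+2 = i`.
-/

namespace MP0e5907

open Finset

variable {N F : Type}

private theorem sides_lf (T : STri N F) (e : N × Fin 3) :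
    T.reg (Sum.inl e.1) (T.lf e) = e.2 + 2 := by
  have h := T.reg_vert (T.lf e) (e.2 + 2)
  rwa [T.lf_tail] at h

private theorem sides_rf (T : STri N F) (e : N × Fin 3) :
    T.reg (Sum.inl e.1) (T.rf e) = e.2 + 1 := by
  have h := T.reg_vert (T.rf e) (e.2 + 1)
  rwa [T.rf_tail] at h

private theorem sides_ne : ∀ c : Fin 3, c + 2 ≠ c + 1 := by decide

theorem card_F [Fintype N] [Fintype F] (T : STri N F) :
    Fintype.card F = 2 * Fintype.card N + 1 := by
  have h := Fintype.card_of_bijective T.sides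
  simp only [Fintype.card_sum, Fintype.card_prod, Fintype.card_fin] at h
  omega

theorem sum_sides [Fintype N] [Fintype F] (T : STri N F) (Φ : F → Fin 3 → ℝ) :
    ∑ g, ∑ k, Φ g k =
      ∑ e : N × Fin 3, (Φ (T.lf e) (e.2 + 1) + Φ (T.rf e) (e.2 + 2)) + ∑ j, Φ (T.of j) j := by
  have h := Function.Bijective.sum_comp T.sides (fun p : F × Fin 3 => Φ p.1 p.2)
  rw [Fintype.sum_prod_type] at h
  rw [← h, Fintype.sum_sum_type, Fintype.sum_sum_type, Finset.sum_add_distrib]
  rfl

theorem side_cases (T : STri N F) (i : Fin 3) (g : F) : g = T.of i ∨ ∃ e g', Cross T i g e g' := by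
  obtain ⟨a, ha⟩ := T.sides.2 (g, i)
  rcases a with (e | e) | j
  · right
    have h1 : T.lf e = g := congrArg Prod.fst ha
    have h2 : e.2 + 1 = i := congrArg Prod.snd ha
    exact ⟨e, T.rf e, Or.inl ⟨h1.symm, rfl, h2.symm⟩⟩
  · right
    have h1 : T.rf e = g := congrArg Prod.fst ha
    have h2 : e.2 + 2 = i := congrArg Prod.snd ha
    exact ⟨e, T.lf e, Or.inr ⟨h1.symm, rfl, h2.symm⟩⟩
  · left
    have h1 : T.of j = g := congrArg Prod.fst ha
    have h2 : j = i := congrArg Prod.snd ha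
    rw [← h1, h2]

theorem cross_not_outer (T : STri N F) {i : Fin 3} {g g' : F} {e : N × Fin 3} (h : Cross T i g e g') :
    g ≠ T.of i := by
  intro hg
  have h0 : sideMap T.lf T.rf T.of (Sum.inr i) = (g, i) := Prod.ext hg.symm rfl
  rcases h with ⟨h1, -, h3⟩ | ⟨h1, -, h3⟩
  · have h4 : sideMap T.lf T.rf T.of (Sum.inl (Sum.inl e)) = (g, i) := Prod.ext h1.symm h3.symm
    have h5 := T.sides.1 (h0.trans h4.symm)
    cases h5
  · have h4 : sideMap T.lf T.rf T.of (Sum.inl (Sum.inr e)) = (g, i) := Prod.ext h1.symm h3.symm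
    have h5 := T.sides.1 (h0.trans h4.symm)
    cases h5

theorem cross_unique (T : STri N F) {i : Fin 3} {g g' g2 : F} {e e2 : N × Fin 3}
    (h : Cross T i g e g') (h2 : Cross T i g e2 g2) : e = e2 ∧ g' = g2 := by
  rcases h with ⟨h1, h2', h3⟩ | ⟨h1, h2', h3⟩
  · have h4 : sideMap T.lf T.rf T.of (Sum.inl (Sum.inl e)) = (g, i) := Prod.ext h1.symm h3.symm
    rcases h2 with ⟨k1, k2, k3⟩ | ⟨k1, k2, k3⟩
    · have h5 : sideMap T.lf T.rf T.of (Sum.inl (Sum.inl e2)) = (g, i) := Prod.ext k1.symm k3.symm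
      have h6 := T.sides.1 (h4.trans h5.symm)
      have h7 : e = e2 := Sum.inl_injective (Sum.inl_injective h6)
      rw [h2', k2, h7]
      exact ⟨rfl, rfl⟩
    · have h5 : sideMap T.lf T.rf T.of (Sum.inl (Sum.inr e2)) = (g, i) := Prod.ext k1.symm k3.symm
      have h6 := T.sides.1 (h4.trans h5.symm)
      cases h6
  · have h4 : sideMap T.lf T.rf T.of (Sum.inl (Sum.inr e)) = (g, i) := Prod.ext h1.symm h3.symm
    rcases h2 with ⟨k1, k2, k3⟩ | ⟨k1, k2, k3⟩
    · have h5 : sideMap T.lf T.rf T.of (Sum.inl (Sum.inl e2)) = (g, i) := Prod.ext k1.symm k3.symm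
      have h6 := T.sides.1 (h4.trans h5.symm)
      cases h6
    · have h5 : sideMap T.lf T.rf T.of (Sum.inl (Sum.inr e2)) = (g, i) := Prod.ext k1.symm k3.symm
      have h6 := T.sides.1 (h4.trans h5.symm)
      have h7 : e = e2 := Sum.inr_injective (Sum.inl_injective h6)
      rw [h2', k2, h7]
      exact ⟨rfl, rfl⟩

theorem lf_ne_rf (T : STri N F) (e : N × Fin 3) : T.lf e ≠ T.rf e := by
  intro h
  have h1 := sides_lf T e
  rw [h, sides_rf T e] at h1
  exact sides_ne e.2 h1.symm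

theorem cross_reg (T : STri N F) {i : Fin 3} {g g' : F} {e : N × Fin 3} (h : Cross T i g e g')
    (v : N ⊕ Fin 3) : T.reg v g' = T.reg v g ∨ T.reg v g' = i := by
  rcases h with ⟨h1, h2, h3⟩ | ⟨h1, h2, h3⟩
  · rcases T.reg_cross e v with h4 | ⟨h4, h5⟩
    · left
      rw [h1, h2, h4]
    · right
      rw [h2, h5, h3]
  · rcases T.reg_cross e v with h4 | ⟨h4, h5⟩
    · left
      rw [h1, h2, h4]
    · right
      rw [h2, h4, h3]

theorem cross_strict (T : STri N F) {i : Fin 3} {g g' : F} {e : N × Fin 3} (h : Cross T i g e g') :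
    T.reg (Sum.inl e.1) g ≠ i ∧ T.reg (Sum.inl e.1) g' = i := by
  rcases h with ⟨h1, h2, h3⟩ | ⟨h1, h2, h3⟩
  · rw [h1, h2, h3, sides_lf, sides_rf]
    exact ⟨sides_ne _, rfl⟩
  · rw [h1, h2, h3, sides_lf, sides_rf]
    exact ⟨(sides_ne _).symm, rfl⟩

end MP0e5907
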