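import Pool.Agent.Lib_MP_0e5907.Area
import Pool.Agent.Lib_MP_0e5907.Conn
import Pool.Agent.Lib_MP_0e5907.Sides

/-!
# Piece EXACT: exactness by dimension count

Paper proof. Linear maps `d : ℝ^N → ℝ^E`, `d y = dif T (ext0 y)`, `∂ : ℝ^E → ℝ^F`, `∂ φ = bd T φ`, and
`δ : ℝ^F → ℝ^E`, `(δ h) e = h (lf e) - h (rf e)`; `|E| = 3|N|`, `|F| = 2|N|+1` (`card_F`).
`∂ ∘ d = 0` by `bd_dif` (with `x = ext0 y` all roots have value `0`). `d` is injective (`dif_inj`), so `rank d = |N|`.
`∂` and `δ` are transposes of each other: `∑_g h g * bd T φ g = ∑_e (h (lf e) - h (rf e)) * φ e`. The kernel of `δ` is the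
set of constant functions (`dual_conn`), so `rank δ = |F| - 1 = 2|N|` (F is nonempty: `of 0`).
* `exact_bd`: `dim ker ∂ = |E| - rank ∂ = 3|N| - 2|N| = |N|` (`rank ∂ = rank δ`: transposed matrices, `Matrix.rank_transpose`;
  or: `ker ∂ = (im δ)^⊥`, use `finrank` of the orthogonal complement/dual annihilator). `im d ⊆ ker ∂` and both have
  dimension `|N|`, so they are equal.
* `coexact`: `W = {ψ : ∀ y, ∑_e dif (ext0 y) e * ψ e = 0}` is the orthogonal of `im d`, so has dimension `3|N| - |N| = 2|N|`,
  it contains `im δ` (because `∑_e dif(ext0 y) e * (δ h) e = ∑_g h g * bd (dif (ext0 y)) g = 0`), and `rank δ = 2|N|`. So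
  `W = im δ`.
A convenient way to do both at once: use matrices `A : Matrix E N`, `B : Matrix F E` with `B * A = 0`,
`rank A = |N|`, `rank B = 2|N|`, `|E| = 3|N|`; `Matrix.rank_transpose`, `LinearMap.finrank_range_add_finrank_ker`
and `Submodule.eq_of_le_of_finrank_eq`. For `coexact`: `W = ker Aᵀ` has dimension `3|N| - rank Aᵀ = 2|N|` and contains
`im Bᵀ` of dimension `2|N|`.
-/

namespace MP0e5907

open Finset

variable {N F : Type}

/-- the map `y ↦ dif T (ext0 y)` -/
def exactD (T : STri N F) : (N → ℝ) →ₗ[ℝ] (N × Fin 3 → ℝ) where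
  toFun y := fun e => dif T (ext0 y) e
  map_add' y z := by
    funext e
    have h : ∀ w : N ⊕ Fin 3, ext0 (y + z) w = ext0 y w + ext0 z w := by
      intro w; cases w <;> simp [ext0]
    simp only [dif, h, Pi.add_apply]
    ring
  map_smul' c y := by
    funext e
    have h : ∀ w : N ⊕ Fin 3, ext0 (c • y) w = c * ext0 y w := by
      intro w; cases w <;> simp [ext0]
    simp only [dif, h, Pi.smul_apply, smul_eq_mul, RingHom.id_apply]
    ring

/-- the face-edge incidence matrix -/
def exactB [DecidableEq F] (T : STri N F) : Matrix F (N × Fin 3) ℝ :=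
  Matrix.of fun g e => (if T.lf e = g then 1 else 0) - (if T.rf e = g then 1 else 0)

theorem exactB_mulVec [Fintype N] [DecidableEq F] (T : STri N F) (φ : N × Fin 3 → ℝ) (g : F) :
    (exactB T).mulVec φ g = bd T φ g := by
  simp only [Matrix.mulVec, dotProduct, exactB, Matrix.of_apply, bd, sub_mul, ite_mul, one_mul,
    zero_mul, Finset.sum_sub_distrib]

theorem exactBT_mulVec [Fintype N] [Fintype F] [DecidableEq F] (T : STri N F) (h : F → ℝ)
    (e : N × Fin 3) :
    (exactB T).transpose.mulVec h e = h (T.lf e) - h (T.rf e) := by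
  simp [Matrix.mulVec, dotProduct, exactB, sub_mul, ite_mul, Finset.sum_sub_distrib]

theorem exact_rangeD [Fintype N] [Fintype F] (T : STri N F) :
    Module.finrank ℝ (LinearMap.range (exactD T)) = Fintype.card N := by
  have hinj : Function.Injective (exactD T) := by
    rw [← LinearMap.ker_eq_bot, LinearMap.ker_eq_bot']
    intro y hy
    exact dif_inj T y (fun e => congrFun hy e)
  rw [LinearMap.finrank_range_of_inj hinj, Module.finrank_fintype_fun_eq_card]

theorem exact_rangeBT [Fintype N] [Fintype F] [DecidableEq F] (T : STri N F) :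
    Module.finrank ℝ (LinearMap.range (exactB T).transpose.mulVecLin) = 2 * Fintype.card N := by
  have h1 := LinearMap.finrank_range_add_finrank_ker (exactB T).transpose.mulVecLin
  have hker : LinearMap.ker (exactB T).transpose.mulVecLin = Submodule.span ℝ {fun _ : F => (1 : ℝ)} := by
    ext h
    rw [LinearMap.mem_ker, Submodule.mem_span_singleton]
    constructor
    · intro hh
      refine ⟨h (T.of 0), ?_⟩
      funext g
      have h2 : ∀ e, h (T.lf e) = h (T.rf e) := by
        intro e
        have h3 := congrFun hh e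
        rw [Matrix.mulVecLin_apply, exactBT_mulVec] at h3
        simpa [sub_eq_zero] using h3
      have := dual_conn T h h2 (T.of 0) g
      simp [this]
    · rintro ⟨c, rfl⟩
      funext e
      rw [Matrix.mulVecLin_apply, exactBT_mulVec]
      simp
  have hne : (fun _ : F => (1 : ℝ)) ≠ 0 := by
    intro h
    have := congrFun h (T.of 0)
    simp at this
  rw [hker, finrank_span_singleton hne, Module.finrank_fintype_fun_eq_card, card_F T] at h1
  omega

theorem exact_comp [Fintype N] [Fintype F] [DecidableEq F] (T : STri N F) (y : N → ℝ) :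
    (exactB T).mulVec (exactD T y) = 0 := by
  funext g
  rw [exactB_mulVec]
  have : bd T (exactD T y) g = bd T (dif T (ext0 y)) g := rfl
  rw [this, bd_dif]
  simp [ext0]

theorem exact_bd [Fintype N] [Fintype F] [DecidableEq F] (T : STri N F) (φ : N × Fin 3 → ℝ)
    (h : ∀ g, bd T φ g = 0) : ∃ y : N → ℝ, ∀ e, φ e = dif T (ext0 y) e := by
  have hle : LinearMap.range (exactD T) ≤ LinearMap.ker (exactB T).mulVecLin := by
    rintro _ ⟨y, rfl⟩
    rw [LinearMap.mem_ker, Matrix.mulVecLin_apply, exact_comp]
  have h1 := LinearMap.finrank_range_add_finrank_ker (exactB T).mulVecLin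
  have h2 : Module.finrank ℝ (LinearMap.range (exactB T).mulVecLin) = 2 * Fintype.card N := by
    have h3 := Matrix.rank_transpose (exactB T)
    unfold Matrix.rank at h3
    rw [← h3]
    exact exact_rangeBT T
  rw [h2, Module.finrank_fintype_fun_eq_card, Fintype.card_prod, Fintype.card_fin] at h1
  have heq := Submodule.eq_of_le_of_finrank_eq hle (by rw [exact_rangeD]; omega)
  have hφ : φ ∈ LinearMap.ker (exactB T).mulVecLin := by
    rw [LinearMap.mem_ker, Matrix.mulVecLin_apply]
    funext g
    rw [exactB_mulVec, h g]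
    rfl
  rw [← heq] at hφ
  obtain ⟨y, hy⟩ := hφ
  exact ⟨y, fun e => (congrFun hy e).symm⟩

theorem coexact [Fintype N] [Fintype F] (T : STri N F) (ψ : N × Fin 3 → ℝ)
    (h : ∀ y : N → ℝ, ∑ e, dif T (ext0 y) e * ψ e = 0) :
    ∃ k : F → ℝ, ∀ e, ψ e = k (T.lf e) - k (T.rf e) := by
  classical
  set A : Matrix (N × Fin 3) N ℝ := LinearMap.toMatrix' (exactD T) with hA
  have hAv : ∀ y, A.mulVec y = exactD T y := by
    intro y
    rw [hA]
    exact LinearMap.toMatrix'_mulVec _ _
  have hBA : exactB T * A = 0 := by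
    ext g v
    have h1 := congrFun (exact_comp T (Pi.single v 1)) g
    rw [← hAv, Matrix.mulVec_mulVec] at h1
    simpa using h1
  have hle : LinearMap.range (exactB T).transpose.mulVecLin ≤ LinearMap.ker A.transpose.mulVecLin := by
    rintro _ ⟨k, rfl⟩
    rw [LinearMap.mem_ker, Matrix.mulVecLin_apply, Matrix.mulVecLin_apply, Matrix.mulVec_mulVec,
      ← Matrix.transpose_mul, hBA]
    simp
  have h1 := LinearMap.finrank_range_add_finrank_ker A.transpose.mulVecLin
  have h2 : Module.finrank ℝ (LinearMap.range A.transpose.mulVecLin) = Fintype.card N := by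
    have h3 := Matrix.rank_transpose A
    unfold Matrix.rank at h3
    have h5 : A.mulVecLin = exactD T := by
      apply LinearMap.ext
      intro y
      rw [Matrix.mulVecLin_apply, hAv]
    rw [h3, h5, exact_rangeD T]
  rw [h2, Module.finrank_fintype_fun_eq_card, Fintype.card_prod, Fintype.card_fin] at h1
  have heq := Submodule.eq_of_le_of_finrank_eq hle (by rw [exact_rangeBT]; omega)
  have hψ : ψ ∈ LinearMap.ker A.transpose.mulVecLin := by
    rw [LinearMap.mem_ker, Matrix.mulVecLin_apply]
    funext v
    have h3 := h (Pi.single v 1)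
    have h4 : ∀ e, A e v = dif T (ext0 (Pi.single v 1)) e := by
      intro e
      have h6 := congrFun (hAv (Pi.single v 1)) e
      rw [Matrix.mulVec_single_one] at h6
      exact h6
    simp only [Matrix.mulVec, dotProduct, Matrix.transpose_apply, h4]
    exact h3
  rw [← heq] at hψ
  obtain ⟨k, hk⟩ := hψ
  refine ⟨k, fun e => ?_⟩
  rw [← exactBT_mulVec, ← hk]
  rfl

end MP0e5907
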