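import Pool.Agent.Lib_MP_0e5907.Paths
import Pool.Agent.Lib_MP_0e5907.BasisA

/-!
# Piece EXCHANGE: replacing an exit edge in a good basis

Paper proof.
* `good_swap`: `S` basis and good, `z ∈ S`, `u` the dual potential of `z`, `r` with `dif (ext0 u) r ≠ 0` and `lev r = lev z`. Then
  `S' = insert r (S.erase z)` is good. Let `c = dif (ext0 u) r`. Let `z' ∈ S'` and `u'` be a dual potential of `z'` with respect to `S'`,
  and `e` an edge with `dif (ext0 u') e ≠ 0`; to show: `lev z' ≤ lev e`. (`IsB T S'` by `IsB_swap`, so dual potentials are unique.)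
  - `z' = r` (if `r = z` then `S' = S`, fine; otherwise `r ∉ S`): `u' = u / c` (both are dual potentials of `r` for `S'`: `u/c` has
    difference `0` on `S.erase z` and `1` on `r`). So `dif (ext0 u) e ≠ 0` and `lev z' = lev r = lev z ≤ lev e` by goodness of `S`.
  - `z' ∈ S.erase z`: let `w` be the dual potential of `z'` for `S` (exists by `IsB_solve`), `u' = w - (dif (ext0 w) r / c) u` (check: differences:
    on `S.erase z` minus `z'` zero, on `z'` one because `dif (ext0 u) z' = 0`, on `r` zero). If `dif (ext0 u') e ≠ 0` then either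
    `dif (ext0 w) e ≠ 0`, so `lev z' ≤ lev e`; or `dif (ext0 w) r ≠ 0` and `dif (ext0 u) e ≠ 0`, so `lev z' ≤ lev r = lev z ≤ lev e`.
* `exchange`: `S` good basis, `z ∈ S`, `z ∈ Yset T t f i`. Let `k = lev z`, `h = hub (cl k f)`, `u` the dual potential of `z` (`IsB_solve` with
  `τ = Pi.single z 1`). Let `G = {g ∈ cl k f : reg h g = i}`. By `bd_dif` (`x = ext0 u` vanishes at the roots) `bd (dif (ext0 u)) g = 0` for all
  `g`. Sum over `g ∈ G`: `0 = ∑_e dif (ext0 u) e * ([lf e ∈ G] - [rf e ∈ G])`. By `yset_spec` one of the two faces of `z` has region `i`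
  at `h` and is in `cl k f`, the other one has region `reg h f ≠ i`: so exactly one of `lf z, rf z` is in `G` and the term of
  `z` is `±1`. Hence there is `r ≠ z` with `dif (ext0 u) r ≠ 0` and exactly one of `lf r, rf r` in `G`. As `S` is good, `k = lev z ≤ lev r`, so
  `cl k (lf r) = cl k (rf r)` (`lev_iff`), both are in `cl k f`; exactly one of them has region `i` at `h`, so
  `cl (k+1) (lf r) ≠ cl (k+1) (rf r)` (else `rf r ∈ cl (k+1) (lf r)` would give equal regions at `hub (cl k (lf r)) = h`),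
  and `lev r ≤ k` by `lev_iff` (`k + 1 ≤ t` by `lev_lt`). So `lev r = k`. `r ∉ S` since `r ≠ z` and the difference is nonzero.
  `r ∉ YY T t f`: suppose `r ∈ Yset T t f j`; by `yset_spec` (level `k`, the same `h`) the two faces of `r` have regions `reg h f` and `j` at `h`.
  One of them is `i`, and `reg h f ≠ i`, so `j = i`, and then `r = z` by `yset_unique`. Contradiction.
  `S' = insert r (S.erase z)` is a basis (`IsB_swap`) and good (`good_swap`).
-/

namespace MP0e5907

open Finset

variable {N F : Type} [Fintype N] [Fintype F] [DecidableEq N]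

omit [Fintype N] [Fintype F] [DecidableEq N] in
theorem exch_lin (T : STri N F) (y y' y'' : N → ℝ) (c : ℝ) (e : N × Fin 3) :
    dif T (ext0 (y - y' + c • y'')) e =
      dif T (ext0 y) e - dif T (ext0 y') e + c * dif T (ext0 y'') e := by
  have h : ∀ v, ext0 (y - y' + c • y'') v = ext0 y v - ext0 y' v + c * ext0 y'' v := by
    rintro (v | v)
    · rfl
    · show (0 : ℝ) = 0 - 0 + c * 0
      ring
  unfold dif
  rw [h, h]
  ring

theorem good_swap (T : STri N F) (t : ℕ) (S : Finset (N × Fin 3)) (hS : IsB T S) (hG : Good T t S)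
    (z : N × Fin 3) (hz : z ∈ S) (u : N → ℝ) (h0 : ∀ e ∈ S, e ≠ z → dif T (ext0 u) e = 0)
    (h1 : dif T (ext0 u) z = 1) (r : N × Fin 3) (hr : dif T (ext0 u) r ≠ 0) (hl : lev T t r = lev T t z) :
    Good T t (insert r (S.erase z)) := by
  have hS' := IsB_swap T S hS z hz u h0 h1 r hr
  set c := dif T (ext0 u) r with hc
  intro z' hz' u' h0' h1' e he
  by_cases hzr : z' = r
  · have hu : u' - 0 + (-c⁻¹) • u = 0 := by
      refine hS'.2 _ fun x hx => ?_
      rw [exch_lin]
      have h00 : dif T (ext0 (0 : N → ℝ)) x = 0 := by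
        have h5 : ∀ v : N ⊕ Fin 3, ext0 (0 : N → ℝ) v = 0 := by
          rintro (v | v) <;> rfl
        unfold dif
        rw [h5, h5, sub_zero]
      rw [h00]
      by_cases hxr : x = r
      · rw [hxr, ← hc, ← hzr, h1']
        field_simp
        ring
      · have hx2 := Finset.mem_of_mem_insert_of_ne hx hxr
        rw [h0' x hx (by rw [hzr]; exact hxr),
          h0 x (Finset.mem_of_mem_erase hx2) (Finset.ne_of_mem_erase hx2)]
        ring
    have h2 := exch_lin T u' 0 u (-c⁻¹) e
    rw [hu] at h2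
    have h00 : dif T (ext0 (0 : N → ℝ)) e = 0 := by
      have h5 : ∀ v : N ⊕ Fin 3, ext0 (0 : N → ℝ) v = 0 := by
        rintro (v | v) <;> rfl
      unfold dif
      rw [h5, h5, sub_zero]
    rw [h00] at h2
    have h3 : dif T (ext0 u) e ≠ 0 := by
      intro h4
      rw [h4] at h2
      apply he
      linarith
    rw [hzr, hl]
    exact hG z hz u h0 h1 e h3
  · have hz2 := Finset.mem_of_mem_insert_of_ne hz' hzr
    have hz'S := Finset.mem_of_mem_erase hz2
    have hz'z := Finset.ne_of_mem_erase hz2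
    obtain ⟨w, hw⟩ := IsB_solve T S hS (Pi.single z' 1)
    have hw0 : ∀ x ∈ S, x ≠ z' → dif T (ext0 w) x = 0 := by
      intro x hx hne
      rw [hw x hx, Pi.single_eq_of_ne hne]
    have hw1 : dif T (ext0 w) z' = 1 := by
      rw [hw z' hz'S, Pi.single_eq_same]
    have hu : u' - w + (dif T (ext0 w) r / c) • u = 0 := by
      refine hS'.2 _ fun x hx => ?_
      rw [exch_lin]
      by_cases hxr : x = r
      · rw [hxr, ← hc, h0' r (Finset.mem_insert_self _ _) (fun h => hzr h.symm)]
        field_simp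
        ring
      · have hx2 := Finset.mem_of_mem_insert_of_ne hx hxr
        rw [h0 x (Finset.mem_of_mem_erase hx2) (Finset.ne_of_mem_erase hx2)]
        by_cases hxz : x = z'
        · rw [hxz, h1', hw1]
          ring
        · rw [h0' x hx hxz, hw0 x (Finset.mem_of_mem_erase hx2) hxz]
          ring
    have h2 := exch_lin T u' w u (dif T (ext0 w) r / c) e
    rw [hu] at h2
    have h00 : dif T (ext0 (0 : N → ℝ)) e = 0 := by
      have h5 : ∀ v : N ⊕ Fin 3, ext0 (0 : N → ℝ) v = 0 := by
        rintro (v | v) <;> rfl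
      unfold dif
      rw [h5, h5, sub_zero]
    rw [h00] at h2
    by_cases hwe : dif T (ext0 w) e = 0
    · have h3 : dif T (ext0 w) r ≠ 0 := by
        intro h4
        rw [hwe, h4, zero_div, zero_mul] at h2
        apply he
        linarith
      have h4 : dif T (ext0 u) e ≠ 0 := by
        intro h5
        rw [hwe, h5, mul_zero] at h2
        apply he
        linarith
      have h5 := hG z' hz'S w hw0 hw1 r h3
      have h6 := hG z hz u h0 h1 e h4
      omega
    · exact hG z' hz'S w hw0 hw1 e hwe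

theorem exchange (T : STri N F) (t : ℕ) (ht : 5 ^ t * Fintype.card F < 2 * 6 ^ t) (f : F) (i : Fin 3)
    (S : Finset (N × Fin 3)) (hS : IsB T S) (hG : Good T t S) (z : N × Fin 3) (hz : z ∈ S)
    (hzY : z ∈ Yset T t f i) :
    ∃ (r : N × Fin 3) (u : N → ℝ), r ∉ S ∧ r ∉ YY T t f ∧ lev T t r = lev T t z ∧
      (∀ e ∈ S, e ≠ z → dif T (ext0 u) e = 0) ∧ dif T (ext0 u) z = 1 ∧ dif T (ext0 u) r ≠ 0 ∧
      IsB T (insert r (S.erase z)) ∧ Good T t (insert r (S.erase z)) := by
  classical
  obtain ⟨u, hu⟩ := IsB_solve T S hS (Pi.single z 1)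
  have hu0 : ∀ x ∈ S, x ≠ z → dif T (ext0 u) x = 0 := by
    intro x hx hne
    rw [hu x hx, Pi.single_eq_of_ne hne]
  have hu1 : dif T (ext0 u) z = 1 := by
    rw [hu z hz, Pi.single_eq_same]
  have hzY' := hzY
  unfold Yset at hzY'
  obtain ⟨g, g', hr, hc, hf⟩ := paths_mem_filter _ hzY'
  obtain ⟨a1, a2, a3, a4, a5⟩ := yset_spec T t ht hr hc hf
  set k := lev T t z with hk
  set h := hub T (cl T k f) with hh
  let G : Finset F := (cl T k f).filter fun g => T.reg h g = i
  have hGmem : ∀ x, x ∈ G ↔ x ∈ cl T k f ∧ T.reg h x = i := fun x => Finset.mem_filter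
  have hg'G : g' ∈ G := (hGmem g').2 ⟨a2, a4⟩
  have hgG : g ∉ G := fun hx => a5 (by rw [← a3]; exact ((hGmem g).1 hx).2)
  -- the sum over the faces of `G`
  have hsum : ∑ e, dif T (ext0 u) e *
      ((if T.lf e ∈ G then (1 : ℝ) else 0) - (if T.rf e ∈ G then 1 else 0)) = 0 := by
    have h1 : ∑ x ∈ G, bd T (dif T (ext0 u)) x = 0 := by
      apply Finset.sum_eq_zero
      intro x _
      rw [bd_dif]
      simp [ext0]
    refine Eq.trans ?_ h1
    simp only [bd]
    rw [Finset.sum_sub_distrib, Finset.sum_comm, Finset.sum_comm (s := G) (t := univ)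
      (f := fun x e => if T.rf e = x then dif T (ext0 u) e else 0), ← Finset.sum_sub_distrib]
    apply Finset.sum_congr rfl
    intro e _
    rw [Finset.sum_ite_eq, Finset.sum_ite_eq]
    split_ifs <;> ring
  have hexr : ∃ r, r ≠ z ∧ dif T (ext0 u) r ≠ 0 ∧ ¬ (T.lf r ∈ G ↔ T.rf r ∈ G) := by
    by_contra hcon
    push Not at hcon
    rw [Finset.sum_eq_single z] at hsum
    · rw [hu1] at hsum
      rcases hc with ⟨e1, e2, _⟩ | ⟨e1, e2, _⟩
      · rw [← e1, ← e2, if_neg hgG, if_pos hg'G] at hsum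
        norm_num at hsum
      · rw [← e1, ← e2, if_neg hgG, if_pos hg'G] at hsum
        norm_num at hsum
    · intro e _ hne
      by_cases hd : dif T (ext0 u) e = 0
      · rw [hd, zero_mul]
      · have h2 := hcon e hne hd
        by_cases h3 : T.lf e ∈ G
        · rw [if_pos h3, if_pos (h2.1 h3)]
          ring
        · rw [if_neg h3, if_neg (fun h4 => h3 (h2.2 h4))]
          ring
    · intro hn
      exact absurd (Finset.mem_univ z) hn
  obtain ⟨r, hrz, hdr, hx⟩ := hexr
  have hkr : k ≤ lev T t r := hG z hz u hu0 hu1 r hdr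
  have hkt : k < t := lev_lt T t ht z
  have hcl := (lev_iff T t k hkt.le r).1 hkr
  have hclf : cl T k (T.lf r) = cl T k f ∧ cl T k (T.rf r) = cl T k f := by
    by_cases h3 : T.lf r ∈ G
    · have h4 := cl_eq_of_mem T k f _ ((hGmem _).1 h3).1
      exact ⟨h4, by rw [← hcl, h4]⟩
    · have h5 : T.rf r ∈ G := by
        by_contra h6
        exact hx ⟨fun h => absurd h h3, fun h => absurd h h6⟩
      have h4 := cl_eq_of_mem T k f _ ((hGmem _).1 h5).1
      exact ⟨by rw [hcl, h4], h4⟩
  have hmem : T.lf r ∈ cl T k f ∧ T.rf r ∈ cl T k f :=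
    ⟨by rw [← hclf.1]; exact mem_cl_self T k _, by rw [← hclf.2]; exact mem_cl_self T k _⟩
  have hlev : lev T t r = k := by
    refine le_antisymm ?_ hkr
    by_contra hcon
    have h2 : k + 1 ≤ lev T t r := by omega
    have h3 := (lev_iff T t (k + 1) (by omega) r).1 h2
    have h4 : T.rf r ∈ cl T (k + 1) (T.lf r) := by
      rw [h3]
      exact mem_cl_self T _ _
    have h5 := ((mem_cl_succ T k _ _).1 h4).2
    rw [hclf.1, ← hh] at h5
    apply hx
    rw [hGmem, hGmem, h5]
    exact ⟨fun h6 => ⟨hmem.2, h6.2⟩, fun h6 => ⟨hmem.1, h6.2⟩⟩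
  have hrS : r ∉ S := fun hrS => hdr (hu0 r hrS hrz)
  have hrY : r ∉ YY T t f := by
    intro hrY
    unfold YY at hrY
    obtain ⟨j, hj⟩ := paths_mem_filter _ hrY
    have hj' := hj
    unfold Yset at hj'
    obtain ⟨g1, g1', hr1, hc1, hf1⟩ := paths_mem_filter _ hj'
    obtain ⟨b1, b2, b3, b4, b5⟩ := yset_spec T t ht hr1 hc1 hf1
    rw [hlev, ← hh] at b3 b4 b5
    have hji : j = i := by
      by_contra hji
      apply hx
      rw [hGmem, hGmem]
      have c1 : T.reg h g1 ≠ i := by rw [b3]; exact a5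
      have c2 : T.reg h g1' ≠ i := by rw [b4]; exact hji
      rcases hc1 with ⟨e1, e2, _⟩ | ⟨e1, e2, _⟩
      · rw [← e1, ← e2]
        exact ⟨fun h6 => absurd h6.2 c1, fun h6 => absurd h6.2 c2⟩
      · rw [← e1, ← e2]
        exact ⟨fun h6 => absurd h6.2 c2, fun h6 => absurd h6.2 c1⟩
    rw [hji] at hj
    exact hrz (yset_unique T t ht hj hzY (by rw [hlev]))
  exact ⟨r, u, hrS, hrY, hlev, hu0, hu1, hdr, IsB_swap T S hS z hz u hu0 hu1 r hdr,
    good_swap T t S hS hG z hz u hu0 hu1 r hdr (by rw [hlev])⟩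

end MP0e5907
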