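import Mathlib

/-!
# Piece EXPAND: Cauchy-Binet type expansion of a determinant some of whose rows are weighted sums of rank one terms

`det_expand`: let `A` be a set of rows; the rows `s ∈ A` are `∑_e ω_e a_e(s) c_e`, the other rows are fixed vectors `R s`.
Then the determinant is `∑_{S ⊆ E, |S| = |A|} (∏_{e∈S} ω_e) * (the same determinant for the weights 1_S)`.

Paper proof. Use row multilinearity (`MultilinearMap.map_sum_finset` for `Matrix.detRowAlternating`, with the index type
`Option E`: for `s ∈ A` sum over `some e`, for `s ∉ A` only `none ↦ R s`). The determinant is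
`∑_{φ : A → E} (∏_{s∈A} ω_{φ s} a_{φ s}(s)) det(c_{φ s} (s ∈ A); R s (s ∉ A))`. If `φ` is not injective on `A` two rows are
equal and the determinant vanishes. So the sum is over injective `φ`; group by the image `S = φ(A)`, `|S| = |A|`:
`∑_S (∏_{e∈S} ω_e) ∑_{φ injective, φ(A) = S} (∏_s a_{φ s}(s)) det(...)`. Applying the same formula to the weights
`1_S`, only injective `φ` with `φ(A) ⊆ S`, i.e. `φ(A) = S` (cardinality), contribute, with weight `1`. So the inner sum is the
determinant for `1_S`.
Alternative proof: induction on the number of elements of `E` in the support of `ω` using that the determinant is affine in each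
`ω_e` (rank one update), together with homogeneity of degree `|A|`.
-/

namespace MP0e5907

open Finset

theorem expand_aux {ι E : Type} [Fintype ι] [DecidableEq ι] [Fintype E] [DecidableEq E]
    (A : Finset ι) (a : E → ι → ℝ) (c : E → ι → ℝ) (R : ι → ι → ℝ) (ω : E → ℝ) :
    (Matrix.of fun s w => if s ∈ A then ∑ e, ω e * (a e s * c e w) else R s w : Matrix ι ι ℝ).det =
      ∑ φ : {s // s ∈ A} → E, (∏ s, ω (φ s)) * ((∏ s : {s // s ∈ A}, a (φ s) s) *
        (Matrix.of fun s w => if h : s ∈ A then c (φ ⟨s, h⟩) w else R s w : Matrix ι ι ℝ).det) := by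
  have key : ∀ σ : Equiv.Perm ι,
      ∏ i, (if i ∈ A then ∑ e, ω e * (a e i * c e (σ i)) else R i (σ i)) =
      ∑ φ : {s // s ∈ A} → E, (∏ s, ω (φ s)) * ((∏ s : {s // s ∈ A}, a (φ s) s) *
        ∏ i, (if h : i ∈ A then c (φ ⟨i, h⟩) (σ i) else R i (σ i))) := by
    intro σ
    rw [← Finset.prod_mul_prod_compl A]
    have h1 : ∏ i ∈ A, (if (i : ι) ∈ A then ∑ e, ω e * (a e i * c e (σ i)) else R i (σ i)) =
        ∑ φ : {s // s ∈ A} → E, ∏ i : {i // i ∈ A}, ω (φ i) * (a (φ i) i * c (φ i) (σ i)) := by
      rw [← Finset.prod_coe_sort]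
      have h5 := Finset.prod_univ_sum (t := fun _ : {i // i ∈ A} => (univ : Finset E))
        (f := fun i e => ω e * (a e i * c e (σ i)))
      rw [Fintype.piFinset_univ] at h5
      rw [← h5]
      apply Finset.prod_congr rfl
      intro i _
      rw [if_pos i.2]
    rw [h1, Finset.sum_mul]
    apply Finset.sum_congr rfl
    intro φ _
    rw [← Finset.prod_mul_prod_compl A
      (fun i => (if h : i ∈ A then c (φ ⟨i, h⟩) (σ i) else R i (σ i)))]
    have h2 : ∏ i ∈ A, (if h : (i : ι) ∈ A then c (φ ⟨i, h⟩) (σ i) else R i (σ i)) =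
        ∏ i : {i // i ∈ A}, c (φ i) (σ i) := by
      rw [← Finset.prod_coe_sort]
      apply Finset.prod_congr rfl
      intro i _
      rw [dif_pos i.2]
    have h3 : ∏ i ∈ Aᶜ, (if h : (i : ι) ∈ A then c (φ ⟨i, h⟩) (σ i) else R i (σ i)) =
        ∏ i ∈ Aᶜ, (if (i : ι) ∈ A then ∑ e, ω e * (a e i * c e (σ i)) else R i (σ i)) := by
      apply Finset.prod_congr rfl
      intro i hi
      rw [Finset.mem_compl] at hi
      rw [dif_neg hi, if_neg hi]
    rw [h2, h3, Finset.prod_mul_distrib, Finset.prod_mul_distrib]
    ring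
  rw [← Matrix.det_transpose, Matrix.det_apply']
  have h4 : ∀ φ : {s // s ∈ A} → E,
      (Matrix.of fun s w => if h : s ∈ A then c (φ ⟨s, h⟩) w else R s w : Matrix ι ι ℝ).det =
      ∑ σ : Equiv.Perm ι, (Equiv.Perm.sign σ : ℝ) *
        ∏ i, (if h : i ∈ A then c (φ ⟨i, h⟩) (σ i) else R i (σ i)) := by
    intro φ
    rw [← Matrix.det_transpose, Matrix.det_apply']
    rfl
  simp only [h4, Matrix.transpose_apply, Matrix.of_apply, key, Finset.mul_sum]
  rw [Finset.sum_comm]
  apply Finset.sum_congr rfl
  intro φ _
  apply Finset.sum_congr rfl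
  intro σ _
  ring

theorem det_expand {ι E : Type} [Fintype ι] [DecidableEq ι] [Fintype E] [DecidableEq E]
    (A : Finset ι) (a : E → ι → ℝ) (c : E → ι → ℝ) (R : ι → ι → ℝ) (ω : E → ℝ) :
    (Matrix.of fun s w => if s ∈ A then ∑ e, ω e * (a e s * c e w) else R s w : Matrix ι ι ℝ).det =
      ∑ S ∈ powersetCard A.card (univ : Finset E), (∏ e ∈ S, ω e) *
        (Matrix.of fun s w => if s ∈ A then ∑ e, (if e ∈ S then (1 : ℝ) else 0) * (a e s * c e w) else R s w :
          Matrix ι ι ℝ).det := by
  rw [expand_aux]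
  have h1 : ∀ S : Finset E, (Matrix.of fun s w => if s ∈ A then
      ∑ e, (if e ∈ S then (1 : ℝ) else 0) * (a e s * c e w) else R s w : Matrix ι ι ℝ).det = _ :=
    fun S => expand_aux A a c R (fun e => if e ∈ S then (1 : ℝ) else 0)
  simp only [h1, Finset.mul_sum]
  rw [Finset.sum_comm]
  apply Finset.sum_congr rfl
  intro φ _
  by_cases hinj : Function.Injective φ
  · rw [Finset.sum_eq_single (univ.image φ)]
    · rw [Finset.prod_image (fun x _ y _ h => hinj h)]
      have h2 : ∏ s : {s // s ∈ A}, (if φ s ∈ univ.image φ then (1 : ℝ) else 0) = 1 := by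
        apply Finset.prod_eq_one
        intro s _
        rw [if_pos (Finset.mem_image_of_mem _ (Finset.mem_univ s))]
      rw [h2, one_mul]
    · intro S hS hne
      have h2 : ∏ s : {s // s ∈ A}, (if φ s ∈ S then (1 : ℝ) else 0) = 0 := by
        by_contra hcon
        apply hne
        have hcon2 := Finset.prod_ne_zero_iff.1 hcon
        have hsub : univ.image φ ⊆ S := by
          intro e he
          obtain ⟨s, _, rfl⟩ := Finset.mem_image.1 he
          by_contra hns
          exact hcon2 s (Finset.mem_univ _) (if_neg hns)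
        symm
        apply Finset.eq_of_subset_of_card_le hsub
        rw [(Finset.mem_powersetCard.1 hS).2, Finset.card_image_of_injective _ hinj,
          Finset.card_univ, Fintype.card_coe]
      rw [h2]
      ring
    · intro hnot
      exfalso
      apply hnot
      rw [Finset.mem_powersetCard]
      refine ⟨Finset.subset_univ _, ?_⟩
      rw [Finset.card_image_of_injective _ hinj, Finset.card_univ, Fintype.card_coe]
  · have hdet : (Matrix.of fun s w => if h : s ∈ A then c (φ ⟨s, h⟩) w else R s w :
        Matrix ι ι ℝ).det = 0 := by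
      simp only [Function.Injective, not_forall] at hinj
      obtain ⟨s, t, hst, hne⟩ := hinj
      apply Matrix.det_zero_of_row_eq (i := (s : ι)) (j := (t : ι))
      · intro h
        exact hne (Subtype.ext h)
      · funext w
        simp only [Matrix.of_apply, dif_pos s.2, dif_pos t.2]
        rw [hst]
    simp only [hdet, mul_zero, Finset.sum_const_zero]

end MP0e5907
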