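import Pool.Agent.Lib_MP_0e5907.Glob

/-!
# Piece EXPO: the exposed vertex sets of a (locally) convex lifting

`y v = ![(X v).1, (X v).2, -z v]`. Statement: a nonempty set `S` of vertices is exposed iff `S = univ` or all of `S` are vertices of one face `g`, or all of `S`
are roots.

Paper proof. A functional `a : Fin 3 → ℝ` acts by `a 0 * (X v).1 + a 1 * (X v).2 - a 2 * z v`.
(⇒) Let `∑ a_j y v j ≤ c` with equality iff `v ∈ S`, `S ≠ ∅`. Let `b P = a 0 * P.1 + a 1 * P.2` .
 Case `a 2 < 0`... sign: the functional is `b (X v) - a 2 * z v ≤ c`. Case `a 2 > 0`: `z v ≥ (b (X v) - c)/a 2 =: m (X v)` with equality iff `v ∈ S`; `m` is affine.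
  Let `P` be the centroid of `{X v : v ∈ S}` (average over `S`), it is in the closed outer triangle (`all_in_outer`). Take `g` from `cover` with `P ∈ ftri g`,
  `P = ∑ μ_k X (vert g k)`, `μ_k ≥ 0`, `∑ μ_k = 1`. Then `lh g P = avg_{v∈S} lh g (X v) ≤ avg_{v∈S} z v = avg m (X v) = m P = ∑ μ_k m (X (vert g k)) ≤ ∑ μ_k z (vert g k) = lh g P`
  (first inequality by `global_convex`/`lh_vert`). So `lh g (X v) = z v` for all `v ∈ S`, hence every `v ∈ S` is a vertex of `g` (`global_convex`).
 Case `a 2 ≤ 0`, `a ≠ 0`: all of `S` are roots. Let `inl w ∈ S`. `X w = ∑ λ_j X (inr j)`, `λ_j > 0`, `∑ λ_j = 1` (`inner_pos`). `c = b (X w) - a 2 * z w = ∑ λ_j b (X (inr j)) + (-a 2) z w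
  ≤ ∑ λ_j c + (-a 2) z w ≤ c`, as `z w < 0`, `-a 2 ≥ 0`, `b (X (inr j)) ≤ c` (`z (inr j) = 0`). So `a 2 = 0` and `b (X (inr j)) = c` for all `j`; `b` is constant on three affinely independent points (`outer`), so `a 0 = a 1 = 0` and
  `a = 0`, contradiction.
 Case `a = 0`: then `0 ≤ c` with equality iff `v ∈ S`; as `S ≠ ∅`, `c = 0` and `S = univ`.
(⇐) `S = univ`: `a = 0`, `c = 0`. `S ⊆` vertices of `g`, `S ≠ ∅`: `lh g P = α P.1 + β P.2 + γ` (`lh_affine`). Let `m : ℝ × ℝ → ℝ` be the affine function with `m (X (vert g k)) = 0` if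
 `vert g k ∈ S` and `= 1` otherwise (`m P = ∑_k [vert g k ∉ S] ar (X (vert g (k+1))) (X (vert g (k+2))) P / farea g`). For small `ε > 0` the functional
 `lh g (X v) - ε m (X v) - z v ≤ 0` with equality iff `v ∈ S`: at vertices of `g` it is `-ε [v ∉ S]` (use `vert g` injective, from `reg_vert`), at the other
 vertices it is `< 0` by `global_convex` for `ε` small (finitely many vertices). Rewrite as `a = ![α - ε m_1, β - ε m_2, 1]`, `c = -γ + ε m_3`.
 `S ⊆` roots, nonempty: let `m` be affine with `m (X (inr j)) = 0` if `inr j ∈ S`, `1` otherwise. Functional `z v - ε m (X v) ≤ 0`: at roots `-ε [v ∉ S]`, at inner vertices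
 `< 0` for small `ε` since `z v < 0` (`z_neg`). `a = ![-ε m_1, -ε m_2, -1]`, `c = ε m_3`.
-/

namespace MP0e5907

open Finset

variable {N F : Type} [Fintype N] [Fintype F]

private lemma ex_sum (a : Fin 3 → ℝ) (x y z : ℝ) :
    ∑ j, a j * (![x, y, z] : Fin 3 → ℝ) j = a 0 * x + a 1 * y + a 2 * z := by
  simp [Fin.sum_univ_three]

private lemma ex_eps {V : Type} [Finite V] (p q : V → ℝ) (U : Set V) (hU : ∀ v ∈ U, 0 < p v) :
    ∃ ε : ℝ, 0 < ε ∧ ∀ v ∈ U, ε * q v < p v := by
  have h1 : ∀ᶠ ε in nhdsWithin (0 : ℝ) (Set.Ioi 0), ∀ v, v ∈ U → ε * q v < p v := by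
    rw [Filter.eventually_all]
    intro v
    by_cases hv : v ∈ U
    · have h2 : Filter.Tendsto (fun ε : ℝ => ε * q v) (nhdsWithin (0 : ℝ) (Set.Ioi 0)) (nhds 0) := by
        have h3 : Filter.Tendsto (fun ε : ℝ => ε * q v) (nhds 0) (nhds (0 * q v)) :=
          (continuous_id.mul continuous_const).tendsto 0
        rw [zero_mul] at h3
        exact h3.mono_left nhdsWithin_le_nhds
      exact (h2.eventually_lt_const (hU v hv)).mono (fun ε h _ => h)
    · exact Filter.Eventually.of_forall (fun ε h => absurd h hv)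
  obtain ⟨ε, h2, h3⟩ := (h1.and self_mem_nhdsWithin).exists
  exact ⟨ε, h3, h2⟩

/-- an affine function is reproduced from its values at three points -/
private lemma ex_aff (α β γ : ℝ) (P A B C : ℝ × ℝ) :
    (α * P.1 + β * P.2 + γ) * ar A B C =
      (α * A.1 + β * A.2 + γ) * ar P B C + (α * B.1 + β * B.2 + γ) * ar A P C +
        (α * C.1 + β * C.2 + γ) * ar A B P := by
  simp only [ar]; ring

private lemma ex_cyc1 (A B P : ℝ × ℝ) : ar P A B = ar A B P := by
  simp only [ar]; ring

private lemma ex_cyc2 (A B P : ℝ × ℝ) : ar A P B = ar B A P := by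
  simp only [ar]; ring

private lemma ex_exists (A B C : ℝ × ℝ) (h : ar A B C ≠ 0) (t : Fin 3 → ℝ) :
    ∃ α β γ : ℝ, α * A.1 + β * A.2 + γ = t 0 ∧ α * B.1 + β * B.2 + γ = t 1 ∧
      α * C.1 + β * C.2 + γ = t 2 := by
  refine ⟨(t 0 * (B.2 - C.2) + t 1 * (C.2 - A.2) + t 2 * (A.2 - B.2)) / ar A B C,
    (t 0 * (C.1 - B.1) + t 1 * (A.1 - C.1) + t 2 * (B.1 - A.1)) / ar A B C,
    (t 0 * (B.1 * C.2 - C.1 * B.2) + t 1 * (C.1 * A.2 - A.1 * C.2) +
      t 2 * (A.1 * B.2 - B.1 * A.2)) / ar A B C, ?_, ?_, ?_⟩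
  · rw [div_mul_eq_mul_div, div_mul_eq_mul_div, ← add_div, ← add_div, div_eq_iff h]
    simp only [ar]; ring
  · rw [div_mul_eq_mul_div, div_mul_eq_mul_div, ← add_div, ← add_div, div_eq_iff h]
    simp only [ar]; ring
  · rw [div_mul_eq_mul_div, div_mul_eq_mul_div, ← add_div, ← add_div, div_eq_iff h]
    simp only [ar]; ring

omit [Fintype N] [Fintype F] in
/-- an affine minorant at the vertices of a face is a minorant on the face -/
private lemma ex_minor (T : STri N F) (X : N ⊕ Fin 3 → ℝ × ℝ) (z : N ⊕ Fin 3 → ℝ) (g : F)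
    (hg : 0 < farea T X g) (α β γ : ℝ)
    (hm : ∀ k, α * (X (T.vert g k)).1 + β * (X (T.vert g k)).2 + γ ≤ z (T.vert g k))
    (P : ℝ × ℝ) (hP : P ∈ ftri T X g) : α * P.1 + β * P.2 + γ ≤ lh T X z g P := by
  obtain ⟨h1, h2, h3⟩ := hP
  rw [lh, le_div_iff₀ hg, farea, ex_aff]
  have e0 : 0 ≤ ar P (X (T.vert g 1)) (X (T.vert g 2)) := by rw [ex_cyc1]; exact h2
  have e1 : 0 ≤ ar (X (T.vert g 0)) P (X (T.vert g 2)) := by rw [ex_cyc2]; exact h3
  have e2 : 0 ≤ ar (X (T.vert g 0)) (X (T.vert g 1)) P := h1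
  exact add_le_add (add_le_add (mul_le_mul_of_nonneg_right (hm 0) e0)
    (mul_le_mul_of_nonneg_right (hm 1) e1)) (mul_le_mul_of_nonneg_right (hm 2) e2)

theorem expo_iff (T : STri N F) (X : N ⊕ Fin 3 → ℝ × ℝ) (z : N ⊕ Fin 3 → ℝ) (h : LocConv T X z)
    (S : Set (N ⊕ Fin 3)) (hS : S.Nonempty) :
    Expo (fun v => ![(X v).1, (X v).2, -z v]) S ↔
      S = Set.univ ∨ (∃ g, ∀ v ∈ S, ∃ k, T.vert g k = v) ∨ (∀ v ∈ S, ∃ j, v = Sum.inr j) := by
  classical
  constructor
  · rintro ⟨a, c, hac⟩
    simp only [ex_sum] at hac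
    rcases lt_or_ge 0 (a 2) with ha | ha
    · -- lower side
      right; left
      set s : Finset (N ⊕ Fin 3) := Finset.univ.filter (· ∈ S) with hs
      have hsS : ∀ v, v ∈ s ↔ v ∈ S := fun v => by simp [hs]
      have hcard : (0 : ℝ) < s.card := by
        obtain ⟨v, hv⟩ := hS
        have : 0 < s.card := Finset.card_pos.2 ⟨v, (hsS v).2 hv⟩
        exact_mod_cast this
      -- affine minorant
      set α := a 0 / a 2 with hα
      set β := a 1 / a 2 with hβ
      set γ := -c / a 2 with hγ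
      have hmin : ∀ v, α * (X v).1 + β * (X v).2 + γ ≤ z v := by
        intro v
        have h1 := (hac v).1
        have h2 : α * (X v).1 + β * (X v).2 + γ = (a 0 * (X v).1 + a 1 * (X v).2 - c) / a 2 := by
          rw [hα, hβ, hγ]; ring
        rw [h2, div_le_iff₀ ha]
        linarith
      have hmeq : ∀ v ∈ S, α * (X v).1 + β * (X v).2 + γ = z v := by
        intro v hv
        have h1 := (hac v).2.2 hv
        have h2 : α * (X v).1 + β * (X v).2 + γ = (a 0 * (X v).1 + a 1 * (X v).2 - c) / a 2 := by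
          rw [hα, hβ, hγ]; ring
        rw [h2, div_eq_iff ha.ne']
        linarith
      -- centroid
      set P : ℝ × ℝ := ((∑ v ∈ s, (X v).1) / s.card, (∑ v ∈ s, (X v).2) / s.card) with hP
      have hcent : ∀ α β γ : ℝ, (α * P.1 + β * P.2 + γ) * s.card =
          ∑ v ∈ s, (α * (X v).1 + β * (X v).2 + γ) := by
        intro α β γ
        rw [Finset.sum_add_distrib, Finset.sum_add_distrib, ← Finset.mul_sum, ← Finset.mul_sum,
          Finset.sum_const, nsmul_eq_mul, hP]
        simp only
        field_simp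
      have hPout : ∀ j : Fin 3, 0 ≤ ar (X (Sum.inr (j + 1))) (X (Sum.inr (j + 2))) P := by
        intro j
        set A := X (Sum.inr (j + 1)) with hA
        set B := X (Sum.inr (j + 2)) with hB
        have h1 : ∀ Q : ℝ × ℝ, ar A B Q = -(B.2 - A.2) * Q.1 + (B.1 - A.1) * Q.2 +
            (A.1 * (B.2 - A.2) - A.2 * (B.1 - A.1)) := by
          intro Q; simp only [ar]; ring
        have h2 : 0 ≤ ar A B P * s.card := by
          rw [h1, hcent]
          refine Finset.sum_nonneg (fun v _ => ?_)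
          rw [← h1]
          exact all_in_outer T X h.area h.outer v j
        exact nonneg_of_mul_nonneg_left h2 hcard
      obtain ⟨g, hPg, _⟩ := cover T X z h P hPout
      refine ⟨g, ?_⟩
      obtain ⟨α', β', γ', hlh⟩ := lh_affine T X z g
      have h1 : α * P.1 + β * P.2 + γ ≤ lh T X z g P :=
        ex_minor T X z g (h.area g) α β γ (fun k => hmin _) P hPg
      have h2 : lh T X z g P * s.card = ∑ v ∈ s, lh T X z g (X v) := by
        rw [hlh, hcent]
        exact Finset.sum_congr rfl (fun v _ => (hlh (X v)).symm)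
      have h3 : (α * P.1 + β * P.2 + γ) * s.card = ∑ v ∈ s, z v := by
        rw [hcent]
        exact Finset.sum_congr rfl (fun v hv => hmeq v ((hsS v).1 hv))
      have hle : ∀ v, lh T X z g (X v) ≤ z v := by
        intro v
        by_cases hv : ∃ k, T.vert g k = v
        · obtain ⟨k, rfl⟩ := hv
          exact (lh_vert T X z g (h.area g) k).le
        · exact (global_convex T X z h v g (fun k hk => hv ⟨k, hk⟩)).le
      have h4 : ∑ v ∈ s, (z v - lh T X z g (X v)) ≤ 0 := by
        rw [Finset.sum_sub_distrib, ← h2, ← h3]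
        have := mul_le_mul_of_nonneg_right h1 hcard.le
        linarith
      have h5 : ∀ v ∈ s, 0 ≤ z v - lh T X z g (X v) := fun v _ => sub_nonneg.2 (hle v)
      have h6 : ∑ v ∈ s, (z v - lh T X z g (X v)) = 0 :=
        le_antisymm h4 (Finset.sum_nonneg h5)
      rw [Finset.sum_eq_zero_iff_of_nonneg h5] at h6
      intro v hv
      by_contra hcon
      push Not at hcon
      have h7 := global_convex T X z h v g hcon
      have h8 := h6 v ((hsS v).2 hv)
      linarith
    · -- upper side
      by_cases hroots : ∀ v ∈ S, ∃ j, v = Sum.inr j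
      · exact Or.inr (Or.inr hroots)
      left
      push Not at hroots
      obtain ⟨v, hvS, hv⟩ := hroots
      obtain ⟨w, rfl⟩ : ∃ w, v = Sum.inl w := by
        cases v with
        | inl w => exact ⟨w, rfl⟩
        | inr j => exact absurd rfl (hv j)
      have hz := z_neg T X z h w
      have hw := (hac (Sum.inl w)).2.2 hvS
      have r0 := (hac (Sum.inr 0)).1
      have r1 := (hac (Sum.inr 1)).1
      have r2 := (hac (Sum.inr 2)).1
      rw [h.root] at r0 r1 r2
      have p0 := inner_pos T X h.area h.outer w 0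
      have p1 := inner_pos T X h.area h.outer w 1
      have p2 := inner_pos T X h.area h.outer w 2
      have q0 : 0 < ar (X (Sum.inl w)) (X (Sum.inr 1)) (X (Sum.inr 2)) := by
        rw [ex_cyc1]; exact p0
      have q1 : 0 < ar (X (Sum.inr 0)) (X (Sum.inl w)) (X (Sum.inr 2)) := by
        rw [ex_cyc2]; exact p1
      have q2 : 0 < ar (X (Sum.inr 0)) (X (Sum.inr 1)) (X (Sum.inl w)) := p2
      have hA := h.outer
      have hid := ex_aff (a 0) (a 1) (-c) (X (Sum.inl w)) (X (Sum.inr 0)) (X (Sum.inr 1))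
        (X (Sum.inr 2))
      have t0 := mul_nonneg (sub_nonneg.2 r0) q0.le
      have t1 := mul_nonneg (sub_nonneg.2 r1) q1.le
      have t2 := mul_nonneg (sub_nonneg.2 r2) q2.le
      have hz2 : 0 ≤ a 2 * z (Sum.inl w) := mul_nonneg_of_nonpos_of_nonpos ha hz.le
      have t3 := mul_nonneg hz2 hA.le
      have key : a 2 * z (Sum.inl w) = a 0 * (X (Sum.inl w)).1 + a 1 * (X (Sum.inl w)).2 + -c := by
        linarith
      rw [← key] at hid
      have s0 : (c - (a 0 * (X (Sum.inr 0)).1 + a 1 * (X (Sum.inr 0)).2 + a 2 * -0)) *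
          ar (X (Sum.inl w)) (X (Sum.inr 1)) (X (Sum.inr 2)) = 0 := by nlinarith
      have s1 : (c - (a 0 * (X (Sum.inr 1)).1 + a 1 * (X (Sum.inr 1)).2 + a 2 * -0)) *
          ar (X (Sum.inr 0)) (X (Sum.inl w)) (X (Sum.inr 2)) = 0 := by nlinarith
      have s2 : (c - (a 0 * (X (Sum.inr 2)).1 + a 1 * (X (Sum.inr 2)).2 + a 2 * -0)) *
          ar (X (Sum.inr 0)) (X (Sum.inr 1)) (X (Sum.inl w)) = 0 := by nlinarith
      have s3 : (a 2 * z (Sum.inl w)) * ar (X (Sum.inr 0)) (X (Sum.inr 1)) (X (Sum.inr 2)) = 0 := by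
        nlinarith
      have u0 := (mul_eq_zero.1 s0).resolve_right q0.ne'
      have u1 := (mul_eq_zero.1 s1).resolve_right q1.ne'
      have u2 := (mul_eq_zero.1 s2).resolve_right q2.ne'
      have u3 := (mul_eq_zero.1 ((mul_eq_zero.1 s3).resolve_right hA.ne')).resolve_right hz.ne
      have v0 : a 0 = 0 := by
        have : a 0 * ar (X (Sum.inr 0)) (X (Sum.inr 1)) (X (Sum.inr 2)) = 0 := by
          simp only [ar]
          linear_combination (-((X (Sum.inr 2)).2 - (X (Sum.inr 0)).2)) * (u1 - u0) +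
            ((X (Sum.inr 1)).2 - (X (Sum.inr 0)).2) * (u2 - u0)
        exact (mul_eq_zero.1 this).resolve_right hA.ne'
      have v1 : a 1 = 0 := by
        have : a 1 * ar (X (Sum.inr 0)) (X (Sum.inr 1)) (X (Sum.inr 2)) = 0 := by
          simp only [ar]
          linear_combination ((X (Sum.inr 2)).1 - (X (Sum.inr 0)).1) * (u1 - u0) -
            ((X (Sum.inr 1)).1 - (X (Sum.inr 0)).1) * (u2 - u0)
        exact (mul_eq_zero.1 this).resolve_right hA.ne'
      have hc : c = 0 := by rw [v0, v1, u3] at u0; linarith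
      ext v
      simp only [Set.mem_univ, iff_true]
      refine (hac v).2.1 ?_
      rw [v0, v1, u3, hc]; ring
  · rintro (h1 | ⟨g, hg⟩ | hr)
    · refine ⟨0, 0, fun v => ?_⟩
      rw [h1]
      simp
    · obtain ⟨α, β, γ, hlh⟩ := lh_affine T X z g
      obtain ⟨α', β', γ', hlh'⟩ := lh_affine T X (fun v => if v ∈ S then (0 : ℝ) else 1) g
      obtain ⟨ε, hε, hε'⟩ := ex_eps (fun v => z v - lh T X z g (X v))
        (fun v => - lh T X (fun v => if v ∈ S then (0 : ℝ) else 1) g (X v))
        {v | ∀ k, T.vert g k ≠ v} (fun v hv => sub_pos.2 (global_convex T X z h v g hv))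
      refine ⟨![α - ε * α', β - ε * β', 1], -γ + ε * γ', fun v => ?_⟩
      simp only [ex_sum, Matrix.cons_val_zero, Matrix.cons_val_one, Matrix.cons_val_two,
        Matrix.head_cons, Matrix.tail_cons]
      by_cases hv : ∃ k, T.vert g k = v
      · obtain ⟨k, rfl⟩ := hv
        have e1 := lh_vert T X z g (h.area g) k
        have e2 := lh_vert T X (fun v => if v ∈ S then (0 : ℝ) else 1) g (h.area g) k
        rw [hlh] at e1
        rw [hlh'] at e2
        by_cases hvS : T.vert g k ∈ S
        · simp only [hvS, if_true] at e2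
          have e3 : (α - ε * α') * (X (T.vert g k)).1 + (β - ε * β') * (X (T.vert g k)).2 +
              1 * -z (T.vert g k) = -γ + ε * γ' := by
            linear_combination e1 - ε * e2
          exact ⟨e3.le, fun _ => hvS, fun _ => e3⟩
        · simp only [hvS, if_false] at e2
          have e3 : (α - ε * α') * (X (T.vert g k)).1 + (β - ε * β') * (X (T.vert g k)).2 +
              1 * -z (T.vert g k) = -γ + ε * γ' - ε := by
            linear_combination e1 - ε * e2
          refine ⟨by rw [e3]; linarith, fun h5 => ?_, fun h5 => absurd h5 hvS⟩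
          rw [e3] at h5; linarith
      · have hv2 : ∀ k, T.vert g k ≠ v := fun k hk => hv ⟨k, hk⟩
        have e1 := hε' v hv2
        simp only [hlh, hlh'] at e1
        have e3 : (α - ε * α') * (X v).1 + (β - ε * β') * (X v).2 + 1 * -z v < -γ + ε * γ' := by
          linarith
        exact ⟨e3.le, fun h5 => absurd h5 e3.ne, fun h5 => absurd (hg v h5) hv⟩
    · obtain ⟨α, β, γ, m0, m1, m2⟩ := ex_exists (X (Sum.inr 0)) (X (Sum.inr 1)) (X (Sum.inr 2))
        h.outer.ne' (fun j => if Sum.inr j ∈ S then (0 : ℝ) else 1)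
      have hm : ∀ j : Fin 3, α * (X (Sum.inr j)).1 + β * (X (Sum.inr j)).2 + γ =
          if Sum.inr j ∈ S then (0 : ℝ) else 1 := by
        intro j
        fin_cases j
        · exact m0
        · exact m1
        · exact m2
      obtain ⟨ε, hε, hε'⟩ := ex_eps (fun v => - z v)
        (fun v => - (α * (X v).1 + β * (X v).2 + γ)) {v | ∃ w, v = Sum.inl w}
        (by
          rintro v ⟨w, rfl⟩
          have := z_neg T X z h w
          linarith)
      refine ⟨![-ε * α, -ε * β, -1], ε * γ, fun v => ?_⟩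
      simp only [ex_sum, Matrix.cons_val_zero, Matrix.cons_val_one, Matrix.cons_val_two,
        Matrix.head_cons, Matrix.tail_cons]
      rcases v with w | j
      · have e1 := hε' (Sum.inl w) ⟨w, rfl⟩
        have e3 : -ε * α * (X (Sum.inl w)).1 + -ε * β * (X (Sum.inl w)).2 + -1 * -z (Sum.inl w) <
            ε * γ := by
          linarith
        refine ⟨e3.le, fun h5 => absurd h5 e3.ne, fun h5 => ?_⟩
        obtain ⟨j, hj⟩ := hr _ h5
        exact absurd hj (by simp)
      · have e1 := hm j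
        have e2 := h.root j
        by_cases hvS : Sum.inr j ∈ S
        · simp only [hvS, if_true] at e1
          have e3 : -ε * α * (X (Sum.inr j)).1 + -ε * β * (X (Sum.inr j)).2 + -1 * -z (Sum.inr j) =
              ε * γ := by
            rw [e2]
            linear_combination (-ε) * e1
          exact ⟨e3.le, fun _ => hvS, fun _ => e3⟩
        · simp only [hvS, if_false] at e1
          have e3 : -ε * α * (X (Sum.inr j)).1 + -ε * β * (X (Sum.inr j)).2 + -1 * -z (Sum.inr j) =
              ε * γ - ε := by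
            rw [e2]
            linear_combination (-ε) * e1
          refine ⟨by rw [e3]; linarith, fun h5 => ?_, fun h5 => absurd h5 hvS⟩
          rw [e3] at h5; linarith

end MP0e5907
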