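import Pool.Agent.Lib_MP_0e5907.Base2
import Pool.Agent.Lib_MP_0e5907.Area

/-!
# Piece LOCA: the affine functions of the faces; the face with the largest value at `P` contains `P`

Paper proof. All identities are polynomial identities in coordinates (`ar`, `farea`, `ht` unfold to polynomials; `ring`/`field_simp`).
* `lh_vert`: `lh g (X (vert g k)) = z (vert g k)` for `k = 0,1,2` (`ar` with two equal arguments is `0`; divide by `farea g ≠ 0`).
* `ht_eq`: `ht g w = farea g * (z w - lh g (X w))`.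
* `lh_affine`: `lh g (∑ μ_i P_i) = ∑ μ_i lh g P_i` if `∑ μ_i = 1` (`ar` is affine in each argument) - stated for two points.
* `lh_cross`: for every edge `e` there is `κ > 0` with `lh (lf e) P - lh (rf e) P = κ * ar (X tail) (X head) P` for all `P`. Let `a = vert (lf e) (e.2+1)`,
  `b = vert (rf e) (e.2+2)`, `s` = tail, `h` = head. The vertices of `lf e` with labels `e.2+2, e.2, e.2+1` are `s, h, a`: `farea (lf e) = ar s h a > 0`
  (cyclic invariance of `ar`, do `Fin 3` cases on `e.2`); the vertices of `rf e` with labels `e.2+1, e.2+2, e.2` are `s, b, h`: `farea (rf e) = ar s b h = -ar s h b > 0`.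
  The function `D P = lh (lf e) P - lh (rf e) P` is affine and vanishes at `X s, X h`. An affine function vanishing at `X s`, `X h` is
  `D P = (D (X b) / ar s h b) * ar s h P` (because `ar s h b ≠ 0`: write `P` in the affine basis `s, h, b`:
  `ar s h b • P = ...`, or prove the polynomial identity after multiplying by the areas: `farea(lf e) * farea(rf e) * D P = ...` directly by `ring`
  using `ht`). `D (X b) = lh (lf e) (X b) - z b = - ht (lf e) b / farea (lf e) < 0` by `foldL`, and `ar s h b < 0`, so `κ = D (X b)/ar s h b > 0`.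
  (Direct formula: with `A = ar s h a`, `B = ar s b h`: `κ = ht (lf e) b / (A * B)`.)
* `max_lemma`: let `P` be in the closed outer triangle and `g` a face with `lh g' P ≤ lh g P` for all `g'`. Then for every `k`,
  `0 ≤ ar (X (vert g (k+1))) (X (vert g (k+2))) P`. Suppose it is negative for `k`. By `side_cases` (side `k` of `g`): if `g = of k` the side joins
  `inr (k+1)` and `inr (k+2)` (`of_one`, `of_two`): contradiction to `P` in the outer triangle. If `g = lf e`, `k = e.2+1`: `vert g (k+1)` = tail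
  (`lf_tail`), `vert g (k+2)` = head (`lf_head`), so `ar (X tail) (X head) P < 0` and by `lh_cross` `lh (rf e) P > lh (lf e) P`, contradiction. If `g = rf e`,
  `k = e.2+2`: `vert g (k+1)` = head, `vert g (k+2)` = tail, `ar head tail P < 0`, so `ar tail head P > 0` and `lh (lf e) P > lh (rf e) P`.
-/

namespace MP0e5907

open Finset

variable {N F : Type}

theorem fin3_cases (k : Fin 3) : k = 0 ∨ k = 1 ∨ k = 2 := by
  revert k; decide

theorem lh_vert (T : STri N F) (X : N ⊕ Fin 3 → ℝ × ℝ) (z : N ⊕ Fin 3 → ℝ) (g : F) (hg : 0 < farea T X g)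
    (k : Fin 3) : lh T X z g (X (T.vert g k)) = z (T.vert g k) := by
  have h0 : farea T X g ≠ 0 := hg.ne'
  unfold lh
  rw [div_eq_iff h0]
  unfold farea ar
  rcases fin3_cases k with rfl | rfl | rfl <;> ring

theorem ht_eq (T : STri N F) (X : N ⊕ Fin 3 → ℝ × ℝ) (z : N ⊕ Fin 3 → ℝ) (g : F) (hg : 0 < farea T X g)
    (w : N ⊕ Fin 3) : ht T X z g w = farea T X g * (z w - lh T X z g (X w)) := by
  have h0 : farea T X g ≠ 0 := hg.ne'
  unfold lh ht
  field_simp
  ring

/-- `lh` is an affine function -/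
theorem lh_affine (T : STri N F) (X : N ⊕ Fin 3 → ℝ × ℝ) (z : N ⊕ Fin 3 → ℝ) (g : F) :
    ∃ a b c : ℝ, ∀ P, lh T X z g P = a * P.1 + b * P.2 + c := by
  have key : ∀ (A B C : ℝ × ℝ) (α β γ δ : ℝ), ∃ a b c : ℝ, ∀ P : ℝ × ℝ,
      (α * ar P B C + β * ar A P C + γ * ar A B P) / δ = a * P.1 + b * P.2 + c := by
    intro A B C α β γ δ
    refine ⟨(α * (B.2 - C.2) + β * (C.2 - A.2) + γ * (A.2 - B.2)) / δ,
      (α * (C.1 - B.1) + β * (A.1 - C.1) + γ * (B.1 - A.1)) / δ,
      (α * (B.1 * C.2 - C.1 * B.2) + β * (C.1 * A.2 - A.1 * C.2) + γ * (A.1 * B.2 - B.1 * A.2)) / δ, ?_⟩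
    intro P
    unfold ar
    ring
  exact key _ _ _ _ _ _ _

/-- cyclic invariance of the area of a face -/
theorem farea_cyc (T : STri N F) (X : N ⊕ Fin 3 → ℝ × ℝ) (g : F) (k : Fin 3) :
    farea T X g = ar (X (T.vert g k)) (X (T.vert g (k + 1))) (X (T.vert g (k + 2))) := by
  rcases fin3_cases k with rfl | rfl | rfl
  · rfl
  · show farea T X g = ar (X (T.vert g 1)) (X (T.vert g 2)) (X (T.vert g 0))
    unfold farea ar
    ring
  · show farea T X g = ar (X (T.vert g 2)) (X (T.vert g 0)) (X (T.vert g 1))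
    unfold farea ar
    ring

theorem lh_cross (T : STri N F) (X : N ⊕ Fin 3 → ℝ × ℝ) (z : N ⊕ Fin 3 → ℝ) (h : LocConv T X z)
    (e : N × Fin 3) : ∃ κ : ℝ, 0 < κ ∧ ∀ P, lh T X z (T.lf e) P - lh T X z (T.rf e) P =
      κ * ar (X (Sum.inl e.1)) (X (T.par e.1 e.2)) P := by
  have hA := h.area (T.lf e)
  have hB := h.area (T.rf e)
  have hf := h.foldL e
  refine ⟨ht T X z (T.lf e) (T.vert (T.rf e) (e.2 + 2)) / (farea T X (T.lf e) * farea T X (T.rf e)),
    div_pos hf (mul_pos hA hB), ?_⟩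
  intro P
  have hA0 : farea T X (T.lf e) ≠ 0 := hA.ne'
  have hB0 : farea T X (T.rf e) ≠ 0 := hB.ne'
  have key : lh T X z (T.lf e) P * farea T X (T.lf e) * farea T X (T.rf e) -
      lh T X z (T.rf e) P * farea T X (T.rf e) * farea T X (T.lf e) =
      ht T X z (T.lf e) (T.vert (T.rf e) (e.2 + 2)) * ar (X (Sum.inl e.1)) (X (T.par e.1 e.2)) P := by
    unfold lh
    rw [div_mul_cancel₀ _ hA0, div_mul_cancel₀ _ hB0]
    unfold ht farea
    have l1 := T.lf_tail e
    have l2 := T.lf_head e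
    have r1 := T.rf_tail e
    have r2 := T.rf_head e
    obtain ⟨v, c⟩ := e
    rcases fin3_cases c with rfl | rfl | rfl
    · have l1' : T.vert (T.lf (v, 0)) 2 = Sum.inl v := l1
      have l2' : T.vert (T.lf (v, 0)) 0 = T.par v 0 := l2
      have r1' : T.vert (T.rf (v, 0)) 1 = Sum.inl v := r1
      have r2' : T.vert (T.rf (v, 0)) 0 = T.par v 0 := r2
      have e1 : ((v, (0 : Fin 3)).2 + 2 : Fin 3) = 2 := rfl
      rw [e1, l1', l2', r1', r2']
      unfold ar
      ring
    · have l1' : T.vert (T.lf (v, 1)) 0 = Sum.inl v := l1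
      have l2' : T.vert (T.lf (v, 1)) 1 = T.par v 1 := l2
      have r1' : T.vert (T.rf (v, 1)) 2 = Sum.inl v := r1
      have r2' : T.vert (T.rf (v, 1)) 1 = T.par v 1 := r2
      have e1 : ((v, (1 : Fin 3)).2 + 2 : Fin 3) = 0 := rfl
      rw [e1, l1', l2', r1', r2']
      unfold ar
      ring
    · have l1' : T.vert (T.lf (v, 2)) 1 = Sum.inl v := l1
      have l2' : T.vert (T.lf (v, 2)) 2 = T.par v 2 := l2
      have r1' : T.vert (T.rf (v, 2)) 0 = Sum.inl v := r1
      have r2' : T.vert (T.rf (v, 2)) 2 = T.par v 2 := r2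
      have e1 : ((v, (2 : Fin 3)).2 + 2 : Fin 3) = 1 := rfl
      rw [e1, l1', l2', r1', r2']
      unfold ar
      ring
  rw [div_mul_eq_mul_div, eq_div_iff (mul_ne_zero hA0 hB0), ← key]
  ring

theorem ar_swap (A B P : ℝ × ℝ) : ar B A P = - ar A B P := by
  unfold ar
  ring

theorem max_lemma (T : STri N F) (X : N ⊕ Fin 3 → ℝ × ℝ) (z : N ⊕ Fin 3 → ℝ) (h : LocConv T X z) (P : ℝ × ℝ)
    (hP : ∀ j : Fin 3, 0 ≤ ar (X (Sum.inr (j + 1))) (X (Sum.inr (j + 2))) P) (g : F)
    (hg : ∀ g', lh T X z g' P ≤ lh T X z g P) (k : Fin 3) :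
    0 ≤ ar (X (T.vert g (k + 1))) (X (T.vert g (k + 2))) P := by
  obtain ⟨q, hq⟩ := T.sides.2 (g, k)
  rcases q with (e | e) | j
  · simp only [sideMap, Prod.mk.injEq] at hq
    obtain ⟨rfl, rfl⟩ := hq
    have a1 : e.2 + 1 + 1 = e.2 + 2 := by
      rcases fin3_cases e.2 with h | h | h <;> rw [h] <;> rfl
    have a2 : e.2 + 1 + 2 = e.2 := by
      rcases fin3_cases e.2 with h | h | h <;> rw [h] <;> rfl
    rw [a1, a2, T.lf_tail, T.lf_head]
    obtain ⟨κ, hκ, hc⟩ := lh_cross T X z h e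
    have h1 := hc P
    have h2 := hg (T.rf e)
    by_contra hneg
    push Not at hneg
    have := mul_neg_of_pos_of_neg hκ hneg
    linarith
  · simp only [sideMap, Prod.mk.injEq] at hq
    obtain ⟨rfl, rfl⟩ := hq
    have a1 : e.2 + 2 + 1 = e.2 := by
      rcases fin3_cases e.2 with h | h | h <;> rw [h] <;> rfl
    have a2 : e.2 + 2 + 2 = e.2 + 1 := by
      rcases fin3_cases e.2 with h | h | h <;> rw [h] <;> rfl
    rw [a1, a2, T.rf_tail, T.rf_head]
    obtain ⟨κ, hκ, hc⟩ := lh_cross T X z h e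
    have h1 := hc P
    have h2 := hg (T.lf e)
    by_contra hneg
    push Not at hneg
    rw [ar_swap] at hneg
    have : 0 < κ * ar (X (Sum.inl e.1)) (X (T.par e.1 e.2)) P := mul_pos hκ (by linarith)
    linarith
  · simp only [sideMap, Prod.mk.injEq] at hq
    obtain ⟨rfl, rfl⟩ := hq
    rw [T.of_one, T.of_two]
    exact hP j

end MP0e5907
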