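import Pool.Agent.Lib_MP_0e5907.Lift
import Pool.Agent.Lib_MP_0e5907.LocA

/-!
# Piece FOLD: areas and folds of the exact lifting

`XX p v = (p v 1, p v 2)`.

Paper proof.
* `farea_eq`: if all `p v` have coordinate sum `1` then `farea T (XX p) g = fdet T p g`: substitute `p v 0 = 1 - p v 1 - p v 2` in the determinant
  (`Matrix.det_fin_three`) and `ring`. More generally `ar (XX a) (XX b) (XX c) = det3 a b c` if the coordinate sums are `1`.
* `lh_eq`: let `H, z` be as in `lift_norm`: `∑_j H g j * p (vert g k) j = z (vert g k)`. Then for every `w`: `lh T (XX p) z g (XX p w) = ∑_j H g j * p w j`.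
  Indeed `farea g • p w = ar (X w) (X g1) (X g2) • p (g0) + ar (X g0) (X w) (X g2) • p (g1) + ar (X g0) (X g1) (X w) • p (g2)` (Cramer's rule: with `det3`, an identity valid
  for all vectors: `det3 a b c • x = det3 x b c • a + det3 a x c • b + det3 a b x • c`, componentwise by `ring`). Apply the linear form `H g`.
* `fold_exact`: with `g = lf e`, `w = vert (rf e) (e.2+2)`: by `ht_eq` `ht (lf e) w = farea (lf e) (z w - ∑ H (lf e) j p w j)` and `z w = ∑ H (rf e) j p w j`, so it is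
  `- farea (lf e) ω_e det3 (p tail) (p head) (p w)`; the vertices of `rf e` with labels `e.2+1, e.2+2, e.2` are tail, `w`, head, so
  `det3 (p tail) (p w) (p head) = farea (rf e)` (`farea_cyc`), and `det3 (p tail) (p head) (p w) = - farea (rf e)`.
  Hence `ht (lf e) w = ω_e farea (lf e) farea (rf e)`. Similarly with `g = rf e`, `w' = vert (lf e) (e.2+1)`: `ht (rf e) w' = farea (rf e) (z w' - ∑ H (rf e) j p w' j) =
  farea (rf e) ω_e det3 (p tail) (p head) (p w')` and the labels `e.2+2, e.2, e.2+1` of `lf e` are tail, head, `w'`: `det3 = farea (lf e)`.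
-/

namespace MP0e5907

open Finset

variable {N F : Type}

/-- planar coordinates from barycentric coordinates -/
def XX (p : N ⊕ Fin 3 → Fin 3 → ℝ) (v : N ⊕ Fin 3) : ℝ × ℝ := (p v 1, p v 2)

private theorem fold_ar {a b c : Fin 3 → ℝ} (ha : ∑ j, a j = 1) (hb : ∑ j, b j = 1)
    (hc : ∑ j, c j = 1) : ar (a 1, a 2) (b 1, b 2) (c 1, c 2) = det3 a b c := by
  rw [Fin.sum_univ_three] at ha hb hc
  have ha' : a 0 = 1 - a 1 - a 2 := by linarith
  have hb' : b 0 = 1 - b 1 - b 2 := by linarith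
  have hc' : c 0 = 1 - c 1 - c 2 := by linarith
  unfold ar det3
  rw [ha', hb', hc']
  ring

private theorem fold_fdet (T : STri N F) (p : N ⊕ Fin 3 → Fin 3 → ℝ) (g : F) :
    fdet T p g = det3 (p (T.vert g 0)) (p (T.vert g 1)) (p (T.vert g 2)) := by
  unfold fdet det3
  rw [Matrix.det_fin_three]
  simp only [Matrix.of_apply]
  ring

private theorem fold_cyc (T : STri N F) (p : N ⊕ Fin 3 → Fin 3 → ℝ) (g : F) (k : Fin 3) :
    fdet T p g = det3 (p (T.vert g k)) (p (T.vert g (k + 1))) (p (T.vert g (k + 2))) := by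
  rw [fold_fdet]
  have h1 : (1 + 1 : Fin 3) = 2 := rfl
  have h2 : (1 + 2 : Fin 3) = 0 := rfl
  have h3 : (2 + 1 : Fin 3) = 0 := rfl
  have h4 : (2 + 2 : Fin 3) = 1 := rfl
  fin_cases k
  · change _ = det3 (p (T.vert g 0)) (p (T.vert g (0 + 1))) (p (T.vert g (0 + 2)))
    rw [zero_add, zero_add]
  · change _ = det3 (p (T.vert g 1)) (p (T.vert g (1 + 1))) (p (T.vert g (1 + 2)))
    rw [h1, h2]
    unfold det3
    ring
  · change _ = det3 (p (T.vert g 2)) (p (T.vert g (2 + 1))) (p (T.vert g (2 + 2)))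
    rw [h3, h4]
    unfold det3
    ring

theorem farea_eq (T : STri N F) (p : N ⊕ Fin 3 → Fin 3 → ℝ) (hs : ∀ v, ∑ j, p v j = 1) (g : F) :
    farea T (XX p) g = fdet T p g := by
  rw [fold_fdet]
  exact fold_ar (hs _) (hs _) (hs _)

private theorem fold_ht (T : STri N F) (p : N ⊕ Fin 3 → Fin 3 → ℝ) (hs : ∀ v, ∑ j, p v j = 1)
    (H : F → Fin 3 → ℝ) (z : N ⊕ Fin 3 → ℝ)
    (hz : ∀ g k, ∑ j, H g j * p (T.vert g k) j = z (T.vert g k)) (g : F) (w : N ⊕ Fin 3) :
    ht T (XX p) z g w = fdet T p g * (z w - ∑ j, H g j * p w j) := by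
  have e0 := hz g 0
  have e1 := hz g 1
  have e2 := hz g 2
  have a1 : ar (XX p w) (XX p (T.vert g 1)) (XX p (T.vert g 2)) =
      det3 (p w) (p (T.vert g 1)) (p (T.vert g 2)) := fold_ar (hs _) (hs _) (hs _)
  have a2 : ar (XX p (T.vert g 0)) (XX p w) (XX p (T.vert g 2)) =
      det3 (p (T.vert g 0)) (p w) (p (T.vert g 2)) := fold_ar (hs _) (hs _) (hs _)
  have a3 : ar (XX p (T.vert g 0)) (XX p (T.vert g 1)) (XX p w) =
      det3 (p (T.vert g 0)) (p (T.vert g 1)) (p w) := fold_ar (hs _) (hs _) (hs _)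
  unfold ht
  rw [a1, a2, a3, farea_eq T p hs, fold_fdet, ← e0, ← e1, ← e2]
  rw [Fin.sum_univ_three, Fin.sum_univ_three, Fin.sum_univ_three, Fin.sum_univ_three]
  unfold det3
  ring

theorem fold_exact (T : STri N F) (ω : N × Fin 3 → ℝ) (p : N ⊕ Fin 3 → Fin 3 → ℝ) (hs : ∀ v, ∑ j, p v j = 1)
    (hA : ∀ g, 0 < fdet T p g) (H : F → Fin 3 → ℝ) (z : N ⊕ Fin 3 → ℝ)
    (hH : ∀ e (x : Fin 3 → ℝ), ∑ j, H (T.lf e) j * x j - ∑ j, H (T.rf e) j * x j =
        ω e * det3 (p (Sum.inl e.1)) (p (T.par e.1 e.2)) x)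
    (hz : ∀ g k, ∑ j, H g j * p (T.vert g k) j = z (T.vert g k)) (e : N × Fin 3) :
    ht T (XX p) z (T.lf e) (T.vert (T.rf e) (e.2 + 2)) = ω e * (fdet T p (T.lf e) * fdet T p (T.rf e)) ∧
    ht T (XX p) z (T.rf e) (T.vert (T.lf e) (e.2 + 1)) = ω e * (fdet T p (T.lf e) * fdet T p (T.rf e)) := by
  have k1 : e.2 + 1 + 1 = e.2 + 2 := by
    rw [add_assoc]
    rfl
  have k2 : e.2 + 1 + 2 = e.2 := by
    rw [add_assoc]
    exact add_zero _
  have k3 : e.2 + 2 + 1 = e.2 := by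
    rw [add_assoc]
    exact add_zero _
  have k4 : e.2 + 2 + 2 = e.2 + 1 := by
    rw [add_assoc]
    rfl
  have hR := fold_cyc T p (T.rf e) (e.2 + 1)
  rw [k1, k2, T.rf_tail, T.rf_head] at hR
  have hL := fold_cyc T p (T.lf e) (e.2 + 2)
  rw [k3, k4, T.lf_tail, T.lf_head] at hL
  constructor
  · rw [fold_ht T p hs H z hz]
    have h1 := hz (T.rf e) (e.2 + 2)
    have h2 := hH e (p (T.vert (T.rf e) (e.2 + 2)))
    have h3 : det3 (p (Sum.inl e.1)) (p (T.par e.1 e.2)) (p (T.vert (T.rf e) (e.2 + 2))) =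
        - fdet T p (T.rf e) := by
      rw [hR]
      unfold det3
      ring
    rw [h3] at h2
    rw [← h1]
    linear_combination (- fdet T p (T.lf e)) * h2
  · rw [fold_ht T p hs H z hz]
    have h1 := hz (T.lf e) (e.2 + 1)
    have h2 := hH e (p (T.vert (T.lf e) (e.2 + 1)))
    rw [← hL] at h2
    rw [← h1]
    linear_combination (fdet T p (T.rf e)) * h2

end MP0e5907
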