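import Pool.Agent.Lib_MP_0e5907.Star

/-!
# Piece GLOB: local convexity implies global convexity

Paper proof.
* `vertex_in`: if `X w ∈ ftri g` then `w` is a vertex of `g`.
  Case `w = inl w'`: suppose not. Let `ε` be as in `star_nhd`. The set `U = {P : dist P (X w) < ε, all three `ar (X (vert g (k+1))) (X (vert g (k+2))) P > 0`}` is open and
  nonempty: let `C` be the centroid of `g` (strictly inside: each `ar` equals `farea/3`); the points `X w + s (C - X w)`, `0 < s ≤ 1`, are strictly inside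
  (affine functions, `≥ 0` at `X w`, `> 0` at `C`) and close to `X w` for small `s`. `U ⊆ ⋃_{g1 ∋ w} (ftri g ∩ ftri g1)` and each `g1 ≠ g` (as `w ∉ g`), so
  `U` is a null set by `overlap_null`, contradicting that it is open and nonempty.
  Case `w = inr j`: let `A_i P = ar (X (inr (i+1))) (X (inr (i+2))) P`. `X w ∈ ftri g` means `X w = ∑ μ_k X (vert g k)`, `μ_k ≥ 0`, `∑ μ_k = 1`
  (`μ_k = ar (X (vert g (k+1))) (X (vert g (k+2))) (X w) / farea g`). For `i ≠ j`: `A_i (X (inr j)) = 0` so `0 = ∑ μ_k A_i (X (vert g k))` with all terms `≥ 0` (`all_in_outer`). Choose `k` with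
  `μ_k > 0`: `A_i (X (vert g k)) = 0` for both `i ≠ j`. So `vert g k` is not inner (`inner_pos`), it is a root `inr l`, and `l = j` because `A_l (X (inr l)) > 0`.
* `global_convex`: `w` not a vertex of `g` implies `lh g (X w) < z w`. `X w` is in the closed outer triangle (`all_in_outer`); let `g0` be a face maximising
  `lh · (X w)` (`cover`), `X w ∈ ftri g0`, so `w` is a vertex of `g0` (`vertex_in`) and `lh g0 (X w) = z w` (`lh_vert`). So `lh g (X w) ≤ z w`. If equality
  holds then `g` is a maximiser too, so by `max_lemma` `X w ∈ ftri g`, and `w` is a vertex of `g`. Contradiction.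
* `z_neg`: `w` inner implies `z w < 0`. Choose a face `g` having `inl w` as a vertex (`lf (w,0)`, label 2). `X w = ∑ λ_j X (inr j)` with `λ_j > 0` (`inner_pos`,
  `λ_j = A_j (X w) / ar(outer)`), so `z w = lh g (X w) = ∑ λ_j lh g (X (inr j)) ≤ ∑ λ_j z (inr j) = 0` by `lh_vert`/`global_convex`. If equality holds then for
  all `j` `lh g (X (inr j)) = z (inr j)`, so all three roots are vertices of `g`, which has only three vertices and contains `inl w`: contradiction
  (`vert g` restricted: the three labels would be `inr`'s by `Function.Injective`/pigeonhole, or: `vert g k = inr j` implies `k = j` by `reg_vert`,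
  `reg_root`, so `vert g j = inr j` for all `j`, contradicting `vert g k = inl w`).
-/

namespace MP0e5907

open Finset MeasureTheory

variable {N F : Type} [Fintype N] [Fintype F]

/-! ### auxiliary lemmas -/

theorem glob_line (A B P Q : ℝ × ℝ) (s : ℝ) :
    ar A B (P + s • (Q - P)) = (1 - s) * ar A B P + s * ar A B Q := by
  unfold ar
  simp only [Prod.fst_add, Prod.snd_add, Prod.smul_fst, Prod.smul_snd, Prod.fst_sub, Prod.snd_sub,
    smul_eq_mul]
  ring

theorem glob_bary1 (A B C P : ℝ × ℝ) :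
    ar A B C * P.1 = ar B C P * A.1 + ar C A P * B.1 + ar A B P * C.1 := by
  unfold ar
  ring

theorem glob_bary2 (A B C P : ℝ × ℝ) :
    ar A B C * P.2 = ar B C P * A.2 + ar C A P * B.2 + ar A B P * C.2 := by
  unfold ar
  ring

theorem glob_sum (A B C P : ℝ × ℝ) : ar B C P + ar C A P + ar A B P = ar A B C := by
  unfold ar
  ring

/-- an affine function of the barycentric combination -/
theorem glob_bary (A B C P Q R : ℝ × ℝ) :
    ar A B C * ar Q R P = ar B C P * ar Q R A + ar C A P * ar Q R B + ar A B P * ar Q R C := by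
  unfold ar
  ring

omit [Fintype N] in
theorem glob_outer {X : N ⊕ Fin 3 → ℝ × ℝ} (l : Fin 3) :
    ar (X (Sum.inr (l + 1))) (X (Sum.inr (l + 2))) (X (Sum.inr l)) =
      ar (X (Sum.inr 0)) (X (Sum.inr 1)) (X (Sum.inr 2)) := by
  fin_cases l
  · show ar (X (Sum.inr 1)) (X (Sum.inr 2)) (X (Sum.inr 0)) = _
    unfold ar
    ring
  · show ar (X (Sum.inr 2)) (X (Sum.inr 0)) (X (Sum.inr 1)) = _
    unfold ar
    ring
  · show ar (X (Sum.inr 0)) (X (Sum.inr 1)) (X (Sum.inr 2)) = _
    rfl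

omit [Fintype N] in
theorem glob_zero {X : N ⊕ Fin 3 → ℝ × ℝ} {i j : Fin 3} (h : i ≠ j) :
    ar (X (Sum.inr (i + 1))) (X (Sum.inr (i + 2))) (X (Sum.inr j)) = 0 := by
  have h1 : j = i + 1 ∨ j = i + 2 := by
    revert i j
    decide
  rcases h1 with rfl | rfl
  · unfold ar
    ring
  · unfold ar
    ring

theorem glob_cont (A B : ℝ × ℝ) : Continuous (fun P => ar A B P) := by
  unfold ar
  fun_prop

/-- the case of an inner vertex -/
theorem glob_inner (T : STri N F) (X : N ⊕ Fin 3 → ℝ × ℝ) (z : N ⊕ Fin 3 → ℝ) (h : LocConv T X z)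
    (w : N) (g : F) (hw : X (Sum.inl w) ∈ ftri T X g) : ∃ k, T.vert g k = Sum.inl w := by
  classical
  by_contra hcon
  push Not at hcon
  obtain ⟨ε, hε, hst⟩ := star_nhd T X h.area w
  rw [mem_ftri] at hw
  obtain ⟨C, hC⟩ : ∃ C : ℝ × ℝ, C = (((X (T.vert g 0)).1 + (X (T.vert g 1)).1 + (X (T.vert g 2)).1) / 3,
    ((X (T.vert g 0)).2 + (X (T.vert g 1)).2 + (X (T.vert g 2)).2) / 3) := ⟨_, rfl⟩
  have hCar : ∀ k : Fin 3, ar (X (T.vert g (k + 1))) (X (T.vert g (k + 2))) C = farea T X g / 3 := by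
    intro k
    fin_cases k
    · show ar (X (T.vert g 1)) (X (T.vert g 2)) C = farea T X g / 3
      rw [hC]
      unfold farea ar
      ring
    · show ar (X (T.vert g 2)) (X (T.vert g 0)) C = farea T X g / 3
      rw [hC]
      unfold farea ar
      ring
    · show ar (X (T.vert g 0)) (X (T.vert g 1)) C = farea T X g / 3
      rw [hC]
      unfold farea ar
      ring
  have hA : 0 < farea T X g := h.area g
  obtain ⟨U, hU⟩ : ∃ U : Set (ℝ × ℝ), U = {P | dist P (X (Sum.inl w)) < ε} ∩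
    ⋂ k : Fin 3, {P | 0 < ar (X (T.vert g (k + 1))) (X (T.vert g (k + 2))) P} := ⟨_, rfl⟩
  have hUo : IsOpen U := by
    rw [hU]
    refine IsOpen.inter (isOpen_lt (continuous_id.dist continuous_const) continuous_const) ?_
    exact isOpen_iInter_of_finite fun k => isOpen_lt continuous_const (glob_cont _ _)
  have hUne : U.Nonempty := by
    obtain ⟨s, hs0, hs1, hs2⟩ : ∃ s : ℝ, 0 < s ∧ s ≤ 1 ∧ s * ‖C - X (Sum.inl w)‖ < ε := by
      have hn := norm_nonneg (C - X (Sum.inl w))
      refine ⟨min 1 (ε / (2 * (‖C - X (Sum.inl w)‖ + 1))), lt_min one_pos (by positivity),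
        min_le_left _ _, ?_⟩
      have h1 : min 1 (ε / (2 * (‖C - X (Sum.inl w)‖ + 1))) * ‖C - X (Sum.inl w)‖ ≤
          ε / (2 * (‖C - X (Sum.inl w)‖ + 1)) * (‖C - X (Sum.inl w)‖ + 1) :=
        mul_le_mul (min_le_right _ _) (by linarith) hn (by positivity)
      have h2 : ε / (2 * (‖C - X (Sum.inl w)‖ + 1)) * (‖C - X (Sum.inl w)‖ + 1) = ε / 2 := by
        field_simp
      linarith
    refine ⟨X (Sum.inl w) + s • (C - X (Sum.inl w)), ?_⟩
    rw [hU]
    refine ⟨?_, Set.mem_iInter.2 fun k => ?_⟩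
    · show dist (X (Sum.inl w) + s • (C - X (Sum.inl w))) (X (Sum.inl w)) < ε
      rw [dist_eq_norm, add_sub_cancel_left, norm_smul, Real.norm_eq_abs, abs_of_pos hs0]
      exact hs2
    · show 0 < ar (X (T.vert g (k + 1))) (X (T.vert g (k + 2)))
        (X (Sum.inl w) + s • (C - X (Sum.inl w)))
      rw [glob_line, hCar]
      have h1 : 0 ≤ (1 - s) * ar (X (T.vert g (k + 1))) (X (T.vert g (k + 2))) (X (Sum.inl w)) :=
        mul_nonneg (by linarith) (hw k)
      have h2 : 0 < s * (farea T X g / 3) := by positivity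
      linarith
  have hUsub : U ⊆ ⋃ g' ∈ (Finset.univ.erase g : Finset F), (ftri T X g ∩ ftri T X g') := by
    intro P hP
    rw [hU] at hP
    obtain ⟨h1, h2⟩ := hP
    obtain ⟨g', k, hk, hPg'⟩ := hst P h1
    have hne : g' ≠ g := by
      rintro rfl
      exact hcon k hk
    refine Set.mem_iUnion₂.2 ⟨g', Finset.mem_erase.2 ⟨hne, Finset.mem_univ _⟩, ?_, hPg'⟩
    rw [mem_ftri]
    intro k
    exact le_of_lt (Set.mem_iInter.1 h2 k)
  have hnull : volume U = 0 := by
    refine measure_mono_null hUsub ?_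
    refine measure_iUnion_null fun g' => measure_iUnion_null fun hg' => ?_
    exact overlap_null T X z h g g' (Finset.ne_of_mem_erase hg').symm
  exact (hUo.measure_pos volume hUne).ne' hnull

/-- the case of a root -/
theorem glob_root (T : STri N F) (X : N ⊕ Fin 3 → ℝ × ℝ) (z : N ⊕ Fin 3 → ℝ) (h : LocConv T X z)
    (j : Fin 3) (g : F) (hw : X (Sum.inr j) ∈ ftri T X g) : ∃ k, T.vert g k = Sum.inr j := by
  rw [mem_ftri] at hw
  have h0 : 0 ≤ ar (X (T.vert g 1)) (X (T.vert g 2)) (X (Sum.inr j)) := hw 0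
  have h1 : 0 ≤ ar (X (T.vert g 2)) (X (T.vert g 0)) (X (Sum.inr j)) := hw 1
  have h2 : 0 ≤ ar (X (T.vert g 0)) (X (T.vert g 1)) (X (Sum.inr j)) := hw 2
  have hA : 0 < ar (X (T.vert g 0)) (X (T.vert g 1)) (X (T.vert g 2)) := h.area g
  have hsum := glob_sum (X (T.vert g 0)) (X (T.vert g 1)) (X (T.vert g 2)) (X (Sum.inr j))
  have hnn := all_in_outer T X h.area h.outer
  have hterm : ∀ i, i ≠ j →
      ar (X (T.vert g 1)) (X (T.vert g 2)) (X (Sum.inr j)) *
        ar (X (Sum.inr (i + 1))) (X (Sum.inr (i + 2))) (X (T.vert g 0)) = 0 ∧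
      ar (X (T.vert g 2)) (X (T.vert g 0)) (X (Sum.inr j)) *
        ar (X (Sum.inr (i + 1))) (X (Sum.inr (i + 2))) (X (T.vert g 1)) = 0 ∧
      ar (X (T.vert g 0)) (X (T.vert g 1)) (X (Sum.inr j)) *
        ar (X (Sum.inr (i + 1))) (X (Sum.inr (i + 2))) (X (T.vert g 2)) = 0 := by
    intro i hi
    have e1 := glob_bary (X (T.vert g 0)) (X (T.vert g 1)) (X (T.vert g 2)) (X (Sum.inr j))
      (X (Sum.inr (i + 1))) (X (Sum.inr (i + 2)))
    rw [glob_zero hi, mul_zero] at e1
    have p0 := mul_nonneg h0 (hnn (T.vert g 0) i)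
    have p1 := mul_nonneg h1 (hnn (T.vert g 1) i)
    have p2 := mul_nonneg h2 (hnn (T.vert g 2) i)
    exact ⟨by linarith, by linarith, by linarith⟩
  have hfin : ∀ v : N ⊕ Fin 3, (∀ i, i ≠ j → ar (X (Sum.inr (i + 1))) (X (Sum.inr (i + 2))) (X v) = 0) →
      v = Sum.inr j := by
    intro v hv
    rcases v with v | l
    · obtain ⟨i, hi⟩ : ∃ i : Fin 3, i ≠ j := exists_ne j
      exact absurd (hv i hi) (inner_pos T X h.area h.outer v i).ne'
    · by_contra hl
      have hlj : l ≠ j := fun e => hl (by rw [e])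
      have h3 := hv l hlj
      rw [glob_outer] at h3
      exact h.outer.ne' h3
  rcases h0.lt_or_eq with h0' | h0'
  · exact ⟨0, hfin _ fun i hi => (mul_eq_zero.1 (hterm i hi).1).resolve_left h0'.ne'⟩
  · rcases h1.lt_or_eq with h1' | h1'
    · exact ⟨1, hfin _ fun i hi => (mul_eq_zero.1 (hterm i hi).2.1).resolve_left h1'.ne'⟩
    · have h2' : 0 < ar (X (T.vert g 0)) (X (T.vert g 1)) (X (Sum.inr j)) := by linarith
      exact ⟨2, hfin _ fun i hi => (mul_eq_zero.1 (hterm i hi).2.2).resolve_left h2'.ne'⟩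

theorem vertex_in (T : STri N F) (X : N ⊕ Fin 3 → ℝ × ℝ) (z : N ⊕ Fin 3 → ℝ) (h : LocConv T X z)
    (w : N ⊕ Fin 3) (g : F) (hw : X w ∈ ftri T X g) : ∃ k, T.vert g k = w := by
  rcases w with w | j
  · exact glob_inner T X z h w g hw
  · exact glob_root T X z h j g hw

theorem global_convex (T : STri N F) (X : N ⊕ Fin 3 → ℝ × ℝ) (z : N ⊕ Fin 3 → ℝ) (h : LocConv T X z)
    (w : N ⊕ Fin 3) (g : F) (hw : ∀ k, T.vert g k ≠ w) : lh T X z g (X w) < z w := by
  have hP := all_in_outer T X h.area h.outer w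
  obtain ⟨g0, hg0, hmax⟩ := cover T X z h (X w) hP
  obtain ⟨k, hk⟩ := vertex_in T X z h w g0 hg0
  have h1 : lh T X z g0 (X w) = z w := by
    rw [← hk]
    exact lh_vert T X z g0 (h.area g0) k
  rw [h1] at hmax
  rcases (hmax g).lt_or_eq with h2 | h2
  · exact h2
  · exfalso
    have h3 : X w ∈ ftri T X g := by
      rw [mem_ftri]
      exact max_lemma T X z h (X w) hP g (fun g' => by rw [h2]; exact hmax g')
    obtain ⟨k', hk'⟩ := vertex_in T X z h w g h3
    exact hw k' hk'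

theorem z_neg (T : STri N F) (X : N ⊕ Fin 3 → ℝ × ℝ) (z : N ⊕ Fin 3 → ℝ) (h : LocConv T X z) (w : N) :
    z (Sum.inl w) < 0 := by
  obtain ⟨g, hg⟩ : ∃ g, g = T.lf (w, 0) := ⟨_, rfl⟩
  have hv : T.vert g 2 = Sum.inl w := by
    rw [hg]
    exact T.lf_tail (w, 0)
  have h1 : lh T X z g (X (Sum.inl w)) = z (Sum.inl w) := by
    rw [← hv]
    exact lh_vert T X z g (h.area g) 2
  have hle : ∀ j : Fin 3, lh T X z g (X (Sum.inr j)) ≤ 0 := by
    intro j
    by_cases hj : ∃ k, T.vert g k = Sum.inr j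
    · obtain ⟨k, hk⟩ := hj
      rw [← hk, lh_vert T X z g (h.area g) k, hk, h.root]
    · push Not at hj
      have h2 := global_convex T X z h (Sum.inr j) g hj
      rw [h.root] at h2
      exact h2.le
  have hlt : lh T X z g (X (Sum.inr 2)) < 0 := by
    have h2 := global_convex T X z h (Sum.inr 2) g (by
      intro k hk
      have h3 := T.reg_vert g k
      rw [hk, T.reg_root] at h3
      rw [← h3, hv] at hk
      exact Sum.inl_ne_inr hk)
    rw [h.root] at h2
    exact h2
  have p0 : 0 < ar (X (Sum.inr 1)) (X (Sum.inr 2)) (X (Sum.inl w)) :=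
    inner_pos T X h.area h.outer w 0
  have p1 : 0 < ar (X (Sum.inr 2)) (X (Sum.inr 0)) (X (Sum.inl w)) :=
    inner_pos T X h.area h.outer w 1
  have p2 : 0 < ar (X (Sum.inr 0)) (X (Sum.inr 1)) (X (Sum.inl w)) :=
    inner_pos T X h.area h.outer w 2
  have hO := h.outer
  obtain ⟨a, b, c, hab⟩ := lh_affine T X z g
  have e1 := glob_bary1 (X (Sum.inr 0)) (X (Sum.inr 1)) (X (Sum.inr 2)) (X (Sum.inl w))
  have e2 := glob_bary2 (X (Sum.inr 0)) (X (Sum.inr 1)) (X (Sum.inr 2)) (X (Sum.inl w))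
  have e3 := glob_sum (X (Sum.inr 0)) (X (Sum.inr 1)) (X (Sum.inr 2)) (X (Sum.inl w))
  have e4 : ar (X (Sum.inr 0)) (X (Sum.inr 1)) (X (Sum.inr 2)) * z (Sum.inl w) =
      ar (X (Sum.inr 1)) (X (Sum.inr 2)) (X (Sum.inl w)) * lh T X z g (X (Sum.inr 0)) +
      ar (X (Sum.inr 2)) (X (Sum.inr 0)) (X (Sum.inl w)) * lh T X z g (X (Sum.inr 1)) +
      ar (X (Sum.inr 0)) (X (Sum.inr 1)) (X (Sum.inl w)) * lh T X z g (X (Sum.inr 2)) := by
    rw [← h1, hab, hab, hab, hab]
    linear_combination a * e1 + b * e2 - c * e3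
  have q0 := mul_nonpos_of_nonneg_of_nonpos p0.le (hle 0)
  have q1 := mul_nonpos_of_nonneg_of_nonpos p1.le (hle 1)
  have q2 := mul_neg_of_pos_of_neg p2 hlt
  by_contra hcon
  push Not at hcon
  have q3 := mul_nonneg hO.le hcon
  linarith

end MP0e5907
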