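import Pool.Agent.Lib_MP_0e5907.KLow

/-!
# Piece KADJ: adjacent faces

Paper proof. Interpolation identity: for an affine function `f = ev m` and `A = ar a b c`: `A * f P = ar P b c * f a + ar a P c * f b + ar a b P * f c` (`ring`). In particular if `f a = f b = 0` then `ar a b c * f P = ar a b P * f c`.
* `face_ar`: three distinct contact points are not collinear: `NF.indep`.
* `adj_exists`: `g = {a,b,c} ∈ FF` with function `m`; normalise `A P = ar (X a) (X b) P * ar (X a) (X b) (X c)`, `A (X c) > 0`, and some vertex `w` has `A (X w) < 0`. Let `t` be the minimum of `(h w - ev m (X w)) / (-A (X w))` over the vertices with `A (X w) < 0`, attained at `c'`; such `w` are not in `g`, so `t > 0`. `m' = m - t A` (an affine function) satisfies `ev m' (X w) ≤ h w`: for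
  `A (X w) < 0` by minimality, otherwise `ev m' ≤ ev m ≤ h`. Contact: `a, b` (where `A = 0`) and `c'`. The contact set is low, has at most three elements (`low_card`), so it is `{a,b,c'}`; `c' ≠ a, b`.
* `adj_unique`: `c, c'` on the same side of the line `ab`. Let `m, m'` be the functions of the two faces, `f = ev m - ev m'`, `f (X a) = f (X b) = 0`, `f (X c) = h c - ev m' (X c) ≥ 0`, `f (X c') = ev m (X c') - h c' ≤ 0`. By the interpolation identity `ar a b c * f (X c') = ar a b c' * f (X c)`, and `ar a b c`, `ar a b c'` have the same sign,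
  so `f (X c') ≥ 0`, thus `f (X c') = 0`, i.e. `ev m (X c') = h c'` and `c' ∈ {a,b,c}`, so `c' = c` (`c' ≠ a, b` because its `ar` is nonzero).
* `adj_cross`: `m, m'` functions of `{a,b,c}`, `{a,b,c'}` (opposite sides), `P` with `ar a b P * ar a b c < 0`: `f = ev m' - ev m` vanishes at `X a, X b` and `f (X c) = ev m' (X c) - h c < 0` (`c ∉ {a,b,c'}` since `ar a b c * ar a b c' < 0` rules out `c = c'`). `ar a b c * f P = ar a b P * f (X c)`; multiply by
  `ar a b c`: `(ar a b c)^2 f P = (ar a b P * ar a b c) f (X c) > 0`.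
* `other_side`: if `a` is not a corner and `b ≠ a` then for every `c` with `ar (X a) (X b) (X c) ≠ 0` there is a corner `r j` with `ar a b (r j) * ar a b c < 0`: let `A P = ar a b P * ar a b c`. `X a = ∑ λ_j X (r j)` with `λ_j > 0` (`λ = (1 - x - y, x, y)`), `0 = A (X a) = ∑ λ_j A (X (r j))`. If all `A (X (r j)) ≥ 0` then all are `0`; an affine function vanishing
  at the three corners is zero, but `A (X c) > 0`. Contradiction.
* `faces_inner`: `a ≠ b` in a common face `{a,b,c}` and not both corners (say `a` is not a corner; the statement is symmetric). By `other_side` and `adj_exists` there is a face `{a,b,c'}` on the other side. Every face containing `a, b` is `{a,b,c''}` with `ar a b c'' ≠ 0` (`face_ar`), so `c''` is on the side of `c` or of `c'`: by `adj_unique` it is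
  one of the two. They are different. So exactly two.
* `faces_outer`: for corners `r i, r j`, `i ≠ j`: `root_low`, `low_extend` give a face containing both. All other vertices are strictly on the same side of the line `X (r i) X (r j)` (the barycentric coordinate of the third corner is positive), so by `adj_unique` the face is unique.
-/

namespace MP0e5907

open Finset

variable {V : Type} [Fintype V] [DecidableEq V]

omit [Fintype V] [DecidableEq V] in
theorem kadj_interp (m : ℝ × ℝ × ℝ) (a b c P : ℝ × ℝ) :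
    ar a b c * ev m P = ar P b c * ev m a + ar a P c * ev m b + ar a b P * ev m c := by
  unfold ar ev
  ring

omit [Fintype V] [DecidableEq V] in
theorem kadj_pos {x y : ℝ} (h : 0 < x * y) (hx : 0 ≤ x) : 0 < y := by
  refine lt_of_mul_lt_mul_left (a := x) ?_ hx
  rw [mul_zero]
  exact h

omit [Fintype V] [DecidableEq V] in
theorem kadj_ar1 (a b : ℝ × ℝ) : ar a b a = 0 := by
  unfold ar
  ring

omit [Fintype V] [DecidableEq V] in
theorem kadj_ar2 (a b : ℝ × ℝ) : ar a b b = 0 := by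
  unfold ar
  ring

omit [Fintype V] [DecidableEq V] in
/-- two affine functions with the same values at two points -/
theorem kadj_two (m m' : ℝ × ℝ × ℝ) (a b c P : ℝ × ℝ) (h1 : ev m a = ev m' a) (h2 : ev m b = ev m' b) :
    ar a b c * (ev m P - ev m' P) = ar a b P * (ev m c - ev m' c) := by
  have e1 := kadj_interp m a b c P
  have e2 := kadj_interp m' a b c P
  rw [h1, h2] at e1
  linarith

omit [DecidableEq V] in
theorem kadj_mem {X : V → ℝ × ℝ} {h : V → ℝ} {g : Finset V} : g ∈ FF X h ↔ g.card = 3 ∧ Low X h g := by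
  classical
  constructor
  · intro hh
    exact (mem_filter.1 hh).2
  · intro hh
    exact mem_filter.2 ⟨mem_univ _, hh⟩

omit [Fintype V] in
theorem kadj_third {g : Finset V} (hg : g.card = 3) {a b : V} (ha : a ∈ g) (hb : b ∈ g) (hab : a ≠ b) :
    ∃ c, a ≠ c ∧ b ≠ c ∧ g = {a, b, c} := by
  have h1 : (g.erase a).card = 2 := by
    rw [card_erase_of_mem ha, hg]
  have hb' : b ∈ g.erase a := mem_erase.2 ⟨hab.symm, hb⟩
  have h2 : ((g.erase a).erase b).card = 1 := by
    rw [card_erase_of_mem hb', h1]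
  obtain ⟨c, hc⟩ := card_eq_one.1 h2
  have hc' : c ∈ (g.erase a).erase b := by
    rw [hc]
    exact mem_singleton_self c
  have hcb := (mem_erase.1 hc').1
  have hca := (mem_erase.1 (mem_erase.1 hc').2).1
  refine ⟨c, hca.symm, hcb.symm, ?_⟩
  rw [← insert_erase ha, ← insert_erase hb', hc]

omit [Fintype V] in
theorem kadj_mem3 {a b c v : V} : v ∈ ({a, b, c} : Finset V) ↔ v = a ∨ v = b ∨ v = c := by
  simp

theorem face_ar {r : Fin 3 → V} {X : V → ℝ × ℝ} {h : V → ℝ} (hN : NF r X h) {a b c : V} (hab : a ≠ b) (hac : a ≠ c)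
    (hbc : b ≠ c) (hg : {a, b, c} ∈ FF X h) : ar (X a) (X b) (X c) ≠ 0 := by
  obtain ⟨_, m, hm1, hm2⟩ := kadj_mem.1 hg
  exact hN.indep m hm1 a b c hab hac hbc ((hm2 a).2 (kadj_mem3.2 (Or.inl rfl)))
    ((hm2 b).2 (kadj_mem3.2 (Or.inr (Or.inl rfl)))) ((hm2 c).2 (kadj_mem3.2 (Or.inr (Or.inr rfl))))

theorem adj_exists {r : Fin 3 → V} {X : V → ℝ × ℝ} {h : V → ℝ} (hN : NF r X h) {a b c : V} (hab : a ≠ b)
    (hac : a ≠ c) (hbc : b ≠ c) (hg : {a, b, c} ∈ FF X h) (w : V)
    (hw : ar (X a) (X b) (X w) * ar (X a) (X b) (X c) < 0) :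
    ∃ c', {a, b, c'} ∈ FF X h ∧ ar (X a) (X b) (X c') * ar (X a) (X b) (X c) < 0 := by
  have hs := face_ar hN hab hac hbc hg
  obtain ⟨_, m, hm1, hm2⟩ := kadj_mem.1 hg
  obtain ⟨s, hsd⟩ : ∃ s, s = ar (X a) (X b) (X c) := ⟨_, rfl⟩
  rw [← hsd] at hs hw ⊢
  obtain ⟨A, hA⟩ : ∃ A : V → ℝ, ∀ v, A v = ar (X a) (X b) (X v) * s := ⟨_, fun _ => rfl⟩
  have hAa : A a = 0 := by rw [hA, kadj_ar1, zero_mul]
  have hAb : A b = 0 := by rw [hA, kadj_ar2, zero_mul]
  have hAc : 0 < A c := by
    rw [hA, ← hsd]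
    exact mul_self_pos.2 hs
  have hne : (univ.filter fun v => A v < 0).Nonempty :=
    ⟨w, mem_filter.2 ⟨mem_univ _, by rw [hA]; exact hw⟩⟩
  obtain ⟨c', hc', hmin⟩ := exists_min_image (univ.filter fun v => A v < 0)
    (fun v => (h v - ev m (X v)) / (-A v)) hne
  have hc'A : A c' < 0 := (mem_filter.1 hc').2
  have hc'a : c' ≠ a := by
    rintro rfl
    rw [hAa] at hc'A
    exact lt_irrefl _ hc'A
  have hc'b : c' ≠ b := by
    rintro rfl
    rw [hAb] at hc'A
    exact lt_irrefl _ hc'A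
  have hc'c : c' ≠ c := by
    rintro rfl
    exact lt_asymm hc'A hAc
  obtain ⟨t, ht⟩ : ∃ t, t = (h c' - ev m (X c')) / (-A c') := ⟨_, rfl⟩
  have htA : t * (-A c') = h c' - ev m (X c') := by
    rw [ht]
    exact div_mul_cancel₀ _ (by linarith)
  have ht0 : 0 < t := by
    rw [ht]
    refine div_pos ?_ (by linarith)
    have h1 : ev m (X c') ≠ h c' := by
      intro he
      rcases kadj_mem3.1 ((hm2 c').1 he) with h2 | h2 | h2
      · exact hc'a h2
      · exact hc'b h2
      · exact hc'c h2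
    have h3 := lt_of_le_of_ne (hm1 c') h1
    linarith
  -- the new function
  obtain ⟨m', hm'⟩ : ∃ m' : ℝ × ℝ × ℝ, ∀ v, ev m' (X v) = ev m (X v) - t * A v := by
    refine ⟨(m.1 - t * (-((X b).2 - (X a).2) * s), m.2.1 - t * (((X b).1 - (X a).1) * s),
      m.2.2 - t * (((X a).1 * ((X b).2 - (X a).2) - (X a).2 * ((X b).1 - (X a).1)) * s)), fun v => ?_⟩
    rw [hA]
    unfold ev ar
    simp only
    ring
  have hle : ∀ v, ev m' (X v) ≤ h v := by
    intro v
    rw [hm']
    by_cases hv : A v < 0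
    · have h1 := hmin v (mem_filter.2 ⟨mem_univ _, hv⟩)
      rw [← ht, le_div_iff₀ (by linarith)] at h1
      linarith
    · have h1 : 0 ≤ t * A v := mul_nonneg ht0.le (not_lt.1 hv)
      have h2 := hm1 v
      linarith
  have hca : ev m' (X a) = h a := by
    rw [hm', hAa, (hm2 a).2 (kadj_mem3.2 (Or.inl rfl))]
    ring
  have hcb : ev m' (X b) = h b := by
    rw [hm', hAb, (hm2 b).2 (kadj_mem3.2 (Or.inr (Or.inl rfl)))]
    ring
  have hcc : ev m' (X c') = h c' := by
    rw [hm']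
    linarith
  have hlow : Low X h (univ.filter fun v => ev m' (X v) = h v) :=
    ⟨m', hle, fun v => by simp⟩
  have hcard := low_card hN _ hlow
  have h3 : ({a, b, c'} : Finset V).card = 3 := card_eq_three.2 ⟨a, b, c', hab, hc'a.symm, hc'b.symm, rfl⟩
  have hsub : ({a, b, c'} : Finset V) ⊆ univ.filter fun v => ev m' (X v) = h v := by
    intro v hv
    refine mem_filter.2 ⟨mem_univ _, ?_⟩
    rcases kadj_mem3.1 hv with rfl | rfl | rfl
    · exact hca
    · exact hcb
    · exact hcc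
  have heq : ({a, b, c'} : Finset V) = univ.filter fun v => ev m' (X v) = h v :=
    eq_of_subset_of_card_le hsub (by rw [h3]; exact hcard)
  refine ⟨c', kadj_mem.2 ⟨h3, ?_⟩, ?_⟩
  · rw [heq]
    exact hlow
  · rw [← hA]
    exact hc'A

theorem adj_unique {r : Fin 3 → V} {X : V → ℝ × ℝ} {h : V → ℝ} (hN : NF r X h) {a b c c' : V}
    (hg : {a, b, c} ∈ FF X h) (hg' : {a, b, c'} ∈ FF X h)
    (hs : 0 < ar (X a) (X b) (X c) * ar (X a) (X b) (X c')) : c = c' := by
  obtain ⟨_, m, hm1, hm2⟩ := kadj_mem.1 hg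
  obtain ⟨_, m', hm1', hm2'⟩ := kadj_mem.1 hg'
  have ha : ev m (X a) = ev m' (X a) := by
    rw [(hm2 a).2 (kadj_mem3.2 (Or.inl rfl)), (hm2' a).2 (kadj_mem3.2 (Or.inl rfl))]
  have hb : ev m (X b) = ev m' (X b) := by
    rw [(hm2 b).2 (kadj_mem3.2 (Or.inr (Or.inl rfl))), (hm2' b).2 (kadj_mem3.2 (Or.inr (Or.inl rfl)))]
  have hc : ev m (X c) = h c := (hm2 c).2 (kadj_mem3.2 (Or.inr (Or.inr rfl)))
  have hc' : ev m' (X c') = h c' := (hm2' c').2 (kadj_mem3.2 (Or.inr (Or.inr rfl)))
  have e1 := kadj_two m m' (X a) (X b) (X c) (X c') ha hb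
  have h1 : 0 ≤ ev m (X c) - ev m' (X c) := by
    have := hm1' c
    linarith
  have h2 : ev m (X c') - ev m' (X c') ≤ 0 := by
    have := hm1 c'
    linarith
  have hs0 : ar (X a) (X b) (X c) ≠ 0 := by
    intro h0
    rw [h0, zero_mul] at hs
    exact lt_irrefl _ hs
  have h3 : ev m (X c') = h c' := by
    have h4 : ar (X a) (X b) (X c) * ar (X a) (X b) (X c) * (ev m (X c') - ev m' (X c')) =
        ar (X a) (X b) (X c) * ar (X a) (X b) (X c') * (ev m (X c) - ev m' (X c)) := by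
      rw [mul_assoc, e1]
      ring
    have h5 : 0 ≤ ar (X a) (X b) (X c) * ar (X a) (X b) (X c) * (ev m (X c') - ev m' (X c')) := by
      rw [h4]
      exact mul_nonneg hs.le h1
    have h6 : 0 ≤ ev m (X c') - ev m' (X c') :=
      nonneg_of_mul_nonneg_right h5 (mul_self_pos.2 hs0)
    linarith
  rcases kadj_mem3.1 ((hm2 c').1 h3) with h4 | h4 | h4
  · rw [h4, kadj_ar1, mul_zero] at hs
    exact absurd hs (lt_irrefl _)
  · rw [h4, kadj_ar2, mul_zero] at hs
    exact absurd hs (lt_irrefl _)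
  · exact h4.symm

theorem adj_cross {r : Fin 3 → V} {X : V → ℝ × ℝ} {h : V → ℝ} (hN : NF r X h) {a b c c' : V} {m m' : ℝ × ℝ × ℝ}
    (hm : Sup X h m {a, b, c}) (hm' : Sup X h m' {a, b, c'})
    (hs : ar (X a) (X b) (X c') * ar (X a) (X b) (X c) < 0) (P : ℝ × ℝ)
    (hP : ar (X a) (X b) P * ar (X a) (X b) (X c) < 0) : ev m P < ev m' P := by
  have ha : ev m' (X a) = ev m (X a) := by
    rw [(hm.2 a).2 (kadj_mem3.2 (Or.inl rfl)), (hm'.2 a).2 (kadj_mem3.2 (Or.inl rfl))]
  have hb : ev m' (X b) = ev m (X b) := by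
    rw [(hm.2 b).2 (kadj_mem3.2 (Or.inr (Or.inl rfl))), (hm'.2 b).2 (kadj_mem3.2 (Or.inr (Or.inl rfl)))]
  have e1 := kadj_two m' m (X a) (X b) (X c) P ha hb
  have hc : ev m (X c) = h c := (hm.2 c).2 (kadj_mem3.2 (Or.inr (Or.inr rfl)))
  have hcn : c ∉ ({a, b, c'} : Finset V) := by
    intro hmem
    rcases kadj_mem3.1 hmem with h1 | h1 | h1
    · rw [h1, kadj_ar1, mul_zero] at hs
      exact lt_irrefl _ hs
    · rw [h1, kadj_ar2, mul_zero] at hs
      exact lt_irrefl _ hs
    · rw [h1] at hs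
      exact absurd hs (not_lt.2 (mul_self_nonneg _))
  have h1 : ev m' (X c) - ev m (X c) < 0 := by
    have h2 : ev m' (X c) ≠ h c := fun he => hcn ((hm'.2 c).1 he)
    have h3 := lt_of_le_of_ne (hm'.1 c) h2
    linarith
  have hs0 : ar (X a) (X b) (X c) ≠ 0 := by
    intro h0
    rw [h0, mul_zero] at hs
    exact lt_irrefl _ hs
  have h4 : ar (X a) (X b) (X c) * ar (X a) (X b) (X c) * (ev m' P - ev m P) =
      ar (X a) (X b) P * ar (X a) (X b) (X c) * (ev m' (X c) - ev m (X c)) := by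
    rw [mul_assoc, e1]
    ring
  have h5 : 0 < ar (X a) (X b) (X c) * ar (X a) (X b) (X c) * (ev m' P - ev m P) := by
    rw [h4]
    exact mul_pos_of_neg_of_neg hP h1
  have h6 : 0 < ev m' P - ev m P :=
    kadj_pos h5 (mul_self_nonneg _)
  linarith

omit [Fintype V] [DecidableEq V] in
/-- affine functions and barycentric coordinates -/
theorem kadj_bary {r : Fin 3 → V} {X : V → ℝ × ℝ} {h : V → ℝ} (hN : NF r X h) (P Q R : ℝ × ℝ) :
    ar P Q R = (1 - R.1 - R.2) * ar P Q (X (r 0)) + R.1 * ar P Q (X (r 1)) + R.2 * ar P Q (X (r 2)) := by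
  rw [hN.X0, hN.X1, hN.X2]
  unfold ar
  simp only
  ring

theorem other_side {r : Fin 3 → V} {X : V → ℝ × ℝ} {h : V → ℝ} (hN : NF r X h) {a b c : V} (ha : ∀ i, a ≠ r i)
    (hc : ar (X a) (X b) (X c) ≠ 0) : ∃ j, ar (X a) (X b) (X (r j)) * ar (X a) (X b) (X c) < 0 := by
  by_contra hcon
  push Not at hcon
  obtain ⟨h1, h2, h3⟩ := hN.pos a ha
  have e1 := kadj_bary hN (X a) (X b) (X a)
  rw [kadj_ar1] at e1
  have e2 := kadj_bary hN (X a) (X b) (X c)
  obtain ⟨s, hs⟩ : ∃ s, s = ar (X a) (X b) (X c) := ⟨_, rfl⟩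
  have k0 := hcon 0
  have k1 := hcon 1
  have k2 := hcon 2
  rw [← hs] at hc e2 k0 k1 k2
  obtain ⟨α, hα⟩ : ∃ s, s = ar (X a) (X b) (X (r 0)) := ⟨_, rfl⟩
  obtain ⟨β, hβ⟩ : ∃ s, s = ar (X a) (X b) (X (r 1)) := ⟨_, rfl⟩
  obtain ⟨γ, hγ⟩ : ∃ s, s = ar (X a) (X b) (X (r 2)) := ⟨_, rfl⟩
  rw [← hα, ← hβ, ← hγ] at e1 e2
  rw [← hα] at k0
  rw [← hβ] at k1
  rw [← hγ] at k2
  have e3 : (1 - (X a).1 - (X a).2) * (α * s) + (X a).1 * (β * s) + (X a).2 * (γ * s) = 0 := by
    linear_combination (-s) * e1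
  have p0 : 0 ≤ (1 - (X a).1 - (X a).2) * (α * s) := mul_nonneg (by linarith) k0
  have p1 : 0 ≤ (X a).1 * (β * s) := mul_nonneg h1.le k1
  have p2 : 0 ≤ (X a).2 * (γ * s) := mul_nonneg h2.le k2
  have q0 : α * s = 0 := by
    have : (1 - (X a).1 - (X a).2) * (α * s) = 0 := by linarith
    rcases mul_eq_zero.1 this with h4 | h4
    · linarith
    · exact h4
  have q1 : β * s = 0 := by
    have : (X a).1 * (β * s) = 0 := by linarith
    rcases mul_eq_zero.1 this with h4 | h4
    · linarith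
    · exact h4
  have q2 : γ * s = 0 := by
    have : (X a).2 * (γ * s) = 0 := by linarith
    rcases mul_eq_zero.1 this with h4 | h4
    · linarith
    · exact h4
  have e4 : s * s = 0 := by
    have : s * s = (1 - (X c).1 - (X c).2) * (α * s) + (X c).1 * (β * s) + (X c).2 * (γ * s) := by
      linear_combination s * e2
    rw [this, q0, q1, q2]
    ring
  exact hc (mul_self_eq_zero.1 e4)

theorem kadj_inner {r : Fin 3 → V} {X : V → ℝ × ℝ} {h : V → ℝ} (hN : NF r X h) (a b : V) (hab : a ≠ b)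
    (hg : ∃ g ∈ FF X h, a ∈ g ∧ b ∈ g) (ha : ∀ i, a ≠ r i) :
    ((FF X h).filter fun g => a ∈ g ∧ b ∈ g).card = 2 := by
  obtain ⟨g, hg, hga, hgb⟩ := hg
  obtain ⟨c, hac, hbc, rfl⟩ := kadj_third (kadj_mem.1 hg).1 hga hgb hab
  have hs := face_ar hN hab hac hbc hg
  obtain ⟨j, hj⟩ := other_side hN (b := b) (c := c) ha hs
  obtain ⟨c', hg', hc'⟩ := adj_exists hN hab hac hbc hg (r j) hj
  have hs' : ar (X a) (X b) (X c') ≠ 0 := by
    intro h0
    rw [h0, zero_mul] at hc'
    exact lt_irrefl _ hc'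
  have hne : ({a, b, c} : Finset V) ≠ {a, b, c'} := by
    intro he
    have h1 : c' ∈ ({a, b, c} : Finset V) := by
      rw [he]
      exact kadj_mem3.2 (Or.inr (Or.inr rfl))
    rcases kadj_mem3.1 h1 with h2 | h2 | h2
    · rw [h2, kadj_ar1] at hs'
      exact hs' rfl
    · rw [h2, kadj_ar2] at hs'
      exact hs' rfl
    · rw [h2] at hc'
      exact absurd hc' (not_lt.2 (mul_self_nonneg _))
  have hfil : ((FF X h).filter fun g => a ∈ g ∧ b ∈ g) = {{a, b, c}, {a, b, c'}} := by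
    ext g
    rw [mem_filter, mem_insert, mem_singleton]
    constructor
    · rintro ⟨h1, h2, h3⟩
      obtain ⟨d, had, hbd, rfl⟩ := kadj_third (kadj_mem.1 h1).1 h2 h3 hab
      have hd := face_ar hN hab had hbd h1
      rcases lt_or_gt_of_ne (mul_ne_zero hs hd) with h4 | h4
      · right
        have h5 : 0 < ar (X a) (X b) (X c') * ar (X a) (X b) (X d) := by
          have h6 : 0 < (ar (X a) (X b) (X c') * ar (X a) (X b) (X c)) *
              (ar (X a) (X b) (X c) * ar (X a) (X b) (X d)) := mul_pos_of_neg_of_neg hc' h4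
          have h7 : (ar (X a) (X b) (X c') * ar (X a) (X b) (X c)) *
              (ar (X a) (X b) (X c) * ar (X a) (X b) (X d)) =
              (ar (X a) (X b) (X c) * ar (X a) (X b) (X c)) *
                (ar (X a) (X b) (X c') * ar (X a) (X b) (X d)) := by ring
          rw [h7] at h6
          exact kadj_pos h6 (mul_self_nonneg _)
        rw [adj_unique hN hg' h1 h5]
      · left
        rw [adj_unique hN hg h1 h4]
    · rintro (rfl | rfl)
      · exact ⟨hg, hga, hgb⟩
      · exact ⟨hg', kadj_mem3.2 (Or.inl rfl), kadj_mem3.2 (Or.inr (Or.inl rfl))⟩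
  rw [hfil]
  exact card_pair hne

theorem faces_inner {r : Fin 3 → V} {X : V → ℝ × ℝ} {h : V → ℝ} (hN : NF r X h) (a b : V) (hab : a ≠ b)
    (hg : ∃ g ∈ FF X h, a ∈ g ∧ b ∈ g) (hc : ¬ ((∃ i, a = r i) ∧ ∃ j, b = r j)) :
    ((FF X h).filter fun g => a ∈ g ∧ b ∈ g).card = 2 := by
  by_cases ha : ∃ i, a = r i
  · have hb : ∀ j, b ≠ r j := fun j hj => hc ⟨ha, j, hj⟩
    have h1 := kadj_inner hN b a hab.symm
      (by obtain ⟨g, h1, h2, h3⟩ := hg; exact ⟨g, h1, h3, h2⟩) hb
    have h2 : ((FF X h).filter fun g => a ∈ g ∧ b ∈ g) = (FF X h).filter fun g => b ∈ g ∧ a ∈ g :=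
      filter_congr fun g _ => and_comm
    rw [h2]
    exact h1
  · exact kadj_inner hN a b hab hg fun i hi => ha ⟨i, hi⟩

theorem faces_outer {r : Fin 3 → V} {X : V → ℝ × ℝ} {h : V → ℝ} (hN : NF r X h) (i j : Fin 3) (hij : i ≠ j) :
    ((FF X h).filter fun g => r i ∈ g ∧ r j ∈ g).card = 1 := by
  -- all other vertices are on the same side
  have hside : ∃ σ : ℝ, ∀ v, r i ≠ v → r j ≠ v → 0 < σ * ar (X (r i)) (X (r j)) (X v) := by
    have hv : ∀ v, (v = r 0 ∨ v = r 1 ∨ v = r 2) ∨ (0 < (X v).1 ∧ 0 < (X v).2 ∧ (X v).1 + (X v).2 < 1) := by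
      intro v
      by_cases h0 : ∃ l, v = r l
      · left
        obtain ⟨l, hl⟩ := h0
        fin_cases l
        · exact Or.inl hl
        · exact Or.inr (Or.inl hl)
        · exact Or.inr (Or.inr hl)
      · right
        exact hN.pos v fun l hl => h0 ⟨l, hl⟩
    have x0 := hN.X0
    have x1 := hN.X1
    have x2 := hN.X2
    fin_cases i <;> fin_cases j
    · exact absurd rfl hij
    · refine ⟨1, fun v h1 h2 => ?_⟩
      change r 0 ≠ v at h1
      change r 1 ≠ v at h2
      change 0 < 1 * ar (X (r 0)) (X (r 1)) (X v)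
      rcases hv v with (h3 | h3 | h3) | ⟨h3, h4, h5⟩
      · exact absurd h3.symm h1
      · exact absurd h3.symm h2
      · rw [h3, x0, x1, x2]; unfold ar; norm_num
      · rw [x0, x1]; unfold ar; simp only; linarith
    · refine ⟨-1, fun v h1 h2 => ?_⟩
      change r 0 ≠ v at h1
      change r 2 ≠ v at h2
      change 0 < -1 * ar (X (r 0)) (X (r 2)) (X v)
      rcases hv v with (h3 | h3 | h3) | ⟨h3, h4, h5⟩
      · exact absurd h3.symm h1
      · rw [h3, x0, x1, x2]; unfold ar; norm_num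
      · exact absurd h3.symm h2
      · rw [x0, x2]; unfold ar; simp only; linarith
    · refine ⟨-1, fun v h1 h2 => ?_⟩
      change r 1 ≠ v at h1
      change r 0 ≠ v at h2
      change 0 < -1 * ar (X (r 1)) (X (r 0)) (X v)
      rcases hv v with (h3 | h3 | h3) | ⟨h3, h4, h5⟩
      · exact absurd h3.symm h2
      · exact absurd h3.symm h1
      · rw [h3, x0, x1, x2]; unfold ar; norm_num
      · rw [x0, x1]; unfold ar; simp only; linarith
    · exact absurd rfl hij
    · refine ⟨1, fun v h1 h2 => ?_⟩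
      change r 1 ≠ v at h1
      change r 2 ≠ v at h2
      change 0 < 1 * ar (X (r 1)) (X (r 2)) (X v)
      rcases hv v with (h3 | h3 | h3) | ⟨h3, h4, h5⟩
      · rw [h3, x0, x1, x2]; unfold ar; norm_num
      · exact absurd h3.symm h1
      · exact absurd h3.symm h2
      · rw [x1, x2]; unfold ar; simp only; linarith
    · refine ⟨1, fun v h1 h2 => ?_⟩
      change r 2 ≠ v at h1
      change r 0 ≠ v at h2
      change 0 < 1 * ar (X (r 2)) (X (r 0)) (X v)
      rcases hv v with (h3 | h3 | h3) | ⟨h3, h4, h5⟩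
      · exact absurd h3.symm h2
      · rw [h3, x0, x1, x2]; unfold ar; norm_num
      · exact absurd h3.symm h1
      · rw [x0, x2]; unfold ar; simp only; linarith
    · refine ⟨-1, fun v h1 h2 => ?_⟩
      change r 2 ≠ v at h1
      change r 1 ≠ v at h2
      change 0 < -1 * ar (X (r 2)) (X (r 1)) (X v)
      rcases hv v with (h3 | h3 | h3) | ⟨h3, h4, h5⟩
      · rw [h3, x0, x1, x2]; unfold ar; norm_num
      · exact absurd h3.symm h2
      · exact absurd h3.symm h1
      · rw [x1, x2]; unfold ar; simp only; linarith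
    · exact absurd rfl hij
  obtain ⟨σ, hσ⟩ := hside
  have hne : r i ≠ r j := fun he => hij (hN.rinj he)
  obtain ⟨g, hg, hsub⟩ := low_extend hN _ (root_low hN i j hij)
  have hgi : r i ∈ g := hsub (mem_insert_self _ _)
  have hgj : r j ∈ g := hsub (mem_insert_of_mem (mem_singleton_self _))
  rw [card_eq_one]
  refine ⟨g, ?_⟩
  ext g'
  rw [mem_filter, mem_singleton]
  constructor
  · rintro ⟨h1, h2, h3⟩
    obtain ⟨c, hc1, hc2, hc3⟩ := kadj_third (kadj_mem.1 hg).1 hgi hgj hne
    obtain ⟨c', hc1', hc2', hc3'⟩ := kadj_third (kadj_mem.1 h1).1 h2 h3 hne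
    have h4 := mul_pos (hσ c hc1 hc2) (hσ c' hc1' hc2')
    have h5 : (σ * ar (X (r i)) (X (r j)) (X c)) * (σ * ar (X (r i)) (X (r j)) (X c')) =
        (σ * σ) * (ar (X (r i)) (X (r j)) (X c) * ar (X (r i)) (X (r j)) (X c')) := by ring
    rw [h5] at h4
    have h6 := kadj_pos h4 (mul_self_nonneg σ)
    rw [hc3] at hg
    rw [hc3'] at h1
    rw [hc3, hc3', adj_unique hN hg h1 h6]
  · rintro rfl
    exact ⟨hg, hgi, hgj⟩

end MP0e5907
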