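import Pool.Agent.Lib_MP_0e5907.Base2
import Pool.Agent.Lib_MP_0e5907.DBase

/-!
# MP_0e5907, Stage B, part 3 - planar normal form of a simplicial polytope

The vertices have positions `X v` in the triangle with corners `X (r 0) = (0,0)`, `X (r 1) = (1,0)`, `X (r 2) = (0,1)` and heights `h v` (`0` at the corners, negative at
the others). `ev m` is the affine function with coefficients `m`. A set `S` is `Low` if it is the contact set of an affine function below `h`.
`FF` = the three element low sets (the lower faces).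
-/

namespace MP0e5907

open Finset

/-- value of the affine function `m` at `P` -/
def ev (m : ℝ × ℝ × ℝ) (P : ℝ × ℝ) : ℝ := m.1 * P.1 + m.2.1 * P.2 + m.2.2

section

variable {V : Type}

/-- normal form -/
structure NF (r : Fin 3 → V) (X : V → ℝ × ℝ) (h : V → ℝ) : Prop where
  rinj : Function.Injective r
  X0 : X (r 0) = (0, 0)
  X1 : X (r 1) = (1, 0)
  X2 : X (r 2) = (0, 1)
  hr : ∀ i, h (r i) = 0
  pos : ∀ v, (∀ i, v ≠ r i) → 0 < (X v).1 ∧ 0 < (X v).2 ∧ (X v).1 + (X v).2 < 1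
  neg : ∀ v, (∀ i, v ≠ r i) → h v < 0
  card3 : ∀ m, (∀ v, ev m (X v) ≤ h v) → ∀ S : Finset V, (∀ v ∈ S, ev m (X v) = h v) → S.card ≤ 3
  indep : ∀ m, (∀ v, ev m (X v) ≤ h v) → ∀ u v w, u ≠ v → u ≠ w → v ≠ w → ev m (X u) = h u →
    ev m (X v) = h v → ev m (X w) = h w → ar (X u) (X v) (X w) ≠ 0
  expo : ∀ v, ∃ m, (∀ w, ev m (X w) ≤ h w) ∧ ∀ w, (ev m (X w) = h w ↔ w = v)

/-- `m` is an affine function below `h` with contact set `S` -/
def Sup (X : V → ℝ × ℝ) (h : V → ℝ) (m : ℝ × ℝ × ℝ) (S : Finset V) : Prop :=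
  (∀ v, ev m (X v) ≤ h v) ∧ ∀ v, (ev m (X v) = h v ↔ v ∈ S)

/-- low sets -/
def Low (X : V → ℝ × ℝ) (h : V → ℝ) (S : Finset V) : Prop := ∃ m, Sup X h m S

open Classical in
/-- the lower faces -/
noncomputable def FF [Fintype V] (X : V → ℝ × ℝ) (h : V → ℝ) : Finset (Finset V) :=
  univ.filter fun S => S.card = 3 ∧ Low X h S

end

end MP0e5907
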