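import Pool.Agent.Lib_MP_0e5907.KLink

/-!
# Piece KEULER: the number of faces and edges, connectivity of the graph

`EE` = set of edges (two element subsets of faces).

Paper proof.
* `generic`: there is `s : ℝ` such that `φ v = (X v).1 + s (X v).2` is injective on `V`: for `u ≠ v` (`X u ≠ X v` by `X_inj`) at most one `s` is bad; finitely many pairs.
* `ff_card_le`: `|FF| + 5 ≤ 2 |V|`. Choose `s`, `δ = (-s, 1)`; for a vector `d` put `φ d = d.1 + s d.2`, so `φ δ = 0`, and every `d` with `φ d = 0` is a multiple of `δ`. Each face `g` has exactly one middle vertex: the `u ∈ g` such that one of the other two vertices has smaller and the other one larger `φ`. Count faces by their middle vertex: `|FF| = ∑_u mid(u)`.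
  If `u` is the middle vertex of `g = {u,a,b}`, `φ a < φ u < φ b`, put `α = φ b - φ u > 0`, `β = φ u - φ a > 0`; then `d = α (X a - X u) + β (X b - X u)` has `φ d = 0`, `d ≠ 0` (`face_ar`), so `d = κ δ` with `κ ≠ 0`. After scaling, `δ` (if `κ > 0`) or `-δ` (if `κ < 0`) is a positive combination of `X a - X u`, `X b - X u`. By `cone_unique` at most one
  face has `u` as middle vertex with `κ > 0` and at most one with `κ < 0`. So `mid(u) ≤ 2` for all `u`.
  Corners: all vertices are convex combinations of the corners, so the vertex with the smallest `φ` is a corner `lo`, the one with the largest `φ` is a corner `hi`; `mid(lo) = mid(hi) = 0`. For the third corner `mi`: `mid(mi) ≤ 1`: let `Q = (1-θ) X lo + θ X hi` be the point of the side with `φ Q = φ mi`. If `mi` is the middle vertex of a face with positive combination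
  `d = κ δ`: `d` is a nonnegative combination of `X lo - X mi`, `X hi - X mi` (all vertices are in the triangle `lo, mi, hi`, so all `X a - X mi` are), `d = p (X lo - X mi) + q (X hi - X mi)`, `φ d = 0` implies `d = (p+q) (Q - X mi)`, `p + q > 0`: so the sign of `κ` is that of the fixed vector `Q - X mi`, and at most one face is possible.
  Hence `|FF| ≤ 2 (|V| - 3) + 1 = 2|V| - 5`.
* `ee_card`: `2 |EE| = 3 |FF| + 3`: count pairs (edge, face containing it): `3 |FF|` (each face has three two-element subsets); each edge that is not a pair of corners is in exactly two faces (`faces_inner`), the three pairs of corners are edges in exactly one face (`faces_outer`). So `3 |FF| = 2 (|EE| - 3) + 3`.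
* `graph_conn`: `f` constant along edges. Every `u` that is not a corner has a neighbour `a` (in a common face) with `φ a < φ u`: `star_cov` with `d = -(1, s)` (`φ d < 0` as `φ d = -(1+s^2)`): `d = α (X a - X u) + β (X b - X u)`, so `φ a < φ u` or `φ b < φ u`. By induction on the number of vertices with smaller `φ`, `f u` equals `f` at some corner; the corners have equal values (`faces_outer`: two
  corners are in a common face).
-/

namespace MP0e5907

open Finset

variable {V : Type} [Fintype V] [DecidableEq V]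

open Classical in
/-- edges -/
noncomputable def EE (X : V → ℝ × ℝ) (h : V → ℝ) : Finset (Finset V) :=
  univ.filter fun ε => ε.card = 2 ∧ ∃ g ∈ FF X h, ε ⊆ g

/-- a generic direction -/
theorem keuler_generic {r : Fin 3 → V} {X : V → ℝ × ℝ} {h : V → ℝ} (hN : NF r X h) :
    ∃ s : ℝ, 1 < s ∧ ∀ u v, (X u).1 + s * (X u).2 = (X v).1 + s * (X v).2 → u = v := by
  classical
  have hfin : (Set.range fun p : V × V =>
      -((X p.1).1 - (X p.2).1) / ((X p.1).2 - (X p.2).2)).Finite := Set.finite_range _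
  obtain ⟨s, hs, hs'⟩ := (Set.Ioi_infinite (1 : ℝ)).exists_notMem_finite hfin
  refine ⟨s, hs, fun u v huv => ?_⟩
  by_cases h2 : (X u).2 = (X v).2
  · apply X_inj hN
    refine Prod.ext ?_ h2
    rw [h2] at huv
    linarith
  · exfalso
    apply hs'
    refine ⟨(u, v), ?_⟩
    have h3 : (X u).2 - (X v).2 ≠ 0 := sub_ne_zero.2 h2
    show -((X u).1 - (X v).1) / ((X u).2 - (X v).2) = s
    rw [div_eq_iff h3]
    linarith

/-- `g` is a face with middle vertex `u` -/
def KMid (X : V → ℝ × ℝ) (s : ℝ) (u : V) (g : Finset V) : Prop :=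
  ∃ a b, g = {u, a, b} ∧ (X a).1 + s * (X a).2 < (X u).1 + s * (X u).2 ∧
    (X u).1 + s * (X u).2 < (X b).1 + s * (X b).2

/-- `δ` is a positive combination at `u` in `g` -/
def KPos (X : V → ℝ × ℝ) (δ : ℝ × ℝ) (u : V) (g : Finset V) : Prop :=
  ∃ a b, u ≠ a ∧ u ≠ b ∧ a ≠ b ∧ g = {u, a, b} ∧ ∃ α β : ℝ, 0 < α ∧ 0 < β ∧
    δ = α • (X a - X u) + β • (X b - X u)

theorem KPos.unique {r : Fin 3 → V} {X : V → ℝ × ℝ} {h : V → ℝ} (hN : NF r X h) {δ : ℝ × ℝ} {u : V}
    {g g' : Finset V} (hg : g ∈ FF X h) (hg' : g' ∈ FF X h) (h1 : KPos X δ u g)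
    (h2 : KPos X δ u g') : g = g' := by
  obtain ⟨a, b, hua, hub, hab, rfl, α, β, hα, hβ, hd⟩ := h1
  obtain ⟨a', b', hua', hub', hab', rfl, α', β', hα', hβ', hd'⟩ := h2
  exact cone_unique hN hua hub hab hg hua' hub' hab' hg' α β α' β' hα hβ hα' hβ' (hd ▸ hd')

theorem keuler_exists_mid {r : Fin 3 → V} {X : V → ℝ × ℝ} {h : V → ℝ} {s : ℝ}
    (hs : ∀ u v, (X u).1 + s * (X u).2 = (X v).1 + s * (X v).2 → u = v) {g : Finset V}
    (hg : g ∈ FF X h) : ∃ u, KMid X s u g := by
  obtain ⟨x, y, z, hxy, hxz, hyz, rfl⟩ := Finset.card_eq_three.1 (klink_mem_FF.1 hg).1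
  have e1 : (X x).1 + s * (X x).2 ≠ (X y).1 + s * (X y).2 := fun h => hxy (hs _ _ h)
  have e2 : (X x).1 + s * (X x).2 ≠ (X z).1 + s * (X z).2 := fun h => hxz (hs _ _ h)
  have e3 : (X y).1 + s * (X y).2 ≠ (X z).1 + s * (X z).2 := fun h => hyz (hs _ _ h)
  have p1 : ({x, y, z} : Finset V) = {y, x, z} := by
    ext w; simp only [Finset.mem_insert, Finset.mem_singleton]; tauto
  have p2 : ({x, y, z} : Finset V) = {y, z, x} := by
    ext w; simp only [Finset.mem_insert, Finset.mem_singleton]; tauto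
  have p3 : ({x, y, z} : Finset V) = {z, x, y} := by
    ext w; simp only [Finset.mem_insert, Finset.mem_singleton]; tauto
  have p4 : ({x, y, z} : Finset V) = {z, y, x} := by
    ext w; simp only [Finset.mem_insert, Finset.mem_singleton]; tauto
  have p5 : ({x, y, z} : Finset V) = {x, z, y} := by
    ext w; simp only [Finset.mem_insert, Finset.mem_singleton]; tauto
  rcases lt_or_gt_of_ne e1 with f1 | f1 <;> rcases lt_or_gt_of_ne e2 with f2 | f2 <;>
    rcases lt_or_gt_of_ne e3 with f3 | f3
  · exact ⟨y, x, z, p1, f1, f3⟩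
  · exact ⟨z, x, y, p3, f2, f3⟩
  · exact absurd (f1.trans f3) (not_lt.2 f2.le)
  · exact ⟨x, z, y, p5, f2, f1⟩
  · exact ⟨x, y, z, rfl, f1, f2⟩
  · exact absurd (f2.trans f3) (not_lt.2 f1.le)
  · exact ⟨z, y, x, p4, f3, f2⟩
  · exact ⟨y, z, x, p2, f3, f1⟩

/-- a middle vertex sees `δ` or `-δ` -/
theorem KMid.pos {r : Fin 3 → V} {X : V → ℝ × ℝ} {h : V → ℝ} (hN : NF r X h) {s : ℝ} {u : V}
    {g : Finset V} (hg : g ∈ FF X h) (hm : KMid X s u g) :
    KPos X (-s, 1) u g ∨ KPos X (s, -1) u g := by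
  obtain ⟨a, b, rfl, h1, h2⟩ := hm
  have hua : u ≠ a := by
    rintro rfl
    exact lt_irrefl _ h1
  have hub : u ≠ b := by
    rintro rfl
    exact lt_irrefl _ h2
  have hab : a ≠ b := by
    rintro rfl
    exact lt_irrefl _ (h1.trans h2)
  have hA := face_ar hN hua hub hab hg
  set p : ℝ := ((X b).1 + s * (X b).2) - ((X u).1 + s * (X u).2) with hp
  set q : ℝ := ((X u).1 + s * (X u).2) - ((X a).1 + s * (X a).2) with hq
  have hp0 : 0 < p := by rw [hp]; linarith
  have hq0 : 0 < q := by rw [hq]; linarith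
  set κ : ℝ := p * ((X a).2 - (X u).2) + q * ((X b).2 - (X u).2) with hκ
  have hκ1 : p * ((X a).1 - (X u).1) + q * ((X b).1 - (X u).1) = -s * κ := by
    rw [hκ, hp, hq]
    ring
  have hκ0 : κ ≠ 0 := by
    intro h0
    apply hA
    have e1 : p * ((X a).1 - (X u).1) + q * ((X b).1 - (X u).1) = 0 := by rw [hκ1, h0, mul_zero]
    have e2 : p * ((X a).2 - (X u).2) + q * ((X b).2 - (X u).2) = 0 := h0
    have e3 : q * ar (X u) (X a) (X b) = 0 := by
      unfold ar
      have : q * (((X a).1 - (X u).1) * ((X b).2 - (X u).2) -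
          ((X b).1 - (X u).1) * ((X a).2 - (X u).2)) =
          ((X a).1 - (X u).1) * (p * ((X a).2 - (X u).2) + q * ((X b).2 - (X u).2)) -
          ((X a).2 - (X u).2) * (p * ((X a).1 - (X u).1) + q * ((X b).1 - (X u).1)) := by ring
      rw [this, e1, e2]
      ring
    exact (mul_eq_zero.1 e3).resolve_left hq0.ne'
  rcases lt_or_gt_of_ne hκ0 with hk | hk
  · right
    refine ⟨a, b, hua, hub, hab, rfl, p / (-κ), q / (-κ), div_pos hp0 (by linarith),
      div_pos hq0 (by linarith), ?_⟩
    refine Prod.ext ?_ ?_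
    · simp only [Prod.fst_add, Prod.smul_fst, Prod.fst_sub, smul_eq_mul]
      rw [div_mul_eq_mul_div, div_mul_eq_mul_div, ← add_div, hκ1, eq_div_iff (by linarith)]
      ring
    · simp only [Prod.snd_add, Prod.smul_snd, Prod.snd_sub, smul_eq_mul]
      rw [div_mul_eq_mul_div, div_mul_eq_mul_div, ← add_div, eq_div_iff (by linarith)]
      rw [hκ]
      ring
  · left
    refine ⟨a, b, hua, hub, hab, rfl, p / κ, q / κ, div_pos hp0 hk, div_pos hq0 hk, ?_⟩
    refine Prod.ext ?_ ?_
    · simp only [Prod.fst_add, Prod.smul_fst, Prod.fst_sub, smul_eq_mul]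
      rw [div_mul_eq_mul_div, div_mul_eq_mul_div, ← add_div, hκ1, eq_div_iff hκ0]
    · simp only [Prod.snd_add, Prod.smul_snd, Prod.snd_sub, smul_eq_mul]
      rw [div_mul_eq_mul_div, div_mul_eq_mul_div, ← add_div, eq_div_iff hκ0]
      rw [hκ]
      ring

/-- all vertices are in the outer triangle -/
theorem keuler_bounds {r : Fin 3 → V} {X : V → ℝ × ℝ} {h : V → ℝ} (hN : NF r X h) (v : V) :
    0 ≤ (X v).1 ∧ 0 ≤ (X v).2 ∧ (X v).1 + (X v).2 ≤ 1 := by
  by_cases hv : ∀ i, v ≠ r i
  · obtain ⟨h1, h2, h3⟩ := hN.pos v hv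
    exact ⟨h1.le, h2.le, h3.le⟩
  · push Not at hv
    obtain ⟨i, rfl⟩ := hv
    fin_cases i
    · show 0 ≤ (X (r 0)).1 ∧ 0 ≤ (X (r 0)).2 ∧ (X (r 0)).1 + (X (r 0)).2 ≤ 1
      rw [hN.X0]
      norm_num
    · show 0 ≤ (X (r 1)).1 ∧ 0 ≤ (X (r 1)).2 ∧ (X (r 1)).1 + (X (r 1)).2 ≤ 1
      rw [hN.X1]
      norm_num
    · show 0 ≤ (X (r 2)).1 ∧ 0 ≤ (X (r 2)).2 ∧ (X (r 2)).1 + (X (r 2)).2 ≤ 1
      rw [hN.X2]
      norm_num

theorem ff_card_le {r : Fin 3 → V} {X : V → ℝ × ℝ} {h : V → ℝ} (hN : NF r X h) :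
    (FF X h).card + 5 ≤ 2 * Fintype.card V := by
  classical
  obtain ⟨s, hs1, hs⟩ := keuler_generic hN
  set M : V → Finset (Finset V) := fun u => (FF X h).filter fun g => KMid X s u g with hM
  have h01 : r 0 ≠ r 1 := fun h => by have := hN.rinj h; exact absurd this (by decide)
  have h02 : r 0 ≠ r 2 := fun h => by have := hN.rinj h; exact absurd this (by decide)
  have h12 : r 1 ≠ r 2 := fun h => by have := hN.rinj h; exact absurd this (by decide)
  have hone : ∀ (δ : ℝ × ℝ) (u : V), ((FF X h).filter fun g => KPos X δ u g).card ≤ 1 := by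
    intro δ u
    rw [Finset.card_le_one]
    intro g hg g' hg'
    rw [Finset.mem_filter] at hg hg'
    exact KPos.unique hN hg.1 hg'.1 hg.2 hg'.2
  have htwo : ∀ u, (M u).card ≤ 2 := by
    intro u
    have h1 : M u ⊆ ((FF X h).filter fun g => KPos X (-s, 1) u g) ∪
        ((FF X h).filter fun g => KPos X (s, -1) u g) := by
      intro g hg
      rw [hM, Finset.mem_filter] at hg
      rw [Finset.mem_union, Finset.mem_filter, Finset.mem_filter]
      rcases hg.2.pos hN hg.1 with h2 | h2
      · exact Or.inl ⟨hg.1, h2⟩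
      · exact Or.inr ⟨hg.1, h2⟩
    refine (Finset.card_le_card h1).trans ((Finset.card_union_le _ _).trans ?_)
    have := hone (-s, 1) u
    have := hone (s, -1) u
    omega
  have hr0 : (M (r 0)).card = 0 := by
    rw [Finset.card_eq_zero, Finset.eq_empty_iff_forall_notMem]
    intro g hg
    rw [hM, Finset.mem_filter] at hg
    obtain ⟨a, b, _, h1, h2⟩ := hg.2
    obtain ⟨b1, b2, b3⟩ := keuler_bounds hN a
    rw [hN.X0] at h1
    simp only [mul_zero, add_zero] at h1
    nlinarith
  have hr2 : (M (r 2)).card = 0 := by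
    rw [Finset.card_eq_zero, Finset.eq_empty_iff_forall_notMem]
    intro g hg
    rw [hM, Finset.mem_filter] at hg
    obtain ⟨a, b, _, h1, h2⟩ := hg.2
    obtain ⟨b1, b2, b3⟩ := keuler_bounds hN b
    rw [hN.X2] at h2
    simp only [mul_one, zero_add] at h2
    nlinarith
  have hr1 : (M (r 1)).card ≤ 1 := by
    refine le_trans (Finset.card_le_card ?_) (hone (-s, 1) (r 1))
    intro g hg
    rw [hM, Finset.mem_filter] at hg
    rw [Finset.mem_filter]
    refine ⟨hg.1, (hg.2.pos hN hg.1).resolve_right ?_⟩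
    rintro ⟨a, b, _, _, _, _, α, β, hα, hβ, hd⟩
    have h1 := congrArg Prod.fst hd
    simp only [Prod.fst_add, Prod.smul_fst, Prod.fst_sub, smul_eq_mul] at h1
    rw [hN.X1] at h1
    obtain ⟨a1, a2, a3⟩ := keuler_bounds hN a
    obtain ⟨b1, b2, b3⟩ := keuler_bounds hN b
    simp only at h1
    have h2 : α * ((X a).1 - 1) ≤ 0 := mul_nonpos_of_nonneg_of_nonpos hα.le (by linarith)
    have h3 : β * ((X b).1 - 1) ≤ 0 := mul_nonpos_of_nonneg_of_nonpos hβ.le (by linarith)
    linarith
  have hsub : FF X h ⊆ Finset.univ.biUnion M := by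
    intro g hg
    obtain ⟨u, hu⟩ := keuler_exists_mid (r := r) hs hg
    rw [Finset.mem_biUnion]
    exact ⟨u, Finset.mem_univ _, Finset.mem_filter.2 ⟨hg, hu⟩⟩
  have h1 : (FF X h).card ≤ ∑ u, (M u).card :=
    (Finset.card_le_card hsub).trans Finset.card_biUnion_le
  have h2 : ∀ u ∈ (Finset.univ : Finset V), (M u).card + ((if u = r 0 then 2 else 0) +
      (if u = r 2 then 2 else 0) + (if u = r 1 then 1 else 0)) ≤ 2 := by
    intro u _
    by_cases c0 : u = r 0
    · subst c0
      rw [if_pos rfl, if_neg h02, if_neg h01, hr0]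
    · by_cases c2 : u = r 2
      · subst c2
        rw [if_neg c0, if_pos rfl, if_neg h12.symm, hr2]
      · by_cases c1 : u = r 1
        · subst c1
          rw [if_neg c0, if_neg c2, if_pos rfl]
          omega
        · rw [if_neg c0, if_neg c2, if_neg c1]
          have := htwo u
          omega
  have h3 := Finset.sum_le_sum h2
  rw [Finset.sum_add_distrib, Finset.sum_add_distrib, Finset.sum_add_distrib] at h3
  rw [Finset.sum_ite_eq' Finset.univ (r 0), Finset.sum_ite_eq' Finset.univ (r 2),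
    Finset.sum_ite_eq' Finset.univ (r 1)] at h3
  simp only [Finset.mem_univ, if_true, Finset.sum_const, smul_eq_mul, Finset.card_univ] at h3
  omega

theorem keuler_mem_EE {X : V → ℝ × ℝ} {h : V → ℝ} {ε : Finset V} :
    ε ∈ EE X h ↔ ε.card = 2 ∧ ∃ g ∈ FF X h, ε ⊆ g := by
  classical
  unfold EE
  rw [Finset.mem_filter]
  exact ⟨fun h => h.2, fun h => ⟨Finset.mem_univ _, h⟩⟩

theorem ee_card {r : Fin 3 → V} {X : V → ℝ × ℝ} {h : V → ℝ} (hN : NF r X h) :
    2 * (EE X h).card = 3 * (FF X h).card + 3 := by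
  classical
  have h01 : r 0 ≠ r 1 := fun h => by have := hN.rinj h; exact absurd this (by decide)
  have h02 : r 0 ≠ r 2 := fun h => by have := hN.rinj h; exact absurd this (by decide)
  have h12 : r 1 ≠ r 2 := fun h => by have := hN.rinj h; exact absurd this (by decide)
  set K : Finset (Finset V) := {{r 0, r 1}, {r 0, r 2}, {r 1, r 2}} with hK
  have hsubset : ∀ (a b : V) (g : Finset V), ({a, b} : Finset V) ⊆ g ↔ a ∈ g ∧ b ∈ g := by
    intro a b g
    rw [Finset.insert_subset_iff, Finset.singleton_subset_iff]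
  have hcorner : ∀ i j, i ≠ j → ({r i, r j} : Finset V) ∈ EE X h := by
    intro i j hij
    rw [keuler_mem_EE]
    refine ⟨Finset.card_pair fun h => hij (hN.rinj h), ?_⟩
    have h1 := faces_outer hN i j hij
    obtain ⟨g, hg⟩ := Finset.card_pos.1 (by rw [h1]; exact Nat.one_pos)
    rw [Finset.mem_filter] at hg
    exact ⟨g, hg.1, (hsubset _ _ _).2 hg.2⟩
  have hKE : K ⊆ EE X h := by
    intro ε hε
    rw [hK, Finset.mem_insert, Finset.mem_insert, Finset.mem_singleton] at hε
    rcases hε with rfl | rfl | rfl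
    · exact hcorner 0 1 (by decide)
    · exact hcorner 0 2 (by decide)
    · exact hcorner 1 2 (by decide)
  have hKcard : K.card = 3 := by
    rw [hK]
    rw [Finset.card_insert_of_notMem, Finset.card_insert_of_notMem, Finset.card_singleton]
    · rw [Finset.mem_singleton]
      intro h
      have : r 0 ∈ ({r 1, r 2} : Finset V) := by rw [← h]; simp
      simp [h01, h02] at this
    · rw [Finset.mem_insert, Finset.mem_singleton, not_or]
      constructor
      · intro h
        have : r 1 ∈ ({r 0, r 2} : Finset V) := by rw [← h]; simp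
        simp [h01.symm, h12] at this
      · intro h
        have : r 0 ∈ ({r 1, r 2} : Finset V) := by rw [← h]; simp
        simp [h01, h02] at this
  have hdc := Finset.sum_card_bipartiteAbove_eq_sum_card_bipartiteBelow
    (s := EE X h) (t := FF X h) (fun ε g => ε ⊆ g)
  have hR : ∀ g ∈ FF X h, (Finset.bipartiteBelow (fun ε g => ε ⊆ g) (EE X h) g).card = 3 := by
    intro g hg
    have h1 : Finset.bipartiteBelow (fun ε g => ε ⊆ g) (EE X h) g = g.powersetCard 2 := by
      ext ε
      rw [Finset.mem_bipartiteBelow, keuler_mem_EE, Finset.mem_powersetCard]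
      exact ⟨fun h => ⟨h.2, h.1.1⟩, fun h => ⟨⟨h.2, g, hg, h.1⟩, h.1⟩⟩
    rw [h1, Finset.card_powersetCard, (klink_mem_FF.1 hg).1]
    rfl
  have hL : ∀ ε ∈ EE X h, (Finset.bipartiteAbove (fun ε g => ε ⊆ g) (FF X h) ε).card +
      (if ε ∈ K then 1 else 0) = 2 := by
    intro ε hε
    obtain ⟨hc, g, hg, hεg⟩ := keuler_mem_EE.1 hε
    obtain ⟨a, b, hab, rfl⟩ := Finset.card_eq_two.1 hc
    have h1 : Finset.bipartiteAbove (fun ε g => ε ⊆ g) (FF X h) {a, b} =
        (FF X h).filter fun g => a ∈ g ∧ b ∈ g := by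
      ext g'
      rw [Finset.mem_bipartiteAbove, Finset.mem_filter, hsubset]
    rw [h1]
    by_cases hcor : (∃ i, a = r i) ∧ ∃ j, b = r j
    · obtain ⟨⟨i, rfl⟩, j, rfl⟩ := hcor
      have hij : i ≠ j := fun h => hab (by rw [h])
      rw [faces_outer hN i j hij]
      have h2 : ({r i, r j} : Finset V) ∈ K := by
        rw [hK, Finset.mem_insert, Finset.mem_insert, Finset.mem_singleton]
        fin_cases i <;> fin_cases j
        · exact absurd rfl hij
        · exact Or.inl rfl
        · exact Or.inr (Or.inl rfl)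
        · exact Or.inl (Finset.pair_comm _ _)
        · exact absurd rfl hij
        · exact Or.inr (Or.inr rfl)
        · exact Or.inr (Or.inl (Finset.pair_comm _ _))
        · exact Or.inr (Or.inr (Finset.pair_comm _ _))
        · exact absurd rfl hij
      rw [if_pos h2]
    · rw [faces_inner hN a b hab ⟨g, hg, (hsubset _ _ _).1 hεg⟩ hcor]
      have h2 : ({a, b} : Finset V) ∉ K := by
        intro h3
        apply hcor
        rw [hK, Finset.mem_insert, Finset.mem_insert, Finset.mem_singleton] at h3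
        have h4 : ∀ i j, ({a, b} : Finset V) = {r i, r j} →
            (∃ i, a = r i) ∧ ∃ j, b = r j := by
          intro i j he
          have ha : a ∈ ({r i, r j} : Finset V) := by rw [← he]; simp
          have hb : b ∈ ({r i, r j} : Finset V) := by rw [← he]; simp
          rw [Finset.mem_insert, Finset.mem_singleton] at ha hb
          exact ⟨ha.elim (fun h => ⟨i, h⟩) (fun h => ⟨j, h⟩),
            hb.elim (fun h => ⟨i, h⟩) (fun h => ⟨j, h⟩)⟩
        rcases h3 with h3 | h3 | h3
        · exact h4 _ _ h3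
        · exact h4 _ _ h3
        · exact h4 _ _ h3
      rw [if_neg h2]
  have h5 := Finset.sum_congr rfl hL
  rw [Finset.sum_add_distrib, hdc, Finset.sum_congr rfl hR, Finset.sum_ite_mem,
    Finset.inter_eq_right.2 hKE] at h5
  simp only [Finset.sum_const, smul_eq_mul, hKcard] at h5
  omega

theorem graph_conn {r : Fin 3 → V} {X : V → ℝ × ℝ} {h : V → ℝ} (hN : NF r X h) {α : Type} (f : V → α)
    (hf : ∀ a b, (∃ g ∈ FF X h, a ∈ g ∧ b ∈ g) → f a = f b) (u v : V) : f u = f v := by
  classical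
  have hcor : ∀ i, f (r i) = f (r 0) := by
    intro i
    by_cases hi : i = 0
    · rw [hi]
    · have h1 := faces_outer hN i 0 hi
      obtain ⟨g, hg⟩ := Finset.card_pos.1 (by rw [h1]; exact Nat.one_pos)
      rw [Finset.mem_filter] at hg
      exact hf _ _ ⟨g, hg.1, hg.2⟩
  have key : ∀ u, f u = f (r 0) := by
    by_contra hne
    push Not at hne
    obtain ⟨u0, hu0⟩ := hne
    obtain ⟨u, hu, hmin⟩ := Finset.exists_min_image (Finset.univ.filter fun u => f u ≠ f (r 0))
      (fun u => (X u).1) ⟨u0, Finset.mem_filter.2 ⟨Finset.mem_univ _, hu0⟩⟩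
    rw [Finset.mem_filter] at hu
    have hnc : ∀ i, u ≠ r i := by
      rintro i rfl
      exact hu.2 (hcor i)
    obtain ⟨a, b, hua, hub, hab, hg, α, β, hα, hβ, hd⟩ := star_cov hN u hnc (-1, 0)
    have h1 := congrArg Prod.fst hd
    simp only [Prod.fst_add, Prod.smul_fst, Prod.fst_sub, smul_eq_mul] at h1
    have hfa : f u = f a := hf _ _ ⟨_, hg, by simp, by simp⟩
    have hfb : f u = f b := hf _ _ ⟨_, hg, by simp, by simp⟩
    have ha : (X u).1 ≤ (X a).1 :=
      hmin a (Finset.mem_filter.2 ⟨Finset.mem_univ _, by rw [← hfa]; exact hu.2⟩)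
    have hb : (X u).1 ≤ (X b).1 :=
      hmin b (Finset.mem_filter.2 ⟨Finset.mem_univ _, by rw [← hfb]; exact hu.2⟩)
    have h2 : 0 ≤ α * ((X a).1 - (X u).1) := mul_nonneg hα (by linarith)
    have h3 : 0 ≤ β * ((X b).1 - (X u).1) := mul_nonneg hβ (by linarith)
    linarith
  rw [key u, key v]

end MP0e5907
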