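import Pool.Agent.Lib_MP_0e5907.KLow

/-!
# Piece KEXPO: exposed sets in normal form

Statement: for a nonempty set `S`: there are `m, μ` with `ev m (X v) + μ h v ≤ 0` and equality iff `v ∈ S`, iff `S = univ`, or `S` is contained in a face, or in the set of corners.

Paper proof.
(⇒) Case `μ < 0`: `m' = (-1/μ) m` (componentwise): `ev m' (X v) ≤ h v` with equality iff `v ∈ S`; so `S` (as a finset, `Set.toFinset`) is low, and `low_extend` gives a face. Case `μ ≥ 0`: if all elements of `S` are corners we are done. Otherwise let `v ∈ S` be not a corner: `X v = ∑ λ_j X (r j)`, `λ = (1 - x - y, x, y)`, all `> 0` (`pos`). `ev m (X (r j)) ≤ 0` (`h (r j) = 0`). So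
 `0 = ev m (X v) + μ h v = ∑ λ_j ev m (X (r j)) + μ h v` with all terms `≤ 0`, so `μ = 0` (`h v < 0`) and `ev m (X (r j)) = 0` for all `j`, i.e. `m = 0` (`m.2.2 = 0`, `m.1 + m.2.2 = 0`, `m.2.1 + m.2.2 = 0`). Then equality holds for all `v`, `S = univ`.
(⇐) `S = univ`: `m = 0`, `μ = 0`. `S ⊆ g ∈ FF`: `low_sub` gives `m'` with contact set `S`; take `m = m'`, `μ = -1`. `S ⊆` corners: `μ = 1` and `ev m P = -∑_{j : r j ∉ S} lam_j P`, `lam_0 = 1 - x - y`, `lam_1 = x`, `lam_2 = y` (nonnegative at all vertices): at `r i` the value is `-[r i ∉ S]`, at the other vertices it is `≤ 0 + h v < 0`.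
-/

namespace MP0e5907

open Finset

variable {V : Type} [Fintype V] [DecidableEq V]

theorem nf_expo {r : Fin 3 → V} {X : V → ℝ × ℝ} {h : V → ℝ} (hN : NF r X h) (S : Set V) (hS : S.Nonempty) :
    (∃ (m : ℝ × ℝ × ℝ) (μ : ℝ), ∀ v, ev m (X v) + μ * h v ≤ 0 ∧ (ev m (X v) + μ * h v = 0 ↔ v ∈ S)) ↔
      S = Set.univ ∨ (∃ g ∈ FF X h, ∀ v ∈ S, v ∈ g) ∨ (∀ v ∈ S, ∃ j, v = r j) := by
  classical
  have memFF : ∀ g : Finset V, g ∈ FF X h ↔ g.card = 3 ∧ Low X h g := by
    intro g
    unfold FF
    constructor
    · intro h1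
      exact (Finset.mem_filter.1 h1).2
    · intro h1
      exact Finset.mem_filter.2 ⟨Finset.mem_univ _, h1⟩
  have memS : ∀ v, v ∈ (Finset.univ.filter fun v => v ∈ S) ↔ v ∈ S := by
    intro v
    rw [Finset.mem_filter]
    exact ⟨fun h1 => h1.2, fun h1 => ⟨Finset.mem_univ _, h1⟩⟩
  constructor
  · rintro ⟨m, μ, hm⟩
    rcases lt_or_ge μ 0 with hμ | hμ
    · right
      left
      have hμ' : 0 < -μ := by linarith
      have he : ∀ P, ev (m.1 / (-μ), m.2.1 / (-μ), m.2.2 / (-μ)) P = ev m P / (-μ) := by
        intro P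
        unfold ev
        rw [div_mul_eq_mul_div, div_mul_eq_mul_div, ← add_div, ← add_div]
      have hL : Low X h (Finset.univ.filter fun v => v ∈ S) := by
        refine ⟨(m.1 / (-μ), m.2.1 / (-μ), m.2.2 / (-μ)), fun v => ?_, fun v => ?_⟩
        · rw [he, div_le_iff₀ hμ']
          linarith [(hm v).1]
        · rw [he, div_eq_iff hμ'.ne', memS, ← (hm v).2]
          constructor
          · intro h1
            linarith
          · intro h1
            linarith
      obtain ⟨g, hg, hSg⟩ := low_extend hN _ hL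
      exact ⟨g, hg, fun v hv => hSg ((memS v).2 hv)⟩
    · by_cases hcor : ∀ v ∈ S, ∃ j, v = r j
      · right
        right
        exact hcor
      · left
        push Not at hcor
        obtain ⟨v, hv, hvr⟩ := hcor
        obtain ⟨hx, hy, hxy⟩ := hN.pos v hvr
        have hh := hN.neg v hvr
        have h0 := (hm (r 0)).1
        have h1 := (hm (r 1)).1
        have h2 := (hm (r 2)).1
        have h3 := ((hm v).2).2 hv
        rw [hN.hr, hN.X0] at h0
        rw [hN.hr, hN.X1] at h1
        rw [hN.hr, hN.X2] at h2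
        unfold ev at h0 h1 h2 h3
        simp only [mul_zero, mul_one, zero_add, add_zero] at h0 h1 h2
        have e1 : (1 - (X v).1 - (X v).2) * m.2.2 + (X v).1 * (m.1 + m.2.2) +
            (X v).2 * (m.2.1 + m.2.2) + μ * h v = 0 := by linarith
        have t0 : (1 - (X v).1 - (X v).2) * m.2.2 ≤ 0 :=
          mul_nonpos_of_nonneg_of_nonpos (by linarith) h0
        have t1 : (X v).1 * (m.1 + m.2.2) ≤ 0 := mul_nonpos_of_nonneg_of_nonpos hx.le h1
        have t2 : (X v).2 * (m.2.1 + m.2.2) ≤ 0 := mul_nonpos_of_nonneg_of_nonpos hy.le h2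
        have t3 : μ * h v ≤ 0 := mul_nonpos_of_nonneg_of_nonpos hμ hh.le
        have u0 : (1 - (X v).1 - (X v).2) * m.2.2 = 0 := by linarith
        have u1 : (X v).1 * (m.1 + m.2.2) = 0 := by linarith
        have u2 : (X v).2 * (m.2.1 + m.2.2) = 0 := by linarith
        have u3 : μ * h v = 0 := by linarith
        have w0 : m.2.2 = 0 := (mul_eq_zero.1 u0).resolve_left (by linarith)
        have w1 : m.1 = 0 := by
          have := (mul_eq_zero.1 u1).resolve_left hx.ne'
          linarith
        have w2 : m.2.1 = 0 := by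
          have := (mul_eq_zero.1 u2).resolve_left hy.ne'
          linarith
        have w3 : μ = 0 := (mul_eq_zero.1 u3).resolve_right hh.ne
        refine Set.eq_univ_of_forall fun v => ((hm v).2).1 ?_
        unfold ev
        rw [w0, w1, w2, w3]
        ring
  · rintro (h1 | ⟨g, hg, hSg⟩ | h1)
    · refine ⟨0, 0, fun v => ?_⟩
      have e : ev (0 : ℝ × ℝ × ℝ) (X v) + 0 * h v = 0 := by
        unfold ev
        simp
      rw [e, h1]
      exact ⟨le_rfl, fun _ => Set.mem_univ _, fun _ => rfl⟩
    · obtain ⟨m, hm1, hm2⟩ := low_sub hN g (Finset.univ.filter fun v => v ∈ S) ((memFF g).1 hg).2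
        (fun v hv => hSg v ((memS v).1 hv))
      refine ⟨m, -1, fun v => ⟨by linarith [hm1 v], ?_⟩⟩
      rw [← memS, ← hm2 v]
      constructor
      · intro h2
        linarith
      · intro h2
        linarith
    · obtain ⟨a, ha⟩ : ∃ a : Fin 3 → ℝ, ∀ i, a i = if r i ∈ S then 0 else 1 := ⟨_, fun _ => rfl⟩
      have ha0 : ∀ i, 0 ≤ a i := by
        intro i
        rw [ha]
        split_ifs
        · exact le_rfl
        · exact zero_le_one
      have hai : ∀ i, a i = 0 ↔ r i ∈ S := by
        intro i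
        rw [ha]
        split_ifs with h2
        · exact ⟨fun _ => h2, fun _ => rfl⟩
        · exact ⟨fun h3 => absurd h3 one_ne_zero, fun h3 => absurd h3 h2⟩
      refine ⟨(a 0 - a 1, a 0 - a 2, -a 0), 1, fun v => ?_⟩
      have hr : ∀ i, ev (a 0 - a 1, a 0 - a 2, -a 0) (X (r i)) + 1 * h (r i) = - a i := by
        intro i
        rw [hN.hr]
        fin_cases i
        · simp only [Fin.zero_eta, Fin.isValue]
          rw [hN.X0]
          unfold ev
          simp
        · simp only [Fin.mk_one, Fin.isValue]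
          rw [hN.X1]
          unfold ev
          simp only [mul_one, mul_zero, add_zero]
          ring
        · simp only [Fin.reduceFinMk]
          rw [hN.X2]
          unfold ev
          simp only [mul_one, mul_zero, add_zero]
          ring
      by_cases hv : ∃ i, v = r i
      · obtain ⟨i, rfl⟩ := hv
        rw [hr i]
        refine ⟨by linarith [ha0 i], ?_⟩
        rw [neg_eq_zero]
        exact hai i
      · push Not at hv
        obtain ⟨hx, hy, hxy⟩ := hN.pos v hv
        have hh := hN.neg v hv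
        have e : ev (a 0 - a 1, a 0 - a 2, -a 0) (X v) + 1 * h v < 0 := by
          have e1 : ev (a 0 - a 1, a 0 - a 2, -a 0) (X v) =
              -(a 0 * (1 - (X v).1 - (X v).2) + a 1 * (X v).1 + a 2 * (X v).2) := by
            unfold ev
            simp only
            ring
          have t0 : 0 ≤ a 0 * (1 - (X v).1 - (X v).2) := mul_nonneg (ha0 0) (by linarith)
          have t1 : 0 ≤ a 1 * (X v).1 := mul_nonneg (ha0 1) hx.le
          have t2 : 0 ≤ a 2 * (X v).2 := mul_nonneg (ha0 2) hy.le
          rw [e1]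
          linarith
        refine ⟨e.le, fun h2 => absurd h2 e.ne, fun h2 => ?_⟩
        obtain ⟨j, hj⟩ := h1 v h2
        exact absurd hj (hv j)

end MP0e5907
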