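import Pool.Agent.Lib_MP_0e5907.KAdj

/-!
# Piece KLINK: links are connected, stars cover all directions

Paper proof. For a face `g ∋ u` with function `m_g`: `ev m_g (X u) = h u`, so `ev m_g (X u + d) = h u + s_g(d)`, `s_g(d) = m_g.1 * d.1 + m_g.2.1 * d.2` (slope).
* `slope_max`: `B ⊆ FF` nonempty, all faces of `B` contain `u`, and `B` is closed under adjacency at `u`: `{u,a,c} ∈ B`, `{u,a,c'} ∈ FF`, `a ≠ u` imply `{u,a,c'} ∈ B`. `d` a direction such that: for all `a, c` with `{u,a,c} ∈ FF` (`u,a,c` distinct) for which no vertex `w` satisfies `ar u a w * ar u a c < 0`, one has `ar u a (X u + d) * ar u a c ≥ 0`. Then there are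
  `{u,a,b} ∈ B` (distinct) and `α, β ≥ 0` with `d = α (X a - X u) + β (X b - X u)`. Proof: choose `g = {u,a,b} ∈ B` with maximal slope `s_g(d)`, i.e. maximal `ev m_g (X u + d)`. For the side `{u,a}`: if some vertex is strictly on the other side, `adj_exists` and closedness give `g' = {u,a,c'} ∈ B`, and `adj_cross` with
  `P = X u + d` gives `ar u a P * ar u a b ≥ 0`. Otherwise by the hypothesis on `d`. Similarly for the side `{u,b}`: `ar u b P * ar u b a ≥ 0`. Then (`A = ar u a b ≠ 0`) `d = (ar u P b / A)(X a - X u) + (ar u a P / A)(X b - X u)`, and the coefficients are nonnegative (`ar u P b = - ar u b P`, `ar u b a = -A`).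
* `nf_link`: let `B` be as in `ATC.link` and `g' ∈ FF`, `u ∈ g'`, `g' = {u,a',b'}`. Let `d = (X a' - X u) + (X b' - X u)`. Hypothesis on `d`: if no vertex is strictly on the other side of the line `u a` from `c`, then `a'`, `b'` satisfy `ar u a a' * ar u a c ≥ 0`, `ar u a b' * ar u a c ≥ 0`; `ar u a (X u + d) = ar u a a' + ar u a b'`. So `slope_max` gives `{u,a,b} ∈ B`, `d = α (..) + β (..)`.
  For `ε > 0` small (`ε < 1/2`, `ε (α + β) < 1`) the point `P = X u + ε d` is `(1 - 2ε) X u + ε X a' + ε X b'` and `(1 - εα - εβ) X u + εα X a + εβ X b`. Let `S1 = {u} ∪ {a if α > 0} ∪ {b if β > 0}`, a subset of the face `{u,a,b}`, so it is low (`low_sub`), and `S2 = g'`. By `low_unique` `S1 = g'`, so `S1` has three elements, `S1 = {u,a,b} = g'`, and `g' ∈ B`.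
* `star_cov`: `u` not a corner, `B` = all faces containing `u` (nonempty by `nf_covered`); the hypothesis on `d` is void by `other_side`.
* `cone_unique`: if `{u,a,b}`, `{u,a',b'}` are faces (distinct vertices) and `d = α (X a - X u) + β (X b - X u) = α' (X a' - X u) + β' (X b' - X u)` with `α, β, α', β' > 0`, then the faces are equal: for small `ε` the point `X u + ε d` has all coefficients positive in both; `low_unique`.
-/

namespace MP0e5907

open Finset

variable {V : Type} [Fintype V] [DecidableEq V]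

theorem klink_mem_FF {X : V → ℝ × ℝ} {h : V → ℝ} {g : Finset V} :
    g ∈ FF X h ↔ g.card = 3 ∧ Low X h g := by
  classical
  unfold FF
  rw [Finset.mem_filter]
  exact ⟨fun h => h.2, fun h => ⟨Finset.mem_univ _, h⟩⟩

theorem klink_three {g : Finset V} (hg : g.card = 3) {u : V} (hu : u ∈ g) :
    ∃ a b, u ≠ a ∧ u ≠ b ∧ a ≠ b ∧ g = {u, a, b} := by
  have h1 : (g.erase u).card = 2 := by
    rw [Finset.card_erase_of_mem hu, hg]
  obtain ⟨a, b, hab, he⟩ := Finset.card_eq_two.1 h1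
  have ha : a ∈ g.erase u := by rw [he]; simp
  have hb : b ∈ g.erase u := by rw [he]; simp
  refine ⟨a, b, (Finset.ne_of_mem_erase ha).symm, (Finset.ne_of_mem_erase hb).symm, hab, ?_⟩
  rw [← Finset.insert_erase hu, he]

/-- weights on three points -/
noncomputable def klinkW (a b : V) (p q : ℝ) (v : V) : ℝ :=
  if v = a then p else if v = b then q else 1 - p - q

theorem klinkW_sum {u a b : V} (hua : u ≠ a) (hub : u ≠ b) (hab : a ≠ b) (p q : ℝ) :
    ∑ v ∈ ({u, a, b} : Finset V), klinkW a b p q v = 1 := by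
  rw [Finset.sum_insert (by simp [hua, hub]), Finset.sum_insert (by simp [hab]),
    Finset.sum_singleton]
  unfold klinkW
  rw [if_neg hua, if_neg hub, if_pos rfl, if_neg hab.symm, if_pos rfl]
  ring

theorem klinkW_bary {u a b : V} (hua : u ≠ a) (hub : u ≠ b) (hab : a ≠ b) (p q : ℝ)
    (X : V → ℝ × ℝ) :
    ∑ v ∈ ({u, a, b} : Finset V), klinkW a b p q v • X v =
      X u + (p • (X a - X u) + q • (X b - X u)) := by
  rw [Finset.sum_insert (by simp [hua, hub]), Finset.sum_insert (by simp [hab]),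
    Finset.sum_singleton]
  unfold klinkW
  rw [if_neg hua, if_neg hub, if_pos rfl, if_neg hab.symm, if_pos rfl]
  refine Prod.ext ?_ ?_
  · simp only [Prod.fst_add, Prod.smul_fst, Prod.fst_sub, smul_eq_mul]
    ring
  · simp only [Prod.snd_add, Prod.smul_snd, Prod.snd_sub, smul_eq_mul]
    ring

theorem klinkW_nonneg {a b : V} {p q : ℝ} (hp : 0 ≤ p) (hq : 0 ≤ q) (hpq : p + q < 1) (v : V) :
    0 ≤ klinkW a b p q v := by
  unfold klinkW
  split_ifs
  · exact hp
  · exact hq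
  · linarith

theorem klinkW_pos {a b : V} {p q : ℝ} (hp : 0 < p) (hq : 0 < q) (hpq : p + q < 1) (v : V) :
    0 < klinkW a b p q v := by
  unfold klinkW
  split_ifs
  · exact hp
  · exact hq
  · linarith

/-- a point in the interior of a face and in another closed face -/
theorem klink_eq {r : Fin 3 → V} {X : V → ℝ × ℝ} {h : V → ℝ} (hN : NF r X h) {g g' : Finset V}
    (hg : g ∈ FF X h) (hg' : g' ∈ FF X h) (μ ν : V → ℝ) (hμ : ∀ v ∈ g, 0 ≤ μ v)
    (hν : ∀ v ∈ g', 0 < ν v) (sμ : ∑ v ∈ g, μ v = 1) (sν : ∑ v ∈ g', ν v = 1)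
    (hx : ∑ v ∈ g, μ v • X v = ∑ v ∈ g', ν v • X v) : g = g' := by
  classical
  have h1 : ∀ v ∈ g, v ∉ g.filter (fun v => 0 < μ v) → μ v = 0 := by
    intro v hv hv'
    rw [Finset.mem_filter] at hv'
    exact le_antisymm (not_lt.1 fun h => hv' ⟨hv, h⟩) (hμ v hv)
  have h2 : g.filter (fun v => 0 < μ v) = g' := by
    refine low_unique X h _ _ (low_sub hN g _ (klink_mem_FF.1 hg).2 (Finset.filter_subset _ _))
      (klink_mem_FF.1 hg').2 μ ν (fun v hv => (Finset.mem_filter.1 hv).2) hν ?_ sν ?_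
    · rw [← sμ]
      exact Finset.sum_subset (Finset.filter_subset _ _) h1
    · rw [← hx]
      refine Finset.sum_subset (Finset.filter_subset _ _) ?_
      intro v hv hv'
      rw [h1 v hv hv', zero_smul]
  have h3 : g' ⊆ g := by
    rw [← h2]
    exact Finset.filter_subset _ _
  exact (Finset.eq_of_subset_of_card_le h3
    (by rw [(klink_mem_FF.1 hg).1, (klink_mem_FF.1 hg').1])).symm

theorem slope_max {r : Fin 3 → V} {X : V → ℝ × ℝ} {h : V → ℝ} (hN : NF r X h) (u : V) (B : Finset (Finset V))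
    (hB : B ⊆ FF X h) (hne : B.Nonempty) (hu : ∀ g ∈ B, u ∈ g)
    (hcl : ∀ a c c', a ≠ u → {u, a, c} ∈ B → {u, a, c'} ∈ FF X h → {u, a, c'} ∈ B) (d : ℝ × ℝ)
    (hd : ∀ a c, u ≠ a → u ≠ c → a ≠ c → {u, a, c} ∈ FF X h →
      (∀ w, 0 ≤ ar (X u) (X a) (X w) * ar (X u) (X a) (X c)) →
      0 ≤ ar (X u) (X a) (X u + d) * ar (X u) (X a) (X c)) :
    ∃ a b, u ≠ a ∧ u ≠ b ∧ a ≠ b ∧ {u, a, b} ∈ B ∧ ∃ α β : ℝ, 0 ≤ α ∧ 0 ≤ β ∧
      d = α • (X a - X u) + β • (X b - X u) := by
  classical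
  have hm : ∀ g : Finset V, ∃ m : ℝ × ℝ × ℝ, g ∈ B → Sup X h m g := by
    intro g
    by_cases hg : g ∈ B
    · obtain ⟨m, hm⟩ := (klink_mem_FF.1 (hB hg)).2
      exact ⟨m, fun _ => hm⟩
    · exact ⟨0, fun h => absurd h hg⟩
  choose m hm using hm
  obtain ⟨g, hgB, hgmax⟩ := Finset.exists_max_image B (fun g => ev (m g) (X u + d)) hne
  obtain ⟨a, b, hua, hub, hab, hgab⟩ := klink_three (klink_mem_FF.1 (hB hgB)).1 (hu g hgB)
  have key : ∀ a b : V, u ≠ a → u ≠ b → a ≠ b → g = {u, a, b} →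
      0 ≤ ar (X u) (X a) (X u + d) * ar (X u) (X a) (X b) := by
    intro a b hua hub hab hgab
    by_contra hneg
    rw [not_le] at hneg
    have hgF : ({u, a, b} : Finset V) ∈ FF X h := hgab ▸ hB hgB
    by_cases hw : ∃ w, ar (X u) (X a) (X w) * ar (X u) (X a) (X b) < 0
    · obtain ⟨w, hw⟩ := hw
      obtain ⟨c', hc', hc's⟩ := adj_exists hN hua hub hab hgF w hw
      have hcB : ({u, a, c'} : Finset V) ∈ B := hcl a b c' hua.symm (hgab ▸ hgB) hc'
      have h1 : Sup X h (m g) {u, a, b} := hgab ▸ hm g hgB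
      have h2 := adj_cross hN h1 (hm _ hcB) hc's (X u + d) hneg
      exact absurd (hgmax _ hcB) (not_le.2 h2)
    · push Not at hw
      exact absurd (hd a b hua hub hab hgF hw) (not_le.2 hneg)
  have hA : ar (X u) (X a) (X b) ≠ 0 := face_ar hN hua hub hab (hgab ▸ hB hgB)
  have k1 := key a b hua hub hab hgab
  have k2 := key b a hub hua hab.symm (by rw [hgab, Finset.pair_comm])
  refine ⟨a, b, hua, hub, hab, hgab ▸ hgB,
    ar (X u) (X u + d) (X b) / ar (X u) (X a) (X b),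
    ar (X u) (X a) (X u + d) / ar (X u) (X a) (X b), ?_, ?_, ?_⟩
  · have e1 : ar (X u) (X u + d) (X b) / ar (X u) (X a) (X b) =
        (ar (X u) (X b) (X u + d) * ar (X u) (X b) (X a)) / (ar (X u) (X a) (X b)) ^ 2 := by
      rw [div_eq_div_iff hA (pow_ne_zero 2 hA)]
      unfold ar
      ring
    rw [e1]
    exact div_nonneg k2 (sq_nonneg _)
  · have e1 : ar (X u) (X a) (X u + d) / ar (X u) (X a) (X b) =
        (ar (X u) (X a) (X u + d) * ar (X u) (X a) (X b)) / (ar (X u) (X a) (X b)) ^ 2 := by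
      rw [div_eq_div_iff hA (pow_ne_zero 2 hA)]
      ring
    rw [e1]
    exact div_nonneg k1 (sq_nonneg _)
  · refine Prod.ext ?_ ?_
    · simp only [Prod.fst_add, Prod.smul_fst, Prod.fst_sub, smul_eq_mul]
      rw [div_mul_eq_mul_div, div_mul_eq_mul_div, ← add_div, eq_div_iff hA]
      unfold ar
      simp only [Prod.fst_add, Prod.snd_add]
      ring
    · simp only [Prod.snd_add, Prod.smul_snd, Prod.snd_sub, smul_eq_mul]
      rw [div_mul_eq_mul_div, div_mul_eq_mul_div, ← add_div, eq_div_iff hA]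
      unfold ar
      simp only [Prod.fst_add, Prod.snd_add]
      ring

theorem nf_link {r : Fin 3 → V} {X : V → ℝ × ℝ} {h : V → ℝ} (hN : NF r X h) (u : V) (B : Finset (Finset V))
    (hB : B ⊆ FF X h) (hne : B.Nonempty) (hu : ∀ g ∈ B, u ∈ g)
    (hcl : ∀ g ∈ B, ∀ g' ∈ FF X h, u ∈ g' → (∃ a, a ≠ u ∧ a ∈ g ∧ a ∈ g') → g' ∈ B) :
    ∀ g ∈ FF X h, u ∈ g → g ∈ B := by
  intro g' hg' hug'
  obtain ⟨a', b', hua', hub', hab', rfl⟩ := klink_three (klink_mem_FF.1 hg').1 hug'
  obtain ⟨a, b, hua, hub, hab, hgB, α, β, hα, hβ, hd⟩ := slope_max hN u B hB hne hu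
    (fun a c c' hau h1 h2 => hcl _ h1 _ h2 (by simp) ⟨a, hau, by simp, by simp⟩)
    ((X a' - X u) + (X b' - X u)) (by
      intro a c hua huc hac hF hw
      have h1 := hw a'
      have h2 := hw b'
      have h3 : ar (X u) (X a) (X u + ((X a' - X u) + (X b' - X u))) =
          ar (X u) (X a) (X a') + ar (X u) (X a) (X b') := by
        unfold ar
        simp only [Prod.fst_add, Prod.snd_add, Prod.fst_sub, Prod.snd_sub]
        ring
      rw [h3, add_mul]
      exact add_nonneg h1 h2)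
  set ε : ℝ := 1 / (3 + α + β) with hε
  have hpos : 0 < 3 + α + β := by linarith
  have hε0 : 0 < ε := by rw [hε]; positivity
  have hε1 : ε * (3 + α + β) = 1 := by
    rw [hε]
    field_simp
  have hp : 0 ≤ ε * α := mul_nonneg hε0.le hα
  have hq : 0 ≤ ε * β := mul_nonneg hε0.le hβ
  have e1 : ({u, a, b} : Finset V) = {u, a', b'} := by
    refine klink_eq hN (hB hgB) hg' (klinkW a b (ε * α) (ε * β)) (klinkW a' b' ε ε)
      (fun v _ => klinkW_nonneg hp hq (by nlinarith) v)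
      (fun v _ => klinkW_pos hε0 hε0 (by nlinarith) v)
      (klinkW_sum hua hub hab _ _) (klinkW_sum hua' hub' hab' _ _) ?_
    rw [klinkW_bary hua hub hab, klinkW_bary hua' hub' hab', mul_smul, mul_smul, ← smul_add,
      ← smul_add, hd]
  rw [← e1]
  exact hgB

theorem star_cov {r : Fin 3 → V} {X : V → ℝ × ℝ} {h : V → ℝ} (hN : NF r X h) (u : V) (hu : ∀ i, u ≠ r i)
    (d : ℝ × ℝ) : ∃ a b, u ≠ a ∧ u ≠ b ∧ a ≠ b ∧ {u, a, b} ∈ FF X h ∧ ∃ α β : ℝ, 0 ≤ α ∧ 0 ≤ β ∧
      d = α • (X a - X u) + β • (X b - X u) := by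
  classical
  obtain ⟨g0, hg0, hug0⟩ := nf_covered hN u
  obtain ⟨a, b, hua, hub, hab, hgB, hrest⟩ := slope_max hN u ((FF X h).filter fun g => u ∈ g)
    (Finset.filter_subset _ _) ⟨g0, Finset.mem_filter.2 ⟨hg0, hug0⟩⟩
    (fun g hg => (Finset.mem_filter.1 hg).2)
    (fun a c c' hau h1 h2 => Finset.mem_filter.2 ⟨h2, by simp⟩) d (by
      intro a c hua huc hac hF hw
      obtain ⟨j, hj⟩ := other_side hN hu (face_ar hN hua huc hac hF)
      exact absurd (hw (r j)) (not_le.2 hj))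
  exact ⟨a, b, hua, hub, hab, (Finset.mem_filter.1 hgB).1, hrest⟩

theorem cone_unique {r : Fin 3 → V} {X : V → ℝ × ℝ} {h : V → ℝ} (hN : NF r X h) {u a b a' b' : V}
    (hua : u ≠ a) (hub : u ≠ b) (hab : a ≠ b) (hg : {u, a, b} ∈ FF X h)
    (hua' : u ≠ a') (hub' : u ≠ b') (hab' : a' ≠ b') (hg' : {u, a', b'} ∈ FF X h) (α β α' β' : ℝ)
    (h1 : 0 < α) (h2 : 0 < β) (h3 : 0 < α') (h4 : 0 < β')
    (he : α • (X a - X u) + β • (X b - X u) = α' • (X a' - X u) + β' • (X b' - X u)) :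
    ({u, a, b} : Finset V) = {u, a', b'} := by
  set ε : ℝ := 1 / (1 + α + β + α' + β') with hε
  have hε0 : 0 < ε := by rw [hε]; positivity
  have hε1 : ε * (1 + α + β + α' + β') = 1 := by
    rw [hε]
    field_simp
  have hp : 0 < ε * α := mul_pos hε0 h1
  have hq : 0 < ε * β := mul_pos hε0 h2
  have hp' : 0 < ε * α' := mul_pos hε0 h3
  have hq' : 0 < ε * β' := mul_pos hε0 h4
  refine klink_eq hN hg hg' (klinkW a b (ε * α) (ε * β)) (klinkW a' b' (ε * α') (ε * β'))
    (fun v _ => klinkW_nonneg hp.le hq.le (by nlinarith) v)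
    (fun v _ => klinkW_pos hp' hq' (by nlinarith) v)
    (klinkW_sum hua hub hab _ _) (klinkW_sum hua' hub' hab' _ _) ?_
  rw [klinkW_bary hua hub hab, klinkW_bary hua' hub' hab', mul_smul, mul_smul, mul_smul, mul_smul,
    ← smul_add, ← smul_add, he]

end MP0e5907
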