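import Pool.Agent.Lib_MP_0e5907.KBase

/-!
# Piece KLOW: low sets

Paper proof.
* `X_inj`: if `X u = X v`: let `m`, `m'` be as in `expo` for `u` and `v`. `h u = ev m (X u) = ev m (X v) ≤ h v` and similarly `h v ≤ h u`, so `ev m (X v) = h v` and `v = u`.
* `low_unique`: let `m1, m2` be functions for `S1, S2` and `P` the common point. `ev` is affine: `ev m2 P = ∑_{S1} μ_v ev m2 (X v) ≤ ∑_{S1} μ_v h v = ∑_{S1} μ_v ev m1 (X v) = ev m1 P`, and symmetrically `ev m1 P ≤ ev m2 P`. So equality holds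
  everywhere; as `μ_v > 0`, `ev m2 (X v) = h v` for `v ∈ S1`, i.e. `S1 ⊆ S2`; symmetrically `S2 ⊆ S1`.
* `low_step`: a low set `S` with at most two elements is properly contained in a low set. Find an affine `b` with `ev b (X v) = 0` on `S` and `ev b (X w) > 0` for some `w`: `S = ∅`: `b = 1`. `S = {u}`: there is a corner `r j` with `X (r j) ≠ X u`; `b P = ⟨P - X u, X (r j) - X u⟩`. `S = {u,v}`: `X u ≠ X v` (`X_inj`), `b = ± ar (X u) (X v) ·`,
  which is nonzero at some corner (the three corners are not collinear, an affine function vanishing at the three corners is zero, and `ar (X u) (X v) ·` is not the zero function). Let `t` be the minimum of `(h w - ev m (X w)) / ev b (X w)` over the `w` with `ev b (X w) > 0`; such `w` are not in `S`, so `t > 0`. `m' = m + t b` satisfies `ev m' ≤ h`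
  (for `ev b (X w) ≤ 0`: `ev m' ≤ ev m ≤ h`), equality on `S` and at the minimiser. Its contact set is low and strictly larger.
* `low_card`: `S.card ≤ 3` by `NF.card3`.
* `low_extend`: iterate `low_step` (induction on `3 - |S|`): `S ⊆ g` with `g` low, `|g| = 3`.
* `low_face_sub`: every subset `S'` of a face `g ∈ FF` is low: let `g = {a,b,c}`, `A = ar (X a) (X b) (X c) ≠ 0` (`indep`). `b_a P = ar P (X b) (X c) / A`, `b_b P = ar (X a) P (X c) / A`, `b_c P = ar (X a) (X b) P / A` are affine with values `δ` at `X a, X b, X c`. For `ε > 0` small, `m' = m - ε ∑_{k ∈ g \ S'} b_k` has: value `h v` at `v ∈ S'`, `h v - ε < h v` at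
  `v ∈ g \ S'`, and `< h v` at the other finitely many `v` because `ev m (X v) < h v` strictly.
* `low_sub`: `S' ⊆ S ⊆ g` (`low_extend`).
* `root_low`: for `i ≠ j` the set `{r i, r j}` is low: let `k` be the third index and `lam` the barycentric coordinate function of `r k` (`lam_0 P = 1 - P.1 - P.2`, `lam_1 P = P.1`, `lam_2 P = P.2`): `lam (X v) > 0` for all `v ≠ r i, r j`, zero at `r i, r j`. `m = -t lam` with `t > - h v / lam (X v)` for all those `v`.
* `covered`: every `v` lies in some face: `expo` says `{v}` is low; `low_extend`.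
-/

namespace MP0e5907

open Finset

variable {V : Type}

private theorem klow_mem [Fintype V] {X : V → ℝ × ℝ} {h : V → ℝ} {g : Finset V} :
    g ∈ FF X h ↔ g.card = 3 ∧ Low X h g := by
  classical
  unfold FF
  constructor
  · intro h1
    exact (Finset.mem_filter.1 h1).2
  · intro h1
    exact Finset.mem_filter.2 ⟨Finset.mem_univ _, h1⟩

private theorem klow_add (m b : ℝ × ℝ × ℝ) (t : ℝ) (P : ℝ × ℝ) :
    ev (m.1 + t * b.1, m.2.1 + t * b.2.1, m.2.2 + t * b.2.2) P = ev m P + t * ev b P := by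
  unfold ev
  ring

private theorem klow_sum (m : ℝ × ℝ × ℝ) (X : V → ℝ × ℝ) (S : Finset V) (μ : V → ℝ)
    (hs : ∑ v ∈ S, μ v = 1) : ev m (∑ v ∈ S, μ v • X v) = ∑ v ∈ S, μ v * ev m (X v) := by
  unfold ev
  have h1 : (∑ v ∈ S, μ v • X v).1 = ∑ v ∈ S, μ v * (X v).1 := by
    rw [Prod.fst_sum]
    rfl
  have h2 : (∑ v ∈ S, μ v • X v).2 = ∑ v ∈ S, μ v * (X v).2 := by
    rw [Prod.snd_sum]
    rfl
  rw [h1, h2, Finset.mul_sum, Finset.mul_sum]
  have h3 : m.2.2 = ∑ v ∈ S, μ v * m.2.2 := by rw [← Finset.sum_mul, hs, one_mul]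
  conv_lhs => rw [h3]
  rw [← Finset.sum_add_distrib, ← Finset.sum_add_distrib]
  exact Finset.sum_congr rfl fun v _ => by ring

/-- tilting -/
private theorem klow_tilt [Fintype V] {X : V → ℝ × ℝ} {h : V → ℝ} {m : ℝ × ℝ × ℝ} {S : Finset V}
    (hm : Sup X h m S) (b : ℝ × ℝ × ℝ) (hb : ∀ v ∈ S, ev b (X v) = 0)
    (hw : ∃ w, 0 < ev b (X w)) : ∃ S' : Finset V, Low X h S' ∧ S ⊆ S' ∧ S.card < S'.card := by
  classical
  have hne : (Finset.univ.filter fun w => 0 < ev b (X w)).Nonempty := by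
    obtain ⟨w, hw⟩ := hw
    exact ⟨w, Finset.mem_filter.2 ⟨Finset.mem_univ _, hw⟩⟩
  obtain ⟨w0, hw0, hmin⟩ := Finset.exists_min_image (Finset.univ.filter fun w => 0 < ev b (X w))
    (fun w => (h w - ev m (X w)) / ev b (X w)) hne
  have hbw : 0 < ev b (X w0) := (Finset.mem_filter.1 hw0).2
  have hgap : ∀ w, 0 < ev b (X w) → 0 < h w - ev m (X w) := by
    intro w hw
    have h1 : w ∉ S := fun h1 => by
      rw [hb w h1] at hw
      exact lt_irrefl _ hw
    have h2 : ev m (X w) ≠ h w := fun h2 => h1 ((hm.2 w).1 h2)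
    have h3 := lt_of_le_of_ne (hm.1 w) h2
    linarith
  obtain ⟨t, ht⟩ : ∃ t, t = (h w0 - ev m (X w0)) / ev b (X w0) := ⟨_, rfl⟩
  have ht0 : 0 < t := by
    rw [ht]
    exact div_pos (hgap w0 hbw) hbw
  have hle : ∀ v, ev (m.1 + t * b.1, m.2.1 + t * b.2.1, m.2.2 + t * b.2.2) (X v) ≤ h v := by
    intro v
    rw [klow_add]
    rcases lt_or_ge 0 (ev b (X v)) with h1 | h1
    · have h2 := hmin v (Finset.mem_filter.2 ⟨Finset.mem_univ _, h1⟩)
      rw [← ht, le_div_iff₀ h1] at h2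
      linarith
    · have h2 := hm.1 v
      nlinarith
  refine ⟨Finset.univ.filter fun v =>
    ev (m.1 + t * b.1, m.2.1 + t * b.2.1, m.2.2 + t * b.2.2) (X v) = h v, ⟨_, hle, fun v => ?_⟩, ?_⟩
  · rw [Finset.mem_filter]
    exact ⟨fun h => ⟨Finset.mem_univ _, h⟩, fun h => h.2⟩
  · have hsub : S ⊆ Finset.univ.filter fun v =>
        ev (m.1 + t * b.1, m.2.1 + t * b.2.1, m.2.2 + t * b.2.2) (X v) = h v := by
      intro v hv
      rw [Finset.mem_filter]
      refine ⟨Finset.mem_univ _, ?_⟩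
      rw [klow_add, hb v hv, mul_zero, add_zero]
      exact (hm.2 v).2 hv
    refine ⟨hsub, Finset.card_lt_card ((Finset.ssubset_iff_of_subset hsub).2 ⟨w0, ?_, ?_⟩)⟩
    · rw [Finset.mem_filter]
      refine ⟨Finset.mem_univ _, ?_⟩
      rw [klow_add, ht, div_mul_cancel₀ _ hbw.ne']
      ring
    · intro h1
      rw [hb w0 h1] at hbw
      exact lt_irrefl _ hbw

/-- an affine function with given values -/
private theorem klow_interp {U W Z : ℝ × ℝ} (hA : ar U W Z ≠ 0) (x y z : ℝ) :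
    ∃ m : ℝ × ℝ × ℝ, ev m U = x ∧ ev m W = y ∧ ev m Z = z := by
  have hA' : (W.1 - U.1) * (Z.2 - U.2) - (Z.1 - U.1) * (W.2 - U.2) ≠ 0 := hA
  refine ⟨((x * (W.2 - Z.2) + y * (Z.2 - U.2) + z * (U.2 - W.2)) /
      ((W.1 - U.1) * (Z.2 - U.2) - (Z.1 - U.1) * (W.2 - U.2)),
    (x * (Z.1 - W.1) + y * (U.1 - Z.1) + z * (W.1 - U.1)) /
      ((W.1 - U.1) * (Z.2 - U.2) - (Z.1 - U.1) * (W.2 - U.2)),
    (x * (W.1 * Z.2 - Z.1 * W.2) + y * (Z.1 * U.2 - U.1 * Z.2) + z * (U.1 * W.2 - W.1 * U.2)) /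
      ((W.1 - U.1) * (Z.2 - U.2) - (Z.1 - U.1) * (W.2 - U.2))), ?_, ?_, ?_⟩
  · unfold ev
    rw [div_mul_eq_mul_div, div_mul_eq_mul_div, ← add_div, ← add_div, div_eq_iff hA']
    ring
  · unfold ev
    rw [div_mul_eq_mul_div, div_mul_eq_mul_div, ← add_div, ← add_div, div_eq_iff hA']
    ring
  · unfold ev
    rw [div_mul_eq_mul_div, div_mul_eq_mul_div, ← add_div, ← add_div, div_eq_iff hA']
    ring

theorem X_inj {r : Fin 3 → V} {X : V → ℝ × ℝ} {h : V → ℝ} (hN : NF r X h) {u v : V} (huv : X u = X v) : u = v := by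
  obtain ⟨m, hm1, hm2⟩ := hN.expo u
  obtain ⟨m', hm1', hm2'⟩ := hN.expo v
  have e1 := (hm2 u).2 rfl
  have e2 := (hm2' v).2 rfl
  have e3 := hm1 v
  have e4 := hm1' u
  rw [← huv] at e3 e2
  exact ((hm2 v).1 (by rw [← huv]; linarith)).symm

private theorem klow_le {X : V → ℝ × ℝ} {h : V → ℝ} {S1 S2 : Finset V} (h1 : Low X h S1)
    (h2 : Low X h S2) (μ ν : V → ℝ) (hμ : ∀ v ∈ S1, 0 < μ v) (hν : ∀ v ∈ S2, 0 < ν v)
    (sμ : ∑ v ∈ S1, μ v = 1) (sν : ∑ v ∈ S2, ν v = 1)
    (hx : ∑ v ∈ S1, μ v • X v = ∑ v ∈ S2, ν v • X v) : S1 ⊆ S2 := by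
  obtain ⟨m1, a1, b1⟩ := h1
  obtain ⟨m2, a2, b2⟩ := h2
  have e1 := klow_sum m1 X S1 μ sμ
  have e2 := klow_sum m2 X S1 μ sμ
  have e3 := klow_sum m1 X S2 ν sν
  have e4 := klow_sum m2 X S2 ν sν
  rw [← hx] at e3 e4
  have k1 : ∑ v ∈ S1, μ v * ev m1 (X v) = ∑ v ∈ S1, μ v * h v :=
    Finset.sum_congr rfl fun v hv => by rw [(b1 v).2 hv]
  have k2 : ∑ v ∈ S2, ν v * ev m2 (X v) = ∑ v ∈ S2, ν v * h v :=
    Finset.sum_congr rfl fun v hv => by rw [(b2 v).2 hv]
  have k3 : ∑ v ∈ S2, ν v * ev m1 (X v) ≤ ∑ v ∈ S2, ν v * h v :=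
    Finset.sum_le_sum fun v hv => mul_le_mul_of_nonneg_left (a1 v) (hν v hv).le
  have k4 : ∑ v ∈ S1, μ v * (h v - ev m2 (X v)) ≤ 0 := by
    have : ∑ v ∈ S1, μ v * (h v - ev m2 (X v)) =
        ∑ v ∈ S1, μ v * h v - ∑ v ∈ S1, μ v * ev m2 (X v) := by
      rw [← Finset.sum_sub_distrib]
      exact Finset.sum_congr rfl fun v _ => by ring
    rw [this]
    linarith
  have k5 : ∀ v ∈ S1, 0 ≤ μ v * (h v - ev m2 (X v)) := fun v hv =>
    mul_nonneg (hμ v hv).le (sub_nonneg.2 (a2 v))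
  have k6 := (Finset.sum_eq_zero_iff_of_nonneg k5).1 (le_antisymm k4 (Finset.sum_nonneg k5))
  intro v hv
  have k7 := (mul_eq_zero.1 (k6 v hv)).resolve_left (hμ v hv).ne'
  exact (b2 v).1 (sub_eq_zero.1 k7).symm

theorem low_unique (X : V → ℝ × ℝ) (h : V → ℝ) (S1 S2 : Finset V) (h1 : Low X h S1) (h2 : Low X h S2)
    (μ ν : V → ℝ) (hμ : ∀ v ∈ S1, 0 < μ v) (hν : ∀ v ∈ S2, 0 < ν v) (sμ : ∑ v ∈ S1, μ v = 1)
    (sν : ∑ v ∈ S2, ν v = 1) (hx : ∑ v ∈ S1, μ v • X v = ∑ v ∈ S2, ν v • X v) : S1 = S2 := by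
  exact Finset.Subset.antisymm (klow_le h1 h2 μ ν hμ hν sμ sν hx)
    (klow_le h2 h1 ν μ hν hμ sν sμ hx.symm)

theorem low_card {r : Fin 3 → V} {X : V → ℝ × ℝ} {h : V → ℝ} (hN : NF r X h) (S : Finset V) (hS : Low X h S) :
    S.card ≤ 3 := by
  obtain ⟨m, a, b⟩ := hS
  exact hN.card3 m a S fun v hv => (b v).2 hv

/-- a low set with at most two elements is not maximal -/
private theorem klow_step [Fintype V] {r : Fin 3 → V} {X : V → ℝ × ℝ} {h : V → ℝ}
    (hN : NF r X h) {S : Finset V} (hS : Low X h S) (hc : S.card ≤ 2) :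
    ∃ S' : Finset V, Low X h S' ∧ S ⊆ S' ∧ S.card < S'.card := by
  classical
  obtain ⟨m, hm⟩ := hS
  have hb : ∃ b : ℝ × ℝ × ℝ, b ≠ 0 ∧ ∀ v ∈ S, ev b (X v) = 0 := by
    rcases Nat.lt_or_ge S.card 1 with h0 | h0
    · have h1 : S = ∅ := Finset.card_eq_zero.1 (by omega)
      refine ⟨(0, 0, 1), fun h => ?_, fun v hv => ?_⟩
      · have := congrArg (fun t : ℝ × ℝ × ℝ => t.2.2) h
        simp at this
      · rw [h1] at hv
        simp at hv
    · rcases Nat.lt_or_ge S.card 2 with h1 | h1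
      · obtain ⟨u, hu⟩ := Finset.card_eq_one.1 (by omega : S.card = 1)
        refine ⟨(1, 0, -(X u).1), fun h => ?_, fun v hv => ?_⟩
        · have := congrArg (fun t : ℝ × ℝ × ℝ => t.1) h
          simp at this
        · rw [hu, Finset.mem_singleton] at hv
          rw [hv]
          unfold ev
          ring
      · obtain ⟨u, w, huw, hu⟩ := Finset.card_eq_two.1 (by omega : S.card = 2)
        refine ⟨(-((X w).2 - (X u).2), (X w).1 - (X u).1,
          -((X w).1 - (X u).1) * (X u).2 + (X u).1 * ((X w).2 - (X u).2)), fun h => ?_,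
          fun v hv => ?_⟩
        · have e1 := congrArg (fun t : ℝ × ℝ × ℝ => t.1) h
          have e2 := congrArg (fun t : ℝ × ℝ × ℝ => t.2.1) h
          simp only [Prod.fst_zero, Prod.snd_zero] at e1 e2
          apply huw
          apply X_inj hN
          refine Prod.ext ?_ ?_
          · linarith
          · linarith
        · rw [hu, Finset.mem_insert, Finset.mem_singleton] at hv
          rcases hv with rfl | rfl
          · unfold ev
            ring
          · unfold ev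
            ring
  obtain ⟨b, hb0, hbS⟩ := hb
  have hcorner : ∃ w, ev b (X w) ≠ 0 := by
    by_contra hcon
    push Not at hcon
    have e0 := hcon (r 0)
    have e1 := hcon (r 1)
    have e2 := hcon (r 2)
    rw [hN.X0] at e0
    rw [hN.X1] at e1
    rw [hN.X2] at e2
    unfold ev at e0 e1 e2
    simp only [mul_zero, mul_one, zero_add, add_zero] at e0 e1 e2
    apply hb0
    refine Prod.ext ?_ (Prod.ext ?_ ?_)
    · show b.1 = 0
      linarith
    · show b.2.1 = 0
      linarith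
    · exact e0
  obtain ⟨w, hw⟩ := hcorner
  rcases lt_or_gt_of_ne hw with h1 | h1
  · have hneg : ∀ P, ev (-b.1, -b.2.1, -b.2.2) P = - ev b P := by
      intro P
      unfold ev
      ring
    refine klow_tilt hm (-b.1, -b.2.1, -b.2.2) (fun v hv => ?_) ⟨w, ?_⟩
    · rw [hneg, hbS v hv, neg_zero]
    · rw [hneg]
      linarith
  · exact klow_tilt hm b hbS ⟨w, h1⟩

theorem low_extend [Fintype V] {r : Fin 3 → V} {X : V → ℝ × ℝ} {h : V → ℝ} (hN : NF r X h) (S : Finset V)
    (hS : Low X h S) : ∃ g ∈ FF X h, S ⊆ g := by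
  have key : ∀ n : ℕ, ∀ S : Finset V, Low X h S → 3 - S.card = n → ∃ g ∈ FF X h, S ⊆ g := by
    intro n
    induction n using Nat.strong_induction_on with
    | _ n ih =>
      intro S hS hn
      have h3 := low_card hN S hS
      rcases Nat.lt_or_ge S.card 3 with h4 | h4
      · obtain ⟨S', h5, h6, h7⟩ := klow_step hN hS (by omega)
        have h8 := low_card hN S' h5
        obtain ⟨g, hg, hSg⟩ := ih (3 - S'.card) (by omega) S' h5 rfl
        exact ⟨g, hg, h6.trans hSg⟩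
      · exact ⟨S, klow_mem.2 ⟨by omega, hS⟩, Finset.Subset.refl _⟩
  exact key _ S hS rfl

/-- subsets of faces are low -/
private theorem klow_face [Fintype V] {r : Fin 3 → V} {X : V → ℝ × ℝ} {h : V → ℝ}
    (hN : NF r X h) {g S' : Finset V} (hg : g ∈ FF X h) (hS' : S' ⊆ g) : Low X h S' := by
  classical
  obtain ⟨hc, m, hm⟩ := klow_mem.1 hg
  obtain ⟨a, b, c, hab, hac, hbc, hgs⟩ := Finset.card_eq_three.1 hc
  have ha : ev m (X a) = h a := (hm.2 a).2 (by rw [hgs]; simp)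
  have hb : ev m (X b) = h b := (hm.2 b).2 (by rw [hgs]; simp)
  have hcc : ev m (X c) = h c := (hm.2 c).2 (by rw [hgs]; simp)
  have hA := hN.indep m hm.1 a b c hab hac hbc ha hb hcc
  obtain ⟨β, h1, h2, h3⟩ := klow_interp hA (if a ∈ S' then 0 else 1) (if b ∈ S' then 0 else 1)
    (if c ∈ S' then 0 else 1)
  have hβ : ∀ v ∈ g, ev β (X v) = if v ∈ S' then 0 else 1 := by
    intro v hv
    rw [hgs, Finset.mem_insert, Finset.mem_insert, Finset.mem_singleton] at hv
    rcases hv with rfl | rfl | rfl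
    · exact h1
    · exact h2
    · exact h3
  have hev : ∀ᶠ ε : ℝ in nhdsWithin 0 (Set.Ioi 0), ∀ v, v ∉ g →
      ev m (X v) + (-ε) * ev β (X v) < h v := by
    rw [Filter.eventually_all]
    intro v
    by_cases hv : v ∈ g
    · exact Filter.Eventually.of_forall fun ε h => absurd hv h
    · have h4 : ev m (X v) < h v := lt_of_le_of_ne (hm.1 v) fun h5 => hv ((hm.2 v).1 h5)
      have h5 : Filter.Tendsto (fun ε : ℝ => ev m (X v) + (-ε) * ev β (X v))
          (nhdsWithin 0 (Set.Ioi 0)) (nhds (ev m (X v) + (-0) * ev β (X v))) := by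
        refine Filter.Tendsto.mono_left ?_ nhdsWithin_le_nhds
        exact (Continuous.tendsto (by fun_prop) 0)
      rw [neg_zero, zero_mul, add_zero] at h5
      exact (h5.eventually_lt_const h4).mono fun ε h6 _ => h6
  have hpos : ∀ᶠ ε : ℝ in nhdsWithin 0 (Set.Ioi 0), 0 < ε := self_mem_nhdsWithin
  obtain ⟨ε, hε, hε0⟩ := (hev.and hpos).exists
  refine ⟨(m.1 + (-ε) * β.1, m.2.1 + (-ε) * β.2.1, m.2.2 + (-ε) * β.2.2), fun v => ?_, fun v => ?_⟩
  · rw [klow_add]
    by_cases hv : v ∈ g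
    · rw [hβ v hv, (hm.2 v).2 hv]
      split_ifs
      · linarith
      · linarith
    · exact (hε v hv).le
  · rw [klow_add]
    by_cases hv : v ∈ g
    · rw [hβ v hv, (hm.2 v).2 hv]
      split_ifs with h4
      · exact ⟨fun _ => h4, fun _ => by ring⟩
      · exact ⟨fun h5 => by linarith, fun h5 => absurd h5 h4⟩
    · exact ⟨fun h5 => absurd h5 (hε v hv).ne, fun h5 => absurd (hS' h5) hv⟩

theorem low_sub [Fintype V] {r : Fin 3 → V} {X : V → ℝ × ℝ} {h : V → ℝ} (hN : NF r X h) (S S' : Finset V)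
    (hS : Low X h S) (hS' : S' ⊆ S) : Low X h S' := by
  obtain ⟨g, hg, hSg⟩ := low_extend hN S hS
  exact klow_face hN hg (hS'.trans hSg)

/-- barycentric coordinates -/
private theorem klow_lam {r : Fin 3 → V} {X : V → ℝ × ℝ} {h : V → ℝ} (hN : NF r X h) (k : Fin 3) :
    ∃ lam : ℝ × ℝ × ℝ, (∀ l, ev lam (X (r l)) = if l = k then 1 else 0) ∧
      ∀ v, (∀ i, v ≠ r i) → 0 < ev lam (X v) := by
  fin_cases k
  · refine ⟨(-1, -1, 1), fun l => ?_, fun v hv => ?_⟩
    · fin_cases l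
      · simp [ev, hN.X0]
      · simp [ev, hN.X1]
      · simp [ev, hN.X2]
    · have h1 := hN.pos v hv
      unfold ev
      simp only
      linarith [h1.2.2]
  · refine ⟨(1, 0, 0), fun l => ?_, fun v hv => ?_⟩
    · fin_cases l
      · simp [ev, hN.X0]
      · simp [ev, hN.X1]
      · simp [ev, hN.X2]
    · have h1 := hN.pos v hv
      unfold ev
      simp only
      linarith [h1.1]
  · refine ⟨(0, 1, 0), fun l => ?_, fun v hv => ?_⟩
    · fin_cases l
      · simp [ev, hN.X0]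
      · simp [ev, hN.X1]
      · simp [ev, hN.X2]
    · have h1 := hN.pos v hv
      unfold ev
      simp only
      linarith [h1.2.1]

theorem root_low [Fintype V] [DecidableEq V] {r : Fin 3 → V} {X : V → ℝ × ℝ} {h : V → ℝ} (hN : NF r X h) (i j : Fin 3)
    (hij : i ≠ j) : Low X h {r i, r j} := by
  obtain ⟨k, hki, hkj⟩ : ∃ k : Fin 3, k ≠ i ∧ k ≠ j := by
    revert i j
    decide
  have hall : ∀ l : Fin 3, l = i ∨ l = j ∨ l = k := by
    revert i j k
    decide
  obtain ⟨lam, h1, h2⟩ := klow_lam hN k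
  have hpos : ∀ v, v ∉ ({r i, r j} : Finset V) → 0 < ev lam (X v) := by
    intro v hv
    rw [Finset.mem_insert, Finset.mem_singleton, not_or] at hv
    by_cases h3 : ∃ l, v = r l
    · obtain ⟨l, rfl⟩ := h3
      rcases hall l with rfl | rfl | rfl
      · exact absurd rfl hv.1
      · exact absurd rfl hv.2
      · rw [h1, if_pos rfl]
        exact one_pos
    · push Not at h3
      exact h2 v h3
  have hev : ∀ᶠ t : ℝ in Filter.atTop, ∀ v, v ∉ ({r i, r j} : Finset V) →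
      0 + (-t) * ev lam (X v) < h v := by
    rw [Filter.eventually_all]
    intro v
    by_cases hv : v ∈ ({r i, r j} : Finset V)
    · exact Filter.Eventually.of_forall fun ε h => absurd hv h
    · have h4 := hpos v hv
      filter_upwards [Filter.eventually_gt_atTop (-(h v) / ev lam (X v))] with t ht _
      rw [div_lt_iff₀ h4] at ht
      linarith
  obtain ⟨t, ht⟩ := hev.exists
  have hz : ∀ v ∈ ({r i, r j} : Finset V), ev lam (X v) = 0 ∧ h v = 0 := by
    intro v hv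
    rw [Finset.mem_insert, Finset.mem_singleton] at hv
    rcases hv with rfl | rfl
    · exact ⟨by rw [h1, if_neg hki.symm], hN.hr i⟩
    · exact ⟨by rw [h1, if_neg hkj.symm], hN.hr j⟩
  refine ⟨(0 + (-t) * lam.1, 0 + (-t) * lam.2.1, 0 + (-t) * lam.2.2), ?_⟩
  have he : ∀ P, ev (0 + (-t) * lam.1, 0 + (-t) * lam.2.1, 0 + (-t) * lam.2.2) P =
      0 + (-t) * ev lam P := by
    intro P
    unfold ev
    ring
  constructor
  · intro v
    rw [he]
    by_cases hv : v ∈ ({r i, r j} : Finset V)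
    · rw [(hz v hv).1, (hz v hv).2, mul_zero, add_zero]
    · exact (ht v hv).le
  · intro v
    rw [he]
    by_cases hv : v ∈ ({r i, r j} : Finset V)
    · rw [(hz v hv).1, (hz v hv).2, mul_zero, add_zero]
      exact ⟨fun _ => hv, fun _ => rfl⟩
    · exact ⟨fun h5 => absurd h5 (ht v hv).ne, fun h5 => absurd h5 hv⟩

theorem nf_covered [Fintype V] {r : Fin 3 → V} {X : V → ℝ × ℝ} {h : V → ℝ} (hN : NF r X h) (v : V) :
    ∃ g ∈ FF X h, v ∈ g := by
  obtain ⟨m, hm1, hm2⟩ := hN.expo v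
  have hS : Low X h {v} := ⟨m, hm1, fun w => by rw [Finset.mem_singleton]; exact hm2 w⟩
  obtain ⟨g, hg, hvg⟩ := low_extend hN {v} hS
  exact ⟨g, hg, hvg (Finset.mem_singleton_self v)⟩

end MP0e5907
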