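import Pool.Agent.Lib_MP_0e5907.KAdj

/-!
# Piece KMAX: the maximal face at a point contains the point; injectivity of the boundary operator

Paper proof.
* `max_in`: `B ⊆ FF` nonempty and closed under adjacency: `{a,b,c} ∈ B`, `{a,b,c'} ∈ FF`, `a ≠ b` imply `{a,b,c'} ∈ B`. Let `P` be in the closed outer triangle. Choose functions `m_g` (`g ∈ B`) and `g ∈ B` maximising `ev m_g P`. Claim: for every ordering `g = {a,b,c}`: `ar a b P * ar a b c ≥ 0`. If some vertex `w` is strictly on the other side of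
  `ab` (`ar a b w * ar a b c < 0`), take `c'` from `adj_exists`; `{a,b,c'} ∈ B`; if `ar a b P * ar a b c < 0`, `adj_cross` would give a larger value. If there is no such vertex, then all corners satisfy `ar a b (r j) * ar a b c ≥ 0`, and `P` is a convex combination of the corners. So with `A = ar a b c`, the barycentric
  coordinates of `P` with respect to `g`, `ar P b c / A`, `ar a P c / A`, `ar a b P / A`, are nonnegative with sum one (`ar` is antisymmetric/cyclic, so the three orderings give the three coordinates), and `P = ` their combination.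
* `nf_inj`: let `A ⊆ FF` be nonempty with even numbers at all pairs. It is closed under adjacency: at most two faces of `FF` contain `a, b` (`faces_inner`, `faces_outer`), so if one face of `A` contains them, all faces of `FF` containing `a, b` are in `A`. Let `P = (1/2, 1/2)`, the midpoint of `X (r 1), X (r 2)`. By `max_in` there are `g ∈ A` and `μ`, `P = ∑_{v∈g} μ_v X v`.
  The function `1 - x - y` is `0` at `P` and `≥ 0` at all vertices, positive except at `r 1`, `r 2`. So `μ_v > 0` only for `v ∈ {r 1, r 2}`, and as `P ≠ X (r 1), X (r 2)` both are in `g`. The number of faces of `FF` containing `r 1, r 2` is `1`, so the number for `A` is `1`: odd. Contradiction.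
-/

namespace MP0e5907

open Finset

variable {V : Type} [Fintype V] [DecidableEq V]

/-- the side claim at a maximal face -/
theorem kmax_side {r : Fin 3 → V} {X : V → ℝ × ℝ} {h : V → ℝ} (hN : NF r X h) (B : Finset (Finset V))
    (hB : B ⊆ FF X h) (hcl : ∀ a b c c', a ≠ b → {a, b, c} ∈ B → {a, b, c'} ∈ FF X h → {a, b, c'} ∈ B)
    (P : ℝ × ℝ) (hP : 0 ≤ P.1 ∧ 0 ≤ P.2 ∧ P.1 + P.2 ≤ 1) (mf : Finset V → ℝ × ℝ × ℝ)
    (hmf : ∀ g ∈ FF X h, Sup X h (mf g) g) (a b c : V) (hab : a ≠ b) (hac : a ≠ c) (hbc : b ≠ c)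
    (hg : {a, b, c} ∈ B) (hmax : ∀ g' ∈ B, ev (mf g') P ≤ ev (mf {a, b, c}) P) :
    0 ≤ ar (X a) (X b) P * ar (X a) (X b) (X c) := by
  by_cases hw : ∃ w, ar (X a) (X b) (X w) * ar (X a) (X b) (X c) < 0
  · obtain ⟨w, hw⟩ := hw
    obtain ⟨c', hc', hs⟩ := adj_exists hN hab hac hbc (hB hg) w hw
    have hc'B := hcl a b c c' hab hg hc'
    by_contra hneg
    push Not at hneg
    have h1 := adj_cross hN (hmf _ (hB hg)) (hmf _ hc') hs P hneg
    exact absurd (hmax _ hc'B) (not_le.2 h1)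
  · push Not at hw
    have e1 := kadj_bary hN (X a) (X b) P
    have k0 := hw (r 0)
    have k1 := hw (r 1)
    have k2 := hw (r 2)
    obtain ⟨p1, p2, p3⟩ := hP
    have e2 : ar (X a) (X b) P * ar (X a) (X b) (X c) =
        (1 - P.1 - P.2) * (ar (X a) (X b) (X (r 0)) * ar (X a) (X b) (X c)) +
        P.1 * (ar (X a) (X b) (X (r 1)) * ar (X a) (X b) (X c)) +
        P.2 * (ar (X a) (X b) (X (r 2)) * ar (X a) (X b) (X c)) := by
      rw [e1]
      ring
    rw [e2]
    have q0 : 0 ≤ 1 - P.1 - P.2 := by linarith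
    have m0 := mul_nonneg q0 k0
    have m1 := mul_nonneg p1 k1
    have m2 := mul_nonneg p2 k2
    linarith

omit [Fintype V] [DecidableEq V] in
theorem kmax_cyc1 (a b c : ℝ × ℝ) : ar b c a = ar a b c := by
  unfold ar
  ring

omit [Fintype V] [DecidableEq V] in
theorem kmax_div {x y A : ℝ} (hA : A ≠ 0) (h : 0 ≤ x * A) (hy : y = x / A) : 0 ≤ y := by
  rw [hy]
  have h1 : x / A = x * A / (A * A) := by
    field_simp
  rw [h1]
  exact div_nonneg h (mul_self_nonneg A)

theorem max_in {r : Fin 3 → V} {X : V → ℝ × ℝ} {h : V → ℝ} (hN : NF r X h) (B : Finset (Finset V))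
    (hB : B ⊆ FF X h) (hne : B.Nonempty)
    (hcl : ∀ a b c c', a ≠ b → {a, b, c} ∈ B → {a, b, c'} ∈ FF X h → {a, b, c'} ∈ B) (P : ℝ × ℝ)
    (hP : 0 ≤ P.1 ∧ 0 ≤ P.2 ∧ P.1 + P.2 ≤ 1) :
    ∃ g ∈ B, ∃ μ : V → ℝ, (∀ v ∈ g, 0 ≤ μ v) ∧ ∑ v ∈ g, μ v = 1 ∧ ∑ v ∈ g, μ v • X v = P := by
  classical
  have hex : ∀ g : Finset V, ∃ m, g ∈ FF X h → Sup X h m g := by
    intro g
    by_cases hg : g ∈ FF X h
    · obtain ⟨m, hm⟩ := (kadj_mem.1 hg).2
      exact ⟨m, fun _ => hm⟩
    · exact ⟨(0, 0, 0), fun hh => absurd hh hg⟩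
  choose mf hmf' using hex
  have hmf : ∀ g ∈ FF X h, Sup X h (mf g) g := fun g hg => hmf' g hg
  obtain ⟨g, hgB, hmax⟩ := exists_max_image B (fun g => ev (mf g) P) hne
  have hg3 := (kadj_mem.1 (hB hgB)).1
  obtain ⟨a, b, c, hab, hac, hbc, rfl⟩ := card_eq_three.1 hg3
  have hA := face_ar hN hab hac hbc (hB hgB)
  obtain ⟨A, hAd⟩ : ∃ A, A = ar (X a) (X b) (X c) := ⟨_, rfl⟩
  have hperm1 : ({b, c, a} : Finset V) = {a, b, c} := by
    ext v
    rw [kadj_mem3, kadj_mem3]
    tauto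
  have hperm2 : ({c, a, b} : Finset V) = {a, b, c} := by
    ext v
    rw [kadj_mem3, kadj_mem3]
    tauto
  have s1 := kmax_side hN B hB hcl P hP mf hmf a b c hab hac hbc hgB hmax
  have s2 := kmax_side hN B hB hcl P hP mf hmf b c a hbc hab.symm hac.symm (by rw [hperm1]; exact hgB)
    (by rw [hperm1]; exact hmax)
  have s3 := kmax_side hN B hB hcl P hP mf hmf c a b hac.symm hbc.symm hab (by rw [hperm2]; exact hgB)
    (by rw [hperm2]; exact hmax)
  rw [kmax_cyc1 (X a) (X b) (X c), ← hAd] at s2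
  rw [kmax_cyc1 (X b) (X c) (X a), kmax_cyc1 (X a) (X b) (X c), ← hAd] at s3
  rw [← hAd] at s1 hA
  have c1 : ar P (X b) (X c) = ar (X b) (X c) P := (kmax_cyc1 P (X b) (X c)).symm
  have c2 : ar (X a) P (X c) = ar (X c) (X a) P := kmax_cyc1 (X c) (X a) P
  obtain ⟨x, hx⟩ : ∃ x, x = ar P (X b) (X c) / A := ⟨_, rfl⟩
  obtain ⟨y, hy⟩ : ∃ y, y = ar (X a) P (X c) / A := ⟨_, rfl⟩
  obtain ⟨z, hz⟩ : ∃ z, z = ar (X a) (X b) P / A := ⟨_, rfl⟩
  have x0 : 0 ≤ x := kmax_div hA (by rw [c1]; exact s2) hx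
  have y0 : 0 ≤ y := kmax_div hA (by rw [c2]; exact s3) hy
  have z0 : 0 ≤ z := kmax_div hA s1 hz
  have hsum : x + y + z = 1 := by
    rw [hx, hy, hz, ← add_div, ← add_div, div_eq_one_iff_eq hA, hAd]
    unfold ar
    ring
  have hf1 : x * (X a).1 + y * (X b).1 + z * (X c).1 = P.1 := by
    have e : ar P (X b) (X c) * (X a).1 + ar (X a) P (X c) * (X b).1 + ar (X a) (X b) P * (X c).1 =
        P.1 * A := by
      rw [hAd]
      unfold ar
      ring
    rw [hx, hy, hz, div_mul_eq_mul_div, div_mul_eq_mul_div, div_mul_eq_mul_div, ← add_div, ← add_div, e,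
      mul_div_assoc, div_self hA, mul_one]
  have hf2 : x * (X a).2 + y * (X b).2 + z * (X c).2 = P.2 := by
    have e : ar P (X b) (X c) * (X a).2 + ar (X a) P (X c) * (X b).2 + ar (X a) (X b) P * (X c).2 =
        P.2 * A := by
      rw [hAd]
      unfold ar
      ring
    rw [hx, hy, hz, div_mul_eq_mul_div, div_mul_eq_mul_div, div_mul_eq_mul_div, ← add_div, ← add_div, e,
      mul_div_assoc, div_self hA, mul_one]
  refine ⟨{a, b, c}, hgB, fun v => if v = a then x else if v = b then y else z, ?_, ?_, ?_⟩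
  · intro v _
    dsimp only
    split_ifs
    · exact x0
    · exact y0
    · exact z0
  · rw [sum_insert (by rw [mem_insert, mem_singleton]; push Not; exact ⟨hab, hac⟩),
      sum_insert (by rw [mem_singleton]; exact hbc), sum_singleton]
    simp only [if_true, if_neg hab.symm, if_neg hac.symm, if_neg hbc.symm]
    linarith
  · rw [sum_insert (by rw [mem_insert, mem_singleton]; push Not; exact ⟨hab, hac⟩),
      sum_insert (by rw [mem_singleton]; exact hbc), sum_singleton]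
    simp only [if_true, if_neg hab.symm, if_neg hac.symm, if_neg hbc.symm]
    refine Prod.ext ?_ ?_
    · rw [Prod.fst_add, Prod.fst_add, Prod.smul_fst, Prod.smul_fst, Prod.smul_fst, smul_eq_mul, smul_eq_mul,
        smul_eq_mul]
      linarith
    · rw [Prod.snd_add, Prod.snd_add, Prod.smul_snd, Prod.smul_snd, Prod.smul_snd, smul_eq_mul, smul_eq_mul,
        smul_eq_mul]
      linarith

theorem nf_inj {r : Fin 3 → V} {X : V → ℝ × ℝ} {h : V → ℝ} (hN : NF r X h) (A : Finset (Finset V))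
    (hA : A ⊆ FF X h) (hev : ∀ a b, a ≠ b → Even (A.filter fun g => a ∈ g ∧ b ∈ g).card) : A = ∅ := by
  classical
  by_contra hA0
  have hne : A.Nonempty := nonempty_iff_ne_empty.2 hA0
  have hle2 : ∀ a b, a ≠ b → ((FF X h).filter fun g => a ∈ g ∧ b ∈ g).card ≤ 2 := by
    intro a b hab
    by_cases h1 : ∃ g ∈ FF X h, a ∈ g ∧ b ∈ g
    · by_cases h2 : (∃ i, a = r i) ∧ ∃ j, b = r j
      · obtain ⟨⟨i, rfl⟩, j, rfl⟩ := h2
        rw [faces_outer hN i j (fun hij => hab (by rw [hij]))]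
        exact one_le_two
      · exact (faces_inner hN a b hab h1 h2).le
    · rw [filter_false_of_mem (fun g hg hh => h1 ⟨g, hg, hh⟩), card_empty]
      exact Nat.zero_le _
  have hcl : ∀ a b c c', a ≠ b → {a, b, c} ∈ A → {a, b, c'} ∈ FF X h → {a, b, c'} ∈ A := by
    intro a b c c' hab hc hc'
    have hsub : (A.filter fun g => a ∈ g ∧ b ∈ g) ⊆ ((FF X h).filter fun g => a ∈ g ∧ b ∈ g) :=
      filter_subset_filter _ hA
    have hpos : 0 < (A.filter fun g => a ∈ g ∧ b ∈ g).card := by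
      refine card_pos.2 ⟨{a, b, c}, mem_filter.2 ⟨hc, ?_, ?_⟩⟩
      · exact kadj_mem3.2 (Or.inl rfl)
      · exact kadj_mem3.2 (Or.inr (Or.inl rfl))
    have h2 : 2 ≤ (A.filter fun g => a ∈ g ∧ b ∈ g).card := by
      obtain ⟨t, ht⟩ := hev a b hab
      omega
    have heq := eq_of_subset_of_card_le hsub ((hle2 a b hab).trans h2)
    have hmem : {a, b, c'} ∈ ((FF X h).filter fun g => a ∈ g ∧ b ∈ g) :=
      mem_filter.2 ⟨hc', kadj_mem3.2 (Or.inl rfl), kadj_mem3.2 (Or.inr (Or.inl rfl))⟩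
    rw [← heq] at hmem
    exact (mem_filter.1 hmem).1
  obtain ⟨g, hgA, μ, hμ0, hμ1, hμX⟩ := max_in hN A hA hne hcl ((1 / 2 : ℝ), (1 / 2 : ℝ))
    ⟨by norm_num, by norm_num, by norm_num⟩
  have e1 : ∑ v ∈ g, μ v * (X v).1 = 1 / 2 := by
    have := congrArg Prod.fst hμX
    rw [Prod.fst_sum] at this
    simpa only [Prod.smul_fst, smul_eq_mul] using this
  have e2 : ∑ v ∈ g, μ v * (X v).2 = 1 / 2 := by
    have := congrArg Prod.snd hμX
    rw [Prod.snd_sum] at this
    simpa only [Prod.smul_snd, smul_eq_mul] using this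
  have hcase : ∀ v, (v = r 0 ∨ v = r 1 ∨ v = r 2) ∨ (0 < (X v).1 ∧ 0 < (X v).2 ∧ (X v).1 + (X v).2 < 1) := by
    intro v
    by_cases h0 : ∃ l, v = r l
    · left
      obtain ⟨l, hl⟩ := h0
      fin_cases l
      · exact Or.inl hl
      · exact Or.inr (Or.inl hl)
      · exact Or.inr (Or.inr hl)
    · right
      exact hN.pos v fun l hl => h0 ⟨l, hl⟩
  have hnn : ∀ v, 0 ≤ 1 - (X v).1 - (X v).2 := by
    intro v
    rcases hcase v with (h3 | h3 | h3) | ⟨h3, h4, h5⟩
    · rw [h3, hN.X0]; norm_num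
    · rw [h3, hN.X1]; norm_num
    · rw [h3, hN.X2]; norm_num
    · linarith
  have e3 : ∑ v ∈ g, μ v * (1 - (X v).1 - (X v).2) = 0 := by
    have : ∑ v ∈ g, μ v * (1 - (X v).1 - (X v).2) =
        ∑ v ∈ g, μ v - ∑ v ∈ g, μ v * (X v).1 - ∑ v ∈ g, μ v * (X v).2 := by
      rw [← sum_sub_distrib, ← sum_sub_distrib]
      exact sum_congr rfl fun v _ => by ring
    rw [this, hμ1, e1, e2]
    norm_num
  have e4 := (sum_eq_zero_iff_of_nonneg (fun v hv => mul_nonneg (hμ0 v hv) (hnn v))).1 e3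
  have e5 : ∀ v ∈ g, v ≠ r 1 → v ≠ r 2 → μ v = 0 := by
    intro v hv h1 h2
    rcases mul_eq_zero.1 (e4 v hv) with h3 | h3
    · exact h3
    · exfalso
      rcases hcase v with (h4 | h4 | h4) | ⟨h4, h5, h6⟩
      · rw [h4, hN.X0] at h3
        norm_num at h3
      · exact h1 h4
      · exact h2 h4
      · linarith
  have m1 : r 1 ∈ g := by
    by_contra hn
    have : ∑ v ∈ g, μ v * (X v).1 = 0 := by
      refine sum_eq_zero fun v hv => ?_
      by_cases h2 : v = r 2
      · rw [h2, hN.X2]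
        simp
      · rw [e5 v hv (fun hh => hn (hh ▸ hv)) h2, zero_mul]
    rw [this] at e1
    norm_num at e1
  have m2 : r 2 ∈ g := by
    by_contra hn
    have : ∑ v ∈ g, μ v * (X v).2 = 0 := by
      refine sum_eq_zero fun v hv => ?_
      by_cases h1 : v = r 1
      · rw [h1, hN.X1]
        simp
      · rw [e5 v hv h1 (fun hh => hn (hh ▸ hv)), zero_mul]
    rw [this] at e2
    norm_num at e2
  have h12 : (1 : Fin 3) ≠ 2 := by decide
  have hf := faces_outer hN 1 2 h12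
  have hne12 : r 1 ≠ r 2 := fun hh => h12 (hN.rinj hh)
  have hsub : (A.filter fun g => r 1 ∈ g ∧ r 2 ∈ g) ⊆ ((FF X h).filter fun g => r 1 ∈ g ∧ r 2 ∈ g) :=
    filter_subset_filter _ hA
  have hle := card_le_card hsub
  rw [hf] at hle
  have hpos : 0 < (A.filter fun g => r 1 ∈ g ∧ r 2 ∈ g).card :=
    card_pos.2 ⟨g, mem_filter.2 ⟨hgA, m1, m2⟩⟩
  obtain ⟨t, ht⟩ := hev (r 1) (r 2) hne12
  omega

end MP0e5907
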