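import Pool.Agent.Lib_MP_0e5907.KMax
import Pool.Agent.Lib_MP_0e5907.KEuler

/-!
# Piece KZ: mod 2 cycles are boundaries; assembly of `ATC`

Paper proof.
* `nf_Z`. Vector spaces over `K = ZMod 2`: `C2 = {g // g ∈ FF} → K`, `C1 = {ε // ε ∈ EE} → K`, `C0 = V → K`. `∂2 : C2 → C1`, `(∂2 A) ε = ∑_{g ⊇ ε} A g`, `∂1 : C1 → C0`, `(∂1 c) v = ∑_{ε ∋ v} c ε`. `∂1 ∂2 = 0`: for `v` in a face `g` exactly two of the three two-element subsets of `g` contain `v` (all are in `EE`). `∂2` is injective by `nf_inj` (a chain `A` over `ZMod 2` is a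
  subset; `∂2 A = 0` means even numbers at all pairs: pairs `{a,b}` not in `EE` are in no face). `δ : C0 → C1`, `(δ f) {a,b} = f a + f b` is the transpose of `∂1`; its kernel is the constants (`graph_conn`; in `ZMod 2`, `f a + f b = 0` iff `f a = f b`), of dimension 1 (`V` nonempty), so `rank ∂1 = rank δ = |V| - 1` and
  `dim ker ∂1 = |EE| - |V| + 1`. By `ee_card`, `ff_card_le`: `2 (|EE| - |V| + 1) = 3|FF| + 3 - 2|V| + 2 ≤ 2 |FF|`, so `dim ker ∂1 ≤ |FF| = dim im ∂2` and `im ∂2 ⊆ ker ∂1`, hence equality. Given the relation `E` (symmetric, contained in the edges, all degrees even) let `c ε = 1` if `ε = {a,b}` with `E a b`, else `0`. `∂1 c v = deg v mod 2 = 0`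
  (the edges `ε ∋ v` with `c ε = 1` correspond to the `b` with `E v b`). So `c = ∂2 A`, `A` a subset of `FF`, and `E a b ↔ c {a,b} = 1 ↔` the number of faces of `A` containing `a, b` is odd (for `{a,b}` not in `EE` both sides are false).
* `nf_atc`: collect: `rinj`, `card3` (definition of `FF`), `covered` (`nf_covered`), `inner` (`faces_inner`), `outer` (`faces_outer`), `link` (`nf_link`), `inj` (`nf_inj`), `Z` (`nf_Z`).
-/

namespace MP0e5907

open Finset

variable {V : Type} [Fintype V] [DecidableEq V]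

private theorem kz_one {z : ZMod 2} (h : z ≠ 0) : z = 1 := by
  revert z
  decide

private theorem kz_add {a b : ZMod 2} (h : a + b = 0) : a = b := by
  revert a b
  decide

omit [DecidableEq V] in
private theorem kz_mem_FF {X : V → ℝ × ℝ} {h : V → ℝ} {g : Finset V} (hg : g ∈ FF X h) :
    g.card = 3 := by
  unfold FF at hg
  simp only [Finset.mem_filter] at hg
  exact hg.2.1

private theorem kz_mem_EE {X : V → ℝ × ℝ} {h : V → ℝ} {ε : Finset V} :
    ε ∈ EE X h ↔ ε.card = 2 ∧ ∃ g ∈ FF X h, ε ⊆ g := by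
  unfold EE
  rw [Finset.mem_filter]
  exact and_iff_right (Finset.mem_univ _)

private theorem kz_pair_mem {X : V → ℝ × ℝ} {h : V → ℝ} {a b : V} (hab : a ≠ b) :
    {a, b} ∈ EE X h ↔ ∃ g ∈ FF X h, a ∈ g ∧ b ∈ g := by
  rw [kz_mem_EE]
  constructor
  · rintro ⟨_, g, hg, hs⟩
    exact ⟨g, hg, hs (by simp), hs (by simp)⟩
  · rintro ⟨g, hg, ha, hb⟩
    refine ⟨Finset.card_pair hab, g, hg, ?_⟩
    intro x hx
    rcases Finset.mem_insert.1 hx with rfl | hx
    · exact ha
    · rw [Finset.mem_singleton.1 hx]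
      exact hb

omit [Fintype V] in
private theorem kz_pair_sub {a b : V} {g : Finset V} : ({a, b} : Finset V) ⊆ g ↔ a ∈ g ∧ b ∈ g := by
  rw [Finset.insert_subset_iff, Finset.singleton_subset_iff]

/-- vertices and edges -/
private noncomputable def kzM1 (X : V → ℝ × ℝ) (h : V → ℝ) :
    Matrix V {ε // ε ∈ EE X h} (ZMod 2) :=
  Matrix.of fun v ε => if v ∈ ε.1 then 1 else 0

private theorem kzM1_entry (X : V → ℝ × ℝ) (h : V → ℝ) (v : V) (ε : {ε // ε ∈ EE X h}) :
    kzM1 X h v ε = if v ∈ ε.1 then 1 else 0 := rfl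

/-- edges and faces -/
private noncomputable def kzM2 (X : V → ℝ × ℝ) (h : V → ℝ) :
    Matrix {ε // ε ∈ EE X h} {g // g ∈ FF X h} (ZMod 2) :=
  Matrix.of fun ε g => if ε.1 ⊆ g.1 then 1 else 0

private theorem kzM2_entry (X : V → ℝ × ℝ) (h : V → ℝ) (ε : {ε // ε ∈ EE X h})
    (g : {g // g ∈ FF X h}) : kzM2 X h ε g = if ε.1 ⊆ g.1 then 1 else 0 := rfl

/-- the subset corresponding to a chain -/
private noncomputable def kzA {X : V → ℝ × ℝ} {h : V → ℝ} (x : {g // g ∈ FF X h} → ZMod 2) :
    Finset (Finset V) :=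
  (univ.filter fun g => x g ≠ 0).map (Function.Embedding.subtype _)

omit [DecidableEq V] in
private theorem kzA_sub {X : V → ℝ × ℝ} {h : V → ℝ} (x : {g // g ∈ FF X h} → ZMod 2) :
    kzA x ⊆ FF X h := by
  intro g hg
  obtain ⟨g', _, rfl⟩ := Finset.mem_map.1 hg
  exact g'.2

private theorem kzM2_apply {X : V → ℝ × ℝ} {h : V → ℝ} (x : {g // g ∈ FF X h} → ZMod 2)
    {a b : V} (hε : {a, b} ∈ EE X h) :
    (kzM2 X h).mulVec x ⟨{a, b}, hε⟩ = (((kzA x).filter fun g => a ∈ g ∧ b ∈ g).card : ZMod 2) := by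
  unfold kzA
  rw [Finset.filter_map, Finset.card_map, Finset.filter_filter]
  rw [← Finset.sum_boole]
  show ∑ g, kzM2 X h ⟨{a, b}, hε⟩ g * x g = _
  refine Finset.sum_congr rfl fun g _ => ?_
  rw [kzM2_entry]
  by_cases h1 : ({a, b} : Finset V) ⊆ g.1
  · rw [if_pos h1, one_mul]
    by_cases h2 : x g = 0
    · rw [if_neg, h2]
      rintro ⟨h3, -⟩
      exact h3 h2
    · rw [if_pos, kz_one h2]
      exact ⟨h2, kz_pair_sub.1 h1⟩
  · rw [if_neg h1, zero_mul, if_neg]
    rintro ⟨-, h3⟩
    exact h1 (kz_pair_sub.2 h3)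

private theorem kzM2_inj {r : Fin 3 → V} {X : V → ℝ × ℝ} {h : V → ℝ} (hN : NF r X h)
    (x : {g // g ∈ FF X h} → ZMod 2) (hx : (kzM2 X h).mulVec x = 0) : x = 0 := by
  have h1 : kzA x = ∅ := by
    refine nf_inj hN (kzA x) (kzA_sub x) fun a b hab => ?_
    by_cases hε : {a, b} ∈ EE X h
    · rw [← ZMod.natCast_eq_zero_iff_even, ← kzM2_apply x hε, hx]
      rfl
    · have h2 : ((kzA x).filter fun g => a ∈ g ∧ b ∈ g) = ∅ := by
        refine Finset.filter_eq_empty_iff.2 fun g hg hab' => ?_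
        exact hε ((kz_pair_mem hab).2 ⟨g, kzA_sub x hg, hab'⟩)
      rw [h2, Finset.card_empty]
      exact Even.zero
  funext g
  by_contra hg
  have h2 : g.1 ∈ kzA x :=
    Finset.mem_map.2 ⟨g, Finset.mem_filter.2 ⟨Finset.mem_univ _, hg⟩, rfl⟩
  rw [h1] at h2
  exact absurd h2 (Finset.notMem_empty _)

private theorem kz_comp {X : V → ℝ × ℝ} {h : V → ℝ} : kzM1 X h * kzM2 X h = 0 := by
  ext v g
  rw [Matrix.mul_apply, Matrix.zero_apply]
  have h1 : ∀ ε : {ε // ε ∈ EE X h}, kzM1 X h v ε * kzM2 X h ε g =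
      if v ∈ ε.1 ∧ ε.1 ⊆ g.1 then 1 else 0 := by
    intro ε
    rw [kzM1_entry, kzM2_entry]
    by_cases h2 : v ∈ ε.1
    · by_cases h3 : ε.1 ⊆ g.1
      · simp only [h2, h3, if_true, and_self, mul_one]
      · simp only [h2, h3, if_true, if_false, and_false, mul_zero]
    · simp only [h2, if_false, false_and, zero_mul]
  rw [Finset.sum_congr rfl fun ε _ => h1 ε, Finset.sum_boole]
  have h2 : (univ.filter fun ε : {ε // ε ∈ EE X h} => v ∈ ε.1 ∧ ε.1 ⊆ g.1).card =
      ((EE X h).filter fun ε => v ∈ ε ∧ ε ⊆ g.1).card := by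
    rw [← Finset.card_map (Function.Embedding.subtype _)]
    congr 1
    ext ε
    rw [Finset.mem_map, Finset.mem_filter]
    constructor
    · rintro ⟨ε', hε', rfl⟩
      exact ⟨ε'.2, (Finset.mem_filter.1 hε').2⟩
    · rintro ⟨h3, h4⟩
      exact ⟨⟨ε, h3⟩, Finset.mem_filter.2 ⟨Finset.mem_univ _, h4⟩, rfl⟩
  rw [h2]
  have h3 : ((EE X h).filter fun ε => v ∈ ε ∧ ε ⊆ g.1).card = 0 ∨
      ((EE X h).filter fun ε => v ∈ ε ∧ ε ⊆ g.1).card = 2 := by
    by_cases hv : v ∈ g.1
    · right
      have hc : (g.1.erase v).card = 2 := by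
        rw [Finset.card_erase_of_mem hv, kz_mem_FF g.2]
      obtain ⟨a, b, hab, he⟩ := Finset.card_eq_two.1 hc
      have ha : a ∈ g.1.erase v := by
        rw [he]
        simp
      have hb : b ∈ g.1.erase v := by
        rw [he]
        simp
      have hav : v ≠ a := (Finset.ne_of_mem_erase ha).symm
      have hbv : v ≠ b := (Finset.ne_of_mem_erase hb).symm
      have h4 : ((EE X h).filter fun ε => v ∈ ε ∧ ε ⊆ g.1) = {{v, a}, {v, b}} := by
        ext ε
        rw [Finset.mem_filter, Finset.mem_insert, Finset.mem_singleton]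
        constructor
        · rintro ⟨h5, h6, h7⟩
          have h8 : (ε.erase v).card = 1 := by
            rw [Finset.card_erase_of_mem h6, (kz_mem_EE.1 h5).1]
          obtain ⟨c, hc⟩ := Finset.card_eq_one.1 h8
          have h9 : ε = {v, c} := by
            rw [← Finset.insert_erase h6, hc]
          have h10 : c ∈ g.1.erase v := by
            have h11 : c ∈ ε.erase v := by
              rw [hc]
              simp
            exact Finset.erase_subset_erase v h7 h11
          rw [he] at h10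
          rcases Finset.mem_insert.1 h10 with rfl | h10
          · exact Or.inl h9
          · rw [Finset.mem_singleton.1 h10] at h9
            exact Or.inr h9
        · rintro (rfl | rfl)
          · exact ⟨(kz_pair_mem hav).2 ⟨g.1, g.2, hv, Finset.mem_of_mem_erase ha⟩, by simp,
              kz_pair_sub.2 ⟨hv, Finset.mem_of_mem_erase ha⟩⟩
          · exact ⟨(kz_pair_mem hbv).2 ⟨g.1, g.2, hv, Finset.mem_of_mem_erase hb⟩, by simp,
              kz_pair_sub.2 ⟨hv, Finset.mem_of_mem_erase hb⟩⟩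
      rw [h4]
      refine Finset.card_pair ?_
      intro h5
      have h6 : a ∈ ({v, b} : Finset V) := by
        rw [← h5]
        simp
      rcases Finset.mem_insert.1 h6 with h7 | h7
      · exact hav h7.symm
      · exact hab (Finset.mem_singleton.1 h7)
    · left
      rw [Finset.card_eq_zero]
      refine Finset.filter_eq_empty_iff.2 ?_
      rintro ε _ ⟨h4, h5⟩
      exact hv (h5 h4)
  rcases h3 with h3 | h3
  · rw [h3]
    rfl
  · rw [h3]
    rfl

private theorem kz_ker {r : Fin 3 → V} {X : V → ℝ × ℝ} {h : V → ℝ} (hN : NF r X h) :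
    Module.finrank (ZMod 2) (LinearMap.ker ((kzM1 X h).transpose.mulVecLin)) ≤ 1 := by
  have h1 : LinearMap.ker ((kzM1 X h).transpose.mulVecLin) ≤
      Submodule.span (ZMod 2) {fun _ : V => (1 : ZMod 2)} := by
    intro f hf
    rw [LinearMap.mem_ker, Matrix.mulVecLin_apply] at hf
    have h2 : ∀ a b, (∃ g ∈ FF X h, a ∈ g ∧ b ∈ g) → f a = f b := by
      intro a b hg
      by_cases hab : a = b
      · rw [hab]
      · have hε := (kz_pair_mem hab).2 hg
        have h3 := congrFun hf ⟨{a, b}, hε⟩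
        have h4 : (kzM1 X h).transpose.mulVec f ⟨{a, b}, hε⟩ = f a + f b := by
          show ∑ v, kzM1 X h v ⟨{a, b}, hε⟩ * f v = _
          simp only [kzM1_entry, ite_mul, one_mul, zero_mul]
          rw [← Finset.sum_filter]
          have h5 : (univ.filter fun v => v ∈ ({a, b} : Finset V)) = {a, b} := by
            ext v
            simp
          rw [h5, Finset.sum_pair hab]
        rw [h4] at h3
        exact kz_add h3
    rw [Submodule.mem_span_singleton]
    refine ⟨f (r 0), ?_⟩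
    funext v
    rw [Pi.smul_apply, smul_eq_mul, mul_one]
    exact graph_conn hN f h2 (r 0) v
  refine (Submodule.finrank_mono h1).trans ?_
  exact (finrank_span_le_card _).trans (by simp)

private theorem kz_dim {r : Fin 3 → V} {X : V → ℝ × ℝ} {h : V → ℝ} (hN : NF r X h) :
    Module.finrank (ZMod 2) (LinearMap.ker ((kzM1 X h).mulVecLin)) ≤ (FF X h).card := by
  have h1 := LinearMap.finrank_range_add_finrank_ker ((kzM1 X h).mulVecLin)
  have h2 := LinearMap.finrank_range_add_finrank_ker ((kzM1 X h).transpose.mulVecLin)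
  have h3 : Module.finrank (ZMod 2) (LinearMap.range ((kzM1 X h).transpose.mulVecLin)) =
      Module.finrank (ZMod 2) (LinearMap.range ((kzM1 X h).mulVecLin)) :=
    Matrix.rank_transpose (kzM1 X h)
  have h4 := kz_ker hN
  have h5 := ee_card hN
  have h6 := ff_card_le hN
  rw [Module.finrank_fintype_fun_eq_card, Fintype.card_coe] at h1
  rw [Module.finrank_fintype_fun_eq_card] at h2
  omega

private theorem kz_range {r : Fin 3 → V} {X : V → ℝ × ℝ} {h : V → ℝ} (hN : NF r X h) :
    LinearMap.range ((kzM2 X h).mulVecLin) = LinearMap.ker ((kzM1 X h).mulVecLin) := by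
  refine Submodule.eq_of_le_of_finrank_le ?_ ?_
  · rintro _ ⟨x, rfl⟩
    rw [LinearMap.mem_ker, Matrix.mulVecLin_apply, Matrix.mulVecLin_apply, Matrix.mulVec_mulVec,
      kz_comp, Matrix.zero_mulVec]
  · have h1 : Function.Injective ((kzM2 X h).mulVecLin) := by
      rw [injective_iff_map_eq_zero]
      intro x hx
      exact kzM2_inj hN x hx
    rw [LinearMap.finrank_range_of_inj h1, Module.finrank_fintype_fun_eq_card, Fintype.card_coe]
    exact kz_dim hN

theorem nf_Z {r : Fin 3 → V} {X : V → ℝ × ℝ} {h : V → ℝ} (hN : NF r X h) (E : V → V → Prop)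
    (hsym : ∀ a b, E a b → E b a) (hE : ∀ a b, E a b → a ≠ b ∧ ∃ g ∈ FF X h, a ∈ g ∧ b ∈ g)
    (hev : ∀ a, Even (Nat.card {b // E a b})) :
    ∃ A, A ⊆ FF X h ∧ ∀ a b, a ≠ b → (E a b ↔ Odd (A.filter fun g => a ∈ g ∧ b ∈ g).card) := by
  classical
  obtain ⟨c, hc⟩ : ∃ c : {ε // ε ∈ EE X h} → ZMod 2, c = fun ε =>
      if ∃ a b, ε.1 = {a, b} ∧ E a b then 1 else 0 := ⟨_, rfl⟩
  have hE' : ∀ a b, a ≠ b → ((∃ a' b', ({a, b} : Finset V) = {a', b'} ∧ E a' b') ↔ E a b) := by
    intro a b hab
    constructor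
    · rintro ⟨a', b', h1, h2⟩
      have h3 : a ∈ ({a', b'} : Finset V) := by
        rw [← h1]
        simp
      have h4 : b ∈ ({a', b'} : Finset V) := by
        rw [← h1]
        simp
      rw [Finset.mem_insert, Finset.mem_singleton] at h3 h4
      rcases h3 with rfl | rfl
      · rcases h4 with rfl | rfl
        · exact absurd rfl hab
        · exact h2
      · rcases h4 with rfl | rfl
        · exact hsym _ _ h2
        · exact absurd rfl hab
    · intro h1
      exact ⟨a, b, rfl, h1⟩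
  have hcab : ∀ a b (hab : a ≠ b) (hε : {a, b} ∈ EE X h), c ⟨{a, b}, hε⟩ = 1 ↔ E a b := by
    intro a b hab hε
    rw [hc, ← hE' a b hab]
    constructor
    · intro h1
      by_contra h2
      simp only [h2, if_false] at h1
      exact absurd h1 (by decide)
    · intro h1
      simp only [h1, if_true]
  have hker : (kzM1 X h).mulVec c = 0 := by
    funext v
    rw [Pi.zero_apply]
    have h1 : (kzM1 X h).mulVec c v =
        ((univ.filter fun ε : {ε // ε ∈ EE X h} => v ∈ ε.1 ∧ ∃ a b, ε.1 = {a, b} ∧ E a b).card :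
          ZMod 2) := by
      rw [← Finset.sum_boole]
      show ∑ ε, kzM1 X h v ε * c ε = _
      refine Finset.sum_congr rfl fun ε _ => ?_
      rw [kzM1_entry, hc]
      by_cases h2 : v ∈ ε.1
      · by_cases h3 : ∃ a b, ε.1 = {a, b} ∧ E a b
        · simp only [h2, h3, if_true, and_self, mul_one]
        · simp only [h2, h3, if_true, if_false, and_false, mul_zero]
      · simp only [h2, if_false, false_and, zero_mul]
    have h2 : (univ.filter fun ε : {ε // ε ∈ EE X h} => v ∈ ε.1 ∧
        ∃ a b, ε.1 = {a, b} ∧ E a b).card = Nat.card {b // E v b} := by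
      rw [Nat.card_eq_fintype_card, Fintype.card_subtype,
        ← Finset.card_map (Function.Embedding.subtype _)]
      have hinj : Set.InjOn (fun b : V => ({v, b} : Finset V)) (univ.filter fun b => E v b) := by
        intro b hb b' hb' hbb
        have hb1 := (Finset.mem_filter.1 hb).2
        have hb2 := (hE v b hb1).1
        have h3 : b ∈ ({v, b'} : Finset V) := by
          have h4 : ({v, b} : Finset V) = {v, b'} := hbb
          rw [← h4]
          simp
        rcases Finset.mem_insert.1 h3 with h4 | h4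
        · exact absurd h4.symm hb2
        · exact Finset.mem_singleton.1 h4
      rw [← Finset.card_image_of_injOn hinj]
      congr 1
      ext ε
      rw [Finset.mem_map, Finset.mem_image]
      constructor
      · rintro ⟨ε', hε', rfl⟩
        obtain ⟨h3, a, b, h4, h5⟩ := (Finset.mem_filter.1 hε').2
        have h6 : v = a ∨ v = b := by
          rw [h4] at h3
          simpa using h3
        rcases h6 with rfl | rfl
        · exact ⟨b, Finset.mem_filter.2 ⟨Finset.mem_univ _, h5⟩, h4.symm⟩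
        · refine ⟨a, Finset.mem_filter.2 ⟨Finset.mem_univ _, hsym _ _ h5⟩, ?_⟩
          rw [Finset.pair_comm]
          exact h4.symm
      · rintro ⟨b, hb, rfl⟩
        have hb1 := (Finset.mem_filter.1 hb).2
        obtain ⟨hb2, hb3⟩ := hE v b hb1
        exact ⟨⟨{v, b}, (kz_pair_mem hb2).2 hb3⟩, Finset.mem_filter.2 ⟨Finset.mem_univ _,
          by simp, v, b, rfl, hb1⟩, rfl⟩
    rw [h1, h2]
    exact (ZMod.natCast_eq_zero_iff_even).2 (hev v)
  have hmem : c ∈ LinearMap.range ((kzM2 X h).mulVecLin) := by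
    rw [kz_range hN]
    exact hker
  obtain ⟨x, hx⟩ := hmem
  rw [Matrix.mulVecLin_apply] at hx
  refine ⟨kzA x, kzA_sub x, fun a b hab => ?_⟩
  by_cases hε : {a, b} ∈ EE X h
  · rw [← ZMod.natCast_eq_one_iff_odd, ← kzM2_apply x hε, hx, hcab a b hab hε]
  · constructor
    · intro h1
      exact absurd ((kz_pair_mem hab).2 (hE a b h1).2) hε
    · intro h1
      exfalso
      obtain ⟨g, hg⟩ := Finset.card_pos.1 h1.pos
      obtain ⟨hg1, hg2⟩ := Finset.mem_filter.1 hg
      exact hε ((kz_pair_mem hab).2 ⟨g, kzA_sub x hg1, hg2⟩)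

theorem nf_atc {r : Fin 3 → V} {X : V → ℝ × ℝ} {h : V → ℝ} (hN : NF r X h) : ATC r (FF X h) := by
  exact ⟨hN.rinj, fun g hg => kz_mem_FF hg, nf_covered hN, faces_inner hN, faces_outer hN,
    nf_link hN, nf_inj hN, nf_Z hN⟩

end MP0e5907
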