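import Pool.Agent.Lib_MP_0e5907.KBase

/-!
# MP_0e5907, Stage B, part 4 - simplicial polytopes

`SimpP x`: the family `x : V → ℝ³` (coordinates `Fin 3 → ℝ`) is the vertex family of a simplicial 3-polytope, in terms of supporting planes.
-/

namespace MP0e5907

open Finset

/-- vertex family of a simplicial 3-polytope -/
structure SimpP {V : Type} [Fintype V] (x : V → Fin 3 → ℝ) : Prop where
  vert : ∀ v, Expo x {v}
  full : ∀ (a : Fin 3 → ℝ) (c : ℝ), (∀ v, ∑ j, a j * x v j = c) → a = 0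
  simp : ∀ (a : Fin 3 → ℝ) (c : ℝ), a ≠ 0 → (∀ v, ∑ j, a j * x v j ≤ c) → ∀ μ : V → ℝ,
    (∀ v, μ v ≠ 0 → ∑ j, a j * x v j = c) → ∑ v, μ v = 0 → (∀ j, ∑ v, μ v * x v j = 0) → μ = 0

end MP0e5907
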