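import Pool.Agent.Lib_MP_0e5907.LBase

/-!
# Piece LFACET: a simplicial 3-polytope has a triangular facet

Paper proof. Work with functionals `(a,c)`, slack `s_v = c - a·x_v`. A set `C` of vertices is the contact set of `(a,c)` if `s ≥ 0` with equality exactly on `C`.
* `contact_card`: `a ≠ 0`, `(a,c)` supporting: the contact set has at most three elements. If it had four, `v1..v4`, then the four vectors `(x_{v_i}, 1)` in `ℝ⁴` are linearly independent (a relation `∑ μ_i (x_{v_i},1) = 0` is zero by `simp`), so they span `ℝ⁴`, but `(a,-c) ≠ 0` is orthogonal to all of them. Contradiction.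
* Existence of supporting functionals with `a ≠ 0`: `vert` for some `v` (V is nonempty: by `full` with any `a ≠ 0`, otherwise vacuous): contact set `{v}`; `a ≠ 0`, as otherwise the slack is constant, the contact set would be everything, so `V = {v}`, contradicting `full` (`a = ` any vector, `c = a·x_v`).
* Choose `(a,c)` supporting, `a ≠ 0`, with contact set `C` of maximal cardinality; `C ≠ ∅`. Claim `|C| = 3`. Suppose `|C| ≤ 2`. The space of `(b,d) ∈ ℝ⁴` with `b·x_v = d` for all `v ∈ C` has dimension `≥ 2`, so it contains `(b,d)` not a multiple of `(a,c)`. Not all `v` satisfy `b·x_v = d` (else `b = 0` by `full`, then `d = 0`, a multiple). Replacing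
  `(b,d)` by its negative we may assume that `b·x_w > d` for some `w`. Let `t > 0` be the minimum of `s_w / (b·x_w - d)` over the `w` with `b·x_w > d` (these are not in `C`, `s_w > 0`). `(a',c') = (a,c) + t (b,d)` has slacks `s_v - t (b·x_v - d) ≥ 0`, zero on `C` and at the minimiser. `a' ≠ 0`: otherwise all slacks are equal to `c'`, and zero on `C ≠ ∅`, so
  `c' = 0` and `(a,c) = -t (b,d)`, `t ≠ 0`, contradiction to the choice of `(b,d)`. So `(a',c')` has a larger contact set. Contradiction.
* Write `C = {r 0, r 1, r 2}` with `r` injective.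
-/

namespace MP0e5907

open Finset

variable {V : Type} [Fintype V]

/-- the functional `(y,t) ↦ a·y - c t` -/
private noncomputable def lfn (a : Fin 3 → ℝ) (c : ℝ) : ((Fin 3 → ℝ) × ℝ) →ₗ[ℝ] ℝ where
  toFun p := ∑ j, a j * p.1 j - c * p.2
  map_add' p q := by
    simp only [Prod.fst_add, Prod.snd_add, Pi.add_apply, mul_add, Finset.sum_add_distrib]
    ring
  map_smul' r p := by
    simp only [Prod.smul_fst, Prod.smul_snd, Pi.smul_apply, smul_eq_mul, RingHom.id_apply, mul_sub, Finset.mul_sum]
    congr 1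
    · refine Finset.sum_congr rfl fun j _ => by ring
    · ring

private theorem lfn_apply (a : Fin 3 → ℝ) (c : ℝ) (p : (Fin 3 → ℝ) × ℝ) : lfn a c p = ∑ j, a j * p.1 j - c * p.2 := rfl

private theorem lfn_ker (a : Fin 3 → ℝ) (c : ℝ) (ha : a ≠ 0) : Module.finrank ℝ (LinearMap.ker (lfn a c)) = 3 := by
  have h1 := LinearMap.finrank_range_add_finrank_ker (lfn a c)
  have h2 : Module.finrank ℝ ((Fin 3 → ℝ) × ℝ) = 4 := by simp
  have h3 : LinearMap.range (lfn a c) = ⊤ := by
    rw [LinearMap.range_eq_top]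
    apply LinearMap.surjective
    intro h
    apply ha
    funext j
    have := congrArg (fun f => f (Pi.single j 1, 0)) h
    simpa [lfn_apply, Pi.single_apply] using this
  rw [h3, h2, finrank_top, Module.finrank_self] at h1
  omega

theorem contact_card {x : V → Fin 3 → ℝ} (hx : SimpP x) (a : Fin 3 → ℝ) (c : ℝ) (ha : a ≠ 0)
    (hs : ∀ v, ∑ j, a j * x v j ≤ c) (C : Finset V) (hC : ∀ v ∈ C, ∑ j, a j * x v j = c) : C.card ≤ 3 := by
  classical
  let y : C → LinearMap.ker (lfn a c) := fun v => ⟨(x v, 1), by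
    rw [LinearMap.mem_ker, lfn_apply]
    have := hC v.1 v.2
    simp only [mul_one]
    linarith⟩
  have hy : LinearIndependent ℝ y := by
    apply LinearIndependent.of_comp (LinearMap.ker (lfn a c)).subtype
    rw [Fintype.linearIndependent_iff]
    intro g hg
    have key := hx.simp a c ha hs (fun v => if h : v ∈ C then g ⟨v, h⟩ else 0) ?_ ?_ ?_
    · intro i
      have := congrFun key i.1
      simpa using this
    · intro v hv
      by_cases h : v ∈ C
      · exact hC v h
      · simp [h] at hv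
    · have h1 := congrArg Prod.snd hg
      simp only [Prod.snd_sum, Function.comp, Prod.snd_zero] at h1
      have h2 : ∑ v, (if h : v ∈ C then g ⟨v, h⟩ else 0) = ∑ v : C, g v := by
        rw [← Finset.sum_subset (Finset.subset_univ C) (by intro v _ hv; simp [hv]), ← Finset.sum_attach]
        refine Finset.sum_congr rfl fun v _ => by simp
      rw [h2, ← h1]
      refine Finset.sum_congr rfl fun v _ => by simp [y]
    · intro j
      have h1 := congrArg (fun p => p.1 j) hg
      simp only [Prod.fst_sum, Function.comp, Prod.fst_zero, Finset.sum_apply] at h1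
      have h2 : ∑ v, (if h : v ∈ C then g ⟨v, h⟩ else 0) * x v j = ∑ v : C, g v * x v j := by
        rw [← Finset.sum_subset (Finset.subset_univ C) (by intro v _ hv; simp [hv]), ← Finset.sum_attach]
        refine Finset.sum_congr rfl fun v _ => by simp
      rw [h2]
      refine Eq.trans ?_ h1
      refine Finset.sum_congr rfl fun v _ => by simp [y]
  have h := hy.fintype_card_le_finrank
  rw [lfn_ker a c ha, Fintype.card_coe] at h
  exact h

private theorem facet_step {x : V → Fin 3 → ℝ} (hx : SimpP x) (a : Fin 3 → ℝ) (c : ℝ) (ha : a ≠ 0)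
    (hs : ∀ v, ∑ j, a j * x v j ≤ c) (C : Finset V) (hC : ∀ v, v ∈ C ↔ ∑ j, a j * x v j = c) (hC1 : C.Nonempty)
    (hC2 : C.card ≤ 2) :
    ∃ (a' : Fin 3 → ℝ) (c' : ℝ) (C' : Finset V), a' ≠ 0 ∧ (∀ v, ∑ j, a' j * x v j ≤ c') ∧
      (∀ v, v ∈ C' ↔ ∑ j, a' j * x v j = c') ∧ C'.Nonempty ∧ C.card < C'.card := by
  classical
  obtain ⟨v0, hv0⟩ := hC1
  -- the space of functionals vanishing on C
  let Φ : ((Fin 3 → ℝ) × ℝ) →ₗ[ℝ] (C → ℝ) := LinearMap.pi fun v => (lfn (x v) 1)
  have hΦ : ∀ p v, Φ p v = ∑ j, p.1 j * x v.1 j - p.2 := by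
    intro p v
    simp only [Φ, LinearMap.pi_apply, lfn_apply, one_mul]
    congr 1
    exact Finset.sum_congr rfl fun j _ => mul_comm _ _
  have hker : 2 ≤ Module.finrank ℝ (LinearMap.ker Φ) := by
    have h1 := LinearMap.finrank_range_add_finrank_ker Φ
    have h2 : Module.finrank ℝ ((Fin 3 → ℝ) × ℝ) = 4 := by simp
    have h3 : Module.finrank ℝ (LinearMap.range Φ) ≤ 2 := by
      refine (Submodule.finrank_le _).trans ?_
      simpa using hC2
    omega
  have hex : ∃ p : (Fin 3 → ℝ) × ℝ, (∀ v ∈ C, ∑ j, p.1 j * x v j - p.2 = 0) ∧ ∀ r : ℝ, p ≠ r • (a, c) := by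
    by_contra hcon
    push Not at hcon
    have hle : LinearMap.ker Φ ≤ Submodule.span ℝ {((a, c) : (Fin 3 → ℝ) × ℝ)} := by
      intro p hp
      rw [LinearMap.mem_ker] at hp
      obtain ⟨r, hr⟩ := hcon p (fun v hv => by rw [← hΦ p ⟨v, hv⟩, hp]; rfl)
      rw [hr]
      exact Submodule.smul_mem _ _ (Submodule.mem_span_singleton_self _)
    have h4 := Submodule.finrank_mono hle
    have h5 := finrank_span_singleton (K := ℝ) (v := ((a, c) : (Fin 3 → ℝ) × ℝ)) (by
      intro h
      exact ha (congrArg Prod.fst h))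
    omega
  -- choose the sign
  have hex2 : ∃ (b : Fin 3 → ℝ) (d : ℝ), (∀ v ∈ C, ∑ j, b j * x v j = d) ∧ (∀ r : ℝ, (b, d) ≠ r • (a, c)) ∧
      ∃ w, d < ∑ j, b j * x w j := by
    obtain ⟨⟨b, d⟩, hp, hr⟩ := hex
    simp only at hp
    have hw : ∃ w, ∑ j, b j * x w j ≠ d := by
      by_contra hcon
      push Not at hcon
      have hb := hx.full b d hcon
      have hd : d = 0 := by
        rw [← hcon v0, hb]
        simp
      exact hr 0 (by rw [hb, hd]; simp)
    obtain ⟨w, hw⟩ := hw
    rcases lt_or_gt_of_ne hw with h | h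
    · refine ⟨-b, -d, ?_, ?_, w, ?_⟩
      · intro v hv
        have := hp v hv
        simp only [Pi.neg_apply, neg_mul, Finset.sum_neg_distrib]
        linarith
      · intro r hr'
        apply hr (-r)
        have : ((b, d) : (Fin 3 → ℝ) × ℝ) = -((-b, -d) : (Fin 3 → ℝ) × ℝ) := by simp
        rw [this, hr', neg_smul]
      · simp only [Pi.neg_apply, neg_mul, Finset.sum_neg_distrib]
        linarith
    · exact ⟨b, d, fun v hv => by linarith [hp v hv], hr, w, h⟩
  obtain ⟨b, d, hb1, hb2, w, hw⟩ := hex2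
  set W : Finset V := univ.filter fun v => d < ∑ j, b j * x v j with hWdef
  obtain ⟨w0, hw0, hmin⟩ := Finset.exists_min_image W (fun v => (c - ∑ j, a j * x v j) / (∑ j, b j * x v j - d)) ⟨w, by simp [hWdef, hw]⟩
  have hw0' : d < ∑ j, b j * x w0 j := by simpa [hWdef] using hw0
  set t : ℝ := (c - ∑ j, a j * x w0 j) / (∑ j, b j * x w0 j - d) with ht
  have hw0C : w0 ∉ C := by
    intro h
    have := hb1 w0 h
    linarith
  have hsw0 : ∑ j, a j * x w0 j < c := lt_of_le_of_ne (hs w0) fun h => hw0C ((hC w0).2 h)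
  have htpos : 0 < t := div_pos (by linarith) (by linarith)
  have hsum : ∀ v, ∑ j, (a + t • b) j * x v j = ∑ j, a j * x v j + t * ∑ j, b j * x v j := by
    intro v
    rw [Finset.mul_sum, ← Finset.sum_add_distrib]
    refine Finset.sum_congr rfl fun j _ => ?_
    simp only [Pi.add_apply, Pi.smul_apply, smul_eq_mul]
    ring
  have hC' : insert w0 C ⊆ univ.filter fun v => ∑ j, (a + t • b) j * x v j = c + t * d := by
    intro v hv
    rw [Finset.mem_insert] at hv
    simp only [Finset.mem_filter, Finset.mem_univ, true_and]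
    rw [hsum]
    rcases hv with rfl | hv
    · have h1 : ∑ j, b j * x v j - d ≠ 0 := by linarith
      have h2 : t * (∑ j, b j * x v j - d) = c - ∑ j, a j * x v j := by
        rw [ht]
        field_simp
      linarith
    · rw [hb1 v hv, (hC v).1 hv]
  refine ⟨a + t • b, c + t * d, univ.filter fun v => ∑ j, (a + t • b) j * x v j = c + t * d, ?_, ?_, ?_, ?_, ?_⟩
  · intro h0
    have h1 : ∑ j, (a + t • b) j * x v0 j = c + t * d := by
      have := hC' (Finset.mem_insert_of_mem hv0)
      simpa using this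
    rw [h0] at h1
    simp only [Pi.zero_apply, zero_mul, Finset.sum_const_zero] at h1
    apply hb2 (-t⁻¹)
    have htne : t ≠ 0 := htpos.ne'
    ext j
    · have h3 := congrFun h0 j
      simp only [Pi.add_apply, Pi.smul_apply, smul_eq_mul, Pi.zero_apply] at h3
      simp only [Prod.smul_mk, Pi.smul_apply, smul_eq_mul]
      have : a j = - (t * b j) := by linarith
      rw [this]
      field_simp
    · simp only [Prod.smul_mk, smul_eq_mul]
      have : c = - (t * d) := by linarith
      rw [this]
      field_simp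
  · intro v
    rw [hsum]
    by_cases hv : d < ∑ j, b j * x v j
    · have h1 := hmin v (by simp [hWdef, hv])
      have h2 : 0 < ∑ j, b j * x v j - d := by linarith
      have h3 : t * (∑ j, b j * x v j - d) ≤ c - ∑ j, a j * x v j := by
        rw [← le_div_iff₀ h2]
        exact h1
      linarith
    · push Not at hv
      have h1 : t * (∑ j, b j * x v j) ≤ t * d := mul_le_mul_of_nonneg_left hv htpos.le
      linarith [hs v]
  · intro v
    simp
  · exact ⟨w0, hC' (Finset.mem_insert_self _ _)⟩
  · have h1 := Finset.card_le_card hC'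
    rw [Finset.card_insert_of_notMem hw0C] at h1
    omega

theorem facet_exists {x : V → Fin 3 → ℝ} (hx : SimpP x) :
    ∃ (a : Fin 3 → ℝ) (c : ℝ) (r : Fin 3 → V), a ≠ 0 ∧ Function.Injective r ∧ (∀ v, ∑ j, a j * x v j ≤ c) ∧
      ∀ v, (∑ j, a j * x v j = c ↔ ∃ i, v = r i) := by
  classical
  have hV : Nonempty V := by
    by_contra hcon
    rw [not_nonempty_iff] at hcon
    have := hx.full (fun _ => 1) 0 (fun v => (hcon.false v).elim)
    exact one_ne_zero (congrFun this 0)
  obtain ⟨v0⟩ := hV
  have h0 : ∃ (a : Fin 3 → ℝ) (c : ℝ) (C : Finset V), a ≠ 0 ∧ (∀ v, ∑ j, a j * x v j ≤ c) ∧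
      (∀ v, v ∈ C ↔ ∑ j, a j * x v j = c) ∧ C.Nonempty ∧ 1 ≤ C.card := by
    obtain ⟨a, c, h⟩ := hx.vert v0
    refine ⟨a, c, {v0}, ?_, fun v => (h v).1, ?_, ⟨v0, by simp⟩, by simp⟩
    · intro ha
      have hall : ∀ v, v = v0 := by
        intro v
        have h1 := (h v0).2.2 rfl
        have h2 := (h v).2.1 (by
          rw [ha] at h1 ⊢
          simpa using h1)
        exact h2
      have := hx.full (fun _ => 1) (∑ j, 1 * x v0 j) (fun v => by rw [hall v])
      exact one_ne_zero (congrFun this 0)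
    · intro v
      rw [(h v).2]
      simp
  have hstep : ∀ k : ℕ, k ≤ 2 → ∃ (a : Fin 3 → ℝ) (c : ℝ) (C : Finset V), a ≠ 0 ∧ (∀ v, ∑ j, a j * x v j ≤ c) ∧
      (∀ v, v ∈ C ↔ ∑ j, a j * x v j = c) ∧ C.Nonempty ∧ k + 1 ≤ C.card := by
    intro k
    induction k with
    | zero => intro _; simpa using h0
    | succ k ih =>
      intro hk
      obtain ⟨a, c, C, ha, hs, hC, hC1, hC2⟩ := ih (by omega)
      by_cases h : C.card ≤ 2
      · obtain ⟨a', c', C', h1, h2, h3, h4, h5⟩ := facet_step hx a c ha hs C hC hC1 h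
        exact ⟨a', c', C', h1, h2, h3, h4, by omega⟩
      · exact ⟨a, c, C, ha, hs, hC, hC1, by omega⟩
  obtain ⟨a, c, C, ha, hs, hC, -, hC2⟩ := hstep 2 le_rfl
  have hC3 := contact_card hx a c ha hs C (fun v hv => (hC v).1 hv)
  have hcard : C.card = 3 := by omega
  let e := (C.equivFinOfCardEq hcard).symm
  refine ⟨a, c, fun i => (e i : V), ha, ?_, hs, ?_⟩
  · intro i j hij
    exact e.injective (Subtype.ext hij)
  · intro v
    rw [← hC v]
    constructor
    · intro hv
      exact ⟨e.symm ⟨v, hv⟩, by simp⟩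
    · rintro ⟨i, rfl⟩
      exact (e i).2

end MP0e5907
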