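import Pool.Agent.Lib_MP_0e5907.LFacet

/-!
# Piece LNF: a simplicial 3-polytope has a planar normal form (projective transformation)

Paper proof. Homogeneous vectors `x̂_v = (x_v, 1) ∈ ℝ⁴` (`Fin 4 → ℝ` or `(Fin 3 → ℝ) × ℝ`). Take `a, c, r` from `facet_exists`, slack `s_v = c - a·x_v ≥ 0`, zero exactly at the `r i`. There is `v0` that is not an `r i` (otherwise all `x_v` are in the plane `a·x = c`, contradicting `full`), `s̄ = s_{v0} > 0`.
The vectors `x̂_{r 0}, x̂_{r 1}, x̂_{r 2}` are linearly independent (`simp` for `(a,c)`), so there are linear functionals `L_i` on `ℝ⁴` with `L_i (x̂_{r j}) = δ_ij` (they do not depend on `δ` below). For `δ > 0` let `Ô = (1+δ) ĉ0 - δ x̂_{v0}`, `ĉ0 = (1/3) ∑ x̂_{r i}` (its last coordinate is `1`). The functional `A0 = (a,-c)` has `A0 (x̂_{r i}) = 0`,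
`A0 (Ô) = δ s̄ > 0`, `A0 (x̂_v) = -s_v`. So `x̂_{r 0}, x̂_{r 1}, x̂_{r 2}, Ô` is a basis of `ℝ⁴`. Write `x̂_v = ∑ α_i(v) x̂_{r i} + β(v) Ô`. Last coordinates: `∑ α_i(v) + β(v) = 1`. Applying `A0`: `β(v) = - s_v / (δ s̄)`: `0` at the `r i` and negative otherwise; `σ(v) = ∑ α_i(v) = 1 - β(v) ≥ 1`. Applying `L_i`:
`α_i(v) = L_i (x̂_v) - β(v) L_i(Ô) = L_i (x̂_v) + (s_v/(δ s̄)) ((1+δ)/3 - δ L_i (x̂_{v0}))`, which tends to `+∞` as `δ → 0+` for `v ≠ r j`: choose `δ` so small that `α_i(v) > 0` for all these (finitely many) `v` and all `i`. At `v = r j`: `α_i = δ_ij`, `β = 0`.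
Put `X v = (α_1/σ, α_2/σ)`, `h v = β/σ`.
Exposed sets: for a functional `A` on `ℝ⁴`, `A (x̂_v) = σ(v) (ev m (X v) + μ h v)` where `m = (A_1 - A_0, A_2 - A_0, A_0)`, `A_i = A (x̂_{r i})`, `μ = A (Ô)` (as `α_0/σ = 1 - X.1 - X.2`). The map `A ↦ (m, μ)` is a bijection (basis). `Expo x S` says: there is `A = (a',-c')` with `A (x̂_v) ≤ 0` and equality iff `v ∈ S`. This gives the equivalence (for all `S`).
`NF`: `rinj`, `X0, X1, X2, hr`: clear. `pos`: `α_i > 0`. `neg`: `β < 0`. Let `m` satisfy `ev m (X v) ≤ h v` for all `v`, with contact set `C`; let `A` correspond to `(m, -1)`, `A = (a',-c')`: `A (x̂_v) = σ (ev m (X v) - h v) ≤ 0` with equality exactly on `C`. If `C ≠ ∅` then `a' ≠ 0`: otherwise `A (x̂_v) = -c'` is constant, zero on `C`, so `A = 0`, but `A (Ô) = -1`. `card3`: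
`contact_card` (for `S = ∅` trivial). `indep`: let `u, v, w` be distinct contact points with `ar (X u) (X v) (X w) = 0`: there are `κ_u, κ_v, κ_w`, not all zero, with sum `0` and `κ_u X u + κ_v X v + κ_w X w = 0` (affine dependence in the plane); as `h = ev m ∘ X` on the contact set, also `∑ κ h = 0`. So `∑ (κ/σ) x̂ = ∑ κ (∑_i (α_i/σ) x̂_{r i} + h Ô) = 0`, i.e.
`∑ κ/σ = 0` and `∑ (κ/σ) x = 0`; by `simp` for `(a',c')` all `κ/σ = 0`. Contradiction. `expo` for `v`: if `v = r i`: `ev m P = -t (1 - lam_i P)`, `lam_0 = 1 - x - y`, `lam_1 = x`, `lam_2 = y`: zero at `X v`, `1 - lam_i (X w) > 0` for `w ≠ v`; choose `t` with `-t (1 - lam_i (X w)) < h w` for all `w ≠ v`. If `v` is not an `r i`: `vert v` gives `(m, μ)` with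
`ev m (X w) + μ h w ≤ 0`, equality iff `w = v`. If `μ < 0`: divide by `-μ`. `μ ≥ 0` is impossible: `X v = ∑ λ_j X (r j)`, `λ_j > 0`, `ev m (X (r j)) < 0` (`r j ≠ v`, `h (r j) = 0`), so `ev m (X v) + μ h v < 0`.
-/

namespace MP0e5907

open Finset

variable {V : Type} [Fintype V] [DecidableEq V]

/-- linear algebra: coordinates with respect to three facet vertices and one more vertex -/
theorem lnf_basis {x : V → Fin 3 → ℝ} (hx : SimpP x) {a : Fin 3 → ℝ} {c : ℝ} {r : Fin 3 → V}
    (ha : a ≠ 0) (hr : Function.Injective r) (hs : ∀ v, ∑ j, a j * x v j ≤ c)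
    (hc : ∀ v, (∑ j, a j * x v j = c ↔ ∃ i, v = r i)) (v0 : V) (hv0 : ∀ i, v0 ≠ r i) :
    ∃ (L : V → Fin 3 → ℝ) (κ : V → ℝ), (∀ v, 0 ≤ κ v) ∧ (∀ v, (κ v = 0 ↔ ∃ i, v = r i)) ∧
      (∀ i j, L (r j) i = if i = j then 1 else 0) ∧ (∀ v, ∑ i, L v i + κ v = 1) ∧
      (∀ v j, x v j = ∑ i, L v i * x (r i) j + κ v * x v0 j) ∧
      (∀ (y : Fin 3 → ℝ) (y0 : ℝ), ∃ (b : Fin 3 → ℝ) (d : ℝ),
        (∀ i, ∑ j, b j * x (r i) j - d = y i) ∧ ∑ j, b j * x v0 j - d = y0) := by
  have hs0 : 0 < c - ∑ j, a j * x v0 j := by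
    have h1 := lt_of_le_of_ne (hs v0) (fun h => by
      obtain ⟨i, hi⟩ := (hc v0).1 h
      exact hv0 i hi)
    linarith
  let xh : V → (Fin 3 → ℝ) × ℝ := fun v => (x v, 1)
  let fam : Option (Fin 3) → (Fin 3 → ℝ) × ℝ := fun o => xh (o.elim v0 r)
  have fst_eq : ∀ (g : Option (Fin 3) → ℝ) (j : Fin 3), (∑ o, g o • fam o).1 j =
      g none * x v0 j + ∑ i, g (some i) * x (r i) j := by
    intro g j
    rw [Fintype.sum_option]
    simp only [Prod.fst_add, Prod.fst_sum, Pi.add_apply, Finset.sum_apply]
    rfl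
  have snd_eq : ∀ (g : Option (Fin 3) → ℝ), (∑ o, g o • fam o).2 = g none + ∑ i, g (some i) := by
    intro g
    rw [Fintype.sum_option]
    simp only [Prod.snd_add, Prod.snd_sum]
    have h1 : ∀ o, (g o • fam o).2 = g o := fun o => mul_one _
    simp only [h1]
  have hri : ∀ i, ∑ j, a j * x (r i) j = c := fun i => (hc (r i)).2 ⟨i, rfl⟩
  -- value of the facet functional
  have A0 : ∀ (g : Option (Fin 3) → ℝ), ∑ j, a j * (g none * x v0 j + ∑ i, g (some i) * x (r i) j)
      - c * (g none + ∑ i, g (some i)) = - g none * (c - ∑ j, a j * x v0 j) := by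
    intro g
    have h1 : ∑ j, a j * (g none * x v0 j + ∑ i, g (some i) * x (r i) j) =
        g none * ∑ j, a j * x v0 j + ∑ i, g (some i) * c := by
      simp only [mul_add, Finset.sum_add_distrib, Finset.mul_sum]
      congr 1
      · refine Finset.sum_congr rfl fun j _ => by ring
      · rw [Finset.sum_comm]
        refine Finset.sum_congr rfl fun i _ => ?_
        rw [← hri i, Finset.mul_sum]
        refine Finset.sum_congr rfl fun j _ => by ring
    rw [h1, ← Finset.sum_mul]
    ring
  have hli : LinearIndependent ℝ fam := by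
    rw [Fintype.linearIndependent_iff]
    intro g hg
    have hf : ∀ j, g none * x v0 j + ∑ i, g (some i) * x (r i) j = 0 := by
      intro j
      rw [← fst_eq, hg]
      rfl
    have hsn : g none + ∑ i, g (some i) = 0 := by
      rw [← snd_eq, hg]
      rfl
    have hn : g none = 0 := by
      have h1 := A0 g
      simp only [hf, hsn, mul_zero, Finset.sum_const_zero, sub_zero] at h1
      have h2 : g none * (c - ∑ j, a j * x v0 j) = 0 := by linarith
      rcases mul_eq_zero.1 h2 with h3 | h3
      · exact h3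
      · exact absurd h3 hs0.ne'
    have hmu := hx.simp a c ha hs (fun v => ∑ i, if v = r i then g (some i) else 0) ?_ ?_ ?_
    · intro o
      rcases o with _ | i
      · exact hn
      · have h1 := congrFun hmu (r i)
        simp only [Pi.zero_apply] at h1
        rw [Finset.sum_eq_single i] at h1
        · rw [if_pos rfl] at h1
          exact h1
        · intro l _ hl
          rw [if_neg]
          intro h2
          exact hl (hr h2).symm
        · intro h2
          exact absurd (Finset.mem_univ i) h2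
    · intro v hv
      rw [hc v]
      by_contra hcon
      push Not at hcon
      apply hv
      refine Finset.sum_eq_zero fun i _ => ?_
      rw [if_neg (hcon i)]
    · rw [Finset.sum_comm]
      simp only [Finset.sum_ite_eq', Finset.mem_univ, if_true]
      linarith
    · intro j
      have h1 := hf j
      rw [hn, zero_mul, zero_add] at h1
      refine Eq.trans ?_ h1
      simp only [Finset.sum_mul, ite_mul, zero_mul]
      rw [Finset.sum_comm]
      simp only [Finset.sum_ite_eq', Finset.mem_univ, if_true]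
  have hcard : Fintype.card (Option (Fin 3)) = Module.finrank ℝ ((Fin 3 → ℝ) × ℝ) := by simp
  let B := basisOfLinearIndependentOfCardEqFinrank hli hcard
  have hB : ∀ o, B o = fam o := fun o => by
    rw [coe_basisOfLinearIndependentOfCardEqFinrank]
  have hrep : ∀ v, ∑ o, B.repr (xh v) o • fam o = xh v := by
    intro v
    have h1 := B.sum_repr (xh v)
    simp only [hB] at h1
    exact h1
  have h1 : ∀ v j, x v j = B.repr (xh v) none * x v0 j + ∑ i, B.repr (xh v) (some i) * x (r i) j := by
    intro v j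
    rw [← fst_eq (fun o => B.repr (xh v) o), hrep]
  have h2 : ∀ v, 1 = B.repr (xh v) none + ∑ i, B.repr (xh v) (some i) := by
    intro v
    rw [← snd_eq (fun o => B.repr (xh v) o), hrep]
  have hκ : ∀ v, c - ∑ j, a j * x v j = B.repr (xh v) none * (c - ∑ j, a j * x v0 j) := by
    intro v
    have h3 := A0 (fun o => B.repr (xh v) o)
    simp only [← h1, ← h2] at h3
    linarith
  refine ⟨fun v i => B.repr (xh v) (some i), fun v => B.repr (xh v) none, ?_, ?_, ?_, ?_, ?_, ?_⟩
  · intro v
    have h3 := hκ v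
    have h4 := hs v
    by_contra hcon
    push Not at hcon
    have h5 := mul_neg_of_neg_of_pos hcon hs0
    linarith
  · intro v
    have h3 := hκ v
    rw [← hc v]
    change B.repr (xh v) none = 0 ↔ _
    constructor
    · intro h4
      rw [h4, zero_mul] at h3
      linarith
    · intro h4
      rw [h4, sub_self] at h3
      rcases mul_eq_zero.1 h3.symm with h5 | h5
      · exact h5
      · exact absurd h5 hs0.ne'
  · intro i j
    have h3 : xh (r j) = B (some j) := (hB (some j)).symm
    change B.repr (xh (r j)) (some i) = _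
    rw [h3, Module.Basis.repr_self, Finsupp.single_apply]
    by_cases hij : i = j
    · subst hij
      simp
    · rw [if_neg hij, if_neg]
      intro h4
      exact hij (Option.some_injective _ h4).symm
  · intro v
    have h3 := h2 v
    change ∑ i, B.repr (xh v) (some i) + B.repr (xh v) none = 1
    linarith
  · intro v j
    have h3 := h1 v j
    change x v j = ∑ i, B.repr (xh v) (some i) * x (r i) j + B.repr (xh v) none * x v0 j
    linarith
  · intro y y0
    let φ : ((Fin 3 → ℝ) × ℝ) →ₗ[ℝ] ℝ := B.constr ℝ (fun o : Option (Fin 3) => o.elim y0 y)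
    have hφ : ∀ o, φ (fam o) = o.elim y0 y := by
      intro o
      rw [← hB o]
      exact B.constr_basis ℝ _ o
    have hφ2 : ∀ v, φ (xh v) = ∑ j, φ (Pi.single j 1, 0) * x v j - (-φ (0, 1)) := by
      intro v
      have h3 : xh v = ∑ j, x v j • ((Pi.single j 1, 0) : (Fin 3 → ℝ) × ℝ) + ((0, 1) : (Fin 3 → ℝ) × ℝ) := by
        refine Prod.ext ?_ ?_
        · funext l
          simp only [Prod.fst_add, Prod.fst_sum, Prod.smul_mk, Pi.add_apply, Finset.sum_apply,
            Pi.smul_apply, smul_eq_mul, Pi.zero_apply, add_zero]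
          rw [Finset.sum_eq_single l]
          · rw [Pi.single_eq_same, mul_one]
          · intro j _ hj
            rw [Pi.single_eq_of_ne (Ne.symm hj), mul_zero]
          · intro h4
            exact absurd (Finset.mem_univ l) h4
        · simp only [Prod.snd_add, Prod.snd_sum, Prod.smul_mk, smul_zero, Finset.sum_const_zero,
            zero_add]
          rfl
      rw [h3, map_add, map_sum, sub_neg_eq_add]
      congr 1
      refine Finset.sum_congr rfl fun j _ => ?_
      rw [map_smul, smul_eq_mul, mul_comm]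
    refine ⟨fun j => φ (Pi.single j 1, 0), -φ (0, 1), ?_, ?_⟩
    · intro i
      rw [← hφ2 (r i)]
      exact hφ (some i)
    · rw [← hφ2 v0]
      exact hφ none

theorem to_nf {x : V → Fin 3 → ℝ} (hx : SimpP x) :
    ∃ (r : Fin 3 → V) (X : V → ℝ × ℝ) (h : V → ℝ), NF r X h ∧ (∃ v, ∀ i, v ≠ r i) ∧
      ∀ S : Set V, Expo x S ↔
        ∃ (m : ℝ × ℝ × ℝ) (μ : ℝ), ∀ v, ev m (X v) + μ * h v ≤ 0 ∧ (ev m (X v) + μ * h v = 0 ↔ v ∈ S) := by
  obtain ⟨a, c, r, ha, hr, hs, hc⟩ := facet_exists hx
  obtain ⟨v0, hv0⟩ : ∃ v, ∀ i, v ≠ r i := by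
    by_contra hcon
    push Not at hcon
    exact ha (hx.full a c fun v => (hc v).2 (hcon v))
  obtain ⟨L, κ, hκ0, hκ, hL, hsum, hxL, hsurj⟩ := lnf_basis hx ha hr hs hc v0 hv0
  have hκpos : ∀ v, (∀ i, v ≠ r i) → 0 < κ v := by
    intro v hv
    refine lt_of_le_of_ne (hκ0 v) fun h => ?_
    obtain ⟨i, hi⟩ := (hκ v).1 h.symm
    exact hv i hi
  -- the parameter
  obtain ⟨τ, hτ1, hτ⟩ : ∃ τ : ℝ, 1 ≤ τ ∧ ∀ v, (∀ i, v ≠ r i) → ∀ i, 0 < L v i + τ * κ v := by
    refine ⟨1 + ∑ v, ∑ i, |L v i / κ v|, ?_, ?_⟩
    · have : 0 ≤ ∑ v, ∑ i, |L v i / κ v| :=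
        Finset.sum_nonneg fun v _ => Finset.sum_nonneg fun i _ => abs_nonneg _
      linarith
    · intro v hv i
      have hk := hκpos v hv
      have h1 : |L v i / κ v| ≤ ∑ v, ∑ i, |L v i / κ v| := by
        refine le_trans ?_ (Finset.single_le_sum (f := fun v => ∑ i, |L v i / κ v|)
          (fun v _ => Finset.sum_nonneg fun i _ => abs_nonneg _) (Finset.mem_univ v))
        exact Finset.single_le_sum (f := fun i => |L v i / κ v|) (fun i _ => abs_nonneg _)
          (Finset.mem_univ i)
      have h2 : |L v i / κ v| * κ v = |L v i| := by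
        rw [abs_div, abs_of_pos hk]
        field_simp
      have h3 : |L v i| ≤ (∑ v, ∑ i, |L v i / κ v|) * κ v := by
        rw [← h2]
        exact mul_le_mul_of_nonneg_right h1 hk.le
      have h4 := neg_abs_le (L v i)
      nlinarith
  -- the coordinates
  set al : V → Fin 3 → ℝ := fun v i => L v i + τ * κ v with hal
  set be : V → ℝ := fun v => -(κ v * (3 * τ - 1)) with hbe
  set sg : V → ℝ := fun v => al v 0 + al v 1 + al v 2 with hsg
  have hsum3 : ∀ v, L v 0 + L v 1 + L v 2 + κ v = 1 := by
    intro v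
    have h1 := hsum v
    rw [Fin.sum_univ_three] at h1
    exact h1
  have hsgbe : ∀ v, sg v = 1 - be v := by
    intro v
    have h1 := hsum3 v
    simp only [hsg, hal, hbe]
    linarith
  have hsgpos : ∀ v, 0 < sg v := by
    intro v
    rw [hsgbe v]
    have h1 : 0 ≤ κ v * (3 * τ - 1) := mul_nonneg (hκ0 v) (by linarith)
    simp only [hbe]
    linarith
  set X : V → ℝ × ℝ := fun v => (al v 1 / sg v, al v 2 / sg v) with hX
  set h : V → ℝ := fun v => be v / sg v with hh
  -- functionals
  have key : ∀ (m : ℝ × ℝ × ℝ) (μ : ℝ) (b : Fin 3 → ℝ) (d : ℝ),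
      (∑ j, b j * x (r 0) j - d = m.2.2) → (∑ j, b j * x (r 1) j - d = m.1 + m.2.2) →
      (∑ j, b j * x (r 2) j - d = m.2.1 + m.2.2) →
      (∑ j, b j * x v0 j - d = τ * (m.1 + m.2.1 + 3 * m.2.2) - (3 * τ - 1) * μ) →
      ∀ v, ∑ j, b j * x v j - d = sg v * (ev m (X v) + μ * h v) := by
    intro m μ b d e0 e1 e2 e3 v
    have h1 : ∑ j, b j * x v j = L v 0 * ∑ j, b j * x (r 0) j + L v 1 * ∑ j, b j * x (r 1) j +
        L v 2 * ∑ j, b j * x (r 2) j + κ v * ∑ j, b j * x v0 j := by
      simp only [Finset.mul_sum, ← Finset.sum_add_distrib]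
      refine Finset.sum_congr rfl fun j _ => ?_
      rw [hxL v j, Fin.sum_univ_three]
      ring
    have h2 : sg v * (ev m (X v) + μ * h v) =
        m.1 * al v 1 + m.2.1 * al v 2 + m.2.2 * sg v + μ * be v := by
      have h3 := (hsgpos v).ne'
      simp only [ev, hX, hh]
      field_simp
    rw [h1, h2]
    have f0 : ∑ j, b j * x (r 0) j = m.2.2 + d := by linarith
    have f1 : ∑ j, b j * x (r 1) j = m.1 + m.2.2 + d := by linarith
    have f2 : ∑ j, b j * x (r 2) j = m.2.1 + m.2.2 + d := by linarith
    have f3 : ∑ j, b j * x v0 j = τ * (m.1 + m.2.1 + 3 * m.2.2) - (3 * τ - 1) * μ + d := by linarith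
    rw [f0, f1, f2, f3]
    have h4 : L v 0 = 1 - L v 1 - L v 2 - κ v := by
      have := hsum3 v
      linarith
    simp only [hsg, hal, hbe]
    rw [h4]
    ring
  have key1 : ∀ (b : Fin 3 → ℝ) (d : ℝ), ∃ (m : ℝ × ℝ × ℝ) (μ : ℝ),
      ∀ v, ∑ j, b j * x v j - d = sg v * (ev m (X v) + μ * h v) := by
    intro b d
    have h3 : (3 * τ - 1) ≠ 0 := by
      have : 0 < 3 * τ - 1 := by linarith
      exact this.ne'
    refine ⟨(∑ j, b j * x (r 1) j - ∑ j, b j * x (r 0) j, ∑ j, b j * x (r 2) j - ∑ j, b j * x (r 0) j,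
      ∑ j, b j * x (r 0) j - d), (τ * (∑ j, b j * x (r 0) j + ∑ j, b j * x (r 1) j +
        ∑ j, b j * x (r 2) j - 3 * d) - (∑ j, b j * x v0 j - d)) / (3 * τ - 1), ?_⟩
    apply key
    · rfl
    · ring
    · ring
    · rw [mul_div_cancel₀ _ h3]
      ring
  have key2 : ∀ (m : ℝ × ℝ × ℝ) (μ : ℝ), ∃ (b : Fin 3 → ℝ) (d : ℝ),
      (∑ j, b j * x v0 j - d = τ * (m.1 + m.2.1 + 3 * m.2.2) - (3 * τ - 1) * μ) ∧
      (∑ j, b j * x (r 0) j - d = m.2.2) ∧ (∑ j, b j * x (r 1) j - d = m.1 + m.2.2) ∧
      (∑ j, b j * x (r 2) j - d = m.2.1 + m.2.2) ∧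
      ∀ v, ∑ j, b j * x v j - d = sg v * (ev m (X v) + μ * h v) := by
    intro m μ
    obtain ⟨b, d, h1, h2⟩ := hsurj ![m.2.2, m.1 + m.2.2, m.2.1 + m.2.2]
      (τ * (m.1 + m.2.1 + 3 * m.2.2) - (3 * τ - 1) * μ)
    have e0 : ∑ j, b j * x (r 0) j - d = m.2.2 := h1 0
    have e1 : ∑ j, b j * x (r 1) j - d = m.1 + m.2.2 := h1 1
    have e2 : ∑ j, b j * x (r 2) j - d = m.2.1 + m.2.2 := h1 2
    exact ⟨b, d, h2, e0, e1, e2, key m μ b d e0 e1 e2 h2⟩
  -- functionals with a contact
  have key3 : ∀ m : ℝ × ℝ × ℝ, (∀ v, ev m (X v) ≤ h v) → ∀ u, ev m (X u) = h u →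
      ∃ (b : Fin 3 → ℝ) (d : ℝ), b ≠ 0 ∧ (∀ v, ∑ j, b j * x v j ≤ d) ∧
        ∀ v, ev m (X v) = h v → ∑ j, b j * x v j = d := by
    intro m hm u hu
    obtain ⟨b, d, g3, g0, g1, g2, hb⟩ := key2 m (-1)
    refine ⟨b, d, ?_, ?_, ?_⟩
    · intro hb0
      have h1 := hb u
      rw [hu] at h1
      have h2 : sg u * (h u + -1 * h u) = 0 := by ring
      rw [h2, hb0] at h1
      simp only [Pi.zero_apply, zero_mul, Finset.sum_const_zero] at h1
      rw [hb0] at g0 g1 g2 g3
      simp only [Pi.zero_apply, zero_mul, Finset.sum_const_zero] at g0 g1 g2 g3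
      have h5 : m.2.2 = 0 := by linarith
      have h6 : m.1 = 0 := by linarith
      have h7 : m.2.1 = 0 := by linarith
      rw [h5, h6, h7] at g3
      linarith
    · intro v
      have h1 := hb v
      have h2 : sg v * (ev m (X v) + -1 * h v) ≤ 0 :=
        mul_nonpos_of_nonneg_of_nonpos (hsgpos v).le (by linarith [hm v])
      linarith
    · intro v hv
      have h1 := hb v
      rw [hv] at h1
      have h2 : sg v * (h v + -1 * h v) = 0 := by ring
      linarith
  -- values at the roots
  have hκr : ∀ i, κ (r i) = 0 := fun i => (hκ _).2 ⟨i, rfl⟩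
  have hber : ∀ i, be (r i) = 0 := by
    intro i
    simp only [hbe, hκr i]
    ring
  have hsgr : ∀ i, sg (r i) = 1 := by
    intro i
    rw [hsgbe, hber, sub_zero]
  have halr : ∀ i j, al (r j) i = if i = j then 1 else 0 := by
    intro i j
    simp only [hal, hκr j, hL]
    ring
  have d10 : (1 : Fin 3) ≠ 0 := by decide
  have d20 : (2 : Fin 3) ≠ 0 := by decide
  have d12 : (1 : Fin 3) ≠ 2 := by decide
  have d21 : (2 : Fin 3) ≠ 1 := by decide
  have hX0 : X (r 0) = (0, 0) := by
    simp only [hX, halr, hsgr, if_neg d10, if_neg d20, div_one]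
  have hX1 : X (r 1) = (1, 0) := by
    simp only [hX, halr, hsgr, if_neg d21, if_true, div_one]
  have hX2 : X (r 2) = (0, 1) := by
    simp only [hX, halr, hsgr, if_neg d12, if_true, div_one]
  have hhr : ∀ i, h (r i) = 0 := by
    intro i
    simp only [hh, hber, zero_div]
  have hpos : ∀ v, (∀ i, v ≠ r i) → 0 < (X v).1 ∧ 0 < (X v).2 ∧ (X v).1 + (X v).2 < 1 := by
    intro v hv
    have h1 := hτ v hv
    have h2 := hsgpos v
    refine ⟨div_pos (h1 1) h2, div_pos (h1 2) h2, ?_⟩
    change al v 1 / sg v + al v 2 / sg v < 1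
    rw [← add_div, div_lt_one h2]
    have h3 : 0 < al v 0 := h1 0
    simp only [hsg]
    linarith
  have hneg : ∀ v, (∀ i, v ≠ r i) → h v < 0 := by
    intro v hv
    have h1 : be v < 0 := by
      have h2 := mul_pos (hκpos v hv) (show 0 < 3 * τ - 1 by linarith)
      simp only [hbe]
      linarith
    exact div_neg_of_neg_of_pos h1 (hsgpos v)
  have hExpo : ∀ S : Set V, Expo x S ↔ ∃ (m : ℝ × ℝ × ℝ) (μ : ℝ), ∀ v, ev m (X v) + μ * h v ≤ 0 ∧
      (ev m (X v) + μ * h v = 0 ↔ v ∈ S) := by
    intro S
    constructor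
    · rintro ⟨b, d, hb⟩
      obtain ⟨m, μ, hm⟩ := key1 b d
      refine ⟨m, μ, fun v => ?_⟩
      obtain ⟨h1, h2⟩ := hb v
      have h3 := hm v
      have h4 := hsgpos v
      constructor
      · by_contra hcon
        push Not at hcon
        have := mul_pos h4 hcon
        linarith
      · rw [← h2]
        constructor
        · intro h5
          rw [h5, mul_zero] at h3
          linarith
        · intro h5
          rw [h5, sub_self] at h3
          rcases mul_eq_zero.1 h3.symm with h6 | h6
          · exact absurd h6 h4.ne'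
          · exact h6
    · rintro ⟨m, μ, hm⟩
      obtain ⟨b, d, -, -, -, -, hb⟩ := key2 m μ
      refine ⟨b, d, fun v => ?_⟩
      obtain ⟨h1, h2⟩ := hm v
      have h3 := hb v
      have h4 := hsgpos v
      constructor
      · have := mul_nonpos_of_nonneg_of_nonpos h4.le h1
        linarith
      · rw [← h2]
        constructor
        · intro h5
          rw [h5, sub_self] at h3
          rcases mul_eq_zero.1 h3.symm with h6 | h6
          · exact absurd h6 h4.ne'
          · exact h6
        · intro h5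
          rw [h5, mul_zero] at h3
          linarith
  refine ⟨r, X, h, ?_, ⟨v0, hv0⟩, hExpo⟩
  refine { rinj := hr, X0 := hX0, X1 := hX1, X2 := hX2, hr := hhr, pos := hpos, neg := hneg,
           card3 := ?_, indep := ?_, expo := ?_ }
  · intro m hm S hS
    rcases S.eq_empty_or_nonempty with h1 | ⟨u, hu⟩
    · rw [h1]
      simp
    · obtain ⟨b, d, hb, hb1, hb2⟩ := key3 m hm u (hS u hu)
      exact contact_card hx b d hb hb1 S (fun v hv => hb2 v (hS v hv))
  · intro m hm u v w huv huw hvw hu hv hw har
    obtain ⟨b, d, hb, hb1, hb2⟩ := key3 m hm u hu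
    -- an affine dependence
    obtain ⟨s, t, hst, e1, e2⟩ : ∃ s t : ℝ, (s ≠ 0 ∨ t ≠ 0) ∧
        s * ((X v).1 - (X u).1) + t * ((X w).1 - (X u).1) = 0 ∧
        s * ((X v).2 - (X u).2) + t * ((X w).2 - (X u).2) = 0 := by
      unfold ar at har
      by_cases c1 : (X w).1 - (X u).1 ≠ 0 ∨ (X v).1 - (X u).1 ≠ 0
      · refine ⟨(X w).1 - (X u).1, -((X v).1 - (X u).1), ?_, by ring, by linarith⟩
        rcases c1 with c1 | c1
        · exact Or.inl c1
        · exact Or.inr (neg_ne_zero.2 c1)
      · by_cases c2 : (X w).2 - (X u).2 ≠ 0 ∨ (X v).2 - (X u).2 ≠ 0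
        · refine ⟨(X w).2 - (X u).2, -((X v).2 - (X u).2), ?_, by linarith, by ring⟩
          rcases c2 with c2 | c2
          · exact Or.inl c2
          · exact Or.inr (neg_ne_zero.2 c2)
        · push Not at c1 c2
          refine ⟨1, 0, Or.inl one_ne_zero, ?_, ?_⟩
          · rw [c1.2]
            ring
          · rw [c2.2]
            ring
    -- the relation for all functionals
    have hrel : ∀ (b : Fin 3 → ℝ) (d : ℝ), (-s - t) / sg u * (∑ j, b j * x u j - d) +
        s / sg v * (∑ j, b j * x v j - d) + t / sg w * (∑ j, b j * x w j - d) = 0 := by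
      intro b d
      obtain ⟨m', μ, hm'⟩ := key1 b d
      rw [hm' u, hm' v, hm' w]
      have i1 := (hsgpos u).ne'
      have i2 := (hsgpos v).ne'
      have i3 := (hsgpos w).ne'
      have i4 : (-s - t) / sg u * (sg u * (ev m' (X u) + μ * h u)) +
          s / sg v * (sg v * (ev m' (X v) + μ * h v)) + t / sg w * (sg w * (ev m' (X w) + μ * h w)) =
          (-s - t) * (ev m' (X u) + μ * h u) + s * (ev m' (X v) + μ * h v) +
            t * (ev m' (X w) + μ * h w) := by
        field_simp
      rw [i4, ← hu, ← hv, ← hw]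
      simp only [ev]
      linear_combination (m'.1 + μ * m.1) * e1 + (m'.2.1 + μ * m.2.1) * e2
    have hmu := hx.simp b d hb hb1 (fun z => (if z = u then (-s - t) / sg u else 0) +
      (if z = v then s / sg v else 0) + (if z = w then t / sg w else 0)) ?_ ?_ ?_
    · have j1 := congrFun hmu v
      have j2 := congrFun hmu w
      simp only [Pi.zero_apply, if_neg huv.symm, if_neg huw.symm, if_neg hvw, if_neg hvw.symm,
        if_true, zero_add, add_zero] at j1 j2
      rcases hst with k | k
      · exact (div_ne_zero k (hsgpos v).ne') j1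
      · exact (div_ne_zero k (hsgpos w).ne') j2
    · intro z hz
      by_cases z1 : z = u
      · rw [z1]
        exact hb2 u hu
      · by_cases z2 : z = v
        · rw [z2]
          exact hb2 v hv
        · by_cases z3 : z = w
          · rw [z3]
            exact hb2 w hw
          · simp only [if_neg z1, if_neg z2, if_neg z3, add_zero] at hz
            exact absurd rfl hz
    · simp only [Finset.sum_add_distrib, Finset.sum_ite_eq', Finset.mem_univ, if_true]
      have k := hrel 0 (-1)
      simp only [Pi.zero_apply, zero_mul, Finset.sum_const_zero] at k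
      linarith
    · intro j
      simp only [add_mul, ite_mul, zero_mul, Finset.sum_add_distrib, Finset.sum_ite_eq',
        Finset.mem_univ, if_true]
      have k := hrel (Pi.single j 1) 0
      have k2 : ∀ z, ∑ l, (Pi.single j 1 : Fin 3 → ℝ) l * x z l = x z j := by
        intro z
        rw [Finset.sum_eq_single j]
        · rw [Pi.single_eq_same, one_mul]
        · intro l _ hl
          rw [Pi.single_eq_of_ne hl, zero_mul]
        · intro h4
          exact absurd (Finset.mem_univ j) h4
      simp only [k2, sub_zero] at k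
      linarith
  · intro v
    by_cases hv : ∃ i, v = r i
    · obtain ⟨i, rfl⟩ := hv
      -- the affine function `lam i`
      obtain ⟨n, hn1, hn2, hn3⟩ : ∃ n : ℝ × ℝ × ℝ, ev n (X (r i)) = 0 ∧
          (∀ j, j ≠ i → ev n (X (r j)) = 1) ∧ ∀ w, (∀ j, w ≠ r j) → 0 < ev n (X w) := by
        fin_cases i
        · refine ⟨(1, 1, 0), ?_, ?_, ?_⟩
          · change ev _ (X (r 0)) = 0
            rw [hX0]
            norm_num [ev]
          · intro j hj
            fin_cases j
            · exact absurd rfl hj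
            · change ev _ (X (r 1)) = 1
              rw [hX1]
              norm_num [ev]
            · change ev _ (X (r 2)) = 1
              rw [hX2]
              norm_num [ev]
          · intro w hw
            obtain ⟨q1, q2, q3⟩ := hpos w hw
            simp only [ev]
            linarith
        · refine ⟨(-1, 0, 1), ?_, ?_, ?_⟩
          · change ev _ (X (r 1)) = 0
            rw [hX1]
            norm_num [ev]
          · intro j hj
            fin_cases j
            · change ev _ (X (r 0)) = 1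
              rw [hX0]
              norm_num [ev]
            · exact absurd rfl hj
            · change ev _ (X (r 2)) = 1
              rw [hX2]
              norm_num [ev]
          · intro w hw
            obtain ⟨q1, q2, q3⟩ := hpos w hw
            simp only [ev]
            linarith
        · refine ⟨(0, -1, 1), ?_, ?_, ?_⟩
          · change ev _ (X (r 2)) = 0
            rw [hX2]
            norm_num [ev]
          · intro j hj
            fin_cases j
            · change ev _ (X (r 0)) = 1
              rw [hX0]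
              norm_num [ev]
            · change ev _ (X (r 1)) = 1
              rw [hX1]
              norm_num [ev]
            · exact absurd rfl hj
          · intro w hw
            obtain ⟨q1, q2, q3⟩ := hpos w hw
            simp only [ev]
            linarith
      obtain ⟨t, ht0, ht⟩ : ∃ t : ℝ, 0 < t ∧ ∀ w, (∀ j, w ≠ r j) → -(t * ev n (X w)) < h w := by
        refine ⟨1 + ∑ w, |h w / ev n (X w)|, ?_, ?_⟩
        · have : 0 ≤ ∑ w, |h w / ev n (X w)| := Finset.sum_nonneg fun w _ => abs_nonneg _
          linarith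
        · intro w hw
          have k1 := hn3 w hw
          have k2 : |h w / ev n (X w)| ≤ ∑ w, |h w / ev n (X w)| :=
            Finset.single_le_sum (f := fun w => |h w / ev n (X w)|) (fun w _ => abs_nonneg _)
              (Finset.mem_univ w)
          have k3 : |h w / ev n (X w)| * ev n (X w) = |h w| := by
            rw [abs_div, abs_of_pos k1]
            field_simp
          have k4 : |h w| ≤ (∑ w, |h w / ev n (X w)|) * ev n (X w) := by
            rw [← k3]
            exact mul_le_mul_of_nonneg_right k2 k1.le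
          have k5 := neg_abs_le (h w)
          nlinarith
      have hev : ∀ P, ev (-t * n.1, -t * n.2.1, -t * n.2.2) P = -(t * ev n P) := by
        intro P
        simp only [ev]
        ring
      refine ⟨(-t * n.1, -t * n.2.1, -t * n.2.2), ?_, ?_⟩
      · intro w
        rw [hev]
        by_cases hw : ∃ j, w = r j
        · obtain ⟨j, rfl⟩ := hw
          rw [hhr]
          by_cases hj : j = i
          · rw [hj, hn1]
            simp
          · rw [hn2 j hj]
            linarith
        · push Not at hw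
          exact (ht w hw).le
      · intro w
        rw [hev]
        constructor
        · intro hw1
          by_cases hw : ∃ j, w = r j
          · obtain ⟨j, rfl⟩ := hw
            by_cases hj : j = i
            · rw [hj]
            · exfalso
              rw [hn2 j hj, hhr] at hw1
              linarith
          · exfalso
            push Not at hw
            exact (ht w hw).ne hw1
        · rintro rfl
          rw [hn1, hhr]
          simp
    · push Not at hv
      obtain ⟨m, μ, hm⟩ := (hExpo {v}).1 (hx.vert v)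
      have hrj : ∀ j, ev m (X (r j)) < 0 := by
        intro j
        obtain ⟨k1, k2⟩ := hm (r j)
        rw [hhr, mul_zero, add_zero] at k1 k2
        refine lt_of_le_of_ne k1 fun k3 => ?_
        exact hv j (k2.1 k3).symm
      have hlt : ev m (X v) < 0 := by
        obtain ⟨q1, q2, q3⟩ := hpos v hv
        have k0 := hrj 0
        have k1 := hrj 1
        have k2 := hrj 2
        rw [hX0] at k0
        rw [hX1] at k1
        rw [hX2] at k2
        simp only [ev] at k0 k1 k2 ⊢
        nlinarith
      have hμ : μ < 0 := by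
        by_contra hcon
        push Not at hcon
        have k1 := (hm v).2.2 rfl
        have k2 := mul_nonpos_of_nonneg_of_nonpos hcon (hneg v hv).le
        linarith
      have hev : ∀ P, ev (m.1 / (-μ), m.2.1 / (-μ), m.2.2 / (-μ)) P = ev m P / (-μ) := by
        intro P
        simp only [ev]
        ring
      have hμ' : 0 < -μ := by linarith
      refine ⟨(m.1 / (-μ), m.2.1 / (-μ), m.2.2 / (-μ)), ?_, ?_⟩
      · intro w
        rw [hev, div_le_iff₀ hμ']
        have k1 := (hm w).1
        linarith
      · intro w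
        rw [hev, div_eq_iff hμ'.ne']
        have k1 := (hm w).2
        constructor
        · intro k2
          exact k1.1 (by linarith)
        · intro k2
          have k3 := k1.2 k2
          linarith

end MP0e5907
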