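import Pool.Agent.Lib_MP_0e5907.Base2
import Pool.Agent.Lib_MP_0e5907.Exact
import Pool.Agent.Lib_MP_0e5907.Pot

/-!
# Piece LIFT: the Maxwell-Cremona lifting of the weighted Tutte embedding

Paper proof. `det3 a b x = ∑_j crs a b j * x j`, where `crs a b` is the cross product (`crossProduct` in Mathlib or explicit).
* `lift_exists`: for `j : Fin 3` put `ψ_j e = ω_e * crs (p tail) (p head) j`. For `y : N → ℝ`, by `bvec_dot`,
  `∑_e dif (ext0 y) e * ψ_j e = ∑_v y v * ∑_e bvec e v * ω_e * crs (p tail) (p head) j`, and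
  `bvec e v * crs (p tail) (p head) = - bvec e v * crs (p v) (p tail - p head)` (if `v` is the tail and not the head: `crs (p v) (p head) = -crs (p v) (p v - p head)`;
  if `v` is the head and not the tail: `-crs (p tail) (p v) = crs (p v) (p tail - p v)`; if `v` is both or none: `bvec e v = 0`). So the inner
  sum is `- crs (p v) (∑_e ω_e bvec e v (p tail - p head)) j = 0` by equilibrium. `coexact` gives `H · j` with
  `ψ_j e = H (lf e) j - H (rf e) j`.
* `star_const`: `Q : F → ℝ` with `Q (lf e) = Q (rf e)` for all `e` having `v` as tail or head. Then `Q` is constant on the faces containing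
  `v`. Proof: let `vert g k = v`. Rotate: side `k+1` of `g` contains `v`. Claim A: if `v = inr i` then `k = i` (`reg_vert`, `reg_root`) and
  `Q g = Q (of (k+1))`. Claim B: if `v = inl w` then `Q g = Q (rf (w,k+2)) = Q (lf (w,k+2))`. Proof of both by induction on
  `|V| - #{u : reg u g = k+1}`: by `side_cases` for the side `k+1` of `g`: (a) `g = of (k+1)`: `vert g k = inr k` (`of_two`): claim A trivial, claim
  B impossible; (b) `g = lf e`, `e.2 + 1 = k+1`, `e.2 = k`: the head of `e` is `vert (lf e) k = v`; also `vert (rf e) k = v`. So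
  `Q g = Q (rf e)` and apply induction to `rf e` (same label `k`; `Cross T (k+1) g e (rf e)` increases `#{reg = k+1}`, `cross_reg`, `cross_strict`); (c) `g = rf e`,
  `e.2 + 2 = k+1`, i.e. `e.2 = k+2`, the tail of `e` is `vert (rf e) (e.2+1) = vert g k = v`; so `v = inl w`, `e = (w,k+2)`, claim B holds at once
  (claim A impossible). Conclusion for `v = inl w`: `lf (w,k+2)` contains `w` with label `e.2+2 = k+1`, so
  by claim B `Q (lf (w,k+2)) = Q (lf (w,k+3)) = Q (lf (w,k))`; so the three values `Q (lf (w,·))` agree and every `Q g` equals one of them.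
* `height_exists`: apply `star_const` to `Q g = ∑_j H g j * p v j`: for an edge `e` with tail or head `v`, `Q (lf e) - Q (rf e) = ω_e det3 (p tail) (p head) (p v) = 0`.
  So `z v :=` the common value (for `v` in some face, every `v` is: `inl w` is in `lf (w,0)`, `inr i` in `of (i+2)`, `of_one`) is well defined.
* `lift_norm`: normalise: `H' g j = H g j - z (inr j)`. Then `H' (lf e) - H' (rf e) = H (lf e) - H (rf e)`, `z' v = z v - ∑_j z (inr j) p v j`, `z' (inr j) = 0`.
  Bound: `|H' g j| ≤ 2 (|N|+3) W`: the function `k g = H' g j` changes along `e` by `ω_e det3 (p tail) (p head) (Pi.single j 1)`, of absolute value at most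
  `W` (`|det3 a b c| ≤ 1` for `a,b,c` with nonnegative coordinates of sum one: the three products pairs; the determinant is the difference of two
  numbers in `[0,1]`... e.g. for `c = Pi.single j 1` it is a 2x2 minor `a_i b_l - a_l b_i` with entries in `[0,1]`), so by `dual_dist`
  `|H' g j - H' (of (j+2)) j| ≤ 2 (|N|+3) W`, and `H' (of (j+2)) j = z' (inr j) = 0` (`vert (of (j+2)) (j+3) = inr j`, `p (inr j) = Pi.single j 1`).
  So `|z' v| = |∑_j H' g j p v j| ≤ 2 (|N|+3) W`.
-/

namespace MP0e5907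

open Finset

variable {N F : Type} [Fintype N] [Fintype F]

/-- the cross product -/
def liftCrs (a b : Fin 3 → ℝ) (j : Fin 3) : ℝ := a (j + 1) * b (j + 2) - a (j + 2) * b (j + 1)

theorem lift_det3 (a b x : Fin 3 → ℝ) : det3 a b x = ∑ j, liftCrs a b j * x j := by
  have h1 : (1 : Fin 3) + 1 = 2 := rfl
  have h2 : (1 : Fin 3) + 2 = 0 := rfl
  have h3 : (2 : Fin 3) + 1 = 0 := rfl
  have h4 : (2 : Fin 3) + 2 = 1 := rfl
  have h5 : (0 : Fin 3) + 1 = 1 := rfl
  have h6 : (0 : Fin 3) + 2 = 2 := rfl
  simp only [Fin.sum_univ_three, liftCrs, det3, h1, h2, h3, h4, h5, h6]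
  ring

theorem lift_det3_single (a b : Fin 3 → ℝ) (j : Fin 3) :
    det3 a b (Pi.single j 1) = liftCrs a b j := by
  rw [lift_det3, Finset.sum_eq_single j]
  · simp
  · intro l _ hl
    rw [Pi.single_eq_of_ne hl]; ring
  · intro h; exact absurd (Finset.mem_univ j) h

theorem lift_exists [DecidableEq N] (T : STri N F) (ω : N × Fin 3 → ℝ) (p : N ⊕ Fin 3 → Fin 3 → ℝ)
    (hp : ∀ j, Equil T ω (fun v => p v j)) :
    ∃ H : F → Fin 3 → ℝ, ∀ e (x : Fin 3 → ℝ),
      ∑ j, H (T.lf e) j * x j - ∑ j, H (T.rf e) j * x j =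
        ω e * det3 (p (Sum.inl e.1)) (p (T.par e.1 e.2)) x := by
  have key : ∀ j : Fin 3, ∃ k : F → ℝ, ∀ e,
      ω e * liftCrs (p (Sum.inl e.1)) (p (T.par e.1 e.2)) j = k (T.lf e) - k (T.rf e) := by
    intro j
    apply coexact T (fun e => ω e * liftCrs (p (Sum.inl e.1)) (p (T.par e.1 e.2)) j)
    intro y
    have h1 : ∀ e, dif T (ext0 y) e * (ω e * liftCrs (p (Sum.inl e.1)) (p (T.par e.1 e.2)) j) =
        ∑ v, y v * (p (Sum.inl v) (j + 2) * (ω e * (bvec T e v * dif T (fun v => p v (j + 1)) e))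
          - p (Sum.inl v) (j + 1) * (ω e * (bvec T e v * dif T (fun v => p v (j + 2)) e))) := by
      intro e
      rw [← bvec_dot, Finset.sum_mul]
      apply Finset.sum_congr rfl
      intro v _
      by_cases h : v = e.1
      · by_cases h' : T.par e.1 e.2 = Sum.inl v
        · simp [bvec, h', h]
        · simp only [bvec, h, if_true, dif, liftCrs]
          rw [h] at h'
          rw [if_neg h']
          ring
      · by_cases h' : T.par e.1 e.2 = Sum.inl v
        · simp only [bvec, h, if_false, dif, liftCrs, h', if_true]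
          ring
        · simp [bvec, h', h]
    simp_rw [h1]
    rw [Finset.sum_comm]
    apply Finset.sum_eq_zero
    intro v _
    rw [← Finset.mul_sum, Finset.sum_sub_distrib, ← Finset.mul_sum, ← Finset.mul_sum]
    have e1 := hp (j + 1) v
    have e2 := hp (j + 2) v
    rw [e1, e2]
    ring
  choose k hk using key
  refine ⟨fun g j => k j g, ?_⟩
  intro e x
  rw [lift_det3, Finset.mul_sum, ← Finset.sum_sub_distrib]
  apply Finset.sum_congr rfl
  intro j _
  have := hk j e
  have h2 : ω e * (liftCrs (p (Sum.inl e.1)) (p (T.par e.1 e.2)) j * x j) =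
    (ω e * liftCrs (p (Sum.inl e.1)) (p (T.par e.1 e.2)) j) * x j := by ring
  rw [h2, this]
  ring

omit [Fintype F] in
theorem lift_claim (T : STri N F) (v : N ⊕ Fin 3) (Q : F → ℝ)
    (hQ : ∀ e : N × Fin 3, (v = Sum.inl e.1 ∨ v = T.par e.1 e.2) → Q (T.lf e) = Q (T.rf e))
    (k : Fin 3) (g : F) (hg : T.vert g k = v) :
    (v = Sum.inr k ∧ Q g = Q (T.of (k + 1))) ∨ ∃ w, v = Sum.inl w ∧ Q g = Q (T.rf (w, k + 2)) := by
  have hr := reach_outer T (k + 1) g
  unfold Reach at hr
  induction hr using Relation.ReflTransGen.head_induction_on with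
  | refl =>
    left
    have h := T.of_two (k + 1)
    have h3 : k + 1 + 2 = k := by
      fin_cases k <;> rfl
    rw [h3] at h
    exact ⟨by rw [← hg, h], rfl⟩
  | head h1 h2 ih =>
    obtain ⟨e, he⟩ := h1
    rcases he with ⟨h3, h4, h5⟩ | ⟨h3, h4, h5⟩
    · have h6 : e.2 = k := by
        have := add_right_cancel h5
        exact this.symm
      have h7 := T.lf_head e
      have h8 := T.rf_head e
      rw [h6] at h7 h8
      rw [h3] at hg
      have h9 : v = T.par e.1 e.2 := by rw [← hg, h7, h6]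
      have h10 := hQ e (Or.inr h9)
      have h11 := ih (by rw [h4, h8, ← h7, hg])
      rw [h4] at h11
      rw [h3, h10]
      exact h11
    · have h6 : e.2 = k + 2 := by
        have h7 : e.2 + 2 + 1 = k + 1 + 1 := by rw [h5]
        have h8 : e.2 + 2 + 1 = e.2 := by
          generalize e.2 = c
          fin_cases c <;> rfl
        rw [← h8, h7]
        fin_cases k <;> rfl
      have h7 : e.2 + 1 = k := by
        rw [h6]
        fin_cases k <;> rfl
      right
      have h8 := T.rf_tail e
      rw [h7] at h8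
      rw [h3] at hg
      refine ⟨e.1, by rw [← hg, h8], ?_⟩
      rw [h3, ← h6]

omit [Fintype F] in
theorem star_const (T : STri N F) (v : N ⊕ Fin 3) (Q : F → ℝ)
    (hQ : ∀ e : N × Fin 3, (v = Sum.inl e.1 ∨ v = T.par e.1 e.2) → Q (T.lf e) = Q (T.rf e))
    (g g' : F) (k k' : Fin 3) (hg : T.vert g k = v) (hg' : T.vert g' k' = v) : Q g = Q g' := by
  have c1 := lift_claim T v Q hQ k g hg
  have c2 := lift_claim T v Q hQ k' g' hg'
  cases v with
  | inr i =>
    rcases c1 with ⟨h1, h2⟩ | ⟨w, h1, _⟩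
    · rcases c2 with ⟨h3, h4⟩ | ⟨w, h3, _⟩
      · have e1 : i = k := Sum.inr.inj h1
        have e2 : i = k' := Sum.inr.inj h3
        rw [h2, h4, ← e1, ← e2]
      · cases h3
    · cases h1
  | inl w =>
    have hst : ∀ l : Fin 3, Q (T.rf (w, l + 2)) = Q (T.rf (w, l)) := by
      intro l
      have h1 := hQ (w, l + 2) (Or.inl rfl)
      have h2 := T.lf_tail (w, l + 2)
      have h3 : l + 2 + 2 = l + 1 := by fin_cases l <;> rfl
      simp only at h2
      rw [h3] at h2
      have h4 := lift_claim T (Sum.inl w) Q hQ (l + 1) (T.lf (w, l + 2)) h2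
      rcases h4 with ⟨h5, _⟩ | ⟨w', h5, h6⟩
      · cases h5
      · have e1 : w = w' := Sum.inl.inj h5
        subst e1
        have h7 : l + 1 + 2 = l := by fin_cases l <;> rfl
        rw [h7] at h6
        rw [← h1, h6]
    have hall : ∀ l l' : Fin 3, Q (T.rf (w, l)) = Q (T.rf (w, l')) := by
      have a0 := hst 0
      have a1 := hst 1
      have h0 : (0 : Fin 3) + 2 = 2 := rfl
      have h1 : (1 : Fin 3) + 2 = 0 := rfl
      rw [h0] at a0
      rw [h1] at a1
      intro l l'
      fin_cases l <;> fin_cases l' <;> simp_all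
    rcases c1 with ⟨h1, _⟩ | ⟨w1, h1, h2⟩
    · cases h1
    · rcases c2 with ⟨h3, _⟩ | ⟨w2, h3, h4⟩
      · cases h3
      · have e1 : w = w1 := Sum.inl.inj h1
        have e2 : w = w2 := Sum.inl.inj h3
        subst e1
        subst e2
        rw [h2, h4]
        exact hall _ _

/-- normalised lifting with bounds -/
theorem lift_norm [DecidableEq N] (T : STri N F) (ω : N × Fin 3 → ℝ) (hω : ∀ e, 0 < ω e) (W : ℝ) (hW : ∀ e, ω e ≤ W)
    (hW0 : 0 ≤ W)
    (p : N ⊕ Fin 3 → Fin 3 → ℝ) (hr : ∀ i, p (Sum.inr i) = Pi.single i 1)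
    (hp : ∀ j, Equil T ω (fun v => p v j)) :
    ∃ (H : F → Fin 3 → ℝ) (z : N ⊕ Fin 3 → ℝ),
      (∀ e (x : Fin 3 → ℝ), ∑ j, H (T.lf e) j * x j - ∑ j, H (T.rf e) j * x j =
        ω e * det3 (p (Sum.inl e.1)) (p (T.par e.1 e.2)) x) ∧
      (∀ g k, ∑ j, H g j * p (T.vert g k) j = z (T.vert g k)) ∧
      (∀ j, z (Sum.inr j) = 0) ∧ ∀ v, |z v| ≤ 2 * (Fintype.card N + 3) * W := by
  obtain ⟨H0, hH0⟩ := lift_exists T ω p hp
  -- a face containing each vertex
  have hface : ∀ v : N ⊕ Fin 3, ∃ (g : F) (k : Fin 3), T.vert g k = v := by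
    intro v
    cases v with
    | inl w => exact ⟨T.lf (w, 0), 0 + 2, T.lf_tail (w, 0)⟩
    | inr i =>
      refine ⟨T.of (i + 2), i, ?_⟩
      have h := T.of_one (i + 2)
      have h3 : i + 2 + 1 = i := by fin_cases i <;> rfl
      rw [h3] at h
      exact h
  choose fg fk hf using hface
  have hstar : ∀ g k, ∑ j, H0 g j * p (T.vert g k) j =
      ∑ j, H0 (fg (T.vert g k)) j * p (T.vert g k) j := by
    intro g k
    apply star_const T (T.vert g k) (fun g' => ∑ j, H0 g' j * p (T.vert g k) j) _ g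
      (fg (T.vert g k)) k (fk (T.vert g k)) rfl (hf _)
    intro e he
    have h1 := hH0 e (p (T.vert g k))
    have h2 : det3 (p (Sum.inl e.1)) (p (T.par e.1 e.2)) (p (T.vert g k)) = 0 := by
      rcases he with he | he
      · rw [he]; simp only [det3]; ring
      · rw [he]; simp only [det3]; ring
    rw [h2, mul_zero] at h1
    exact sub_eq_zero.mp h1
  set z0 : N ⊕ Fin 3 → ℝ := fun v => ∑ j, H0 (fg v) j * p v j with hz0
  have hz : ∀ g k, ∑ j, H0 g j * p (T.vert g k) j = z0 (T.vert g k) := fun g k => hstar g k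
  set H : F → Fin 3 → ℝ := fun g j => H0 g j - z0 (Sum.inr j) with hH
  set z : N ⊕ Fin 3 → ℝ := fun v => z0 v - ∑ j, z0 (Sum.inr j) * p v j with hzz
  have p1 : ∀ e (x : Fin 3 → ℝ), ∑ j, H (T.lf e) j * x j - ∑ j, H (T.rf e) j * x j =
        ω e * det3 (p (Sum.inl e.1)) (p (T.par e.1 e.2)) x := by
    intro e x
    rw [← hH0 e x]
    simp only [hH, sub_mul, Finset.sum_sub_distrib]
    ring
  have p2 : ∀ g k, ∑ j, H g j * p (T.vert g k) j = z (T.vert g k) := by
    intro g k
    simp only [hH, sub_mul, Finset.sum_sub_distrib, hzz]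
    rw [hz]
  have p3 : ∀ j, z (Sum.inr j) = 0 := by
    intro j
    simp only [hzz, hr]
    rw [Finset.sum_eq_single j]
    · simp
    · intro l _ hl
      rw [Pi.single_eq_of_ne hl]; ring
    · intro h; exact absurd (Finset.mem_univ j) h
  refine ⟨H, z, p1, p2, p3, ?_⟩
  have hHb : ∀ g j, |H g j| ≤ 2 * (Fintype.card N + 3) * W := by
    intro g j
    have hd := dual_dist T (fun g => H g j) W hW0 (by
      intro e
      have h1 := p1 e (Pi.single j 1)
      rw [lift_det3_single] at h1
      have hs : ∀ g : F, ∑ l, H g l * (Pi.single j (1 : ℝ) : Fin 3 → ℝ) l = H g j := by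
        intro g
        rw [Finset.sum_eq_single j]
        · simp
        · intro l _ hl
          rw [Pi.single_eq_of_ne hl]; ring
        · intro h; exact absurd (Finset.mem_univ j) h
      rw [hs, hs] at h1
      show |H (T.lf e) j - H (T.rf e) j| ≤ W
      rw [h1, abs_mul, abs_of_pos (hω e)]
      have hc : |liftCrs (p (Sum.inl e.1)) (p (T.par e.1 e.2)) j| ≤ 1 := by
        unfold liftCrs
        have a1 := pot_nonneg T ω hω p hr hp (Sum.inl e.1) (j + 1)
        have a2 := pot_nonneg T ω hω p hr hp (Sum.inl e.1) (j + 2)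
        have a3 := pot_nonneg T ω hω p hr hp (T.par e.1 e.2) (j + 1)
        have a4 := pot_nonneg T ω hω p hr hp (T.par e.1 e.2) (j + 2)
        have b1 := pot_le_one T ω hω p hr hp (Sum.inl e.1) (j + 1)
        have b2 := pot_le_one T ω hω p hr hp (Sum.inl e.1) (j + 2)
        have b3 := pot_le_one T ω hω p hr hp (T.par e.1 e.2) (j + 1)
        have b4 := pot_le_one T ω hω p hr hp (T.par e.1 e.2) (j + 2)
        rw [abs_le]
        constructor
        · nlinarith [mul_nonneg a1 a4, mul_le_one₀ b2 a3 b3]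
        · nlinarith [mul_nonneg a2 a3, mul_le_one₀ b1 a4 b4]
      calc ω e * |liftCrs (p (Sum.inl e.1)) (p (T.par e.1 e.2)) j| ≤ ω e * 1 :=
            mul_le_mul_of_nonneg_left hc (hω e).le
        _ ≤ W := by rw [mul_one]; exact hW e) g (T.of (j + 2))
    have h0 : H (T.of (j + 2)) j = 0 := by
      have h := T.of_one (j + 2)
      have h3 : j + 2 + 1 = j := by fin_cases j <;> rfl
      rw [h3] at h
      have h4 := p2 (T.of (j + 2)) j
      rw [h, p3, hr, Finset.sum_eq_single j] at h4
      · simpa using h4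
      · intro l _ hl
        rw [Pi.single_eq_of_ne hl]; ring
      · intro h; exact absurd (Finset.mem_univ j) h
    simp only [h0, sub_zero] at hd
    exact hd
  intro v
  have h1 := p2 (fg v) (fk v)
  rw [hf] at h1
  rw [← h1]
  calc |∑ j, H (fg v) j * p v j| ≤ ∑ j, |H (fg v) j * p v j| := Finset.abs_sum_le_sum_abs _ _
    _ ≤ ∑ j, (2 * (Fintype.card N + 3) * W) * p v j := by
        apply Finset.sum_le_sum
        intro j _
        rw [abs_mul, abs_of_nonneg (pot_nonneg T ω hω p hr hp v j)]
        exact mul_le_mul_of_nonneg_right (hHb _ _) (pot_nonneg T ω hω p hr hp v j)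
    _ = 2 * (Fintype.card N + 3) * W := by
        rw [← Finset.mul_sum, pot_sum T ω hω p hr hp v, mul_one]

end MP0e5907
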