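import Pool.Agent.Lib_MP_0e5907.LBase

/-!
# MP_0e5907 - definitions of the final statement: simplicial 3-polytopes and their face lattices in Mathlib terms
-/

namespace MP0e5907

/-- three dimensional Euclidean space -/
abbrev E3 := EuclideanSpace ℝ (Fin 3)

/-- the polytope spanned by the points `x i` -/
def hull {n : ℕ} (x : Fin n → E3) : Set E3 := convexHull ℝ (Set.range x)

/-- `x` is a list (without repetitions) of the vertices of a simplicial 3-polytope: the points are in convex position, they span
the space, and the vertices in each proper face are affinely independent (every proper face is a simplex) -/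
structure IsSimplicialPolytope {n : ℕ} (x : Fin n → E3) : Prop where
  convexIndependent : ConvexIndependent ℝ x
  full : affineSpan ℝ (Set.range x) = ⊤
  simplicial : ∀ F, IsExposed ℝ (hull x) F → F ≠ hull x →
    AffineIndependent ℝ (fun i : {i // x i ∈ F} => x i)

/-- the face lattice of the polytope: its exposed faces (including the empty face and the polytope itself) ordered by inclusion -/
abbrev FaceLattice {n : ℕ} (x : Fin n → E3) := {F : Set E3 // IsExposed ℝ (hull x) F}

/-- same combinatorial type: isomorphic face lattices -/
def SameType {n : ℕ} (x y : Fin n → E3) : Prop := Nonempty (FaceLattice x ≃o FaceLattice y)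

end MP0e5907
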