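import Pool.Agent.Lib_MP_0e5907.MBase

/-!
# Piece MBRIDGE: `IsSimplicialPolytope` versus `SimpP`

A continuous linear functional `l` on `E3` is `l y = ∑ j, a j * y j` with `a j = l (EuclideanSpace.single j 1)`, and conversely.

Paper proof.
* `simpP_of_polytope`. `vert i`: `C = convexHull (x '' {j | j ≠ i})` is compact convex (finite set) and `x i ∉ C` (convex independence with `s = {j | j ≠ i}`), so by Hahn-Banach (`geometric_hahn_banach_compact_closed`, `geometric_hahn_banach_point_closed`, or similar) there is a continuous linear `l` with `l (x j) < l (x i)` for all `j ≠ i`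
 (if there is no `j ≠ i`, any functional). So `{i}` is exposed: `a` from `l`, `c = l (x i)`. `full`: if `∑ a_j x v j = c` for all `v` then the affine subspace `{y | ∑ a_j y_j = c}` contains `affineSpan = ⊤`, so the functional is constant on the space, `a = 0`. `simp`: `(a,c)` supporting, `a ≠ 0`. If no vertex is a contact vertex then
 `μ = 0`. Otherwise `F = {y ∈ hull x | ∀ z ∈ hull x, l z ≤ l y}` is exposed, `F ≠ hull x` (otherwise all vertices are contact vertices and `a = 0` by `full`), and `x i ∈ F` iff `∑ a_j x i j = c` (the maximum of `l` on the hull is `c`). So the family `{i // x i ∈ F}` is affinely independent and `μ` (supported there, with `∑ μ = 0`, `∑ μ x = 0`) vanishes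
 (`affineIndependent_iff` / `Finset.weightedVSub_eq_linear_combination`).
* `polytope_of_simpP`. Convex independence: let `x i ∈ convexHull (x '' s)` and suppose `i ∉ s`; with the functional exposing `{i}`: all `x j`, `j ∈ s`, are in the convex set `{y | ∑ a_j y_j < c}`, so `x i` is too, but its value is `c`. `full`: if `affineSpan ≠ ⊤` then (the set of points is nonempty, since otherwise `full` of `SimpP` fails) the direction is a
 proper subspace, contained in the kernel of a nonzero functional (`Submodule.exists_le_ker_of_lt_top`), which is constant on the points: contradiction to `SimpP.full`. `simplicial`: `F` exposed, `F ≠ hull x`. If `F = ∅`: the family is empty (`affineIndependent_of_subsingleton`). Otherwise `F = {y ∈ hull x | ∀ z ∈ hull x, l z ≤ l y}`; `l ≠ 0` (else `F = hull x`);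
 let `c` be the maximal value; `x i ∈ F` iff `l (x i) = c`. `SimpP.simp` gives affine independence (`affineIndependent_iff`: a relation on a finset of the subtype extends by zero to a function `μ` on all `v`).
-/

namespace MP0e5907

noncomputable def mbLin (a : Fin 3 → ℝ) : E3 →L[ℝ] ℝ :=
  ∑ j, a j • (EuclideanSpace.proj j : E3 →L[ℝ] ℝ)

theorem mbLin_apply (a : Fin 3 → ℝ) (y : E3) : mbLin a y = ∑ j, a j * y j := by
  simp [mbLin]

theorem mbCoefL (l : E3 →ₗ[ℝ] ℝ) : ∃ a : Fin 3 → ℝ, ∀ y : E3, l y = ∑ j, a j * y j := by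
  refine ⟨fun j => l (EuclideanSpace.single j 1), fun y => ?_⟩
  have h : y = ∑ j, y j • EuclideanSpace.single j (1 : ℝ) := by
    ext i
    fin_cases i <;> simp [Fin.sum_univ_three]
  conv_lhs => rw [h]
  rw [map_sum]
  refine Finset.sum_congr rfl fun j _ => ?_
  rw [map_smul, smul_eq_mul, mul_comm]

theorem mbCoefF (l : E3 →L[ℝ] ℝ) : ∃ a : Fin 3 → ℝ, ∀ y : E3, l y = ∑ j, a j * y j :=
  mbCoefL l.toLinearMap

/-- a linear inequality on the vertices passes to the hull -/
theorem mb_hull_le {n : ℕ} (x : Fin n → E3) (l : E3 →L[ℝ] ℝ) (c : ℝ) (h : ∀ i, l (x i) ≤ c) :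
    ∀ y ∈ hull x, l y ≤ c := by
  intro y hy
  have hc : Convex ℝ {y : E3 | l y ≤ c} := convex_halfSpace_le l.isLinear c
  have hsub : Set.range x ⊆ {y : E3 | l y ≤ c} := by
    rintro _ ⟨i, rfl⟩; exact h i
  exact convexHull_min hsub hc hy

theorem mb_mem_hull {n : ℕ} (x : Fin n → E3) (i : Fin n) : x i ∈ hull x :=
  subset_convexHull ℝ _ ⟨i, rfl⟩

/-- affine relation in coordinates -/
theorem mb_sum_coord {n : ℕ} (x : Fin n → E3) (μ : Fin n → ℝ) (h : ∀ j, ∑ v, μ v * x v j = 0) :
    ∑ v, μ v • x v = 0 := by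
  ext j
  have := h j
  simpa [WithLp.ofLp_sum, Finset.sum_apply] using this

theorem mb_sum_coord' {n : ℕ} (x : Fin n → E3) (μ : Fin n → ℝ) (h : ∑ v, μ v • x v = 0) :
    ∀ j, ∑ v, μ v * x v j = 0 := by
  intro j
  have := congrArg (fun y : E3 => y j) h
  simpa [WithLp.ofLp_sum, Finset.sum_apply] using this

theorem mb_sum_sub {n : ℕ} {M : Type*} [AddCommMonoid M] (p : Fin n → Prop) [Fintype {i // p i}]
    (f : Fin n → M) (h : ∀ i, ¬ p i → f i = 0) : ∑ i : {i // p i}, f i = ∑ i, f i := by
  classical
  have h1 : ∑ i ∈ Finset.univ.filter p, f i = ∑ i : {i // p i}, f i :=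
    Finset.sum_subtype _ (fun i => by simp) f
  rw [← h1]
  refine Finset.sum_filter_of_ne fun i _ hi => ?_
  by_contra hn
  exact hi (h i hn)

/-- the set of the contact vertices of the face -/
theorem mb_mem_face {n : ℕ} (x : Fin n → E3) (l : E3 →L[ℝ] ℝ) (c : ℝ) (h : ∀ i, l (x i) ≤ c)
    (v0 : Fin n) (h0 : l (x v0) = c) (v : Fin n) :
    x v ∈ {y ∈ hull x | ∀ z ∈ hull x, l z ≤ l y} ↔ l (x v) = c := by
  constructor
  · rintro ⟨_, h2⟩
    exact le_antisymm (h v) (h0 ▸ h2 _ (mb_mem_hull x v0))
  · intro h1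
    refine ⟨mb_mem_hull x v, fun z hz => ?_⟩
    rw [h1]
    exact mb_hull_le x l c h z hz

theorem mb_full_of_polytope {n : ℕ} (x : Fin n → E3) (hx : affineSpan ℝ (Set.range x) = ⊤)
    (a : Fin 3 → ℝ) (c : ℝ) (h : ∀ v, ∑ j, a j * x v j = c) : a = 0 := by
  have h1 : vectorSpan ℝ (Set.range x) = ⊤ := by
    rw [← direction_affineSpan, hx, AffineSubspace.direction_top]
  have h2 : vectorSpan ℝ (Set.range x) ≤ LinearMap.ker (mbLin a).toLinearMap := by
    rw [vectorSpan_def, Submodule.span_le]
    rintro _ ⟨_, ⟨i, rfl⟩, _, ⟨j, rfl⟩, rfl⟩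
    change (mbLin a) (x i -ᵥ x j) = 0
    rw [vsub_eq_sub, map_sub, mbLin_apply, mbLin_apply, h, h, sub_self]
  have h3 : ∀ z : E3, mbLin a z = 0 := by
    intro z
    have hz : z ∈ vectorSpan ℝ (Set.range x) := by rw [h1]; trivial
    exact h2 hz
  funext j
  have h4 := h3 (EuclideanSpace.single j 1)
  rw [mbLin_apply] at h4
  have h5 : ∑ i, a i * (EuclideanSpace.single j (1 : ℝ) : E3) i = a j := by
    rw [Finset.sum_eq_single j]
    · simp
    · intro b _ hb
      simp [hb]
    · intro hj
      exact absurd (Finset.mem_univ _) hj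
  rw [h5] at h4
  simpa using h4

theorem simpP_of_polytope {n : ℕ} (x : Fin n → E3) (hx : IsSimplicialPolytope x) :
    SimpP (fun v j => x v j) := by
  classical
  refine ⟨?_, ?_, ?_⟩
  · intro i
    have hn : x i ∉ convexHull ℝ (x '' {j | j ≠ i}) := by
      intro h
      exact (hx.convexIndependent {j | j ≠ i} i h) rfl
    have hfin : (x '' {j | j ≠ i}).Finite := Set.toFinite _
    obtain ⟨f, u, h1, h2⟩ := geometric_hahn_banach_closed_point (convex_convexHull ℝ _)
      (hfin.isClosed_convexHull (𝕜 := ℝ)) hn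
    obtain ⟨a, ha⟩ := mbCoefF f
    refine ⟨a, f (x i), fun v => ?_⟩
    by_cases hv : v = i
    · subst hv
      exact ⟨(ha _).symm.le, ⟨fun _ => rfl, fun _ => (ha _).symm⟩⟩
    · have h3 : f (x v) < f (x i) :=
        (h1 _ (subset_convexHull ℝ _ ⟨v, hv, rfl⟩)).trans h2
      refine ⟨(ha (x v)) ▸ h3.le, ⟨fun h => ?_, fun h => absurd h hv⟩⟩
      rw [← ha (x v)] at h
      exact absurd h h3.ne
  · intro a c h
    exact mb_full_of_polytope x hx.full a c h
  · intro a c ha hle μ hμ hs0 hs1
    by_contra hne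
    obtain ⟨v0, hv0⟩ : ∃ v, μ v ≠ 0 := by
      by_contra hcon
      push Not at hcon
      exact hne (funext hcon)
    have h0 : mbLin a (x v0) = c := by rw [mbLin_apply]; exact hμ v0 hv0
    have hl : ∀ i, mbLin a (x i) ≤ c := fun i => by rw [mbLin_apply]; exact hle i
    let F : Set E3 := {y ∈ hull x | ∀ z ∈ hull x, mbLin a z ≤ mbLin a y}
    have hF : IsExposed ℝ (hull x) F := fun _ => ⟨mbLin a, rfl⟩
    have hmem : ∀ v, x v ∈ F ↔ mbLin a (x v) = c := mb_mem_face x (mbLin a) c hl v0 h0
    have hFne : F ≠ hull x := by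
      intro hEq
      apply ha
      refine mb_full_of_polytope x hx.full a c fun v => ?_
      rw [← mbLin_apply]
      rw [← hmem, hEq]
      exact mb_mem_hull x v
    have hind := hx.simplicial F hF hFne
    rw [affineIndependent_iff] at hind
    have hout : ∀ v, ¬ x v ∈ F → μ v = 0 := by
      intro v hv
      by_contra hcon
      exact hv ((hmem v).2 (by rw [mbLin_apply]; exact hμ v hcon))
    have hs2 : ∑ i : {i // x i ∈ F}, μ i = 0 := by
      rw [mb_sum_sub (fun i => x i ∈ F) μ hout]; exact hs0
    have hs3 : ∑ i : {i // x i ∈ F}, μ i • x i = 0 := by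
      rw [mb_sum_sub (fun i => x i ∈ F) (fun i => μ i • x i) (fun i hi => by
        show μ i • x i = 0
        rw [hout i hi, zero_smul])]
      exact mb_sum_coord x μ hs1
    have := hind Finset.univ (fun i => μ i) hs2 hs3 ⟨v0, by
      rw [hmem]; exact h0⟩ (Finset.mem_univ _)
    exact hv0 this

theorem polytope_of_simpP {n : ℕ} (x : Fin n → E3) (hx : SimpP (fun v j => x v j)) :
    IsSimplicialPolytope x := by
  classical
  refine ⟨?_, ?_, ?_⟩
  · intro s i hi
    by_contra hn
    obtain ⟨a, c, h⟩ := hx.vert i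
    have hc : Convex ℝ {y : E3 | mbLin a y < c} := convex_halfSpace_lt (mbLin a).isLinear c
    have hsub : x '' s ⊆ {y : E3 | mbLin a y < c} := by
      rintro _ ⟨j, hj, rfl⟩
      change mbLin a (x j) < c
      rw [mbLin_apply]
      refine lt_of_le_of_ne (h j).1 fun he => ?_
      have h1 : j = i := (h j).2.1 he
      exact hn (h1 ▸ hj)
    have h2 : mbLin a (x i) < c := convexHull_min hsub hc hi
    rw [mbLin_apply] at h2
    exact h2.ne ((h i).2.2 rfl)
  · obtain ⟨v0⟩ : Nonempty (Fin n) := by
      by_contra hemp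
      have h1 := hx.full (fun _ => 1) 0 (fun v => absurd ⟨v⟩ hemp)
      have h2 := congrFun h1 0
      simp at h2
    by_contra hne
    have hd : vectorSpan ℝ (Set.range x) ≠ ⊤ := by
      intro h
      apply hne
      rw [← direction_affineSpan] at h
      exact (AffineSubspace.direction_eq_top_iff_of_nonempty (s := affineSpan ℝ (Set.range x))
        ⟨x v0, subset_affineSpan ℝ _ (Set.mem_range_self v0)⟩).1 h
    obtain ⟨f, hf0, hf⟩ := Submodule.exists_le_ker_of_lt_top _ (lt_top_iff_ne_top.2 hd)
    obtain ⟨a, ha⟩ := mbCoefL f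
    have h1 : a = 0 := by
      refine hx.full a (f (x v0)) fun v => ?_
      have h2 : x v -ᵥ x v0 ∈ vectorSpan ℝ (Set.range x) :=
        vsub_mem_vectorSpan ℝ (Set.mem_range_self v) (Set.mem_range_self v0)
      have h3 := hf h2
      rw [LinearMap.mem_ker, vsub_eq_sub, map_sub, sub_eq_zero] at h3
      rw [← h3, ha (x v)]
    apply hf0
    ext y
    rw [ha y, h1]
    simp
  · intro F hF hFne
    rcases F.eq_empty_or_nonempty with hE | hN
    · have : IsEmpty {i // x i ∈ F} := ⟨fun i => by
        have h1 : ∀ y : E3, y ∉ F := fun y => by rw [hE]; exact fun h => h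
        exact h1 _ i.2⟩
      exact affineIndependent_of_subsingleton ℝ _
    · obtain ⟨l, hl⟩ := hF hN
      obtain ⟨y0, hy0⟩ := hN
      obtain ⟨a, ha⟩ := mbCoefF l
      have hy0' := hy0
      rw [hl] at hy0'
      have hle : ∀ v, l (x v) ≤ l y0 := fun v => hy0'.2 _ (mb_mem_hull x v)
      have ha0 : a ≠ 0 := by
        intro h0
        apply hFne
        rw [hl]
        ext y
        constructor
        · exact fun h => h.1
        · refine fun h => ⟨h, fun z _ => ?_⟩
          rw [ha, ha, h0]
          simp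
      rw [affineIndependent_iff_of_fintype]
      intro w hw0 hw1 i
      rw [Finset.weightedVSub_eq_linear_combination _ hw0] at hw1
      let μ : Fin n → ℝ := fun v => if h : x v ∈ F then w ⟨v, h⟩ else 0
      have hμ0 : ∀ v, ¬ x v ∈ F → μ v = 0 := fun v hv => by simp [μ, hv]
      have hμ1 : ∀ i : {i // x i ∈ F}, μ i = w i := fun i => by simp [μ, i.2]
      have hs0 : ∑ v, μ v = 0 := by
        rw [← mb_sum_sub (fun i => x i ∈ F) μ hμ0, ← hw0]
        exact Finset.sum_congr rfl fun i _ => hμ1 i
      have hs1 : ∑ v, μ v • x v = 0 := by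
        rw [← mb_sum_sub (fun i => x i ∈ F) (fun i => μ i • x i) (fun i hi => by
          show μ i • x i = 0
          rw [hμ0 i hi, zero_smul]), ← hw1]
        exact Finset.sum_congr rfl fun i _ => by
          show μ i • x i = w i • x i
          rw [hμ1 i]
      have hres := hx.simp a (l y0) ha0 (fun v => by
        have := hle v
        rw [ha (x v)] at this
        exact this) μ (fun v hv => by
        have hvF : x v ∈ F := by
          by_contra hcon
          exact hv (hμ0 v hcon)
        have hvF' := hvF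
        rw [hl] at hvF'
        have h1 : l y0 ≤ l (x v) := hvF'.2 _ hy0'.1
        have h2 := le_antisymm (hle v) h1
        rw [ha (x v)] at h2
        exact h2) hs0 (mb_sum_coord' x μ hs1)
      rw [← hμ1 i, hres]
      rfl

end MP0e5907
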