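import Pool.Agent.Lib_MP_0e5907.MBase

/-!
# Piece MFACES: equal exposed vertex sets imply isomorphic face lattices

Paper proof. For `x : Fin n → E3` and a set `S` of indices call `S` admissible if `S = ∅` or `Expo (fun v j => x v j) S`. We show that `F ↦ idx F = {i | x i ∈ F}` is an order isomorphism from the face lattice onto the admissible sets (ordered by inclusion); then the theorem follows by composing the isomorphisms of `x` and `y` (the admissible sets are the same:
for `S ≠ ∅` by hypothesis).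
(1) Let `F` be exposed and nonempty, `F = {y ∈ hull x | ∀ z ∈ hull x, l z ≤ l y}`, `c` the maximal value of `l`, `l y = ∑ a_j y_j`. Then `l (x i) ≤ c` for all `i` with equality iff `x i ∈ F`: so `idx F` is admissible. Moreover `F = convexHull (x '' idx F)`: `⊇` by convexity of `F` (`IsExposed.convex` or directly); `⊆`: `y ∈ F` is a convex combination
`∑ w_i x i` (`mem_convexHull_of_exists_fintype`/`convexHull_range_eq_exists_affineCombination`/`Set.Finite.convexHull_eq`), `c = l y = ∑ w_i l (x i)`, so `w_i = 0` unless `l (x i) = c`. In particular `idx F ≠ ∅`.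
(2) For `F = ∅`: `idx F = ∅`. So `F = convexHull (x '' idx F)` in all cases, and `F ⊆ F' ↔ idx F ⊆ idx F'` (`convexHull_mono`).
(3) Surjectivity: `S = ∅` is `idx ∅` (`∅` is exposed: vacuous). If `Expo S`, `S ≠ ∅`, with `(a,c)`: `l y = ∑ a_j y_j` (a continuous linear map), `F = {y ∈ hull x | ∀ z ∈ hull x, l z ≤ l y}` is exposed; the maximum of `l` on the hull is `c` (attained at `x i`, `i ∈ S`), so `idx F = S`.
If moreover `n` is arbitrary and `S` may be `∅` with `Expo S`, nothing changes.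
-/

namespace MP0e5907

/-- admissible index sets -/
private def mfacesAdm {n : ℕ} (x : Fin n → E3) (S : Set (Fin n)) : Prop :=
  S = ∅ ∨ Expo (fun v j => x v j) S

/-- a nonempty exposed face as the contact set of a functional -/
private theorem mfaces_lin {n : ℕ} {x : Fin n → E3} {F : Set E3} (hF : IsExposed ℝ (hull x) F)
    (hne : F.Nonempty) : ∃ (l : StrongDual ℝ E3) (c : ℝ), (∀ y ∈ hull x, l y ≤ c) ∧
      ∀ y, y ∈ F ↔ y ∈ hull x ∧ l y = c := by
  obtain ⟨l, hl⟩ := hF hne
  obtain ⟨y0, hy0⟩ := hne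
  have h0 : y0 ∈ hull x ∧ ∀ z ∈ hull x, l z ≤ l y0 := by
    rw [hl] at hy0
    exact hy0
  refine ⟨l, l y0, h0.2, fun y => ?_⟩
  rw [hl]
  constructor
  · intro hy
    exact ⟨hy.1, le_antisymm (h0.2 y hy.1) (hy.2 y0 h0.1)⟩
  · rintro ⟨hy, he⟩
    refine ⟨hy, fun z hz => ?_⟩
    rw [he]
    exact h0.2 z hz

private theorem mfaces_hull {n : ℕ} (x : Fin n → E3) (i : Fin n) : x i ∈ hull x :=
  subset_convexHull ℝ _ (Set.mem_range_self i)

/-- an exposed face is spanned by its vertices -/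
private theorem mfaces_span {n : ℕ} {x : Fin n → E3} {F : Set E3} (hF : IsExposed ℝ (hull x) F) :
    F = convexHull ℝ (x '' {i | x i ∈ F}) := by
  classical
  rcases F.eq_empty_or_nonempty with rfl | hne
  · have h1 : {i : Fin n | x i ∈ (∅ : Set E3)} = ∅ := rfl
    rw [h1, Set.image_empty, convexHull_empty]
  obtain ⟨l, c, hc, hFl⟩ := mfaces_lin hF hne
  apply Set.Subset.antisymm
  · intro y hy
    obtain ⟨hyh, hyc⟩ := (hFl y).1 hy
    obtain ⟨ι, _, w, z, hw0, hw1, hz, rfl⟩ := mem_convexHull_iff_exists_fintype.1 hyh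
    have hzero : ∀ i, w i ≠ 0 → z i ∈ F := by
      have h2 : ∑ i, w i * (c - l (z i)) = 0 := by
        have h3 : ∑ i, w i * (c - l (z i)) = (∑ i, w i) * c - l (∑ i, w i • z i) := by
          rw [map_sum, Finset.sum_mul, ← Finset.sum_sub_distrib]
          refine Finset.sum_congr rfl fun i _ => ?_
          rw [map_smul, smul_eq_mul]
          ring
        rw [h3, hw1, hyc]
        ring
      have h4 : ∀ i, z i ∈ hull x := fun i => subset_convexHull ℝ _ (hz i)
      intro i hi
      have h5 := (Finset.sum_eq_zero_iff_of_nonneg (fun i _ =>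
        mul_nonneg (hw0 i) (sub_nonneg.2 (hc _ (h4 i))))).1 h2 i (Finset.mem_univ i)
      exact (hFl _).2 ⟨h4 i, (sub_eq_zero.1 ((mul_eq_zero.1 h5).resolve_left hi)).symm⟩
    rw [← Fintype.sum_subset (s := {i | w i ≠ 0})
      fun i hi => Finset.mem_filter.2 ⟨Finset.mem_univ _, left_ne_zero_of_smul hi⟩]
    refine (convex_convexHull ℝ _).sum_mem (fun i _ => hw0 _) (by rwa [Finset.sum_filter_ne_zero])
      fun i hi => subset_convexHull ℝ _ ?_
    obtain ⟨j, hj⟩ := hz i
    refine ⟨j, ?_, hj⟩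
    show x j ∈ F
    rw [hj]
    exact hzero i (Finset.mem_filter.1 hi).2
  · refine convexHull_min ?_ (hF.convex (convex_convexHull ℝ _))
    rintro _ ⟨i, hi, rfl⟩
    exact hi

private theorem mfaces_adm {n : ℕ} {x : Fin n → E3} {F : Set E3} (hF : IsExposed ℝ (hull x) F) :
    mfacesAdm x {i | x i ∈ F} := by
  rcases F.eq_empty_or_nonempty with rfl | hne
  · exact Or.inl rfl
  right
  obtain ⟨l, c, hc, hFl⟩ := mfaces_lin hF hne
  refine ⟨fun j => l (EuclideanSpace.single j 1), c, fun v => ?_⟩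
  have h1 : ∑ j, l (EuclideanSpace.single j 1) * x v j = l (x v) := by
    have h2 : x v = ∑ j, x v j • (EuclideanSpace.single j (1 : ℝ) : E3) := by
      ext i
      simp [Pi.single_apply]
    conv_rhs => rw [h2]
    rw [map_sum]
    refine Finset.sum_congr rfl fun j _ => ?_
    rw [map_smul, smul_eq_mul, mul_comm]
  rw [h1]
  refine ⟨hc _ (mfaces_hull x v), ?_⟩
  constructor
  · intro h
    exact (hFl _).2 ⟨mfaces_hull x v, h⟩
  · intro h
    exact ((hFl _).1 h).2

private theorem mfaces_surj {n : ℕ} {x : Fin n → E3} {S : Set (Fin n)} (hS : mfacesAdm x S) :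
    ∃ F, IsExposed ℝ (hull x) F ∧ {i | x i ∈ F} = S := by
  rcases S.eq_empty_or_nonempty with rfl | hne
  · exact ⟨∅, fun h => absurd h Set.not_nonempty_empty, rfl⟩
  obtain ⟨a, c, hac⟩ := hS.resolve_left hne.ne_empty
  obtain ⟨l, hl⟩ : ∃ l : StrongDual ℝ E3, ∀ y, l y = ∑ j, a j * y j := by
    refine ⟨∑ j, a j • (EuclideanSpace.proj j : E3 →L[ℝ] ℝ), fun y => ?_⟩
    simp
  have hle : ∀ y ∈ hull x, l y ≤ c := by
    intro y hy
    refine convexHull_min (s := Set.range x) (t := {y | l y ≤ c}) ?_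
      (convex_halfSpace_le l.toLinearMap.isLinear c) hy
    rintro _ ⟨i, rfl⟩
    show l (x i) ≤ c
    rw [hl]
    exact (hac i).1
  refine ⟨{y | y ∈ hull x ∧ ∀ z ∈ hull x, l z ≤ l y}, fun _ => ⟨l, rfl⟩, ?_⟩
  obtain ⟨i0, hi0⟩ := hne
  have h0 : l (x i0) = c := by
    rw [hl]
    exact (hac i0).2.2 hi0
  ext i
  constructor
  · intro hi
    have h1 : l (x i0) ≤ l (x i) := hi.2 _ (mfaces_hull x i0)
    rw [h0] at h1
    have h2 := le_antisymm (hle _ (mfaces_hull x i)) h1
    rw [hl] at h2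
    exact (hac i).2.1 h2
  · intro hi
    have h1 : l (x i) = c := by
      rw [hl]
      exact (hac i).2.2 hi
    refine ⟨mfaces_hull x i, fun z hz => ?_⟩
    rw [h1]
    exact hle z hz

/-- the face lattice is the poset of admissible index sets -/
private theorem mfaces_iso {n : ℕ} (x : Fin n → E3) :
    Nonempty (FaceLattice x ≃o {S : Set (Fin n) // mfacesAdm x S}) := by
  have hle : ∀ F G : FaceLattice x, (⟨{i | x i ∈ F.1}, mfaces_adm F.2⟩ :
      {S : Set (Fin n) // mfacesAdm x S}) ≤ ⟨{i | x i ∈ G.1}, mfaces_adm G.2⟩ ↔ F ≤ G := by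
    intro F G
    constructor
    · intro h
      show F.1 ⊆ G.1
      rw [mfaces_span F.2, mfaces_span G.2]
      exact convexHull_mono (Set.image_mono h)
    · intro h i hi
      exact h hi
  refine ⟨RelIso.ofSurjective (OrderEmbedding.ofMapLEIff (fun F : FaceLattice x =>
    (⟨{i | x i ∈ F.1}, mfaces_adm F.2⟩ : {S : Set (Fin n) // mfacesAdm x S})) hle) ?_⟩
  rintro ⟨S, hS⟩
  obtain ⟨F, hF, he⟩ := mfaces_surj hS
  exact ⟨⟨F, hF⟩, Subtype.ext he⟩

theorem sameType_of_expo {n : ℕ} (x y : Fin n → E3)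
    (h : ∀ S : Set (Fin n), S.Nonempty → (Expo (fun v j => x v j) S ↔ Expo (fun v j => y v j) S)) :
    SameType x y := by
  obtain ⟨e1⟩ := mfaces_iso x
  obtain ⟨e2⟩ := mfaces_iso y
  have h1 : ∀ S, mfacesAdm x S ↔ mfacesAdm y S := by
    intro S
    unfold mfacesAdm
    rcases S.eq_empty_or_nonempty with rfl | hne
    · simp
    · rw [h S hne]
  have e3 : {S : Set (Fin n) // mfacesAdm x S} ≃o {S : Set (Fin n) // mfacesAdm y S} :=
    ⟨Equiv.subtypeEquivRight h1, Iff.rfl⟩
  exact ⟨(e1.trans e3).trans e2.symm⟩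

end MP0e5907
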