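import Pool.Agent.Lib_MP_0e5907.LBase

/-!
# Piece MSIMP: the exposed sets determine that a family is the vertex family of a simplicial polytope

Statement: `V` finite, `y : V → ℝ³`, `r : Fin 3 → V`, `G` a family of vertex sets, such that every `v` is in some member of `G`, there is a vertex `u0` that is no `r i`, `{u0}`... and for nonempty `S`: `Expo y S` iff `S = univ` or `S ⊆` a member of `G` or `S ⊆ {r 0, r 1, r 2}`; `r` injective.

Paper proof.
* (A) If all nonempty subsets of a set `T` are exposed then the points `y v`, `v ∈ T`, are affinely independent in the following sense: `μ : V → ℝ` with `μ v ≠ 0 → v ∈ T`, `∑ μ = 0`, `∑ μ_v y v j = 0` (all `j`) implies `μ = 0`. Proof: suppose `μ ≠ 0`; then `S = {v | μ v > 0}` is nonempty (sum zero) and contained in `T`. Let `(b,d)` expose `S`: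
 `0 = ∑_v μ_v (b·y_v - d) = ∑_{v ∉ S} μ_v (b·y_v - d)`, and for `v ∉ S`: `μ_v ≤ 0`, `b·y_v - d < 0`, so all terms are `≥ 0`, hence `μ_v = 0` for `v ∉ S`, and `∑_{S} μ_v = 0` contradicts `μ > 0` on `S`.
* `vert`: `{v}` is a subset of a member of `G`.
* `full`: let `a·y_v = c` for all `v`. The four points `r 0, r 1, r 2, u0` are affinely independent: let `μ` be a relation supported on them; `(b,d)` exposing `{r 0, r 1, r 2}` (a nonempty subset of the corners): `0 = ∑ μ_v (b·y_v - d) = μ_{u0} (b·y_{u0} - d)` and `b·y_{u0} < d`, so `μ_{u0} = 0`, and then `μ = 0` by (A) with `T = {r 0, r 1, r 2}`. So the four vectors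
 `(y_v, 1) ∈ ℝ⁴` are linearly independent, hence span `ℝ⁴`; the functional `(a,-c)` vanishes on them, so `a = 0`.
* `simp`: `(a,c)` supporting with `a ≠ 0` and contact set `C`. If `C = ∅` then `μ = 0`. Otherwise `Expo y C`, `C ≠ univ` (by `full`), so `C` is contained in a member of `G` or in the corners, and so all nonempty subsets of `C` are exposed. Apply (A).
-/

namespace MP0e5907

open Finset

/-- (A): a set all of whose nonempty subsets are exposed is affinely independent -/
theorem msimp_indep {V : Type} [Fintype V] (y : V → Fin 3 → ℝ) (T : Set V)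
    (hT : ∀ S : Set V, S.Nonempty → S ⊆ T → Expo y S) (μ : V → ℝ) (hμ : ∀ v, μ v ≠ 0 → v ∈ T)
    (h0 : ∑ v, μ v = 0) (h1 : ∀ j, ∑ v, μ v * y v j = 0) : μ = 0 := by
  classical
  by_contra hne
  obtain ⟨v0, hv0⟩ : ∃ v, μ v ≠ 0 := by
    by_contra hcon
    push Not at hcon
    exact hne (funext hcon)
  have hS : ({v | 0 < μ v} : Set V).Nonempty := by
    by_contra hcon
    rw [Set.not_nonempty_iff_eq_empty] at hcon
    have h2 : ∀ v, μ v ≤ 0 := by
      intro v
      by_contra h3
      have h4 : v ∈ ({v | 0 < μ v} : Set V) := not_le.1 h3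
      rw [hcon] at h4
      exact h4
    exact hv0 ((Finset.sum_eq_zero_iff_of_nonpos fun v _ => h2 v).1 h0 v0 (Finset.mem_univ v0))
  obtain ⟨b, d, hbd⟩ := hT _ hS fun v hv => hμ v (ne_of_gt hv)
  have h2 : ∑ v, μ v * (∑ j, b j * y v j - d) = 0 := by
    have h3 : ∀ v, μ v * (∑ j, b j * y v j - d) = ∑ j, b j * (μ v * y v j) - d * μ v := by
      intro v
      rw [mul_sub, Finset.mul_sum]
      congr 1
      · exact Finset.sum_congr rfl fun j _ => by ring
      · ring
    simp only [h3]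
    rw [Finset.sum_sub_distrib, Finset.sum_comm, ← Finset.mul_sum, h0]
    simp only [← Finset.mul_sum, h1]
    simp
  have h4 : ∀ v, 0 ≤ μ v * (∑ j, b j * y v j - d) := by
    intro v
    obtain ⟨h5, h6⟩ := hbd v
    by_cases h7 : 0 < μ v
    · rw [h6.2 h7, sub_self, mul_zero]
    · exact mul_nonneg_of_nonpos_of_nonpos (not_lt.1 h7) (sub_nonpos.2 h5)
  have h5 := (Finset.sum_eq_zero_iff_of_nonneg fun v _ => h4 v).1 h2
  have h6 : ∀ v, 0 ≤ μ v := by
    intro v
    by_contra h7
    have h8 := h5 v (Finset.mem_univ v)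
    obtain ⟨h9, h10⟩ := hbd v
    rcases mul_eq_zero.1 h8 with h11 | h11
    · exact h7 h11.ge
    · exact h7 (le_of_lt (h10.1 (sub_eq_zero.1 h11)))
  exact hv0 ((Finset.sum_eq_zero_iff_of_nonneg fun v _ => h6 v).1 h0 v0 (Finset.mem_univ v0))

theorem msimp_full {V : Type} [Fintype V] (y : V → Fin 3 → ℝ) (r : Fin 3 → V)
    (hr : Function.Injective r) (u0 : V) (hu0 : ∀ i, u0 ≠ r i)
    (h : ∀ S : Set V, S.Nonempty → (∀ v ∈ S, ∃ j, v = r j) → Expo y S)
    (a : Fin 3 → ℝ) (c : ℝ) (ha : ∀ v, ∑ j, a j * y v j = c) : a = 0 := by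
  classical
  by_contra hne
  set p : Fin 4 → V := Fin.cons u0 r with hp
  have hpinj : Function.Injective p := by
    rw [hp, Fin.cons_injective_iff]
    refine ⟨?_, hr⟩
    rintro ⟨i, hi⟩
    exact hu0 i hi.symm
  set M : Matrix (Fin 4) (Fin 4) ℝ := fun i => Fin.cons 1 (y (p i)) with hM
  have hdet : M.det = 0 := by
    rw [← Matrix.exists_mulVec_eq_zero_iff]
    refine ⟨Fin.cons (-c) a, ?_, ?_⟩
    · intro h0
      apply hne
      funext j
      have h1 := congrFun h0 j.succ
      simpa using h1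
    · funext i
      show ∑ j, M i j * (Fin.cons (-c) a : Fin 4 → ℝ) j = 0
      rw [Fin.sum_univ_succ]
      simp only [hM, Fin.cons_zero, Fin.cons_succ]
      have h1 := ha (p i)
      have h2 : ∑ j, y (p i) j * a j = c := by
        rw [← h1]
        exact Finset.sum_congr rfl fun j _ => mul_comm _ _
      rw [h2]
      ring
  obtain ⟨ν, hν0, hν⟩ := Matrix.exists_vecMul_eq_zero_iff.2 hdet
  have hν1 : ∑ i, ν i = 0 := by
    have h1 := congrFun hν 0
    have h2 : ∑ i, ν i * M i 0 = 0 := h1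
    simpa [hM] using h2
  have hν2 : ∀ j, ∑ i, ν i * y (p i) j = 0 := by
    intro j
    have h1 := congrFun hν j.succ
    have h2 : ∑ i, ν i * M i j.succ = 0 := h1
    simpa [hM] using h2
  set μ : V → ℝ := fun v => ∑ i, if p i = v then ν i else 0 with hμ
  have hsum : ∀ f : V → ℝ, ∑ v, μ v * f v = ∑ i, ν i * f (p i) := by
    intro f
    simp only [hμ, Finset.sum_mul]
    rw [Finset.sum_comm]
    refine Finset.sum_congr rfl fun i _ => ?_
    simp [ite_mul]
  have hμp : ∀ i, μ (p i) = ν i := by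
    intro i
    simp only [hμ]
    rw [Finset.sum_eq_single i]
    · rw [if_pos rfl]
    · intro k _ hk
      rw [if_neg fun h2 => hk (hpinj h2)]
    · intro h2
      exact absurd (Finset.mem_univ i) h2
  have hμ1 : ∑ v, μ v = 0 := by
    have h1 := hsum fun _ => 1
    simpa [hν1] using h1
  have hμ2 : ∀ j, ∑ v, μ v * y v j = 0 := fun j => (hsum fun v => y v j).trans (hν2 j)
  -- the corners
  obtain ⟨b, d, hbd⟩ := h {v | ∃ j, v = r j} ⟨r 0, 0, rfl⟩ fun v hv => hv
  have hν00 : ν 0 = 0 := by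
    have h1 : ∑ i, ν i * (∑ j, b j * y (p i) j - d) = 0 := by
      have h3 : ∀ i, ν i * (∑ j, b j * y (p i) j - d) =
          ∑ j, b j * (ν i * y (p i) j) - d * ν i := by
        intro i
        rw [mul_sub, Finset.mul_sum]
        congr 1
        · exact Finset.sum_congr rfl fun j _ => by ring
        · ring
      simp only [h3]
      rw [Finset.sum_sub_distrib, Finset.sum_comm, ← Finset.mul_sum, hν1]
      simp only [← Finset.mul_sum, hν2]
      simp
    rw [Fin.sum_univ_succ] at h1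
    have h2 : ∀ i : Fin 3, ν i.succ * (∑ j, b j * y (p i.succ) j - d) = 0 := by
      intro i
      have h3 : p i.succ = r i := by rw [hp, Fin.cons_succ]
      rw [h3, ((hbd (r i)).2).2 ⟨i, rfl⟩, sub_self, mul_zero]
    rw [Finset.sum_eq_zero fun i _ => h2 i, add_zero] at h1
    rcases mul_eq_zero.1 h1 with h3 | h3
    · exact h3
    · have h4 : p 0 = u0 := by rw [hp, Fin.cons_zero]
      rw [h4] at h3
      obtain ⟨i, hi⟩ := ((hbd u0).2).1 (sub_eq_zero.1 h3)
      exact absurd hi (hu0 i)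
  have hμ0 : μ = 0 := by
    refine msimp_indep y {v | ∃ j, v = r j} (fun S hS hST => h S hS hST) μ (fun v hv => ?_) hμ1 hμ2
    obtain ⟨i, -, hi⟩ := Finset.exists_ne_zero_of_sum_ne_zero hv
    have h1 : p i = v := by
      by_contra h2
      exact hi (if_neg h2)
    rw [if_pos h1] at hi
    rcases Fin.eq_zero_or_eq_succ i with h2 | ⟨k, h2⟩
    · rw [h2] at hi
      exact absurd hν00 hi
    · refine ⟨k, ?_⟩
      rw [← h1, h2, hp, Fin.cons_succ]
  apply hν0
  funext i
  rw [← hμp i, hμ0]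
  rfl

theorem simpP_of_expo {V : Type} [Fintype V] (y : V → Fin 3 → ℝ) (r : Fin 3 → V) (hr : Function.Injective r)
    (u0 : V) (hu0 : ∀ i, u0 ≠ r i) (G : Set (Set V)) (hG : ∀ v, ∃ g ∈ G, v ∈ g)
    (h : ∀ S : Set V, S.Nonempty → (Expo y S ↔
      S = Set.univ ∨ (∃ g ∈ G, S ⊆ g) ∨ (∀ v ∈ S, ∃ j, v = r j))) : SimpP y := by
  have hexp : ∀ T : Set V, ((∃ g ∈ G, T ⊆ g) ∨ (∀ v ∈ T, ∃ j, v = r j)) →
      ∀ S : Set V, S.Nonempty → S ⊆ T → Expo y S := by
    intro T hT S hS hST
    refine (h S hS).2 (Or.inr ?_)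
    rcases hT with ⟨g, hg, hTg⟩ | hT
    · exact Or.inl ⟨g, hg, hST.trans hTg⟩
    · exact Or.inr fun v hv => hT v (hST hv)
  have hfull : ∀ (a : Fin 3 → ℝ) (c : ℝ), (∀ v, ∑ j, a j * y v j = c) → a = 0 :=
    msimp_full y r hr u0 hu0 fun S hS hSr => (h S hS).2 (Or.inr (Or.inr hSr))
  refine ⟨fun v => ?_, hfull, fun a c ha hsup μ hμ h0 h1 => ?_⟩
  · obtain ⟨g, hg, hvg⟩ := hG v
    exact (h {v} (Set.singleton_nonempty v)).2
      (Or.inr (Or.inl ⟨g, hg, Set.singleton_subset_iff.2 hvg⟩))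
  · by_cases hC : ({v | ∑ j, a j * y v j = c} : Set V).Nonempty
    · rcases (h _ hC).1 ⟨a, c, fun v => ⟨hsup v, Iff.rfl⟩⟩ with h2 | h2
      · refine absurd (hfull a c fun v => ?_) ha
        have h3 : v ∈ ({v | ∑ j, a j * y v j = c} : Set V) := by
          rw [h2]
          exact Set.mem_univ v
        exact h3
      · exact msimp_indep y _ (hexp _ h2) μ hμ h0 h1
    · funext v
      by_contra hv
      exact hC ⟨v, hμ v hv⟩

end MP0e5907
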