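import Pool.Agent.Lib_MP_0e5907.Realise
import Pool.Agent.Lib_MP_0e5907.CFinal
import Pool.Agent.Lib_MP_0e5907.DFinal
import Pool.Agent.Lib_MP_0e5907.KZ
import Pool.Agent.Lib_MP_0e5907.KExpo
import Pool.Agent.Lib_MP_0e5907.LNF
import Pool.Agent.Lib_MP_0e5907.MBridge
import Pool.Agent.Lib_MP_0e5907.MFaces
import Pool.Agent.Lib_MP_0e5907.MSimp

/-!
# Piece MAIN: assembly

Paper proof. Let `x` be the vertex list of a simplicial 3-polytope. `simpP_of_polytope`, `to_nf` give `r, X, h`, `NF`; `nf_atc`, `atc_co` give `w`, `L`; `co_stri` gives `T : STri N F`, `N = {v // ∀ i, v ≠ r i}`, `F = {f // f ∈ L}`, with `Sum.elim val r (T.vert f k) = lab f.1 k`. `N` is nonempty (`to_nf`). Let `emb : N ⊕ Fin 3 ≃ Fin n` be the equivalence given by `Sum.elim val r`;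
`card N + 3 = n`. `stri_realise T` gives `Y`; put `y v j = Y (emb.symm v) j`. `Expo` is invariant under reindexing by `emb`. For a nonempty `S`: `Expo y S` iff `S = univ`, or there is `f ∈ L` such that every `v ∈ S` is a label of `f` (iff `S ⊆ fset f`; and `L.image fset = FF X h`), or all elements of `S` are corners. By `to_nf` and `nf_expo` the same holds for `Expo x S`.
So the exposed sets of `x` and `y` agree for nonempty `S`: `sameType_of_expo`. `y` is simplicial: `simpP_of_expo` with `G = {↑g | g ∈ FF X h}` (`nf_covered`), `polytope_of_simpP`.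
-/

namespace MP0e5907

open Finset

theorem main_reindex {V W : Type} (e : W ≃ V) (y : W → Fin 3 → ℝ) (S : Set V) :
    Expo (fun v => y (e.symm v)) S ↔ Expo y (e ⁻¹' S) := by
  constructor
  · rintro ⟨a, c, h⟩
    refine ⟨a, c, fun w => ?_⟩
    have h1 := h (e w)
    dsimp only at h1
    rw [e.symm_apply_apply] at h1
    exact h1
  · rintro ⟨a, c, h⟩
    refine ⟨a, c, fun v => ?_⟩
    have h1 := h (e.symm v)
    rw [Set.mem_preimage, e.apply_symm_apply] at h1
    exact h1

theorem main_fset {V : Type} [DecidableEq V] (f : V × V × V) (v : V) :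
    v ∈ fset f ↔ ∃ k, lab f k = v := by
  unfold fset lab
  rw [Finset.mem_insert, Finset.mem_insert, Finset.mem_singleton]
  constructor
  · rintro (h | h | h)
    · exact ⟨0, h.symm⟩
    · exact ⟨1, h.symm⟩
    · exact ⟨2, h.symm⟩
  · rintro ⟨k, hk⟩
    fin_cases k
    · exact Or.inl hk.symm
    · exact Or.inr (Or.inl hk.symm)
    · exact Or.inr (Or.inr hk.symm)

theorem main_theorem {n : ℕ} (x : Fin n → E3) (hx : IsSimplicialPolytope x) :
    ∃ y : Fin n → E3, IsSimplicialPolytope y ∧ SameType x y ∧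
      ∀ i j, ∃ k : ℕ, y i j = k ∧ (k : ℝ) ≤ Real.exp (293 * (Real.log n) ^ 2) := by
  have hs := simpP_of_polytope x hx
  obtain ⟨r, X, h, hN, ⟨u0, hu0⟩, hex⟩ := to_nf hs
  obtain ⟨w, L, hCO, hw1, hL⟩ := atc_co r (FF X h) (nf_atc hN)
  obtain ⟨T, hT⟩ := co_stri r hN.rinj w L hCO hw1
  have hne : Nonempty {v : Fin n // ∀ i, v ≠ r i} := ⟨⟨u0, hu0⟩⟩
  obtain ⟨Y, hYb, _, _, hYe⟩ := stri_realise T
  have hcard : Fintype.card {v : Fin n // ∀ i, v ≠ r i} + 3 = n := by
    have h2 := Fintype.card_congr (cfinE r hN.rinj)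
    rw [Fintype.card_sum, Fintype.card_fin, Fintype.card_fin] at h2
    exact h2
  have hcard' : ((Fintype.card {v : Fin n // ∀ i, v ≠ r i} : ℝ)) + 3 = n := by
    exact_mod_cast hcard
  rw [hcard'] at hYb
  have hembv : ∀ f k, cfinE r hN.rinj (T.vert f k) = lab f.1 k := fun f k => hT f k
  -- the exposed sets
  have hQ : ∀ S : Set (Fin n), S.Nonempty →
      (Expo (fun v => fun j => (Y ((cfinE r hN.rinj).symm v) j : ℝ)) S ↔
        S = Set.univ ∨ (∃ g ∈ FF X h, ∀ v ∈ S, v ∈ g) ∨ (∀ v ∈ S, ∃ j, v = r j)) := by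
    intro S hS
    rw [main_reindex (cfinE r hN.rinj) (fun v j => (Y v j : ℝ)) S]
    have hne' : ((cfinE r hN.rinj) ⁻¹' S).Nonempty := by
      obtain ⟨v, hv⟩ := hS
      exact ⟨(cfinE r hN.rinj).symm v, by rwa [Set.mem_preimage, Equiv.apply_symm_apply]⟩
    rw [hYe _ hne']
    refine or_congr ?_ (or_congr ?_ ?_)
    · constructor
      · intro h1
        ext v
        have h2 : (cfinE r hN.rinj).symm v ∈ (cfinE r hN.rinj) ⁻¹' S := by
          rw [h1]
          trivial
        rw [Set.mem_preimage, Equiv.apply_symm_apply] at h2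
        exact ⟨fun _ => trivial, fun _ => h2⟩
      · rintro rfl
        rfl
    · constructor
      · rintro ⟨f, hf⟩
        refine ⟨fset f.1, ?_, ?_⟩
        · rw [← hL]
          exact Finset.mem_image_of_mem _ f.2
        · intro v hv
          obtain ⟨k, hk⟩ := hf ((cfinE r hN.rinj).symm v) (by
            rwa [Set.mem_preimage, Equiv.apply_symm_apply])
          rw [main_fset]
          refine ⟨k, ?_⟩
          rw [← hembv, hk, Equiv.apply_symm_apply]
      · rintro ⟨g, hg, hgS⟩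
        rw [← hL, Finset.mem_image] at hg
        obtain ⟨f, hf, rfl⟩ := hg
        refine ⟨⟨f, hf⟩, ?_⟩
        intro v hv
        have h1 := hgS _ hv
        rw [main_fset] at h1
        obtain ⟨k, hk⟩ := h1
        refine ⟨k, ?_⟩
        apply (cfinE r hN.rinj).injective
        rw [hembv, hk]
    · constructor
      · intro h1 v hv
        obtain ⟨j, hj⟩ := h1 ((cfinE r hN.rinj).symm v) (by
          rwa [Set.mem_preimage, Equiv.apply_symm_apply])
        refine ⟨j, ?_⟩
        rw [Equiv.symm_apply_eq] at hj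
        exact hj
      · intro h1 v hv
        obtain ⟨j, hj⟩ := h1 _ hv
        refine ⟨j, ?_⟩
        apply (cfinE r hN.rinj).injective
        exact hj
  refine ⟨fun v => WithLp.toLp 2 (fun j => (Y ((cfinE r hN.rinj).symm v) j : ℝ)), ?_, ?_, ?_⟩
  · refine polytope_of_simpP _ ?_
    refine simpP_of_expo _ r hN.rinj u0 hu0 {g : Set (Fin n) | ∃ f ∈ FF X h, g = (f : Set (Fin n))} ?_ ?_
    · intro v
      obtain ⟨g, hg, hv⟩ := nf_covered hN v
      exact ⟨(g : Set (Fin n)), ⟨g, hg, rfl⟩, Finset.mem_coe.2 hv⟩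
    · intro S hS
      have h1 := hQ S hS
      refine h1.trans (or_congr Iff.rfl (or_congr ?_ Iff.rfl))
      constructor
      · rintro ⟨g, hg, hgS⟩
        exact ⟨(g : Set (Fin n)), ⟨g, hg, rfl⟩, fun v hv => Finset.mem_coe.2 (hgS v hv)⟩
      · rintro ⟨_, ⟨g, hg, rfl⟩, hgS⟩
        exact ⟨g, hg, fun v hv => Finset.mem_coe.1 (hgS hv)⟩
  · refine sameType_of_expo _ _ ?_
    intro S hS
    exact ((hex S).trans (nf_expo hN S hS)).trans (hQ S hS).symm
  · intro i j
    exact ⟨Y ((cfinE r hN.rinj).symm i) j, rfl, hYb _ _⟩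

end MP0e5907
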