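import Mathlib

/-!
# Piece NUMERIC: the final bound is `exp (C (log m)^2)`, `m = n + 3` = number of vertices

Paper proof. Let `n ≥ 1`, `m = n + 3 ≥ 4`, `L = log m ≥ 1` (`log 4 > 1`). Let `t = ⌈log (2n+1) / log (6/5)⌉₊`. Then `(6/5)^t ≥ 2n+1 > (2n+1)/2`, i.e. `5^t (2n+1) < 2 * 6^t`.
`log (6/5) ≥ 1/6` (`Real.one_sub_inv_le_log_of_pos`: `log x ≥ 1 - 1/x`), `log (2n+1) ≤ log (m^2) = 2L` (`2n+1 ≤ m^2`), so `t ≤ 12 L + 1 ≤ 13 L`.
`18 (n+1)^2 ≤ m^5` (`m ≥ 4`: `m^5 ≥ 64 m^2 ≥ 18 m^2`), `1 + 3n ≤ m^2`, `960 (n+3)^2 ≤ m^7` (`4^5 = 1024`). So the product is at most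
`m^7 * (m^5)^(2t) * (m^2)^(6t) = m^(7 + 22 t)`, whose log is `(7 + 22 t) L ≤ (7 + 286 L) L ≤ 293 L^2`. So `C = 293` works.
-/

namespace MP0e5907

theorem numeric (n : ℕ) (hn : 1 ≤ n) :
    ∃ t : ℕ, 5 ^ t * (2 * n + 1) < 2 * 6 ^ t ∧
      960 * ((n : ℝ) + 3) ^ 2 * (18 * ((n : ℝ) + 1) ^ 2) ^ (2 * t) * (1 + 3 * (n : ℝ)) ^ (6 * t) ≤
        Real.exp (293 * (Real.log ((n : ℝ) + 3)) ^ 2) := by
  have hn' : (1 : ℝ) ≤ n := by exact_mod_cast hn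
  obtain ⟨m, hm⟩ : ∃ m : ℝ, m = n + 3 := ⟨_, rfl⟩
  have hm4 : 4 ≤ m := by linarith
  have hm0 : 0 < m := by linarith
  obtain ⟨L, hL⟩ : ∃ L : ℝ, L = Real.log m := ⟨_, rfl⟩
  have hL1 : 1 ≤ L := by
    rw [hL, Real.le_log_iff_exp_le hm0]
    have := Real.exp_one_lt_d9
    linarith
  have h65 : (1 : ℝ) / 6 ≤ Real.log (6 / 5) := by
    have h := Real.one_sub_inv_le_log_of_pos (show (0 : ℝ) < 6 / 5 by norm_num)
    norm_num at h ⊢
    exact h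
  have h65' : 0 < Real.log (6 / 5) := by linarith
  have h21 : (0 : ℝ) < 2 * n + 1 := by linarith
  have hlog : Real.log (2 * n + 1) ≤ 2 * L := by
    have h1 : Real.log (2 * n + 1) ≤ Real.log (m ^ 2) := by
      refine Real.log_le_log h21 ?_
      rw [hm]
      nlinarith
    rw [Real.log_pow, ← hL] at h1
    exact_mod_cast h1
  have hlog0 : 0 ≤ Real.log (2 * n + 1) := Real.log_nonneg (by linarith)
  let t := ⌈Real.log (2 * n + 1) / Real.log (6 / 5)⌉₊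
  have ht1 : Real.log (2 * n + 1) / Real.log (6 / 5) ≤ t := Nat.le_ceil _
  have ht2 : (t : ℝ) ≤ 13 * L := by
    have h1 : (t : ℝ) < Real.log (2 * n + 1) / Real.log (6 / 5) + 1 :=
      Nat.ceil_lt_add_one (div_nonneg hlog0 h65'.le)
    have h2 : Real.log (2 * n + 1) / Real.log (6 / 5) ≤ 12 * L := by
      rw [div_le_iff₀ h65']
      nlinarith
    linarith
  refine ⟨t, ?_, ?_⟩
  · have h1 : Real.log (2 * n + 1) ≤ t * Real.log (6 / 5) := by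
      rwa [div_le_iff₀ h65'] at ht1
    have h2 : (2 * n + 1 : ℝ) ≤ (6 / 5) ^ t := by
      rw [← Real.log_pow] at h1
      exact (Real.log_le_log_iff h21 (by positivity)).1 h1
    have h3 : (5 : ℝ) ^ t * (2 * n + 1) ≤ 6 ^ t := by
      rw [div_pow, le_div_iff₀ (by positivity)] at h2
      linarith
    have h4 : 5 ^ t * (2 * n + 1) ≤ 6 ^ t := by exact_mod_cast h3
    have h5 : 0 < 6 ^ t := by positivity
    omega
  · rw [← hm, ← hL]
    have a1 : 960 * m ^ 2 ≤ m ^ 7 := by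
      have h1 : (4 : ℝ) ^ 5 ≤ m ^ 5 := pow_le_pow_left₀ (by norm_num) hm4 5
      have h2 : 0 < m ^ 2 := by positivity
      nlinarith
    have a2 : 18 * ((n : ℝ) + 1) ^ 2 ≤ m ^ 5 := by
      have h1 : (4 : ℝ) ^ 3 ≤ m ^ 3 := pow_le_pow_left₀ (by norm_num) hm4 3
      have h2 : ((n : ℝ) + 1) ^ 2 ≤ m ^ 2 := by
        refine pow_le_pow_left₀ (by linarith) (by linarith) 2
      have h3 : 0 < m ^ 2 := by positivity
      nlinarith
    have a3 : 1 + 3 * (n : ℝ) ≤ m ^ 2 := by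
      rw [hm]
      nlinarith
    have a4 : 960 * m ^ 2 * (18 * ((n : ℝ) + 1) ^ 2) ^ (2 * t) * (1 + 3 * (n : ℝ)) ^ (6 * t) ≤
        m ^ 7 * (m ^ 5) ^ (2 * t) * (m ^ 2) ^ (6 * t) := by
      gcongr
    have a5 : m ^ 7 * (m ^ 5) ^ (2 * t) * (m ^ 2) ^ (6 * t) = m ^ (7 + 22 * t) := by
      rw [← pow_mul, ← pow_mul, ← pow_add, ← pow_add]
      congr 1
      ring
    rw [a5] at a4
    refine a4.trans ?_
    rw [← Real.log_le_iff_le_exp (by positivity), Real.log_pow, ← hL]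
    push_cast
    nlinarith

end MP0e5907
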