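import Pool.Agent.Lib_MP_0e5907.CFinal
import Pool.Agent.Lib_MP_0e5907.Base3

/-!
# MP_0e5907, Stage 2 - additional invariants of canonical orderings (nesting of the regions)
-/

namespace MP0e5907

open Finset

section

variable {V : Type} (r1 r2 : V) (m : ℕ) (w : ℕ → V) (D : Finset (V × V × V)) (K : Finset V) (d : CDat V)

/-- the regions `k ≠ c` of `v` are contained in the regions `k` of `u` -/
def Sub3 (c : Fin 3) (v u : V) : Prop := ∀ g ∈ D, ∀ k : Fin 3, k ≠ c → d.reg v g = k → d.reg u g = k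

/-- the additional invariants -/
structure PInv : Prop where
  T1 : ∀ v ∈ K, v ≠ r1 → v ≠ r2 → Off m w v → d.top (d.par v 0) = d.top v
  M : ∀ v ∈ K, v ≠ r1 → v ≠ r2 → ∀ c : Fin 3, (c ≠ 0 ∨ Off m w v) → Sub3 D d c (d.par v c) v
  T0 : ∀ u ∈ K, Sub3 D d 0 (w (d.top u)) u
  G1 : ∀ i, i < m → ∀ f ∈ D, lab f 0 = w (i + 1) → lab f 1 = w i → ∀ u ∈ K, i < d.top u → d.reg u f = 0 →
    Sub3 D d 1 (w (i + 1)) u
  G2 : ∀ i, i < m → ∀ f ∈ D, lab f 0 = w i → lab f 2 = w (i + 1) → ∀ u ∈ K, d.top u ≤ i → d.reg u f = 0 →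
    Sub3 D d 2 (w i) u
  Q : ∀ v ∈ K, v ≠ r1 → v ≠ r2 → ∀ c : Fin 3, (c ≠ 0 ∨ Off m w v) → ∀ f ∈ D, ∀ f' ∈ D,
    lab f (c + 2) = v → lab f c = d.par v c → lab f' (c + 1) = v → lab f' c = d.par v c → ∀ u ∈ K,
      d.reg u f ≠ d.reg u f' → Sub3 D d c v u ∧ (c = 0 → d.top u = d.top v) ∧ (c = 1 → d.top v ≤ d.top u) ∧
        (c = 2 → d.top u ≤ d.top v)

end

end MP0e5907
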