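import Pool.Agent.Lib_MP_0e5907.PBase

/-!
# Piece PSTEPB: steps of the invariants G1, G2

Paper proof. Notation and recalled facts as in the docstring of `PStepA`. (Copy the private lemmas you need from `CStepB`/`CStepC`, e.g. `type_one`, `type_two`: an old face `f` with `lab f 0 = w (i+1)`, `lab f 1 = w i` is the face
of `Ty1 i`: by `PS4` either `Ty1 i` with a face `f1`, `f1 = f` by `S1`; or `Ty2 i` with a face `f2`, `f2 = f` by `S2'` and `w i = w (i+1)`, contradiction. So for `v ∈ K`: `i < top v → reg v f ∈ {0,2}`, `top v ≤ i → reg v f = 1`. Symmetric for type 2.)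
* `step_G1`. Let `i' < m'`, `f ∈ D'`, `lab f 0 = w' (i'+1)`, `lab f 1 = w' i'`, `u ∈ K'`, `i' < top' u`, `reg' u f = 0`. Show `reg' (w' (i'+1)) g = k`, `k ≠ 1` implies `reg' u g = k` for `g ∈ D'`.
  - `f` new: `reg' u f = 0` forces `u = x`, and `lab f 0 = x = w' (i'+1)`: trivial.
  - `f` old: `w' (i'+1), w' i' ≠ x`, so `i' + 1 ≤ p` or `i' ≥ p + 2`.
    + `i' + 1 ≤ p`: `w' (i'+1) = w (i'+1)`, `w' i' = w i'`. New `g`: `top (w (i'+1)) = i'+1 ≤ p ≤ j` so `reg' (w (i'+1)) g = 1`, excluded. Old `g`: if `u ≠ x`: `top u > i'` (from `top' u > i'`: if `top u ≤ p` they agree, else `top u > p > i'`), and `G1`.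
      If `u = x`: `reg (w p) f ≠ 2` (as `reg' x f = 0`), `i' < p = top (w p)` gives `reg (w p) f ∈ {0,2}`, so `= 0`; `G1` for `w p`: `reg (w p) g = k`; `k = 2`: `reg' x g = 2`; `k = 0`: `reg (w q) g ≠ 1`, so `reg' x g = 0`.
    + `i' ≥ p + 2`: `i' = i + p + 2 - q`, `q ≤ i < m`, `w' i' = w i`, `w' (i'+1) = w (i+1)`. `u = x`: `top' x = p + 1 ≤ i'`, contradiction. `u ≠ x`: `top' u > i'` implies `q ≤ top u` and `top u > i`. Old `g`: `G1`. New `g`: `j < q ≤ i < top u`: `reg' u g = 2` and `reg' (w (i+1)) g = 2`.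
* `step_G2`: symmetric. `i' < m'`, `f ∈ D'`, `lab f 0 = w' i'`, `lab f 2 = w' (i'+1)`, `u ∈ K'`, `top' u ≤ i'`, `reg' u f = 0`; show `reg' (w' i') g = k`, `k ≠ 2` implies `reg' u g = k`.
  - `f` new: `u = x = w' i'` (`lab f 0 = x`), trivial. - `f` old: `i' < p` or `i' ≥ p+2`.
    + `i' < p`: `u = x`: `top' x = p+1 ≤ i'` false. `u ≠ x`: `top' u ≤ i' < p` so `top u = top' u ≤ i'`. Old `g`: `G2`. New `g`: `top u ≤ i' ≤ j`, `reg' u g = 1 = reg' (w i') g`.
    + `i' = i + p + 2 - q`, `q ≤ i`: `w' i' = w i`. New `g`: `j < q ≤ i = top (w i)`: `reg' (w i) g = 2`, excluded. Old `g`: `u ≠ x`: `top u ≤ i` and `G2`. `u = x`: `reg (w q) f ≠ 1` (`reg' x f = 0`), `top (w q) = q ≤ i` gives `reg (w q) f ∈ {0,1}` (type 2), so `= 0`; `G2` for `w q`: `reg (w q) g = k`; `k = 1`: `reg (w p) g = 1 ≠ 2` and `reg' x g = 1`; `k = 0`: `reg (w p) g ≠ 2`, `reg' x g = 0`.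
-/

namespace MP0e5907

open Finset

set_option linter.unusedSectionVars false

variable {V : Type} [DecidableEq V]

private lemma pb_top_x (d : CDat V) (w : ℕ → V) (p q : ℕ) (x : V) :
    (d.upd w p q x).top x = p + 1 := by
  simp [CDat.upd]

private lemma pb_top_old (d : CDat V) (w : ℕ → V) (p q : ℕ) (x v : V) (hv : v ≠ x) :
    (d.upd w p q x).top v = if d.top v ≤ p then d.top v
      else if d.top v < q then p + 1 else d.top v + p + 2 - q := by
  simp [CDat.upd, hv]

private lemma pb_reg_new_x (d : CDat V) (w : ℕ → V) (p q : ℕ) (x a b : V) :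
    (d.upd w p q x).reg x (x, a, b) = 0 := by
  simp [CDat.upd]

private lemma pb_reg_new_old (d : CDat V) (w : ℕ → V) (p q : ℕ) (x v a b : V) (hv : v ≠ x) :
    (d.upd w p q x).reg v (x, a, b) = if d.top a < d.top v then 2 else 1 := by
  simp [CDat.upd, hv]

private lemma pb_reg_old_old (d : CDat V) (w : ℕ → V) (p q : ℕ) (x v : V) (hv : v ≠ x)
    (f : V × V × V) (hf : f.1 ≠ x) : (d.upd w p q x).reg v f = d.reg v f := by
  simp [CDat.upd, hv, hf]

private lemma pb_reg_old_x (d : CDat V) (w : ℕ → V) (p q : ℕ) (x : V)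
    (f : V × V × V) (hf : f.1 ≠ x) : (d.upd w p q x).reg x f =
      if d.reg (w p) f = 2 then 2 else if d.reg (w q) f = 1 then 1 else 0 := by
  simp [CDat.upd, hf]

private lemma pb_mem {w : ℕ → V} {D : Finset (V × V × V)} {p q : ℕ} {x : V} (f : V × V × V) :
    f ∈ D ∪ newf w p q x ↔ f ∈ D ∨ ∃ j, p ≤ j ∧ j < q ∧ f = (x, w j, w (j + 1)) := by
  simp only [Finset.mem_union, newf, Finset.mem_image, Finset.mem_Ico]
  constructor
  · rintro (h | ⟨j, ⟨h1, h2⟩, h3⟩)
    · exact Or.inl h
    · exact Or.inr ⟨j, h1, h2, h3.symm⟩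
  · rintro (h | ⟨j, h1, h2, h3⟩)
    · exact Or.inl h
    · exact Or.inr ⟨j, ⟨h1, h2⟩, h3.symm⟩

section aux

variable {r1 r2 : V} {m : ℕ} {w : ℕ → V} {D : Finset (V × V × V)} {K : Finset V} {d : CDat V}

private lemma pb_mono2 (h : CInv r1 r2 m w D K d) {f : V × V × V} (hf : f ∈ D) {i j : ℕ}
    (hij : i ≤ j) (hj : j ≤ m) (h2 : d.reg (w i) f = 2) : d.reg (w j) f = 2 := by
  obtain ⟨a, b, ha, hab, hb, hr⟩ := h.r.R3 f hf
  obtain ⟨i1, i2, i3⟩ := hr i (by omega)
  obtain ⟨j1, j2, j3⟩ := hr j hj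
  rcases Nat.lt_or_ge i a with c1 | c1
  · rw [i1 c1] at h2; exact absurd h2 (by decide)
  · rcases Nat.lt_or_ge i b with c2 | c2
    · rw [i2 c1 c2] at h2; exact absurd h2 (by decide)
    · exact j3 (by omega)

private lemma pb_mono1 (h : CInv r1 r2 m w D K d) {f : V × V × V} (hf : f ∈ D) {i j : ℕ}
    (hij : i ≤ j) (hj : j ≤ m) (h2 : d.reg (w j) f = 1) : d.reg (w i) f = 1 := by
  obtain ⟨a, b, ha, hab, hb, hr⟩ := h.r.R3 f hf
  obtain ⟨i1, i2, i3⟩ := hr i (by omega)
  obtain ⟨j1, j2, j3⟩ := hr j hj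
  rcases Nat.lt_or_ge j a with c1 | c1
  · exact i1 (by omega)
  · rcases Nat.lt_or_ge j b with c2 | c2
    · rw [j2 c1 c2] at h2; exact absurd h2 (by decide)
    · rw [j3 c2] at h2; exact absurd h2 (by decide)

private lemma pb_fx (h : CInv r1 r2 m w D K d) {x : V} (hx : x ∉ K) {f : V × V × V} (hf : f ∈ D) :
    f.1 ≠ x := by
  have h1 := h.a.DK f hf 0
  intro h2
  apply hx
  rw [← h2]
  exact h1

private lemma pb_kx {x : V} (hx : x ∉ K) {v : V} (hv : v ∈ K) : v ≠ x := by
  rintro rfl
  exact hx hv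

private lemma pb_fin3 (c : Fin 3) : c = 0 ∨ c = 1 ∨ c = 2 := by
  fin_cases c
  · exact Or.inl rfl
  · exact Or.inr (Or.inl rfl)
  · exact Or.inr (Or.inr rfl)

private lemma pb_type_one (h : CInv r1 r2 m w D K d) {f : V × V × V} (hf : f ∈ D) {j : ℕ}
    (hj : j < m) (h0 : lab f 0 = w (j + 1)) (h1 : lab f 1 = w j) :
    ∀ v ∈ K, (j < d.top v → d.reg v f = 0 ∨ d.reg v f = 2) ∧ (d.top v ≤ j → d.reg v f = 1) := by
  rcases h.s4 with ⟨hD, _⟩ | h4
  · rw [hD] at hf
    exact absurd hf (Finset.notMem_empty f)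
  · rcases h4 j hj with ⟨_, _, _, f1, hf1, e0, e1, e2⟩ | ⟨_, _, _, f1, hf1, e0, e1, e2⟩
    · have : f = f1 := h.a.S1 f hf f1 hf1 0 1 (by decide) (h0.trans e0.symm) (h1.trans e1.symm)
      rw [this]
      exact e2
    · have h5 : f = f1 := h.a.S2' j hj f hf f1 hf1 ⟨1, h1⟩ ⟨0, h0⟩ ⟨0, e0⟩ ⟨2, e1⟩
      rw [h5, e0] at h0
      have := h.a.winj j (j + 1) (by omega) (by omega) h0
      omega

private lemma pb_type_two (h : CInv r1 r2 m w D K d) {f : V × V × V} (hf : f ∈ D) {j : ℕ}
    (hj : j < m) (h0 : lab f 0 = w j) (h1 : lab f 2 = w (j + 1)) :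
    ∀ v ∈ K, (j < d.top v → d.reg v f = 2) ∧ (d.top v ≤ j → d.reg v f = 0 ∨ d.reg v f = 1) := by
  rcases h.s4 with ⟨hD, _⟩ | h4
  · rw [hD] at hf
    exact absurd hf (Finset.notMem_empty f)
  · rcases h4 j hj with ⟨_, _, _, f1, hf1, e0, e1, e2⟩ | ⟨_, _, _, f1, hf1, e0, e1, e2⟩
    · have h5 : f = f1 := h.a.S2' j hj f hf f1 hf1 ⟨0, h0⟩ ⟨2, h1⟩ ⟨1, e1⟩ ⟨0, e0⟩
      rw [h5, e0] at h0
      have := h.a.winj (j + 1) j (by omega) (by omega) h0
      omega
    · have : f = f1 := h.a.S1 f hf f1 hf1 0 2 (by decide) (h0.trans e0.symm) (h1.trans e1.symm)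
      rw [this]
      exact e2

end aux

theorem step_G1 {r1 r2 : V} {m : ℕ} {w : ℕ → V} {D : Finset (V × V × V)} {K : Finset V} {d : CDat V}
    {p q : ℕ} {x : V} {m' : ℕ} {w' : ℕ → V} (h : CInv r1 r2 m w D K d) (hP : PInv r1 r2 m w D K d)
    (hs : Step m w K p q x m' w') :
    ∀ i, i < m' → ∀ f ∈ D ∪ newf w p q x, lab f 0 = w' (i + 1) → lab f 1 = w' i → ∀ u ∈ insert x K,
      i < (d.upd w p q x).top u → (d.upd w p q x).reg u f = 0 →
        Sub3 (D ∪ newf w p q x) (d.upd w p q x) 1 (w' (i + 1)) u := by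
  have hpq := hs.pq
  have hqm := hs.qm
  have hm' := hs.hm'
  intro i hi f hf l0 l1 u hu htop hreg g hg k hk hregg
  rcases (pb_mem f).1 hf with hfD | ⟨j, hj1, hj2, rfl⟩
  swap
  · -- new face
    have hux : u = x := by
      by_contra hne
      rw [pb_reg_new_old _ _ _ _ _ _ _ _ hne] at hreg
      split_ifs at hreg
      · exact absurd hreg (by decide)
      · exact absurd hreg (by decide)
    have hwx : w' (i + 1) = x := l0.symm
    rw [hwx] at hregg
    rw [hux]
    exact hregg
  · have hfx := pb_fx h hs.xK hfD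
    have c0 : w' (i + 1) ≠ x := by
      rw [← l0]
      exact pb_kx hs.xK (h.a.DK f hfD 0)
    have c1 : w' i ≠ x := by
      rw [← l1]
      exact pb_kx hs.xK (h.a.DK f hfD 1)
    have hip : i ≠ p := by
      rintro rfl
      exact c0 hs.w2
    have hip1 : i ≠ p + 1 := by
      rintro rfl
      exact c1 hs.w2
    rcases Nat.lt_or_ge i p with hlt | hge
    · -- left part
      have hw0 := hs.w1 i (by omega)
      have hw1 := hs.w1 (i + 1) (by omega)
      rw [hw1] at l0 hregg
      rw [hw0] at l1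
      have him : i < m := by omega
      have ty := pb_type_one h hfD him l0 l1
      have hwx : w (i + 1) ≠ x := pb_kx hs.xK (h.a.wK _ (by omega))
      rcases (pb_mem g).1 hg with hgD | ⟨j, hj1, hj2, rfl⟩
      · have hgx := pb_fx h hs.xK hgD
        rw [pb_reg_old_old _ _ _ _ _ _ hwx _ hgx] at hregg
        by_cases hux : u = x
        · rw [hux, pb_reg_old_x _ _ _ _ _ _ hfx] at hreg
          rw [hux, pb_reg_old_x _ _ _ _ _ _ hgx]
          have hp2 : d.reg (w p) f ≠ 2 := by
            intro h2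
            rw [if_pos h2] at hreg
            exact absurd hreg (by decide)
          have hpK := h.a.wK p (by omega)
          have hpt := h.t.T0 p (by omega)
          have hp0 : d.reg (w p) f = 0 := by
            rcases (ty (w p) hpK).1 (by omega) with h0 | h2
            · exact h0
            · exact absurd h2 hp2
          have key := hP.G1 i him f hfD l0 l1 (w p) hpK (by omega) hp0 g hgD k hk hregg
          rcases pb_fin3 k with rfl | rfl | rfl
          · have h3 : d.reg (w q) g ≠ 1 := by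
              intro h1
              have := pb_mono1 h hgD hpq.le hqm h1
              rw [this] at key
              exact absurd key (by decide)
            rw [key, if_neg (by decide), if_neg h3]
          · exact absurd rfl hk
          · rw [if_pos key]
        · have huK : u ∈ K := (Finset.mem_insert.1 hu).resolve_left hux
          rw [pb_reg_old_old _ _ _ _ _ _ hux _ hfx] at hreg
          rw [pb_reg_old_old _ _ _ _ _ _ hux _ hgx]
          rw [pb_top_old _ _ _ _ _ _ hux] at htop
          exact hP.G1 i him f hfD l0 l1 u huK (by split_ifs at htop <;> omega) hreg g hgD k hk hregg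
      · exfalso
        rw [pb_reg_new_old _ _ _ _ _ _ _ _ hwx, h.t.T0 j (by omega), h.t.T0 (i + 1) (by omega),
          if_neg (by omega)] at hregg
        exact hk hregg.symm
    · -- right part
      have hw0 := hs.w3 (i + q - p - 2) (by omega) (by omega)
      have hw1 := hs.w3 (i + q - p - 2 + 1) (by omega) (by omega)
      have e0 : i + q - p - 2 + p + 2 - q = i := by omega
      have e1 : i + q - p - 2 + 1 + p + 2 - q = i + 1 := by omega
      rw [e0] at hw0
      rw [e1] at hw1
      obtain ⟨i0, hi0⟩ : ∃ i0, i0 = i + q - p - 2 := ⟨_, rfl⟩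
      rw [← hi0] at hw0 hw1
      rw [hw1] at l0 hregg
      rw [hw0] at l1
      have him : i0 < m := by omega
      have hux : u ≠ x := by
        intro hux
        rw [hux, pb_top_x] at htop
        omega
      have huK : u ∈ K := (Finset.mem_insert.1 hu).resolve_left hux
      rw [pb_top_old _ _ _ _ _ _ hux] at htop
      have htop' : i0 < d.top u := by split_ifs at htop <;> omega
      have hwx : w (i0 + 1) ≠ x := pb_kx hs.xK (h.a.wK _ (by omega))
      rcases (pb_mem g).1 hg with hgD | ⟨j, hj1, hj2, rfl⟩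
      · have hgx := pb_fx h hs.xK hgD
        rw [pb_reg_old_old _ _ _ _ _ _ hux _ hfx] at hreg
        rw [pb_reg_old_old _ _ _ _ _ _ hwx _ hgx] at hregg
        rw [pb_reg_old_old _ _ _ _ _ _ hux _ hgx]
        exact hP.G1 i0 him f hfD l0 l1 u huK htop' hreg g hgD k hk hregg
      · rw [pb_reg_new_old _ _ _ _ _ _ _ _ hwx, h.t.T0 j (by omega), h.t.T0 (i0 + 1) (by omega),
          if_pos (by omega)] at hregg
        rw [pb_reg_new_old _ _ _ _ _ _ _ _ hux, h.t.T0 j (by omega), if_pos (by omega)]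
        exact hregg

theorem step_G2 {r1 r2 : V} {m : ℕ} {w : ℕ → V} {D : Finset (V × V × V)} {K : Finset V} {d : CDat V}
    {p q : ℕ} {x : V} {m' : ℕ} {w' : ℕ → V} (h : CInv r1 r2 m w D K d) (hP : PInv r1 r2 m w D K d)
    (hs : Step m w K p q x m' w') :
    ∀ i, i < m' → ∀ f ∈ D ∪ newf w p q x, lab f 0 = w' i → lab f 2 = w' (i + 1) → ∀ u ∈ insert x K,
      (d.upd w p q x).top u ≤ i → (d.upd w p q x).reg u f = 0 →
        Sub3 (D ∪ newf w p q x) (d.upd w p q x) 2 (w' i) u := by
  have hpq := hs.pq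
  have hqm := hs.qm
  have hm' := hs.hm'
  intro i hi f hf l0 l1 u hu htop hreg g hg k hk hregg
  rcases (pb_mem f).1 hf with hfD | ⟨j, hj1, hj2, rfl⟩
  swap
  · -- new face
    have hux : u = x := by
      by_contra hne
      rw [pb_reg_new_old _ _ _ _ _ _ _ _ hne] at hreg
      split_ifs at hreg
      · exact absurd hreg (by decide)
      · exact absurd hreg (by decide)
    have hwx : w' i = x := l0.symm
    rw [hwx] at hregg
    rw [hux]
    exact hregg
  · have hfx := pb_fx h hs.xK hfD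
    have c0 : w' i ≠ x := by
      rw [← l0]
      exact pb_kx hs.xK (h.a.DK f hfD 0)
    have c1 : w' (i + 1) ≠ x := by
      rw [← l1]
      exact pb_kx hs.xK (h.a.DK f hfD 2)
    have hip : i ≠ p := by
      rintro rfl
      exact c1 hs.w2
    have hip1 : i ≠ p + 1 := by
      rintro rfl
      exact c0 hs.w2
    rcases Nat.lt_or_ge i p with hlt | hge
    · -- left part
      have hw0 := hs.w1 i (by omega)
      have hw1 := hs.w1 (i + 1) (by omega)
      rw [hw0] at l0 hregg
      rw [hw1] at l1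
      have him : i < m := by omega
      have hwx : w i ≠ x := pb_kx hs.xK (h.a.wK _ (by omega))
      have hux : u ≠ x := by
        intro hux
        rw [hux, pb_top_x] at htop
        omega
      have huK : u ∈ K := (Finset.mem_insert.1 hu).resolve_left hux
      rw [pb_top_old _ _ _ _ _ _ hux] at htop
      have htop' : d.top u ≤ i := by split_ifs at htop <;> omega
      rcases (pb_mem g).1 hg with hgD | ⟨j, hj1, hj2, rfl⟩
      · have hgx := pb_fx h hs.xK hgD
        rw [pb_reg_old_old _ _ _ _ _ _ hux _ hfx] at hreg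
        rw [pb_reg_old_old _ _ _ _ _ _ hwx _ hgx] at hregg
        rw [pb_reg_old_old _ _ _ _ _ _ hux _ hgx]
        exact hP.G2 i him f hfD l0 l1 u huK htop' hreg g hgD k hk hregg
      · rw [pb_reg_new_old _ _ _ _ _ _ _ _ hwx, h.t.T0 j (by omega), h.t.T0 i (by omega),
          if_neg (by omega)] at hregg
        rw [pb_reg_new_old _ _ _ _ _ _ _ _ hux, h.t.T0 j (by omega), if_neg (by omega)]
        exact hregg
    · -- right part
      have hw0 := hs.w3 (i + q - p - 2) (by omega) (by omega)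
      have hw1 := hs.w3 (i + q - p - 2 + 1) (by omega) (by omega)
      have e0 : i + q - p - 2 + p + 2 - q = i := by omega
      have e1 : i + q - p - 2 + 1 + p + 2 - q = i + 1 := by omega
      rw [e0] at hw0
      rw [e1] at hw1
      obtain ⟨i0, hi0⟩ : ∃ i0, i0 = i + q - p - 2 := ⟨_, rfl⟩
      rw [← hi0] at hw0 hw1
      rw [hw0] at l0 hregg
      rw [hw1] at l1
      have him : i0 < m := by omega
      have ty := pb_type_two h hfD him l0 l1
      have hwx : w i0 ≠ x := pb_kx hs.xK (h.a.wK _ (by omega))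
      rcases (pb_mem g).1 hg with hgD | ⟨j, hj1, hj2, rfl⟩
      · have hgx := pb_fx h hs.xK hgD
        rw [pb_reg_old_old _ _ _ _ _ _ hwx _ hgx] at hregg
        by_cases hux : u = x
        · rw [hux, pb_reg_old_x _ _ _ _ _ _ hfx] at hreg
          rw [hux, pb_reg_old_x _ _ _ _ _ _ hgx]
          have hq1 : d.reg (w q) f ≠ 1 := by
            intro h2
            rw [if_pos h2] at hreg
            split_ifs at hreg
            · exact absurd hreg (by decide)
            · exact absurd hreg (by decide)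
          have hqK := h.a.wK q (by omega)
          have hqt := h.t.T0 q (by omega)
          have hq0 : d.reg (w q) f = 0 := by
            rcases (ty (w q) hqK).2 (by omega) with h0 | h2
            · exact h0
            · exact absurd h2 hq1
          have key := hP.G2 i0 him f hfD l0 l1 (w q) hqK (by omega) hq0 g hgD k hk hregg
          have hp2 : d.reg (w p) g ≠ 2 := by
            intro h2
            have := pb_mono2 h hgD hpq.le hqm h2
            rw [this] at key
            exact hk key.symm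
          rcases pb_fin3 k with rfl | rfl | rfl
          · rw [if_neg hp2, key, if_neg (by decide)]
          · rw [if_neg hp2, if_pos key]
          · exact absurd rfl hk
        · have huK : u ∈ K := (Finset.mem_insert.1 hu).resolve_left hux
          rw [pb_reg_old_old _ _ _ _ _ _ hux _ hfx] at hreg
          rw [pb_reg_old_old _ _ _ _ _ _ hux _ hgx]
          rw [pb_top_old _ _ _ _ _ _ hux] at htop
          exact hP.G2 i0 him f hfD l0 l1 u huK (by split_ifs at htop <;> omega) hreg g hgD k hk hregg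
      · exfalso
        rw [pb_reg_new_old _ _ _ _ _ _ _ _ hwx, h.t.T0 j (by omega), h.t.T0 i0 (by omega),
          if_pos (by omega)] at hregg
        exact hk hregg.symm

end MP0e5907
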