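import Pool.Agent.Lib_MP_0e5907.PBase

/-!
# Piece PSTEPC: step of the invariant Q

Paper proof. Notation and recalled facts as in the docstrings of `PStepA`, `PStepB`. Let `v ∈ K'`, `c` with (`c ≠ 0` or `v` off the new path), `f, f' ∈ D'` with `lab f (c+2) = v`, `lab f c = par' v c`, `lab f' (c+1) = v`, `lab f' c = par' v c`,
`u ∈ K'` with `reg' u f ≠ reg' u f'`. The map `top → top'` (for vertices `≠ x`) is monotone and depends on `top` only.
* `v = x`: `x` is on the new path so `c ≠ 0`; `c = 1`: `lab f' 2 = x`, `c = 2`: `lab f 1 = x`: impossible (new faces contain `x` only with label `0`, old faces do not contain `x`). So `v ≠ x`.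
* `f, f'` old: `par' v c = par v c` (if `c = 0` and `v = w s`, `p < s < q` then `par' v 0 = x = lab f 0`, impossible), and if `c = 0` then `v` is off the old path.
  - `u ≠ x`: `Q` gives `Sub3 D d c v u` and the inequality of tops. New faces `g = (x, w j, w (j+1))`: both values are in `{1,2}` and determined by the tops: `c = 0`: same; `c = 1`, `k = 2`: `j < top v ≤ top u`; `c = 2`, `k = 1`: `top u ≤ top v ≤ j`. The tops': monotone.
  - `u = x`: `c = 0`: by the last part of `PX` `reg (w p)`, `reg (w q)` do not change, hence `reg' x` does not change, contradiction. `c = 1`: by `PX` a change is from `c+2 = 0` to `c+1 = 2`. If `reg (w p)` does not change then `reg (w q) f, reg (w q) f'` are equal or `0, 2`, both `≠ 1` in the second case, so `reg' x` does not change,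
    contradiction. So `Q` applies to `w p`: `Sub3 D d 1 v (w p)` and `top v ≤ top (w p) = p`. Old `g`, `k ≠ 1`: `reg (w p) g = k`: `k = 2`: `reg' x g = 2`; `k = 0`: `reg (w q) g ≠ 1`, `reg' x g = 0`. New `g`: `top v ≤ p ≤ j`: `reg' v g = 1`, excluded. `top' v = top v ≤ p < p+1 = top' x`.
    `c = 2`: change from `c+2 = 1` to `c+1 = 0`. If `reg (w q)` does not change, then the change of `reg (w p)` is from `1` to `0`, both `≠ 2`, `reg' x` does not change. So `Q` for `w q`: `Sub3 D d 2 v (w q)`, `q ≤ top v`. Old `g`, `k ≠ 2`: `reg (w q) g = k`: `k = 1`: `reg (w p) g = 1`, `reg' x g = 1`; `k = 0`: `reg (w p) g ≠ 2`, `reg' x g = 0`. New `g`: `j < q ≤ top v`: `reg' v g = 2`, excluded.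
    `top' x = p+1 ≤ top v + p + 2 - q = top' v`.
* `f` old, `f' = (x, w j, w (j+1))` new: `c = 0`: `lab f 0 = par' v 0 = lab f' 0 = x`, impossible. `c = 2`: `lab f' 0 = v = x`, impossible. `c = 1`: `v = w (j+1)`, `par' v 1 = w j`, `lab f 0 = w (j+1)`, `lab f 1 = w j`: `f` is the face of type 1 (see `PStepB`). `u = x`: `reg' x f' = 0`; `top (w p) = p ≤ j`: `reg (w p) f = 1`; `j < q`: `reg (w q) f ∈ {0,2}`; so
  `reg' x f = 0`, contradiction. `u ≠ x`: if `top u ≤ j`: `reg u f = 1 = reg' u f'`, contradiction; so `j < top u`, `reg' u f' = 2`, `reg u f ∈ {0,2}`, so `reg u f = 0`; `G1`: `Sub3 D d 1 (w (j+1)) u`. New `g` (with index `j2`), `k = 2`: `j2 < top v = j+1 ≤ top u`. Tops: `top v = j + 1 ≤ top u`, monotone.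
* `f = (x, w j, w (j+1))` new, `f'` old: `c = 0`: `lab f' 0 = x`, impossible; `c = 1`: `lab f 0 = v = x` impossible; `c = 2`: `v = w j`, `par' v 2 = w (j+1)`, `lab f' 0 = w j`, `lab f' 2 = w (j+1)`: type 2. `u = x`: `reg (w q) f' = 2` (`q > j`), `reg (w p) f' ∈ {0,1}` so `reg' x f' = 0 = reg' x f`, contradiction. `u ≠ x`: `j < top u` would give
  `reg u f' = 2 = reg' u f`. So `top u ≤ j`, `reg' u f = 1`, `reg u f' ∈ {0,1}`, `= 0`; `G2`: `Sub3 D d 2 (w j) u`. New `g`, `k = 1`: `top v = j ≤ j2`, `top u ≤ j ≤ j2`. Tops: `top u ≤ j = top v`.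
* both new, `f = (x, w j, w (j+1))`, `f' = (x, w i, w (i+1))`: `c = 1`: `lab f 0 = x = v`, no; `c = 2`: `lab f' 0 = x = v`, no; `c = 0`: `w (j+1) = v = w i`, so `i = j+1`. `u = x`: no change. `u ≠ x`: `reg' u f = 2` iff `j < top u`, `reg' u f' = 2` iff `j + 1 < top u`: different iff `top u = j+1 = top v`. Old `g`: `T0` for `u` (`w (top u) = v`). New `g`: equal tops.
-/

namespace MP0e5907

open Finset

variable {V : Type}

/-! ### the updated data -/

section upd

variable {d : CDat V} {w : ℕ → V} {p q : ℕ} {x : V}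

private theorem reg_old {v : V} {f : V × V × V} (hf : f.1 ≠ x) (hv : v ≠ x) :
    (d.upd w p q x).reg v f = d.reg v f := by
  simp only [CDat.upd]
  rw [if_neg hf, if_neg hv]

/-- the region of the new vertex, as a function of the regions of `w p` and `w q` -/
private def rho (a b : Fin 3) : Fin 3 := if a = 2 then 2 else if b = 1 then 1 else 0

private theorem reg_x_old {f : V × V × V} (hf : f.1 ≠ x) :
    (d.upd w p q x).reg x f = rho (d.reg (w p) f) (d.reg (w q) f) := by
  simp only [CDat.upd, if_neg hf, if_true]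
  rfl

private theorem reg_new {v : V} {j : ℕ} (hv : v ≠ x) (ht : d.top (w j) = j) :
    (d.upd w p q x).reg v (x, w j, w (j + 1)) = if j < d.top v then 2 else 1 := by
  simp only [CDat.upd, if_true, if_neg hv, ht]

private theorem reg_x_new {j : ℕ} :
    (d.upd w p q x).reg x (x, w j, w (j + 1)) = 0 := by
  simp only [CDat.upd, if_true]

private theorem par_ne_zero {v : V} {c : Fin 3} (hv : v ≠ x) (hc : c ≠ 0) :
    (d.upd w p q x).par v c = d.par v c := by
  simp only [CDat.upd]
  rw [if_neg hv, if_neg (fun h => hc h.1)]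

private theorem par_zero_in {v : V} (hv : v ≠ x) (h : ∃ s, p < s ∧ s < q ∧ w s = v) :
    (d.upd w p q x).par v 0 = x := by
  simp only [CDat.upd]
  rw [if_neg hv, if_pos ⟨rfl, h⟩]

private theorem par_zero_out {v : V} (hv : v ≠ x) (h : ¬ ∃ s, p < s ∧ s < q ∧ w s = v) :
    (d.upd w p q x).par v 0 = d.par v 0 := by
  simp only [CDat.upd]
  rw [if_neg hv, if_neg (fun h' => h h'.2)]

private theorem par_x_one : (d.upd w p q x).par x 1 = w p := by
  simp only [CDat.upd]
  simp

private theorem par_x_two : (d.upd w p q x).par x 2 = w q := by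
  simp only [CDat.upd]
  simp

private theorem pc_top_x : (d.upd w p q x).top x = p + 1 := by
  simp only [CDat.upd, if_true]

private theorem pc_top_old {v : V} (hv : v ≠ x) :
    (d.upd w p q x).top v = if d.top v ≤ p then d.top v
      else if d.top v < q then p + 1 else d.top v + p + 2 - q := by
  simp only [CDat.upd, if_neg hv]

private theorem pc_top_mono {v u : V} (hpq : p < q) (hv : v ≠ x) (hu : u ≠ x) (h : d.top v ≤ d.top u) :
    (d.upd w p q x).top v ≤ (d.upd w p q x).top u := by
  rw [pc_top_old hv, pc_top_old hu]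
  split_ifs <;> omega

end upd

/-! ### order of the regions along the path -/

/-- the regions along the path go `1, 0, 2` -/
private def good (a b : Fin 3) : Prop := a = 1 ∨ (a = 0 ∧ b ≠ 1) ∨ (a = 2 ∧ b = 2)

private instance (a b : Fin 3) : Decidable (good a b) := by
  unfold good
  infer_instance

private theorem good_of {r1 r2 : V} {m : ℕ} {w : ℕ → V} {D : Finset (V × V × V)} {d : CDat V}
    (h : PR r1 r2 m w D d) {f : V × V × V} (hf : f ∈ D) {i j : ℕ} (hij : i ≤ j) (hj : j ≤ m) :
    good (d.reg (w i) f) (d.reg (w j) f) := by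
  obtain ⟨a, b, h1, h2, h3, h4⟩ := h.R3 f hf
  obtain ⟨i1, i2, i3⟩ := h4 i (hij.trans hj)
  obtain ⟨j1, j2, j3⟩ := h4 j hj
  unfold good
  rcases lt_or_ge i a with hi | hi
  · exact Or.inl (i1 hi)
  · rcases lt_or_ge i b with hi' | hi'
    · refine Or.inr (Or.inl ⟨i2 hi hi', ?_⟩)
      rcases lt_or_ge j b with hj' | hj'
      · rw [j2 (hi.trans hij) hj']
        decide
      · rw [j3 hj']
        decide
    · exact Or.inr (Or.inr ⟨i3 hi', j3 (hi'.trans hij)⟩)

private theorem pc_dec1 : ∀ a b a' b' : Fin 3, good a b → good a' b' →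
    (b = b' ∨ (b = 1 + 2 ∧ b' = 1 + 1)) → a = a' → rho a b = rho a' b' := by
  decide

private theorem pc_dec2 : ∀ a b a' b' : Fin 3, good a b → good a' b' →
    (a = a' ∨ (a = 2 + 2 ∧ a' = 2 + 1)) → b = b' → rho a b = rho a' b' := by
  decide

private theorem pc_dec3 : ∀ a b : Fin 3, good a b → a ≠ 1 → rho a b = a := by
  decide

private theorem pc_dec4 : ∀ a b : Fin 3, good a b → b ≠ 2 → rho a b = b := by
  decide

/-! ### the new path and the new faces -/

variable [DecidableEq V]

section step

variable {r1 r2 : V} {m : ℕ} {w : ℕ → V} {D : Finset (V × V × V)} {K : Finset V} {d : CDat V}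
  {p q : ℕ} {x : V} {m' : ℕ} {w' : ℕ → V}

omit [DecidableEq V] in
private theorem path_iff (hs : Step m w K p q x m' w') (u : V) :
    (∃ i, i ≤ m' ∧ w' i = u) ↔ u = x ∨ ∃ i, i ≤ m ∧ (i ≤ p ∨ q ≤ i) ∧ w i = u := by
  obtain ⟨pq, qm, xK, hm', w1, w2, w3⟩ := hs
  constructor
  · rintro ⟨i, hi, rfl⟩
    rcases lt_trichotomy i (p + 1) with h | h | h
    · exact Or.inr ⟨i, by omega, Or.inl (by omega), (w1 i (by omega)).symm⟩
    · subst h
      exact Or.inl w2
    · refine Or.inr ⟨i + q - p - 2, by omega, Or.inr (by omega), ?_⟩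
      have h1 := w3 (i + q - p - 2) (by omega) (by omega)
      rw [← h1]
      congr 1
      omega
  · rintro (rfl | ⟨i, hi, h, rfl⟩)
    · exact ⟨p + 1, by omega, w2⟩
    · rcases h with h | h
      · exact ⟨i, by omega, w1 i h⟩
      · exact ⟨i + p + 2 - q, by omega, w3 i h hi⟩

omit [DecidableEq V] in
private theorem off_iff (hs : Step m w K p q x m' w') (u : V) :
    Off m' w' u ↔ u ≠ x ∧ ∀ i, i ≤ m → (i ≤ p ∨ q ≤ i) → w i ≠ u := by
  have h := path_iff hs u
  unfold Off
  constructor
  · intro h1
    refine ⟨fun hu => ?_, fun i hi hi' hu => ?_⟩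
    · obtain ⟨i, hi, e⟩ := h.2 (Or.inl hu)
      exact h1 i hi e
    · obtain ⟨i, hi, e⟩ := h.2 (Or.inr ⟨i, hi, hi', hu⟩)
      exact h1 i hi e
  · rintro ⟨h1, h2⟩ i hi e
    rcases h.1 ⟨i, hi, e⟩ with h3 | ⟨j, hj, hj', h3⟩
    · exact h1 h3
    · exact h2 j hj hj' h3

omit [DecidableEq V] in
private theorem ne_x (hs : Step m w K p q x m' w') {v : V} (hv : v ∈ K) : v ≠ x := by
  rintro rfl
  exact hs.xK hv

omit [DecidableEq V] in
private theorem w_ne_x (h : CInv r1 r2 m w D K d) (hs : Step m w K p q x m' w') {i : ℕ}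
    (hi : i ≤ m) : w i ≠ x := ne_x hs (h.a.wK i hi)

omit [DecidableEq V] in
private theorem fst_ne_x (h : CInv r1 r2 m w D K d) (hs : Step m w K p q x m' w')
    {f : V × V × V} (hf : f ∈ D) : f.1 ≠ x := ne_x hs (h.a.DK f hf 0)

private theorem mem_new {f : V × V × V} (hf : f ∈ D ∪ newf w p q x) :
    f ∈ D ∨ ∃ j, p ≤ j ∧ j < q ∧ f = (x, w j, w (j + 1)) := by
  rcases Finset.mem_union.1 hf with h | h
  · exact Or.inl h
  · obtain ⟨j, hj, rfl⟩ := Finset.mem_image.1 h
    rw [Finset.mem_Ico] at hj
    exact Or.inr ⟨j, hj.1, hj.2, rfl⟩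

private theorem mem_ins {v : V} (hv : v ∈ insert x K) (hne : v ≠ x) : v ∈ K :=
  (Finset.mem_insert.1 hv).resolve_left hne

private theorem fin3 (c : Fin 3) : c = 0 ∨ c = 1 ∨ c = 2 := by
  fin_cases c
  · exact Or.inl rfl
  · exact Or.inr (Or.inl rfl)
  · exact Or.inr (Or.inr rfl)

omit [DecidableEq V] in
/-- the face below the path edge `j` for an edge `(w (j+1), 1)` -/
private theorem type_one (h : CInv r1 r2 m w D K d) {f : V × V × V} (hf : f ∈ D) {j : ℕ}
    (hj : j < m) (h0 : lab f 0 = w (j + 1)) (h1 : lab f 1 = w j) :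
    ∀ v ∈ K, (j < d.top v → d.reg v f = 0 ∨ d.reg v f = 2) ∧ (d.top v ≤ j → d.reg v f = 1) := by
  rcases h.s4 with ⟨hD, _⟩ | h4
  · rw [hD] at hf
    exact absurd hf (Finset.notMem_empty f)
  · rcases h4 j hj with ⟨_, _, _, f1, hf1, e0, e1, e2⟩ | ⟨_, _, _, f1, hf1, e0, e1, e2⟩
    · have : f = f1 := h.a.S1 f hf f1 hf1 0 1 (by decide) (h0.trans e0.symm) (h1.trans e1.symm)
      rw [this]
      exact e2
    · have h5 : f = f1 := h.a.S2' j hj f hf f1 hf1 ⟨1, h1⟩ ⟨0, h0⟩ ⟨0, e0⟩ ⟨2, e1⟩
      rw [h5, e0] at h0
      have := h.a.winj j (j + 1) (by omega) (by omega) h0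
      omega

omit [DecidableEq V] in
private theorem type_two (h : CInv r1 r2 m w D K d) {f : V × V × V} (hf : f ∈ D) {j : ℕ}
    (hj : j < m) (h0 : lab f 0 = w j) (h1 : lab f 2 = w (j + 1)) :
    ∀ v ∈ K, (j < d.top v → d.reg v f = 2) ∧ (d.top v ≤ j → d.reg v f = 0 ∨ d.reg v f = 1) := by
  rcases h.s4 with ⟨hD, _⟩ | h4
  · rw [hD] at hf
    exact absurd hf (Finset.notMem_empty f)
  · rcases h4 j hj with ⟨_, _, _, f1, hf1, e0, e1, e2⟩ | ⟨_, _, _, f1, hf1, e0, e1, e2⟩
    · have h5 : f = f1 := h.a.S2' j hj f hf f1 hf1 ⟨0, h0⟩ ⟨2, h1⟩ ⟨1, e1⟩ ⟨0, e0⟩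
      rw [h5, e0] at h0
      have := h.a.winj (j + 1) j (by omega) (by omega) h0
      omega
    · have : f = f1 := h.a.S1 f hf f1 hf1 0 2 (by decide) (h0.trans e0.symm) (h1.trans e1.symm)
      rw [this]
      exact e2

private theorem pc_fin (h : CInv r1 r2 m w D K d) (hs : Step m w K p q x m' w') {c : Fin 3} {v u : V}
    (hv : v ∈ K) (hu : u ∈ K) (hS : Sub3 D d c v u) (t0 : c = 0 → d.top u = d.top v)
    (t1 : c = 1 → d.top v ≤ d.top u) (t2 : c = 2 → d.top u ≤ d.top v) :
    Sub3 (D ∪ newf w p q x) (d.upd w p q x) c v u ∧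
      (c = 0 → (d.upd w p q x).top u = (d.upd w p q x).top v) ∧
        (c = 1 → (d.upd w p q x).top v ≤ (d.upd w p q x).top u) ∧
        (c = 2 → (d.upd w p q x).top u ≤ (d.upd w p q x).top v) := by
  have hpq := hs.pq
  have hqm := hs.qm
  have hvx := ne_x hs hv
  have hux := ne_x hs hu
  refine ⟨?_, fun hc => ?_, fun hc => pc_top_mono hpq hvx hux (t1 hc),
    fun hc => pc_top_mono hpq hux hvx (t2 hc)⟩
  · intro g hg k hk hr
    rcases mem_new hg with hg | ⟨j, hj1, hj2, rfl⟩
    · rw [reg_old (fst_ne_x h hs hg) hvx] at hr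
      rw [reg_old (fst_ne_x h hs hg) hux]
      exact hS g hg k hk hr
    · rw [reg_new hvx (h.t.T0 j (by omega))] at hr
      rw [reg_new hux (h.t.T0 j (by omega))]
      rcases fin3 c with hc | hc | hc
      · rw [t0 hc]
        exact hr
      · have h1 := t1 hc
        by_cases h2 : j < d.top v
        · rw [if_pos h2] at hr
          rw [if_pos (by omega)]
          exact hr
        · rw [if_neg h2] at hr
          exact absurd (hr.symm.trans hc.symm) hk
      · have h1 := t2 hc
        by_cases h2 : j < d.top v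
        · rw [if_pos h2] at hr
          exact absurd (hr.symm.trans hc.symm) hk
        · rw [if_neg h2] at hr
          rw [if_neg (by omega)]
          exact hr
  · exact le_antisymm (pc_top_mono hpq hux hvx (t0 hc).le) (pc_top_mono hpq hvx hux (t0 hc).ge)

end step

theorem step_Q {r1 r2 : V} {m : ℕ} {w : ℕ → V} {D : Finset (V × V × V)} {K : Finset V} {d : CDat V}
    {p q : ℕ} {x : V} {m' : ℕ} {w' : ℕ → V} (h : CInv r1 r2 m w D K d) (hP : PInv r1 r2 m w D K d)
    (hs : Step m w K p q x m' w') :
    ∀ v ∈ insert x K, v ≠ r1 → v ≠ r2 → ∀ c : Fin 3, (c ≠ 0 ∨ Off m' w' v) → ∀ f ∈ D ∪ newf w p q x, ∀ f' ∈ D ∪ newf w p q x,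
    lab f (c + 2) = v → lab f c = (d.upd w p q x).par v c → lab f' (c + 1) = v → lab f' c = (d.upd w p q x).par v c →
    ∀ u ∈ insert x K, (d.upd w p q x).reg u f ≠ (d.upd w p q x).reg u f' →
      Sub3 (D ∪ newf w p q x) (d.upd w p q x) c v u ∧ (c = 0 → (d.upd w p q x).top u = (d.upd w p q x).top v) ∧
        (c = 1 → (d.upd w p q x).top v ≤ (d.upd w p q x).top u) ∧
        (c = 2 → (d.upd w p q x).top u ≤ (d.upd w p q x).top v) := by
  have hpq := hs.pq
  have hqm := hs.qm
  intro v hv hv1 hv2 c hc f hf₀ f' hf₀' l1 l2 l3 l4 u hu hne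
  rcases mem_new hf₀ with hf | ⟨j, hj1, hj2, rfl⟩
  · -- `f` is old
    have hvK : v ∈ K := by rw [← l1]; exact h.a.DK f hf _
    have hvx := ne_x hs hvK
    have hpx : (d.upd w p q x).par v c ≠ x := by
      rw [← l2]
      exact ne_x hs (h.a.DK f hf _)
    rcases mem_new hf₀' with hf' | ⟨j, hj1, hj2, rfl⟩
    · -- both old
      have hpar : (d.upd w p q x).par v c = d.par v c ∧ (c ≠ 0 ∨ Off m w v) := by
        by_cases hc0 : c = 0
        · subst hc0
          have h1 : ¬ ∃ s, p < s ∧ s < q ∧ w s = v := fun h2 => hpx (par_zero_in hvx h2)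
          refine ⟨par_zero_out hvx h1, Or.inr ?_⟩
          have h2 := ((off_iff hs v).1 (hc.resolve_left (fun h => h rfl))).2
          intro i hi e
          by_cases h3 : i ≤ p ∨ q ≤ i
          · exact h2 i hi h3 e
          · push Not at h3
            exact h1 ⟨i, h3.1, h3.2, e⟩
        · exact ⟨par_ne_zero hvx hc0, Or.inl hc0⟩
      rw [hpar.1] at l2 l4
      have hold := h.x v hvK hv1 hv2 c hpar.2 f hf f' hf' l1 l2 l3 l4
      have hQ := hP.Q v hvK hv1 hv2 c hpar.2 f hf f' hf' l1 l2 l3 l4
      by_cases hux : u = x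
      · rw [hux] at hne ⊢
        rw [reg_x_old (fst_ne_x h hs hf), reg_x_old (fst_ne_x h hs hf')] at hne
        have kp := h.a.wK p (by omega)
        have kq := h.a.wK q hqm
        have hp := hold (w p) kp
        have hq := hold (w q) kq
        have g1 := good_of h.r hf hpq.le hqm
        have g2 := good_of h.r hf' hpq.le hqm
        rcases fin3 c with rfl | rfl | rfl
        · exfalso
          apply hne
          rw [hp.2 rfl ⟨p, by omega, rfl⟩, hq.2 rfl ⟨q, hqm, rfl⟩]
        · have h1 : d.reg (w p) f ≠ d.reg (w p) f' := fun e =>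
            hne (pc_dec1 _ _ _ _ g1 g2 hq.1 e)
          obtain ⟨hS, _, ht, _⟩ := hQ (w p) kp h1
          have ht' := ht rfl
          rw [h.t.T0 p (by omega)] at ht'
          refine ⟨?_, fun e => absurd e (by decide), fun _ => ?_, fun e => absurd e (by decide)⟩
          · intro g hg k hk hr
            rcases mem_new hg with hg | ⟨i, hi1, hi2, rfl⟩
            · rw [reg_old (fst_ne_x h hs hg) hvx] at hr
              have h2 := hS g hg k hk hr
              rw [reg_x_old (fst_ne_x h hs hg)]
              have g3 := good_of h.r hg hpq.le hqm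
              rw [h2] at g3 ⊢
              exact pc_dec3 _ _ g3 hk
            · rw [reg_new hvx (h.t.T0 i (by omega)), if_neg (by omega)] at hr
              exact absurd hr.symm hk
          · rw [pc_top_x, pc_top_old hvx, if_pos ht']
            omega
        · have h1 : d.reg (w q) f ≠ d.reg (w q) f' := fun e =>
            hne (pc_dec2 _ _ _ _ g1 g2 hp.1 e)
          obtain ⟨hS, _, _, ht⟩ := hQ (w q) kq h1
          have ht' := ht rfl
          rw [h.t.T0 q hqm] at ht'
          refine ⟨?_, fun e => absurd e (by decide), fun e => absurd e (by decide), fun _ => ?_⟩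
          · intro g hg k hk hr
            rcases mem_new hg with hg | ⟨i, hi1, hi2, rfl⟩
            · rw [reg_old (fst_ne_x h hs hg) hvx] at hr
              have h2 := hS g hg k hk hr
              rw [reg_x_old (fst_ne_x h hs hg)]
              have g3 := good_of h.r hg hpq.le hqm
              rw [h2] at g3 ⊢
              exact pc_dec4 _ _ g3 hk
            · rw [reg_new hvx (h.t.T0 i (by omega)), if_pos (by omega)] at hr
              exact absurd hr.symm hk
          · rw [pc_top_x, pc_top_old hvx, if_neg (by omega), if_neg (by omega)]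
            omega
      · rw [reg_old (fst_ne_x h hs hf) hux, reg_old (fst_ne_x h hs hf') hux] at hne
        have huK := mem_ins hu hux
        obtain ⟨hS, t0, t1, t2⟩ := hQ u huK hne
        exact pc_fin h hs hvK huK hS t0 t1 t2
    · -- `f'` is new
      have hc0 : c ≠ 0 := by
        rintro rfl
        exact hpx l4.symm
      have hc2 : c ≠ 2 := by
        rintro rfl
        exact hvx l3.symm
      have hc1 : c = 1 := by
        rcases fin3 c with h1 | h1 | h1
        · exact absurd h1 hc0
        · exact h1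
        · exact absurd h1 hc2
      subst hc1
      have e3 : w (j + 1) = v := l3
      have e4 : w j = (d.upd w p q x).par v 1 := l4
      have key := type_one h hf (show j < m by omega) (l1.trans e3.symm) (l2.trans e4.symm)
      by_cases hux : u = x
      · exfalso
        apply hne
        rw [hux, reg_x_old (fst_ne_x h hs hf), reg_x_new]
        have hp := (key (w p) (h.a.wK p (by omega))).2 (by rw [h.t.T0 p (by omega)]; exact hj1)
        have hq := (key (w q) (h.a.wK q hqm)).1 (by rw [h.t.T0 q hqm]; exact hj2)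
        rw [hp]
        rcases hq with hq | hq
        · rw [hq]
          decide
        · rw [hq]
          decide
      · rw [reg_old (fst_ne_x h hs hf) hux, reg_new hux (h.t.T0 j (by omega))] at hne
        have huK := mem_ins hu hux
        have hk := key u huK
        by_cases ht : j < d.top u
        · rw [if_pos ht] at hne
          have h0 : d.reg u f = 0 := by
            rcases hk.1 ht with h1 | h1
            · exact h1
            · exact absurd h1 hne
          have hS := hP.G1 j (by omega) f hf (l1.trans e3.symm) (l2.trans e4.symm) u huK ht h0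
          have htv : d.top v = j + 1 := by rw [← e3]; exact h.t.T0 (j + 1) (by omega)
          rw [e3] at hS
          exact pc_fin h hs hvK huK hS (fun e => absurd e (by decide)) (fun _ => by omega)
            (fun e => absurd e (by decide))
        · rw [if_neg ht] at hne
          exact absurd (hk.2 (not_lt.1 ht)) hne
  · -- `f` is new
    rcases mem_new hf₀' with hf' | ⟨l, hl1, hl2, rfl⟩
    · -- `f'` is old
      have hvK : v ∈ K := by rw [← l3]; exact h.a.DK f' hf' _
      have hvx := ne_x hs hvK
      have hpx : (d.upd w p q x).par v c ≠ x := by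
        rw [← l4]
        exact ne_x hs (h.a.DK f' hf' _)
      have hc0 : c ≠ 0 := by
        rintro rfl
        exact hpx l2.symm
      have hc2 : c ≠ 1 := by
        rintro rfl
        exact hvx l1.symm
      have hc1 : c = 2 := by
        rcases fin3 c with h1 | h1 | h1
        · exact absurd h1 hc0
        · exact absurd h1 hc2
        · exact h1
      subst hc1
      have e3 : w j = v := l1
      have e4 : w (j + 1) = (d.upd w p q x).par v 2 := l2
      have key := type_two h hf' (show j < m by omega) (l3.trans e3.symm) (l4.trans e4.symm)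
      by_cases hux : u = x
      · exfalso
        apply hne
        rw [hux, reg_x_old (fst_ne_x h hs hf'), reg_x_new]
        have hp := (key (w p) (h.a.wK p (by omega))).2 (by rw [h.t.T0 p (by omega)]; exact hj1)
        have hq := (key (w q) (h.a.wK q hqm)).1 (by rw [h.t.T0 q hqm]; exact hj2)
        rw [hq]
        rcases hp with hp | hp
        · rw [hp]
          decide
        · rw [hp]
          decide
      · rw [reg_old (fst_ne_x h hs hf') hux, reg_new hux (h.t.T0 j (by omega))] at hne
        have huK := mem_ins hu hux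
        have hk := key u huK
        by_cases ht : j < d.top u
        · rw [if_pos ht] at hne
          exact absurd (hk.1 ht).symm hne
        · rw [if_neg ht] at hne
          have h0 : d.reg u f' = 0 := by
            rcases hk.2 (not_lt.1 ht) with h1 | h1
            · exact h1
            · exact absurd h1.symm hne
          have hS := hP.G2 j (by omega) f' hf' (l3.trans e3.symm) (l4.trans e4.symm) u huK
            (not_lt.1 ht) h0
          have htv : d.top v = j := by rw [← e3]; exact h.t.T0 j (by omega)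
          rw [e3] at hS
          exact pc_fin h hs hvK huK hS (fun e => absurd e (by decide))
            (fun e => absurd e (by decide)) (fun _ => by omega)
    · -- both new
      rcases fin3 c with rfl | rfl | rfl
      · have e1 : w (j + 1) = v := l1
        have e2 : w l = v := l3
        have hjl : j + 1 = l := h.a.winj _ _ (by omega) (by omega) (e1.trans e2.symm)
        subst hjl
        by_cases hux : u = x
        · exfalso
          apply hne
          rw [hux, reg_x_new, reg_x_new]
        · rw [reg_new hux (h.t.T0 j (by omega)), reg_new hux (h.t.T0 (j + 1) (by omega))] at hne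
          have huK := mem_ins hu hux
          have htu : d.top u = j + 1 := by
            by_contra ht
            apply hne
            by_cases h1 : j < d.top u
            · rw [if_pos h1, if_pos (by omega)]
            · rw [if_neg h1, if_neg (by omega)]
          have hvK : v ∈ K := by rw [← e1]; exact h.a.wK _ (by omega)
          have htv : d.top v = j + 1 := by rw [← e1]; exact h.t.T0 (j + 1) (by omega)
          have hS := hP.T0 u huK
          rw [htu, e1] at hS
          exact pc_fin h hs hvK huK hS (fun _ => by omega) (fun e => absurd e (by decide))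
            (fun e => absurd e (by decide))
      · exfalso
        have e1 : x = v := l1
        have e2 : w (l + 1) = v := l3
        exact w_ne_x h hs (show l + 1 ≤ m by omega) (e2.trans e1.symm)
      · exfalso
        have e1 : w j = v := l1
        have e2 : x = v := l3
        exact w_ne_x h hs (show j ≤ m by omega) (e1.trans e2.symm)

end MP0e5907
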