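import Pool.Agent.Lib_MP_0e5907.PStepA
import Pool.Agent.Lib_MP_0e5907.PStepB
import Pool.Agent.Lib_MP_0e5907.PStepC

/-!
# Piece PFINAL: a canonical ordering gives a Schnyder labelled triangulation with nested regions

Paper proof.
* `pinv_base`: `D = ∅` and `K = {r1, r2}`: everything is vacuous or trivial (for the data of the base case: use any `d` with the `CInv`; look at `cinv_base`; the statement below asks for both invariants).
* `co_inv2`: induction on `CO`: the base case, and the step with `d.upd w p q x`, the nine step lemmas for `CInv` (as in `co_inv`) and `step_T1`, `step_M`, `step_T0`, `step_G1`, `step_G2`, `step_Q`.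
* `co_stri2`: COPY the proof of `co_stri` from `CFinal.lean` starting from `co_inv2`, and check `STriP` for the constructed `T` at the end: `mono`: field `M` (every inner vertex is off the path: `hoff`), `dom`: field `Q` (with `f = lf e`, `f' = rf e`; the labels are given by `hl`, `hrr`).
-/

namespace MP0e5907

open Finset

variable {V : Type} [DecidableEq V]

theorem base_inv2 (r1 r2 : V) (w : ℕ → V) (h0 : w 0 = r1) (h1 : w 1 = r2) (hne : r1 ≠ r2) :
    ∃ d : CDat V, CInv r1 r2 1 w ∅ {r1, r2} d ∧ PInv r1 r2 1 w ∅ {r1, r2} d := by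
  obtain ⟨d, hd⟩ := cinv_base r1 r2 w h0 h1 hne
  have hmem : ∀ v ∈ ({r1, r2} : Finset V), v ≠ r1 → v ≠ r2 → False := by
    intro v hv hv1 hv2
    rw [Finset.mem_insert, Finset.mem_singleton] at hv
    rcases hv with h | h
    · exact hv1 h
    · exact hv2 h
  refine ⟨d, hd, ?_, ?_, ?_, ?_, ?_, ?_⟩
  · intro v hv hv1 hv2
    exact (hmem v hv hv1 hv2).elim
  · intro v hv hv1 hv2
    exact (hmem v hv hv1 hv2).elim
  · intro u _ g hg
    exact absurd hg (Finset.notMem_empty g)
  · intro i _ f hf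
    exact absurd hf (Finset.notMem_empty f)
  · intro i _ f hf
    exact absurd hf (Finset.notMem_empty f)
  · intro v hv hv1 hv2
    exact (hmem v hv hv1 hv2).elim

theorem co_inv2 {r1 r2 : V} {m : ℕ} {w : ℕ → V} {D : Finset (V × V × V)} {K : Finset V}
    (h : CO r1 r2 m w D K) : ∃ d : CDat V, CInv r1 r2 m w D K d ∧ PInv r1 r2 m w D K d := by
  induction h with
  | base w h0 h1 hne => exact base_inv2 r1 r2 w h0 h1 hne
  | step m w D K _ p q x m' w' hs ih =>
    obtain ⟨d, hd, hP⟩ := ih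
    exact ⟨d.upd w p q x, ⟨step_PA hd hs, step_PB hd hs, step_PS3 hd hs, step_PS4 hd hs,
      step_PT hd hs, step_PR hd hs, step_PX hd hs, step_PU hd hs, step_PP hd hs⟩,
      ⟨step_T1 hd hP hs, step_M hd hP hs, step_T0 hd hP hs, step_G1 hd hP hs, step_G2 hd hP hs,
      step_Q hd hP hs⟩⟩

theorem co_stri2 [Fintype V] (r : Fin 3 → V) (hr : Function.Injective r) (w : ℕ → V) (D : Finset (V × V × V))
    (h : CO (r 1) (r 2) 2 w D univ) (h1 : w 1 = r 0) :
    ∃ T : STri {v : V // ∀ i, v ≠ r i} {f : V × V × V // f ∈ D},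
      STriP T ∧ ∀ f k, Sum.elim Subtype.val r (T.vert f k) = lab f.1 k := by
  obtain ⟨d, hd, hP⟩ := co_inv2 h
  have hw0 : w 0 = r 1 := hd.a.w0
  have hw2 : w 2 = r 2 := hd.a.wm
  -- the types of the two path edges
  have hty : ∀ i, i < 2 → Ty1 (r 1) (r 2) w D univ d i ∨ Ty2 (r 1) (r 2) w D univ d i := by
    rcases hd.s4 with ⟨-, h2⟩ | h2
    · exact absurd h2 (by norm_num)
    · exact h2
  have p1 : d.par (r 0) 1 = r 1 := by
    rcases hty 0 (by norm_num) with h2 | h2
    · have h3 := h2.2.2.1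
      rw [zero_add, h1, hw0] at h3
      exact h3
    · exact absurd hw0 h2.1
  have p2 : d.par (r 0) 2 = r 2 := by
    rcases hty 1 (by norm_num) with h2 | h2
    · exact absurd hw2 h2.2.1
    · have h3 := h2.2.2.1
      have hw2' : w (1 + 1) = r 2 := hw2
      rw [h1, hw2'] at h3
      exact h3
  have hoff : ∀ v : {v : V // ∀ i, v ≠ r i}, Off 2 w v.1 := by
    intro v i hi h2
    have hi' : i = 0 ∨ i = 1 ∨ i = 2 := by omega
    rcases hi' with rfl | rfl | rfl
    · exact v.2 1 (h2.symm.trans hw0)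
    · exact v.2 0 (h2.symm.trans h1)
    · exact v.2 2 (h2.symm.trans hw2)
  -- the bijection
  have hex : ∀ x : {f : V × V × V // f ∈ D} × Fin 3,
      ∃ s : (({v : V // ∀ i, v ≠ r i} × Fin 3) ⊕ ({v : V // ∀ i, v ≠ r i} × Fin 3)) ⊕ Fin 3,
      cfinRel r d x.1.1 x.2 s := fun x => cfinRel_ex hd.a hd.s3 h1 p1 p2 x.1.1 x.1.2 x.2
  choose g hg using hex
  have ginj : Function.Injective g := by
    intro x y hxy
    have hx := hg x
    rw [hxy] at hx
    obtain ⟨h2, h3⟩ := cfinRel_uniq hd.a r d (g y) x.1.2 y.1.2 hx (hg y)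
    exact Prod.ext (Subtype.ext h2) h3
  have hcardV : Fintype.card {v : V // ∀ i, v ≠ r i} + 3 = Fintype.card V := by
    have h2 := Fintype.card_congr (cfinE r hr)
    rw [Fintype.card_sum, Fintype.card_fin] at h2
    exact h2
  have hcount : D.card + 2 + 3 = 2 * Fintype.card V := hd.a.count
  have hcard : Fintype.card ({f : V × V × V // f ∈ D} × Fin 3) =
      Fintype.card ((({v : V // ∀ i, v ≠ r i} × Fin 3) ⊕ ({v : V // ∀ i, v ≠ r i} × Fin 3)) ⊕
        Fin 3) := by
    rw [Fintype.card_prod, Fintype.card_sum, Fintype.card_sum, Fintype.card_prod,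
      Fintype.card_fin, Fintype.card_coe]
    omega
  have gbij : Function.Bijective g :=
    (Fintype.bijective_iff_injective_and_card g).2 ⟨ginj, hcard⟩
  let G := Equiv.ofBijective g gbij
  have hσ : ∀ s, cfinRel r d (G.symm s).1.1 (G.symm s).2 s := by
    intro s
    have h2 := hg (G.symm s)
    have h3 : g (G.symm s) = s := G.apply_symm_apply s
    rw [h3] at h2
    exact h2
  have hl : ∀ e : {v : V // ∀ i, v ≠ r i} × Fin 3,
      (G.symm (Sum.inl (Sum.inl e))).2 = e.2 + 1 ∧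
      lab (G.symm (Sum.inl (Sum.inl e))).1.1 (e.2 + 2) = e.1.1 ∧
      lab (G.symm (Sum.inl (Sum.inl e))).1.1 e.2 = d.par e.1.1 e.2 :=
    fun e => hσ (Sum.inl (Sum.inl e))
  have hrr : ∀ e : {v : V // ∀ i, v ≠ r i} × Fin 3,
      (G.symm (Sum.inl (Sum.inr e))).2 = e.2 + 2 ∧
      lab (G.symm (Sum.inl (Sum.inr e))).1.1 (e.2 + 1) = e.1.1 ∧
      lab (G.symm (Sum.inl (Sum.inr e))).1.1 e.2 = d.par e.1.1 e.2 :=
    fun e => hσ (Sum.inl (Sum.inr e))
  have ho : ∀ j : Fin 3, (G.symm (Sum.inr j)).2 = j ∧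
      lab (G.symm (Sum.inr j)).1.1 (j + 1) = r (j + 1) ∧
      lab (G.symm (Sum.inr j)).1.1 (j + 2) = r (j + 2) := fun j => hσ (Sum.inr j)
  have hEs : ∀ x : V, (cfinE r hr) ((cfinE r hr).symm x) = x := (cfinE r hr).apply_symm_apply
  refine ⟨{
    vert := fun f k => (cfinE r hr).symm (lab f.1 k)
    par := fun v c => (cfinE r hr).symm (d.par v.1 c)
    lf := fun e => (G.symm (Sum.inl (Sum.inl e))).1
    rf := fun e => (G.symm (Sum.inl (Sum.inr e))).1
    of := fun j => (G.symm (Sum.inr j)).1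
    reg := fun u f => d.reg (cfinE r hr u) f.1
    sides := ?_
    lf_tail := ?_
    lf_head := ?_
    rf_tail := ?_
    rf_head := ?_
    of_one := ?_
    of_two := ?_
    reg_root := ?_
    reg_vert := ?_
    reg_cross := ?_
    reg_uniq := ?_
    reg_par := ?_ }, ⟨?_, ?_⟩, ?_⟩
  · have hs : sideMap (fun e => (G.symm (Sum.inl (Sum.inl e))).1)
        (fun e => (G.symm (Sum.inl (Sum.inr e))).1) (fun j => (G.symm (Sum.inr j)).1) = G.symm := by
      funext s
      rcases s with (e | e) | j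
      · exact Prod.ext rfl (hl e).1.symm
      · exact Prod.ext rfl (hrr e).1.symm
      · exact Prod.ext rfl (ho j).1.symm
    rw [hs]
    exact G.symm.bijective
  · intro e
    rw [(hl e).2.1, Equiv.symm_apply_eq, cfinE_inl]
  · intro e
    rw [(hl e).2.2]
  · intro e
    rw [(hrr e).2.1, Equiv.symm_apply_eq, cfinE_inl]
  · intro e
    rw [(hrr e).2.2]
  · intro j
    rw [(ho j).2.1, Equiv.symm_apply_eq, cfinE_inr]
  · intro j
    rw [(ho j).2.2, Equiv.symm_apply_eq, cfinE_inr]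
  · intro i f
    change d.reg (r i) f.1 = i
    fin_cases i
    · obtain ⟨a, b, ha, hab, hb, h2⟩ := hd.r.R3 f.1 f.2
      have h3 := (h2 1 (by norm_num)).2.1 (by omega) (by omega)
      rw [h1] at h3
      exact h3
    · exact (hd.r.R2 f.1 f.2).1
    · exact (hd.r.R2 f.1 f.2).2
  · intro f i
    rw [hEs]
    exact hd.r.R1 f.1 f.2 i
  · intro e u
    exact (hd.x e.1.1 (mem_univ _) (e.1.2 1) (e.1.2 2) e.2 (Or.inr (hoff e.1))
      _ (G.symm (Sum.inl (Sum.inl e))).1.2 _ (G.symm (Sum.inl (Sum.inr e))).1.2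
      (hl e).2.1 (hl e).2.2 (hrr e).2.1 (hrr e).2.2 (cfinE r hr u) (mem_univ _)).1
  · intro f f' h2
    refine Subtype.ext (hd.u f.1 f.2 f'.1 f'.2 ?_)
    intro a b hab
    apply h2
    change d.reg (cfinE r hr ((cfinE r hr).symm _)) f.1 =
      d.reg (cfinE r hr ((cfinE r hr).symm _)) f.1
    rw [hEs, hEs]
    exact hab
  · intro v c f h2
    change d.reg v.1 f.1 = c at h2
    rw [hEs]
    obtain ⟨q1, q2, q0⟩ := hd.p v.1 (mem_univ _) (v.2 1) (v.2 2) f.1 f.2
    revert h2
    fin_cases c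
    · exact q0 (hoff v)
    · exact q1
    · exact q2
  · intro v c m g hm h2
    change d.reg (cfinE r hr ((cfinE r hr).symm _)) g.1 = m at h2
    rw [hEs] at h2
    exact hP.M v.1 (mem_univ _) (v.2 1) (v.2 2) c (Or.inr (hoff v)) g.1 g.2 m hm h2
  · intro e u m g hne hm h2
    exact (hP.Q e.1.1 (mem_univ _) (e.1.2 1) (e.1.2 2) e.2 (Or.inr (hoff e.1))
      _ (G.symm (Sum.inl (Sum.inl e))).1.2 _ (G.symm (Sum.inl (Sum.inr e))).1.2
      (hl e).2.1 (hl e).2.2 (hrr e).2.1 (hrr e).2.2 (cfinE r hr u) (mem_univ _) hne).1 g.1 g.2 m hm h2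
  · intro f k
    exact hEs _

end MP0e5907
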