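import Pool.Agent.Lib_MP_0e5907.PBase
import Pool.Agent.Lib_MP_0e5907.CStepA

/-!
# Piece PSTEPA: steps of the invariants T1, M, T0

Paper proof. Notation: `top = d.top`, `reg = d.reg`, primes for the new data `d.upd w p q x`. Recall (see `CStepA`, `CStepB`, `CStepC` for the corresponding private
lemmas, copy them): for `u ≠ x`: `reg' u f = reg u f` for old `f`; for the new face `g = (x, w j, w (j+1))`, `p ≤ j < q`: `reg' u g = 2` if `j < top u` and `= 1` otherwise;
`reg' x g = 0`; `reg' x f = 2` if `reg (w p) f = 2`, `= 1` if (not that and) `reg (w q) f = 1`, else `0`. `top' x = p+1`; for `u ≠ x`: `top' u = top u` if `top u ≤ p`, `p + 1` if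
`p < top u < q`, `top u + p + 2 - q` if `q ≤ top u`. By `R3` for old `f` the sequence `reg (w 0) f, ..., reg (w m) f` is `1..1 0..0 2..2`, so:
`reg (w i) f = 2, i ≤ j → reg (w j) f = 2` and `reg (w j) f = 1, i ≤ j → reg (w i) f = 1`.
* `step_T1`: `v` off the new path; `v ≠ x`. Either `v = w s` with `p < s < q`: `par' v 0 = x`, `top' x = p+1 = top' v`; or `v` was off the old path: `par' v 0 = par v 0 ∈ K` (`PB`), `≠ x`, equal tops before, hence equal tops after.
* `step_M`: `v = x` (on the new path, so `c ≠ 0`): `c = 1`, `par' = w p`: for a new face `reg' (w p) = 1` (`top (w p) = p ≤ j`), excluded. Old face, `k ≠ 1`: `reg (w p) f = 2` gives `reg' x f = 2`;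
  `reg (w p) f = 0` gives `reg (w q) f ≠ 1` and `reg' x f = 0`. `c = 2` symmetric. `v ≠ x`, `c ≠ 0`: `par' v c = par v c = z ∈ K`: old faces: `M`; new faces by `T23`: `c = 1`: `top z ≤ top v`: if `reg' z g = 2` then `j < top z ≤ top v`; `c = 2`: `top v ≤ top z`.
  (`reg' z g = 0` is impossible since `z ≠ x`.) `v ≠ x`, `c = 0`: `v = w s`, `p<s<q`: `par' v 0 = x`: new faces: `reg' x g = 0` excluded; old faces: `reg' x f = 2` iff `reg (w p) f = 2`, then `reg (w s) f = 2`; `reg' x f = 1` implies `reg (w q) f = 1`, so `reg (w s) f = 1`.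
  `v` off the old path: old faces `M`, new faces: `T1`, equal tops.
* `step_T0`: `u = x`: `w' (p+1) = x`, trivial. `u ≠ x`, `top u ≤ p` or `q ≤ top u`: `w' (top' u) = w (top u)` (`≠ x`); old faces `T0`; new faces: `top (w (top u)) = top u`, same value.
  `p < top u < q`, `s = top u`: `w' (top' u) = x`; new faces excluded (`reg' x g = 0`); old faces: as in `step_M`, `reg' x f = k ≠ 0` implies `reg (w s) f = k`, then `T0`.
-/

namespace MP0e5907

open Finset

variable {V : Type}

/-! ### the updated data -/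

section upd

variable {d : CDat V} {w : ℕ → V} {p q : ℕ} {x : V}

private theorem pa_reg_old {v : V} {f : V × V × V} (hf : f.1 ≠ x) (hv : v ≠ x) :
    (d.upd w p q x).reg v f = d.reg v f := by
  simp only [CDat.upd]
  rw [if_neg hf, if_neg hv]

/-- the region of the new vertex, as a function of the regions of `w p` and `w q` -/
private def paRho (a b : Fin 3) : Fin 3 := if a = 2 then 2 else if b = 1 then 1 else 0

private theorem pa_reg_x_old {f : V × V × V} (hf : f.1 ≠ x) :
    (d.upd w p q x).reg x f = paRho (d.reg (w p) f) (d.reg (w q) f) := by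
  simp only [CDat.upd, if_neg hf, if_true]
  rfl

private theorem pa_reg_new {v : V} {j : ℕ} (hv : v ≠ x) (ht : d.top (w j) = j) :
    (d.upd w p q x).reg v (x, w j, w (j + 1)) = if j < d.top v then 2 else 1 := by
  simp only [CDat.upd, if_true, if_neg hv, ht]

private theorem pa_reg_x_new {j : ℕ} :
    (d.upd w p q x).reg x (x, w j, w (j + 1)) = 0 := by
  simp only [CDat.upd, if_true]

private theorem pa_par_ne_zero {v : V} {c : Fin 3} (hv : v ≠ x) (hc : c ≠ 0) :
    (d.upd w p q x).par v c = d.par v c := by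
  simp only [CDat.upd]
  rw [if_neg hv, if_neg (fun h => hc h.1)]

private theorem pa_par_zero_in {v : V} (hv : v ≠ x) (h : ∃ s, p < s ∧ s < q ∧ w s = v) :
    (d.upd w p q x).par v 0 = x := by
  simp only [CDat.upd]
  rw [if_neg hv, if_pos ⟨rfl, h⟩]

private theorem pa_par_zero_out {v : V} (hv : v ≠ x) (h : ¬ ∃ s, p < s ∧ s < q ∧ w s = v) :
    (d.upd w p q x).par v 0 = d.par v 0 := by
  simp only [CDat.upd]
  rw [if_neg hv, if_neg (fun h' => h h'.2)]

private theorem pa_par_x_one : (d.upd w p q x).par x 1 = w p := by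
  simp only [CDat.upd]
  simp

private theorem pa_par_x_two : (d.upd w p q x).par x 2 = w q := by
  simp only [CDat.upd]
  simp

private theorem pa_top_x : (d.upd w p q x).top x = p + 1 := by
  simp only [CDat.upd, if_true]

private theorem pa_top_le {v : V} (hv : v ≠ x) (ht : d.top v ≤ p) :
    (d.upd w p q x).top v = d.top v := by
  simp only [CDat.upd]
  rw [if_neg hv, if_pos ht]

private theorem pa_top_mid {v : V} (hv : v ≠ x) (h1 : p < d.top v) (h2 : d.top v < q) :
    (d.upd w p q x).top v = p + 1 := by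
  simp only [CDat.upd]
  rw [if_neg hv, if_neg (not_le.2 h1), if_pos h2]

private theorem pa_top_ge {v : V} (hv : v ≠ x) (hpq : p < q) (h2 : q ≤ d.top v) :
    (d.upd w p q x).top v = d.top v + p + 2 - q := by
  simp only [CDat.upd]
  rw [if_neg hv, if_neg (by omega), if_neg (by omega)]

private theorem pa_top_eq {u v : V} (hu : u ≠ x) (hv : v ≠ x) (h : d.top u = d.top v) :
    (d.upd w p q x).top u = (d.upd w p q x).top v := by
  simp only [CDat.upd]
  rw [if_neg hu, if_neg hv, h]

end upd

/-! ### order of the regions along the path -/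

/-- the regions along the path go `1, 0, 2` -/
private def paGood (a b : Fin 3) : Prop := a = 1 ∨ (a = 0 ∧ b ≠ 1) ∨ (a = 2 ∧ b = 2)

private instance (a b : Fin 3) : Decidable (paGood a b) := by
  unfold paGood
  infer_instance

private theorem pa_good_of {r1 r2 : V} {m : ℕ} {w : ℕ → V} {D : Finset (V × V × V)} {d : CDat V}
    (h : PR r1 r2 m w D d) {f : V × V × V} (hf : f ∈ D) {i j : ℕ} (hij : i ≤ j) (hj : j ≤ m) :
    paGood (d.reg (w i) f) (d.reg (w j) f) := by
  obtain ⟨a, b, h1, h2, h3, h4⟩ := h.R3 f hf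
  obtain ⟨i1, i2, i3⟩ := h4 i (hij.trans hj)
  obtain ⟨j1, j2, j3⟩ := h4 j hj
  unfold paGood
  rcases lt_or_ge i a with hi | hi
  · exact Or.inl (i1 hi)
  · rcases lt_or_ge i b with hi' | hi'
    · refine Or.inr (Or.inl ⟨i2 hi hi', ?_⟩)
      rcases lt_or_ge j b with hj' | hj'
      · rw [j2 (hi.trans hij) hj']
        decide
      · rw [j3 hj']
        decide
    · exact Or.inr (Or.inr ⟨i3 hi', j3 (hi'.trans hij)⟩)

private theorem pa_dec_left : ∀ a b : Fin 3, paGood a b → a ≠ 1 → paRho a b = a := by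
  decide

private theorem pa_dec_right : ∀ a b : Fin 3, paGood a b → b ≠ 2 → paRho a b = b := by
  decide

private theorem pa_dec_mid : ∀ a s b : Fin 3, paGood a s → paGood s b → paRho a b ≠ 0 →
    s = paRho a b := by
  decide

/-! ### the new path and the new faces -/

variable [DecidableEq V]

section step

variable {r1 r2 : V} {m : ℕ} {w : ℕ → V} {D : Finset (V × V × V)} {K : Finset V} {d : CDat V}
  {p q : ℕ} {x : V} {m' : ℕ} {w' : ℕ → V}

omit [DecidableEq V] in
private theorem pa_off (hs : Step m w K p q x m' w') {u : V} (h1 : Off m' w' u) :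
    u ≠ x ∧ ∀ i, i ≤ m → (i ≤ p ∨ q ≤ i) → w i ≠ u := by
  obtain ⟨pq, qm, xK, hm', w1, w2, w3⟩ := hs
  refine ⟨fun hu => ?_, fun i hi hi' hu => ?_⟩
  · exact h1 (p + 1) (by omega) (w2.trans hu.symm)
  · rcases hi' with h | h
    · exact h1 i (by omega) ((w1 i h).trans hu)
    · exact h1 (i + p + 2 - q) (by omega) ((w3 i h hi).trans hu)

omit [DecidableEq V] in
private theorem pa_off_old (hs : Step m w K p q x m' w') {u : V} (h1 : Off m' w' u)
    (h2 : ¬ ∃ s, p < s ∧ s < q ∧ w s = u) : Off m w u := by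
  intro i hi e
  by_cases h3 : i ≤ p ∨ q ≤ i
  · exact (pa_off hs h1).2 i hi h3 e
  · push Not at h3
    exact h2 ⟨i, h3.1, h3.2, e⟩

omit [DecidableEq V] in
private theorem pa_ne_x (hs : Step m w K p q x m' w') {v : V} (hv : v ∈ K) : v ≠ x := by
  rintro rfl
  exact hs.xK hv

omit [DecidableEq V] in
private theorem pa_w_ne_x (h : CInv r1 r2 m w D K d) (hs : Step m w K p q x m' w') {i : ℕ}
    (hi : i ≤ m) : w i ≠ x := pa_ne_x hs (h.a.wK i hi)

omit [DecidableEq V] in
private theorem pa_fst_ne_x (h : CInv r1 r2 m w D K d) (hs : Step m w K p q x m' w')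
    {f : V × V × V} (hf : f ∈ D) : f.1 ≠ x := pa_ne_x hs (h.a.DK f hf 0)

private theorem pa_mem_ins {v : V} (hv : v ∈ insert x K) (hne : v ≠ x) : v ∈ K :=
  (Finset.mem_insert.1 hv).resolve_left hne

private theorem pa_fin3 (c : Fin 3) : c = 0 ∨ c = 1 ∨ c = 2 := by
  fin_cases c
  · exact Or.inl rfl
  · exact Or.inr (Or.inl rfl)
  · exact Or.inr (Or.inr rfl)

end step

theorem step_T1 {r1 r2 : V} {m : ℕ} {w : ℕ → V} {D : Finset (V × V × V)} {K : Finset V} {d : CDat V}
    {p q : ℕ} {x : V} {m' : ℕ} {w' : ℕ → V} (h : CInv r1 r2 m w D K d) (hP : PInv r1 r2 m w D K d)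
    (hs : Step m w K p q x m' w') :
    ∀ v ∈ insert x K, v ≠ r1 → v ≠ r2 → Off m' w' v →
      (d.upd w p q x).top ((d.upd w p q x).par v 0) = (d.upd w p q x).top v := by
  intro v hv hv1 hv2 hoff
  have hpq := hs.pq
  have hqm := hs.qm
  obtain ⟨hvx, _⟩ := pa_off hs hoff
  have hvK := pa_mem_ins hv hvx
  by_cases hex : ∃ s, p < s ∧ s < q ∧ w s = v
  · rw [pa_par_zero_in hvx hex, pa_top_x]
    obtain ⟨s, h1, h2, h3⟩ := hex
    have ht : d.top v = s := by
      rw [← h3]
      exact h.t.T0 s (by omega)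
    rw [pa_top_mid hvx (by omega) (by omega)]
  · have hoff' := pa_off_old hs hoff hex
    rw [pa_par_zero_out hvx hex]
    exact pa_top_eq (pa_ne_x hs ((h.b v hvK hv1 hv2).2.2 hoff')) hvx (hP.T1 v hvK hv1 hv2 hoff')

theorem step_M {r1 r2 : V} {m : ℕ} {w : ℕ → V} {D : Finset (V × V × V)} {K : Finset V} {d : CDat V}
    {p q : ℕ} {x : V} {m' : ℕ} {w' : ℕ → V} (h : CInv r1 r2 m w D K d) (hP : PInv r1 r2 m w D K d)
    (hs : Step m w K p q x m' w') :
    ∀ v ∈ insert x K, v ≠ r1 → v ≠ r2 → ∀ c : Fin 3, (c ≠ 0 ∨ Off m' w' v) →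
      Sub3 (D ∪ newf w p q x) (d.upd w p q x) c ((d.upd w p q x).par v c) v := by
  intro v hv hv1 hv2 c hc f hf k hk hreg
  have hpq := hs.pq
  have hqm := hs.qm
  by_cases hvx : v = x
  · -- the new vertex
    subst hvx
    have hc0 : c ≠ 0 := hc.resolve_right (fun hoff => (pa_off hs hoff).1 rfl)
    rcases csa_mem.1 hf with hf | ⟨j, hj1, hj2, rfl⟩
    · have hfx := pa_fst_ne_x h hs hf
      have hg := pa_good_of h.r hf hpq.le hqm
      rw [pa_reg_x_old hfx]
      rcases pa_fin3 c with rfl | rfl | rfl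
      · exact absurd rfl hc0
      · rw [pa_par_x_one, pa_reg_old hfx (pa_w_ne_x h hs (by omega))] at hreg
        rw [pa_dec_left _ _ hg (by rw [hreg]; exact hk)]
        exact hreg
      · rw [pa_par_x_two, pa_reg_old hfx (pa_w_ne_x h hs hqm)] at hreg
        rw [pa_dec_right _ _ hg (by rw [hreg]; exact hk)]
        exact hreg
    · exfalso
      rcases pa_fin3 c with rfl | rfl | rfl
      · exact absurd rfl hc0
      · rw [pa_par_x_one, pa_reg_new (pa_w_ne_x h hs (by omega)) (h.t.T0 j (by omega)),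
          h.t.T0 p (by omega), if_neg (by omega)] at hreg
        exact hk hreg.symm
      · rw [pa_par_x_two, pa_reg_new (pa_w_ne_x h hs hqm) (h.t.T0 j (by omega)),
          h.t.T0 q hqm, if_pos hj2] at hreg
        exact hk hreg.symm
  · -- an old vertex
    have hvK := pa_mem_ins hv hvx
    by_cases hc0 : c = 0
    · subst hc0
      have hoff : Off m' w' v := hc.resolve_left (fun h => h rfl)
      by_cases hex : ∃ s, p < s ∧ s < q ∧ w s = v
      · rw [pa_par_zero_in hvx hex] at hreg
        obtain ⟨s, h1, h2, h3⟩ := hex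
        rcases csa_mem.1 hf with hf | ⟨j, hj1, hj2, rfl⟩
        · have hfx := pa_fst_ne_x h hs hf
          rw [pa_reg_x_old hfx] at hreg
          rw [pa_reg_old hfx hvx]
          have e := pa_dec_mid _ _ _ (pa_good_of h.r hf h1.le (by omega : s ≤ m))
            (pa_good_of h.r hf h2.le hqm) (by rw [hreg]; exact hk)
          rw [h3] at e
          rw [e]
          exact hreg
        · rw [pa_reg_x_new] at hreg
          exact absurd hreg.symm hk
      · have hoff' := pa_off_old hs hoff hex
        have hzK := (h.b v hvK hv1 hv2).2.2 hoff'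
        have hzx := pa_ne_x hs hzK
        rw [pa_par_zero_out hvx hex] at hreg
        rcases csa_mem.1 hf with hf | ⟨j, hj1, hj2, rfl⟩
        · have hfx := pa_fst_ne_x h hs hf
          rw [pa_reg_old hfx hzx] at hreg
          rw [pa_reg_old hfx hvx]
          exact hP.M v hvK hv1 hv2 0 (Or.inr hoff') f hf k hk hreg
        · rw [pa_reg_new hzx (h.t.T0 j (by omega)), hP.T1 v hvK hv1 hv2 hoff'] at hreg
          rw [pa_reg_new hvx (h.t.T0 j (by omega))]
          exact hreg
    · rw [pa_par_ne_zero hvx hc0] at hreg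
      have hb := h.b v hvK hv1 hv2
      have hzx : d.par v c ≠ x := by
        rcases pa_fin3 c with rfl | rfl | rfl
        · exact absurd rfl hc0
        · exact pa_ne_x hs hb.1
        · exact pa_ne_x hs hb.2.1
      rcases csa_mem.1 hf with hf | ⟨j, hj1, hj2, rfl⟩
      · have hfx := pa_fst_ne_x h hs hf
        rw [pa_reg_old hfx hzx] at hreg
        rw [pa_reg_old hfx hvx]
        exact hP.M v hvK hv1 hv2 c (Or.inl hc0) f hf k hk hreg
      · rw [pa_reg_new hzx (h.t.T0 j (by omega))] at hreg
        rw [pa_reg_new hvx (h.t.T0 j (by omega))]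
        obtain ⟨t1, t2⟩ := h.t.T23 v hvK hv1 hv2
        rcases pa_fin3 c with rfl | rfl | rfl
        · exact absurd rfl hc0
        · by_cases hj : j < d.top (d.par v 1)
          · rw [if_pos hj] at hreg
            rw [if_pos (by omega)]
            exact hreg
          · rw [if_neg hj] at hreg
            exact absurd hreg.symm hk
        · by_cases hj : j < d.top (d.par v 2)
          · rw [if_pos hj] at hreg
            exact absurd hreg.symm hk
          · rw [if_neg hj] at hreg
            rw [if_neg (by omega)]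
            exact hreg

theorem step_T0 {r1 r2 : V} {m : ℕ} {w : ℕ → V} {D : Finset (V × V × V)} {K : Finset V} {d : CDat V}
    {p q : ℕ} {x : V} {m' : ℕ} {w' : ℕ → V} (h : CInv r1 r2 m w D K d) (hP : PInv r1 r2 m w D K d)
    (hs : Step m w K p q x m' w') :
    ∀ u ∈ insert x K, Sub3 (D ∪ newf w p q x) (d.upd w p q x) 0 (w' ((d.upd w p q x).top u)) u := by
  intro u hu f hf k hk hreg
  have hpq := hs.pq
  have hqm := hs.qm
  by_cases hux : u = x
  · subst hux
    rw [pa_top_x, hs.w2] at hreg
    exact hreg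
  · have huK := pa_mem_ins hu hux
    have htm := h.t.Tle u huK
    by_cases hmid : p < d.top u ∧ d.top u < q
    · rw [pa_top_mid hux hmid.1 hmid.2, hs.w2] at hreg
      rcases csa_mem.1 hf with hf | ⟨j, hj1, hj2, rfl⟩
      · have hfx := pa_fst_ne_x h hs hf
        rw [pa_reg_x_old hfx] at hreg
        rw [pa_reg_old hfx hux]
        have e := pa_dec_mid _ _ _ (pa_good_of h.r hf hmid.1.le htm)
          (pa_good_of h.r hf hmid.2.le hqm) (by rw [hreg]; exact hk)
        exact hP.T0 u huK f hf k hk (e.trans hreg)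
      · rw [pa_reg_x_new] at hreg
        exact absurd hreg.symm hk
    · have hw : w' ((d.upd w p q x).top u) = w (d.top u) := by
        by_cases h1 : d.top u ≤ p
        · rw [pa_top_le hux h1]
          exact hs.w1 _ h1
        · have h2 : q ≤ d.top u := by omega
          rw [pa_top_ge hux hpq h2]
          exact hs.w3 _ h2 htm
      rw [hw] at hreg
      have hwx := pa_w_ne_x h hs htm
      rcases csa_mem.1 hf with hf | ⟨j, hj1, hj2, rfl⟩
      · have hfx := pa_fst_ne_x h hs hf
        rw [pa_reg_old hfx hwx] at hreg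
        rw [pa_reg_old hfx hux]
        exact hP.T0 u huK f hf k hk hreg
      · rw [pa_reg_new hwx (h.t.T0 j (by omega)), h.t.T0 _ htm] at hreg
        rw [pa_reg_new hux (h.t.T0 j (by omega))]
        exact hreg

end MP0e5907
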