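import Pool.Agent.Lib_MP_0e5907.Cluster

/-!
# Piece PATHS: the dual paths `D_i(f)` and the exit edges

Recall `Yset T t f i` = the edges `e` crossed by `D_i(f)` (from `g` with `Reach T i f g`, `Cross T i g e g'`) such that
`f ∈ cl (lev e) g`. `htt : 5^t |F| < 2*6^t` is used for `lev < t` and `cl t g = {g}`.

Paper proof.
* `reach_reg`: along `Reach T i f g`: for every `v`, `reg v g = reg v f` or `reg v g = i` (induction with `cross_reg`; if already
  `reg v g = i`, then after the next step it is `reg v g` or `i`, i.e. `i`).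
* `reach_total` (determinism, `cross_unique`): if `Reach T i f g` and `Reach T i f h` then `Reach T i g h` or `Reach T i h g`.
  (`Relation.ReflTransGen.total_of_right_unique`.)
* `reach_ne`: if `Cross T i f e g` and `Reach T i g h`, then `h ≠ f`: the tail `v` of `e` has `reg v f ≠ i`, `reg v g = i`
  (`cross_strict`) and `reg v h = i` by `reach_reg`.
* `yset_spec`: let `Reach T i f g`, `Cross T i g e g'`, `f ∈ cl (lev e) g`, `k = lev e < t`. Then `cl k g = cl k f = cl k g'`
  (`cl_eq_of_mem`; `lf e`, `rf e` are `g, g'` and `lev_iff` at `d = k`), so `g, g' ∈ cl k f`. `cl (k+1) g ≠ cl (k+1) g'`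
  (`lev_iff` at `k+1 ≤ t`), so with `h = hub (cl k f)`: `reg h g ≠ reg h g'` (if they were equal then
  `g' ∈ cl (k+1) g` by `mem_cl_succ` and `cl (k+1) g' = cl (k+1) g`). By `cross_reg`, `reg h g' = i`, so `reg h g ≠ i` and by
  `reach_reg` `reg h g = reg h f`. So `reg h f ≠ i`.
* `yset_unique`: `e1, e2 ∈ Yset T t f i` with the same level `k` are equal. Let `g1, g1', g2, g2'` be the faces. By `reach_total` wlog
  `Reach T i g1 g2`. If `g1 = g2` then `e1 = e2` by `cross_unique`. Otherwise the first step from `g1` goes to `g1'`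
  (`cross_unique`; `Relation.ReflTransGen.cases_head`), so `Reach T i g1' g2`, and `reg h g1' = i` implies `reg h g2 = i` (`reach_reg`)
  but `reg h g2 = reg h f ≠ i` by `yset_spec` (same `k`, same `h`). Contradiction.
* `YY_card`: `lev` maps `Yset T t f i` injectively to `{0..t-1}` (`lev_lt`), so `#Yset ≤ t` and `#YY ≤ 3t`.
* `yset_of_cluster`: the definition of `Yset` (membership).
-/

namespace MP0e5907

open Finset

variable {N F : Type}

theorem reach_reg (T : STri N F) {i : Fin 3} {f g : F} (h : Reach T i f g) (v : N ⊕ Fin 3) :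
    T.reg v g = T.reg v f ∨ T.reg v g = i := by
  induction h with
  | refl => exact Or.inl rfl
  | tail _ hc ih =>
    obtain ⟨e, he⟩ := hc
    rcases cross_reg T he v with h1 | h1
    · rw [h1]; exact ih
    · exact Or.inr h1

theorem reach_total (T : STri N F) {i : Fin 3} {f g h : F} (hg : Reach T i f g) (hh : Reach T i f h) :
    Reach T i g h ∨ Reach T i h g := by
  refine Relation.ReflTransGen.total_of_right_unique ?_ hg hh
  rintro a b c ⟨e, he⟩ ⟨e', he'⟩
  exact (cross_unique T he he').2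

theorem reach_ne (T : STri N F) {i : Fin 3} {f g h : F} {e : N × Fin 3} (hc : Cross T i f e g)
    (hr : Reach T i g h) : h ≠ f := by
  rintro rfl
  obtain ⟨h1, h2⟩ := cross_strict T hc
  rcases reach_reg T hr (Sum.inl e.1) with h3 | h3
  · exact h1 (h3.trans h2)
  · exact h1 h3

variable [Fintype N] [Fintype F]

omit [Fintype N] in
theorem paths_mem_of_cross (T : STri N F) (t : ℕ) {i : Fin 3} {g g' : F} {e : N × Fin 3}
    (hc : Cross T i g e g') (d : ℕ) (hd : d ≤ t) :
    d ≤ lev T t e ↔ cl T d g = cl T d g' := by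
  rw [lev_iff T t d hd e]
  rcases hc with ⟨rfl, rfl, _⟩ | ⟨rfl, rfl, _⟩
  · rfl
  · exact eq_comm

theorem yset_spec (T : STri N F) (t : ℕ) (ht : 5 ^ t * Fintype.card F < 2 * 6 ^ t) {i : Fin 3} {f g g' : F}
    {e : N × Fin 3} (hr : Reach T i f g) (hc : Cross T i g e g') (hf : f ∈ cl T (lev T t e) g) :
    g ∈ cl T (lev T t e) f ∧ g' ∈ cl T (lev T t e) f ∧
      T.reg (hub T (cl T (lev T t e) f)) g = T.reg (hub T (cl T (lev T t e) f)) f ∧
      T.reg (hub T (cl T (lev T t e) f)) g' = i ∧ T.reg (hub T (cl T (lev T t e) f)) f ≠ i := by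
  have hlt := lev_lt T t ht e
  set k := lev T t e with hk
  have h1 : cl T k f = cl T k g := cl_eq_of_mem T k g f hf
  have h2 : cl T k g = cl T k g' := (paths_mem_of_cross T t hc k hlt.le).1 le_rfl
  have hg : g ∈ cl T k f := by rw [h1]; exact mem_cl_self T k g
  have hg' : g' ∈ cl T k f := by rw [h1, h2]; exact mem_cl_self T k g'
  have h3 : cl T (k + 1) g ≠ cl T (k + 1) g' := by
    intro h
    have := (paths_mem_of_cross T t hc (k + 1) hlt).2 h
    omega
  have h4 : T.reg (hub T (cl T k f)) g' ≠ T.reg (hub T (cl T k f)) g := by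
    intro h
    apply h3
    have h5 : g' ∈ cl T (k + 1) g := by
      rw [mem_cl_succ, ← h1]
      exact ⟨hg', h⟩
    exact (cl_eq_of_mem T (k + 1) g g' h5).symm
  have h5 : T.reg (hub T (cl T k f)) g' = i := by
    rcases cross_reg T hc (hub T (cl T k f)) with h | h
    · exact absurd h h4
    · exact h
  have h6 : T.reg (hub T (cl T k f)) g ≠ i := fun h => h4 (h5.trans h.symm)
  have h7 : T.reg (hub T (cl T k f)) g = T.reg (hub T (cl T k f)) f := by
    rcases reach_reg T hr (hub T (cl T k f)) with h | h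
    · exact h
    · exact absurd h h6
  exact ⟨hg, hg', h7, h5, by rw [← h7]; exact h6⟩

theorem paths_unique_aux (T : STri N F) (t : ℕ) (ht : 5 ^ t * Fintype.card F < 2 * 6 ^ t) {i : Fin 3}
    {f g1 g1' g2 g2' : F} {e1 e2 : N × Fin 3} (hr1 : Reach T i f g1) (hc1 : Cross T i g1 e1 g1')
    (hf1 : f ∈ cl T (lev T t e1) g1) (hr2 : Reach T i f g2) (hc2 : Cross T i g2 e2 g2')
    (hf2 : f ∈ cl T (lev T t e2) g2) (hl : lev T t e1 = lev T t e2) (h12 : Reach T i g1 g2) :
    e1 = e2 := by
  obtain ⟨_, _, a3, a4, a5⟩ := yset_spec T t ht hr1 hc1 hf1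
  obtain ⟨_, _, b3, b4, b5⟩ := yset_spec T t ht hr2 hc2 hf2
  rcases Relation.ReflTransGen.cases_head h12 with h | ⟨c, ⟨e, he⟩, hcr⟩
  · subst h
    exact (cross_unique T hc1 hc2).1
  · obtain ⟨rfl, rfl⟩ := cross_unique T he hc1
    exfalso
    rw [← hl] at b3 b5
    rcases reach_reg T hcr (hub T (cl T (lev T t e) f)) with h | h
    · exact b5 (by rw [← b3, h, a4])
    · exact b5 (by rw [← b3, h])

omit [Fintype N] [Fintype F] in
theorem paths_mem_filter {α : Type} {P : α → Prop} (inst : DecidablePred P) {S : Finset α} {a : α}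
    (h : a ∈ @Finset.filter α P inst S) : P a := (Finset.mem_filter.1 h).2

theorem yset_unique (T : STri N F) (t : ℕ) (ht : 5 ^ t * Fintype.card F < 2 * 6 ^ t) {i : Fin 3} {f : F}
    {e1 e2 : N × Fin 3} (h1 : e1 ∈ Yset T t f i) (h2 : e2 ∈ Yset T t f i) (hl : lev T t e1 = lev T t e2) :
    e1 = e2 := by
  unfold Yset at h1 h2
  obtain ⟨g1, g1', hr1, hc1, hf1⟩ := paths_mem_filter _ h1
  obtain ⟨g2, g2', hr2, hc2, hf2⟩ := paths_mem_filter _ h2
  rcases reach_total T hr1 hr2 with h | h
  · exact paths_unique_aux T t ht hr1 hc1 hf1 hr2 hc2 hf2 hl h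
  · exact (paths_unique_aux T t ht hr2 hc2 hf2 hr1 hc1 hf1 hl.symm h).symm

theorem YY_card (T : STri N F) (t : ℕ) (ht : 5 ^ t * Fintype.card F < 2 * 6 ^ t) (f : F) :
    (YY T t f).card ≤ 3 * t := by
  classical
  have h1 : ∀ i, (Yset T t f i).card ≤ t := by
    intro i
    have h2 : (Yset T t f i).card ≤ (Finset.range t).card := by
      apply Finset.card_le_card_of_injOn (fun e => lev T t e)
      · intro e _
        exact Finset.mem_coe.2 (Finset.mem_range.2 (lev_lt T t ht e))
      · intro e1 he1 e2 he2 hl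
        exact yset_unique T t ht (Finset.mem_coe.1 he1) (Finset.mem_coe.1 he2) hl
    rwa [Finset.card_range] at h2
  have h2 : YY T t f ⊆ (univ : Finset (Fin 3)).biUnion fun i => Yset T t f i := by
    intro e he
    unfold YY at he
    obtain ⟨_, i, hi⟩ := Finset.mem_filter.1 he
    exact Finset.mem_biUnion.2 ⟨i, Finset.mem_univ _, hi⟩
  calc (YY T t f).card ≤ _ := Finset.card_le_card h2
    _ ≤ ∑ i : Fin 3, (Yset T t f i).card := Finset.card_biUnion_le
    _ ≤ ∑ _i : Fin 3, t := Finset.sum_le_sum fun i _ => h1 i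
    _ = 3 * t := by simp

end MP0e5907
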