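import Pool.Agent.Lib_MP_0e5907.QRes

/-!
# Piece QCOMP: completing a set of dual edges

Paper proof. `En` is monotone in `r` and `En T r x = EnE T r W x + En T (setOn W 0 r) x` for `W` a set of edges.
* `complete_close`: by induction on `V ⊆ W` (`Finset.induction_on`): `Zd T (setOn V r r') ≤ exp (R * ∑_{V} r) * Zd T r'`. Step `insert e V`, `e ∈ W`: `setOn (insert e V) r r' = fun a => setOn V r r' a + if a = e then r e else 0` (since `r' e = 0`), and `En T r' x ≤ En T (setOn V r r') x` (`r' = 0` on `V`), so `res` with `s = r e`;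
  `1 + r e * R ≤ exp (R * r e)` (`Real.add_one_le_exp`).
* `complete_leg`: for `V ⊆ W.erase y` let `τ_V = r y + ∑_V r > 0`. By induction: `r y * Zd T (setOn V r r') ≤ τ_V * exp (ρ * (τ_V - r y)) * Zd T r'`. Step: `e ∈ W`, `e ≠ y`, `e ∉ V`; `r'' = setOn V r r'`. For every `x`, with `Δ_a = x (lf a) - x (rf a)`: `En T r'' x = E_W + E_0`, `E_W = ∑_{a ∈ insert y V} r a Δ_a²`, `E_0 = En T (setOn W 0 r') x`
  (the other edges of `W` have conductance `0`). There is `a ∈ insert y V` with `τ_V Δ_a² ≤ E_W` (otherwise `E_W < E_W`; `Finset.exists_le_of_sum_le` or by contradiction). `Δ_e = Δ_a + (Δ_e - Δ_a)`, `(Δ_e - Δ_a)² ≤ ρ E_0`; Cauchy-Schwarz (`titu2`): `Δ_e² ≤ (1/τ_V + ρ)(E_W + E_0)`. By `res` with `s = r e`, `R = 1/τ_V + ρ`: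
  `Zd T (setOn (insert e V) r r') ≤ (1 + r e/τ_V + ρ r e) Zd T r'' ≤ ((τ_V + r e)/τ_V) exp (ρ r e) Zd T r''`. At the end `V = W.erase y`: `setOn V r r' = setOn W r r'` (as `r' y = r y`), `τ_V = ∑_W r`, and `exp (ρ (τ - r y)) ≤ exp (ρ τ)`.
* `titu2`: if `p² ≤ a P`, `q² ≤ b Q` with `a, b, P, Q ≥ 0` then `(p+q)² ≤ (a+b)(P+Q)`: `2 p q ≤ 2 sqrt(a P) sqrt(b Q) ≤ a Q + b P`; (`(p q)² ≤ (a Q)(b P) ≤ ((a Q + b P)/2)²`, use `abs_le_of_sq_le_sq` or `Real.sqrt`).
-/

namespace MP0e5907

open Finset

variable {N F : Type} [Fintype N] [Fintype F]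

theorem titu2 (p q a b P Q : ℝ) (ha : 0 ≤ a) (hb : 0 ≤ b) (hP : 0 ≤ P) (hQ : 0 ≤ Q) (h1 : p ^ 2 ≤ a * P)
    (h2 : q ^ 2 ≤ b * Q) : (p + q) ^ 2 ≤ (a + b) * (P + Q) := by
  have h3 : (p * q) ^ 2 ≤ ((a * Q + b * P) / 2) ^ 2 := by
    have h4 : (p * q) ^ 2 ≤ (a * P) * (b * Q) := by
      rw [mul_pow]
      exact mul_le_mul h1 h2 (sq_nonneg q) (mul_nonneg ha hP)
    have h5 := sq_nonneg (a * Q - b * P)
    nlinarith
  have h4 : 0 ≤ (a * Q + b * P) / 2 := by
    have := mul_nonneg ha hQ
    have := mul_nonneg hb hP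
    linarith
  have h5 := (le_abs_self (p * q)).trans (abs_le_of_sq_le_sq h3 h4)
  nlinarith

omit [Fintype N] [Fintype F] in
theorem setOn_mem {W : Finset (N × Fin 3)} {r r' : N × Fin 3 → ℝ} {e : N × Fin 3} (h : e ∈ W) :
    setOn W r r' e = r e := if_pos h

omit [Fintype N] [Fintype F] in
theorem setOn_notMem {W : Finset (N × Fin 3)} {r r' : N × Fin 3 → ℝ} {e : N × Fin 3} (h : e ∉ W) :
    setOn W r r' e = r' e := if_neg h

omit [Fintype N] [Fintype F] in
theorem setOn_nonneg {W : Finset (N × Fin 3)} {r r' : N × Fin 3 → ℝ} (hr : ∀ e, 0 ≤ r e)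
    (hr' : ∀ e, 0 ≤ r' e) (e : N × Fin 3) : 0 ≤ setOn W r r' e := by
  by_cases h : e ∈ W
  · rw [setOn_mem h]
    exact hr e
  · rw [setOn_notMem h]
    exact hr' e

omit [Fintype N] [Fintype F] in
open Classical in
theorem setOn_insert {V : Finset (N × Fin 3)} {r r' : N × Fin 3 → ℝ} {e : N × Fin 3} (h : e ∉ V)
    (h0 : r' e = 0) :
    setOn (insert e V) r r' = fun a => setOn V r r' a + if a = e then r e else 0 := by
  funext a
  by_cases hae : a = e
  · subst hae
    rw [setOn_mem (Finset.mem_insert_self a V), setOn_notMem h, h0, if_pos rfl, zero_add]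
  · rw [if_neg hae, add_zero]
    by_cases ha : a ∈ V
    · rw [setOn_mem ha, setOn_mem (Finset.mem_insert_of_mem ha)]
    · rw [setOn_notMem ha, setOn_notMem]
      intro h2
      rcases Finset.mem_insert.1 h2 with h3 | h3
      · exact hae h3
      · exact ha h3

theorem complete_close (T : STri N F) (r r' : N × Fin 3 → ℝ) (hr : ∀ e, 0 ≤ r e) (hr' : ∀ e, 0 ≤ r' e)
    (W : Finset (N × Fin 3)) (hW : ∀ e ∈ W, r' e = 0) (R : ℝ) (hR0 : 0 ≤ R)
    (hR : ∀ e ∈ W, ∀ x : F → ℝ, (x (T.lf e) - x (T.rf e)) ^ 2 ≤ R * En T r' x) :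
    Zd T (setOn W r r') ≤ Real.exp (R * ∑ e ∈ W, r e) * Zd T r' := by
  classical
  have key : ∀ V : Finset (N × Fin 3), V ⊆ W →
      Zd T (setOn V r r') ≤ Real.exp (R * ∑ e ∈ V, r e) * Zd T r' := by
    intro V
    induction V using Finset.induction_on with
    | empty =>
      intro _
      have h1 : setOn ∅ r r' = r' := by
        funext a
        exact setOn_notMem (Finset.notMem_empty a)
      rw [h1, Finset.sum_empty, mul_zero, Real.exp_zero, one_mul]
    | insert e V he ih =>
      intro hVW
      have heW : e ∈ W := hVW (Finset.mem_insert_self e V)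
      have ih' := ih fun a ha => hVW (Finset.mem_insert_of_mem ha)
      have hn : ∀ a, 0 ≤ setOn V r r' a := setOn_nonneg hr hr'
      have hmono : ∀ x : F → ℝ, En T r' x ≤ En T (setOn V r r') x := by
        intro x
        unfold En
        refine Finset.sum_le_sum fun a _ => mul_le_mul_of_nonneg_right ?_ (sq_nonneg _)
        by_cases ha : a ∈ V
        · rw [setOn_mem ha, hW a (hVW (Finset.mem_insert_of_mem ha))]
          exact hr a
        · rw [setOn_notMem ha]
      have h1 := res T (setOn V r r') hn e (r e) (hr e) R hR0 fun x =>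
        (hR e heW x).trans (mul_le_mul_of_nonneg_left (hmono x) hR0)
      rw [← setOn_insert he (hW e heW)] at h1
      have h2 : 1 + r e * R ≤ Real.exp (R * r e) := by
        have := Real.add_one_le_exp (R * r e)
        linarith
      have h3 : 0 ≤ Zd T (setOn V r r') := Zd_nonneg T _ hn
      rw [Finset.sum_insert he, mul_add, Real.exp_add, mul_assoc]
      exact h1.trans (mul_le_mul h2 ih' h3 (Real.exp_pos _).le)
  exact key W (Finset.Subset.refl W)

theorem complete_leg (T : STri N F) (r r' : N × Fin 3 → ℝ) (hr : ∀ e, 0 ≤ r e) (hr' : ∀ e, 0 ≤ r' e)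
    (W : Finset (N × Fin 3)) (y : N × Fin 3) (hy : y ∈ W) (hy' : r' y = r y) (hy0 : 0 < r y)
    (hW : ∀ e ∈ W, e ≠ y → r' e = 0) (ρ : ℝ) (hρ : 0 ≤ ρ)
    (hR : ∀ e ∈ W, ∀ a ∈ W, ∀ x : F → ℝ, ((x (T.lf e) - x (T.rf e)) - (x (T.lf a) - x (T.rf a))) ^ 2 ≤
      ρ * En T (setOn W (fun _ => 0) r') x) :
    r y * Zd T (setOn W r r') ≤ (∑ e ∈ W, r e) * Real.exp (ρ * ∑ e ∈ W, r e) * Zd T r' := by
  classical
  have hZ' : 0 ≤ Zd T r' := Zd_nonneg T r' hr'
  have key : ∀ V : Finset (N × Fin 3), V ⊆ W.erase y →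
      r y * Zd T (setOn V r r') ≤
        (r y + ∑ e ∈ V, r e) * Real.exp (ρ * ∑ e ∈ V, r e) * Zd T r' := by
    intro V
    induction V using Finset.induction_on with
    | empty =>
      intro _
      have h1 : setOn ∅ r r' = r' := by
        funext a
        exact setOn_notMem (Finset.notMem_empty a)
      rw [h1, Finset.sum_empty, mul_zero, Real.exp_zero, add_zero, mul_one]
    | insert e V he ih =>
      intro hVW
      have heW' := Finset.mem_erase.1 (hVW (Finset.mem_insert_self e V))
      have heW : e ∈ W := heW'.2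
      have hey : e ≠ y := heW'.1
      have hV : ∀ a ∈ V, a ∈ W ∧ a ≠ y := fun a ha => by
        have := Finset.mem_erase.1 (hVW (Finset.mem_insert_of_mem ha))
        exact ⟨this.2, this.1⟩
      have hyV : y ∉ V := fun h => (hV y h).2 rfl
      have ih' := ih fun a ha => hVW (Finset.mem_insert_of_mem ha)
      have hn : ∀ a, 0 ≤ setOn V r r' a := setOn_nonneg hr hr'
      have h3 : 0 ≤ Zd T (setOn V r r') := Zd_nonneg T _ hn
      obtain ⟨S, hS⟩ : ∃ S, S = ∑ a ∈ V, r a := ⟨_, rfl⟩
      have hS0 : 0 ≤ S := by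
        rw [hS]
        exact Finset.sum_nonneg fun a _ => hr a
      have hτ : 0 < r y + S := by linarith
      have hτs : ∑ a ∈ insert y V, r a = r y + S := by
        rw [Finset.sum_insert hyV, hS]
      have hres : ∀ x : F → ℝ, (x (T.lf e) - x (T.rf e)) ^ 2 ≤
          (1 / (r y + S) + ρ) * En T (setOn V r r') x := by
        intro x
        obtain ⟨Δ, hΔ⟩ : ∃ Δ : N × Fin 3 → ℝ, Δ = fun a => x (T.lf a) - x (T.rf a) := ⟨_, rfl⟩
        have hΔa : ∀ a, x (T.lf a) - x (T.rf a) = Δ a := fun a => by rw [hΔ]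
        obtain ⟨EW, hEW⟩ : ∃ EW, EW = ∑ a ∈ insert y V, r a * Δ a ^ 2 := ⟨_, rfl⟩
        obtain ⟨E0, hE0⟩ : ∃ E0, E0 = En T (setOn W (fun _ => 0) r') x := ⟨_, rfl⟩
        have hEW0 : 0 ≤ EW := by
          rw [hEW]
          exact Finset.sum_nonneg fun a _ => mul_nonneg (hr a) (sq_nonneg _)
        have hE00 : 0 ≤ E0 := by
          rw [hE0]
          unfold En
          exact Finset.sum_nonneg fun a _ =>
            mul_nonneg (setOn_nonneg (fun _ => le_rfl) hr' a) (sq_nonneg _)
        -- energies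
        have hsum : EW + E0 ≤ En T (setOn V r r') x := by
          rw [hEW, hE0]
          unfold En
          have h1 : ∑ a ∈ insert y V, r a * Δ a ^ 2 =
              ∑ a, (if a ∈ insert y V then r a else 0) * Δ a ^ 2 := by
            rw [← Finset.sum_filter_add_sum_filter_not Finset.univ (fun a => a ∈ insert y V)
              (fun a => (if a ∈ insert y V then r a else 0) * Δ a ^ 2)]
            rw [Finset.sum_eq_zero (s := Finset.univ.filter fun a => a ∉ insert y V), add_zero]
            · have h2 : (Finset.univ.filter fun a => a ∈ insert y V) = insert y V := by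
                ext a
                simp
              rw [h2]
              exact Finset.sum_congr rfl fun a ha => by rw [if_pos ha]
            · intro a ha
              rw [if_neg (Finset.mem_filter.1 ha).2, zero_mul]
          rw [h1, ← Finset.sum_add_distrib]
          refine Finset.sum_le_sum fun a _ => ?_
          rw [hΔa, ← add_mul]
          refine mul_le_mul_of_nonneg_right ?_ (sq_nonneg _)
          by_cases ha : a ∈ insert y V
          · rw [if_pos ha]
            rcases Finset.mem_insert.1 ha with h2 | h2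
            · subst h2
              rw [setOn_mem hy, setOn_notMem hyV, hy', add_zero]
            · rw [setOn_mem (hV a h2).1, setOn_mem h2, add_zero]
          · rw [if_neg ha, zero_add]
            have ha' : a ∉ V := fun h => ha (Finset.mem_insert_of_mem h)
            rw [setOn_notMem (W := V) ha']
            by_cases haW : a ∈ W
            · rw [setOn_mem haW]
              exact hr' a
            · rw [setOn_notMem haW]
        -- an edge with small potential difference
        obtain ⟨a, ha, haE⟩ : ∃ a ∈ insert y V, (r y + S) * Δ a ^ 2 ≤ EW := by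
          by_contra hcon
          push Not at hcon
          have h1 : ∑ a ∈ insert y V, r a * EW < ∑ a ∈ insert y V, r a * ((r y + S) * Δ a ^ 2) := by
            refine Finset.sum_lt_sum (fun a ha => mul_le_mul_of_nonneg_left (hcon a ha).le (hr a)) ?_
            exact ⟨y, Finset.mem_insert_self y V,
              mul_lt_mul_of_pos_left (hcon y (Finset.mem_insert_self y V)) hy0⟩
          have h2 : ∑ a ∈ insert y V, r a * ((r y + S) * Δ a ^ 2) = (r y + S) * EW := by
            rw [hEW, Finset.mul_sum]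
            exact Finset.sum_congr rfl fun a _ => by ring
          rw [h2, ← Finset.sum_mul, hτs] at h1
          exact lt_irrefl _ h1
        have haW : a ∈ W := by
          rcases Finset.mem_insert.1 ha with h2 | h2
          · rw [h2]
            exact hy
          · exact (hV a h2).1
        have hp : Δ a ^ 2 ≤ 1 / (r y + S) * EW := by
          rw [one_div, ← div_eq_inv_mul, le_div_iff₀ hτ, mul_comm]
          exact haE
        have hq : (Δ e - Δ a) ^ 2 ≤ ρ * E0 := by
          have := hR e heW a haW x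
          rw [hΔa, hΔa, ← hE0] at this
          exact this
        have h1 := titu2 (Δ a) (Δ e - Δ a) (1 / (r y + S)) ρ EW E0 (by positivity) hρ hEW0 hE00
          hp hq
        rw [hΔa]
        have h2 : Δ a + (Δ e - Δ a) = Δ e := by ring
        rw [h2] at h1
        exact h1.trans (mul_le_mul_of_nonneg_left hsum (by positivity))
      have h1 := res T (setOn V r r') hn e (r e) (hr e) (1 / (r y + S) + ρ) (by positivity) hres
      rw [← setOn_insert he (hW e heW hey)] at h1
      rw [Finset.sum_insert he, ← hS]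
      rw [← hS] at ih'
      have h2 : (1 + r e * (1 / (r y + S) + ρ)) * (r y + S) ≤
          (r y + (r e + S)) * Real.exp (ρ * r e) := by
        have h4 : (1 + r e * (1 / (r y + S) + ρ)) * (r y + S) =
            (r y + S) + r e + ρ * r e * (r y + S) := by
          field_simp
          ring
        have h5 : 1 + ρ * r e ≤ Real.exp (ρ * r e) := by
          have := Real.add_one_le_exp (ρ * r e)
          linarith
        have h6 : (r y + (r e + S)) * (1 + ρ * r e) ≤ (r y + (r e + S)) * Real.exp (ρ * r e) :=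
          mul_le_mul_of_nonneg_left h5 (by have := hr e; linarith)
        have h7 : 0 ≤ ρ * r e * r e := mul_nonneg (mul_nonneg hρ (hr e)) (hr e)
        rw [h4]
        nlinarith
      calc r y * Zd T (setOn (insert e V) r r')
          ≤ r y * ((1 + r e * (1 / (r y + S) + ρ)) * Zd T (setOn V r r')) :=
            mul_le_mul_of_nonneg_left h1 hy0.le
        _ = (1 + r e * (1 / (r y + S) + ρ)) * (r y * Zd T (setOn V r r')) := by ring
        _ ≤ (1 + r e * (1 / (r y + S) + ρ)) * ((r y + S) * Real.exp (ρ * S) * Zd T r') := by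
            refine mul_le_mul_of_nonneg_left ih' ?_
            have := hr e
            positivity
        _ = ((1 + r e * (1 / (r y + S) + ρ)) * (r y + S)) * (Real.exp (ρ * S) * Zd T r') := by ring
        _ ≤ ((r y + (r e + S)) * Real.exp (ρ * r e)) * (Real.exp (ρ * S) * Zd T r') :=
            mul_le_mul_of_nonneg_right h2 (mul_nonneg (Real.exp_pos _).le hZ')
        _ = (r y + (r e + S)) * Real.exp (ρ * (r e + S)) * Zd T r' := by
            rw [mul_add ρ, Real.exp_add]
            ring
  have h1 := key (W.erase y) (Finset.Subset.refl _)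
  have h2 : setOn (W.erase y) r r' = setOn W r r' := by
    funext a
    by_cases ha : a = y
    · subst ha
      rw [setOn_mem hy, setOn_notMem (Finset.notMem_erase a W), hy']
    · by_cases haW : a ∈ W
      · rw [setOn_mem haW, setOn_mem (Finset.mem_erase.2 ⟨ha, haW⟩)]
      · rw [setOn_notMem haW, setOn_notMem fun h => haW (Finset.mem_of_mem_erase h)]
  have h3 : r y + ∑ e ∈ W.erase y, r e = ∑ e ∈ W, r e := Finset.add_sum_erase W r hy
  rw [h2, h3] at h1
  refine h1.trans (mul_le_mul_of_nonneg_right (mul_le_mul_of_nonneg_left ?_ ?_) hZ')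
  · refine Real.exp_le_exp.2 (mul_le_mul_of_nonneg_left ?_ hρ)
    linarith
  · exact Finset.sum_nonneg fun a _ => hr a

end MP0e5907
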