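import Pool.Agent.Lib_MP_0e5907.Base3
import Pool.Agent.Lib_MP_0e5907.Area
import Pool.Agent.Lib_MP_0e5907.Conn
import Pool.Agent.Lib_MP_0e5907.BasisD
import Pool.Agent.Lib_MP_0e5907.Pot
import Pool.Agent.Lib_MP_0e5907.Formula

/-!
# Piece QDUAL: the dual Laplacian

Paper proof. `E = N × Fin 3`, `o` a face.
* `cvec_dot`: `∑_g (if lf e = g then 1 else 0) * x g = exto o x (lf e)` (it is `x ⟨lf e, _⟩` if `lf e ≠ o` and `0` otherwise).
* `Lm_quad`: expand, `Finset.sum_comm`, `cvec_dot` twice.
* `Lm_det_pos`: if all `r e > 0` the matrix `Lm` is symmetric and positive definite: if the quadratic form vanishes then `xo (lf e) = xo (rf e)` for all `e` (`xo = exto o x`), so `xo` is constant (`dual_conn`), equal to `xo o = 0`. (Proceed as in `Gm_det_pos` in `Pot.lean`, `Gm_det_nonneg` in `BasisD.lean`.)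
* `Zd_eq`: for `r > 0`: `Z_formula` for `ω = r⁻¹`, and `∏_{e ∉ S} r e = (∏_e r e) * wprod (r⁻¹) S`.
-/

namespace MP0e5907

open Finset

variable {N F : Type} [Fintype N] [Fintype F]

open Classical in
/-- dual incidence vector -/
noncomputable def cvec (T : STri N F) (o : F) (e : N × Fin 3) (g : {g : F // g ≠ o}) : ℝ :=
  (if T.lf e = g then 1 else 0) - (if T.rf e = g then 1 else 0)

open Classical in
/-- grounded dual Laplacian -/
noncomputable def Lm (T : STri N F) (o : F) (r : N × Fin 3 → ℝ) : Matrix {g : F // g ≠ o} {g : F // g ≠ o} ℝ :=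
  Matrix.of fun g h => ∑ e, r e * (cvec T o e g * cvec T o e h)

open Classical in
/-- extension by `0` at `o` -/
noncomputable def exto (o : F) (x : {g : F // g ≠ o} → ℝ) (g : F) : ℝ := if h : g ≠ o then x ⟨g, h⟩ else 0

open Classical in
private theorem qdual_single (o a : F) (x : {g : F // g ≠ o} → ℝ) :
    ∑ g : {g : F // g ≠ o}, (if a = (g : F) then (1 : ℝ) else 0) * x g = exto o x a := by
  unfold exto
  by_cases h : a ≠ o
  · rw [dif_pos h, Finset.sum_eq_single (⟨a, h⟩ : {g : F // g ≠ o})]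
    · rw [if_pos rfl, one_mul]
    · intro g _ hg
      rw [if_neg (fun h' => hg (Subtype.ext h'.symm)), zero_mul]
    · intro h'
      exact absurd (Finset.mem_univ _) h'
  · rw [dif_neg h]
    refine Finset.sum_eq_zero fun g _ => ?_
    have h2 : ¬ (a = (g : F)) := fun h' => h (by rw [h']; exact g.2)
    rw [if_neg h2, zero_mul]

omit [Fintype N] in
open Classical in
theorem cvec_dot (T : STri N F) (o : F) (e : N × Fin 3) (x : {g : F // g ≠ o} → ℝ) :
    ∑ g, cvec T o e g * x g = exto o x (T.lf e) - exto o x (T.rf e) := by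
  rw [← qdual_single, ← qdual_single, ← Finset.sum_sub_distrib]
  refine Finset.sum_congr rfl fun g _ => ?_
  unfold cvec
  ring

open Classical in
theorem Lm_quad (T : STri N F) (o : F) (r : N × Fin 3 → ℝ) (x : {g : F // g ≠ o} → ℝ) :
    ∑ g, x g * ((Lm T o r).mulVec x) g = En T r (exto o x) := by
  have h1 : ∀ g, ((Lm T o r).mulVec x) g =
      ∑ e, r e * (cvec T o e g * (exto o x (T.lf e) - exto o x (T.rf e))) := by
    intro g
    show ∑ h, (∑ e, r e * (cvec T o e g * cvec T o e h)) * x h = _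
    have h2 : ∀ h, (∑ e, r e * (cvec T o e g * cvec T o e h)) * x h =
        ∑ e, r e * (cvec T o e g * (cvec T o e h * x h)) := by
      intro h
      rw [Finset.sum_mul]
      refine Finset.sum_congr rfl fun e _ => ?_
      ring
    rw [Finset.sum_congr rfl fun h _ => h2 h, Finset.sum_comm]
    refine Finset.sum_congr rfl fun e _ => ?_
    rw [← Finset.mul_sum, ← Finset.mul_sum, cvec_dot]
  have h3 : ∀ g, x g * ((Lm T o r).mulVec x) g =
      ∑ e, r e * (exto o x (T.lf e) - exto o x (T.rf e)) * (cvec T o e g * x g) := by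
    intro g
    rw [h1, Finset.mul_sum]
    refine Finset.sum_congr rfl fun e _ => ?_
    ring
  rw [Finset.sum_congr rfl fun g _ => h3 g, Finset.sum_comm]
  unfold En
  refine Finset.sum_congr rfl fun e _ => ?_
  rw [← Finset.mul_sum, cvec_dot]
  ring

open Classical in
theorem Lm_det_pos (T : STri N F) (o : F) (r : N × Fin 3 → ℝ) (hr : ∀ e, 0 < r e) : 0 < (Lm T o r).det := by
  have h1 : Lm T o r = (Matrix.of fun e g => Real.sqrt (r e) * cvec T o e g :
      Matrix (N × Fin 3) {g : F // g ≠ o} ℝ).conjTranspose *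
      (Matrix.of fun e g => Real.sqrt (r e) * cvec T o e g :
        Matrix (N × Fin 3) {g : F // g ≠ o} ℝ) := by
    ext v w
    rw [Matrix.mul_apply]
    show ∑ e, r e * (cvec T o e v * cvec T o e w) =
      ∑ e, (Real.sqrt (r e) * cvec T o e v) * (Real.sqrt (r e) * cvec T o e w)
    refine Finset.sum_congr rfl fun e _ => ?_
    have h2 := Real.mul_self_sqrt (hr e).le
    linear_combination -(cvec T o e v * cvec T o e w) * h2
  have h2 : 0 ≤ (Lm T o r).det := by
    rw [h1]
    exact (Matrix.posSemidef_conjTranspose_mul_self _).det_nonneg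
  rcases h2.lt_or_eq with h | h
  · exact h
  · exfalso
    obtain ⟨x, hx, hx2⟩ := Matrix.exists_mulVec_eq_zero_iff.2 h.symm
    have h3 := Lm_quad T o r x
    rw [hx2] at h3
    have h4 : En T r (exto o x) = 0 := by
      rw [← h3]
      exact Finset.sum_eq_zero fun v _ => mul_zero _
    have h5 : ∀ e, exto o x (T.lf e) = exto o x (T.rf e) := by
      intro e
      have h6 := (Finset.sum_eq_zero_iff_of_nonneg
        (fun e _ => mul_nonneg (hr e).le (sq_nonneg _))).1 h4 e (Finset.mem_univ e)
      have h7 := (mul_eq_zero.1 h6).resolve_left (hr e).ne'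
      exact sub_eq_zero.1 (pow_eq_zero_iff (two_ne_zero) |>.1 h7)
    refine hx ?_
    funext g
    have h6 := dual_conn T (exto o x) h5 g.1 o
    unfold exto at h6
    rw [dif_pos g.2, dif_neg (by simp)] at h6
    exact h6

open Classical in
theorem Zd_eq (T : STri N F) (r : N × Fin 3 → ℝ) (hr : ∀ e, 0 < r e) :
    Zd T r = (∏ e, r e) * (Gm T (fun e => (r e)⁻¹)).det := by
  rw [Z_formula, Finset.mul_sum]
  unfold Zd
  refine Finset.sum_congr rfl fun S _ => ?_
  rw [← mul_assoc]
  congr 1
  have h1 : (∏ e, r e) = (∏ e ∈ Finset.univ \ S, r e) * ∏ e ∈ S, r e :=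
    (Finset.prod_sdiff (Finset.subset_univ S)).symm
  unfold wprod
  rw [h1, mul_assoc, ← Finset.prod_mul_distrib]
  have h2 : ∏ e ∈ S, r e * (r e)⁻¹ = 1 :=
    Finset.prod_eq_one fun e _ => mul_inv_cancel₀ (hr e).ne'
  rw [h2, mul_one]

end MP0e5907
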