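import Pool.Agent.Lib_MP_0e5907.QDual

/-!
# Piece QDUALB: the determinant identity between primal and dual Laplacian

Paper proof. `E = N × Fin 3`, `F' = {g // g ≠ o}`, `B` = matrix `N × E` of `bvec`, `C` = matrix `F' × E` of `cvec`.
* `bc_zero`: `∑_e bvec T e v * cvec T o e g = bd T (fun e => bvec T e v) g` (rewrite the two `if`s), and `bvec T e v = dif T (ext0 (Pi.single v 1)) e`, so this is `0` by `bd_dif` (the roots have value `0`).
* `dual_det_pos`: `card E = card (N ⊕ F')` (`card_F`: `3n = n + 2n`), choose an equivalence `s : N ⊕ F' ≃ E` (`Fintype.equivOfCardEq`). `P` = square matrix (index `N ⊕ F'`) with rows `B`, `C` and columns reindexed by `s`: `P (inl v) a = bvec T (s a) v`, `P (inr g) a = cvec T o (s a) g`;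
  `Q` = the same with rows `ω_e B`, `C` (`ω = r⁻¹`), `R` = diagonal matrix of `r (s a)`.
  `Q * P^T = fromBlocks (Gm ω) (..) 0 (Lm 1)` (lower left block `C B^T = 0`; `Lm 1 = Lm T o (fun _ => 1)`): `det Q * det P = det (Gm ω) * det (Lm 1)` (`Matrix.det_fromBlocks_zero₂₁`).
  `Q * R * P^T = fromBlocks (Gm 1) 0 (..) (Lm r)` (upper right block `B C^T = 0` since `ω r = 1`; `Gm 1 = Gm T (fun _ => 1)`): `det Q * (∏ r) * det P = det (Gm 1) * det (Lm r)` (`Matrix.det_fromBlocks_zero₁₂`).
  Sums over `a : N ⊕ F'` of functions of `s a` are sums over `E` (`Equiv.sum_comp`). Hence `(∏ r) det (Gm ω) det (Lm 1) = det (Gm 1) det (Lm r)`.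
-/

namespace MP0e5907

open Finset

variable {N F : Type} [Fintype N] [Fintype F]

theorem qDualB_general {ι κ E : Type} [Fintype ι] [DecidableEq ι] [Fintype κ] [DecidableEq κ] [Fintype E]
    (hcard : Fintype.card (ι ⊕ κ) = Fintype.card E) (B : E → ι → ℝ) (C : E → κ → ℝ)
    (h : ∀ v g, ∑ e, B e v * C e g = 0) (r : E → ℝ) (hr : ∀ e, r e ≠ 0) :
    (∏ e, r e) * (Matrix.of fun v w => ∑ e, (r e)⁻¹ * (B e v * B e w) : Matrix ι ι ℝ).det *
        (Matrix.of fun g g' => ∑ e, 1 * (C e g * C e g') : Matrix κ κ ℝ).det =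
      (Matrix.of fun v w => ∑ e, 1 * (B e v * B e w) : Matrix ι ι ℝ).det *
        (Matrix.of fun g g' => ∑ e, r e * (C e g * C e g') : Matrix κ κ ℝ).det := by
  set s : ι ⊕ κ ≃ E := Fintype.equivOfCardEq hcard with hs
  set P : Matrix (ι ⊕ κ) (ι ⊕ κ) ℝ :=
    Matrix.of fun x a => Sum.elim (fun v => B (s a) v) (fun g => C (s a) g) x with hP
  set Q : Matrix (ι ⊕ κ) (ι ⊕ κ) ℝ :=
    Matrix.of fun x a => Sum.elim (fun v => (r (s a))⁻¹ * B (s a) v) (fun g => C (s a) g) x with hQ
  set R : Matrix (ι ⊕ κ) (ι ⊕ κ) ℝ := Matrix.diagonal fun a => r (s a) with hR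
  have h1 : Q * P.transpose = Matrix.fromBlocks
      (Matrix.of fun v w => ∑ e, (r e)⁻¹ * (B e v * B e w))
      (Matrix.of fun v g => (Q * P.transpose) (Sum.inl v) (Sum.inr g)) 0
      (Matrix.of fun g g' => ∑ e, 1 * (C e g * C e g')) := by
    ext x y
    rcases x with v | g
    · rcases y with w | g'
      · rw [Matrix.fromBlocks_apply₁₁, Matrix.mul_apply, Matrix.of_apply, ← Equiv.sum_comp s]
        refine Finset.sum_congr rfl fun a _ => ?_
        simp only [hQ, hP, Matrix.of_apply, Matrix.transpose_apply, Sum.elim_inl]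
        ring
      · rw [Matrix.fromBlocks_apply₁₂, Matrix.of_apply]
    · rcases y with w | g'
      · rw [Matrix.fromBlocks_apply₂₁, Matrix.mul_apply, Matrix.zero_apply, ← h w g, ← Equiv.sum_comp s]
        refine Finset.sum_congr rfl fun a _ => ?_
        simp only [hQ, hP, Matrix.of_apply, Matrix.transpose_apply, Sum.elim_inl, Sum.elim_inr]
        ring
      · rw [Matrix.fromBlocks_apply₂₂, Matrix.mul_apply, Matrix.of_apply, ← Equiv.sum_comp s]
        refine Finset.sum_congr rfl fun a _ => ?_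
        simp only [hQ, hP, Matrix.of_apply, Matrix.transpose_apply, Sum.elim_inr]
        ring
  have h2 : Q * R * P.transpose = Matrix.fromBlocks
      (Matrix.of fun v w => ∑ e, 1 * (B e v * B e w)) 0
      (Matrix.of fun g w => (Q * R * P.transpose) (Sum.inr g) (Sum.inl w))
      (Matrix.of fun g g' => ∑ e, r e * (C e g * C e g')) := by
    ext x y
    rcases x with v | g
    · rcases y with w | g'
      · rw [Matrix.fromBlocks_apply₁₁, Matrix.mul_apply, Matrix.of_apply, ← Equiv.sum_comp s]
        refine Finset.sum_congr rfl fun a _ => ?_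
        rw [hR, Matrix.mul_diagonal]
        simp only [hQ, hP, Matrix.of_apply, Matrix.transpose_apply, Sum.elim_inl]
        have := hr (s a)
        field_simp
      · rw [Matrix.fromBlocks_apply₁₂, Matrix.mul_apply, Matrix.zero_apply, ← h v g', ← Equiv.sum_comp s]
        refine Finset.sum_congr rfl fun a _ => ?_
        rw [hR, Matrix.mul_diagonal]
        simp only [hQ, hP, Matrix.of_apply, Matrix.transpose_apply, Sum.elim_inl, Sum.elim_inr]
        have := hr (s a)
        field_simp
    · rcases y with w | g'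
      · rw [Matrix.fromBlocks_apply₂₁, Matrix.of_apply]
      · rw [Matrix.fromBlocks_apply₂₂, Matrix.mul_apply, Matrix.of_apply, ← Equiv.sum_comp s]
        refine Finset.sum_congr rfl fun a _ => ?_
        rw [hR, Matrix.mul_diagonal]
        simp only [hQ, hP, Matrix.of_apply, Matrix.transpose_apply, Sum.elim_inr]
        ring
  have h3 : Q.det * P.det = (Matrix.of fun v w => ∑ e, (r e)⁻¹ * (B e v * B e w) : Matrix ι ι ℝ).det *
      (Matrix.of fun g g' => ∑ e, 1 * (C e g * C e g') : Matrix κ κ ℝ).det := by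
    have h5 := congrArg Matrix.det h1
    rw [Matrix.det_mul, Matrix.det_transpose, Matrix.det_fromBlocks_zero₂₁] at h5
    exact h5
  have h4 : Q.det * (∏ e, r e) * P.det = (Matrix.of fun v w => ∑ e, 1 * (B e v * B e w) : Matrix ι ι ℝ).det *
      (Matrix.of fun g g' => ∑ e, r e * (C e g * C e g') : Matrix κ κ ℝ).det := by
    have h5 := congrArg Matrix.det h2
    rw [Matrix.det_mul, Matrix.det_mul, Matrix.det_transpose, Matrix.det_fromBlocks_zero₁₂, hR,
      Matrix.det_diagonal, Equiv.prod_comp s r] at h5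
    exact h5
  rw [mul_assoc, ← h3, ← h4]
  ring

open Classical in
theorem bc_zero (T : STri N F) (o : F) (v : N) (g : {g : F // g ≠ o}) :
    ∑ e, bvec T e v * cvec T o e g = 0 := by
  have h1 : ∀ e, bvec T e v = dif T (ext0 (Pi.single v 1)) e := by
    intro e
    rw [← bvec_dot]
    rw [Finset.sum_eq_single v]
    · rw [Pi.single_eq_same, mul_one]
    · intro w _ hw
      rw [Pi.single_eq_of_ne hw, mul_zero]
    · intro hv
      exact absurd (Finset.mem_univ v) hv
  have h2 := bd_dif T (ext0 (Pi.single v 1)) g.1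
  have h3 : (∑ j : Fin 3, if T.of j = g.1 then ext0 (Pi.single v (1 : ℝ)) (Sum.inr (j + 1)) -
      ext0 (Pi.single v (1 : ℝ)) (Sum.inr (j + 2)) else 0) = 0 := by
    refine Finset.sum_eq_zero fun j _ => ?_
    unfold ext0
    simp
  rw [h3, neg_zero] at h2
  rw [← h2]
  unfold bd
  rw [← Finset.sum_sub_distrib]
  refine Finset.sum_congr rfl fun e _ => ?_
  rw [h1 e]
  unfold cvec
  split_ifs <;> ring

open Classical in
theorem dual_det_pos (T : STri N F) (o : F) (r : N × Fin 3 → ℝ) (hr : ∀ e, 0 < r e) :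
    (∏ e, r e) * (Gm T (fun e => (r e)⁻¹)).det * (Lm T o (fun _ => 1)).det =
      (Gm T (fun _ => 1)).det * (Lm T o r).det := by
  have hcard : Fintype.card (N ⊕ {g : F // g ≠ o}) = Fintype.card (N × Fin 3) := by
    have h1 := card_F T
    have h2 : Fintype.card {g : F // g ≠ o} = Fintype.card F - 1 := by
      have := Fintype.card_subtype_compl (fun g : F => g = o)
      rw [Fintype.card_subtype_eq] at this
      rw [← this]
    rw [Fintype.card_sum, Fintype.card_prod, Fintype.card_fin, h2]
    omega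
  exact qDualB_general hcard (fun e v => bvec T e v) (fun e g => cvec T o e g)
    (fun v g => bc_zero T o v g) r (fun e => (hr e).ne')

end MP0e5907
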