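import Pool.Agent.Lib_MP_0e5907.QDualB

/-!
# Piece QDUALC: `Zd` is a multiple of the determinant of the dual Laplacian

Paper proof. `κ = det (Gm 1) / det (Lm 1) > 0` (`Gm_det_pos`, `Lm_det_pos` with all weights `1`). For `r > 0`: `Zd T r = κ det (Lm r)` by `Zd_eq` and `dual_det_pos`. For `r ≥ 0`: both sides are continuous functions of `ε` at `r + ε` (finite sums and products;
the determinant of a matrix with continuous entries is continuous: `Continuous.matrix_det`), equal for `ε > 0`; let `ε → 0+` (`tendsto_nhds_unique`, or: the set where two continuous functions agree is closed).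
-/

namespace MP0e5907

open Finset

variable {N F : Type} [Fintype N] [Fintype F]

open Classical in
theorem dual_det (T : STri N F) (o : F) :
    ∃ κ : ℝ, 0 < κ ∧ ∀ r : N × Fin 3 → ℝ, (∀ e, 0 ≤ r e) → Zd T r = κ * (Lm T o r).det := by
  have hG : 0 < (Gm T (fun _ => 1)).det := Gm_det_pos T (fun _ => 1) (fun _ => one_pos)
  have hL : 0 < (Lm T o (fun _ => 1)).det := Lm_det_pos T o (fun _ => 1) (fun _ => one_pos)
  refine ⟨(Gm T (fun _ => 1)).det / (Lm T o (fun _ => 1)).det, div_pos hG hL, fun r hr => ?_⟩
  set κ : ℝ := (Gm T (fun _ => 1)).det / (Lm T o (fun _ => 1)).det with hκ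
  have hpos : ∀ r : N × Fin 3 → ℝ, (∀ e, 0 < r e) → Zd T r = κ * (Lm T o r).det := by
    intro r hr
    have h1 := dual_det_pos T o r hr
    rw [← Zd_eq T r hr] at h1
    rw [hκ, div_mul_eq_mul_div, ← h1, mul_div_cancel_right₀ _ hL.ne']
  have hc1 : Continuous (fun ε : ℝ => Zd T (fun e => r e + ε)) := by
    unfold Zd
    refine continuous_finsetSum _ fun S _ => Continuous.mul ?_ continuous_const
    exact continuous_finsetProd _ fun e _ => continuous_const.add continuous_id
  have hc2 : Continuous (fun ε : ℝ => κ * (Lm T o (fun e => r e + ε)).det) := by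
    refine continuous_const.mul (Continuous.matrix_det ?_)
    refine continuous_matrix fun g h => ?_
    change Continuous (fun ε : ℝ => ∑ e, (r e + ε) * (cvec T o e g * cvec T o e h))
    exact continuous_finsetSum _ fun e _ => (continuous_const.add continuous_id).mul continuous_const
  have h1 := (hc1.tendsto 0).mono_left (nhdsWithin_le_nhds (s := Set.Ioi (0 : ℝ)))
  have h2 := (hc2.tendsto 0).mono_left (nhdsWithin_le_nhds (s := Set.Ioi (0 : ℝ)))
  have h3 : (fun ε : ℝ => Zd T (fun e => r e + ε)) =ᶠ[nhdsWithin 0 (Set.Ioi (0 : ℝ))]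
      fun ε : ℝ => κ * (Lm T o (fun e => r e + ε)).det := by
    filter_upwards [self_mem_nhdsWithin] with ε hε
    exact hpos _ fun e => add_pos_of_nonneg_of_pos (hr e) hε
  have h4 := tendsto_nhds_unique (h1.congr' h3) h2
  simpa using h4

end MP0e5907
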