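import Pool.Agent.Lib_MP_0e5907.Base3
import Pool.Agent.Lib_MP_0e5907.Conn
import Pool.Agent.Lib_MP_0e5907.Paths

/-!
# Piece QEXIT: the exit structure of the dual paths

Paper proof.
* `first_exit`: for a set `A` of faces and `g ∈ A` there is `g1 ∈ A` with `Reach T j g g1` and (`g1 = of j` or a crossing `Cross T j g1 e g'` with `g' ∉ A`). By `reach_outer` and head induction along `Reach T j g (of j)` (`Relation.ReflTransGen.head_induction_on`): at `of j` take `g1 = of j`; at a step `g → g2`: if `g2 ∉ A` take `g1 = g`, otherwise use the induction hypothesis for `g2`.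
* `exit_exists`: say that `g` is good at `k` if `g ∈ cl T k f` and (`g = of j` or there is `Cross T j g e g'` with `g' ∉ cl T k f`). By induction on `s ≤ t` there is `G : ℕ → F` such that `G k` is good at `k` for all `t - s ≤ k ≤ t` and the step property of `ExitD` holds for `t - s ≤ k < t`. `s = 0`: `first_exit` with `A = cl T t f`, `g = f`.
  Step, `k = t - s - 1`: `g0 = G (k+1)` is good at `k+1`. If `g0 = of j` or its crossing goes to `g' ∉ cl T k f`: put `G k = g0` (`cl T (k+1) f ⊆ cl T k f`). Otherwise `Cross T j g0 e g'` with `g' ∉ cl T (k+1) f`, `g' ∈ cl T k f`. Let `H = hub T (cl T k f)`, `c = cc T k f = reg H f = reg H g0` (`mem_cl_succ`). `reg H g' ≠ c` (`mem_cl_succ`), so `reg H g' = j` by `cross_reg`, and `c ≠ j`.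
  `first_exit` with `A = cl T k f` from `g'`: `G k = g1`, `Reach T j g' g1`, so `reg H g1 = j` (`reach_reg`: it is `reg H g' = j` or `j`), and `g1 ∉ cl T (k+1) f`. (Change `G` only at `k`: `Function.update`.)
  At `k = 0`: `G 0 = of j` since no `g' ∉ cl T 0 f = univ`.
-/

namespace MP0e5907

open Finset

variable {N F : Type} [Fintype N] [Fintype F]

omit [Fintype F] in
theorem first_exit (T : STri N F) (j : Fin 3) (A : F → Prop) (g : F) (hg : A g) :
    ∃ g1, A g1 ∧ Reach T j g g1 ∧ (g1 = T.of j ∨ ∃ e g', Cross T j g1 e g' ∧ ¬ A g') := by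
  have h := reach_outer T j g
  revert hg
  refine Relation.ReflTransGen.head_induction_on
    (motive := fun g _ => A g → ∃ g1, A g1 ∧ Reach T j g g1 ∧
      (g1 = T.of j ∨ ∃ e g', Cross T j g1 e g' ∧ ¬ A g')) h ?_ ?_
  · intro hg
    exact ⟨T.of j, hg, Relation.ReflTransGen.refl, Or.inl rfl⟩
  · intro a c hac _ ih ha
    by_cases hc : A c
    · obtain ⟨g1, h1, h2, h3⟩ := ih hc
      exact ⟨g1, h1, Relation.ReflTransGen.head hac h2, h3⟩
    · obtain ⟨e, he⟩ := hac
      exact ⟨a, ha, Relation.ReflTransGen.refl, Or.inr ⟨e, c, he, hc⟩⟩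

/-- the face `g` is the last face of the dual path in the cluster of depth `k` -/
private def good (T : STri N F) (f : F) (j : Fin 3) (k : ℕ) (g : F) : Prop :=
  g ∈ cl T k f ∧ (g = T.of j ∨ ∃ e g', Cross T j g e g' ∧ ¬ g' ∈ cl T k f)

/-- the step property -/
private def stepP (T : STri N F) (f : F) (j : Fin 3) (k : ℕ) (g1 g0 : F) : Prop :=
  g1 = g0 ∨
    (g1 ∉ cl T (k + 1) f ∧ cc T k f ≠ j ∧ T.reg (hub T (cl T k f)) g1 = j ∧ ∃ e g', Cross T j g0 e g' ∧
      g' ∈ cl T k f ∧ T.reg (hub T (cl T k f)) g' = j ∧ T.reg (hub T (cl T k f)) g0 = cc T k f)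

private theorem exit_step (T : STri N F) (f : F) (j : Fin 3) (k : ℕ) (g0 : F)
    (h0 : good T f j (k + 1) g0) : ∃ g1, good T f j k g1 ∧ stepP T f j k g1 g0 := by
  obtain ⟨hm, hg⟩ := h0
  have hm' := cl_succ_subset T k f hm
  by_cases hgood : good T f j k g0
  · exact ⟨g0, hgood, Or.inl rfl⟩
  rcases hg with hg | ⟨e, g', hc, hn⟩
  · exact absurd ⟨hm', Or.inl hg⟩ hgood
  by_cases hg' : g' ∈ cl T k f
  · have hr0 : T.reg (hub T (cl T k f)) g0 = cc T k f := ((mem_cl_succ T k f g0).1 hm).2
    have hne : T.reg (hub T (cl T k f)) g' ≠ cc T k f := fun h =>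
      hn ((mem_cl_succ T k f g').2 ⟨hg', h⟩)
    have hj : T.reg (hub T (cl T k f)) g' = j := by
      rcases cross_reg T hc (hub T (cl T k f)) with h | h
      · exact absurd (h.trans hr0) hne
      · exact h
    have hcj : cc T k f ≠ j := fun h => hne (hj.trans h.symm)
    obtain ⟨g1, h1, h2, h3⟩ := first_exit T j (fun x => x ∈ cl T k f) g' hg'
    have h4 : T.reg (hub T (cl T k f)) g1 = j := by
      rcases reach_reg T h2 (hub T (cl T k f)) with h | h
      · exact h.trans hj
      · exact h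
    refine ⟨g1, ⟨h1, h3⟩, Or.inr ⟨?_, hcj, h4, e, g', hc, hg', hj, hr0⟩⟩
    intro h5
    have h6 := ((mem_cl_succ T k f g1).1 h5).2
    exact hcj (h6.symm.trans h4)
  · exact absurd ⟨hm', Or.inr ⟨e, g', hc, hg'⟩⟩ hgood

private theorem exit_all (T : STri N F) (t : ℕ) (f : F) (j : Fin 3) (s : ℕ) (hs : s ≤ t) :
    ∃ G : ℕ → F, (∀ k, t ≤ k + s → k ≤ t → good T f j k (G k)) ∧
      (∀ k, t ≤ k + s → k < t → stepP T f j k (G k) (G (k + 1))) := by
  induction s with
  | zero =>
    obtain ⟨g1, h1, _, h3⟩ := first_exit T j (fun x => x ∈ cl T t f) f (mem_cl_self T t f)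
    refine ⟨fun _ => g1, ?_, ?_⟩
    · intro k hk hk'
      have hkt : k = t := by omega
      subst hkt
      exact ⟨h1, h3⟩
    · intro k hk hk'
      omega
  | succ s ih =>
    obtain ⟨G, hG, hS⟩ := ih (by omega)
    obtain ⟨k0, hk0⟩ : ∃ k0, k0 + 1 + s = t := ⟨t - (s + 1), by omega⟩
    obtain ⟨g1, h1, h2⟩ := exit_step T f j k0 (G (k0 + 1)) (hG (k0 + 1) (by omega) (by omega))
    refine ⟨Function.update G k0 g1, ?_, ?_⟩
    · intro k hk hk'
      by_cases hkk : k = k0
      · subst hkk
        rw [Function.update_self]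
        exact h1
      · rw [Function.update_of_ne hkk]
        exact hG k (by omega) hk'
    · intro k hk hk'
      by_cases hkk : k = k0
      · subst hkk
        rw [Function.update_self, Function.update_of_ne (by omega)]
        exact h2
      · rw [Function.update_of_ne hkk, Function.update_of_ne (by omega)]
        exact hS k (by omega) hk'

theorem exit_exists (T : STri N F) (t : ℕ) (f : F) (j : Fin 3) : ∃ G : ℕ → F, ExitD T t f j G := by
  obtain ⟨G, hG, hS⟩ := exit_all T t f j t le_rfl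
  refine ⟨G, fun k hk => (hG k (by omega) hk).1, ?_, fun k hk => hS k (by omega) hk⟩
  rcases (hG 0 (by omega) (by omega)).2 with h | ⟨e, g', _, hn⟩
  · exact h
  · exact absurd (Finset.mem_univ g') hn

end MP0e5907
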