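import Pool.Agent.Lib_MP_0e5907.Base3
import Pool.Agent.Lib_MP_0e5907.Sides

/-!
# Piece QGEO: geodesics in the dual graph, convexity of clusters

Paper proof.
* `geo_step`: suppose not. Then for every side `i` of `g` with `Cross T i g e g''` there is `u` with `reg u g'' ≠ reg u g` and `reg u g'' ≠ reg u g'`. Claim: for `j ≠ i` the endpoint `z = vert g j` of the side `i` has `reg z g' ≠ i`.
  If `g = of i` (`side_cases`): `z` is the root `i+1` or `i+2` (`of_one`, `of_two`) and `reg_root`. Otherwise `Cross T i g e g''`; first case `g = lf e`, `g'' = rf e`, `i = e.2 + 1`: by `reg_cross`, `reg u (rf e) = e.2 + 1 = i`, so `reg u g' ≠ i`. `z` is `inl e.1` (`vert (lf e) (e.2+2)`) or `par e.1 e.2` (`vert (lf e) e.2`).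
  If `reg z g' = i` (`i ≠ e.2`) then for `z = inl e.1`: `hT.dom` gives `reg u g' = i`, contradiction; for `z = par`: `hT.mono` gives `reg (inl e.1) g' = i`, then the same. Second case `g = rf e`, `g'' = lf e`, `i = e.2 + 2`: same with `reg u (lf e) = e.2 + 2 = i`; endpoints `vert (rf e) (e.2+1) = inl e.1`, `vert (rf e) e.2 = par`.
  Applying the claim to the sides `j+1`, `j+2`: `reg (vert g j) g'` is neither `j+1` nor `j+2`, so it is `j` for every `j`; `T.reg_uniq g' g` gives `g = g'`, contradiction.
* `geo_cut`: strong induction on the number of `u` with `reg u g ≠ reg u g'`. `g ≠ g'` since `A g`, `¬ A g'`. Take `i, e, g''` from `geo_step`. `B g''` by `hB g g' g''` (every `reg u g''` is `reg u g` or `reg u g'`). If `¬ A g''` we are done. Otherwise apply the induction hypothesis to `g''`: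
  if `reg u g'' ≠ reg u g'` then `reg u g'' = reg u g`, so `reg u g ≠ reg u g'`; and for `u = inl e.1` we have `reg u g'' ≠ reg u g` (`cross_strict`), so `reg u g'' = reg u g'` but `reg u g ≠ reg u g'`: the number strictly decreases.
* `cl_conv`: induction on `d` with `mem_cl_succ`: `reg hub c` is `reg hub a` or `reg hub b`, both equal to `reg hub f`.
-/

namespace MP0e5907

open Finset

variable {N F : Type}

theorem geo_step (T : STri N F) (hT : STriP T) {g g' : F} (h : g ≠ g') :
    ∃ i e g'', Cross T i g e g'' ∧ ∀ u, T.reg u g'' ≠ T.reg u g → T.reg u g'' = T.reg u g' := by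
  by_contra hcon
  push Not at hcon
  have d1 : ∀ i j : Fin 3, j ≠ i → j = i + 1 ∨ j = i + 2 := by decide
  have d2 : ∀ c j : Fin 3, j ≠ c + 1 → j = c + 2 ∨ j = c := by decide
  have d3 : ∀ c j : Fin 3, j ≠ c + 2 → j = c + 1 ∨ j = c := by decide
  have d4 : ∀ c : Fin 3, c + 1 ≠ c := by decide
  have d5 : ∀ c : Fin 3, c + 2 ≠ c := by decide
  have claim : ∀ i j : Fin 3, j ≠ i → T.reg (T.vert g j) g' ≠ i := by
    intro i j hji
    rcases side_cases T i g with hg | ⟨e, g'', hc⟩
    · rw [hg]
      rcases d1 i j hji with rfl | rfl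
      · rw [T.of_one, T.reg_root]
        exact d4 i
      · rw [T.of_two, T.reg_root]
        exact d5 i
    · obtain ⟨u, hu1, hu2⟩ := hcon i e g'' hc
      rcases hc with ⟨h1, h2, h3⟩ | ⟨h1, h2, h3⟩
      · subst h1 h2 h3
        have hne : T.reg u (T.lf e) ≠ T.reg u (T.rf e) := fun h' => hu1 h'.symm
        rcases T.reg_cross e u with h4 | ⟨h4, h5⟩
        · exact absurd h4 hne
        · rw [h5] at hu2
          have hdom : T.reg (Sum.inl e.1) g' ≠ e.2 + 1 := by
            intro h6
            exact hu2 (hT.dom e u (e.2 + 1) g' hne (d4 e.2) h6).symm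
          rcases d2 e.2 j hji with rfl | rfl
          · rw [T.lf_tail]
            exact hdom
          · rw [T.lf_head]
            intro h6
            exact hdom (hT.mono e.1 e.2 (e.2 + 1) g' (d4 e.2) h6)
      · subst h1 h2 h3
        rcases T.reg_cross e u with h4 | ⟨h4, h5⟩
        · exact absurd h4 hu1
        · rw [h4] at hu2
          have hdom : T.reg (Sum.inl e.1) g' ≠ e.2 + 2 := by
            intro h6
            exact hu2 (hT.dom e u (e.2 + 2) g' hu1 (d5 e.2) h6).symm
          rcases d3 e.2 j hji with rfl | rfl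
          · rw [T.rf_tail]
            exact hdom
          · rw [T.rf_head]
            intro h6
            exact hdom (hT.mono e.1 e.2 (e.2 + 2) g' (d5 e.2) h6)
  have hid : ∀ j : Fin 3, T.reg (T.vert g j) g' = j := by
    intro j
    by_contra hj
    exact claim (T.reg (T.vert g j) g') j (Ne.symm hj) rfl
  refine h (T.reg_uniq g' g ?_)
  intro x y hxy
  simp only [hid] at hxy
  exact hxy

theorem geo_cut [Fintype N] (T : STri N F) (hT : STriP T) (A B : F → Prop)
    (hB : ∀ a b c, B a → B b → (∀ u, T.reg u c = T.reg u a ∨ T.reg u c = T.reg u b) → B c)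
    {g g' : F} (hg : B g) (hg' : B g') (hA : A g) (hA' : ¬ A g') :
    ∃ i a e b, Cross T i a e b ∧ B a ∧ B b ∧ A a ∧ ¬ A b := by
  classical
  have key : ∀ (n : ℕ) (g : F),
      ((Finset.univ : Finset (N ⊕ Fin 3)).filter fun u => T.reg u g ≠ T.reg u g').card = n →
      B g → A g → ∃ i a e b, Cross T i a e b ∧ B a ∧ B b ∧ A a ∧ ¬ A b := by
    intro n
    induction n using Nat.strong_induction_on with
    | _ n ih =>
      intro g hn hg hA
      have hne : g ≠ g' := by
        rintro rfl
        exact hA' hA
      obtain ⟨i, e, g'', hc, hu⟩ := geo_step T hT hne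
      have hB'' : B g'' := by
        refine hB g g' g'' hg hg' fun u => ?_
        by_cases h1 : T.reg u g'' = T.reg u g
        · exact Or.inl h1
        · exact Or.inr (hu u h1)
      by_cases hA'' : A g''
      · have hlt : ((Finset.univ : Finset (N ⊕ Fin 3)).filter fun u => T.reg u g'' ≠ T.reg u g').card < n := by
          rw [← hn]
          refine Finset.card_lt_card ?_
          rw [Finset.ssubset_iff_of_subset]
          · obtain ⟨h1, h2⟩ := cross_strict T hc
            have h3 : T.reg (Sum.inl e.1) g'' ≠ T.reg (Sum.inl e.1) g := by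
              rw [h2]
              exact Ne.symm h1
            have h4 := hu _ h3
            refine ⟨Sum.inl e.1, ?_, ?_⟩
            · rw [Finset.mem_filter]
              refine ⟨Finset.mem_univ _, ?_⟩
              rw [← h4]
              exact Ne.symm h3
            · rw [Finset.mem_filter]
              rintro ⟨-, h5⟩
              exact h5 h4
          · intro u hu'
            rw [Finset.mem_filter] at hu' ⊢
            refine ⟨Finset.mem_univ _, ?_⟩
            have h1 : T.reg u g'' = T.reg u g := by
              by_contra h2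
              exact hu'.2 (hu u h2)
            rw [← h1]
            exact hu'.2
        exact ih _ hlt g'' rfl hB'' hA''
      · exact ⟨i, g, e, g'', hc, hg, hB'', hA, hA''⟩
  exact key _ g rfl hg hA

theorem cl_conv [Fintype F] (T : STri N F) (d : ℕ) (f a b c : F) (ha : a ∈ cl T d f) (hb : b ∈ cl T d f)
    (h : ∀ u, T.reg u c = T.reg u a ∨ T.reg u c = T.reg u b) : c ∈ cl T d f := by
  induction d with
  | zero => exact Finset.mem_univ c
  | succ d ih =>
    rw [mem_cl_succ] at ha hb ⊢
    refine ⟨ih ha.1 hb.1, ?_⟩
    rcases h (hub T (cl T d f)) with h1 | h1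
    · rw [h1, ha.2]
    · rw [h1, hb.2]

end MP0e5907
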