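import Pool.Agent.Lib_MP_0e5907.QLeg

/-!
# Piece QSLEV: the parts (siblings of the clusters of `f`, and `{f}`)

Paper proof. `slev T t f g` is the largest `d ≤ t` with `g ∈ cl T d f` (the property is decreasing in `d` by `cl_anti`, true for `d = 0`).
* `slev_le`, `mem_cl_iff_slev` (`Nat.findGreatest` API as in `lev_iff` of `Cluster.lean`).
* `slev_self`: `mem_cl_self`. `slev_eq_t`: `cl T t f = {f}` (`cl_small`).
* `slev_of_ne`: `g ∈ cl T k f`, `k < t`, `reg hub g ≠ cc T k f`: `g ∉ cl T (k+1) f` (`mem_cl_succ`), so `slev = k`.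
* `part_of_ne`: from `slev_of_ne`.
* `cc_of_slev`: `k = slev T t f g < t`: `g ∈ cl T k f` and `g ∉ cl T (k+1) f`, so `reg (hub T (cl T k f)) g ≠ cc T k f`.
* `part_eq_iff`: let `s = slev g`. If `s = t`: `g = f`, `cl T t g = {g}`, and `part g' = part f` iff `slev g' = t` (the first component; then the second is automatic as `g' = f`) iff `g' = f`. If `s < t`: `min (s+1) t = s+1`. If `g' ∈ cl T (s+1) g` then `g' ∈ cl T s f` (`cl T s g = cl T s f`) and the hub regions of `g`, `g'` agree and are `≠ cc T s f`, so `slev g' = s` and the parts agree.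
  Conversely if the parts agree then `slev g' = s`, `g' ∈ cl T s f = cl T s g` with the same hub region: `mem_cl_succ`.
* `part_inT`: let `k = lev T t e < t` (`lev_lt`), `cl T k (lf e) = cl T k (rf e)` (`lev_iff`). Suppose `lf e ∉ cl T k f`. For `d ≤ k`: `lf e ∈ cl T d f ↔ rf e ∈ cl T d f` (same clusters of depth `d`), and for `d ≥ k` neither is in `cl T d f`. So `slev (lf e) = slev (rf e) = s < k`, and both are in the same cluster of depth `s + 1 ≤ k`, so their regions for `hub T (cl T s f)` agree, the parts agree: contradiction.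
  (So `InT T t f t e` = `lf e ∈ cl T (lev e) f ∧ lev e < t` holds.)
* `card_parts`: the map `Option (Idx T t f) → ℕ × Fin 3`, `none ↦ part f = (t, _)`, `some p ↦ (p.1.1, p.1.2)` is injective (`p.1.1 < t`), and its values are in the image of `part`: for `p = (k,j)`, `Sib` gives `g ∈ cl T k f` with `reg hub g = j ≠ cc`, so `part g = (k, j)` (`part_of_ne`).
-/

namespace MP0e5907

open Finset

variable {N F : Type} [Fintype N] [Fintype F]

omit [Fintype N] in
theorem slev_le (T : STri N F) (t : ℕ) (f g : F) : slev T t f g ≤ t := by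
  unfold slev
  exact cluster_fg_le _ t

omit [Fintype N] in
theorem mem_cl_iff_slev (T : STri N F) (t : ℕ) (f g : F) (d : ℕ) (hd : d ≤ t) :
    g ∈ cl T d f ↔ d ≤ slev T t f g := by
  constructor
  · intro h
    unfold slev
    exact cluster_le_fg (P := fun d => g ∈ cl T d f) _ hd h
  · intro h
    have h1 : g ∈ cl T (slev T t f g) f := by
      unfold slev
      exact cluster_fg_spec (P := fun d => g ∈ cl T d f) _ t (Finset.mem_univ g)
    exact cl_anti T h f h1

omit [Fintype N] in
theorem slev_self (T : STri N F) (t : ℕ) (f : F) : slev T t f f = t :=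
  le_antisymm (slev_le T t f f) ((mem_cl_iff_slev T t f f t le_rfl).1 (mem_cl_self T t f))

theorem slev_eq_t (T : STri N F) (t : ℕ) (ht : 5 ^ t * Fintype.card F < 2 * 6 ^ t) (f g : F) :
    slev T t f g = t ↔ g = f := by
  constructor
  · intro h
    have h1 := (mem_cl_iff_slev T t f g t le_rfl).2 h.ge
    rw [cl_small T t ht] at h1
    exact Finset.mem_singleton.1 h1
  · rintro rfl
    exact slev_self T t g

omit [Fintype N] in
theorem slev_of_ne (T : STri N F) {t k : ℕ} (hk : k < t) {f g : F} (hg : g ∈ cl T k f)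
    (h : T.reg (hub T (cl T k f)) g ≠ cc T k f) : slev T t f g = k := by
  apply le_antisymm
  · by_contra hcon
    push Not at hcon
    have h1 := (mem_cl_iff_slev T t f g (k + 1) hk).2 hcon
    exact h ((mem_cl_succ T k f g).1 h1).2
  · exact (mem_cl_iff_slev T t f g k hk.le).1 hg

omit [Fintype N] in
theorem part_of_ne (T : STri N F) {t k : ℕ} (hk : k < t) {f g : F} (hg : g ∈ cl T k f)
    (h : T.reg (hub T (cl T k f)) g ≠ cc T k f) : part T t f g = (k, T.reg (hub T (cl T k f)) g) := by
  unfold part
  rw [slev_of_ne T hk hg h]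

omit [Fintype N] in
theorem cc_of_slev (T : STri N F) {t : ℕ} {f g : F} (h : slev T t f g < t) :
    T.reg (hub T (cl T (slev T t f g) f)) g ≠ cc T (slev T t f g) f := by
  intro he
  have h1 := (mem_cl_iff_slev T t f g (slev T t f g) (slev_le T t f g)).2 le_rfl
  have h2 : g ∈ cl T (slev T t f g + 1) f := (mem_cl_succ T _ f g).2 ⟨h1, he⟩
  have h3 := (mem_cl_iff_slev T t f g (slev T t f g + 1) h).1 h2
  omega

theorem part_eq_iff (T : STri N F) (t : ℕ) (ht : 5 ^ t * Fintype.card F < 2 * 6 ^ t) (f g g' : F) :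
    part T t f g' = part T t f g ↔ g' ∈ cl T (min (slev T t f g + 1) t) g := by
  have hs := slev_le T t f g
  have hmem := (mem_cl_iff_slev T t f g (slev T t f g) hs).2 le_rfl
  have hcl := cl_eq_of_mem T _ f g hmem
  constructor
  · intro h
    have h1 : slev T t f g' = slev T t f g := congrArg Prod.fst h
    have h2 : T.reg (hub T (cl T (slev T t f g') f)) g' = T.reg (hub T (cl T (slev T t f g) f)) g :=
      congrArg Prod.snd h
    rw [h1] at h2
    rcases hs.lt_or_eq with h3 | h3
    · rw [min_eq_left h3, mem_cl_succ, hcl]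
      exact ⟨(mem_cl_iff_slev T t f g' _ hs).2 h1.ge, h2⟩
    · have h4 := (slev_eq_t T t ht f g).1 h3
      have h5 := (slev_eq_t T t ht f g').1 (h1.trans h3)
      rw [h5, ← h4]
      exact mem_cl_self T _ g
  · intro h
    rcases hs.lt_or_eq with h3 | h3
    · rw [min_eq_left h3, mem_cl_succ, hcl] at h
      have h4 := cc_of_slev T h3
      have h5 := part_of_ne T h3 h.1 (by rw [h.2]; exact h4)
      rw [h5, h.2]
      rfl
    · rw [h3, min_eq_right (Nat.le_succ t), cl_small T t ht, Finset.mem_singleton] at h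
      rw [h]

theorem part_inT (T : STri N F) (t : ℕ) (ht : 5 ^ t * Fintype.card F < 2 * 6 ^ t) (f : F) (e : N × Fin 3)
    (h : part T t f (T.lf e) ≠ part T t f (T.rf e)) : InT T t f t e := by
  have hlt := lev_lt T t ht e
  refine ⟨?_, hlt⟩
  by_contra hcon
  have hcl := (lev_iff T t (lev T t e) hlt.le e).1 le_rfl
  have hr : T.rf e ∉ cl T (lev T t e) f := by
    intro h1
    apply hcon
    rw [← cl_eq_of_mem T _ f _ h1, ← hcl]
    exact mem_cl_self T _ _
  have h1 : slev T t f (T.rf e) < lev T t e := by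
    by_contra h2
    push Not at h2
    exact hr ((mem_cl_iff_slev T t f _ _ hlt.le).2 h2)
  apply h
  rw [part_eq_iff T t ht]
  refine cl_anti T ((min_le_left _ _).trans h1) _ ?_
  rw [← hcl]
  exact mem_cl_self T _ _

open Classical in
theorem card_parts (T : STri N F) (t : ℕ) (f : F) :
    Fintype.card (Idx T t f) + 1 ≤ ((Finset.univ : Finset F).image (part T t f)).card := by
  rw [← Fintype.card_option, ← Finset.card_univ]
  refine Finset.card_le_card_of_injOn
    (fun o : Option (Idx T t f) => o.elim (part T t f f) fun p => ((p.1.1 : ℕ), p.1.2)) ?_ ?_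
  · intro o _
    rcases o with _ | p
    · exact Finset.mem_coe.2 (Finset.mem_image_of_mem _ (Finset.mem_univ f))
    · obtain ⟨⟨k, j⟩, hj, g, hg, hgj⟩ := p
      refine Finset.mem_coe.2 (Finset.mem_image.2 ⟨g, Finset.mem_univ g, ?_⟩)
      have h1 := part_of_ne T k.2 hg (by
        rw [hgj]
        exact hj)
      rw [h1]
      exact Prod.ext rfl hgj
  · intro o _ o' _ h
    rcases o with _ | p <;> rcases o' with _ | q
    · rfl
    · exfalso
      have h1 : slev T t f f = (q.1.1 : ℕ) := congrArg Prod.fst h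
      rw [slev_self] at h1
      have := q.1.1.2
      omega
    · exfalso
      have h1 : (p.1.1 : ℕ) = slev T t f f := congrArg Prod.fst h
      rw [slev_self] at h1
      have := p.1.1.2
      omega
    · have h0 : (((p.1.1 : ℕ), p.1.2) : ℕ × Fin 3) = ((q.1.1 : ℕ), q.1.2) := h
      obtain ⟨h1, h2⟩ := Prod.mk.inj h0
      exact congrArg some (Subtype.ext (Prod.ext (Fin.ext h1) h2))

end MP0e5907
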