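import Pool.Agent.Lib_MP_0e5907.QMucB
import Pool.Agent.Lib_MP_0e5907.QSlev

/-!
# Piece QJSUM: the total weight of the allowed choices

Paper proof. Fix `f`, `G` with `ExitD T t f j (G j)` for all `j`. `s j k = slev T t f (G j k)`.
* `s_facts`: for `k ≤ t`: `k ≤ s j k ≤ t` (`mem`, `mem_cl_iff_slev`); `s j t = t`; for `k < t`: `s j k ≤ s j (k+1)`: if `G j k = G j (k+1)` equal; otherwise `G j k ∈ cl T k f`, `∉ cl T (k+1) f`, so `s j k = k` (`mem_cl_iff_slev`) and `s j (k+1) ≥ k+1`.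
* `exit_term`: let `k < t`, `G j k ≠ G j (k+1)`. From `step`: `cc ≠ j`, an edge `e0` and `g'` with `Cross T j (G j (k+1)) e0 g'`, `g' ∈ cl T k f`, `reg H g' = j`, `reg H (G j (k+1)) = cc`, `H = hub T (cl T k f)`, and `G j (k+1) ∈ cl T (k+1) f ⊆ cl T k f`. So `e0 ∈ leg T k f e0.2` (`mem_leg`). `D = min (s j (k+1) + 1) t`, `k + 1 ≤ D ≤ t` (`s j (k+1) ≥ k+1`, `k+1 ≤ t`).
  First case of `Cross`: `G j (k+1) = lf e0`, `j = e0.2 + 1`, `cc = reg H (lf e0) = e0.2 + 2` (`leg_reg`), so `e0.2 = -(cc + j)`. Every `e` in this leg has `reg H (lf e) = e0.2 + 2 = cc`, so `inn T f k e = lf e`. `JJ = leg.filter (lf e ∈ cl T D (lf e0))`, and `hr.partL`.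
  Second case: `G j (k+1) = rf e0`, `j = e0.2 + 2`, `cc = e0.2 + 1`, `e0.2 = -(cc+j)`, `reg H (lf e) = e0.2 + 2 = j ≠ cc`, `inn T f k e = rf e`, `hr.partR`. So `6^k ≤ 3^(D-(k+1)) ∑_{JJ} r`, and `D - (k+1) ≤ s j (k+1) - k = s j (k+1) - s j k`. (as `s j k = k`)
* `term`: for `p = (k,j) : Idx`: `b_p ≤ ∑_{JJ} r e/(2*6^k)` with `b_(k,j) = (1/2) (1/3)^(s j (k+1) - s j k)`: in the case `G j k = G j (k+1)`: `JJ = leg T k f (muc ..)`, nonempty (`muc_nonempty`), the sum is `1` (`hr.tot`) and `b = 1/2`; otherwise `exit_term`.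
* `jsum`: `∏_{p : Idx} (..) ≥ ∏_{p : Idx} b_p ≥ ∏_{(k,j) ∈ Fin t × Fin 3} b_(k,j)` (all `0 < b ≤ 1`; a product over a subtype, `Finset.prod_subtype`/`Fintype.prod_subtype`, and `Finset.prod_le_prod_of_subset_of_le_one'` or induction), and this is `∏_j (1/2)^t (1/3)^(s j t - s j 0) ≥ ∏_j (1/6)^t = (1/216)^t` (telescoping: `∏_{k<t} (1/3)^(s (k+1) - s k) = (1/3)^(s t - s 0)` by induction for a monotone sequence).
-/

namespace MP0e5907

open Finset

variable {N F : Type} [Fintype N] [Fintype F]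


theorem s_facts (T : STri N F) (t : ℕ) (ht : 5 ^ t * Fintype.card F < 2 * 6 ^ t) (f : F) (j : Fin 3) (G : ℕ → F)
    (hG : ExitD T t f j G) :
    (∀ k, k ≤ t → k ≤ slev T t f (G k) ∧ slev T t f (G k) ≤ t) ∧ slev T t f (G t) = t ∧
      (∀ k, k < t → slev T t f (G k) ≤ slev T t f (G (k + 1))) ∧
      (∀ k, k < t → G k ≠ G (k + 1) → slev T t f (G k) = k) := by
  have h1 : ∀ k, k ≤ t → k ≤ slev T t f (G k) ∧ slev T t f (G k) ≤ t := fun k hk =>
    ⟨(mem_cl_iff_slev T t f (G k) k hk).1 (hG.mem k hk), slev_le T t f (G k)⟩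
  have h2 : ∀ k, k < t → G k ≠ G (k + 1) → slev T t f (G k) = k := by
    intro k hk hne
    rcases hG.step k hk with h | ⟨h, _⟩
    · exact absurd h hne
    · refine le_antisymm ?_ (h1 k hk.le).1
      by_contra hcon
      push Not at hcon
      exact h ((mem_cl_iff_slev T t f (G k) (k + 1) hk).2 hcon)
  refine ⟨h1, le_antisymm (h1 t le_rfl).2 (h1 t le_rfl).1, fun k hk => ?_, h2⟩
  by_cases h : G k = G (k + 1)
  · rw [h]
  · rw [h2 k hk h]
    exact (Nat.le_succ k).trans (h1 (k + 1) hk).1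

private theorem qj_fin1 : ∀ m : Fin 3, -(m + 2 + (m + 1)) = m := by decide

private theorem qj_fin2 : ∀ m : Fin 3, -(m + 1 + (m + 2)) = m := by decide

private theorem qj_fin3 : ∀ m : Fin 3, m + 2 ≠ m + 1 := by decide

theorem exit_term (T : STri N F) (t : ℕ) (ht : 5 ^ t * Fintype.card F < 2 * 6 ^ t) (r : N × Fin 3 → ℝ)
    (hr : GoodW T t r) (f : F) (G : Fin 3 → ℕ → F) (hG : ∀ j, ExitD T t f j (G j)) (k : ℕ) (hk : k < t) (j : Fin 3)
    (hne : G j k ≠ G j (k + 1)) :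
    6 ^ k ≤ 3 ^ (slev T t f (G j (k + 1)) - slev T t f (G j k)) * ∑ e ∈ JJ T t f G k j, r e := by
  classical
  obtain ⟨h1, _, _, h4⟩ := s_facts T t ht f j (G j) (hG j)
  have hsk := h4 k hk hne
  have hs1 := (h1 (k + 1) hk).1
  have hmem : G j (k + 1) ∈ cl T k f := cl_anti T (Nat.le_succ k) f ((hG j).mem (k + 1) hk)
  rcases (hG j).step k hk with h | ⟨_, hcj, _, e0, g', hcr, hg', hgj, hgc⟩
  · exact absurd h hne
  have hD1 : k + 1 ≤ min (slev T t f (G j (k + 1)) + 1) t := le_min (by omega) hk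
  have hD2 : min (slev T t f (G j (k + 1)) + 1) t ≤ t := min_le_right _ _
  have hexp : min (slev T t f (G j (k + 1)) + 1) t - (k + 1) ≤
      slev T t f (G j (k + 1)) - slev T t f (G j k) := by
    rw [hsk]
    have := min_le_left (slev T t f (G j (k + 1)) + 1) t
    omega
  have hJ : JJ T t f G k j = (leg T k f (-(cc T k f + j))).filter fun e =>
      inn T f k e ∈ cl T (min (slev T t f (G j (k + 1)) + 1) t) (G j (k + 1)) := by
    unfold JJ
    rw [if_neg hne]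
  have hfin : ∀ S : ℝ, 0 ≤ S →
      6 ^ k ≤ 3 ^ (min (slev T t f (G j (k + 1)) + 1) t - (k + 1)) * S →
      (6 : ℝ) ^ k ≤ 3 ^ (slev T t f (G j (k + 1)) - slev T t f (G j k)) * S := by
    intro S hS h
    refine h.trans (mul_le_mul_of_nonneg_right ?_ hS)
    exact pow_le_pow_right₀ (by norm_num) hexp
  rcases hcr with ⟨hl, hr', hj⟩ | ⟨hl, hr', hj⟩
  · have he0 : e0 ∈ leg T k f e0.2 := by
      refine (mem_leg T k f e0.2 e0).2 ⟨rfl, ?_, ?_, ?_⟩
      · rw [← hl]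
        exact hmem
      · rw [← hr']
        exact hg'
      · rw [← hl, ← hr', hgc, hgj]
        exact hcj
    have hreg := (leg_reg T he0).1
    rw [← hl, hgc] at hreg
    have hm : -(cc T k f + j) = e0.2 := by
      rw [hreg, hj]
      exact qj_fin1 e0.2
    have hJ2 : JJ T t f G k j = (leg T k f e0.2).filter fun e =>
        T.lf e ∈ cl T (min (slev T t f (G j (k + 1)) + 1) t) (T.lf e0) := by
      rw [hJ, hm]
      refine Finset.filter_congr fun e he => ?_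
      have h5 : inn T f k e = T.lf e := by
        unfold inn
        rw [if_pos ((leg_reg T he).1.trans hreg.symm)]
      rw [h5, ← hl]
    rw [hJ2]
    exact hfin _ (Finset.sum_nonneg fun e _ => (hr.pos e).le) (hr.partL k hk f e0.2 e0 he0 _ hD1 hD2)
  · have he0 : e0 ∈ leg T k f e0.2 := by
      refine (mem_leg T k f e0.2 e0).2 ⟨rfl, ?_, ?_, ?_⟩
      · rw [← hr']
        exact hg'
      · rw [← hl]
        exact hmem
      · rw [← hl, ← hr', hgc, hgj]
        exact hcj.symm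
    have hreg := (leg_reg T he0).2
    rw [← hl, hgc] at hreg
    have hm : -(cc T k f + j) = e0.2 := by
      rw [hreg, hj]
      exact qj_fin2 e0.2
    have hJ2 : JJ T t f G k j = (leg T k f e0.2).filter fun e =>
        T.rf e ∈ cl T (min (slev T t f (G j (k + 1)) + 1) t) (T.rf e0) := by
      rw [hJ, hm]
      refine Finset.filter_congr fun e he => ?_
      have h5 : inn T f k e = T.rf e := by
        unfold inn
        rw [if_neg]
        rw [(leg_reg T he).1, hreg]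
        exact qj_fin3 e0.2
      rw [h5, ← hl]
    rw [hJ2]
    exact hfin _ (Finset.sum_nonneg fun e _ => (hr.pos e).le) (hr.partR k hk f e0.2 e0 he0 _ hD1 hD2)

private theorem qj_tele (s : ℕ → ℕ) : ∀ t : ℕ, (∀ k, k < t → s k ≤ s (k + 1)) →
    s 0 ≤ s t ∧ ∑ k ∈ range t, (s (k + 1) - s k) = s t - s 0 := by
  intro t
  induction t with
  | zero => intro _; simp
  | succ t ih =>
    intro h
    obtain ⟨h1, h2⟩ := ih fun k hk => h k (hk.trans (Nat.lt_succ_self t))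
    have h3 := h t (Nat.lt_succ_self t)
    refine ⟨h1.trans h3, ?_⟩
    rw [Finset.sum_range_succ, h2]
    omega

open Classical in
theorem jsum (T : STri N F) (hT : STriP T) (t : ℕ) (ht : 5 ^ t * Fintype.card F < 2 * 6 ^ t) (r : N × Fin 3 → ℝ)
    (hr : GoodW T t r) (f : F) (G : Fin 3 → ℕ → F) (hG : ∀ j, ExitD T t f j (G j)) :
    1 ≤ 216 ^ t * ∏ p : Idx T t f, ∑ e ∈ JJ T t f G p.1.1 p.1.2, r e / (2 * 6 ^ (p.1.1 : ℕ)) := by
  set b : Fin t × Fin 3 → ℝ := fun p =>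
    1 / 2 * (1 / 3) ^ (slev T t f (G p.2 (p.1 + 1)) - slev T t f (G p.2 p.1)) with hb
  have hb0 : ∀ p, 0 < b p := fun p => by
    rw [hb]
    positivity
  have hb1 : ∀ p, b p ≤ 1 := fun p => by
    rw [hb]
    have h1 : ((1 : ℝ) / 3) ^ (slev T t f (G p.2 (p.1 + 1)) - slev T t f (G p.2 p.1)) ≤ 1 :=
      pow_le_one₀ (by norm_num) (by norm_num)
    change 1 / 2 * (1 / 3 : ℝ) ^ (slev T t f (G p.2 (p.1 + 1)) - slev T t f (G p.2 p.1)) ≤ 1
    linarith
  -- the terms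
  have hterm : ∀ p : Idx T t f, b p.1 ≤ ∑ e ∈ JJ T t f G p.1.1 p.1.2, r e / (2 * 6 ^ (p.1.1 : ℕ)) := by
    intro p
    have h6 : (0 : ℝ) < 2 * 6 ^ (p.1.1 : ℕ) := by positivity
    rw [← Finset.sum_div, le_div_iff₀ h6]
    by_cases h : G p.1.2 p.1.1 = G p.1.2 (p.1.1 + 1)
    · have hJ : JJ T t f G p.1.1 p.1.2 = leg T p.1.1 f (muc T f p.1.1 p.1.2) := by
        unfold JJ
        rw [if_pos h]
      rw [hJ, hr.tot p.1.1 p.1.1.2 f _ (muc_nonempty T hT p.1.1 f p.1.2 p.2)]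
      exact mul_le_of_le_one_left h6.le (hb1 p.1)
    · have h7 := exit_term T t ht r hr f G hG p.1.1 p.1.1.2 p.1.2 h
      have h8 : b p.1 * (2 * 6 ^ (p.1.1 : ℕ)) = (1 / 3) ^ (slev T t f (G p.1.2 (p.1.1 + 1)) -
          slev T t f (G p.1.2 p.1.1)) * 6 ^ (p.1.1 : ℕ) := by
        rw [hb]
        ring
      rw [h8]
      calc ((1 : ℝ) / 3) ^ (slev T t f (G p.1.2 (p.1.1 + 1)) - slev T t f (G p.1.2 p.1.1)) * 6 ^ (p.1.1 : ℕ)
          ≤ (1 / 3) ^ (slev T t f (G p.1.2 (p.1.1 + 1)) - slev T t f (G p.1.2 p.1.1)) *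
            (3 ^ (slev T t f (G p.1.2 (p.1.1 + 1)) - slev T t f (G p.1.2 p.1.1)) *
              ∑ e ∈ JJ T t f G p.1.1 p.1.2, r e) :=
            mul_le_mul_of_nonneg_left h7 (by positivity)
        _ = ∑ e ∈ JJ T t f G p.1.1 p.1.2, r e := by
            rw [← mul_assoc, ← mul_pow]
            norm_num
  have h1 : ∏ p : Idx T t f, b p.1 ≤
      ∏ p : Idx T t f, ∑ e ∈ JJ T t f G p.1.1 p.1.2, r e / (2 * 6 ^ (p.1.1 : ℕ)) :=
    Finset.prod_le_prod (fun p _ => (hb0 p.1).le) fun p _ => hterm p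
  -- all indices
  have h2 : ∏ p : Fin t × Fin 3, b p ≤ ∏ p : Idx T t f, b p.1 := by
    rw [← Finset.prod_subtype (Finset.univ.filter fun p : Fin t × Fin 3 => Sib T f p.1 p.2)
      (fun x => by simp) b]
    rw [← Finset.prod_filter_mul_prod_filter_not Finset.univ (fun p : Fin t × Fin 3 => Sib T f p.1 p.2) b]
    refine mul_le_of_le_one_right (Finset.prod_nonneg fun p _ => (hb0 p).le) ?_
    exact Finset.prod_le_one (fun p _ => (hb0 p).le) fun p _ => hb1 p
  have h3 : (1 / 216 : ℝ) ^ t ≤ ∏ p : Fin t × Fin 3, b p := by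
    rw [Fintype.prod_prod_type_right]
    have h4 : ∀ j : Fin 3, (1 / 6 : ℝ) ^ t ≤ ∏ k : Fin t, b (k, j) := by
      intro j
      obtain ⟨f1, f2, f3, _⟩ := s_facts T t ht f j (G j) (hG j)
      have h5 : ∏ k : Fin t, b (k, j) = ∏ k ∈ range t,
          (1 / 2 * (1 / 3 : ℝ) ^ (slev T t f (G j (k + 1)) - slev T t f (G j k))) :=
        Fin.prod_univ_eq_prod_range
          (fun k => (1 / 2 * (1 / 3 : ℝ) ^ (slev T t f (G j (k + 1)) - slev T t f (G j k)))) t
      rw [h5, Finset.prod_mul_distrib, Finset.prod_const, Finset.card_range, Finset.prod_pow_eq_pow_sum]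
      have h6 := (qj_tele (fun k => slev T t f (G j k)) t f3).2
      have h7 : ∑ k ∈ range t, (slev T t f (G j (k + 1)) - slev T t f (G j k)) ≤ t := by
        have h8 : ∑ k ∈ range t, (slev T t f (G j (k + 1)) - slev T t f (G j k)) =
            slev T t f (G j t) - slev T t f (G j 0) := h6
        rw [h8, f2]
        exact Nat.sub_le _ _
      have h8 : (1 / 3 : ℝ) ^ t ≤ (1 / 3) ^ (∑ k ∈ range t, (slev T t f (G j (k + 1)) - slev T t f (G j k))) :=
        pow_le_pow_of_le_one (by norm_num) (by norm_num) h7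
      calc (1 / 6 : ℝ) ^ t = (1 / 2) ^ t * (1 / 3) ^ t := by
            rw [← mul_pow]
            norm_num
        _ ≤ _ := mul_le_mul_of_nonneg_left h8 (by positivity)
    calc (1 / 216 : ℝ) ^ t = ∏ _j : Fin 3, (1 / 6 : ℝ) ^ t := by
          rw [Finset.prod_const, Finset.card_univ, Fintype.card_fin, ← pow_mul, mul_comm t 3, pow_mul]
          norm_num
      _ ≤ _ := Finset.prod_le_prod (fun _ _ => by positivity) fun j _ => h4 j
  have h9 : (216 : ℝ) ^ t * (1 / 216) ^ t = 1 := by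
    rw [← mul_pow]
    norm_num
  calc (1 : ℝ) = 216 ^ t * (1 / 216) ^ t := h9.symm
    _ ≤ 216 ^ t * ∏ p : Idx T t f, ∑ e ∈ JJ T t f G p.1.1 p.1.2, r e / (2 * 6 ^ (p.1.1 : ℕ)) :=
        mul_le_mul_of_nonneg_left (h3.trans (h2.trans h1)) (by positivity)

end MP0e5907
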