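import Pool.Agent.Lib_MP_0e5907.Base3
import Pool.Agent.Lib_MP_0e5907.Sides
import Pool.Agent.Lib_MP_0e5907.QGeo

/-!
# Piece QLEG: elementary facts about legs and children

Paper proof. `H = hub T (cl T k f)`.
* `mem_leg`, `mem_child`: by definition.
* `leg_reg`: `reg_cross` (the two values are different) and `e.2 = m`.
* `leg_child`: `leg_reg`.
* `leg_injL`: `sideMap lf rf of` is injective (`T.sides.1`) and `(lf e, e.2 + 1) = (lf e', e'.2 + 1)`. `leg_injR` the same with `(rf e, e.2 + 2)`.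
* `leg_congr`, `child_congr`: `cl T k f' = cl T k f` by `cl_eq_of_mem`.
* `child_eq`: `child T k f (reg H g) = cl T (k+1) g` for `g ∈ cl T k f`: `cl T k g = cl T k f` and `mem_cl_succ`.
* `leg_lev`: `cl T k (lf e) = cl T k f = cl T k (rf e)`, and `cl T (k+1) (lf e) ≠ cl T (k+1) (rf e)` since the hub regions differ (`mem_cl_self`, `mem_cl_succ`); `lev_iff` with `d = k` and (if `k + 1 ≤ t`) `d = k+1`.
* `mem_leg_of_lev`: `k = lev T t e < t`; by `lev_iff`, `cl T k (lf e) = cl T k (rf e)` and `cl T (k+1) (lf e) ≠ cl T (k+1) (rf e)`; so `rf e ∈ cl T k f` and the hub regions are different (otherwise `rf e ∈ cl T (k+1) (lf e)` and `cl_eq_of_mem`).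
* `inT_iff`: `leg_lev` and `mem_leg_of_lev`.
* `legs_or`: let `g ∈ child (m+1)`, `g' ∈ child (m+2)`. `geo_cut` with `B = (· ∈ cl T k f)` (`cl_conv`) and `A = (· ∈ child (m+1))`: an edge `e` with both faces in `cl T k f`, exactly one in the child `m+1`; so the hub regions are different, `e ∈ leg T k f e.2`; the children joined by the leg `c` are `c+1, c+2`; as `m+1` is one of them
  `e.2 = m` or `e.2 = m + 2`. If the leg `m` is empty then the leg `m + 2` is nonempty. In the same way with `A = (¬ · ∈ child (m+2))`: the edge joins the child `m+2`, so `e.2 = m` or `e.2 = m+1`; if the leg `m` is empty then the leg `m+1` is nonempty.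
-/

namespace MP0e5907

open Finset

variable {N F : Type} [Fintype N] [Fintype F]

theorem mem_leg (T : STri N F) (k : ℕ) (f : F) (m : Fin 3) (e : N × Fin 3) :
    e ∈ leg T k f m ↔ e.2 = m ∧ T.lf e ∈ cl T k f ∧ T.rf e ∈ cl T k f ∧
      T.reg (hub T (cl T k f)) (T.lf e) ≠ T.reg (hub T (cl T k f)) (T.rf e) := by
  simp only [leg, Finset.mem_filter, Finset.mem_univ, true_and]

omit [Fintype N] in
theorem mem_child (T : STri N F) (k : ℕ) (f : F) (i : Fin 3) (g : F) :
    g ∈ child T k f i ↔ g ∈ cl T k f ∧ T.reg (hub T (cl T k f)) g = i := by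
  simp only [child, Finset.mem_filter]

theorem leg_reg (T : STri N F) {k : ℕ} {f : F} {m : Fin 3} {e : N × Fin 3} (h : e ∈ leg T k f m) :
    T.reg (hub T (cl T k f)) (T.lf e) = m + 2 ∧ T.reg (hub T (cl T k f)) (T.rf e) = m + 1 := by
  obtain ⟨h1, -, -, h4⟩ := (mem_leg T k f m e).1 h
  rcases T.reg_cross e (hub T (cl T k f)) with h5 | ⟨h5, h6⟩
  · exact absurd h5 h4
  · rw [h1] at h5 h6
    exact ⟨h5, h6⟩

theorem leg_child (T : STri N F) {k : ℕ} {f : F} {m : Fin 3} {e : N × Fin 3} (h : e ∈ leg T k f m) :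
    T.lf e ∈ child T k f (m + 2) ∧ T.rf e ∈ child T k f (m + 1) := by
  obtain ⟨-, h2, h3, -⟩ := (mem_leg T k f m e).1 h
  obtain ⟨h5, h6⟩ := leg_reg T h
  exact ⟨(mem_child T k f _ _).2 ⟨h2, h5⟩, (mem_child T k f _ _).2 ⟨h3, h6⟩⟩

theorem leg_injL (T : STri N F) {k k' : ℕ} {f f' : F} {m : Fin 3} {e e' : N × Fin 3} (h : e ∈ leg T k f m)
    (h' : e' ∈ leg T k' f' m) (hl : T.lf e = T.lf e') : e = e' := by
  have h1 := ((mem_leg T k f m e).1 h).1
  have h2 := ((mem_leg T k' f' m e').1 h').1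
  have h3 : sideMap T.lf T.rf T.of (Sum.inl (Sum.inl e)) =
      sideMap T.lf T.rf T.of (Sum.inl (Sum.inl e')) := by
    refine Prod.ext hl ?_
    change e.2 + 1 = e'.2 + 1
    rw [h1, h2]
  exact Sum.inl_injective (Sum.inl_injective (T.sides.1 h3))

theorem leg_injR (T : STri N F) {k k' : ℕ} {f f' : F} {m : Fin 3} {e e' : N × Fin 3} (h : e ∈ leg T k f m)
    (h' : e' ∈ leg T k' f' m) (hl : T.rf e = T.rf e') : e = e' := by
  have h1 := ((mem_leg T k f m e).1 h).1
  have h2 := ((mem_leg T k' f' m e').1 h').1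
  have h3 : sideMap T.lf T.rf T.of (Sum.inl (Sum.inr e)) =
      sideMap T.lf T.rf T.of (Sum.inl (Sum.inr e')) := by
    refine Prod.ext hl ?_
    change e.2 + 2 = e'.2 + 2
    rw [h1, h2]
  exact Sum.inr_injective (Sum.inl_injective (T.sides.1 h3))

theorem leg_congr (T : STri N F) {k : ℕ} {f f' : F} (h : f' ∈ cl T k f) (m : Fin 3) :
    leg T k f' m = leg T k f m := by
  have h1 := cl_eq_of_mem T k f f' h
  ext e
  rw [mem_leg, mem_leg, h1]

omit [Fintype N] in
theorem child_congr (T : STri N F) {k : ℕ} {f f' : F} (h : f' ∈ cl T k f) (i : Fin 3) :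
    child T k f' i = child T k f i := by
  have h1 := cl_eq_of_mem T k f f' h
  ext e
  rw [mem_child, mem_child, h1]

omit [Fintype N] in
theorem child_eq (T : STri N F) {k : ℕ} {f g : F} (h : g ∈ cl T k f) :
    child T k f (T.reg (hub T (cl T k f)) g) = cl T (k + 1) g := by
  have h1 := cl_eq_of_mem T k f g h
  ext x
  rw [mem_child, mem_cl_succ, h1]

theorem leg_lev (T : STri N F) {t k : ℕ} (hk : k < t) {f : F} {m : Fin 3} {e : N × Fin 3} (h : e ∈ leg T k f m) :
    lev T t e = k := by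
  obtain ⟨-, h2, h3, h4⟩ := (mem_leg T k f m e).1 h
  have h5 := cl_eq_of_mem T k f _ h2
  have h6 := cl_eq_of_mem T k f _ h3
  apply le_antisymm
  · by_contra hcon
    push Not at hcon
    have h7 := (lev_iff T t (k + 1) hk e).1 hcon
    have h8 : T.rf e ∈ cl T (k + 1) (T.lf e) := by
      rw [h7]
      exact mem_cl_self T _ _
    have h9 := ((mem_cl_succ T k (T.lf e) (T.rf e)).1 h8).2
    rw [h5] at h9
    exact h4 h9.symm
  · rw [lev_iff T t k hk.le e, h5, h6]

theorem mem_leg_of_lev (T : STri N F) {t : ℕ} {f : F} {e : N × Fin 3} (hk : lev T t e < t)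
    (h : T.lf e ∈ cl T (lev T t e) f) : e ∈ leg T (lev T t e) f e.2 := by
  have h1 := (lev_iff T t (lev T t e) hk.le e).1 le_rfl
  have h2 := cl_eq_of_mem T (lev T t e) f _ h
  have h3 : T.rf e ∈ cl T (lev T t e) f := by
    rw [← h2, h1]
    exact mem_cl_self T _ _
  refine (mem_leg T _ f _ e).2 ⟨rfl, h, h3, ?_⟩
  intro h4
  have h5 : T.rf e ∈ cl T (lev T t e + 1) (T.lf e) := by
    rw [mem_cl_succ, h2]
    exact ⟨h3, h4.symm⟩
  have h6 := cl_eq_of_mem T (lev T t e + 1) _ _ h5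
  have h7 := (lev_iff T t (lev T t e + 1) hk e).2 h6.symm
  omega

theorem inT_iff (T : STri N F) {t k : ℕ} (hk : k ≤ t) (f : F) (e : N × Fin 3) :
    InT T t f k e ↔ ∃ k', k' < k ∧ e ∈ leg T k' f e.2 := by
  constructor
  · rintro ⟨h1, h2⟩
    exact ⟨lev T t e, h2, mem_leg_of_lev T (lt_of_lt_of_le h2 hk) h1⟩
  · rintro ⟨k', h1, h2⟩
    have h3 := leg_lev T (lt_of_lt_of_le h1 hk) h2
    refine ⟨?_, ?_⟩
    · rw [h3]
      exact ((mem_leg T k' f _ e).1 h2).2.1
    · rw [h3]
      exact h1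

private theorem fin3_a : ∀ m c : Fin 3, m + 1 = c + 2 → c = m + 2 := by decide

private theorem fin3_b : ∀ m : Fin 3, m + 2 ≠ m + 1 := by decide

private theorem fin3_c : ∀ m c : Fin 3, c + 1 = m + 2 → c = m + 1 := by decide

private theorem cross_leg (T : STri N F) {k : ℕ} {f : F} {i : Fin 3} {a b : F} {e : N × Fin 3}
    (hc : Cross T i a e b) (ha : a ∈ cl T k f) (hb : b ∈ cl T k f)
    (hne : T.reg (hub T (cl T k f)) a ≠ T.reg (hub T (cl T k f)) b) : e ∈ leg T k f e.2 := by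
  rw [mem_leg]
  rcases hc with ⟨h1, h2, -⟩ | ⟨h1, h2, -⟩
  · rw [← h1, ← h2]
    exact ⟨rfl, ha, hb, hne⟩
  · rw [← h1, ← h2]
    exact ⟨rfl, hb, ha, hne.symm⟩

theorem legs_or (T : STri N F) (hT : STriP T) (k : ℕ) (f : F) (m : Fin 3) (h1 : (child T k f (m + 1)).Nonempty)
    (h2 : (child T k f (m + 2)).Nonempty) :
    (leg T k f m).Nonempty ∨ ((leg T k f (m + 1)).Nonempty ∧ (leg T k f (m + 2)).Nonempty) := by
  obtain ⟨g, hg⟩ := h1
  obtain ⟨g', hg'⟩ := h2
  have hgm := (mem_child T k f _ g).1 hg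
  have hgm' := (mem_child T k f _ g').1 hg'
  have hB : ∀ a b c, a ∈ cl T k f → b ∈ cl T k f →
      (∀ u, T.reg u c = T.reg u a ∨ T.reg u c = T.reg u b) → c ∈ cl T k f := fun a b c ha hb h =>
    cl_conv T k f a b c ha hb h
  have hA : (leg T k f m).Nonempty ∨ (leg T k f (m + 2)).Nonempty := by
    obtain ⟨i, a, e, b, hc, ha, hb, hAa, hAb⟩ := geo_cut T hT (fun x => x ∈ child T k f (m + 1))
      (fun x => x ∈ cl T k f) hB hgm.1 hgm'.1 hg (fun h => by
        have := ((mem_child T k f _ g').1 h).2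
        rw [hgm'.2] at this
        exact fin3_b m this)
    have ha2 := ((mem_child T k f _ a).1 hAa).2
    have hb2 : T.reg (hub T (cl T k f)) b ≠ m + 1 := fun h => hAb ((mem_child T k f _ b).2 ⟨hb, h⟩)
    have hleg := cross_leg T hc ha hb (by rw [ha2]; exact hb2.symm)
    obtain ⟨h5, h6⟩ := leg_reg T hleg
    rcases hc with ⟨k1, k2, -⟩ | ⟨k1, k2, -⟩
    · right
      rw [← k1, ha2] at h5
      have h7 := fin3_a m e.2 h5
      exact ⟨e, h7 ▸ hleg⟩
    · left
      rw [← k1, ha2] at h6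
      have h7 : m = e.2 := add_right_cancel h6
      exact ⟨e, h7 ▸ hleg⟩
  have hA' : (leg T k f m).Nonempty ∨ (leg T k f (m + 1)).Nonempty := by
    obtain ⟨i, a, e, b, hc, ha, hb, hAa, hAb⟩ := geo_cut T hT (fun x => ¬ x ∈ child T k f (m + 2))
      (fun x => x ∈ cl T k f) hB hgm.1 hgm'.1 (fun h => by
        have := ((mem_child T k f _ g).1 h).2
        rw [hgm.2] at this
        exact fin3_b m this.symm) (fun h => h hg')
    have hAb' : b ∈ child T k f (m + 2) := by
      by_contra h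
      exact hAb h
    have hb2 := ((mem_child T k f _ b).1 hAb').2
    have ha2 : T.reg (hub T (cl T k f)) a ≠ m + 2 := fun h => hAa ((mem_child T k f _ a).2 ⟨ha, h⟩)
    have hleg := cross_leg T hc ha hb (by rw [hb2]; exact ha2)
    obtain ⟨h5, h6⟩ := leg_reg T hleg
    rcases hc with ⟨k1, k2, -⟩ | ⟨k1, k2, -⟩
    · right
      rw [← k2, hb2] at h6
      have h7 := fin3_c m e.2 h6.symm
      exact ⟨e, h7 ▸ hleg⟩
    · left
      rw [← k2, hb2] at h5
      have h7 : m = e.2 := add_right_cancel h5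
      exact ⟨e, h7 ▸ hleg⟩
  rcases hA with h | h
  · exact Or.inl h
  · rcases hA' with h' | h'
    · exact Or.inl h'
    · exact Or.inr ⟨h', h⟩

end MP0e5907
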