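import Pool.Agent.Lib_MP_0e5907.QOsc

/-!
# Piece QLEVEL: completing the legs of one cluster

Paper proof. `K = cl T k f`, `Δ_e = x (lf e) - x (rf e)`, `ρ1 = 2/6^(k+1)`. The current conductances `r' ≥ 0` agree with `r` on all edges inside the children of `K` (hypothesis `hint`). Hence, for any set `W` of edges of the legs of `K`: `∑_i EnS T r (child T k f i) x ≤ En T (setOn W 0 r') x`, and more generally, for a set `L` of leg edges on which `r' = r` and which is
disjoint from `W`, `∑_i EnS T r (child i) x + EnE T r L x ≤ En T (setOn W 0 r') x` (the edge sets are disjoint, all terms are nonnegative; an edge inside a child is in no leg).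
* `level_leg`: `complete_leg` with `W = leg T k f m`, `ρ = 2 ρ1`: for `e, a ∈ W`: `Δ_e - Δ_a = (x (lf e) - x (lf a)) + (x (rf a) - x (rf e))`, the first in the child `m+2`, the second in the child `m+1` (`leg_child`): `osc_child` and `titu2`: square `≤ (ρ1 + ρ1)(EnS (child (m+2)) + EnS (child (m+1))) ≤ 2 ρ1 En T (setOn W 0 r') x`.
  `∑_W r = 2 * 6^k` (`hr.tot`) and `ρ * 2 * 6^k = 4/3`.
* `level_close`: `complete_close` with `W = leg T k f m`, `R = 2/6^k`: for `e ∈ W`: `lf e ∈ child (m+2)`, `rf e ∈ child (m+1)`. Choose `e1 ∈ leg (m+1)`, `e2 ∈ leg (m+2)` by `leg_avg`: as in `osc` (second case, with `g = lf e`, `g' = rf e`): `Δ_e = (x (lf e) - x (rf e1)) - Δ_{e1} + (x (lf e1) - x (rf e2)) - Δ_{e2} + (x (lf e2) - x (rf e))`;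
  the five squares are bounded by `ρ1 EnS (child (m+2))`, `1/(2*6^k) EnE (leg (m+1))`, `ρ1 EnS (child m)`, `1/(2*6^k) EnE (leg (m+2))`, `ρ1 EnS (child (m+1))`; total factor `3 ρ1 + 1/6^k = 2/6^k` and total energy `≤ En T r' x` (legs `m+1`, `m+2` have `r' = r`). Then `R * ∑_W r = 4`.
-/

namespace MP0e5907

open Finset

variable {N F : Type} [Fintype N] [Fintype F]

private theorem sum3 (g : Fin 3 → ℝ) (m : Fin 3) : ∑ i, g i = g m + g (m + 1) + g (m + 2) := by
  rw [Fin.sum_univ_three]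
  have h : ∀ m : Fin 3, (m = 0 ∧ m + 1 = 1 ∧ m + 2 = 2) ∨ (m = 1 ∧ m + 1 = 2 ∧ m + 2 = 0) ∨
      (m = 2 ∧ m + 1 = 0 ∧ m + 2 = 1) := by decide
  rcases h m with ⟨h1, h2, h3⟩ | ⟨h1, h2, h3⟩ | ⟨h1, h2, h3⟩
  · rw [h2, h3, h1]
  · rw [h2, h3, h1]
    ring
  · rw [h2, h3, h1]
    ring

open Classical in
/-- the energies of the children and of the legs `j ∈ J` are part of the energy of `r'` outside `W` -/
private theorem energy_le (T : STri N F) (r : N × Fin 3 → ℝ) (f : F) (k : ℕ) (r' : N × Fin 3 → ℝ)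
    (hr' : ∀ e, 0 ≤ r' e)
    (hint : ∀ e, T.lf e ∈ cl T k f → T.rf e ∈ cl T k f →
      T.reg (hub T (cl T k f)) (T.lf e) = T.reg (hub T (cl T k f)) (T.rf e) → r' e = r e)
    (J : Finset (Fin 3)) (hJ : ∀ j ∈ J, ∀ e ∈ leg T k f j, r' e = r e) (W : Finset (N × Fin 3))
    (hW : ∀ e ∈ W, ∃ m, m ∉ J ∧ e ∈ leg T k f m) (x : F → ℝ) :
    ∑ i, EnS T r (child T k f i) x + ∑ j ∈ J, EnE T r (leg T k f j) x ≤
      En T (setOn W (fun _ => 0) r') x := by
  have h1 : ∀ i, EnS T r (child T k f i) x = ∑ e, if T.lf e ∈ child T k f i ∧ T.rf e ∈ child T k f i then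
      r e * (x (T.lf e) - x (T.rf e)) ^ 2 else 0 := by
    intro i
    unfold EnS
    rw [Finset.sum_filter]
  have h2 : ∀ j, EnE T r (leg T k f j) x = ∑ e, if e ∈ leg T k f j then
      r e * (x (T.lf e) - x (T.rf e)) ^ 2 else 0 := by
    intro j
    unfold EnE
    rw [← Finset.sum_filter, Finset.filter_mem_eq_inter, Finset.univ_inter]
  rw [Finset.sum_congr rfl (fun i _ => h1 i), Finset.sum_congr rfl (fun j _ => h2 j),
    Finset.sum_comm, Finset.sum_comm (s := J), ← Finset.sum_add_distrib]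
  unfold En
  refine Finset.sum_le_sum fun e _ => ?_
  set q : ℝ := (x (T.lf e) - x (T.rf e)) ^ 2 with hq
  have hq0 : 0 ≤ q := sq_nonneg _
  by_cases hA : T.lf e ∈ cl T k f ∧ T.rf e ∈ cl T k f ∧
      T.reg (hub T (cl T k f)) (T.lf e) = T.reg (hub T (cl T k f)) (T.rf e)
  · obtain ⟨a1, a2, a3⟩ := hA
    have hno : ∀ j, e ∉ leg T k f j := fun j hj => ((mem_leg T k f j e).1 hj).2.2.2 a3
    have h3 : (∑ j ∈ J, if e ∈ leg T k f j then r e * q else 0) = 0 :=
      Finset.sum_eq_zero fun j _ => if_neg (hno j)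
    have h4 : (∑ i, if T.lf e ∈ child T k f i ∧ T.rf e ∈ child T k f i then r e * q else 0) = r e * q := by
      rw [Finset.sum_eq_single (T.reg (hub T (cl T k f)) (T.lf e))]
      · rw [if_pos]
        exact ⟨(mem_child T k f _ _).2 ⟨a1, rfl⟩, (mem_child T k f _ _).2 ⟨a2, a3.symm⟩⟩
      · intro i _ hi
        rw [if_neg]
        rintro ⟨h5, _⟩
        exact hi ((mem_child T k f _ _).1 h5).2.symm
      · intro h5
        exact absurd (Finset.mem_univ _) h5
    have h5 : e ∉ W := by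
      intro h6
      obtain ⟨m, _, h7⟩ := hW e h6
      exact hno m h7
    rw [h3, h4, setOn_notMem h5, hint e a1 a2 a3, add_zero]
  · have h4 : (∑ i, if T.lf e ∈ child T k f i ∧ T.rf e ∈ child T k f i then r e * q else 0) = 0 := by
      refine Finset.sum_eq_zero fun i _ => if_neg ?_
      rintro ⟨h5, h6⟩
      have h7 := (mem_child T k f _ _).1 h5
      have h8 := (mem_child T k f _ _).1 h6
      exact hA ⟨h7.1, h8.1, h7.2.trans h8.2.symm⟩
    rw [h4, zero_add]
    by_cases hL : e.2 ∈ J ∧ e ∈ leg T k f e.2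
    · have h5 : e ∉ W := by
        intro h6
        obtain ⟨m, h7, h8⟩ := hW e h6
        have h9 := ((mem_leg T k f m e).1 h8).1
        rw [← h9] at h7
        exact h7 hL.1
      have h3 : (∑ j ∈ J, if e ∈ leg T k f j then r e * q else 0) = r e * q := by
        rw [Finset.sum_eq_single e.2]
        · rw [if_pos hL.2]
        · intro j _ hj
          rw [if_neg]
          intro h6
          exact hj ((mem_leg T k f j e).1 h6).1.symm
        · intro h6
          exact absurd hL.1 h6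
      rw [h3, setOn_notMem h5, hJ e.2 hL.1 e hL.2]
    · have h3 : (∑ j ∈ J, if e ∈ leg T k f j then r e * q else 0) = 0 := by
        refine Finset.sum_eq_zero fun j hj => if_neg ?_
        intro h6
        have h7 := ((mem_leg T k f j e).1 h6).1
        rw [← h7] at hj h6
        exact hL ⟨hj, h6⟩
      rw [h3]
      exact mul_nonneg (setOn_nonneg (fun _ => le_rfl) hr' e) hq0

theorem level_leg (T : STri N F) (hT : STriP T) (t : ℕ) (ht : 5 ^ t * Fintype.card F < 2 * 6 ^ t)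
    (r : N × Fin 3 → ℝ) (hr : GoodW T t r) (f : F) (k : ℕ) (hk : k < t) (r' : N × Fin 3 → ℝ) (hr' : ∀ e, 0 ≤ r' e)
    (hint : ∀ e, T.lf e ∈ cl T k f → T.rf e ∈ cl T k f →
      T.reg (hub T (cl T k f)) (T.lf e) = T.reg (hub T (cl T k f)) (T.rf e) → r' e = r e)
    (m : Fin 3) (y : N × Fin 3) (hy : y ∈ leg T k f m) (hy' : r' y = r y)
    (hW : ∀ e ∈ leg T k f m, e ≠ y → r' e = 0) :
    r y / (2 * 6 ^ k) * Zd T (setOn (leg T k f m) r r') ≤ Real.exp (4 / 3) * Zd T r' := by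
  have hr0 : ∀ e, 0 ≤ r e := fun e => (hr.pos e).le
  have h6 : (0 : ℝ) < 6 ^ k := by positivity
  have hρ1 : (0 : ℝ) ≤ 2 / 6 ^ (k + 1) := by positivity
  have key := complete_leg T r r' hr0 hr' (leg T k f m) y hy hy' (hr.pos y) hW
    (2 / 6 ^ (k + 1) + 2 / 6 ^ (k + 1)) (by positivity) (by
      intro e he a ha x
      have he1 := leg_child T he
      have ha1 := leg_child T ha
      have o1 := osc_child T hT t ht r hr k hk f (m + 2) (T.lf e) (T.lf a) he1.1 ha1.1 x
      have o2 := osc_child T hT t ht r hr k hk f (m + 1) (T.rf a) (T.rf e) ha1.2 he1.2 x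
      have n0 := ens_nonneg T r hr0 (child T k f m) x
      have n1 := ens_nonneg T r hr0 (child T k f (m + 1)) x
      have n2 := ens_nonneg T r hr0 (child T k f (m + 2)) x
      have o3 := titu2 _ _ _ _ _ _ hρ1 hρ1 n2 n1 o1 o2
      have o4 := energy_le T r f k r' hr' hint ∅ (fun j hj => absurd hj (Finset.notMem_empty j))
        (leg T k f m) (fun e he => ⟨m, Finset.notMem_empty m, he⟩) x
      rw [Finset.sum_empty, add_zero, sum3 _ m] at o4
      have o5 : (x (T.lf e) - x (T.rf e)) - (x (T.lf a) - x (T.rf a)) =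
          (x (T.lf e) - x (T.lf a)) + (x (T.rf a) - x (T.rf e)) := by ring
      rw [o5]
      refine o3.trans (mul_le_mul_of_nonneg_left ?_ (by positivity))
      linarith)
  rw [hr.tot k hk f m ⟨y, hy⟩] at key
  have e1 : ((2 : ℝ) / 6 ^ (k + 1) + 2 / 6 ^ (k + 1)) * (2 * 6 ^ k) = 4 / 3 := by
    rw [pow_succ]
    field_simp
    norm_num
  rw [e1] at key
  have e2 : r y / (2 * 6 ^ k) * Zd T (setOn (leg T k f m) r r') =
      (r y * Zd T (setOn (leg T k f m) r r')) / (2 * 6 ^ k) := by ring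
  rw [e2, div_le_iff₀ (by positivity)]
  calc r y * Zd T (setOn (leg T k f m) r r') ≤ 2 * 6 ^ k * Real.exp (4 / 3) * Zd T r' := key
    _ = Real.exp (4 / 3) * Zd T r' * (2 * 6 ^ k) := by ring

private theorem titu5' (p1 p2 p3 p4 p5 a b P1 P2 P3 P4 P5 : ℝ) (ha : 0 ≤ a) (hb : 0 ≤ b)
    (hP1 : 0 ≤ P1) (hP2 : 0 ≤ P2) (hP3 : 0 ≤ P3) (hP4 : 0 ≤ P4) (hP5 : 0 ≤ P5)
    (h1 : p1 ^ 2 ≤ a * P1) (h2 : p2 ^ 2 ≤ b * P2) (h3 : p3 ^ 2 ≤ a * P3) (h4 : p4 ^ 2 ≤ b * P4)
    (h5 : p5 ^ 2 ≤ a * P5) :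
    (p1 + p2 + p3 + p4 + p5) ^ 2 ≤ (a + b + a + b + a) * (P1 + P2 + P3 + P4 + P5) := by
  have k2 := titu2 p1 p2 a b P1 P2 ha hb hP1 hP2 h1 h2
  have k3 := titu2 (p1 + p2) p3 (a + b) a (P1 + P2) P3 (by positivity) ha (by positivity) hP3 k2 h3
  have k4 := titu2 (p1 + p2 + p3) p4 (a + b + a) b (P1 + P2 + P3) P4 (by positivity) hb (by positivity)
    hP4 k3 h4
  exact titu2 (p1 + p2 + p3 + p4) p5 (a + b + a + b) a (P1 + P2 + P3 + P4) P5 (by positivity) ha
    (by positivity) hP5 k4 h5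

theorem level_close (T : STri N F) (hT : STriP T) (t : ℕ) (ht : 5 ^ t * Fintype.card F < 2 * 6 ^ t)
    (r : N × Fin 3 → ℝ) (hr : GoodW T t r) (f : F) (k : ℕ) (hk : k < t) (r' : N × Fin 3 → ℝ) (hr' : ∀ e, 0 ≤ r' e)
    (hint : ∀ e, T.lf e ∈ cl T k f → T.rf e ∈ cl T k f →
      T.reg (hub T (cl T k f)) (T.lf e) = T.reg (hub T (cl T k f)) (T.rf e) → r' e = r e)
    (m : Fin 3) (hW : ∀ e ∈ leg T k f m, r' e = 0)
    (h1 : ∀ e ∈ leg T k f (m + 1), r' e = r e) (h2 : ∀ e ∈ leg T k f (m + 2), r' e = r e)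
    (n1 : (leg T k f (m + 1)).Nonempty) (n2 : (leg T k f (m + 2)).Nonempty) :
    Zd T (setOn (leg T k f m) r r') ≤ Real.exp 4 * Zd T r' := by
  classical
  have hr0 : ∀ e, 0 ≤ r e := fun e => (hr.pos e).le
  have h6 : (0 : ℝ) < 6 ^ k := by positivity
  have hρ1 : (0 : ℝ) ≤ 2 / 6 ^ (k + 1) := by positivity
  have hρ2 : (0 : ℝ) ≤ 1 / (2 * 6 ^ k) := by positivity
  have a1 : ∀ m : Fin 3, m + 1 + 2 = m := by decide
  have a2 : ∀ m : Fin 3, m + 1 + 1 = m + 2 := by decide
  have a3 : ∀ m : Fin 3, m + 2 + 2 = m + 1 := by decide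
  have a4 : ∀ m : Fin 3, m + 2 + 1 = m := by decide
  have a5 : ∀ m : Fin 3, m + 1 ≠ m + 2 := by decide
  have key := complete_close T r r' hr0 hr' (leg T k f m) hW (2 / 6 ^ k) (by positivity) (by
      intro e he x
      have he1 := leg_child T he
      obtain ⟨e1, l1, s1⟩ := leg_avg T t r hr k hk f (m + 1) n1 x
      obtain ⟨e2, l2, s2⟩ := leg_avg T t r hr k hk f (m + 2) n2 x
      have c1 := leg_child T l1
      have c2 := leg_child T l2
      rw [a1, a2] at c1
      rw [a3, a4] at c2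
      have o1 := osc_child T hT t ht r hr k hk f (m + 2) (T.lf e) (T.rf e1) he1.1 c1.2 x
      have o3 := osc_child T hT t ht r hr k hk f m (T.lf e1) (T.rf e2) c1.1 c2.2 x
      have o5 := osc_child T hT t ht r hr k hk f (m + 1) (T.lf e2) (T.rf e) c2.1 he1.2 x
      have o2 : (x (T.rf e1) - x (T.lf e1)) ^ 2 ≤ 1 / (2 * 6 ^ k) * EnE T r (leg T k f (m + 1)) x := by
        have : (x (T.rf e1) - x (T.lf e1)) ^ 2 = (x (T.lf e1) - x (T.rf e1)) ^ 2 := by ring
        rw [this]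
        exact s1
      have o4 : (x (T.rf e2) - x (T.lf e2)) ^ 2 ≤ 1 / (2 * 6 ^ k) * EnE T r (leg T k f (m + 2)) x := by
        have : (x (T.rf e2) - x (T.lf e2)) ^ 2 = (x (T.lf e2) - x (T.rf e2)) ^ 2 := by ring
        rw [this]
        exact s2
      have m0 := ens_nonneg T r hr0 (child T k f m) x
      have m1 := ens_nonneg T r hr0 (child T k f (m + 1)) x
      have m2 := ens_nonneg T r hr0 (child T k f (m + 2)) x
      have g1 : 0 ≤ EnE T r (leg T k f (m + 1)) x :=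
        Finset.sum_nonneg fun e _ => mul_nonneg (hr0 e) (sq_nonneg _)
      have g2 : 0 ≤ EnE T r (leg T k f (m + 2)) x :=
        Finset.sum_nonneg fun e _ => mul_nonneg (hr0 e) (sq_nonneg _)
      have o6 := titu5' _ _ _ _ _ _ _ _ _ _ _ _ hρ1 hρ2 m2 g1 m0 g2 m1 o1 o2 o3 o4 o5
      have o7 := energy_le T r f k r' hr' hint {m + 1, m + 2} (by
          intro j hj e he
          rw [Finset.mem_insert, Finset.mem_singleton] at hj
          rcases hj with rfl | rfl
          · exact h1 e he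
          · exact h2 e he)
        ∅ (fun e he => absurd he (Finset.notMem_empty e)) x
      rw [sum3 _ m, Finset.sum_pair (a5 m)] at o7
      have o8 : setOn ∅ (fun _ => 0) r' = r' := by
        funext a
        exact setOn_notMem (Finset.notMem_empty a)
      rw [o8] at o7
      have o9 : x (T.lf e) - x (T.rf e) = (x (T.lf e) - x (T.rf e1)) + (x (T.rf e1) - x (T.lf e1)) +
          (x (T.lf e1) - x (T.rf e2)) + (x (T.rf e2) - x (T.lf e2)) + (x (T.lf e2) - x (T.rf e)) := by ring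
      rw [o9]
      have o10 : (2 : ℝ) / 6 ^ (k + 1) + 1 / (2 * 6 ^ k) + 2 / 6 ^ (k + 1) + 1 / (2 * 6 ^ k) +
          2 / 6 ^ (k + 1) = 2 / 6 ^ k := by
        rw [pow_succ]
        field_simp
        norm_num
      rw [o10] at o6
      refine o6.trans (mul_le_mul_of_nonneg_left ?_ (by positivity))
      linarith)
  have hsum : 2 / 6 ^ k * ∑ e ∈ leg T k f m, r e ≤ 4 := by
    by_cases hne : (leg T k f m).Nonempty
    · rw [hr.tot k hk f m hne]
      have : (2 : ℝ) / 6 ^ k * (2 * 6 ^ k) = 4 := by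
        field_simp
        norm_num
      rw [this]
    · rw [Finset.not_nonempty_iff_eq_empty.1 hne, Finset.sum_empty, mul_zero]
      norm_num
  have hZ : 0 ≤ Real.exp 4 * Zd T r' - Real.exp (2 / 6 ^ k * ∑ e ∈ leg T k f m, r e) * Zd T r' := by
    have h7 : Real.exp (2 / 6 ^ k * ∑ e ∈ leg T k f m, r e) ≤ Real.exp 4 := Real.exp_le_exp.2 hsum
    have h8 : 0 ≤ Zd T r' := Zd_nonneg T r' hr'
    nlinarith
  linarith

end MP0e5907
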