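import Pool.Agent.Lib_MP_0e5907.QLevel

/-!
# Piece QLEVELB: one level, all levels

Paper proof. `R_k = rY T t f r Y k`. Recall `InT T t f k e ↔ ∃ k' < k, e ∈ leg T k' f e.2` (`inT_iff`), and a leg edge of `cl T k f` has level `k` (`leg_lev`).
* `level_one`: let `r' ≥ 0` satisfy `hint` (of `level_leg`), `r' = r` on `leg m ∩ Y`, `r' = 0` on `leg m \ Y`, and let `leg m ∩ Y` have at most one element, and nonempty if `leg m` is nonempty. Then `(∏_{e ∈ leg m ∩ Y} r e/(2*6^k)) * Zd T (setOn (leg m) r r') ≤ exp (4/3) * Zd T r'`: if `leg m` is empty both products are trivial (`setOn ∅ r r' = r'`, `1 ≤ exp (4/3)`, `Zd_nonneg`); otherwise `leg m ∩ Y = {y}` and `level_leg`.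
* `level_step`: `R_(k+1)` satisfies `hint` (an edge inside a child of `cl T k f` is in no leg of depth `≤ k` of `f`: its faces have the same cluster of depth `k+1`, while a leg edge of depth `k'≤ k` has level `k'`, use `inT_iff`, `leg_lev`; the property `hint` is kept by `setOn (leg ..)`), it is `0` on `leg m \ Y`, and `r` on `leg m ∩ Y`. `R_k` is obtained from `R_(k+1)` by setting all three legs to `r`
  (`InT (k+1) e ↔ InT k e ∨ e ∈ leg T k f e.2`; the two are exclusive).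
  Case A: every nonempty leg meets `Y`: apply `level_one` for the legs `0, 1, 2` one after the other: `R_(k+1) → setOn (leg 0) → setOn (leg 1) → setOn (leg 2) = R_k`. The product of the three inequalities gives the factor `exp (4/3)^3 = exp 4 ≤ exp (20/3)` (the products `∏_{leg m ∩ Y} r/(2*6^k)` are `≥ 0`).
  Case B: a leg `m0` is nonempty and does not meet `Y`. By `hY2` the legs `m0+1`, `m0+2` meet `Y` (so are nonempty): `level_one` for `m0+1`, then for `m0+2`, then `level_close` for `m0`: factor `exp (4/3)^2 * exp 4 = exp (20/3)`; `∏_{leg m0 ∩ Y} = 1`.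
* `levels_all`: induction: `(∏_{k' < k} P_k') * Zd T (R_0) ≤ exp (20/3)^k * Zd T (R_k)` for `k ≤ t`, where `P_k' ≥ 0`; `R_0 = r`.
-/

namespace MP0e5907

open Finset

variable {N F : Type} [Fintype N] [Fintype F]

private theorem qlb_chain {p0 p1 p2 z0 z1 z2 z3 c1 c2 c3 : ℝ} (hp1 : 0 ≤ p1) (hp2 : 0 ≤ p2)
    (hc2 : 0 ≤ c2) (hc3 : 0 ≤ c3) (h1 : p1 * z1 ≤ c1 * z0) (h2 : p2 * z2 ≤ c2 * z1)
    (h3 : p0 * z3 ≤ c3 * z2) : p0 * p1 * p2 * z3 ≤ c1 * c2 * c3 * z0 := by
  calc p0 * p1 * p2 * z3 = (p1 * p2) * (p0 * z3) := by ring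
    _ ≤ (p1 * p2) * (c3 * z2) := mul_le_mul_of_nonneg_left h3 (mul_nonneg hp1 hp2)
    _ = (c3 * p1) * (p2 * z2) := by ring
    _ ≤ (c3 * p1) * (c2 * z1) := mul_le_mul_of_nonneg_left h2 (mul_nonneg hc3 hp1)
    _ = (c2 * c3) * (p1 * z1) := by ring
    _ ≤ (c2 * c3) * (c1 * z0) := mul_le_mul_of_nonneg_left h1 (mul_nonneg hc2 hc3)
    _ = c1 * c2 * c3 * z0 := by ring

private theorem qlb_prod (g : Fin 3 → ℝ) (m : Fin 3) :
    ∏ i, g i = g m * g (m + 1) * g (m + 2) := by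
  rw [Fin.prod_univ_three]
  fin_cases m
  · rfl
  · change g 0 * g 1 * g 2 = g 1 * g 2 * g 0
    ring
  · change g 0 * g 1 * g 2 = g 2 * g 0 * g 1
    ring

private theorem qlb_fin : ∀ m i : Fin 3, i = m ∨ i = m + 1 ∨ i = m + 2 := by decide

private theorem qlb_ne1 : ∀ m : Fin 3, m ≠ m + 1 := by decide

private theorem qlb_ne2 : ∀ m : Fin 3, m ≠ m + 2 := by decide

private theorem qlb_ne3 : ∀ m : Fin 3, m + 2 ≠ m + 1 := by decide

private theorem qlb_disj (T : STri N F) {k : ℕ} {f : F} {m m' : Fin 3} {e : N × Fin 3}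
    (h : e ∈ leg T k f m) (hm : m ≠ m') : e ∉ leg T k f m' := fun h' =>
  hm (((mem_leg T k f m e).1 h).1.symm.trans ((mem_leg T k f m' e).1 h').1)

omit [Fintype N] in
private theorem qlb_setOn {W : Finset (N × Fin 3)} {r r' : N × Fin 3 → ℝ} {e : N × Fin 3}
    (h : r' e = r e) : setOn W r r' e = r e := by
  by_cases h1 : e ∈ W
  · exact setOn_mem h1
  · rw [setOn_notMem h1, h]

open Classical in
private theorem qlb_one (T : STri N F) (hT : STriP T) (t : ℕ) (ht : 5 ^ t * Fintype.card F < 2 * 6 ^ t)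
    (r : N × Fin 3 → ℝ) (hr : GoodW T t r) (f : F) (k : ℕ) (hk : k < t) (Y : Finset (N × Fin 3))
    (r' : N × Fin 3 → ℝ) (hr' : ∀ e, 0 ≤ r' e)
    (hint : ∀ e, T.lf e ∈ cl T k f → T.rf e ∈ cl T k f →
      T.reg (hub T (cl T k f)) (T.lf e) = T.reg (hub T (cl T k f)) (T.rf e) → r' e = r e)
    (m : Fin 3) (hY1 : (leg T k f m ∩ Y).card ≤ 1)
    (hY2 : (leg T k f m).Nonempty → (leg T k f m ∩ Y).Nonempty)
    (h1 : ∀ e ∈ leg T k f m, e ∈ Y → r' e = r e) (h0 : ∀ e ∈ leg T k f m, e ∉ Y → r' e = 0) :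
    (∏ e ∈ leg T k f m ∩ Y, r e / (2 * 6 ^ k)) * Zd T (setOn (leg T k f m) r r') ≤
      Real.exp (4 / 3) * Zd T r' := by
  have hexp : (1 : ℝ) ≤ Real.exp (4 / 3) := Real.one_le_exp (by norm_num)
  rcases (leg T k f m).eq_empty_or_nonempty with he | hne
  · have h2 : setOn (leg T k f m) r r' = r' := by
      funext e
      exact setOn_notMem (by rw [he]; exact Finset.notMem_empty e)
    rw [h2, he, Finset.empty_inter, Finset.prod_empty, one_mul]
    exact le_mul_of_one_le_left (Zd_nonneg T r' hr') hexp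
  · obtain ⟨y, hy⟩ := hY2 hne
    have hyl := Finset.mem_of_mem_inter_left hy
    have hyY := Finset.mem_of_mem_inter_right hy
    have h2 : leg T k f m ∩ Y = {y} := by
      refine Finset.eq_singleton_iff_unique_mem.2 ⟨hy, fun z hz => ?_⟩
      exact Finset.card_le_one.1 hY1 z hz y hy
    rw [h2, Finset.prod_singleton]
    refine level_leg T hT t ht r hr f k hk r' hr' hint m y hyl (h1 y hyl hyY) fun e he hey => ?_
    refine h0 e he fun heY => hey ?_
    have h3 : e ∈ leg T k f m ∩ Y := Finset.mem_inter.2 ⟨he, heY⟩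
    rw [h2] at h3
    exact Finset.mem_singleton.1 h3

omit [Fintype N] in
private theorem qlb_rY_nonneg (T : STri N F) (t : ℕ) (f : F) (r : N × Fin 3 → ℝ)
    (hr : ∀ e, 0 ≤ r e) (Y : Finset (N × Fin 3)) (k : ℕ) (e : N × Fin 3) :
    0 ≤ rY T t f r Y k e := by
  unfold rY
  split_ifs
  · exact le_rfl
  · exact hr e

private theorem qlb_rY_hint (T : STri N F) {t : ℕ} (f : F) (r : N × Fin 3 → ℝ)
    (Y : Finset (N × Fin 3)) {k : ℕ} (hk : k < t) (e : N × Fin 3) (h1 : T.lf e ∈ cl T k f)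
    (h2 : T.rf e ∈ cl T k f)
    (h3 : T.reg (hub T (cl T k f)) (T.lf e) = T.reg (hub T (cl T k f)) (T.rf e)) :
    rY T t f r Y (k + 1) e = r e := by
  unfold rY
  rw [if_neg]
  rintro ⟨h4, -⟩
  obtain ⟨k', h5, h6⟩ := (inT_iff T (show k + 1 ≤ t by omega) f e).1 h4
  have h7 := ((mem_leg T k' f _ e).1 h6).2.2.2
  rcases Nat.lt_succ_iff_lt_or_eq.1 h5 with h8 | h8
  · have h9 := cl_anti T (show k' + 1 ≤ k by omega) f h1
    have h10 := cl_anti T (show k' + 1 ≤ k by omega) f h2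
    rw [mem_cl_succ] at h9 h10
    exact h7 (h9.2.trans h10.2.symm)
  · rw [h8] at h7
    exact h7 h3

omit [Fintype N] in
private theorem qlb_rY_Y (T : STri N F) (t : ℕ) (f : F) (r : N × Fin 3 → ℝ)
    (Y : Finset (N × Fin 3)) (k : ℕ) (e : N × Fin 3) (he : e ∈ Y) : rY T t f r Y k e = r e := by
  unfold rY
  rw [if_neg]
  rintro ⟨-, h⟩
  exact h he

private theorem qlb_rY_leg (T : STri N F) {t : ℕ} (f : F) (r : N × Fin 3 → ℝ)
    (Y : Finset (N × Fin 3)) {k : ℕ} (hk : k < t) (m : Fin 3) (e : N × Fin 3)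
    (h : e ∈ leg T k f m) (he : e ∉ Y) : rY T t f r Y (k + 1) e = 0 := by
  unfold rY
  rw [if_pos]
  refine ⟨(inT_iff T (show k + 1 ≤ t by omega) f e).2 ⟨k, by omega, ?_⟩, he⟩
  rw [((mem_leg T k f m e).1 h).1]
  exact h

private theorem qlb_rY_eq (T : STri N F) {t : ℕ} (f : F) (r : N × Fin 3 → ℝ)
    (Y : Finset (N × Fin 3)) {k : ℕ} (hk : k < t) (m : Fin 3) :
    setOn (leg T k f m) r (setOn (leg T k f (m + 2)) r (setOn (leg T k f (m + 1)) r
      (rY T t f r Y (k + 1)))) = rY T t f r Y k := by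
  funext e
  by_cases h : e ∈ leg T k f e.2
  · have h1 : rY T t f r Y k e = r e := by
      unfold rY
      rw [if_neg]
      rintro ⟨h4, -⟩
      obtain ⟨k', h5, h6⟩ := (inT_iff T hk.le f e).1 h4
      have h7 := leg_lev T (lt_trans h5 hk) h6
      have h8 := leg_lev T hk h
      omega
    rw [h1]
    rcases qlb_fin m e.2 with h2 | h2 | h2
    · rw [h2] at h
      exact setOn_mem h
    · rw [h2] at h
      exact qlb_setOn (qlb_setOn (setOn_mem h))
    · rw [h2] at h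
      exact qlb_setOn (setOn_mem h)
  · have h1 : ∀ i, e ∉ leg T k f i := by
      intro i hi
      apply h
      rw [((mem_leg T k f i e).1 hi).1]
      exact hi
    rw [setOn_notMem (h1 _), setOn_notMem (h1 _), setOn_notMem (h1 _)]
    have h2 : InT T t f (k + 1) e ↔ InT T t f k e := by
      rw [inT_iff T (show k + 1 ≤ t by omega), inT_iff T hk.le]
      constructor
      · rintro ⟨k', h5, h6⟩
        rcases Nat.lt_succ_iff_lt_or_eq.1 h5 with h8 | h8
        · exact ⟨k', h8, h6⟩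
        · rw [h8] at h6
          exact absurd h6 (h1 _)
      · rintro ⟨k', h5, h6⟩
        exact ⟨k', by omega, h6⟩
    unfold rY
    by_cases h3 : InT T t f k e ∧ e ∉ Y
    · rw [if_pos h3, if_pos ⟨h2.2 h3.1, h3.2⟩]
    · rw [if_neg h3, if_neg (fun h4 => h3 ⟨h2.1 h4.1, h4.2⟩)]

open Classical in
theorem level_step (T : STri N F) (hT : STriP T) (t : ℕ) (ht : 5 ^ t * Fintype.card F < 2 * 6 ^ t)
    (r : N × Fin 3 → ℝ) (hr : GoodW T t r) (f : F) (k : ℕ) (hk : k < t) (Y : Finset (N × Fin 3))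
    (hY1 : ∀ m, (leg T k f m ∩ Y).card ≤ 1)
    (hY2 : ∀ m, (leg T k f m).Nonempty → leg T k f m ∩ Y = ∅ →
      (leg T k f (m + 1) ∩ Y).Nonempty ∧ (leg T k f (m + 2) ∩ Y).Nonempty) :
    (∏ m, ∏ e ∈ leg T k f m ∩ Y, r e / (2 * 6 ^ k)) * Zd T (rY T t f r Y k) ≤
      Real.exp (20 / 3) * Zd T (rY T t f r Y (k + 1)) := by
  have hr0 : ∀ e, 0 ≤ r e := fun e => (hr.pos e).le
  obtain ⟨R, hR⟩ : ∃ R, R = rY T t f r Y (k + 1) := ⟨_, rfl⟩
  have hRn : ∀ e, 0 ≤ R e := by
    rw [hR]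
    exact qlb_rY_nonneg T t f r hr0 Y (k + 1)
  have hRh : ∀ e, T.lf e ∈ cl T k f → T.rf e ∈ cl T k f →
      T.reg (hub T (cl T k f)) (T.lf e) = T.reg (hub T (cl T k f)) (T.rf e) → R e = r e := by
    rw [hR]
    exact fun e h1 h2 h3 => qlb_rY_hint T f r Y hk e h1 h2 h3
  have hRY : ∀ e, e ∈ Y → R e = r e := by
    rw [hR]
    exact fun e => qlb_rY_Y T t f r Y (k + 1) e
  have hR0 : ∀ m, ∀ e ∈ leg T k f m, e ∉ Y → R e = 0 := by
    rw [hR]
    exact fun m e h1 h2 => qlb_rY_leg T f r Y hk m e h1 h2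
  have hP : ∀ m, 0 ≤ ∏ e ∈ leg T k f m ∩ Y, r e / (2 * 6 ^ k) := fun m =>
    Finset.prod_nonneg fun e _ => div_nonneg (hr0 e) (by positivity)
  -- the first two legs
  have main : ∀ m : Fin 3,
      ((leg T k f (m + 1)).Nonempty → (leg T k f (m + 1) ∩ Y).Nonempty) →
      ((leg T k f (m + 2)).Nonempty → (leg T k f (m + 2) ∩ Y).Nonempty) →
      (∀ c : ℝ, 0 ≤ c → (∏ e ∈ leg T k f m ∩ Y, r e / (2 * 6 ^ k)) *
        Zd T (setOn (leg T k f m) r (setOn (leg T k f (m + 2)) r (setOn (leg T k f (m + 1)) r R))) ≤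
        c * Zd T (setOn (leg T k f (m + 2)) r (setOn (leg T k f (m + 1)) r R)) →
        (∏ m, ∏ e ∈ leg T k f m ∩ Y, r e / (2 * 6 ^ k)) * Zd T (rY T t f r Y k) ≤
          Real.exp (4 / 3) * Real.exp (4 / 3) * c * Zd T R) := by
    intro m hm1 hm2 c hc h3
    have h1 := qlb_one T hT t ht r hr f k hk Y R hRn hRh (m + 1) (hY1 _) hm1
      (fun e _ he => hRY e he) (hR0 (m + 1))
    have h2 := qlb_one T hT t ht r hr f k hk Y (setOn (leg T k f (m + 1)) r R)
      (setOn_nonneg hr0 hRn) (fun e e1 e2 e3 => qlb_setOn (hRh e e1 e2 e3)) (m + 2) (hY1 _) hm2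
      (fun e _ he => qlb_setOn (hRY e he)) (fun e he1 he2 => by
        rw [setOn_notMem (qlb_disj T he1 (qlb_ne3 m))]
        exact hR0 _ e he1 he2)
    have h4 := qlb_chain (hP (m + 1)) (hP (m + 2)) (Real.exp_pos (4 / 3)).le hc h1 h2 h3
    rw [hR, qlb_rY_eq T f r Y hk m, ← hR] at h4
    rw [qlb_prod (fun m => ∏ e ∈ leg T k f m ∩ Y, r e / (2 * 6 ^ k)) m]
    exact h4
  have hZ : 0 ≤ Zd T R := Zd_nonneg T R hRn
  rw [← hR]
  by_cases hcase : ∃ m, (leg T k f m).Nonempty ∧ leg T k f m ∩ Y = ∅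
  · obtain ⟨m, hm1, hm2⟩ := hcase
    obtain ⟨n1, n2⟩ := hY2 m hm1 hm2
    have h5 := main m (fun _ => n1) (fun _ => n2) (Real.exp 4) (Real.exp_pos 4).le ?_
    · refine h5.trans (le_of_eq ?_)
      rw [← Real.exp_add, ← Real.exp_add]
      norm_num
    · rw [hm2, Finset.prod_empty, one_mul]
      refine level_close T hT t ht r hr f k hk _
        (setOn_nonneg hr0 (setOn_nonneg hr0 hRn))
        (fun e e1 e2 e3 => qlb_setOn (qlb_setOn (hRh e e1 e2 e3))) m ?_ ?_ ?_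
        (n1.mono Finset.inter_subset_left) (n2.mono Finset.inter_subset_left)
      · intro e he
        rw [setOn_notMem (qlb_disj T he (qlb_ne2 m)), setOn_notMem (qlb_disj T he (qlb_ne1 m))]
        refine hR0 m e he fun heY => ?_
        have h6 : e ∈ leg T k f m ∩ Y := Finset.mem_inter.2 ⟨he, heY⟩
        rw [hm2] at h6
        exact Finset.notMem_empty e h6
      · intro e he
        exact qlb_setOn (setOn_mem he)
      · intro e he
        exact setOn_mem he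
  · push Not at hcase
    have hall : ∀ m, (leg T k f m).Nonempty → (leg T k f m ∩ Y).Nonempty := fun m hm => by
      rcases (leg T k f m ∩ Y).eq_empty_or_nonempty with h | h
      · exact absurd h (hcase m hm).ne_empty
      · exact h
    have h5 := main 0 (hall _) (hall _) (Real.exp (4 / 3)) (Real.exp_pos _).le ?_
    · refine h5.trans ?_
      refine mul_le_mul_of_nonneg_right ?_ hZ
      rw [← Real.exp_add, ← Real.exp_add]
      exact Real.exp_le_exp.2 (by norm_num)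
    · refine qlb_one T hT t ht r hr f k hk Y _ (setOn_nonneg hr0 (setOn_nonneg hr0 hRn))
        (fun e e1 e2 e3 => qlb_setOn (qlb_setOn (hRh e e1 e2 e3))) 0 (hY1 _) (hall _)
        (fun e _ he => qlb_setOn (qlb_setOn (hRY e he))) (fun e he1 he2 => ?_)
      rw [setOn_notMem (qlb_disj T he1 (qlb_ne2 0)), setOn_notMem (qlb_disj T he1 (qlb_ne1 0))]
      exact hR0 _ e he1 he2

open Classical in
theorem levels_all (T : STri N F) (hT : STriP T) (t : ℕ) (ht : 5 ^ t * Fintype.card F < 2 * 6 ^ t)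
    (r : N × Fin 3 → ℝ) (hr : GoodW T t r) (f : F) (Y : Finset (N × Fin 3))
    (hY1 : ∀ k, k < t → ∀ m, (leg T k f m ∩ Y).card ≤ 1)
    (hY2 : ∀ k, k < t → ∀ m, (leg T k f m).Nonempty → leg T k f m ∩ Y = ∅ →
      (leg T k f (m + 1) ∩ Y).Nonempty ∧ (leg T k f (m + 2) ∩ Y).Nonempty) :
    (∏ k ∈ range t, ∏ m, ∏ e ∈ leg T k f m ∩ Y, r e / (2 * 6 ^ k)) * Zd T r ≤
      Real.exp (20 / 3) ^ t * Zd T (rY T t f r Y t) := by
  have hr0 : ∀ e, 0 ≤ r e := fun e => (hr.pos e).le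
  have h0 : rY T t f r Y 0 = r := by
    funext e
    unfold rY
    rw [if_neg]
    rintro ⟨h1, -⟩
    exact Nat.not_lt_zero _ h1.2
  have key : ∀ k, k ≤ t →
      (∏ k' ∈ range k, ∏ m, ∏ e ∈ leg T k' f m ∩ Y, r e / (2 * 6 ^ k')) * Zd T r ≤
        Real.exp (20 / 3) ^ k * Zd T (rY T t f r Y k) := by
    intro k
    induction k with
    | zero =>
      intro _
      rw [Finset.range_zero, Finset.prod_empty, pow_zero, h0]
    | succ k ih =>
      intro hk
      have h1 := ih (by omega)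
      have h2 := level_step T hT t ht r hr f k (by omega) Y (hY1 k (by omega)) (hY2 k (by omega))
      have hP : 0 ≤ ∏ m, ∏ e ∈ leg T k f m ∩ Y, r e / (2 * 6 ^ k) :=
        Finset.prod_nonneg fun m _ => Finset.prod_nonneg fun e _ =>
          div_nonneg (hr0 e) (by positivity)
      rw [Finset.prod_range_succ, pow_succ]
      calc (∏ k' ∈ range k, ∏ m, ∏ e ∈ leg T k' f m ∩ Y, r e / (2 * 6 ^ k')) *
            (∏ m, ∏ e ∈ leg T k f m ∩ Y, r e / (2 * 6 ^ k)) * Zd T r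
          = (∏ m, ∏ e ∈ leg T k f m ∩ Y, r e / (2 * 6 ^ k)) *
            ((∏ k' ∈ range k, ∏ m, ∏ e ∈ leg T k' f m ∩ Y, r e / (2 * 6 ^ k')) * Zd T r) := by
            ring
        _ ≤ (∏ m, ∏ e ∈ leg T k f m ∩ Y, r e / (2 * 6 ^ k)) *
            (Real.exp (20 / 3) ^ k * Zd T (rY T t f r Y k)) := mul_le_mul_of_nonneg_left h1 hP
        _ = Real.exp (20 / 3) ^ k * ((∏ m, ∏ e ∈ leg T k f m ∩ Y, r e / (2 * 6 ^ k)) *
            Zd T (rY T t f r Y k)) := by ring
        _ ≤ Real.exp (20 / 3) ^ k * (Real.exp (20 / 3) * Zd T (rY T t f r Y (k + 1))) :=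
            mul_le_mul_of_nonneg_left h2 (pow_nonneg (Real.exp_pos _).le k)
        _ = Real.exp (20 / 3) ^ k * Real.exp (20 / 3) * Zd T (rY T t f r Y (k + 1)) := by ring
  exact key t le_rfl

end MP0e5907
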