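import Mathlib

/-!
# Piece QNUMERIC: numerical estimates

Paper proof.
* `exp_num`: `(exp (20/3))^3 = exp 20 = (exp 1)^20 ≤ 2.7182818286^20 ≤ (170000/216)^3` (`Real.exp_one_lt_d9`), so `exp (20/3) ≤ 170000/216` (`pow_le_pow_left₀` / `lt_of_pow_lt_pow_left₀`).
* `numeric2`: let `t` be the least number with `5^t (2n+1) < 2 * 6^t` (exists since `(6/5)^t → ∞`; `Nat.find`), `t ≥ 1`. Then `2 * 6^(t-1) ≤ 5^(t-1) (2n+1)`, so `(6/5)^(t-1) ≤ n + 1/2 ≤ n + 3`. `9363600000000 ≤ (6/5)^164` (norm_num), so `9363600000000^(t-1) ≤ ((6/5)^(t-1))^164 ≤ (n+3)^164`.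
  So the left side is at most `960 * 9363600000000 * (n+3)^2 * (n+3)^164 ≤ (n+3)^200`, as `960 * 9363600000000 ≤ 4^34 ≤ (n+3)^34`.
-/

namespace MP0e5907

theorem exp_num : 216 * Real.exp (20 / 3) ≤ 170000 := by
  have h1 : Real.exp (20 / 3) ^ 3 = Real.exp 1 ^ 20 := by
    rw [← Real.exp_nat_mul, ← Real.exp_nat_mul]
    norm_num
  have h2 : Real.exp 1 ^ 20 ≤ (2.7182818286 : ℝ) ^ 20 :=
    pow_le_pow_left₀ (Real.exp_pos 1).le Real.exp_one_lt_d9.le 20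
  have h3 : (2.7182818286 : ℝ) ^ 20 < (170000 / 216) ^ 3 := by norm_num
  have h4 : Real.exp (20 / 3) ^ 3 < (170000 / 216 : ℝ) ^ 3 := by
    rw [h1]
    exact lt_of_le_of_lt h2 h3
  have h5 : Real.exp (20 / 3) < 170000 / 216 := lt_of_pow_lt_pow_left₀ 3 (by norm_num) h4
  rw [lt_div_iff₀ (by norm_num)] at h5
  linarith

theorem numeric2 (n : ℕ) (hn : 1 ≤ n) :
    ∃ t : ℕ, 5 ^ t * (2 * n + 1) < 2 * 6 ^ t ∧
      960 * ((n : ℝ) + 3) ^ 2 * (9363600000000 : ℝ) ^ t ≤ ((n : ℝ) + 3) ^ 200 := by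
  have hex : ∃ t : ℕ, 5 ^ t * (2 * n + 1) < 2 * 6 ^ t := by
    obtain ⟨t, ht⟩ := pow_unbounded_of_one_lt ((2 * (n : ℝ) + 1) / 2) (y := (6 / 5 : ℝ)) (by norm_num)
    refine ⟨t, ?_⟩
    rw [div_pow, div_lt_div_iff₀ (by norm_num) (by positivity)] at ht
    have h : (((5 ^ t * (2 * n + 1) : ℕ)) : ℝ) < ((2 * 6 ^ t : ℕ) : ℝ) := by
      push_cast
      linarith
    exact_mod_cast h
  classical
  have hspec := Nat.find_spec hex
  have hmin := fun m (hm : m < Nat.find hex) => Nat.find_min hex hm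
  obtain ⟨t, ht⟩ : ∃ t, t = Nat.find hex := ⟨_, rfl⟩
  rw [← ht] at hspec hmin
  refine ⟨t, hspec, ?_⟩
  have ht1 : 1 ≤ t := by
    rcases Nat.eq_zero_or_pos t with h | h
    · rw [h] at hspec
      simp only [pow_zero, one_mul, mul_one] at hspec
      omega
    · exact h
  obtain ⟨s, rfl⟩ : ∃ s, t = s + 1 := ⟨t - 1, by omega⟩
  have h1 : 2 * 6 ^ s ≤ 5 ^ s * (2 * n + 1) := not_lt.1 (hmin s (Nat.lt_succ_self s))
  have h2 : (2 : ℝ) * 6 ^ s ≤ 5 ^ s * (2 * n + 1) := by exact_mod_cast h1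
  have h5 : (0 : ℝ) < 5 ^ s := by positivity
  have h3 : (6 / 5 : ℝ) ^ s ≤ (n : ℝ) + 3 := by
    rw [div_pow, div_le_iff₀ h5]
    nlinarith [h2, h5]
  have h4 : (9363600000000 : ℝ) ≤ (6 / 5) ^ 164 := by norm_num
  have h6 : (9363600000000 : ℝ) ^ s ≤ ((n : ℝ) + 3) ^ 164 := by
    calc (9363600000000 : ℝ) ^ s ≤ ((6 / 5 : ℝ) ^ 164) ^ s := pow_le_pow_left₀ (by norm_num) h4 s
      _ = ((6 / 5 : ℝ) ^ s) ^ 164 := by rw [← pow_mul, ← pow_mul, mul_comm]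
      _ ≤ ((n : ℝ) + 3) ^ 164 := pow_le_pow_left₀ (by positivity) h3 164
  have hn3 : (4 : ℝ) ≤ (n : ℝ) + 3 := by
    have : (1 : ℝ) ≤ n := by exact_mod_cast hn
    linarith
  have h7 : (960 * 9363600000000 : ℝ) ≤ ((n : ℝ) + 3) ^ 34 :=
    le_trans (by norm_num) (pow_le_pow_left₀ (by norm_num) hn3 34)
  obtain ⟨X, hX⟩ : ∃ X : ℝ, X = (n : ℝ) + 3 := ⟨_, rfl⟩
  rw [← hX] at h6 h7 ⊢
  have hX0 : 0 ≤ X := by rw [hX]; positivity
  calc 960 * X ^ 2 * (9363600000000 : ℝ) ^ (s + 1)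
      = (960 * 9363600000000) * (X ^ 2 * (9363600000000 : ℝ) ^ s) := by
        rw [pow_succ (9363600000000 : ℝ) s]
        generalize (9363600000000 : ℝ) ^ s = Y
        ring
    _ ≤ X ^ 34 * (X ^ 2 * X ^ 164) := by
        refine mul_le_mul h7 (mul_le_mul_of_nonneg_left h6 (by positivity)) ?_ (by positivity)
        refine mul_nonneg (by positivity) ?_
        exact pow_nonneg (by norm_num) s
    _ = X ^ 200 := by rw [← pow_add, ← pow_add]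

end MP0e5907
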