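import Pool.Agent.Lib_MP_0e5907.QTree

/-!
# Piece QWEX: existence of the good conductances

Paper proof. For a nonempty leg `W = leg T k f m`, `k < t`, the set `A = W.image lf` of left faces lies in one cluster of depth `k+1` (all have hub region `m+2`; `leg_child`, `child_eq`), the same for `W.image rf`. Fix (by choice) for every depth `d ≤ t` and every finite set `A` of faces for which a measure `μ` as in `tree_measure` exists one such
measure `muOf d A` (zero function otherwise; define it by `if h : ∃ μ, ... then h.choose else 0`, it depends on `d` and `A` only). Put `k = lev T t e`, `W = leg T k (lf e) e.2` (this is the leg containing `e`: `mem_leg_of_lev`, `lev_lt`) and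
`r e = 6^k * (muOf (k+1) (W.image lf) (lf e) + muOf (k+1) (W.image rf) (rf e))`. For all `e ∈ leg T k f m` the set `W` is the same, `leg T k f m` (`leg_congr`, `leg_lev`), so
`∑_{e ∈ leg} r e = 6^k (∑_{g ∈ A} μ g + ∑_{g ∈ B} μ' g) = 2 * 6^k` by injectivity (`leg_injL`, `leg_injR`, `Finset.sum_image`). This is `tot`.
`partL`: the sum is at least `6^k ∑_{g ∈ A ∩ cl T D (lf e0)} μ g`, and `1 ≤ 3^(D-(k+1)) * (that sum)` by `tree_measure`. `partR` the same.
`pos`, `low`: `partL` with `D = t`, `k = lev T t e < t` (`lev_lt`), `f = lf e`, `e0 = e`: `cl T t (lf e) = {lf e}` (`cl_small`), so the filtered leg is `{e}` (`leg_injL`): `1 ≤ 6^k ≤ 3^(t-(k+1)) * r e ≤ 3^t * r e`.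
`up`: `r e ≤ ∑_{leg} r = 2 * 6^k ≤ 2 * 6^t` (all `r ≥ 0`).
-/

namespace MP0e5907

open Finset

variable {N F : Type} [Fintype N] [Fintype F]

/-- the measures of `tree_measure` -/
def QWexP (T : STri N F) (t d : ℕ) (A : Finset F) (μ : F → ℝ) : Prop :=
  (∀ g, 0 ≤ μ g) ∧ ∑ g ∈ A, μ g = 1 ∧
    ∀ g ∈ A, ∀ D, d ≤ D → D ≤ t → ∀ B : Finset F, (∀ g', g' ∈ B ↔ g' ∈ A ∧ g' ∈ cl T D g) →
      1 ≤ 3 ^ (D - d) * ∑ g' ∈ B, μ g'

open Classical in
/-- a chosen measure -/
noncomputable def QWexMu (T : STri N F) (t d : ℕ) (A : Finset F) : F → ℝ :=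
  if h : ∃ μ, QWexP T t d A μ then h.choose else fun _ => 0

omit [Fintype N] in
theorem QWexMu_nonneg (T : STri N F) (t d : ℕ) (A : Finset F) (g : F) : 0 ≤ QWexMu T t d A g := by
  unfold QWexMu
  by_cases h : ∃ μ, QWexP T t d A μ
  · rw [dif_pos h]
    exact h.choose_spec.1 g
  · rw [dif_neg h]

theorem QWexMu_spec (T : STri N F) (t : ℕ) (ht : ∀ g, cl T t g = {g}) (d : ℕ) (hd : d ≤ t) (f : F)
    (A : Finset F) (hA : A.Nonempty) (hAf : A ⊆ cl T d f) : QWexP T t d A (QWexMu T t d A) := by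
  classical
  have h : ∃ μ, QWexP T t d A μ := by
    obtain ⟨μ, h1, h2, h3⟩ := tree_measure T t ht d hd f A hA hAf
    refine ⟨μ, h1, h2, fun g hg D hD hDt B hB => ?_⟩
    have h4 : B = A.filter (fun g' => g' ∈ cl T D g) := by
      ext g'
      rw [hB, Finset.mem_filter]
    rw [h4]
    exact h3 g hg D hD hDt
  unfold QWexMu
  rw [dif_pos h]
  exact h.choose_spec

open Classical in
/-- the left faces of a leg -/
noncomputable def QWexL (T : STri N F) (W : Finset (N × Fin 3)) : Finset F := W.image T.lf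

open Classical in
/-- the right faces of a leg -/
noncomputable def QWexR (T : STri N F) (W : Finset (N × Fin 3)) : Finset F := W.image T.rf

/-- the conductances -/
noncomputable def QWexr (T : STri N F) (t : ℕ) (e : N × Fin 3) : ℝ :=
  6 ^ (lev T t e) *
    (QWexMu T t (lev T t e + 1) (QWexL T (leg T (lev T t e) (T.lf e) e.2)) (T.lf e) +
      QWexMu T t (lev T t e + 1) (QWexR T (leg T (lev T t e) (T.lf e) e.2)) (T.rf e))

theorem QWexr_eq (T : STri N F) (t : ℕ) {k : ℕ} (hk : k < t) {f : F} {m : Fin 3} {e : N × Fin 3}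
    (h : e ∈ leg T k f m) : QWexr T t e = 6 ^ k *
      (QWexMu T t (k + 1) (QWexL T (leg T k f m)) (T.lf e) +
      QWexMu T t (k + 1) (QWexR T (leg T k f m)) (T.rf e)) := by
  have h1 := leg_lev T hk h
  have h2 := (mem_leg T k f m e).1 h
  unfold QWexr
  rw [h1, h2.1, leg_congr T h2.2.1 m]

theorem QWexr_nonneg (T : STri N F) (t : ℕ) (e : N × Fin 3) : 0 ≤ QWexr T t e := by
  unfold QWexr
  have h1 := QWexMu_nonneg T t (lev T t e + 1) (QWexL T (leg T (lev T t e) (T.lf e) e.2)) (T.lf e)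
  have h2 := QWexMu_nonneg T t (lev T t e + 1) (QWexR T (leg T (lev T t e) (T.lf e) e.2)) (T.rf e)
  positivity

/-- the left faces of a leg are in one child -/
theorem QWex_specL (T : STri N F) (t : ℕ) (ht : ∀ g, cl T t g = {g}) {k : ℕ} (hk : k < t) (f : F)
    (m : Fin 3) (e0 : N × Fin 3) (h0 : e0 ∈ leg T k f m) :
    QWexP T t (k + 1) (QWexL T (leg T k f m)) (QWexMu T t (k + 1) (QWexL T (leg T k f m))) := by
  classical
  refine QWexMu_spec T t ht (k + 1) hk (T.lf e0) _ ?_ ?_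
  · exact ⟨T.lf e0, Finset.mem_image.2 ⟨e0, h0, rfl⟩⟩
  · intro g hg
    obtain ⟨e, he, rfl⟩ := Finset.mem_image.1 hg
    have h1 := (mem_leg T k f m e0).1 h0
    have h2 : child T k f (m + 2) = cl T (k + 1) (T.lf e0) := by
      rw [← (leg_reg T h0).1]
      exact child_eq T h1.2.1
    rw [← h2]
    exact (leg_child T he).1

theorem QWex_specR (T : STri N F) (t : ℕ) (ht : ∀ g, cl T t g = {g}) {k : ℕ} (hk : k < t) (f : F)
    (m : Fin 3) (e0 : N × Fin 3) (h0 : e0 ∈ leg T k f m) :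
    QWexP T t (k + 1) (QWexR T (leg T k f m)) (QWexMu T t (k + 1) (QWexR T (leg T k f m))) := by
  classical
  refine QWexMu_spec T t ht (k + 1) hk (T.rf e0) _ ?_ ?_
  · exact ⟨T.rf e0, Finset.mem_image.2 ⟨e0, h0, rfl⟩⟩
  · intro g hg
    obtain ⟨e, he, rfl⟩ := Finset.mem_image.1 hg
    have h1 := (mem_leg T k f m e0).1 h0
    have h2 : child T k f (m + 1) = cl T (k + 1) (T.rf e0) := by
      rw [← (leg_reg T h0).2]
      exact child_eq T h1.2.2.1
    rw [← h2]
    exact (leg_child T he).2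

/-- sums over a leg are sums over the left faces -/
theorem QWex_sumL (T : STri N F) {k : ℕ} {f : F} {m : Fin 3} (W : Finset (N × Fin 3))
    (hW : W ⊆ leg T k f m) (B : Finset F) (hB : ∀ g, g ∈ B ↔ ∃ e ∈ W, T.lf e = g) (μ : F → ℝ) :
    ∑ e ∈ W, μ (T.lf e) = ∑ g ∈ B, μ g := by
  classical
  have h : B = W.image T.lf := by
    ext g
    rw [hB, Finset.mem_image]
  rw [h, Finset.sum_image]
  intro e he e' he' hee
  exact leg_injL T (hW he) (hW he') hee

theorem QWex_sumR (T : STri N F) {k : ℕ} {f : F} {m : Fin 3} (W : Finset (N × Fin 3))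
    (hW : W ⊆ leg T k f m) (B : Finset F) (hB : ∀ g, g ∈ B ↔ ∃ e ∈ W, T.rf e = g) (μ : F → ℝ) :
    ∑ e ∈ W, μ (T.rf e) = ∑ g ∈ B, μ g := by
  classical
  have h : B = W.image T.rf := by
    ext g
    rw [hB, Finset.mem_image]
  rw [h, Finset.sum_image]
  intro e he e' he' hee
  exact leg_injR T (hW he) (hW he') hee

theorem QWex_tot (T : STri N F) (t : ℕ) (ht : ∀ g, cl T t g = {g}) {k : ℕ} (hk : k < t) (f : F)
    (m : Fin 3) (h : (leg T k f m).Nonempty) : ∑ e ∈ leg T k f m, QWexr T t e = 2 * 6 ^ k := by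
  classical
  obtain ⟨e0, h0⟩ := h
  have h1 := (QWex_specL T t ht hk f m e0 h0).2.1
  have h2 := (QWex_specR T t ht hk f m e0 h0).2.1
  have h3 := QWex_sumL T (leg T k f m) (Finset.Subset.refl _) (QWexL T (leg T k f m))
    (fun g => by unfold QWexL; rw [Finset.mem_image]) (QWexMu T t (k + 1) (QWexL T (leg T k f m)))
  have h4 := QWex_sumR T (leg T k f m) (Finset.Subset.refl _) (QWexR T (leg T k f m))
    (fun g => by unfold QWexR; rw [Finset.mem_image]) (QWexMu T t (k + 1) (QWexR T (leg T k f m)))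
  rw [Finset.sum_congr rfl (fun e he => QWexr_eq T t hk he), ← Finset.mul_sum,
    Finset.sum_add_distrib, h3, h4, h1, h2]
  ring

theorem QWex_partL (T : STri N F) (t : ℕ) (ht : ∀ g, cl T t g = {g}) {k : ℕ} (hk : k < t) (f : F)
    (m : Fin 3) (e0 : N × Fin 3) (h0 : e0 ∈ leg T k f m) (D : ℕ) (hD : k + 1 ≤ D) (hDt : D ≤ t)
    (W : Finset (N × Fin 3))
    (hW : ∀ e, e ∈ W ↔ e ∈ leg T k f m ∧ T.lf e ∈ cl T D (T.lf e0)) :
    6 ^ k ≤ 3 ^ (D - (k + 1)) * ∑ e ∈ W, QWexr T t e := by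
  classical
  have h1 := (QWex_specL T t ht hk f m e0 h0).2.2 (T.lf e0)
    (Finset.mem_image.2 ⟨e0, h0, rfl⟩) D hD hDt (W.image T.lf) (by
      intro g
      unfold QWexL
      rw [Finset.mem_image, Finset.mem_image]
      constructor
      · rintro ⟨e, he, rfl⟩
        exact ⟨⟨e, ((hW e).1 he).1, rfl⟩, ((hW e).1 he).2⟩
      · rintro ⟨⟨e, he, rfl⟩, hg⟩
        exact ⟨e, (hW e).2 ⟨he, hg⟩, rfl⟩)
  have h3 := QWex_sumL T W (fun e he => ((hW e).1 he).1) (W.image T.lf)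
    (fun g => by rw [Finset.mem_image]) (QWexMu T t (k + 1) (QWexL T (leg T k f m)))
  have h4 : 6 ^ k * ∑ e ∈ W, QWexMu T t (k + 1) (QWexL T (leg T k f m)) (T.lf e) ≤
      ∑ e ∈ W, QWexr T t e := by
    rw [Finset.mul_sum]
    refine Finset.sum_le_sum fun e he => ?_
    rw [QWexr_eq T t hk ((hW e).1 he).1, mul_add]
    have h5 := QWexMu_nonneg T t (k + 1) (QWexR T (leg T k f m)) (T.rf e)
    have h6 : (0 : ℝ) ≤ 6 ^ k * QWexMu T t (k + 1) (QWexR T (leg T k f m)) (T.rf e) := by positivity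
    linarith
  rw [h3] at h4
  have h7 : (0 : ℝ) < 3 ^ (D - (k + 1)) := by positivity
  have h8 : (0 : ℝ) < 6 ^ k := by positivity
  calc (6 : ℝ) ^ k = 6 ^ k * 1 := (mul_one _).symm
    _ ≤ 6 ^ k * (3 ^ (D - (k + 1)) * ∑ g' ∈ W.image T.lf,
          QWexMu T t (k + 1) (QWexL T (leg T k f m)) g') := mul_le_mul_of_nonneg_left h1 h8.le
    _ = 3 ^ (D - (k + 1)) * (6 ^ k * ∑ g' ∈ W.image T.lf,
          QWexMu T t (k + 1) (QWexL T (leg T k f m)) g') := by ring
    _ ≤ 3 ^ (D - (k + 1)) * ∑ e ∈ W, QWexr T t e := mul_le_mul_of_nonneg_left h4 h7.le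

theorem QWex_partR (T : STri N F) (t : ℕ) (ht : ∀ g, cl T t g = {g}) {k : ℕ} (hk : k < t) (f : F)
    (m : Fin 3) (e0 : N × Fin 3) (h0 : e0 ∈ leg T k f m) (D : ℕ) (hD : k + 1 ≤ D) (hDt : D ≤ t)
    (W : Finset (N × Fin 3))
    (hW : ∀ e, e ∈ W ↔ e ∈ leg T k f m ∧ T.rf e ∈ cl T D (T.rf e0)) :
    6 ^ k ≤ 3 ^ (D - (k + 1)) * ∑ e ∈ W, QWexr T t e := by
  classical
  have h1 := (QWex_specR T t ht hk f m e0 h0).2.2 (T.rf e0)
    (Finset.mem_image.2 ⟨e0, h0, rfl⟩) D hD hDt (W.image T.rf) (by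
      intro g
      unfold QWexR
      rw [Finset.mem_image, Finset.mem_image]
      constructor
      · rintro ⟨e, he, rfl⟩
        exact ⟨⟨e, ((hW e).1 he).1, rfl⟩, ((hW e).1 he).2⟩
      · rintro ⟨⟨e, he, rfl⟩, hg⟩
        exact ⟨e, (hW e).2 ⟨he, hg⟩, rfl⟩)
  have h3 := QWex_sumR T W (fun e he => ((hW e).1 he).1) (W.image T.rf)
    (fun g => by rw [Finset.mem_image]) (QWexMu T t (k + 1) (QWexR T (leg T k f m)))
  have h4 : 6 ^ k * ∑ e ∈ W, QWexMu T t (k + 1) (QWexR T (leg T k f m)) (T.rf e) ≤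
      ∑ e ∈ W, QWexr T t e := by
    rw [Finset.mul_sum]
    refine Finset.sum_le_sum fun e he => ?_
    rw [QWexr_eq T t hk ((hW e).1 he).1, mul_add]
    have h5 := QWexMu_nonneg T t (k + 1) (QWexL T (leg T k f m)) (T.lf e)
    have h6 : (0 : ℝ) ≤ 6 ^ k * QWexMu T t (k + 1) (QWexL T (leg T k f m)) (T.lf e) := by positivity
    linarith
  rw [h3] at h4
  have h7 : (0 : ℝ) < 3 ^ (D - (k + 1)) := by positivity
  have h8 : (0 : ℝ) < 6 ^ k := by positivity
  calc (6 : ℝ) ^ k = 6 ^ k * 1 := (mul_one _).symm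
    _ ≤ 6 ^ k * (3 ^ (D - (k + 1)) * ∑ g' ∈ W.image T.rf,
          QWexMu T t (k + 1) (QWexR T (leg T k f m)) g') := mul_le_mul_of_nonneg_left h1 h8.le
    _ = 3 ^ (D - (k + 1)) * (6 ^ k * ∑ g' ∈ W.image T.rf,
          QWexMu T t (k + 1) (QWexR T (leg T k f m)) g') := by ring
    _ ≤ 3 ^ (D - (k + 1)) * ∑ e ∈ W, QWexr T t e := mul_le_mul_of_nonneg_left h4 h7.le

theorem good_w (T : STri N F) (t : ℕ) (ht : 5 ^ t * Fintype.card F < 2 * 6 ^ t) :
    ∃ r : N × Fin 3 → ℝ, GoodW T t r := by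
  classical
  have hcl : ∀ g, cl T t g = {g} := cl_small T t ht
  have hself : ∀ e, e ∈ leg T (lev T t e) (T.lf e) e.2 := fun e =>
    mem_leg_of_lev T (lev_lt T t ht e) (mem_cl_self T _ _)
  have hkey : ∀ e, (6 : ℝ) ^ (lev T t e) ≤ 3 ^ (t - (lev T t e + 1)) * QWexr T t e := by
    intro e
    have h := QWex_partL T t hcl (lev_lt T t ht e) (T.lf e) e.2 e (hself e) t (lev_lt T t ht e)
      le_rfl {e} (by
        intro e'
        rw [hcl, Finset.mem_singleton, Finset.mem_singleton]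
        constructor
        · rintro rfl
          exact ⟨hself e', rfl⟩
        · rintro ⟨h1, h2⟩
          exact leg_injL T h1 (hself e) h2)
    rw [Finset.sum_singleton] at h
    exact h
  have hone : ∀ n : ℕ, (1 : ℝ) ≤ 6 ^ n := fun n => one_le_pow₀ (by norm_num)
  refine ⟨QWexr T t, ?_⟩
  constructor
  · intro e
    have h1 := hkey e
    have h2 := hone (lev T t e)
    have h3 : (0 : ℝ) < 3 ^ (t - (lev T t e + 1)) * QWexr T t e := by linarith
    have h4 : (0 : ℝ) < 3 ^ (t - (lev T t e + 1)) := by positivity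
    exact (pos_iff_pos_of_mul_pos h3).1 h4
  · intro e
    have h1 := hkey e
    have h2 := hone (lev T t e)
    have h3 : (3 : ℝ) ^ (t - (lev T t e + 1)) ≤ 3 ^ t :=
      pow_le_pow_right₀ (by norm_num) (Nat.sub_le _ _)
    have h4 := mul_le_mul_of_nonneg_right h3 (QWexr_nonneg T t e)
    linarith
  · intro e
    have h1 := QWex_tot T t hcl (lev_lt T t ht e) (T.lf e) e.2 ⟨e, hself e⟩
    have h2 : QWexr T t e ≤ ∑ e' ∈ leg T (lev T t e) (T.lf e) e.2, QWexr T t e' :=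
      Finset.single_le_sum (fun e' _ => QWexr_nonneg T t e') (hself e)
    have h3 : (6 : ℝ) ^ (lev T t e) ≤ 6 ^ t :=
      pow_le_pow_right₀ (by norm_num) (lev_lt T t ht e).le
    linarith
  · intro k hk f m h
    exact QWex_tot T t hcl hk f m h
  · intro k hk f m e0 h0 D hD hDt
    exact QWex_partL T t hcl hk f m e0 h0 D hD hDt _ (fun e => Finset.mem_filter)
  · intro k hk f m e0 h0 D hD hDt
    exact QWex_partR T t hcl hk f m e0 h0 D hD hDt _ (fun e => Finset.mem_filter)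

end MP0e5907
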