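import Pool.Agent.Lib_MP_0e5907.Base2

/-!
# Piece ROUND: rounding to integer points

Paper proof. Let `K = ⌈57 * Zm / δ^2⌉₊` (a positive integer, `K ≥ 57 Zm/δ^2 ≥ 57`, `K ≤ 58 Zm/δ^2`). Put `Y v = (round (K x), round (K y), - round (K z))`, where
`X0 v = (x,y)`, `z0 v = z`; for the roots these are exact: `(0,0,0), (K,0,0), (0,K,0)`.
* Areas: let `a, b` be two coordinate differences of `K X0` (`|a|, |b| ≤ K`) and `a', b'` those of the rounded points, `|a' - a| ≤ 1`, `|b' - b| ≤ 1`. Then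
  `|a' b' - a b| ≤ K + K + 1`, so the area changes by at most `2 (2K+1) ≤ 6K`: `|ar' - K^2 ar| ≤ 6 K` for all triples of points. Thus `farea' ≥ K^2 δ - 6K > 0` as `K δ ≥ K δ^2 ≥ 57 > 6`.
* Folds: `ht` is a sum of four terms `± z * ar`. `|z'| ≤ K Zm + 1`, `|z' - K z| ≤ 1`, `|K^2 ar| ≤ 2 K^2`, `|ar' - K^2 ar| ≤ 6K`, so
  `|z' ar' - K z K^2 ar| ≤ (K Zm + 1) 6 K + 1 * 2 K^2 ≤ 14 K^2 Zm` (`Zm ≥ 1`, `K ≥ 1`). So `ht' ≥ K^3 δ^2 - 56 K^2 Zm > 0` since `K δ^2 ≥ 57 Zm`.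
* `outer`: `ar (0,0) (K,0) (0,K) = K^2 > 0`. Heights of the roots are `0`.
* Bounds: `0 ≤ round (K x) ≤ K`, `|round (K z)| ≤ K Zm + 1 ≤ 58 Zm^2/δ^2 + 1 ≤ 59 Zm^2 / δ^2`.
(`round` : `|x - round x| ≤ 1/2`, `abs_sub_round`. `round` of a natural number cast is exact.)
-/

namespace MP0e5907

open Finset

variable {N F : Type}

private theorem round_prod {κ a b a' b' : ℝ} (hκ : 1 ≤ κ) (ha : |a| ≤ κ) (hb : |b| ≤ κ)
    (ha' : |a' - a| ≤ 1) (hb' : |b' - b| ≤ 1) : |a' * b' - a * b| ≤ 3 * κ := by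
  have e : a' * b' - a * b = (a' - a) * b' + a * (b' - b) := by ring
  have hb2 : |b'| ≤ κ + 1 := by
    have : b' = (b' - b) + b := by ring
    rw [this]
    calc |b' - b + b| ≤ |b' - b| + |b| := abs_add_le _ _
      _ ≤ κ + 1 := by linarith
  rw [e]
  calc |(a' - a) * b' + a * (b' - b)| ≤ |(a' - a) * b'| + |a * (b' - b)| := abs_add_le _ _
    _ = |a' - a| * |b'| + |a| * |b' - b| := by rw [abs_mul, abs_mul]
    _ ≤ 1 * (κ + 1) + κ * 1 := by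
        gcongr
    _ ≤ 3 * κ := by linarith

private theorem round_dif {κ x y : ℝ} (hκ : 1 ≤ κ) (hx : 0 ≤ x ∧ x ≤ 1) (hy : 0 ≤ y ∧ y ≤ 1) :
    |κ * x - κ * y| ≤ κ := by
  rw [← mul_sub, abs_mul, abs_of_nonneg (by linarith : (0 : ℝ) ≤ κ)]
  have : |x - y| ≤ 1 := by
    rw [abs_le]
    constructor <;> linarith [hx.1, hx.2, hy.1, hy.2]
  nlinarith

private theorem round_err (x y : ℝ) : |((round x : ℤ) : ℝ) - ((round y : ℤ) : ℝ) - (x - y)| ≤ 1 := by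
  have h1 := abs_sub_round x
  have h2 := abs_sub_round y
  rw [abs_le] at *
  constructor <;> linarith [h1.1, h1.2, h2.1, h2.2]

/-- rounded point -/
private noncomputable def rpt (κ : ℝ) (P : ℝ × ℝ) : ℝ × ℝ :=
  (((round (κ * P.1) : ℤ) : ℝ), ((round (κ * P.2) : ℤ) : ℝ))

private theorem round_ar {κ : ℝ} (hκ : 1 ≤ κ) (P Q R : ℝ × ℝ)
    (hP : (0 ≤ P.1 ∧ P.1 ≤ 1) ∧ (0 ≤ P.2 ∧ P.2 ≤ 1)) (hQ : (0 ≤ Q.1 ∧ Q.1 ≤ 1) ∧ (0 ≤ Q.2 ∧ Q.2 ≤ 1))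
    (hR : (0 ≤ R.1 ∧ R.1 ≤ 1) ∧ (0 ≤ R.2 ∧ R.2 ≤ 1)) :
    |ar (rpt κ P) (rpt κ Q) (rpt κ R) - κ ^ 2 * ar P Q R| ≤ 6 * κ := by
  have h1 := round_prod hκ (round_dif hκ hQ.1 hP.1) (round_dif hκ hR.2 hP.2)
    (round_err (κ * Q.1) (κ * P.1)) (round_err (κ * R.2) (κ * P.2))
  have h2 := round_prod hκ (round_dif hκ hR.1 hP.1) (round_dif hκ hQ.2 hP.2)
    (round_err (κ * R.1) (κ * P.1)) (round_err (κ * Q.2) (κ * P.2))
  have e : ar (rpt κ P) (rpt κ Q) (rpt κ R) - κ ^ 2 * ar P Q R =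
      ((((round (κ * Q.1) : ℤ) : ℝ) - ((round (κ * P.1) : ℤ) : ℝ)) *
        (((round (κ * R.2) : ℤ) : ℝ) - ((round (κ * P.2) : ℤ) : ℝ)) -
        (κ * Q.1 - κ * P.1) * (κ * R.2 - κ * P.2)) -
      ((((round (κ * R.1) : ℤ) : ℝ) - ((round (κ * P.1) : ℤ) : ℝ)) *
        (((round (κ * Q.2) : ℤ) : ℝ) - ((round (κ * P.2) : ℤ) : ℝ)) -
        (κ * R.1 - κ * P.1) * (κ * Q.2 - κ * P.2)) := by
    simp only [ar, rpt]
    ring
  rw [e]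
  rw [abs_le] at *
  constructor <;> linarith [h1.1, h1.2, h2.1, h2.2]

private theorem round_arle (P Q R : ℝ × ℝ)
    (hP : (0 ≤ P.1 ∧ P.1 ≤ 1) ∧ (0 ≤ P.2 ∧ P.2 ≤ 1)) (hQ : (0 ≤ Q.1 ∧ Q.1 ≤ 1) ∧ (0 ≤ Q.2 ∧ Q.2 ≤ 1))
    (hR : (0 ≤ R.1 ∧ R.1 ≤ 1) ∧ (0 ≤ R.2 ∧ R.2 ≤ 1)) : |ar P Q R| ≤ 2 := by
  have h1 : |(Q.1 - P.1) * (R.2 - P.2)| ≤ 1 := by
    rw [abs_mul]
    have a1 : |Q.1 - P.1| ≤ 1 := by
      rw [abs_le]
      constructor <;> linarith [hP.1.1, hP.1.2, hQ.1.1, hQ.1.2]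
    have a2 : |R.2 - P.2| ≤ 1 := by
      rw [abs_le]
      constructor <;> linarith [hP.2.1, hP.2.2, hR.2.1, hR.2.2]
    calc |Q.1 - P.1| * |R.2 - P.2| ≤ 1 * 1 := by gcongr
      _ = 1 := one_mul 1
  have h2 : |(R.1 - P.1) * (Q.2 - P.2)| ≤ 1 := by
    rw [abs_mul]
    have a1 : |R.1 - P.1| ≤ 1 := by
      rw [abs_le]
      constructor <;> linarith [hP.1.1, hP.1.2, hR.1.1, hR.1.2]
    have a2 : |Q.2 - P.2| ≤ 1 := by
      rw [abs_le]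
      constructor <;> linarith [hP.2.1, hP.2.2, hQ.2.1, hQ.2.2]
    calc |R.1 - P.1| * |Q.2 - P.2| ≤ 1 * 1 := by gcongr
      _ = 1 := one_mul 1
  unfold ar
  rw [abs_le] at *
  constructor <;> linarith [h1.1, h1.2, h2.1, h2.2]

private theorem round_term {κ Zm z z' A A' : ℝ} (hκ : 1 ≤ κ) (hZ : 1 ≤ Zm) (hz : |z| ≤ Zm)
    (hz' : |z' - κ * z| ≤ 1) (hA : |A| ≤ 2) (hA' : |A' - κ ^ 2 * A| ≤ 6 * κ) :
    |z' * A' - κ ^ 3 * (z * A)| ≤ 14 * κ ^ 2 * Zm := by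
  have e : z' * A' - κ ^ 3 * (z * A) = z' * (A' - κ ^ 2 * A) + (z' - κ * z) * (κ ^ 2 * A) := by ring
  have hz2 : |z'| ≤ κ * Zm + 1 := by
    have : z' = (z' - κ * z) + κ * z := by ring
    rw [this]
    calc |z' - κ * z + κ * z| ≤ |z' - κ * z| + |κ * z| := abs_add_le _ _
      _ = |z' - κ * z| + κ * |z| := by rw [abs_mul κ z, abs_of_nonneg (by linarith : (0 : ℝ) ≤ κ)]
      _ ≤ 1 + κ * Zm := by gcongr
      _ = κ * Zm + 1 := by ring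
  rw [e]
  calc |z' * (A' - κ ^ 2 * A) + (z' - κ * z) * (κ ^ 2 * A)|
      ≤ |z' * (A' - κ ^ 2 * A)| + |(z' - κ * z) * (κ ^ 2 * A)| := abs_add_le _ _
    _ = |z'| * |A' - κ ^ 2 * A| + |z' - κ * z| * (κ ^ 2 * |A|) := by
        rw [abs_mul, abs_mul, abs_mul (κ ^ 2), abs_of_nonneg (by positivity : (0 : ℝ) ≤ κ ^ 2)]
    _ ≤ (κ * Zm + 1) * (6 * κ) + 1 * (κ ^ 2 * 2) := by gcongr
    _ ≤ 14 * κ ^ 2 * Zm := by
        have h1 : κ ≤ κ ^ 2 := by nlinarith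
        have h2 : κ ^ 2 ≤ κ ^ 2 * Zm := by nlinarith [sq_nonneg κ]
        nlinarith

theorem rounding (T : STri N F) (X0 : N ⊕ Fin 3 → ℝ × ℝ) (z0 : N ⊕ Fin 3 → ℝ) (δ Zm : ℝ)
    (hδ : 0 < δ) (hδ1 : δ ≤ 1) (hZ : 1 ≤ Zm)
    (hX1 : ∀ v, 0 ≤ (X0 v).1 ∧ (X0 v).1 ≤ 1) (hX2 : ∀ v, 0 ≤ (X0 v).2 ∧ (X0 v).2 ≤ 1)
    (hz : ∀ v, |z0 v| ≤ Zm) (h0 : X0 (Sum.inr 0) = (0, 0)) (h1 : X0 (Sum.inr 1) = (1, 0))
    (h2 : X0 (Sum.inr 2) = (0, 1)) (hr : ∀ j, z0 (Sum.inr j) = 0)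
    (hA : ∀ g, δ ≤ farea T X0 g)
    (hL : ∀ e, δ ^ 2 ≤ ht T X0 z0 (T.lf e) (T.vert (T.rf e) (e.2 + 2)))
    (hR : ∀ e, δ ^ 2 ≤ ht T X0 z0 (T.rf e) (T.vert (T.lf e) (e.2 + 1))) :
    ∃ Y : N ⊕ Fin 3 → Fin 3 → ℤ,
      LocConv T (fun v => ((Y v 0 : ℝ), (Y v 1 : ℝ))) (fun v => -(Y v 2 : ℝ)) ∧
      (∀ v j, |(Y v j : ℝ)| ≤ 60 * Zm ^ 2 / δ ^ 2) ∧ ∀ v, 0 ≤ Y v 0 ∧ 0 ≤ Y v 1 := by
  classical
  set K : ℕ := ⌈57 * Zm / δ ^ 2⌉₊ with hK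
  have hδ2 : 0 < δ ^ 2 := by positivity
  have hδ2' : δ ^ 2 ≤ 1 := by nlinarith
  have hδδ : δ ^ 2 ≤ δ := by nlinarith
  have hq : 1 ≤ Zm / δ ^ 2 := by
    rw [le_div_iff₀ hδ2]
    linarith
  have hK1 : 57 * Zm / δ ^ 2 ≤ (K : ℝ) := Nat.le_ceil _
  have hK2 : (K : ℝ) < 57 * Zm / δ ^ 2 + 1 := Nat.ceil_lt_add_one (by positivity)
  have hκ1 : (1 : ℝ) ≤ K := by
    have : 57 * Zm / δ ^ 2 = 57 * (Zm / δ ^ 2) := by ring
    linarith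
  have hκδ : 57 * Zm ≤ K * δ ^ 2 := by
    rwa [div_le_iff₀ hδ2] at hK1
  have hκ2 : (K : ℝ) ≤ 58 * (Zm / δ ^ 2) := by
    have : 57 * Zm / δ ^ 2 = 57 * (Zm / δ ^ 2) := by ring
    linarith
  have hZZ : Zm / δ ^ 2 ≤ Zm ^ 2 / δ ^ 2 := by
    gcongr
    nlinarith
  have hX : ∀ v, (0 ≤ (X0 v).1 ∧ (X0 v).1 ≤ 1) ∧ (0 ≤ (X0 v).2 ∧ (X0 v).2 ≤ 1) := fun v => ⟨hX1 v, hX2 v⟩
  let Y : N ⊕ Fin 3 → Fin 3 → ℤ := fun v =>
    ![round ((K : ℝ) * (X0 v).1), round ((K : ℝ) * (X0 v).2), -round ((K : ℝ) * z0 v)]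
  have hXX : (fun v => ((Y v 0 : ℝ), (Y v 1 : ℝ))) = fun v => rpt (K : ℝ) (X0 v) := by
    funext v
    simp [Y, rpt]
  have hzz : (fun v => -(Y v 2 : ℝ)) = fun v => ((round ((K : ℝ) * z0 v) : ℤ) : ℝ) := by
    funext v
    simp [Y]
  have har : ∀ u v w, |ar (rpt K (X0 u)) (rpt K (X0 v)) (rpt K (X0 w)) - (K : ℝ) ^ 2 * ar (X0 u) (X0 v) (X0 w)| ≤
      6 * K := fun u v w => round_ar hκ1 _ _ _ (hX u) (hX v) (hX w)
  have hr3 : ∀ v, |((round ((K : ℝ) * z0 v) : ℤ) : ℝ) - K * z0 v| ≤ 1 := by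
    intro v
    have := abs_sub_round ((K : ℝ) * z0 v)
    rw [abs_sub_comm]
    linarith
  have hht : ∀ g w, |ht T (fun v => rpt (K : ℝ) (X0 v)) (fun v => ((round ((K : ℝ) * z0 v) : ℤ) : ℝ)) g w -
      (K : ℝ) ^ 3 * ht T X0 z0 g w| ≤ 56 * (K : ℝ) ^ 2 * Zm := by
    intro g w
    have t0 := round_term hκ1 hZ (hz w) (hr3 w)
      (round_arle _ _ _ (hX (T.vert g 0)) (hX (T.vert g 1)) (hX (T.vert g 2)))
      (har (T.vert g 0) (T.vert g 1) (T.vert g 2))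
    have t1 := round_term hκ1 hZ (hz (T.vert g 0)) (hr3 (T.vert g 0))
      (round_arle _ _ _ (hX w) (hX (T.vert g 1)) (hX (T.vert g 2)))
      (har w (T.vert g 1) (T.vert g 2))
    have t2 := round_term hκ1 hZ (hz (T.vert g 1)) (hr3 (T.vert g 1))
      (round_arle _ _ _ (hX (T.vert g 0)) (hX w) (hX (T.vert g 2)))
      (har (T.vert g 0) w (T.vert g 2))
    have t3 := round_term hκ1 hZ (hz (T.vert g 2)) (hr3 (T.vert g 2))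
      (round_arle _ _ _ (hX (T.vert g 0)) (hX (T.vert g 1)) (hX w))
      (har (T.vert g 0) (T.vert g 1) w)
    simp only [ht, farea]
    rw [abs_le] at *
    constructor <;> linarith [t0.1, t0.2, t1.1, t1.2, t2.1, t2.2, t3.1, t3.2]
  have hK0 : (0 : ℝ) < K := by linarith
  have hfold : ∀ g w, δ ^ 2 ≤ ht T X0 z0 g w →
      0 < ht T (fun v => rpt (K : ℝ) (X0 v)) (fun v => ((round ((K : ℝ) * z0 v) : ℤ) : ℝ)) g w := by
    intro g w h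
    have h1 := (abs_le.mp (hht g w)).1
    have h2 : (K : ℝ) ^ 3 * δ ^ 2 ≤ (K : ℝ) ^ 3 * ht T X0 z0 g w := by gcongr
    have h3 : (K : ℝ) ^ 2 * (57 * Zm) ≤ (K : ℝ) ^ 3 * δ ^ 2 := by
      have : (K : ℝ) ^ 3 * δ ^ 2 = (K : ℝ) ^ 2 * (K * δ ^ 2) := by ring
      rw [this]
      gcongr
    have h4 : 0 < (K : ℝ) ^ 2 * Zm := by positivity
    linarith
  have hrk : ∀ x : ℝ, x = 0 → round x = 0 := by
    intro x hx
    rw [hx]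
    exact round_zero
  have hrK : round ((K : ℝ) * 1) = (K : ℤ) := by
    rw [mul_one]
    exact round_natCast K
  refine ⟨Y, ?_, ?_, ?_⟩
  · rw [hXX, hzz]
    refine ⟨?_, ?_, ?_, ?_, ?_⟩
    · intro g
      have h1 := (abs_le.mp (har (T.vert g 0) (T.vert g 1) (T.vert g 2))).1
      have h2 : (K : ℝ) ^ 2 * δ ≤ (K : ℝ) ^ 2 * farea T X0 g := by
        have := hA g
        gcongr
      have h3 : (K : ℝ) * 57 ≤ (K : ℝ) ^ 2 * δ := by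
        have e : (K : ℝ) ^ 2 * δ = K * (K * δ) := by ring
        rw [e]
        have : 57 ≤ (K : ℝ) * δ := by nlinarith
        gcongr
      simp only [farea] at h2 ⊢
      nlinarith
    · intro e
      exact hfold _ _ (hL e)
    · intro e
      exact hfold _ _ (hR e)
    · simp only [h0, h1, h2, rpt, ar, mul_zero, hrK]
      simp only [round_zero]
      push_cast
      nlinarith
    · intro j
      simp only [hr j, mul_zero]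
      simp
  · intro v j
    have hb : ∀ x : ℝ, |x| ≤ Zm → |((round ((K : ℝ) * x) : ℤ) : ℝ)| ≤ 60 * Zm ^ 2 / δ ^ 2 := by
      intro x hx
      have h1 := abs_sub_round ((K : ℝ) * x)
      have h2 : |((round ((K : ℝ) * x) : ℤ) : ℝ)| ≤ K * Zm + 1 := by
        have e : ((round ((K : ℝ) * x) : ℤ) : ℝ) = K * x - (K * x - ((round ((K : ℝ) * x) : ℤ) : ℝ)) := by ring
        rw [e]
        calc |K * x - (K * x - ((round ((K : ℝ) * x) : ℤ) : ℝ))|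
            ≤ |K * x| + |K * x - ((round ((K : ℝ) * x) : ℤ) : ℝ)| := abs_sub _ _
          _ = K * |x| + |K * x - ((round ((K : ℝ) * x) : ℤ) : ℝ)| := by
              rw [abs_mul (K : ℝ) x, abs_of_nonneg hK0.le]
          _ ≤ K * Zm + 1 / 2 := by gcongr
          _ ≤ K * Zm + 1 := by linarith
      have h3 : K * Zm ≤ 58 * (Zm ^ 2 / δ ^ 2) := by
        have : Zm ^ 2 / δ ^ 2 = Zm / δ ^ 2 * Zm := by ring
        rw [this]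
        nlinarith
      have h4 : 1 ≤ Zm ^ 2 / δ ^ 2 := le_trans hq hZZ
      have e : 60 * Zm ^ 2 / δ ^ 2 = 60 * (Zm ^ 2 / δ ^ 2) := by ring
      rw [e]
      linarith
    have hb1 : |(X0 v).1| ≤ Zm := by
      rw [abs_of_nonneg (hX1 v).1]
      linarith [(hX1 v).2]
    have hb2 : |(X0 v).2| ≤ Zm := by
      rw [abs_of_nonneg (hX2 v).1]
      linarith [(hX2 v).2]
    fin_cases j
    · exact hb _ hb1
    · exact hb _ hb2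
    · have := hb _ (hz v)
      simpa [Y] using this
  · intro v
    have hn : ∀ x : ℝ, 0 ≤ x → 0 ≤ round x := by
      intro x hx
      rw [round_eq]
      exact Int.floor_nonneg.mpr (by linarith)
    exact ⟨hn _ (mul_nonneg hK0.le (hX1 v).1), hn _ (mul_nonneg hK0.le (hX2 v).1)⟩

end MP0e5907
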