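import Pool.Agent.Lib_MP_0e5907.AreaLower
import Pool.Agent.Lib_MP_0e5907.Fold
import Pool.Agent.Lib_MP_0e5907.Round
import Pool.Agent.Lib_MP_0e5907.Numeric
import Pool.Agent.Lib_MP_0e5907.ExpoCh

/-!
# Piece REALISE: every Schnyder labelled triangulation has a quasi-polynomial integer realisation

Paper proof. Let `n = |N| ≥ 1`, `t` from `numeric` (`|F| = 2n+1` by `card_F`), `M = 18 (n+1)^2 ≥ 1`, `ω = wt T t M`; `1 ≤ ω e ≤ M^t =: W`. `p` from `pot_exists`,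
`hs` = `pot_sum`, `0 ≤ p ≤ 1`. `δ = 1/(2 (1+3n)^(3t))`, `δ ≤ fdet T p f` by `area_lower`, `0 < δ ≤ 1`. `H, z` from `lift_norm`, `|z v| ≤ 2 (n+3) W =: Zm ≥ 1`.
`X0 = XX p`: `X0 (inr 0) = (0,0)`, `X0 (inr 1) = (1,0)`, `X0 (inr 2) = (0,1)`. `farea_eq`, `fold_exact`: areas `≥ δ`, folds `= ω (area)(area) ≥ δ^2`. `rounding` gives
`Y` with `LocConv`; the bound is `60 Zm^2/δ^2 = 60 * 4 (n+3)^2 M^(2t) * 4 (1+3n)^(6t) = 960 (n+3)^2 M^(2t) (1+3n)^(6t)`, `≤ exp (293 (log (n+3))^2)` by `numeric`.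
`Y v 2 ≥ 0`: for roots `0`, for inner vertices by `z_neg` (`-(Y v 2) < 0`). The exposed sets are given by `expo_iff` (the function
`fun v => ![(Y v 0 : ℝ), (Y v 1 : ℝ), - - (Y v 2)]` equals `fun v j => (Y v j : ℝ)`).
-/

namespace MP0e5907

open Finset

variable {N F : Type} [Fintype N] [Fintype F]

theorem stri_realise (T : STri N F) [Nonempty N] :
    ∃ Y : N ⊕ Fin 3 → Fin 3 → ℕ,
      (∀ v j, (Y v j : ℝ) ≤ Real.exp (293 * (Real.log ((Fintype.card N : ℝ) + 3)) ^ 2)) ∧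
      (∀ v : N, 0 < Y (Sum.inl v) 2) ∧ (∀ j, Y (Sum.inr j) 2 = 0) ∧
      ∀ S : Set (N ⊕ Fin 3), S.Nonempty → (Expo (fun v j => (Y v j : ℝ)) S ↔
        S = Set.univ ∨ (∃ g, ∀ v ∈ S, ∃ k, T.vert g k = v) ∨ (∀ v ∈ S, ∃ j, v = Sum.inr j)) := by
  classical
  obtain ⟨t, ht1, ht2⟩ := numeric (Fintype.card N) Fintype.card_pos
  have hn : (0 : ℝ) ≤ (Fintype.card N : ℝ) := Nat.cast_nonneg _
  generalize hnn : (Fintype.card N : ℝ) = n at ht2 hn ⊢
  have ht : 5 ^ t * Fintype.card F < 2 * 6 ^ t := by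
    rw [card_F T]
    exact ht1
  have hM : (1 : ℝ) ≤ 18 * (n + 1) ^ 2 := by nlinarith
  have hM2 : 18 * (Fintype.card N : ℝ) ^ 2 ≤ 18 * (n + 1) ^ 2 := by
    rw [hnn]
    nlinarith
  generalize hMM : 18 * (n + 1) ^ 2 = M at ht2 hM hM2
  have hM0 : (0 : ℝ) < M := by linarith
  have hω1 : ∀ e, 1 ≤ wt T t M e := fun e => one_le_pow₀ hM
  have hω : ∀ e, 0 < wt T t M e := fun e => lt_of_lt_of_le one_pos (hω1 e)
  have hωW : ∀ e, wt T t M e ≤ M ^ t := fun e => pow_le_pow_right₀ hM (Nat.sub_le _ _)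
  obtain ⟨p, hr, hp⟩ := pot_exists T (wt T t M) hω
  have hs := pot_sum T (wt T t M) hω p hr hp
  have hp0 := pot_nonneg T (wt T t M) hω p hr hp
  have hp1 := pot_le_one T (wt T t M) hω p hr hp
  have hcpos : (0 : ℝ) < 2 * (1 + 3 * n) ^ (3 * t) := by positivity
  have hc1 : (1 : ℝ) ≤ 2 * (1 + 3 * n) ^ (3 * t) := by
    have : (1 : ℝ) ≤ (1 + 3 * n) ^ (3 * t) := one_le_pow₀ (by linarith)
    linarith
  have hδ : (0 : ℝ) < 1 / (2 * (1 + 3 * n) ^ (3 * t)) := by positivity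
  have hδ1 : 1 / (2 * (1 + 3 * n) ^ (3 * t)) ≤ 1 := by
    rw [div_le_one hcpos]
    exact hc1
  have hA : ∀ g, 1 / (2 * (1 + 3 * n) ^ (3 * t)) ≤ fdet T p g := by
    intro g
    have h := area_lower T t ht M hM hM2 p hr hp g
    rw [hnn] at h
    rw [div_le_iff₀ hcpos]
    linarith
  have hA0 : ∀ g, 0 < fdet T p g := fun g => lt_of_lt_of_le hδ (hA g)
  have hZδ : (1 / (2 * (1 + 3 * n) ^ (3 * t))) ^ 2 = 1 / (2 * (1 + 3 * n) ^ (3 * t)) ^ 2 := by
    rw [div_pow, one_pow]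
  obtain ⟨H, z, hH, hz, hzr, hzb⟩ := lift_norm T (wt T t M) hω (M ^ t) hωW (by positivity) p hr hp
  rw [hnn] at hzb
  have hfold : ∀ e, (1 / (2 * (1 + 3 * n) ^ (3 * t))) ^ 2 ≤
      wt T t M e * (fdet T p (T.lf e) * fdet T p (T.rf e)) := by
    intro e
    calc (1 / (2 * (1 + 3 * n) ^ (3 * t))) ^ 2
        = 1 * (1 / (2 * (1 + 3 * n) ^ (3 * t)) * (1 / (2 * (1 + 3 * n) ^ (3 * t)))) := by ring
      _ ≤ wt T t M e * (fdet T p (T.lf e) * fdet T p (T.rf e)) := by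
          have := hA (T.lf e)
          have := hA (T.rf e)
          have := hA0 (T.lf e)
          have := hω1 e
          gcongr
  have hZ1 : 1 ≤ 2 * (n + 3) * M ^ t := by
    have : (1 : ℝ) ≤ M ^ t := one_le_pow₀ hM
    nlinarith
  obtain ⟨Y, hY, hYb, hYn⟩ := rounding T (XX p) z (1 / (2 * (1 + 3 * n) ^ (3 * t))) (2 * (n + 3) * M ^ t)
    hδ hδ1 hZ1 (fun v => ⟨hp0 v 1, hp1 v 1⟩) (fun v => ⟨hp0 v 2, hp1 v 2⟩) hzb
    (by simp [XX, hr]) (by simp [XX, hr]) (by simp [XX, hr]) hzr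
    (by
      intro g
      rw [farea_eq T p hs]
      exact hA g)
    (by
      intro e
      rw [(fold_exact T (wt T t M) p hs hA0 H z hH hz e).1]
      exact hfold e)
    (by
      intro e
      rw [(fold_exact T (wt T t M) p hs hA0 H z hH hz e).2]
      exact hfold e)
  have hbd : 60 * (2 * (n + 3) * M ^ t) ^ 2 / (1 / (2 * (1 + 3 * n) ^ (3 * t))) ^ 2 ≤
      Real.exp (293 * (Real.log (n + 3)) ^ 2) := by
    refine le_trans (le_of_eq ?_) ht2
    rw [hZδ, div_div_eq_mul_div, div_one]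
    rw [mul_comm 2 t, mul_comm 3 t, mul_comm 6 t, pow_mul M t 2, mul_pow, mul_pow, mul_pow, ← pow_mul (1 + 3 * n) (t * 3) 2,
      show t * 3 * 2 = t * 6 by ring]
    ring
  have hroot : ∀ j, Y (Sum.inr j) 2 = 0 := by
    intro j
    have := hY.root j
    have h2 : (Y (Sum.inr j) 2 : ℝ) = 0 := by linarith
    exact_mod_cast h2
  have hinn : ∀ v : N, 0 < Y (Sum.inl v) 2 := by
    intro v
    have := z_neg T _ _ hY v
    have h2 : (0 : ℝ) < (Y (Sum.inl v) 2 : ℝ) := by linarith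
    exact_mod_cast h2
  have hnn' : ∀ v j, 0 ≤ Y v j := by
    intro v j
    fin_cases j
    · exact (hYn v).1
    · exact (hYn v).2
    · rcases v with v | j
      · exact (hinn v).le
      · exact (hroot j).ge
  have hcast : ∀ v j, (((Y v j).toNat : ℕ) : ℝ) = (Y v j : ℝ) := by
    intro v j
    have := Int.toNat_of_nonneg (hnn' v j)
    exact_mod_cast congrArg (fun x : ℤ => (x : ℝ)) this
  refine ⟨fun v j => (Y v j).toNat, ?_, ?_, ?_, ?_⟩
  · intro v j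
    rw [hcast]
    exact le_trans (le_abs_self _) (le_trans (hYb v j) hbd)
  · intro v
    have := hinn v
    change 0 < (Y (Sum.inl v) 2).toNat
    omega
  · intro j
    simp [hroot j]
  · intro S hS
    rw [← expo_iff T _ _ hY S hS]
    have e : (fun v (j : Fin 3) => (((Y v j).toNat : ℕ) : ℝ)) =
        fun v => ![(Y v 0 : ℝ), (Y v 1 : ℝ), - -(Y v 2 : ℝ)] := by
      funext v j
      rw [hcast]
      fin_cases j
      · rfl
      · rfl
      · simp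
    rw [e]

end MP0e5907
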