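import Pool.Agent.Lib_MP_0e5907.QSumB
import Pool.Agent.Lib_MP_0e5907.QWex
import Pool.Agent.Lib_MP_0e5907.QNumeric
import Pool.Agent.Lib_MP_0e5907.Realise

/-!
# Piece QREALISE: every Schnyder labelled triangulation with nested regions has a polynomial integer realisation

Paper proof. COPY `stri_realise` from `Realise.lean` and change the weights: `n = card N ≥ 1`, `t` from `numeric2` (`card F = 2n+1`, `card_F`), `r` from `good_w`, `ω e = 2 * 6^t * (r e)⁻¹`. `1 ≤ ω e` (`hr.up`), `ω e ≤ 2 * 18^t =: W` (`hr.low`: `(r e)⁻¹ ≤ 3^t`; `6^t * 3^t = 18^t`). `p` from `pot_exists T ω`; `equil_smul`: `Equil T (r⁻¹)` follows from `Equil T ω`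
(divide by the constant). `δ = 1/170000^t`: `δ ≤ fdet T p f` by `area_lower2` and `exp_num`. `lift_norm` with `W`: `|z v| ≤ 2 (n+3) W = 4 (n+3) 18^t =: Zm ≥ 1`. `rounding` gives the bound `60 Zm^2/δ^2 = 960 (n+3)^2 (18^2 * 170000^2)^t = 960 (n+3)^2 9363600000000^t ≤ (n+3)^200`. The rest is unchanged (replace `wt T t M` by `ω`).
-/

namespace MP0e5907

open Finset

variable {N F : Type} [Fintype N] [Fintype F]

open Classical in
theorem equil_smul (T : STri N F) (ω : N × Fin 3 → ℝ) (c : ℝ) (hc : c ≠ 0) (x : N ⊕ Fin 3 → ℝ)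
    (h : Equil T (fun e => c * ω e) x) : Equil T ω x := by
  intro v
  have h1 := h v
  have h2 : ∑ e, c * ω e * (bvec T e v * dif T x e) = c * ∑ e, ω e * (bvec T e v * dif T x e) := by
    rw [Finset.mul_sum]
    exact Finset.sum_congr rfl fun e _ => by ring
  rw [h2] at h1
  exact (mul_eq_zero.1 h1).resolve_left hc

theorem stri_realise2 (T : STri N F) (hT : STriP T) [Nonempty N] :
    ∃ Y : N ⊕ Fin 3 → Fin 3 → ℕ,
      (∀ v j, (Y v j : ℝ) ≤ ((Fintype.card N : ℝ) + 3) ^ 200) ∧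
      (∀ v : N, 0 < Y (Sum.inl v) 2) ∧ (∀ j, Y (Sum.inr j) 2 = 0) ∧
      ∀ S : Set (N ⊕ Fin 3), S.Nonempty → (Expo (fun v j => (Y v j : ℝ)) S ↔
        S = Set.univ ∨ (∃ g, ∀ v ∈ S, ∃ k, T.vert g k = v) ∨ (∀ v ∈ S, ∃ j, v = Sum.inr j)) := by
  classical
  obtain ⟨t, ht1, ht2⟩ := numeric2 (Fintype.card N) Fintype.card_pos
  have hn : (0 : ℝ) ≤ (Fintype.card N : ℝ) := Nat.cast_nonneg _
  generalize hnn : (Fintype.card N : ℝ) = n at ht2 hn ⊢
  have ht : 5 ^ t * Fintype.card F < 2 * 6 ^ t := by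
    rw [card_F T]
    exact ht1
  obtain ⟨r, hgw⟩ := good_w T t ht
  have h6 : (0 : ℝ) < 2 * 6 ^ t := by positivity
  obtain ⟨ω, hωdef⟩ : ∃ ω : N × Fin 3 → ℝ, ω = fun e => 2 * 6 ^ t * (r e)⁻¹ := ⟨_, rfl⟩
  have hω1 : ∀ e, 1 ≤ ω e := by
    intro e
    rw [hωdef]
    change 1 ≤ 2 * 6 ^ t * (r e)⁻¹
    rw [← div_eq_mul_inv, one_le_div (hgw.pos e)]
    exact hgw.up e
  have hω : ∀ e, 0 < ω e := fun e => lt_of_lt_of_le one_pos (hω1 e)
  have hωW : ∀ e, ω e ≤ 2 * 18 ^ t := by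
    intro e
    rw [hωdef]
    change 2 * 6 ^ t * (r e)⁻¹ ≤ 2 * 18 ^ t
    have h1 : (r e)⁻¹ ≤ 3 ^ t := by
      rw [inv_le_iff_one_le_mul₀ (hgw.pos e)]
      exact hgw.low e
    calc 2 * 6 ^ t * (r e)⁻¹ ≤ 2 * 6 ^ t * 3 ^ t := by gcongr
      _ = 2 * 18 ^ t := by rw [mul_assoc, ← mul_pow]; norm_num
  obtain ⟨p, hr, hp⟩ := pot_exists T ω hω
  have hs := pot_sum T ω hω p hr hp
  have hp0 := pot_nonneg T ω hω p hr hp
  have hp1 := pot_le_one T ω hω p hr hp
  have hcpos : (0 : ℝ) < 170000 ^ t := by positivity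
  have hc1 : (1 : ℝ) ≤ 170000 ^ t := one_le_pow₀ (by norm_num)
  have hδ : (0 : ℝ) < 1 / 170000 ^ t := by positivity
  have hδ1 : 1 / 170000 ^ t ≤ (1 : ℝ) := by
    rw [div_le_one hcpos]
    exact hc1
  have hA : ∀ g, 1 / 170000 ^ t ≤ fdet T p g := by
    intro g
    have h := area_lower2 T hT t ht r hgw p hr (fun j => equil_smul T (fun e => (r e)⁻¹) (2 * 6 ^ t)
      h6.ne' _ (by
        have h1 := hp j
        rw [hωdef] at h1
        exact h1)) g
    have h0 : (0 : ℝ) < (216 * Real.exp (20 / 3)) ^ t := by positivity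
    have h1 : 0 < fdet T p g := by
      by_contra hneg
      push Not at hneg
      have := mul_nonpos_of_nonneg_of_nonpos h0.le hneg
      linarith
    have h2 : (216 * Real.exp (20 / 3)) ^ t ≤ (170000 : ℝ) ^ t :=
      pow_le_pow_left₀ (by positivity) exp_num t
    rw [div_le_iff₀ hcpos]
    have h3 := mul_le_mul_of_nonneg_right h2 h1.le
    linarith
  have hA0 : ∀ g, 0 < fdet T p g := fun g => lt_of_lt_of_le hδ (hA g)
  obtain ⟨H, z, hH, hz, hzr, hzb⟩ := lift_norm T ω hω (2 * 18 ^ t) hωW (by positivity) p hr hp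
  rw [hnn] at hzb
  have hfold : ∀ e, (1 / 170000 ^ t : ℝ) ^ 2 ≤ ω e * (fdet T p (T.lf e) * fdet T p (T.rf e)) := by
    intro e
    calc (1 / 170000 ^ t : ℝ) ^ 2
        = 1 * (1 / 170000 ^ t * (1 / 170000 ^ t)) := by ring
      _ ≤ ω e * (fdet T p (T.lf e) * fdet T p (T.rf e)) := by
          have := hA (T.lf e)
          have := hA (T.rf e)
          have := hA0 (T.lf e)
          have := hω1 e
          gcongr
  have hZ1 : 1 ≤ 2 * (n + 3) * (2 * 18 ^ t) := by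
    have : (1 : ℝ) ≤ 18 ^ t := one_le_pow₀ (by norm_num)
    nlinarith
  obtain ⟨Y, hY, hYb, hYn⟩ := rounding T (XX p) z (1 / 170000 ^ t) (2 * (n + 3) * (2 * 18 ^ t))
    hδ hδ1 hZ1 (fun v => ⟨hp0 v 1, hp1 v 1⟩) (fun v => ⟨hp0 v 2, hp1 v 2⟩) hzb
    (by simp [XX, hr]) (by simp [XX, hr]) (by simp [XX, hr]) hzr
    (by
      intro g
      rw [farea_eq T p hs]
      exact hA g)
    (by
      intro e
      rw [(fold_exact T ω p hs hA0 H z hH hz e).1]
      exact hfold e)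
    (by
      intro e
      rw [(fold_exact T ω p hs hA0 H z hH hz e).2]
      exact hfold e)
  have hbd : 60 * (2 * (n + 3) * (2 * 18 ^ t)) ^ 2 / (1 / 170000 ^ t) ^ 2 ≤ (n + 3) ^ 200 := by
    refine le_trans (le_of_eq ?_) ht2
    rw [div_pow, one_pow, div_div_eq_mul_div, div_one]
    have e1 : (9363600000000 : ℝ) ^ t = (18 ^ t) ^ 2 * (170000 ^ t) ^ 2 := by
      rw [← mul_pow, ← mul_pow, ← pow_mul, mul_comm t 2, pow_mul]
      norm_num
    rw [e1]
    ring
  have hroot : ∀ j, Y (Sum.inr j) 2 = 0 := by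
    intro j
    have := hY.root j
    have h2 : (Y (Sum.inr j) 2 : ℝ) = 0 := by linarith
    exact_mod_cast h2
  have hinn : ∀ v : N, 0 < Y (Sum.inl v) 2 := by
    intro v
    have := z_neg T _ _ hY v
    have h2 : (0 : ℝ) < (Y (Sum.inl v) 2 : ℝ) := by linarith
    exact_mod_cast h2
  have hnn' : ∀ v j, 0 ≤ Y v j := by
    intro v j
    fin_cases j
    · exact (hYn v).1
    · exact (hYn v).2
    · rcases v with v | j
      · exact (hinn v).le
      · exact (hroot j).ge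
  have hcast : ∀ v j, (((Y v j).toNat : ℕ) : ℝ) = (Y v j : ℝ) := by
    intro v j
    have := Int.toNat_of_nonneg (hnn' v j)
    exact_mod_cast congrArg (fun x : ℤ => (x : ℝ)) this
  refine ⟨fun v j => (Y v j).toNat, ?_, ?_, ?_, ?_⟩
  · intro v j
    rw [hcast]
    exact le_trans (le_abs_self _) (le_trans (hYb v j) hbd)
  · intro v
    have := hinn v
    change 0 < (Y (Sum.inl v) 2).toNat
    omega
  · intro j
    simp [hroot j]
  · intro S hS
    rw [← expo_iff T _ _ hY S hS]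
    have e : (fun v (j : Fin 3) => (((Y v j).toNat : ℕ) : ℝ)) =
        fun v => ![(Y v 0 : ℝ), (Y v 1 : ℝ), - -(Y v 2 : ℝ)] := by
      funext v j
      rw [hcast]
      fin_cases j
      · rfl
      · rfl
      · simp
    rw [e]

end MP0e5907
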