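import Pool.Agent.Lib_MP_0e5907.QLeg

/-!
# Piece QMUC: the connecting legs and the edge sets `Yof y`

Paper proof. `c = cc T k f`. For `j ≠ c` the third index is `-(c + j)` (`≠ c`, `≠ j`; and `-(c + -(c+j)) = j`): decide.
* `cc_child`: `f ∈ child T k f c`.
* `leg_third_or`: `m = -(c+j)`; `{m+1, m+2} = {c, j}` and both children are nonempty (`cc_child`, `Sib`): `legs_or` for `m`; the two other legs are `c` and `j` (case distinction on `c`, `j` by `fin_cases`/`decide`).
* `muc_nonempty`: from `leg_third_or`.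
* `muc_inj`: if `j1 ≠ j2` then `-(c+j1) = j2`, `-(c+j2) = j1`; `muc j1 ∈ {j2, c}`, `muc j2 ∈ {j1, c}`; equal only if both are `c`; then the legs `j2` and `j1` are empty, contradicting `leg_third_or` for `j1`.
* `JJ_sub`: if `G j k = G j (k+1)` by definition; otherwise an `e` in the filter is in the leg `-(c+j)`, so this leg is nonempty and `muc = -(c+j)`.
* `muc_uncovered`: let `e ∈ leg m`: `lf e ∈ child (m+2)`, `rf e ∈ child (m+1)`. If `m ≠ c` let `j = -(c+m)`: `{m+1,m+2} = {c,j}`, so `Sib T f k j`, `-(c+j) = m`, the leg `m` is nonempty, so `muc j = m`: contradiction. So `m = c` and the children `c+1, c+2` are nonempty, so every `j ≠ c` is a sibling; `muc j ≠ c` by hypothesis, so `muc j = -(c+j)`.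
-/

namespace MP0e5907

open Finset

variable {N F : Type} [Fintype N] [Fintype F]

omit [Fintype N] in
theorem cc_child (T : STri N F) (k : ℕ) (f : F) : f ∈ child T k f (cc T k f) := by
  rw [mem_child]
  exact ⟨mem_cl_self T k f, rfl⟩

theorem qm_pair : ∀ c j : Fin 3, j ≠ c → ((-(c + j) + 1 = c ∧ -(c + j) + 2 = j) ∨ (-(c + j) + 1 = j ∧ -(c + j) + 2 = c)) ∧
    -(c + j) ≠ c ∧ -(c + j) ≠ j ∧ -(c + -(c + j)) = j := by decide

omit [Fintype N] in
theorem qm_sib (T : STri N F) (k : ℕ) (f : F) (j : Fin 3) (hs : Sib T f k j) : (child T k f j).Nonempty := by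
  obtain ⟨_, g, hg, h⟩ := hs
  exact ⟨g, (mem_child T k f j g).2 ⟨hg, h⟩⟩

theorem leg_third_or (T : STri N F) (hT : STriP T) (k : ℕ) (f : F) (j : Fin 3) (hs : Sib T f k j) :
    (leg T k f (-(cc T k f + j))).Nonempty ∨ ((leg T k f (cc T k f)).Nonempty ∧ (leg T k f j).Nonempty) := by
  have h1 := qm_sib T k f j hs
  have h2 : (child T k f (cc T k f)).Nonempty := ⟨f, cc_child T k f⟩
  obtain ⟨hp, _, _, _⟩ := qm_pair (cc T k f) j hs.1
  have h3 := legs_or T hT k f (-(cc T k f + j))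
  rcases hp with ⟨a, b⟩ | ⟨a, b⟩
  · rw [a, b] at h3
    exact h3 h2 h1
  · rw [a, b] at h3
    rcases h3 h1 h2 with h | ⟨h, h'⟩
    · exact Or.inl h
    · exact Or.inr ⟨h', h⟩

theorem muc_nonempty (T : STri N F) (hT : STriP T) (k : ℕ) (f : F) (j : Fin 3) (hs : Sib T f k j) :
    (leg T k f (muc T f k j)).Nonempty := by
  classical
  unfold muc
  split_ifs with h
  · exact h
  · exact ((leg_third_or T hT k f j hs).resolve_left h).1

theorem muc_inj (T : STri N F) (hT : STriP T) (k : ℕ) (f : F) (j1 j2 : Fin 3) (h1 : Sib T f k j1)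
    (h2 : Sib T f k j2) (h : muc T f k j1 = muc T f k j2) : j1 = j2 := by
  classical
  by_contra hne
  have key : ∀ c a b : Fin 3, a ≠ c → b ≠ c → a ≠ b → -(c + a) = b ∧ -(c + b) = a := by decide
  obtain ⟨e1, e2⟩ := key (cc T k f) j1 j2 h1.1 h2.1 hne
  have hor := leg_third_or T hT k f j1 h1
  rw [e1] at hor
  unfold muc at h
  rw [e1, e2] at h
  split_ifs at h with ha hb hb
  · exact hne h.symm
  · exact h2.1 h
  · exact h1.1 h.symm
  · rcases hor with h3 | h3
    · exact ha h3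
    · exact hb h3.2

theorem JJ_sub (T : STri N F) (t : ℕ) (f : F) (G : Fin 3 → ℕ → F) (k : ℕ) (j : Fin 3) :
    JJ T t f G k j ⊆ leg T k f (muc T f k j) := by
  classical
  unfold JJ
  split_ifs with h
  · exact Finset.Subset.refl _
  · intro e he
    have h1 := (Finset.mem_filter.1 he).1
    have h2 : muc T f k j = -(cc T k f + j) := by
      unfold muc
      rw [if_pos ⟨e, h1⟩]
    rw [h2]
    exact h1

theorem muc_uncovered (T : STri N F) (k : ℕ) (f : F) (m : Fin 3) (hm : (leg T k f m).Nonempty)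
    (h : ∀ j, Sib T f k j → muc T f k j ≠ m) :
    m = cc T k f ∧ ∀ j, j ≠ cc T k f → Sib T f k j ∧ muc T f k j = -(cc T k f + j) := by
  classical
  obtain ⟨e, he⟩ := hm
  have hne : (leg T k f m).Nonempty := ⟨e, he⟩
  obtain ⟨hl, hr⟩ := leg_child T he
  rw [mem_child] at hl hr
  have hsib : ∀ j, j ≠ cc T k f → (j = m + 2 ∨ j = m + 1) → Sib T f k j := by
    rintro j hj (rfl | rfl)
    · exact ⟨hj, _, hl.1, hl.2⟩
    · exact ⟨hj, _, hr.1, hr.2⟩
  have hmc : m = cc T k f := by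
    by_contra hmc
    have key : ∀ c m : Fin 3, m ≠ c → -(c + m) ≠ c ∧ (-(c + m) = m + 2 ∨ -(c + m) = m + 1) ∧ -(c + -(c + m)) = m := by decide
    obtain ⟨k1, k2, k3⟩ := key (cc T k f) m hmc
    refine h _ (hsib _ k1 k2) ?_
    unfold muc
    rw [k3, if_pos hne]
  refine ⟨hmc, fun j hj => ?_⟩
  have key2 : ∀ c j : Fin 3, j ≠ c → j = c + 2 ∨ j = c + 1 := by decide
  have hs : Sib T f k j := by
    refine hsib j hj ?_
    rw [hmc]
    exact key2 _ _ hj
  refine ⟨hs, ?_⟩
  have h1 := h j hs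
  unfold muc at h1 ⊢
  split_ifs at h1 ⊢ with h2
  · rfl
  · exact absurd hmc.symm h1

end MP0e5907
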