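import Pool.Agent.Lib_MP_0e5907.QMuc

/-!
# Piece QMUCB: the edge sets `Yof y`

Paper proof. `c = cc T k f`.
* In the following `y p ∈ leg T p.1.1 f (muc T f p.1.1 p.1.2)` for all `p`. `y_inj`: if `y p = y p'` then the levels agree (`leg_lev`), so `p.1.1 = p'.1.1`, and the colours agree (`mem_leg`), so `muc_inj`. `y_mem_leg`: if `y p ∈ leg T k f m` (`k < t`) then `p.1.1 = k`, `muc .. = m`.
* `yof_card`: two elements `y p, y p'` of the leg have `p.1.1 = k = p'.1.1` and the same `muc = m`, so `p = p'` (`muc_inj`).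
* `yof_cover`: if `leg m ∩ Yof = ∅` then no sibling `j` at depth `k` has `muc j = m` (otherwise `y (k,j) ∈ leg m ∩ Yof`), so `muc_uncovered`: `m = c`; for a colour `a ∈ {c+1, c+2}` put `j = -(c+a)`: `muc j = -(c+j) = a` and `y (k,j) ∈ leg a ∩ Yof`.
* `yof_prod`: `∏_{k<t} ∏_m ∏_{e ∈ leg k m ∩ Yof} = ∏` over the disjoint union; `p ↦ y p` is a bijection from `Idx` to this union (`y_inj`; `y p` is in exactly the leg `(p.1.1, muc p)`). E.g. write `∏_{e ∈ leg k m ∩ Yof} h k e = ∏_p if y p ∈ leg k m then h k (y p) else 1` (`y_inj`), exchange the products and use that for fixed `p` exactly one pair `(k,m)` has `y p ∈ leg k m`.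
-/

namespace MP0e5907

open Finset

variable {N F : Type} [Fintype N] [Fintype F]

theorem y_mem_leg (T : STri N F) (t : ℕ) (f : F) (y : Idx T t f → N × Fin 3)
    (hy : ∀ p, y p ∈ leg T p.1.1 f (muc T f p.1.1 p.1.2)) (p : Idx T t f) (k : ℕ) (hk : k < t) (m : Fin 3)
    (h : y p ∈ leg T k f m) : (p.1.1 : ℕ) = k ∧ muc T f p.1.1 p.1.2 = m := by
  have h1 := leg_lev T p.1.1.2 (hy p)
  have h2 := leg_lev T hk h
  have h3 := ((mem_leg T _ f _ _).1 (hy p)).1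
  have h4 := ((mem_leg T _ f _ _).1 h).1
  exact ⟨h1.symm.trans h2, h3.symm.trans h4⟩

private theorem mucB_ext (T : STri N F) (hT : STriP T) (t : ℕ) (f : F) (p p' : Idx T t f)
    (h1 : (p.1.1 : ℕ) = p'.1.1) (h2 : muc T f p.1.1 p.1.2 = muc T f p'.1.1 p'.1.2) : p = p' := by
  obtain ⟨⟨k, j⟩, hj⟩ := p
  obtain ⟨⟨k', j'⟩, hj'⟩ := p'
  have h3 : k = k' := Fin.ext h1
  subst h3
  have h4 : j = j' := muc_inj T hT k f j j' hj hj' h2
  subst h4
  rfl

theorem y_inj (T : STri N F) (hT : STriP T) (t : ℕ) (f : F) (y y' : Idx T t f → N × Fin 3)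
    (hy : ∀ p, y p ∈ leg T p.1.1 f (muc T f p.1.1 p.1.2)) (hy' : ∀ p, y' p ∈ leg T p.1.1 f (muc T f p.1.1 p.1.2))
    (p p' : Idx T t f) (h : y p = y' p') : p = p' := by
  have h1 := hy' p'
  rw [← h] at h1
  obtain ⟨h2, h3⟩ := y_mem_leg T t f y hy p p'.1.1 p'.1.1.2 _ h1
  exact mucB_ext T hT t f p p' h2 h3

open Classical in
theorem yof_card (T : STri N F) (hT : STriP T) (t : ℕ) (f : F) (y : Idx T t f → N × Fin 3)
    (hy : ∀ p, y p ∈ leg T p.1.1 f (muc T f p.1.1 p.1.2)) (k : ℕ) (hk : k < t) (m : Fin 3) :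
    (leg T k f m ∩ Yof T t f y).card ≤ 1 := by
  rw [Finset.card_le_one]
  intro a ha b hb
  obtain ⟨ha1, ha2⟩ := Finset.mem_inter.1 ha
  obtain ⟨hb1, hb2⟩ := Finset.mem_inter.1 hb
  obtain ⟨p, -, rfl⟩ := Finset.mem_image.1 ha2
  obtain ⟨p', -, rfl⟩ := Finset.mem_image.1 hb2
  obtain ⟨h1, h2⟩ := y_mem_leg T t f y hy p k hk m ha1
  obtain ⟨h3, h4⟩ := y_mem_leg T t f y hy p' k hk m hb1
  rw [mucB_ext T hT t f p p' (h1.trans h3.symm) (h2.trans h4.symm)]

private theorem mucB_dec1 : ∀ m : Fin 3, -(m + (m + 1)) ≠ m ∧ -(m + -(m + (m + 1))) = m + 1 := by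
  decide

private theorem mucB_dec2 : ∀ m : Fin 3, -(m + (m + 2)) ≠ m ∧ -(m + -(m + (m + 2))) = m + 2 := by
  decide

open Classical in
theorem yof_cover (T : STri N F) (t : ℕ) (f : F) (y : Idx T t f → N × Fin 3)
    (hy : ∀ p, y p ∈ leg T p.1.1 f (muc T f p.1.1 p.1.2)) (k : ℕ) (hk : k < t) (m : Fin 3)
    (hm : (leg T k f m).Nonempty) (h : leg T k f m ∩ Yof T t f y = ∅) :
    (leg T k f (m + 1) ∩ Yof T t f y).Nonempty ∧ (leg T k f (m + 2) ∩ Yof T t f y).Nonempty := by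
  have key : ∀ j (hj : Sib T f k j) (m' : Fin 3), muc T f k j = m' →
      (leg T k f m' ∩ Yof T t f y).Nonempty := by
    intro j hj m' hm'
    have h1 : y ⟨(⟨k, hk⟩, j), hj⟩ ∈ leg T k f (muc T f k j) := hy ⟨(⟨k, hk⟩, j), hj⟩
    rw [hm'] at h1
    exact ⟨_, Finset.mem_inter.2 ⟨h1, Finset.mem_image_of_mem _ (Finset.mem_univ _)⟩⟩
  obtain ⟨h1, h2⟩ := muc_uncovered T k f m hm (fun j hj hmj => by
    have h3 := key j hj m hmj
    rw [h] at h3
    exact Finset.not_nonempty_empty h3)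
  rw [← h1] at h2
  constructor
  · obtain ⟨h3, h4⟩ := mucB_dec1 m
    obtain ⟨h5, h6⟩ := h2 _ h3
    exact key _ h5 _ (h6.trans h4)
  · obtain ⟨h3, h4⟩ := mucB_dec2 m
    obtain ⟨h5, h6⟩ := h2 _ h3
    exact key _ h5 _ (h6.trans h4)

open Classical in
theorem yof_prod (T : STri N F) (hT : STriP T) (t : ℕ) (f : F) (y : Idx T t f → N × Fin 3)
    (hy : ∀ p, y p ∈ leg T p.1.1 f (muc T f p.1.1 p.1.2)) (r : N × Fin 3 → ℝ) :
    ∏ k ∈ range t, ∏ m, ∏ e ∈ leg T k f m ∩ Yof T t f y, r e / (2 * 6 ^ k) =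
      ∏ p : Idx T t f, r (y p) / (2 * 6 ^ (p.1.1 : ℕ)) := by
  have h1 : ∀ (k : ℕ) (m : Fin 3), ∏ e ∈ leg T k f m ∩ Yof T t f y, r e / (2 * 6 ^ k) =
      ∏ p : Idx T t f, if y p ∈ leg T k f m then r (y p) / (2 * 6 ^ k) else 1 := by
    intro k m
    rw [Finset.inter_comm, ← Finset.filter_mem_eq_inter, Finset.prod_filter]
    exact Finset.prod_image fun p _ p' _ hpp => y_inj T hT t f y y hy hy p p' hpp
  have h2 : ∀ p : Idx T t f, ∏ k ∈ range t, ∏ m, (if y p ∈ leg T k f m then r (y p) / (2 * 6 ^ k) else 1) =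
      r (y p) / (2 * 6 ^ (p.1.1 : ℕ)) := by
    intro p
    rw [Finset.prod_eq_single (p.1.1 : ℕ)]
    · rw [Finset.prod_eq_single (muc T f p.1.1 p.1.2)]
      · rw [if_pos (hy p)]
      · intro m _ hm
        rw [if_neg]
        intro hh
        exact hm (y_mem_leg T t f y hy p p.1.1 p.1.1.2 m hh).2.symm
      · intro hh
        exact absurd (Finset.mem_univ _) hh
    · intro k hk hkp
      refine Finset.prod_eq_one fun m _ => ?_
      rw [if_neg]
      intro hh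
      exact hkp (y_mem_leg T t f y hy p k (Finset.mem_range.1 hk) m hh).1.symm
    · intro hh
      exact absurd (Finset.mem_range.2 p.1.1.2) hh
  calc ∏ k ∈ range t, ∏ m, ∏ e ∈ leg T k f m ∩ Yof T t f y, r e / (2 * 6 ^ k)
      = ∏ k ∈ range t, ∏ m, ∏ p : Idx T t f, (if y p ∈ leg T k f m then r (y p) / (2 * 6 ^ k) else 1) :=
        Finset.prod_congr rfl fun k _ => Finset.prod_congr rfl fun m _ => h1 k m
    _ = ∏ k ∈ range t, ∏ p : Idx T t f, ∏ m, (if y p ∈ leg T k f m then r (y p) / (2 * 6 ^ k) else 1) :=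
        Finset.prod_congr rfl fun k _ => Finset.prod_comm
    _ = ∏ p : Idx T t f, ∏ k ∈ range t, ∏ m, (if y p ∈ leg T k f m then r (y p) / (2 * 6 ^ k) else 1) :=
        Finset.prod_comm
    _ = ∏ p : Idx T t f, r (y p) / (2 * 6 ^ (p.1.1 : ℕ)) := Finset.prod_congr rfl fun p _ => h2 p

end MP0e5907
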