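import Pool.Agent.Lib_MP_0e5907.QLeg
import Pool.Agent.Lib_MP_0e5907.QComp

/-!
# Piece QOSC: the effective dual diameter of a cluster of depth `d` is at most `2/6^d`

Paper proof. `Δ_e = x (lf e) - x (rf e)`, `H = hub T (cl T d f)`, `K = cl T d f`.
* `ens_split`: an edge with both faces in `K` has either equal hub regions `i` (then both faces are in the child `i`), or different ones (then it is in the leg `e.2`); and conversely; the sets are disjoint. So `EnS K = ∑_i EnS (child i) + ∑_m EnE (leg m)`.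
* `leg_avg`: if the leg `m` is nonempty there is `e ∈ leg` with `Δ_e^2 ≤ EnE (leg) / (2 * 6^d)`: otherwise `EnE = ∑ r_e Δ_e^2 > ∑ r_e EnE/(2*6^d) = EnE` (`hr.tot`, `r > 0`).
* `titu3`, `titu5`: from `titu2`.
* `osc`: induction on `t - d`. `d = t`: `g = g'` (`cl_small`), and `EnS ≥ 0`. `d < t`: `ρ = 2/6^(d+1)`. Every child `i` is empty or `= cl T (d+1) g0` for any `g0` in it (`child_eq`), so for `a, b` in the same child `(x a - x b)^2 ≤ ρ EnS (child i)`.
  - `g, g'` in the same child: `ρ EnS (child) ≤ 2/6^d EnS K`.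
  - in different children `i ≠ j`: let `m = -(i+j)` be the third index, so `{i,j} = {m+1, m+2}` (by symmetry `(x g - x g')^2 = (x g' - x g)^2` we may assume `i = m+2`, `j = m+1`). `legs_or`:
    + leg `m` nonempty: `e` from `leg_avg`, `lf e ∈ child (m+2)`, `rf e ∈ child (m+1)` (`leg_child`): `x g - x g' = (x g - x (lf e)) + Δ_e + (x (rf e) - x g')`; `titu3` with `ρ, 1/(2*6^d), ρ` and the energies `EnS (child (m+2)), EnE (leg m), EnS (child (m+1))`; `2ρ + 1/(2*6^d) ≤ 2/6^d`.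
    + legs `m+1` and `m+2` nonempty: `e1 ∈ leg (m+1)` from `leg_avg`: `lf e1 ∈ child (m+1+2 = m)`, `rf e1 ∈ child (m+1+1 = m+2)`; `e2 ∈ leg (m+2)`: `lf e2 ∈ child (m+2+2 = m+1)`, `rf e2 ∈ child (m+2+1 = m)`:
      `x g - x g' = (x g - x (rf e1)) - Δ_{e1} + (x (lf e1) - x (rf e2)) - Δ_{e2} + (x (lf e2) - x g')`; `titu5` with `ρ, 1/(2*6^d), ρ, 1/(2*6^d), ρ`: `3ρ + 1/6^d = 2/6^d`. (Check: `x g - x (rf e1) + x (rf e1) - x (lf e1) + x (lf e1) - x (rf e2) + x (rf e2) - x (lf e2) + x (lf e2) - x g'`; note `x (rf e) - x (lf e) = - Δ_e`.)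
  In both cases the energies add up to at most `EnS K` (`ens_split`, all terms nonnegative).
-/

namespace MP0e5907

open Finset

variable {N F : Type} [Fintype N] [Fintype F]

omit [Fintype N] [Fintype F] in
private theorem sum3 (h : Fin 3 → ℝ) (m : Fin 3) : ∑ i, h i = h m + h (m + 1) + h (m + 2) := by
  rw [Fin.sum_univ_three]
  have h1 : ∀ m : Fin 3, m = 0 ∨ m = 1 ∨ m = 2 := by decide
  rcases h1 m with rfl | rfl | rfl
  · rfl
  · have e1 : (1 : Fin 3) + 1 = 2 := by decide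
    have e2 : (1 : Fin 3) + 2 = 0 := by decide
    rw [e1, e2]
    ring
  · have e1 : (2 : Fin 3) + 1 = 0 := by decide
    have e2 : (2 : Fin 3) + 2 = 1 := by decide
    rw [e1, e2]
    ring

theorem titu3 (p q s a b c P Q S : ℝ) (ha : 0 ≤ a) (hb : 0 ≤ b) (hc : 0 ≤ c) (hP : 0 ≤ P) (hQ : 0 ≤ Q) (hS : 0 ≤ S)
    (h1 : p ^ 2 ≤ a * P) (h2 : q ^ 2 ≤ b * Q) (h3 : s ^ 2 ≤ c * S) :
    (p + q + s) ^ 2 ≤ (a + b + c) * (P + Q + S) :=
  titu2 (p + q) s (a + b) c (P + Q) S (add_nonneg ha hb) hc (add_nonneg hP hQ) hS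
    (titu2 p q a b P Q ha hb hP hQ h1 h2) h3

private theorem titu5 (p q s u v a b c d e P Q S U V : ℝ) (ha : 0 ≤ a) (hb : 0 ≤ b) (hc : 0 ≤ c) (hd : 0 ≤ d)
    (he : 0 ≤ e) (hP : 0 ≤ P) (hQ : 0 ≤ Q) (hS : 0 ≤ S) (hU : 0 ≤ U) (hV : 0 ≤ V)
    (h1 : p ^ 2 ≤ a * P) (h2 : q ^ 2 ≤ b * Q) (h3 : s ^ 2 ≤ c * S) (h4 : u ^ 2 ≤ d * U) (h5 : v ^ 2 ≤ e * V) :
    (p + q + s + u + v) ^ 2 ≤ (a + b + c + d + e) * (P + Q + S + U + V) :=
  titu3 (p + q + s) u v (a + b + c) d e (P + Q + S) U V (add_nonneg (add_nonneg ha hb) hc) hd he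
    (add_nonneg (add_nonneg hP hQ) hS) hU hV (titu3 p q s a b c P Q S ha hb hc hP hQ hS h1 h2 h3) h4 h5

theorem ens_nonneg (T : STri N F) (r : N × Fin 3 → ℝ) (hr : ∀ e, 0 ≤ r e) (K : Finset F) (x : F → ℝ) :
    0 ≤ EnS T r K x :=
  Finset.sum_nonneg fun e _ => mul_nonneg (hr e) (sq_nonneg _)

private theorem ene_nonneg (T : STri N F) (r : N × Fin 3 → ℝ) (hr : ∀ e, 0 ≤ r e) (W : Finset (N × Fin 3))
    (x : F → ℝ) : 0 ≤ EnE T r W x :=
  Finset.sum_nonneg fun e _ => mul_nonneg (hr e) (sq_nonneg _)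

theorem ens_split (T : STri N F) (r : N × Fin 3 → ℝ) (d : ℕ) (f : F) (x : F → ℝ) :
    EnS T r (cl T d f) x = ∑ i, EnS T r (child T d f i) x + ∑ m, EnE T r (leg T d f m) x := by
  classical
  obtain ⟨Φ, hΦ⟩ : ∃ Φ : N × Fin 3 → ℝ, Φ = fun e => r e * (x (T.lf e) - x (T.rf e)) ^ 2 := ⟨_, rfl⟩
  have e1 : ∀ K : Finset F, EnS T r K x = ∑ e, if (T.lf e ∈ K ∧ T.rf e ∈ K) then Φ e else 0 := by
    intro K
    unfold EnS
    rw [Finset.sum_filter, hΦ]
  have e2 : ∀ W : Finset (N × Fin 3), EnE T r W x = ∑ e, if e ∈ W then Φ e else 0 := by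
    intro W
    unfold EnE
    rw [Finset.sum_ite_mem, Finset.univ_inter, hΦ]
  rw [e1, Finset.sum_congr rfl fun i _ => e1 (child T d f i), Finset.sum_comm,
    Finset.sum_congr rfl fun m _ => e2 (leg T d f m),
    Finset.sum_comm (s := Finset.univ) (t := Finset.univ) (f := fun m e => if e ∈ leg T d f m then Φ e else 0),
    ← Finset.sum_add_distrib]
  refine Finset.sum_congr rfl fun e _ => ?_
  by_cases hK : T.lf e ∈ cl T d f ∧ T.rf e ∈ cl T d f
  · rw [if_pos hK]
    by_cases hreg : T.reg (hub T (cl T d f)) (T.lf e) = T.reg (hub T (cl T d f)) (T.rf e)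
    · rw [Finset.sum_eq_single (T.reg (hub T (cl T d f)) (T.lf e)), Finset.sum_eq_zero, add_zero, if_pos]
      · exact ⟨(mem_child T d f _ _).2 ⟨hK.1, rfl⟩, (mem_child T d f _ _).2 ⟨hK.2, hreg.symm⟩⟩
      · intro m _
        rw [if_neg]
        intro h
        exact ((mem_leg T d f m e).1 h).2.2.2 hreg
      · intro i _ hi
        rw [if_neg]
        rintro ⟨h1, -⟩
        exact hi ((mem_child T d f _ _).1 h1).2.symm
      · intro h
        exact absurd (Finset.mem_univ _) h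
    · rw [Finset.sum_eq_zero (f := fun i => if T.lf e ∈ child T d f i ∧ T.rf e ∈ child T d f i then Φ e else 0),
        Finset.sum_eq_single e.2, zero_add, if_pos]
      · exact (mem_leg T d f _ e).2 ⟨rfl, hK.1, hK.2, hreg⟩
      · intro m _ hm
        rw [if_neg]
        intro h
        exact hm ((mem_leg T d f m e).1 h).1.symm
      · intro h
        exact absurd (Finset.mem_univ _) h
      · intro i _
        rw [if_neg]
        rintro ⟨h1, h2⟩
        exact hreg (((mem_child T d f _ _).1 h1).2.trans ((mem_child T d f _ _).1 h2).2.symm)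
  · rw [if_neg hK, Finset.sum_eq_zero, Finset.sum_eq_zero, add_zero]
    · intro m _
      rw [if_neg]
      intro h
      have := (mem_leg T d f m e).1 h
      exact hK ⟨this.2.1, this.2.2.1⟩
    · intro i _
      rw [if_neg]
      rintro ⟨h1, h2⟩
      exact hK ⟨((mem_child T d f _ _).1 h1).1, ((mem_child T d f _ _).1 h2).1⟩

theorem leg_avg (T : STri N F) (t : ℕ) (r : N × Fin 3 → ℝ) (hr : GoodW T t r) (d : ℕ) (hd : d < t) (f : F) (m : Fin 3)
    (hm : (leg T d f m).Nonempty) (x : F → ℝ) :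
    ∃ e ∈ leg T d f m, (x (T.lf e) - x (T.rf e)) ^ 2 ≤ 1 / (2 * 6 ^ d) * EnE T r (leg T d f m) x := by
  by_contra hcon
  push Not at hcon
  have h1 : ∑ e ∈ leg T d f m, r e * (1 / (2 * 6 ^ d) * EnE T r (leg T d f m) x) <
      ∑ e ∈ leg T d f m, r e * (x (T.lf e) - x (T.rf e)) ^ 2 :=
    Finset.sum_lt_sum_of_nonempty hm fun e he => mul_lt_mul_of_pos_left (hcon e he) (hr.pos e)
  rw [← Finset.sum_mul, hr.tot d hd f m hm, ← mul_assoc] at h1
  have h6 : (0 : ℝ) < 6 ^ d := by positivity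
  have h2 : (2 * 6 ^ d : ℝ) * (1 / (2 * 6 ^ d)) = 1 := by
    field_simp
  rw [h2, one_mul] at h1
  exact lt_irrefl _ h1

private theorem fin3_p : ∀ i j : Fin 3, i ≠ j → ∃ m : Fin 3, (i = m + 2 ∧ j = m + 1) ∨ (i = m + 1 ∧ j = m + 2) := by
  decide

private theorem fin3_q : ∀ m : Fin 3, m + 1 + 2 = m ∧ m + 1 + 1 = m + 2 ∧ m + 2 + 2 = m + 1 ∧ m + 2 + 1 = m := by
  decide

private theorem osc_aux (T : STri N F) (hT : STriP T) (t : ℕ) (ht : 5 ^ t * Fintype.card F < 2 * 6 ^ t)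
    (r : N × Fin 3 → ℝ) (hr : GoodW T t r) (x : F → ℝ) :
    ∀ n d, d ≤ t → t - d = n → ∀ f g g', g ∈ cl T d f → g' ∈ cl T d f →
      (x g - x g') ^ 2 ≤ 2 / 6 ^ d * EnS T r (cl T d f) x := by
  intro n
  have hr0 : ∀ e, 0 ≤ r e := fun e => (hr.pos e).le
  induction n with
  | zero =>
    intro d hd hn f g g' hg hg'
    have hdt : d = t := by omega
    subst hdt
    have h1 := cl_small T d ht f
    rw [h1, Finset.mem_singleton] at hg hg'
    rw [hg, hg', sub_self]
    have h2 := ens_nonneg T r hr0 (cl T d f) x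
    have h3 : (0 : ℝ) ≤ 2 / 6 ^ d := by positivity
    have h4 := mul_nonneg h3 h2
    simpa using h4
  | succ n ih =>
    intro d hd hn f g g' hg hg'
    have hdt : d < t := by omega
    have hch : ∀ i a b, a ∈ child T d f i → b ∈ child T d f i →
        (x a - x b) ^ 2 ≤ 2 / 6 ^ (d + 1) * EnS T r (child T d f i) x := by
      intro i a b ha hb
      have ha' := (mem_child T d f i a).1 ha
      have h1 := child_eq T ha'.1
      rw [ha'.2] at h1
      rw [h1] at hb ⊢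
      exact ih (d + 1) (by omega) (by omega) a a b (mem_cl_self T (d + 1) a) hb
    have hE := ens_split T r d f x
    have hSn : ∀ i, 0 ≤ EnS T r (child T d f i) x := fun i => ens_nonneg T r hr0 _ x
    have hLn : ∀ m, 0 ≤ EnE T r (leg T d f m) x := fun m => ene_nonneg T r hr0 _ x
    have h6 : (0 : ℝ) < 6 ^ d := by positivity
    have hρ : (2 : ℝ) / 6 ^ (d + 1) = 1 / 3 * (1 / 6 ^ d) := by
      rw [pow_succ]
      field_simp
      norm_num
    have hτ : (1 : ℝ) / (2 * 6 ^ d) = 1 / 2 * (1 / 6 ^ d) := by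
      field_simp
    have hσ : (2 : ℝ) / 6 ^ d = 2 * (1 / 6 ^ d) := by
      field_simp
    have hu : (0 : ℝ) ≤ 1 / 6 ^ d := by positivity
    have hK := ens_nonneg T r hr0 (cl T d f) x
    -- different children
    have key : ∀ m a b, a ∈ child T d f (m + 2) → b ∈ child T d f (m + 1) →
        (x a - x b) ^ 2 ≤ 2 / 6 ^ d * EnS T r (cl T d f) x := by
      intro m a b ha hb
      rw [sum3 _ m, sum3 _ m] at hE
      have n0 := hSn m
      have n1 := hSn (m + 1)
      have n2 := hSn (m + 2)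
      have l0 := hLn m
      have l1 := hLn (m + 1)
      have l2 := hLn (m + 2)
      rcases legs_or T hT d f m ⟨b, hb⟩ ⟨a, ha⟩ with hm | ⟨hm1, hm2⟩
      · obtain ⟨e, he, heE⟩ := leg_avg T t r hr d hdt f m hm x
        obtain ⟨hl, hrr⟩ := leg_child T he
        have h1 := hch (m + 2) a (T.lf e) ha hl
        have h3 := hch (m + 1) (T.rf e) b hrr hb
        have h4 := titu3 (x a - x (T.lf e)) (x (T.lf e) - x (T.rf e)) (x (T.rf e) - x b)
          (2 / 6 ^ (d + 1)) (1 / (2 * 6 ^ d)) (2 / 6 ^ (d + 1)) _ _ _ (by positivity) (by positivity)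
          (by positivity) n2 l0 n1 h1 heE h3
        have h5 : x a - x (T.lf e) + (x (T.lf e) - x (T.rf e)) + (x (T.rf e) - x b) = x a - x b := by ring
        rw [h5] at h4
        refine h4.trans (mul_le_mul ?_ ?_ (by linarith) (by positivity))
        · rw [hρ, hτ, hσ]
          linarith
        · linarith
      · obtain ⟨q1, q2, q3, q4⟩ := fin3_q m
        obtain ⟨e1, he1, heE1⟩ := leg_avg T t r hr d hdt f (m + 1) hm1 x
        obtain ⟨hl1, hr1⟩ := leg_child T he1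
        rw [q1] at hl1
        rw [q2] at hr1
        obtain ⟨e2, he2, heE2⟩ := leg_avg T t r hr d hdt f (m + 2) hm2 x
        obtain ⟨hl2, hr2⟩ := leg_child T he2
        rw [q3] at hl2
        rw [q4] at hr2
        have h1 := hch (m + 2) a (T.rf e1) ha hr1
        have h3 := hch m (T.lf e1) (T.rf e2) hl1 hr2
        have h5 := hch (m + 1) (T.lf e2) b hl2 hb
        have h2 : (x (T.rf e1) - x (T.lf e1)) ^ 2 ≤ 1 / (2 * 6 ^ d) * EnE T r (leg T d f (m + 1)) x := by
          have : (x (T.rf e1) - x (T.lf e1)) ^ 2 = (x (T.lf e1) - x (T.rf e1)) ^ 2 := by ring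
          rw [this]
          exact heE1
        have h4 : (x (T.rf e2) - x (T.lf e2)) ^ 2 ≤ 1 / (2 * 6 ^ d) * EnE T r (leg T d f (m + 2)) x := by
          have : (x (T.rf e2) - x (T.lf e2)) ^ 2 = (x (T.lf e2) - x (T.rf e2)) ^ 2 := by ring
          rw [this]
          exact heE2
        have h7 := titu5 (x a - x (T.rf e1)) (x (T.rf e1) - x (T.lf e1)) (x (T.lf e1) - x (T.rf e2))
          (x (T.rf e2) - x (T.lf e2)) (x (T.lf e2) - x b)
          (2 / 6 ^ (d + 1)) (1 / (2 * 6 ^ d)) (2 / 6 ^ (d + 1)) (1 / (2 * 6 ^ d)) (2 / 6 ^ (d + 1)) _ _ _ _ _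
          (by positivity) (by positivity) (by positivity) (by positivity) (by positivity)
          n2 l1 n0 l2 n1 h1 h2 h3 h4 h5
        have h8 : x a - x (T.rf e1) + (x (T.rf e1) - x (T.lf e1)) + (x (T.lf e1) - x (T.rf e2)) +
            (x (T.rf e2) - x (T.lf e2)) + (x (T.lf e2) - x b) = x a - x b := by ring
        rw [h8] at h7
        refine h7.trans (mul_le_mul ?_ ?_ (by linarith) (by positivity))
        · rw [hρ, hτ, hσ]
          linarith
        · linarith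
    by_cases hij : T.reg (hub T (cl T d f)) g = T.reg (hub T (cl T d f)) g'
    · have h1 := hch (T.reg (hub T (cl T d f)) g) g g' ((mem_child T d f _ _).2 ⟨hg, rfl⟩)
        ((mem_child T d f _ _).2 ⟨hg', hij.symm⟩)
      rw [sum3 _ (T.reg (hub T (cl T d f)) g), sum3 _ (T.reg (hub T (cl T d f)) g)] at hE
      have n0 := hSn (T.reg (hub T (cl T d f)) g)
      have n1 := hSn (T.reg (hub T (cl T d f)) g + 1)
      have n2 := hSn (T.reg (hub T (cl T d f)) g + 2)
      have l0 := hLn (T.reg (hub T (cl T d f)) g)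
      have l1 := hLn (T.reg (hub T (cl T d f)) g + 1)
      have l2 := hLn (T.reg (hub T (cl T d f)) g + 2)
      refine h1.trans (mul_le_mul ?_ ?_ n0 (by positivity))
      · rw [hρ, hσ]
        linarith
      · linarith
    · obtain ⟨m, ⟨h1, h2⟩ | ⟨h1, h2⟩⟩ := fin3_p _ _ hij
      · exact key m g g' ((mem_child T d f _ _).2 ⟨hg, h1⟩) ((mem_child T d f _ _).2 ⟨hg', h2⟩)
      · have h3 := key m g' g ((mem_child T d f _ _).2 ⟨hg', h2⟩) ((mem_child T d f _ _).2 ⟨hg, h1⟩)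
        have h4 : (x g - x g') ^ 2 = (x g' - x g) ^ 2 := by ring
        rw [h4]
        exact h3

theorem osc (T : STri N F) (hT : STriP T) (t : ℕ) (ht : 5 ^ t * Fintype.card F < 2 * 6 ^ t) (r : N × Fin 3 → ℝ)
    (hr : GoodW T t r) (d : ℕ) (hd : d ≤ t) (f g g' : F) (hg : g ∈ cl T d f) (hg' : g' ∈ cl T d f) (x : F → ℝ) :
    (x g - x g') ^ 2 ≤ 2 / 6 ^ d * EnS T r (cl T d f) x :=
  osc_aux T hT t ht r hr x (t - d) d hd rfl f g g' hg hg'

/-- the same for the children -/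
theorem osc_child (T : STri N F) (hT : STriP T) (t : ℕ) (ht : 5 ^ t * Fintype.card F < 2 * 6 ^ t) (r : N × Fin 3 → ℝ)
    (hr : GoodW T t r) (d : ℕ) (hd : d < t) (f : F) (i : Fin 3) (g g' : F) (hg : g ∈ child T d f i)
    (hg' : g' ∈ child T d f i) (x : F → ℝ) :
    (x g - x g') ^ 2 ≤ 2 / 6 ^ (d + 1) * EnS T r (child T d f i) x := by
  have ha' := (mem_child T d f i g).1 hg
  have h1 := child_eq T ha'.1
  rw [ha'.2] at h1
  rw [h1] at hg' ⊢
  exact osc T hT t ht r hr (d + 1) hd g g g' (mem_cl_self T (d + 1) g) hg' x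

end MP0e5907
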