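import Pool.Agent.Lib_MP_0e5907.Base3
import Pool.Agent.Lib_MP_0e5907.BasisA
import Pool.Agent.Lib_MP_0e5907.Exact

/-!
# Piece QPART: a dual spanning tree with few edges between the parts spans every part

Paper proof. `U` = complement of `S` (a dual spanning tree), `#U = 3n - n = 2n = #F - 1` (`card_F`). For a part `p` (value of `part`) let `F_p` be the set of faces of this part (nonempty for `p` in the image) and `U_p` the set of `e ∈ U` with both faces in `F_p`.
* The linear map `Φ_p : (U_p → ℝ) → (F_p → ℝ)`, `Φ_p γ g = bd T γ' g` (`γ'` = extension of `γ` by `0` to all edges) is injective: `bd T γ'` vanishes outside `F_p` automatically, so if `Φ_p γ = 0` then `bd T γ' = 0` and `γ' = 0` on `S`, so `γ' = 0` by `lemmaA`. Its range lies in the functions with sum `0` (`sum_bd`), a space of dimension `#F_p - 1`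
  (`F_p` nonempty; kernel of a nonzero functional). So `#U_p ≤ #F_p - 1`.
* The number of edges of `U` between different parts is at most `#Y ≤ #parts - 1` (`hY`, `hc`). Summing up: `#F - 1 = #U = ∑_p #U_p + #(U between parts) ≤ (#F - #parts) + (#parts - 1) = #F - 1`. So all inequalities are equalities: `#U_p = #F_p - 1` for all `p`, (and the set of edges of `U` between parts has `#Y` elements, so it is `Y`; not needed).
* Hence `Φ_p` is onto the functions with sum `0` on `F_p`. For `g, g'` in the same part `p` take `γ` with `Φ_p γ = δ_g - δ_{g'}`.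
-/

namespace MP0e5907

open Finset

variable {N F : Type} [Fintype N] [Fintype F]

omit [Fintype F] in
open Classical in
private theorem qp_bd (T : STri N F) (γ : N × Fin 3 → ℝ) (g : F) :
    bd T γ g = ∑ e, ((if T.lf e = g then 1 else 0) - (if T.rf e = g then 1 else 0)) * γ e := by
  unfold bd
  rw [← Finset.sum_sub_distrib]
  refine Finset.sum_congr rfl fun e _ => ?_
  split_ifs <;> ring

open Classical in
private theorem qp_pair (T : STri N F) (γ : N × Fin 3 → ℝ) (w : F → ℝ) :
    ∑ g, w g * bd T γ g = ∑ e, (w (T.lf e) - w (T.rf e)) * γ e := by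
  have h1 : ∀ g, w g * bd T γ g =
      ∑ e, w g * (((if T.lf e = g then 1 else 0) - (if T.rf e = g then 1 else 0)) * γ e) := by
    intro g
    rw [qp_bd, Finset.mul_sum]
  rw [Finset.sum_congr rfl fun g _ => h1 g, Finset.sum_comm]
  refine Finset.sum_congr rfl fun e _ => ?_
  have h2 : ∀ g, w g * (((if T.lf e = g then 1 else 0) - (if T.rf e = g then 1 else 0)) * γ e) =
      (if T.lf e = g then w g * γ e else 0) - (if T.rf e = g then w g * γ e else 0) := by
    intro g
    split_ifs <;> ring
  rw [Finset.sum_congr rfl fun g _ => h2 g, Finset.sum_sub_distrib, Finset.sum_ite_eq,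
    Finset.sum_ite_eq, if_pos (Finset.mem_univ _), if_pos (Finset.mem_univ _)]
  ring

open Classical in
private theorem qp_surj (T : STri N F) (S : Finset (N × Fin 3)) (hS : IsB T S) (g0 : F)
    (h : F → ℝ) : ∃ (γ : N × Fin 3 → ℝ) (c : ℝ), (∀ e ∈ S, γ e = 0) ∧
      ∀ g, bd T γ g + (if g = g0 then c else 0) = h g := by
  let xt : ({e // e ∈ Sᶜ} → ℝ) → (N × Fin 3) → ℝ :=
    fun p e => if he : e ∈ Sᶜ then p ⟨e, he⟩ else 0
  have hadd : ∀ p p' e, xt (p + p') e = xt p e + xt p' e := by
    intro p p' e
    by_cases he : e ∈ Sᶜ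
    · simp only [xt, dif_pos he, Pi.add_apply]
    · simp only [xt, dif_neg he, add_zero]
  have hsm : ∀ (c : ℝ) p e, xt (c • p) e = c * xt p e := by
    intro c p e
    by_cases he : e ∈ Sᶜ
    · simp only [xt, dif_pos he, Pi.smul_apply, smul_eq_mul]
    · simp only [xt, dif_neg he, mul_zero]
  let L : (({e // e ∈ Sᶜ} → ℝ) × ℝ) →ₗ[ℝ] (F → ℝ) :=
    { toFun := fun p g => bd T (xt p.1) g + (if g = g0 then p.2 else 0)
      map_add' := by
        intro p p'
        funext g
        change bd T (xt (p.1 + p'.1)) g + (if g = g0 then p.2 + p'.2 else 0) =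
          (bd T (xt p.1) g + (if g = g0 then p.2 else 0)) +
          (bd T (xt p'.1) g + (if g = g0 then p'.2 else 0))
        have h1 : bd T (xt (p.1 + p'.1)) g = bd T (xt p.1) g + bd T (xt p'.1) g := by
          rw [qp_bd, qp_bd, qp_bd, ← Finset.sum_add_distrib]
          refine Finset.sum_congr rfl fun e _ => ?_
          rw [hadd]
          ring
        rw [h1]
        split_ifs <;> ring
      map_smul' := by
        intro c p
        funext g
        change bd T (xt (c • p.1)) g + (if g = g0 then c * p.2 else 0) =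
          c * (bd T (xt p.1) g + (if g = g0 then p.2 else 0))
        have h1 : bd T (xt (c • p.1)) g = c * bd T (xt p.1) g := by
          rw [qp_bd, qp_bd, Finset.mul_sum]
          refine Finset.sum_congr rfl fun e _ => ?_
          rw [hsm]
          ring
        rw [h1]
        split_ifs <;> ring }
  have hxS : ∀ p, ∀ e ∈ S, xt p e = 0 := by
    intro p e he
    have he' : e ∉ Sᶜ := by
      rw [Finset.mem_compl, not_not]
      exact he
    simp only [xt, dif_neg he']
  have hinj : Function.Injective L := by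
    rw [injective_iff_map_eq_zero]
    intro p hp
    have h1 : ∀ g, bd T (xt p.1) g + (if g = g0 then p.2 else 0) = 0 := fun g => congrFun hp g
    have h2 : p.2 = 0 := by
      have h3 : ∑ g, (bd T (xt p.1) g + (if g = g0 then p.2 else 0)) = 0 :=
        Finset.sum_eq_zero fun g _ => h1 g
      rw [Finset.sum_add_distrib, sum_bd, zero_add, Finset.sum_ite_eq',
        if_pos (Finset.mem_univ _)] at h3
      exact h3
    have h4 : ∀ g, bd T (xt p.1) g = 0 := by
      intro g
      have h5 := h1 g
      rw [h2] at h5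
      simpa using h5
    have h6 := lemmaA T S hS (xt p.1) (hxS p.1) h4
    refine Prod.ext ?_ h2
    funext e
    have h7 := h6 e.1
    have h8 : xt p.1 e.1 = p.1 e := by
      simp only [xt, dif_pos e.2]
    rw [← h8, h7]
    rfl
  have hfin : Module.finrank ℝ (({e // e ∈ Sᶜ} → ℝ) × ℝ) = Module.finrank ℝ (F → ℝ) := by
    rw [Module.finrank_prod, Module.finrank_fintype_fun_eq_card,
      Module.finrank_fintype_fun_eq_card, Fintype.card_coe, Finset.card_compl, hS.1,
      Module.finrank_self, card_F T, Fintype.card_prod, Fintype.card_fin]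
    omega
  have hsurj : Function.Surjective L :=
    (LinearMap.injective_iff_surjective_of_finrank_eq_finrank hfin).1 hinj
  obtain ⟨p, hp⟩ := hsurj h
  exact ⟨xt p.1, p.2, hxS p.1, fun g => congrFun hp g⟩

open Classical in
private theorem qp_quot (T : STri N F) (S : Finset (N × Fin 3)) (hS : IsB T S) {ι : Type}
    (part : F → ι) (Y : Finset (N × Fin 3))
    (hY : ∀ e, e ∉ S → part (T.lf e) ≠ part (T.rf e) → e ∈ Y)
    (hc : Y.card + 1 ≤ ((Finset.univ : Finset F).image part).card) :
    (∀ γ : N × Fin 3 → ℝ, (∀ e ∈ S, γ e = 0) →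
      (∀ q, ∑ g, (if part g = q then 1 else 0) * bd T γ g = 0) →
      ∀ e, part (T.lf e) ≠ part (T.rf e) → γ e = 0) ∧ ∀ e ∈ Y, e ∉ S := by
  obtain ⟨Y', hY'⟩ : ∃ Y' : Finset (N × Fin 3),
      Y' = Finset.univ.filter (fun e => e ∉ S ∧ part (T.lf e) ≠ part (T.rf e)) := ⟨_, rfl⟩
  have hmem : ∀ e, e ∈ Y' ↔ e ∉ S ∧ part (T.lf e) ≠ part (T.rf e) := by
    intro e
    rw [hY', Finset.mem_filter]
    exact ⟨fun h => h.2, fun h => ⟨Finset.mem_univ _, h⟩⟩
  have hsub : Y' ⊆ Y := fun e he => hY e ((hmem e).1 he).1 ((hmem e).1 he).2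
  have hcard : Y'.card ≤ Y.card := Finset.card_le_card hsub
  let P : Finset ι := (Finset.univ : Finset F).image part
  let cf : N × Fin 3 → ι → ℝ :=
    fun e q => (if part (T.lf e) = q then 1 else 0) - (if part (T.rf e) = q then 1 else 0)
  have hsumY : ∀ (γ : N × Fin 3 → ℝ), (∀ e ∈ S, γ e = 0) → ∀ q,
      ∑ e, cf e q * γ e = ∑ e : {e // e ∈ Y'}, cf e.1 q * γ e.1 := by
    intro γ hγ q
    rw [Finset.sum_coe_sort Y' (fun e => cf e q * γ e)]
    symm
    refine Finset.sum_subset (Finset.subset_univ _) fun e _ he => ?_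
    rw [hmem, not_and_or, not_not, not_not] at he
    rcases he with he | he
    · rw [hγ e he, mul_zero]
    · simp only [cf, he, sub_self, zero_mul]
  have hpart : ∀ (γ : N × Fin 3 → ℝ) (q : ι),
      ∑ g, (if part g = q then 1 else 0) * bd T γ g = ∑ e, cf e q * γ e := by
    intro γ q
    exact qp_pair T γ (fun g => if part g = q then 1 else 0)
  let g0 : F := T.of 0
  let Ψ : (({e // e ∈ Y'} → ℝ) × ℝ) →ₗ[ℝ] ({q // q ∈ P} → ℝ) :=
    { toFun := fun p q => ∑ e : {e // e ∈ Y'}, cf e.1 q.1 * p.1 e +
        (if part g0 = q.1 then p.2 else 0)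
      map_add' := by
        intro p p'
        funext q
        change ∑ e : {e // e ∈ Y'}, cf e.1 q.1 * (p.1 e + p'.1 e) +
            (if part g0 = q.1 then p.2 + p'.2 else 0) =
          (∑ e : {e // e ∈ Y'}, cf e.1 q.1 * p.1 e + (if part g0 = q.1 then p.2 else 0)) +
          (∑ e : {e // e ∈ Y'}, cf e.1 q.1 * p'.1 e + (if part g0 = q.1 then p'.2 else 0))
        have h1 : ∑ e : {e // e ∈ Y'}, cf e.1 q.1 * (p.1 e + p'.1 e) =
            ∑ e : {e // e ∈ Y'}, cf e.1 q.1 * p.1 e +
            ∑ e : {e // e ∈ Y'}, cf e.1 q.1 * p'.1 e := by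
          rw [← Finset.sum_add_distrib]
          exact Finset.sum_congr rfl fun e _ => mul_add _ _ _
        rw [h1]
        split_ifs <;> ring
      map_smul' := by
        intro c p
        funext q
        change ∑ e : {e // e ∈ Y'}, cf e.1 q.1 * (c * p.1 e) +
            (if part g0 = q.1 then c * p.2 else 0) =
          c * (∑ e : {e // e ∈ Y'}, cf e.1 q.1 * p.1 e + (if part g0 = q.1 then p.2 else 0))
        have h1 : ∑ e : {e // e ∈ Y'}, cf e.1 q.1 * (c * p.1 e) =
            c * ∑ e : {e // e ∈ Y'}, cf e.1 q.1 * p.1 e := by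
          rw [Finset.mul_sum]
          exact Finset.sum_congr rfl fun e _ => by ring
        rw [h1]
        split_ifs <;> ring }
  have hsurj : Function.Surjective Ψ := by
    intro k
    have hrep : ∀ q : {q // q ∈ P}, ∃ g : F, part g = q.1 := by
      intro q
      obtain ⟨g, _, hg⟩ := Finset.mem_image.1 q.2
      exact ⟨g, hg⟩
    choose rep hrep using hrep
    have hP : ∀ g, part g ∈ P := fun g => Finset.mem_image_of_mem part (Finset.mem_univ g)
    obtain ⟨γ, c, hγ, hb⟩ := qp_surj T S hS g0
      (fun g => if g = rep ⟨part g, hP g⟩ then k ⟨part g, hP g⟩ else 0)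
    refine ⟨(fun e => γ e.1, c), ?_⟩
    funext q
    change ∑ e : {e // e ∈ Y'}, cf e.1 q.1 * γ e.1 + (if part g0 = q.1 then c else 0) = k q
    rw [← hsumY γ hγ q.1, ← hpart γ q.1]
    have h1 : (if part g0 = q.1 then c else 0) =
        ∑ g, (if part g = q.1 then 1 else 0) * (if g = g0 then c else 0) := by
      rw [Finset.sum_eq_single g0]
      · rw [if_pos rfl]
        split_ifs <;> ring
      · intro g _ hg
        rw [if_neg hg, mul_zero]
      · intro hg
        exact absurd (Finset.mem_univ _) hg
    rw [h1, ← Finset.sum_add_distrib]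
    have h2 : ∀ g, (if part g = q.1 then 1 else 0) * bd T γ g +
        (if part g = q.1 then 1 else 0) * (if g = g0 then c else 0) =
        (if part g = q.1 then 1 else 0) *
          (if g = rep ⟨part g, hP g⟩ then k ⟨part g, hP g⟩ else 0) := by
      intro g
      rw [← hb g]
      ring
    rw [Finset.sum_congr rfl fun g _ => h2 g, Finset.sum_eq_single (rep q)]
    · have h3 : (⟨part (rep q), hP (rep q)⟩ : {q // q ∈ P}) = q := Subtype.ext (hrep q)
      rw [h3, if_pos (hrep q), if_pos rfl, one_mul]
    · intro g _ hg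
      by_cases h4 : part g = q.1
      · have h3 : (⟨part g, hP g⟩ : {q // q ∈ P}) = q := Subtype.ext h4
        rw [h3, if_neg hg, mul_zero]
      · rw [if_neg h4, zero_mul]
    · intro hg
      exact absurd (Finset.mem_univ _) hg
  have hrk := LinearMap.finrank_range_add_finrank_ker Ψ
  rw [LinearMap.range_eq_top.2 hsurj, finrank_top, Module.finrank_prod,
    Module.finrank_fintype_fun_eq_card, Module.finrank_fintype_fun_eq_card, Fintype.card_coe,
    Fintype.card_coe, Module.finrank_self] at hrk
  have hc' : Y.card + 1 ≤ P.card := hc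
  have hker : Module.finrank ℝ (LinearMap.ker Ψ) = 0 := by omega
  have hcardeq : Y.card ≤ Y'.card := by omega
  have hinj : Function.Injective Ψ := LinearMap.ker_eq_bot.1 (Submodule.finrank_eq_zero.1 hker)
  refine ⟨fun γ hγ hq e he => ?_, fun e he => ?_⟩
  · by_cases heS : e ∈ S
    · exact hγ e heS
    · have h1 : Ψ (fun e => γ e.1, 0) = 0 := by
        funext q
        change ∑ e : {e // e ∈ Y'}, cf e.1 q.1 * γ e.1 + (if part g0 = q.1 then (0 : ℝ) else 0) = 0
        rw [← hsumY γ hγ q.1, ← hpart γ q.1, hq q.1, zero_add, ite_self]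
      have h2 := (injective_iff_map_eq_zero Ψ).1 hinj _ h1
      exact congrFun (congrArg Prod.fst h2) ⟨e, (hmem e).2 ⟨heS, he⟩⟩
  · have h3 : Y' = Y := Finset.eq_of_subset_of_card_le hsub hcardeq
    rw [← h3] at he
    exact ((hmem e).1 he).1

open Classical in
theorem part_flow (T : STri N F) (S : Finset (N × Fin 3)) (hS : IsB T S) {ι : Type} (part : F → ι)
    (Y : Finset (N × Fin 3)) (hY : ∀ e, e ∉ S → part (T.lf e) ≠ part (T.rf e) → e ∈ Y)
    (hc : Y.card + 1 ≤ ((Finset.univ : Finset F).image part).card) (g g' : F) (hg : part g = part g') :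
    ∃ γ : N × Fin 3 → ℝ, (∀ e ∈ S, γ e = 0) ∧
      (∀ e, γ e ≠ 0 → part (T.lf e) = part g ∧ part (T.rf e) = part g) ∧
      ∀ g0, bd T γ g0 = (if g0 = g then 1 else 0) - (if g0 = g' then 1 else 0) := by
  obtain ⟨γ, c, hγ, hb⟩ := qp_surj T S hS g
    (fun g0 => (if g0 = g then 1 else 0) - (if g0 = g' then 1 else 0))
  have hc0 : c = 0 := by
    have h1 : ∑ g0, (bd T γ g0 + (if g0 = g then c else 0)) =
        ∑ g0, ((if g0 = g then 1 else 0) - (if g0 = g' then (1 : ℝ) else 0)) :=
      Finset.sum_congr rfl fun g0 _ => hb g0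
    rw [Finset.sum_add_distrib, sum_bd, zero_add, Finset.sum_sub_distrib, Finset.sum_ite_eq',
      Finset.sum_ite_eq', Finset.sum_ite_eq', if_pos (Finset.mem_univ _),
      if_pos (Finset.mem_univ _), if_pos (Finset.mem_univ _), sub_self] at h1
    exact h1
  have hb' : ∀ g0, bd T γ g0 = (if g0 = g then 1 else 0) - (if g0 = g' then 1 else 0) := by
    intro g0
    rw [← hb g0, hc0, ite_self, add_zero]
  have hsum : ∀ q, ∑ g0, (if part g0 = q then 1 else 0) * bd T γ g0 = 0 := by
    intro q
    have h1 : ∀ g0, (if part g0 = q then 1 else 0) * bd T γ g0 =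
        (if g0 = g then (if part g = q then 1 else 0) else 0) -
        (if g0 = g' then (if part g' = q then (1 : ℝ) else 0) else 0) := by
      intro g0
      rw [hb' g0]
      by_cases h2 : g0 = g
      · by_cases h3 : g0 = g'
        · rw [if_pos h2, if_pos h3, if_pos h2, if_pos h3, ← h2, ← h3]
          ring
        · rw [if_pos h2, if_neg h3, if_pos h2, if_neg h3, ← h2]
          ring
      · by_cases h3 : g0 = g'
        · rw [if_neg h2, if_pos h3, if_neg h2, if_pos h3, ← h3]
          ring
        · rw [if_neg h2, if_neg h3, if_neg h2, if_neg h3]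
          ring
    rw [Finset.sum_congr rfl fun g0 _ => h1 g0, Finset.sum_sub_distrib, Finset.sum_ite_eq',
      Finset.sum_ite_eq', if_pos (Finset.mem_univ _), if_pos (Finset.mem_univ _), hg, sub_self]
  have hz := (qp_quot T S hS part Y hY hc).1 γ hγ hsum
  refine ⟨fun e => if part (T.lf e) = part g ∧ part (T.rf e) = part g then γ e else 0,
    fun e he => ?_, fun e he => ?_, fun g0 => ?_⟩
  · change (if part (T.lf e) = part g ∧ part (T.rf e) = part g then γ e else 0) = 0
    rw [hγ e he, ite_self]
  · by_contra hne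
    exact he (if_neg hne)
  · by_cases hp : part g0 = part g
    · rw [← hb' g0, qp_bd, qp_bd]
      refine Finset.sum_congr rfl fun e _ => ?_
      by_cases h1 : part (T.lf e) = part g ∧ part (T.rf e) = part g
      · rw [if_pos h1]
      · rw [if_neg h1, mul_zero]
        by_cases h2 : part (T.lf e) = part (T.rf e)
        · have h3 : T.lf e ≠ g0 := by
            intro h
            rw [h] at h1 h2
            exact h1 ⟨hp, by rw [← h2, hp]⟩
          have h4 : T.rf e ≠ g0 := by
            intro h
            rw [h] at h1 h2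
            exact h1 ⟨by rw [h2, hp], hp⟩
          rw [if_neg h3, if_neg h4, sub_self, zero_mul]
        · rw [hz e h2, mul_zero]
    · have h5 : g0 ≠ g := fun h => hp (by rw [h])
      have h6 : g0 ≠ g' := fun h => hp (by rw [h, hg])
      rw [if_neg h5, if_neg h6, sub_self, qp_bd]
      refine Finset.sum_eq_zero fun e _ => ?_
      change _ * (if part (T.lf e) = part g ∧ part (T.rf e) = part g then γ e else 0) = 0
      by_cases h1 : part (T.lf e) = part g ∧ part (T.rf e) = part g
      · have h3 : T.lf e ≠ g0 := by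
          intro h
          rw [h] at h1
          exact hp h1.1
        have h4 : T.rf e ≠ g0 := by
          intro h
          rw [h] at h1
          exact hp h1.2
        rw [if_neg h3, if_neg h4, sub_self, zero_mul]
      · rw [if_neg h1, mul_zero]

open Classical in
/-- all edges of `Y` are in the dual tree and join different parts -/
theorem part_all (T : STri N F) (S : Finset (N × Fin 3)) (hS : IsB T S) {ι : Type} (part : F → ι)
    (Y : Finset (N × Fin 3)) (hY : ∀ e, e ∉ S → part (T.lf e) ≠ part (T.rf e) → e ∈ Y)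
    (hc : Y.card + 1 ≤ ((Finset.univ : Finset F).image part).card) :
    ∀ e ∈ Y, e ∉ S :=
  (qp_quot T S hS part Y hY hc).2

end MP0e5907
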