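import Pool.Agent.Lib_MP_0e5907.QDualC

/-!
# Piece QRES: adding conductance to one dual edge

Paper proof. Let `o = T.of 0`, `κ` from `dual_det`, `L = Lm T o r`, `c = cvec T o e0`. For `r' = r + s 1_{e0}`: `Lm T o r' = L + s c c^T`.
* If `det L = 0`: there is `x ≠ 0` with `L x = 0` (`Matrix.exists_mulVec_eq_zero_iff`), so `En T r (exto o x) = 0` (`Lm_quad`), so by `hR` `(exto o x (lf e0) - exto o x (rf e0))^2 ≤ 0`, i.e. `c ⬝ x = 0` (`cvec_dot`), so `(L + s c c^T) x = 0`, `det = 0`, and both sides of the claim are `0`.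
* If `det L ≠ 0`: `L` is symmetric, `det (L + s c c^T) = det L * (1 + s c^T L⁻¹ c)` (matrix determinant lemma; in Mathlib `Matrix.det_add_replicateCol_mul_replicateRow` or `Matrix.det_one_add_...`; see `D_swap` in `BasisD.lean` for a rank one update). `det L ≥ 0` (since `Zd ≥ 0`: `Gm_det_nonneg`; or `L` positive semidefinite). Let `x = L⁻¹ c`, `q = c ⬝ x = x ⬝ L x = En T r (exto o x) ≥ 0`.
  By `hR`: `q^2 ≤ R q`, so `q ≤ R` (if `q = 0` use `0 ≤ R`). Hence `det (L + s c c^T) ≤ (1 + s R) det L`.
* `Zd_nonneg`: all terms are nonnegative (`Gm_det_nonneg`).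
-/

namespace MP0e5907

open Finset

variable {N F : Type} [Fintype N] [Fintype F]

theorem Zd_nonneg (T : STri N F) (r : N × Fin 3 → ℝ) (hr : ∀ e, 0 ≤ r e) : 0 ≤ Zd T r := by
  classical
  unfold Zd
  refine Finset.sum_nonneg fun S _ => mul_nonneg (Finset.prod_nonneg fun e _ => hr e) ?_
  refine Gm_det_nonneg T _ fun e => ?_
  unfold ind
  split_ifs <;> norm_num

open Classical in
theorem res (T : STri N F) (r : N × Fin 3 → ℝ) (hr : ∀ e, 0 ≤ r e) (e0 : N × Fin 3) (s : ℝ) (hs : 0 ≤ s)
    (R : ℝ) (hR0 : 0 ≤ R) (hR : ∀ x : F → ℝ, (x (T.lf e0) - x (T.rf e0)) ^ 2 ≤ R * En T r x) :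
    Zd T (fun e => r e + if e = e0 then s else 0) ≤ (1 + s * R) * Zd T r := by
  obtain ⟨κ, hκ, hdet⟩ := dual_det T (T.of 0)
  set o := T.of 0 with ho
  have hr' : ∀ e, 0 ≤ r e + if e = e0 then s else 0 := by
    intro e
    split_ifs
    · exact add_nonneg (hr e) hs
    · rw [add_zero]
      exact hr e
  rw [hdet _ hr', hdet r hr]
  have hZ := Zd_nonneg T r hr
  rw [hdet r hr] at hZ
  have hL0 : 0 ≤ (Lm T o r).det := nonneg_of_mul_nonneg_right hZ hκ
  have hEn : ∀ x, 0 ≤ En T r x := fun x =>
    Finset.sum_nonneg fun e _ => mul_nonneg (hr e) (sq_nonneg _)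
  have hLm : Lm T o (fun e => r e + if e = e0 then s else 0) =
      Lm T o r + Matrix.vecMulVec (s • cvec T o e0) (cvec T o e0) := by
    ext g h
    show ∑ e, (r e + if e = e0 then s else 0) * (cvec T o e g * cvec T o e h) =
      ∑ e, r e * (cvec T o e g * cvec T o e h) + (s * cvec T o e0 g) * cvec T o e0 h
    have h1 : ∀ e, (r e + if e = e0 then s else 0) * (cvec T o e g * cvec T o e h) =
        r e * (cvec T o e g * cvec T o e h) +
          if e = e0 then s * (cvec T o e0 g * cvec T o e0 h) else 0 := by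
      intro e
      by_cases h2 : e = e0
      · rw [if_pos h2, if_pos h2, h2]
        ring
      · rw [if_neg h2, if_neg h2]
        ring
    rw [Finset.sum_congr rfl fun e _ => h1 e, Finset.sum_add_distrib, Finset.sum_ite_eq',
      if_pos (Finset.mem_univ _)]
    ring
  have hdot : ∀ x : {g : F // g ≠ o} → ℝ, cvec T o e0 ⬝ᵥ x =
      exto o x (T.lf e0) - exto o x (T.rf e0) := fun x => cvec_dot T o e0 x
  have key : (Lm T o (fun e => r e + if e = e0 then s else 0)).det ≤
      (1 + s * R) * (Lm T o r).det := by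
    rw [hLm]
    rcases hL0.lt_or_eq with hpos | hzero
    · have hu : IsUnit (Lm T o r).det := isUnit_iff_ne_zero.2 hpos.ne'
      set x : {g : F // g ≠ o} → ℝ := ((Lm T o r)⁻¹).mulVec (cvec T o e0) with hx
      have hLx : (Lm T o r).mulVec x = cvec T o e0 := by
        rw [hx, Matrix.mulVec_mulVec, Matrix.mul_nonsing_inv _ hu, Matrix.one_mulVec]
      have hq : cvec T o e0 ⬝ᵥ x = En T r (exto o x) := by
        rw [← Lm_quad, hLx]
        exact Finset.sum_congr rfl fun g _ => mul_comm _ _
      have h1 := hR (exto o x)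
      rw [← hdot, ← hq] at h1
      have h2 : 0 ≤ cvec T o e0 ⬝ᵥ x := by
        rw [hq]
        exact hEn _
      have h3 : cvec T o e0 ⬝ᵥ x ≤ R := by
        rcases h2.lt_or_eq with h4 | h4
        · nlinarith
        · rw [← h4]
          exact hR0
      have h5 : (Lm T o r + Matrix.vecMulVec (s • cvec T o e0) (cvec T o e0)).det =
          (Lm T o r).det * (1 + s * (cvec T o e0 ⬝ᵥ x)) := by
        rw [Matrix.vecMulVec_eq Unit, Matrix.det_add_replicateCol_mul_replicateRow hu]
        congr 1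
        rw [Matrix.det_unique, Matrix.add_apply, Matrix.one_apply_eq, Matrix.mul_assoc,
          Matrix.mul_apply]
        congr 1
        rw [hx, dotProduct, Finset.mul_sum]
        refine Finset.sum_congr rfl fun g _ => ?_
        have h6 : ((Lm T o r)⁻¹ * Matrix.replicateCol Unit (s • cvec T o e0)) g default =
            s * ((Lm T o r)⁻¹).mulVec (cvec T o e0) g := by
          rw [Matrix.mul_apply, Matrix.mulVec, dotProduct, Finset.mul_sum]
          refine Finset.sum_congr rfl fun h _ => ?_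
          show _ * (s * cvec T o e0 h) = _
          ring
        rw [h6]
        show cvec T o e0 g * _ = _
        ring
      rw [h5]
      have h6 : s * (cvec T o e0 ⬝ᵥ x) ≤ s * R := mul_le_mul_of_nonneg_left h3 hs
      nlinarith
    · obtain ⟨x, hx, hx2⟩ := Matrix.exists_mulVec_eq_zero_iff.2 hzero.symm
      have h3 := Lm_quad T o r x
      rw [hx2] at h3
      have h4 : En T r (exto o x) = 0 := by
        rw [← h3]
        exact Finset.sum_eq_zero fun v _ => mul_zero _
      have h5 := hR (exto o x)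
      rw [h4, mul_zero, ← hdot] at h5
      have h6 : cvec T o e0 ⬝ᵥ x = 0 :=
        pow_eq_zero_iff (two_ne_zero) |>.1 (le_antisymm h5 (sq_nonneg _))
      have h7 : (Lm T o r + Matrix.vecMulVec (s • cvec T o e0) (cvec T o e0)).det = 0 := by
        refine Matrix.exists_mulVec_eq_zero_iff.1 ⟨x, hx, ?_⟩
        rw [Matrix.add_mulVec, hx2, zero_add, Matrix.vecMulVec_mulVec, h6]
        simp
      rw [h7, ← hzero, mul_zero]
  calc κ * (Lm T o (fun e => r e + if e = e0 then s else 0)).det
      ≤ κ * ((1 + s * R) * (Lm T o r).det) := mul_le_mul_of_nonneg_left key hκ.le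
    _ = (1 + s * R) * (κ * (Lm T o r).det) := by ring

end MP0e5907
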