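import Pool.Agent.Lib_MP_0e5907.QTri
import Pool.Agent.Lib_MP_0e5907.QMucB
import Pool.Agent.Lib_MP_0e5907.QDual
import Pool.Agent.Lib_MP_0e5907.AreaLower

/-!
# Piece QSUMA: families of dual trees

Paper proof. `Fam y` = sets `S` with `#S = n` such that every `e ∉ S` with `InT T t f t e` is in `Yof y`.
* `area_dual`: `area_formula` for `ω = r⁻¹`, multiplied by `∏_e r e`: `(∏ r) * wprod (r⁻¹) S = ∏_{e ∉ S} r e`, and `Zd_eq`.
* `Zd_fam`: `Zd T (rY T t f r (Yof y) t) = ∑_{S ∈ Fam y} (∏_{e ∉ S} r e) * D(S)`: for `S ∉ Fam y` there is `e ∉ S`, `InT T t f t e`, `e ∉ Yof y`: `rY e = 0`, the product vanishes; for `S ∈ Fam y`: `rY e = r e` for all `e ∉ S`.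
* `fam_sg`: for `S ∈ Fam y` with `IsB T S`: `sg T S f = 1` by `tri_at2` (proceed as in `al_sg` of `AreaLower.lean`: `sg` is the determinant of the identity matrix).
* `fam_disj`: if `S` is a basis in `Fam y ∩ Fam y'` then `y = y'`: all edges of `Yof y` are not in `S` (`part_all` with `part T t f`, `Yof y`: see the docstring of `QTri`); `y p ∈ leg T k f _` (`JJ_sub`), `k < t`, so `InT T t f t (y p)` (`inT_iff`; the colour of `y p` is `(y p).2`), so `y p ∈ Yof y'`: `y p = y' p'`, `p = p'` by `y_inj`.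
-/

namespace MP0e5907

open Finset

variable {N F : Type} [Fintype N] [Fintype F]

open Classical in
/-- the family of the choice `y` -/
noncomputable def Fam (T : STri N F) (t : ℕ) (f : F) (y : Idx T t f → N × Fin 3) : Finset (Finset (N × Fin 3)) :=
  (powersetCard (Fintype.card N) (Finset.univ : Finset (N × Fin 3))).filter fun S =>
    ∀ e, e ∉ S → InT T t f t e → e ∈ Yof T t f y

private theorem qsa_card {α β : Type} [Fintype α] (d1 d2 : DecidableEq β) (h : α → β) :
    (@Finset.image α β d1 h Finset.univ).card = (@Finset.image α β d2 h Finset.univ).card := by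
  have h0 : d1 = d2 := Subsingleton.elim _ _
  rw [h0]

open Classical in
theorem area_dual (T : STri N F) (r : N × Fin 3 → ℝ) (hr : ∀ e, 0 < r e) (p : N ⊕ Fin 3 → Fin 3 → ℝ)
    (hroot : ∀ i, p (Sum.inr i) = Pi.single i 1) (hp : ∀ j, Equil T (fun e => (r e)⁻¹) (fun v => p v j)) (f : F) :
    Zd T r * fdet T p f = ∑ S ∈ powersetCard (Fintype.card N) (Finset.univ : Finset (N × Fin 3)),
      (∏ e ∈ Finset.univ \ S, r e) * ((Gm T (ind S)).det * sg T S f) := by
  rw [Zd_eq T r hr, mul_assoc, area_formula T _ p hroot hp f, Finset.mul_sum]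
  refine Finset.sum_congr rfl fun S _ => ?_
  rw [← mul_assoc]
  congr 1
  have h1 : (∏ e, r e) = (∏ e ∈ Finset.univ \ S, r e) * ∏ e ∈ S, r e :=
    (Finset.prod_sdiff (Finset.subset_univ S)).symm
  unfold wprod
  rw [h1, mul_assoc, ← Finset.prod_mul_distrib]
  have h2 : ∏ e ∈ S, r e * (r e)⁻¹ = 1 :=
    Finset.prod_eq_one fun e _ => mul_inv_cancel₀ (hr e).ne'
  rw [h2, mul_one]

open Classical in
theorem Zd_fam (T : STri N F) (t : ℕ) (r : N × Fin 3 → ℝ) (f : F) (y : Idx T t f → N × Fin 3) :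
    Zd T (rY T t f r (Yof T t f y) t) =
      ∑ S ∈ Fam T t f y, (∏ e ∈ Finset.univ \ S, r e) * (Gm T (ind S)).det := by
  unfold Zd Fam
  rw [Finset.sum_filter]
  refine Finset.sum_congr rfl fun S _ => ?_
  split_ifs with h
  · congr 1
    refine Finset.prod_congr rfl fun e he => ?_
    have he' : e ∉ S := (Finset.mem_sdiff.1 he).2
    unfold rY
    rw [if_neg]
    rintro ⟨h1, h2⟩
    exact h2 (h e he' h1)
  · push Not at h
    obtain ⟨e, h1, h2, h3⟩ := h
    have h4 : ∏ e ∈ Finset.univ \ S, rY T t f r (Yof T t f y) t e = 0 := by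
      refine Finset.prod_eq_zero (i := e) (Finset.mem_sdiff.2 ⟨Finset.mem_univ _, h1⟩) ?_
      unfold rY
      rw [if_pos ⟨h2, h3⟩]
    rw [h4, zero_mul]

theorem fam_sg (T : STri N F) (t : ℕ) (ht : 5 ^ t * Fintype.card F < 2 * 6 ^ t) (f : F)
    (G : Fin 3 → ℕ → F) (hG : ∀ j, ExitD T t f j (G j)) (S : Finset (N × Fin 3)) (hS : IsB T S)
    (y : Idx T t f → N × Fin 3) (hy : ∀ p, y p ∈ JJ T t f G p.1.1 p.1.2)
    (hSy : S ∈ Fam T t f y) :
    sg T S f = 1 := by
  classical
  have hS2 : ∀ e, e ∉ S → InT T t f t e → e ∈ Yof T t f y := by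
    unfold Fam at hSy
    exact (Finset.mem_filter.1 hSy).2
  unfold sg
  rw [dif_pos hS]
  have h := (IsB_colour T S hS).choose_spec
  have hk := tri_at2 T t ht f G hG S hS y hy hS2 _ h.1 h.2
  unfold fdet
  have e : (Matrix.of fun i j => (Pi.single ((IsB_colour T S hS).choose (T.vert f i)) 1 : Fin 3 → ℝ) j :
      Matrix (Fin 3) (Fin 3) ℝ) = 1 := by
    ext i j
    rw [Matrix.of_apply, hk i, Matrix.one_apply, Pi.single_apply]
    by_cases hij : i = j
    · subst hij
      simp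
    · rw [if_neg hij, if_neg (fun h' => hij h'.symm)]
  rw [e, Matrix.det_one]

theorem fam_disj (T : STri N F) (hT : STriP T) (t : ℕ) (ht : 5 ^ t * Fintype.card F < 2 * 6 ^ t) (f : F)
    (G : Fin 3 → ℕ → F) (S : Finset (N × Fin 3)) (hS : IsB T S)
    (y y' : Idx T t f → N × Fin 3) (hy : ∀ p, y p ∈ JJ T t f G p.1.1 p.1.2) (hy' : ∀ p, y' p ∈ JJ T t f G p.1.1 p.1.2)
    (h : S ∈ Fam T t f y) (h' : S ∈ Fam T t f y') : y = y' := by
  classical
  have hS1 : ∀ e, e ∉ S → InT T t f t e → e ∈ Yof T t f y := by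
    unfold Fam at h
    exact (Finset.mem_filter.1 h).2
  have hS2 : ∀ e, e ∉ S → InT T t f t e → e ∈ Yof T t f y' := by
    unfold Fam at h'
    exact (Finset.mem_filter.1 h').2
  have hY : ∀ e, e ∉ S → part T t f (T.lf e) ≠ part T t f (T.rf e) → e ∈ Yof T t f y :=
    fun e he h => hS1 e he (part_inT T t ht f e h)
  have hc : (Yof T t f y).card + 1 ≤ (@Finset.image F (ℕ × Fin 3)
      (fun a b => Classical.propDecidable (a = b)) (part T t f) Finset.univ).card := by
    have h1 := card_parts T t f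
    have h2 : (Yof T t f y).card ≤ Fintype.card (Idx T t f) := by
      unfold Yof
      exact Finset.card_image_le
    exact (Nat.succ_le_succ h2).trans (h1.trans (le_of_eq (qsa_card _ _ _)))
  have hall := part_all T S hS (part T t f) (Yof T t f y) hY hc
  have hl : ∀ p, y p ∈ leg T p.1.1 f (muc T f p.1.1 p.1.2) := fun p => JJ_sub T t f G _ _ (hy p)
  have hl' : ∀ p, y' p ∈ leg T p.1.1 f (muc T f p.1.1 p.1.2) := fun p => JJ_sub T t f G _ _ (hy' p)
  funext p
  have h1 : y p ∈ Yof T t f y := by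
    unfold Yof
    exact Finset.mem_image_of_mem _ (Finset.mem_univ _)
  have h2 : y p ∉ S := hall _ h1
  have h3 : InT T t f t (y p) := by
    refine (inT_iff T le_rfl f _).2 ⟨p.1.1, p.1.1.2, ?_⟩
    rw [((mem_leg T _ f _ _).1 (hl p)).1]
    exact hl p
  have h4 := hS2 _ h2 h3
  unfold Yof at h4
  obtain ⟨p', -, hp'⟩ := Finset.mem_image.1 h4
  have h5 := y_inj T hT t f y y' hl hl' p p' hp'.symm
  rw [← hp', ← h5]

end MP0e5907
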