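import Pool.Agent.Lib_MP_0e5907.QSumA
import Pool.Agent.Lib_MP_0e5907.QJsum
import Pool.Agent.Lib_MP_0e5907.QLevelB
import Pool.Agent.Lib_MP_0e5907.QExit

/-!
# Piece QSUMB: every area is at least `(216 exp (20/3))^(-t)`

Paper proof. `G j` from `exit_exists`. `w S = (∏_{e ∉ S} r e)`, `D S = (Gm T (ind S)).det ≥ 0` (`Gm_det_nonneg`), `Z = Zd T r > 0` (`Zd_eq`, `Gm_det_pos`). Let `P` be the finite set of the functions `y : Idx → E` with `y p ∈ JJ T t f G p.1.1 p.1.2` for all `p` (`Fintype.piFinset`).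
* For `y ∈ P`: `y p ∈ leg T p.1.1 f (muc ..)` (`JJ_sub`), so `levels_all` with `Y = Yof y` (`yof_card`, `yof_cover`) and `yof_prod`: `(∏_p r (y p)/(2*6^k)) * Z ≤ exp (20/3)^t * Zd T (rY .. (Yof y) t)`.
* Sum over `y ∈ P`: the left side is `(∏_p ∑_{e ∈ JJ p} r e/(2*6^k)) * Z` (`Finset.prod_univ_sum`), at least `216^(-t) Z` (`jsum`).
* `∑_{y ∈ P} Zd T (rY ..) = ∑_{y ∈ P} ∑_{S ∈ Fam y} w S * D S` (`Zd_fam`) `≤ ∑_S w S * (D S * sg T S f) = Z * fdet T p f` (`area_dual`): only bases contribute (`D_eq_zero` for non-bases of the right cardinality); for a basis `S` at most one `y ∈ P` has `S ∈ Fam y` (`fam_disj`), and then `sg T S f = 1` (`fam_sg`); all terms are `≥ 0` (`sg_nonneg`). (Write the left side as `∑_S ∑_{y ∈ P} if S ∈ Fam y then w S * D S else 0`, `Finset.sum_comm`.)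
* So `Z ≤ 216^t * exp (20/3)^t * Z * fdet T p f`; divide by `Z > 0`.
-/

namespace MP0e5907

open Finset

variable {N F : Type} [Fintype N] [Fintype F]

open Classical in
theorem area_lower2 (T : STri N F) (hT : STriP T) (t : ℕ) (ht : 5 ^ t * Fintype.card F < 2 * 6 ^ t)
    (r : N × Fin 3 → ℝ) (hr : GoodW T t r) (p : N ⊕ Fin 3 → Fin 3 → ℝ)
    (hroot : ∀ i, p (Sum.inr i) = Pi.single i 1) (hp : ∀ j, Equil T (fun e => (r e)⁻¹) (fun v => p v j)) (f : F) :
    1 ≤ (216 * Real.exp (20 / 3)) ^ t * fdet T p f := by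
  choose G hG using fun j => exit_exists T t f j
  have hZ : 0 < Zd T r := by
    rw [Zd_eq T r hr.pos]
    exact mul_pos (Finset.prod_pos fun e _ => hr.pos e)
      (Gm_det_pos T _ fun e => inv_pos.2 (hr.pos e))
  let P : Finset (Idx T t f → N × Fin 3) :=
    Fintype.piFinset fun q : Idx T t f => JJ T t f G q.1.1 q.1.2
  have hPm : ∀ y ∈ P, ∀ q : Idx T t f, y q ∈ JJ T t f G q.1.1 q.1.2 := fun y hy =>
    Fintype.mem_piFinset.1 hy
  have hPl : ∀ y ∈ P, ∀ q : Idx T t f, y q ∈ leg T q.1.1 f (muc T f q.1.1 q.1.2) := fun y hy q =>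
    JJ_sub T t f G q.1.1 q.1.2 (hPm y hy q)
  -- one choice
  have h1 : ∀ y ∈ P, (∏ q : Idx T t f, r (y q) / (2 * 6 ^ (q.1.1 : ℕ))) * Zd T r ≤
      Real.exp (20 / 3) ^ t * Zd T (rY T t f r (Yof T t f y) t) := by
    intro y hy
    have h2 := levels_all T hT t ht r hr f (Yof T t f y)
      (fun k hk m => yof_card T hT t f y (hPl y hy) k hk m)
      (fun k hk m hm h => yof_cover T t f y (hPl y hy) k hk m hm h)
    rw [yof_prod T hT t f y (hPl y hy) r] at h2
    exact h2
  -- sum over the choices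
  have h3 : (∏ q : Idx T t f, ∑ e ∈ JJ T t f G q.1.1 q.1.2, r e / (2 * 6 ^ (q.1.1 : ℕ))) * Zd T r ≤
      Real.exp (20 / 3) ^ t * ∑ y ∈ P, Zd T (rY T t f r (Yof T t f y) t) := by
    rw [Finset.prod_univ_sum, Finset.sum_mul, Finset.mul_sum]
    exact Finset.sum_le_sum h1
  -- the families are disjoint
  have h4 : ∑ y ∈ P, Zd T (rY T t f r (Yof T t f y) t) ≤ Zd T r * fdet T p f := by
    rw [area_dual T r hr.pos p hroot hp f]
    have h5 : ∀ y ∈ P, Zd T (rY T t f r (Yof T t f y) t) =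
        ∑ S ∈ powersetCard (Fintype.card N) (Finset.univ : Finset (N × Fin 3)),
          if S ∈ Fam T t f y then (∏ e ∈ Finset.univ \ S, r e) * (Gm T (ind S)).det else 0 := by
      intro y _
      rw [Zd_fam, ← Finset.sum_filter]
      refine Finset.sum_congr ?_ fun _ _ => rfl
      ext S
      constructor
      · intro hS
        exact Finset.mem_filter.2 ⟨(Finset.mem_filter.1 hS).1, hS⟩
      · intro hS
        exact (Finset.mem_filter.1 hS).2
    rw [Finset.sum_congr rfl h5, Finset.sum_comm]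
    refine Finset.sum_le_sum fun S hS => ?_
    have hcard : S.card = Fintype.card N := (Finset.mem_powersetCard.1 hS).2
    have hw : 0 ≤ ∏ e ∈ Finset.univ \ S, r e := Finset.prod_nonneg fun e _ => (hr.pos e).le
    have hD : 0 ≤ (Gm T (ind S)).det := Gm_det_nonneg T (ind S) fun e => by
      unfold ind
      split_ifs
      · exact zero_le_one
      · exact le_rfl
    by_cases hB : IsB T S
    · by_cases hex : ∃ y0 ∈ P, S ∈ Fam T t f y0
      · obtain ⟨y0, hy0, hS0⟩ := hex
        rw [Finset.sum_eq_single y0]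
        · rw [if_pos hS0, fam_sg T t ht f G hG S hB y0 (hPm y0 hy0) hS0, mul_one]
        · intro y hy hne
          rw [if_neg]
          intro hSy
          exact hne (fam_disj T hT t ht f G S hB y y0 (hPm y hy) (hPm y0 hy0) hSy hS0)
        · intro hn
          exact absurd hy0 hn
      · push Not at hex
        rw [Finset.sum_eq_zero fun y hy => if_neg (hex y hy)]
        exact mul_nonneg hw (mul_nonneg hD (sg_nonneg T S f))
    · have h0 := D_eq_zero T S hcard hB
      have h6 : (Gm T (ind S)).det = 0 := by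
        convert h0
      rw [h6, mul_zero, zero_mul, mul_zero]
      refine le_of_eq (Finset.sum_eq_zero fun y _ => ?_)
      rw [ite_self]
  have h7 := jsum T hT t ht r hr f G hG
  have h8 : Zd T r ≤ (216 * Real.exp (20 / 3)) ^ t * fdet T p f * Zd T r := by
    calc Zd T r ≤ (216 ^ t * ∏ q : Idx T t f, ∑ e ∈ JJ T t f G q.1.1 q.1.2,
            r e / (2 * 6 ^ (q.1.1 : ℕ))) * Zd T r := le_mul_of_one_le_left hZ.le h7
      _ = 216 ^ t * ((∏ q : Idx T t f, ∑ e ∈ JJ T t f G q.1.1 q.1.2,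
            r e / (2 * 6 ^ (q.1.1 : ℕ))) * Zd T r) := by rw [mul_assoc]
      _ ≤ 216 ^ t * (Real.exp (20 / 3) ^ t * ∑ y ∈ P, Zd T (rY T t f r (Yof T t f y) t)) :=
          mul_le_mul_of_nonneg_left h3 (by positivity)
      _ ≤ 216 ^ t * (Real.exp (20 / 3) ^ t * (Zd T r * fdet T p f)) := by
          refine mul_le_mul_of_nonneg_left (mul_le_mul_of_nonneg_left h4 ?_) (by positivity)
          positivity
      _ = (216 * Real.exp (20 / 3)) ^ t * fdet T p f * Zd T r := by
          rw [mul_pow]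
          ring
  by_contra hcon
  push Not at hcon
  have h9 : (216 * Real.exp (20 / 3)) ^ t * fdet T p f * Zd T r < 1 * Zd T r :=
    mul_lt_mul_of_pos_right hcon hZ
  rw [one_mul] at h9
  exact absurd h8 (not_le.2 h9)

end MP0e5907
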