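import Pool.Agent.Lib_MP_0e5907.QLeg

/-!
# Piece QTREE: tree measures

Paper proof. Induction on `t - k` (for all `f`, `A`). `k = t`: `A = {f}` (`A` is nonempty and `cl T t f = {f}`), `μ = 1` on `f` and `0` elsewhere. `k < t`: let `H = hub T (cl T k f)`, for `i : Fin 3` let `A_i = {g ∈ A : reg H g = i}`, `I` the set of the `i` with `A_i` nonempty,
`1 ≤ #I ≤ 3`. For `i ∈ I` choose `g_i ∈ A_i`: `A_i ⊆ cl T (k+1) g_i` (`mem_cl_succ`, `cl_eq_of_mem`), and take `μ_i` from the induction hypothesis. Put `μ g = μ_{reg H g} g / #I` for `g ∈ A` and `0` otherwise. The sum over `A` is the sum over `I` of the sums over `A_i`, each equal to `1/#I`.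
For `g ∈ A`, `D = k`: the sum is the sum over all of `A` (`A ⊆ cl T k f = cl T k g`), equal to `1`. For `D ≥ k+1`, `i = reg H g`: `cl T D g ⊆ cl T (k+1) g` (`cl_anti`), so the sum over `A ∩ cl T D g` is `1/#I ≥ 1/3` times the sum of `μ_i` over `A_i ∩ cl T D g`, and `1 ≤ 3^(D-(k+1)) * (this sum)`.
-/

namespace MP0e5907

open Finset

variable {N F : Type} [Fintype N] [Fintype F]

open Classical in
theorem tree_measure (T : STri N F) (t : ℕ) (ht : ∀ g, cl T t g = {g}) (k : ℕ) (hk : k ≤ t) (f : F) (A : Finset F)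
    (hA : A.Nonempty) (hAf : A ⊆ cl T k f) :
    ∃ μ : F → ℝ, (∀ g, 0 ≤ μ g) ∧ ∑ g ∈ A, μ g = 1 ∧
      ∀ g ∈ A, ∀ D, k ≤ D → D ≤ t → 1 ≤ 3 ^ (D - k) * ∑ g' ∈ A.filter (fun g' => g' ∈ cl T D g), μ g' := by
  have key : ∀ (m k : ℕ), k + m = t → ∀ (f : F) (A : Finset F), A.Nonempty → A ⊆ cl T k f →
      ∃ μ : F → ℝ, (∀ g, 0 ≤ μ g) ∧ ∑ g ∈ A, μ g = 1 ∧
        ∀ g ∈ A, ∀ D, k ≤ D → D ≤ t →
          1 ≤ (3 : ℝ) ^ (D - k) * ∑ g' ∈ A.filter (fun g' => g' ∈ cl T D g), μ g' := by
    intro m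
    induction m with
    | zero =>
      intro k hk f A hA hAf
      have hkt : k = t := by omega
      subst hkt
      rw [ht f] at hAf
      have hAe : A = {f} := (Finset.Nonempty.subset_singleton_iff hA).1 hAf
      subst hAe
      refine ⟨fun _ => 1, fun _ => zero_le_one, by simp, ?_⟩
      intro g hg D h1 h2
      have hD : D = k := le_antisymm h2 h1
      subst hD
      rw [Finset.mem_singleton] at hg
      subst hg
      have h3 : ({g} : Finset F).filter (fun g' => g' ∈ cl T D g) = {g} := by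
        refine Finset.filter_true_of_mem fun x hx => ?_
        rw [Finset.mem_singleton] at hx
        rw [hx]
        exact mem_cl_self T D g
      rw [h3]
      simp
    | succ m ih =>
      intro k hk f A hA hAf
      have hcl : ∀ g ∈ A, cl T k g = cl T k f := fun g hg => cl_eq_of_mem T k f g (hAf hg)
      obtain ⟨ρ, hρ⟩ : ∃ ρ : F → Fin 3, ∀ g, ρ g = T.reg (hub T (cl T k f)) g := ⟨_, fun _ => rfl⟩
      have hcl2 : ∀ g ∈ A, ∀ x, x ∈ cl T (k + 1) g ↔ x ∈ cl T k f ∧ ρ x = ρ g := by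
        intro g hg x
        rw [mem_cl_succ, hcl g hg, hρ, hρ]
      have hex : ∀ i : Fin 3, ∃ μ : F → ℝ, (∀ g, 0 ≤ μ g) ∧ ((A.filter (fun g => ρ g = i)).Nonempty →
          (∑ g ∈ A.filter (fun g => ρ g = i), μ g = 1 ∧
          ∀ g ∈ A.filter (fun g => ρ g = i), ∀ D, k + 1 ≤ D → D ≤ t →
            1 ≤ (3 : ℝ) ^ (D - (k + 1)) *
              ∑ g' ∈ (A.filter (fun g => ρ g = i)).filter (fun g' => g' ∈ cl T D g), μ g')) := by
        intro i
        by_cases hi : (A.filter (fun g => ρ g = i)).Nonempty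
        · obtain ⟨g0, hg0⟩ := hi
          have hg0' := Finset.mem_filter.1 hg0
          obtain ⟨μ, h1, h2, h3⟩ := ih (k + 1) (by omega) g0 (A.filter (fun g => ρ g = i)) ⟨g0, hg0⟩ (by
            intro x hx
            rw [Finset.mem_filter] at hx
            exact (hcl2 g0 hg0'.1 x).2 ⟨hAf hx.1, hx.2.trans hg0'.2.symm⟩)
          exact ⟨μ, h1, fun _ => ⟨h2, h3⟩⟩
        · exact ⟨fun _ => 0, fun _ => le_rfl, fun h => absurd h hi⟩
      choose μ hμ0 hμ using hex
      have hI0 : 0 < (A.image ρ).card := Finset.card_pos.2 (hA.image ρ)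
      have hI3 : (A.image ρ).card ≤ 3 := by
        have h := Finset.card_le_univ (A.image ρ)
        rwa [Fintype.card_fin] at h
      have hc0 : (0 : ℝ) < ((A.image ρ).card : ℝ) := by exact_mod_cast hI0
      have hc3 : ((A.image ρ).card : ℝ) ≤ 3 := by exact_mod_cast hI3
      have hne : ∀ g ∈ A, (A.filter (fun x => ρ x = ρ g)).Nonempty := fun g hg =>
        ⟨g, Finset.mem_filter.2 ⟨hg, rfl⟩⟩
      have hsum : ∑ g ∈ A, μ (ρ g) g / ((A.image ρ).card : ℝ) = 1 := by
        have h1 := Finset.sum_fiberwise_of_maps_to (s := A) (t := A.image ρ) (g := ρ)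
          (fun x hx => Finset.mem_image_of_mem ρ hx) (fun g => μ (ρ g) g / ((A.image ρ).card : ℝ))
        rw [← h1]
        have h2 : ∀ i ∈ A.image ρ, ∑ g ∈ A.filter (fun g => ρ g = i), μ (ρ g) g / ((A.image ρ).card : ℝ) =
            1 / ((A.image ρ).card : ℝ) := by
          intro i hi
          obtain ⟨g, hg, rfl⟩ := Finset.mem_image.1 hi
          rw [← (hμ (ρ g) (hne g hg)).1, Finset.sum_div]
          refine Finset.sum_congr rfl fun x hx => ?_
          rw [(Finset.mem_filter.1 hx).2]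
        rw [Finset.sum_congr rfl h2, Finset.sum_const, nsmul_eq_mul, mul_one_div, div_self hc0.ne']
      refine ⟨fun g => μ (ρ g) g / ((A.image ρ).card : ℝ), fun g => div_nonneg (hμ0 _ _) hc0.le, hsum, ?_⟩
      intro g hg D h1 h2
      rcases h1.eq_or_lt with h3 | h3
      · subst h3
        have h4 : A.filter (fun g' => g' ∈ cl T k g) = A := by
          refine Finset.filter_true_of_mem fun x hx => ?_
          rw [hcl g hg]
          exact hAf hx
        rw [h4, hsum, Nat.sub_self, pow_zero, one_mul]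
      · have h4 : A.filter (fun g' => g' ∈ cl T D g) =
            (A.filter (fun x => ρ x = ρ g)).filter (fun g' => g' ∈ cl T D g) := by
          ext x
          rw [Finset.mem_filter, Finset.mem_filter, Finset.mem_filter]
          constructor
          · rintro ⟨hx1, hx2⟩
            exact ⟨⟨hx1, ((hcl2 g hg x).1 (cl_anti T h3 g hx2)).2⟩, hx2⟩
          · rintro ⟨⟨hx1, _⟩, hx2⟩
            exact ⟨hx1, hx2⟩
        have h5 := (hμ (ρ g) (hne g hg)).2 g (Finset.mem_filter.2 ⟨hg, rfl⟩) D h3 h2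
        have h6 : ∑ g' ∈ (A.filter (fun x => ρ x = ρ g)).filter (fun g' => g' ∈ cl T D g),
            μ (ρ g') g' / ((A.image ρ).card : ℝ) =
            (∑ g' ∈ (A.filter (fun x => ρ x = ρ g)).filter (fun g' => g' ∈ cl T D g), μ (ρ g) g') /
              ((A.image ρ).card : ℝ) := by
          rw [Finset.sum_div]
          refine Finset.sum_congr rfl fun x hx => ?_
          rw [(Finset.mem_filter.1 (Finset.mem_filter.1 hx).1).2]
        rw [h4, h6]
        have h7 : D - k = (D - (k + 1)) + 1 := by omega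
        rw [h7, pow_succ]
        obtain ⟨S, hS⟩ : ∃ S : ℝ, S = ∑ g' ∈ (A.filter (fun x => ρ x = ρ g)).filter
            (fun g' => g' ∈ cl T D g), μ (ρ g) g' := ⟨_, rfl⟩
        rw [← hS] at h5 ⊢
        rw [mul_div_assoc', le_div_iff₀ hc0, one_mul]
        nlinarith [h5, hc3]
  exact key (t - k) k (by omega) f A hA hAf

end MP0e5907
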