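import Pool.Agent.Lib_MP_0e5907.QSlev
import Pool.Agent.Lib_MP_0e5907.QPart
import Pool.Agent.Lib_MP_0e5907.Beta

/-!
# Piece QTRI: the allowed dual trees leave `f` correctly

Paper proof. `tri_of_beta`: this is the proof of `tri_at` in `Beta.lean` (copy it; `beta_exists` is replaced by the hypothesis `hβ`).
* `beta2_exists`: let `P = part T t f`, `Y = Yof T t f y`. `part_flow` applies to `P`, `Y`: if `e ∉ S` and `P (lf e) ≠ P (rf e)` then `InT T t f t e` (`part_inT`), so `e ∈ Y` (`hSy`); `#Y + 1 ≤ #Idx + 1 ≤ #parts` (`Finset.card_image_le`, `card_parts`). Note `P g = P f ↔ g = f` (first component, `slev_eq_t`, `slev_self`).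
  `G = G i`. Claim(k), by downward induction on `k` from `t` to `0`: there is `β` with `β = 0` on `S`, `bd T β g0 = [g0 = f] - [g0 = G k]`, and for `r` with `lf r = f`: `β r = 1` if (`r.2 + 1 = i` and `G k ≠ f`), else `0`; for `rf r = f`: `β r = -1` if (`r.2 + 2 = i` and `G k ≠ f`) else `0`.
  `k = t`: `G t ∈ cl T t f = {f}`, `β = 0`. Step from `k+1` to `k < t`: if `G k = G (k+1)` nothing to do. Otherwise `step` of `ExitD` gives `cc ≠ i`, `reg H (G k) = i` (`H = hub T (cl T k f)`, `cc = cc T k f`), `G k ∉ cl T (k+1) f`; so `p = (k,i)` is in `Idx` (`Sib`: `i ≠ cc`, `G k ∈ cl T k f`), `P (G k) = (k,i)` (`part_of_ne`).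
  `e = y p ∈ JJ`: `e ∈ leg T k f (-(cc+i))` and `a = inn T f k e` satisfies `a ∈ cl T (min (slev (G (k+1)) + 1) t) (G (k+1))`, i.e. `P a = P (G (k+1))` (`part_eq_iff`). `e ∉ S` (`part_all`, `e ∈ Y`). Let `b` be the other face of `e`: by `leg_reg` (`m = -(cc+i)`): if `m + 2 = cc` then `a = lf e`, `b = rf e`, `reg H b = m + 1 = i`; otherwise `m + 1 = cc`, `m + 2 = i`, `a = rf e`, `b = lf e`. So `P b = (k,i) = P (G k)`.
  `γ1` = flow from `G (k+1)` to `a` in the part of `G (k+1)`, `γ2` = flow from `b` to `G k` in the part `(k,i)` (`part_flow`), `ε = 1` if `a = lf e`, `-1` if `a = rf e`. New `β' = β + γ1 + ε 1_e + γ2` (`beta_bd_lin`, `beta_bd_single`): boundary `[f] - [G (k+1)] + [G (k+1)] - [a] + [a] - [b] + [b] - [G k]`.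
  Sides of `f`: if `lf r = f` or `rf r = f` then `γ1 r = γ2 r = 0` (otherwise both faces of `r` are in the same part, containing `f`, so both are `f`, contradicting `lf_ne_rf`). `G k ≠ f` (its part is `(k,i)`, `k < t`), `b ≠ f`. `a = f` iff `P (G (k+1)) = P f` iff `G (k+1) = f`.
  If `G (k+1) ≠ f`: `e` is not a side of `f`, the values of `β` are as required. If `G (k+1) = f`: `β = 0` on the sides of `f`, `a = f`; if `a = lf e`: `m + 1 = i`, i.e. `e.2 + 1 = i`, and any `r` with `lf r = f`, `r.2 + 1 = i` is `e` (`cross_unique`, `Cross T i f r (rf r)`); no `r` with `rf r = f` has `r.2 + 2 = i` (else `Cross T i f r (lf r)`, so `r = e`, `rf e = f = lf e`). Same if `a = rf e`.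
  End: `k = 0`, `G 0 = of i`; if `r` has `lf r = f`, `r.2 + 1 = i` or `rf r = f`, `r.2 + 2 = i` then `f ≠ of i` (`cross_not_outer`), so the condition `G 0 ≠ f` can be dropped.
* `tri_at2`: `tri_of_beta` and `beta2_exists`.
-/

namespace MP0e5907

open Finset

variable {N F : Type} [Fintype N] [Fintype F]

private theorem qtri_card {α β : Type} [Fintype α] (d1 d2 : DecidableEq β) (h : α → β) :
    (@Finset.image α β d1 h Finset.univ).card = (@Finset.image α β d2 h Finset.univ).card := by
  have h0 : d1 = d2 := Subsingleton.elim _ _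
  rw [h0]

private theorem qtri_fin : ∀ c i : Fin 3, c ≠ i →
    (-(c + i) + 2 = c ∧ -(c + i) + 1 = i) ∨ (-(c + i) + 1 = c ∧ -(c + i) + 2 = i) := by decide

open Classical in
/-- the induction hypothesis: a function which vanishes on `S`, with boundary `[f] - [g]` and the right
values at the sides of `f` -/
private def QC (T : STri N F) (f : F) (S : Finset (N × Fin 3)) (i : Fin 3) (g : F) : Prop :=
  ∃ β : N × Fin 3 → ℝ, (∀ e ∈ S, β e = 0) ∧
    (∀ g0 : F, bd T β g0 = (if g0 = f then 1 else 0) - (if g0 = g then 1 else 0)) ∧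
    (∀ r, T.lf r = f → β r = if r.2 + 1 = i ∧ g ≠ f then 1 else 0) ∧
    (∀ r, T.rf r = f → β r = if r.2 + 2 = i ∧ g ≠ f then -1 else 0)

omit [Fintype F] in
open Classical in
private theorem qtri_step (T : STri N F) {f : F} {S : Finset (N × Fin 3)} {i : Fin 3}
    {g a b g2 : F} {e : N × Fin 3} (hc : Cross T i a e b) (heS : e ∉ S) (hβ : QC T f S i g)
    {γ1 γ2 : N × Fin 3 → ℝ} (h1S : ∀ r ∈ S, γ1 r = 0) (h2S : ∀ r ∈ S, γ2 r = 0)
    (h1 : ∀ g0, bd T γ1 g0 = (if g0 = g then 1 else 0) - (if g0 = a then 1 else 0))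
    (h2 : ∀ g0, bd T γ2 g0 = (if g0 = b then 1 else 0) - (if g0 = g2 then 1 else 0))
    (hs1 : ∀ r, (T.lf r = f ∨ T.rf r = f) → γ1 r = 0)
    (hs2 : ∀ r, (T.lf r = f ∨ T.rf r = f) → γ2 r = 0) (hg2 : g2 ≠ f) (hb : b ≠ f)
    (hag : a = f ↔ g = f) : QC T f S i g2 := by
  obtain ⟨β, hβ1, hβ2, hβ3, hβ4⟩ := hβ
  have huq : g = f → ∀ r g0, Cross T i f r g0 → r = e := by
    intro hg r g0 h
    rw [hag.2 hg] at hc
    exact (cross_unique T h hc).1
  have hlr := lf_ne_rf T e
  rcases hc with ⟨c1, c2, c3⟩ | ⟨c1, c2, c3⟩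
  · refine ⟨fun r => ((β r + 1 * γ1 r) + 1 * (if r = e then 1 else 0)) + 1 * γ2 r, ?_, ?_, ?_, ?_⟩
    · intro r hr
      have hre : r ≠ e := fun h => heS (h ▸ hr)
      simp only [hβ1 r hr, h1S r hr, h2S r hr, if_neg hre]
      ring
    · intro g0
      rw [beta_bd_lin T (fun r => (β r + 1 * γ1 r) + 1 * (if r = e then 1 else 0)) γ2 1 g0,
        beta_bd_lin T (fun r => β r + 1 * γ1 r) (fun r => if r = e then 1 else 0) 1 g0,
        beta_bd_lin, hβ2, h1, h2, beta_bd_single, c1, c2]
      ring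
    · intro r hr
      simp only [hs1 r (Or.inl hr), hs2 r (Or.inl hr), hβ3 r hr]
      by_cases hg : g = f
      · have h3 : ¬ (r.2 + 1 = i ∧ g ≠ f) := fun h => h.2 hg
        rw [if_neg h3]
        by_cases hre : r = e
        · have h4 : r.2 + 1 = i ∧ g2 ≠ f := ⟨by rw [hre]; exact c3.symm, hg2⟩
          rw [if_pos hre, if_pos h4]
          ring
        · have h4 : ¬ (r.2 + 1 = i ∧ g2 ≠ f) := fun h =>
            hre (huq hg r (T.rf r) (Or.inl ⟨hr.symm, rfl, h.1.symm⟩))
          rw [if_neg hre, if_neg h4]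
          ring
      · have hre : r ≠ e := by
          rintro rfl
          exact hg (hag.1 (c1.trans hr))
        rw [if_neg hre]
        by_cases h4 : r.2 + 1 = i
        · rw [if_pos ⟨h4, hg⟩, if_pos ⟨h4, hg2⟩]
          ring
        · rw [if_neg (fun h => h4 h.1), if_neg (fun h => h4 h.1)]
          ring
    · intro r hr
      simp only [hs1 r (Or.inr hr), hs2 r (Or.inr hr), hβ4 r hr]
      have hre : r ≠ e := by
        rintro rfl
        exact hb (c2.trans hr)
      rw [if_neg hre]
      by_cases hg : g = f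
      · have h3 : ¬ (r.2 + 2 = i ∧ g ≠ f) := fun h => h.2 hg
        have h4 : ¬ (r.2 + 2 = i ∧ g2 ≠ f) := fun h =>
          hre (huq hg r (T.lf r) (Or.inr ⟨hr.symm, rfl, h.1.symm⟩))
        rw [if_neg h3, if_neg h4]
        ring
      · by_cases h4 : r.2 + 2 = i
        · rw [if_pos ⟨h4, hg⟩, if_pos ⟨h4, hg2⟩]
          ring
        · rw [if_neg (fun h => h4 h.1), if_neg (fun h => h4 h.1)]
          ring
  · refine ⟨fun r => ((β r + 1 * γ1 r) + (-1) * (if r = e then 1 else 0)) + 1 * γ2 r,
      ?_, ?_, ?_, ?_⟩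
    · intro r hr
      have hre : r ≠ e := fun h => heS (h ▸ hr)
      simp only [hβ1 r hr, h1S r hr, h2S r hr, if_neg hre]
      ring
    · intro g0
      rw [beta_bd_lin T (fun r => (β r + 1 * γ1 r) + (-1) * (if r = e then 1 else 0)) γ2 1 g0,
        beta_bd_lin T (fun r => β r + 1 * γ1 r) (fun r => if r = e then 1 else 0) (-1) g0,
        beta_bd_lin, hβ2, h1, h2, beta_bd_single, c1, c2]
      ring
    · intro r hr
      simp only [hs1 r (Or.inl hr), hs2 r (Or.inl hr), hβ3 r hr]
      have hre : r ≠ e := by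
        rintro rfl
        exact hb (c2.trans hr)
      rw [if_neg hre]
      by_cases hg : g = f
      · have h3 : ¬ (r.2 + 1 = i ∧ g ≠ f) := fun h => h.2 hg
        have h4 : ¬ (r.2 + 1 = i ∧ g2 ≠ f) := fun h =>
          hre (huq hg r (T.rf r) (Or.inl ⟨hr.symm, rfl, h.1.symm⟩))
        rw [if_neg h3, if_neg h4]
        ring
      · by_cases h4 : r.2 + 1 = i
        · rw [if_pos ⟨h4, hg⟩, if_pos ⟨h4, hg2⟩]
          ring
        · rw [if_neg (fun h => h4 h.1), if_neg (fun h => h4 h.1)]
          ring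
    · intro r hr
      simp only [hs1 r (Or.inr hr), hs2 r (Or.inr hr), hβ4 r hr]
      by_cases hg : g = f
      · have h3 : ¬ (r.2 + 2 = i ∧ g ≠ f) := fun h => h.2 hg
        rw [if_neg h3]
        by_cases hre : r = e
        · have h4 : r.2 + 2 = i ∧ g2 ≠ f := ⟨by rw [hre]; exact c3.symm, hg2⟩
          rw [if_pos hre, if_pos h4]
          ring
        · have h4 : ¬ (r.2 + 2 = i ∧ g2 ≠ f) := fun h =>
            hre (huq hg r (T.lf r) (Or.inr ⟨hr.symm, rfl, h.1.symm⟩))
          rw [if_neg hre, if_neg h4]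
          ring
      · have hre : r ≠ e := by
          rintro rfl
          exact hg (hag.1 (c1.trans hr))
        rw [if_neg hre]
        by_cases h4 : r.2 + 2 = i
        · rw [if_pos ⟨h4, hg⟩, if_pos ⟨h4, hg2⟩]
          ring
        · rw [if_neg (fun h => h4 h.1), if_neg (fun h => h4 h.1)]
          ring

open Classical in
theorem tri_of_beta (T : STri N F) (f : F) (S : Finset (N × Fin 3)) (hS : IsB T S)
    (hβ : ∀ i : Fin 3, ∃ β : N × Fin 3 → ℝ, (∀ e ∈ S, β e = 0) ∧
      (∀ g : F, bd T β g = (if g = f then 1 else 0) - (if g = T.of i then 1 else 0)) ∧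
      (∀ r, T.lf r = f → β r = if r.2 + 1 = i then 1 else 0) ∧
      (∀ r, T.rf r = f → β r = if r.2 + 2 = i then -1 else 0))
    (col : N ⊕ Fin 3 → Fin 3) (hr : ∀ i, col (Sum.inr i) = i)
    (hc : ∀ e ∈ S, col (Sum.inl e.1) = col (T.par e.1 e.2)) (k : Fin 3) : col (T.vert f k) = k := by
  classical
  obtain ⟨β1, h11, h12, h13, h14⟩ := hβ (k + 1)
  obtain ⟨β2, h21, h22, h23, h24⟩ := hβ (k + 2)
  set x : N ⊕ Fin 3 → ℝ := fun v => if col v = k then 1 else 0 with hx
  have hx0 : ∀ e ∈ S, dif T x e = 0 := by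
    intro e he
    simp only [dif, hx, hc e he, sub_self]
  have hxb : ∀ g, bd T (dif T x) g = (if g = T.of (k + 1) then 1 else 0) - (if g = T.of (k + 2) then 1 else 0) := by
    intro g
    rw [bd_dif]
    simp only [hx, hr]
    have hsymm : ∀ j, (T.of j = g) ↔ (g = T.of j) := fun j => eq_comm
    simp only [hsymm]
    fin_cases k <;> simp [Fin.sum_univ_three] <;> split_ifs <;> norm_num
  have key : ∀ r, dif T x r = β2 r - β1 r := by
    have h := lemmaA T S hS (fun r => (β2 r + (-1) * β1 r) + (-1) * dif T x r) ?_ ?_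
    · intro r
      have := h r
      linarith
    · intro e he
      simp only [h21 e he, h11 e he, hx0 e he]; ring
    · intro g
      rw [beta_bd_lin T (fun r => β2 r + (-1) * β1 r) (dif T x) (-1) g, beta_bd_lin, h22, h12, hxb]; ring
  have hk3 : k + 2 + 1 = k := by fin_cases k <;> rfl
  have hk12 : k + 1 ≠ k + 2 := by fin_cases k <;> decide
  have hfin : x (T.vert f k) ≠ 0 → col (T.vert f k) = k := by
    intro h
    by_contra h2
    exact h (if_neg h2)
  have hnn : 0 ≤ x (T.vert f (k + 1)) := by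
    simp only [hx]
    split_ifs <;> norm_num
  rcases side_cases T (k + 2) f with hout | ⟨e, g', hcr⟩
  · have h := T.of_one (k + 2)
    rw [← hout, hk3] at h
    rw [h, hr]
  · rcases hcr with ⟨h1, _, h3⟩ | ⟨h1, _, h3⟩
    · have he2 : e.2 = k + 1 := by
        have : e.2 + 1 = k + 1 + 1 := by rw [← h3]; fin_cases k <;> rfl
        exact add_right_cancel this
      have hd := key e
      rw [h23 e h1.symm, h13 e h1.symm, he2, if_pos (by fin_cases k <;> rfl), if_neg (by fin_cases k <;> decide)] at hd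
      have ht1 := T.lf_tail e
      have ht2 := T.lf_head e
      rw [← h1, he2] at ht1 ht2
      have hk : k + 1 + 2 = k := by fin_cases k <;> rfl
      rw [hk] at ht1
      apply hfin
      simp only [dif] at hd
      rw [← ht1] at hd
      rw [show T.par e.1 e.2 = T.vert f (k + 1) by rw [he2]; exact ht2.symm] at hd
      intro h0
      rw [h0] at hd
      linarith
    · have he2 : e.2 = k := (add_right_cancel h3).symm
      have hd := key e
      rw [h24 e h1.symm, h14 e h1.symm, he2, if_pos rfl, if_neg (by fin_cases k <;> decide)] at hd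
      have ht1 := T.rf_tail e
      have ht2 := T.rf_head e
      rw [← h1, he2] at ht1 ht2
      apply hfin
      simp only [dif] at hd
      rw [← ht1] at hd
      rw [show T.par e.1 e.2 = T.vert f k by rw [he2]; exact ht2.symm] at hd
      intro h0
      rw [h0] at hd
      linarith

open Classical in
theorem beta2_exists (T : STri N F) (t : ℕ) (ht : 5 ^ t * Fintype.card F < 2 * 6 ^ t) (f : F)
    (G : Fin 3 → ℕ → F) (hG : ∀ j, ExitD T t f j (G j)) (S : Finset (N × Fin 3)) (hS : IsB T S)
    (y : Idx T t f → N × Fin 3) (hy : ∀ p, y p ∈ JJ T t f G p.1.1 p.1.2)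
    (hSy : ∀ e, e ∉ S → InT T t f t e → e ∈ Yof T t f y) (i : Fin 3) :
    ∃ β : N × Fin 3 → ℝ, (∀ e ∈ S, β e = 0) ∧
      (∀ g : F, bd T β g = (if g = f then 1 else 0) - (if g = T.of i then 1 else 0)) ∧
      (∀ r, T.lf r = f → β r = if r.2 + 1 = i then 1 else 0) ∧
      (∀ r, T.rf r = f → β r = if r.2 + 2 = i then -1 else 0) := by
  have hY : ∀ e, e ∉ S → part T t f (T.lf e) ≠ part T t f (T.rf e) → e ∈ Yof T t f y :=
    fun e he h => hSy e he (part_inT T t ht f e h)
  have hc : (Yof T t f y).card + 1 ≤ (@Finset.image F (ℕ × Fin 3)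
      (fun a b => Classical.propDecidable (a = b)) (part T t f) Finset.univ).card := by
    have h1 := card_parts T t f
    have h2 : (Yof T t f y).card ≤ Fintype.card (Idx T t f) := by
      unfold Yof
      exact Finset.card_image_le
    exact (Nat.succ_le_succ h2).trans (h1.trans (le_of_eq (qtri_card _ _ _)))
  have hflow := part_flow T S hS (part T t f) (Yof T t f y) hY hc
  have hall := part_all T S hS (part T t f) (Yof T t f y) hY hc
  have hPf : ∀ g, part T t f g = part T t f f → g = f := by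
    intro g h
    have h1 : slev T t f g = slev T t f f := congrArg Prod.fst h
    rw [slev_self] at h1
    exact (slev_eq_t T t ht f g).1 h1
  have hside : ∀ (γ : N × Fin 3 → ℝ) (q : ℕ × Fin 3),
      (∀ e, γ e ≠ 0 → part T t f (T.lf e) = q ∧ part T t f (T.rf e) = q) →
      ∀ r, (T.lf r = f ∨ T.rf r = f) → γ r = 0 := by
    intro γ q hγ r hr
    by_contra h0
    obtain ⟨h1, h2⟩ := hγ r h0
    rcases hr with hr | hr
    · have h3 : T.rf r = f := hPf _ (by rw [h2, ← h1, hr])
      exact lf_ne_rf T r (hr.trans h3.symm)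
    · have h3 : T.lf r = f := hPf _ (by rw [h1, ← h2, hr])
      exact lf_ne_rf T r (h3.trans hr.symm)
  have key : ∀ j k, k + j = t → QC T f S i (G i k) := by
    intro j
    induction j with
    | zero =>
      intro k hk
      have h1 := (hG i).mem k (by omega)
      have h2 : k = t := by omega
      rw [h2] at h1 ⊢
      rw [cl_small T t ht, Finset.mem_singleton] at h1
      rw [h1]
      refine ⟨fun _ => 0, fun _ _ => rfl, ?_, ?_, ?_⟩
      · intro g0
        rw [sub_self]
        unfold bd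
        simp
      · intro r _
        rw [if_neg]
        rintro ⟨-, h⟩
        exact h rfl
      · intro r _
        rw [if_neg]
        rintro ⟨-, h⟩
        exact h rfl
    | succ j ih =>
      intro k hkj
      have hk : k < t := by omega
      have ih' := ih (k + 1) (by omega)
      rcases (hG i).step k hk with hstep | ⟨h1, h2, h3, -⟩
      · rw [hstep]
        exact ih'
      · have hGk : G i k ∈ cl T k f := (hG i).mem k hk.le
        have hGk1 : G i (k + 1) ∈ cl T (k + 1) f := (hG i).mem (k + 1) hk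
        have hne : G i k ≠ G i (k + 1) := fun h => h1 (h ▸ hGk1)
        have hPk : part T t f (G i k) = (k, i) := by
          rw [part_of_ne T hk hGk (by rw [h3]; exact h2.symm), h3]
        have hPff : (part T t f f).1 = t := slev_self T t f
        obtain ⟨e, he, heY⟩ : ∃ e, e ∈ JJ T t f G k i ∧ e ∈ Yof T t f y := by
          refine ⟨y ⟨(⟨k, hk⟩, i), ⟨h2.symm, G i k, hGk, h3⟩⟩, hy _, ?_⟩
          unfold Yof
          exact Finset.mem_image_of_mem _ (Finset.mem_univ _)
        unfold JJ at he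
        rw [if_neg hne, Finset.mem_filter] at he
        obtain ⟨he1, he2⟩ := he
        have hPa := (part_eq_iff T t ht f (G i (k + 1)) (inn T f k e)).2 he2
        obtain ⟨hl1, hl2⟩ := leg_reg T he1
        obtain ⟨hm1, hm2, hm3, -⟩ := (mem_leg T k f _ e).1 he1
        obtain ⟨b, hcr, hbm, hbr⟩ : ∃ b, Cross T i (inn T f k e) e b ∧ b ∈ cl T k f ∧
            T.reg (hub T (cl T k f)) b = i := by
          rcases qtri_fin (cc T k f) i h2 with ⟨h5, h6⟩ | ⟨h5, h6⟩
          · have h7 : inn T f k e = T.lf e := by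
              unfold inn
              rw [if_pos (hl1.trans h5)]
            rw [h7]
            exact ⟨T.rf e, Or.inl ⟨rfl, rfl, by rw [hm1]; exact h6.symm⟩, hm3, hl2.trans h6⟩
          · have h7 : inn T f k e = T.rf e := by
              unfold inn
              rw [if_neg]
              rw [hl1, h6]
              exact h2.symm
            rw [h7]
            exact ⟨T.lf e, Or.inr ⟨rfl, rfl, by rw [hm1]; exact h6.symm⟩, hm2, hl1.trans h6⟩
        have hPb : part T t f b = (k, i) := by
          rw [part_of_ne T hk hbm (by rw [hbr]; exact h2.symm), hbr]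
        obtain ⟨γ1, a1, a2, a3⟩ := hflow (G i (k + 1)) (inn T f k e) hPa.symm
        obtain ⟨γ2, b1, b2, b3⟩ := hflow b (G i k) (hPb.trans hPk.symm)
        have hnf : ∀ g, part T t f g = (k, i) → g ≠ f := by
          rintro g hg rfl
          rw [hg] at hPff
          exact hk.ne hPff
        have hag : inn T f k e = f ↔ G i (k + 1) = f := by
          constructor
          · intro h
            apply hPf
            rw [← hPa, h]
          · intro h
            apply hPf
            rw [hPa, h]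
        exact qtri_step T hcr (hall e heY) ih' a1 b1 a3 b3 (hside γ1 _ a2) (hside γ2 _ b2)
          (hnf _ hPk) (hnf _ hPb) hag
  obtain ⟨β, h1, h2, h3, h4⟩ := key t 0 (by omega)
  rw [(hG i).zero] at h2 h3 h4
  refine ⟨β, h1, h2, fun r hr => ?_, fun r hr => ?_⟩
  · rw [h3 r hr]
    by_cases h : r.2 + 1 = i
    · have h5 := cross_not_outer T (Or.inl ⟨hr.symm, rfl, h.symm⟩ : Cross T i f r (T.rf r))
      rw [if_pos h, if_pos ⟨h, h5.symm⟩]
    · rw [if_neg h, if_neg (fun h' => h h'.1)]
  · rw [h4 r hr]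
    by_cases h : r.2 + 2 = i
    · have h5 := cross_not_outer T (Or.inr ⟨hr.symm, rfl, h.symm⟩ : Cross T i f r (T.lf r))
      rw [if_pos h, if_pos ⟨h, h5.symm⟩]
    · rw [if_neg h, if_neg (fun h' => h h'.1)]

theorem tri_at2 (T : STri N F) (t : ℕ) (ht : 5 ^ t * Fintype.card F < 2 * 6 ^ t) (f : F)
    (G : Fin 3 → ℕ → F) (hG : ∀ j, ExitD T t f j (G j)) (S : Finset (N × Fin 3)) (hS : IsB T S)
    (y : Idx T t f → N × Fin 3) (hy : ∀ p, y p ∈ JJ T t f G p.1.1 p.1.2)
    (hSy : ∀ e, e ∉ S → InT T t f t e → e ∈ Yof T t f y)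
    (col : N ⊕ Fin 3 → Fin 3) (hr : ∀ i, col (Sum.inr i) = i)
    (hc : ∀ e ∈ S, col (Sum.inl e.1) = col (T.par e.1 e.2)) (k : Fin 3) : col (T.vert f k) = k := by
  exact tri_of_beta T f S hS (fun i => beta2_exists T t ht f G hG S hS y hy hSy i) col hr hc k

end MP0e5907
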