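import Pool.Agent.Lib_MP_0e5907.LBase
import Pool.Agent.Lib_MP_0e5907.MBase
import Pool.Agent.Lib_MP_0e5907.Base3

/-!
# MP_0e5907, Stage 3 (SIMPLE polytopes on a polynomial grid) - definitions

`W` = facets of the simple polytope (= vertices of the polar simplicial polytope), `G` = vertices of the simple polytope (= faces of the
polar), `fv g k` = the three facets through the vertex `g`.
-/

namespace MP0e5907

/-- integer determinant -/
def idet (a b c : Fin 3 → ℤ) : ℤ :=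
  a 0 * (b 1 * c 2 - b 2 * c 1) - a 1 * (b 0 * c 2 - b 2 * c 0) + a 2 * (b 0 * c 1 - b 1 * c 0)

/-- integer cross product -/
def icross (a b : Fin 3 → ℤ) : Fin 3 → ℤ :=
  ![a 1 * b 2 - a 2 * b 1, a 2 * b 0 - a 0 * b 2, a 0 * b 1 - a 1 * b 0]

/-- integer scalar product -/
def idot (a b : Fin 3 → ℤ) : ℤ := a 0 * b 0 + a 1 * b 1 + a 2 * b 2

section abstract

variable {W G : Type}

/-- incidence -/
def Inc (fv : G → Fin 3 → W) (g : G) (w : W) : Prop := ∃ k, fv g k = w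

/-- adjacency -/
def Adj (fv : G → Fin 3 → W) (u w : W) : Prop := u ≠ w ∧ ∃ g, Inc fv g u ∧ Inc fv g w

/-- `u` is the last of the three elements of `g` -/
def Asg (fv : G → Fin 3 → W) (ord : W → ℕ) (u : W) (g : G) : Prop :=
  Inc fv g u ∧ ∀ k, fv g k ≠ u → ord (fv g k) < ord u

/-- combinatorial triangulated surface with a degeneracy property -/
structure Surf (fv : G → Fin 3 → W) : Prop where
  inj : ∀ g, Function.Injective (fv g)
  set : ∀ g g', (∀ k, Inc fv g' (fv g k)) → g = g'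
  nbr : ∀ g k, ∃ g', (∀ j, j ≠ k → Inc fv g' (fv g j)) ∧ ¬ Inc fv g' (fv g k)
  pair : ∀ u w, u ≠ w → Set.ncard {g | Inc fv g u ∧ Inc fv g w} ≤ 2
  deg : ∀ I : Finset W, I.Nonempty → ∃ u ∈ I, Set.ncard {w | w ∈ I ∧ Adj fv w u} ≤ 5

/-- perturbed vectors -/
def uvec (K : ℤ) (a δ : W → Fin 3 → ℤ) (w : W) (i : Fin 3) : ℤ := K * a w i + δ w i

/-- determinant of the three vectors of `g` -/
def gdet (fv : G → Fin 3 → W) (u : W → Fin 3 → ℤ) (g : G) : ℤ := idet (u (fv g 0)) (u (fv g 1)) (u (fv g 2))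

/-- `gdet` times (1 - value at `w` of the functional that is `1` on the three vectors of `g`) -/
def Th (fv : G → Fin 3 → W) (u : W → Fin 3 → ℤ) (g : G) (w : W) : ℤ :=
  gdet fv u g - idet (u w) (u (fv g 1)) (u (fv g 2)) - idet (u (fv g 0)) (u w) (u (fv g 2))
    - idet (u (fv g 0)) (u (fv g 1)) (u w)

/-- invariants of the construction of the normals on the set `D` of processed vertices -/
structure NInv (fv : G → Fin 3 → W) (ord : W → ℕ) (E : ℕ) (D : W → Prop) (u : W → Fin 3 → ℤ) : Prop where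
  nz : ∀ w, D w → u w 0 ≠ 0
  w2 : ∀ w w', D w → D w' → w ≠ w' → u w 0 * u w' 1 - u w 1 * u w' 0 ≠ 0
  det : ∀ w w' w'', D w → D w' → D w'' → w ≠ w' → w ≠ w'' → w' ≠ w'' → idet (u w) (u w') (u w'') ≠ 0
  vp : ∀ w, D w → ∀ p : ℕ, p.Prime → E < p → ∃ i, ¬ (p : ℤ) ∣ u w i
  cross : ∀ w w', D w → D w' → Adj fv w w' → ∀ p : ℕ, p.Prime → E < p → ∃ i, ¬ (p : ℤ) ∣ icross (u w) (u w') i
  gp : ∀ w g g', D w → g ≠ g' → Asg fv ord w g → Asg fv ord w g' → ∀ p : ℕ, p.Prime → E < p →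
    ¬ ((p : ℤ) ∣ gdet fv u g ∧ (p : ℤ) ∣ gdet fv u g')

/-- numerator of Cramer's rule for the point with the values `β` on the three vectors of `g` -/
def cram (fv : G → Fin 3 → W) (u : W → Fin 3 → ℤ) (β : W → ℤ) (g : G) (i : Fin 3) : ℤ :=
  β (fv g 0) * icross (u (fv g 1)) (u (fv g 2)) i + β (fv g 1) * icross (u (fv g 2)) (u (fv g 0)) i +
    β (fv g 2) * icross (u (fv g 0)) (u (fv g 1)) i

end abstract

/-- the triangulated sphere of a Schnyder labelled triangulation: the faces and the outer face -/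
def sfv {N F : Type} (T : STri N F) : Option F → Fin 3 → N ⊕ Fin 3
  | none, k => Sum.inr k
  | some f, k => T.vert f k

/-- facet sets: maximal proper exposed sets -/
def FSet {V : Type} (x : V → Fin 3 → ℝ) (S : Set V) : Prop :=
  Expo x S ∧ S ≠ Set.univ ∧ ∀ S', Expo x S' → S ⊆ S' → S' = S ∨ S' = Set.univ

/-- vertex family of a simple 3-polytope: every vertex is in exactly three facets -/
structure SimpleP {V : Type} (x : V → Fin 3 → ℝ) : Prop where
  vert : ∀ v, Expo x {v}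
  full : ∀ (a : Fin 3 → ℝ) (c : ℝ), (∀ v, ∑ j, a j * x v j = c) → a = 0
  three : ∀ v, Set.ncard {S | FSet x S ∧ v ∈ S} = 3

/-- polar pair: `x` = vertices, `a` = normals of the facets, `I` = incidence -/
structure Polar {V W : Type} [Fintype V] [Fintype W] (x : V → Fin 3 → ℝ) (a : W → Fin 3 → ℝ)
    (I : V → W → Prop) : Prop where
  le : ∀ v w, ∑ j, a w j * x v j ≤ 1
  eq : ∀ v w, ∑ j, a w j * x v j = 1 ↔ I v w
  hullA : ∀ c : Fin 3 → ℝ, (∀ v, ∑ j, c j * x v j ≤ 1) →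
    ∃ μ : W → ℝ, (∀ w, 0 ≤ μ w) ∧ ∑ w, μ w = 1 ∧ ∀ j, c j = ∑ w, μ w * a w j
  hullX : ∀ c : Fin 3 → ℝ, (∀ w, ∑ j, a w j * c j ≤ 1) →
    ∃ μ : V → ℝ, (∀ v, 0 ≤ μ v) ∧ ∑ v, μ v = 1 ∧ ∀ j, c j = ∑ v, μ v * x v j

/-- facets of a polytope: maximal proper exposed faces -/
def IsFacet {n : ℕ} (x : Fin n → E3) (F : Set E3) : Prop :=
  IsExposed ℝ (hull x) F ∧ F ≠ hull x ∧ ∀ F', IsExposed ℝ (hull x) F' → F ⊆ F' → F' = F ∨ F' = hull x

/-- `x` is a list (without repetitions) of the vertices of a simple 3-polytope: the points are in convex position, they span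
the space, and every vertex is in exactly three facets -/
structure IsSimplePolytope {n : ℕ} (x : Fin n → E3) : Prop where
  convexIndependent : ConvexIndependent ℝ x
  full : affineSpan ℝ (Set.range x) = ⊤
  simple : ∀ i, Set.ncard {F | IsFacet x F ∧ x i ∈ F} = 3

end MP0e5907
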