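import Pool.Agent.Lib_MP_0e5907.SBase
import Pool.Agent.Lib_MP_0e5907.MBridge
import Pool.Agent.Lib_MP_0e5907.MFaces

/-!
# Piece SBRIDGE: `IsSimplePolytope` versus `SimpleP`

Paper proof. COPY from `MBridge.lean`: `vert` and `full` from `IsSimplePolytope` (as in `simpP_of_polytope`, `mb_full_of_polytope`), and convex independence and `affineSpan = ⊤` from `SimpleP` (as in `polytope_of_simpP`); these parts use only `convexIndependent`, `full` resp. `vert`, `full`.
The conditions `simple` and `three`: copy from `MFaces.lean` (the lemmas there are private): for an exposed face `F` let `idx F = {i | x i ∈ F}`; then `F = convexHull (x '' idx F)` (`mfaces_span`), `idx F` is empty or exposed (`mfaces_adm`), so `Expo (fun v j => x v j) (idx F)` in all cases (the empty set is exposed by `a = 0`, `c = 1`), and every `S` with `Expo` is `idx F` for some exposed `F` (`mfaces_surj`). So `F ↦ idx F` is an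
inclusion preserving and reflecting bijection from exposed faces to exposed index sets, `idx (hull x) = univ`, and `idx F = univ` iff `F = hull x` (`F = convexHull (range x)`). Hence `IsFacet x F ↔ FSet (coordinates) (idx F)` for exposed `F`: maximality is transported. So `F ↦ idx F` is a bijection from `{F | IsFacet x F ∧ x i ∈ F}` onto `{S | FSet _ S ∧ i ∈ S}`:
equal `ncard` (`Set.ncard_image_of_injOn`, or `Set.ncard_congr`).
-/

namespace MP0e5907

/-- a nonempty exposed face as the contact set of a functional -/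
private theorem sb_lin {n : ℕ} {x : Fin n → E3} {F : Set E3} (hF : IsExposed ℝ (hull x) F)
    (hne : F.Nonempty) : ∃ (l : StrongDual ℝ E3) (c : ℝ), (∀ y ∈ hull x, l y ≤ c) ∧
      ∀ y, y ∈ F ↔ y ∈ hull x ∧ l y = c := by
  obtain ⟨l, hl⟩ := hF hne
  obtain ⟨y0, hy0⟩ := hne
  have h0 : y0 ∈ hull x ∧ ∀ z ∈ hull x, l z ≤ l y0 := by
    rw [hl] at hy0
    exact hy0
  refine ⟨l, l y0, h0.2, fun y => ?_⟩
  rw [hl]
  constructor
  · intro hy
    exact ⟨hy.1, le_antisymm (h0.2 y hy.1) (hy.2 y0 h0.1)⟩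
  · rintro ⟨hy, he⟩
    refine ⟨hy, fun z hz => ?_⟩
    rw [he]
    exact h0.2 z hz

/-- an exposed face is spanned by its vertices -/
private theorem sb_span {n : ℕ} {x : Fin n → E3} {F : Set E3} (hF : IsExposed ℝ (hull x) F) :
    F = convexHull ℝ (x '' {i | x i ∈ F}) := by
  classical
  rcases F.eq_empty_or_nonempty with rfl | hne
  · have h1 : {i : Fin n | x i ∈ (∅ : Set E3)} = ∅ := rfl
    rw [h1, Set.image_empty, convexHull_empty]
  obtain ⟨l, c, hc, hFl⟩ := sb_lin hF hne
  apply Set.Subset.antisymm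
  · intro y hy
    obtain ⟨hyh, hyc⟩ := (hFl y).1 hy
    obtain ⟨ι, _, w, z, hw0, hw1, hz, rfl⟩ := mem_convexHull_iff_exists_fintype.1 hyh
    have hzero : ∀ i, w i ≠ 0 → z i ∈ F := by
      have h2 : ∑ i, w i * (c - l (z i)) = 0 := by
        have h3 : ∑ i, w i * (c - l (z i)) = (∑ i, w i) * c - l (∑ i, w i • z i) := by
          rw [map_sum, Finset.sum_mul, ← Finset.sum_sub_distrib]
          refine Finset.sum_congr rfl fun i _ => ?_
          rw [map_smul, smul_eq_mul]
          ring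
        rw [h3, hw1, hyc]
        ring
      have h4 : ∀ i, z i ∈ hull x := fun i => subset_convexHull ℝ _ (hz i)
      intro i hi
      have h5 := (Finset.sum_eq_zero_iff_of_nonneg (fun i _ =>
        mul_nonneg (hw0 i) (sub_nonneg.2 (hc _ (h4 i))))).1 h2 i (Finset.mem_univ i)
      exact (hFl _).2 ⟨h4 i, (sub_eq_zero.1 ((mul_eq_zero.1 h5).resolve_left hi)).symm⟩
    rw [← Fintype.sum_subset (s := {i | w i ≠ 0})
      fun i hi => Finset.mem_filter.2 ⟨Finset.mem_univ _, left_ne_zero_of_smul hi⟩]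
    refine (convex_convexHull ℝ _).sum_mem (fun i _ => hw0 _) (by rwa [Finset.sum_filter_ne_zero])
      fun i hi => subset_convexHull ℝ _ ?_
    obtain ⟨j, hj⟩ := hz i
    refine ⟨j, ?_, hj⟩
    show x j ∈ F
    rw [hj]
    exact hzero i (Finset.mem_filter.1 hi).2
  · refine convexHull_min ?_ (hF.convex (convex_convexHull ℝ _))
    rintro _ ⟨i, hi, rfl⟩
    exact hi

private theorem sb_expo {n : ℕ} {x : Fin n → E3} {F : Set E3} (hF : IsExposed ℝ (hull x) F) :
    Expo (fun v j => x v j) {i | x i ∈ F} := by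
  rcases F.eq_empty_or_nonempty with rfl | hne
  · refine ⟨0, 1, fun v => ?_⟩
    simp
  obtain ⟨l, c, hc, hFl⟩ := sb_lin hF hne
  obtain ⟨a, ha⟩ := mbCoefF l
  refine ⟨a, c, fun v => ?_⟩
  have h1 : ∑ j, a j * x v j = l (x v) := (ha _).symm
  rw [h1]
  refine ⟨hc _ (mb_mem_hull x v), ?_⟩
  constructor
  · intro h
    exact (hFl _).2 ⟨mb_mem_hull x v, h⟩
  · intro h
    exact ((hFl _).1 h).2

private theorem sb_surj {n : ℕ} {x : Fin n → E3} {S : Set (Fin n)}
    (hS : Expo (fun v j => x v j) S) : ∃ F, IsExposed ℝ (hull x) F ∧ {i | x i ∈ F} = S := by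
  rcases S.eq_empty_or_nonempty with rfl | hne
  · exact ⟨∅, fun h => absurd h Set.not_nonempty_empty, rfl⟩
  obtain ⟨a, c, hac⟩ := hS
  obtain ⟨i0, hi0⟩ := hne
  have hl : ∀ i, mbLin a (x i) ≤ c := fun i => by rw [mbLin_apply]; exact (hac i).1
  have h0 : mbLin a (x i0) = c := by
    rw [mbLin_apply]
    exact (hac i0).2.2 hi0
  refine ⟨{y ∈ hull x | ∀ z ∈ hull x, mbLin a z ≤ mbLin a y}, fun _ => ⟨mbLin a, rfl⟩, ?_⟩
  ext i
  have h1 := mb_mem_face x (mbLin a) c hl i0 h0 i
  constructor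
  · intro hi
    have h2 := h1.1 hi
    rw [mbLin_apply] at h2
    exact (hac i).2.1 h2
  · intro hi
    refine h1.2 ?_
    rw [mbLin_apply]
    exact (hac i).2.2 hi

private theorem sb_mono {n : ℕ} {x : Fin n → E3} {F G : Set E3} (hF : IsExposed ℝ (hull x) F)
    (hG : IsExposed ℝ (hull x) G) (h : {i | x i ∈ F} ⊆ {i | x i ∈ G}) : F ⊆ G := by
  rw [sb_span hF, sb_span hG]
  exact convexHull_mono (Set.image_mono h)

private theorem sb_inj {n : ℕ} {x : Fin n → E3} {F G : Set E3} (hF : IsExposed ℝ (hull x) F)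
    (hG : IsExposed ℝ (hull x) G) (h : {i | x i ∈ F} = {i | x i ∈ G}) : F = G :=
  Set.Subset.antisymm (sb_mono hF hG h.subset) (sb_mono hG hF h.symm.subset)

private theorem sb_univ {n : ℕ} {x : Fin n → E3} {F : Set E3} (hF : IsExposed ℝ (hull x) F) :
    {i | x i ∈ F} = Set.univ ↔ F = hull x := by
  constructor
  · intro h
    rw [sb_span hF, h, Set.image_univ]
    rfl
  · rintro rfl
    exact Set.eq_univ_of_forall fun i => mb_mem_hull x i

private theorem sb_facet {n : ℕ} {x : Fin n → E3} {F : Set E3} (hF : IsExposed ℝ (hull x) F) :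
    IsFacet x F ↔ FSet (fun v j => x v j) {i | x i ∈ F} := by
  constructor
  · rintro ⟨_, h2, h3⟩
    refine ⟨sb_expo hF, fun h => h2 ((sb_univ hF).1 h), ?_⟩
    intro S' hS' hsub
    obtain ⟨G, hG, rfl⟩ := sb_surj hS'
    rcases h3 G hG (sb_mono hF hG hsub) with h | h
    · left; rw [h]
    · right; exact (sb_univ hG).2 h
  · rintro ⟨_, h2, h3⟩
    refine ⟨hF, fun h => h2 ((sb_univ hF).2 h), ?_⟩
    intro G hG hsub
    rcases h3 _ (sb_expo hG) (fun i hi => hsub hi) with h | h
    · left; exact sb_inj hG hF h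
    · right; exact (sb_univ hG).1 h

private theorem sb_ncard {n : ℕ} (x : Fin n → E3) (i : Fin n) :
    Set.ncard {F | IsFacet x F ∧ x i ∈ F} =
      Set.ncard {S | FSet (fun v j => x v j) S ∧ i ∈ S} := by
  refine Set.ncard_congr (fun F _ => {i | x i ∈ F}) ?_ ?_ ?_
  · rintro F ⟨h1, h2⟩
    exact ⟨(sb_facet h1.1).1 h1, h2⟩
  · rintro F G ⟨h1, _⟩ ⟨h2, _⟩ h
    exact sb_inj h1.1 h2.1 h
  · rintro S ⟨h1, h2⟩
    obtain ⟨F, hF, rfl⟩ := sb_surj h1.1
    exact ⟨F, ⟨(sb_facet hF).2 h1, h2⟩, rfl⟩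

theorem simpleP_of_polytope {n : ℕ} (x : Fin n → E3) (hx : IsSimplePolytope x) :
    SimpleP (fun v j => x v j) := by
  classical
  refine ⟨?_, ?_, ?_⟩
  · intro i
    have hn : x i ∉ convexHull ℝ (x '' {j | j ≠ i}) := by
      intro h
      exact (hx.convexIndependent {j | j ≠ i} i h) rfl
    have hfin : (x '' {j | j ≠ i}).Finite := Set.toFinite _
    obtain ⟨f, u, h1, h2⟩ := geometric_hahn_banach_closed_point (convex_convexHull ℝ _)
      (hfin.isClosed_convexHull (𝕜 := ℝ)) hn
    obtain ⟨a, ha⟩ := mbCoefF f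
    refine ⟨a, f (x i), fun v => ?_⟩
    by_cases hv : v = i
    · subst hv
      exact ⟨(ha _).symm.le, ⟨fun _ => rfl, fun _ => (ha _).symm⟩⟩
    · have h3 : f (x v) < f (x i) :=
        (h1 _ (subset_convexHull ℝ _ ⟨v, hv, rfl⟩)).trans h2
      refine ⟨(ha (x v)) ▸ h3.le, ⟨fun h => ?_, fun h => absurd h hv⟩⟩
      rw [← ha (x v)] at h
      exact absurd h h3.ne
  · intro a c h
    exact mb_full_of_polytope x hx.full a c h
  · intro i
    rw [← sb_ncard x i]
    exact hx.simple i

theorem polytope_of_simpleP {n : ℕ} (x : Fin n → E3) (hx : SimpleP (fun v j => x v j)) :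
    IsSimplePolytope x := by
  classical
  refine ⟨?_, ?_, ?_⟩
  · intro s i hi
    by_contra hn
    obtain ⟨a, c, h⟩ := hx.vert i
    have hc : Convex ℝ {y : E3 | mbLin a y < c} := convex_halfSpace_lt (mbLin a).isLinear c
    have hsub : x '' s ⊆ {y : E3 | mbLin a y < c} := by
      rintro _ ⟨j, hj, rfl⟩
      change mbLin a (x j) < c
      rw [mbLin_apply]
      refine lt_of_le_of_ne (h j).1 fun he => ?_
      have h1 : j = i := (h j).2.1 he
      exact hn (h1 ▸ hj)
    have h2 : mbLin a (x i) < c := convexHull_min hsub hc hi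
    rw [mbLin_apply] at h2
    exact h2.ne ((h i).2.2 rfl)
  · obtain ⟨v0⟩ : Nonempty (Fin n) := by
      by_contra hemp
      have h1 := hx.full (fun _ => 1) 0 (fun v => absurd ⟨v⟩ hemp)
      have h2 := congrFun h1 0
      simp at h2
    by_contra hne
    have hd : vectorSpan ℝ (Set.range x) ≠ ⊤ := by
      intro h
      apply hne
      rw [← direction_affineSpan] at h
      exact (AffineSubspace.direction_eq_top_iff_of_nonempty (s := affineSpan ℝ (Set.range x))
        ⟨x v0, subset_affineSpan ℝ _ (Set.mem_range_self v0)⟩).1 h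
    obtain ⟨f, hf0, hf⟩ := Submodule.exists_le_ker_of_lt_top _ (lt_top_iff_ne_top.2 hd)
    obtain ⟨a, ha⟩ := mbCoefL f
    have h1 : a = 0 := by
      refine hx.full a (f (x v0)) fun v => ?_
      have h2 : x v -ᵥ x v0 ∈ vectorSpan ℝ (Set.range x) :=
        vsub_mem_vectorSpan ℝ (Set.mem_range_self v) (Set.mem_range_self v0)
      have h3 := hf h2
      rw [LinearMap.mem_ker, vsub_eq_sub, map_sub, sub_eq_zero] at h3
      rw [← h3, ha (x v)]
    apply hf0
    ext y
    rw [ha y, h1]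
    simp
  · intro i
    rw [sb_ncard x i]
    exact hx.three i

end MP0e5907
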