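import Pool.Agent.Lib_MP_0e5907.SBase
import Pool.Agent.Lib_MP_0e5907.Sides

/-!
# Piece SCOMBA: faces of the triangulated sphere

`sfv T : Option F → Fin 3 → N ⊕ Fin 3`: the faces `some f` (vertices `T.vert f k`) and the outer face `none` (vertices `Sum.inr k`).

Paper proof.
* `sfv_inj`: for `none`: `Sum.inr` is injective. For `some f`: `T.reg_vert` gives the label.
* `sfv_set`. `none, none`: trivial. One of the faces is `none`, the other is `some f`: all vertices of `f` are roots (if all roots are vertices of `f` the same follows by counting: for each `k` there is `i` with `T.vert f i = Sum.inr k`, and `reg_vert`, `reg_root` give `i = k`); in both cases `T.vert f k = Sum.inr k` for all `k` (`reg_vert`, `reg_root`). Then for every `g : F` the map `i ↦ T.reg (T.vert f i) g = T.reg (Sum.inr i) g = i`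
 is injective, so `f = g` by `reg_uniq g f`: `card F ≤ 1`, contradiction to `card_F` (`card F = 2 card N + 1 ≥ 3`). `some f, some f'`: `T.vert f k = T.vert f' (σ k)`, `σ` is injective (`sfv_inj`), `T.reg (T.vert f k) f' = σ k` (`reg_vert`), so `reg_uniq f' f` gives `f = f'`.
* `pair_cases`. `g = none`: `u = inr a`, `w = inr b`, `a ≠ b`; `j` = the third index (`decide`-style case check). `g = some f`: `u = T.vert f a`, `w = T.vert f b`, `a ≠ b`, let `k` be the third index, so `{a,b} = {k+1,k+2}`. By `side_cases T k f`: either `f = T.of k` and by `of_one`, `of_two` the two vertices are the roots `k+1`, `k+2`; or `Cross T k f e g'`: either `f = lf e`, `k = e.2+1`, so `{a,b} = {e.2+2, e.2}`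
 (`lf_tail`, `lf_head`), or `f = rf e`, `k = e.2+2`, `{a,b} = {e.2, e.2+1}` (`rf_tail`, `rf_head`).
* `sfv_nbr`. `g = none`: `g' = some (T.of k)` (`of_one`, `of_two`). `g = some f`: by `side_cases T k f`: `f = T.of k`: `g' = none`. `f = lf e`, `k = e.2+1`: `g' = some (rf e)`; `f = rf e`, `k = e.2+2`: `g' = some (lf e)` (both contain tail and head of `e`). In all cases the third vertex is not in `g'`: otherwise all three vertices of `g` are in `g'`, so `g = g'` by `sfv_set`; but `none ≠ some _` and `lf e ≠ rf e` (`lf_ne_rf`).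
-/

namespace MP0e5907

variable {N F : Type}

theorem sfv_inj (T : STri N F) (g : Option F) : Function.Injective (sfv T g) := by
  cases g with
  | none =>
    intro a b h
    exact Sum.inr.inj h
  | some f =>
    intro a b h
    have h1 := T.reg_vert f a
    have h2 : T.vert f a = T.vert f b := h
    rw [h2, T.reg_vert f b] at h1
    exact h1.symm

private theorem not_all_roots [Fintype N] [Fintype F] [Nonempty N] (T : STri N F) (f : F)
    (h : ∀ k, T.vert f k = Sum.inr k) : False := by
  have h1 : ∀ g : F, f = g := by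
    intro g
    apply T.reg_uniq g f
    intro i j hij
    have hij' : T.reg (T.vert f i) g = T.reg (T.vert f j) g := hij
    rw [h i, h j, T.reg_root, T.reg_root] at hij'
    exact hij'
  have h2 : Fintype.card F ≤ 1 := Fintype.card_le_one_iff.2 fun a b => (h1 a).symm.trans (h1 b)
  have h3 := card_F T
  have h4 : 0 < Fintype.card N := Fintype.card_pos
  omega

theorem sfv_set [Fintype N] [Fintype F] [Nonempty N] (T : STri N F) (g g' : Option F)
    (h : ∀ k, Inc (sfv T) g' (sfv T g k)) : g = g' := by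
  cases g with
  | none =>
    cases g' with
    | none => rfl
    | some f =>
      exfalso
      apply not_all_roots T f
      intro k
      obtain ⟨i, hi⟩ := h k
      have hi' : T.vert f i = Sum.inr k := hi
      have h1 := T.reg_vert f i
      rw [hi', T.reg_root] at h1
      rw [← h1] at hi'
      exact hi'
  | some f =>
    cases g' with
    | none =>
      exfalso
      apply not_all_roots T f
      intro k
      obtain ⟨i, hi⟩ := h k
      have hi' : Sum.inr i = T.vert f k := hi
      have h1 := T.reg_vert f k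
      rw [← hi', T.reg_root] at h1
      rw [← h1]
      rw [h1]
      exact (by rw [← hi', h1])
    | some f' =>
      have h' : ∀ k, ∃ i, T.vert f' i = T.vert f k := h
      choose σ hσ using h'
      have h2 : f = f' := by
        apply T.reg_uniq f' f
        have h3 : ∀ k, T.reg (T.vert f k) f' = σ k := fun k => by rw [← hσ k, T.reg_vert]
        intro a b hab
        have hab' : T.reg (T.vert f a) f' = T.reg (T.vert f b) f' := hab
        rw [h3, h3] at hab'
        have h4 : T.vert f a = T.vert f b := by rw [← hσ a, ← hσ b, hab']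
        exact sfv_inj T (some f) h4
      rw [h2]

private theorem fin3_pair : ∀ a b : Fin 3, a ≠ b →
    ∃ j : Fin 3, (a = j + 1 ∧ b = j + 2) ∨ (b = j + 1 ∧ a = j + 2) := by decide

private theorem fin3_a : ∀ c : Fin 3, c + 1 + 1 = c + 2 := by decide

private theorem fin3_b : ∀ c : Fin 3, c + 1 + 2 = c := by decide

private theorem fin3_c : ∀ c : Fin 3, c + 2 + 1 = c := by decide

private theorem fin3_d : ∀ c : Fin 3, c + 2 + 2 = c + 1 := by decide

private theorem fin3_cases : ∀ j k : Fin 3, j ≠ k → j = k + 1 ∨ j = k + 2 := by decide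

private theorem pair_aux (T : STri N F) (f : F) (k : Fin 3) {u w : N ⊕ Fin 3}
    (hu : T.vert f (k + 1) = u) (hw : T.vert f (k + 2) = w) :
    (∃ e : N × Fin 3, ((u = Sum.inl e.1 ∧ w = T.par e.1 e.2) ∨ (w = Sum.inl e.1 ∧ u = T.par e.1 e.2)) ∧
      (some f = some (T.lf e) ∨ some f = some (T.rf e))) ∨
    (∃ j : Fin 3, ((u = Sum.inr (j + 1) ∧ w = Sum.inr (j + 2)) ∨ (w = Sum.inr (j + 1) ∧ u = Sum.inr (j + 2))) ∧
      (some f = none ∨ some f = some (T.of j))) := by
  rcases side_cases T k f with h | ⟨e, g', ⟨h1, h2, h3⟩ | ⟨h1, h2, h3⟩⟩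
  · right
    refine ⟨k, Or.inl ⟨?_, ?_⟩, Or.inr (by rw [h])⟩
    · rw [← hu, h, T.of_one]
    · rw [← hw, h, T.of_two]
  · left
    refine ⟨e, Or.inl ⟨?_, ?_⟩, Or.inl (by rw [h1])⟩
    · rw [← hu, h1, h3, fin3_a, T.lf_tail]
    · rw [← hw, h1, h3, fin3_b, T.lf_head]
  · left
    refine ⟨e, Or.inr ⟨?_, ?_⟩, Or.inr (by rw [h1])⟩
    · rw [← hw, h1, h3, fin3_d, T.rf_tail]
    · rw [← hu, h1, h3, fin3_c, T.rf_head]

theorem pair_cases (T : STri N F) {g : Option F} {u w : N ⊕ Fin 3} (hu : Inc (sfv T) g u)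
    (hw : Inc (sfv T) g w) (h : u ≠ w) :
    (∃ e : N × Fin 3, ((u = Sum.inl e.1 ∧ w = T.par e.1 e.2) ∨ (w = Sum.inl e.1 ∧ u = T.par e.1 e.2)) ∧
      (g = some (T.lf e) ∨ g = some (T.rf e))) ∨
    (∃ j : Fin 3, ((u = Sum.inr (j + 1) ∧ w = Sum.inr (j + 2)) ∨ (w = Sum.inr (j + 1) ∧ u = Sum.inr (j + 2))) ∧
      (g = none ∨ g = some (T.of j))) := by
  obtain ⟨a, ha⟩ := hu
  obtain ⟨b, hb⟩ := hw
  have hab : a ≠ b := by
    rintro rfl
    exact h (ha.symm.trans hb)
  obtain ⟨j, hj⟩ := fin3_pair a b hab
  cases g with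
  | none =>
    have ha' : Sum.inr a = u := ha
    have hb' : Sum.inr b = w := hb
    right
    refine ⟨j, ?_, Or.inl rfl⟩
    rcases hj with ⟨h1, h2⟩ | ⟨h1, h2⟩
    · exact Or.inl ⟨by rw [← ha', h1], by rw [← hb', h2]⟩
    · exact Or.inr ⟨by rw [← hb', h1], by rw [← ha', h2]⟩
  | some f =>
    have ha' : T.vert f a = u := ha
    have hb' : T.vert f b = w := hb
    rcases hj with ⟨h1, h2⟩ | ⟨h1, h2⟩
    · rw [h1] at ha'
      rw [h2] at hb'
      exact pair_aux T f j ha' hb'
    · rw [h2] at ha'
      rw [h1] at hb'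
      rcases pair_aux T f j hb' ha' with ⟨e, h3, h4⟩ | ⟨i, h3, h4⟩
      · exact Or.inl ⟨e, h3.symm, h4⟩
      · exact Or.inr ⟨i, h3.symm, h4⟩

theorem sfv_nbr [Fintype N] [Fintype F] [Nonempty N] (T : STri N F) (g : Option F) (k : Fin 3) :
    ∃ g', (∀ j, j ≠ k → Inc (sfv T) g' (sfv T g j)) ∧ ¬ Inc (sfv T) g' (sfv T g k) := by
  -- it is enough to find a different face containing the two vertices
  suffices hs : ∃ g', g ≠ g' ∧ ∀ j, j ≠ k → Inc (sfv T) g' (sfv T g j) by
    obtain ⟨g', hne, hg'⟩ := hs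
    refine ⟨g', hg', fun hk => hne (sfv_set T g g' fun j => ?_)⟩
    by_cases hj : j = k
    · rw [hj]; exact hk
    · exact hg' j hj
  cases g with
  | none =>
    refine ⟨some (T.of k), by simp, ?_⟩
    intro j hj
    rcases fin3_cases j k hj with rfl | rfl
    · exact ⟨k + 1, T.of_one k⟩
    · exact ⟨k + 2, T.of_two k⟩
  | some f =>
    rcases side_cases T k f with h | ⟨e, g', ⟨h1, h2, h3⟩ | ⟨h1, h2, h3⟩⟩
    · refine ⟨none, by simp, ?_⟩
      intro j hj
      rcases fin3_cases j k hj with rfl | rfl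
      · refine ⟨k + 1, ?_⟩
        change Sum.inr (k + 1) = T.vert f (k + 1)
        rw [h, T.of_one]
      · refine ⟨k + 2, ?_⟩
        change Sum.inr (k + 2) = T.vert f (k + 2)
        rw [h, T.of_two]
    · refine ⟨some (T.rf e), ?_, ?_⟩
      · rw [h1]
        intro h4
        exact lf_ne_rf T e (Option.some.inj h4)
      · intro j hj
        rcases fin3_cases j k hj with rfl | rfl
        · refine ⟨e.2 + 1, ?_⟩
          change T.vert (T.rf e) (e.2 + 1) = T.vert f (k + 1)
          rw [h1, h3, fin3_a, T.rf_tail, T.lf_tail]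
        · refine ⟨e.2, ?_⟩
          change T.vert (T.rf e) e.2 = T.vert f (k + 2)
          rw [h1, h3, fin3_b, T.rf_head, T.lf_head]
    · refine ⟨some (T.lf e), ?_, ?_⟩
      · rw [h1]
        intro h4
        exact lf_ne_rf T e (Option.some.inj h4).symm
      · intro j hj
        rcases fin3_cases j k hj with rfl | rfl
        · refine ⟨e.2, ?_⟩
          change T.vert (T.lf e) e.2 = T.vert f (k + 1)
          rw [h1, h3, fin3_c, T.rf_head, T.lf_head]
        · refine ⟨e.2 + 2, ?_⟩
          change T.vert (T.lf e) (e.2 + 2) = T.vert f (k + 2)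
          rw [h1, h3, fin3_d, T.rf_tail, T.lf_tail]

end MP0e5907
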