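import Pool.Agent.Lib_MP_0e5907.SCombA
import Pool.Agent.Lib_MP_0e5907.Base3

/-!
# Piece SCOMBB: two vertices lie in at most two common faces

Paper proof.
* `edge_unique`. Recall: `T.reg (inl e.1) (lf e) = e.2 + 2`, `T.reg (inl e.1) (rf e) = e.2 + 1`, `T.reg (par e) (lf e) = e.2 = T.reg (par e) (rf e)` (`reg_vert` with `lf_tail` etc.).
 Case 1: `e = (v,c)`, `e' = (v,c')`, `par v c = par v c' =: h`, suppose `c ≠ c'`. For every `m`: `m ≠ c` or `m ≠ c'`, so by `hT.mono`: `T.reg h g = m → T.reg (inl v) g = m`. Hence `T.reg h = T.reg (inl v)`; but at `g = lf (v,c)` these are `c` and `c + 2`. Contradiction.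
 Case 2: `e = (v,c)`, `e' = (v',c')`, `par v c = inl v'`, `par v' c' = inl v`. If `c = c'`: `T.reg (inl v') (lf e) = c`, so by `reg_par` for `v'`: `T.reg (inl v) (lf e) = c`, but it is `c + 2`. If `c ≠ c'`: by `hT.mono` for `(v',c')`: `T.reg (inl v) g = m`, `m ≠ c'` imply `T.reg (inl v') g = m`. If `c' ≠ c + 2` use `g = lf e`, `m = c + 2`: `T.reg (inl v') (lf e) = c + 2 ≠ c`. If `c' = c + 2` use
 `g = rf e`, `m = c + 1 ≠ c'`: `T.reg (inl v') (rf e) = c + 1 ≠ c`. Contradiction.
* `sfv_pair`. If there is an edge `e` with ends `u, w`: every `g` of the set is `some (lf e)` or `some (rf e)`: by `pair_cases` either it comes from an edge `e'` with the same ends, so `e' = e` by `edge_unique`, or `u, w` are two roots, impossible since one of them is `inl e.1`. Otherwise every `g` of the set comes from the second case of `pair_cases`; the index `j` is determined by `u, w` (it is the third index), so `g = none` or `g = some (T.of j)`.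
 A subset of a pair `{x, y}` has `ncard ≤ 2`.
-/

namespace MP0e5907

variable {N F : Type}

theorem edge_unique (T : STri N F) (hT : STriP T) (e e' : N × Fin 3)
    (h : (e.1 = e'.1 ∧ T.par e.1 e.2 = T.par e'.1 e'.2) ∨
      (T.par e'.1 e'.2 = Sum.inl e.1 ∧ T.par e.1 e.2 = Sum.inl e'.1)) : e = e' := by
  obtain ⟨v, c⟩ := e
  obtain ⟨v', c'⟩ := e'
  have hlt : ∀ v c, T.reg (Sum.inl v) (T.lf (v, c)) = c + 2 := by
    intro v c
    have h1 := T.reg_vert (T.lf (v, c)) (c + 2)
    have h2 := T.lf_tail (v, c)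
    simp only at h2
    rw [h2] at h1
    exact h1
  have hrt : ∀ v c, T.reg (Sum.inl v) (T.rf (v, c)) = c + 1 := by
    intro v c
    have h1 := T.reg_vert (T.rf (v, c)) (c + 1)
    have h2 := T.rf_tail (v, c)
    simp only at h2
    rw [h2] at h1
    exact h1
  have hlh : ∀ v c, T.reg (T.par v c) (T.lf (v, c)) = c := by
    intro v c
    have h1 := T.reg_vert (T.lf (v, c)) c
    have h2 := T.lf_head (v, c)
    simp only at h2
    rw [h2] at h1
    exact h1
  have hrh : ∀ v c, T.reg (T.par v c) (T.rf (v, c)) = c := by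
    intro v c
    have h1 := T.reg_vert (T.rf (v, c)) c
    have h2 := T.rf_head (v, c)
    simp only at h2
    rw [h2] at h1
    exact h1
  have f1 : ∀ c : Fin 3, c + 2 ≠ c := by decide
  have f2 : ∀ c : Fin 3, c + 1 ≠ c := by decide
  have f3 : ∀ c : Fin 3, c + 1 ≠ c + 2 := by decide
  simp only at h
  rcases h with ⟨rfl, h2⟩ | ⟨h1, h2⟩
  · by_contra hne
    have hcc : c ≠ c' := fun hc => hne (by rw [hc])
    have h3 : T.reg (T.par v c') (T.lf (v, c)) = c := by rw [← h2]; exact hlh v c
    have h4 := hT.mono v c' c (T.lf (v, c)) hcc h3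
    rw [hlt] at h4
    exact f1 c h4
  · exfalso
    have hl' : T.reg (Sum.inl v') (T.lf (v, c)) = c := by rw [← h2]; exact hlh v c
    have hr' : T.reg (Sum.inl v') (T.rf (v, c)) = c := by rw [← h2]; exact hrh v c
    by_cases hcc : c = c'
    · have h3 := T.reg_par v' c (T.lf (v, c)) hl'
      rw [hcc, h1, ← hcc, hlt] at h3
      exact f1 c h3
    · by_cases hc2 : c' = c + 2
      · have h3 : T.reg (T.par v' c') (T.rf (v, c)) = c + 1 := by rw [h1]; exact hrt v c
        have h4 := hT.mono v' c' (c + 1) (T.rf (v, c)) (by rw [hc2]; exact f3 c) h3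
        rw [hr'] at h4
        exact f2 c h4.symm
      · have h3 : T.reg (T.par v' c') (T.lf (v, c)) = c + 2 := by rw [h1]; exact hlt v c
        have h4 := hT.mono v' c' (c + 2) (T.lf (v, c)) (fun h5 => hc2 h5.symm) h3
        rw [hl'] at h4
        exact f1 c h4.symm

theorem sfv_pair [Fintype F] (T : STri N F) (hT : STriP T) (u w : N ⊕ Fin 3) (h : u ≠ w) :
    Set.ncard {g | Inc (sfv T) g u ∧ Inc (sfv T) g w} ≤ 2 := by
  classical
  have two : ∀ (A : Set (Option F)) (a b : Option F), (∀ g ∈ A, g = a ∨ g = b) → A.ncard ≤ 2 := by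
    intro A a b hA
    have h1 : A ⊆ {a, b} := by
      intro g hg
      rcases hA g hg with h2 | h2
      · rw [h2]; exact Set.mem_insert _ _
      · rw [h2]; exact Set.mem_insert_of_mem _ rfl
    refine (Set.ncard_le_ncard h1 (Set.toFinite _)).trans ?_
    refine (Set.ncard_insert_le a {b}).trans ?_
    rw [Set.ncard_singleton]
  by_cases hE : ∃ e : N × Fin 3, (u = Sum.inl e.1 ∧ w = T.par e.1 e.2) ∨
      (w = Sum.inl e.1 ∧ u = T.par e.1 e.2)
  · obtain ⟨e, he⟩ := hE
    refine two _ (some (T.lf e)) (some (T.rf e)) ?_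
    rintro g ⟨hgu, hgw⟩
    rcases pair_cases T hgu hgw h with ⟨e', he', hg⟩ | ⟨j, hj, _⟩
    · have hee : e' = e := by
        apply edge_unique T hT
        rcases he with ⟨h1, h2⟩ | ⟨h1, h2⟩ <;> rcases he' with ⟨h3, h4⟩ | ⟨h3, h4⟩
        · left
          exact ⟨Sum.inl_injective (h3.symm.trans h1), h4.symm.trans h2⟩
        · right
          exact ⟨h2.symm.trans h3, h4.symm.trans h1⟩
        · right
          exact ⟨h2.symm.trans h3, h4.symm.trans h1⟩
        · left
          exact ⟨Sum.inl_injective (h3.symm.trans h1), h4.symm.trans h2⟩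
      rw [hee] at hg
      exact hg
    · exfalso
      rcases he with ⟨h1, _⟩ | ⟨h1, _⟩ <;> rcases hj with ⟨h3, h4⟩ | ⟨h3, h4⟩
      · rw [h1] at h3; exact absurd h3 (by simp)
      · rw [h1] at h4; exact absurd h4 (by simp)
      · rw [h1] at h4; exact absurd h4 (by simp)
      · rw [h1] at h3; exact absurd h3 (by simp)
  · by_cases hne : ∃ g, Inc (sfv T) g u ∧ Inc (sfv T) g w
    · obtain ⟨g0, hg0u, hg0w⟩ := hne
      have key : ∀ g, Inc (sfv T) g u → Inc (sfv T) g w → ∃ j : Fin 3,
          ((u = Sum.inr (j + 1) ∧ w = Sum.inr (j + 2)) ∨ (w = Sum.inr (j + 1) ∧ u = Sum.inr (j + 2))) ∧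
          (g = none ∨ g = some (T.of j)) := by
        intro g h1 h2
        rcases pair_cases T h1 h2 h with ⟨e', he', _⟩ | h3
        · exact absurd ⟨e', he'⟩ hE
        · exact h3
      obtain ⟨j, hj, _⟩ := key g0 hg0u hg0w
      refine two _ none (some (T.of j)) ?_
      rintro g ⟨hgu, hgw⟩
      obtain ⟨j', hj', hg⟩ := key g hgu hgw
      have hjj : j' = j := by
        have d1 : ∀ a b : Fin 3, a + 1 = b + 1 → a = b := by decide
        have d2 : ∀ a b : Fin 3, a + 1 = b + 2 → a + 2 = b + 1 → a = b := by decide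
        rcases hj with ⟨h1, h2⟩ | ⟨h1, h2⟩ <;> rcases hj' with ⟨h3, h4⟩ | ⟨h3, h4⟩
        · exact d1 _ _ (Sum.inr_injective (h3.symm.trans h1))
        · exact d2 _ _ (Sum.inr_injective (h3.symm.trans h2)) (Sum.inr_injective (h4.symm.trans h1))
        · exact d2 _ _ (Sum.inr_injective (h3.symm.trans h2)) (Sum.inr_injective (h4.symm.trans h1))
        · exact d1 _ _ (Sum.inr_injective (h3.symm.trans h1))
      rw [hjj] at hg
      exact hg
    · have h0 : {g | Inc (sfv T) g u ∧ Inc (sfv T) g w} = ∅ := by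
        apply Set.eq_empty_of_forall_notMem
        intro g hg
        exact hne ⟨g, hg⟩
      rw [h0, Set.ncard_empty]
      exact Nat.zero_le _

end MP0e5907
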