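import Pool.Agent.Lib_MP_0e5907.SCombB

/-!
# Piece SCOMBC: the triangulation is 5-degenerate

Paper proof. Let `I` be a nonempty finset of vertices, `I_N` its inner vertices (`n'` elements), `I_R` its roots (`r ≤ 3` elements), `n' + r = I.card`. By `pair_cases` every ordered pair `(u,w)` of adjacent elements of `I` is `(inl e.1, par e)` or `(par e, inl e.1)` for an edge `e` in `A = {e | inl e.1 ∈ I, par e ∈ I}`, or a pair of two different roots. So the number of ordered adjacent pairs in `I` is at most `2 |A| + r (r - 1)`.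
`|A| ≤ 3 n'`. If `r = 0` (so `n' ≥ 1`) then `|A| ≤ 3 n' - 1`: let `v` be an inner vertex in `I` for which the number of faces `g` with `T.reg (inl v) g = 0` is maximal. If `T.par v 0 = inl v'` with `inl v' ∈ I`: by `reg_par` every `g` with `T.reg (inl v) g = 0` has `T.reg (inl v') g = 0`, and `g = lf (v,0)` has `T.reg (inl v') g = 0`, `T.reg (inl v) g = 2`
(`reg_vert` with `lf_head`, `lf_tail`), so `v'` has more such faces, contradiction. So `(v,0) ∉ A`.
Hence the sum over `u ∈ I` of `ncard {w | w ∈ I ∧ Adj w u}` is at most `6 n' - 2 < 6 I.card` for `r = 0`, and at most `6 n' + r (r-1) < 6 n' + 6 r = 6 I.card` for `1 ≤ r ≤ 3`. So some summand is at most 5 (`Finset.exists_lt_of_sum_lt` or by contradiction with `Finset.card_nsmul_le_sum`).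
-/

namespace MP0e5907

variable {N F : Type}

/-- the edge `(v, 0)` of a suitable inner vertex leaves a set without roots -/
theorem sfv_deg_leave [Fintype F] (T : STri N F) (J : Finset N) (hJ : J.Nonempty) :
    ∃ v ∈ J, ∀ v', T.par v 0 = Sum.inl v' → v' ∉ J := by
  classical
  obtain ⟨v, hv, hmax⟩ := Finset.exists_max_image J
    (fun v => (Finset.univ.filter fun g : F => T.reg (Sum.inl v) g = 0).card) hJ
  refine ⟨v, hv, fun v' hpar hv' => ?_⟩
  have h1 := hmax v' hv'
  have hlt : (Finset.univ.filter fun g : F => T.reg (Sum.inl v) g = 0).card <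
      (Finset.univ.filter fun g : F => T.reg (Sum.inl v') g = 0).card := by
    apply Finset.card_lt_card
    rw [Finset.ssubset_iff_of_subset]
    · refine ⟨T.lf (v, 0), ?_, ?_⟩
      · rw [Finset.mem_filter]
        refine ⟨Finset.mem_univ _, ?_⟩
        have h2 := T.reg_vert (T.lf (v, 0)) 0
        have h3 := T.lf_head (v, 0)
        simp only at h3
        rw [h3, hpar] at h2
        exact h2
      · rw [Finset.mem_filter]
        rintro ⟨-, h2⟩
        have h3 := T.lf_tail (v, 0)
        simp only at h3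
        have h4 := T.reg_vert (T.lf (v, 0)) (0 + 2)
        rw [h3, h2] at h4
        exact absurd h4 (by decide)
    · intro g hg
      rw [Finset.mem_filter] at hg ⊢
      refine ⟨Finset.mem_univ _, ?_⟩
      have := T.reg_par v 0 g hg.2
      rw [hpar] at this
      exact this
  omega

theorem sfv_deg [Fintype N] [Fintype F] (T : STri N F) (I : Finset (N ⊕ Fin 3)) (hI : I.Nonempty) :
    ∃ u ∈ I, Set.ncard {w | w ∈ I ∧ Adj (sfv T) w u} ≤ 5 := by
  classical
  by_contra hcon
  push Not at hcon
  -- the set of ordered adjacent pairs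
  set A : Finset (N × Fin 3) :=
    Finset.univ.filter fun e => Sum.inl e.1 ∈ I ∧ T.par e.1 e.2 ∈ I with hA
  set Q : Finset ((N ⊕ Fin 3) × (N ⊕ Fin 3)) :=
    (I.toRight.offDiag).image fun p => (Sum.inr p.1, Sum.inr p.2) with hQ
  set P : Finset ((N ⊕ Fin 3) × (N ⊕ Fin 3)) :=
    (I ×ˢ I).filter fun p => Adj (sfv T) p.2 p.1 with hP
  have hsub : P ⊆ (A.image fun e => ((Sum.inl e.1 : N ⊕ Fin 3), T.par e.1 e.2)) ∪
      (A.image fun e => (T.par e.1 e.2, (Sum.inl e.1 : N ⊕ Fin 3))) ∪ Q := by
    rintro ⟨u, w⟩ hp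
    rw [hP, Finset.mem_filter, Finset.mem_product] at hp
    obtain ⟨⟨hu, hw⟩, hne, g, hg1, hg2⟩ := hp
    simp only at hu hw hne hg1 hg2
    rw [Finset.mem_union, Finset.mem_union]
    rcases pair_cases T hg1 hg2 hne with ⟨e, he, -⟩ | ⟨j, hj, -⟩
    · rcases he with ⟨h1, h2⟩ | ⟨h1, h2⟩
      · -- w = inl e.1, u = par
        left; right
        rw [Finset.mem_image]
        refine ⟨e, ?_, ?_⟩
        · rw [hA, Finset.mem_filter]
          exact ⟨Finset.mem_univ _, h1 ▸ hw, h2 ▸ hu⟩
        · rw [h1, h2]
      · left; left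
        rw [Finset.mem_image]
        refine ⟨e, ?_, ?_⟩
        · rw [hA, Finset.mem_filter]
          exact ⟨Finset.mem_univ _, h1 ▸ hu, h2 ▸ hw⟩
        · rw [h1, h2]
    · right
      rw [hQ, Finset.mem_image]
      rcases hj with ⟨h1, h2⟩ | ⟨h1, h2⟩
      · refine ⟨(j + 2, j + 1), ?_, ?_⟩
        · rw [Finset.mem_offDiag, Finset.mem_toRight, Finset.mem_toRight]
          refine ⟨h2 ▸ hu, h1 ▸ hw, ?_⟩
          fin_cases j <;> decide
        · rw [h1, h2]
      · refine ⟨(j + 1, j + 2), ?_, ?_⟩
        · rw [Finset.mem_offDiag, Finset.mem_toRight, Finset.mem_toRight]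
          refine ⟨h1 ▸ hu, h2 ▸ hw, ?_⟩
          fin_cases j <;> decide
        · rw [h1, h2]
  have hQc : Q.card ≤ I.toRight.card * I.toRight.card - I.toRight.card := by
    rw [hQ]
    refine Finset.card_image_le.trans ?_
    rw [Finset.offDiag_card]
  have hPc : P.card ≤ 2 * A.card + (I.toRight.card * I.toRight.card - I.toRight.card) := by
    refine (Finset.card_le_card hsub).trans ?_
    refine (Finset.card_union_le _ _).trans ?_
    have h1 := Finset.card_union_le (A.image fun e => ((Sum.inl e.1 : N ⊕ Fin 3), T.par e.1 e.2))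
      (A.image fun e => (T.par e.1 e.2, (Sum.inl e.1 : N ⊕ Fin 3)))
    have h2 : (A.image fun e => ((Sum.inl e.1 : N ⊕ Fin 3), T.par e.1 e.2)).card ≤ A.card :=
      Finset.card_image_le
    have h3 : (A.image fun e => (T.par e.1 e.2, (Sum.inl e.1 : N ⊕ Fin 3))).card ≤ A.card :=
      Finset.card_image_le
    omega
  have hPl : 6 * I.card ≤ P.card := by
    have h1 : P.card = ∑ u ∈ I, (I.filter fun w => Adj (sfv T) w u).card := by
      rw [hP, Finset.card_filter, Finset.sum_product]
      refine Finset.sum_congr rfl fun u _ => ?_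
      rw [Finset.card_filter]
    rw [h1]
    have h2 : ∀ u ∈ I, 6 ≤ (I.filter fun w => Adj (sfv T) w u).card := by
      intro u hu
      have h3 := hcon u hu
      have h4 : {w | w ∈ I ∧ Adj (sfv T) w u} =
          ((I.filter fun w => Adj (sfv T) w u : Finset (N ⊕ Fin 3)) : Set (N ⊕ Fin 3)) := by
        ext w
        simp
      rw [h4, Set.ncard_coe_finset] at h3
      omega
    have h3 := Finset.card_nsmul_le_sum I _ 6 h2
    rw [smul_eq_mul] at h3
    omega
  have hcard : I.toLeft.card + I.toRight.card = I.card := Finset.card_toLeft_add_card_toRight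
  have hr3 : I.toRight.card ≤ 3 := by
    have := Finset.card_le_univ I.toRight
    simpa using this
  have hAc : A ⊆ I.toLeft ×ˢ (Finset.univ : Finset (Fin 3)) := by
    intro e he
    rw [hA, Finset.mem_filter] at he
    rw [Finset.mem_product, Finset.mem_toLeft]
    exact ⟨he.2.1, Finset.mem_univ _⟩
  have hAc2 : A.card ≤ 3 * I.toLeft.card := by
    have := Finset.card_le_card hAc
    rw [Finset.card_product, Finset.card_univ, Fintype.card_fin] at this
    omega
  by_cases hr : I.toRight.card = 0
  · have hL : I.toLeft.Nonempty := by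
      rw [← Finset.card_pos]
      have := Finset.card_pos.2 hI
      omega
    obtain ⟨v, hv, hv2⟩ := sfv_deg_leave T I.toLeft hL
    have hnot : (v, (0 : Fin 3)) ∉ A := by
      rw [hA, Finset.mem_filter]
      rintro ⟨-, -, h2⟩
      simp only at h2
      rcases hpar : T.par v 0 with v' | i
      · rw [hpar] at h2
        exact hv2 v' hpar (Finset.mem_toLeft.2 h2)
      · rw [hpar] at h2
        have h3 : i ∈ I.toRight := Finset.mem_toRight.2 h2
        rw [Finset.card_eq_zero] at hr
        rw [hr] at h3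
        exact absurd h3 (Finset.notMem_empty _)
    have hsub2 : A ⊆ (I.toLeft ×ˢ (Finset.univ : Finset (Fin 3))).erase (v, 0) := by
      intro e he
      rw [Finset.mem_erase]
      exact ⟨fun h => hnot (h ▸ he), hAc he⟩
    have hc := Finset.card_le_card hsub2
    rw [Finset.card_erase_of_mem (by
      rw [Finset.mem_product]; exact ⟨hv, Finset.mem_univ _⟩), Finset.card_product,
      Finset.card_univ, Fintype.card_fin] at hc
    have := Finset.card_pos.2 hL
    rw [hr] at hPc hcard
    omega
  · obtain ⟨r, hr'⟩ : ∃ r, r = I.toRight.card := ⟨_, rfl⟩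
    rw [← hr'] at hPc hcard hr3 hr
    interval_cases r <;> omega

theorem sfv_surf [Fintype N] [Fintype F] [Nonempty N] (T : STri N F) (hT : STriP T) : Surf (sfv T) :=
  ⟨sfv_inj T, sfv_set T, sfv_nbr T, sfv_pair T hT, sfv_deg T⟩

end MP0e5907
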