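import Pool.Agent.Lib_MP_0e5907.SBase

/-!
# Piece SCOUNT: a number has few large prime factors; choosing a parameter that avoids residue classes

Paper proof.
* `s_count`. Let `P` be the set of primes `> E` dividing `n`. `∏ p ∈ P, p` divides `n.natAbs ≠ 0` (`Finset.prod_primes_dvd` or `Nat.prod_primeFactors_dvd` and `Finset.prod_dvd_prod_of_subset`), so `E ^ P.card ≤ ∏ p ∈ P, p ≤ n.natAbs < 2 ^ (111 E)`. With `2^c ≤ E`: `2 ^ (c * P.card) < 2 ^ (111 E)`, so `7104 * P.card ≤ c * P.card < 111 E`, `7104 = 64 * 111`, so `64 * P.card < E`. (NEVER let Lean evaluate `2^7104`: keep `c` a variable.)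
* `s_class`. For a prime `p` that does not divide `α` there is `α'` with `p ∣ α α' - 1`; `k = - β α'`: `y - k = y + β α' = α' (β + y α) - y (α α' - 1)`.
* `s_avoid`. Let `C` be the finite set of the pairs `(i,p)`, `i ∈ S`, `p > E` a prime factor of `nn i`. By `s_count` `64 * C.card ≤ 32 E`, so `2 * C.card ≤ E`. For a pair `(i,p)` the set of `τ < R` with `p ∣ b + Q τ - cl i p` is contained in one residue class modulo `p` (`p ∤ Q`: if `τ, τ'` are in the set then `p ∣ Q (τ - τ')`), so `τ ↦ τ / p` is injective on it with values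
  `≤ R / p ≤ R / E`: it has at most `R / E + 1` elements. Hence all pairs together exclude at most `C.card * (R / E + 1)` values, and `2 * C.card * (R/E + 1) ≤ E * (R/E) + E ≤ R + E`, `E ≤ R/4`. So `8 * (excluded) ≤ 5 R`. The map `τ ↦ b + Q τ` is injective (`Q ≥ 1`), so `Z` excludes at most `Z.card ≤ R / 4` values. Together at most `7 R / 8 < R` (`R ≥ 4 E > 0`).
-/

namespace MP0e5907

open Finset

theorem s_count (c E : ℕ) (hc : 7104 ≤ c) (hE : 2 ^ c ≤ E) (n : ℤ) (hn : n ≠ 0) (hb : |n| < 2 ^ (111 * E)) :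
    64 * (n.natAbs.primeFactors.filter (fun p => E < p)).card ≤ E := by
  classical
  set P := n.natAbs.primeFactors.filter (fun p => E < p) with hP
  have hn' : n.natAbs ≠ 0 := Int.natAbs_ne_zero.2 hn
  have h1 : ∏ p ∈ P, p ∣ n.natAbs :=
    (Finset.prod_dvd_prod_of_subset _ _ _ (Finset.filter_subset _ _)).trans
      (Nat.prod_primeFactors_dvd n.natAbs)
  have h2 : ∏ p ∈ P, p ≤ n.natAbs := Nat.le_of_dvd (Nat.pos_of_ne_zero hn') h1
  have h3 : E ^ P.card ≤ ∏ p ∈ P, p := by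
    rw [← Finset.prod_const]
    apply Finset.prod_le_prod
    · intro i _; exact Nat.zero_le _
    · intro p hp; exact (Finset.mem_filter.1 hp).2.le
  have h4 : n.natAbs < 2 ^ (111 * E) := by
    have : ((n.natAbs : ℕ) : ℤ) < ((2 ^ (111 * E) : ℕ) : ℤ) := by
      rw [Int.natCast_natAbs]
      push_cast
      exact hb
    exact_mod_cast this
  have h5 : (2 ^ c) ^ P.card < 2 ^ (111 * E) :=
    lt_of_le_of_lt (Nat.pow_le_pow_left hE P.card) (lt_of_le_of_lt (h3.trans h2) h4)
  rw [← pow_mul] at h5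
  have h6 : c * P.card < 111 * E := (Nat.pow_lt_pow_iff_right (by norm_num)).1 h5
  have h7 : 7104 * P.card ≤ c * P.card := Nat.mul_le_mul_right _ hc
  omega


theorem s_class (p : ℕ) (hp : p.Prime) (α β : ℤ) (hα : ¬ (p : ℤ) ∣ α) :
    ∃ k : ℤ, ∀ y : ℤ, (p : ℤ) ∣ β + y * α → (p : ℤ) ∣ y - k := by
  have hpr : Prime (p : ℤ) := Nat.prime_iff_prime_int.1 hp
  obtain ⟨a, b, hab⟩ := hpr.coprime_iff_not_dvd.2 hα
  refine ⟨-(β * b), fun y hy => ?_⟩
  have h : y - -(β * b) = (β + y * α) * b + p * (a * y) := by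
    linear_combination (-y) * hab
  rw [h]
  exact dvd_add (hy.mul_right b) (dvd_mul_right _ _)


theorem s_avoid {I : Type} (c E R Q : ℕ) (hc : 7104 ≤ c) (hE : 2 ^ c ≤ E) (hR : 4 * E ≤ R) (hQ : 1 ≤ Q)
    (hQp : ∀ p : ℕ, p.Prime → E < p → ¬ p ∣ Q) (S : Finset I) (hS : S.card ≤ 32) (nn : I → ℤ)
    (h0 : ∀ i ∈ S, nn i ≠ 0) (hb : ∀ i ∈ S, |nn i| < 2 ^ (111 * E)) (cl : I → ℕ → ℤ) (Z : Finset ℤ)
    (hZ : 4 * Z.card ≤ R) (b : ℤ) :
    ∃ τ : ℕ, τ < R ∧ (b + Q * τ ∉ Z) ∧
      ∀ i ∈ S, ∀ p : ℕ, p.Prime → E < p → (p : ℤ) ∣ nn i → ¬ (p : ℤ) ∣ b + Q * τ - cl i p := by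
  classical
  have hE0 : 0 < E := lt_of_lt_of_le (by positivity) hE
  let C : Finset (Σ _ : I, ℕ) := S.sigma fun i => (nn i).natAbs.primeFactors.filter (fun p => E < p)
  have hC : 2 * C.card ≤ E := by
    have h1 : C.card = ∑ i ∈ S, ((nn i).natAbs.primeFactors.filter (fun p => E < p)).card :=
      Finset.card_sigma _ _
    have h2 : 64 * C.card ≤ S.card * E := by
      rw [h1, Finset.mul_sum, ← smul_eq_mul (S.card) E, ← Finset.sum_const]
      exact Finset.sum_le_sum fun i hi => s_count c E hc hE (nn i) (h0 i hi) (hb i hi)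
    have h3 : S.card * E ≤ 32 * E := Nat.mul_le_mul_right _ hS
    omega
  let A : (Σ _ : I, ℕ) → Finset ℕ := fun q =>
    (Finset.range R).filter fun τ => (q.2 : ℤ) ∣ b + Q * τ - cl q.1 q.2
  have hA : ∀ q ∈ C, (A q).card ≤ R / E + 1 := by
    intro q hq
    have hq2 := (Finset.mem_sigma.1 hq).2
    have hEp : E < q.2 := (Finset.mem_filter.1 hq2).2
    have hp : q.2.Prime := Nat.prime_of_mem_primeFactors (Finset.mem_filter.1 hq2).1
    have hpr : Prime (q.2 : ℤ) := Nat.prime_iff_prime_int.1 hp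
    have h1 : (A q).card ≤ (Finset.range (R / E + 1)).card := by
      apply Finset.card_le_card_of_injOn (fun τ => τ / q.2)
      · intro τ hτ
        have hτR : τ < R := Finset.mem_range.1 (Finset.mem_filter.1 hτ).1
        simp only [Finset.coe_range, Set.mem_Iio]
        have : τ / q.2 ≤ R / E :=
          (Nat.div_le_div_right hτR.le).trans (Nat.div_le_div_left hEp.le hE0)
        omega
      · intro τ hτ τ' hτ' hd
        have e1 := (Finset.mem_filter.1 hτ).2
        have e2 := (Finset.mem_filter.1 hτ').2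
        have e3 : (q.2 : ℤ) ∣ (Q : ℤ) * ((τ' : ℤ) - τ) := by
          have := dvd_sub e2 e1
          have h : (b + Q * (τ' : ℤ) - cl q.1 q.2) - (b + Q * (τ : ℤ) - cl q.1 q.2) =
            (Q : ℤ) * ((τ' : ℤ) - τ) := by ring
          rwa [h] at this
        rcases hpr.dvd_or_dvd e3 with h | h
        · exact absurd (Int.natCast_dvd_natCast.1 h) (hQp q.2 hp hEp)
        · have e4 : τ % q.2 = τ' % q.2 := Nat.modEq_iff_dvd.2 h
          have e5 : τ / q.2 = τ' / q.2 := hd
          rw [← Nat.div_add_mod τ q.2, ← Nat.div_add_mod τ' q.2, e4, e5]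
    rwa [Finset.card_range] at h1
  let Bz : Finset ℕ := (Finset.range R).filter fun τ : ℕ => b + Q * (τ : ℤ) ∈ Z
  have hBz : Bz.card ≤ Z.card := by
    apply Finset.card_le_card_of_injOn (fun τ : ℕ => b + Q * (τ : ℤ))
    · intro τ hτ
      exact (Finset.mem_filter.1 hτ).2
    · intro τ _ τ' _ hd
      have hQ0 : (Q : ℤ) ≠ 0 := by
        have : Q ≠ 0 := by omega
        exact_mod_cast this
      have e1 : (Q : ℤ) * (τ : ℤ) = Q * (τ' : ℤ) := by
        have : b + Q * (τ : ℤ) = b + Q * (τ' : ℤ) := hd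
        linarith
      have e2 : (τ : ℤ) = τ' := mul_left_cancel₀ hQ0 e1
      exact_mod_cast e2
  let B : Finset ℕ := C.biUnion A ∪ Bz
  have hB : B.card < (Finset.range R).card := by
    have h1 : B.card ≤ (C.biUnion A).card + Bz.card := Finset.card_union_le _ _
    have h2 : (C.biUnion A).card ≤ C.card * (R / E + 1) := Finset.card_biUnion_le_card_mul _ _ _ hA
    have h3 : (2 * C.card) * (R / E + 1) ≤ E * (R / E + 1) := Nat.mul_le_mul_right _ hC
    have h4 : E * (R / E) ≤ R := Nat.mul_div_le R E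
    rw [Finset.card_range]
    have h5 : E * (R / E + 1) = E * (R / E) + E := by ring
    have h6 : (2 * C.card) * (R / E + 1) = 2 * (C.card * (R / E + 1)) := by ring
    rw [h5, h6] at h3
    generalize C.card * (R / E + 1) = m at *
    generalize E * (R / E) = l at *
    omega
  obtain ⟨τ, hτ, hτB⟩ := Finset.exists_mem_notMem_of_card_lt_card hB
  have hτR := Finset.mem_range.1 hτ
  refine ⟨τ, hτR, ?_, ?_⟩
  · intro hz
    exact hτB (Finset.mem_union_right _ (Finset.mem_filter.2 ⟨hτ, hz⟩))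
  · intro i hi p hp hEp hpn hd
    apply hτB
    apply Finset.mem_union_left
    refine Finset.mem_biUnion.2 ⟨⟨i, p⟩, ?_, Finset.mem_filter.2 ⟨hτ, hd⟩⟩
    refine Finset.mem_sigma.2 ⟨hi, Finset.mem_filter.2 ⟨?_, hEp⟩⟩
    exact Nat.mem_primeFactors.2 ⟨hp, Int.natCast_dvd.1 hpn, Int.natAbs_ne_zero.2 (h0 i hi)⟩


end MP0e5907
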