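import Pool.Agent.Lib_MP_0e5907.SBase

/-!
# Piece SINT: exposed sets of the integral simple polytope

Paper proof. `(⇐)`: `f = ∑_{w ∈ J} u w`, `c = ∑_{w ∈ J} b w` (cast to `ℝ`; `J` as a finset, classical): `f · y g ≤ c` with equality iff `idot (u w) (y g) = b w` for all `w ∈ J`, iff `Inc fv g w` for all `w ∈ J`.
`int_span`: for `g : G` and `f : Fin 3 → ℝ` there are `t : Fin 3 → ℝ` with `f j = ∑ k, t k * u (fv g k) j` for all `j`, because the `3 × 3` determinant `gdet` is not zero: Cramer: `D = gdet`, `t 0 = det(f, U1, U2)/D`, `t 1 = det(U0, f, U2)/D`, `t 2 = det(U0,U1,f)/D` (`det3` from Base2; check with `field_simp; ring`, for each `j`).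
`int_edge`: for `g`, `k` there is `g'` with `idot (u (fv g j)) (y g') = b (fv g j)` for `j ≠ k` and `idot (u (fv g k)) (y g') < b (fv g k)`: from `Surf.nbr` and `heq`, `hle`.
`(⇒)`: let `(f,c)` expose `S`, `g ∈ S`, `f = ∑ t k * u (fv g k)`. For `k` take `g'` of `int_edge`: `0 ≥ f · y g' - f · y g = ∑_j t j (idot (u (fv g j)) (y g') - b (fv g j)) = t k * (negative number)`, so `t k ≥ 0`. Let `J = {w | ∃ k, w = fv g k ∧ t k ≠ 0}`. For all `g'`: `f · y g' = ∑ t k * idot (u (fv g k)) (y g') ≤ ∑ t k * b (fv g k) = f · y g = c`, with equality iff for all `k` with `t k ≠ 0`: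
`idot (u (fv g k)) (y g') = b (fv g k)`, i.e. `Inc fv g' (fv g k)`. So `S = {g' | ∀ w ∈ J, Inc fv g' w}`.
Second claim: `a · y g = c` for all `g`; take some `g`, `a = ∑ t k * u (fv g k)`; for `k` and `g'` of `int_edge`: `0 = a · y g' - a · y g = t k * (negative)`, so `t k = 0`. So `a = 0`.
-/

namespace MP0e5907

open Finset

private theorem sint_dot {W G : Type} (fv : G → Fin 3 → W) (u : W → Fin 3 → ℤ) (y : G → Fin 3 → ℤ)
    (g : G) (f t : Fin 3 → ℝ) (hf : ∀ j, f j = ∑ k, t k * (u (fv g k) j : ℝ)) (g' : G) :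
    ∑ j, f j * (y g' j : ℝ) = ∑ k, t k * (idot (u (fv g k)) (y g') : ℝ) := by
  simp only [hf, idot, Fin.sum_univ_three]
  push_cast
  ring

private theorem sint_cramer (f a b c : Fin 3 → ℝ) (j : Fin 3) :
    det3 f b c * a j + det3 a f c * b j + det3 a b f * c j = det3 a b c * f j := by
  unfold det3
  fin_cases j <;> simp only [Fin.zero_eta, Fin.mk_one, Fin.reduceFinMk] <;> ring

private theorem sint_span {W G : Type} (fv : G → Fin 3 → W) (u : W → Fin 3 → ℤ) (g : G)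
    (hd : gdet fv u g ≠ 0) (f : Fin 3 → ℝ) :
    ∃ t : Fin 3 → ℝ, ∀ j, f j = ∑ k, t k * (u (fv g k) j : ℝ) := by
  obtain ⟨U0, hU0⟩ : ∃ U0 : Fin 3 → ℝ, U0 = fun j => (u (fv g 0) j : ℝ) := ⟨_, rfl⟩
  obtain ⟨U1, hU1⟩ : ∃ U1 : Fin 3 → ℝ, U1 = fun j => (u (fv g 1) j : ℝ) := ⟨_, rfl⟩
  obtain ⟨U2, hU2⟩ : ∃ U2 : Fin 3 → ℝ, U2 = fun j => (u (fv g 2) j : ℝ) := ⟨_, rfl⟩
  have hD : ((gdet fv u g : ℤ) : ℝ) = det3 U0 U1 U2 := by
    rw [hU0, hU1, hU2]
    unfold gdet idet det3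
    push_cast
    ring
  have hD0 : det3 U0 U1 U2 ≠ 0 := by
    rw [← hD]
    exact_mod_cast hd
  refine ⟨![det3 f U1 U2 / det3 U0 U1 U2, det3 U0 f U2 / det3 U0 U1 U2,
    det3 U0 U1 f / det3 U0 U1 U2], fun j => ?_⟩
  have hc := sint_cramer f U0 U1 U2 j
  have h0 : U0 j = (u (fv g 0) j : ℝ) := by rw [hU0]
  have h1 : U1 j = (u (fv g 1) j : ℝ) := by rw [hU1]
  have h2 : U2 j = (u (fv g 2) j : ℝ) := by rw [hU2]
  rw [Fin.sum_univ_three, ← h0, ← h1, ← h2]
  show f j = det3 f U1 U2 / det3 U0 U1 U2 * U0 j + det3 U0 f U2 / det3 U0 U1 U2 * U1 j +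
    det3 U0 U1 f / det3 U0 U1 U2 * U2 j
  field_simp
  linarith

private theorem sint_edge {W G : Type} (fv : G → Fin 3 → W)
    (nbr : ∀ g k, ∃ g', (∀ j, j ≠ k → Inc fv g' (fv g j)) ∧ ¬ Inc fv g' (fv g k))
    (u : W → Fin 3 → ℤ) (b : W → ℤ) (y : G → Fin 3 → ℤ)
    (hle : ∀ g w, idot (u w) (y g) ≤ b w) (heq : ∀ g w, idot (u w) (y g) = b w ↔ Inc fv g w)
    (g : G) (k : Fin 3) (t : Fin 3 → ℝ) :
    ∃ (g' : G) (r : ℝ), r < 0 ∧ ∑ j, t j * (idot (u (fv g j)) (y g') : ℝ) -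
      ∑ j, t j * (idot (u (fv g j)) (y g) : ℝ) = t k * r := by
  obtain ⟨g', h1, h2⟩ := nbr g k
  have h3 : idot (u (fv g k)) (y g') < b (fv g k) :=
    lt_of_le_of_ne (hle g' (fv g k)) (fun h => h2 ((heq g' (fv g k)).1 h))
  have h4 : ∀ j, idot (u (fv g j)) (y g) = b (fv g j) := fun j => (heq g (fv g j)).2 ⟨j, rfl⟩
  refine ⟨g', (idot (u (fv g k)) (y g') : ℝ) - (b (fv g k) : ℝ), ?_, ?_⟩
  · have : ((idot (u (fv g k)) (y g') : ℤ) : ℝ) < ((b (fv g k) : ℤ) : ℝ) := by exact_mod_cast h3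
    linarith
  · rw [← Finset.sum_sub_distrib, Finset.sum_eq_single k]
    · rw [h4 k]
      ring
    · intro j _ hj
      have h5 : idot (u (fv g j)) (y g') = b (fv g j) := (heq g' (fv g j)).2 (h1 j hj)
      rw [h4 j, h5]
      ring
    · intro h
      exact absurd (mem_univ k) h

theorem int_expo {W G : Type} [Fintype W] (fv : G → Fin 3 → W)
    (nbr : ∀ g k, ∃ g', (∀ j, j ≠ k → Inc fv g' (fv g j)) ∧ ¬ Inc fv g' (fv g k))
    (u : W → Fin 3 → ℤ) (b : W → ℤ) (y : G → Fin 3 → ℤ) (hd : ∀ g, gdet fv u g ≠ 0)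
    (hle : ∀ g w, idot (u w) (y g) ≤ b w) (heq : ∀ g w, idot (u w) (y g) = b w ↔ Inc fv g w)
    (S : Set G) (hS : S.Nonempty) :
    Expo (fun g j => (y g j : ℝ)) S ↔ ∃ J : Set W, S = {g | ∀ w ∈ J, Inc fv g w} := by
  classical
  constructor
  · rintro ⟨f, c, hfc⟩
    obtain ⟨g, hg⟩ := hS
    obtain ⟨t, ht⟩ := sint_span fv u g (hd g) f
    have hdot := sint_dot fv u y g f t ht
    have hc : ∑ j, t j * (idot (u (fv g j)) (y g) : ℝ) = c := by
      rw [← hdot g]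
      exact (hfc g).2.2 hg
    have h4 : ∀ j, idot (u (fv g j)) (y g) = b (fv g j) := fun j => (heq g (fv g j)).2 ⟨j, rfl⟩
    have htn : ∀ k, 0 ≤ t k := by
      intro k
      obtain ⟨g', r, hr, he⟩ := sint_edge fv nbr u b y hle heq g k t
      have h1 : ∑ j, t j * (idot (u (fv g j)) (y g') : ℝ) ≤ c := by
        rw [← hdot g']
        exact (hfc g').1
      have h2 : t k * r ≤ 0 := by
        rw [← he, hc]
        linarith
      by_contra h3
      push Not at h3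
      have := mul_pos_of_neg_of_neg h3 hr
      linarith
    refine ⟨{w | ∃ k, w = fv g k ∧ t k ≠ 0}, ?_⟩
    ext g'
    rw [← (hfc g').2]
    change ∑ j, f j * (y g' j : ℝ) = c ↔ _
    rw [hdot g', ← hc]
    have hle2 : ∀ j ∈ (Finset.univ : Finset (Fin 3)),
        t j * (idot (u (fv g j)) (y g') : ℝ) ≤ t j * (idot (u (fv g j)) (y g) : ℝ) := by
      intro j _
      apply mul_le_mul_of_nonneg_left _ (htn j)
      rw [h4 j]
      exact_mod_cast hle g' (fv g j)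
    rw [Finset.sum_eq_sum_iff_of_le hle2]
    constructor
    · rintro h w ⟨k, rfl, hk⟩
      have h1 := mul_left_cancel₀ hk (h k (mem_univ k))
      rw [← heq, ← h4 k]
      exact_mod_cast h1
    · intro h k _
      by_cases hk : t k = 0
      · rw [hk, zero_mul, zero_mul]
      · have h1 := h (fv g k) ⟨k, rfl, hk⟩
        rw [← heq, ← h4 k] at h1
        rw [h1]
  · rintro ⟨J, rfl⟩
    have hsum : ∀ g, ∑ j, (∑ w ∈ Finset.univ.filter (fun w => w ∈ J), (u w j : ℝ)) * (y g j : ℝ) =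
        ∑ w ∈ Finset.univ.filter (fun w => w ∈ J), ((idot (u w) (y g) : ℤ) : ℝ) := by
      intro g
      simp only [Finset.sum_mul]
      rw [Finset.sum_comm]
      refine Finset.sum_congr rfl fun w _ => ?_
      rw [Fin.sum_univ_three]
      unfold idot
      push_cast
      ring
    refine ⟨fun j => ∑ w ∈ Finset.univ.filter (fun w => w ∈ J), (u w j : ℝ),
      ∑ w ∈ Finset.univ.filter (fun w => w ∈ J), (b w : ℝ), fun g => ?_⟩
    have hle2 : ∀ w ∈ Finset.univ.filter (fun w => w ∈ J),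
        ((idot (u w) (y g) : ℤ) : ℝ) ≤ (b w : ℝ) := by
      intro w _
      exact_mod_cast hle g w
    constructor
    · change ∑ j, (∑ w ∈ Finset.univ.filter (fun w => w ∈ J), (u w j : ℝ)) * (y g j : ℝ) ≤ _
      rw [hsum g]
      exact Finset.sum_le_sum hle2
    · change ∑ j, (∑ w ∈ Finset.univ.filter (fun w => w ∈ J), (u w j : ℝ)) * (y g j : ℝ) = _ ↔ _
      rw [hsum g, Finset.sum_eq_sum_iff_of_le hle2]
      constructor
      · intro h w hw
        rw [← heq]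
        have := h w (mem_filter.2 ⟨mem_univ w, hw⟩)
        exact_mod_cast this
      · intro h w hw
        have h1 := h w (mem_filter.1 hw).2
        rw [← heq] at h1
        exact_mod_cast h1

theorem int_full {W G : Type} [Nonempty G] (fv : G → Fin 3 → W)
    (nbr : ∀ g k, ∃ g', (∀ j, j ≠ k → Inc fv g' (fv g j)) ∧ ¬ Inc fv g' (fv g k))
    (u : W → Fin 3 → ℤ) (b : W → ℤ) (y : G → Fin 3 → ℤ) (hd : ∀ g, gdet fv u g ≠ 0)
    (hle : ∀ g w, idot (u w) (y g) ≤ b w) (heq : ∀ g w, idot (u w) (y g) = b w ↔ Inc fv g w)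
    (a : Fin 3 → ℝ) (c : ℝ) (h : ∀ g, ∑ j, a j * (y g j : ℝ) = c) : a = 0 := by
  obtain ⟨g⟩ := (inferInstance : Nonempty G)
  obtain ⟨t, ht⟩ := sint_span fv u g (hd g) a
  have hdot := sint_dot fv u y g a t ht
  have htz : ∀ k, t k = 0 := by
    intro k
    obtain ⟨g', r, hr, he⟩ := sint_edge fv nbr u b y hle heq g k t
    rw [← hdot g', ← hdot g, h g', h g, sub_self] at he
    rcases mul_eq_zero.1 he.symm with h1 | h1
    · exact h1
    · exact absurd h1 hr.ne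
  funext j
  rw [ht j]
  refine Finset.sum_eq_zero fun k _ => ?_
  rw [htz k, zero_mul]

end MP0e5907
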