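import Pool.Agent.Lib_MP_0e5907.SBase
import Pool.Agent.Lib_MP_0e5907.QMain

/-!
# Piece SPIPE: Schnyder labelled triangulation of a simplicial 3-polytope

Paper proof. COPY the first half of `main_theorem2` (file `QMain.lean`) for a general finite vertex type `V` (classical decidable equality): `to_nf hx` gives `r, X, h, hN`, a vertex `u0` different from all `r i`, and `hex`; `nf_atc`, `atc_co` give `w, L`; `co_stri2` gives `T`, `hTP`, `hT`. `N = {v // ∀ i, v ≠ r i}` (nonempty by `u0`), `F = {f // f ∈ L}`, `φ = cfinE r hN.rinj`. For nonempty `S`: by `hex` and `nf_expo`, `Expo x S` iff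
`S = univ`, or `S` is contained in some `g ∈ FF X h`, or all elements of `S` are roots `r j`. The second case: `FF X h = L.image fset` and `v ∈ fset f.1 ↔ ∃ k, lab f.1 k = v` (`main_fset`) `↔ ∃ k, T.vert f k = φ.symm v` (`hT`): this is `Inc (sfv T) (some f) (φ.symm v)`. The third case: `v = r j ↔ φ.symm v = Sum.inr j`: this is `Inc (sfv T) none (φ.symm v)`.
-/

namespace MP0e5907

theorem simp_stri {V : Type} [Fintype V] (x : V → Fin 3 → ℝ) (hx : SimpP x) :
    ∃ (N F : Type) (_ : Fintype N) (_ : Fintype F) (_ : Nonempty N) (T : STri N F) (φ : N ⊕ Fin 3 ≃ V),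
      STriP T ∧ ∀ S : Set V, S.Nonempty →
        (Expo x S ↔ S = Set.univ ∨ ∃ g : Option F, ∀ v ∈ S, Inc (sfv T) g (φ.symm v)) := by
  classical
  obtain ⟨r, X, h, hN, ⟨u0, hu0⟩, hex⟩ := to_nf hx
  obtain ⟨w, L, hCO, hw1, hL⟩ := atc_co r (FF X h) (nf_atc hN)
  obtain ⟨T, hTP, hT⟩ := co_stri2 r hN.rinj w L hCO hw1
  have hembv : ∀ f k, cfinE r hN.rinj (T.vert f k) = lab f.1 k := fun f k => hT f k
  refine ⟨{v : V // ∀ i, v ≠ r i}, {f : V × V × V // f ∈ L}, inferInstance, inferInstance,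
    ⟨⟨u0, hu0⟩⟩, T, cfinE r hN.rinj, hTP, ?_⟩
  intro S hS
  rw [(hex S).trans (nf_expo hN S hS)]
  refine or_congr Iff.rfl ?_
  constructor
  · rintro (⟨g, hg, hgS⟩ | hr)
    · rw [← hL, Finset.mem_image] at hg
      obtain ⟨f, hf, rfl⟩ := hg
      refine ⟨some ⟨f, hf⟩, fun v hv => ?_⟩
      obtain ⟨k, hk⟩ := (main_fset f v).1 (hgS v hv)
      refine ⟨k, ?_⟩
      have h1 : T.vert ⟨f, hf⟩ k = (cfinE r hN.rinj).symm v := by
        rw [Equiv.eq_symm_apply, hembv]
        exact hk
      exact h1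
    · refine ⟨none, fun v hv => ?_⟩
      obtain ⟨j, hj⟩ := hr v hv
      refine ⟨j, ?_⟩
      have h1 : Sum.inr j = (cfinE r hN.rinj).symm v := by
        rw [Equiv.eq_symm_apply]
        exact hj.symm
      exact h1
  · rintro ⟨g, hg⟩
    cases g with
    | none =>
      right
      intro v hv
      obtain ⟨j, hj⟩ := hg v hv
      have h1 : Sum.inr j = (cfinE r hN.rinj).symm v := hj
      rw [Equiv.eq_symm_apply] at h1
      exact ⟨j, h1.symm⟩
    | some f =>
      left
      refine ⟨fset f.1, ?_, fun v hv => ?_⟩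
      · rw [← hL]
        exact Finset.mem_image_of_mem _ f.2
      · obtain ⟨k, hk⟩ := hg v hv
        have h1 : T.vert f k = (cfinE r hN.rinj).symm v := hk
        rw [Equiv.eq_symm_apply, hembv] at h1
        exact (main_fset f.1 v).2 ⟨k, h1⟩

end MP0e5907
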