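import Pool.Agent.Lib_MP_0e5907.SPolA

/-!
# Piece SPOLB: the polar dual (vertices) and its existence

Notation `f · y = ∑ j, f j * y j`.

Paper proof.
* `polar_hullX`. Let `Y = convexHull ℝ (Set.range x) ⊆ Fin 3 → ℝ`, compact and convex. If `c ∈ Y` we get the weights `μ` (`convexHull_range_eq_exists_affineCombination`, `mem_convexHull_iff_exists_fintype`, or `Finset.mem_convexHull'` / `convexHull_eq`; for a finite family: `convexHull_basis_eq_stdSimplex`, `mem_convexHull_range`-like lemmas). Otherwise Hahn-Banach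
 (`geometric_hahn_banach_compact_point` or `geometric_hahn_banach_closed_point`) gives a continuous linear `f` and `γ` with `f y < γ < f c` for `y ∈ Y`; `f y = g · y` with `g j = f (Pi.single j 1)`. As `∑_v x v = 0` (`h0`, `V` nonempty), `0 = (1/card V) ∑ f (x v) < γ`. So `g / γ` satisfies `(g/γ) · x v ≤ 1` for all `v`; by `hA`: `g/γ = ∑ μ_w a w`, and
 `(g/γ) · c = ∑ μ_w (a w · c) ≤ 1`, but `(g/γ) · c > 1`. Contradiction.
* `expo_translate`: `(a, c)` exposes `S` for `x` iff `(a, c - a · c0)` exposes `S` for `x - c0`.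
* `polar_exists`: `V` is nonempty (otherwise `hf` with an arbitrary `a` gives `a = 0` for all `a`). `c0 j = (∑ v, x v j) / card V`, `x' = x - c0`, so `∑ x' = 0`; `hf` holds for `x'`; `Expo`, `FSet` agree for `x`, `x'` (`expo_translate`). `W = {S // FSet x' S}` (finite type: use `Fintype.ofFinite`), `a w` from `facet_func` (`FSet` gives `Expo` and `≠ univ`), `I v w := v ∈ w.1`. `polar_hullA`, `polar_hullX`. Injectivity: `Subtype.ext`, `Set.ext`.
-/

namespace MP0e5907

open Finset

private theorem spolb_weights {V : Type} [Fintype V] (x : V → Fin 3 → ℝ) (c : Fin 3 → ℝ)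
    (hc : c ∈ convexHull ℝ (Set.range x)) :
    ∃ μ : V → ℝ, (∀ v, 0 ≤ μ v) ∧ ∑ v, μ v = 1 ∧ ∀ j, c j = ∑ v, μ v * x v j := by
  classical
  have hsub : convexHull ℝ (Set.range x) ⊆
      {c : Fin 3 → ℝ | ∃ μ : V → ℝ, (∀ v, 0 ≤ μ v) ∧ ∑ v, μ v = 1 ∧ ∀ j, c j = ∑ v, μ v * x v j} := by
    apply convexHull_min
    · rintro _ ⟨v, rfl⟩
      refine ⟨Pi.single v 1, fun w => ?_, ?_, fun j => ?_⟩
      · by_cases h : w = v
        · rw [h, Pi.single_eq_same]
          exact zero_le_one
        · rw [Pi.single_eq_of_ne h]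
      · rw [Finset.sum_pi_single']
        simp
      · rw [Finset.sum_eq_single v]
        · rw [Pi.single_eq_same, one_mul]
        · intro w _ hne
          rw [Pi.single_eq_of_ne hne, zero_mul]
        · intro h
          exact absurd (mem_univ _) h
    · rintro c1 ⟨μ, hμ0, hμ1, hμ⟩ c2 ⟨ν, hν0, hν1, hν⟩ s t hs ht hst
      refine ⟨fun v => s * μ v + t * ν v, fun v => ?_, ?_, fun j => ?_⟩
      · have := mul_nonneg hs (hμ0 v)
        have := mul_nonneg ht (hν0 v)
        show 0 ≤ s * μ v + t * ν v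
        linarith
      · rw [Finset.sum_add_distrib, ← Finset.mul_sum, ← Finset.mul_sum, hμ1, hν1, mul_one, mul_one,
          hst]
      · show s * c1 j + t * c2 j = _
        rw [hμ j, hν j, Finset.mul_sum, Finset.mul_sum, ← Finset.sum_add_distrib]
        refine Finset.sum_congr rfl fun v _ => ?_
        ring
  exact hsub hc

private theorem spolb_lin (f : (Fin 3 → ℝ) →ₗ[ℝ] ℝ) (y : Fin 3 → ℝ) :
    f y = ∑ j, f (Pi.single j 1) * y j := by
  conv_lhs => rw [LinearMap.pi_apply_eq_sum_univ f y]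
  refine Finset.sum_congr rfl fun j _ => ?_
  rw [smul_eq_mul, mul_comm]
  congr 2
  funext i
  by_cases h : j = i
  · subst h
    simp
  · rw [if_neg h, Pi.single_eq_of_ne (Ne.symm h)]

theorem polar_hullX {V W : Type} [Fintype V] [Fintype W] [Nonempty V] (x : V → Fin 3 → ℝ) (a : W → Fin 3 → ℝ)
    (h0 : ∀ j, ∑ v, x v j = 0)
    (hA : ∀ c : Fin 3 → ℝ, (∀ v, ∑ j, c j * x v j ≤ 1) →
      ∃ μ : W → ℝ, (∀ w, 0 ≤ μ w) ∧ ∑ w, μ w = 1 ∧ ∀ j, c j = ∑ w, μ w * a w j)
    (c : Fin 3 → ℝ) (hc : ∀ w, ∑ j, a w j * c j ≤ 1) :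
    ∃ μ : V → ℝ, (∀ v, 0 ≤ μ v) ∧ ∑ v, μ v = 1 ∧ ∀ j, c j = ∑ v, μ v * x v j := by
  classical
  by_cases hmem : c ∈ convexHull ℝ (Set.range x)
  · exact spolb_weights x c hmem
  · exfalso
    obtain ⟨f, γ, hf1, hf2⟩ := geometric_hahn_banach_closed_point (convex_convexHull ℝ (Set.range x))
      ((Set.finite_range x).isClosed_convexHull ℝ) hmem
    have hlin : ∀ y, f y = ∑ j, f (Pi.single j 1) * y j := fun y => spolb_lin f.toLinearMap y
    have hx : ∀ v, f (x v) < γ := fun v => hf1 _ (subset_convexHull ℝ _ ⟨v, rfl⟩)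
    have hsum : ∑ v, f (x v) = 0 := by
      rw [← map_sum]
      have : ∑ v, x v = 0 := by
        funext j
        rw [Finset.sum_apply]
        exact h0 j
      rw [this, map_zero]
    have hγ : 0 < γ := by
      have h1 : ∑ v, f (x v) < ∑ _v : V, γ :=
        Finset.sum_lt_sum_of_nonempty Finset.univ_nonempty (fun v _ => hx v)
      rw [hsum, Finset.sum_const, nsmul_eq_mul] at h1
      by_contra h2
      push Not at h2
      have h3 : ((Finset.univ : Finset V).card : ℝ) * γ ≤ 0 :=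
        mul_nonpos_of_nonneg_of_nonpos (Nat.cast_nonneg _) h2
      linarith
    have hdiv : ∀ y, ∑ j, f (Pi.single j 1) / γ * y j = f y / γ := by
      intro y
      rw [hlin y, Finset.sum_div]
      refine Finset.sum_congr rfl fun j _ => ?_
      ring
    obtain ⟨μ, hμ0, hμ1, hμ⟩ := hA (fun j => f (Pi.single j 1) / γ) (fun v => by
      rw [hdiv, div_le_one hγ]
      exact (hx v).le)
    have h1 : f c / γ = ∑ w, μ w * ∑ j, a w j * c j := by
      rw [← hdiv c]
      have h2 : ∀ j, f (Pi.single j 1) / γ * c j = ∑ w, μ w * (a w j * c j) := by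
        intro j
        have h3 : f (Pi.single j 1) / γ = ∑ w, μ w * a w j := hμ j
        rw [h3, Finset.sum_mul]
        refine Finset.sum_congr rfl fun w _ => ?_
        ring
      rw [Finset.sum_congr rfl fun j _ => h2 j, Finset.sum_comm]
      refine Finset.sum_congr rfl fun w _ => ?_
      rw [Finset.mul_sum]
    have h2 : ∑ w, μ w * ∑ j, a w j * c j ≤ ∑ w, μ w := by
      refine Finset.sum_le_sum fun w _ => ?_
      have := mul_le_mul_of_nonneg_left (hc w) (hμ0 w)
      rwa [mul_one] at this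
    rw [← h1, hμ1, div_le_one hγ] at h2
    linarith

theorem expo_translate {V : Type} (x : V → Fin 3 → ℝ) (c0 : Fin 3 → ℝ) (S : Set V) :
    Expo (fun v j => x v j - c0 j) S ↔ Expo x S := by
  have key : ∀ (a : Fin 3 → ℝ) v, ∑ j, a j * (x v j - c0 j) = ∑ j, a j * x v j - ∑ j, a j * c0 j := by
    intro a v
    rw [← Finset.sum_sub_distrib]
    refine Finset.sum_congr rfl fun j _ => ?_
    ring
  constructor
  · rintro ⟨a, c, h⟩
    refine ⟨a, c + ∑ j, a j * c0 j, fun v => ?_⟩
    have h1 := h v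
    simp only [key] at h1
    refine ⟨by linarith [h1.1], ?_⟩
    rw [← h1.2]
    constructor
    · intro h2; linarith
    · intro h2; linarith
  · rintro ⟨a, c, h⟩
    refine ⟨a, c - ∑ j, a j * c0 j, fun v => ?_⟩
    have h1 := h v
    simp only [key]
    refine ⟨by linarith [h1.1], ?_⟩
    rw [← h1.2]
    constructor
    · intro h2; linarith
    · intro h2; linarith

theorem polar_exists {V : Type} [Fintype V] (x : V → Fin 3 → ℝ)
    (hf : ∀ (a : Fin 3 → ℝ) (c : ℝ), (∀ v, ∑ j, a j * x v j = c) → a = 0) :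
    ∃ (c0 : Fin 3 → ℝ) (W : Type) (_ : Fintype W) (a : W → Fin 3 → ℝ) (I : V → W → Prop),
      Polar (fun v j => x v j - c0 j) a I ∧ (∀ w, FSet x {v | I v w}) ∧
      (∀ S, FSet x S → ∃ w, S = {v | I v w}) ∧ ∀ w w', (∀ v, I v w ↔ I v w') → w = w' := by
  classical
  have hVne : Nonempty V := by
    by_contra hV
    rw [not_nonempty_iff] at hV
    have h1 := hf (fun _ => 1) 0 (fun v => (hV.false v).elim)
    have h2 := congrFun h1 0
    norm_num at h2
  obtain ⟨c0, hc0⟩ : ∃ c0 : Fin 3 → ℝ, ∀ j, c0 j = (∑ v, x v j) / (Fintype.card V : ℝ) :=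
    ⟨fun j => (∑ v, x v j) / (Fintype.card V : ℝ), fun _ => rfl⟩
  have hcard : (Fintype.card V : ℝ) ≠ 0 := by
    exact_mod_cast Fintype.card_ne_zero
  obtain ⟨x', hx'⟩ : ∃ x' : V → Fin 3 → ℝ, x' = fun v j => x v j - c0 j := ⟨_, rfl⟩
  have h0 : ∀ j, ∑ v, x' v j = 0 := by
    intro j
    rw [hx']
    simp only
    rw [Finset.sum_sub_distrib, Finset.sum_const, nsmul_eq_mul, Finset.card_univ, hc0 j,
      mul_div_cancel₀ _ hcard, sub_self]
  have hf' : ∀ (a : Fin 3 → ℝ) (c : ℝ), (∀ v, ∑ j, a j * x' v j = c) → a = 0 := by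
    intro a c h
    apply hf a (c + ∑ j, a j * c0 j)
    intro v
    rw [← h v, hx', ← Finset.sum_add_distrib]
    refine Finset.sum_congr rfl fun j _ => ?_
    ring
  have hexp : ∀ S, Expo x' S ↔ Expo x S := by
    intro S
    rw [hx']
    exact expo_translate x c0 S
  have hFS : ∀ S, FSet x' S ↔ FSet x S := by
    intro S
    unfold FSet
    simp only [hexp]
  have hfin : Finite {S : Set V // FSet x' S} := inferInstance
  let _ : Fintype {S : Set V // FSet x' S} := Fintype.ofFinite _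
  choose a ha ha' using fun w : {S : Set V // FSet x' S} =>
    facet_func x' h0 w.1 w.2.1 w.2.2.1
  have hullA := polar_hullA x' h0 hf' a ha ha'
  refine ⟨c0, {S : Set V // FSet x' S}, inferInstance, a, fun v w => v ∈ w.1, ?_, ?_, ?_, ?_⟩
  · rw [← hx']
    exact ⟨fun v w => ha w v, fun v w => ha' w v, hullA, polar_hullX x' a h0 hullA⟩
  · intro w
    exact (hFS w.1).1 w.2
  · intro S hS
    exact ⟨⟨S, (hFS S).2 hS⟩, rfl⟩
  · intro w w' h
    exact Subtype.ext (Set.ext h)

end MP0e5907
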