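import Pool.Agent.Lib_MP_0e5907.SPolC

/-!
# Piece SPOLD: the polar of a simple polytope is simplicial

Notation `f · y = ∑ j, f j * y j`.

Paper proof.
* `polar_indep`: if `μ` is supported in `{w | I v w}` (exactly three elements) and `∑ μ_w a w = 0` then `μ = 0`. By `polar_span` the three vectors `a w`, `w ∈ {w | I v w}`, span `Fin 3 → ℝ` (dimension 3), so they are linearly independent (`linearIndependent_of_top_le_span_of_card_eq_finrank`, for the family on `Fin 3` or on the subtype `{w // I v w}`, whose cardinality is 3).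
* `polar_simpP`. `vert w`: let `S = {v | I v w}` (nonempty), `f = ∑_{v ∈ S} x v`, `c = card S`: `f · a w' = ∑_{v ∈ S} a w' · x v ≤ c`, with equality iff `I v w'` for all `v ∈ S`, iff `w' = w` (`hinc`). `full`: `b · a w = c` for all `w`. If `b ≠ 0`: `polar_posA` for `(b, c)` gives `0 < c` and for `(-b, -c)` gives `0 < -c`. Contradiction.
 `simp`: `b ≠ 0`, `b · a w ≤ c` for all `w`: `c > 0` (`polar_posA`), so `a w · (b/c) ≤ 1` for all `w`, and by `hullX` `b/c = ∑ ν_v x v`; choose `v` with `ν_v > 0` (the weights are nonnegative with sum 1). If `μ_w ≠ 0` then `b · a w = c`, so `1 = ∑ ν_v (a w · x v)`, all `a w · x v ≤ 1`, so `a w · x v = 1` for our `v` (as `ν_v > 0`): `I v w`. So `μ` is supported in `{w | I v w}`: `polar_indep`.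
-/

namespace MP0e5907

open Finset

variable {V W : Type} [Fintype V] [Fintype W] {x : V → Fin 3 → ℝ} {a : W → Fin 3 → ℝ} {I : V → W → Prop}

theorem sum_three {W : Type} [Fintype W] {w0 w1 w2 : W} (h01 : w0 ≠ w1) (h02 : w0 ≠ w2) (h12 : w1 ≠ w2)
    (f : W → ℝ) (hf : ∀ w, f w ≠ 0 → w = w0 ∨ w = w1 ∨ w = w2) : ∑ w, f w = f w0 + f w1 + f w2 := by
  classical
  rw [← Finset.sum_subset (Finset.subset_univ ({w0, w1, w2} : Finset W))]
  · rw [Finset.sum_insert (by simp [h01, h02]), Finset.sum_insert (by simp [h12]),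
      Finset.sum_singleton]
    ring
  · intro w _ hw
    by_contra hne
    apply hw
    rcases hf w hne with h | h | h <;> simp [h]

theorem polar_indep (hp : Polar x a I) (v : V) (hv : Expo x {v}) (h3 : Set.ncard {w | I v w} = 3) (μ : W → ℝ)
    (hμ : ∀ w, μ w ≠ 0 → I v w) (h : ∀ j, ∑ w, μ w * a w j = 0) : μ = 0 := by
  classical
  obtain ⟨w0, w1, w2, h01, h02, h12, hS⟩ := Set.ncard_eq_three.1 h3
  have hmem : ∀ w, I v w ↔ w = w0 ∨ w = w1 ∨ w = w2 := by
    intro w
    have : w ∈ {w | I v w} ↔ w ∈ ({w0, w1, w2} : Set W) := by rw [hS]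
    simpa using this
  have hspan : ⊤ ≤ Submodule.span ℝ (Set.range (![a w0, a w1, a w2] : Fin 3 → Fin 3 → ℝ)) := by
    intro d _
    obtain ⟨ν, hν, hd⟩ := polar_span hp v hv d
    have e : d = ν w0 • a w0 + ν w1 • a w1 + ν w2 • a w2 := by
      funext j
      rw [hd j, sum_three h01 h02 h12 (fun w => ν w * a w j)
        (fun w hw => (hmem w).1 (hν w (left_ne_zero_of_mul hw)))]
      simp [Pi.add_apply, Pi.smul_apply, smul_eq_mul]
    rw [e]
    refine Submodule.add_mem _ (Submodule.add_mem _ ?_ ?_) ?_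
    · exact Submodule.smul_mem _ _ (Submodule.subset_span ⟨0, rfl⟩)
    · exact Submodule.smul_mem _ _ (Submodule.subset_span ⟨1, rfl⟩)
    · exact Submodule.smul_mem _ _ (Submodule.subset_span ⟨2, rfl⟩)
  have hli : LinearIndependent ℝ (![a w0, a w1, a w2] : Fin 3 → Fin 3 → ℝ) :=
    linearIndependent_of_top_le_span_of_card_eq_finrank hspan (by simp)
  have hz : ∑ i, (![μ w0, μ w1, μ w2] : Fin 3 → ℝ) i • (![a w0, a w1, a w2] : Fin 3 → Fin 3 → ℝ) i = 0 := by
    funext j
    have h1 := h j
    rw [sum_three h01 h02 h12 (fun w => μ w * a w j)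
        (fun w hw => (hmem w).1 (hμ w (left_ne_zero_of_mul hw)))] at h1
    rw [Fin.sum_univ_three]
    simpa [Pi.add_apply, Pi.smul_apply, smul_eq_mul] using h1
  have hc := Fintype.linearIndependent_iff.1 hli (![μ w0, μ w1, μ w2] : Fin 3 → ℝ) hz
  funext w
  by_contra hne
  rcases (hmem w).1 (hμ w hne) with h1 | h1 | h1
  · apply hne
    rw [h1]
    exact hc 0
  · apply hne
    rw [h1]
    exact hc 1
  · apply hne
    rw [h1]
    exact hc 2

theorem polar_simpP (hp : Polar x a I) (hv : ∀ v, Expo x {v}) (h3 : ∀ v, Set.ncard {w | I v w} = 3)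
    (hne : ∀ w, ∃ v, I v w) (hinc : ∀ w w', (∀ v, I v w → I v w') → w = w') : SimpP a := by
  classical
  refine ⟨?_, ?_, ?_⟩
  · intro w
    obtain ⟨v0, hv0⟩ := hne w
    refine ⟨fun j => ∑ v ∈ Finset.univ.filter (fun v => I v w), x v j,
      ((Finset.univ.filter (fun v => I v w)).card : ℝ), ?_⟩
    intro w'
    have e1 : ∑ j, (∑ v ∈ Finset.univ.filter (fun v => I v w), x v j) * a w' j =
        ∑ v ∈ Finset.univ.filter (fun v => I v w), ∑ j, a w' j * x v j := by
      rw [Finset.sum_comm]
      apply Finset.sum_congr rfl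
      intro j _
      rw [Finset.sum_mul]
      apply Finset.sum_congr rfl
      intro v _
      ring
    have e2 : ((Finset.univ.filter (fun v => I v w)).card : ℝ) =
        ∑ v ∈ Finset.univ.filter (fun v => I v w), (1 : ℝ) := by simp
    rw [e1, e2]
    have hle : ∀ v ∈ Finset.univ.filter (fun v => I v w), ∑ j, a w' j * x v j ≤ (1 : ℝ) :=
      fun v _ => hp.le v w'
    refine ⟨Finset.sum_le_sum hle, ?_⟩
    rw [Finset.sum_eq_sum_iff_of_le hle]
    constructor
    · intro hall
      have : w = w' := hinc w w' (fun v hvw => (hp.eq v w').1 (hall v (by simp [hvw])))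
      exact this.symm
    · intro hw v hvm
      have : w' = w := hw
      rw [this]
      exact (hp.eq v w).2 (by simpa using hvm)
  · intro b c hbc
    by_contra hb
    have h1 := polar_posA hp b c hb (fun w => (hbc w).le)
    have h2 := polar_posA hp (-b) (-c) (neg_ne_zero.2 hb) (by
      intro w
      have := hbc w
      simp only [Pi.neg_apply, neg_mul, Finset.sum_neg_distrib]
      linarith)
    linarith
  · intro b c hb hbc μ hμ _ hμ0
    have hc := polar_posA hp b c hb hbc
    have hdiv : ∀ w, ∑ j, a w j * (b j / c) = (∑ j, b j * a w j) / c := by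
      intro w
      rw [Finset.sum_div]
      apply Finset.sum_congr rfl
      intro j _
      ring
    obtain ⟨ν, hν0, hν1, hνx⟩ := hp.hullX (fun j => b j / c) (by
      intro w
      rw [hdiv w, div_le_one hc]
      exact hbc w)
    obtain ⟨v, hvp⟩ : ∃ v, 0 < ν v := by
      by_contra hcon
      push Not at hcon
      have : ∑ v, ν v ≤ 0 := Finset.sum_nonpos (fun v _ => hcon v)
      linarith
    refine polar_indep hp v (hv v) (h3 v) μ ?_ hμ0
    intro w hw
    have e1 : ∑ j, a w j * (b j / c) = 1 := by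
      rw [hdiv w, hμ w hw, div_self hc.ne']
    have e2 : ∑ j, a w j * (b j / c) = ∑ u, ν u * ∑ j, a w j * x u j := by
      have : ∀ j, a w j * (b j / c) = ∑ u, ν u * (a w j * x u j) := by
        intro j
        have h1 : b j / c = ∑ u, ν u * x u j := hνx j
        rw [h1, Finset.mul_sum]
        apply Finset.sum_congr rfl
        intro u _
        ring
      rw [Finset.sum_congr rfl (fun j _ => this j), Finset.sum_comm]
      apply Finset.sum_congr rfl
      intro u _
      rw [Finset.mul_sum]
    have e3 : ∑ u, ν u * (1 - ∑ j, a w j * x u j) = 0 := by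
      have : ∑ u, ν u * (1 - ∑ j, a w j * x u j) = ∑ u, ν u - ∑ u, ν u * ∑ j, a w j * x u j := by
        rw [← Finset.sum_sub_distrib]
        apply Finset.sum_congr rfl
        intro u _
        ring
      rw [this, ← e2, e1, hν1, sub_self]
    have e4 := (Finset.sum_eq_zero_iff_of_nonneg (fun u _ =>
      mul_nonneg (hν0 u) (sub_nonneg.2 (hp.le u w)))).1 e3 v (Finset.mem_univ v)
    rcases mul_eq_zero.1 e4 with h5 | h5
    · exact absurd h5 hvp.ne'
    · exact (hp.eq v w).1 (by linarith)

end MP0e5907
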