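import Pool.Agent.Lib_MP_0e5907.SPolC

/-!
# Piece SPOLE: the vertices of the simple polytope are the faces of its polar

Notation `f · y = ∑ j, f j * y j`.

Paper proof. For `v : V` let `Nv = {w | I v w}`, three elements. It is exposed for the family `a` by `(x v, 1)` (`hp.le`, `hp.eq`), nonempty and `≠ univ` (`4 ≤ card W`), so by `he` there is `g` with `Inc fv g w` for all `w ∈ Nv`. The set `{w | Inc fv g w} = Set.range (fv g)` has three elements (`hinj`), so `Nv = {w | Inc fv g w}` (`Set.eq_of_subset_of_ncard_le`). Choose such `g =: φ v`.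
Injective: if `φ v = φ u` then `Nv = Nu`. For `d : Fin 3 → ℝ` by `polar_span` (at `v`) `d = ∑ μ_w a w` with support in `Nv`, so `d · x v = ∑ μ_w = d · x u`. Hence `x v = x u` (take `d = Pi.single j 1`), and since `{v}` is exposed, `u = v`.
Surjective: let `g` be given, `S = {w | Inc fv g w}`. By `he` it is exposed by some `(b,c)` for the family `a`. `b ≠ 0`: otherwise (`S` nonempty) `c = 0` and `S = univ`, but `4 ≤ card W`. So `c > 0` (`polar_posA`), `a w · (b/c) ≤ 1` for all `w`, and by `hullX` `b/c = ∑ ν_v x v`; choose `v` with `ν_v > 0`. For `w ∈ S`: `1 = a w · (b/c) = ∑ ν_v (a w · x v) ≤ 1`, so `a w · x v = 1`: `w ∈ Nv`. So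
`S ⊆ Nv = {w | Inc fv (φ v) w}`, i.e. `Inc fv (φ v) (fv g k)` for all `k`: `g = φ v` by `hset`.
-/

namespace MP0e5907

open Finset

private lemma se_ncard {W G : Type} (fv : G → Fin 3 → W) (hinj : ∀ g, Function.Injective (fv g)) (g : G) :
    Set.ncard {w | Inc fv g w} = 3 := by
  have h1 : {w | Inc fv g w} = (fv g) '' Set.univ := by
    rw [Set.image_univ]
    rfl
  rw [h1, Set.ncard_image_of_injective _ (hinj g), Set.ncard_univ]
  simp

private lemma se_eval {V W : Type} [Fintype V] [Fintype W] {x : V → Fin 3 → ℝ} {a : W → Fin 3 → ℝ}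
    {I : V → W → Prop} (hp : Polar x a I) (u : V) (d : Fin 3 → ℝ) (μ : W → ℝ)
    (h1 : ∀ w, μ w ≠ 0 → I u w) (h2 : ∀ j, d j = ∑ w, μ w * a w j) :
    ∑ j, d j * x u j = ∑ w, μ w := by
  calc ∑ j, d j * x u j = ∑ j, ∑ w, μ w * (a w j * x u j) := by
        refine Finset.sum_congr rfl (fun j _ => ?_)
        rw [h2 j, Finset.sum_mul]
        exact Finset.sum_congr rfl (fun w _ => by ring)
    _ = ∑ w, ∑ j, μ w * (a w j * x u j) := Finset.sum_comm
    _ = ∑ w, μ w := by
        refine Finset.sum_congr rfl (fun w _ => ?_)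
        rw [← Finset.mul_sum]
        by_cases hw : μ w = 0
        · rw [hw, zero_mul]
        · rw [(hp.eq u w).mpr (h1 w hw), mul_one]

theorem polar_bij {V W G : Type} [Fintype V] [Fintype W] {x : V → Fin 3 → ℝ} {a : W → Fin 3 → ℝ}
    {I : V → W → Prop} (hp : Polar x a I) (hv : ∀ v, Expo x {v}) (h3 : ∀ v, Set.ncard {w | I v w} = 3)
    (fv : G → Fin 3 → W) (hinj : ∀ g, Function.Injective (fv g))
    (hset : ∀ g g', (∀ k, Inc fv g' (fv g k)) → g = g') (hW : 4 ≤ Fintype.card W)
    (he : ∀ S : Set W, S.Nonempty → (Expo a S ↔ S = Set.univ ∨ ∃ g, ∀ w ∈ S, Inc fv g w)) :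
    ∃ φ : V ≃ G, ∀ v w, I v w ↔ Inc fv (φ v) w := by
  classical
  have hcW : Set.ncard (Set.univ : Set W) = Fintype.card W := by
    rw [Set.ncard_univ, Nat.card_eq_fintype_card]
  -- each neighbourhood is a face
  have key : ∀ v, ∃ g, ∀ w, I v w ↔ Inc fv g w := by
    intro v
    have hne : ({w | I v w} : Set W).Nonempty := by
      apply Set.nonempty_of_ncard_ne_zero
      rw [h3 v]
      norm_num
    have hexp : Expo a {w | I v w} := by
      refine ⟨x v, 1, fun w => ?_⟩
      have hc : ∑ j, x v j * a w j = ∑ j, a w j * x v j :=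
        Finset.sum_congr rfl (fun j _ => mul_comm _ _)
      rw [hc]
      exact ⟨hp.le v w, hp.eq v w⟩
    rcases (he _ hne).mp hexp with h | ⟨g, hg⟩
    · exfalso
      have h4 := h3 v
      rw [h, hcW] at h4
      omega
    · refine ⟨g, ?_⟩
      have hsub : {w | I v w} ⊆ {w | Inc fv g w} := fun w hw => hg w hw
      have heq : {w | I v w} = {w | Inc fv g w} :=
        Set.eq_of_subset_of_ncard_le hsub (by rw [h3 v, se_ncard fv hinj g]) (Set.toFinite _)
      intro w
      have h5 : w ∈ {w | I v w} ↔ w ∈ {w | Inc fv g w} := by rw [heq]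
      exact h5
  choose φ hφ using key
  have hφinj : Function.Injective φ := by
    intro v u hvu
    have hI : ∀ w, I v w → I u w := fun w hw => (hφ u w).mpr (hvu ▸ (hφ v w).mp hw)
    have hdot : ∀ d : Fin 3 → ℝ, ∑ j, d j * x v j = ∑ j, d j * x u j := by
      intro d
      obtain ⟨μ, hμ1, hμ2⟩ := polar_span hp v (hv v) d
      rw [se_eval hp v d μ hμ1 hμ2, se_eval hp u d μ (fun w hw => hI w (hμ1 w hw)) hμ2]
    obtain ⟨f, c, hf⟩ := hv v
    have h6 : ∑ j, f j * x v j = c := (hf v).2.mpr rfl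
    have h7 : ∑ j, f j * x u j = c := by rw [← hdot f, h6]
    have h8 : u ∈ ({v} : Set V) := (hf u).2.mp h7
    exact (Set.mem_singleton_iff.mp h8).symm
  have hφsurj : Function.Surjective φ := by
    intro g
    have hSne : ({w | Inc fv g w} : Set W).Nonempty := ⟨fv g 0, ⟨0, rfl⟩⟩
    have hexp : Expo a {w | Inc fv g w} := (he _ hSne).mpr (Or.inr ⟨g, fun w hw => hw⟩)
    obtain ⟨b, c, hb⟩ := hexp
    have hb0 : b ≠ 0 := by
      intro h0
      have hc0 : (0 : ℝ) = c := by
        have h9 := (hb (fv g 0)).2.mpr ⟨0, rfl⟩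
        rw [h0] at h9
        simpa using h9
      have huniv : {w | Inc fv g w} = (Set.univ : Set W) := by
        refine Set.eq_univ_of_forall (fun w => ?_)
        refine (hb w).2.mp ?_
        rw [h0, ← hc0]
        simp
      have h10 := se_ncard fv hinj g
      rw [huniv, hcW] at h10
      omega
    have hc : 0 < c := polar_posA hp b c hb0 (fun w => (hb w).1)
    have hdiv : ∀ w, ∑ j, a w j * (b j / c) = (∑ j, b j * a w j) / c := by
      intro w
      rw [Finset.sum_div]
      exact Finset.sum_congr rfl (fun j _ => by ring)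
    obtain ⟨ν, hν0, hν1, hν2⟩ := hp.hullX (fun j => b j / c) (fun w => by
      rw [hdiv w]
      exact (div_le_one hc).mpr (hb w).1)
    obtain ⟨v, hvpos⟩ : ∃ v, 0 < ν v := by
      by_contra hcon
      push Not at hcon
      have h11 : ∑ v, ν v ≤ 0 := Finset.sum_nonpos (fun v _ => hcon v)
      rw [hν1] at h11
      linarith
    refine ⟨v, ?_⟩
    symm
    apply hset
    intro k
    rw [← hφ v]
    have hw : ∑ j, a (fv g k) j * (b j / c) = 1 := by
      rw [hdiv, (hb (fv g k)).2.mpr ⟨k, rfl⟩, div_self hc.ne']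
    have hsum : ∑ u, ν u * (1 - ∑ j, a (fv g k) j * x u j) = 0 := by
      have h12 : ∑ j, a (fv g k) j * (b j / c) = ∑ u, ν u * ∑ j, a (fv g k) j * x u j := by
        calc ∑ j, a (fv g k) j * (b j / c) = ∑ j, ∑ u, ν u * (a (fv g k) j * x u j) := by
              refine Finset.sum_congr rfl (fun j _ => ?_)
              have h13 : b j / c = ∑ v, ν v * x v j := hν2 j
              rw [h13, Finset.mul_sum]
              exact Finset.sum_congr rfl (fun u _ => by ring)
          _ = ∑ u, ∑ j, ν u * (a (fv g k) j * x u j) := Finset.sum_comm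
          _ = ∑ u, ν u * ∑ j, a (fv g k) j * x u j :=
              Finset.sum_congr rfl (fun u _ => (Finset.mul_sum _ _ _).symm)
      have h14 : ∑ u, ν u * (1 - ∑ j, a (fv g k) j * x u j)
          = ∑ u, ν u - ∑ u, ν u * ∑ j, a (fv g k) j * x u j := by
        rw [← Finset.sum_sub_distrib]
        exact Finset.sum_congr rfl (fun u _ => by ring)
      rw [h14, hν1, ← h12, hw, sub_self]
    have hterm := (Finset.sum_eq_zero_iff_of_nonneg (fun u _ =>
      mul_nonneg (hν0 u) (sub_nonneg.mpr (hp.le u (fv g k))))).mp hsum v (Finset.mem_univ v)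
    rcases mul_eq_zero.mp hterm with h15 | h15
    · exact absurd h15 hvpos.ne'
    · exact (hp.eq v (fv g k)).mp (by linarith)
  exact ⟨Equiv.ofBijective φ ⟨hφinj, hφsurj⟩, fun v w => hφ v w⟩

end MP0e5907
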