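import Pool.Agent.Lib_MP_0e5907.SSimple
import Pool.Agent.Lib_MP_0e5907.SPolB
import Pool.Agent.Lib_MP_0e5907.SPolD
import Pool.Agent.Lib_MP_0e5907.SPolE
import Pool.Agent.Lib_MP_0e5907.SInt
import Pool.Agent.Lib_MP_0e5907.SBridge
import Pool.Agent.Lib_MP_0e5907.SPipe

/-!
# Piece SMAIN: every simple 3-polytope has a realisation on a grid of polynomial size

Assembly: `simpleP_of_polytope`, the polar (`polar_exists`, `polar_simpP`), its Schnyder labelled triangulation (`simp_stri`), the bijection of the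
vertices with the faces (`polar_bij`), the integral realisation (`simple_real`), and the comparison of the exposed sets (`polar_expo`, `int_expo`).
-/

namespace MP0e5907

open Finset

theorem s_numeric_aux (A k m : ℕ) (hm : 1 ≤ m) :
    2 ^ (A + k * (Nat.log 2 m + 1)) ≤ 2 ^ A * 2 ^ k * m ^ k := by
  have h1 : 2 ^ (Nat.log 2 m) ≤ m := Nat.pow_log_le_self 2 (by omega)
  calc 2 ^ (A + k * (Nat.log 2 m + 1)) = 2 ^ A * (2 ^ (Nat.log 2 m) * 2) ^ k := by
        rw [pow_add, ← pow_succ, ← pow_mul, mul_comm k]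
    _ ≤ 2 ^ A * (m * 2) ^ k := by gcongr
    _ = 2 ^ A * 2 ^ k * m ^ k := by rw [mul_pow]; ring

theorem s_numeric (c : ℕ) : ∃ C : ℕ, ∀ m n : ℕ, 1 ≤ m → m ≤ n →
    m ^ 201 ≤ 2 ^ (2 ^ c + 201 * (Nat.log 2 m + 1)) ∧
    2 * 2 ^ (716 * (2 ^ c + 201 * (Nat.log 2 m + 1))) ≤ C * n ^ 150000 := by
  obtain ⟨k, hk⟩ : ∃ k : ℕ, k = 716 * 201 := ⟨_, rfl⟩
  have hk2 : k ≤ 150000 := by rw [hk]; norm_num
  refine ⟨2 * (2 ^ (716 * 2 ^ c) * 2 ^ k), fun m n hm hn => ⟨?_, ?_⟩⟩
  · have h1 : m ≤ 2 ^ (Nat.log 2 m + 1) := (Nat.lt_pow_succ_log_self (by norm_num) m).le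
    calc m ^ 201 ≤ (2 ^ (Nat.log 2 m + 1)) ^ 201 := Nat.pow_le_pow_left h1 201
      _ = 2 ^ (201 * (Nat.log 2 m + 1)) := by rw [← pow_mul, mul_comm]
      _ ≤ 2 ^ (2 ^ c + 201 * (Nat.log 2 m + 1)) :=
        Nat.pow_le_pow_right (by norm_num) (Nat.le_add_left _ _)
  · have h1 : 716 * (2 ^ c + 201 * (Nat.log 2 m + 1)) = 716 * 2 ^ c + k * (Nat.log 2 m + 1) := by
      rw [hk]; ring
    rw [h1]
    have h2 := s_numeric_aux (716 * 2 ^ c) k m hm
    have h3 : m ^ k ≤ n ^ 150000 :=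
      (Nat.pow_le_pow_left hn k).trans (Nat.pow_le_pow_right (by omega) hk2)
    calc 2 * 2 ^ (716 * 2 ^ c + k * (Nat.log 2 m + 1)) ≤ 2 * (2 ^ (716 * 2 ^ c) * 2 ^ k * m ^ k) :=
          Nat.mul_le_mul_left 2 h2
      _ ≤ 2 * (2 ^ (716 * 2 ^ c) * 2 ^ k * n ^ 150000) :=
          Nat.mul_le_mul_left 2 (Nat.mul_le_mul_left _ h3)
      _ = 2 * (2 ^ (716 * 2 ^ c) * 2 ^ k) * n ^ 150000 := (mul_assoc _ _ _).symm

/-- `FSet` depends only on the exposed sets -/
theorem fset_congr {V : Type} {x y : V → Fin 3 → ℝ} (h : ∀ S : Set V, Expo x S ↔ Expo y S) (S : Set V) :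
    FSet x S ↔ FSet y S := by
  unfold FSet
  simp only [h]

theorem expo_empty {V : Type} (x : V → Fin 3 → ℝ) : Expo x ∅ :=
  ⟨0, 1, fun v => ⟨by simp, by simp⟩⟩

theorem main_simple : ∃ C : ℕ, ∀ (n : ℕ) (x : Fin n → E3), IsSimplePolytope x →
    ∃ y : Fin n → E3, IsSimplePolytope y ∧ SameType x y ∧
      ∀ i j, ∃ k : ℕ, y i j = k ∧ k ≤ C * n ^ 150000 := by
  obtain ⟨c, hc⟩ : ∃ c : ℕ, 7104 ≤ c := ⟨7104, le_rfl⟩
  obtain ⟨C, hC⟩ := s_numeric c
  refine ⟨C, fun n x hx => ?_⟩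
  have hs := simpleP_of_polytope x hx
  obtain ⟨c0, W, _, a, I, hp, hF, hF', hI⟩ := polar_exists (fun v j => x v j) hs.full
  have hv : ∀ v, Expo (fun v j => x v j - c0 j) {v} := fun v =>
    (expo_translate (fun v j => x v j) c0 _).2 (hs.vert v)
  have hn : Nonempty (Fin n) := by
    by_contra hcon
    rw [not_nonempty_iff] at hcon
    have h1 := hs.full (fun _ => 1) 0 (fun v => (hcon.false v).elim)
    have h2 := congrFun h1 0
    norm_num at h2
  have h3 : ∀ v, Set.ncard {w | I v w} = 3 := by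
    intro v
    rw [← hs.three v]
    have h1 : {S | FSet (fun v j => x v j) S ∧ v ∈ S} = (fun w => {v | I v w}) '' {w | I v w} := by
      ext S
      constructor
      · rintro ⟨h2, h4⟩
        obtain ⟨w, rfl⟩ := hF' S h2
        exact ⟨w, h4, rfl⟩
      · rintro ⟨w, h2, rfl⟩
        exact ⟨hF w, h2⟩
    rw [h1, Set.ncard_image_of_injective]
    intro w w' h2
    apply hI
    intro v
    exact Set.ext_iff.1 h2 v
  have hinc : ∀ w w', (∀ v, I v w → I v w') → w = w' := by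
    intro w w' h
    apply hI
    rcases (hF w).2.2 {v | I v w'} (hF w').1 h with h1 | h1
    · intro v
      exact (Set.ext_iff.1 h1 v).symm
    · exact absurd h1 (hF w').2.1
  have hne : ∀ w, ∃ v, I v w := by
    intro w
    by_contra hcon
    push Not at hcon
    obtain ⟨v0⟩ := hn
    rcases (hF w).2.2 {v0} (hs.vert v0) (fun v hv => (hcon v hv).elim) with h1 | h1
    · have h2 : v0 ∈ {v | I v w} := by
        rw [← h1]
        rfl
      exact hcon v0 h2
    · have h2 := hs.full (fun _ => 1) (∑ j, 1 * x v0 j) (fun v => by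
        have h4 : v ∈ ({v0} : Set (Fin n)) := by
          rw [h1]
          trivial
        rw [Set.mem_singleton_iff.1 h4])
      have h4 := congrFun h2 0
      norm_num at h4
  have hsimp : SimpP a := polar_simpP hp hv h3 hne hinc
  obtain ⟨N, F, _, _, _, T, φ, hT, he⟩ := simp_stri a hsimp
  have hSurf := sfv_surf T hT
  have hInc : ∀ g w, Inc (fun g k => φ (sfv T g k)) g w ↔ Inc (sfv T) g (φ.symm w) := by
    intro g w
    unfold Inc
    refine exists_congr fun k => ?_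
    rw [Equiv.eq_symm_apply]
  have hWc : Fintype.card W = Fintype.card N + 3 := by
    rw [← Fintype.card_congr φ, Fintype.card_sum, Fintype.card_fin]
  have hN1 : 1 ≤ Fintype.card N := Fintype.card_pos
  obtain ⟨ψ, hψ⟩ := polar_bij hp hv h3 (fun g k => φ (sfv T g k))
    (fun g => φ.injective.comp (hSurf.inj g))
    (fun g g' h => hSurf.set g g' (fun k => by
      have h1 := h k
      rw [hInc, Equiv.symm_apply_apply] at h1
      exact h1))
    (by omega)
    (fun S hS => (he S hS).trans (or_congr Iff.rfl (exists_congr fun g => forall₂_congr fun w _ =>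
      (hInc g w).symm)))
  have hψ' : ∀ v w, I v w ↔ Inc (sfv T) (ψ v) (φ.symm w) := fun v w => (hψ v w).trans (hInc _ w)
  have hcard : n = 2 * Fintype.card N + 2 := by
    have h1 := Fintype.card_congr ψ
    rw [Fintype.card_fin, Fintype.card_option, card_F T] at h1
    omega
  obtain ⟨hC1, hC2⟩ := hC (Fintype.card N + 3) n (by omega) (by omega)
  obtain ⟨E, hE⟩ : ∃ E, E = 2 ^ c + 201 * (Nat.log 2 (Fintype.card N + 3) + 1) := ⟨_, rfl⟩
  rw [← hE] at hC1 hC2
  obtain ⟨u, b, y, hd, -, hle, heq, hbd⟩ := simple_real T hT c E hc (by rw [hE]; exact Nat.le_add_right _ _) hC1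
  have hY0 : ∀ v j, 0 ≤ y (ψ v) j + 2 ^ (716 * E) := by
    intro v j
    have h1 := (abs_le.1 (hbd (ψ v) j)).1
    linarith
  -- the exposed sets
  have hexy : ∀ S : Set (Fin n), S.Nonempty → (Expo (fun v j => x v j) S ↔
      Expo (fun v j => (((y (ψ v) j + 2 ^ (716 * E)).toNat : ℕ) : ℝ)) S) := by
    intro S hS
    have e1 : (fun v j => (((y (ψ v) j + 2 ^ (716 * E)).toNat : ℕ) : ℝ)) =
        fun (v : Fin n) (j : Fin 3) => (fun v j => (y (ψ.symm.symm v) j : ℝ)) v j - (fun _ => -(2 : ℝ) ^ (716 * E)) j := by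
      funext v j
      have h1 : (((y (ψ v) j + 2 ^ (716 * E)).toNat : ℕ) : ℝ) = (((y (ψ v) j + 2 ^ (716 * E)).toNat : ℤ) : ℝ) := by
        rw [Int.cast_natCast]
      rw [h1, Int.toNat_of_nonneg (hY0 v j)]
      simp only [Equiv.symm_symm, sub_neg_eq_add]
      push_cast
      rfl
    rw [e1, expo_translate (fun v j => (y (ψ.symm.symm v) j : ℝ)) (fun _ => -(2 : ℝ) ^ (716 * E)),
      main_reindex ψ.symm (fun g j => (y g j : ℝ)) S]
    have hS' : (ψ.symm ⁻¹' S).Nonempty := by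
      obtain ⟨v, hv⟩ := hS
      exact ⟨ψ v, by rwa [Set.mem_preimage, Equiv.symm_apply_apply]⟩
    rw [int_expo (sfv T) hSurf.nbr u b y hd hle heq _ hS',
      ← expo_translate (fun v j => x v j) c0, polar_expo hp S hS]
    constructor
    · rintro ⟨J, hJ⟩
      refine ⟨φ.symm '' J, ?_⟩
      ext g
      rw [Set.mem_preimage, hJ]
      constructor
      · rintro h1 _ ⟨w, hw, rfl⟩
        have h2 := (hψ' _ _).1 (h1 w hw)
        rwa [Equiv.apply_symm_apply] at h2
      · intro h1 w hw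
        have h2 := h1 _ ⟨w, hw, rfl⟩
        refine (hψ' _ _).2 ?_
        rwa [Equiv.apply_symm_apply]
    · rintro ⟨J, hJ⟩
      refine ⟨φ '' J, ?_⟩
      ext v
      have h0 : v ∈ S ↔ ψ v ∈ ψ.symm ⁻¹' S := by
        rw [Set.mem_preimage, Equiv.symm_apply_apply]
      rw [h0, hJ]
      constructor
      · rintro h1 _ ⟨w, hw, rfl⟩
        refine (hψ' _ _).2 ?_
        rw [Equiv.symm_apply_apply]
        exact h1 w hw
      · intro h1 w hw
        have h2 := (hψ' _ _).1 (h1 _ ⟨w, hw, rfl⟩)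
        rwa [Equiv.symm_apply_apply] at h2
  have hexy' : ∀ S : Set (Fin n), (Expo (fun v j => x v j) S ↔
      Expo (fun v j => (((y (ψ v) j + 2 ^ (716 * E)).toNat : ℕ) : ℝ)) S) := by
    intro S
    rcases S.eq_empty_or_nonempty with rfl | hS
    · exact ⟨fun _ => expo_empty _, fun _ => expo_empty _⟩
    · exact hexy S hS
  refine ⟨fun v => WithLp.toLp 2 (fun j => (((y (ψ v) j + 2 ^ (716 * E)).toNat : ℕ) : ℝ)), ?_, ?_, ?_⟩
  · refine polytope_of_simpleP _ ?_
    refine ⟨?_, ?_, ?_⟩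
    · intro v
      exact (hexy' {v}).1 (hs.vert v)
    · intro f d hfd
      refine int_full (sfv T) hSurf.nbr u b y hd hle heq f (d - ∑ j, f j * 2 ^ (716 * E)) ?_
      intro g
      have h1 := hfd (ψ.symm g)
      have h2 : ∀ j, (((y (ψ (ψ.symm g)) j + 2 ^ (716 * E)).toNat : ℕ) : ℝ) = (y g j : ℝ) + 2 ^ (716 * E) := by
        intro j
        have h4 : (((y (ψ (ψ.symm g)) j + 2 ^ (716 * E)).toNat : ℕ) : ℝ) =
            (((y (ψ (ψ.symm g)) j + 2 ^ (716 * E)).toNat : ℤ) : ℝ) := by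
          rw [Int.cast_natCast]
        rw [h4, Int.toNat_of_nonneg (hY0 _ j), Equiv.apply_symm_apply]
        push_cast
        rfl
      have h5 : ∑ j, f j * ((y g j : ℝ) + 2 ^ (716 * E)) = d := by
        rw [← h1]
        refine Finset.sum_congr rfl fun j _ => ?_
        rw [← h2 j]
      rw [← h5, ← Finset.sum_sub_distrib]
      refine Finset.sum_congr rfl fun j _ => ?_
      ring
    · intro v
      refine Eq.trans ?_ (hs.three v)
      congr 1
      ext S
      exact and_congr_left fun _ => (fset_congr hexy' S).symm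
  · exact sameType_of_expo _ _ hexy
  · intro i j
    refine ⟨(y (ψ i) j + 2 ^ (716 * E)).toNat, rfl, le_trans ?_ hC2⟩
    have h1 := (abs_le.1 (hbd (ψ i) j)).2
    rw [Int.toNat_le]
    push_cast
    linarith

end MP0e5907
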