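import Pool.Agent.Lib_MP_0e5907.SStep

/-!
# Piece SNINV: the normal vectors are chosen one after the other

Paper proof. Write `U w i = b w i + Q * τ w i`. If no `w` has `ord w = n`, the predicates `ord w < n` and `ord w < n + 1` agree and the old `τ` works. Otherwise let `w0` be the element with `ord w0 = n` (unique: `hord`). Apply `step_vec` with `ι = {w // ord w < n}` (`card ι ≤ card W`), `v w = U w` (bounded by `A`: `|b w i + Q τ w i| ≤ |b w i| + Q R`),
`nz, hW, hdet` from `NInv.nz, w2, det`, `J` = the elements adjacent to `w0` (at most 5: `hJ w0`, the set `{w | Adj fv w w0 ∧ ord w < n}` as a finset of the subtype), `hvp` from `NInv.vp`, `κ = G`, `P` = the `g` with `Asg fv ord w0 g` (at most 5, `hP w0`). For such `g` choose `k` with `fv g k = w0`; `s1 g = fv g (k+1)`, `s2 g = fv g (k+2)`: they are `≠ w0` by `Surf.inj`, so of smaller order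
(`Asg`), so `< n`. (For `g ∉ P` the values of `s1, s2` do not matter, but `ι` may be empty: if `P` is empty use `κ = Empty`, or let `κ = {g // Asg fv ord w0 g}`, which is simplest: `P = univ`.) `hs`: `Surf.inj`. `hss`: if `{s1 g, s2 g} = {s1 g', s2 g'}` then all `fv g j` are incident with `g'`, so `g = g'` by `Surf.set`. `hcp`: `s1 g`, `s2 g` are adjacent (both in `g`), `NInv.cross`.
`b := b w0`. This gives `τ0, u`. The new `τ` is `Function.update τ w0 τ0`. The new family `U'` has `U' w0 = u`, `U' w = U w` otherwise. Check `NInv` for `ord w < n + 1`, i.e. `ord w < n` or `w = w0`: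
`nz`: clear. `w2`: for `w0, w`: `u 0 * v 1 - u 1 * v 0 ≠ 0`; for `w, w0` the negative. `det`: `idet` changes sign when two arguments are exchanged (`ring`), so any triple containing `w0` reduces to `idet u (v j) (v k) ≠ 0`. `vp`: clear. `cross`: for `w0, w`: clear; for `w, w0`: `icross` is antisymmetric (`Adj` is symmetric).
`gp`: for `w` with `ord w < n`: all `fv g k` have order `≤ ord w < n`, so `gdet` is unchanged. For `w0`: `gdet fv U' g = idet u (v (s1 g)) (v (s2 g))` because `idet` is invariant under cyclic permutations (`fin_cases k`), and the last property of `step_vec`.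
-/

namespace MP0e5907

open Finset

theorem snv_det_cyc {W G : Type} (fv : G → Fin 3 → W) (U : W → Fin 3 → ℤ) (g : G) (k : Fin 3) :
    gdet fv U g = idet (U (fv g k)) (U (fv g (k + 1))) (U (fv g (k + 2))) := by
  have h10 : (2 : Fin 3) + 1 = 0 := by decide
  have h11 : (1 : Fin 3) + 1 = 2 := by decide
  have h12 : (1 : Fin 3) + 2 = 0 := by decide
  have h22 : (2 : Fin 3) + 2 = 1 := by decide
  have h01 : (0 : Fin 3) + 1 = 1 := by decide
  have h02 : (0 : Fin 3) + 2 = 2 := by decide
  have hk : k = 0 ∨ k = 1 ∨ k = 2 := by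
    revert k; decide
  rcases hk with rfl | rfl | rfl
  · rw [h01, h02]; rfl
  · rw [h11, h12]; unfold gdet idet; ring
  · rw [h10, h22]; unfold gdet idet; ring

theorem snv_cross_anti (a b : Fin 3 → ℤ) (i : Fin 3) : icross a b i = - icross b a i := by
  have hk : i = 0 ∨ i = 1 ∨ i = 2 := by
    revert i; decide
  rcases hk with rfl | rfl | rfl
  · change a 1 * b 2 - a 2 * b 1 = -(b 1 * a 2 - b 2 * a 1); ring
  · change a 2 * b 0 - a 0 * b 2 = -(b 2 * a 0 - b 0 * a 2); ring
  · change a 0 * b 1 - a 1 * b 0 = -(b 0 * a 1 - b 1 * a 0); ring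

theorem snv_adj_symm {W G : Type} {fv : G → Fin 3 → W} {u w : W} (h : Adj fv u w) : Adj fv w u := by
  obtain ⟨h1, g, h2, h3⟩ := h
  exact ⟨Ne.symm h1, g, h3, h2⟩

theorem ninv_step {W G : Type} [Fintype W] [Fintype G] (fv : G → Fin 3 → W) (hS : Surf fv) (ord : W → ℕ)
    (hord : Function.Injective ord) (hJ : ∀ u, Set.ncard {w | Adj fv w u ∧ ord w < ord u} ≤ 5)
    (hP : ∀ u, Set.ncard {g | Asg fv ord u g} ≤ 5) (c E R Q : ℕ) (A : ℤ) (hc : 7104 ≤ c) (hE : 2 ^ c ≤ E)
    (hR : 4 * E ≤ R) (hR2 : 4 * (Fintype.card W + 6) ^ 2 ≤ R) (hQ : 1 ≤ Q)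
    (hQp : ∀ p : ℕ, p.Prime → E < p → ¬ p ∣ Q) (hA1 : 1 ≤ A) (hA : 16 * A ^ 5 < 2 ^ (111 * E))
    (b : W → Fin 3 → ℤ) (hb : ∀ w i, |b w i| + Q * R ≤ A) (n : ℕ)
    (h : ∃ τ : W → Fin 3 → ℕ, (∀ w i, τ w i < R) ∧
      NInv fv ord E (fun w => ord w < n) (fun w i => b w i + Q * τ w i)) :
    ∃ τ : W → Fin 3 → ℕ, (∀ w i, τ w i < R) ∧
      NInv fv ord E (fun w => ord w < n + 1) (fun w i => b w i + Q * τ w i) := by
  classical
  obtain ⟨τ, hτ, hI⟩ := h
  by_cases hn : ∃ w, ord w = n
  swap
  · refine ⟨τ, hτ, ?_⟩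
    have e : (fun w => ord w < n + 1) = (fun w => ord w < n) := by
      funext w
      apply propext
      constructor
      · intro h1
        rcases Nat.lt_succ_iff_lt_or_eq.1 h1 with h2 | h2
        · exact h2
        · exact absurd ⟨w, h2⟩ hn
      · intro h1; exact Nat.lt_succ_of_lt h1
    rw [e]
    exact hI
  obtain ⟨w0, hw0⟩ := hn
  obtain ⟨U, hU⟩ : ∃ U : W → Fin 3 → ℤ, U = fun w i => b w i + (Q : ℤ) * (τ w i : ℤ) := ⟨_, rfl⟩
  rw [← hU] at hI
  have hcard : Fintype.card {w : W // ord w < n} ≤ Fintype.card W := Fintype.card_subtype_le _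
  have hR2' : 4 * (Fintype.card {w : W // ord w < n} + 6) ^ 2 ≤ R := by
    refine le_trans ?_ hR2
    exact Nat.mul_le_mul_left 4 (Nat.pow_le_pow_left (Nat.add_le_add_right hcard 6) 2)
  have hv : ∀ (j : {w : W // ord w < n}) (i : Fin 3), |U j.1 i| ≤ A := by
    intro j i
    rw [hU]
    have h1 := hb j.1 i
    have h2 : ((τ j.1 i : ℕ) : ℤ) ≤ R := by exact_mod_cast (hτ j.1 i).le
    have h3 : (0 : ℤ) ≤ (Q : ℤ) * (τ j.1 i : ℤ) := by positivity
    have h4 : (Q : ℤ) * (τ j.1 i : ℤ) ≤ (Q : ℤ) * R :=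
      mul_le_mul_of_nonneg_left h2 (by positivity)
    calc |b j.1 i + (Q : ℤ) * (τ j.1 i : ℤ)| ≤ |b j.1 i| + |(Q : ℤ) * (τ j.1 i : ℤ)| := abs_add_le _ _
      _ = |b j.1 i| + (Q : ℤ) * (τ j.1 i : ℤ) := by rw [abs_of_nonneg h3]
      _ ≤ |b j.1 i| + (Q : ℤ) * R := by linarith
      _ ≤ A := h1
  -- the neighbours
  obtain ⟨J, hJdef⟩ : ∃ J : Finset {w : W // ord w < n},
      J = Finset.univ.filter (fun w => Adj fv w.1 w0) := ⟨_, rfl⟩
  have hJmem : ∀ w, w ∈ J ↔ Adj fv w.1 w0 := by
    intro w; rw [hJdef]; simp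
  have hJc : J.card ≤ 5 := by
    refine le_trans ?_ (hJ w0)
    rw [← Finset.card_map (⟨Subtype.val, Subtype.val_injective⟩ : {w : W // ord w < n} ↪ W),
      ← Set.ncard_coe_finset]
    apply Set.ncard_le_ncard _ (Set.toFinite _)
    intro w hw
    rw [Finset.mem_coe, Finset.mem_map] at hw
    obtain ⟨w', hw', rfl⟩ := hw
    refine ⟨(hJmem w').1 hw', ?_⟩
    rw [hw0]
    exact w'.2
  -- the assigned faces
  have hkk : ∀ g : {g : G // Asg fv ord w0 g}, ∃ k, fv g.1 k = w0 := fun g => g.2.1
  choose kk hkk using hkk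
  have hlt : ∀ (g : {g : G // Asg fv ord w0 g}) (j : Fin 3), j ≠ kk g → ord (fv g.1 j) < n := by
    intro g j hj
    rw [← hw0]
    apply g.2.2
    intro he
    exact hj (hS.inj g.1 (he.trans (hkk g).symm))
  have hn1 : ∀ k : Fin 3, k + 1 ≠ k := by decide
  have hn2 : ∀ k : Fin 3, k + 2 ≠ k := by decide
  have hn12 : ∀ k : Fin 3, k + 1 ≠ k + 2 := by decide
  have hall : ∀ k j : Fin 3, j = k ∨ j = k + 1 ∨ j = k + 2 := by decide
  have hPc : (Finset.univ : Finset {g : G // Asg fv ord w0 g}).card ≤ 5 := by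
    refine le_trans (le_of_eq ?_) (hP w0)
    rw [Finset.card_univ, ← Nat.card_eq_fintype_card]
    exact Nat.card_coe_set_eq {g | Asg fv ord w0 g}
  obtain ⟨τ0, u, hτ0, hu, hu0, huW, hudet, huvp, hucross, hugp⟩ :=
    step_vec c E R Q A hc hE hR hR2' hQ hQp hA1 hA (fun j : {w : W // ord w < n} => U j.1) hv
      (fun j => hI.nz j.1 j.2)
      (fun j k hjk => hI.w2 j.1 k.1 j.2 k.2 (fun he => hjk (Subtype.ext he)))
      (fun j k l hjk hjl hkl => hI.det j.1 k.1 l.1 j.2 k.2 l.2 (fun he => hjk (Subtype.ext he))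
        (fun he => hjl (Subtype.ext he)) (fun he => hkl (Subtype.ext he)))
      J hJc (fun j _ => hI.vp j.1 j.2)
      (Finset.univ : Finset {g : G // Asg fv ord w0 g}) hPc
      (fun g => ⟨fv g.1 (kk g + 1), hlt g _ (hn1 _)⟩) (fun g => ⟨fv g.1 (kk g + 2), hlt g _ (hn2 _)⟩)
      (by
        intro g _ he
        exact hn12 (kk g) (hS.inj g.1 (congrArg Subtype.val he)))
      (by
        intro g _ g' _ hgg
        have hne : g.1 ≠ g'.1 := fun he => hgg (Subtype.ext he)
        constructor
        · rintro ⟨h1, h2⟩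
          have h1' : fv g.1 (kk g + 1) = fv g'.1 (kk g' + 1) := congrArg Subtype.val h1
          have h2' : fv g.1 (kk g + 2) = fv g'.1 (kk g' + 2) := congrArg Subtype.val h2
          apply hne
          apply hS.set
          intro j
          rcases hall (kk g) j with hj | hj | hj
          · rw [hj]; exact ⟨kk g', (hkk g').trans (hkk g).symm⟩
          · rw [hj]; exact ⟨_, h1'.symm⟩
          · rw [hj]; exact ⟨_, h2'.symm⟩
        · rintro ⟨h1, h2⟩
          have h1' : fv g.1 (kk g + 1) = fv g'.1 (kk g' + 2) := congrArg Subtype.val h1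
          have h2' : fv g.1 (kk g + 2) = fv g'.1 (kk g' + 1) := congrArg Subtype.val h2
          apply hne
          apply hS.set
          intro j
          rcases hall (kk g) j with hj | hj | hj
          · rw [hj]; exact ⟨kk g', (hkk g').trans (hkk g).symm⟩
          · rw [hj]; exact ⟨_, h1'.symm⟩
          · rw [hj]; exact ⟨_, h2'.symm⟩)
      (by
        intro g _ p hp hpE
        apply hI.cross _ _ (hlt g _ (hn1 _)) (hlt g _ (hn2 _)) _ p hp hpE
        exact ⟨fun he => hn12 (kk g) (hS.inj g.1 he), g.1, ⟨_, rfl⟩, ⟨_, rfl⟩⟩)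
      (b w0) (hb w0)
  have key : ∀ V : W → Fin 3 → ℤ, V w0 = u → (∀ w, w ≠ w0 → V w = U w) →
      NInv fv ord E (fun w => ord w < n + 1) V := by
    intro V hV0 hV
    have hD : ∀ w, ord w < n + 1 → w = w0 ∨ (w ≠ w0 ∧ ord w < n) := by
      intro w hw
      by_cases hww : w = w0
      · exact Or.inl hww
      · right
        refine ⟨hww, ?_⟩
        rcases Nat.lt_succ_iff_lt_or_eq.1 hw with h2 | h2
        · exact h2
        · exact absurd (hord (h2.trans hw0.symm)) hww
    constructor
    · intro w hw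
      rcases hD w hw with h1 | ⟨h1, h2⟩
      · rw [h1, hV0]; exact hu0
      · rw [hV w h1]; exact hI.nz w h2
    · intro w w' hw hw' hne
      rcases hD w hw with h1 | ⟨h1, h2⟩
      · rcases hD w' hw' with h1' | ⟨h1', h2'⟩
        · exact absurd (h1.trans h1'.symm) hne
        · rw [h1, hV0, hV w' h1']
          exact huW ⟨w', h2'⟩
      · rcases hD w' hw' with h1' | ⟨h1', h2'⟩
        · rw [h1', hV0, hV w h1]
          intro h0
          apply huW ⟨w, h2⟩
          change u 0 * U w 1 - u 1 * U w 0 = 0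
          linear_combination -h0
        · rw [hV w h1, hV w' h1']
          exact hI.w2 w w' h2 h2' hne
    · intro w w' w'' hw hw' hw'' hne1 hne2 hne3
      rcases hD w hw with h1 | ⟨h1, h2⟩
      · rcases hD w' hw' with h1' | ⟨h1', h2'⟩
        · exact absurd (h1.trans h1'.symm) hne1
        · rcases hD w'' hw'' with h1'' | ⟨h1'', h2''⟩
          · exact absurd (h1.trans h1''.symm) hne2
          · rw [h1, hV0, hV w' h1', hV w'' h1'']
            exact hudet ⟨w', h2'⟩ ⟨w'', h2''⟩ (fun he => hne3 (congrArg Subtype.val he))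
      · rcases hD w' hw' with h1' | ⟨h1', h2'⟩
        · rcases hD w'' hw'' with h1'' | ⟨h1'', h2''⟩
          · exact absurd (h1'.trans h1''.symm) hne3
          · rw [h1', hV0, hV w h1, hV w'' h1'']
            intro h0
            apply hudet ⟨w, h2⟩ ⟨w'', h2''⟩ (fun he => hne2 (congrArg Subtype.val he))
            change idet u (U w) (U w'') = 0
            unfold idet at h0 ⊢
            linear_combination -h0
        · rcases hD w'' hw'' with h1'' | ⟨h1'', h2''⟩
          · rw [h1'', hV0, hV w h1, hV w' h1']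
            intro h0
            apply hudet ⟨w, h2⟩ ⟨w', h2'⟩ (fun he => hne1 (congrArg Subtype.val he))
            change idet u (U w) (U w') = 0
            unfold idet at h0 ⊢
            linear_combination h0
          · rw [hV w h1, hV w' h1', hV w'' h1'']
            exact hI.det w w' w'' h2 h2' h2'' hne1 hne2 hne3
    · intro w hw p hp hpE
      rcases hD w hw with h1 | ⟨h1, h2⟩
      · rw [h1, hV0]; exact huvp p hp hpE
      · rw [hV w h1]; exact hI.vp w h2 p hp hpE
    · intro w w' hw hw' hadj p hp hpE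
      rcases hD w hw with h1 | ⟨h1, h2⟩
      · rcases hD w' hw' with h1' | ⟨h1', h2'⟩
        · exact absurd (h1.trans h1'.symm) hadj.1
        · rw [h1] at hadj
          rw [h1, hV0, hV w' h1']
          exact hucross ⟨w', h2'⟩ ((hJmem _).2 (snv_adj_symm hadj)) p hp hpE
      · rcases hD w' hw' with h1' | ⟨h1', h2'⟩
        · rw [h1'] at hadj
          rw [h1', hV0, hV w h1]
          obtain ⟨i, hi⟩ := hucross ⟨w, h2⟩ ((hJmem _).2 hadj) p hp hpE
          refine ⟨i, fun hdv => hi ?_⟩
          change (p : ℤ) ∣ icross u (U w) i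
          rw [snv_cross_anti, dvd_neg]
          exact hdv
        · rw [hV w h1, hV w' h1']
          exact hI.cross w w' h2 h2' hadj p hp hpE
    · intro w g g' hw hgg hg hg' p hp hpE
      rcases hD w hw with h1 | ⟨h1, h2⟩
      · rw [h1] at hg hg'
        have hgd : ∀ (f : G) (hf : Asg fv ord w0 f),
            gdet fv V f = idet u (U (fv f (kk ⟨f, hf⟩ + 1))) (U (fv f (kk ⟨f, hf⟩ + 2))) := by
          intro f hf
          rw [snv_det_cyc fv V f (kk ⟨f, hf⟩), hkk ⟨f, hf⟩, hV0]
          have ha : fv f (kk ⟨f, hf⟩ + 1) ≠ w0 := by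
            intro he
            have := hlt ⟨f, hf⟩ _ (hn1 (kk ⟨f, hf⟩))
            rw [he, hw0] at this
            exact lt_irrefl _ this
          have hb' : fv f (kk ⟨f, hf⟩ + 2) ≠ w0 := by
            intro he
            have := hlt ⟨f, hf⟩ _ (hn2 (kk ⟨f, hf⟩))
            rw [he, hw0] at this
            exact lt_irrefl _ this
          rw [hV _ ha, hV _ hb']
        rw [hgd g hg, hgd g' hg']
        exact hugp ⟨g, hg⟩ (Finset.mem_univ _) ⟨g', hg'⟩ (Finset.mem_univ _)
          (fun he => hgg (congrArg Subtype.val he)) p hp hpE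
      · have hgd : ∀ f : G, Asg fv ord w f → gdet fv V f = gdet fv U f := by
          intro f hf
          have hne : ∀ k, fv f k ≠ w0 := by
            intro k
            by_cases hk : fv f k = w
            · rw [hk]; exact h1
            · intro he
              have := hf.2 k hk
              rw [he, hw0] at this
              omega
          unfold gdet
          rw [hV _ (hne 0), hV _ (hne 1), hV _ (hne 2)]
        rw [hgd g hg, hgd g' hg']
        exact hI.gp w g g' h2 hgg hg hg' p hp hpE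
  refine ⟨Function.update τ w0 τ0, ?_, key _ ?_ ?_⟩
  · intro w i
    by_cases hww : w = w0
    · rw [hww, Function.update_self]; exact hτ0 i
    · rw [Function.update_of_ne hww]; exact hτ w i
  · funext i
    rw [Function.update_self, hu i]
  · intro w hww
    funext i
    rw [Function.update_of_ne hww, hU]

theorem ninv_all {W G : Type} [Fintype W] [Fintype G] (fv : G → Fin 3 → W) (hS : Surf fv) (ord : W → ℕ)
    (hord : Function.Injective ord) (hJ : ∀ u, Set.ncard {w | Adj fv w u ∧ ord w < ord u} ≤ 5)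
    (hP : ∀ u, Set.ncard {g | Asg fv ord u g} ≤ 5) (c E R Q : ℕ) (A : ℤ) (hc : 7104 ≤ c) (hE : 2 ^ c ≤ E)
    (hR : 4 * E ≤ R) (hR2 : 4 * (Fintype.card W + 6) ^ 2 ≤ R) (hQ : 1 ≤ Q)
    (hQp : ∀ p : ℕ, p.Prime → E < p → ¬ p ∣ Q) (hA1 : 1 ≤ A) (hA : 16 * A ^ 5 < 2 ^ (111 * E))
    (b : W → Fin 3 → ℤ) (hb : ∀ w i, |b w i| + Q * R ≤ A) :
    ∃ τ : W → Fin 3 → ℕ, (∀ w i, τ w i < R) ∧
      NInv fv ord E (fun _ => True) (fun w i => b w i + Q * τ w i) := by
  have hR0 : 0 < R := by
    by_contra hcon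
    have : R = 0 := by omega
    rw [this] at hR2
    have h1 : 0 < 4 * (Fintype.card W + 6) ^ 2 := by positivity
    omega
  have h1 : ∀ n : ℕ, ∃ τ : W → Fin 3 → ℕ, (∀ w i, τ w i < R) ∧
      NInv fv ord E (fun w => ord w < n) (fun w i => b w i + Q * τ w i) := by
    intro n
    induction n with
    | zero =>
      refine ⟨fun _ _ => 0, fun _ _ => hR0, ?_⟩
      constructor
      · intro w hw
        exact absurd hw (Nat.not_lt_zero _)
      · intro w w' hw
        exact absurd hw (Nat.not_lt_zero _)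
      · intro w w' w'' hw
        exact absurd hw (Nat.not_lt_zero _)
      · intro w hw
        exact absurd hw (Nat.not_lt_zero _)
      · intro w w' hw
        exact absurd hw (Nat.not_lt_zero _)
      · intro w g g' hw
        exact absurd hw (Nat.not_lt_zero _)
    | succ n ih =>
      exact ninv_step fv hS ord hord hJ hP c E R Q A hc hE hR hR2 hQ hQp hA1 hA b hb n ih
  obtain ⟨τ, hτ, hI⟩ := h1 ((Finset.univ.sup ord) + 1)
  refine ⟨τ, hτ, ?_⟩
  have hall : ∀ w : W, ord w < (Finset.univ.sup ord) + 1 := fun w =>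
    Nat.lt_succ_of_le (Finset.le_sup (f := ord) (Finset.mem_univ w))
  constructor
  · intro w _
    exact hI.nz w (hall w)
  · intro w w' _ _
    exact hI.w2 w w' (hall w) (hall w')
  · intro w w' w'' _ _ _
    exact hI.det w w' w'' (hall w) (hall w') (hall w'')
  · intro w _
    exact hI.vp w (hall w)
  · intro w w' _ _
    exact hI.cross w w' (hall w) (hall w')
  · intro w g g' _
    exact hI.gp w g g' (hall w)

end MP0e5907
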