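import Pool.Agent.Lib_MP_0e5907.SNInv

/-!
# Piece SNORM: small perturbations of the normals with good arithmetic properties

Paper proof. `K = 2 ^ (20 E)`, `R = 2 ^ (4 E)`, `Q` = product of all primes `p` with `7 ≤ p ≤ E`; `1 ≤ Q ≤ primorial E ≤ 4 ^ E = 2 ^ (2 E)` (`primorial_le_4_pow`), no prime `> E` divides `Q`, all primes in `[7,E]` divide `Q`. Let `t w = (col w : ℤ) ∈ {0,..,5}`, `b w i = K * a w i + (t w ^ i - K * a w i) % Q` (so `Q ∣ b w i - t w ^ i`, `0 ≤ b w i - K a w i < Q`).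
`A = 2 ^ (22 E)`: `|b w i| + Q R ≤ 2^(20 E) 2^E + 2^(2E) + 2^(6E) ≤ A`, `16 A^5 = 2^(110 E + 4) < 2^(111 E)` (`E ≥ 2^c > 5`), `4 E ≤ 2^(4E)`, `4 (card W + 6)^2 ≤ 4 (2^E + 6)^2 ≤ 2^(4E)`. `ninv_all` gives `τ`. Put `δ w i = b w i - K a w i + Q τ w i`: `0 ≤ δ w i ≤ (Q - 1) + Q (R - 1) ≤ Q R ≤ 2^(6E)`, and `uvec K a δ w i = b w i + Q τ w i =: u w i`.
`p ≥ 7` prime. If `p > E` both claims are in `NInv` (`cross`, `gp`). If `p ≤ E`: `p ∣ Q`, so `u w i ≡ t w ^ i` modulo `p` (`t^0 = 1`). First claim: `icross (u w) (u w') 2 = u w 0 * u w' 1 - u w 1 * u w' 0 ≡ t w' - t w`, which is a nonzero integer of absolute value `≤ 5 < p` (`hcol`). Second claim: even a single `gdet` is not divisible by `p`: `gdet ≡ idet (1,t0,t0^2) (1,t1,t1^2) (1,t2,t2^2) = (t1-t0)(t2-t0)(t2-t1)`, `t_k = t (fv g k)`,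
and the three vertices of `g` are pairwise adjacent (`Surf.inj`), so all three factors are nonzero of absolute value `≤ 5 < p` (`Prime.dvd_mul`). (NEVER let Lean evaluate `2^7104`: keep `c` a variable; from `hc, hE` get `100 ≤ E` by `Nat.lt_two_pow_self`.)
-/

namespace MP0e5907

open Finset

/-- two colours that agree modulo a prime at least 7 are equal -/
private theorem col_eq (x y : Fin 6) (p : ℕ) (hp : 7 ≤ p) (h : (p : ℤ) ∣ ((x : ℕ) : ℤ) - ((y : ℕ) : ℤ)) :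
    x = y := by
  have h1 : ((x : ℕ) : ℤ) - ((y : ℕ) : ℤ) = 0 := by
    refine Int.eq_zero_of_abs_lt_dvd h ?_
    have hx := x.2
    have hy := y.2
    rw [abs_lt]
    omega
  apply Fin.ext
  omega

private theorem mod_cast_eq (p : ℕ) (x y : ℤ) (h : (p : ℤ) ∣ x - y) : (x : ZMod p) = (y : ZMod p) := by
  have h1 : ((x - y : ℤ) : ZMod p) = 0 := (ZMod.intCast_zmod_eq_zero_iff_dvd _ p).2 h
  push_cast at h1
  exact sub_eq_zero.1 h1

private theorem exists_Q (E : ℕ) : ∃ Q : ℕ, 1 ≤ Q ∧ Q ≤ 2 ^ (2 * E) ∧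
    (∀ p : ℕ, p.Prime → E < p → ¬ p ∣ Q) ∧ (∀ p : ℕ, p.Prime → 7 ≤ p → p ≤ E → p ∣ Q) := by
  refine ⟨∏ p ∈ (Finset.range (E + 1)).filter (fun p => p.Prime ∧ 7 ≤ p), p, ?_, ?_, ?_, ?_⟩
  · refine Nat.one_le_iff_ne_zero.2 (Finset.prod_ne_zero_iff.2 fun p hp => ?_)
    rw [Finset.mem_filter] at hp
    omega
  · have h1 : (∏ p ∈ (Finset.range (E + 1)).filter (fun p => p.Prime ∧ 7 ≤ p), p) ∣ primorial E := by
      unfold primorial
      apply Finset.prod_dvd_prod_of_subset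
      intro p hp
      rw [Finset.mem_filter] at hp ⊢
      exact ⟨hp.1, hp.2.1⟩
    have h2 := Nat.le_of_dvd (primorial_pos E) h1
    have h3 := primorial_le_four_pow E
    calc _ ≤ primorial E := h2
      _ ≤ 4 ^ E := h3
      _ = 2 ^ (2 * E) := by rw [pow_mul]; norm_num
  · intro p hp hEp hd
    rw [hp.prime.dvd_finsetProd_iff] at hd
    obtain ⟨q, hq, hpq⟩ := hd
    rw [Finset.mem_filter, Finset.mem_range] at hq
    have h1 := (Nat.prime_dvd_prime_iff_eq hp hq.2.1).1 hpq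
    omega
  · intro p hp h7 hpE
    apply Finset.dvd_prod_of_mem
    rw [Finset.mem_filter, Finset.mem_range]
    exact ⟨by omega, hp, h7⟩

theorem normals_exist {W G : Type} [Fintype W] [Fintype G] (fv : G → Fin 3 → W) (hS : Surf fv) (ord : W → ℕ)
    (hord : Function.Injective ord) (col : W → Fin 6) (hcol : ∀ u w, Adj fv u w → col u ≠ col w)
    (hJ : ∀ u, Set.ncard {w | Adj fv w u ∧ ord w < ord u} ≤ 5)
    (hP : ∀ u, Set.ncard {g | Asg fv ord u g} ≤ 5) (c E : ℕ) (hc : 7104 ≤ c) (hE : 2 ^ c ≤ E)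
    (hm : Fintype.card W ≤ 2 ^ E) (a : W → Fin 3 → ℤ) (ha : ∀ w i, |a w i| ≤ 2 ^ E) :
    ∃ δ : W → Fin 3 → ℤ, (∀ w i, 0 ≤ δ w i ∧ δ w i ≤ 2 ^ (6 * E)) ∧
      (∀ u w, Adj fv u w → ∀ p : ℕ, p.Prime → 7 ≤ p →
        ∃ i, ¬ (p : ℤ) ∣ icross (uvec (2 ^ (20 * E)) a δ u) (uvec (2 ^ (20 * E)) a δ w) i) ∧
      (∀ u g g', g ≠ g' → Asg fv ord u g → Asg fv ord u g' → ∀ p : ℕ, p.Prime → 7 ≤ p →
        ¬ ((p : ℤ) ∣ gdet fv (uvec (2 ^ (20 * E)) a δ) g ∧ (p : ℤ) ∣ gdet fv (uvec (2 ^ (20 * E)) a δ) g')) := by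
  have hE5 : 100 ≤ E := by
    have h1 : c < 2 ^ c := Nat.lt_two_pow_self
    omega
  obtain ⟨Q, hQ1, hQ2, hQp, hQd⟩ := exists_Q E
  have hQ1' : (1 : ℤ) ≤ Q := by exact_mod_cast hQ1
  have hQ2' : (Q : ℤ) ≤ 2 ^ (2 * E) := by exact_mod_cast hQ2
  have hQ0 : (0 : ℤ) < Q := by linarith
  set K : ℤ := 2 ^ (20 * E) with hK
  have hK0 : 0 < K := by positivity
  set t : W → ℤ := fun w => ((col w : ℕ) : ℤ) with ht
  set b : W → Fin 3 → ℤ := fun w i => K * a w i + (t w ^ (i : ℕ) - K * a w i) % Q with hb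
  have hr0 : ∀ w i, 0 ≤ b w i - K * a w i := by
    intro w i
    have := Int.emod_nonneg (t w ^ (i : ℕ) - K * a w i) hQ0.ne'
    simp only [hb]
    linarith
  have hr1 : ∀ w i, b w i - K * a w i < Q := by
    intro w i
    have := Int.emod_lt_of_pos (t w ^ (i : ℕ) - K * a w i) hQ0
    simp only [hb]
    linarith
  have hbt : ∀ w i, (Q : ℤ) ∣ b w i - t w ^ (i : ℕ) := by
    intro w i
    have h1 := Int.emod_add_mul_ediv (t w ^ (i : ℕ) - K * a w i) Q
    refine ⟨-((t w ^ (i : ℕ) - K * a w i) / Q), ?_⟩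
    simp only [hb]
    linarith
  have h2E : (1 : ℤ) ≤ 2 ^ E := one_le_pow₀ (by norm_num)
  have h4 : (4 : ℤ) ≤ 2 ^ E := by
    calc (4 : ℤ) = 2 ^ 2 := by norm_num
      _ ≤ 2 ^ E := pow_le_pow_right₀ (by norm_num) (by omega)
  have hmono : ∀ m n : ℕ, m ≤ n → (2 : ℤ) ^ m ≤ 2 ^ n := fun m n h => pow_le_pow_right₀ (by norm_num) h
  have hQR : (Q : ℤ) * ((2 ^ (4 * E) : ℕ) : ℤ) ≤ 2 ^ (6 * E) := by
    push_cast
    calc (Q : ℤ) * 2 ^ (4 * E) ≤ 2 ^ (2 * E) * 2 ^ (4 * E) := by gcongr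
      _ = 2 ^ (6 * E) := by rw [← pow_add]; congr 1; ring
  have hA : ∀ w i, |b w i| + Q * ((2 ^ (4 * E) : ℕ) : ℤ) ≤ 2 ^ (22 * E) := by
    intro w i
    have h1 : |b w i| ≤ |K * a w i| + |b w i - K * a w i| := by
      have := abs_add_le (K * a w i) (b w i - K * a w i)
      rwa [add_sub_cancel] at this
    have h2 : |K * a w i| ≤ 2 ^ (21 * E) := by
      rw [abs_mul, abs_of_pos hK0]
      calc K * |a w i| ≤ K * 2 ^ E := by
            gcongr
            exact ha w i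
        _ = 2 ^ (21 * E) := by rw [hK, ← pow_add]; congr 1; ring
    have h3 : |b w i - K * a w i| ≤ 2 ^ (2 * E) := by
      rw [abs_of_nonneg (hr0 w i)]
      exact (hr1 w i).le.trans hQ2'
    have h5 : (2 : ℤ) ^ (22 * E) = 2 ^ (21 * E) * 2 ^ E := by rw [← pow_add]; congr 1; ring
    have h6 := hmono (2 * E) (21 * E) (by omega)
    have h7 := hmono (6 * E) (21 * E) (by omega)
    have h8 : (0 : ℤ) < 2 ^ (21 * E) := by positivity
    nlinarith
  obtain ⟨τ, hτ, hI⟩ := ninv_all fv hS ord hord hJ hP c E (2 ^ (4 * E)) Q (2 ^ (22 * E)) hc hE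
    (by
      have h1 : E < 2 ^ E := Nat.lt_two_pow_self
      calc 4 * E ≤ 2 ^ 2 * 2 ^ E := by omega
        _ = 2 ^ (2 + E) := by rw [pow_add]
        _ ≤ 2 ^ (4 * E) := Nat.pow_le_pow_right (by norm_num) (by omega))
    (by
      have h1 : 6 ≤ 2 ^ E := by
        calc 6 ≤ 2 ^ 3 := by norm_num
          _ ≤ 2 ^ E := Nat.pow_le_pow_right (by norm_num) (by omega)
      have h2 : Fintype.card W + 6 ≤ 2 ^ (E + 1) := by
        rw [pow_succ]
        omega
      calc 4 * (Fintype.card W + 6) ^ 2 ≤ 2 ^ 2 * (2 ^ (E + 1)) ^ 2 := by gcongr; norm_num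
        _ = 2 ^ (2 * E + 4) := by rw [← pow_mul, ← pow_add]; congr 1; ring
        _ ≤ 2 ^ (4 * E) := Nat.pow_le_pow_right (by norm_num) (by omega))
    hQ1 hQp (one_le_pow₀ (by norm_num))
    (by
      calc 16 * ((2 : ℤ) ^ (22 * E)) ^ 5 = 2 ^ 4 * 2 ^ (110 * E) := by
            rw [← pow_mul, show 22 * E * 5 = 110 * E by ring]
            norm_num
        _ = 2 ^ (110 * E + 4) := by rw [← pow_add]; congr 1; ring
        _ < 2 ^ (111 * E) := pow_lt_pow_right₀ (by norm_num) (by omega))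
    b hA
  set U : W → Fin 3 → ℤ := fun w i => b w i + Q * τ w i with hU
  have huv : uvec K a (fun w i => b w i - K * a w i + Q * τ w i) = U := by
    funext w i
    simp only [uvec, hU]
    ring
  refine ⟨fun w i => b w i - K * a w i + Q * τ w i, fun w i => ?_, ?_, ?_⟩
  · have h1 := hr0 w i
    have h2 := hr1 w i
    have h3 : (τ w i : ℤ) + 1 ≤ ((2 ^ (4 * E) : ℕ) : ℤ) := by exact_mod_cast hτ w i
    have h4' : (0 : ℤ) ≤ τ w i := Int.natCast_nonneg _
    have h5 : (Q : ℤ) * ((τ w i : ℤ) + 1) ≤ Q * ((2 ^ (4 * E) : ℕ) : ℤ) := by gcongr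
    have h6 : 0 ≤ (Q : ℤ) * τ w i := by positivity
    constructor
    · linarith
    · have h7 : (Q : ℤ) * ((τ w i : ℤ) + 1) = Q * τ w i + Q := by ring
      linarith
  · rw [huv]
    intro u w hadj p hp h7
    rcases lt_or_ge E p with hEp | hpE
    · exact hI.cross u w trivial trivial hadj p hp hEp
    · refine ⟨2, fun hd => ?_⟩
      have hpQ : (p : ℤ) ∣ Q := by exact_mod_cast hQd p hp h7 hpE
      have hc1 : ∀ w i, (U w i : ZMod p) = ((t w ^ (i : ℕ) : ℤ) : ZMod p) := by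
        intro w i
        apply mod_cast_eq
        have h1 : U w i - t w ^ (i : ℕ) = (b w i - t w ^ (i : ℕ)) + Q * τ w i := by
          simp only [hU]
          ring
        rw [h1]
        exact dvd_add (hpQ.trans (hbt w i)) (hpQ.mul_right _)
      have h2 : ((icross (U u) (U w) 2 : ℤ) : ZMod p) = 0 := (ZMod.intCast_zmod_eq_zero_iff_dvd _ p).2 hd
      have h3 : icross (U u) (U w) 2 = U u 0 * U w 1 - U u 1 * U w 0 := rfl
      rw [h3] at h2
      push_cast at h2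
      rw [hc1, hc1, hc1, hc1] at h2
      have h4' : (((t w - t u : ℤ)) : ZMod p) = 0 := by
        rw [← h2]
        simp
      have h5 := (ZMod.intCast_zmod_eq_zero_iff_dvd _ p).1 h4'
      exact hcol u w hadj (col_eq _ _ p h7 h5).symm
  · rw [huv]
    intro u g g' hgg hg hg' p hp h7
    rcases lt_or_ge E p with hEp | hpE
    · exact hI.gp u g g' trivial hgg hg hg' p hp hEp
    · rintro ⟨hd, -⟩
      have hpQ : (p : ℤ) ∣ Q := by exact_mod_cast hQd p hp h7 hpE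
      have hc1 : ∀ w i, (U w i : ZMod p) = ((t w ^ (i : ℕ) : ℤ) : ZMod p) := by
        intro w i
        apply mod_cast_eq
        have h1 : U w i - t w ^ (i : ℕ) = (b w i - t w ^ (i : ℕ)) + Q * τ w i := by
          simp only [hU]
          ring
        rw [h1]
        exact dvd_add (hpQ.trans (hbt w i)) (hpQ.mul_right _)
      have hadj : ∀ i j : Fin 3, i ≠ j → col (fv g i) ≠ col (fv g j) := by
        intro i j hij
        apply hcol
        exact ⟨fun h => hij (hS.inj g h), g, ⟨i, rfl⟩, ⟨j, rfl⟩⟩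
      have h2 : ((gdet fv U g : ℤ) : ZMod p) = 0 := (ZMod.intCast_zmod_eq_zero_iff_dvd _ p).2 hd
      unfold gdet idet at h2
      push_cast at h2
      simp only [hc1] at h2
      have h4' : ((((t (fv g 1) - t (fv g 0)) * (t (fv g 2) - t (fv g 0)) * (t (fv g 2) - t (fv g 1)) : ℤ)) :
          ZMod p) = 0 := by
        rw [← h2]
        push_cast
        simp
        ring
      have h5 := (ZMod.intCast_zmod_eq_zero_iff_dvd _ p).1 h4'
      have hpp : Prime (p : ℤ) := Nat.prime_iff_prime_int.1 hp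
      rcases hpp.dvd_or_dvd h5 with h6 | h6
      · rcases hpp.dvd_or_dvd h6 with h8 | h8
        · exact hadj 1 0 (by decide) (col_eq _ _ p h7 h8)
        · exact hadj 2 0 (by decide) (col_eq _ _ p h7 h8)
      · exact hadj 2 1 (by decide) (col_eq _ _ p h7 h6)

end MP0e5907
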