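import Pool.Agent.Lib_MP_0e5907.SBase

/-!
# Piece SOFFA: arithmetic tools for the offsets

Paper proof.
* `split30`: induction on `e` (for all `D`). If no `q ∈ {2,3,5}` divides `D`: `d' = 1`, `d'' = D`; a prime `p ∣ D` is not 2, 3, 5, so `p ≥ 7` (4 and 6 are not prime). If `q ∣ D`, `D = q D1`, then `D1 < 2^(e-1)` (`e ≥ 1` since `D ≥ q ≥ 2`), `D1 ≠ 0`; by induction `D1 = d1' d''`, `d1' ∣ 30^(e-1)`: `d' = q d1' ∣ 30 * 30^(e-1)`.
* `off_class`: the three components of `X = icross Uj Uk` and `d` have no common prime divisor (`hp`), so there are integers `t0,t1,t2,s` with `t · X + s d = 1` (Bezout, e.g. `Int.gcd_eq_gcd_ab` twice, or: the ideal generated by the four numbers is generated by one integer `r` which divides all four; if `r` is not a unit it has a prime factor; `d ≠ 0` is not needed except that if `d = 0` all primes divide `d`).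
 Let `p0 = bj * icross Uk t + bk * icross t Uj` (vector), `c = idot Ui p0`. Identities (`ring` after unfolding): `idot Uj p0 = bj * (t · X)`, `idot Uk p0 = bk * (t · X)`, and for all vectors `p0`: `(idot Ui p0) * icross Uj Uk i + (idot Uj p0) * icross Uk Ui i + (idot Uk p0) * icross Ui Uj i = idet Ui Uj Uk * p0 i`. So
 `bi * (Uj×Uk)_i + bj * (Uk×Ui)_i + bk * (Ui×Uj)_i = (bi - c) (Uj×Uk)_i + bj s d (Uk×Ui)_i + bk s d (Ui×Uj)_i + idet Ui Uj Uk * p0 i`, which is divisible by `d`.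
* `off_crt`: Chinese remainder theorem for pairwise coprime positive moduli: there is `b0` with `d g ∣ b0 - c g` for all `g ∈ P` (induction on `P`, or `Ideal`/`Int` versions: for a new `g0` solve `b = b0 + (∏ d) y ≡ c g0` using that `∏ d` and `d g0` are coprime, `IsCoprime.prod_left`), and `b = B + (b0 - B) % ∏ d`.
-/

namespace MP0e5907

open Finset

theorem split30 (e D : ℕ) (hD : D ≠ 0) (hDe : D < 2 ^ e) :
    ∃ d' d'' : ℕ, D = d' * d'' ∧ d' ∣ 30 ^ e ∧ ∀ p : ℕ, p.Prime → p ∣ d'' → 7 ≤ p := by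
  induction e generalizing D with
  | zero =>
    exfalso
    rw [pow_zero] at hDe
    omega
  | succ e ih =>
    have step : ∀ q : ℕ, 2 ≤ q → q ∣ 30 → q ∣ D →
        ∃ d' d'' : ℕ, D = d' * d'' ∧ d' ∣ 30 ^ (e + 1) ∧ ∀ p : ℕ, p.Prime → p ∣ d'' → 7 ≤ p := by
      intro q hq hq30 hqD
      obtain ⟨D1, rfl⟩ := hqD
      have h1 : D1 ≠ 0 := by
        rintro rfl
        exact hD (Nat.mul_zero q)
      have h2 : D1 < 2 ^ e := by
        have h3 : 2 * D1 ≤ q * D1 := Nat.mul_le_mul_right _ hq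
        rw [pow_succ] at hDe
        omega
      obtain ⟨d', d'', h4, h5, h6⟩ := ih D1 h1 h2
      refine ⟨q * d', d'', ?_, ?_, h6⟩
      · rw [h4, Nat.mul_assoc]
      · rw [pow_succ, Nat.mul_comm (30 ^ e) 30]
        exact Nat.mul_dvd_mul hq30 h5
    by_cases h2 : 2 ∣ D
    · exact step 2 (by norm_num) (by norm_num) h2
    by_cases h3 : 3 ∣ D
    · exact step 3 (by norm_num) (by norm_num) h3
    by_cases h5 : 5 ∣ D
    · exact step 5 (by norm_num) (by norm_num) h5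
    refine ⟨1, D, (Nat.one_mul D).symm, one_dvd _, fun p hp hpD => ?_⟩
    by_contra hlt
    push Not at hlt
    have hp2 := hp.two_le
    interval_cases p
    · exact h2 hpD
    · exact h3 hpD
    · exact absurd hp (by norm_num)
    · exact h5 hpD
    · exact absurd hp (by norm_num)

theorem bezout4 (x0 x1 x2 d : ℤ)
    (hp : ∀ p : ℕ, p.Prime → (p : ℤ) ∣ x0 → (p : ℤ) ∣ x1 → (p : ℤ) ∣ x2 → (p : ℤ) ∣ d → False) :
    ∃ t0 t1 t2 s : ℤ, t0 * x0 + t1 * x1 + t2 * x2 + s * d = 1 := by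
  have h1 : Int.gcd (Int.gcd x0 x1) (Int.gcd x2 d) = 1 := by
    rw [Nat.eq_one_iff_not_exists_prime_dvd]
    intro p hp' hpd
    have h2 : (p : ℤ) ∣ (Int.gcd x0 x1 : ℤ) :=
      (Int.natCast_dvd_natCast.2 hpd).trans (Int.gcd_dvd_left _ _)
    have h3 : (p : ℤ) ∣ (Int.gcd x2 d : ℤ) :=
      (Int.natCast_dvd_natCast.2 hpd).trans (Int.gcd_dvd_right _ _)
    exact hp p hp' (h2.trans (Int.gcd_dvd_left _ _)) (h2.trans (Int.gcd_dvd_right _ _))
      (h3.trans (Int.gcd_dvd_left _ _)) (h3.trans (Int.gcd_dvd_right _ _))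
  have e1 := Int.gcd_eq_gcd_ab x0 x1
  have e2 := Int.gcd_eq_gcd_ab x2 d
  have e3 := Int.gcd_eq_gcd_ab (Int.gcd x0 x1 : ℤ) (Int.gcd x2 d : ℤ)
  rw [h1] at e3
  generalize Int.gcdA (Int.gcd x0 x1 : ℤ) (Int.gcd x2 d : ℤ) = c0 at e3
  generalize Int.gcdB (Int.gcd x0 x1 : ℤ) (Int.gcd x2 d : ℤ) = c1 at e3
  refine ⟨Int.gcdA x0 x1 * c0, Int.gcdB x0 x1 * c0, Int.gcdA x2 d * c1, Int.gcdB x2 d * c1, ?_⟩
  push_cast at e3
  linear_combination -e3 - c0 * e1 - c1 * e2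

theorem off_class (Ui Uj Uk : Fin 3 → ℤ) (d : ℤ) (hd : d ∣ idet Ui Uj Uk)
    (hp : ∀ p : ℕ, p.Prime → (p : ℤ) ∣ d → ∃ i, ¬ (p : ℤ) ∣ icross Uj Uk i) (bj bk : ℤ) :
    ∃ c : ℤ, ∀ bi, d ∣ bi - c → ∀ i,
      d ∣ bi * icross Uj Uk i + bj * icross Uk Ui i + bk * icross Ui Uj i := by
  obtain ⟨t0, t1, t2, s, hB⟩ := bezout4 (icross Uj Uk 0) (icross Uj Uk 1) (icross Uj Uk 2) d (by
    intro p hp' h0 h1 h2 h3
    obtain ⟨i, hi⟩ := hp p hp' h3
    fin_cases i
    · exact hi h0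
    · exact hi h1
    · exact hi h2)
  set t : Fin 3 → ℤ := ![t0, t1, t2] with ht
  refine ⟨idot Ui (fun i => bj * icross Uk t i + bk * icross t Uj i), fun bi hbi i => ?_⟩
  have key : bi * icross Uj Uk i + bj * icross Uk Ui i + bk * icross Ui Uj i =
      (bi - idot Ui (fun i => bj * icross Uk t i + bk * icross t Uj i)) * icross Uj Uk i +
      d * (bj * s * icross Uk Ui i + bk * s * icross Ui Uj i) +
      idet Ui Uj Uk * (bj * icross Uk t i + bk * icross t Uj i) := by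
    simp only [icross, Matrix.cons_val_zero, Matrix.cons_val_one, Matrix.cons_val] at hB
    fin_cases i <;>
      simp [icross, idot, idet, ht]
    · linear_combination (-(bj * (Uk 1 * Ui 2 - Uk 2 * Ui 1) + bk * (Ui 1 * Uj 2 - Ui 2 * Uj 1))) * hB
    · linear_combination (-(bj * (Uk 2 * Ui 0 - Uk 0 * Ui 2) + bk * (Ui 2 * Uj 0 - Ui 0 * Uj 2))) * hB
    · linear_combination (-(bj * (Uk 0 * Ui 1 - Uk 1 * Ui 0) + bk * (Ui 0 * Uj 1 - Ui 1 * Uj 0))) * hB
  rw [key]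
  exact dvd_add (dvd_add (hbi.mul_right _) (Dvd.intro _ rfl)) (hd.mul_right _)

theorem off_crt {κ : Type} (P : Finset κ) (d : κ → ℤ) (hd : ∀ g ∈ P, 0 < d g)
    (hcop : ∀ g ∈ P, ∀ g' ∈ P, g ≠ g' → IsCoprime (d g) (d g')) (c : κ → ℤ) (B : ℤ) :
    ∃ b : ℤ, B ≤ b ∧ b < B + ∏ g ∈ P, d g ∧ ∀ g ∈ P, d g ∣ b - c g := by
  classical
  have key : ∀ Q : Finset κ, Q ⊆ P → ∃ b0 : ℤ, ∀ g ∈ Q, d g ∣ b0 - c g := by
    intro Q
    induction Q using Finset.induction_on with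
    | empty => exact fun _ => ⟨0, fun g hg => absurd hg (Finset.notMem_empty g)⟩
    | insert g0 Q hg0 ih =>
      intro hQ
      obtain ⟨b, hb⟩ := ih (fun x hx => hQ (Finset.mem_insert_of_mem hx))
      have hco : IsCoprime (∏ g ∈ Q, d g) (d g0) := by
        refine IsCoprime.prod_left fun g hg => ?_
        refine hcop g (hQ (Finset.mem_insert_of_mem hg)) g0 (hQ (Finset.mem_insert_self _ _)) ?_
        rintro rfl
        exact hg0 hg
      obtain ⟨x, y, hxy⟩ := hco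
      refine ⟨b + (∏ g ∈ Q, d g) * (x * (c g0 - b)), fun g hg => ?_⟩
      rcases Finset.mem_insert.1 hg with rfl | hg'
      · refine ⟨(b - c g) * y, ?_⟩
        linear_combination (-(b - c g)) * hxy
      · have h1 : d g ∣ ∏ g ∈ Q, d g := Finset.dvd_prod_of_mem _ hg'
        have h2 : b + (∏ g ∈ Q, d g) * (x * (c g0 - b)) - c g =
            (b - c g) + (∏ g ∈ Q, d g) * (x * (c g0 - b)) := by ring
        rw [h2]
        exact dvd_add (hb g hg') (h1.mul_right _)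
  obtain ⟨b0, hb0⟩ := key P (Finset.Subset.refl P)
  have hpos : 0 < ∏ g ∈ P, d g := Finset.prod_pos hd
  refine ⟨B + (b0 - B) % ∏ g ∈ P, d g, ?_, ?_, fun g hg => ?_⟩
  · have := Int.emod_nonneg (b0 - B) hpos.ne'
    linarith
  · have := Int.emod_lt_of_pos (b0 - B) hpos
    linarith
  · have h1 : d g ∣ ∏ g ∈ P, d g := Finset.dvd_prod_of_mem _ hg
    have h2 := Int.emod_add_mul_ediv (b0 - B) (∏ g ∈ P, d g)
    have h3 : B + (b0 - B) % (∏ g ∈ P, d g) - c g =
        (b0 - c g) - (∏ g ∈ P, d g) * ((b0 - B) / ∏ g ∈ P, d g) := by linarith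
    rw [h3]
    exact dvd_sub (hb0 g hg) (h1.mul_right _)

end MP0e5907
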