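import Pool.Agent.Lib_MP_0e5907.SOffA

/-!
# Piece SOFFB: offsets such that all vertices are integral

Paper proof. For `g` let `|gdet fv u g| = d' g * d'' g` from `split30` (`e`, `D = (gdet fv u g).natAbs`); `0 < d'' g ≤ |gdet| < 2^e`, primes dividing `d'' g` are `≥ 7`.
Claim: for all `n` there is `β : W → ℤ` with `B ≤ β w ≤ B + 2^(5e)` and: for all `w` with `ord w < n`, all `g` with `Asg fv ord w g` and all `i`: `(d'' g : ℤ) ∣ cram fv u β g i`. `n = 0`: `β = B`. Step: if no `w` has `ord w = n` nothing is to do. Let `ord w0 = n`, `P = {g | Asg fv ord w0 g}` (at most 5). For `g ∈ P` let `fv g k = w0`; `Ui = u (fv g k)`, `Uj = u (fv g (k+1))`, `Uk = u (fv g (k+2))`, `bj = β (fv g (k+1))`, `bk = β (fv g (k+2))`.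
`idet Ui Uj Uk = gdet fv u g` (cyclic invariance), divisible by `d'' g`; for a prime `p ∣ d'' g`: `p ≥ 7` and `fv g (k+1)`, `fv g (k+2)` are adjacent, so `P1` gives the hypothesis of `off_class`, which gives `c g`. The `d'' g`, `g ∈ P`, are pairwise coprime: a common prime factor `p` is `≥ 7` and divides both determinants: `P2`. `off_crt` with `B` gives `b` with `B ≤ b < B + ∏ d'' g ≤ B + (2^e)^5` (`P.card ≤ 5`, all `1 ≤ d'' g ≤ 2^e`).
`β' = Function.update β w0 b`. For `w` with `ord w < n` and `Asg fv ord w g` all vertices of `g` have order `< n`, so `cram` is unchanged. For `g ∈ P` the other two vertices have order `< n`, and `cram fv u β' g i = b * icross Uj Uk i + bj * icross Uk Ui i + bk * icross Ui Uj i` (cyclic sum; `fin_cases k`, `ring`), divisible by `d'' g`.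
Take `n > ` all orders. Every `g` has `Asg fv ord w g` for the vertex `w` of `g` with maximal `ord` (`hord`, `hS.inj` make the others strictly smaller). So `d'' g ∣ cram fv u β g i` for all `g, i`. Write `30^e = d' g * m`, `cram fv u β g i = d'' g * q i`, `gdet fv u g = s * d' g * d'' g`, `s = ±1`, `ph g i = s * m * q i`. Then `gdet fv u g * ph g i = 30^e * cram fv u β g i`.
Identity (`ring`, for each `k`, `fin_cases`): `∑_i u (fv g k) i * cram fv u β g i = β (fv g k) * gdet fv u g`. So `gdet * idot (u (fv g k)) (ph g) = 30^e * β (fv g k) * gdet`; cancel `gdet ≠ 0`.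
-/

namespace MP0e5907

open Finset

private lemma soffb_cyc {W G : Type} (fv : G → Fin 3 → W) (u : W → Fin 3 → ℤ) (g : G) (k : Fin 3) :
    idet (u (fv g k)) (u (fv g (k + 1))) (u (fv g (k + 2))) = gdet fv u g := by
  fin_cases k
  · rfl
  · change idet (u (fv g 1)) (u (fv g 2)) (u (fv g 0)) = gdet fv u g
    unfold gdet idet
    ring
  · change idet (u (fv g 2)) (u (fv g 0)) (u (fv g 1)) = gdet fv u g
    unfold gdet idet
    ring

private lemma soffb_cram {W G : Type} (fv : G → Fin 3 → W) (u : W → Fin 3 → ℤ) (β : W → ℤ) (g : G)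
    (k : Fin 3) (i : Fin 3) :
    cram fv u β g i = β (fv g k) * icross (u (fv g (k + 1))) (u (fv g (k + 2))) i +
      β (fv g (k + 1)) * icross (u (fv g (k + 2))) (u (fv g k)) i +
      β (fv g (k + 2)) * icross (u (fv g k)) (u (fv g (k + 1))) i := by
  fin_cases k
  · rfl
  · change _ = β (fv g 1) * icross (u (fv g 2)) (u (fv g 0)) i +
      β (fv g 2) * icross (u (fv g 0)) (u (fv g 1)) i +
      β (fv g 0) * icross (u (fv g 1)) (u (fv g 2)) i
    unfold cram
    ring
  · change _ = β (fv g 2) * icross (u (fv g 0)) (u (fv g 1)) i +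
      β (fv g 0) * icross (u (fv g 1)) (u (fv g 2)) i +
      β (fv g 1) * icross (u (fv g 2)) (u (fv g 0)) i
    unfold cram
    ring

private lemma soffb_id {W G : Type} (fv : G → Fin 3 → W) (u : W → Fin 3 → ℤ) (β : W → ℤ) (g : G)
    (k : Fin 3) :
    u (fv g k) 0 * cram fv u β g 0 + u (fv g k) 1 * cram fv u β g 1 +
      u (fv g k) 2 * cram fv u β g 2 = β (fv g k) * gdet fv u g := by
  have h0 := soffb_cram fv u β g k 0
  have h1 := soffb_cram fv u β g k 1
  have h2 := soffb_cram fv u β g k 2
  rw [h0, h1, h2, ← soffb_cyc fv u g k]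
  simp only [icross, idet, Matrix.cons_val_zero, Matrix.cons_val_one, Matrix.cons_val]
  ring

theorem offsets_exist {W G : Type} [Fintype W] [Fintype G] (fv : G → Fin 3 → W) (hS : Surf fv) (ord : W → ℕ)
    (hord : Function.Injective ord) (hP : ∀ u, Set.ncard {g | Asg fv ord u g} ≤ 5) (u : W → Fin 3 → ℤ) (e : ℕ)
    (hD0 : ∀ g, gdet fv u g ≠ 0) (hDe : ∀ g, |gdet fv u g| < 2 ^ e)
    (P1 : ∀ w w', Adj fv w w' → ∀ p : ℕ, p.Prime → 7 ≤ p → ∃ i, ¬ (p : ℤ) ∣ icross (u w) (u w') i)
    (P2 : ∀ w g g', g ≠ g' → Asg fv ord w g → Asg fv ord w g' → ∀ p : ℕ, p.Prime → 7 ≤ p →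
      ¬ ((p : ℤ) ∣ gdet fv u g ∧ (p : ℤ) ∣ gdet fv u g')) (B : ℤ) :
    ∃ (β : W → ℤ) (ph : G → Fin 3 → ℤ), (∀ w, B ≤ β w ∧ β w ≤ B + 2 ^ (5 * e)) ∧
      ∀ g k, idot (u (fv g k)) (ph g) = 30 ^ e * β (fv g k) := by
  classical
  have hlt : ∀ g, (gdet fv u g).natAbs < 2 ^ e := by
    intro g
    have h := hDe g
    rw [Int.abs_eq_natAbs] at h
    exact_mod_cast h
  choose d1 d2 hD hdvd hpr using fun g => split30 e (gdet fv u g).natAbs
    (Int.natAbs_ne_zero.2 (hD0 g)) (hlt g)
  have hd2dvd : ∀ g, (d2 g : ℤ) ∣ gdet fv u g := by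
    intro g
    rw [← Int.dvd_natAbs, hD g]
    exact_mod_cast Dvd.intro_left (d1 g) rfl
  have hd2pos : ∀ g, 0 < d2 g := by
    intro g
    rcases Nat.eq_zero_or_pos (d2 g) with h | h
    · exfalso
      have h1 := hD g
      rw [h, mul_zero] at h1
      exact hD0 g (Int.natAbs_eq_zero.1 h1)
    · exact h
  have hd2le : ∀ g, d2 g ≤ 2 ^ e := by
    intro g
    have h1 : d2 g ∣ (gdet fv u g).natAbs := ⟨d1 g, by rw [hD g, mul_comm]⟩
    exact (Nat.le_of_dvd (Int.natAbs_pos.2 (hD0 g)) h1).trans (hlt g).le
  have main : ∀ n : ℕ, ∃ β : W → ℤ, (∀ w, B ≤ β w ∧ β w ≤ B + 2 ^ (5 * e)) ∧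
      ∀ w g, ord w < n → Asg fv ord w g → ∀ i, (d2 g : ℤ) ∣ cram fv u β g i := by
    intro n
    induction n with
    | zero =>
      refine ⟨fun _ => B, fun w => ⟨le_rfl, ?_⟩, fun w g h => absurd h (Nat.not_lt_zero _)⟩
      have : (0 : ℤ) ≤ 2 ^ (5 * e) := by positivity
      linarith
    | succ n ih =>
      obtain ⟨β, hβ, hdiv⟩ := ih
      by_cases hw : ∃ w0, ord w0 = n
      · obtain ⟨w0, hw0⟩ := hw
        have hcl : ∀ g, ∃ c : ℤ, Asg fv ord w0 g → ∀ b : ℤ, (d2 g : ℤ) ∣ b - c → ∀ i,
            (d2 g : ℤ) ∣ cram fv u (Function.update β w0 b) g i := by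
          intro g
          by_cases hg : Asg fv ord w0 g
          · obtain ⟨⟨k, hk⟩, hlast⟩ := hg
            have hk1 : fv g (k + 1) ≠ w0 := by
              rw [← hk]
              intro h
              have := hS.inj g h
              revert this
              fin_cases k <;> decide
            have hk2 : fv g (k + 2) ≠ w0 := by
              rw [← hk]
              intro h
              have := hS.inj g h
              revert this
              fin_cases k <;> decide
            have hk12 : fv g (k + 1) ≠ fv g (k + 2) := by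
              intro h
              have := hS.inj g h
              revert this
              fin_cases k <;> decide
            obtain ⟨c, hc⟩ := off_class (u (fv g k)) (u (fv g (k + 1))) (u (fv g (k + 2))) (d2 g : ℤ)
              (by rw [soffb_cyc]; exact hd2dvd g)
              (fun p hp hpd => P1 (fv g (k + 1)) (fv g (k + 2))
                ⟨hk12, g, ⟨k + 1, rfl⟩, ⟨k + 2, rfl⟩⟩ p hp
                (hpr g p hp (Int.natCast_dvd_natCast.1 hpd)))
              (β (fv g (k + 1))) (β (fv g (k + 2)))
            refine ⟨c, fun _ b hb i => ?_⟩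
            rw [soffb_cram fv u _ g k i, hk, Function.update_self, Function.update_of_ne hk1,
              Function.update_of_ne hk2, ← hk]
            exact hc b hb i
          · exact ⟨0, fun h => absurd h hg⟩
        choose c hc using hcl
        set P : Finset G := Finset.univ.filter (fun g => Asg fv ord w0 g) with hPdef
        have hPcard : P.card ≤ 5 := by
          have h1 := hP w0
          have h2 : {g | Asg fv ord w0 g} = (P : Set G) := by
            ext g
            simp [hPdef]
          rw [h2, Set.ncard_coe_finset] at h1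
          exact h1
        obtain ⟨b, hb1, hb2, hb3⟩ := off_crt P (fun g => (d2 g : ℤ))
          (fun g _ => by exact_mod_cast hd2pos g)
          (fun g hg g' hg' hne => by
            rw [hPdef, Finset.mem_filter] at hg hg'
            refine Nat.isCoprime_iff_coprime.2 ?_
            by_contra hcop
            obtain ⟨p, hp, hp1, hp2⟩ := Nat.Prime.not_coprime_iff_dvd.1 hcop
            exact P2 w0 g g' hne hg.2 hg'.2 p hp (hpr g p hp hp1)
              ⟨(Int.natCast_dvd_natCast.2 hp1).trans (hd2dvd g),
                (Int.natCast_dvd_natCast.2 hp2).trans (hd2dvd g')⟩)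
          c B
        have hprod : ∏ g ∈ P, (d2 g : ℤ) ≤ 2 ^ (5 * e) := by
          have h1 : ∏ g ∈ P, d2 g ≤ (2 ^ e) ^ P.card :=
            Finset.prod_le_pow_card _ _ _ (fun g _ => hd2le g)
          have h2 : (2 ^ e) ^ P.card ≤ (2 ^ e) ^ 5 :=
            Nat.pow_le_pow_right (by positivity) hPcard
          have h3 : (2 ^ e) ^ 5 = 2 ^ (5 * e) := by rw [← pow_mul, mul_comm]
          have h4 := h1.trans (h2.trans h3.le)
          exact_mod_cast h4
        refine ⟨Function.update β w0 b, ?_, ?_⟩
        · intro w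
          by_cases h : w = w0
          · rw [h, Function.update_self]
            exact ⟨hb1, by linarith⟩
          · rw [Function.update_of_ne h]
            exact hβ w
        · intro w g hwn hg i
          rcases Nat.lt_succ_iff_lt_or_eq.1 hwn with h | h
          · have hne : ∀ k, fv g k ≠ w0 := by
              intro k hk
              have h1 : ord (fv g k) ≤ ord w := by
                by_cases h2 : fv g k = w
                · rw [h2]
                · exact (hg.2 k h2).le
              rw [hk, hw0] at h1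
              omega
            have heq : cram fv u (Function.update β w0 b) g i = cram fv u β g i := by
              unfold cram
              rw [Function.update_of_ne (hne 0), Function.update_of_ne (hne 1),
                Function.update_of_ne (hne 2)]
            rw [heq]
            exact hdiv w g h hg i
          · have hww : w = w0 := hord (h.trans hw0.symm)
            rw [hww] at hg
            exact hc g hg b (hb3 g (by rw [hPdef, Finset.mem_filter]; exact ⟨Finset.mem_univ _, hg⟩)) i
      · refine ⟨β, hβ, fun w g hwn hg i => ?_⟩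
        rcases Nat.lt_succ_iff_lt_or_eq.1 hwn with h | h
        · exact hdiv w g h hg i
        · exact absurd ⟨w, h⟩ hw
  obtain ⟨β, hβ, hdiv⟩ := main (Finset.univ.sup ord + 1)
  have hall : ∀ g i, (d2 g : ℤ) ∣ cram fv u β g i := by
    intro g i
    obtain ⟨k0, hk0⟩ := Finite.exists_max (fun k => ord (fv g k))
    refine hdiv (fv g k0) g ?_ ⟨⟨k0, rfl⟩, fun k hk => ?_⟩ i
    · exact Nat.lt_succ_of_le (Finset.le_sup (Finset.mem_univ _))
    · exact lt_of_le_of_ne (hk0 k) (fun h => hk (hord h))
  have hquot : ∀ g i, ∃ p : ℤ, 30 ^ e * cram fv u β g i = gdet fv u g * p := by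
    intro g i
    have h1 : (((gdet fv u g).natAbs : ℕ) : ℤ) ∣ 30 ^ e * cram fv u β g i := by
      rw [hD g]
      push_cast
      refine mul_dvd_mul ?_ (hall g i)
      exact_mod_cast Int.natCast_dvd_natCast.2 (hdvd g)
    exact Int.natAbs_dvd.1 h1
  choose ph hph using hquot
  refine ⟨β, ph, hβ, fun g k => ?_⟩
  have hid := soffb_id fv u β g k
  apply mul_left_cancel₀ (hD0 g)
  unfold idot
  linear_combination (-(u (fv g k) 0)) * hph g 0 - (u (fv g k) 1) * hph g 1 -
    (u (fv g k) 2) * hph g 2 + 30 ^ e * hid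

end MP0e5907
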