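import Pool.Agent.Lib_MP_0e5907.SBase

/-!
# Piece SORD: ordering and colouring of the facets

Paper proof. Claim: for every finset `I` of `W` there are `ord : W → ℕ`, `col : W → Fin 6` such that `ord` is injective on `I` with values `< I.card` on `I`, adjacent elements of `I` have different colours, and every `u ∈ I` has at most 5 elements `w ∈ I` with `Adj fv w u` and `ord w < ord u`. Induction on `I.card`: `I = ∅` is trivial. Otherwise take `u ∈ I` from `Surf.deg`, apply the claim to `I.erase u`, and set `ord u = I.card - 1` (larger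
than all other values) and `col u` = a colour different from the colours of the at most 5 elements `w ∈ I` with `Adj fv w u` (there are 6 colours: the image of this set under `col` has at most 5 elements, so it is not `univ`); use `Function.update`. For the other elements of `I` nothing changes, since `u` has the largest order. (`Adj` is symmetric and irreflexive.) Use `I = univ`.
Assigned faces: fix `u`. Let `P = {g | Asg fv ord u g}` and `J = {w | Adj fv w u ∧ ord w < ord u}` (`card ≤ 5`). Count the pairs `(g,w)` with `g ∈ P`, `w ∈ J`, `Inc fv g w`: every `g ∈ P` has exactly two vertices `≠ u` (`Surf.inj`), both in `J` (by `Asg` and since they lie in `g` together with `u`), so there are at least `2 * P.card` pairs; for every `w ∈ J` there are at most two `g` with `Inc g u`, `Inc g w` (`Surf.pair`), so at most `2 * J.card ≤ 10` pairs.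
Hence `P.card ≤ 5`. (`Finset.sum_comm` / `Finset.sum_card_bipartiteAbove_eq_sum_card_bipartiteBelow`.)
-/

namespace MP0e5907

open Finset

theorem adj_symm_iff {W G : Type} {fv : G → Fin 3 → W} {u w : W} (h : Adj fv u w) : Adj fv w u := by
  obtain ⟨h1, g, h2, h3⟩ := h
  exact ⟨h1.symm, g, h3, h2⟩

/-- the ordering and the colouring of a finite set -/
theorem surf_order_aux {W G : Type} [Fintype W] (fv : G → Fin 3 → W)
    (hdeg : ∀ I : Finset W, I.Nonempty → ∃ u ∈ I, Set.ncard {w | w ∈ I ∧ Adj fv w u} ≤ 5) (n : ℕ) :
    ∀ I : Finset W, I.card = n → ∃ (ord : W → ℕ) (col : W → Fin 6), (∀ u ∈ I, ord u < n) ∧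
      (∀ u ∈ I, ∀ w ∈ I, ord u = ord w → u = w) ∧
      (∀ u ∈ I, ∀ w ∈ I, Adj fv u w → col u ≠ col w) ∧
      ∀ u ∈ I, Set.ncard {w | w ∈ I ∧ Adj fv w u ∧ ord w < ord u} ≤ 5 := by
  classical
  induction n with
  | zero =>
    intro I hI
    have hI0 : I = ∅ := Finset.card_eq_zero.1 hI
    subst hI0
    exact ⟨fun _ => 0, fun _ => 0, by simp, by simp, by simp, by simp⟩
  | succ n ih =>
    intro I hI
    have hne : I.Nonempty := by
      rw [← Finset.card_pos, hI]
      exact Nat.succ_pos n
    obtain ⟨u, huI, hu⟩ := hdeg I hne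
    obtain ⟨ord, col, h1, h2, h3, h4⟩ := ih (I.erase u) (by rw [Finset.card_erase_of_mem huI, hI]; rfl)
    have hfree : ∃ c : Fin 6, ∀ w ∈ I, Adj fv w u → col w ≠ c := by
      by_contra hcon
      push Not at hcon
      have hall : (Set.univ : Set (Fin 6)) ⊆ col '' {w | w ∈ I ∧ Adj fv w u} := by
        intro c _
        obtain ⟨w, hw1, hw2, hw3⟩ := hcon c
        exact ⟨w, ⟨hw1, hw2⟩, hw3⟩
      have e1 := Set.ncard_le_ncard hall (Set.toFinite _)
      have e2 := Set.ncard_image_le (f := col) (Set.toFinite {w | w ∈ I ∧ Adj fv w u})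
      have e3 : (Set.univ : Set (Fin 6)).ncard = 6 := by
        rw [Set.ncard_univ]
        simp
      omega
    obtain ⟨c, hc⟩ := hfree
    have hmem : ∀ w ∈ I, w ≠ u → w ∈ I.erase u := fun w hw hwu => Finset.mem_erase.2 ⟨hwu, hw⟩
    refine ⟨Function.update ord u n, Function.update col u c, ?_, ?_, ?_, ?_⟩
    · intro v hv
      by_cases hvu : v = u
      · rw [hvu, Function.update_self]
        exact Nat.lt_succ_self n
      · rw [Function.update_of_ne hvu]
        exact (h1 v (hmem v hv hvu)).trans (Nat.lt_succ_self n)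
    · intro v hv w hw hvw
      by_cases hvu : v = u
      · by_cases hwu : w = u
        · rw [hvu, hwu]
        · rw [hvu, Function.update_self, Function.update_of_ne hwu] at hvw
          exact absurd hvw (h1 w (hmem w hw hwu)).ne'
      · by_cases hwu : w = u
        · rw [hwu, Function.update_self, Function.update_of_ne hvu] at hvw
          exact absurd hvw (h1 v (hmem v hv hvu)).ne
        · rw [Function.update_of_ne hvu, Function.update_of_ne hwu] at hvw
          exact h2 v (hmem v hv hvu) w (hmem w hw hwu) hvw
    · intro v hv w hw hA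
      by_cases hvu : v = u
      · by_cases hwu : w = u
        · exact absurd (hvu.trans hwu.symm) hA.1
        · rw [hvu, Function.update_self, Function.update_of_ne hwu]
          rw [hvu] at hA
          exact (hc w hw (adj_symm_iff hA)).symm
      · by_cases hwu : w = u
        · rw [hwu, Function.update_self, Function.update_of_ne hvu]
          rw [hwu] at hA
          exact hc v hv hA
        · rw [Function.update_of_ne hvu, Function.update_of_ne hwu]
          exact h3 v (hmem v hv hvu) w (hmem w hw hwu) hA
    · intro v hv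
      by_cases hvu : v = u
      · refine (Set.ncard_le_ncard ?_ (Set.toFinite _)).trans hu
        rintro w ⟨hw1, hw2, _⟩
        rw [hvu] at hw2
        exact ⟨hw1, hw2⟩
      · refine (Set.ncard_le_ncard ?_ (Set.toFinite _)).trans (h4 v (hmem v hv hvu))
        rintro w ⟨hw1, hw2, hw3⟩
        rw [Function.update_of_ne hvu] at hw3
        by_cases hwu : w = u
        · rw [hwu, Function.update_self] at hw3
          exact absurd (h1 v (hmem v hv hvu)) (not_lt.2 hw3.le)
        · rw [Function.update_of_ne hwu] at hw3
          exact ⟨hmem w hw1 hwu, hw2, hw3⟩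

/-- the other two vertices of a face -/
theorem fin3_others (k : Fin 3) : ∃ a b : Fin 3, a ≠ k ∧ b ≠ k ∧ a ≠ b := by
  revert k
  decide

theorem surf_order {W G : Type} [Fintype W] [Fintype G] (fv : G → Fin 3 → W) (hS : Surf fv) :
    ∃ (ord : W → ℕ) (col : W → Fin 6), Function.Injective ord ∧
      (∀ u w, Adj fv u w → col u ≠ col w) ∧
      (∀ u, Set.ncard {w | Adj fv w u ∧ ord w < ord u} ≤ 5) ∧
      ∀ u, Set.ncard {g | Asg fv ord u g} ≤ 5 := by
  classical
  obtain ⟨ord, col, _, h2, h3, h4⟩ :=
    surf_order_aux fv hS.deg (Finset.univ : Finset W).card Finset.univ rfl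
  have hJ : ∀ u, Set.ncard {w | Adj fv w u ∧ ord w < ord u} ≤ 5 := by
    intro u
    refine (Set.ncard_le_ncard ?_ (Set.toFinite _)).trans (h4 u (Finset.mem_univ u))
    rintro w ⟨hw1, hw2⟩
    exact ⟨Finset.mem_univ w, hw1, hw2⟩
  refine ⟨ord, col, fun u w h => h2 u (Finset.mem_univ u) w (Finset.mem_univ w) h,
    fun u w h => h3 u (Finset.mem_univ u) w (Finset.mem_univ w) h, hJ, ?_⟩
  intro u
  have key := Finset.card_mul_le_card_mul (s := Finset.univ.filter fun g => Asg fv ord u g)
    (t := Finset.univ.filter fun w => Adj fv w u ∧ ord w < ord u) (m := 2) (n := 2)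
    (fun g w => Inc fv g w) ?_ ?_
  · have e1 : (Finset.univ.filter fun g => Asg fv ord u g).card =
        Set.ncard {g | Asg fv ord u g} := by
      rw [Set.ncard_eq_toFinset_card']
      congr 1
      ext g
      simp
    have e2 : (Finset.univ.filter fun w => Adj fv w u ∧ ord w < ord u).card =
        Set.ncard {w | Adj fv w u ∧ ord w < ord u} := by
      rw [Set.ncard_eq_toFinset_card']
      congr 1
      ext g
      simp
    have e3 := hJ u
    rw [e1, e2] at key
    omega
  · intro g hg
    obtain ⟨⟨k, hk⟩, hlt⟩ := (Finset.mem_filter.1 hg).2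
    obtain ⟨a, b, hak, hbk, hab⟩ := fin3_others k
    have hau : fv g a ≠ u := fun h => hak (hS.inj g (h.trans hk.symm))
    have hbu : fv g b ≠ u := fun h => hbk (hS.inj g (h.trans hk.symm))
    have hne : fv g a ≠ fv g b := fun h => hab (hS.inj g h)
    have hsub : ({fv g a, fv g b} : Finset W) ⊆
        Finset.bipartiteAbove (fun g w => Inc fv g w)
          (Finset.univ.filter fun w => Adj fv w u ∧ ord w < ord u) g := by
      intro w hw
      rw [Finset.mem_insert, Finset.mem_singleton] at hw
      rw [Finset.mem_bipartiteAbove, Finset.mem_filter]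
      rcases hw with hw | hw
      · rw [hw]
        exact ⟨⟨Finset.mem_univ _, ⟨hau, g, ⟨a, rfl⟩, ⟨k, hk⟩⟩, hlt a hau⟩, a, rfl⟩
      · rw [hw]
        exact ⟨⟨Finset.mem_univ _, ⟨hbu, g, ⟨b, rfl⟩, ⟨k, hk⟩⟩, hlt b hbu⟩, b, rfl⟩
    have := Finset.card_le_card hsub
    rw [Finset.card_pair hne] at this
    exact this
  · intro w hw
    obtain ⟨hA, _⟩ := (Finset.mem_filter.1 hw).2
    have hle := hS.pair u w hA.1.symm
    refine le_trans ?_ hle
    rw [Set.ncard_eq_toFinset_card']
    apply Finset.card_le_card
    intro g hg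
    rw [Finset.mem_bipartiteBelow, Finset.mem_filter] at hg
    rw [Set.mem_toFinset]
    exact ⟨hg.1.2.1, hg.2⟩

end MP0e5907
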