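import Pool.Agent.Lib_MP_0e5907.SBase

/-!
# Piece SPERT: the perturbed inequalities

Paper proof. `u w i = K a w i + δ w i`. For nonnegative `Δ ≤ K H` the product of three entries `K a + δ` differs from `K^3 a a a` by at most `3 K^2 H^2 Δ + 3 K H Δ^2 + Δ^3 ≤ 7 K^2 H^2 Δ`, so a determinant `idet` (six products) differs from `K^3` times the determinant of the `a` by at most `42 K^2 H^2 Δ`, and its absolute value is at most `6 (K H + Δ)^3 ≤ 48 K^3 H^3`.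
* `pert_det`: `|gdet u - K^3 gdet a| ≤ 42 K^2 H^2 Δ < K^3` (`K ≥ 336 H^2 Δ`), `|K^3 gdet a| ≥ K^3`.
* `pert_main`. Let `w` not be incident with `g`, `D = gdet u g`, `D0 = gdet a g`, `T = Th u g w`, `T0 = Th a g w` (a sum of four determinants): `|T - K^3 T0| ≤ 168 K^2 H^2 Δ ≤ K^3 / 2` and `|D - K^3 D0| ≤ K^3/2`. As `D0 T0 > 0` are nonzero integers of the same sign, `D`, `T` have this sign and `|T| ≥ K^3/2`, `D ≠ 0`. Cramer identity (`ring`, for `D` and `U_j = u (fv g j)`, `p = ph g`):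
 `D * idot (u w) p = idot U_0 p * idet (u w) U_1 U_2 + idot U_1 p * idet U_0 (u w) U_2 + idot U_2 p * idet U_0 U_1 (u w)`. With `idot U_j p = b_j = B + r_j`, `b w = B + r`, `0 ≤ r_j, r ≤ M`: `D * (b w - idot (u w) p) = B T + (r D - r_0 idet(..) - r_1 idet(..) - r_2 idet(..))`, and the last bracket is at most `4 M * 48 K^3 H^3 = 192 M K^3 H^3 < B K^3 / 2 ≤ B |T|` in absolute value (`B ≥ 385 M H^3`, `M, H ≥ 1`).
 So `D * (b w - idot (u w) p)` has the sign of `T`, which is the sign of `D`: `b w - idot (u w) p > 0`.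
* Bound: `D * p i = cram u b g i` (identity: `b_0 (U_1×U_2)_i + b_1 (U_2×U_0)_i + b_2 (U_0×U_1)_i = D p_i` when `b_j = idot U_j p`; `ring`), `|D| ≥ 1`, so `|p i| ≤ 3 (B + M) * 2 (K H + Δ)^2 ≤ 3 (B+M) * 8 K^2 H^2 = 24 (B + M) K^2 H^2`.
(`0 ≤ B` follows from `hB`.)
-/

namespace MP0e5907

private theorem sp_abs3 {x y z X Y Z : ℤ} (hx : |x| ≤ X) (hy : |y| ≤ Y) (hz : |z| ≤ Z) :
    |x * y * z| ≤ X * Y * Z := by
  rw [abs_mul, abs_mul]
  have hX := (abs_nonneg x).trans hx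
  have hY := (abs_nonneg y).trans hy
  exact mul_le_mul (mul_le_mul hx hy (abs_nonneg _) hX) hz (abs_nonneg _) (mul_nonneg hX hY)

private theorem sp_abs2 {x y X Y : ℤ} (hx : |x| ≤ X) (hy : |y| ≤ Y) :
    |x * y| ≤ X * Y := by
  rw [abs_mul]
  exact mul_le_mul hx hy (abs_nonneg _) ((abs_nonneg x).trans hx)

private theorem sp_prod {a b c d e f K H Δ : ℤ} (hK : 0 ≤ K) (hH : 0 ≤ H) (hΔ : 0 ≤ Δ)
    (hD : Δ ≤ K * H) (ha : |a| ≤ H) (hb : |b| ≤ H) (hc : |c| ≤ H) (hd : |d| ≤ Δ) (he : |e| ≤ Δ)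
    (hf : |f| ≤ Δ) :
    |(K * a + d) * (K * b + e) * (K * c + f) - K ^ 3 * (a * b * c)| ≤ 7 * K ^ 2 * H ^ 2 * Δ := by
  have hKH : 0 ≤ K * H := mul_nonneg hK hH
  have hk : |K| ≤ K := (abs_of_nonneg hK).le
  have hKa : |K * a| ≤ K * H := sp_abs2 hk ha
  have hKb : |K * b| ≤ K * H := sp_abs2 hk hb
  have hKc : |K * c| ≤ K * H := sp_abs2 hk hc
  have h1 := abs_le.mp (sp_abs3 hKa hKb hf)
  have h2 := abs_le.mp (sp_abs3 hKa he hKc)
  have h3 := abs_le.mp (sp_abs3 hd hKb hKc)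
  have h4 := abs_le.mp (sp_abs3 hKa he hf)
  have h5 := abs_le.mp (sp_abs3 hd hKb hf)
  have h6 := abs_le.mp (sp_abs3 hd he hKc)
  have h7 := abs_le.mp (sp_abs3 hd he hf)
  have k1 : K * H * Δ * Δ ≤ K * H * (K * H) * Δ :=
    mul_le_mul_of_nonneg_right (mul_le_mul_of_nonneg_left hD hKH) hΔ
  have k2 : Δ * Δ * Δ ≤ K * H * (K * H) * Δ :=
    mul_le_mul_of_nonneg_right (mul_le_mul hD hD hΔ hKH) hΔ
  rw [abs_le]
  constructor <;> linarith [h1.1, h1.2, h2.1, h2.2, h3.1, h3.2, h4.1, h4.2, h5.1, h5.2, h6.1,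
    h6.2, h7.1, h7.2]

private theorem sp_six {x1 x2 x3 x4 x5 x6 B : ℤ} (h1 : |x1| ≤ B) (h2 : |x2| ≤ B) (h3 : |x3| ≤ B)
    (h4 : |x4| ≤ B) (h5 : |x5| ≤ B) (h6 : |x6| ≤ B) :
    |x1 - x2 - x3 + x4 + x5 - x6| ≤ 6 * B := by
  rw [abs_le] at *
  constructor <;> linarith [h1.1, h1.2, h2.1, h2.2, h3.1, h3.2, h4.1, h4.2, h5.1, h5.2, h6.1, h6.2]

private theorem sp_idet_bound {a b c : Fin 3 → ℤ} {X : ℤ} (ha : ∀ i, |a i| ≤ X)
    (hb : ∀ i, |b i| ≤ X) (hc : ∀ i, |c i| ≤ X) : |idet a b c| ≤ 6 * (X * X * X) := by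
  have e : idet a b c = a 0 * b 1 * c 2 - a 0 * b 2 * c 1 - a 1 * b 0 * c 2 + a 1 * b 2 * c 0
      + a 2 * b 0 * c 1 - a 2 * b 1 * c 0 := by
    unfold idet
    ring
  rw [e]
  exact sp_six (sp_abs3 (ha 0) (hb 1) (hc 2)) (sp_abs3 (ha 0) (hb 2) (hc 1))
    (sp_abs3 (ha 1) (hb 0) (hc 2)) (sp_abs3 (ha 1) (hb 2) (hc 0)) (sp_abs3 (ha 2) (hb 0) (hc 1))
    (sp_abs3 (ha 2) (hb 1) (hc 0))

private theorem sp_idet_diff {a b c d e f u v w : Fin 3 → ℤ} {K H Δ : ℤ} (hK : 0 ≤ K) (hH : 0 ≤ H)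
    (hΔ : 0 ≤ Δ) (hD : Δ ≤ K * H) (ha : ∀ i, |a i| ≤ H) (hb : ∀ i, |b i| ≤ H)
    (hc : ∀ i, |c i| ≤ H) (hd : ∀ i, |d i| ≤ Δ) (he : ∀ i, |e i| ≤ Δ) (hf : ∀ i, |f i| ≤ Δ)
    (hu : ∀ i, u i = K * a i + d i) (hv : ∀ i, v i = K * b i + e i)
    (hw : ∀ i, w i = K * c i + f i) :
    |idet u v w - K ^ 3 * idet a b c| ≤ 42 * K ^ 2 * H ^ 2 * Δ := by
  have key : ∀ i j k, |u i * v j * w k - K ^ 3 * (a i * b j * c k)| ≤ 7 * K ^ 2 * H ^ 2 * Δ := by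
    intro i j k
    rw [hu, hv, hw]
    exact sp_prod hK hH hΔ hD (ha i) (hb j) (hc k) (hd i) (he j) (hf k)
  have e1 : idet u v w - K ^ 3 * idet a b c =
      (u 0 * v 1 * w 2 - K ^ 3 * (a 0 * b 1 * c 2)) - (u 0 * v 2 * w 1 - K ^ 3 * (a 0 * b 2 * c 1))
      - (u 1 * v 0 * w 2 - K ^ 3 * (a 1 * b 0 * c 2)) + (u 1 * v 2 * w 0 - K ^ 3 * (a 1 * b 2 * c 0))
      + (u 2 * v 0 * w 1 - K ^ 3 * (a 2 * b 0 * c 1))
      - (u 2 * v 1 * w 0 - K ^ 3 * (a 2 * b 1 * c 0)) := by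
    unfold idet
    ring
  rw [e1]
  have h := sp_six (key 0 1 2) (key 0 2 1) (key 1 0 2) (key 1 2 0) (key 2 0 1) (key 2 1 0)
  linarith

section aux

variable {W : Type} {a δ : W → Fin 3 → ℤ} {K H Δ : ℤ}

private theorem sp_basic (hH : 1 ≤ H) (hΔ : 1 ≤ Δ) (hK : 336 * H ^ 2 * Δ ≤ K) :
    0 < K ∧ Δ ≤ K * H ∧ 336 * (K ^ 2 * H ^ 2 * Δ) ≤ K ^ 3 := by
  have h1 : 1 ≤ H ^ 2 := one_le_pow₀ hH
  have h2 : Δ ≤ H ^ 2 * Δ := le_mul_of_one_le_left (by linarith) h1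
  have h3 : 0 < K := by nlinarith
  refine ⟨h3, ?_, ?_⟩
  · have h4 : Δ ≤ K := by nlinarith
    nlinarith
  · have h5 := mul_le_mul_of_nonneg_left hK (sq_nonneg K)
    calc 336 * (K ^ 2 * H ^ 2 * Δ) = K ^ 2 * (336 * H ^ 2 * Δ) := by ring
      _ ≤ K ^ 2 * K := h5
      _ = K ^ 3 := by ring

private theorem sp_entry (hH : 1 ≤ H) (hΔ : 1 ≤ Δ) (ha : ∀ w i, |a w i| ≤ H)
    (hδ : ∀ w i, 0 ≤ δ w i ∧ δ w i ≤ Δ) (hK : 336 * H ^ 2 * Δ ≤ K) (w : W) (i : Fin 3) :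
    |uvec K a δ w i| ≤ 2 * (K * H) := by
  obtain ⟨h0, h1, -⟩ := sp_basic hH hΔ hK
  have h2 := abs_le.mp (sp_abs2 (abs_of_nonneg h0.le).le (ha w i))
  have h3 := hδ w i
  unfold uvec
  rw [abs_le]
  constructor <;> linarith [h2.1, h2.2, h3.1, h3.2]

private theorem sp_diff (hH : 1 ≤ H) (hΔ : 1 ≤ Δ) (ha : ∀ w i, |a w i| ≤ H)
    (hδ : ∀ w i, 0 ≤ δ w i ∧ δ w i ≤ Δ) (hK : 336 * H ^ 2 * Δ ≤ K) (u v w : W) :
    |idet (uvec K a δ u) (uvec K a δ v) (uvec K a δ w) - K ^ 3 * idet (a u) (a v) (a w)|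
      ≤ 42 * K ^ 2 * H ^ 2 * Δ := by
  obtain ⟨h0, h1, -⟩ := sp_basic hH hΔ hK
  have hd : ∀ w i, |δ w i| ≤ Δ := fun w i => by
    rw [abs_of_nonneg (hδ w i).1]
    exact (hδ w i).2
  exact sp_idet_diff h0.le (by linarith) (by linarith) h1 (ha u) (ha v) (ha w) (hd u) (hd v)
    (hd w) (fun _ => rfl) (fun _ => rfl) (fun _ => rfl)

private theorem sp_bound (hH : 1 ≤ H) (hΔ : 1 ≤ Δ) (ha : ∀ w i, |a w i| ≤ H)
    (hδ : ∀ w i, 0 ≤ δ w i ∧ δ w i ≤ Δ) (hK : 336 * H ^ 2 * Δ ≤ K) (u v w : W) :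
    |idet (uvec K a δ u) (uvec K a δ v) (uvec K a δ w)| ≤ 48 * K ^ 3 * H ^ 3 := by
  have h := sp_idet_bound (sp_entry hH hΔ ha hδ hK u) (sp_entry hH hΔ ha hδ hK v)
    (sp_entry hH hΔ ha hδ hK w)
  calc _ ≤ _ := h
    _ = 48 * K ^ 3 * H ^ 3 := by ring

private theorem sp_cross (hH : 1 ≤ H) (hΔ : 1 ≤ Δ) (ha : ∀ w i, |a w i| ≤ H)
    (hδ : ∀ w i, 0 ≤ δ w i ∧ δ w i ≤ Δ) (hK : 336 * H ^ 2 * Δ ≤ K) (u v : W) (i : Fin 3) :
    |icross (uvec K a δ u) (uvec K a δ v) i| ≤ 8 * K ^ 2 * H ^ 2 := by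
  have key : ∀ i j k l, |uvec K a δ u i * uvec K a δ v j - uvec K a δ u k * uvec K a δ v l|
      ≤ 8 * K ^ 2 * H ^ 2 := by
    intro i j k l
    have h1 := abs_le.mp (sp_abs2 (sp_entry hH hΔ ha hδ hK u i) (sp_entry hH hΔ ha hδ hK v j))
    have h2 := abs_le.mp (sp_abs2 (sp_entry hH hΔ ha hδ hK u k) (sp_entry hH hΔ ha hδ hK v l))
    rw [abs_le]
    constructor <;> linarith [h1.1, h1.2, h2.1, h2.2]
  fin_cases i
  · exact key 1 2 2 1
  · exact key 2 0 0 2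
  · exact key 0 1 1 0

end aux

theorem pert_det {W G : Type} (fv : G → Fin 3 → W) (a δ : W → Fin 3 → ℤ) (K H Δ : ℤ) (hH : 1 ≤ H)
    (hΔ : 1 ≤ Δ) (ha : ∀ w i, |a w i| ≤ H) (hδ : ∀ w i, 0 ≤ δ w i ∧ δ w i ≤ Δ) (hK : 336 * H ^ 2 * Δ ≤ K)
    (hdet : ∀ g, gdet fv a g ≠ 0) (g : G) :
    gdet fv (uvec K a δ) g ≠ 0 ∧ |gdet fv (uvec K a δ) g| ≤ 48 * K ^ 3 * H ^ 3 := by
  refine ⟨?_, sp_bound hH hΔ ha hδ hK _ _ _⟩
  intro h0
  obtain ⟨hK0, -, hK2⟩ := sp_basic hH hΔ hK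
  have h1 := sp_diff hH hΔ ha hδ hK (fv g 0) (fv g 1) (fv g 2)
  change |gdet fv (uvec K a δ) g - K ^ 3 * gdet fv a g| ≤ _ at h1
  rw [h0, zero_sub, abs_neg, abs_mul, abs_of_pos (pow_pos hK0 3)] at h1
  have h2 : 1 ≤ |gdet fv a g| := Int.one_le_abs (hdet g)
  have h3 : 0 < K ^ 3 := pow_pos hK0 3
  nlinarith

theorem pert_main {W G : Type} (fv : G → Fin 3 → W) (a δ : W → Fin 3 → ℤ) (K H Δ M B : ℤ) (hH : 1 ≤ H)
    (hΔ : 1 ≤ Δ) (hM : 1 ≤ M) (ha : ∀ w i, |a w i| ≤ H) (hδ : ∀ w i, 0 ≤ δ w i ∧ δ w i ≤ Δ)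
    (hK : 336 * H ^ 2 * Δ ≤ K) (hB : 385 * M * H ^ 3 ≤ B) (hdet : ∀ g, gdet fv a g ≠ 0)
    (hTh : ∀ g w, ¬ Inc fv g w → 0 < gdet fv a g * Th fv a g w)
    (b : W → ℤ) (hb : ∀ w, B ≤ b w ∧ b w ≤ B + M) (ph : G → Fin 3 → ℤ)
    (hph : ∀ g k, idot (uvec K a δ (fv g k)) (ph g) = b (fv g k)) :
    (∀ g w, ¬ Inc fv g w → idot (uvec K a δ w) (ph g) < b w) ∧
      ∀ g i, |ph g i| ≤ 24 * (B + M) * K ^ 2 * H ^ 2 := by
  obtain ⟨hK0, -, hK2⟩ := sp_basic hH hΔ hK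
  have hK3 : 0 < K ^ 3 := pow_pos hK0 3
  have hH3 : 0 < H ^ 3 := pow_pos (by linarith) 3
  have hMH : 0 < M * H ^ 3 := mul_pos (by linarith) hH3
  have hB0 : 0 ≤ B := by
    have : 0 ≤ 385 * M * H ^ 3 := by linarith
    linarith
  constructor
  · intro g w hw
    have hbw := hb w
    have hb0 := hb (fv g 0)
    have hb1 := hb (fv g 1)
    have hb2 := hb (fv g 2)
    have p0 := hph g 0
    have p1 := hph g 1
    have p2 := hph g 2
    have dD := sp_diff hH hΔ ha hδ hK (fv g 0) (fv g 1) (fv g 2)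
    have d0 := sp_diff hH hΔ ha hδ hK w (fv g 1) (fv g 2)
    have d1 := sp_diff hH hΔ ha hδ hK (fv g 0) w (fv g 2)
    have d2 := sp_diff hH hΔ ha hδ hK (fv g 0) (fv g 1) w
    have bD := sp_bound hH hΔ ha hδ hK (fv g 0) (fv g 1) (fv g 2)
    have bd0 := sp_bound hH hΔ ha hδ hK w (fv g 1) (fv g 2)
    have bd1 := sp_bound hH hΔ ha hδ hK (fv g 0) w (fv g 2)
    have bd2 := sp_bound hH hΔ ha hδ hK (fv g 0) (fv g 1) w
    have hpos := hTh g w hw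
    unfold Th gdet at hpos
    have cr : idet (uvec K a δ (fv g 0)) (uvec K a δ (fv g 1)) (uvec K a δ (fv g 2)) *
        idot (uvec K a δ w) (ph g) =
        idot (uvec K a δ (fv g 0)) (ph g) *
          idet (uvec K a δ w) (uvec K a δ (fv g 1)) (uvec K a δ (fv g 2)) +
        idot (uvec K a δ (fv g 1)) (ph g) *
          idet (uvec K a δ (fv g 0)) (uvec K a δ w) (uvec K a δ (fv g 2)) +
        idot (uvec K a δ (fv g 2)) (ph g) *
          idet (uvec K a δ (fv g 0)) (uvec K a δ (fv g 1)) (uvec K a δ w) := by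
      unfold idet idot
      ring
    rw [p0, p1, p2] at cr
    generalize idet (uvec K a δ (fv g 0)) (uvec K a δ (fv g 1)) (uvec K a δ (fv g 2)) = D at *
    generalize idet (uvec K a δ w) (uvec K a δ (fv g 1)) (uvec K a δ (fv g 2)) = X0 at *
    generalize idet (uvec K a δ (fv g 0)) (uvec K a δ w) (uvec K a δ (fv g 2)) = X1 at *
    generalize idet (uvec K a δ (fv g 0)) (uvec K a δ (fv g 1)) (uvec K a δ w) = X2 at *
    generalize idet (a (fv g 0)) (a (fv g 1)) (a (fv g 2)) = D' at *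
    generalize idet (a w) (a (fv g 1)) (a (fv g 2)) = Y0 at *
    generalize idet (a (fv g 0)) (a w) (a (fv g 2)) = Y1 at *
    generalize idet (a (fv g 0)) (a (fv g 1)) (a w) = Y2 at *
    generalize idot (uvec K a δ w) (ph g) = q at *
    have hBnd : ∀ r x : ℤ, 0 ≤ r → r ≤ M → |x| ≤ 48 * K ^ 3 * H ^ 3 →
        |r * x| ≤ M * (48 * K ^ 3 * H ^ 3) := by
      intro r x hr hrM hx
      exact sp_abs2 (by rw [abs_of_nonneg hr]; exact hrM) hx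
    have r0 := abs_le.mp (hBnd (b w - B) D (by linarith [hbw.1]) (by linarith [hbw.2]) bD)
    have r1 := abs_le.mp (hBnd (b (fv g 0) - B) X0 (by linarith [hb0.1]) (by linarith [hb0.2]) bd0)
    have r2 := abs_le.mp (hBnd (b (fv g 1) - B) X1 (by linarith [hb1.1]) (by linarith [hb1.2]) bd1)
    have r3 := abs_le.mp (hBnd (b (fv g 2) - B) X2 (by linarith [hb2.1]) (by linarith [hb2.2]) bd2)
    have hsum : D * (b w - q) = B * (D - X0 - X1 - X2) + (b w - B) * D - (b (fv g 0) - B) * X0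
        - (b (fv g 1) - B) * X1 - (b (fv g 2) - B) * X2 := by
      have : D * (b w - q) = D * b w - D * q := by ring
      rw [this, cr]
      ring
    rw [abs_le] at dD d0 d1 d2
    have hsmall : 768 * (M * (K ^ 3 * H ^ 3)) + (M * (K ^ 3 * H ^ 3)) * 2 ≤ 2 * (B * K ^ 3) := by
      have := mul_le_mul_of_nonneg_right hB hK3.le
      linarith
    have hMKH : 0 < M * (K ^ 3 * H ^ 3) := mul_pos (by linarith) (mul_pos hK3 hH3)
    rcases lt_trichotomy D' 0 with hD | hD | hD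
    · have hT : D' - Y0 - Y1 - Y2 < 0 := by
        by_contra hc
        rw [not_lt] at hc
        have := mul_nonpos_of_nonpos_of_nonneg hD.le hc
        linarith
      have hD1 : D' ≤ -1 := by omega
      have hT1 : D' - Y0 - Y1 - Y2 ≤ -1 := by omega
      have e1 := mul_le_mul_of_nonneg_left hD1 hK3.le
      have e2 := mul_le_mul_of_nonneg_left hT1 hK3.le
      have hDn : D < 0 := by linarith [dD.1, dD.2]
      have hTn : 2 * (D - X0 - X1 - X2) ≤ - K ^ 3 := by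
        linarith [dD.1, dD.2, d0.1, d0.2, d1.1, d1.2, d2.1, d2.2]
      have e3 := mul_le_mul_of_nonneg_left hTn hB0
      have hneg : D * (b w - q) < 0 := by
        rw [hsum]
        linarith [r0.1, r0.2, r1.1, r1.2, r2.1, r2.2, r3.1, r3.2]
      by_contra hc
      rw [not_lt] at hc
      have := mul_nonneg_of_nonpos_of_nonpos hDn.le (by linarith : b w - q ≤ 0)
      linarith
    · rw [hD, zero_mul] at hpos
      exact absurd hpos (lt_irrefl _)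
    · have hT : 0 < D' - Y0 - Y1 - Y2 := by
        by_contra hc
        rw [not_lt] at hc
        have := mul_nonpos_of_nonneg_of_nonpos hD.le hc
        linarith
      have hD1 : 1 ≤ D' := by omega
      have hT1 : 1 ≤ D' - Y0 - Y1 - Y2 := by omega
      have e1 := mul_le_mul_of_nonneg_left hD1 hK3.le
      have e2 := mul_le_mul_of_nonneg_left hT1 hK3.le
      have hDn : 0 < D := by linarith [dD.1, dD.2]
      have hTn : K ^ 3 ≤ 2 * (D - X0 - X1 - X2) := by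
        linarith [dD.1, dD.2, d0.1, d0.2, d1.1, d1.2, d2.1, d2.2]
      have e3 := mul_le_mul_of_nonneg_left hTn hB0
      have hneg : 0 < D * (b w - q) := by
        rw [hsum]
        linarith [r0.1, r0.2, r1.1, r1.2, r2.1, r2.2, r3.1, r3.2]
      by_contra hc
      rw [not_lt] at hc
      have := mul_nonpos_of_nonneg_of_nonpos hDn.le (by linarith : b w - q ≤ 0)
      linarith
  · intro g i
    have hD := (pert_det fv a δ K H Δ hH hΔ ha hδ hK hdet g).1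
    have hD1 : 1 ≤ |gdet fv (uvec K a δ) g| := Int.one_le_abs hD
    have p0 := hph g 0
    have p1 := hph g 1
    have p2 := hph g 2
    have hbb : ∀ w, |b w| ≤ B + M := fun w => by
      rw [abs_of_nonneg (by linarith [(hb w).1])]
      exact (hb w).2
    have c0 := sp_abs2 (hbb (fv g 0)) (sp_cross hH hΔ ha hδ hK (fv g 1) (fv g 2) i)
    have c1 := sp_abs2 (hbb (fv g 1)) (sp_cross hH hΔ ha hδ hK (fv g 2) (fv g 0) i)
    have c2 := sp_abs2 (hbb (fv g 2)) (sp_cross hH hΔ ha hδ hK (fv g 0) (fv g 1) i)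
    have cr : gdet fv (uvec K a δ) g * ph g i =
        b (fv g 0) * icross (uvec K a δ (fv g 1)) (uvec K a δ (fv g 2)) i +
        b (fv g 1) * icross (uvec K a δ (fv g 2)) (uvec K a δ (fv g 0)) i +
        b (fv g 2) * icross (uvec K a δ (fv g 0)) (uvec K a δ (fv g 1)) i := by
      rw [← p0, ← p1, ← p2]
      unfold gdet idet idot icross
      fin_cases i <;> simp <;> ring
    have h1 : |ph g i| ≤ |gdet fv (uvec K a δ) g * ph g i| := by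
      rw [abs_mul]
      exact le_mul_of_one_le_left (abs_nonneg _) hD1
    refine h1.trans ?_
    rw [cr]
    rw [abs_le] at *
    constructor <;> linarith [c0.1, c0.2, c1.1, c1.2, c2.1, c2.2]

end MP0e5907
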