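import Pool.Agent.Lib_MP_0e5907.SBase

/-!
# Piece SPOLA: the polar dual (facets)

Notation `f · y = ∑ j, f j * y j`.

Paper proof.
* `facet_func`: let `(a,c)` expose `S` (`a · x v ≤ c`, equality iff `v ∈ S`), `S ≠ univ`. Summing over `v`: `0 = ∑ a · x v < card V * c`, so `c > 0`; take `a / c`.
* `polar_hullA`. Induction (strong, `Nat`-valued) on the number of `v` with `c · x v < 1`. Let `C = {v | c · x v = 1}`.
 Case A: there is `d ≠ 0` with `d · x v = 0` for all `v ∈ C`. There is `v` with `d · x v > 0`: otherwise all `d · x v ≤ 0` with sum `0` (`h0`), so all are `0` and `d = 0` by `hf d 0`. Let `t > 0` be the minimum of `(1 - c · x v) / (d · x v)` over the `v` with `d · x v > 0` (they are not in `C`, so the quotients are positive) and `c1 = c + t d`: `c1 · x v ≤ 1` for all `v`, and all `v ∈ C` and at least one more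
 are contact vertices of `c1`. Similarly for `-d`: `c2 = c - t' d`, `t' > 0`. By induction `c1`, `c2` are convex combinations of the `a w`, and `c = (t' c1 + t c2) / (t + t')`.
 Case B: there is no such `d`, i.e. every `d` with `d · x v = 0` for all `v ∈ C` is `0`. Claim `FSet x C`: `C` is exposed by `(c,1)`; `C ≠ univ` since otherwise `card V = ∑ c · x v = 0`, but `V` is not empty (`hf` fails for empty `V`). Let `S' ⊇ C` be exposed by `(a',c')`. Summing, `0 ≤ card V * c'`, so `c' ≥ 0`. If `c' = 0`: all `a' · x v ≤ 0` with sum `0`, so all are `= 0 = c'`: `S' = univ`.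
 If `c' > 0`: `d = a'/c' - c` has `d · x v = 0` for `v ∈ C`, so `d = 0` and `S' = C`. So `C` is one of the `w`, `w = ⟨C, _⟩`, and `a w - c` vanishes on `C` (`ha'`), so `c = a w`; `μ = Pi.single w 1`.
-/

namespace MP0e5907

open Finset

variable {V : Type} [Fintype V]

/-- the scalar product -/
private def dt (c : Fin 3 → ℝ) (y : Fin 3 → ℝ) : ℝ := ∑ j, c j * y j

private theorem dt_add (c d y : Fin 3 → ℝ) (t : ℝ) : dt (fun j => c j + t * d j) y = dt c y + t * dt d y := by
  unfold dt
  rw [Finset.mul_sum, ← Finset.sum_add_distrib]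
  refine Finset.sum_congr rfl fun j _ => ?_
  ring

private theorem dt_sum (x : V → Fin 3 → ℝ) (h0 : ∀ j, ∑ v, x v j = 0) (c : Fin 3 → ℝ) :
    ∑ v, dt c (x v) = 0 := by
  unfold dt
  rw [Finset.sum_comm]
  refine Finset.sum_eq_zero fun j _ => ?_
  rw [← Finset.mul_sum, h0 j, mul_zero]

private theorem exists_pos (x : V → Fin 3 → ℝ) (h0 : ∀ j, ∑ v, x v j = 0)
    (hf : ∀ (a : Fin 3 → ℝ) (c : ℝ), (∀ v, ∑ j, a j * x v j = c) → a = 0) (d : Fin 3 → ℝ)
    (hd : d ≠ 0) : ∃ v, 0 < dt d (x v) := by
  by_contra hcon
  push Not at hcon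
  apply hd
  apply hf d 0
  intro v
  have h1 := (Finset.sum_eq_zero_iff_of_nonpos (s := Finset.univ) (f := fun v => dt d (x v))
    (fun v _ => hcon v)).1 (dt_sum x h0 d)
  exact h1 v (mem_univ v)

private theorem move (x : V → Fin 3 → ℝ) (c d : Fin 3 → ℝ) (hc : ∀ v, dt c (x v) ≤ 1)
    (hd0 : ∀ v, dt c (x v) = 1 → dt d (x v) = 0) (hd : ∃ v, 0 < dt d (x v)) :
    ∃ t : ℝ, 0 < t ∧ (∀ v, dt (fun j => c j + t * d j) (x v) ≤ 1) ∧
      (Finset.univ.filter fun v => dt (fun j => c j + t * d j) (x v) < 1).card <
        (Finset.univ.filter fun v => dt c (x v) < 1).card := by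
  classical
  have hne : (Finset.univ.filter fun v => 0 < dt d (x v)).Nonempty := by
    obtain ⟨v, hv⟩ := hd
    exact ⟨v, mem_filter.2 ⟨mem_univ v, hv⟩⟩
  obtain ⟨v0, hv0, hmin⟩ := Finset.exists_min_image _
    (fun v => (1 - dt c (x v)) / dt d (x v)) hne
  have hv0' : 0 < dt d (x v0) := (mem_filter.1 hv0).2
  have hlt : ∀ v, 0 < dt d (x v) → dt c (x v) < 1 := by
    intro v hv
    refine lt_of_le_of_ne (hc v) fun h => ?_
    rw [hd0 v h] at hv
    exact lt_irrefl _ hv
  set t := (1 - dt c (x v0)) / dt d (x v0) with ht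
  have htpos : 0 < t := div_pos (by linarith [hlt v0 hv0']) hv0'
  have htv : dt c (x v0) + t * dt d (x v0) = 1 := by
    rw [ht, div_mul_cancel₀ _ hv0'.ne']
    ring
  refine ⟨t, htpos, ?_, ?_⟩
  · intro v
    rw [dt_add]
    rcases lt_or_ge 0 (dt d (x v)) with h | h
    · have h1 := hmin v (mem_filter.2 ⟨mem_univ v, h⟩)
      change t ≤ (1 - dt c (x v)) / dt d (x v) at h1
      rw [le_div_iff₀ h] at h1
      linarith
    · have h1 : t * dt d (x v) ≤ 0 := mul_nonpos_of_nonneg_of_nonpos htpos.le h
      linarith [hc v]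
  · refine Finset.card_lt_card ?_
    rw [Finset.ssubset_iff_of_subset]
    · refine ⟨v0, mem_filter.2 ⟨mem_univ _, hlt v0 hv0'⟩, ?_⟩
      rw [mem_filter, dt_add, htv]
      exact fun h => lt_irrefl _ h.2
    · intro v hv
      rw [mem_filter] at hv ⊢
      refine ⟨mem_univ v, lt_of_le_of_ne (hc v) fun h => ?_⟩
      have h1 := hv.2
      rw [dt_add, h, hd0 v h, mul_zero, add_zero] at h1
      exact lt_irrefl _ h1

theorem facet_func (x : V → Fin 3 → ℝ) (h0 : ∀ j, ∑ v, x v j = 0) (S : Set V) (hS : Expo x S) (hu : S ≠ Set.univ) :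
    ∃ a : Fin 3 → ℝ, (∀ v, ∑ j, a j * x v j ≤ 1) ∧ ∀ v, (∑ j, a j * x v j = 1 ↔ v ∈ S) := by
  classical
  obtain ⟨a, c, h⟩ := hS
  obtain ⟨v0, hv0⟩ := (Set.ne_univ_iff_exists_notMem S).1 hu
  have h1 : dt a (x v0) < c := lt_of_le_of_ne (h v0).1 fun h2 => hv0 ((h v0).2.1 h2)
  have h2 : ∑ v, dt a (x v) < ∑ _v : V, c :=
    Finset.sum_lt_sum (fun v _ => (h v).1) ⟨v0, mem_univ v0, h1⟩
  rw [dt_sum x h0 a, Finset.sum_const, nsmul_eq_mul] at h2
  have hc : 0 < c := by
    by_contra h3
    push Not at h3
    have h4 : ((Finset.univ : Finset V).card : ℝ) * c ≤ 0 :=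
      mul_nonpos_of_nonneg_of_nonpos (Nat.cast_nonneg _) h3
    linarith
  have h3 : ∀ v, ∑ j, a j / c * x v j = (∑ j, a j * x v j) / c := by
    intro v
    rw [Finset.sum_div]
    refine Finset.sum_congr rfl fun j _ => ?_
    ring
  refine ⟨fun j => a j / c, fun v => ?_, fun v => ?_⟩
  · change ∑ j, a j / c * x v j ≤ 1
    rw [h3 v, div_le_one hc]
    exact (h v).1
  · change ∑ j, a j / c * x v j = 1 ↔ v ∈ S
    rw [h3 v, div_eq_one_iff_eq hc.ne']
    exact (h v).2

theorem polar_hullA (x : V → Fin 3 → ℝ) (h0 : ∀ j, ∑ v, x v j = 0)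
    (hf : ∀ (a : Fin 3 → ℝ) (c : ℝ), (∀ v, ∑ j, a j * x v j = c) → a = 0)
    [Fintype {S : Set V // FSet x S}] (a : {S : Set V // FSet x S} → Fin 3 → ℝ)
    (ha : ∀ w v, ∑ j, a w j * x v j ≤ 1) (ha' : ∀ w v, ∑ j, a w j * x v j = 1 ↔ v ∈ w.1)
    (c : Fin 3 → ℝ) (hc : ∀ v, ∑ j, c j * x v j ≤ 1) :
    ∃ μ : {S : Set V // FSet x S} → ℝ, (∀ w, 0 ≤ μ w) ∧ ∑ w, μ w = 1 ∧ ∀ j, c j = ∑ w, μ w * a w j := by
  classical
  have hVne : Nonempty V := by
    by_contra hV
    rw [not_nonempty_iff] at hV
    have h1 := hf (fun _ => 1) 0 (fun v => (hV.false v).elim)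
    have h2 := congrFun h1 0
    norm_num at h2
  obtain ⟨N, hN⟩ : ∃ N, (Finset.univ.filter fun v => dt c (x v) < 1).card = N := ⟨_, rfl⟩
  induction N using Nat.strong_induction_on generalizing c with
  | _ N ih =>
    subst hN
    by_cases hA : ∃ d : Fin 3 → ℝ, d ≠ 0 ∧ ∀ v, dt c (x v) = 1 → dt d (x v) = 0
    · obtain ⟨d, hd, hd0⟩ := hA
      have hneg : ∀ v, dt (fun j => -d j) (x v) = -dt d (x v) := by
        intro v
        unfold dt
        rw [← Finset.sum_neg_distrib]
        refine Finset.sum_congr rfl fun j _ => ?_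
        ring
      obtain ⟨t, ht, h1, h2⟩ := move x c d hc hd0 (exists_pos x h0 hf d hd)
      obtain ⟨t', ht', h1', h2'⟩ := move x c (fun j => -d j) hc
        (fun v hv => by rw [hneg, hd0 v hv, neg_zero])
        (exists_pos x h0 hf (fun j => -d j) (fun h => hd (by
          funext j
          have := congrFun h j
          simpa using this)))
      obtain ⟨μ, hμ0, hμ1, hμ⟩ := ih _ h2 _ h1 rfl
      obtain ⟨ν, hν0, hν1, hν⟩ := ih _ h2' _ h1' rfl
      have hs : 0 < t + t' := by linarith
      refine ⟨fun w => (t' * μ w + t * ν w) / (t + t'), fun w => ?_, ?_, fun j => ?_⟩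
      · have := mul_nonneg ht'.le (hμ0 w)
        have := mul_nonneg ht.le (hν0 w)
        exact div_nonneg (by linarith) hs.le
      · rw [← Finset.sum_div, Finset.sum_add_distrib, ← Finset.mul_sum, ← Finset.mul_sum, hμ1, hν1,
          mul_one, mul_one, div_eq_one_iff_eq hs.ne']
        ring
      · have e1 := hμ j
        have e2 := hν j
        have e3 : ∑ w, (t' * μ w + t * ν w) / (t + t') * a w j =
            (t' * ∑ w, μ w * a w j + t * ∑ w, ν w * a w j) / (t + t') := by
          rw [Finset.mul_sum, Finset.mul_sum, ← Finset.sum_add_distrib, Finset.sum_div]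
          refine Finset.sum_congr rfl fun w _ => ?_
          ring
        rw [e3, ← e1, ← e2, eq_div_iff hs.ne']
        ring
    · push Not at hA
      have hB : ∀ d : Fin 3 → ℝ, (∀ v, dt c (x v) = 1 → dt d (x v) = 0) → d = 0 := by
        intro d hd
        by_contra h
        obtain ⟨v, hv, hv'⟩ := hA d h
        exact hv' (hd v hv)
      have hcard : (0 : ℝ) < ((Finset.univ : Finset V).card : ℝ) := by
        have : 0 < (Finset.univ : Finset V).card := Finset.card_pos.2 Finset.univ_nonempty
        exact_mod_cast this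
      have hF : FSet x {v | dt c (x v) = 1} := by
        refine ⟨⟨c, 1, fun v => ⟨hc v, Iff.rfl⟩⟩, ?_, ?_⟩
        · intro hu
          have h1 : ∀ v, dt c (x v) = 1 := fun v => by
            have : v ∈ {v | dt c (x v) = 1} := by rw [hu]; exact Set.mem_univ v
            exact this
          have h2 := hf c 1 h1
          obtain ⟨v⟩ := hVne
          have h3 := h1 v
          rw [h2] at h3
          unfold dt at h3
          simp at h3
        · rintro S' ⟨a', c', hS'⟩ hsub
          have h1 : ∑ v, dt a' (x v) ≤ ∑ _v : V, c' := Finset.sum_le_sum fun v _ => (hS' v).1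
          rw [dt_sum x h0 a', Finset.sum_const, nsmul_eq_mul] at h1
          have hc' : 0 ≤ c' := by
            by_contra h2
            push Not at h2
            have := mul_neg_of_pos_of_neg hcard h2
            linarith
          rcases hc'.eq_or_lt with h2 | h2
          · right
            have h3 := (Finset.sum_eq_zero_iff_of_nonpos (s := Finset.univ)
              (f := fun v => dt a' (x v)) (fun v _ => by rw [h2]; exact (hS' v).1)).1
              (dt_sum x h0 a')
            refine Set.eq_univ_of_forall fun v => ?_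
            rw [← (hS' v).2, ← h2]
            exact h3 v (mem_univ v)
          · left
            have h3 : (fun j => a' j / c' + (-1) * c j) = 0 := by
              apply hB
              intro v hv
              have h4 : dt a' (x v) = c' := (hS' v).2.2 (hsub hv)
              have h5 : dt (fun j => a' j / c') (x v) = dt a' (x v) / c' := by
                unfold dt
                rw [Finset.sum_div]
                refine Finset.sum_congr rfl fun j _ => ?_
                ring
              rw [dt_add (fun j => a' j / c') c (x v) (-1), h5, h4, hv, div_self h2.ne']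
              ring
            have h4 : ∀ j, a' j = c' * c j := by
              intro j
              have h5 := congrFun h3 j
              change a' j / c' + (-1) * c j = 0 at h5
              have h6 : a' j / c' = c j := by linarith
              rw [← h6]
              field_simp
            ext v
            rw [← (hS' v).2]
            change ∑ j, a' j * x v j = c' ↔ dt c (x v) = 1
            have h5 : ∑ j, a' j * x v j = c' * dt c (x v) := by
              unfold dt
              rw [Finset.mul_sum]
              refine Finset.sum_congr rfl fun j _ => ?_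
              rw [h4 j]
              ring
            rw [h5]
            constructor
            · intro h6
              have h7 : c' * dt c (x v) = c' * 1 := by rw [h6, mul_one]
              exact mul_left_cancel₀ h2.ne' h7
            · intro h6
              rw [h6, mul_one]
      have hw : a ⟨{v | dt c (x v) = 1}, hF⟩ = c := by
        have h1 : (fun j => a ⟨{v | dt c (x v) = 1}, hF⟩ j + (-1) * c j) = 0 := by
          apply hB
          intro v hv
          have h2 : dt (a ⟨{v | dt c (x v) = 1}, hF⟩) (x v) = 1 := (ha' ⟨_, hF⟩ v).2 hv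
          rw [dt_add, h2, hv]
          ring
        funext j
        have h2 := congrFun h1 j
        change a ⟨{v | dt c (x v) = 1}, hF⟩ j + (-1) * c j = 0 at h2
        linarith
      refine ⟨Pi.single ⟨{v | dt c (x v) = 1}, hF⟩ 1, fun w => ?_, ?_, fun j => ?_⟩
      · by_cases h : w = ⟨{v | dt c (x v) = 1}, hF⟩
        · rw [h, Pi.single_eq_same]
          exact zero_le_one
        · rw [Pi.single_eq_of_ne h]
      · rw [Finset.sum_pi_single']
        simp
      · rw [Finset.sum_eq_single ⟨{v | dt c (x v) = 1}, hF⟩]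
        · rw [Pi.single_eq_same, one_mul, hw]
        · intro w _ hne
          rw [Pi.single_eq_of_ne hne, zero_mul]
        · intro h
          exact absurd (mem_univ _) h

end MP0e5907
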