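import Pool.Agent.Lib_MP_0e5907.SBase

/-!
# Piece SPOLC: exposed sets of a polar pair

Notation `f · y = ∑ j, f j * y j`.

Paper proof.
* `polar_posA`: `b ≠ 0`, `b · a w ≤ c` for all `w`. Choose `ε > 0` with `ε (b · x v) ≤ 1` for all `v` (finitely many). By `hullA`: `ε b = ∑ μ_w a w`, so `0 < ε (b · b) = ∑ μ_w (b · a w) ≤ c`.
* `polar_posX`: the same with `hullX` (`f · x v ≤ c` for all `v`, `f ≠ 0`; `ε (a w · f) ≤ 1`).
* `polar_expo`. (⇐) `f = ∑_{w ∈ J} a w`, `c = card J` (`J` as a finset, classical): `f · x v = ∑_{w ∈ J} a w · x v ≤ c` with equality iff all `a w · x v = 1`, i.e. `I v w` for all `w ∈ J`. (⇒) let `(f,c)` expose `S`. If `f = 0`: with `v ∈ S` we get `c = 0`, so `S = univ`, `J = ∅`. If `f ≠ 0`: `c > 0` (`polar_posX`), `f/c` satisfies `(f/c) · x v ≤ 1`, so by `hullA` `f/c = ∑ μ_w a w`; let `J = {w | μ_w ≠ 0}`: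
 `v ∈ S` iff `(f/c) · x v = 1` iff `∑ μ_w (1 - a w · x v) = 0` iff all terms vanish (they are nonnegative) iff `I v w` for all `w ∈ J`.
* `polar_span`. `{v}` is exposed by `(f,c)`. `f ≠ 0`: there is `u ≠ v`, or ... if `f = 0` then `c = 0` and all elements are equal to `v`; then `hullX` says that the only `c'` with `a w · c' ≤ 1` for all `w` is `c' = x v` (weights sum to 1), but for `ε` small both `ε e_0` and `0` are such (`e_0 = Pi.single 0 1`): contradiction. So `c > 0` by `polar_posX`; replace `f` by `f/c`: `f · x v = 1`, `f · x u < 1` for `u ≠ v`. Let `s = d · x v`, `d' = d - s f`, so `d' · x v = 0`.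
 Choose `ε > 0` with `(f + ε d') · x u ≤ 1` for all `u ≠ v`; it also holds for `v`. `hullA` for `f + ε d'` and for `f`: `f + ε d' = ∑ μ_w a w`, `f = ∑ ν_w a w`. Evaluate at `x v`: `1 = ∑ μ_w (a w · x v) ≤ ∑ μ_w = 1`, so `μ_w ≠ 0` implies `a w · x v = 1`, i.e. `I v w`; the same for `ν`. Then `d = (1/ε) (∑ μ_w a w - ∑ ν_w a w) + s ∑ ν_w a w`.
-/

namespace MP0e5907

open Finset

variable {V W : Type} [Fintype V] [Fintype W] {x : V → Fin 3 → ℝ} {a : W → Fin 3 → ℝ} {I : V → W → Prop}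

/-- small multiples -/
private theorem spc_eps {U : Type} [Fintype U] (g : U → ℝ) : ∃ ε : ℝ, 0 < ε ∧ ∀ u, ε * g u ≤ 1 := by
  have h0 : 0 ≤ ∑ u, |g u| := Finset.sum_nonneg fun u _ => abs_nonneg _
  refine ⟨(1 + ∑ u, |g u|)⁻¹, by positivity, fun u => ?_⟩
  have h1 : |g u| ≤ ∑ u, |g u| := Finset.single_le_sum (f := fun u => |g u|)
    (fun u _ => abs_nonneg _) (Finset.mem_univ u)
  have h2 : g u ≤ 1 + ∑ u, |g u| := (le_abs_self _).trans (by linarith)
  rw [inv_mul_le_iff₀ (by linarith)]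
  linarith

/-- interchanging the sums -/
private theorem spc_swap {U : Type} [Fintype U] (μ : U → ℝ) (a : U → Fin 3 → ℝ) (y : Fin 3 → ℝ) :
    ∑ j, (∑ w, μ w * a w j) * y j = ∑ w, μ w * ∑ j, a w j * y j := by
  simp only [Finset.sum_mul, Finset.mul_sum]
  rw [Finset.sum_comm]
  exact Finset.sum_congr rfl fun w _ => Finset.sum_congr rfl fun j _ => by ring

/-- the common argument for the positivity -/
private theorem spc_pos {U : Type} [Fintype U] (a : U → Fin 3 → ℝ) (b : Fin 3 → ℝ) (c ε : ℝ)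
    (hε : 0 < ε) (hb : b ≠ 0) (μ : U → ℝ) (hμ0 : ∀ w, 0 ≤ μ w) (hμ1 : ∑ w, μ w = 1)
    (hμ : ∀ j, ε * b j = ∑ w, μ w * a w j) (h : ∀ w, ∑ j, b j * a w j ≤ c) : 0 < c := by
  have h1 : ∑ j, (∑ w, μ w * a w j) * b j ≤ c := by
    rw [spc_swap]
    calc ∑ w, μ w * ∑ j, a w j * b j ≤ ∑ w, μ w * c :=
          Finset.sum_le_sum fun w _ => mul_le_mul_of_nonneg_left
            (by
              have := h w
              simp only [mul_comm (a w _)]
              exact this) (hμ0 w)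
      _ = c := by rw [← Finset.sum_mul, hμ1, one_mul]
  have h2 : 0 < ∑ j, (∑ w, μ w * a w j) * b j := by
    obtain ⟨i, hi⟩ : ∃ i, b i ≠ 0 := by
      by_contra hall
      push Not at hall
      exact hb (funext hall)
    refine Finset.sum_pos' (fun j _ => ?_) ⟨i, Finset.mem_univ i, ?_⟩
    · rw [← hμ, mul_assoc]
      exact mul_nonneg hε.le (mul_self_nonneg _)
    · rw [← hμ, mul_assoc]
      exact mul_pos hε (mul_self_pos.2 hi)
  linarith

theorem polar_posA (hp : Polar x a I) (b : Fin 3 → ℝ) (c : ℝ) (hb : b ≠ 0) (h : ∀ w, ∑ j, b j * a w j ≤ c) :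
    0 < c := by
  obtain ⟨ε, hε, he⟩ := spc_eps fun v => ∑ j, b j * x v j
  obtain ⟨μ, h0, h1, h2⟩ := hp.hullA (fun j => ε * b j) (fun v => by
    have := he v
    simp only [Finset.mul_sum] at this
    simpa only [mul_assoc] using this)
  exact spc_pos a b c ε hε hb μ h0 h1 h2 h

theorem polar_posX (hp : Polar x a I) (f : Fin 3 → ℝ) (c : ℝ) (hf : f ≠ 0) (h : ∀ v, ∑ j, f j * x v j ≤ c) :
    0 < c := by
  obtain ⟨ε, hε, he⟩ := spc_eps fun w => ∑ j, a w j * f j
  obtain ⟨μ, h0, h1, h2⟩ := hp.hullX (fun j => ε * f j) (fun w => by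
    have := he w
    simp only [Finset.mul_sum] at this
    simpa only [mul_left_comm] using this)
  exact spc_pos x f c ε hε hf μ h0 h1 h2 h

/-- the support of a tight combination -/
private theorem spc_tight (hp : Polar x a I) (v : V) (μ : W → ℝ) (h0 : ∀ w, 0 ≤ μ w)
    (h1 : ∑ w, μ w = 1) : (∑ w, μ w * ∑ j, a w j * x v j) = 1 ↔ ∀ w, μ w ≠ 0 → I v w := by
  have key : ∑ w, μ w * (1 - ∑ j, a w j * x v j) = 1 - ∑ w, μ w * ∑ j, a w j * x v j := by
    simp only [mul_sub, mul_one, Finset.sum_sub_distrib]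
    rw [h1]
  have hnn : ∀ w ∈ Finset.univ, 0 ≤ μ w * (1 - ∑ j, a w j * x v j) := fun w _ =>
    mul_nonneg (h0 w) (sub_nonneg.2 (hp.le v w))
  constructor
  · intro h w hw
    rw [h, sub_self] at key
    have h2 := (Finset.sum_eq_zero_iff_of_nonneg hnn).1 key w (Finset.mem_univ w)
    have h3 := (mul_eq_zero.1 h2).resolve_left hw
    exact (hp.eq v w).1 (by linarith)
  · intro h
    have h2 : ∑ w, μ w * (1 - ∑ j, a w j * x v j) = 0 := by
      refine Finset.sum_eq_zero fun w _ => ?_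
      by_cases hw : μ w = 0
      · rw [hw, zero_mul]
      · rw [(hp.eq v w).2 (h w hw), sub_self, mul_zero]
    linarith

theorem polar_expo (hp : Polar x a I) (S : Set V) (hS : S.Nonempty) :
    Expo x S ↔ ∃ J : Set W, S = {v | ∀ w ∈ J, I v w} := by
  classical
  constructor
  · rintro ⟨f, c, hfc⟩
    by_cases hf : f = 0
    · subst hf
      obtain ⟨v0, hv0⟩ := hS
      have hc : (0 : ℝ) = c := by
        have := (hfc v0).2.2 hv0
        simpa using this
      refine ⟨∅, Set.eq_of_subset_of_subset (fun v _ => ?_) (fun v _ => ?_)⟩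
      · intro w hw
        exact absurd hw (Set.notMem_empty w)
      · exact (hfc v).2.1 (by simpa using hc)
    · have hc := polar_posX hp f c hf (fun v => (hfc v).1)
      have hdiv : ∀ v, ∑ j, f j / c * x v j = (∑ j, f j * x v j) / c := by
        intro v
        rw [Finset.sum_div]
        exact Finset.sum_congr rfl fun j _ => by ring
      obtain ⟨μ, h0, h1, h2⟩ := hp.hullA (fun j => f j / c) (fun v => by
        rw [hdiv, div_le_one hc]
        exact (hfc v).1)
      refine ⟨{w | μ w ≠ 0}, Set.ext fun v => ?_⟩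
      have h3 := spc_tight hp v μ h0 h1
      rw [← spc_swap] at h3
      simp only [← h2] at h3
      rw [hdiv, div_eq_one_iff_eq hc.ne'] at h3
      exact (hfc v).2.symm.trans h3
  · rintro ⟨J, rfl⟩
    refine ⟨fun j => ∑ w ∈ Finset.univ.filter (· ∈ J), a w j, ((Finset.univ.filter (· ∈ J)).card : ℝ),
      fun v => ?_⟩
    have h1 : ∑ j, (∑ w ∈ Finset.univ.filter (· ∈ J), a w j) * x v j =
        ∑ w ∈ Finset.univ.filter (· ∈ J), ∑ j, a w j * x v j := by
      simp only [Finset.sum_mul]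
      rw [Finset.sum_comm]
    have h2 : ((Finset.univ.filter (· ∈ J)).card : ℝ) =
        ∑ w ∈ Finset.univ.filter (· ∈ J), (1 : ℝ) := by
      simp
    rw [h1, h2]
    refine ⟨Finset.sum_le_sum fun w _ => hp.le v w, ?_⟩
    rw [Finset.sum_eq_sum_iff_of_le fun w _ => hp.le v w]
    simp only [Finset.mem_filter, Finset.mem_univ, true_and, Set.mem_setOf_eq]
    exact forall₂_congr fun w _ => hp.eq v w

/-- a single point cannot have a polar -/
private theorem spc_ne (hp : Polar x a I) (v : V) (hall : ∀ u : V, u = v) : False := by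
  have h1 : ∀ c : Fin 3 → ℝ, (∀ w, ∑ j, a w j * c j ≤ 1) → c 0 = x v 0 := by
    intro c hc
    obtain ⟨μ, -, h2, h3⟩ := hp.hullX c hc
    rw [h3 0]
    calc ∑ u, μ u * x u 0 = ∑ u, μ u * x v 0 :=
          Finset.sum_congr rfl fun u _ => by rw [hall u]
      _ = x v 0 := by rw [← Finset.sum_mul, h2, one_mul]
  obtain ⟨ε, hε, he⟩ := spc_eps fun w => a w 0
  have h2 := h1 (Pi.single 0 ε) (fun w => by
    rw [Finset.sum_eq_single 0]
    · rw [Pi.single_eq_same, mul_comm]
      exact he w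
    · intro j _ hj
      rw [Pi.single_eq_of_ne hj, mul_zero]
    · intro h
      exact absurd (Finset.mem_univ _) h)
  have h3 := h1 0 (fun w => by simp)
  rw [Pi.single_eq_same] at h2
  rw [Pi.zero_apply] at h3
  linarith

theorem polar_span (hp : Polar x a I) (v : V) (hv : Expo x {v}) (d : Fin 3 → ℝ) :
    ∃ μ : W → ℝ, (∀ w, μ w ≠ 0 → I v w) ∧ ∀ j, d j = ∑ w, μ w * a w j := by
  obtain ⟨f, c, hfc⟩ := hv
  have hf : f ≠ 0 := by
    rintro rfl
    have hc : (0 : ℝ) = c := by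
      have := (hfc v).2.2 rfl
      simpa using this
    exact spc_ne hp v fun u => (hfc u).2.1 (by simpa using hc)
  have hc := polar_posX hp f c hf (fun v => (hfc v).1)
  -- the normalised functional
  obtain ⟨f', hf'⟩ : ∃ f' : Fin 3 → ℝ, f' = fun j => f j / c := ⟨_, rfl⟩
  have hdiv : ∀ u, ∑ j, f' j * x u j = (∑ j, f j * x u j) / c := by
    intro u
    rw [hf', Finset.sum_div]
    exact Finset.sum_congr rfl fun j _ => by ring
  have hfv : ∑ j, f' j * x v j = 1 := by
    rw [hdiv, (hfc v).2.2 rfl, div_self hc.ne']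
  have hfu : ∀ u, u ≠ v → ∑ j, f' j * x u j < 1 := by
    intro u hu
    rw [hdiv, div_lt_one hc]
    exact lt_of_le_of_ne (hfc u).1 fun h => hu ((hfc u).2.1 h)
  obtain ⟨s, hs⟩ : ∃ s : ℝ, s = ∑ j, d j * x v j := ⟨_, rfl⟩
  obtain ⟨d', hd'⟩ : ∃ d' : Fin 3 → ℝ, d' = fun j => d j - s * f' j := ⟨_, rfl⟩
  have hd'v : ∑ j, d' j * x v j = 0 := by
    have : ∑ j, d' j * x v j = ∑ j, d j * x v j - s * ∑ j, f' j * x v j := by
      rw [hd', Finset.mul_sum, ← Finset.sum_sub_distrib]
      exact Finset.sum_congr rfl fun j _ => by ring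
    rw [this, ← hs, hfv, mul_one, sub_self]
  obtain ⟨ε, hε, he⟩ := spc_eps fun u => (∑ j, d' j * x u j) / (1 - ∑ j, f' j * x u j)
  have hcomb : ∀ u, ∑ j, (f' j + ε * d' j) * x u j =
      ∑ j, f' j * x u j + ε * ∑ j, d' j * x u j := by
    intro u
    rw [Finset.mul_sum, ← Finset.sum_add_distrib]
    exact Finset.sum_congr rfl fun j _ => by ring
  obtain ⟨μ, h0, h1, h2⟩ := hp.hullA (fun j => f' j + ε * d' j) (fun u => by
    rw [hcomb]
    by_cases hu : u = v
    · rw [hu, hfv, hd'v, mul_zero, add_zero]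
    · have h3 := he u
      have h4 : 0 < 1 - ∑ j, f' j * x u j := sub_pos.2 (hfu u hu)
      rw [← mul_div_assoc, div_le_one h4] at h3
      linarith)
  obtain ⟨κ, k0, k1, k2⟩ := hp.hullA f' (fun u => by
    by_cases hu : u = v
    · rw [hu, hfv]
    · exact (hfu u hu).le)
  have h3 := (spc_tight hp v μ h0 h1).1 (by
    rw [← spc_swap]
    simp only [← h2]
    rw [hcomb, hfv, hd'v, mul_zero, add_zero])
  have k3 := (spc_tight hp v κ k0 k1).1 (by
    rw [← spc_swap]
    simp only [← k2]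
    exact hfv)
  refine ⟨fun w => ε⁻¹ * (μ w - κ w) + s * κ w, fun w hw => ?_, fun j => ?_⟩
  · by_cases hμ : μ w = 0
    · by_cases hκ : κ w = 0
      · exact absurd (by simp [hμ, hκ]) hw
      · exact k3 w hκ
    · exact h3 w hμ
  · have e1 : ∑ w, (ε⁻¹ * (μ w - κ w) + s * κ w) * a w j =
        ε⁻¹ * (∑ w, μ w * a w j - ∑ w, κ w * a w j) + s * ∑ w, κ w * a w j := by
      rw [← Finset.sum_sub_distrib, Finset.mul_sum, Finset.mul_sum, ← Finset.sum_add_distrib]
      exact Finset.sum_congr rfl fun w _ => by ring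
    rw [e1, ← h2 j, ← k2 j, hd']
    field_simp
    ring

end MP0e5907
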