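import Pool.Agent.Lib_MP_0e5907.SBase
import Pool.Agent.Lib_MP_0e5907.QRealise

/-!
# Piece SREAL: integral normals from the realisation of the triangulation

Paper proof. `stri_realise2 T hT` gives `Y`, with `m = card N + 3` vertices (`W = N ⊕ Fin 3`, `card W = m`) and `Y v j ≤ m^200`. For a nonempty set `S`: `Expo Y S` iff `S = univ` or `∃ g : Option F, ∀ v ∈ S, Inc (sfv T) g v` (the case `none` is the case of the roots). Put `a w i = m * Y w i - ∑ v, Y v i` (integers): `|a w i| ≤ m * m^200 = m^201`.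
`exposed`: let `g : Option F` and let `S` be a nonempty set of vertices of `g`. Then `Expo Y S`: there are `f, c` with `f · Y w ≤ c`, equality iff `w ∈ S`. Hence `f · a w = m (f · Y w) - f · ∑ Y ≤ γ := m c - f · ∑ Y`, with equality iff `w ∈ S`. For `S` = all vertices of `g`: `γ > 0`, because `∑_w (c - f · Y w) = γ` and not all vertices are in `g` (`card W ≥ 4`).
* `gdet ≠ 0`. Let `A_j = a (sfv T g j)`. If `gdet = 0` there are real `λ_0, λ_1, λ_2`, not all zero, with `∑ λ_j A_j = 0` (`Matrix.exists_vecMul_eq_zero_iff` or similar, `gdet` is a `3 × 3` determinant). Apply the functional of `S = g`: `γ ∑ λ_j = 0`, so `∑ λ_j = 0`. Let `P = {j | λ_j > 0}`: it is not empty and not everything. Take the functional `(f', γ')` of `S = {sfv T g j | j ∈ P}`: `f' · A_j = γ'` for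
 `j ∈ P` and `f' · A_j < γ'` for `j ∉ P` (`sfv T g` is injective by `T.reg_vert`, resp. `Sum.inr` injective). So `0 = ∑ λ_j f' · A_j = ∑ λ_j (f' · A_j - γ') > 0` (the terms with `j ∈ P` vanish, the others are `≥ 0`, and there is `j` with `λ_j < 0`). Contradiction.
* Let `w` not be a vertex of `g`, and `f, γ > 0` the functional of `S = g`, `p = f / γ`: `p · A_j = 1`, `p · a w < 1`. Cramer identity (`ring`): `gdet * (p · a w) = (p · A_0) idet (a w) A_1 A_2 + (p · A_1) idet A_0 (a w) A_2 + (p · A_2) idet A_0 A_1 (a w)`, so `Th = gdet * (1 - p · a w)` and `gdet * Th = gdet^2 (1 - p · a w) > 0` (over `ℝ`, then cast back to `ℤ`).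
-/

namespace MP0e5907

private theorem sreal_inj {N F : Type} (T : STri N F) (g : Option F) : Function.Injective (sfv T g) := by
  cases g with
  | none => exact fun i j h => Sum.inr_injective h
  | some f =>
    intro i j h
    have h1 := T.reg_vert f i
    have h2 := T.reg_vert f j
    have h3 : T.vert f i = T.vert f j := h
    rw [h3, h2] at h1
    exact h1.symm

private theorem sreal_func {W : Type} [Fintype W] (Y : W → Fin 3 → ℕ) (S : Set W)
    (h : Expo (fun v j => (Y v j : ℝ)) S) :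
    ∃ (f : Fin 3 → ℝ) (γ : ℝ), (∀ w, ∑ i, f i * (((Fintype.card W : ℤ) * Y w i - ∑ v, (Y v i : ℤ) : ℤ) : ℝ) ≤ γ ∧
      (∑ i, f i * (((Fintype.card W : ℤ) * Y w i - ∑ v, (Y v i : ℤ) : ℤ) : ℝ) = γ ↔ w ∈ S)) ∧
      (∀ w, w ∉ S → 0 < γ) := by
  obtain ⟨f, c, hf⟩ := h
  have hval : ∀ w, ∑ i, f i * (((Fintype.card W : ℤ) * Y w i - ∑ v, (Y v i : ℤ) : ℤ) : ℝ)
      = (Fintype.card W : ℝ) * (∑ i, f i * (Y w i : ℝ)) - ∑ v, ∑ i, f i * (Y v i : ℝ) := by
    intro w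
    rw [Finset.sum_comm, Finset.mul_sum, ← Finset.sum_sub_distrib]
    refine Finset.sum_congr rfl fun i _ => ?_
    push_cast
    rw [← Finset.mul_sum]
    ring
  by_cases hW : Nonempty W
  · have hcard : (0 : ℝ) < (Fintype.card W : ℝ) := by
      have := Fintype.card_pos (α := W)
      exact_mod_cast this
    refine ⟨f, (Fintype.card W : ℝ) * c - ∑ v, ∑ i, f i * (Y v i : ℝ), fun w => ?_, fun w hw => ?_⟩
    · rw [hval w]
      obtain ⟨h1, h2⟩ := hf w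
      refine ⟨by nlinarith, ?_⟩
      rw [← h2]
      constructor
      · intro h3
        have h4 : (Fintype.card W : ℝ) * (∑ i, f i * (Y w i : ℝ)) = (Fintype.card W : ℝ) * c := by linarith
        exact mul_left_cancel₀ hcard.ne' h4
      · intro h3
        rw [h3]
    · have h1 : (Fintype.card W : ℝ) * c - ∑ v, ∑ i, f i * (Y v i : ℝ)
          = ∑ v : W, (c - ∑ i, f i * (Y v i : ℝ)) := by
        rw [Finset.sum_sub_distrib, Finset.sum_const, nsmul_eq_mul, Finset.card_univ]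
      rw [h1]
      refine Finset.sum_pos' (fun v _ => sub_nonneg.mpr (hf v).1) ⟨w, Finset.mem_univ w, ?_⟩
      rw [sub_pos]
      exact lt_of_le_of_ne (hf w).1 fun h => hw ((hf w).2.mp h)
  · refine ⟨f, 0, fun w => (hW ⟨w⟩).elim, fun w _ => (hW ⟨w⟩).elim⟩

private theorem sreal_sum3 (f : Fin 3 → ℝ) (x : Fin 3 → ℤ) :
    ∑ i, f i * (x i : ℝ) = f 0 * (x 0 : ℝ) + f 1 * (x 1 : ℝ) + f 2 * (x 2 : ℝ) := by
  rw [Fin.sum_univ_three]

private theorem sreal_lin (A : Fin 3 → Fin 3 → ℤ) (h : idet (A 0) (A 1) (A 2) = 0) :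
    ∃ l : Fin 3 → ℝ, l ≠ 0 ∧ ∀ f : Fin 3 → ℝ, ∑ j, l j * (∑ i, f i * (A j i : ℝ)) = 0 := by
  let M : Matrix (Fin 3) (Fin 3) ℝ := fun j i => (A j i : ℝ)
  have hdet : M.det = 0 := by
    rw [Matrix.det_fin_three]
    have h2 : ((idet (A 0) (A 1) (A 2) : ℤ) : ℝ) = 0 := by rw [h, Int.cast_zero]
    rw [idet] at h2
    push_cast at h2
    show (A 0 0 : ℝ) * (A 1 1 : ℝ) * (A 2 2 : ℝ) - (A 0 0 : ℝ) * (A 1 2 : ℝ) * (A 2 1 : ℝ)
      - (A 0 1 : ℝ) * (A 1 0 : ℝ) * (A 2 2 : ℝ) + (A 0 1 : ℝ) * (A 1 2 : ℝ) * (A 2 0 : ℝ)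
      + (A 0 2 : ℝ) * (A 1 0 : ℝ) * (A 2 1 : ℝ) - (A 0 2 : ℝ) * (A 1 1 : ℝ) * (A 2 0 : ℝ) = 0
    linarith
  obtain ⟨l, hl, hM⟩ := Matrix.exists_vecMul_eq_zero_iff.mpr hdet
  refine ⟨l, hl, fun f => ?_⟩
  have h1 : ∀ i, ∑ j, l j * (A j i : ℝ) = 0 := by
    intro i
    have := congrFun hM i
    exact this
  calc ∑ j, l j * (∑ i, f i * (A j i : ℝ)) = ∑ j, ∑ i, f i * (l j * (A j i : ℝ)) := by
        refine Finset.sum_congr rfl fun j _ => ?_
        rw [Finset.mul_sum]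
        exact Finset.sum_congr rfl fun i _ => by ring
    _ = ∑ i, ∑ j, f i * (l j * (A j i : ℝ)) := Finset.sum_comm
    _ = ∑ i, f i * ∑ j, l j * (A j i : ℝ) := Finset.sum_congr rfl fun i _ => by rw [Finset.mul_sum]
    _ = 0 := by
        refine Finset.sum_eq_zero fun i _ => ?_
        rw [h1 i, mul_zero]

private theorem sreal_cramer (x A0 A1 A2 : Fin 3 → ℤ) (f : Fin 3 → ℝ) (γ : ℝ)
    (h0 : f 0 * (A0 0 : ℝ) + f 1 * (A0 1 : ℝ) + f 2 * (A0 2 : ℝ) = γ)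
    (h1 : f 0 * (A1 0 : ℝ) + f 1 * (A1 1 : ℝ) + f 2 * (A1 2 : ℝ) = γ)
    (h2 : f 0 * (A2 0 : ℝ) + f 1 * (A2 1 : ℝ) + f 2 * (A2 2 : ℝ) = γ) :
    ((idet A0 A1 A2 : ℤ) : ℝ) * (f 0 * (x 0 : ℝ) + f 1 * (x 1 : ℝ) + f 2 * (x 2 : ℝ))
      = γ * (((idet x A1 A2 : ℤ) : ℝ) + ((idet A0 x A2 : ℤ) : ℝ) + ((idet A0 A1 x : ℤ) : ℝ)) := by
  have key : ((idet A0 A1 A2 : ℤ) : ℝ) * (f 0 * (x 0 : ℝ) + f 1 * (x 1 : ℝ) + f 2 * (x 2 : ℝ))
      = (f 0 * (A0 0 : ℝ) + f 1 * (A0 1 : ℝ) + f 2 * (A0 2 : ℝ)) * ((idet x A1 A2 : ℤ) : ℝ)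
        + (f 0 * (A1 0 : ℝ) + f 1 * (A1 1 : ℝ) + f 2 * (A1 2 : ℝ)) * ((idet A0 x A2 : ℤ) : ℝ)
        + (f 0 * (A2 0 : ℝ) + f 1 * (A2 1 : ℝ) + f 2 * (A2 2 : ℝ)) * ((idet A0 A1 x : ℤ) : ℝ) := by
    simp only [idet]
    push_cast
    ring
  rw [key, h0, h1, h2]
  ring

theorem real_normals {N F : Type} [Fintype N] [Fintype F] [Nonempty N] (T : STri N F) (hT : STriP T) :
    ∃ a : N ⊕ Fin 3 → Fin 3 → ℤ, (∀ w i, |a w i| ≤ ((Fintype.card N : ℤ) + 3) ^ 201) ∧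
      (∀ g, gdet (sfv T) a g ≠ 0) ∧
      ∀ g w, ¬ Inc (sfv T) g w → 0 < gdet (sfv T) a g * Th (sfv T) a g w := by
  classical
  obtain ⟨Y, hY, -, -, hS⟩ := stri_realise2 T hT
  have hcardW : Fintype.card (N ⊕ Fin 3) = Fintype.card N + 3 := by
    rw [Fintype.card_sum, Fintype.card_fin]
  have hexpo : ∀ (g : Option F) (S : Set (N ⊕ Fin 3)), S.Nonempty → (∀ v ∈ S, Inc (sfv T) g v) →
      Expo (fun v j => (Y v j : ℝ)) S := by
    intro g S hne hsub
    refine (hS S hne).mpr ?_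
    cases g with
    | none =>
      right; right
      intro v hv
      obtain ⟨k, hk⟩ := hsub v hv
      exact ⟨k, hk.symm⟩
    | some f =>
      right; left
      exact ⟨f, fun v hv => hsub v hv⟩
  let a : N ⊕ Fin 3 → Fin 3 → ℤ := fun w i =>
    (Fintype.card (N ⊕ Fin 3) : ℤ) * Y w i - ∑ v, (Y v i : ℤ)
  have hfunc : ∀ (g : Option F) (S : Set (N ⊕ Fin 3)), S.Nonempty → (∀ v ∈ S, Inc (sfv T) g v) →
      ∃ (f : Fin 3 → ℝ) (γ : ℝ), (∀ w, ∑ i, f i * (a w i : ℝ) ≤ γ ∧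
      (∑ i, f i * (a w i : ℝ) = γ ↔ w ∈ S)) ∧ (∀ w, w ∉ S → 0 < γ) := by
    intro g S hne hsub
    exact sreal_func Y S (hexpo g S hne hsub)
  have hout : ∀ g : Option F, ∃ w, ¬ Inc (sfv T) g w := by
    intro g
    by_contra hcon
    push Not at hcon
    have hsurj : Function.Surjective (sfv T g) := fun w => hcon w
    have h1 := Fintype.card_le_of_surjective _ hsurj
    rw [hcardW, Fintype.card_fin] at h1
    have := Fintype.card_pos (α := N)
    omega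
  have hne : ∀ g : Option F, ({w | Inc (sfv T) g w} : Set (N ⊕ Fin 3)).Nonempty :=
    fun g => ⟨sfv T g 0, 0, rfl⟩
  have hdet : ∀ g, gdet (sfv T) a g ≠ 0 := by
    intro g h0
    have h0' : idet (a (sfv T g 0)) (a (sfv T g 1)) (a (sfv T g 2)) = 0 := h0
    obtain ⟨l, hl, hlin⟩ := sreal_lin (fun j => a (sfv T g j)) h0'
    obtain ⟨f, γ, hf, hγ⟩ := hfunc g {w | Inc (sfv T) g w} (hne g) (fun v hv => hv)
    obtain ⟨w0, hw0⟩ := hout g
    have hγ0 : 0 < γ := hγ w0 hw0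
    have hA : ∀ j, ∑ i, f i * (a (sfv T g j) i : ℝ) = γ := fun j => (hf (sfv T g j)).2.mpr ⟨j, rfl⟩
    have hsum : ∑ j, l j = 0 := by
      have h1 := hlin f
      simp only [hA] at h1
      rw [← Finset.sum_mul] at h1
      exact (mul_eq_zero.mp h1).resolve_right hγ0.ne'
    have hpos : ∃ j, 0 < l j := by
      by_contra hcon
      push Not at hcon
      apply hl
      have h1 : ∀ j ∈ (Finset.univ : Finset (Fin 3)), l j = 0 :=
        (Finset.sum_eq_zero_iff_of_nonpos fun j _ => hcon j).mp hsum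
      funext j
      exact h1 j (Finset.mem_univ j)
    have hneg : ∃ j, l j < 0 := by
      by_contra hcon
      push Not at hcon
      apply hl
      have h1 : ∀ j ∈ (Finset.univ : Finset (Fin 3)), l j = 0 :=
        (Finset.sum_eq_zero_iff_of_nonneg fun j _ => hcon j).mp hsum
      funext j
      exact h1 j (Finset.mem_univ j)
    obtain ⟨jp, hjp⟩ := hpos
    obtain ⟨jn, hjn⟩ := hneg
    obtain ⟨f', γ', hf', -⟩ := hfunc g {w | ∃ j, 0 < l j ∧ sfv T g j = w} ⟨sfv T g jp, jp, hjp, rfl⟩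
      (by rintro v ⟨j, -, hj⟩; exact ⟨j, hj⟩)
    have h1 := hlin f'
    have h2 : ∑ j, l j * (∑ i, f' i * (a (sfv T g j) i : ℝ) - γ') = 0 := by
      have h3 : ∑ j, l j * (∑ i, f' i * (a (sfv T g j) i : ℝ) - γ')
          = ∑ j, l j * (∑ i, f' i * (a (sfv T g j) i : ℝ)) - (∑ j, l j) * γ' := by
        rw [Finset.sum_mul, ← Finset.sum_sub_distrib]
        exact Finset.sum_congr rfl fun j _ => by ring
      rw [h3, h1, hsum, zero_mul, sub_zero]
    have h4 : 0 < ∑ j, l j * (∑ i, f' i * (a (sfv T g j) i : ℝ) - γ') := by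
      refine Finset.sum_pos' (fun j _ => ?_) ⟨jn, Finset.mem_univ _, ?_⟩
      · rcases lt_or_ge 0 (l j) with h | h
        · have : ∑ i, f' i * (a (sfv T g j) i : ℝ) = γ' := (hf' (sfv T g j)).2.mpr ⟨j, h, rfl⟩
          rw [this, sub_self, mul_zero]
        · exact mul_nonneg_of_nonpos_of_nonpos h (sub_nonpos.mpr (hf' (sfv T g j)).1)
      · refine mul_pos_of_neg_of_neg hjn ?_
        rw [sub_neg]
        refine lt_of_le_of_ne (hf' (sfv T g jn)).1 fun h => ?_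
        obtain ⟨j, hj, hjj⟩ := (hf' (sfv T g jn)).2.mp h
        have := sreal_inj T g hjj
        rw [this] at hj
        exact lt_asymm hj hjn
    rw [h2] at h4
    exact lt_irrefl _ h4
  refine ⟨a, ?_, hdet, ?_⟩
  · intro w i
    have hYz : ∀ v j, (Y v j : ℤ) ≤ ((Fintype.card N : ℤ) + 3) ^ 200 := by
      intro v j
      have h1 := hY v j
      have h2 : (((Y v j : ℤ)) : ℝ) ≤ ((((Fintype.card N : ℤ) + 3) ^ 200 : ℤ) : ℝ) := by
        rw [Int.cast_natCast, Int.cast_pow, Int.cast_add, Int.cast_natCast, Int.cast_ofNat]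
        exact h1
      exact Int.cast_le.mp h2
    have hm : (0 : ℤ) ≤ (Fintype.card N : ℤ) + 3 := by
      have := Int.natCast_nonneg (Fintype.card N)
      omega
    have h1 : (Fintype.card (N ⊕ Fin 3) : ℤ) * Y w i ≤ ((Fintype.card N : ℤ) + 3) ^ 201 := by
      rw [hcardW, Nat.cast_add, Nat.cast_ofNat]
      calc ((Fintype.card N : ℤ) + 3) * Y w i ≤ ((Fintype.card N : ℤ) + 3) * ((Fintype.card N : ℤ) + 3) ^ 200 :=
            mul_le_mul_of_nonneg_left (hYz w i) hm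
        _ = ((Fintype.card N : ℤ) + 3) ^ 201 := (pow_succ' _ _).symm
    have h2 : ∑ v, (Y v i : ℤ) ≤ ((Fintype.card N : ℤ) + 3) ^ 201 := by
      calc ∑ v, (Y v i : ℤ) ≤ ∑ _v : N ⊕ Fin 3, ((Fintype.card N : ℤ) + 3) ^ 200 :=
            Finset.sum_le_sum fun v _ => hYz v i
        _ = ((Fintype.card N : ℤ) + 3) ^ 201 := by
            rw [Finset.sum_const, Finset.card_univ, hcardW, nsmul_eq_mul, Nat.cast_add, Nat.cast_ofNat]
            exact (pow_succ' _ _).symm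
    have h3 : 0 ≤ (Fintype.card (N ⊕ Fin 3) : ℤ) * Y w i :=
      mul_nonneg (Int.natCast_nonneg _) (Int.natCast_nonneg _)
    have h4 : 0 ≤ ∑ v, (Y v i : ℤ) := Finset.sum_nonneg fun v _ => Int.natCast_nonneg _
    show |(Fintype.card (N ⊕ Fin 3) : ℤ) * Y w i - ∑ v, (Y v i : ℤ)| ≤ _
    generalize ((Fintype.card N : ℤ) + 3) ^ 201 = B at h1 h2 ⊢
    rw [abs_le]
    constructor <;> linarith
  · intro g w hw
    obtain ⟨f, γ, hf, hγ⟩ := hfunc g {w | Inc (sfv T) g w} (hne g) (fun v hv => hv)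
    have hγ0 : 0 < γ := hγ w hw
    have hA : ∀ j, f 0 * (a (sfv T g j) 0 : ℝ) + f 1 * (a (sfv T g j) 1 : ℝ)
        + f 2 * (a (sfv T g j) 2 : ℝ) = γ := by
      intro j
      rw [← sreal_sum3]
      exact (hf (sfv T g j)).2.mpr ⟨j, rfl⟩
    have hlt : f 0 * (a w 0 : ℝ) + f 1 * (a w 1 : ℝ) + f 2 * (a w 2 : ℝ) < γ := by
      rw [← sreal_sum3]
      exact lt_of_le_of_ne (hf w).1 fun h => hw ((hf w).2.mp h)
    have hA0 := hA 0
    have hA1 := hA 1
    have hA2 := hA 2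
    have hc := sreal_cramer (a w) (a (sfv T g 0)) (a (sfv T g 1)) (a (sfv T g 2)) f γ hA0 hA1 hA2
    have hgd : ((gdet (sfv T) a g : ℤ) : ℝ) ≠ 0 := Int.cast_ne_zero.mpr (hdet g)
    have hTh : γ * ((Th (sfv T) a g w : ℤ) : ℝ) = ((gdet (sfv T) a g : ℤ) : ℝ)
        * (γ - (f 0 * (a w 0 : ℝ) + f 1 * (a w 1 : ℝ) + f 2 * (a w 2 : ℝ))) := by
      have h1 : ((Th (sfv T) a g w : ℤ) : ℝ) = ((gdet (sfv T) a g : ℤ) : ℝ)
          - (((idet (a w) (a (sfv T g 1)) (a (sfv T g 2)) : ℤ) : ℝ)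
            + ((idet (a (sfv T g 0)) (a w) (a (sfv T g 2)) : ℤ) : ℝ)
            + ((idet (a (sfv T g 0)) (a (sfv T g 1)) (a w) : ℤ) : ℝ)) := by
        rw [Th]
        push_cast
        ring
      rw [h1, mul_sub, ← hc, mul_sub]
      rw [gdet]
      ring
    have hpos : 0 < ((gdet (sfv T) a g : ℤ) : ℝ) * ((Th (sfv T) a g w : ℤ) : ℝ) := by
      have h2 : 0 < γ * (((gdet (sfv T) a g : ℤ) : ℝ) * ((Th (sfv T) a g w : ℤ) : ℝ)) := by
        have h3 : γ * (((gdet (sfv T) a g : ℤ) : ℝ) * ((Th (sfv T) a g w : ℤ) : ℝ))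
            = ((gdet (sfv T) a g : ℤ) : ℝ) ^ 2
              * (γ - (f 0 * (a w 0 : ℝ) + f 1 * (a w 1 : ℝ) + f 2 * (a w 2 : ℝ))) := by
          calc γ * (((gdet (sfv T) a g : ℤ) : ℝ) * ((Th (sfv T) a g w : ℤ) : ℝ))
              = ((gdet (sfv T) a g : ℤ) : ℝ) * (γ * ((Th (sfv T) a g w : ℤ) : ℝ)) := by ring
            _ = _ := by rw [hTh]; ring
        rw [h3]
        exact mul_pos (by positivity) (sub_pos.mpr hlt)
      exact (mul_pos_iff_of_pos_left hγ0).mp h2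
    exact_mod_cast hpos

end MP0e5907
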