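import Pool.Agent.Lib_MP_0e5907.SNorm
import Pool.Agent.Lib_MP_0e5907.SOrd
import Pool.Agent.Lib_MP_0e5907.SOffB
import Pool.Agent.Lib_MP_0e5907.SPert
import Pool.Agent.Lib_MP_0e5907.SCombC
import Pool.Agent.Lib_MP_0e5907.SReal

/-!
# Piece SSIMPLE: integral simple polytope with given polar

Paper proof. `fv = sfv T`, `sfv_surf`, `surf_order` (gives `ord, col, hJ, hP`), `real_normals` (gives `a`; `|a w i| ≤ (card N + 3)^201 ≤ 2^E = H`), `normals_exist` (`card W = card N + 3 ≤ (card N + 3)^201 ≤ 2^E`) gives `δ` with `Δ = 2^(6E)`; `K = 2^(20E)`, `u = uvec K a δ`. `336 H^2 Δ ≤ 2^9 * 2^(8E) ≤ K` (`E ≥ 100`, from `2^c ≤ E`, `7104 ≤ c`: `c < 2^c`). `pert_det`: `gdet fv u g ≠ 0`,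
`|gdet fv u g| ≤ 48 K^3 H^3 = 48 * 2^(63E) < 2^(67E)`. `offsets_exist` with `e = 67 E` and `B' = 385 * 2^(5e) * 2^(3E)` gives `β, ph`. Put `b w = 30^e * β w`, `M = 30^e * 2^(5e)`, `B = 30^e * B'`: `B ≤ b w ≤ B + M`, `385 M H^3 = B`. `pert_main` gives the strict inequalities for `w` not in `g`; for `w` in `g` equality holds (`hph`). `|ph g i| ≤ 24 (B + M) K^2 H^2 ≤ 48 B K^2 H^2
≤ 2^6 * 2^(5e) * 2^9 * 2^(5e) * 2^(3E) * 2^(42E) ≤ 2^(15 + 670E + 45E) ≤ 2^(716E)` (`30 ≤ 2^5`, `15 ≤ E`, `M ≤ B`). Also `0 < B ≤ b w`.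
(All powers of two stay symbolic: use `pow_add`, `pow_mul`, `pow_le_pow_right₀`; never evaluate `2^7104`.)
-/

namespace MP0e5907

theorem simple_real {N F : Type} [Fintype N] [Fintype F] [Nonempty N] (T : STri N F) (hT : STriP T)
    (c E : ℕ) (hc : 7104 ≤ c) (hE : 2 ^ c ≤ E) (hm : (Fintype.card N + 3) ^ 201 ≤ 2 ^ E) :
    ∃ (u : N ⊕ Fin 3 → Fin 3 → ℤ) (b : N ⊕ Fin 3 → ℤ) (y : Option F → Fin 3 → ℤ),
      (∀ g, gdet (sfv T) u g ≠ 0) ∧ (∀ w, 0 < b w) ∧ (∀ g w, idot (u w) (y g) ≤ b w) ∧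
      (∀ g w, idot (u w) (y g) = b w ↔ Inc (sfv T) g w) ∧ ∀ g i, |y g i| ≤ 2 ^ (716 * E) := by
  classical
  have hcE : 7104 ≤ E := le_trans hc (le_trans (Nat.lt_two_pow_self).le hE)
  have hS := sfv_surf T hT
  obtain ⟨ord, col, hord, hcol, hJ, hP⟩ := surf_order (sfv T) hS
  obtain ⟨a, ha, hdet, hTh⟩ := real_normals T hT
  have hmz : ((Fintype.card N : ℤ) + 3) ^ 201 ≤ 2 ^ E := by exact_mod_cast hm
  have haE : ∀ w i, |a w i| ≤ 2 ^ E := fun w i => (ha w i).trans hmz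
  have hcard : Fintype.card (N ⊕ Fin 3) ≤ 2 ^ E := by
    rw [Fintype.card_sum, Fintype.card_fin]
    refine le_trans ?_ hm
    exact Nat.le_self_pow (by norm_num) _
  obtain ⟨δ, hδ, P1, P2⟩ := normals_exist (sfv T) hS ord hord col hcol hJ hP c E hc hE hcard a haE
  clear hm hmz ha hcard hc hE hJ hcol
  have hx : (2 : ℤ) ^ 14 ≤ 2 ^ E := pow_le_pow_right₀ (by norm_num) (by omega)
  have e20 : (2 : ℤ) ^ (20 * E) = (2 ^ E) ^ 20 := pow_mul' _ _ _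
  have e6 : (2 : ℤ) ^ (6 * E) = (2 ^ E) ^ 6 := pow_mul' _ _ _
  have e716 : (2 : ℤ) ^ (716 * E) = (2 ^ E) ^ 716 := pow_mul' _ _ _
  have e67 : (2 : ℤ) ^ (67 * E) = (2 ^ E) ^ 67 := pow_mul' _ _ _
  have e335 : (2 : ℤ) ^ (5 * (67 * E)) = ((2 ^ E) ^ 67) ^ 5 := by rw [pow_mul', e67]
  have e30 : (30 : ℤ) ^ (67 * E) ≤ ((2 ^ E) ^ 67) ^ 5 := by
    rw [← e335, show (2 : ℤ) ^ (5 * (67 * E)) = (2 ^ 5) ^ (67 * E) from pow_mul _ _ _]
    exact pow_le_pow_left₀ (by norm_num) (by norm_num) _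
  have e30' : (1 : ℤ) ≤ 30 ^ (67 * E) := one_le_pow₀ (by norm_num)
  rw [e20] at P1 P2
  rw [e6] at hδ
  rw [e716]
  generalize hxd : (2 : ℤ) ^ E = x at *
  have hx1 : (1 : ℤ) ≤ x := le_trans (by norm_num) hx
  have hx0 : (0 : ℤ) ≤ x := le_trans (by norm_num) hx1
  have hKi : 336 * x ^ 2 * x ^ 6 ≤ x ^ 20 := by
    calc 336 * x ^ 2 * x ^ 6 = 336 * x ^ 8 := by ring
      _ ≤ x * x ^ 8 := mul_le_mul_of_nonneg_right (le_trans (by norm_num) hx) (by positivity)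
      _ = x ^ 9 := by ring
      _ ≤ x ^ 20 := pow_le_pow_right₀ hx1 (by norm_num)
  have hdd := pert_det (sfv T) a δ (x ^ 20) x (x ^ 6) hx1 (one_le_pow₀ hx1) haE hδ hKi hdet
  have hDe : ∀ g, |gdet (sfv T) (uvec (x ^ 20) a δ) g| < 2 ^ (67 * E) := by
    intro g
    refine lt_of_le_of_lt (hdd g).2 ?_
    rw [e67]
    calc 48 * (x ^ 20) ^ 3 * x ^ 3 = 48 * x ^ 63 := by ring
      _ < x * x ^ 63 := mul_lt_mul_of_pos_right (lt_of_lt_of_le (by norm_num) hx) (by positivity)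
      _ = x ^ 64 := by ring
      _ ≤ x ^ 67 := pow_le_pow_right₀ hx1 (by norm_num)
  obtain ⟨β, ph, hβ, hph⟩ := offsets_exist (sfv T) hS ord hord hP (uvec (x ^ 20) a δ) (67 * E)
    (fun g => (hdd g).1) hDe P1 P2 (385 * (x ^ 67) ^ 5 * x ^ 3)
  rw [e335] at hβ
  generalize hzd : (30 : ℤ) ^ (67 * E) = z at *
  have hz0 : (0 : ℤ) ≤ z := le_trans (by norm_num) e30'
  have hM1 : 1 ≤ z * (x ^ 67) ^ 5 := by
    have h1 : (1 : ℤ) ≤ (x ^ 67) ^ 5 := one_le_pow₀ (one_le_pow₀ hx1)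
    calc (1 : ℤ) = 1 * 1 := by norm_num
      _ ≤ z * (x ^ 67) ^ 5 := mul_le_mul e30' h1 (by norm_num) hz0
  have hb : ∀ w, z * (385 * (x ^ 67) ^ 5 * x ^ 3) ≤ z * β w ∧
      z * β w ≤ z * (385 * (x ^ 67) ^ 5 * x ^ 3) + z * (x ^ 67) ^ 5 := by
    intro w
    refine ⟨mul_le_mul_of_nonneg_left (hβ w).1 hz0, ?_⟩
    rw [← mul_add]
    exact mul_le_mul_of_nonneg_left (hβ w).2 hz0
  have hBM : 385 * (z * (x ^ 67) ^ 5) * x ^ 3 ≤ z * (385 * (x ^ 67) ^ 5 * x ^ 3) := by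
    apply le_of_eq; ring
  obtain ⟨h1, h2⟩ := pert_main (sfv T) a δ (x ^ 20) x (x ^ 6) (z * (x ^ 67) ^ 5)
    (z * (385 * (x ^ 67) ^ 5 * x ^ 3)) hx1 (one_le_pow₀ hx1) hM1 haE hδ hKi hBM hdet hTh
    (fun w => z * β w) hb ph hph
  have hBpos : 0 < z * (385 * (x ^ 67) ^ 5 * x ^ 3) := by
    have : 0 < z := lt_of_lt_of_le (by norm_num) e30'
    have : 0 < x := lt_of_lt_of_le (by norm_num) hx1
    positivity
  refine ⟨uvec (x ^ 20) a δ, fun w => z * β w, ph, fun g => (hdd g).1,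
    fun w => lt_of_lt_of_le hBpos (hb w).1, ?_, ?_, ?_⟩
  · intro g w
    by_cases hi : Inc (sfv T) g w
    · obtain ⟨k, rfl⟩ := hi
      exact (hph g k).le
    · exact (h1 g w hi).le
  · intro g w
    constructor
    · intro h
      by_contra hi
      exact absurd h (h1 g w hi).ne
    · rintro ⟨k, rfl⟩
      exact hph g k
  · intro g i
    refine (h2 g i).trans ?_
    have hw : (x ^ 67) ^ 5 = x ^ 335 := by ring
    rw [hw] at e30 ⊢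
    calc 24 * (z * (385 * x ^ 335 * x ^ 3) + z * x ^ 335) * (x ^ 20) ^ 2 * x ^ 2
        ≤ 24 * (x ^ 335 * (385 * x ^ 335 * x ^ 3) + x ^ 335 * x ^ 335) * (x ^ 20) ^ 2 * x ^ 2 := by
          gcongr
      _ = 9240 * x ^ 715 + 24 * x ^ 712 := by ring
      _ ≤ 9240 * x ^ 715 + 24 * x ^ 715 := by
          have := pow_le_pow_right₀ hx1 (show 712 ≤ 715 by norm_num)
          linarith
      _ = 9264 * x ^ 715 := by ring
      _ ≤ x * x ^ 715 := mul_le_mul_of_nonneg_right (le_trans (by norm_num) hx) (by positivity)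
      _ = x ^ 716 := by ring

end MP0e5907
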