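import Pool.Agent.Lib_MP_0e5907.SCount

/-!
# Piece SSTEPZ: choice of the third coordinate

Paper proof. Write `z = b + Q τ`, `u = (x, y, z)`, `Δ s s' = y * icross (U s) (U s') 0 - x * icross (U s) (U s') 1`. Apply `s_avoid` with `I = ι ⊕ (κ × κ) ⊕ Unit`, `S` = the elements `j ∈ J`, the pairs `(s,s') ∈ P × P` with `s ≠ s'`, and the last element: at most `5 + 25 + 1 = 31`. `nn`: `x v j 1 - y v j 0`; `Δ s s'`; `x`.
Classes: for `j`: if `p ∤ v j 0` the class of `s_class p (α := v j 0) (β := - x v j 2)`; if `p ∣ v j 0` and `p ∤ v j 1` the class of `s_class p (α := - v j 1) (β := y v j 2)`; else `0`. For `(s,s')`: if `p ∤ U s 2` the class of `s_class p (α := U s 2) (β := x U s 0 + y U s 1)`; else `0`. For the last element: `0`.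
`Z` = image of all `(j,k)` under `-(x U0 + y U1) / U2` with `U = icross (v j) (v k)`: at most `(card ι)^2` elements.
(1) `p > E` prime. If `p ∤ x` take `i = 0`; if `p ∣ x` then `p ∤ z - 0`: `i = 2`.
(2) `j ∈ J`. `icross u (v j) = (y v2 - z v1, z v0 - x v2, x v1 - y v0)`. If `p ∤ x v1 - y v0`: `i = 2`. Otherwise: if `p ∤ v0`: `p ∤ z v0 - x v2` by the class: `i = 1`. If `p ∣ v0`, `p ∤ v1`: `p ∤ y v2 - z v1` by the class: `i = 0`. If `p ∣ v0`, `p ∣ v1`: `p ∤ v2` (`hvp`), `p ∤ x` (`hxj`): `p ∤ z v0 - x v2`: `i = 1`.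
(3) `s ≠ s'`, `p` divides `idot (U s) u` and `idot (U s') u`. Then `p` divides `U s' 2 * idot (U s) u - U s 2 * idot (U s') u = Δ s s'` (identity, `ring`). If `p ∤ U s 2`: `idot (U s) u = (x U s 0 + y U s 1) + z U s 2` is not divisible by `p` by the class. If `p ∣ U s 2`: `p ∤ x U s 0 + y U s 1` (`hys`): contradiction.
(4) `idet u (v j) (v k) = x U0 + y U1 + z U2` with `U = icross (v j) (v k)`, `U2 = v j 0 * v k 1 - v j 1 * v k 0 ≠ 0`: if it is `0` then `z = -(x U0 + y U1) / U2 ∈ Z`.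
-/

namespace MP0e5907

open Finset

/-- the class of the third coordinate for a vector -/
private theorem stepz_clJ (x y : ℤ) (w : Fin 3 → ℤ) (p : ℕ) : ∃ k : ℤ, p.Prime → ∀ z : ℤ,
    (¬ (p : ℤ) ∣ w 0 → (p : ℤ) ∣ z * w 0 - x * w 2 → (p : ℤ) ∣ z - k) ∧
      ((p : ℤ) ∣ w 0 → ¬ (p : ℤ) ∣ w 1 → (p : ℤ) ∣ y * w 2 - z * w 1 → (p : ℤ) ∣ z - k) := by
  by_cases hp : p.Prime
  · by_cases h0 : (p : ℤ) ∣ w 0
    · by_cases h1 : (p : ℤ) ∣ w 1
      · exact ⟨0, fun _ z => ⟨fun h => absurd h0 h, fun _ h => absurd h1 h⟩⟩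
      · have h1' : ¬ (p : ℤ) ∣ - w 1 := by rwa [dvd_neg]
        obtain ⟨k, hk⟩ := s_class p hp (- w 1) (y * w 2) h1'
        refine ⟨k, fun _ z => ⟨fun h => absurd h0 h, fun _ _ h => hk z ?_⟩⟩
        have e : y * w 2 + z * - w 1 = y * w 2 - z * w 1 := by ring
        rw [e]; exact h
    · obtain ⟨k, hk⟩ := s_class p hp (w 0) (- (x * w 2)) h0
      refine ⟨k, fun _ z => ⟨fun _ h => hk z ?_, fun h => absurd h h0⟩⟩
      have e : - (x * w 2) + z * w 0 = z * w 0 - x * w 2 := by ring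
      rw [e]; exact h
  · exact ⟨0, fun h => absurd h hp⟩

/-- the class of the third coordinate for a normal vector -/
private theorem stepz_clP (x y : ℤ) (w : Fin 3 → ℤ) (p : ℕ) : ∃ k : ℤ, p.Prime → ∀ z : ℤ,
    ¬ (p : ℤ) ∣ w 2 → (p : ℤ) ∣ (x * w 0 + y * w 1) + z * w 2 → (p : ℤ) ∣ z - k := by
  by_cases hp : p.Prime
  · by_cases h2 : (p : ℤ) ∣ w 2
    · exact ⟨0, fun _ z h => absurd h2 h⟩
    · obtain ⟨k, hk⟩ := s_class p hp (w 2) (x * w 0 + y * w 1) h2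
      exact ⟨k, fun _ z _ h => hk z h⟩
  · exact ⟨0, fun h => absurd h hp⟩

theorem step_z {ι κ : Type} [Fintype ι] (c E R Q : ℕ) (hc : 7104 ≤ c) (hE : 2 ^ c ≤ E) (hR : 4 * E ≤ R)
    (hR2 : 4 * (Fintype.card ι) ^ 2 ≤ R) (hQ : 1 ≤ Q) (hQp : ∀ p : ℕ, p.Prime → E < p → ¬ p ∣ Q)
    (v : ι → Fin 3 → ℤ) (hW : ∀ j k, j ≠ k → v j 0 * v k 1 - v j 1 * v k 0 ≠ 0)
    (J : Finset ι) (hJ : J.card ≤ 5) (hvp : ∀ j ∈ J, ∀ p : ℕ, p.Prime → E < p → ∃ i, ¬ (p : ℤ) ∣ v j i)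
    (P : Finset κ) (hP : P.card ≤ 5) (U : κ → Fin 3 → ℤ)
    (x y : ℤ) (hx : x ≠ 0) (hxb : |x| < 2 ^ (111 * E))
    (hxj : ∀ j ∈ J, ∀ p : ℕ, p.Prime → E < p → (p : ℤ) ∣ v j 0 → ¬ (p : ℤ) ∣ x)
    (hWu : ∀ j ∈ J, x * v j 1 - y * v j 0 ≠ 0) (hWub : ∀ j ∈ J, |x * v j 1 - y * v j 0| < 2 ^ (111 * E))
    (hys : ∀ s ∈ P, ∀ p : ℕ, p.Prime → E < p → (p : ℤ) ∣ U s 2 → ¬ (p : ℤ) ∣ x * U s 0 + y * U s 1)
    (hD : ∀ s ∈ P, ∀ s' ∈ P, s ≠ s' → y * icross (U s) (U s') 0 - x * icross (U s) (U s') 1 ≠ 0)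
    (hDb : ∀ s ∈ P, ∀ s' ∈ P, s ≠ s' →
      |y * icross (U s) (U s') 0 - x * icross (U s) (U s') 1| < 2 ^ (111 * E)) (b : ℤ) :
    ∃ τ : ℕ, τ < R ∧
      (∀ p : ℕ, p.Prime → E < p → ∃ i, ¬ (p : ℤ) ∣ (![x, y, b + Q * τ] : Fin 3 → ℤ) i) ∧
      (∀ j ∈ J, ∀ p : ℕ, p.Prime → E < p → ∃ i, ¬ (p : ℤ) ∣ icross ![x, y, b + Q * τ] (v j) i) ∧
      (∀ s ∈ P, ∀ s' ∈ P, s ≠ s' → ∀ p : ℕ, p.Prime → E < p →
        ¬ ((p : ℤ) ∣ idot (U s) ![x, y, b + Q * τ] ∧ (p : ℤ) ∣ idot (U s') ![x, y, b + Q * τ])) ∧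
      (∀ j k, j ≠ k → idet ![x, y, b + Q * τ] (v j) (v k) ≠ 0) := by
  classical
  choose cJ hcJ using fun (j : ι) (p : ℕ) => stepz_clJ x y (v j) p
  choose cP hcP using fun (s : κ) (p : ℕ) => stepz_clP x y (U s) p
  let T : Finset (κ × κ) := (P ×ˢ P).filter fun q => q.1 ≠ q.2
  have hT : T.card ≤ 25 := by
    have h1 : T.card ≤ (P ×ˢ P).card := Finset.card_filter_le _ _
    rw [Finset.card_product] at h1
    have h2 : P.card * P.card ≤ 5 * 5 := Nat.mul_le_mul hP hP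
    omega
  let S : Finset (ι ⊕ (κ × κ) ⊕ Unit) := J.disjSum (T.disjSum {()})
  have hS : S.card ≤ 32 := by
    have : S.card = J.card + (T.card + 1) := by
      simp only [S, Finset.card_disjSum, Finset.card_singleton]
    omega
  let nn : ι ⊕ (κ × κ) ⊕ Unit → ℤ := Sum.elim (fun j => x * v j 1 - y * v j 0)
    (Sum.elim (fun q => y * icross (U q.1) (U q.2) 0 - x * icross (U q.1) (U q.2) 1) fun _ => x)
  let cl : ι ⊕ (κ × κ) ⊕ Unit → ℕ → ℤ := Sum.elim cJ (Sum.elim (fun q => cP q.1) fun _ _ => 0)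
  let Z : Finset ℤ := (Finset.univ : Finset (ι × ι)).image fun q =>
    (-(x * icross (v q.1) (v q.2) 0 + y * icross (v q.1) (v q.2) 1)) / icross (v q.1) (v q.2) 2
  have hZ : 4 * Z.card ≤ R := by
    have h1 : Z.card ≤ (Finset.univ : Finset (ι × ι)).card := Finset.card_image_le
    have h2 : (Finset.univ : Finset (ι × ι)).card = Fintype.card ι ^ 2 := by
      rw [Finset.card_univ, Fintype.card_prod, sq]
    omega
  have h0 : ∀ i ∈ S, nn i ≠ 0 := by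
    rintro (j | q | t) hi
    · exact hWu j (Finset.inl_mem_disjSum.1 hi)
    · have h1 := Finset.inl_mem_disjSum.1 (Finset.inr_mem_disjSum.1 hi)
      have h2 := Finset.mem_filter.1 h1
      have h3 := Finset.mem_product.1 h2.1
      exact hD q.1 h3.1 q.2 h3.2 h2.2
    · exact hx
  have hb : ∀ i ∈ S, |nn i| < 2 ^ (111 * E) := by
    rintro (j | q | t) hi
    · exact hWub j (Finset.inl_mem_disjSum.1 hi)
    · have h1 := Finset.inl_mem_disjSum.1 (Finset.inr_mem_disjSum.1 hi)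
      have h2 := Finset.mem_filter.1 h1
      have h3 := Finset.mem_product.1 h2.1
      exact hDb q.1 h3.1 q.2 h3.2 h2.2
    · exact hxb
  obtain ⟨τ, hτR, hτZ, hτ⟩ := s_avoid c E R Q hc hE hR hQ hQp S hS nn h0 hb cl Z hZ b
  generalize hz : b + (Q : ℤ) * τ = z at hτZ hτ
  have u0 : (![x, y, z] : Fin 3 → ℤ) 0 = x := rfl
  have u1 : (![x, y, z] : Fin 3 → ℤ) 1 = y := rfl
  have u2 : (![x, y, z] : Fin 3 → ℤ) 2 = z := rfl
  refine ⟨τ, hτR, ?_, ?_, ?_, ?_⟩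
  · intro p hp hEp
    rw [hz]
    by_cases h1 : (p : ℤ) ∣ x
    · refine ⟨2, ?_⟩
      have h2 := hτ (Sum.inr (Sum.inr ())) (by simp [S]) p hp hEp h1
      have h3 : cl (Sum.inr (Sum.inr ())) p = 0 := rfl
      rw [h3, sub_zero] at h2
      exact h2
    · exact ⟨0, h1⟩
  · intro j hj p hp hEp
    rw [hz]
    have c0 : icross ![x, y, z] (v j) 0 = y * v j 2 - z * v j 1 := rfl
    have c1 : icross ![x, y, z] (v j) 1 = z * v j 0 - x * v j 2 := rfl
    have c2 : icross ![x, y, z] (v j) 2 = x * v j 1 - y * v j 0 := rfl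
    by_cases h2 : (p : ℤ) ∣ x * v j 1 - y * v j 0
    · have h3 : ¬ (p : ℤ) ∣ z - cJ j p :=
        hτ (Sum.inl j) (Finset.inl_mem_disjSum.2 hj) p hp hEp h2
      have h4 := hcJ j p hp z
      by_cases h5 : (p : ℤ) ∣ v j 0
      · by_cases h6 : (p : ℤ) ∣ v j 1
        · refine ⟨1, ?_⟩
          rw [c1]
          intro h7
          obtain ⟨i, hi⟩ := hvp j hj p hp hEp
          have h8 : ¬ (p : ℤ) ∣ v j 2 := by
            fin_cases i
            · exact absurd h5 hi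
            · exact absurd h6 hi
            · exact hi
          have h9 : (p : ℤ) ∣ x * v j 2 := by
            have := dvd_sub (h5.mul_left z) h7
            rwa [sub_sub_cancel] at this
          rcases (Nat.prime_iff_prime_int.1 hp).dvd_or_dvd h9 with h | h
          · exact hxj j hj p hp hEp h5 h
          · exact h8 h
        · refine ⟨0, ?_⟩
          rw [c0]
          exact fun h7 => h3 (h4.2 h5 h6 h7)
      · refine ⟨1, ?_⟩
        rw [c1]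
        exact fun h7 => h3 (h4.1 h5 h7)
    · exact ⟨2, h2⟩
  · intro s hs s' hs' hss p hp hEp
    rw [hz]
    rintro ⟨g1, g2⟩
    have d1 : idot (U s) ![x, y, z] = (x * U s 0 + y * U s 1) + z * U s 2 := by
      unfold idot
      rw [u0, u1, u2]
      ring
    have d2 : idot (U s') ![x, y, z] = (x * U s' 0 + y * U s' 1) + z * U s' 2 := by
      unfold idot
      rw [u0, u1, u2]
      ring
    have e0 : icross (U s) (U s') 0 = U s 1 * U s' 2 - U s 2 * U s' 1 := rfl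
    have e1 : icross (U s) (U s') 1 = U s 2 * U s' 0 - U s 0 * U s' 2 := rfl
    have g3 : (p : ℤ) ∣ y * icross (U s) (U s') 0 - x * icross (U s) (U s') 1 := by
      have h1 := dvd_sub (g1.mul_left (U s' 2)) (g2.mul_left (U s 2))
      have h2 : U s' 2 * idot (U s) ![x, y, z] - U s 2 * idot (U s') ![x, y, z] =
          y * icross (U s) (U s') 0 - x * icross (U s) (U s') 1 := by
        rw [d1, d2, e0, e1]
        ring
      rwa [h2] at h1
    have hmem : (Sum.inr (Sum.inl (s, s')) : ι ⊕ (κ × κ) ⊕ Unit) ∈ S := by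
      refine Finset.inr_mem_disjSum.2 (Finset.inl_mem_disjSum.2 ?_)
      exact Finset.mem_filter.2 ⟨Finset.mem_product.2 ⟨hs, hs'⟩, hss⟩
    have h3 : ¬ (p : ℤ) ∣ z - cP s p := hτ _ hmem p hp hEp g3
    rw [d1] at g1
    by_cases h5 : (p : ℤ) ∣ U s 2
    · refine hys s hs p hp hEp h5 ?_
      have := dvd_sub g1 (h5.mul_left z)
      rwa [add_sub_cancel_right] at this
    · exact h3 (hcP s p hp z h5 g1)
  · intro j k hjk
    rw [hz]
    intro hdet
    apply hτZ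
    refine Finset.mem_image.2 ⟨(j, k), Finset.mem_univ _, ?_⟩
    have e0 : icross (v j) (v k) 0 = v j 1 * v k 2 - v j 2 * v k 1 := rfl
    have e1 : icross (v j) (v k) 1 = v j 2 * v k 0 - v j 0 * v k 2 := rfl
    have e2 : icross (v j) (v k) 2 = v j 0 * v k 1 - v j 1 * v k 0 := rfl
    have h1 : icross (v j) (v k) 2 ≠ 0 := by
      rw [e2]
      exact hW j k hjk
    refine Int.ediv_eq_of_eq_mul_left h1 ?_
    unfold idet at hdet
    rw [u0, u1, u2] at hdet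
    rw [e0, e1, e2]
    linear_combination (-1) * hdet

end MP0e5907
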