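import Pool.Agent.Lib_MP_0e5907.SStepY
import Pool.Agent.Lib_MP_0e5907.SStepZ

/-!
# Piece SSTEP: choice of one normal vector

Paper proof. `U g = icross (v (s1 g)) (v (s2 g))`. `U g 2 = v (s1 g) 0 * v (s2 g) 1 - v (s1 g) 1 * v (s2 g) 0 ≠ 0` by `hW`. Bounds: all entries of the `v j` and of `u` are at most `A` in absolute value (`|b i + Q τ i| ≤ |b i| + Q R ≤ A`), so `|U g i| ≤ 2 A^2`, `|icross (U g) (U g') i| ≤ 8 A^4`, and `x`, `x v1 - y v0`, `y C0 - x C1` have absolute value at most `16 A^5` (`A ≥ 1`).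
First coordinate: `s_avoid` with `I = ι ⊕ κ`, `S` = the elements of `J` and of `P` (at most 10), `nn` = `v j 0` resp. `U g 2`, all classes `0`, `Z = {0}`: `x = b 0 + Q τ0 ≠ 0`, and `p ∤ x` for all primes `p > E` dividing some `v j 0`, `j ∈ J`, or some `U g 2`, `g ∈ P`.
`hC` for `step_y`: for `a, b', c', d` with `U = a × b'`, `U' = c' × d`: `(U × U') = det(a,b',d) c' - det(a,b',c') d` (coordinatewise, `ring`; here `det = idet`). So `C0 d1 - C1 d0 = idet a b' d * (c'0 d1 - c'1 d0)` and `C0 c'1 - C1 c'0 = idet a b' c' * (c'0 d1 - c'1 d0)`. For `g ≠ g'` with `a = v (s1 g)`, `b' = v (s2 g)`, `c' = v (s1 g')`, `d = v (s2 g')`: by `hss` one of the indices `s1 g'`, `s2 g'` is not in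
`{s1 g, s2 g}` (`s1 g' ≠ s2 g'`): if it is `s2 g'` then `idet a b' d ≠ 0` (`hdet`) and `c'0 d1 - c'1 d0 ≠ 0` (`hW`), so `(C0, C1) ≠ (0,0)`; if it is `s1 g'` use the other identity.
`step_y` gives `y = b 1 + Q τ1`, `step_z` gives `z = b 2 + Q τ2`. Finally `idet u a b' = idot (icross a b') u` (`ring`), `u = ![x, y, z]`.
`hR2` gives `4 (card ι + 25) ≤ R` and `4 (card ι)^2 ≤ R`, and `4 ≤ R` from `hR`, `1 ≤ E`.
-/

namespace MP0e5907

open Finset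

theorem sstep_bd {a b c d M N : ℤ} (ha : |a| ≤ M) (hb : |b| ≤ N) (hc : |c| ≤ M) (hd : |d| ≤ N) :
    |a * b - c * d| ≤ 2 * M * N := by
  have hM : 0 ≤ M := le_trans (abs_nonneg a) ha
  have h1 : |a * b| ≤ M * N := by
    rw [abs_mul]
    exact mul_le_mul ha hb (abs_nonneg b) hM
  have h2 : |c * d| ≤ M * N := by
    rw [abs_mul]
    exact mul_le_mul hc hd (abs_nonneg d) hM
  have h3 := abs_sub (a * b) (c * d)
  linarith

theorem sstep_icross_bd {a b : Fin 3 → ℤ} {M N : ℤ} (ha : ∀ i, |a i| ≤ M) (hb : ∀ i, |b i| ≤ N)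
    (i : Fin 3) : |icross a b i| ≤ 2 * M * N := by
  have h0 : icross a b 0 = a 1 * b 2 - a 2 * b 1 := rfl
  have h1 : icross a b 1 = a 2 * b 0 - a 0 * b 2 := rfl
  have h2 : icross a b 2 = a 0 * b 1 - a 1 * b 0 := rfl
  rcases i with ⟨i, hi⟩
  interval_cases i
  · exact h0 ▸ sstep_bd (ha 1) (hb 2) (ha 2) (hb 1)
  · exact h1 ▸ sstep_bd (ha 2) (hb 0) (ha 0) (hb 2)
  · exact h2 ▸ sstep_bd (ha 0) (hb 1) (ha 1) (hb 0)

theorem sstep_id1 (a b c d : Fin 3 → ℤ) :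
    icross (icross a b) (icross c d) 0 * d 1 - icross (icross a b) (icross c d) 1 * d 0 =
      idet a b d * (c 0 * d 1 - c 1 * d 0) := by
  have h0 : icross (icross a b) (icross c d) 0 =
      (a 2 * b 0 - a 0 * b 2) * (c 0 * d 1 - c 1 * d 0) - (a 0 * b 1 - a 1 * b 0) * (c 2 * d 0 - c 0 * d 2) := rfl
  have h1 : icross (icross a b) (icross c d) 1 =
      (a 0 * b 1 - a 1 * b 0) * (c 1 * d 2 - c 2 * d 1) - (a 1 * b 2 - a 2 * b 1) * (c 0 * d 1 - c 1 * d 0) := rfl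
  rw [h0, h1, idet]
  ring

theorem sstep_id2 (a b c d : Fin 3 → ℤ) :
    icross (icross a b) (icross c d) 0 * c 1 - icross (icross a b) (icross c d) 1 * c 0 =
      idet a b c * (c 0 * d 1 - c 1 * d 0) := by
  have h0 : icross (icross a b) (icross c d) 0 =
      (a 2 * b 0 - a 0 * b 2) * (c 0 * d 1 - c 1 * d 0) - (a 0 * b 1 - a 1 * b 0) * (c 2 * d 0 - c 0 * d 2) := rfl
  have h1 : icross (icross a b) (icross c d) 1 =
      (a 0 * b 1 - a 1 * b 0) * (c 1 * d 2 - c 2 * d 1) - (a 1 * b 2 - a 2 * b 1) * (c 0 * d 1 - c 1 * d 0) := rfl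
  rw [h0, h1, idet]
  ring

theorem sstep_idot (u a b : Fin 3 → ℤ) : idet u a b = idot (icross a b) u := by
  have h : idot (icross a b) u =
      (a 1 * b 2 - a 2 * b 1) * u 0 + (a 2 * b 0 - a 0 * b 2) * u 1 + (a 0 * b 1 - a 1 * b 0) * u 2 := rfl
  rw [h, idet]
  ring

theorem step_vec {ι κ : Type} [Fintype ι] (c E R Q : ℕ) (A : ℤ) (hc : 7104 ≤ c) (hE : 2 ^ c ≤ E)
    (hR : 4 * E ≤ R) (hR2 : 4 * (Fintype.card ι + 6) ^ 2 ≤ R) (hQ : 1 ≤ Q)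
    (hQp : ∀ p : ℕ, p.Prime → E < p → ¬ p ∣ Q) (hA1 : 1 ≤ A) (hA : 16 * A ^ 5 < 2 ^ (111 * E))
    (v : ι → Fin 3 → ℤ) (hv : ∀ j i, |v j i| ≤ A) (nz : ∀ j, v j 0 ≠ 0)
    (hW : ∀ j k, j ≠ k → v j 0 * v k 1 - v j 1 * v k 0 ≠ 0)
    (hdet : ∀ j k l, j ≠ k → j ≠ l → k ≠ l → idet (v j) (v k) (v l) ≠ 0)
    (J : Finset ι) (hJ : J.card ≤ 5) (hvp : ∀ j ∈ J, ∀ p : ℕ, p.Prime → E < p → ∃ i, ¬ (p : ℤ) ∣ v j i)
    (P : Finset κ) (hP : P.card ≤ 5) (s1 s2 : κ → ι) (hs : ∀ g ∈ P, s1 g ≠ s2 g)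
    (hss : ∀ g ∈ P, ∀ g' ∈ P, g ≠ g' →
      ¬ (s1 g = s1 g' ∧ s2 g = s2 g') ∧ ¬ (s1 g = s2 g' ∧ s2 g = s1 g'))
    (hcp : ∀ g ∈ P, ∀ p : ℕ, p.Prime → E < p → ∃ i, ¬ (p : ℤ) ∣ icross (v (s1 g)) (v (s2 g)) i)
    (b : Fin 3 → ℤ) (hb : ∀ i, |b i| + Q * R ≤ A) :
    ∃ (τ : Fin 3 → ℕ) (u : Fin 3 → ℤ), (∀ i, τ i < R) ∧ (∀ i, u i = b i + Q * τ i) ∧ u 0 ≠ 0 ∧
      (∀ j, u 0 * v j 1 - u 1 * v j 0 ≠ 0) ∧ (∀ j k, j ≠ k → idet u (v j) (v k) ≠ 0) ∧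
      (∀ p : ℕ, p.Prime → E < p → ∃ i, ¬ (p : ℤ) ∣ u i) ∧
      (∀ j ∈ J, ∀ p : ℕ, p.Prime → E < p → ∃ i, ¬ (p : ℤ) ∣ icross u (v j) i) ∧
      (∀ g ∈ P, ∀ g' ∈ P, g ≠ g' → ∀ p : ℕ, p.Prime → E < p →
        ¬ ((p : ℤ) ∣ idet u (v (s1 g)) (v (s2 g)) ∧ (p : ℤ) ∣ idet u (v (s1 g')) (v (s2 g')))) := by
  -- size bounds
  have hE1 : 1 ≤ E := le_trans Nat.one_le_two_pow hE
  have hR4 : 4 * ({0} : Finset ℤ).card ≤ R := by
    rw [Finset.card_singleton]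
    omega
  have hA0 : (0 : ℤ) ≤ A := by linarith
  have p15 : A ≤ A ^ 5 := by
    calc A = A ^ 1 := (pow_one A).symm
      _ ≤ A ^ 5 := pow_le_pow_right₀ hA1 (by norm_num)
  have p25 : A ^ 2 ≤ A ^ 5 := pow_le_pow_right₀ hA1 (by norm_num)
  have hAsmall : A < 2 ^ (111 * E) := by linarith
  have hA2small : 2 * A * A < 2 ^ (111 * E) := by
    have : 2 * A * A = 2 * A ^ 2 := by ring
    rw [this]
    have h0 : 0 ≤ A ^ 5 := by positivity
    linarith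
  have hub : ∀ (i : Fin 3) (t : ℕ), t < R → |b i + (Q : ℤ) * (t : ℤ)| ≤ A := by
    intro i t ht
    have h1 := abs_add_le (b i) ((Q : ℤ) * (t : ℤ))
    have h2 : |(Q : ℤ) * (t : ℤ)| = (Q : ℤ) * (t : ℤ) := abs_of_nonneg (by positivity)
    have h3 : (Q : ℤ) * (t : ℤ) ≤ (Q : ℤ) * (R : ℤ) :=
      mul_le_mul_of_nonneg_left (by exact_mod_cast ht.le) (by positivity)
    have h4 := hb i
    linarith
  -- the cross products
  set U : κ → Fin 3 → ℤ := fun g => icross (v (s1 g)) (v (s2 g)) with hUdef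
  have hUb2 : ∀ g i, |U g i| ≤ 2 * A * A := fun g i => sstep_icross_bd (hv _) (hv _) i
  have hU2 : ∀ g ∈ P, U g 2 ≠ 0 := by
    intro g hg
    exact hW _ _ (hs g hg)
  -- first coordinate
  obtain ⟨τ0, hτ0, hx0, hx1⟩ := s_avoid (I := ι ⊕ κ) c E R Q hc hE hR hQ hQp (J.disjSum P)
    (by rw [Finset.card_disjSum]; omega)
    (Sum.elim (fun j => v j 0) (fun g => U g 2))
    (by
      intro i hi
      rw [Finset.mem_disjSum] at hi
      rcases hi with ⟨j, _, rfl⟩ | ⟨g, hg, rfl⟩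
      · exact nz j
      · exact hU2 g hg)
    (by
      intro i hi
      rw [Finset.mem_disjSum] at hi
      rcases hi with ⟨j, _, rfl⟩ | ⟨g, hg, rfl⟩
      · exact lt_of_le_of_lt (hv j 0) hAsmall
      · exact lt_of_le_of_lt (hUb2 g 2) hA2small)
    (fun _ _ => 0) {0} hR4 (b 0)
  set x : ℤ := b 0 + (Q : ℤ) * (τ0 : ℤ) with hxdef
  have hxA : |x| ≤ A := hub 0 τ0 hτ0
  have hxne : x ≠ 0 := fun h => hx0 (Finset.mem_singleton.2 h)
  have hxj : ∀ j ∈ J, ∀ p : ℕ, p.Prime → E < p → (p : ℤ) ∣ v j 0 → ¬ (p : ℤ) ∣ x := by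
    intro j hj p hp hEp hd
    have h := hx1 (Sum.inl j) (Finset.mem_disjSum.2 (Or.inl ⟨j, hj, rfl⟩)) p hp hEp hd
    rwa [sub_zero] at h
  have hxp : ∀ s ∈ P, ∀ p : ℕ, p.Prime → E < p → (p : ℤ) ∣ U s 2 → ¬ (p : ℤ) ∣ x := by
    intro g hg p hp hEp hd
    have h := hx1 (Sum.inr g) (Finset.mem_disjSum.2 (Or.inr ⟨g, hg, rfl⟩)) p hp hEp hd
    rwa [sub_zero] at h
  -- second coordinate
  have hC : ∀ s ∈ P, ∀ s' ∈ P, s ≠ s' → icross (U s) (U s') 0 ≠ 0 ∨ icross (U s) (U s') 1 ≠ 0 := by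
    intro g hg g' hg' hne
    by_contra hcon
    push Not at hcon
    obtain ⟨hc0, hc1⟩ := hcon
    have e1 := sstep_id1 (v (s1 g)) (v (s2 g)) (v (s1 g')) (v (s2 g'))
    have e2 := sstep_id2 (v (s1 g)) (v (s2 g)) (v (s1 g')) (v (s2 g'))
    have hw := hW _ _ (hs g' hg')
    have hc0' : icross (icross (v (s1 g)) (v (s2 g))) (icross (v (s1 g')) (v (s2 g'))) 0 = 0 := hc0
    have hc1' : icross (icross (v (s1 g)) (v (s2 g))) (icross (v (s1 g')) (v (s2 g'))) 1 = 0 := hc1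
    rw [hc0', hc1', zero_mul, zero_mul, sub_zero] at e1 e2
    have z1 : idet (v (s1 g)) (v (s2 g)) (v (s2 g')) = 0 := by
      rcases mul_eq_zero.1 e1.symm with h | h
      · exact h
      · exact absurd h hw
    have z2 : idet (v (s1 g)) (v (s2 g)) (v (s1 g')) = 0 := by
      rcases mul_eq_zero.1 e2.symm with h | h
      · exact h
      · exact absurd h hw
    have hsg := hs g hg
    have hsg' := hs g' hg'
    obtain ⟨n1, n2⟩ := hss g hg g' hg' hne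
    have m1 : s1 g = s2 g' ∨ s2 g = s2 g' := by
      by_contra h
      push Not at h
      exact hdet _ _ _ hsg h.1 h.2 z1
    have m2 : s1 g = s1 g' ∨ s2 g = s1 g' := by
      by_contra h
      push Not at h
      exact hdet _ _ _ hsg h.1 h.2 z2
    rcases m1 with m1 | m1
    · rcases m2 with m2 | m2
      · exact hsg' (m2.symm.trans m1)
      · exact n2 ⟨m1, m2⟩
    · rcases m2 with m2 | m2
      · exact n1 ⟨m2, m1⟩
      · exact hsg' (m2.symm.trans m1)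
  have hR25 : 4 * (Fintype.card ι + 25) ≤ R := by
    refine le_trans ?_ hR2
    have : Fintype.card ι + 25 ≤ (Fintype.card ι + 6) ^ 2 := by nlinarith [Nat.zero_le (Fintype.card ι)]
    omega
  obtain ⟨τ1, hτ1, hy1, hy2, hy3⟩ := step_y c E R Q hc hE hR hR25 hQ hQp v nz P hP U hU2
    (fun s hs' => lt_of_le_of_lt (hUb2 s 2) hA2small) hcp hC x hxne hxp (b 1)
  set y : ℤ := b 1 + (Q : ℤ) * (τ1 : ℤ) with hydef
  have hyA : |y| ≤ A := hub 1 τ1 hτ1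
  -- third coordinate
  have hRn : 4 * (Fintype.card ι) ^ 2 ≤ R := by
    refine le_trans ?_ hR2
    have : (Fintype.card ι) ^ 2 ≤ (Fintype.card ι + 6) ^ 2 := Nat.pow_le_pow_left (by omega) 2
    omega
  have hWub : ∀ j ∈ J, |x * v j 1 - y * v j 0| < 2 ^ (111 * E) := fun j _ =>
    lt_of_le_of_lt (sstep_bd hxA (hv j 1) hyA (hv j 0)) hA2small
  have hDb : ∀ s ∈ P, ∀ s' ∈ P, s ≠ s' →
      |y * icross (U s) (U s') 0 - x * icross (U s) (U s') 1| < 2 ^ (111 * E) := by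
    intro s _ s' _ _
    have h1 := sstep_icross_bd (hUb2 s) (hUb2 s')
    have h2 := sstep_bd hyA (h1 0) hxA (h1 1)
    have h3 : 2 * A * (2 * (2 * A * A) * (2 * A * A)) = 16 * A ^ 5 := by ring
    rw [h3] at h2
    exact lt_of_le_of_lt h2 hA
  obtain ⟨τ2, hτ2, hz1, hz2, hz3, hz4⟩ := step_z c E R Q hc hE hR hRn hQ hQp v hW J hJ hvp P hP U x y
    hxne (lt_of_le_of_lt hxA hAsmall) hxj (fun j _ => hy2 j) hWub hy1 hy3 hDb (b 2)
  refine ⟨![τ0, τ1, τ2], ![x, y, b 2 + (Q : ℤ) * (τ2 : ℤ)], ?_, ?_, hxne, hy2, hz4, hz1, hz2, ?_⟩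
  · intro i
    rcases i with ⟨i, hi⟩
    interval_cases i
    · exact hτ0
    · exact hτ1
    · exact hτ2
  · intro i
    rcases i with ⟨i, hi⟩
    interval_cases i
    · exact hxdef
    · exact hydef
    · rfl
  · intro g hg g' hg' hne p hp hEp hcon
    rw [sstep_idot, sstep_idot] at hcon
    exact hz3 g hg g' hg' hne p hp hEp hcon

end MP0e5907
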