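import Pool.Agent.Lib_MP_0e5907.SCount

/-!
# Piece SSTEPY: choice of the second coordinate

Paper proof. Write `y = b + Q τ`. Apply `s_avoid` with `I = κ`, `S = P` (at most 5 elements), `nn s = U s 2`, and `cl s p`: if `p ∤ U s 1` the class `k` of `s_class p (α := U s 1) (β := x * U s 0)`, otherwise `0`. `Z` = the image of all `j` under `(x * v j 1) / (v j 0)` together with the image of all `(s, s') ∈ P × P` under `(x * icross (U s) (U s') 1) / (icross (U s) (U s') 0)` (integer divisions):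
at most `card ι + 25` elements.
(1) Let `p > E` be a prime with `p ∣ U s 2`. If `p ∤ U s 1` then `p ∤ x U s 0 + y U s 1` by the choice of the class. If `p ∣ U s 1` then `p ∤ U s 0` (`hUp`) and `p ∤ x` (`hxp`), so `p ∤ x U s 0`, and `p ∤ x U s 0 + y U s 1`.
(2) If `x v j 1 = y v j 0` then `y = (x v j 1) / (v j 0) ∈ Z` (`Int.mul_ediv_cancel`).
(3) If `y C0 = x C1`: if `C0 ≠ 0` then `y = (x C1) / C0 ∈ Z`; if `C0 = 0` then `C1 ≠ 0`, `x ≠ 0`, a contradiction.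
-/

namespace MP0e5907

open Finset

theorem step_y {ι κ : Type} [Fintype ι] (c E R Q : ℕ) (hc : 7104 ≤ c) (hE : 2 ^ c ≤ E) (hR : 4 * E ≤ R)
    (hR2 : 4 * (Fintype.card ι + 25) ≤ R) (hQ : 1 ≤ Q) (hQp : ∀ p : ℕ, p.Prime → E < p → ¬ p ∣ Q)
    (v : ι → Fin 3 → ℤ) (nz : ∀ j, v j 0 ≠ 0) (P : Finset κ) (hP : P.card ≤ 5) (U : κ → Fin 3 → ℤ)
    (hU2 : ∀ s ∈ P, U s 2 ≠ 0) (hUb : ∀ s ∈ P, |U s 2| < 2 ^ (111 * E))
    (hUp : ∀ s ∈ P, ∀ p : ℕ, p.Prime → E < p → ∃ i, ¬ (p : ℤ) ∣ U s i)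
    (hC : ∀ s ∈ P, ∀ s' ∈ P, s ≠ s' → icross (U s) (U s') 0 ≠ 0 ∨ icross (U s) (U s') 1 ≠ 0)
    (x : ℤ) (hx : x ≠ 0)
    (hxp : ∀ s ∈ P, ∀ p : ℕ, p.Prime → E < p → (p : ℤ) ∣ U s 2 → ¬ (p : ℤ) ∣ x) (b : ℤ) :
    ∃ τ : ℕ, τ < R ∧
      (∀ s ∈ P, ∀ p : ℕ, p.Prime → E < p → (p : ℤ) ∣ U s 2 → ¬ (p : ℤ) ∣ x * U s 0 + (b + Q * τ) * U s 1) ∧
      (∀ j, x * v j 1 - (b + Q * τ) * v j 0 ≠ 0) ∧
      (∀ s ∈ P, ∀ s' ∈ P, s ≠ s' →
        (b + Q * τ) * icross (U s) (U s') 0 - x * icross (U s) (U s') 1 ≠ 0) := by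
  classical
  let cl : κ → ℕ → ℤ := fun s p =>
    if h : ∃ k : ℤ, ∀ y : ℤ, (p : ℤ) ∣ x * U s 0 + y * U s 1 → (p : ℤ) ∣ y - k then h.choose else 0
  have hcl : ∀ (s : κ) (p : ℕ), (∃ k : ℤ, ∀ y : ℤ, (p : ℤ) ∣ x * U s 0 + y * U s 1 → (p : ℤ) ∣ y - k) →
      ∀ y : ℤ, (p : ℤ) ∣ x * U s 0 + y * U s 1 → (p : ℤ) ∣ y - cl s p := by
    intro s p h y hy
    have : cl s p = h.choose := by simp only [cl]; rw [dif_pos h]
    rw [this]
    exact h.choose_spec y hy
  let Z : Finset ℤ := (Finset.univ : Finset ι).image (fun j => (x * v j 1) / (v j 0)) ∪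
    (P ×ˢ P).image (fun q : κ × κ => (x * icross (U q.1) (U q.2) 1) / (icross (U q.1) (U q.2) 0))
  have hZ : 4 * Z.card ≤ R := by
    have h1 : Z.card ≤ Fintype.card ι + P.card * P.card := by
      refine (Finset.card_union_le _ _).trans (Nat.add_le_add ?_ ?_)
      · exact Finset.card_image_le
      · refine Finset.card_image_le.trans ?_
        rw [Finset.card_product]
    have h2 : P.card * P.card ≤ 5 * 5 := Nat.mul_le_mul hP hP
    omega
  obtain ⟨τ, hτ, hτZ, hτp⟩ := s_avoid c E R Q hc hE hR hQ hQp P (hP.trans (by norm_num))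
    (fun s => U s 2) hU2 hUb cl Z hZ b
  refine ⟨τ, hτ, ?_, ?_, ?_⟩
  · intro s hs p hp hEp hp2 hd
    have hpr : Prime (p : ℤ) := Nat.prime_iff_prime_int.1 hp
    by_cases h1 : (p : ℤ) ∣ U s 1
    · obtain ⟨i, hi⟩ := hUp s hs p hp hEp
      have h0 : ¬ (p : ℤ) ∣ U s 0 := by
        intro h0
        apply hi
        fin_cases i
        · exact h0
        · exact h1
        · exact hp2
      have h3 : (p : ℤ) ∣ x * U s 0 := by
        have := dvd_sub hd (h1.mul_left (b + Q * τ))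
        rwa [add_sub_cancel_right] at this
      rcases hpr.dvd_or_dvd h3 with h | h
      · exact hxp s hs p hp hEp hp2 h
      · exact h0 h
    · exact hτp s hs p hp hEp hp2
        (hcl s p (s_class p hp (U s 1) (x * U s 0) h1) (b + Q * τ) hd)
  · intro j h
    apply hτZ
    apply Finset.mem_union_left
    refine Finset.mem_image.2 ⟨j, Finset.mem_univ _, ?_⟩
    have h1 : x * v j 1 = (b + Q * τ) * v j 0 := sub_eq_zero.1 h
    rw [h1]
    exact Int.mul_ediv_cancel _ (nz j)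
  · intro s hs s' hs' hne h
    have h1 : (b + Q * τ) * icross (U s) (U s') 0 = x * icross (U s) (U s') 1 := sub_eq_zero.1 h
    by_cases h0 : icross (U s) (U s') 0 = 0
    · rcases hC s hs s' hs' hne with h2 | h2
      · exact h2 h0
      · rw [h0, mul_zero] at h1
        rcases mul_eq_zero.1 h1.symm with h3 | h3
        · exact hx h3
        · exact h2 h3
    · apply hτZ
      apply Finset.mem_union_right
      refine Finset.mem_image.2 ⟨(s, s'), Finset.mem_product.2 ⟨hs, hs'⟩, ?_⟩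
      show (x * icross (U s) (U s') 1) / (icross (U s) (U s') 0) = b + Q * τ
      rw [← h1]
      exact Int.mul_ediv_cancel _ h0

end MP0e5907
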