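import Pool.Agent.Lib_MP_0e5907.LocA
import Pool.Agent.Lib_MP_0e5907.Cone
import Pool.Agent.Lib_MP_0e5907.Vol
import Pool.Agent.Lib_MP_0e5907.Disj

/-!
# Piece STAR: the star of an inner vertex covers all directions

Paper proof.
* `star_cover`: let `w : N`. Let `I = {(g,k) : vert g k = inl w}` (finite, nonempty: `(lf (w,0), 2)`). For `(g,k) ∈ I` the side `k+1` of `g` joins `vert g (k+2)` and
  `vert g k = inl w`; it is not outer (`g = of (k+1)` would give `vert g (k+3) = inr k` by `of_two`), so by `side_cases` there is `Cross T (k+1) g e g'`.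
  Either `g = lf e`, `e.2 = k`: head of `e` is `inl w` and `vert (rf e) k = inl w`, `vert (rf e) (k+1)` = tail `= vert (lf e) (k+2)`; put `τ (g,k) = (rf e, k)`. Or `g = rf e`,
  `e.2 = k+2`, tail of `e` = `vert (rf e) (e.2+1) = vert g k = inl w`, head = `vert g (k+2)`; `lf e` has the tail with label `e.2+2 = k+1` and the head
  with label `e.2 = k+2`; put `τ (g,k) = (lf e, k+1)`. In both cases with `(g',k') = τ (g,k)`: `vert g' (k'+1) = vert g (k+2)`.
  Let `u (g,k) = X (vert g (k+1)) - X (inl w)`. Then `u (τ (g,k)) = X (vert g (k+2)) - X (inl w)` and `cr (u i) (u (τ i)) = ar (X (vert g k)) (X (vert g (k+1))) (X (vert g (k+2)))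
  = farea g > 0` (`farea_cyc`). Apply `cone_cover`.
* `inner_pos`: inner vertices are strictly inside: fix `j`, `A P = ar (X (inr (j+1))) (X (inr (j+2))) P`. Let `v` minimise `A (X v)` over the finite set of all vertices,
  and suppose an inner vertex `w` has `A (X w) ≤ 0`. At the roots `A` takes the values `0, 0` and `ar(outer) > 0`. So the minimum over all vertices is
  attained at some inner vertex `w0` (if the minimum is `< 0` it is inner, if the minimum is `0` take `w0 = w`). Choose `d` with `cr (X (inr (j+2)) - X (inr (j+1))) d < 0`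
  (e.g. `d` = minus the rotated vector; the linear part of `A` is `d ↦ cr (X (inr (j+2)) - X (inr (j+1))) d`). By `star_cover`,
  `d = α (X a - X w0) + β (X b - X w0)` with `a, b` vertices, `α, β ≥ 0`: so `0 > α (A (X a) - A (X w0)) + β (A (X b) - A (X w0)) ≥ 0`. Contradiction.
* `all_in_outer`: so all vertices are in the closed outer triangle.
* `star_nhd`: for inner `w` there is `ε > 0` such that every `P` with `dist P (X (inl w)) < ε` is in `ftri g` for some face `g` with `inl w` as a vertex: by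
  `star_cover` `P - X w = α (X (vert g (k+1)) - X w) + β (X (vert g (k+2)) - X w)`, which gives `ar (X w) (X (vert g (k+1))) P = β farea g ≥ 0`,
  `ar (X (vert g (k+2))) (X w) P = α farea g ≥ 0`, and `ar (X (vert g (k+1))) (X (vert g (k+2))) P` is a continuous function of `P` with the value
  `farea g > 0` at `P = X w`: positive for `dist P (X w) < ε_g`; take the minimum over the finitely many `(g,k)`.
-/

namespace MP0e5907

open Finset

variable {N F : Type} [Fintype N] [Fintype F]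

private theorem star_f1 (a : Fin 3) : a + 1 + 2 = a := by
  revert a
  decide

private theorem star_f2 (a : Fin 3) : a + 2 + 1 = a := by
  revert a
  decide

private theorem star_f3 (a : Fin 3) : a + 2 + 2 = a + 1 := by
  revert a
  decide

private theorem star_f4 (a : Fin 3) : a + 1 + 1 = a + 2 := by
  revert a
  decide

private theorem star_f5 (i j : Fin 3) : i = j ∨ i = j + 1 ∨ i = j + 2 := by
  revert i j
  decide

omit [Fintype N] [Fintype F] in
private theorem star_next (T : STri N F) (w : N) (g : F) (k : Fin 3) (h : T.vert g k = Sum.inl w) :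
    ∃ (g' : F) (k' : Fin 3), T.vert g' k' = Sum.inl w ∧ T.vert g' (k' + 1) = T.vert g (k + 2) := by
  rcases side_cases T (k + 1) g with h1 | ⟨e, g', h1⟩
  · exfalso
    have h2 := T.of_two (k + 1)
    rw [← h1, star_f1, h] at h2
    exact Sum.inl_ne_inr h2
  · rcases h1 with ⟨hg, hg', hk⟩ | ⟨hg, hg', hk⟩
    · have hk' : k = e.2 := add_right_cancel hk
      subst hk'
      subst hg
      refine ⟨T.rf e, e.2, ?_, ?_⟩
      · rw [T.rf_head, ← T.lf_head, h]
      · rw [T.rf_tail, T.lf_tail]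
    · have hk' : k = e.2 + 1 := by
        have h3 : k + 1 = e.2 + 1 + 1 := by rw [hk, star_f4]
        exact add_right_cancel h3
      subst hk'
      subst hg
      refine ⟨T.lf e, e.2 + 2, ?_, ?_⟩
      · rw [T.lf_tail, ← T.rf_tail, h]
      · rw [star_f2, star_f1, T.lf_head, T.rf_head]

private theorem star_cr (P Q R : ℝ × ℝ) : cr (Q - P) (R - P) = ar P Q R := by
  simp only [cr, ar, Prod.fst_sub, Prod.snd_sub]
  ring

theorem star_cover (T : STri N F) (X : N ⊕ Fin 3 → ℝ × ℝ) (hA : ∀ g, 0 < farea T X g) (w : N) (d : ℝ × ℝ) :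
    ∃ (g : F) (k : Fin 3) (α β : ℝ), T.vert g k = Sum.inl w ∧ 0 ≤ α ∧ 0 ≤ β ∧
      d = α • (X (T.vert g (k + 1)) - X (Sum.inl w)) + β • (X (T.vert g (k + 2)) - X (Sum.inl w)) := by
  have hex : ∀ i : {p : F × Fin 3 // T.vert p.1 p.2 = Sum.inl w},
      ∃ j : {p : F × Fin 3 // T.vert p.1 p.2 = Sum.inl w},
        T.vert j.1.1 (j.1.2 + 1) = T.vert i.1.1 (i.1.2 + 2) := by
    rintro ⟨⟨g, k⟩, h⟩
    obtain ⟨g', k', h1, h2⟩ := star_next T w g k h
    exact ⟨⟨(g', k'), h1⟩, h2⟩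
  choose τ hτ using hex
  have hne : Nonempty {p : F × Fin 3 // T.vert p.1 p.2 = Sum.inl w} :=
    ⟨⟨(T.lf (w, 0), 0 + 2), T.lf_tail (w, 0)⟩⟩
  have hpos : ∀ i : {p : F × Fin 3 // T.vert p.1 p.2 = Sum.inl w},
      0 < cr (X (T.vert i.1.1 (i.1.2 + 1)) - X (Sum.inl w))
        (X (T.vert (τ i).1.1 ((τ i).1.2 + 1)) - X (Sum.inl w)) := by
    intro i
    rw [hτ i, star_cr]
    have h1 := farea_cyc T X i.1.1 i.1.2
    rw [i.2] at h1
    rw [← h1]
    exact hA _
  obtain ⟨i, α, β, hα, hβ, hd⟩ := cone_cover τ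
    (fun i => X (T.vert i.1.1 (i.1.2 + 1)) - X (Sum.inl w)) hpos d
  refine ⟨i.1.1, i.1.2, α, β, i.2, hα, hβ, ?_⟩
  rw [← hτ i]
  exact hd

omit [Fintype N] in
private theorem star_root (X : N ⊕ Fin 3 → ℝ × ℝ)
    (ho : 0 < ar (X (Sum.inr 0)) (X (Sum.inr 1)) (X (Sum.inr 2))) (i j : Fin 3) :
    0 ≤ ar (X (Sum.inr (j + 1))) (X (Sum.inr (j + 2))) (X (Sum.inr i)) := by
  have h := star_f5 i j
  have ho' : ∀ j : Fin 3, ar (X (Sum.inr (j + 1))) (X (Sum.inr (j + 2))) (X (Sum.inr j)) =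
      ar (X (Sum.inr 0)) (X (Sum.inr 1)) (X (Sum.inr 2)) := by
    intro j
    fin_cases j
    · show ar (X (Sum.inr 1)) (X (Sum.inr 2)) (X (Sum.inr 0)) = _
      simp only [ar]
      ring
    · show ar (X (Sum.inr 2)) (X (Sum.inr 0)) (X (Sum.inr 1)) = _
      simp only [ar]
      ring
    · show ar (X (Sum.inr 0)) (X (Sum.inr 1)) (X (Sum.inr 2)) = _
      rfl
  rcases h with h | h | h
  · rw [h, ho' j]
    exact ho.le
  · rw [h]
    have : ar (X (Sum.inr (j + 1))) (X (Sum.inr (j + 2))) (X (Sum.inr (j + 1))) = 0 := by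
      simp only [ar]
      ring
    rw [this]
  · rw [h]
    have : ar (X (Sum.inr (j + 1))) (X (Sum.inr (j + 2))) (X (Sum.inr (j + 2))) = 0 := by
      simp only [ar]
      ring
    rw [this]

omit [Fintype N] in
private theorem star_side_ne (X : N ⊕ Fin 3 → ℝ × ℝ)
    (ho : 0 < ar (X (Sum.inr 0)) (X (Sum.inr 1)) (X (Sum.inr 2))) (j : Fin 3) :
    0 < ((X (Sum.inr (j + 2))).1 - (X (Sum.inr (j + 1))).1) ^ 2 +
      ((X (Sum.inr (j + 2))).2 - (X (Sum.inr (j + 1))).2) ^ 2 := by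
  by_contra hcon
  have h1 : ((X (Sum.inr (j + 2))).1 - (X (Sum.inr (j + 1))).1) ^ 2 +
      ((X (Sum.inr (j + 2))).2 - (X (Sum.inr (j + 1))).2) ^ 2 = 0 :=
    le_antisymm (not_lt.1 hcon) (by positivity)
  have h2 : (X (Sum.inr (j + 2))).1 - (X (Sum.inr (j + 1))).1 = 0 := by
    nlinarith [sq_nonneg ((X (Sum.inr (j + 2))).1 - (X (Sum.inr (j + 1))).1),
      sq_nonneg ((X (Sum.inr (j + 2))).2 - (X (Sum.inr (j + 1))).2)]
  have h3 : (X (Sum.inr (j + 2))).2 - (X (Sum.inr (j + 1))).2 = 0 := by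
    nlinarith [sq_nonneg ((X (Sum.inr (j + 2))).1 - (X (Sum.inr (j + 1))).1),
      sq_nonneg ((X (Sum.inr (j + 2))).2 - (X (Sum.inr (j + 1))).2)]
  fin_cases j
  · have h2' : (X (Sum.inr 2)).1 - (X (Sum.inr 1)).1 = 0 := h2
    have h3' : (X (Sum.inr 2)).2 - (X (Sum.inr 1)).2 = 0 := h3
    have e1 : (X (Sum.inr 2)).1 = (X (Sum.inr 1)).1 := by linarith
    have e2 : (X (Sum.inr 2)).2 = (X (Sum.inr 1)).2 := by linarith
    simp only [ar, e1, e2] at ho
    linarith
  · have h2' : (X (Sum.inr 0)).1 - (X (Sum.inr 2)).1 = 0 := h2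
    have h3' : (X (Sum.inr 0)).2 - (X (Sum.inr 2)).2 = 0 := h3
    have e1 : (X (Sum.inr 0)).1 = (X (Sum.inr 2)).1 := by linarith
    have e2 : (X (Sum.inr 0)).2 = (X (Sum.inr 2)).2 := by linarith
    simp only [ar, e1, e2] at ho
    linarith
  · have h2' : (X (Sum.inr 1)).1 - (X (Sum.inr 0)).1 = 0 := h2
    have h3' : (X (Sum.inr 1)).2 - (X (Sum.inr 0)).2 = 0 := h3
    have e1 : (X (Sum.inr 1)).1 = (X (Sum.inr 0)).1 := by linarith
    have e2 : (X (Sum.inr 1)).2 = (X (Sum.inr 0)).2 := by linarith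
    simp only [ar, e1, e2] at ho
    linarith

theorem inner_pos (T : STri N F) (X : N ⊕ Fin 3 → ℝ × ℝ) (hA : ∀ g, 0 < farea T X g)
    (ho : 0 < ar (X (Sum.inr 0)) (X (Sum.inr 1)) (X (Sum.inr 2))) (w : N) (j : Fin 3) :
    0 < ar (X (Sum.inr (j + 1))) (X (Sum.inr (j + 2))) (X (Sum.inl w)) := by
  by_contra hcon
  have hw : ar (X (Sum.inr (j + 1))) (X (Sum.inr (j + 2))) (X (Sum.inl w)) ≤ 0 := not_lt.1 hcon
  -- a minimising inner vertex
  have hmin : ∃ w0 : N, ∀ v, ar (X (Sum.inr (j + 1))) (X (Sum.inr (j + 2))) (X (Sum.inl w0)) ≤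
      ar (X (Sum.inr (j + 1))) (X (Sum.inr (j + 2))) (X v) := by
    have : Nonempty (N ⊕ Fin 3) := ⟨Sum.inl w⟩
    obtain ⟨v0, hv0⟩ := Finite.exists_min
      (fun v => ar (X (Sum.inr (j + 1))) (X (Sum.inr (j + 2))) (X v))
    rcases v0 with w0 | i
    · exact ⟨w0, hv0⟩
    · refine ⟨w, fun v => ?_⟩
      have h1 := hv0 v
      have h2 := star_root X ho i j
      linarith
  obtain ⟨w0, hw0⟩ := hmin
  obtain ⟨g, k, α, β, -, hα, hβ, hd⟩ := star_cover T X hA w0
    ((X (Sum.inr (j + 2))).2 - (X (Sum.inr (j + 1))).2,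
      -((X (Sum.inr (j + 2))).1 - (X (Sum.inr (j + 1))).1))
  have hV := star_side_ne X ho j
  have ha := hw0 (T.vert g (k + 1))
  have hb := hw0 (T.vert g (k + 2))
  have d1 := congrArg Prod.fst hd
  have d2 := congrArg Prod.snd hd
  simp only [Prod.fst_add, Prod.snd_add, Prod.smul_fst, Prod.smul_snd, Prod.fst_sub,
    Prod.snd_sub, smul_eq_mul] at d1 d2
  simp only [ar] at ha hb
  have h1 := mul_nonneg hα (sub_nonneg.2 ha)
  have h2 := mul_nonneg hβ (sub_nonneg.2 hb)
  have h3 : -(((X (Sum.inr (j + 2))).1 - (X (Sum.inr (j + 1))).1) ^ 2 +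
      ((X (Sum.inr (j + 2))).2 - (X (Sum.inr (j + 1))).2) ^ 2) =
      ((X (Sum.inr (j + 2))).1 - (X (Sum.inr (j + 1))).1) *
        (-((X (Sum.inr (j + 2))).1 - (X (Sum.inr (j + 1))).1)) -
      ((X (Sum.inr (j + 2))).2 - (X (Sum.inr (j + 1))).2) *
        ((X (Sum.inr (j + 2))).2 - (X (Sum.inr (j + 1))).2) := by ring
  have h4 : ((X (Sum.inr (j + 2))).1 - (X (Sum.inr (j + 1))).1) *
        (-((X (Sum.inr (j + 2))).1 - (X (Sum.inr (j + 1))).1)) -
      ((X (Sum.inr (j + 2))).2 - (X (Sum.inr (j + 1))).2) *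
        ((X (Sum.inr (j + 2))).2 - (X (Sum.inr (j + 1))).2) =
      ((X (Sum.inr (j + 2))).1 - (X (Sum.inr (j + 1))).1) *
        (α * ((X (T.vert g (k + 1))).2 - (X (Sum.inl w0)).2) +
          β * ((X (T.vert g (k + 2))).2 - (X (Sum.inl w0)).2)) -
      ((X (Sum.inr (j + 2))).2 - (X (Sum.inr (j + 1))).2) *
        (α * ((X (T.vert g (k + 1))).1 - (X (Sum.inl w0)).1) +
          β * ((X (T.vert g (k + 2))).1 - (X (Sum.inl w0)).1)) := by
    rw [← d1, ← d2]
  nlinarith [h1, h2, h3, h4, hV]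

theorem all_in_outer (T : STri N F) (X : N ⊕ Fin 3 → ℝ × ℝ) (hA : ∀ g, 0 < farea T X g)
    (ho : 0 < ar (X (Sum.inr 0)) (X (Sum.inr 1)) (X (Sum.inr 2))) (v : N ⊕ Fin 3) (j : Fin 3) :
    0 ≤ ar (X (Sum.inr (j + 1))) (X (Sum.inr (j + 2))) (X v) := by
  rcases v with w | i
  · exact (inner_pos T X hA ho w j).le
  · exact star_root X ho i j

theorem star_nhd (T : STri N F) (X : N ⊕ Fin 3 → ℝ × ℝ) (hA : ∀ g, 0 < farea T X g) (w : N) :
    ∃ ε : ℝ, 0 < ε ∧ ∀ P, dist P (X (Sum.inl w)) < ε →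
      ∃ g k, T.vert g k = Sum.inl w ∧ P ∈ ftri T X g := by
  have hev : ∀ᶠ P in nhds (X (Sum.inl w)), ∀ i : F × Fin 3, T.vert i.1 i.2 = Sum.inl w →
      0 < ar (X (T.vert i.1 (i.2 + 1))) (X (T.vert i.1 (i.2 + 2))) P := by
    rw [Filter.eventually_all]
    rintro ⟨g, k⟩
    by_cases h : T.vert g k = Sum.inl w
    · have hc : Continuous fun P : ℝ × ℝ => ar (X (T.vert g (k + 1))) (X (T.vert g (k + 2))) P := by
        unfold ar
        fun_prop
      have h1 : 0 < ar (X (T.vert g (k + 1))) (X (T.vert g (k + 2))) (X (Sum.inl w)) := by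
        have h2 := farea_cyc T X g (k + 1)
        rw [star_f4, star_f1, h] at h2
        rw [← h2]
        exact hA g
      filter_upwards [hc.continuousAt.eventually (lt_mem_nhds h1)] with P hP _
      exact hP
    · exact Filter.Eventually.of_forall fun P h' => absurd h' h
  obtain ⟨ε, hε, hball⟩ := Metric.eventually_nhds_iff.1 hev
  refine ⟨ε, hε, fun P hP => ?_⟩
  have hP' := hball hP
  obtain ⟨g, k, α, β, hv, hα, hβ, hd⟩ := star_cover T X hA w (P - X (Sum.inl w))
  refine ⟨g, k, hv, (mem_ftri T X g P).2 fun k' => ?_⟩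
  have hk := star_f5 k' k
  have hf := farea_cyc T X g k
  rw [hv] at hf
  have hg := hA g
  have d1 := congrArg Prod.fst hd
  have d2 := congrArg Prod.snd hd
  simp only [Prod.fst_add, Prod.snd_add, Prod.smul_fst, Prod.smul_snd, Prod.fst_sub,
    Prod.snd_sub, smul_eq_mul] at d1 d2
  have p1 : P.1 = (X (Sum.inl w)).1 + (α * ((X (T.vert g (k + 1))).1 - (X (Sum.inl w)).1) +
      β * ((X (T.vert g (k + 2))).1 - (X (Sum.inl w)).1)) := by linarith
  have p2 : P.2 = (X (Sum.inl w)).2 + (α * ((X (T.vert g (k + 1))).2 - (X (Sum.inl w)).2) +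
      β * ((X (T.vert g (k + 2))).2 - (X (Sum.inl w)).2)) := by linarith
  rcases hk with rfl | rfl | rfl
  · exact (hP' (g, k') hv).le
  · rw [star_f4, star_f1, hv]
    have h1 : ar (X (T.vert g (k + 2))) (X (Sum.inl w)) P = α * farea T X g := by
      rw [hf]
      simp only [ar, p1, p2]
      ring
    rw [h1]
    exact mul_nonneg hα hg.le
  · rw [star_f2, star_f3, hv]
    have h1 : ar (X (Sum.inl w)) (X (T.vert g (k + 1))) P = β * farea T X g := by
      rw [hf]
      simp only [ar, p1, p2]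
      ring
    rw [h1]
    exact mul_nonneg hβ hg.le

end MP0e5907
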