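import Pool.Agent.Lib_MP_0e5907.Exchange
import Pool.Agent.Lib_MP_0e5907.BasisD

/-!
# Piece WEIGHTS: most of the weight is on good bases avoiding the exit edges

Paper proof.
* `swap_count`: for `S ∈ A` choose `z ∈ S ∩ Z`, `r ∉ S`. `∑_{S∈A} w S ≤ ∑_{z∈Z} ∑_r ∑_{S ∈ A, z∈S, r∉S, S' ∈ B} κ w(S')` with
  `S' = insert r (S.erase z)`. For fixed `(z,r)` the map `S ↦ S'` is injective on `{S : z ∈ S, r ∉ S}` (`S = insert z (S'.erase r)`), so the inner sum
  is at most `κ ∑_{S'∈B} w S'` (`Finset.sum_le_sum_of_injOn`-type argument: `sum_image`/`sum_nbij` into `B` and nonnegativity).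
* `wprod_swap`: `wprod ω (insert r (S.erase z)) * ω z = wprod ω S * ω r` for `z ∈ S`, `r ∉ S`
  (`Finset.prod_insert`, `Finset.mul_prod_erase`).
* `bad_le`: `M ≥ 1`. `S` a basis which is not good: there are `z ∈ S`, a dual potential `u` and `r` with `dif (ext0 u) r ≠ 0` and `lev r < lev z`.
  `r ≠ z`, so `r ∉ S`. `S'` is a basis (`IsB_swap`), `D(S') = D(S)` (`D_swap`, `IsB_unit`: the square is `1`), and
  `wprod (wt) S' ≥ M wprod (wt) S` because `wt r = M^(t - lev r) ≥ M * M^(t - lev z)` (`lev z ≤ t`). So `w S ≤ (1/M) w S'`, and `swap_count` with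
  `Z = univ`, `κ = 1/M`, `|E| = 3n`: `∑_{bad} w ≤ (9 n²/M) ∑_{all bases} w ≤ (1/2) ∑_{all}` if `M ≥ 18 n²`.
* `avoid_step`: for `Y' ⊆ YY f`, `y ∈ YY f`, `y ∉ Y'`: `W(Y') ≤ (1+3n) W(insert y Y')` where `W(Y')` is the sum of `w` over good bases disjoint
  from `Y'`. Split `W(Y')` according to `y ∈ S`. If `y ∉ S` then `S` is counted in `W(insert y Y')`. If `y ∈ S` then `y ∈ Yset T t f i` for some `i` and
  `exchange` gives `r ∉ S`, `r ∉ YY`, `S'` good basis, disjoint from `insert y Y'` (`r ≠ y`, since `y ∈ S`), with `w S' = w S`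
  (`wt r = wt y`, `D` equal). `swap_count` with `Z = {y}`, `κ = 1` gives the factor `3n`.
* `avoid_le`: induction over `Y' ⊆ YY f` (`Finset.induction_on`), `#YY ≤ 3t` (`YY_card`) and `1 + 3n ≥ 1`.
-/

namespace MP0e5907

open Finset

theorem swap_count {E : Type} [Fintype E] [DecidableEq E] (A B : Finset (Finset E)) (w : Finset E → ℝ)
    (hw : ∀ S ∈ B, 0 ≤ w S) (κ : ℝ) (hκ : 0 ≤ κ) (Z : Finset E)
    (h : ∀ S ∈ A, ∃ z ∈ S, z ∈ Z ∧ ∃ r, r ∉ S ∧ insert r (S.erase z) ∈ B ∧ w S ≤ κ * w (insert r (S.erase z))) :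
    ∑ S ∈ A, w S ≤ κ * (Z.card * Fintype.card E) * ∑ S ∈ B, w S := by
  classical
  let φ : E → E → Finset E → Finset E := fun z r S => insert r (S.erase z)
  let Pr : E → E → Finset E → Prop := fun z r S => z ∈ S ∧ r ∉ S ∧ φ z r S ∈ B
  have hinj : ∀ z r, ∀ S, Pr z r S → insert z ((φ z r S).erase r) = S := by
    rintro z r S ⟨hz, hr, _⟩
    have h1 : r ∉ S.erase z := fun h2 => hr (Finset.mem_of_mem_erase h2)
    change insert z ((insert r (S.erase z)).erase r) = S
    rw [Finset.erase_insert h1, Finset.insert_erase hz]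
  have hnn : ∀ z r S, 0 ≤ (if Pr z r S then κ * w (φ z r S) else 0) := by
    intro z r S
    split_ifs with h1
    · exact mul_nonneg hκ (hw _ h1.2.2)
    · exact le_rfl
  have h1 : ∀ S ∈ A, w S ≤ ∑ z ∈ Z, ∑ r : E, if Pr z r S then κ * w (φ z r S) else 0 := by
    intro S hS
    obtain ⟨z, hz, hzZ, r, hr, hB, hle⟩ := h S hS
    have hP : Pr z r S := ⟨hz, hr, hB⟩
    calc w S ≤ κ * w (φ z r S) := hle
      _ = if Pr z r S then κ * w (φ z r S) else 0 := (if_pos hP).symm
      _ ≤ ∑ r : E, if Pr z r S then κ * w (φ z r S) else 0 :=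
        Finset.single_le_sum (f := fun r => if Pr z r S then κ * w (φ z r S) else 0)
          (fun r _ => hnn z r S) (Finset.mem_univ r)
      _ ≤ _ := Finset.single_le_sum
          (f := fun z => ∑ r : E, if Pr z r S then κ * w (φ z r S) else 0)
          (fun z _ => Finset.sum_nonneg fun r _ => hnn z r S) hzZ
  have h2 : ∀ z r, ∑ S ∈ A, (if Pr z r S then κ * w (φ z r S) else 0) ≤ κ * ∑ S ∈ B, w S := by
    intro z r
    rw [← Finset.sum_filter, ← Finset.mul_sum]
    refine mul_le_mul_of_nonneg_left ?_ hκ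
    have hI : Set.InjOn (φ z r) (A.filter (Pr z r) : Set (Finset E)) := by
      intro S hS S' hS' he
      have e1 := hinj z r S (Finset.mem_filter.1 hS).2
      have e2 := hinj z r S' (Finset.mem_filter.1 hS').2
      rw [← e1, ← e2, he]
    have h3 : ∑ S ∈ A.filter (Pr z r), w (φ z r S) = ∑ S' ∈ (A.filter (Pr z r)).image (φ z r), w S' :=
      (Finset.sum_image hI).symm
    rw [h3]
    refine Finset.sum_le_sum_of_subset_of_nonneg ?_ (fun S hS _ => hw S hS)
    intro S' hS'
    obtain ⟨S, hS, rfl⟩ := Finset.mem_image.1 hS'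
    exact (Finset.mem_filter.1 hS).2.2.2
  calc ∑ S ∈ A, w S ≤ ∑ S ∈ A, ∑ z ∈ Z, ∑ r : E, (if Pr z r S then κ * w (φ z r S) else 0) :=
        Finset.sum_le_sum h1
    _ = ∑ z ∈ Z, ∑ r : E, ∑ S ∈ A, (if Pr z r S then κ * w (φ z r S) else 0) := by
        rw [Finset.sum_comm]
        refine Finset.sum_congr rfl fun z _ => ?_
        rw [Finset.sum_comm]
    _ ≤ ∑ z ∈ Z, ∑ r : E, κ * ∑ S ∈ B, w S :=
        Finset.sum_le_sum fun z _ => Finset.sum_le_sum fun r _ => h2 z r
    _ = κ * (Z.card * Fintype.card E) * ∑ S ∈ B, w S := by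
        rw [Finset.sum_const, Finset.sum_const, nsmul_eq_mul, nsmul_eq_mul, Finset.card_univ]
        ring

variable {N F : Type} [Fintype N] [Fintype F] [DecidableEq N]

omit [Fintype N] [Fintype F] in
theorem wprod_swap (ω : N × Fin 3 → ℝ) (S : Finset (N × Fin 3)) (z r : N × Fin 3) (hz : z ∈ S) (hr : r ∉ S) :
    wprod ω (insert r (S.erase z)) * ω z = wprod ω S * ω r := by
  unfold wprod
  have h1 : r ∉ S.erase z := fun h2 => hr (Finset.mem_of_mem_erase h2)
  rw [Finset.prod_insert h1, mul_assoc, Finset.prod_erase_mul S ω hz, mul_comm]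

open Classical in
/-- bases -/
noncomputable def bases (T : STri N F) : Finset (Finset (N × Fin 3)) := Finset.univ.filter (IsB T)

open Classical in
/-- good bases disjoint from `Y` -/
noncomputable def goodB (T : STri N F) (t : ℕ) (Y : Finset (N × Fin 3)) : Finset (Finset (N × Fin 3)) :=
  Finset.univ.filter fun S => IsB T S ∧ Good T t S ∧ Disjoint S Y

/-- weight of an edge set -/
noncomputable def wD (T : STri N F) (t : ℕ) (M : ℝ) (S : Finset (N × Fin 3)) : ℝ :=
  wprod (wt T t M) S * (Gm T (ind S)).det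

theorem wD_nonneg (T : STri N F) (t : ℕ) (M : ℝ) (hM : 1 ≤ M) (S : Finset (N × Fin 3)) : 0 ≤ wD T t M S := by
  unfold wD wprod wt
  refine mul_nonneg (Finset.prod_nonneg fun e _ => pow_nonneg (by linarith) _)
    (Gm_det_nonneg T _ fun e => ?_)
  unfold ind
  split_ifs
  · exact zero_le_one
  · exact le_rfl

omit [Fintype N] [DecidableEq N] in
private theorem w_wt_pos (T : STri N F) (t : ℕ) (M : ℝ) (hM : 1 ≤ M) (e : N × Fin 3) :
    0 < wt T t M e := pow_pos (by linarith) _

private theorem w_sq (T : STri N F) (S : Finset (N × Fin 3)) (hS : IsB T S) (z : N × Fin 3)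
    (hz : z ∈ S) (u : N → ℝ) (h0 : ∀ e ∈ S, e ≠ z → dif T (ext0 u) e = 0)
    (h1 : dif T (ext0 u) z = 1) (r : N × Fin 3) (hr : dif T (ext0 u) r ≠ 0) :
    (Gm T (ind (insert r (S.erase z)))).det = (Gm T (ind S)).det := by
  rw [D_swap T S z hz u h0 h1 r hr]
  rcases IsB_unit T S hS z hz u h0 h1 r with h | h | h
  · exact absurd h hr
  · rw [h]
    ring
  · rw [h]
    ring

theorem bad_le (T : STri N F) (t : ℕ) (M : ℝ) (hM : 1 ≤ M) (hM2 : 18 * (Fintype.card N : ℝ) ^ 2 ≤ M) :
    ∑ S ∈ bases T, wD T t M S ≤ 2 * ∑ S ∈ goodB T t ∅, wD T t M S := by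
  classical
  have hM0 : 0 < M := by linarith
  have hgood : (bases T).filter (Good T t) = goodB T t ∅ := by
    ext S
    simp only [bases, goodB, Finset.mem_filter, Finset.mem_univ, true_and,
      Finset.disjoint_empty_right, and_true]
  have hsplit := Finset.sum_filter_add_sum_filter_not (bases T) (Good T t) (wD T t M)
  rw [hgood] at hsplit
  have hbad : ∑ S ∈ (bases T).filter (fun S => ¬ Good T t S), wD T t M S ≤
      (1 / M) * ((Finset.univ : Finset (N × Fin 3)).card * Fintype.card (N × Fin 3)) *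
        ∑ S ∈ bases T, wD T t M S := by
    refine swap_count _ _ _ (fun S _ => wD_nonneg T t M hM S) _ (by positivity) _ ?_
    intro S hS
    obtain ⟨hSb, hSg⟩ := Finset.mem_filter.1 hS
    have hB : IsB T S := (Finset.mem_filter.1 hSb).2
    unfold Good at hSg
    push Not at hSg
    obtain ⟨z, hz, u, h0, h1, r, hr, hl⟩ := hSg
    have hrz : r ≠ z := by
      rintro rfl
      exact lt_irrefl _ hl
    have hrS : r ∉ S := fun h2 => hr (h0 r h2 hrz)
    refine ⟨z, hz, Finset.mem_univ z, r, hrS, ?_, ?_⟩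
    · exact Finset.mem_filter.2 ⟨Finset.mem_univ _, IsB_swap T S hB z hz u h0 h1 r hr⟩
    · have hD := w_sq T S hB z hz u h0 h1 r hr
      have hDn : 0 ≤ (Gm T (ind S)).det := Gm_det_nonneg T _ fun e => by
        unfold ind
        split_ifs
        · exact zero_le_one
        · exact le_rfl
      have hw := wprod_swap (wt T t M) S z r hz hrS
      have hlz : lev T t z ≤ t := lev_le T t z
      have hwt : M * wt T t M z ≤ wt T t M r := by
        unfold wt
        rw [← pow_succ']
        exact pow_le_pow_right₀ hM (by omega)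
      have hS0 : 0 ≤ wprod (wt T t M) S := Finset.prod_nonneg fun e _ => (w_wt_pos T t M hM e).le
      have hzpos := w_wt_pos T t M hM z
      have hle : M * wprod (wt T t M) S ≤ wprod (wt T t M) (insert r (S.erase z)) := by
        have h3 : M * wprod (wt T t M) S * wt T t M z ≤
            wprod (wt T t M) (insert r (S.erase z)) * wt T t M z := by
          rw [hw]
          calc M * wprod (wt T t M) S * wt T t M z = wprod (wt T t M) S * (M * wt T t M z) := by ring
            _ ≤ _ := mul_le_mul_of_nonneg_left hwt hS0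
        exact le_of_mul_le_mul_right h3 hzpos
      unfold wD
      rw [hD]
      rw [← mul_assoc, one_div]
      refine mul_le_mul_of_nonneg_right ?_ hDn
      rw [le_inv_mul_iff₀ hM0]
      exact hle
  have hcard : ((Finset.univ : Finset (N × Fin 3)).card : ℝ) = 3 * Fintype.card N := by
    rw [Finset.card_univ, Fintype.card_prod, Fintype.card_fin]
    push_cast
    ring
  have hcard' : (Fintype.card (N × Fin 3) : ℝ) = 3 * Fintype.card N := by
    rw [Fintype.card_prod, Fintype.card_fin]
    push_cast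
    ring
  rw [hcard, hcard'] at hbad
  have hW : 0 ≤ ∑ S ∈ bases T, wD T t M S := Finset.sum_nonneg fun S _ => wD_nonneg T t M hM S
  have hc : (1 / M) * (3 * (Fintype.card N : ℝ) * (3 * Fintype.card N)) ≤ 1 / 2 := by
    rw [one_div, inv_mul_le_iff₀ hM0]
    nlinarith
  have h5 := mul_le_mul_of_nonneg_right hc hW
  linarith

theorem avoid_le (T : STri N F) (t : ℕ) (ht : 5 ^ t * Fintype.card F < 2 * 6 ^ t) (M : ℝ) (hM : 1 ≤ M) (f : F) :
    ∑ S ∈ goodB T t ∅, wD T t M S ≤
      (1 + 3 * (Fintype.card N : ℝ)) ^ (3 * t) * ∑ S ∈ goodB T t (YY T t f), wD T t M S := by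
  classical
  have step : ∀ (Y' : Finset (N × Fin 3)), Y' ⊆ YY T t f → ∀ y ∈ YY T t f,
      ∑ S ∈ goodB T t Y', wD T t M S ≤
        (1 + 3 * (Fintype.card N : ℝ)) * ∑ S ∈ goodB T t (insert y Y'), wD T t M S := by
    intro Y' hY' y hy
    have hsplit := Finset.sum_filter_add_sum_filter_not (goodB T t Y') (fun S => y ∈ S) (wD T t M)
    have hnot : (goodB T t Y').filter (fun S => ¬ y ∈ S) = goodB T t (insert y Y') := by
      ext S
      simp only [goodB, Finset.mem_filter, Finset.mem_univ, true_and, Finset.disjoint_insert_right]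
      tauto
    rw [hnot] at hsplit
    have hin : ∑ S ∈ (goodB T t Y').filter (fun S => y ∈ S), wD T t M S ≤
        1 * (({y} : Finset (N × Fin 3)).card * Fintype.card (N × Fin 3)) *
          ∑ S ∈ goodB T t (insert y Y'), wD T t M S := by
      refine swap_count _ _ _ (fun S _ => wD_nonneg T t M hM S) _ zero_le_one _ ?_
      intro S hS
      obtain ⟨hSb, hyS⟩ := Finset.mem_filter.1 hS
      obtain ⟨hB, hG, hdis⟩ := (Finset.mem_filter.1 hSb).2
      have hy' := hy
      simp only [YY, Finset.mem_filter, Finset.mem_univ, true_and] at hy'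
      obtain ⟨i, hi⟩ := hy'
      obtain ⟨r, u, hrS, hrY, hl, h0, h1, hr, hB', hG'⟩ := exchange T t ht f i S hB hG y hyS hi
      refine ⟨y, hyS, Finset.mem_singleton_self y, r, hrS, ?_, ?_⟩
      · refine Finset.mem_filter.2 ⟨Finset.mem_univ _, hB', hG', ?_⟩
        rw [Finset.disjoint_left]
        intro e he heY
        rcases Finset.mem_insert.1 he with rfl | he
        · rcases Finset.mem_insert.1 heY with rfl | heY
          · exact hrS hyS
          · exact hrY (hY' heY)
        · rcases Finset.mem_insert.1 heY with rfl | heY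
          · exact Finset.notMem_erase _ _ he
          · exact Finset.disjoint_left.1 hdis (Finset.mem_of_mem_erase he) heY
      · have hD := w_sq T S hB y hyS u h0 h1 r hr
        have hw := wprod_swap (wt T t M) S y r hyS hrS
        have hwt : wt T t M r = wt T t M y := by
          unfold wt
          rw [hl]
        rw [hwt] at hw
        have hw' := mul_right_cancel₀ (w_wt_pos T t M hM y).ne' hw
        unfold wD
        rw [hD, hw', one_mul]
    have hcard' : (Fintype.card (N × Fin 3) : ℝ) = 3 * Fintype.card N := by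
      rw [Fintype.card_prod, Fintype.card_fin]
      push_cast
      ring
    rw [Finset.card_singleton, hcard'] at hin
    have h6 : 1 * (((1 : ℕ) : ℝ) * (3 * (Fintype.card N : ℝ))) = 3 * (Fintype.card N : ℝ) := by
      push_cast
      ring
    rw [h6] at hin
    rw [← hsplit, add_mul, one_mul]
    linarith
  have hn : (1 : ℝ) ≤ 1 + 3 * (Fintype.card N : ℝ) := by
    have : (0 : ℝ) ≤ (Fintype.card N : ℝ) := Nat.cast_nonneg _
    linarith
  have key : ∀ Y' : Finset (N × Fin 3), Y' ⊆ YY T t f →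
      ∑ S ∈ goodB T t ∅, wD T t M S ≤
        (1 + 3 * (Fintype.card N : ℝ)) ^ Y'.card * ∑ S ∈ goodB T t Y', wD T t M S := by
    intro Y'
    induction Y' using Finset.induction_on with
    | empty =>
      intro _
      rw [Finset.card_empty, pow_zero, one_mul]
    | insert y Y' hy ih =>
      intro hsub
      have h1 : Y' ⊆ YY T t f := fun e he => hsub (Finset.mem_insert_of_mem he)
      have h2 := ih h1
      have h3 := step Y' h1 y (hsub (Finset.mem_insert_self y Y'))
      rw [Finset.card_insert_of_notMem hy, pow_succ, mul_assoc]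
      exact h2.trans (mul_le_mul_of_nonneg_left h3 (pow_nonneg (by linarith) _))
  refine (key _ (Finset.Subset.refl _)).trans (mul_le_mul_of_nonneg_right ?_
    (Finset.sum_nonneg fun S _ => wD_nonneg T t M hM S))
  exact pow_le_pow_right₀ hn (YY_card T t ht f)

end MP0e5907
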